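import Pool.Agent.Helper7_ND.Stm3

/-! # Working with bounded families, reduced products and ideals -/

set_option autoImplicit false
set_option linter.unusedSectionVars false
set_option linter.unusedVariables false

open scoped Matrix.Norms.L2Operator ENNReal Matrix
open Pool.Agent.W659.EC

noncomputable section

namespace Pool.Agent.Helper7_ND

theorem pos_iff {A : Type} [NonUnitalCStarAlgebra A] [PartialOrder A] [StarOrderedRing A] (a : A) :
    Pos a ↔ 0 ≤ a := (nonneg_iff_star a).symm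

theorem Pos.sa {A : Type} [NonUnitalCStarAlgebra A] {a : A} (h : Pos a) : star a = a := by
  obtain ⟨b, rfl⟩ := h
  simp

theorem Pos.map {A B : Type} [NonUnitalCStarAlgebra A] [NonUnitalCStarAlgebra B] {a : A}
    (h : Pos a) {F : Type} [FunLike F A B] [NonUnitalAlgHomClass F ℂ A B] [StarHomClass F A B]
    (π : F) : Pos (π a) := by
  obtain ⟨b, rfl⟩ := h
  exact ⟨π b, by rw [map_mul, map_star]⟩

theorem Pos.conj {A : Type} [NonUnitalCStarAlgebra A] {a : A} (h : Pos a) (c : A) :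
    Pos (star c * a * c) := by
  obtain ⟨b, rfl⟩ := h
  exact ⟨b * c, by simp only [star_mul, mul_assoc]⟩

theorem Pos.add {A : Type} [NonUnitalCStarAlgebra A] {a b : A} (ha : Pos a) (hb : Pos b) :
    Pos (a + b) := by
  let _ := CStarAlgebra.spectralOrder A
  let _ := CStarAlgebra.spectralOrderedRing A
  rw [pos_iff] at *
  exact add_nonneg ha hb

theorem Pos.zero {A : Type} [NonUnitalCStarAlgebra A] : Pos (0 : A) := ⟨0, by simp⟩

theorem Pos.smul {A : Type} [NonUnitalCStarAlgebra A] {a : A} (ha : Pos a) {c : ℝ} (hc : 0 ≤ c) :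
    Pos ((c : ℂ) • a) := by
  obtain ⟨b, rfl⟩ := ha
  refine ⟨((Real.sqrt c : ℝ) : ℂ) • b, ?_⟩
  rw [star_smul, smul_mul_smul_comm, Complex.star_def, Complex.conj_ofReal, ← Complex.ofReal_mul,
    Real.mul_self_sqrt hc]

theorem Pos.sum {A : Type} [NonUnitalCStarAlgebra A] {J : Type} (s : Finset J) {f : J → A}
    (h : ∀ j ∈ s, Pos (f j)) : Pos (∑ j ∈ s, f j) := by
  let _ := CStarAlgebra.spectralOrder A
  let _ := CStarAlgebra.spectralOrderedRing A
  rw [pos_iff]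
  exact Finset.sum_nonneg fun j hj => (pos_iff _).1 (h j hj)

theorem Pos.norm_le {A : Type} [NonUnitalCStarAlgebra A] {a b : A} (ha : Pos a)
    (hb : Pos (b - a)) : ‖a‖ ≤ ‖b‖ := by
  let _ := CStarAlgebra.spectralOrder A
  let _ := CStarAlgebra.spectralOrderedRing A
  rw [pos_iff] at *
  exact CStarAlgebra.norm_le_norm_of_nonneg_of_le ha (sub_nonneg.1 hb)

theorem IsCP.pos {A B : Type} [NonUnitalCStarAlgebra A] [NonUnitalCStarAlgebra B]
    {φ : A →ₗ[ℂ] B} (h : IsCP φ) {a : A} (ha : Pos a) : Pos (φ a) := by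
  let _ := CStarAlgebra.spectralOrder B
  let _ := CStarAlgebra.spectralOrderedRing B
  obtain ⟨b, rfl⟩ := ha
  rw [pos_iff]
  exact h.nonneg b

theorem hom_norm {A B : Type} [NonUnitalCStarAlgebra A] [NonUnitalCStarAlgebra B]
    (j : A →⋆ₙₐ[ℂ] B) (hj : Function.Injective j) (a : A) : ‖j a‖ = ‖a‖ :=
  NonUnitalStarAlgHom.norm_map j hj a

/-- conjugation is completely positive -/
def conjL {A : Type} [NonUnitalCStarAlgebra A] (a : A) : A →ₗ[ℂ] A where
  toFun b := star a * b * a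
  map_add' x y := by rw [mul_add, add_mul]
  map_smul' c x := by rw [mul_smul_comm, smul_mul_assoc]; rfl

theorem conjL_apply {A : Type} [NonUnitalCStarAlgebra A] (a b : A) :
    conjL a b = star a * b * a := rfl

theorem isCP_conjL {A : Type} [NonUnitalCStarAlgebra A] (a : A) : IsCP (conjL a) := by
  intro k M
  refine ⟨M.map fun x => x * a, ?_⟩
  ext i j
  simp only [Matrix.map_apply, Matrix.mul_apply, Matrix.conjTranspose_apply, conjL_apply,
    Finset.mul_sum, Finset.sum_mul, star_mul, mul_assoc]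

section rpapi

variable {Λ : Type} {X : Λ → Type} [∀ l, CStarAlgebra (X l)] [∀ l, Nontrivial (X l)]

/-- a bounded family as an element of the product -/
def mkL (f : ∀ l, X l) (h : ∃ C : ℝ, ∀ l, ‖f l‖ ≤ C) : lp X ∞ :=
  ⟨f, memℓp_infty (by
    obtain ⟨C, hC⟩ := h
    exact ⟨C, by rintro _ ⟨l, rfl⟩; exact hC l⟩)⟩

@[simp] theorem mkL_apply (f : ∀ l, X l) (h : ∃ C : ℝ, ∀ l, ‖f l‖ ≤ C) (l : Λ) :
    mkL f h l = f l := rfl

/-- evaluation -/
def evL (l : Λ) : lp X ∞ →⋆ₐ[ℂ] X l where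
  toFun a := a l
  map_one' := rfl
  map_mul' _ _ := rfl
  map_zero' := rfl
  map_add' _ _ := rfl
  commutes' _ := rfl
  map_star' _ := rfl

@[simp] theorem evL_apply (l : Λ) (x : lp X ∞) : evL l x = x l := rfl

theorem lpNormApply (x : lp X ∞) (l : Λ) : ‖x l‖ ≤ ‖x‖ :=
  lp.norm_apply_le_norm ENNReal.top_ne_zero x l

theorem lpBdd (x : lp X ∞) : ∃ C : ℝ, ∀ l, ‖x l‖ ≤ C := ⟨‖x‖, lpNormApply x⟩

theorem lpNormLe {x : lp X ∞} {C : ℝ} (hC : 0 ≤ C) (h : ∀ l, ‖x l‖ ≤ C) : ‖x‖ ≤ C :=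
  lp.norm_le_of_forall_le hC h

theorem lpExt {x y : lp X ∞} (h : ∀ l, x l = y l) : x = y := lp.ext (funext h)

theorem lp_pos {x : lp X ∞} (h : ∀ l, Pos (x l)) : Pos x := by
  let _ := CStarAlgebra.spectralOrder (lp X ∞)
  let _ := CStarAlgebra.spectralOrderedRing (lp X ∞)
  let _ := fun l => CStarAlgebra.spectralOrder (X l)
  let _ := fun l => CStarAlgebra.spectralOrderedRing (X l)
  rw [pos_iff]
  refine nonneg_of_family (fun l => ((evL l : lp X ∞ →⋆ₐ[ℂ] X l) : lp X ∞ →⋆ₙₐ[ℂ] X l)) ?_ x ?_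
  · intro a ha
    exact lpExt fun l => ha l
  · intro l
    exact (pos_iff _).1 (h l)

theorem lp_cp {A : Type} [NonUnitalCStarAlgebra A] (φ : A →ₗ[ℂ] lp X ∞)
    (h : ∀ l, IsCP (((evL l : lp X ∞ →⋆ₐ[ℂ] X l) : lp X ∞ →ₗ[ℂ] X l) ∘ₗ φ)) : IsCP φ :=
  isCP_of_family (fun l => ((evL l : lp X ∞ →⋆ₐ[ℂ] X l) : lp X ∞ →⋆ₙₐ[ℂ] X l))
    (fun a ha => lpExt fun l => ha l) φ h

variable {ℱ : Filter Λ} {Q : Type} [CStarAlgebra Q] {q : lp X ∞ →⋆ₐ[ℂ] Q}

theorem IsRP.eq (h : IsRP X ℱ Q q) {x y : lp X ∞} (hxy : ∀ ε : ℝ, 0 < ε → ∀ᶠ l in ℱ, ‖x l - y l‖ ≤ ε) :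
    q x = q y := by
  rw [← sub_eq_zero, ← map_sub, ← norm_le_zero_iff]
  refine le_of_forall_pos_le_add fun ε hε => ?_
  rw [zero_add]
  exact h.le _ ε hε.le ((hxy ε hε).mono fun l hl => hl)

theorem IsRP.eq_of_eventually (h : IsRP X ℱ Q q) {x y : lp X ∞} (hxy : ∀ᶠ l in ℱ, x l = y l) :
    q x = q y :=
  h.eq fun ε hε => hxy.mono fun l hl => by rw [hl, sub_self, norm_zero]; exact hε.le

theorem IsRP.small (h : IsRP X ℱ Q q) {x y : lp X ∞} (hxy : q x = q y) {ε : ℝ} (hε : 0 < ε) :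
    ∀ᶠ l in ℱ, ‖x l - y l‖ < ε := by
  have h1 : ‖q (x - y)‖ < ε := by rw [map_sub, hxy, sub_self, norm_zero]; exact hε
  exact (h.lt _ ε h1).mono fun l hl => hl

theorem IsRP.small0 (h : IsRP X ℱ Q q) {x : lp X ∞} (hx : q x = 0) {ε : ℝ} (hε : 0 < ε) :
    ∀ᶠ l in ℱ, ‖x l‖ < ε := h.lt x ε (by rw [hx, norm_zero]; exact hε)

end rpapi

/-! ## Ideals and unitizations -/

section ideal

variable {I E : Type} [NonUnitalCStarAlgebra I] [NonUnitalCStarAlgebra E]

/-- the embedding of `E` in its unitization -/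
def jE (E : Type) [NonUnitalCStarAlgebra E] : E →⋆ₙₐ[ℂ] Unitization ℂ E :=
  Unitization.inrNonUnitalStarAlgHom ℂ E

@[simp] theorem jE_apply (e : E) : jE E e = (e : Unitization ℂ E) := rfl

theorem jE_inj : Function.Injective (jE E) := Unitization.inr_injective

theorem jE_norm (e : E) : ‖(e : Unitization ℂ E)‖ = ‖e‖ := Unitization.norm_inr e

/-- conjugation by `b` of the unitization maps `E` to `E` -/
def cmpE (b : Unitization ℂ E) : E →ₗ[ℂ] E where
  toFun e := (star b * (e : Unitization ℂ E) * b).snd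
  map_add' x y := by rw [Unitization.inr_add, mul_add, add_mul, Unitization.snd_add]
  map_smul' c x := by
    rw [Unitization.inr_smul, mul_smul_comm, smul_mul_assoc, Unitization.snd_smul]; rfl

theorem cmpE_apply (b : Unitization ℂ E) (e : E) :
    ((cmpE b e : E) : Unitization ℂ E) = star b * (e : Unitization ℂ E) * b := by
  refine Unitization.ext ?_ rfl
  rw [Unitization.fst_inr, Unitization.fst_mul, Unitization.fst_mul, Unitization.fst_inr, mul_zero,
    zero_mul]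

theorem isCP_of_inj {A B C : Type} [NonUnitalCStarAlgebra A] [NonUnitalCStarAlgebra B]
    [NonUnitalCStarAlgebra C] (j : B →⋆ₙₐ[ℂ] C) (hj : Function.Injective j) (φ : A →ₗ[ℂ] B)
    (h : IsCP ((j : B →ₗ[ℂ] C) ∘ₗ φ)) : IsCP φ :=
  isCP_of_family (J := Unit) (fun _ => j) (fun b hb => (map_eq_zero_iff j hj).1 (hb ())) φ
    fun _ => h

theorem isCP_cmpE (b : Unitization ℂ E) : IsCP (cmpE b) := by
  refine isCP_of_inj (jE E) jE_inj _ ?_
  have : ((jE E : E →ₗ[ℂ] Unitization ℂ E)) ∘ₗ cmpE b = conjL b ∘ₗ (jE E : E →ₗ[ℂ] Unitization ℂ E) := by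
    apply LinearMap.ext
    intro e
    exact cmpE_apply b e
  rw [this]
  exact (isCP_conjL b).comp (isCP_hom (jE E) _ fun _ => rfl)

variable {ι : I →⋆ₙₐ[ℂ] E}

/-- the embedding of the ideal in the unitization of `E` -/
def jI (ι : I →⋆ₙₐ[ℂ] E) : I →⋆ₙₐ[ℂ] Unitization ℂ E := (jE E).comp ι

@[simp] theorem jI_apply (i : I) : jI ι i = ((ι i : E) : Unitization ℂ E) := rfl

theorem jI_inj (h : IsIdeal ι) : Function.Injective (jI ι) := jE_inj.comp h.inj

theorem ideal_left (h : IsIdeal ι) (b : Unitization ℂ E) (i : I) : ∃ i' : I, jI ι i' = b * jI ι i := by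
  obtain ⟨i', hi'⟩ := h.left b.snd i
  refine ⟨b.fst • i + i', ?_⟩
  rw [map_add, map_smul]
  have h1 : jI ι i' = (b.snd : Unitization ℂ E) * jI ι i := by
    rw [jI_apply, hi', Unitization.inr_mul]; rfl
  have h2 : b = Unitization.inl b.fst + (b.snd : Unitization ℂ E) := (Unitization.inl_fst_add_inr_snd_eq b).symm
  conv_rhs => rw [h2, add_mul]
  rw [h1]
  congr 1
  rw [jI_apply, Unitization.inl_mul_inr, ← Unitization.inr_smul]

theorem ideal_right (h : IsIdeal ι) (b : Unitization ℂ E) (i : I) : ∃ i' : I, jI ι i' = jI ι i * b := by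
  obtain ⟨i', hi'⟩ := ideal_left h (star b) (star i)
  refine ⟨star i', ?_⟩
  rw [map_star, hi', star_mul, star_star, map_star, star_star]

theorem ideal_conj (h : IsIdeal ι) (a : I) (b : Unitization ℂ E) :
    ∃ i' : I, jI ι i' = star (jI ι a) * b * jI ι a := by
  exact ideal_left h _ a

/-- `b ↦ a^* b a` as a map into the ideal -/
def cmp (h : IsIdeal ι) (a : I) : Unitization ℂ E →ₗ[ℂ] I where
  toFun b := (ideal_conj h a b).choose
  map_add' x y := by
    apply jI_inj h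
    rw [map_add, (ideal_conj h a _).choose_spec, (ideal_conj h a _).choose_spec,
      (ideal_conj h a _).choose_spec, mul_add, add_mul]
  map_smul' c x := by
    apply jI_inj h
    rw [RingHom.id_apply, map_smul, (ideal_conj h a _).choose_spec, (ideal_conj h a _).choose_spec,
      mul_smul_comm, smul_mul_assoc]

theorem cmp_apply (h : IsIdeal ι) (a : I) (b : Unitization ℂ E) :
    jI ι (cmp h a b) = star (jI ι a) * b * jI ι a := (ideal_conj h a b).choose_spec

theorem isCP_cmp (h : IsIdeal ι) (a : I) : IsCP (cmp h a) := by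
  refine isCP_of_inj (jI ι) (jI_inj h) _ ?_
  have : ((jI ι : I →ₗ[ℂ] Unitization ℂ E)) ∘ₗ cmp h a = conjL (jI ι a) := by
    apply LinearMap.ext
    intro b
    exact cmp_apply h a b
  rw [this]
  exact isCP_conjL _

theorem norm_jI (h : IsIdeal ι) (i : I) : ‖jI ι i‖ = ‖i‖ := hom_norm _ (jI_inj h) i

theorem norm_cmp_le (h : IsIdeal ι) (a : I) (ha : ‖a‖ ≤ 1) (b : Unitization ℂ E) :
    ‖cmp h a b‖ ≤ ‖b‖ := by
  rw [← norm_jI h, cmp_apply]
  calc ‖star (jI ι a) * b * jI ι a‖ ≤ ‖star (jI ι a) * b‖ * ‖jI ι a‖ := norm_mul_le _ _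
    _ ≤ (‖star (jI ι a)‖ * ‖b‖) * ‖jI ι a‖ := by gcongr; exact norm_mul_le _ _
    _ ≤ (1 * ‖b‖) * 1 := by
        rw [norm_star, norm_jI h]
        gcongr
    _ = ‖b‖ := by ring

end ideal

end Pool.Agent.Helper7_ND
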