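import Pool.Agent.Helper7_ND.Stm2

/-! # MAIN: from the approximations modulo the ideal and the merging lemma to the theorem -/

set_option autoImplicit false

open scoped Matrix.Norms.L2Operator ENNReal Matrix
open Pool.Agent.W659.EC

noncomputable section

namespace Pool.Agent.Helper7_ND.J_MAIN

/-- a colour: down map and up map -/
structure Col (E : Type) [NonUnitalCStarAlgebra E] : Type 1 where
  F : FDA
  ψ : E →ₗ[ℂ] F.alg
  φ : F.alg →ₗ[ℂ] E

/-- the estimates for a colour -/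
structure Col.Good {E : Type} [NonUnitalCStarAlgebra E] (c : Col E) (κ : ℝ) : Prop where
  cpψ : IsCP c.ψ
  nψ : ∀ x, ‖c.ψ x‖ ≤ κ * ‖x‖
  cpφ : IsCP c.φ
  ozφ : IsOrderZero c.φ
  nφ : ∀ y, ‖c.φ y‖ ≤ κ * ‖y‖

theorem isOrderZero_smul {A B : Type} [NonUnitalCStarAlgebra A] [NonUnitalCStarAlgebra B]
    {φ : A →ₗ[ℂ] B} (h : IsOrderZero φ) (c : ℂ) : IsOrderZero (c • φ) := by
  intro a b hab
  rw [LinearMap.smul_apply, LinearMap.smul_apply, smul_mul_smul_comm, h a b hab, smul_zero]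

theorem isOrderZero_zero {A B : Type} [NonUnitalCStarAlgebra A] [NonUnitalCStarAlgebra B] :
    IsOrderZero (0 : A →ₗ[ℂ] B) := by
  intro a b _
  rw [LinearMap.zero_apply, zero_mul]

theorem sys_of_good {E : Type} [NonUnitalCStarAlgebra E] {J : Type} [Fintype J] {G : Set E}
    {κ δ M ε : ℝ} (hκ : 1 ≤ κ) (c : J → Col E) (hc : ∀ j, (c j).Good κ)
    (hG : ∀ a ∈ G, ‖∑ j, (c j).φ ((c j).ψ a) - a‖ ≤ δ) (hM : ∀ a ∈ G, ‖a‖ ≤ M)
    (hε : δ + Fintype.card J * (κ ^ 2 - 1) * M ≤ ε) : Sys E J G ε := by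
  have hκ0 : 0 < κ := lt_of_lt_of_le one_pos hκ
  have hk : ‖((κ⁻¹ : ℝ) : ℂ)‖ = κ⁻¹ := by
    rw [Complex.norm_real, Real.norm_of_nonneg (inv_nonneg.2 hκ0.le)]
  have hn : ∀ {V W : Type} [NonUnitalCStarAlgebra V] [NonUnitalCStarAlgebra W] (f : V →ₗ[ℂ] W),
      (∀ x, ‖f x‖ ≤ κ * ‖x‖) → ∀ x, ‖(((κ⁻¹ : ℝ) : ℂ) • f) x‖ ≤ ‖x‖ := by
    intro V W _ _ f hf x
    rw [LinearMap.smul_apply, norm_smul, hk]
    calc κ⁻¹ * ‖f x‖ ≤ κ⁻¹ * (κ * ‖x‖) := mul_le_mul_of_nonneg_left (hf x) (inv_nonneg.2 hκ0.le)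
      _ = ‖x‖ := by field_simp
  refine ⟨fun j => (c j).F, fun j => ((κ⁻¹ : ℝ) : ℂ) • (c j).ψ, fun j => ((κ⁻¹ : ℝ) : ℂ) • (c j).φ,
    fun j => ⟨(hc j).cpψ.smul (inv_nonneg.2 hκ0.le), hn _ (hc j).nψ⟩,
    fun j => ⟨⟨(hc j).cpφ.smul (inv_nonneg.2 hκ0.le), hn _ (hc j).nφ⟩,
      isOrderZero_smul (hc j).ozφ _⟩, fun a ha => ?_⟩
  set S : E := ∑ j, (c j).φ ((c j).ψ a) with hS
  have h1 : ∑ j, (((κ⁻¹ : ℝ) : ℂ) • (c j).φ) ((((κ⁻¹ : ℝ) : ℂ) • (c j).ψ) a) =
      (((κ⁻¹ ^ 2 : ℝ)) : ℂ) • S := by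
    rw [hS, Finset.smul_sum]
    refine Finset.sum_congr rfl fun j _ => ?_
    rw [LinearMap.smul_apply, LinearMap.smul_apply, map_smul, smul_smul]
    congr 1
    push_cast
    ring
  rw [h1]
  have h2 : (((κ⁻¹ ^ 2 : ℝ)) : ℂ) • S - a = (S - a) - (((1 - κ⁻¹ ^ 2 : ℝ)) : ℂ) • S := by
    push_cast
    rw [sub_smul, one_smul]
    abel
  have hS1 : ‖S‖ ≤ Fintype.card J * (κ ^ 2 * M) := by
    rw [hS]
    refine (norm_sum_le _ _).trans ?_
    have h3 : ∀ j ∈ (Finset.univ : Finset J), ‖(c j).φ ((c j).ψ a)‖ ≤ κ ^ 2 * M := by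
      intro j _
      calc ‖(c j).φ ((c j).ψ a)‖ ≤ κ * ‖(c j).ψ a‖ := (hc j).nφ _
        _ ≤ κ * (κ * ‖a‖) := mul_le_mul_of_nonneg_left ((hc j).nψ a) hκ0.le
        _ ≤ κ * (κ * M) := by
            exact mul_le_mul_of_nonneg_left (mul_le_mul_of_nonneg_left (hM a ha) hκ0.le) hκ0.le
        _ = κ ^ 2 * M := by ring
    refine (Finset.sum_le_sum h3).trans ?_
    rw [Finset.sum_const, nsmul_eq_mul, Finset.card_univ]
  have hk2 : 0 ≤ 1 - κ⁻¹ ^ 2 := by
    have : κ⁻¹ ≤ 1 := inv_le_one_of_one_le₀ hκ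
    have h0 : 0 ≤ κ⁻¹ := inv_nonneg.2 hκ0.le
    nlinarith
  rw [h2]
  calc ‖(S - a) - (((1 - κ⁻¹ ^ 2 : ℝ)) : ℂ) • S‖
      ≤ ‖S - a‖ + ‖(((1 - κ⁻¹ ^ 2 : ℝ)) : ℂ) • S‖ := norm_sub_le _ _
    _ = ‖S - a‖ + (1 - κ⁻¹ ^ 2) * ‖S‖ := by
        rw [norm_smul, Complex.norm_real, Real.norm_of_nonneg hk2]
    _ ≤ δ + (1 - κ⁻¹ ^ 2) * (Fintype.card J * (κ ^ 2 * M)) :=
        add_le_add (hG a ha) (mul_le_mul_of_nonneg_left hS1 hk2)
    _ = δ + Fintype.card J * (κ ^ 2 - 1) * M := by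
        field_simp
    _ ≤ ε := hε

/-- the trivial colour -/
def zeroCol (E : Type) [NonUnitalCStarAlgebra E] (F : FDA) : Col E := ⟨F, 0, 0⟩

theorem zeroCol_good {E : Type} [NonUnitalCStarAlgebra E] (F : FDA) : (zeroCol E F).Good 1 where
  cpψ := IsCP.zero
  nψ x := by
    change ‖(0 : F.alg)‖ ≤ 1 * ‖x‖
    rw [norm_zero, one_mul]
    exact norm_nonneg x
  cpφ := IsCP.zero
  ozφ := isOrderZero_zero
  nφ x := by
    change ‖(0 : E)‖ ≤ 1 * ‖x‖
    rw [norm_zero, one_mul]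
    exact norm_nonneg x

theorem isIdeal_of_isExt {I E D : Type} [NonUnitalCStarAlgebra I] [NonUnitalCStarAlgebra E]
    [NonUnitalCStarAlgebra D] {ι : I →⋆ₙₐ[ℂ] E} {π : E →⋆ₙₐ[ℂ] D} (h : IsExt ι π) :
    IsIdeal ι where
  inj := h.inj
  left e i := by
    have h1 : π (ι i) = 0 := (h.exact _).2 ⟨i, rfl⟩
    exact (h.exact _).1 (by rw [map_mul, h1, mul_zero])
  right e i := by
    have h1 : π (ι i) = 0 := (h.exact _).2 ⟨i, rfl⟩
    exact (h.exact _).1 (by rw [map_mul, h1, zero_mul])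

/-- the norm estimate for the up maps -/
theorem norm_up_le {I E : Type} [NonUnitalCStarAlgebra I] [NonUnitalCStarAlgebra E]
    (ι : I →⋆ₙₐ[ℂ] E) {t : I} (ht : Pos t) {F : FDA} {Φ : F.alg →ₗ[ℂ] E} (hΦ : IsCP Φ) {ε : ℝ}
    (hε : 0 < ε)
    (h : Pos ((1 + ε : ℂ) • (1 : Unitization ℂ E)
            - ((ι (t * t) : E) : Unitization ℂ E) - ((Φ 1 : E) : Unitization ℂ E)))
    (y : F.alg) : ‖Φ y‖ ≤ (1 + ε) * ‖y‖ := by
  let _ := CStarAlgebra.spectralOrder E
  let _ := CStarAlgebra.spectralOrderedRing E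
  let _ := CStarAlgebra.spectralOrder (Unitization ℂ E)
  let _ := CStarAlgebra.spectralOrderedRing (Unitization ℂ E)
  have h1 : 0 ≤ (1 + ε : ℂ) • (1 : Unitization ℂ E)
            - ((ι (t * t) : E) : Unitization ℂ E) - ((Φ 1 : E) : Unitization ℂ E) :=
    (nonneg_iff_star _).2 h
  have h2 : (0 : Unitization ℂ E) ≤ ((ι (t * t) : E) : Unitization ℂ E) := by
    obtain ⟨b, rfl⟩ := ht
    refine (nonneg_iff_star _).2 ⟨((ι (star b * b) : E) : Unitization ℂ E), ?_⟩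
    rw [← Unitization.inr_star, ← Unitization.inr_mul, ← map_star, ← map_mul]
    congr 2
    rw [star_mul, star_star]
  have h3 : (0 : Unitization ℂ E) ≤ ((Φ 1 : E) : Unitization ℂ E) := by
    have h4 : (0 : E) ≤ Φ 1 := by simpa using hΦ.nonneg (1 : F.alg)
    obtain ⟨b, hb⟩ := (nonneg_iff_star _).1 h4
    refine (nonneg_iff_star _).2 ⟨(b : Unitization ℂ E), ?_⟩
    rw [← Unitization.inr_star, ← Unitization.inr_mul, ← hb]
  have h4 : ((Φ 1 : E) : Unitization ℂ E) ≤ (1 + ε : ℂ) • (1 : Unitization ℂ E) := by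
    rw [sub_nonneg] at h1
    refine h1.trans ?_
    rw [sub_le_self_iff]
    exact h2
  have h5 : ‖(Φ 1 : E)‖ ≤ 1 + ε := by
    have h6 := CStarAlgebra.norm_le_norm_of_nonneg_of_le h3 h4
    rw [Unitization.norm_inr, norm_smul, norm_one, mul_one] at h6
    refine h6.trans (le_of_eq ?_)
    have : (1 + ε : ℂ) = ((1 + ε : ℝ) : ℂ) := by push_cast; ring
    rw [this, Complex.norm_real, Real.norm_of_nonneg (by linarith)]
  exact (hΦ.norm_le y).trans (mul_le_mul_of_nonneg_right h5 (norm_nonneg y))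

theorem t_MAIN (hA1 : StA1) (hMRG : StMRG) : StMAIN := by
  intro I E D _ _ _ ι π hext J J' _ _ hI hD G ε hε
  rcases subsingleton_or_nontrivial I with hsub | hnt
  · -- the trivial case
    have hinj : Function.Injective π := by
      rw [injective_iff_map_eq_zero]
      intro e he
      obtain ⟨i, rfl⟩ := (hext.exact e).1 he
      rw [Subsingleton.elim i 0, map_zero]
    let σ : E ≃⋆ₐ[ℂ] D := StarAlgEquiv.ofBijective π ⟨hinj, hext.surj⟩
    have hσ : ∀ e, σ e = π e := fun e => rfl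
    let σ' : D →⋆ₙₐ[ℂ] E := (σ.symm : D ≃⋆ₐ[ℂ] E)
    have hσ' : ∀ e, σ' (π e) = e := fun e => by
      change σ.symm (σ e) = e
      exact σ.symm_apply_apply e
    classical
    obtain ⟨F, ψ, φ, hψ, hφ, happ⟩ := hD (G.image π) ε hε
    let P : E →ₗ[ℂ] D := (π : E →ₗ[ℂ] D)
    let P' : D →ₗ[ℂ] E := (σ' : D →ₗ[ℂ] E)
    have hP : IsCPC P := isCPC_hom π P fun _ => rfl
    have hP' : IsCPC P' := isCPC_hom σ' P' fun _ => rfl
    let c : Option J' → Col E := fun j => ⟨F j, ψ j ∘ₗ P, P' ∘ₗ φ j⟩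
    have hc : ∀ j, (c j).Good 1 := by
      intro j
      refine ⟨(hψ j).1.comp hP.1, fun x => ?_, hP'.1.comp (hφ j).1.1, ?_, fun x => ?_⟩
      · rw [one_mul]; exact ((hψ j).comp hP).2 x
      · intro a b hab
        have := (hφ j).2 a b hab
        change P' (φ j (star a * a)) * P' (φ j (star b * b)) = 0
        change σ' (φ j (star a * a)) * σ' (φ j (star b * b)) = 0
        rw [← map_mul, this, map_zero]
      · rw [one_mul]; exact (hP'.comp (hφ j).1).2 x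
    let d : Option (J' ⊕ J) → Col E := fun j => match j with
      | none => c none
      | some (Sum.inl j) => c (some j)
      | some (Sum.inr _) => zeroCol E (F none)
    have hd : ∀ j, (d j).Good 1 := by
      rintro (_ | (j | j))
      · exact hc none
      · exact hc (some j)
      · exact zeroCol_good _
    refine sys_of_good (κ := 1) (δ := ε) (M := ∑ x ∈ G, ‖x‖) le_rfl d hd (fun a ha => ?_)
      (fun a ha => ?_) (by simp)
    · have h1 : ∑ j, (d j).φ ((d j).ψ a) = σ' (∑ j, φ j (ψ j (π a))) := by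
        rw [Fintype.sum_option, Fintype.sum_sum_type, map_sum, Fintype.sum_option]
        have h2 : ∑ j : J, (d (some (Sum.inr j))).φ ((d (some (Sum.inr j))).ψ a) = 0 :=
          Finset.sum_eq_zero fun j _ => rfl
        rw [h2, add_zero]
        rfl
      have h3 : ∑ j, (d j).φ ((d j).ψ a) - a = σ' (∑ j, φ j (ψ j (π a)) - π a) := by
        rw [h1, map_sub, hσ']
      rw [h3]
      refine (NonUnitalStarAlgHom.norm_apply_le σ' _).trans (happ _ ?_)
      exact Finset.mem_coe.2 (Finset.mem_image_of_mem _ (Finset.mem_coe.1 ha))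
    · exact Finset.single_le_sum (f := fun x => ‖x‖) (fun x _ => norm_nonneg x) (Finset.mem_coe.1 ha)
  · -- the nontrivial case
    set N : ℝ := (Fintype.card (Option (J' ⊕ J)) : ℝ) with hN
    set M : ℝ := ∑ x ∈ G, ‖x‖ with hM
    have hN0 : 0 ≤ N := Nat.cast_nonneg _
    have hM0 : 0 ≤ M := Finset.sum_nonneg fun x _ => norm_nonneg x
    have hden : 0 < 2 + 15 * N * M := by positivity
    set e : ℝ := min 1 (ε / (2 + 15 * N * M)) with he
    have he0 : 0 < e := lt_min one_pos (div_pos hε hden)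
    have he1 : e ≤ 1 := min_le_left _ _
    have he2 : e * (2 + 15 * N * M) ≤ ε := by
      have : e ≤ ε / (2 + 15 * N * M) := min_le_right _ _
      rwa [le_div_iff₀ hden] at this
    obtain ⟨F, ψ, Φ, t, hψ, hΦ, ht, ht1, hpos, happ⟩ := hA1 I E D ι π hext (Option J') hD G e he0
    obtain ⟨F', ψ', φ', hψ', hφ', happ'⟩ := hMRG I E ι (isIdeal_of_isExt hext) J hI (F none)
      (ψ none) (Φ none) t e he0 he1 (hψ none) (hΦ none).1 (hΦ none).2 ht ht1 (hpos none) G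
    let d : Option (J' ⊕ J) → Col E := fun j => match j with
      | none => ⟨F' none, ψ' none, φ' none⟩
      | some (Sum.inl j) => ⟨F (some j), ψ (some j), Φ (some j)⟩
      | some (Sum.inr j) => ⟨F' (some j), ψ' (some j), φ' (some j)⟩
    have hd : ∀ j, (d j).Good (1 + 3 * e) := by
      rintro (_ | (j | j))
      · exact ⟨(hψ' none).1, (hψ' none).2, (hφ' none).1, (hφ' none).2.1, (hφ' none).2.2⟩
      · refine ⟨(hψ _).1, fun x => ?_, (hΦ _).1, (hΦ _).2, fun y => ?_⟩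
        · refine ((hψ (some j)).2 x).trans ?_
          have := norm_nonneg x
          nlinarith
        · refine (norm_up_le ι ht (hΦ (some j)).1 he0 (hpos (some j)) y).trans ?_
          exact mul_le_mul_of_nonneg_right (by linarith) (norm_nonneg y)
      · exact ⟨(hψ' _).1, (hψ' _).2, (hφ' _).1, (hφ' _).2.1, (hφ' _).2.2⟩
    refine sys_of_good (κ := 1 + 3 * e) (δ := 2 * e) (M := M) (by linarith) d hd (fun a ha => ?_)
      (fun a ha => ?_) ?_
    · have h1 := happ a (Finset.mem_coe.1 ha)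
      have h2 := happ' a (Finset.mem_coe.1 ha)
      have h3 : ∑ j, (d j).φ ((d j).ψ a) - a =
          -((a - ∑ j, Φ j (ψ j a) - ι t * a * ι t) +
            (Φ none (ψ none a) + ι t * a * ι t - ∑ c, φ' c (ψ' c a))) := by
        rw [Fintype.sum_option, Fintype.sum_sum_type, Fintype.sum_option (f := fun j => Φ j (ψ j a)),
          Fintype.sum_option (f := fun c => φ' c (ψ' c a))]
        change φ' none (ψ' none a) + (∑ j : J', Φ (some j) (ψ (some j) a) +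
          ∑ j : J, φ' (some j) (ψ' (some j) a)) - a = _
        abel
      rw [h3, norm_neg]
      refine (norm_add_le _ _).trans ?_
      linarith
    · exact Finset.single_le_sum (f := fun x => ‖x‖) (fun x _ => norm_nonneg x) (Finset.mem_coe.1 ha)
    · rw [← hN]
      have h1 : (1 + 3 * e) ^ 2 - 1 ≤ 15 * e := by nlinarith
      have h2 : N * ((1 + 3 * e) ^ 2 - 1) * M ≤ N * (15 * e) * M :=
        mul_le_mul_of_nonneg_right (mul_le_mul_of_nonneg_left h1 hN0) hM0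
      calc 2 * e + N * ((1 + 3 * e) ^ 2 - 1) * M ≤ 2 * e + N * (15 * e) * M := by linarith
        _ = e * (2 + 15 * N * M) := by ring
        _ ≤ ε := he2

end Pool.Agent.Helper7_ND.J_MAIN
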