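import Pool.Agent.Helper7_ND.Stm5
import Pool.Agent.Helper7_ND.Rp
import Pool.Agent.Helper7_ND.J_MAIN

/-
Project MP_30b5b4_an, second theorem (owner helper7): dim_nuc(E) <= max(dim_nuc(I), dim_nuc(D)) when the quotient is tame (type I, ...).
SETUP: in /workdir/pool/outputs/live: git fetch -q; then copy from origin/main to /workdir/pool at the same paths the whole directory
Pool/Agent/Helper7_ND/ and Pool/Agent/W659/EC/; then lake build Pool.Agent.Helper7_ND.Stm5 (and the J_*.lean you import).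
Definitions: Stm.lean (Pos, Prj, OZ, IsRow, rowMap, IsIdeal, IsExt, cut, IsRP, CutE, SpecS ...), Stm4.lean (SysC, LiftSys, lF, lG, tF, kF,
k1F, sq, cutL, cutG, cutT, elB, elMu, elW ...), Stm5.lean (IsHer, Part, Tame ...). Useful lemmas: Rp.lean (Pos.add, Pos.conj, Pos.map,
Pos.sum, Pos.smul, Pos.norm_le, IsCP.pos, conjL, jE, cmpE), W659/EC/CP.lean (IsCP.add/comp/sum/smul, isCP_hom, isCP_of_family,
nonneg_iff_star, mpos_iff), CP2.lean (IsCP.schwarz, IsCP.star_map, IsCP.norm_le, IsCP.isCPC, compr, isCP_compr) and the proofs of the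
first theorem J_*.lean in the same directory (you may import them and use their lemmas; the J_ files are all proved).
For the order use `let _ := CStarAlgebra.spectralOrder A; let _ := CStarAlgebra.spectralOrderedRing A` (Pos a is then 0 <= a by
CStarAlgebra.nonneg_iff_eq_star_mul_self). Compile with lake build (not lake env lean). The file will be landed, so keep to RULES.md
(no banned words/characters), keep all helper lemmas inside the namespace, do not change Stm*.lean. If the statement is false or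
lacks a hypothesis say so in note (and ask helper7).

TARGET t_MAIN3 : StMAIN3 (Stm5.lean) from the listed statements.
PROOF. If the maximum is ⊤ trivial; let N be the natural number max(nucDim I, nucDim D). N = 0: StND gives SysAll I (Option (Fin 0)), SysAll D (Option
(Fin 0)); StMAIN gives SysAll E (Option (Fin 0 ⊕ Fin 0)), and StND (second part) gives nucDim E <= card (Fin 0 ⊕ Fin 0) = 0.
N >= 1: J = Option (Fin N); SysAll I J, SysAll D J by StND. StPERP: the annihilator ideal (P, p) of I in E. p composed with π is injective (if π(p x) = 0 then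
p x = ι i, and p x ι(i)^* = 0 gives ι(i i^*) = 0) and its range is an ideal of D (π surjective), so hereditary: StHER gives SysAll P J. StDS: ideal (K₀, κ₀) of E
with range = range ι + range p and SysAll K₀ J. Zorn (zorn_subset_nonempty or zorn_subset) on the set 𝒮 of all S ⊂ E such that range κ₀ ⊂ S and S = range κ
for some ideal (K, κ) of E with SysAll K J; chains: StCHN. Let S = range κ be maximal. If S = E then κ is an isomorphism K ≅ E, so SysAll E J (StLOC or
directly: κ bijective) and nucDim E <= N by StND. Otherwise StQUO gives A, θ with IsExt κ θ; A is nontrivial (some e not in range κ has θ e ≠ 0), θ kills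
ι(I) and the annihilator (both are in range κ₀ ⊂ range κ), so Tame A by hypothesis, and StSTEP gives a strictly larger member of 𝒮, a contradiction.
-/

set_option autoImplicit false

open scoped Matrix.Norms.L2Operator ENNReal Matrix
open Pool.Agent.W659.EC

noncomputable section

namespace Pool.Agent.Helper7_ND.J_MAIN3

/-- the ideal of an extension -/
theorem isIdeal_of_isExt {I E D : Type} [NonUnitalCStarAlgebra I] [NonUnitalCStarAlgebra E]
    [NonUnitalCStarAlgebra D] {ι : I →⋆ₙₐ[ℂ] E} {π : E →⋆ₙₐ[ℂ] D} (h : IsExt ι π) :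
    IsIdeal ι := by
  have h0 : ∀ i, π (ι i) = 0 := fun i => (h.exact _).2 ⟨i, rfl⟩
  refine ⟨h.inj, fun e i => ?_, fun e i => ?_⟩
  · exact (h.exact _).1 (by rw [map_mul, h0, mul_zero])
  · exact (h.exact _).1 (by rw [map_mul, h0, zero_mul])

/-- transport of approximations along a bijective homomorphism -/
theorem sysAll_of_bij (hHER : StHER) {K E : Type} [NonUnitalCStarAlgebra K]
    [NonUnitalCStarAlgebra E] (κ : K →⋆ₙₐ[ℂ] E) (hb : Function.Bijective κ) (J : Type)
    [Fintype J] (h : SysAll K J) : SysAll E J := by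
  let f : K ≃⋆ₐ[ℂ] E := StarAlgEquiv.ofBijective κ hb
  let g : E →⋆ₙₐ[ℂ] K := (f.symm : E →⋆ₙₐ[ℂ] K)
  have hg : ∀ e, g e = f.symm e := fun e => rfl
  have hgi : Function.Injective g := fun x y hxy => f.symm.injective hxy
  have hgs : Function.Surjective g := fun x => f.symm.surjective x
  exact hHER E K g ⟨hgi, fun x y a => by
    obtain ⟨e, he⟩ := hgs (g x * a * g y)
    exact ⟨e, he⟩⟩ J h

theorem t_MAIN3 (hND : StND) (hMAIN : StMAIN) (hHER : StHER) (hLOC : StLOC) (hQUO : StQUO)
    (hPERP : StPERP) (hDS : StDS) (hCHN : StCHN) (hSTEP : StSTEP) : StMAIN3 := by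
  intro I E D _ _ _ ι π hext htame
  by_cases htop : max (nucDim I) (nucDim D) = ⊤
  · rw [htop]
    exact le_top
  obtain ⟨N, hN⟩ := ENat.ne_top_iff_exists.1 htop
  have hI : nucDim I ≤ (N : ℕ∞) := by
    rw [hN]; exact le_max_left _ _
  have hD : nucDim D ≤ (N : ℕ∞) := by
    rw [hN]; exact le_max_right _ _
  have sI := hND.1 I N hI
  have sD := hND.1 D N hD
  rw [← hN]
  rcases Nat.eq_zero_or_pos N with rfl | hNpos
  · have sE := hMAIN I E D ι π hext (Fin 0) (Fin 0) sI sD
    have := hND.2 E (Fin 0 ⊕ Fin 0) sE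
    simpa using this
  have hid := isIdeal_of_isExt hext
  -- the annihilator
  obtain ⟨P, iP, p, hp, hp1, hp2⟩ := hPERP I E ι hid
  have hpι : ∀ x i, p x * ι i = 0 := fun x => (hp1 (p x)).1 ⟨x, rfl⟩
  have sP : SysAll P (Option (Fin N)) := by
    refine hHER P D (π.comp p) ⟨?_, ?_⟩ _ sD
    · rw [injective_iff_map_eq_zero]
      intro x hx
      obtain ⟨i, hi⟩ := (hext.exact (p x)).1 hx
      have h1 : ι i * star (ι i) = 0 := by
        rw [← map_star, hi]
        exact hpι x (star i)
      have h2 : ι i = 0 := CStarRing.mul_star_self_eq_zero_iff _ |>.1 h1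
      have h3 : p x = 0 := by rw [← hi, h2]
      exact hp.inj (by rw [h3, map_zero])
    · intro h h' a
      obtain ⟨e, rfl⟩ := hext.surj a
      obtain ⟨h1, hh1⟩ := hp.right e h
      obtain ⟨h2, hh2⟩ := hp.right (p h') h1
      refine ⟨h2, ?_⟩
      show π (p h2) = π (p h) * π e * π (p h')
      rw [hh2, hh1, map_mul, map_mul]
  -- the sum of the two ideals
  obtain ⟨K₀, iK₀, κ₀, hκ₀, sK₀, hr₀⟩ := hDS I P E ι p hid hp (fun x y => hp2 y x) (Option (Fin N))
    sI sP
  -- the maximal ideal
  obtain ⟨m, hm0, hm⟩ := zorn_subset_nonempty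
    {S : Set E | ∃ (K : Type) (_ : NonUnitalCStarAlgebra K) (κ : K →⋆ₙₐ[ℂ] E), IsIdeal κ ∧
      Set.range κ = S ∧ SysAll K (Option (Fin N))}
    (by
      intro c hc hch hne
      obtain ⟨K, iK, κ, h1, h2, h3⟩ := hCHN E (Option (Fin N)) c hch hne (fun S hS => hc hS)
      exact ⟨closure (⋃₀ c), ⟨K, iK, κ, h1, h2, h3⟩, fun S hS =>
        (Set.subset_sUnion_of_mem hS).trans subset_closure⟩)
    (Set.range κ₀) ⟨K₀, iK₀, κ₀, hκ₀, rfl, sK₀⟩
  obtain ⟨K, iK, κ, hκ, hrκ, sK⟩ := hm.prop
  have hfin : SysAll E (Option (Fin N)) → nucDim E ≤ (N : ℕ∞) := by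
    intro sE
    have := hND.2 E (Fin N) sE
    rwa [Fintype.card_fin] at this
  by_cases hsur : Function.Surjective κ
  · exact hfin (sysAll_of_bij hHER κ ⟨hκ.inj, hsur⟩ _ sK)
  exfalso
  obtain ⟨A, iA, θ, hθ⟩ := hQUO K E κ hκ
  have hθκ : ∀ e, e ∈ Set.range κ₀ → θ e = 0 := by
    intro e he
    have he' : e ∈ Set.range κ := by
      rw [hrκ]; exact hm0 he
    obtain ⟨x, hx⟩ := he'
    exact (hθ.exact e).2 ⟨x, hx⟩
  have hθι : ∀ i, θ (ι i) = 0 := fun i =>
    hθκ _ ((hr₀ (ι i)).2 ⟨i, 0, by rw [map_zero, add_zero]⟩)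
  have hθa : ∀ e, (∀ i, e * ι i = 0) → θ e = 0 := by
    intro e he
    obtain ⟨x, hx⟩ := (hp1 e).2 he
    exact hθκ _ ((hr₀ e).2 ⟨0, x, by rw [map_zero, zero_add, hx]⟩)
  have hnt : Nontrivial A := by
    unfold Function.Surjective at hsur
    push Not at hsur
    obtain ⟨e, he⟩ := hsur
    refine ⟨θ e, 0, fun h => ?_⟩
    obtain ⟨x, hx⟩ := (hθ.exact e).1 h
    exact he x hx
  have ht : Tame A := htame A θ hθ.surj hnt hθι hθa
  obtain ⟨K', iK', κ', hκ', sK', hlt⟩ := hSTEP I E D K A ι π κ θ hext hκ hθ hθι ht N hNpos sD sK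
  have hle : Set.range κ' ≤ m := hm.le_of_ge ⟨K', iK', κ', hκ', rfl, sK'⟩ (by
    rw [← hrκ]; exact hlt.subset)
  rw [← hrκ] at hle
  exact hlt.not_subset hle

end Pool.Agent.Helper7_ND.J_MAIN3
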