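import Pool.Agent.Helper7_ND.Stm5
import Pool.Agent.Helper7_ND.Rp

/-! # Enlarging an ideal of bounded nuclear dimension -/

set_option autoImplicit false

open scoped Matrix.Norms.L2Operator ENNReal Matrix
open Pool.Agent.W659.EC

noncomputable section

namespace Pool.Agent.Helper7_ND.J_STEP

section aux

variable {X Y Z : Type} [NonUnitalCStarAlgebra X] [NonUnitalCStarAlgebra Y]
  [NonUnitalCStarAlgebra Z]

theorem cont (f : X →⋆ₙₐ[ℂ] Y) : Continuous f :=
  ((f : X →ₗ[ℂ] Y).mkContinuous 1 (fun x => by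
      rw [one_mul]; exact NonUnitalStarAlgHom.norm_apply_le f x)).continuous

theorem isom (f : X →⋆ₙₐ[ℂ] Y) (hf : Function.Injective f) : Isometry f :=
  AddMonoidHomClass.isometry_of_norm f (hom_norm f hf)

theorem closed_range (f : X →⋆ₙₐ[ℂ] Y) (hf : Function.Injective f) :
    IsClosed (Set.range f) := (isom f hf).isClosedEmbedding.isClosed_range

/-- approximate units -/
theorem au (X : Type) [NonUnitalCStarAlgebra X] :
    ∃ l : Filter X, l.NeBot ∧ (∀ x : X, Filter.Tendsto (fun e => x * e) l (nhds x)) ∧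
      ∀ x : X, Filter.Tendsto (fun e => e * x) l (nhds x) := by
  let _ := CStarAlgebra.spectralOrder X
  let _ := CStarAlgebra.spectralOrderedRing X
  have h := (CStarAlgebra.increasingApproximateUnit (A := X))
  exact ⟨_, h.neBot, h.tendsto_mul_left, h.tendsto_mul_right⟩

/-- positivity is detected by injective homomorphisms -/
theorem pos_of_inj (f : X →⋆ₙₐ[ℂ] Y) (hf : Function.Injective f) (x : X) (h : Pos (f x)) :
    Pos x := by
  let _ := CStarAlgebra.spectralOrder X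
  let _ := CStarAlgebra.spectralOrderedRing X
  let _ := CStarAlgebra.spectralOrder Y
  let _ := CStarAlgebra.spectralOrderedRing Y
  rw [pos_iff] at h ⊢
  exact nonneg_of_family (J := Unit) (fun _ => f)
    (fun a ha => (map_eq_zero_iff f hf).1 (ha ())) x (fun _ => h)

/-- factorization through an injective homomorphism, as a function -/
def lf (j : Y →⋆ₙₐ[ℂ] Z) (g : X →⋆ₙₐ[ℂ] Z) (h : ∀ x, ∃ y, j y = g x) (x : X) : Y :=
  (h x).choose

theorem lf_spec (j : Y →⋆ₙₐ[ℂ] Z) (g : X →⋆ₙₐ[ℂ] Z) (h : ∀ x, ∃ y, j y = g x) (x : X) :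
    j (lf j g h x) = g x := (h x).choose_spec

/-- factorization through an injective homomorphism -/
def liftInj (j : Y →⋆ₙₐ[ℂ] Z) (hj : Function.Injective j) (g : X →⋆ₙₐ[ℂ] Z)
    (h : ∀ x, ∃ y, j y = g x) : X →⋆ₙₐ[ℂ] Y where
  toFun x := lf j g h x
  map_smul' c x := by
    apply hj
    rw [MonoidHom.id_apply, map_smul, lf_spec, lf_spec, map_smul]
  map_zero' := by
    apply hj
    rw [lf_spec, map_zero, map_zero]
  map_add' x y := by
    apply hj
    rw [map_add, lf_spec, lf_spec, lf_spec, map_add]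
  map_mul' x y := by
    apply hj
    rw [map_mul, lf_spec, lf_spec, lf_spec, map_mul]
  map_star' x := by
    apply hj
    rw [map_star, lf_spec, lf_spec, map_star]

theorem liftInj_spec (j : Y →⋆ₙₐ[ℂ] Z) (hj : Function.Injective j) (g : X →⋆ₙₐ[ℂ] Z)
    (h : ∀ x, ∃ y, j y = g x) (x : X) : j (liftInj j hj g h x) = g x := lf_spec j g h x

theorem desc_aux (p : X →⋆ₙₐ[ℂ] Y) (hp : Function.Surjective p) (g : X →⋆ₙₐ[ℂ] Z)
    (h : ∀ x, p x = 0 → g x = 0) (x : X) (y : Y) (hxy : p x = y) : g (hp y).choose = g x := by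
  rw [← sub_eq_zero, ← map_sub]
  apply h
  rw [map_sub, (hp y).choose_spec, hxy, sub_self]

/-- factorization through a surjective homomorphism -/
def desc (p : X →⋆ₙₐ[ℂ] Y) (hp : Function.Surjective p) (g : X →⋆ₙₐ[ℂ] Z)
    (h : ∀ x, p x = 0 → g x = 0) : Y →⋆ₙₐ[ℂ] Z where
  toFun y := g (hp y).choose
  map_smul' c y := by
    rw [desc_aux p hp g h (c • (hp y).choose) (c • y) (by rw [map_smul, (hp y).choose_spec]),
      map_smul, MonoidHom.id_apply]
  map_zero' := by
    rw [desc_aux p hp g h 0 0 (map_zero p), map_zero]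
  map_add' x y := by
    rw [desc_aux p hp g h ((hp x).choose + (hp y).choose) (x + y)
      (by rw [map_add, (hp x).choose_spec, (hp y).choose_spec]), map_add]
  map_mul' x y := by
    rw [desc_aux p hp g h ((hp x).choose * (hp y).choose) (x * y)
      (by rw [map_mul, (hp x).choose_spec, (hp y).choose_spec]), map_mul]
  map_star' y := by
    rw [desc_aux p hp g h (star (hp y).choose) (star y)
      (by rw [map_star, (hp y).choose_spec]), map_star]

theorem desc_spec (p : X →⋆ₙₐ[ℂ] Y) (hp : Function.Surjective p) (g : X →⋆ₙₐ[ℂ] Z)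
    (h : ∀ x, p x = 0 → g x = 0) (x : X) : desc p hp g h (p x) = g x :=
  desc_aux p hp g h x (p x) rfl

/-- the range of a homomorphism is closed -/
theorem closed_range_of_LN (hLN : StLN) (f : X →⋆ₙₐ[ℂ] Y) : IsClosed (Set.range f) := by
  let g : NormedAddGroupHom X Y :=
    { toFun := f
      map_add' := map_add f
      bound' := ⟨1, fun x => by rw [one_mul]; exact NonUnitalStarAlgHom.norm_apply_le f x⟩ }
  have h1 : g.SurjectiveOnWith g.range 1 := by
    rintro _ ⟨x, rfl⟩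
    obtain ⟨x', h2, h3⟩ := hLN X Y f x
    exact ⟨x', h2, by rw [one_mul]; exact h3⟩
  have h2 := controlled_closure_of_complete (ε := 1) one_pos one_pos h1
  rw [← closure_subset_iff_isClosed]
  intro y hy
  have h3 : y ∈ g.range.topologicalClosure := by
    rw [← SetLike.mem_coe, AddSubgroup.topologicalClosure_coe]
    exact hy
  obtain ⟨x, hx, _⟩ := h2 y h3
  exact ⟨x, hx⟩

/-- a hereditary subalgebra of an ideal is a hereditary subalgebra -/
theorem her_comp (b : X →⋆ₙₐ[ℂ] Y) (k : Y →⋆ₙₐ[ℂ] Z) (hb : IsHer b) (hk : IsIdeal k) :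
    IsHer (k.comp b) := by
  have hinj : Function.Injective (k.comp b) := hk.inj.comp hb.inj
  refine ⟨hinj, ?_⟩
  have hcl : IsClosed (Set.range (k.comp b)) := closed_range _ hinj
  intro x x' z
  obtain ⟨l, hl, hl1, hl2⟩ := au Y
  have h1 : ∀ e f : Y, (k (b x * e) * z * k (f * b x')) ∈ Set.range (k.comp b) := by
    intro e f
    obtain ⟨y, hy⟩ := hk.right z e
    obtain ⟨x'', hx''⟩ := hb.her x x' (y * f)
    refine ⟨x'', ?_⟩
    change k (b x'') = _
    rw [hx'', map_mul, map_mul, map_mul, hy, map_mul, map_mul]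
    simp only [mul_assoc]
  have h2 : ∀ f : Y, (k (b x) * z * k (f * b x')) ∈ Set.range (k.comp b) := by
    intro f
    have h3 : Filter.Tendsto (fun e => k (b x * e) * z * k (f * b x')) l
        (nhds (k (b x) * z * k (f * b x'))) :=
      ((((cont k).tendsto _).comp (hl1 (b x))).mul_const z).mul_const _
    exact hcl.mem_of_tendsto h3 (Filter.Eventually.of_forall fun e => h1 e f)
  have h4 : Filter.Tendsto (fun f => k (b x) * z * k (f * b x')) l
      (nhds (k (b x) * z * k (b x'))) :=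
    (((cont k).tendsto _).comp (hl2 (b x'))).const_mul _
  obtain ⟨w, hw⟩ := hcl.mem_of_tendsto h4 (Filter.Eventually.of_forall h2)
  exact ⟨w, hw⟩

/-- elements of the closure of a commuting set commute -/
theorem comm_closure (S : Set X) (hS : ∀ u ∈ S, ∀ v ∈ S, u * v = v * u) :
    ∀ u ∈ closure S, ∀ v ∈ closure S, u * v = v * u := by
  have h1 : ∀ v ∈ S, ∀ u ∈ closure S, u * v = v * u := by
    intro v hv u hu
    have hc : IsClosed {u : X | u * v = v * u} :=
      isClosed_eq (continuous_id.mul continuous_const) (continuous_const.mul continuous_id)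
    exact closure_minimal (fun u hu => hS u hu v hv) hc hu
  intro u hu v hv
  have hc : IsClosed {v : X | u * v = v * u} :=
    isClosed_eq (continuous_const.mul continuous_id) (continuous_id.mul continuous_const)
  exact closure_minimal (fun v hv => h1 v hv u hu) hc hv

/-- fullness in an ideal -/
theorem full (b : X →⋆ₙₐ[ℂ] Y) (k : Y →⋆ₙₐ[ℂ] Z) (hk : IsIdeal k) (a : Z) (a' : X)
    (ha : k (b a') = a)
    (h : ∀ y, k y ∈ closure (Submodule.span ℂ {z : Z | ∃ x y : Z, z = x * a * y} : Set Z)) :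
    ∀ y : Y, y ∈ closure (Submodule.span ℂ {z : Y | ∃ (x y : Y) (c : X), z = x * b c * y} :
      Set Y) := by
  set M := Submodule.span ℂ {z : Y | ∃ (x y : Y) (c : X), z = x * b c * y} with hM
  have hMc : closure (M : Set Y) = (M.topologicalClosure : Set Y) := rfl
  have h1 : ∀ e f y : Y, e * y * f ∈ closure (M : Set Y) := by
    intro e f y
    have hcl : IsClosed {z : Z | k e * z * k f ∈ k '' (closure (M : Set Y))} := by
      have h2 : IsClosed (k '' (closure (M : Set Y))) :=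
        (isom k hk.inj).isClosedEmbedding.isClosedMap _ isClosed_closure
      exact h2.preimage ((continuous_const.mul continuous_id).mul continuous_const)
    have hsub : (Submodule.span ℂ {z : Z | ∃ x y : Z, z = x * a * y} : Set Z) ⊆
        {z : Z | k e * z * k f ∈ k '' (closure (M : Set Y))} := by
      intro z hz
      rw [Set.mem_ofPred_eq, hMc]
      induction hz using Submodule.span_induction with
      | mem z hz =>
        obtain ⟨x, y, rfl⟩ := hz
        obtain ⟨x', hx'⟩ := hk.right x e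
        obtain ⟨y', hy'⟩ := hk.left y f
        refine ⟨x' * b a' * y', ?_, ?_⟩
        · apply Submodule.le_topologicalClosure
          exact Submodule.subset_span ⟨x', y', a', rfl⟩
        · rw [map_mul, map_mul, hx', hy', ha]
          simp only [mul_assoc]
      | zero => exact ⟨0, Submodule.zero_mem _, by simp⟩
      | add x y _ _ hx hy =>
        obtain ⟨x', hx1, hx2⟩ := hx
        obtain ⟨y', hy1, hy2⟩ := hy
        exact ⟨x' + y', Submodule.add_mem _ hx1 hy1, by rw [map_add, hx2, hy2, mul_add, add_mul]⟩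
      | smul c x _ hx =>
        obtain ⟨x', hx1, hx2⟩ := hx
        exact ⟨c • x', Submodule.smul_mem _ c hx1, by
          rw [map_smul, hx2, mul_smul_comm, smul_mul_assoc]⟩
    obtain ⟨m, hm1, hm2⟩ := closure_minimal hsub hcl (h y)
    rw [← map_mul, ← map_mul] at hm2
    rw [← hk.inj hm2]
    exact hm1
  obtain ⟨l, hl, hl1, hl2⟩ := au Y
  have h2 : ∀ e y : Y, e * y ∈ closure (M : Set Y) := fun e y =>
    isClosed_closure.mem_of_tendsto (hl1 (e * y)) (Filter.Eventually.of_forall fun f => h1 e f y)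
  intro y
  exact isClosed_closure.mem_of_tendsto (hl2 y) (Filter.Eventually.of_forall fun e => h2 e y)

end aux

/-- the range of the preimage of a nonzero ideal of the quotient is larger -/
theorem ssub {K E A K₀ K' : Type} [NonUnitalCStarAlgebra K] [NonUnitalCStarAlgebra E]
    [NonUnitalCStarAlgebra A] [NonUnitalCStarAlgebra K₀] [NonUnitalCStarAlgebra K']
    (κ : K →⋆ₙₐ[ℂ] E) (θ : E →⋆ₙₐ[ℂ] A) (κ₀ : K₀ →⋆ₙₐ[ℂ] A) (κ' : K' →⋆ₙₐ[ℂ] E)
    (ρ : K' →⋆ₙₐ[ℂ] K₀) (lam : K →⋆ₙₐ[ℂ] K') (hκ : IsExt κ θ) (hκ₀ : IsIdeal κ₀)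
    (hl : IsExt lam ρ) (h1 : ∀ k, κ' (lam k) = κ k) (h2 : ∀ k', κ₀ (ρ k') = θ (κ' k'))
    (hK₀ : Nontrivial K₀) : Set.range κ ⊂ Set.range κ' := by
  constructor
  · rintro _ ⟨k, rfl⟩
    exact ⟨lam k, h1 k⟩
  · intro h
    obtain ⟨x, hx⟩ := exists_ne (0 : K₀)
    obtain ⟨k', rfl⟩ := hl.surj x
    obtain ⟨k, hk⟩ := h ⟨k', rfl⟩
    apply hx
    apply hκ₀.inj
    rw [h2, map_zero]
    exact (hκ.exact _).2 ⟨k, hk⟩

/-- the abelian case: the ideal generated by an abelian element has approximations with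
commuting colours -/
theorem abel (hHER : StHER) (hLN : StLN) (hHG : StHG) (hIG : StIG) (hPART : StPART)
    (hABL : StABL) {D A : Type} [NonUnitalCStarAlgebra D] [NonUnitalCStarAlgebra A]
    (θ' : D →⋆ₙₐ[ℂ] A) (hθ' : Function.Surjective θ') (J : Type) [Fintype J] (hD : SysAll D J)
    (a : A) (ha0 : a ≠ 0) (hap : Pos a)
    (hab : ∀ x y : A, (a * x * a) * (a * y * a) = (a * y * a) * (a * x * a)) :
    ∃ (K₀ : Type) (_ : NonUnitalCStarAlgebra K₀) (κ₀ : K₀ →⋆ₙₐ[ℂ] A), IsIdeal κ₀ ∧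
      Nontrivial K₀ ∧ SysC K₀ J := by
  obtain ⟨K₀, _, κ₀, hκ₀, ⟨a₀, ha₀⟩, hspan⟩ := hIG A a
  refine ⟨K₀, inferInstance, κ₀, hκ₀, ?_, ?_⟩
  · refine ⟨a₀, 0, ?_⟩
    rintro rfl
    exact ha0 (by rw [← ha₀, map_zero])
  have hpos : Pos a₀ := pos_of_inj κ₀ hκ₀.inj a₀ (by rw [ha₀]; exact hap)
  obtain ⟨B, _, β, hβ, hβr, b₀, hb₀⟩ := hHG K₀ a₀ hpos
  have hcomm : ∀ x y : B, x * y = y * x := by
    have h1 := comm_closure (Set.range fun x : K₀ => a₀ * x * a₀) (by
      rintro _ ⟨x, rfl⟩ _ ⟨y, rfl⟩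
      apply hκ₀.inj
      simp only [map_mul, ha₀]
      exact hab (κ₀ x) (κ₀ y))
    rw [← hβr] at h1
    intro x y
    apply hβ.inj
    rw [map_mul, map_mul]
    exact h1 _ ⟨x, rfl⟩ _ ⟨y, rfl⟩
  have hfull := full β κ₀ hκ₀ a b₀ (by rw [hb₀, ha₀]) hspan
  refine hABL K₀ B β hcomm hβ hfull J ?_
  -- the hereditary subalgebra of `D`
  obtain ⟨c, hc⟩ := hap
  obtain ⟨c', hc'⟩ := hθ' c
  have hd : θ' (star c' * c') = a := by rw [map_mul, map_star, hc', hc]
  obtain ⟨H, _, ιH, hιH, hιr, h₀, hh₀⟩ := hHG D (star c' * c') ⟨c', rfl⟩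
  have hH : SysAll H J := hHER H D ιH hιH J hD
  have hher : IsHer (κ₀.comp β) := her_comp β κ₀ hβ hκ₀
  have hcl : IsClosed (Set.range (κ₀.comp β)) := closed_range _ hher.inj
  have hex : ∀ h : H, ∃ b : B, (κ₀.comp β) b = (θ'.comp ιH) h := by
    intro h
    have h1 : ιH h ∈ closure (Set.range fun x : D => star c' * c' * x * (star c' * c')) := by
      rw [← hιr]
      exact ⟨h, rfl⟩
    have h2 : IsClosed (θ' ⁻¹' Set.range (κ₀.comp β)) := hcl.preimage (cont θ')
    have h3 : (Set.range fun x : D => star c' * c' * x * (star c' * c')) ⊆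
        θ' ⁻¹' Set.range (κ₀.comp β) := by
      rintro _ ⟨x, rfl⟩
      obtain ⟨b, hb⟩ := hher.her b₀ b₀ (θ' x)
      refine ⟨b, ?_⟩
      rw [hb]
      change κ₀ (β b₀) * θ' x * κ₀ (β b₀) = _
      rw [hb₀, ha₀, map_mul, map_mul, hd]
    exact closure_minimal h3 h2 h1
  set πB : H →⋆ₙₐ[ℂ] B := liftInj (κ₀.comp β) hher.inj (θ'.comp ιH) hex with hπB
  have hπBs : ∀ h, κ₀ (β (πB h)) = θ' (ιH h) := fun h => liftInj_spec _ hher.inj _ hex h
  have hsurj : Function.Surjective πB := by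
    have hcl2 : IsClosed (Set.range πB) := closed_range_of_LN hLN πB
    have hcl3 : IsClosed (β '' (Set.range πB)) :=
      (isom β hβ.inj).isClosedEmbedding.isClosedMap _ hcl2
    have h3 : (Set.range fun x : K₀ => a₀ * x * a₀) ⊆ β '' (Set.range πB) := by
      rintro _ ⟨x, rfl⟩
      obtain ⟨y, hy⟩ := hθ' (κ₀ x)
      have h4 : star c' * c' * y * (star c' * c') ∈ Set.range ιH := by
        rw [hιr]
        exact subset_closure ⟨y, rfl⟩
      obtain ⟨h, hh⟩ := h4
      refine ⟨πB h, ⟨h, rfl⟩, ?_⟩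
      apply hκ₀.inj
      rw [hπBs, hh, map_mul, map_mul, hd, hy, map_mul, map_mul, ha₀]
    intro b
    have h5 : β b ∈ closure (Set.range fun x : K₀ => a₀ * x * a₀) := by
      rw [← hβr]
      exact ⟨b, rfl⟩
    obtain ⟨b', ⟨h, rfl⟩, hb'⟩ := closure_minimal h3 hcl3 h5
    exact ⟨h, hβ.inj hb'⟩
  exact hPART H B πB hcomm hsurj J hH

theorem t_STEP (hND : StND) (hMAIN : StMAIN) (hCORE : StCORE) (hRIX : StRIX) (hHER : StHER)
    (hLN : StLN) (hHG : StHG) (hIG : StIG) (hPRE : StPRE) (hPART : StPART) (hABL : StABL)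
    (hDRS : StDRS) : StSTEP := by
  intro I E D K A _ _ _ _ _ ι π κ θ hι hκ hκθ hθι hT N hN hD hK
  -- ideals of the quotient with commuting colours
  have key : ∀ (K₀ : Type) (_ : NonUnitalCStarAlgebra K₀) (κ₀ : K₀ →⋆ₙₐ[ℂ] A), IsIdeal κ₀ →
      Nontrivial K₀ → SysC K₀ (Option (Fin N)) →
      ∃ (K' : Type) (_ : NonUnitalCStarAlgebra K') (κ' : K' →⋆ₙₐ[ℂ] E), IsIdeal κ' ∧
        SysAll K' (Option (Fin N)) ∧ Set.range κ ⊂ Set.range κ' := by
    intro K₀ _ κ₀ hκ₀ hnt hC
    obtain ⟨K', _, κ', ρ, lam, h1, h2, h3, h4, _⟩ := hPRE K E A K₀ κ θ κ₀ hκθ hκ₀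
    exact ⟨K', inferInstance, κ', h1, hCORE K K' K₀ lam ρ h2 _ hK hC,
      ssub κ θ κ₀ κ' ρ lam hκθ hκ₀ h2 h3 h4 hnt⟩
  rcases hT with ⟨a, ha0, hap, hab⟩ | ⟨K₀, _, κ₀, hκ₀, hnt, hdim⟩
  · have hker : ∀ e, π e = 0 → θ e = 0 := by
      intro e he
      obtain ⟨i, rfl⟩ := (hι.exact e).1 he
      exact hθι i
    have hsurj : Function.Surjective (desc π hι.surj θ hker) := by
      intro x
      obtain ⟨e, rfl⟩ := hκθ.surj x
      exact ⟨π e, desc_spec π hι.surj θ hker e⟩
    obtain ⟨K₀, _, κ₀, hκ₀, hnt, hC⟩ := abel hHER hLN hHG hIG hPART hABL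
      (desc π hι.surj θ hker) hsurj (Option (Fin N)) hD a ha0 hap hab
    exact key K₀ inferInstance κ₀ hκ₀ hnt hC
  · rcases hdim with hdim | hdim
    · obtain ⟨K', _, κ', ρ, lam, h1, h2, h3, h4, _⟩ := hPRE K E A K₀ κ θ κ₀ hκθ hκ₀
      have h5 : SysAll K₀ (Option (Fin 0)) := hND.1 K₀ 0 (by simpa using hdim)
      have h6 := hMAIN K K' K₀ lam ρ h2 (Fin N) (Fin 0) hK h5
      have h7 : SysAll K' (Option (Fin N)) :=
        hRIX K' _ _ ⟨Equiv.optionCongr (Equiv.emptySum (Fin 0) (Fin N))⟩ h6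
      exact ⟨K', inferInstance, κ', h1, h7, ssub κ θ κ₀ κ' ρ lam hκθ hκ₀ h2 h3 h4 hnt⟩
    · exact key K₀ inferInstance κ₀ hκ₀ hnt
        (hDRS K₀ (Option (Fin N)) none (some ⟨0, hN⟩) (by simp) hdim)

end Pool.Agent.Helper7_ND.J_STEP
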