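import Pool.Agent.Helper7_ND.Stm2

set_option autoImplicit false

open scoped Matrix.Norms.L2Operator ENNReal Matrix
open Pool.Agent.W659.EC

noncomputable section

namespace Pool.Agent.Helper7_ND.J_A1

/-- positive elements are mapped to positive elements of the unitization -/
theorem pos_unit {I E : Type} [NonUnitalCStarAlgebra I] [NonUnitalCStarAlgebra E]
    (ι : I →⋆ₙₐ[ℂ] E) (t : I) (ht : Pos t) : Pos ((ι t : E) : Unitization ℂ E) := by
  obtain ⟨b, rfl⟩ := ht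
  refine ⟨((ι b : E) : Unitization ℂ E), ?_⟩
  rw [map_mul, map_star, Unitization.inr_mul, Unitization.inr_star]

/-- the element `cut ι t` -/
theorem cut_facts {I E : Type} [NonUnitalCStarAlgebra I] [NonUnitalCStarAlgebra E]
    (ι : I →⋆ₙₐ[ℂ] E) (t : I) (ht : Pos t) (ht1 : ‖t‖ ≤ 1) :
    star (cut ι t) = cut ι t ∧
      cut ι t * cut ι t = 1 - ((ι t : E) : Unitization ℂ E) * ((ι t : E) : Unitization ℂ E) ∧
      ‖cut ι t‖ ≤ 1 := by
  let _ := CStarAlgebra.spectralOrder (Unitization ℂ E)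
  let _ := CStarAlgebra.spectralOrderedRing (Unitization ℂ E)
  set T : Unitization ℂ E := ((ι t : E) : Unitization ℂ E) with hT
  have hT0 : 0 ≤ T := CStarAlgebra.nonneg_iff_eq_star_mul_self.2 (pos_unit ι t ht)
  have hTs : IsSelfAdjoint T := IsSelfAdjoint.of_nonneg hT0
  have hTn : ‖T‖ ≤ 1 := by
    rw [hT, Unitization.norm_inr]
    exact (NonUnitalStarAlgHom.norm_apply_le ι t).trans ht1
  have hsp : ∀ s ∈ spectrum ℝ T, 0 ≤ s ∧ s ≤ 1 := by
    intro s hs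
    refine ⟨spectrum_nonneg_of_nonneg hT0 hs, ?_⟩
    have := spectrum.norm_le_norm_of_mem hs
    exact (Real.le_norm_self s).trans (this.trans hTn)
  have hcf : Continuous (fun s : ℝ => Real.sqrt (1 - s ^ 2)) := by fun_prop
  refine ⟨?_, ?_, ?_⟩
  · exact (cfc_predicate (R := ℝ) (p := IsSelfAdjoint) _ T).star_eq
  · change cfc (fun s : ℝ => Real.sqrt (1 - s ^ 2)) T * cfc (fun s : ℝ => Real.sqrt (1 - s ^ 2)) T
      = _
    rw [← cfc_mul _ _ T hcf.continuousOn hcf.continuousOn]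
    have h1 : cfc (fun s : ℝ => Real.sqrt (1 - s ^ 2) * Real.sqrt (1 - s ^ 2)) T
        = cfc (fun s : ℝ => 1 - s * s) T := by
      apply cfc_congr
      intro s hs
      obtain ⟨h0, h1⟩ := hsp s hs
      change Real.sqrt (1 - s ^ 2) * Real.sqrt (1 - s ^ 2) = 1 - s * s
      rw [Real.mul_self_sqrt (by nlinarith)]
      ring
    rw [h1, cfc_sub (fun _ : ℝ => (1 : ℝ)) (fun s : ℝ => s * s) T,
      cfc_const_one ℝ T, cfc_mul (fun s : ℝ => s) (fun s : ℝ => s) T, cfc_id' ℝ T]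
  · apply norm_cfc_le zero_le_one
    intro s hs
    obtain ⟨h0, h1⟩ := hsp s hs
    rw [Real.norm_of_nonneg (Real.sqrt_nonneg _)]
    calc Real.sqrt (1 - s ^ 2) ≤ Real.sqrt 1 := Real.sqrt_le_sqrt (by nlinarith)
      _ = 1 := Real.sqrt_one

/-- `‖a ι(i)‖² ≤ 2‖i‖ ‖i - t i‖` -/
theorem cut_ideal {I E : Type} [NonUnitalCStarAlgebra I] [NonUnitalCStarAlgebra E]
    (ι : I →⋆ₙₐ[ℂ] E) (t : I) (ht : Pos t) (ht1 : ‖t‖ ≤ 1) (i : I) :
    ‖cut ι t * ((ι i : E) : Unitization ℂ E)‖ ^ 2 ≤ 2 * ‖i‖ * ‖t * i - i‖ := by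
  obtain ⟨h1, h2, h3⟩ := cut_facts ι t ht ht1
  have e1 : star (cut ι t * ((ι i : E) : Unitization ℂ E)) * (cut ι t * ((ι i : E) : Unitization ℂ E))
      = ((ι (star i * (i - t * (t * i))) : E) : Unitization ℂ E) := by
    rw [star_mul, h1, mul_assoc, ← mul_assoc (cut ι t) (cut ι t), h2, map_mul, map_sub,
      map_mul, map_mul, map_star, Unitization.inr_mul, Unitization.inr_sub, Unitization.inr_mul,
      Unitization.inr_mul, Unitization.inr_star, sub_mul, one_mul, mul_assoc]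
  have e2 : ‖cut ι t * ((ι i : E) : Unitization ℂ E)‖ ^ 2
      = ‖((ι (star i * (i - t * (t * i))) : E) : Unitization ℂ E)‖ := by
    rw [← e1, CStarRing.norm_star_mul_self, sq]
  rw [e2, Unitization.norm_inr]
  calc ‖ι (star i * (i - t * (t * i)))‖ ≤ ‖star i * (i - t * (t * i))‖ :=
        NonUnitalStarAlgHom.norm_apply_le ι _
    _ ≤ ‖star i‖ * ‖i - t * (t * i)‖ := norm_mul_le _ _
    _ ≤ ‖i‖ * (2 * ‖t * i - i‖) := by
        rw [norm_star]
        apply mul_le_mul_of_nonneg_left _ (norm_nonneg _)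
        have e3 : i - t * (t * i) = -(t * i - i) - t * (t * i - i) := by
          rw [mul_sub]; abel
        rw [e3]
        calc ‖-(t * i - i) - t * (t * i - i)‖ ≤ ‖-(t * i - i)‖ + ‖t * (t * i - i)‖ :=
              norm_sub_le _ _
          _ ≤ ‖t * i - i‖ + 1 * ‖t * i - i‖ := by
              rw [norm_neg]
              gcongr
              exact (norm_mul_le _ _).trans (by gcongr)
          _ = 2 * ‖t * i - i‖ := by ring
    _ = 2 * ‖i‖ * ‖t * i - i‖ := by ring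

/-- the algebra of the final estimate -/
theorem final_est {B : Type} [CStarAlgebra B] (a t x z s s' : B) (c1 c2 c3 c4 : ℝ)
    (ha : ‖a‖ ≤ 1) (ht : ‖t‖ ≤ 1) (hat : a * a = 1 - t * t) (h1 : ‖a * x - x * a‖ ≤ c1)
    (h2 : ‖t * x - x * t‖ ≤ c2) (h3 : ‖a * z * a‖ ≤ c3) (hz : z = x - s')
    (h4 : ‖s - a * s' * a‖ ≤ c4) : ‖x - s - t * x * t‖ ≤ c1 + c2 + c3 + c4 := by
  have e1 : x - s - t * x * t = a * (a * x - x * a) + t * (t * x - x * t) + a * z * a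
      - (s - a * s' * a) := by
    have e2 : x = (a * a) * x + t * t * x := by rw [hat]; noncomm_ring
    subst hz
    calc x - s - t * x * t = ((a * a) * x + t * t * x) - s - t * x * t := by rw [← e2]
      _ = _ := by noncomm_ring
  rw [e1]
  have f1 : ‖a * (a * x - x * a)‖ ≤ c1 :=
    (norm_mul_le _ _).trans ((mul_le_mul ha h1 (norm_nonneg _) zero_le_one).trans (by rw [one_mul]))
  have f2 : ‖t * (t * x - x * t)‖ ≤ c2 :=
    (norm_mul_le _ _).trans ((mul_le_mul ht h2 (norm_nonneg _) zero_le_one).trans (by rw [one_mul]))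
  calc _ ≤ ‖a * (a * x - x * a) + t * (t * x - x * t) + a * z * a‖ + ‖s - a * s' * a‖ :=
        norm_sub_le _ _
    _ ≤ ‖a * (a * x - x * a)‖ + ‖t * (t * x - x * t)‖ + ‖a * z * a‖ + ‖s - a * s' * a‖ := by
        gcongr
        exact norm_add₃_le
    _ ≤ _ := by gcongr

theorem t_A1 (hLFT : StLFT) (hCOM : StCOM) (hLN : StLN) (hQC : StQC) : StA1 := by
  classical
  intro I E D _ _ _ ι π hext J _ hS G ε hε
  obtain ⟨F, ψ0, φ, hψ0, hφ, hG⟩ := hS (G.image π) (ε / 8) (by positivity)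
  obtain ⟨M, hM1, hxM⟩ : ∃ M : ℝ, 1 ≤ M ∧ ∀ x ∈ G, ‖x‖ ≤ M := by
    refine ⟨1 + ∑ x ∈ G, ‖x‖, ?_, ?_⟩
    · have : 0 ≤ ∑ x ∈ G, ‖x‖ := Finset.sum_nonneg fun _ _ => norm_nonneg _
      linarith
    · intro x hx
      have := Finset.single_le_sum (f := fun x : E => ‖x‖) (fun _ _ => norm_nonneg _) hx
      linarith
  set K : ℝ := (Fintype.card J : ℝ) + 1 with hKdef
  have hK1 : 1 ≤ K := by
    have : (0 : ℝ) ≤ (Fintype.card J : ℝ) := Nat.cast_nonneg _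
    linarith
  have hKM : 0 < 8 * K * M := by positivity
  obtain ⟨ε₁, hε₁, hε₁ε, hε₁K⟩ : ∃ ε₁ : ℝ, 0 < ε₁ ∧ ε₁ ≤ ε ∧ K * (ε₁ * M) ≤ ε / 8 := by
    refine ⟨min ε (ε / (8 * K * M)), lt_min hε (by positivity), min_le_left _ _, ?_⟩
    have h1 : min ε (ε / (8 * K * M)) ≤ ε / (8 * K * M) := min_le_right _ _
    calc K * (min ε (ε / (8 * K * M)) * M) ≤ K * ((ε / (8 * K * M)) * M) := by gcongr
      _ = ε / 8 := by
        have : K ≠ 0 := by positivity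
        have : M ≠ 0 := by positivity
        field_simp
  have h1 := fun j => hLFT I E D ι π hext (F j) (φ j) ε₁ hε₁ (hφ j).1 (hφ j).2
  choose Φ' C S δ hδ hΦ' hΦ using h1
  -- the error elements
  have hψn : ∀ x ∈ G, ∀ j, ‖ψ0 j (π x)‖ ≤ M := fun x hx j =>
    ((hψ0 j).2 _).trans ((NonUnitalStarAlgHom.norm_apply_le π x).trans (hxM x hx))
  have hsumK : ∀ (f : J → ℝ), (∀ j, f j ≤ ε₁ * M) → ∑ j, f j ≤ ε / 8 := by
    intro f hf
    calc ∑ j, f j ≤ ∑ _j : J, ε₁ * M := Finset.sum_le_sum fun j _ => hf j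
      _ = (Fintype.card J : ℝ) * (ε₁ * M) := by rw [Finset.sum_const, Finset.card_univ, nsmul_eq_mul]
      _ ≤ K * (ε₁ * M) := by
        gcongr
        linarith
      _ ≤ ε / 8 := hε₁K
  have hzπ : ∀ x ∈ G, ‖π (x - ∑ j, Φ' j (ψ0 j (π x)))‖ ≤ ε / 4 := by
    intro x hx
    have e1 : π (x - ∑ j, Φ' j (ψ0 j (π x))) = -(∑ j, φ j (ψ0 j (π x)) - π x)
        - ∑ j, (π (Φ' j (ψ0 j (π x))) - φ j (ψ0 j (π x))) := by
      rw [map_sub, map_sum, Finset.sum_sub_distrib]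
      abel
    rw [e1]
    have e2 : ‖∑ j, φ j (ψ0 j (π x)) - π x‖ ≤ ε / 8 :=
      hG (π x) (by simpa using ⟨x, hx, rfl⟩)
    have e3 : ‖∑ j, (π (Φ' j (ψ0 j (π x))) - φ j (ψ0 j (π x)))‖ ≤ ε / 8 := by
      refine (norm_sum_le _ _).trans (hsumK _ fun j => ?_)
      exact (hΦ' j _).trans (by gcongr; exact hψn x hx j)
    calc _ ≤ ‖-(∑ j, φ j (ψ0 j (π x)) - π x)‖
          + ‖∑ j, (π (Φ' j (ψ0 j (π x))) - φ j (ψ0 j (π x)))‖ := norm_sub_le _ _
      _ ≤ ε / 8 + ε / 8 := by rw [norm_neg]; gcongr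
      _ = ε / 4 := by ring
  have hz' : ∀ x : E, ∃ (z' : E) (i : I), ‖z'‖ ≤ ‖π (x - ∑ j, Φ' j (ψ0 j (π x)))‖ ∧
      x - ∑ j, Φ' j (ψ0 j (π x)) = z' + ι i := by
    intro x
    obtain ⟨z', h1, h2⟩ := hLN E D π (x - ∑ j, Φ' j (ψ0 j (π x)))
    have h3 : π ((x - ∑ j, Φ' j (ψ0 j (π x))) - z') = 0 := by
      rw [map_sub π _ z', h1, sub_self]
    obtain ⟨i, hi⟩ := (hext.exact _).1 h3
    exact ⟨z', i, h2, by rw [hi]; abel⟩
  choose z' ix hz'n hz'e using hz'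
  obtain ⟨L, hL1, hixL⟩ : ∃ L : ℝ, 1 ≤ L ∧ ∀ x ∈ G, ‖ix x‖ ≤ L := by
    refine ⟨1 + ∑ x ∈ G, ‖ix x‖, ?_, ?_⟩
    · have : 0 ≤ ∑ x ∈ G, ‖ix x‖ := Finset.sum_nonneg fun _ _ => norm_nonneg _
      linarith
    · intro x hx
      have := Finset.single_le_sum (f := fun x : E => ‖ix x‖) (fun _ _ => norm_nonneg _) hx
      linarith
  -- COM
  obtain ⟨δc, hδc, hcom⟩ := hCOM (fun s : ℝ => Real.sqrt (1 - s ^ 2)) M (ε / 8)
    (by fun_prop) (by positivity)
  -- small delta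
  obtain ⟨δ0, hδ0, hδ0j, hδ0c, hδ0ε, hδ0L⟩ : ∃ δ0 : ℝ, 0 < δ0 ∧ (∀ j, δ0 ≤ δ j) ∧ δ0 ≤ δc ∧
      δ0 ≤ ε / 8 ∧ 2 * L * δ0 ≤ (ε / 8) ^ 2 := by
    have a1 : ∀ c : ℝ, 0 < c → ∀ᶠ d : ℝ in nhdsWithin 0 (Set.Ioi 0), d ≤ c := by
      intro c hc
      have : Set.Iic c ∈ nhds (0 : ℝ) := Iic_mem_nhds hc
      exact Filter.Eventually.filter_mono nhdsWithin_le_nhds this
    have a2 : ∀ᶠ d : ℝ in nhdsWithin 0 (Set.Ioi 0), ∀ j, d ≤ δ j :=
      Filter.eventually_all.2 fun j => a1 _ (hδ j)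
    have a3 : ∀ᶠ d : ℝ in nhdsWithin 0 (Set.Ioi 0), 0 < d := self_mem_nhdsWithin
    obtain ⟨d, h1, h2, h3, h4, h5⟩ := (a3.and (a2.and ((a1 _ hδc).and
      ((a1 (ε / 8) (by positivity)).and (a1 ((ε / 8) ^ 2 / (2 * L)) (by positivity)))))).exists
    refine ⟨d, h1, h2, h3, h4, ?_⟩
    calc 2 * L * d ≤ 2 * L * ((ε / 8) ^ 2 / (2 * L)) := by gcongr
      _ = (ε / 8) ^ 2 := by
        have : L ≠ 0 := by positivity
        field_simp
  have hideal : IsIdeal ι := by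
    have hπι : ∀ i, π (ι i) = 0 := fun i => (hext.exact _).2 ⟨i, rfl⟩
    exact ⟨hext.inj, fun e i => (hext.exact _).1 (by rw [map_mul, hπι, mul_zero]),
      fun e i => (hext.exact _).1 (by rw [map_mul, hπι, zero_mul])⟩
  obtain ⟨t, htp, ht1, htC, htS⟩ := hQC I E ι hideal
    ((Finset.univ.biUnion C) ∪ G.image ix) ((Finset.univ.biUnion S) ∪ G) δ0 hδ0
  have hΦt := fun j => hΦ j t htp ht1
    (fun c hc => (htC c (Finset.mem_union_left _ (Finset.mem_biUnion.2 ⟨j, Finset.mem_univ _, hc⟩))).trans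
      (hδ0j j))
    (fun x hx => (htS x (Finset.mem_union_left _ (Finset.mem_biUnion.2 ⟨j, Finset.mem_univ _, hx⟩))).trans
      (hδ0j j))
  choose Φ hΦcp hΦoz hΦn hΦpos using hΦt
  have hπcpc : IsCPC (π : E →ₗ[ℂ] D) := isCPC_hom π _ (fun a => rfl)
  refine ⟨F, fun j => (ψ0 j) ∘ₗ (π : E →ₗ[ℂ] D), Φ, t, fun j => (hψ0 j).comp hπcpc,
    fun j => ⟨hΦcp j, hΦoz j⟩, htp, ht1, ?_, ?_⟩
  · intro j
    -- `(1 + ε) - (1 + ε₁) ≥ 0`
    let _ := CStarAlgebra.spectralOrder (Unitization ℂ E)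
    let _ := CStarAlgebra.spectralOrderedRing (Unitization ℂ E)
    have h1 : 0 ≤ ((1 + ε₁ : ℂ) • (1 : Unitization ℂ E)
            - ((ι (t * t) : E) : Unitization ℂ E) - ((Φ j 1 : E) : Unitization ℂ E)) :=
      CStarAlgebra.nonneg_iff_eq_star_mul_self.2 (hΦpos j)
    have h2 : 0 ≤ (((ε - ε₁ : ℝ) : ℂ) • (1 : Unitization ℂ E)) := by
      rw [← Algebra.algebraMap_eq_smul_one]
      have : (0 : ℝ) ≤ ε - ε₁ := by linarith
      have h3 : (algebraMap ℂ (Unitization ℂ E)) ((ε - ε₁ : ℝ) : ℂ)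
          = algebraMap ℝ (Unitization ℂ E) (ε - ε₁) := by
        rw [IsScalarTower.algebraMap_apply ℝ ℂ (Unitization ℂ E)]
        rfl
      rw [h3]
      exact algebraMap_nonneg _ this
    refine CStarAlgebra.nonneg_iff_eq_star_mul_self.1 ?_
    have h3 := add_nonneg h1 h2
    refine h3.trans_eq ?_
    have h4 : (1 + ε : ℂ) = (1 + ε₁ : ℂ) + ((ε - ε₁ : ℝ) : ℂ) := by push_cast; ring
    rw [h4, add_smul (1 + ε₁ : ℂ)]
    abel
  · intro x hx
    obtain ⟨a1, a2, a3⟩ := cut_facts ι t htp ht1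
    have hTn : ‖((ι t : E) : Unitization ℂ E)‖ ≤ 1 := by
      rw [Unitization.norm_inr]
      exact (NonUnitalStarAlgHom.norm_apply_le ι t).trans ht1
    have hS1 : ‖ι t * x - x * ι t‖ ≤ δ0 := htS x (Finset.mem_union_right _ hx)
    have b1 : ‖((ι t : E) : Unitization ℂ E) * (x : Unitization ℂ E)
        - (x : Unitization ℂ E) * ((ι t : E) : Unitization ℂ E)‖ ≤ δ0 := by
      rw [← Unitization.inr_mul, ← Unitization.inr_mul, ← Unitization.inr_sub,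
        Unitization.norm_inr]
      exact hS1
    have b2 : ‖cut ι t * (x : Unitization ℂ E) - (x : Unitization ℂ E) * cut ι t‖ ≤ ε / 8 :=
      hcom (Unitization ℂ E) _ _ (pos_unit ι t htp) hTn
        (by rw [Unitization.norm_inr]; exact hxM x hx) (b1.trans hδ0c)
    have b3 : ‖cut ι t * ((ι (ix x) : E) : Unitization ℂ E)‖ ≤ ε / 8 := by
      have c1 := cut_ideal ι t htp ht1 (ix x)
      have c2 : ‖t * ix x - ix x‖ ≤ δ0 :=
        htC _ (Finset.mem_union_right _ (Finset.mem_image_of_mem _ hx))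
      have c3 : ‖cut ι t * ((ι (ix x) : E) : Unitization ℂ E)‖ ^ 2 ≤ (ε / 8) ^ 2 := by
        refine c1.trans (le_trans ?_ hδ0L)
        have := hixL x hx
        gcongr
      exact le_of_sq_le_sq c3 (by positivity)
    have b4 : ‖cut ι t * ((x - ∑ j, Φ' j (ψ0 j (π x)) : E) : Unitization ℂ E) * cut ι t‖
        ≤ ε / 4 + ε / 8 := by
      rw [hz'e x, Unitization.inr_add, mul_add, add_mul]
      refine (norm_add_le _ _).trans (add_le_add ?_ ?_)
      · calc _ ≤ ‖cut ι t * (z' x : Unitization ℂ E)‖ * ‖cut ι t‖ := norm_mul_le _ _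
          _ ≤ (‖cut ι t‖ * ‖(z' x : Unitization ℂ E)‖) * ‖cut ι t‖ := by
              gcongr; exact norm_mul_le _ _
          _ ≤ (1 * ‖(z' x : Unitization ℂ E)‖) * 1 := by gcongr
          _ = ‖z' x‖ := by rw [Unitization.norm_inr]; ring
          _ ≤ ε / 4 := (hz'n x).trans (hzπ x hx)
      · calc _ ≤ ‖cut ι t * ((ι (ix x) : E) : Unitization ℂ E)‖ * ‖cut ι t‖ := norm_mul_le _ _
          _ ≤ (ε / 8) * 1 := by gcongr
          _ = ε / 8 := mul_one _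
    have b5 : ‖((∑ j, Φ j (ψ0 j (π x)) : E) : Unitization ℂ E)
        - cut ι t * ((∑ j, Φ' j (ψ0 j (π x)) : E) : Unitization ℂ E) * cut ι t‖ ≤ ε / 8 := by
      have c0 : ∀ f : J → E, ((∑ j, f j : E) : Unitization ℂ E)
          = ∑ j, ((f j : E) : Unitization ℂ E) := fun f =>
        map_sum (Unitization.inrNonUnitalAlgHom ℂ E) f Finset.univ
      rw [c0, c0, Finset.mul_sum, Finset.sum_mul, ← Finset.sum_sub_distrib]
      refine (norm_sum_le _ _).trans (hsumK _ fun j => ?_)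
      exact (hΦn j _).trans (by gcongr; exact hψn x hx j)
    have b6 := final_est (cut ι t) ((ι t : E) : Unitization ℂ E) (x : Unitization ℂ E)
      ((x - ∑ j, Φ' j (ψ0 j (π x)) : E) : Unitization ℂ E)
      ((∑ j, Φ j (ψ0 j (π x)) : E) : Unitization ℂ E)
      ((∑ j, Φ' j (ψ0 j (π x)) : E) : Unitization ℂ E) _ _ _ _ a3 hTn a2 b2 b1 b4
      (Unitization.inr_sub _ _ _) b5
    rw [← Unitization.inr_mul, ← Unitization.inr_mul, ← Unitization.inr_sub, ← Unitization.inr_sub,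
      Unitization.norm_inr] at b6
    refine b6.trans ?_
    linarith

end Pool.Agent.Helper7_ND.J_A1
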