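import Pool.Agent.Helper7_ND.Stm4

/-! # Nuclear dimension of extensions: tame quotients, permanence, and the second theorem -/

set_option autoImplicit false

open scoped Matrix.Norms.L2Operator ENNReal Matrix
open Pool.Agent.W659.EC

noncomputable section

namespace Pool.Agent.Helper7_ND

/-- `ι` is an isomorphism of `H` onto a hereditary subalgebra of `A` -/
structure IsHer {H A : Type} [NonUnitalCStarAlgebra H] [NonUnitalCStarAlgebra A]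
    (ι : H →⋆ₙₐ[ℂ] A) : Prop where
  inj : Function.Injective ι
  her : ∀ (h h' : H) (a : A), ∃ h'' : H, ι h'' = ι h * a * ι h'

/-! ## Perturbation lemmas -/

/-- T1H: compressing an exact row -/
def StT1H : Prop :=
  ∀ (ε : ℝ), 0 < ε → ∃ δ : ℝ, 0 < δ ∧
    ∀ (F : FDA) (A : Type) [NonUnitalCStarAlgebra A] (x : ∀ l : F.ι, F.n l → A) (k : F.ι → A)
      (d : A), IsRow F x k 0 → (∀ l, Pos (k l)) → ‖rowMap F x 1‖ ≤ 1 → Pos d → ‖d‖ ≤ 1 →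
      ‖rowMap F x 1 - d * rowMap F x 1‖ ≤ δ →
      ∃ (z : ∀ l : F.ι, F.n l → A) (k' : F.ι → A), IsRow F z k' 0 ∧ (∀ l, Pos (k' l)) ∧
        ‖rowMap F z 1‖ ≤ 1 ∧ (∀ y, ‖rowMap F z y - rowMap F x y‖ ≤ ε * ‖y‖) ∧
        ∀ l i, z l i ∈ closure (Set.range fun a : A => d * a)

/-- T1B: perturbation of one block, with control of the diagonal -/
def StT1B : Prop :=
  ∀ (r : ℕ) (ε : ℝ), 0 < ε → ∃ δ : ℝ, 0 < δ ∧
    ∀ (n : Type) [Fintype n], Fintype.card n ≤ r →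
    ∀ (A : Type) [NonUnitalCStarAlgebra A] (x : n → A) (K : A), Pos K →
      (∀ i, ‖star (x i) * x i - K‖ ≤ δ) → (∀ i j, i ≠ j → ‖star (x i) * x j‖ ≤ δ) →
      ∃ (z : n → A) (δ' : ℝ), 0 < δ' ∧ δ' ≤ ε ∧
        (∀ i, star (z i) * z i = cfcₙ (fun s : ℝ => max (s - δ') 0) K) ∧
        (∀ i j, i ≠ j → star (z i) * z j = 0) ∧ (∀ i, ‖z i - x i‖ ≤ ε) ∧
        ∀ c : A, (∀ i, c * x i = 0) → ∀ i, c * z i = 0

/-! ## Permanence -/

/-- HER: hereditary subalgebras -/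
def StHER : Prop :=
  ∀ (H A : Type) [NonUnitalCStarAlgebra H] [NonUnitalCStarAlgebra A] (ι : H →⋆ₙₐ[ℂ] A),
    IsHer ι → ∀ (J : Type) [Fintype J], SysAll A J → SysAll H J

/-- LOC: local approximation by hereditary subalgebras -/
def StLOC : Prop :=
  ∀ (A : Type) [NonUnitalCStarAlgebra A] (J : Type) [Fintype J],
    (∀ (G : Finset A) (ε : ℝ), 0 < ε → ∃ (H : Type) (_ : NonUnitalCStarAlgebra H)
      (ι : H →⋆ₙₐ[ℂ] A), IsHer ι ∧ SysAll H J ∧ ∃ e : H, Pos e ∧ ‖e‖ ≤ 1 ∧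
        ∀ g ∈ G, ‖ι e * g * ι e - g‖ ≤ ε) → SysAll A J

/-- RIX: changing the set of colours -/
def StRIX : Prop :=
  ∀ (A : Type) [NonUnitalCStarAlgebra A] (J J' : Type) [Fintype J] [Fintype J'],
    Nonempty (J ≃ J') → SysAll A J → SysAll A J'

/-- QUO: quotients by ideals are C*-algebras -/
def StQUO : Prop :=
  ∀ (K E : Type) [NonUnitalCStarAlgebra K] [NonUnitalCStarAlgebra E] (κ : K →⋆ₙₐ[ℂ] E),
    IsIdeal κ → ∃ (A : Type) (_ : NonUnitalCStarAlgebra A) (π : E →⋆ₙₐ[ℂ] A), IsExt κ π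

/-- HG: the hereditary subalgebra generated by a positive element -/
def StHG : Prop :=
  ∀ (A : Type) [NonUnitalCStarAlgebra A] (a : A), Pos a →
    ∃ (H : Type) (_ : NonUnitalCStarAlgebra H) (ι : H →⋆ₙₐ[ℂ] A), IsHer ι ∧
      Set.range ι = closure (Set.range fun x : A => a * x * a) ∧ ∃ a' : H, ι a' = a

/-- IG: the ideal generated by an element -/
def StIG : Prop :=
  ∀ (A : Type) [NonUnitalCStarAlgebra A] (a : A),
    ∃ (K : Type) (_ : NonUnitalCStarAlgebra K) (κ : K →⋆ₙₐ[ℂ] A), IsIdeal κ ∧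
      (∃ a' : K, κ a' = a) ∧
      ∀ k, κ k ∈ closure (Submodule.span ℂ {z : A | ∃ x y : A, z = x * a * y} : Set A)

/-- PRE: the preimage of an ideal -/
def StPRE : Prop :=
  ∀ (K E A J : Type) [NonUnitalCStarAlgebra K] [NonUnitalCStarAlgebra E]
    [NonUnitalCStarAlgebra A] [NonUnitalCStarAlgebra J] (κ : K →⋆ₙₐ[ℂ] E) (θ : E →⋆ₙₐ[ℂ] A)
    (j : J →⋆ₙₐ[ℂ] A), IsExt κ θ → IsIdeal j →
    ∃ (K' : Type) (_ : NonUnitalCStarAlgebra K') (κ' : K' →⋆ₙₐ[ℂ] E) (ρ : K' →⋆ₙₐ[ℂ] J)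
      (lam : K →⋆ₙₐ[ℂ] K'), IsIdeal κ' ∧ IsExt lam ρ ∧ (∀ k, κ' (lam k) = κ k) ∧
      (∀ k', j (ρ k') = θ (κ' k')) ∧ ∀ e : E, (∃ k', κ' k' = e) ↔ ∃ x, j x = θ e

/-- DS: sums of orthogonal ideals -/
def StDS : Prop :=
  ∀ (K₁ K₂ E : Type) [NonUnitalCStarAlgebra K₁] [NonUnitalCStarAlgebra K₂]
    [NonUnitalCStarAlgebra E] (κ₁ : K₁ →⋆ₙₐ[ℂ] E) (κ₂ : K₂ →⋆ₙₐ[ℂ] E), IsIdeal κ₁ →
    IsIdeal κ₂ → (∀ x y, κ₁ x * κ₂ y = 0) → ∀ (J : Type) [Fintype J], SysAll K₁ J →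
    SysAll K₂ J → ∃ (K : Type) (_ : NonUnitalCStarAlgebra K) (κ : K →⋆ₙₐ[ℂ] E), IsIdeal κ ∧
      SysAll K J ∧ (∀ e : E, (∃ z, κ z = e) ↔ ∃ x y, κ₁ x + κ₂ y = e)

/-- PERP: the annihilator of an ideal -/
def StPERP : Prop :=
  ∀ (I E : Type) [NonUnitalCStarAlgebra I] [NonUnitalCStarAlgebra E] (ι : I →⋆ₙₐ[ℂ] E),
    IsIdeal ι → ∃ (P : Type) (_ : NonUnitalCStarAlgebra P) (p : P →⋆ₙₐ[ℂ] E), IsIdeal p ∧
      (∀ e : E, (∃ x, p x = e) ↔ ∀ i, e * ι i = 0) ∧ ∀ x i, ι i * p x = 0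

/-- CHN: unions of chains of ideals -/
def StCHN : Prop :=
  ∀ (E : Type) [NonUnitalCStarAlgebra E] (J : Type) [Fintype J] (c : Set (Set E)),
    IsChain (· ⊆ ·) c → c.Nonempty →
    (∀ S ∈ c, ∃ (K : Type) (_ : NonUnitalCStarAlgebra K) (κ : K →⋆ₙₐ[ℂ] E), IsIdeal κ ∧
      Set.range κ = S ∧ SysAll K J) →
    ∃ (K : Type) (_ : NonUnitalCStarAlgebra K) (κ : K →⋆ₙₐ[ℂ] E), IsIdeal κ ∧
      Set.range κ = closure (⋃₀ c) ∧ SysAll K J

/-! ## Commutative algebras, abelian elements, decomposition rank one -/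

/-- partitions of unity with characters, for commutative algebras -/
def Part (B : Type) [NonUnitalCStarAlgebra B] (J : Type) [Fintype J] : Prop :=
  ∀ (G : Finset B) (ε : ℝ), 0 < ε →
    ∃ (L : J → Type) (_ : ∀ j, Fintype (L j)) (f : ∀ j, L j → B) (χ : ∀ j, L j → (B →⋆ₙₐ[ℂ] ℂ)),
      (∀ j l, Pos (f j l)) ∧ (∀ j l l', l ≠ l' → f j l * f j l' = 0) ∧
      ‖∑ j, ∑ l, f j l‖ ≤ 1 ∧ (∀ b ∈ G, ‖(∑ j, ∑ l, f j l) * b - b‖ ≤ ε) ∧
      ∀ b ∈ G, ∀ j l, ‖b * f j l - (χ j l b) • f j l‖ ≤ ε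

/-- PART: partitions of unity for commutative quotients -/
def StPART : Prop :=
  ∀ (H B : Type) [NonUnitalCStarAlgebra H] [NonUnitalCStarAlgebra B] (π : H →⋆ₙₐ[ℂ] B),
    (∀ x y : B, x * y = y * x) → Function.Surjective π → ∀ (J : Type) [Fintype J],
    SysAll H J → Part B J

/-- ABL: algebras with a full commutative hereditary subalgebra -/
def StABL : Prop :=
  ∀ (A B : Type) [NonUnitalCStarAlgebra A] [NonUnitalCStarAlgebra B] (β : B →⋆ₙₐ[ℂ] A),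
    (∀ x y : B, x * y = y * x) → IsHer β →
    (∀ a : A, a ∈ closure (Submodule.span ℂ {z : A | ∃ (x y : A) (b : B), z = x * β b * y} :
      Set A)) → ∀ (J : Type) [Fintype J], Part B J → SysC A J

/-- DRS: decomposition rank one -/
def StDRS : Prop :=
  ∀ (A : Type) [NonUnitalCStarAlgebra A] (J : Type) [Fintype J] (i j : J), i ≠ j →
    decRank A ≤ 1 → SysC A J

/-! ## The second theorem -/

/-- the algebra `A` has a nonzero abelian element (a positive `a` with `a A a` commutative), or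
a nonzero closed ideal of nuclear dimension zero or of decomposition rank at most one -/
def Tame (A : Type) [NonUnitalCStarAlgebra A] : Prop :=
  (∃ a : A, a ≠ 0 ∧ Pos a ∧ ∀ x y : A, (a * x * a) * (a * y * a) = (a * y * a) * (a * x * a)) ∨
  ∃ (K : Type) (_ : NonUnitalCStarAlgebra K) (κ : K →⋆ₙₐ[ℂ] A), IsIdeal κ ∧ Nontrivial K ∧
    (nucDim K ≤ 0 ∨ decRank K ≤ 1)

/-- STEP: enlarging an ideal of bounded nuclear dimension -/
def StSTEP : Prop :=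
  ∀ (I E D K A : Type) [NonUnitalCStarAlgebra I] [NonUnitalCStarAlgebra E]
    [NonUnitalCStarAlgebra D] [NonUnitalCStarAlgebra K] [NonUnitalCStarAlgebra A]
    (ι : I →⋆ₙₐ[ℂ] E) (π : E →⋆ₙₐ[ℂ] D) (κ : K →⋆ₙₐ[ℂ] E) (θ : E →⋆ₙₐ[ℂ] A),
    IsExt ι π → IsIdeal κ → IsExt κ θ → (∀ i, θ (ι i) = 0) → Tame A → ∀ N : ℕ, 1 ≤ N →
    SysAll D (Option (Fin N)) → SysAll K (Option (Fin N)) →
    ∃ (K' : Type) (_ : NonUnitalCStarAlgebra K') (κ' : K' →⋆ₙₐ[ℂ] E), IsIdeal κ' ∧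
      SysAll K' (Option (Fin N)) ∧ Set.range κ ⊂ Set.range κ'

/-- MAIN3: the second theorem -/
def StMAIN3 : Prop :=
  ∀ (I E D : Type) [NonUnitalCStarAlgebra I] [NonUnitalCStarAlgebra E]
    [NonUnitalCStarAlgebra D] (ι : I →⋆ₙₐ[ℂ] E) (π : E →⋆ₙₐ[ℂ] D), IsExt ι π →
    (∀ (A : Type) [NonUnitalCStarAlgebra A] (θ : E →⋆ₙₐ[ℂ] A), Function.Surjective θ →
      Nontrivial A → (∀ i, θ (ι i) = 0) → (∀ e, (∀ i, e * ι i = 0) → θ e = 0) → Tame A) →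
    nucDim E ≤ max (nucDim I) (nucDim D)

end Pool.Agent.Helper7_ND
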