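import Pool.Agent.Helper7_ND.Stm2

/-! # ALG: the algebraic core of the merging -/

set_option autoImplicit false

open scoped Matrix.Norms.L2Operator ENNReal Matrix
open Pool.Agent.W659.EC

noncomputable section

namespace Pool.Agent.Helper7_ND.J_ALG

section general

variable {A B : Type} [CStarAlgebra A] [CStarAlgebra B]

theorem pos_iff [PartialOrder A] [StarOrderedRing A] (a : A) : Pos a ↔ 0 ≤ a :=
  (nonneg_iff_star a).symm

theorem pos_star {a : A} (h : Pos a) : star a = a := by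
  obtain ⟨b, rfl⟩ := h
  rw [star_mul, star_star]

theorem pos_add {a b : A} (ha : Pos a) (hb : Pos b) : Pos (a + b) := by
  let _ := CStarAlgebra.spectralOrder A
  let _ := CStarAlgebra.spectralOrderedRing A
  rw [pos_iff] at *
  exact add_nonneg ha hb

theorem pos_conj {a : A} (ha : Pos a) (c : A) : Pos (star c * a * c) := by
  obtain ⟨b, rfl⟩ := ha
  refine ⟨b * c, ?_⟩
  rw [star_mul]
  simp only [mul_assoc]

theorem pos_map {φ : A →ₗ[ℂ] B} (h : IsCP φ) {a : A} (ha : Pos a) : Pos (φ a) := by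
  let _ := CStarAlgebra.spectralOrder B
  let _ := CStarAlgebra.spectralOrderedRing B
  obtain ⟨b, rfl⟩ := ha
  rw [pos_iff]
  exact h.nonneg b

theorem pos_hom (ω : A →⋆ₐ[ℂ] B) {a : A} (ha : Pos a) : Pos (ω a) := by
  obtain ⟨b, rfl⟩ := ha
  exact ⟨ω b, by rw [map_mul, map_star]⟩

theorem pos_smul {a : A} (ha : Pos a) {c : ℝ} (hc : 0 ≤ c) : Pos ((c : ℂ) • a) := by
  obtain ⟨b, rfl⟩ := ha
  refine ⟨((Real.sqrt c : ℝ) : ℂ) • b, ?_⟩
  rw [star_smul, smul_mul_smul_comm]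
  congr 1
  rw [Complex.star_def, Complex.conj_ofReal, ← Complex.ofReal_mul, Real.mul_self_sqrt hc]

theorem prj_pos {p : A} (hp : Prj p) : Pos p := ⟨p, by rw [hp.1, hp.2]⟩

theorem prj_norm {p : A} (hp : Prj p) : ‖p‖ ≤ 1 := by
  have h1 : ‖p‖ * ‖p‖ = ‖p‖ := by
    rw [← CStarRing.norm_star_mul_self, hp.1, hp.2]
  rcases eq_or_ne ‖p‖ 0 with h | h
  · rw [h]; exact zero_le_one
  · have : ‖p‖ = 1 := by
      have := mul_left_cancel₀ h (h1.trans (mul_one _).symm)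
      exact this
    rw [this]

theorem eq_zero_of_star_mul {x : A} (h : star x * x = 0) : x = 0 :=
  CStarRing.star_mul_self_eq_zero_iff x |>.mp h

theorem eq_zero_of_mul_star {x : A} (h : x * star x = 0) : x = 0 :=
  CStarRing.mul_star_self_eq_zero_iff x |>.mp h

theorem sqrt_lem (ω : A →⋆ₐ[ℂ] B) {a : A} (ha : Pos a) :
    ∃ c : A, star c = c ∧ c * c = a ∧ ∀ x : B, ω a * x = x * ω a → ω c * x = x * ω c := by
  let _ := CStarAlgebra.spectralOrder A
  let _ := CStarAlgebra.spectralOrderedRing A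
  have h0 : (0 : A) ≤ a := (pos_iff a).mp ha
  have hsa : IsSelfAdjoint a := pos_star ha
  refine ⟨cfc Real.sqrt a, ?_, ?_, ?_⟩
  · exact cfc_predicate Real.sqrt a
  · rw [← cfc_mul Real.sqrt Real.sqrt a]
    have h1 : Set.EqOn (fun x => Real.sqrt x * Real.sqrt x) id (spectrum ℝ a) := by
      intro x hx
      exact Real.mul_self_sqrt (spectrum_nonneg_of_nonneg h0 hx)
    rw [cfc_congr h1, cfc_id ℝ a]
  · intro x hx
    have hc : Continuous ω :=
      ((ω : A →ₗ[ℂ] B).mkContinuous 1 (fun x => by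
        rw [one_mul]; exact NonUnitalStarAlgHom.norm_apply_le ω x)).continuous
    have h2 : ω (cfc Real.sqrt a) = cfc Real.sqrt (ω a) :=
      StarAlgHomClass.map_cfc (S := ℂ) ω Real.sqrt a (hφ := hc)
        (hφa := (show IsSelfAdjoint (ω a) from hsa.map ω))
    rw [h2]
    exact Commute.cfc_real (show Commute (ω a) x from hx) Real.sqrt

theorem norm_one_le : ‖(1 : A)‖ ≤ 1 :=
  prj_norm ⟨by simp, by simp⟩

theorem norm_le_of_pos {a b : A} (ha : Pos a) (hb : Pos (b - a)) : ‖a‖ ≤ ‖b‖ := by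
  let _ := CStarAlgebra.spectralOrder A
  let _ := CStarAlgebra.spectralOrderedRing A
  rw [pos_iff] at *
  exact CStarAlgebra.norm_le_norm_of_nonneg_of_le ha (sub_nonneg.mp hb)

theorem cp_norm_le {φ : A →ₗ[ℂ] B} (h : IsCP φ) (a : A) : ‖φ a‖ ≤ ‖φ 1‖ * ‖a‖ := by
  let _ := CStarAlgebra.spectralOrder B
  let _ := CStarAlgebra.spectralOrderedRing B
  exact h.norm_le a

theorem cp_schwarz {φ : A →ₗ[ℂ] B} (h : IsCP φ) (a : A) :
    Pos (((‖φ 1‖ : ℝ) : ℂ) • φ (star a * a) - star (φ a) * φ a) := by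
  let _ := CStarAlgebra.spectralOrder B
  let _ := CStarAlgebra.spectralOrderedRing B
  rw [pos_iff, sub_nonneg]
  exact h.schwarz a

theorem pos_bound (x t : A) :
    Pos ((((‖x‖ ^ 2 : ℝ)) : ℂ) • (star t * t) - star (x * t) * (x * t)) := by
  let _ := CStarAlgebra.spectralOrder A
  let _ := CStarAlgebra.spectralOrderedRing A
  rw [pos_iff, sub_nonneg]
  have h := CStarAlgebra.star_left_conjugate_le_norm_smul (a := t) (b := star x * x)
    (IsSelfAdjoint.star_mul_self x)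
  rw [CStarRing.norm_star_mul_self, ← sq] at h
  refine le_trans (le_of_eq ?_) h
  rw [star_mul]
  simp only [mul_assoc]

theorem norm_mul_sq (x e : A) : ‖x * e‖ ^ 2 = ‖star e * (star x * x) * e‖ := by
  rw [sq, ← CStarRing.norm_star_mul_self, star_mul]
  simp only [mul_assoc]

end general

section main

variable {T Q R : Type} [CStarAlgebra T] [CStarAlgebra Q] [CStarAlgebra R]

/-- the hypotheses -/
structure Hy (ω : T →⋆ₐ[ℂ] Q) (N : T →ₗ[ℂ] R) (Φ' : R →ₗ[ℂ] Q) {F : FDA}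
    (Φ : F.alg →ₗ[ℂ] T) (v u t : T) (r : Q) : Prop where
  cpN : IsCP N
  leN : ∀ z, ‖N z‖ ≤ ‖ω z‖
  cpP : IsCPC Φ'
  ozP : ∀ a b, Φ' a * Φ' b = Φ' 1 * Φ' (a * b)
  injP : ∀ a, Φ' 1 * Φ' a = 0 → a = 0
  comP : ∀ z, ω (z * v) = ω (v * z) →
      Φ' (N z) = Φ' (N 1) * ω z ∧ Φ' (N z) = ω z * Φ' (N 1)
  leV : Pos (ω (v * v) - Φ' (N 1))
  cpF : IsCP Φ
  ozF : OZ Φ
  nF : ‖Φ 1‖ ≤ 2
  pv : Pos v
  pu : Pos u
  pt : Pos t
  nt : ‖t‖ ≤ 1
  vu : ω (v * u) = ω u
  ut : ω (u * t) = ω t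
  vF : ∀ y, ω (v * Φ y) = ω (Φ y * v)
  uF : ∀ y, ω (u * Φ y) = ω (Φ y * u)
  pr : Pos r
  rr : r * r = 1 - ω (v * v)
  rF : ∀ y, r * ω (Φ y) = ω (Φ y) * r

variable {ω : T →⋆ₐ[ℂ] Q} {N : T →ₗ[ℂ] R} {Φ' : R →ₗ[ℂ] Q} {F : FDA}
  {Φ : F.alg →ₗ[ℂ] T} {v u t : T} {r : Q}

namespace Hy

theorem congr (h : Hy ω N Φ' Φ v u t r) {z z' : T} (e : ω z = ω z') : N z = N z' := by
  have h1 := h.leN (z - z')
  rw [map_sub, map_sub, e, sub_self, norm_zero] at h1
  exact sub_eq_zero.mp (norm_le_zero_iff.mp h1)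

theorem norm_ω (z : T) : ‖ω z‖ ≤ ‖z‖ := NonUnitalStarAlgHom.norm_apply_le ω z

/-- `z` commutes with `v` in `Q` -/
def Cv (ω : T →⋆ₐ[ℂ] Q) (v z : T) : Prop := ω (z * v) = ω (v * z)

theorem Cv.mul {z z' : T} (h : Cv ω v z) (h' : Cv ω v z') : Cv ω v (z * z') := by
  unfold Cv at *
  calc ω (z * z' * v) = ω z * ω (z' * v) := by rw [← map_mul, mul_assoc]
    _ = ω (z * v) * ω z' := by rw [h', ← map_mul, ← map_mul, mul_assoc]
    _ = ω (v * (z * z')) := by rw [h, ← map_mul, mul_assoc]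

theorem Cv.add {z z' : T} (h : Cv ω v z) (h' : Cv ω v z') : Cv ω v (z + z') := by
  unfold Cv at *
  rw [add_mul, mul_add, map_add, map_add, h, h']

theorem Cv.one : Cv ω v 1 := by
  unfold Cv
  rw [one_mul, mul_one]

theorem NN (h : Hy ω N Φ' Φ v u t r) {z z' : T} (hz : Cv ω v z) (hz' : Cv ω v z') :
    N z * N z' = N 1 * N (z * z') := by
  rw [← sub_eq_zero]
  apply h.injP
  rw [map_sub, mul_sub, ← h.ozP, ← h.ozP, (h.comP z hz).2, (h.comP z' hz').1,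
    (h.comP (z * z') (hz.mul hz')).2, map_mul]
  have e1 := (h.comP z hz).1.symm.trans (h.comP z hz).2
  have e2 := (h.comP z' hz').1.symm.trans (h.comP z' hz').2
  rw [sub_eq_zero]
  calc ω z * Φ' (N 1) * (Φ' (N 1) * ω z') = Φ' (N 1) * ω z * (ω z' * Φ' (N 1)) := by rw [e1, e2]
    _ = Φ' (N 1) * (ω z * ω z' * Φ' (N 1)) := by simp only [mul_assoc]

theorem cvF (h : Hy ω N Φ' Φ v u t r) (y : F.alg) : Cv ω v (Φ y) := (h.vF y).symm

theorem uv (h : Hy ω N Φ' Φ v u t r) : ω (u * v) = ω u := by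
  have := congrArg star h.vu
  rw [← map_star, ← map_star, star_mul, pos_star h.pv, pos_star h.pu] at this
  exact this

theorem tu (h : Hy ω N Φ' Φ v u t r) : ω (t * u) = ω t := by
  have := congrArg star h.ut
  rw [← map_star, ← map_star, star_mul, pos_star h.pt, pos_star h.pu] at this
  exact this

theorem tv (h : Hy ω N Φ' Φ v u t r) : ω (t * v) = ω t := by
  calc ω (t * v) = ω (t * u) * ω v := by rw [h.tu, map_mul]
    _ = ω t * ω (u * v) := by simp only [map_mul, mul_assoc]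
    _ = ω t := by rw [h.uv, ← map_mul, h.tu]

theorem vt (h : Hy ω N Φ' Φ v u t r) : ω (v * t) = ω t := by
  calc ω (v * t) = ω v * ω (u * t) := by rw [h.ut, map_mul]
    _ = ω (v * u) * ω t := by simp only [map_mul, mul_assoc]
    _ = ω t := by rw [h.vu, ← map_mul, h.ut]

theorem cvU (h : Hy ω N Φ' Φ v u t r) : Cv ω v u := h.uv.trans h.vu.symm

theorem cvT (h : Hy ω N Φ' Φ v u t r) (z : T) : Cv ω v (t * z * t) := by
  unfold Cv
  calc ω (t * z * t * v) = ω (t * z) * ω (t * v) := by simp only [map_mul, mul_assoc]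
    _ = ω t * ω (z * t) := by rw [h.tv]; simp only [map_mul, mul_assoc]
    _ = ω (v * (t * z * t)) := by rw [← h.vt]; simp only [map_mul, mul_assoc]

/-- the order zero map `κ` -/
theorem kk (h : Hy ω N Φ' Φ v u t r) (x y : F.alg) :
    N (Φ x) * N (Φ y) = N (Φ 1) * N (Φ (x * y)) := by
  rw [h.NN (h.cvF x) (h.cvF y), h.ozF x y, ← h.NN (h.cvF 1) (h.cvF (x * y))]

theorem FF1 (h : Hy ω N Φ' Φ v u t r) (y : F.alg) : Φ y * Φ 1 = Φ 1 * Φ y := by
  rw [h.ozF y 1, mul_one]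

theorem ks (h : Hy ω N Φ' Φ v u t r) (y : F.alg) :
    N (Φ y) * N (u * Φ 1) = N (u * Φ 1) * N (Φ y) := by
  rw [h.NN (h.cvF y) (h.cvU.mul (h.cvF 1)), h.NN (h.cvU.mul (h.cvF 1)) (h.cvF y)]
  congr 1
  apply h.congr
  calc ω (Φ y * (u * Φ 1)) = ω (Φ y * u) * ω (Φ 1) := by simp only [map_mul, mul_assoc]
    _ = ω u * ω (Φ y * Φ 1) := by rw [← h.uF]; simp only [map_mul, mul_assoc]
    _ = ω (u * Φ 1 * Φ y) := by rw [h.FF1]; simp only [map_mul, mul_assoc]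

theorem pos_s (h : Hy ω N Φ' Φ v u t r) : Pos (N (u * Φ 1)) := by
  obtain ⟨c, hc1, hc2, hc3⟩ := sqrt_lem ω h.pu
  have e1 : ω c * ω (Φ 1) = ω (Φ 1) * ω c := by
    apply hc3
    rw [← map_mul, ← map_mul, h.uF]
  have e2 : ω (u * Φ 1) = ω (c * Φ 1 * c) := by
    rw [← hc2]
    simp only [map_mul]
    rw [mul_assoc (ω c), mul_assoc (ω c), e1]
  rw [h.congr e2]
  apply pos_map h.cpN
  have := pos_conj (pos_map h.cpF (⟨1, by simp⟩ : Pos (1 : F.alg))) c
  rw [hc1] at this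
  exact this

theorem pos_b (h : Hy ω N Φ' Φ v u t r) : Pos (N (t * t)) := by
  apply pos_map h.cpN
  exact ⟨t, by rw [pos_star h.pt]⟩

theorem sX (h : Hy ω N Φ' Φ v u t r) (z : T) :
    (N (Φ 1) - N (u * Φ 1)) * N (t * z * t) = 0 := by
  rw [sub_mul, sub_eq_zero, h.NN (h.cvF 1) (h.cvT z), h.NN (h.cvU.mul (h.cvF 1)) (h.cvT z)]
  congr 1
  apply h.congr
  calc ω (Φ 1 * (t * z * t)) = ω (Φ 1) * ω (u * t) * ω (z * t) := by
        rw [h.ut]; simp only [map_mul, mul_assoc]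
    _ = ω (Φ 1 * u) * ω t * ω (z * t) := by simp only [map_mul, mul_assoc]
    _ = ω (u * Φ 1 * (t * z * t)) := by rw [← h.uF]; simp only [map_mul, mul_assoc]

theorem cpK (h : Hy ω N Φ' Φ v u t r) : IsCP (N ∘ₗ Φ) := h.cpN.comp h.cpF

theorem nK (h : Hy ω N Φ' Φ v u t r) : ‖N (Φ 1)‖ ≤ 2 :=
  (h.leN _).trans ((norm_ω _).trans h.nF)

theorem ek (h : Hy ω N Φ' Φ v u t r) {e : R} (he : star e = e) (hn : ‖e‖ ≤ 1) {δ : ℝ}
    (hδ : ‖N (Φ 1) * e‖ ≤ δ) (y : F.alg) : ‖N (Φ y) * e‖ ≤ Real.sqrt (2 * δ) * ‖y‖ := by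
  have hδ0 : 0 ≤ δ := (norm_nonneg _).trans hδ
  have h1 : star (N (Φ y)) = N (Φ (star y)) := by
    rw [h.cpF.star_map, h.cpN.star_map]
  have h2 : star (N (Φ 1)) = N (Φ 1) := by
    rw [← h.cpN.star_map, ← h.cpF.star_map, star_one]
  have h3 : ‖e * N (Φ 1)‖ ≤ δ := by
    have : e * N (Φ 1) = star (N (Φ 1) * e) := by rw [star_mul, he, h2]
    rw [this, norm_star]
    exact hδ
  have h4 : ‖N (Φ (star y * y))‖ ≤ 2 * ‖y‖ ^ 2 := by
    refine (h.leN _).trans ((norm_ω _).trans ?_)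
    refine (cp_norm_le h.cpF _).trans ?_
    rw [CStarRing.norm_star_mul_self, sq]
    exact mul_le_mul_of_nonneg_right h.nF (by positivity)
  have h5 : ‖N (Φ y) * e‖ ^ 2 ≤ (Real.sqrt (2 * δ) * ‖y‖) ^ 2 := by
    rw [norm_mul_sq, he, h1, h.kk, mul_pow, Real.sq_sqrt (by positivity)]
    have e1 : e * (N (Φ 1) * N (Φ (star y * y))) * e
        = (e * N (Φ 1)) * N (Φ (star y * y)) * e := by simp only [mul_assoc]
    rw [e1]
    calc ‖(e * N (Φ 1)) * N (Φ (star y * y)) * e‖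
        ≤ ‖e * N (Φ 1)‖ * ‖N (Φ (star y * y))‖ * ‖e‖ :=
          (norm_mul_le _ _).trans (mul_le_mul_of_nonneg_right (norm_mul_le _ _) (norm_nonneg _))
      _ ≤ δ * (2 * ‖y‖ ^ 2) * 1 := by gcongr
      _ = 2 * δ * ‖y‖ ^ 2 := by ring
  exact (sq_le_sq₀ (norm_nonneg _) (by positivity)).1 h5

theorem ek' (h : Hy ω N Φ' Φ v u t r) {e : R} (he : star e = e) (hn : ‖e‖ ≤ 1) {δ : ℝ}
    (hδ : ‖N (Φ 1) * e‖ ≤ δ) (y : F.alg) : ‖e * N (Φ y)‖ ≤ Real.sqrt (2 * δ) * ‖y‖ := by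
  have h1 : e * N (Φ y) = star (N (Φ (star y)) * e) := by
    rw [star_mul, he, ← h.cpN.star_map, ← h.cpF.star_map, star_star]
  rw [h1, norm_star, ← norm_star y]
  exact h.ek he hn hδ (star y)

theorem eX (h : Hy ω N Φ' Φ v u t r) {e : R} (he : star e = e) {δ : ℝ}
    (hδ : ‖e * N (t * t) * e‖ ≤ δ) (z : T) :
    ‖N (t * z * t) * e‖ ≤ Real.sqrt δ * ‖z‖ := by
  have hδ0 : 0 ≤ δ := (norm_nonneg _).trans hδ
  set a := t * z * t with ha
  have hN1 : ‖N 1‖ ≤ 1 := by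
    refine (h.leN 1).trans ?_
    rw [map_one]
    exact norm_one_le
  have p1 := pos_bound (t * z) t
  rw [← ha, pos_star h.pt] at p1
  have p2 : Pos (((‖z‖ ^ 2 : ℝ) : ℂ) • (t * t) - star a * a) := by
    have h1 : ‖t * z‖ ^ 2 ≤ ‖z‖ ^ 2 := by
      refine pow_le_pow_left₀ (norm_nonneg _) ?_ 2
      calc ‖t * z‖ ≤ ‖t‖ * ‖z‖ := norm_mul_le _ _
        _ ≤ 1 * ‖z‖ := by gcongr; exact h.nt
        _ = ‖z‖ := one_mul _
    have h2 : Pos (((‖z‖ ^ 2 - ‖t * z‖ ^ 2 : ℝ) : ℂ) • (t * t)) :=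
      pos_smul ⟨t, by rw [pos_star h.pt]⟩ (sub_nonneg.mpr h1)
    have h3 := pos_add h2 p1
    convert h3 using 1
    push_cast
    rw [sub_smul]
    abel
  have p3 := pos_map h.cpN p2
  rw [map_sub, map_smul] at p3
  have p4 := cp_schwarz h.cpN a
  have p5 : Pos (((‖z‖ ^ 2 : ℝ) : ℂ) • N (t * t) - star (N a) * N a) := by
    have h2 : Pos (((1 - ‖N 1‖ : ℝ) : ℂ) • N (star a * a)) :=
      pos_smul (pos_map h.cpN ⟨a, rfl⟩) (sub_nonneg.mpr hN1)
    have h3 := pos_add (pos_add h2 p4) p3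
    convert h3 using 1
    push_cast
    rw [sub_smul, one_smul]
    abel
  have p6 := pos_conj p5 e
  have p7 : Pos (star e * (star (N a) * N a) * e) := pos_conj ⟨N a, rfl⟩ e
  have h5 : ‖N a * e‖ ^ 2 ≤ (Real.sqrt δ * ‖z‖) ^ 2 := by
    rw [norm_mul_sq, mul_pow, Real.sq_sqrt hδ0]
    have h6 : star e * (((‖z‖ ^ 2 : ℝ) : ℂ) • N (t * t) - star (N a) * N a) * e
        = ((‖z‖ ^ 2 : ℝ) : ℂ) • (e * N (t * t) * e) - star e * (star (N a) * N a) * e := by
      rw [mul_sub, sub_mul, he, mul_smul_comm, smul_mul_assoc]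
    rw [h6] at p6
    refine (norm_le_of_pos p7 p6).trans ?_
    rw [norm_smul]
    have h7 : ‖((‖z‖ ^ 2 : ℝ) : ℂ)‖ = ‖z‖ ^ 2 := by
      rw [Complex.norm_real, Real.norm_eq_abs, abs_of_nonneg (by positivity)]
    rw [h7]
    calc ‖z‖ ^ 2 * ‖e * N (t * t) * e‖ ≤ ‖z‖ ^ 2 * δ := by gcongr
      _ = δ * ‖z‖ ^ 2 := by ring
  exact (sq_le_sq₀ (norm_nonneg _) (by positivity)).1 h5

theorem starX (h : Hy ω N Φ' Φ v u t r) (z : T) :
    star (N (t * z * t)) = N (t * star z * t) := by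
  rw [← h.cpN.star_map, star_mul, star_mul, pos_star h.pt, mul_assoc]

theorem eX' (h : Hy ω N Φ' Φ v u t r) {e : R} (he : star e = e) {δ : ℝ}
    (hδ : ‖e * N (t * t) * e‖ ≤ δ) (z : T) :
    ‖e * N (t * z * t)‖ ≤ Real.sqrt δ * ‖z‖ := by
  have h1 : e * N (t * z * t) = star (N (t * star z * t) * e) := by
    rw [star_mul, he, h.starX, star_star]
  rw [h1, norm_star, ← norm_star z]
  exact h.eX he hδ (star z)

theorem part2 (h : Hy ω N Φ' Φ v u t r) {p q : R} (hp : Prj p) (hq : Prj q) {δ : ℝ}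
    (hpk : ∀ y, p * N (Φ y) = N (Φ y) * p)
    (hpX : ∀ X, (N (Φ 1) - N (u * Φ 1)) * X = 0 → p * X = 0) (hpq : p * q = 0)
    (h1 : ‖N (Φ 1) * (1 - p - q)‖ ≤ δ)
    (h2 : ‖(1 - p - q) * N (t * t) * (1 - p - q)‖ ≤ δ) (y : F.alg) (z : T) :
    ‖N (Φ y) + N (t * z * t) - p * N (Φ y) * p
          - q * (N (Φ y) + N (t * z * t)) * q‖ ≤ 2 * Real.sqrt (2 * δ) * (‖y‖ + ‖z‖) := by
  have hδ0 : 0 ≤ δ := (norm_nonneg _).trans h1
  have hqp : q * p = 0 := by
    have := congrArg star hpq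
    rwa [star_mul, hp.1, hq.1, star_zero] at this
  set e := 1 - p - q with hedef
  have he : star e = e := by
    rw [hedef, star_sub, star_sub, star_one, hp.1, hq.1]
  have hee : e * e = e := by
    rw [hedef]
    simp only [sub_mul, mul_sub, one_mul, mul_one, hp.2, hq.2, hpq, hqp]
    abel
  have hne : ‖e‖ ≤ 1 := prj_norm ⟨he, hee⟩
  have h1p : Prj (1 - p) := by
    refine ⟨by rw [star_sub, star_one, hp.1], ?_⟩
    simp only [sub_mul, mul_sub, one_mul, mul_one, hp.2]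
    abel
  set K := N (Φ y) with hK
  set X := N (t * z * t) with hX
  have hpX1 : p * X = 0 := hpX X (h.sX z)
  have hpX2 : X * p = 0 := by
    have h3 := hpX _ (h.sX (star z))
    have := congrArg star h3
    rwa [star_mul, hp.1, ← h.starX, star_star, star_zero] at this
  have key : K + X - p * K * p - q * (K + X) * q = e * (K + X) * (1 - p) + q * (K + X) * e := by
    have e1 : q = 1 - p - e := by rw [hedef]; abel
    have e2 : p * K * p = K * p := by rw [hpk, mul_assoc, hp.2]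
    have e3 : p * K = K * p := hpk y
    have e2' : K * p * p = K * p := by rw [mul_assoc, hp.2]
    have e4 : (1 - p) * (K + X) * (1 - p) = K + X - K * p := by
      simp only [sub_mul, mul_sub, one_mul, mul_one, mul_add, add_mul, hpX1, hpX2, e2', e3,
        zero_mul]
      abel
    have e5 : (1 - p) * (K + X) * (1 - p) = (e + q) * (K + X) * (e + q) := by
      have : (1 - p) = e + q := by rw [hedef]; abel
      rw [this]
    rw [e2]
    have e6 : K + X - K * p - q * (K + X) * q = (e + q) * (K + X) * (e + q) - q * (K + X) * q := by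
      rw [← e5, e4]
    have e7 : (1 - p) = e + q := by rw [hedef]; abel
    rw [e6, e7]
    simp only [add_mul, mul_add]
    abel
  rw [key]
  have n1 : ‖e * (K + X)‖ ≤ Real.sqrt (2 * δ) * (‖y‖ + ‖z‖) := by
    rw [mul_add]
    refine (norm_add_le _ _).trans ?_
    rw [mul_add]
    refine add_le_add (h.ek' he hne h1 y) ((h.eX' he h2 z).trans ?_)
    gcongr
    linarith
  have n2 : ‖(K + X) * e‖ ≤ Real.sqrt (2 * δ) * (‖y‖ + ‖z‖) := by
    rw [add_mul]
    refine (norm_add_le _ _).trans ?_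
    rw [mul_add]
    refine add_le_add (h.ek he hne h1 y) ((h.eX he h2 z).trans ?_)
    gcongr
    linarith
  have s0 : 0 ≤ Real.sqrt (2 * δ) * (‖y‖ + ‖z‖) := by positivity
  calc ‖e * (K + X) * (1 - p) + q * (K + X) * e‖
      ≤ ‖e * (K + X) * (1 - p)‖ + ‖q * ((K + X) * e)‖ := by
        rw [← mul_assoc q]; exact norm_add_le _ _
    _ ≤ ‖e * (K + X)‖ * ‖1 - p‖ + ‖q‖ * ‖(K + X) * e‖ :=
        add_le_add (norm_mul_le _ _) (norm_mul_le _ _)
    _ ≤ (Real.sqrt (2 * δ) * (‖y‖ + ‖z‖)) * 1 + 1 * (Real.sqrt (2 * δ) * (‖y‖ + ‖z‖)) := by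
        have := prj_norm h1p
        have := prj_norm hq
        gcongr
    _ = 2 * Real.sqrt (2 * δ) * (‖y‖ + ‖z‖) := by ring

/-! ### Orthogonality -/

theorem ru (h : Hy ω N Φ' Φ v u t r) : r * ω u = 0 := by
  apply eq_zero_of_star_mul
  have hu : star (ω u) = ω u := by rw [← map_star, pos_star h.pu]
  have h1 : star (r * ω u) * (r * ω u) = ω u * (r * r) * ω u := by
    rw [star_mul, hu, pos_star h.pr]
    simp only [mul_assoc]
  rw [h1, h.rr]
  have h2 : ω u * ω (v * v) * ω u = ω u * ω u := by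
    calc ω u * ω (v * v) * ω u = ω (u * v) * ω (v * u) := by simp only [map_mul, mul_assoc]
      _ = ω u * ω u := by rw [h.uv, h.vu]
  rw [mul_sub, sub_mul, h2, mul_one, sub_self]

theorem rt (h : Hy ω N Φ' Φ v u t r) : r * ω t = 0 := by
  rw [← h.ut, map_mul, ← mul_assoc, h.ru, zero_mul]

theorem rq (h : Hy ω N Φ' Φ v u t r) {q : R} (hq : Prj q) {η : ℝ} (hη : 0 < η)
    (hs : Pos (N (u * Φ 1) + N (t * t) - (η : ℂ) • q)) : r * Φ' q = 0 := by
  have c1 : Cv ω v (u * Φ 1 + t * t) := by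
    refine (h.cvU.mul (h.cvF 1)).add ?_
    have := h.cvT 1
    rwa [mul_one] at this
  have c2 : r * Φ' (N (u * Φ 1) + N (t * t)) = 0 := by
    rw [← map_add, (h.comP _ c1).2, map_add, map_mul, map_mul, add_mul, mul_add, ← mul_assoc,
      ← mul_assoc, ← mul_assoc, ← mul_assoc, h.ru, h.rt]
    simp
  have hP := h.cpP.1
  have p1 := pos_conj (pos_map hP hs) r
  rw [pos_star h.pr, map_sub, map_smul, mul_sub, sub_mul, c2, zero_mul, zero_sub] at p1
  obtain ⟨g, hg⟩ := pos_map hP (prj_pos hq)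
  have p2 : Pos (((η : ℝ) : ℂ) • (r * Φ' q * r)) := by
    have := pos_conj (⟨g, hg⟩ : Pos (Φ' q)) r
    rw [pos_star h.pr] at this
    exact pos_smul this hη.le
  have e1 : (η : ℂ) • (r * Φ' q * r) = 0 := by
    let _ := CStarAlgebra.spectralOrder Q
    let _ := CStarAlgebra.spectralOrderedRing Q
    rw [pos_iff] at p1 p2
    rw [mul_smul_comm, smul_mul_assoc] at p1
    exact le_antisymm (neg_nonneg.mp p1) p2
  have e2 : r * Φ' q * r = 0 := by
    rcases smul_eq_zero.mp e1 with h0 | h0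
    · exact absurd (Complex.ofReal_eq_zero.mp h0) hη.ne'
    · exact h0
  have e3 : g * r = 0 := by
    apply eq_zero_of_star_mul
    rw [star_mul, pos_star h.pr]
    rw [hg] at e2
    simpa only [mul_assoc] using e2
  have e4 : Φ' q * r = 0 := by rw [hg, mul_assoc, e3, mul_zero]
  have := congrArg star e4
  rwa [star_mul, pos_star h.pr, star_zero, ← hP.star_map, hq.1] at this

/-! ### The order zero identity -/

theorem Pkp (h : Hy ω N Φ' Φ v u t r) {p : R} (hp : Prj p)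
    (hpk : ∀ y, p * N (Φ y) = N (Φ y) * p) (y : F.alg) :
    p * N (Φ y) * p = p * N (Φ y) := by
  rw [mul_assoc, ← hpk, ← mul_assoc, hp.2]

theorem AB (h : Hy ω N Φ' Φ v u t r) {p : R} (hp : Prj p)
    (hpk : ∀ y, p * N (Φ y) = N (Φ y) * p) (x y : F.alg) :
    ω (Φ x) * Φ' (p * N (Φ y)) = ω (Φ 1) * Φ' (p * N (Φ (x * y))) := by
  have hP := h.cpP.1
  have c1 : ∀ a, Φ' a * Φ' 1 = Φ' 1 * Φ' a := fun a => by rw [h.ozP a 1, mul_one]
  have c2 : ∀ a b, Φ' a * Φ' b = Φ' (a * b) * Φ' 1 := fun a b => by rw [c1, h.ozP]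
  set W := ω (Φ x) * Φ' (p * N (Φ y)) - ω (Φ 1) * Φ' (p * N (Φ (x * y))) with hW
  have e1 : W * Φ' 1 = 0 := by
    rw [hW, sub_mul, sub_eq_zero, mul_assoc, mul_assoc, hpk, hpk, ← c2, ← c2,
      (h.comP _ (h.cvF y)).2, (h.comP _ (h.cvF (x * y))).2]
    calc ω (Φ x) * (ω (Φ y) * Φ' (N 1) * Φ' p)
        = ω (Φ x * Φ y) * (Φ' (N 1) * Φ' p) := by simp only [map_mul, mul_assoc]
      _ = ω (Φ 1) * (ω (Φ (x * y)) * Φ' (N 1) * Φ' p) := by
        rw [h.ozF x y]; simp only [map_mul, mul_assoc]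
  have e2 : ∀ c, W * Φ' c = 0 := by
    intro c
    apply eq_zero_of_mul_star
    rw [star_mul, ← hP.star_map]
    calc W * Φ' c * (Φ' (star c) * star W) = W * (Φ' c * Φ' (star c)) * star W := by
          simp only [mul_assoc]
      _ = (W * Φ' 1) * Φ' (c * star c) * star W := by rw [h.ozP]; simp only [mul_assoc]
      _ = 0 := by rw [e1, zero_mul, zero_mul]
  have e3 : W = 0 := by
    apply eq_zero_of_mul_star
    have : star W = Φ' (star (p * N (Φ y))) * star (ω (Φ x))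
        - Φ' (star (p * N (Φ (x * y)))) * star (ω (Φ 1)) := by
      rw [hW, star_sub, star_mul, star_mul, hP.star_map, hP.star_map]
    rw [this, mul_sub, ← mul_assoc, ← mul_assoc, e2, e2, zero_mul, zero_mul, sub_zero]
  exact sub_eq_zero.mp e3

theorem BA (h : Hy ω N Φ' Φ v u t r) {p : R} (hp : Prj p)
    (hpk : ∀ y, p * N (Φ y) = N (Φ y) * p) (x y : F.alg) :
    Φ' (p * N (Φ x)) * ω (Φ y) = Φ' (p * N (Φ (x * y))) * ω (Φ 1) := by
  have hP := h.cpP.1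
  have h1 : ∀ w, star (Φ' (p * N (Φ w))) = Φ' (p * N (Φ (star w))) := by
    intro w
    rw [← hP.star_map, star_mul, hp.1, ← h.cpN.star_map, ← h.cpF.star_map, hpk]
  have h2 : ∀ w, star (ω (Φ w)) = ω (Φ (star w)) := by
    intro w
    rw [← map_star, ← h.cpF.star_map]
  have := congrArg star (h.AB hp hpk (star y) (star x))
  rw [star_mul, star_mul, h1, h1, h2, h2, star_mul, star_star, star_star, star_one] at this
  exact this

theorem part4 (h : Hy ω N Φ' Φ v u t r) {p : R} (hp : Prj p)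
    (hpk : ∀ y, p * N (Φ y) = N (Φ y) * p) (x y : F.alg) :
    (r * ω (Φ x) * r + Φ' (p * N (Φ x) * p)) *
          (r * ω (Φ y) * r + Φ' (p * N (Φ y) * p)) =
        (r * ω (Φ 1) * r + Φ' (p * N (Φ 1) * p)) *
          (r * ω (Φ (x * y)) * r + Φ' (p * N (Φ (x * y)) * p)) := by
  rw [h.Pkp hp hpk, h.Pkp hp hpk, h.Pkp hp hpk, h.Pkp hp hpk]
  have a1 : r * ω (Φ x) * r * (r * ω (Φ y) * r) =
      r * ω (Φ 1) * r * (r * ω (Φ (x * y)) * r) := by
    have e1 : ∀ a b, r * ω (Φ a) * r * (r * ω (Φ b) * r) = r * r * (ω (Φ a * Φ b)) * (r * r) := by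
      intro a b
      calc r * ω (Φ a) * r * (r * ω (Φ b) * r)
          = r * (ω (Φ a) * r) * (r * ω (Φ b)) * r := by simp only [mul_assoc]
        _ = r * (r * ω (Φ a)) * (ω (Φ b) * r) * r := by rw [h.rF, h.rF]
        _ = r * r * (ω (Φ a * Φ b)) * (r * r) := by simp only [map_mul, mul_assoc]
    rw [e1, e1, h.ozF x y]
  have a2 : Φ' (p * N (Φ x)) * Φ' (p * N (Φ y)) =
      Φ' (p * N (Φ 1)) * Φ' (p * N (Φ (x * y))) := by
    rw [h.ozP, h.ozP (p * N (Φ 1))]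
    congr 2
    have e1 : ∀ a b, p * N (Φ a) * (p * N (Φ b)) = p * p * (N (Φ a) * N (Φ b)) := by
      intro a b
      calc p * N (Φ a) * (p * N (Φ b)) = p * (N (Φ a) * p) * N (Φ b) := by
            simp only [mul_assoc]
        _ = p * (p * N (Φ a)) * N (Φ b) := by rw [hpk]
        _ = p * p * (N (Φ a) * N (Φ b)) := by simp only [mul_assoc]
    rw [e1, e1, h.kk x y]
  have a3 : r * ω (Φ x) * r * Φ' (p * N (Φ y)) =
      r * ω (Φ 1) * r * Φ' (p * N (Φ (x * y))) := by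
    have e1 : ∀ a b, r * ω (Φ a) * r * Φ' (p * N (Φ b))
        = r * r * (ω (Φ a) * Φ' (p * N (Φ b))) := by
      intro a b
      rw [mul_assoc r (ω (Φ a)) r, ← h.rF]
      simp only [mul_assoc]
    rw [e1, e1, h.AB hp hpk x y]
  have a4 : Φ' (p * N (Φ x)) * (r * ω (Φ y) * r) =
      Φ' (p * N (Φ 1)) * (r * ω (Φ (x * y)) * r) := by
    have e1 : ∀ a b, Φ' (p * N (Φ a)) * (r * ω (Φ b) * r)
        = Φ' (p * N (Φ a)) * ω (Φ b) * (r * r) := by
      intro a b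
      rw [h.rF]
      simp only [mul_assoc]
    rw [e1, e1, h.BA hp hpk x y, h.BA hp hpk 1 (x * y), one_mul]
  rw [add_mul, mul_add, mul_add, a1, a2, a3, a4, add_mul, mul_add, mul_add]

/-! ### The last inequality -/

theorem part5 (h : Hy ω N Φ' Φ v u t r) {p : R} (hp : Prj p)
    (hpk : ∀ y, p * N (Φ y) = N (Φ y) * p) :
    Pos (ω (Φ 1) - (r * ω (Φ 1) * r + Φ' (p * N (Φ 1) * p))) := by
  have hP := h.cpP.1
  have hF1 : Pos (Φ 1) := pos_map h.cpF ⟨1, by simp⟩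
  have hK1 : Pos (N (Φ 1)) := pos_map h.cpN hF1
  have q1 : Pos (N (Φ 1) - p * N (Φ 1) * p) := by
    have h1 := pos_conj hK1 (1 - p)
    convert h1 using 1
    rw [star_sub, star_one, hp.1]
    simp only [sub_mul, mul_sub, one_mul, mul_one]
    rw [← hpk 1, h.Pkp hp hpk 1]
    abel
  have q2 := pos_map hP q1
  rw [map_sub] at q2
  obtain ⟨c, hc1, hc2, hc3⟩ := sqrt_lem (StarAlgHom.id ℂ Q) (pos_hom ω hF1)
  simp only [StarAlgHom.coe_id, id_eq] at hc3
  have com := h.comP _ (h.cvF 1)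
  have e1 : c * Φ' (N 1) = Φ' (N 1) * c := hc3 _ (com.2.symm.trans com.1)
  have e2 : c * ω v = ω v * c := by
    apply hc3
    rw [← map_mul, ← map_mul, h.vF]
  have q3 := pos_conj h.leV c
  have e3 : star c * (ω (v * v) - Φ' (N 1)) * c = ω (v * v) * ω (Φ 1) - Φ' (N (Φ 1)) := by
    rw [hc1, mul_sub, sub_mul, com.1, ← hc2, e1, map_mul, ← mul_assoc, e2, mul_assoc (ω v) c, e2]
    simp only [mul_assoc]
  rw [e3] at q3
  have e4 : r * ω (Φ 1) * r = ω (Φ 1) - ω (v * v) * ω (Φ 1) := by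
    rw [mul_assoc, ← h.rF, ← mul_assoc, h.rr, sub_mul, one_mul]
  rw [e4]
  convert pos_add q3 q2 using 1
  abel

end Hy

theorem t_ALG (hA : StALGA) : StALG := by
  intro T Q R _ _ _ ω N Φ' F Φ v u t r ε hcE hsS hε cpN leN cpP ozP injP comP leV cpF ozF nF
    pv nv pu nu pt nt vu ut vF uF pr rr rF
  have h : Hy ω N Φ' Φ v u t r := ⟨cpN, leN, cpP, ozP, injP, comP, leV, cpF, ozF, nF, pv, pu, pt,
    nt, vu, ut, vF, uF, pr, rr, rF⟩
  obtain ⟨p, q, η, hp, hq, hη, hpk, hps, hpX, hpq, hsb, n1, n2⟩ :=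
    hA R hcE hsS F (N ∘ₗ Φ) (N (u * Φ 1)) (N (t * t)) (ε ^ 2 / 8) (by positivity) h.cpK
      (fun x y => h.kk x y) h.nK h.pos_s (fun y => h.ks y) h.pos_b
      (by have := h.sX 1; rwa [mul_one] at this)
  refine ⟨p, q, hp, hq, fun x y => h.part4 hp hpk x y, ?_, h.part5 hp hpk, ?_⟩
  · rw [add_mul, mul_assoc, h.rq hq hη hsb, mul_zero, zero_add, ozP]
    have : p * N (Φ 1) * p * q = 0 := by rw [mul_assoc, hpq, mul_zero]
    rw [this, map_zero, mul_zero]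
  · intro y z
    refine (h.part2 hp hq hpk hpX hpq n1 n2 y z).trans (le_of_eq ?_)
    have : Real.sqrt (2 * (ε ^ 2 / 8)) = ε / 2 := by
      rw [show 2 * (ε ^ 2 / 8) = (ε / 2) ^ 2 by ring]
      exact Real.sqrt_sq (by positivity)
    rw [this]
    ring

end main

end Pool.Agent.Helper7_ND.J_ALG
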