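import Pool.Agent.Helper7_ND.Stm2

set_option autoImplicit false

open scoped Matrix.Norms.L2Operator ENNReal Matrix
open Pool.Agent.W659.EC

noncomputable section

namespace Pool.Agent.Helper7_ND.J_ALGA

section ord

variable {R : Type} [CStarAlgebra R] [PartialOrder R] [StarOrderedRing R]

theorem pos_iff (a : R) : Pos a ↔ 0 ≤ a := (nonneg_iff_star a).symm

/-- `X^* P X ≤ 0` with a projection `P` gives `P X = 0` -/
theorem prj_mul_zero {P X : R} (hP : Prj P) (h : star X * P * X ≤ 0) : P * X = 0 := by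
  have h1 : star (P * X) * (P * X) = star X * P * X := by
    rw [star_mul, hP.1, ← mul_assoc, mul_assoc (star X) P P, hP.2]
  have h2 : star (P * X) * (P * X) = 0 :=
    le_antisymm (h1.le.trans h) (star_mul_self_nonneg _)
  exact CStarRing.star_mul_self_eq_zero_iff (P * X) |>.1 h2

theorem norm_le_of_le_smul {x : R} {c : ℝ} (hc : 0 ≤ c) (hx : 0 ≤ x) (h : x ≤ (c : ℂ) • (1 : R)) :
    ‖x‖ ≤ c := by
  rw [CStarAlgebra.norm_le_iff_le_algebraMap x hc hx]
  refine h.trans (le_of_eq ?_)
  rw [Algebra.algebraMap_eq_smul_one]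
  rfl

theorem smul_nonneg' {x : R} {c : ℝ} (hc : 0 ≤ c) (hx : 0 ≤ x) : 0 ≤ (c : ℂ) • x := by
  have : (c : ℂ) • x = c • x := rfl
  rw [this]
  exact smul_nonneg hc hx

theorem smul_le_smul' {x y : R} {c : ℝ} (hc : 0 ≤ c) (hx : x ≤ y) :
    (c : ℂ) • x ≤ (c : ℂ) • y := by
  have h : ∀ z : R, (c : ℂ) • z = c • z := fun _ => rfl
  rw [h, h]
  exact smul_le_smul_of_nonneg_left hx hc

omit [PartialOrder R] [StarOrderedRing R] in
theorem prj_compl {P : R} (hP : Prj P) : Prj (1 - P) := by
  refine ⟨by rw [star_sub, star_one, hP.1], ?_⟩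
  rw [mul_sub, sub_mul, sub_mul, hP.2]
  simp

theorem prj_nonneg {P : R} (hP : Prj P) : 0 ≤ P := by
  have : P = star P * P := by rw [hP.1, hP.2]
  rw [this]
  exact star_mul_self_nonneg P

theorem prj_le_one {P : R} (hP : Prj P) : P ≤ 1 := by
  have := prj_nonneg (prj_compl hP)
  exact sub_nonneg.1 this

theorem conj_nonneg {P x : R} (hP : star P = P) (hx : 0 ≤ x) : 0 ≤ P * x * P := by
  have := star_left_conjugate_nonneg hx P
  rwa [hP] at this

theorem conj_le {P x y : R} (hP : star P = P) (hx : x ≤ y) : P * x * P ≤ P * y * P := by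
  have := star_left_conjugate_le_conjugate hx P
  rwa [hP] at this

end ord

/-- The two projections, in ordered form. -/
theorem core {R : Type} [CStarAlgebra R] [PartialOrder R] [StarOrderedRing R]
    (hS : SpecS R) (K s b p : R) (ε η : ℝ) (hε : 0 < ε) (hη : 0 < η)
    (hηε : 8 * η ≤ ε ^ 2) (hηε' : η ≤ ε)
    (hK : 0 ≤ K) (hK2 : ‖K‖ ≤ 2) (hs : 0 ≤ s) (hKs : K * s = s * K) (hb : 0 ≤ b)
    (hb0 : (K - s) * b = 0) (hp : Prj p) (hpK : p * K = K * p) (hps : p * s = s * p)
    (h1 : 0 ≤ p * (K * ((1 / 2 : ℂ) • K - s) - (η : ℂ) • 1) * p)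
    (h2 : 0 ≤ (1 - p) * (((2 * η : ℝ) : ℂ) • 1 - K * ((1 / 2 : ℂ) • K - s)) * (1 - p)) :
    ∃ q : R, Prj q ∧ (∀ X, (K - s) * X = 0 → p * X = 0) ∧ p * q = 0 ∧
      0 ≤ s + b - (η : ℂ) • q ∧
      ‖K * (1 - p - q)‖ ≤ ε ∧ ‖(1 - p - q) * b * (1 - p - q)‖ ≤ ε := by
  have hKsa : star K = K := (IsSelfAdjoint.of_nonneg hK).star_eq
  have hssa : star s = s := (IsSelfAdjoint.of_nonneg hs).star_eq
  have hbsa : star b = b := (IsSelfAdjoint.of_nonneg hb).star_eq
  -- Claim 1
  have hX : ∀ X, (K - s) * X = 0 → p * X = 0 := by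
    intro X hX0
    have hKX : K * X = s * X := by rwa [sub_mul, sub_eq_zero] at hX0
    have hσX : K * ((1 / 2 : ℂ) • K - s) * X = -((1 / 2 : ℂ) • (K * (K * X))) := by
      rw [mul_assoc, sub_mul, ← hKX, smul_mul_assoc, mul_sub, mul_smul_comm]
      module
    have h3 := star_left_conjugate_nonneg h1 X
    have h4 : star X * (p * (K * ((1 / 2 : ℂ) • K - s) - (η : ℂ) • 1) * p) * X
        = -((1 / 2 : ℂ) • (star (K * (p * X)) * (K * (p * X)))) - (η : ℂ) • (star X * p * X) := by
      have e1 : p * (K * ((1 / 2 : ℂ) • K - s)) = K * ((1 / 2 : ℂ) • K - s) * p := by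
        rw [← mul_assoc, hpK, mul_assoc, mul_assoc, mul_sub, sub_mul, hps, mul_smul_comm,
          smul_mul_assoc, hpK]
      have e2 : star X * (p * (K * ((1 / 2 : ℂ) • K - s) - (η : ℂ) • 1) * p) * X
          = star X * (p * p) * (K * ((1 / 2 : ℂ) • K - s) * X) - (η : ℂ) • (star X * (p * p) * X)
          := by
        rw [mul_sub p, e1]
        simp only [mul_sub, sub_mul, mul_smul_comm, smul_mul_assoc, mul_one]
        have e3 : ∀ Y : R, K * (p * Y) = p * (K * Y) := fun Y => by
          rw [← mul_assoc, ← hpK, mul_assoc]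
        have e4 : ∀ Y : R, s * (p * Y) = p * (s * Y) := fun Y => by
          rw [← mul_assoc, ← hps, mul_assoc]
        simp only [mul_assoc, e3, e4]
      rw [e2, hσX, hp.2]
      have e5 : star (K * (p * X)) * (K * (p * X)) = star X * p * (K * (K * X)) := by
        rw [star_mul, star_mul, hKsa, hp.1]
        have e3 : ∀ Y : R, K * (p * Y) = p * (K * Y) := fun Y => by
          rw [← mul_assoc, ← hpK, mul_assoc]
        have e6 : ∀ Y : R, p * (p * Y) = p * Y := fun Y => by rw [← mul_assoc, hp.2]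
        simp only [mul_assoc, e3, e6]
      rw [e5]
      simp only [mul_neg, mul_smul_comm]
    rw [h4] at h3
    refine prj_mul_zero hp ?_
    have h5 : (0 : R) ≤ (1 / 2 : ℂ) • (star (K * (p * X)) * (K * (p * X))) := by
      have := smul_nonneg' (c := 1 / 2) (by norm_num) (star_mul_self_nonneg (K * (p * X)))
      simpa using this
    have h6 : (η : ℂ) • (star X * p * X) ≤ 0 := by
      have h7 : (η : ℂ) • (star X * p * X)
          ≤ -((1 / 2 : ℂ) • (star (K * (p * X)) * (K * (p * X)))) := sub_nonneg.1 h3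
      exact h7.trans (neg_nonpos.2 h5)
    have h8 := smul_le_smul' (c := η⁻¹) (by positivity) h6
    rw [smul_smul, smul_zero, ← Complex.ofReal_mul, inv_mul_cancel₀ hη.ne'] at h8
    simpa using h8
  have hpb : p * b = 0 := hX b hb0
  have hbp : b * p = 0 := by
    have := congrArg star hpb
    rwa [star_mul, hp.1, hbsa, star_zero] at this
  -- the element c'
  set c : R := (1 - p) * s * (1 - p) + b with hc
  have hp1 := prj_compl hp
  have hc0 : 0 ≤ c := add_nonneg (conj_nonneg hp1.1 hs) hb
  have hcsa : IsSelfAdjoint c := IsSelfAdjoint.of_nonneg hc0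
  have hcp : c * p = 0 := by
    rw [hc, add_mul, hbp, add_zero, mul_assoc, sub_mul 1 p p, one_mul, hp.2]
    simp
  obtain ⟨q, hq, hqc, hq1, hq2⟩ := hS c hcsa.star_eq {r : ℝ | η ≤ r}
  have hcont : Continuous (fun r : ℝ => (max η |r|)⁻¹) := by
    refine Continuous.inv₀ (by fun_prop) fun r => ?_
    have : η ≤ max η |r| := le_max_left _ _
    linarith
  -- q p = 0
  have hqp : q * p = 0 := by
    have h3 := hq1 (fun r => 1 - (max η |r|)⁻¹ * r) (by fun_prop) (by
      intro z hz
      have hz' : η ≤ z := hz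
      have : max η |z| = z := by
        rw [abs_of_nonneg (hη.le.trans hz')]
        exact max_eq_right hz'
      simp only [this]
      rw [inv_mul_cancel₀ (by linarith), sub_self])
    rw [cfc_sub (fun _ : ℝ => (1 : ℝ)) (fun r : ℝ => (max η |r|)⁻¹ * r) c (by fun_prop)
      (by fun_prop), cfc_const_one ℝ c hcsa,
      cfc_mul (fun r : ℝ => (max η |r|)⁻¹) (fun r : ℝ => r) c hcont.continuousOn (by fun_prop),
      cfc_id' ℝ c hcsa, mul_sub, mul_one, sub_eq_zero] at h3
    rw [h3, ← mul_assoc, mul_assoc, hcp, mul_zero]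
  have hpq : p * q = 0 := by
    have := congrArg star hqp
    rwa [star_mul, hp.1, hq.1, star_zero] at this
  -- the projection e
  set e : R := 1 - p - q with he
  have hesa : star e = e := by rw [he, star_sub, star_sub, star_one, hp.1, hq.1]
  have hee : e * e = e := by
    rw [he]
    simp only [mul_sub, sub_mul, mul_one, one_mul, hp.2, hq.2, hpq, hqp]
    abel
  have hE : Prj e := ⟨hesa, hee⟩
  have hpe : p * e = 0 := by rw [he, mul_sub, mul_sub, mul_one, hp.2, hpq]; simp
  have hep : e * p = 0 := by rw [he, sub_mul, sub_mul, one_mul, hp.2, hqp]; simp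
  have hqe : q * e = 0 := by rw [he, mul_sub, mul_sub, mul_one, hq.2, hqp]; simp
  have h1pe : (1 - p) * e = e := by rw [sub_mul, one_mul, hpe, sub_zero]
  have he1p : e * (1 - p) = e := by rw [mul_sub, mul_one, hep, sub_zero]
  -- f(c) e = 0
  have hfq := hq2 (fun r => max (r - η) 0) (by fun_prop) (by
    intro z hz
    have hz' : ¬ η ≤ z := hz
    exact max_eq_right (by linarith))
  set fc : R := cfc (fun r : ℝ => max (r - η) 0) c with hfc
  have hfe : fc * e = 0 := by
    have h3 : fc * p = 0 := by rw [← hfq, mul_assoc, hqp, mul_zero]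
    rw [he, mul_sub, mul_sub, mul_one, h3, hfq, sub_zero, sub_self]
  have hfc0 : 0 ≤ fc := cfc_nonneg (fun x _ => le_max_right _ _)
  -- c ≤ η + f(c)
  have hcle : c ≤ (η : ℂ) • 1 + fc := by
    have h3 : (η : ℂ) • (1 : R) = cfc (fun _ : ℝ => η) c := by
      rw [cfc_const η c hcsa, Algebra.algebraMap_eq_smul_one]
      rfl
    rw [h3, hfc, ← cfc_add c (fun _ : ℝ => η) (fun r : ℝ => max (r - η) 0) (by fun_prop)
      (by fun_prop)]
    conv_lhs => rw [← cfc_id' ℝ c hcsa]
    refine cfc_mono (fun x _ => ?_) (by fun_prop) (by fun_prop)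
    have := le_max_left (x - η) 0
    linarith
  have hece : e * c * e ≤ (η : ℂ) • 1 := by
    have h3 := conj_le hesa hcle
    have h4 : e * ((η : ℂ) • 1 + fc) * e = (η : ℂ) • e := by
      rw [mul_add, add_mul, mul_assoc e fc e, hfe, mul_zero, add_zero, mul_smul_comm, mul_one,
        smul_mul_assoc, hee]
    rw [h4] at h3
    exact h3.trans (smul_le_smul' hη.le (prj_le_one hE))
  have hece' : e * c * e = e * s * e + e * b * e := by
    rw [hc, mul_add, add_mul, ← mul_assoc, ← mul_assoc, he1p, mul_assoc (e * s), h1pe]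
  have hese0 : 0 ≤ e * s * e := conj_nonneg hesa hs
  have hebe0 : 0 ≤ e * b * e := conj_nonneg hesa hb
  have hese : e * s * e ≤ (η : ℂ) • 1 := by
    refine le_trans ?_ hece
    rw [hece']
    exact le_add_of_nonneg_right hebe0
  have hebe : e * b * e ≤ (η : ℂ) • 1 := by
    refine le_trans ?_ hece
    rw [hece']
    exact le_add_of_nonneg_left hese0
  refine ⟨q, hq, hX, hpq, ?_, ?_, ?_⟩
  · -- positivity of s + b - η q
    have h3 : s + b - (η : ℂ) • q = p * s * p + ((1 - q) * c * (1 - q) + q * fc * q) := by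
      have h4 : s = p * s * p + (1 - p) * s * (1 - p) := by
        have e1 : p * s * p = p * s := by rw [mul_assoc, ← hps, ← mul_assoc, hp.2]
        have e2 : (1 - p) * s * (1 - p) = s - p * s := by
          rw [sub_mul, one_mul, sub_mul, mul_sub, mul_sub, mul_one, mul_one, e1, ← hps]
          abel
        rw [e1, e2]
        abel
      have h5 : (1 - q) * c * (1 - q) = c - q * c := by
        rw [sub_mul, one_mul, sub_mul, mul_sub, mul_sub, mul_one, mul_one, mul_assoc q c q, ← hqc,
          ← mul_assoc, hq.2]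
        abel
      have h6 : q * fc * q = q * c - (η : ℂ) • q := by
        have h7 : q * cfc (fun r : ℝ => max (η - r) 0) c = 0 :=
          hq1 _ (by fun_prop) (fun z hz => by
            have hz' : η ≤ z := hz
            exact max_eq_right (by linarith))
        have h8 : cfc (fun r : ℝ => max (η - r) 0) c = fc - c + (η : ℂ) • 1 := by
          have h9 : (η : ℂ) • (1 : R) = cfc (fun _ : ℝ => η) c := by
            rw [cfc_const η c hcsa, Algebra.algebraMap_eq_smul_one]
            rfl
          have h10 : c = cfc (fun r : ℝ => r) c := (cfc_id' ℝ c hcsa).symm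
          have h11 : fc - c = cfc (fun r : ℝ => max (r - η) 0 - r) c := by
            conv_lhs => rw [hfc]
            conv_lhs =>
              rhs
              rw [h10]
            rw [← cfc_sub (fun r : ℝ => max (r - η) 0) (fun r : ℝ => r) c (by fun_prop)
              (by fun_prop)]
          rw [h11, h9, ← cfc_add c (fun r : ℝ => max (r - η) 0 - r) (fun _ : ℝ => η)
            (by fun_prop) (by fun_prop)]
          congr 1
          ext r
          rcases le_total r η with h | h
          · rw [max_eq_left (by linarith), max_eq_right (by linarith)]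
            ring
          · rw [max_eq_right (by linarith), max_eq_left (by linarith)]
            ring
        rw [h8, mul_add, mul_sub, mul_smul_comm, mul_one] at h7
        rw [mul_assoc, hfq]
        rw [← sub_eq_zero, ← h7]
        abel
      rw [h5, h6]
      conv_lhs => rw [h4]
      rw [hc]
      abel
    rw [h3]
    exact add_nonneg (conj_nonneg hp.1 hs)
      (add_nonneg (conj_nonneg (prj_compl hq).1 hc0) (conj_nonneg hq.1 hfc0))
  · -- norm of K e
    have h3 : 0 ≤ e * (((2 * η : ℝ) : ℂ) • 1 - K * ((1 / 2 : ℂ) • K - s)) * e := by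
      have h4 := conj_nonneg hesa h2
      rwa [← mul_assoc e, ← mul_assoc e, he1p, mul_assoc _ (1 - p) e, h1pe] at h4
    have h4 : K * s ≤ (2 : ℝ) • s := by
      have h5 : 0 ≤ ((2 : ℝ) • (1 : R) - K) * s := by
        refine Commute.mul_nonneg ?_ hs ?_
        · rw [sub_nonneg, ← Algebra.algebraMap_eq_smul_one]
          exact (CStarAlgebra.norm_le_iff_le_algebraMap K (by norm_num) hK).1 hK2
        · refine Commute.sub_left ?_ hKs
          rw [← Algebra.algebraMap_eq_smul_one]
          exact Algebra.commute_algebraMap_left _ _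
      rw [sub_mul, smul_mul_assoc, one_mul] at h5
      exact sub_nonneg.1 h5
    have h5 : e * (K * s) * e ≤ (2 : ℝ) • ((η : ℂ) • (1 : R)) := by
      refine (conj_le hesa h4).trans ?_
      rw [mul_smul_comm, smul_mul_assoc]
      exact smul_le_smul_of_nonneg_left hese (by norm_num)
    have h6 : star (K * e) * (K * e) ≤ ((ε ^ 2 : ℝ) : ℂ) • (1 : R) := by
      have h7 : star (K * e) * (K * e) = e * (K * K) * e := by
        rw [star_mul, hKsa, hesa]; simp only [mul_assoc]
      have h8 : e * (((2 * η : ℝ) : ℂ) • 1 - K * ((1 / 2 : ℂ) • K - s)) * e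
          = ((2 * η : ℝ) : ℂ) • e - (1 / 2 : ℂ) • (e * (K * K) * e) + e * (K * s) * e := by
        simp only [mul_sub, sub_mul, mul_smul_comm, smul_mul_assoc, mul_one, hee]
        abel
      rw [h8] at h3
      have h9 : (1 / 2 : ℝ) • (e * (K * K) * e) ≤ (4 * η : ℝ) • (1 : R) := by
        have h10 : (1 / 2 : ℂ) • (e * (K * K) * e) = (1 / 2 : ℝ) • (e * (K * K) * e) := by
          rw [← Complex.coe_smul]
          norm_num
        rw [h10] at h3
        have h11 : (1 / 2 : ℝ) • (e * (K * K) * e) ≤ ((2 * η : ℝ) : ℂ) • e + e * (K * s) * e := by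
          rw [← sub_nonneg]
          refine h3.trans (le_of_eq ?_)
          abel
        refine h11.trans ?_
        have h12 : ((2 * η : ℝ) : ℂ) • e ≤ (2 * η : ℝ) • (1 : R) := by
          exact smul_le_smul' (by positivity) (prj_le_one hE)
        refine (add_le_add h12 h5).trans (le_of_eq ?_)
        rw [Complex.coe_smul, smul_smul, ← add_smul]
        congr 1
        ring
      have h13 := smul_le_smul_of_nonneg_left h9 (show (0 : ℝ) ≤ 2 by norm_num)
      rw [smul_smul, smul_smul] at h13
      norm_num at h13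
      rw [h7]
      refine h13.trans ?_
      rw [Complex.coe_smul, ← sub_nonneg, ← sub_smul]
      exact smul_nonneg (by linarith) zero_le_one
    have h14 : ‖K * e‖ ^ 2 ≤ ε ^ 2 := by
      have h15 : ‖K * e‖ ^ 2 = ‖star (K * e) * (K * e)‖ := by
        rw [CStarRing.norm_star_mul_self, sq]
      rw [h15]
      exact norm_le_of_le_smul (by positivity) (star_mul_self_nonneg _) h6
    exact (sq_le_sq₀ (norm_nonneg _) hε.le).1 h14
  · exact (norm_le_of_le_smul hη.le hebe0 hebe).trans hηε'

theorem t_ALGA (hCC : StCC) : StALGA := by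
  intro R _ hCE hS F κ s b ε hε hκ hoz hκ2 hs hκs hb hb0
  let _ := CStarAlgebra.spectralOrder R
  let _ := CStarAlgebra.spectralOrderedRing R
  set η : ℝ := min (ε ^ 2 / 8) ε with hη
  have hη0 : 0 < η := lt_min (by positivity) hε
  have hη1 : 8 * η ≤ ε ^ 2 := by
    have : η ≤ ε ^ 2 / 8 := min_le_left _ _
    linarith
  have hη2 : η ≤ ε := min_le_right _ _
  obtain ⟨p, hp, hpκ, hps, h1, h2⟩ := hCC R hCE F κ s η hκ hoz hs hκs hη0
  have hK : 0 ≤ κ 1 := by simpa using hκ.nonneg (1 : F.alg)
  obtain ⟨q, hq, hX, hpq, h3, h4, h5⟩ := core hS (κ 1) s b p ε η hε hη0 hη1 hη2 hK hκ2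
    ((pos_iff s).1 hs) (hκs 1) ((pos_iff b).1 hb) hb0 hp (hpκ 1) hps ((pos_iff _).1 h1)
    ((pos_iff _).1 h2)
  exact ⟨p, q, η, hp, hq, hη0, hpκ, hps, hX, hpq, (pos_iff _).2 h3, h4, h5⟩

end Pool.Agent.Helper7_ND.J_ALGA
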