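import Pool.Agent.Helper7_ND.Stm2

set_option autoImplicit false

open scoped Matrix.Norms.L2Operator ENNReal Matrix
open Pool.Agent.W659.EC

noncomputable section

namespace Pool.Agent.Helper7_ND.J_CC

/-- intertwining relations pass to continuous functions -/
theorem cfc_inter {R : Type} [CStarAlgebra R] (x a b : R) (ha : IsSelfAdjoint a)
    (hb : IsSelfAdjoint b) (h : a * x = x * b) (f : ℝ → ℝ) (hf : Continuous f) :
    cfc f a * x = x * cfc f b := by
  have hpoly : ∀ q : Polynomial ℝ, (Polynomial.aeval a q) * x = x * Polynomial.aeval b q := by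
    intro q
    induction q using Polynomial.induction_on' with
    | add p q hp hq => rw [map_add, map_add, add_mul, mul_add, hp, hq]
    | monomial n c =>
      have hn : ∀ n : ℕ, a ^ n * x = x * b ^ n := by
        intro n
        induction n with
        | zero => simp
        | succ n ih => rw [pow_succ, mul_assoc, h, ← mul_assoc, ih, mul_assoc, ← pow_succ]
      rw [Polynomial.aeval_monomial, Polynomial.aeval_monomial, mul_assoc, hn n,
        Algebra.algebraMap_eq_smul_one, smul_one_mul,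
        smul_one_mul, mul_smul_comm]
  have hcfc : ∀ q : Polynomial ℝ, cfc (fun t => q.eval t) a * x = x * cfc (fun t => q.eval t) b := by
    intro q
    rw [cfc_polynomial q a ha, cfc_polynomial q b hb]
    exact hpoly q
  obtain (_ | _) := subsingleton_or_nontrivial R
  · exact Subsingleton.elim _ _
  set N : ℝ := max ‖a‖ ‖b‖ with hN
  have hsa : ∀ t ∈ spectrum ℝ a, t ∈ Set.Icc (-N) N := by
    intro t ht
    have h1 : ‖t‖ ≤ ‖a‖ := spectrum.norm_le_norm_of_mem ht
    have h2 : |t| ≤ N := (Real.norm_eq_abs t ▸ h1).trans (le_max_left _ _)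
    exact abs_le.1 h2
  have hsb : ∀ t ∈ spectrum ℝ b, t ∈ Set.Icc (-N) N := by
    intro t ht
    have h1 : ‖t‖ ≤ ‖b‖ := spectrum.norm_le_norm_of_mem ht
    have h2 : |t| ≤ N := (Real.norm_eq_abs t ▸ h1).trans (le_max_right _ _)
    exact abs_le.1 h2
  rw [← sub_eq_zero, ← norm_le_zero_iff]
  refine le_of_forall_pos_le_add fun ε hε => ?_
  rw [zero_add]
  obtain ⟨q, hq⟩ := exists_polynomial_near_of_continuousOn (-N) N f hf.continuousOn
    (ε / (2 * (‖x‖ + 1))) (by positivity)
  have e1 : ‖cfc f a - cfc (fun t => q.eval t) a‖ ≤ ε / (2 * (‖x‖ + 1)) := by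
    rw [← cfc_sub f (fun t => q.eval t) a]
    refine norm_cfc_le (by positivity) fun t ht => ?_
    rw [Real.norm_eq_abs, abs_sub_comm]
    exact (hq t (hsa t ht)).le
  have e2 : ‖cfc (fun t => q.eval t) b - cfc f b‖ ≤ ε / (2 * (‖x‖ + 1)) := by
    rw [← cfc_sub (fun t => q.eval t) f b]
    refine norm_cfc_le (by positivity) fun t ht => ?_
    rw [Real.norm_eq_abs]
    exact (hq t (hsb t ht)).le
  have e3 : cfc f a * x - x * cfc f b = (cfc f a - cfc (fun t => q.eval t) a) * x
      + x * (cfc (fun t => q.eval t) b - cfc f b) := by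
    rw [sub_mul, mul_sub, hcfc q]
    abel
  rw [e3]
  calc _ ≤ ‖cfc f a - cfc (fun t => q.eval t) a‖ * ‖x‖
        + ‖x‖ * ‖cfc (fun t => q.eval t) b - cfc f b‖ :=
        (norm_add_le _ _).trans (add_le_add (norm_mul_le _ _) (norm_mul_le _ _))
    _ ≤ ε / (2 * (‖x‖ + 1)) * ‖x‖ + ‖x‖ * (ε / (2 * (‖x‖ + 1))) := by gcongr
    _ = ε * (‖x‖ / (‖x‖ + 1)) := by field_simp; ring
    _ ≤ ε * 1 := by
        gcongr
        rw [div_le_one (by positivity)]
        linarith
    _ = ε := mul_one ε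

section mu

variable (F : FDA)

theorem mu_mul (l : F.ι) (i j k m : F.n l) :
    mu F l i j * mu F l k m = if j = k then mu F l i m else 0 := by
  classical
  unfold mu
  rw [← Pi.single_mul]
  split_ifs with h
  · subst h
    rw [Matrix.single_mul_single_same, mul_one]
  · rw [Matrix.single_mul_single_of_ne _ _ _ _ h, Pi.single_zero]

theorem mu_mul_ne (l l' : F.ι) (h : l ≠ l') (i j : F.n l) (k m : F.n l') :
    mu F l i j * mu F l' k m = 0 := by
  classical
  unfold mu
  funext c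
  rw [Pi.mul_apply]
  by_cases hc : c = l
  · subst hc
    rw [Pi.single_eq_of_ne h, mul_zero]
    rfl
  · rw [Pi.single_eq_of_ne hc, zero_mul]
    rfl

theorem star_mu (l : F.ι) (i j : F.n l) : star (mu F l i j) = mu F l j i := by
  classical
  unfold mu
  funext c
  rw [Pi.star_apply]
  by_cases hc : c = l
  · subst hc
    rw [Pi.single_eq_same, Pi.single_eq_same]
    rw [Matrix.star_eq_conjTranspose, Matrix.conjTranspose_single, star_one]
  · rw [Pi.single_eq_of_ne hc, Pi.single_eq_of_ne hc, star_zero]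

theorem mu_expand (y : F.alg) : y = ∑ l, ∑ i, ∑ j, y l i j • mu F l i j := by
  classical
  funext c
  ext i j
  simp only [Finset.sum_apply, Pi.smul_apply, Matrix.sum_apply, Matrix.smul_apply, smul_eq_mul]
  rw [Finset.sum_eq_single c]
  · rw [Finset.sum_eq_single i]
    · rw [Finset.sum_eq_single j]
      · simp [mu]
      · intro k _ hk
        simp [mu, hk]
      · simp
    · intro k _ hk
      refine Finset.sum_eq_zero fun m _ => ?_
      simp [mu, hk]
    · simp
  · intro l _ hl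
    refine Finset.sum_eq_zero fun k _ => Finset.sum_eq_zero fun m _ => ?_
    rw [mu, Pi.single_eq_of_ne (Ne.symm hl)]
    simp
  · simp

theorem mu_one : (1 : F.alg) = ∑ l, ∑ i, mu F l i i := by
  classical
  conv_lhs => rw [mu_expand F 1]
  refine Finset.sum_congr rfl fun l _ => Finset.sum_congr rfl fun i _ => ?_
  rw [Finset.sum_eq_single i]
  · simp
  · intro j _ hj
    simp [Ne.symm hj]
  · simp

theorem mul_mu (y : F.alg) (l : F.ι) (j o : F.n l) :
    y * mu F l j o = ∑ i, y l i j • mu F l i o := by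
  classical
  conv_lhs => rw [mu_expand F y]
  rw [Finset.sum_mul, Finset.sum_eq_single l]
  · rw [Finset.sum_mul]
    refine Finset.sum_congr rfl fun i _ => ?_
    rw [Finset.sum_mul, Finset.sum_eq_single j]
    · rw [smul_mul_assoc, mu_mul, if_pos rfl]
    · intro k _ hk
      rw [smul_mul_assoc, mu_mul, if_neg hk, smul_zero]
    · simp
  · intro c _ hc
    rw [Finset.sum_mul]
    refine Finset.sum_eq_zero fun i _ => ?_
    rw [Finset.sum_mul]
    refine Finset.sum_eq_zero fun k _ => ?_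
    rw [smul_mul_assoc, mu_mul_ne F c l hc, smul_zero]
  · simp

end mu

section block

variable {R : Type} [CStarAlgebra R]

theorem sa_cfc (a : R) (f : ℝ → ℝ) : star (cfc f a) = cfc f a := cfc_predicate f a

theorem block (hCut : CutE R) (a s : R) (ha : Pos a) (hs : Pos s) (has : a * s = s * a)
    (γ : ℝ) (hγ : 0 < γ) :
    ∃ g P : R, star g = g ∧ Prj P ∧ a * g = P ∧ g * a = P ∧ g * P = g ∧ P * g = g ∧
      s * g = g * s ∧
      Pos (P * (((1 / 2 : ℂ) • (a * a) - a * s) - (γ : ℂ) • 1) * P) ∧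
      cfc (fun r : ℝ => max (r - 2 * γ) 0) ((1 / 2 : ℂ) • (a * a) - a * s) * (1 - P) = 0 := by
  let _ := CStarAlgebra.spectralOrder R
  let _ := CStarAlgebra.spectralOrderedRing R
  have ha0 : 0 ≤ a := (nonneg_iff_star a).2 ha
  have hs0 : 0 ≤ s := (nonneg_iff_star s).2 hs
  have hsa : star a = a := (IsSelfAdjoint.of_nonneg ha0).star_eq
  have hss : star s = s := (IsSelfAdjoint.of_nonneg hs0).star_eq
  obtain ⟨σ, hσdef⟩ : ∃ σ : R, σ = (1 / 2 : ℂ) • (a * a) - a * s := ⟨_, rfl⟩
  rw [← hσdef]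
  have hσ : star σ = σ := by
    rw [hσdef, star_sub, star_smul, star_mul, star_mul, hsa, hss, ← has]
    simp
  have hσa : IsSelfAdjoint σ := hσ
  have haa : IsSelfAdjoint a := hsa
  have haσ : a * σ = σ * a := by
    rw [hσdef, mul_sub, sub_mul, mul_smul_comm, smul_mul_assoc, mul_assoc a a a,
      mul_assoc a s a, ← has]
  obtain ⟨Q, hQ, hQa, hQσ, h1, h2⟩ := hCut a σ γ (2 * γ) hsa hσ haσ (by linarith)
  obtain ⟨hQ1, hQ2⟩ := hQ
  obtain ⟨P, hPdef⟩ : ∃ P : R, P = 1 - Q := ⟨_, rfl⟩
  rw [← hPdef] at h2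
  have hPs : star P = P := by rw [hPdef, star_sub, star_one, hQ1]
  have hPP : P * P = P := by
    rw [hPdef, mul_sub, sub_mul, sub_mul, hQ2]
    simp
  have hPa : P * a = a * P := by
    rw [hPdef, sub_mul, mul_sub, hQa, one_mul, mul_one]
  have hPσ : P * σ = σ * P := by
    rw [hPdef, sub_mul, mul_sub, hQσ, one_mul, mul_one]
  have h1P : (1 : R) - P = Q := by rw [hPdef]; abel
  have e9 : cfc (fun r : ℝ => max (r - 2 * γ) 0) σ * (1 - P) = 0 := by
    rw [h1P, ← sa_cfc, ← hQ1, ← star_mul, h1, star_zero]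
  -- `P (σ - γ) P ≥ 0`
  have hdec : σ - (γ : ℂ) • (1 : R) = cfc (fun r : ℝ => max (r - γ) 0) σ
      - cfc (fun r : ℝ => max (γ - r) 0) σ := by
    rw [← cfc_sub (fun r : ℝ => max (r - γ) 0) (fun r : ℝ => max (γ - r) 0) σ]
    have e : (fun r : ℝ => max (r - γ) 0 - max (γ - r) 0) = fun r : ℝ => r - γ := by
      funext r
      rcases le_total r γ with h | h
      · rw [max_eq_right (by linarith), max_eq_left (by linarith)]; ring
      · rw [max_eq_left (by linarith), max_eq_right (by linarith)]; ring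
    rw [e, cfc_sub (fun r : ℝ => r) (fun _ => γ) σ, cfc_id' ℝ σ hσa, cfc_const γ σ hσa,
      Algebra.algebraMap_eq_smul_one]
    rfl
  have hpos1 : 0 ≤ P * (σ - (γ : ℂ) • 1) * P := by
    rw [hdec, mul_sub, h2, sub_zero]
    have h0 : 0 ≤ cfc (fun r : ℝ => max (r - γ) 0) σ := cfc_nonneg fun x _ => le_max_right _ _
    exact (show IsSelfAdjoint P from hPs).conjugate_nonneg h0
  -- `P (a² - 2γ) P ≥ 0`
  have hpos2 : 0 ≤ P * (a * a - (2 * γ : ℝ) • 1) * P := by
    have h3 : 0 ≤ a * s := Commute.mul_nonneg ha0 hs0 has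
    have h4 : 0 ≤ P * (a * s) * P := (show IsSelfAdjoint P from hPs).conjugate_nonneg h3
    have h5 : a * a - (2 * γ : ℝ) • (1 : R) = (2 : ℝ) • (a * s) + (2 : ℝ) • (σ - (γ : ℂ) • 1) := by
      rw [hσdef]
      have e1 : (2 : ℝ) • (((1 / 2 : ℂ) • (a * a) - a * s) - (γ : ℂ) • (1 : R))
          = a * a - (2 : ℝ) • (a * s) - (2 * γ : ℝ) • (1 : R) := by
        rw [smul_sub, smul_sub]
        have e2 : (2 : ℝ) • ((1 / 2 : ℂ) • (a * a)) = a * a := by
          rw [show ((2 : ℝ) • ((1 / 2 : ℂ) • (a * a)) : R)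
            = (2 : ℂ) • ((1 / 2 : ℂ) • (a * a)) from by
              rw [← Complex.coe_smul]; norm_num, smul_smul]
          norm_num
        have e3 : (2 : ℝ) • ((γ : ℂ) • (1 : R)) = (2 * γ : ℝ) • (1 : R) := by
          rw [Complex.coe_smul, smul_smul]
        rw [e2, e3]
      rw [e1]
      abel
    rw [h5, mul_add, add_mul, mul_smul_comm, smul_mul_assoc, mul_smul_comm, smul_mul_assoc]
    exact add_nonneg (smul_nonneg (by norm_num) h4) (smul_nonneg (by norm_num) hpos1)
  -- the cut of `a`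
  have hsq : 0 < Real.sqrt γ := Real.sqrt_pos.2 hγ
  have hmax : ∀ t : ℝ, 0 < max t (Real.sqrt γ) := fun t => lt_max_of_lt_right hsq
  have hfc : Continuous fun t : ℝ => (max t (Real.sqrt γ))⁻¹ :=
    (continuous_id.max continuous_const).inv₀ fun t => (hmax t).ne'
  obtain ⟨g0, hg0⟩ : ∃ g0 : R, g0 = cfc (fun t : ℝ => (max t (Real.sqrt γ))⁻¹) a := ⟨_, rfl⟩
  have hg0s : star g0 = g0 := by rw [hg0]; exact sa_cfc _ _
  have hg0c : ∀ x : R, a * x = x * a → g0 * x = x * g0 := by
    intro x hx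
    rw [hg0]
    exact cfc_inter x a a haa haa hx _ hfc
  have hag0 : a * g0 = g0 * a := (hg0c a rfl).symm
  have hg0P : g0 * P = P * g0 := hg0c P hPa.symm
  obtain ⟨k, hk⟩ : ∃ k : R, k = 1 - a * g0 := ⟨_, rfl⟩
  have hkc : k = cfc (fun t : ℝ => 1 - t * (max t (Real.sqrt γ))⁻¹) a := by
    rw [hk, hg0, cfc_sub (fun _ : ℝ => (1 : ℝ)) (fun t : ℝ => t * (max t (Real.sqrt γ))⁻¹) a
      continuous_const.continuousOn (continuous_id.mul hfc).continuousOn,
      cfc_mul (fun t : ℝ => t) (fun t : ℝ => (max t (Real.sqrt γ))⁻¹) a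
      continuous_id.continuousOn hfc.continuousOn, cfc_id' ℝ a haa, cfc_const_one ℝ a haa]
  have hks : star k = k := by rw [hkc]; exact sa_cfc _ _
  have hkP : k * P = P * k := by
    rw [hk, sub_mul, mul_sub, one_mul, mul_one, mul_assoc, hg0P, ← mul_assoc, ← hPa, mul_assoc]
  have hkpos : 0 ≤ k * ((γ : ℝ) • 1 - a * a) * k := by
    have hkc' : Continuous fun t : ℝ => 1 - t * (max t (Real.sqrt γ))⁻¹ :=
      continuous_const.sub (continuous_id.mul hfc)
    have e1 : ((γ : ℝ) • (1 : R) - a * a) = cfc (fun t : ℝ => γ - t * t) a := by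
      rw [cfc_sub (fun _ : ℝ => γ) (fun t : ℝ => t * t) a continuous_const.continuousOn
        (continuous_id.mul continuous_id).continuousOn,
        cfc_mul (fun t : ℝ => t) (fun t : ℝ => t) a
        continuous_id.continuousOn continuous_id.continuousOn, cfc_id' ℝ a haa,
        cfc_const γ a haa, Algebra.algebraMap_eq_smul_one]
    have hc2 : Continuous fun t : ℝ => γ - t * t := by fun_prop
    have hc3 : Continuous fun t : ℝ => (1 - t * (max t (Real.sqrt γ))⁻¹) * (γ - t * t) :=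
      hkc'.mul hc2
    rw [e1, hkc, ← cfc_mul _ _ a hkc'.continuousOn hc2.continuousOn,
      ← cfc_mul _ _ a hc3.continuousOn hkc'.continuousOn]
    refine cfc_nonneg fun t ht => ?_
    have ht0 : 0 ≤ t := spectrum_nonneg_of_nonneg ha0 ht
    rcases le_total t (Real.sqrt γ) with h | h
    · have h6 : t * t ≤ γ := by
        calc t * t ≤ Real.sqrt γ * Real.sqrt γ := by gcongr
          _ = γ := Real.mul_self_sqrt hγ.le
      have h7 : 0 ≤ γ - t * t := by linarith
      have h8 : (1 - t * (max t (Real.sqrt γ))⁻¹) * (γ - t * t)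
          * (1 - t * (max t (Real.sqrt γ))⁻¹)
          = (1 - t * (max t (Real.sqrt γ))⁻¹) ^ 2 * (γ - t * t) := by ring
      rw [h8]
      positivity
    · rw [max_eq_left h, mul_inv_cancel₀ (by linarith : t ≠ 0)]
      simp
  have hkP0 : k * P = 0 := by
    have h6 : 0 ≤ k * (P * (a * a - (2 * γ : ℝ) • 1) * P) * k :=
      (show IsSelfAdjoint k from hks).conjugate_nonneg hpos2
    have h7 : 0 ≤ P * (k * ((γ : ℝ) • 1 - a * a) * k) * P :=
      (show IsSelfAdjoint P from hPs).conjugate_nonneg hkpos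
    have h8 : k * (P * (a * a - (2 * γ : ℝ) • 1) * P) * k
        + P * (k * ((γ : ℝ) • 1 - a * a) * k) * P = -((γ : ℝ) • (star (k * P) * (k * P))) := by
      have e1 : k * (P * (a * a - (2 * γ : ℝ) • 1) * P) * k
          = P * k * (a * a - (2 * γ : ℝ) • 1) * (k * P) := by
        rw [← hkP]
        simp only [mul_assoc]
        rw [← hkP]
      have e2 : P * (k * ((γ : ℝ) • 1 - a * a) * k) * P
          = P * k * ((γ : ℝ) • 1 - a * a) * (k * P) := by
        simp only [mul_assoc]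
      have e3 : (a * a - (2 * γ : ℝ) • 1 : R) + ((γ : ℝ) • 1 - a * a) = -(γ • 1) := by
        rw [two_mul, add_smul]
        abel
      rw [e1, e2, ← add_mul, ← mul_add, e3, star_mul, hks, hPs, mul_neg, neg_mul,
        mul_smul_comm, mul_one, smul_mul_assoc]
    have h9 : 0 ≤ star (k * P) * (k * P) := star_mul_self_nonneg _
    have h10 : star (k * P) * (k * P) = 0 := by
      have h11 : 0 ≤ -((γ : ℝ) • (star (k * P) * (k * P))) := h8 ▸ add_nonneg h6 h7
      have h12 : (γ : ℝ) • (star (k * P) * (k * P)) ≤ 0 := by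
        rw [← neg_nonneg]; exact h11
      have h13 : (γ : ℝ) • (star (k * P) * (k * P)) = 0 :=
        le_antisymm h12 (smul_nonneg hγ.le h9)
      exact (smul_eq_zero.1 h13).resolve_left hγ.ne'
    exact CStarRing.star_mul_self_eq_zero_iff _ |>.1 h10
  have hagP : a * (g0 * P) = P := by
    have h3 : P - a * (g0 * P) = 0 := by
      rw [← hkP0, hk, sub_mul, one_mul, mul_assoc]
    exact (sub_eq_zero.1 h3).symm
  have hPas : P * (a * s) = (a * s) * P := by
    have e1 : a * s = (1 / 2 : ℂ) • (a * a) - σ := by rw [hσdef]; abel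
    rw [e1, mul_sub, sub_mul, hPσ, mul_smul_comm, smul_mul_assoc, ← mul_assoc, hPa, mul_assoc,
      hPa, mul_assoc]
  have hsg0 : s * g0 = g0 * s := (hg0c s has).symm
  have hsP : s * P = P * s := by
    calc s * P = s * (a * (g0 * P)) := by rw [hagP]
      _ = g0 * ((a * s) * P) := by
          rw [← mul_assoc, ← has, ← mul_assoc, mul_assoc a s g0, hsg0, ← mul_assoc a g0 s, hag0]
          simp only [mul_assoc]
      _ = g0 * (P * (a * s)) := by rw [hPas]
      _ = (a * (g0 * P)) * s := by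
          rw [← mul_assoc P a s, hPa]
          simp only [← mul_assoc]
          rw [hag0]
      _ = P * s := by rw [hagP]
  refine ⟨g0 * P, P, ?_, ⟨hPs, hPP⟩, hagP, ?_, ?_, ?_, ?_, ?_, e9⟩
  · rw [star_mul, hPs, hg0s, hg0P]
  · rw [mul_assoc, hPa, ← mul_assoc, ← hag0, mul_assoc, hagP]
  · rw [mul_assoc, hPP]
  · rw [← mul_assoc, ← hg0P, mul_assoc, hPP]
  · rw [← mul_assoc, hsg0, mul_assoc, hsP, mul_assoc]
  · exact (nonneg_iff_star _).1 hpos1

end block

theorem t_CC : StCC := by
  intro R _ hCut F κ s γ hcp hoz hs hcomm hγ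
  let _ := CStarAlgebra.spectralOrder R
  let _ := CStarAlgebra.spectralOrderedRing R
  have hs0 : 0 ≤ s := (nonneg_iff_star s).2 hs
  have hss : star s = s := (IsSelfAdjoint.of_nonneg hs0).star_eq
  have hstar : ∀ y, κ (star y) = star (κ y) := fun y => hcp.star_map y
  obtain ⟨K, hK⟩ : ∃ K : R, K = κ 1 := ⟨_, rfl⟩
  rw [← hK]
  have hKs : star K = K := by rw [hK, ← hstar, star_one]
  have hKc : ∀ y, κ y * K = K * κ y := by
    intro y
    rw [hK, hoz y 1, mul_one]
  have hmul : ∀ x y, κ x * κ y = K * κ (x * y) := by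
    intro x y
    rw [hoz x y, hK]
  have hKss : K * s = s * K := by rw [hK]; exact hcomm 1
  obtain ⟨σ, hσdef⟩ : ∃ σ : R, σ = K * ((1 / 2 : ℂ) • K - s) := ⟨_, rfl⟩
  rw [← hσdef]
  have hσ' : σ = (1 / 2 : ℂ) • (K * K) - K * s := by
    rw [hσdef, mul_sub, mul_smul_comm]
  have hσs : star σ = σ := by
    rw [hσ', star_sub, star_smul, star_mul, star_mul, hKs, hss, ← hKss]
    simp
  have hσκ : ∀ y, σ * κ y = κ y * σ := by
    intro y
    rw [hσ', sub_mul, mul_sub, smul_mul_assoc, mul_smul_comm]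
    have e1 : K * K * κ y = κ y * (K * K) := by
      rw [mul_assoc, ← hKc, ← mul_assoc, ← hKc, mul_assoc]
    have e2 : K * s * κ y = κ y * (K * s) := by
      rw [mul_assoc, ← hcomm, ← mul_assoc, ← hKc, mul_assoc]
    rw [e1, e2]
  have hσsc : σ * s = s * σ := by
    rw [hσ', sub_mul, mul_sub, smul_mul_assoc, mul_smul_comm]
    have e1 : K * K * s = s * (K * K) := by
      rw [mul_assoc, hKss, ← mul_assoc, hKss, mul_assoc]
    have e2 : K * s * s = s * (K * s) := by
      rw [hKss, mul_assoc]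
      rw [hKss]
    rw [e1, e2]
  -- the chosen index of a block
  obtain ⟨o, ho⟩ : ∃ o : ∀ l : F.ι, Nonempty (F.n l) → F.n l, True :=
    ⟨fun l h => Classical.choice h, trivial⟩
  have hblock : ∀ (l : F.ι) (h : Nonempty (F.n l)), ∃ g P : R, star g = g ∧ Prj P ∧
      κ (mu F l (o l h) (o l h)) * g = P ∧ g * κ (mu F l (o l h) (o l h)) = P ∧ g * P = g ∧
      P * g = g ∧ s * g = g * s ∧
      Pos (P * (((1 / 2 : ℂ) • (κ (mu F l (o l h) (o l h)) * κ (mu F l (o l h) (o l h)))
        - κ (mu F l (o l h) (o l h)) * s) - (γ : ℂ) • 1) * P) ∧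
      cfc (fun r : ℝ => max (r - 2 * γ) 0)
        ((1 / 2 : ℂ) • (κ (mu F l (o l h) (o l h)) * κ (mu F l (o l h) (o l h)))
        - κ (mu F l (o l h) (o l h)) * s) * (1 - P) = 0 := by
    intro l h
    refine block hCut _ s ?_ hs (hcomm _) γ hγ
    have h1 : mu F l (o l h) (o l h) = star (mu F l (o l h) (o l h)) * mu F l (o l h) (o l h) := by
      rw [star_mu, mu_mul, if_pos rfl]
    rw [h1]
    exact (nonneg_iff_star _).1 (hcp.nonneg _)
  choose g P hgs hP hag hga hgP hPg hsg hpos hcut using hblock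
  -- products of values at matrix units
  have hKmu : ∀ (l : F.ι) (h : Nonempty (F.n l)) (i : F.n l),
      K * κ (mu F l i (o l h)) = κ (mu F l i (o l h)) * κ (mu F l (o l h) (o l h)) := by
    intro l h i
    rw [hmul, mu_mul, if_pos rfl]
  obtain ⟨w, hw⟩ : ∃ w : ∀ l : F.ι, F.n l → R, ∀ (l : F.ι) (h : Nonempty (F.n l)) (i : F.n l),
      w l i = κ (mu F l i (o l h)) * g l h :=
    ⟨fun l i => κ (mu F l i (o l ⟨i⟩)) * g l ⟨i⟩, fun l h i => rfl⟩
  have hws : ∀ (l : F.ι) (h : Nonempty (F.n l)) (i : F.n l),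
      star (w l i) = g l h * κ (mu F l (o l h) i) := by
    intro l h i
    rw [hw l h i, star_mul, hgs, ← hstar, star_mu]
  have W1 : ∀ (l : F.ι) (h : Nonempty (F.n l)) (i j : F.n l),
      star (w l i) * w l j = if i = j then P l h else 0 := by
    intro l h i j
    rw [hws l h i, hw l h j]
    have e1 : g l h * κ (mu F l (o l h) i) * (κ (mu F l j (o l h)) * g l h)
        = g l h * (κ (mu F l (o l h) i) * κ (mu F l j (o l h))) * g l h := by
      simp only [mul_assoc]
    rw [e1, hmul, mu_mul]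
    split_ifs with hij
    · rw [hKmu, ← mul_assoc, hga, mul_assoc, hag, (hP l h).2]
    · simp
  have hmul0 : ∀ (l l' : F.ι), l ≠ l' → ∀ (i j : F.n l) (k m : F.n l'),
      κ (mu F l i j) * κ (mu F l' k m) = 0 := by
    intro l l' hll i j k m
    rw [hmul, mu_mul_ne F l l' hll, map_zero, mul_zero]
  have W2 : ∀ (l l' : F.ι), l ≠ l' → ∀ (i : F.n l) (j : F.n l'),
      star (w l i) * w l' j = 0 := by
    intro l l' hll i j
    rw [hws l ⟨i⟩ i, hw l' ⟨j⟩ j]
    have e1 : g l ⟨i⟩ * κ (mu F l (o l ⟨i⟩) i) * (κ (mu F l' j (o l' ⟨j⟩)) * g l' ⟨j⟩)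
        = g l ⟨i⟩ * (κ (mu F l (o l ⟨i⟩) i) * κ (mu F l' j (o l' ⟨j⟩))) * g l' ⟨j⟩ := by
      simp only [mul_assoc]
    rw [e1, hmul0 l l' hll, mul_zero, zero_mul]
  have W3 : ∀ (l : F.ι) (h : Nonempty (F.n l)) (i : F.n l), w l i * P l h = w l i := by
    intro l h i
    rw [hw l h i, mul_assoc, hgP]
  have W4 : ∀ (l : F.ι) (h : Nonempty (F.n l)) (y : F.alg) (j : F.n l),
      κ y * w l j = ∑ i, y l i j • (w l i * κ (mu F l (o l h) (o l h))) := by
    intro l h y j
    rw [hw l h j, ← mul_assoc, hmul, mul_mu, map_sum, Finset.mul_sum, Finset.sum_mul]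
    refine Finset.sum_congr rfl fun i _ => ?_
    rw [map_smul, mul_smul_comm, smul_mul_assoc, hKmu, hw l h i, mul_assoc, mul_assoc, hag, hga]
  have W5 : ∀ (l : F.ι) (i : F.n l), s * w l i = w l i * s := by
    intro l i
    rw [hw l ⟨i⟩ i, ← mul_assoc, ← hcomm, mul_assoc, hsg, mul_assoc]
  obtain ⟨τ, hτ⟩ : ∃ τ : ∀ l : F.ι, Nonempty (F.n l) → R, ∀ l h,
      τ l h = (1 / 2 : ℂ) • (κ (mu F l (o l h) (o l h)) * κ (mu F l (o l h) (o l h)))
        - κ (mu F l (o l h) (o l h)) * s := ⟨_, fun l h => rfl⟩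
  simp only [← hτ] at hpos hcut
  have hκσ : ∀ (l : F.ι) (h : Nonempty (F.n l)) (i : F.n l),
      σ * κ (mu F l i (o l h)) = κ (mu F l i (o l h)) * τ l h := by
    intro l h i
    rw [hσκ, hσ', hτ, mul_sub, mul_sub, mul_smul_comm, mul_smul_comm]
    have e0 : κ (mu F l i (o l h)) * K = κ (mu F l i (o l h)) * κ (mu F l (o l h) (o l h)) := by
      rw [hKc, hKmu]
    have e1 : κ (mu F l i (o l h)) * (K * K)
        = κ (mu F l i (o l h)) * (κ (mu F l (o l h) (o l h)) * κ (mu F l (o l h) (o l h))) := by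
      rw [← mul_assoc, e0, mul_assoc, hKc, ← mul_assoc, e0, mul_assoc]
    have e2 : κ (mu F l i (o l h)) * (K * s)
        = κ (mu F l i (o l h)) * (κ (mu F l (o l h) (o l h)) * s) := by
      rw [← mul_assoc, e0, mul_assoc]
    rw [e1, e2]
  have hτs : ∀ (l : F.ι) (h : Nonempty (F.n l)), star (τ l h) = τ l h := by
    intro l h
    rw [hτ, star_sub, star_smul, star_mul, star_mul, hss, ← hstar, star_mu, ← hcomm]
    simp
  have hτg : ∀ (l : F.ι) (h : Nonempty (F.n l)), τ l h * g l h = g l h * τ l h := by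
    intro l h
    rw [hτ, sub_mul, mul_sub, smul_mul_assoc, mul_smul_comm]
    have e1 : κ (mu F l (o l h) (o l h)) * κ (mu F l (o l h) (o l h)) * g l h
        = g l h * (κ (mu F l (o l h) (o l h)) * κ (mu F l (o l h) (o l h))) := by
      rw [mul_assoc, hag, ← hga, ← mul_assoc, hag, ← hga, mul_assoc]
    have e2 : κ (mu F l (o l h) (o l h)) * s * g l h
        = g l h * (κ (mu F l (o l h) (o l h)) * s) := by
      rw [mul_assoc, hsg, ← mul_assoc, hag, ← hga, mul_assoc]
    rw [e1, e2]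
  have W6 : ∀ (l : F.ι) (h : Nonempty (F.n l)) (i : F.n l),
      σ * w l i = w l i * τ l h := by
    intro l h i
    rw [hw l h i, ← mul_assoc, hκσ, mul_assoc, hτg, mul_assoc]
  -- the projection
  obtain ⟨p, hp⟩ : ∃ p : R, p = ∑ l, ∑ i, w l i * star (w l i) := ⟨_, rfl⟩
  have C1 : star p = p := by
    rw [hp, star_sum]
    refine Finset.sum_congr rfl fun l _ => ?_
    rw [star_sum]
    refine Finset.sum_congr rfl fun i _ => ?_
    rw [star_mul, star_star]
  have C2 : ∀ (l : F.ι) (j : F.n l), p * w l j = w l j := by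
    intro l j
    rw [hp, Finset.sum_mul, Finset.sum_eq_single l]
    · rw [Finset.sum_mul, Finset.sum_eq_single j]
      · rw [mul_assoc, W1 l ⟨j⟩, if_pos rfl, W3]
      · intro i _ hij
        rw [mul_assoc, W1 l ⟨j⟩, if_neg hij, mul_zero]
      · simp
    · intro l' _ hl
      rw [Finset.sum_mul]
      refine Finset.sum_eq_zero fun i _ => ?_
      rw [mul_assoc, W2 l' l hl, mul_zero]
    · simp
  have C3 : p * p = p := by
    calc p * p = p * ∑ l, ∑ i, w l i * star (w l i) := by rw [← hp]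
      _ = ∑ l, ∑ i, w l i * star (w l i) := by
          rw [Finset.mul_sum]
          refine Finset.sum_congr rfl fun l _ => ?_
          rw [Finset.mul_sum]
          refine Finset.sum_congr rfl fun i _ => ?_
          rw [← mul_assoc, C2]
      _ = p := hp.symm
  have C4a : ∀ y : F.alg, κ y * p = ∑ l, ∑ j : F.n l, ∑ i,
      y l i j • (w l i * κ (mu F l (o l ⟨j⟩) (o l ⟨j⟩)) * star (w l j)) := by
    intro y
    rw [hp, Finset.mul_sum]
    refine Finset.sum_congr rfl fun l _ => ?_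
    rw [Finset.mul_sum]
    refine Finset.sum_congr rfl fun j _ => ?_
    rw [← mul_assoc, W4 l ⟨j⟩ y j, Finset.sum_mul]
    refine Finset.sum_congr rfl fun i _ => ?_
    rw [smul_mul_assoc]
  have C4 : ∀ y : F.alg, p * κ y = κ y * p := by
    intro y
    have e1 : p * κ y = star (κ (star y) * p) := by
      rw [star_mul, C1, hstar, star_star]
    rw [e1, C4a, C4a, star_sum]
    refine Finset.sum_congr rfl fun l _ => ?_
    rw [star_sum]
    simp only [star_sum]
    rw [Finset.sum_comm]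
    refine Finset.sum_congr rfl fun j _ => Finset.sum_congr rfl fun i _ => ?_
    rw [star_smul, star_mul, star_mul, star_star, ← hstar, star_mu]
    have e2 : star (star y l j i) = y l i j := by
      rw [Pi.star_apply, Matrix.star_apply, star_star]
    rw [e2, mul_assoc]
  have W5' : ∀ (l : F.ι) (i : F.n l), s * star (w l i) = star (w l i) * s := by
    intro l i
    have := congrArg star (W5 l i)
    rw [star_mul, star_mul, hss] at this
    exact this.symm
  have C5 : p * s = s * p := by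
    rw [hp, Finset.mul_sum, Finset.sum_mul]
    refine Finset.sum_congr rfl fun l _ => ?_
    rw [Finset.mul_sum, Finset.sum_mul]
    refine Finset.sum_congr rfl fun i _ => ?_
    rw [mul_assoc, ← W5', ← mul_assoc, ← W5, mul_assoc]
  have C6a : p * σ = σ * p := by
    rw [hσ', mul_sub, sub_mul, smul_mul_assoc, mul_smul_comm]
    have e1 : p * (K * K) = K * K * p := by
      rw [hK, ← mul_assoc, C4, mul_assoc, C4, mul_assoc]
    have e2 : p * (K * s) = K * s * p := by
      rw [hK, ← mul_assoc, C4, mul_assoc, C5, mul_assoc]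
    rw [e1, e2]
  have C6 : 0 ≤ p * (σ - (γ : ℂ) • 1) * p := by
    have e1 : p * (σ - (γ : ℂ) • 1) * p = ∑ l, ∑ i : F.n l,
        w l i * (P l ⟨i⟩ * (τ l ⟨i⟩ - (γ : ℂ) • 1) * P l ⟨i⟩) * star (w l i) := by
      have e2 : p * (σ - (γ : ℂ) • 1) * p = (σ - (γ : ℂ) • 1) * p := by
        rw [mul_sub, C6a, mul_smul_comm, mul_one, sub_mul, smul_mul_assoc, mul_assoc, C3,
          sub_mul, smul_mul_assoc, one_mul]
      rw [e2, hp, Finset.mul_sum]
      refine Finset.sum_congr rfl fun l _ => ?_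
      rw [Finset.mul_sum]
      refine Finset.sum_congr rfl fun i _ => ?_
      have e3 : (σ - (γ : ℂ) • 1) * w l i = w l i * (τ l ⟨i⟩ - (γ : ℂ) • 1) := by
        rw [sub_mul, mul_sub, W6 l ⟨i⟩, smul_mul_assoc, one_mul, mul_smul_comm, mul_one]
      have e4 : P l ⟨i⟩ * star (w l i) = star (w l i) := by
        have := congrArg star (W3 l ⟨i⟩ i)
        rw [star_mul, (hP l ⟨i⟩).1] at this
        exact this
      rw [← mul_assoc, e3, ← mul_assoc, ← mul_assoc, W3, mul_assoc, mul_assoc, mul_assoc, e4]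
    rw [e1]
    refine Finset.sum_nonneg fun l _ => Finset.sum_nonneg fun i _ => ?_
    exact star_right_conjugate_nonneg ((nonneg_iff_star _).2 (hpos l ⟨i⟩)) _
  have C7 : ∀ (l : F.ι) (h : Nonempty (F.n l)) (i : F.n l),
      κ (mu F l i (o l h)) * p = κ (mu F l i (o l h)) * P l h := by
    intro l h i
    rw [hp, Finset.mul_sum, Finset.sum_eq_single l]
    · rw [Finset.mul_sum, Finset.sum_eq_single (o l h)]
      · have e1 : w l (o l h) = P l h := by rw [hw l h, hag]
        rw [e1, (hP l h).1, (hP l h).2]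
      · intro j _ hj
        rw [hw l h j]
        have e1 : κ (mu F l i (o l h)) * (κ (mu F l j (o l h)) * g l h
            * star (κ (mu F l j (o l h)) * g l h))
          = κ (mu F l i (o l h)) * κ (mu F l j (o l h)) * (g l h
            * star (κ (mu F l j (o l h)) * g l h)) := by
          simp only [mul_assoc]
        rw [e1, hmul, mu_mul, if_neg (Ne.symm hj), map_zero, mul_zero, zero_mul]
      · simp
    · intro l' _ hl
      rw [Finset.mul_sum]
      refine Finset.sum_eq_zero fun j _ => ?_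
      rw [hw l' ⟨j⟩ j, ← mul_assoc, ← mul_assoc, hmul0 l l' (Ne.symm hl), zero_mul, zero_mul]
    · simp
  obtain ⟨m, hm⟩ : ∃ m : R, m = cfc (fun r : ℝ => max (r - 2 * γ) 0) σ := ⟨_, rfl⟩
  have hσa : IsSelfAdjoint σ := hσs
  have hmc : Continuous fun r : ℝ => max (r - 2 * γ) 0 := by fun_prop
  have hms : star m = m := by rw [hm]; exact sa_cfc _ _
  have hmx : ∀ x : R, σ * x = x * σ → m * x = x * m := by
    intro x hx
    rw [hm]
    exact cfc_inter x σ σ hσa hσa hx _ hmc
  have hmp : m * p = p * m := hmx p C6a.symm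
  have hmκ : ∀ y, m * κ y = κ y * m := fun y => hmx _ (hσκ y)
  obtain ⟨X, hX⟩ : ∃ X : R, X = (1 - p) * m := ⟨_, rfl⟩
  have C8 : ∀ (l : F.ι) (h : Nonempty (F.n l)) (i : F.n l), κ (mu F l i (o l h)) * X = 0 := by
    intro l h i
    have e1 : m * κ (mu F l i (o l h)) = κ (mu F l i (o l h)) *
        cfc (fun r : ℝ => max (r - 2 * γ) 0) (τ l h) := by
      rw [hm]
      exact cfc_inter _ σ (τ l h) hσa (hτs l h) (hκσ l h i) _ hmc
    have e2 : X = m * (1 - p) := by
      rw [hX, sub_mul, mul_sub, hmp, one_mul, mul_one]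
    rw [e2, ← mul_assoc, ← hmκ, mul_assoc, mul_sub, mul_one, C7 l h i]
    have e3 : κ (mu F l i (o l h)) - κ (mu F l i (o l h)) * P l h
        = κ (mu F l i (o l h)) * (1 - P l h) := by rw [mul_sub, mul_one]
    rw [e3, ← mul_assoc, e1, mul_assoc, hcut, mul_zero]
  have C9 : ∀ y, X * κ y = κ y * X := by
    intro y
    rw [hX, mul_assoc, hmκ, ← mul_assoc, sub_mul, C4, one_mul, ← mul_assoc, mul_sub, mul_one]
  have C10 : X * K * K = 0 := by
    have e1 : ∀ (l : F.ι) (i : F.n l), X * K * κ (mu F l i i) = 0 := by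
      intro l i
      have e2 : K * κ (mu F l i i) = κ (mu F l i (o l ⟨i⟩)) * κ (mu F l (o l ⟨i⟩) i) := by
        rw [hmul, mu_mul, if_pos rfl]
      rw [mul_assoc, e2, ← mul_assoc, C9, C8, zero_mul]
    have e3 : X * K * κ 1 = 0 := by
      rw [mu_one, map_sum, Finset.mul_sum]
      refine Finset.sum_eq_zero fun l _ => ?_
      rw [map_sum, Finset.mul_sum]
      exact Finset.sum_eq_zero fun i _ => e1 l i
    rwa [← hK] at e3
  have C11 : X * K = 0 := by
    rw [← CStarRing.mul_star_self_eq_zero_iff, star_mul, hKs, ← mul_assoc, C10, zero_mul]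
  have C12 : X * σ = 0 := by rw [hσdef, ← mul_assoc, C11, zero_mul]
  have C13 : X * m = 0 := by
    have hden : ∀ t : ℝ, 0 < max t (2 * γ) := fun t => lt_max_of_lt_right (by linarith)
    have hnc : Continuous fun t : ℝ => max (t - 2 * γ) 0 * (max t (2 * γ))⁻¹ :=
      hmc.mul ((continuous_id.max continuous_const).inv₀ fun t => (hden t).ne')
    have e1 : m = σ * cfc (fun t : ℝ => max (t - 2 * γ) 0 * (max t (2 * γ))⁻¹) σ := by
      have e2 : σ * cfc (fun t : ℝ => max (t - 2 * γ) 0 * (max t (2 * γ))⁻¹) σ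
          = cfc (fun t : ℝ => t * (max (t - 2 * γ) 0 * (max t (2 * γ))⁻¹)) σ := by
        rw [cfc_mul (fun t : ℝ => t) (fun t : ℝ => max (t - 2 * γ) 0 * (max t (2 * γ))⁻¹) σ
          continuous_id.continuousOn hnc.continuousOn, cfc_id' ℝ σ hσa]
      rw [e2, hm]
      congr 1
      funext t
      rcases le_total t (2 * γ) with h | h
      · rw [max_eq_right (by linarith : t - 2 * γ ≤ 0)]; simp
      · rw [max_eq_left h, mul_comm t, mul_assoc, inv_mul_cancel₀ (by linarith : t ≠ 0), mul_one]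
    rw [e1, ← mul_assoc, C12, zero_mul]
  have C14 : X = 0 := by
    rw [← CStarRing.mul_star_self_eq_zero_iff]
    have e1 : star X = m * (1 - p) := by
      rw [hX, star_mul, hms, star_sub, star_one, C1]
    rw [e1, ← mul_assoc, C13, zero_mul]
  refine ⟨p, ⟨C1, C3⟩, C4, C5, ?_, ?_⟩
  · exact (nonneg_iff_star _).1 C6
  · have hc1 : Continuous fun r : ℝ => max (2 * γ - r) 0 := by fun_prop
    have e1 : (((2 * γ : ℝ) : ℂ) • (1 : R) - σ) = cfc (fun r : ℝ => max (2 * γ - r) 0) σ - m := by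
      rw [hm, ← cfc_sub (fun r : ℝ => max (2 * γ - r) 0) (fun r : ℝ => max (r - 2 * γ) 0) σ
        hc1.continuousOn hmc.continuousOn]
      have e : (fun r : ℝ => max (2 * γ - r) 0 - max (r - 2 * γ) 0) = fun r : ℝ => 2 * γ - r := by
        funext r
        rcases le_total r (2 * γ) with h | h
        · rw [max_eq_left (by linarith), max_eq_right (by linarith)]; ring
        · rw [max_eq_right (by linarith), max_eq_left (by linarith)]; ring
      rw [e, cfc_sub (fun _ => 2 * γ) (fun r : ℝ => r) σ, cfc_id' ℝ σ hσa,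
        cfc_const (2 * γ) σ hσa, Algebra.algebraMap_eq_smul_one]
      rfl
    rw [e1, mul_sub (1 - p) (cfc (fun r : ℝ => max (2 * γ - r) 0) σ) m, ← hX, C14, sub_zero]
    have h0 : 0 ≤ cfc (fun r : ℝ => max (2 * γ - r) 0) σ := cfc_nonneg fun x _ => le_max_right _ _
    have h1 : IsSelfAdjoint (1 - p) := by
      rw [IsSelfAdjoint, star_sub, star_one, C1]
    exact (nonneg_iff_star _).1 (h1.conjugate_nonneg h0)

end Pool.Agent.Helper7_ND.J_CC
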