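import Pool.Agent.Helper7_ND.Stm2

set_option autoImplicit false

open scoped Matrix.Norms.L2Operator ENNReal Matrix
open Pool.Agent.W659.EC

noncomputable section

namespace Pool.Agent.Helper7_ND.J_COM

section com

theorem norm_mul_pow_le {B : Type} [CStarAlgebra B] (t y : B) (ht : ‖t‖ ≤ 1) (n : ℕ) :
    ‖y * t ^ n‖ ≤ ‖y‖ := by
  induction n with
  | zero => simp
  | succ n ih =>
    rw [pow_succ, ← mul_assoc]
    calc ‖y * t ^ n * t‖ ≤ ‖y * t ^ n‖ * ‖t‖ := norm_mul_le _ _
      _ ≤ ‖y‖ * 1 := by gcongr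
      _ = ‖y‖ := mul_one _

theorem norm_comm_pow_le {B : Type} [CStarAlgebra B] (t x : B) (ht : ‖t‖ ≤ 1) (n : ℕ) :
    ‖t ^ n * x - x * t ^ n‖ ≤ n * ‖t * x - x * t‖ := by
  induction n with
  | zero => simp
  | succ n ih =>
    have e : t ^ (n + 1) * x - x * t ^ (n + 1) =
        t * (t ^ n * x - x * t ^ n) + (t * x - x * t) * t ^ n := by
      rw [pow_succ' t n]; noncomm_ring
    rw [e]
    calc ‖t * (t ^ n * x - x * t ^ n) + (t * x - x * t) * t ^ n‖
        ≤ ‖t * (t ^ n * x - x * t ^ n)‖ + ‖(t * x - x * t) * t ^ n‖ := norm_add_le _ _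
      _ ≤ ‖t‖ * ‖t ^ n * x - x * t ^ n‖ + ‖t * x - x * t‖ := by
        gcongr
        · exact norm_mul_le _ _
        · exact norm_mul_pow_le t _ ht n
      _ ≤ 1 * (n * ‖t * x - x * t‖) + ‖t * x - x * t‖ := by gcongr
      _ = ((n + 1 : ℕ) : ℝ) * ‖t * x - x * t‖ := by push_cast; ring

theorem comm_poly (P : Polynomial ℝ) : ∃ C : ℝ, 0 ≤ C ∧
    ∀ (B : Type) [CStarAlgebra B] (t x : B), ‖t‖ ≤ 1 →
      ‖Polynomial.aeval t P * x - x * Polynomial.aeval t P‖ ≤ C * ‖t * x - x * t‖ := by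
  induction P using Polynomial.induction_on' with
  | add p q hp hq =>
    obtain ⟨C, hC0, hC⟩ := hp
    obtain ⟨D, hD0, hD⟩ := hq
    refine ⟨C + D, by positivity, ?_⟩
    intro B _ t x ht
    have e : Polynomial.aeval t (p + q) * x - x * Polynomial.aeval t (p + q) =
        (Polynomial.aeval t p * x - x * Polynomial.aeval t p) +
        (Polynomial.aeval t q * x - x * Polynomial.aeval t q) := by
      rw [map_add]; noncomm_ring
    rw [e, add_mul]
    exact (norm_add_le _ _).trans (add_le_add (hC B t x ht) (hD B t x ht))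
  | monomial n a =>
    refine ⟨|a| * n, by positivity, ?_⟩
    intro B _ t x ht
    have e : Polynomial.aeval t (Polynomial.monomial n a) * x
        - x * Polynomial.aeval t (Polynomial.monomial n a) = a • (t ^ n * x - x * t ^ n) := by
      rw [Polynomial.aeval_monomial, Algebra.algebraMap_eq_smul_one, smul_one_mul, smul_sub,
        smul_mul_assoc, mul_smul_comm]
    rw [e, norm_smul, Real.norm_eq_abs, mul_assoc]
    gcongr
    exact norm_comm_pow_le t x ht n

theorem t_COM : StCOM := by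
  intro f M ε hf hε
  obtain ⟨P, hP⟩ := exists_polynomial_near_of_continuousOn 0 1 f hf.continuousOn
    (ε / (4 * (|M| + 1))) (by positivity)
  obtain ⟨C, hC0, hC⟩ := comm_poly P
  refine ⟨ε / (2 * (C + 1)), by positivity, ?_⟩
  intro B _ t x htp ht hx hcomm
  let _ := CStarAlgebra.spectralOrder B
  let _ := CStarAlgebra.spectralOrderedRing B
  have ht0 : 0 ≤ t := (nonneg_iff_star t).2 htp
  have hsa : IsSelfAdjoint t := .of_nonneg ht0
  have hspec : ∀ s ∈ spectrum ℝ t, s ∈ Set.Icc (0 : ℝ) 1 := by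
    intro s hs
    refine ⟨spectrum_nonneg_of_nonneg ht0 hs, ?_⟩
    rcases subsingleton_or_nontrivial B with hB | hB
    · rw [spectrum.of_subsingleton] at hs
      exact absurd hs (Set.notMem_empty _)
    · have h1 := spectrum.norm_le_norm_of_mem hs
      rw [Real.norm_eq_abs] at h1
      exact (le_abs_self s).trans (h1.trans ht)
  have hd : ‖cfc f t - Polynomial.aeval t P‖ ≤ ε / (4 * (|M| + 1)) := by
    rw [← cfc_polynomial P t hsa, ← cfc_sub f P.eval t (hf.continuousOn) P.continuous.continuousOn]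
    refine norm_cfc_le (by positivity) ?_
    intro s hs
    have := (hP s (hspec s hs)).le
    rw [Real.norm_eq_abs, abs_sub_comm]
    exact this
  have e : cfc f t * x - x * cfc f t = ((cfc f t - Polynomial.aeval t P) * x
      - x * (cfc f t - Polynomial.aeval t P)) +
      (Polynomial.aeval t P * x - x * Polynomial.aeval t P) := by noncomm_ring
  rw [e]
  have hxM : ‖x‖ ≤ |M| + 1 := by
    have := le_abs_self M; linarith
  have h1 : ‖(cfc f t - Polynomial.aeval t P) * x‖ ≤ ε / 4 := by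
    calc ‖(cfc f t - Polynomial.aeval t P) * x‖ ≤ ‖cfc f t - Polynomial.aeval t P‖ * ‖x‖ :=
          norm_mul_le _ _
      _ ≤ ε / (4 * (|M| + 1)) * (|M| + 1) := by gcongr
      _ = ε / 4 := by field_simp
  have h2 : ‖x * (cfc f t - Polynomial.aeval t P)‖ ≤ ε / 4 := by
    calc ‖x * (cfc f t - Polynomial.aeval t P)‖ ≤ ‖x‖ * ‖cfc f t - Polynomial.aeval t P‖ :=
          norm_mul_le _ _
      _ ≤ (|M| + 1) * (ε / (4 * (|M| + 1))) := by gcongr
      _ = ε / 4 := by field_simp
  have h3 : ‖Polynomial.aeval t P * x - x * Polynomial.aeval t P‖ ≤ ε / 2 := by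
    calc ‖Polynomial.aeval t P * x - x * Polynomial.aeval t P‖ ≤ C * ‖t * x - x * t‖ :=
          hC B t x ht
      _ ≤ (C + 1) * (ε / (2 * (C + 1))) := by
        gcongr
        linarith
      _ = ε / 2 := by field_simp
  calc _ ≤ ‖(cfc f t - Polynomial.aeval t P) * x - x * (cfc f t - Polynomial.aeval t P)‖ +
        ‖Polynomial.aeval t P * x - x * Polynomial.aeval t P‖ := norm_add_le _ _
    _ ≤ (ε / 4 + ε / 4) + ε / 2 := by
      gcongr
      exact (norm_sub_le _ _).trans (add_le_add h1 h2)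
    _ = ε := by ring

end com

section cpn

variable {A B : Type} [NonUnitalCStarAlgebra A] [NonUnitalCStarAlgebra B]

theorem cs {T : A →ₗ[ℂ] B} (h : IsCP T) (e a : A) :
    ‖T (star e * a)‖ ^ 2 ≤ ‖T (star e * e)‖ * ‖T (star a * a)‖ := by
  let _ := CStarAlgebra.spectralOrder B
  let _ := CStarAlgebra.spectralOrderedRing B
  obtain ⟨N, hN⟩ := h 2 !![e, a; 0, 0]
  have h00 : T (star e * e) = star (N 0 0) * N 0 0 + star (N 1 0) * N 1 0 := by
    have := congrFun (congrFun hN 0) 0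
    simpa [Matrix.mul_apply, Fin.sum_univ_two, Matrix.conjTranspose_apply] using this
  have h01 : T (star e * a) = star (N 0 0) * N 0 1 + star (N 1 0) * N 1 1 := by
    have := congrFun (congrFun hN 0) 1
    simpa [Matrix.mul_apply, Fin.sum_univ_two, Matrix.conjTranspose_apply] using this
  have h11 : T (star a * a) = star (N 0 1) * N 0 1 + star (N 1 1) * N 1 1 := by
    have := congrFun (congrFun hN 1) 1
    simpa [Matrix.mul_apply, Fin.sum_univ_two, Matrix.conjTranspose_apply] using this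
  set X : CStarMatrix (Fin 2) (Fin 2) B := CStarMatrix.ofMatrix !![N 0 0, 0; N 1 0, 0] with hX
  set Y : CStarMatrix (Fin 2) (Fin 2) B := CStarMatrix.ofMatrix !![N 0 1, 0; N 1 1, 0] with hY
  have hXX : star X * X = corner (T (star e * e)) := by
    rw [h00]
    ext i j
    fin_cases i <;> fin_cases j <;>
      simp [hX, corner, CStarMatrix.mul_apply, Fin.sum_univ_two, CStarMatrix.star_apply]
  have hXY : star X * Y = corner (T (star e * a)) := by
    rw [h01]
    ext i j
    fin_cases i <;> fin_cases j <;>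
      simp [hX, hY, corner, CStarMatrix.mul_apply, Fin.sum_univ_two, CStarMatrix.star_apply]
  have hYY : star Y * Y = corner (T (star a * a)) := by
    rw [h11]
    ext i j
    fin_cases i <;> fin_cases j <;>
      simp [hY, corner, CStarMatrix.mul_apply, Fin.sum_univ_two, CStarMatrix.star_apply]
  have h1 : ‖T (star e * a)‖ ≤ ‖star X * Y‖ := by
    rw [hXY]
    have := CStarMatrix.norm_entry_le_norm (M := (corner (T (star e * a)) :
      CStarMatrix (Fin 2) (Fin 2) B)) (i := 0) (j := 0)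
    exact this
  have h2 : ‖X‖ ^ 2 ≤ ‖T (star e * e)‖ := by
    rw [sq, ← CStarRing.norm_star_mul_self, hXX]
    exact NonUnitalStarAlgHom.norm_apply_le corner _
  have h3 : ‖Y‖ ^ 2 ≤ ‖T (star a * a)‖ := by
    rw [sq, ← CStarRing.norm_star_mul_self, hYY]
    exact NonUnitalStarAlgHom.norm_apply_le corner _
  calc ‖T (star e * a)‖ ^ 2 ≤ ‖star X * Y‖ ^ 2 := by gcongr
    _ ≤ (‖star X‖ * ‖Y‖) ^ 2 := by
      gcongr
      exact norm_mul_le _ _
    _ = ‖X‖ ^ 2 * ‖Y‖ ^ 2 := by rw [norm_star, mul_pow]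
    _ ≤ ‖T (star e * e)‖ * ‖T (star a * a)‖ := by gcongr

theorem pos_bound {T : A →ₗ[ℂ] B} {M : ℝ} (hM : ∀ x, Pos x → ‖x‖ ≤ 1 → ‖T x‖ ≤ M) (x : A)
    (hx : Pos x) : ‖T x‖ ≤ M * ‖x‖ := by
  rcases eq_or_ne x 0 with rfl | hx0
  · simp
  have hn : 0 < ‖x‖ := norm_pos_iff.2 hx0
  have h1 : Pos ((((‖x‖⁻¹ : ℝ)) : ℂ) • x) := by
    obtain ⟨b, rfl⟩ := hx
    refine ⟨((Real.sqrt ‖star b * b‖⁻¹ : ℝ) : ℂ) • b, ?_⟩
    rw [star_smul, smul_mul_smul_comm, Complex.star_def, Complex.conj_ofReal,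
      ← Complex.ofReal_mul, Real.mul_self_sqrt (by positivity)]
  have h2 : ‖(((‖x‖⁻¹ : ℝ)) : ℂ) • x‖ ≤ 1 := by
    rw [norm_smul, Complex.norm_real, Real.norm_eq_abs, abs_of_pos (by positivity),
      inv_mul_cancel₀ hn.ne']
  have h3 := hM _ h1 h2
  rw [map_smul, norm_smul, Complex.norm_real, Real.norm_eq_abs, abs_of_pos (by positivity)] at h3
  rw [inv_mul_le_iff₀ hn] at h3
  linarith

theorem t_CPN : StCPN := by
  intro A B _ _ T M hT hM x
  let _ := CStarAlgebra.spectralOrder A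
  let _ := CStarAlgebra.spectralOrderedRing A
  have hM0 : 0 ≤ M := by
    have := hM 0 ⟨0, by simp⟩ (by simp)
    simpa using this
  have hb : ∀ y, ‖T y‖ ≤ 4 * M * ‖y‖ := by
    intro y
    obtain ⟨z, hz0, hzn, hz⟩ := CStarAlgebra.exists_sum_four_nonneg y
    conv_lhs => rw [hz]
    simp only [map_sum, map_smul]
    refine (norm_sum_le _ _).trans ?_
    simp only [norm_smul, norm_pow, Complex.norm_I, one_pow, one_mul]
    calc ∑ i : Fin 4, ‖T (z i)‖ ≤ ∑ _i : Fin 4, M * ‖y‖ := by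
          refine Finset.sum_le_sum fun i _ => ?_
          refine (pos_bound hM (z i) ((nonneg_iff_star _).1 (hz0 i))).trans ?_
          gcongr
          exact hzn i
      _ = 4 * M * ‖y‖ := by simp [mul_assoc]
  have hTc : Continuous T := (T.mkContinuous (4 * M) hb).continuous
  have hl := CStarAlgebra.increasingApproximateUnit A
  have h1 : Filter.Tendsto (fun e => ‖T (e * x)‖) (CStarAlgebra.approximateUnit A)
      (nhds ‖T x‖) :=
    ((hTc.tendsto x).comp (hl.tendsto_mul_right x)).norm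
  refine le_of_tendsto h1 ?_
  filter_upwards [hl.eventually_star_eq, hl.eventually_norm] with e he1 he2
  have h2 := cs hT e x
  rw [he1] at h2
  have h3 : ‖T (e * e)‖ ≤ M := by
    have h4 : Pos (e * e) := ⟨e, by rw [he1]⟩
    refine (pos_bound hM _ h4).trans ?_
    calc M * ‖e * e‖ ≤ M * (‖e‖ * ‖e‖) := by gcongr; exact norm_mul_le _ _
      _ ≤ M * (1 * 1) := by gcongr
      _ = M := by ring
  have h5 : ‖T (star x * x)‖ ≤ M * ‖x‖ ^ 2 := by
    refine (pos_bound hM _ ⟨x, rfl⟩).trans ?_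
    rw [CStarRing.norm_star_mul_self, sq]
  have h6 : ‖T (e * x)‖ ^ 2 ≤ (M * ‖x‖) ^ 2 := by
    calc ‖T (e * x)‖ ^ 2 ≤ ‖T (e * e)‖ * ‖T (star x * x)‖ := h2
      _ ≤ M * (M * ‖x‖ ^ 2) := by gcongr
      _ = (M * ‖x‖) ^ 2 := by ring
  exact (sq_le_sq₀ (norm_nonneg _) (by positivity)).1 h6

end cpn

end Pool.Agent.Helper7_ND.J_COM
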