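import Pool.Agent.Helper7_ND.Stm2

set_option autoImplicit false

open scoped Matrix.Norms.L2Operator ENNReal Matrix
open Pool.Agent.W659.EC

noncomputable section

namespace Pool.Agent.Helper7_ND.J_COR

/-- projections are of the form `V Vᴴ` with `V` an isometry -/
theorem exists_isometry {n : Type} [Fintype n] [DecidableEq n] (P : Matrix n n ℂ)
    (h1 : Pᴴ = P) (h2 : P * P = P) :
    ∃ (m : Type) (_ : Fintype m) (_ : DecidableEq m) (V : Matrix n m ℂ),
      Vᴴ * V = 1 ∧ V * Vᴴ = P := by
  classical
  have hH : P.IsHermitian := h1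
  obtain ⟨U, lam, hUU, hUU', hsp⟩ : ∃ (U : Matrix n n ℂ) (lam : n → ℂ),
      Uᴴ * U = 1 ∧ U * Uᴴ = 1 ∧ P = U * Matrix.diagonal lam * Uᴴ := by
    refine ⟨(hH.eigenvectorUnitary : Matrix n n ℂ), fun j => ((hH.eigenvalues j : ℝ) : ℂ),
      (Matrix.mem_unitaryGroup_iff').1 hH.eigenvectorUnitary.2,
      (Matrix.mem_unitaryGroup_iff).1 hH.eigenvectorUnitary.2, ?_⟩
    have := hH.spectral_theorem
    rw [Unitary.conjStarAlgAut_apply] at this
    exact this
  have hdiag : Matrix.diagonal lam = Uᴴ * P * U := by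
    rw [hsp]
    calc Matrix.diagonal lam = (Uᴴ * U) * Matrix.diagonal lam * (Uᴴ * U) := by
          rw [hUU]; simp
      _ = _ := by simp only [Matrix.mul_assoc]
  have hdd : Matrix.diagonal lam * Matrix.diagonal lam = Matrix.diagonal lam := by
    calc Matrix.diagonal lam * Matrix.diagonal lam = Uᴴ * P * (U * Uᴴ) * P * U := by
          rw [hdiag]; simp only [Matrix.mul_assoc]
      _ = Uᴴ * (P * P) * U := by rw [hUU']; simp only [Matrix.mul_assoc, Matrix.one_mul]
      _ = _ := by rw [h2, hdiag]
  have hlam2 : ∀ j, lam j = 0 ∨ lam j = 1 := by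
    intro j
    have := congrFun (congrFun hdd j) j
    rw [Matrix.diagonal_mul_diagonal, Matrix.diagonal_apply_eq, Matrix.diagonal_apply_eq] at this
    rcases eq_or_ne (lam j) 0 with h | h
    · exact Or.inl h
    · right
      exact mul_left_cancel₀ h (by rw [this, mul_one])
  refine ⟨{j // lam j = 1}, inferInstance, inferInstance,
    U.submatrix id (Subtype.val : {j // lam j = 1} → n), ?_, ?_⟩
  · ext i j
    have : ((U.submatrix id (Subtype.val : {j // lam j = 1} → n))ᴴ *
        U.submatrix id (Subtype.val : {j // lam j = 1} → n)) i j = (Uᴴ * U) i.1 j.1 := by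
      simp [Matrix.mul_apply, Matrix.conjTranspose_apply]
    rw [this, hUU, Matrix.one_apply, Matrix.one_apply]
    simp only [Subtype.ext_iff]
  · ext i j
    have hR : (U * Matrix.diagonal lam * Uᴴ) i j
        = ∑ k, if lam k = 1 then U i k * star (U j k) else 0 := by
      rw [Matrix.mul_apply]
      refine Finset.sum_congr rfl fun k _ => ?_
      rw [Matrix.mul_diagonal, Matrix.conjTranspose_apply]
      rcases hlam2 k with h | h
      · rw [h]; simp
      · rw [h]; simp
    rw [hsp, hR, ← Finset.sum_filter, Finset.sum_subtype (p := fun k => lam k = 1) _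
      (by intro k; simp)]
    rfl

/-- the norm of the unit is at most `1` -/
theorem norm_one_le {A : Type} [CStarAlgebra A] : ‖(1 : A)‖ ≤ 1 := by
  have h : ‖(1 : A)‖ * ‖(1 : A)‖ = ‖(1 : A)‖ := by
    rw [← CStarRing.norm_star_mul_self, star_one, mul_one]
  rcases (norm_nonneg (1 : A)).eq_or_lt with h0 | h0
  · rw [← h0]; exact zero_le_one
  · exact (mul_right_cancel₀ h0.ne' (by rw [h, one_mul])).le

/-- the coordinate map as a star homomorphism -/
def ev (K : FDA) (l : K.ι) : K.alg →⋆ₙₐ[ℂ] Matrix (K.n l) (K.n l) ℂ where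
  toFun x := x l
  map_smul' _ _ := rfl
  map_zero' := rfl
  map_add' _ _ := rfl
  map_mul' _ _ := rfl
  map_star' _ := rfl

theorem t_COR : StCOR := by
  intro G Q hQ
  have hex : ∀ l : G.ι, ∃ (m : Type) (_ : Fintype m) (_ : DecidableEq m)
      (V : Matrix (G.n l) m ℂ), Vᴴ * V = 1 ∧ V * Vᴴ = Q l := fun l =>
    exists_isometry (Q l) (congrFun hQ.1 l) (congrFun hQ.2 l)
  choose m fm dm V hV1 hV2 using hex
  let K : FDA := @FDA.mk G.ι m G.fι fm dm
  let W : ∀ l : G.ι, Matrix (G.n l) (K.n l) ℂ := V
  have hW1 : ∀ l, (W l)ᴴ * W l = 1 := hV1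
  have hW2 : ∀ l, W l * (W l)ᴴ = Q l := hV2
  let δ : G.alg →ₗ[ℂ] K.alg :=
    { toFun := fun a l => (W l)ᴴ * a l * W l
      map_add' := fun a b => by
        funext l
        simp only [Pi.add_apply, Matrix.mul_add, Matrix.add_mul]
      map_smul' := fun c a => by
        funext l
        simp only [Pi.smul_apply, Matrix.mul_smul, Matrix.smul_mul, RingHom.id_apply] }
  let υ : K.alg →⋆ₙₐ[ℂ] G.alg :=
    { toFun := fun b l => W l * b l * (W l)ᴴ
      map_smul' := fun c a => by
        funext l
        simp only [Pi.smul_apply, Matrix.mul_smul, Matrix.smul_mul, MonoidHom.id_apply]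
      map_zero' := by
        funext l
        simp only [Pi.zero_apply, Matrix.mul_zero, Matrix.zero_mul]
      map_add' := fun a b => by
        funext l
        simp only [Pi.add_apply, Matrix.mul_add, Matrix.add_mul]
      map_mul' := fun a b => by
        funext l
        simp only [Pi.mul_apply]
        calc W l * (a l * b l) * (W l)ᴴ
            = W l * a l * (1 : Matrix (K.n l) (K.n l) ℂ) * b l * (W l)ᴴ := by
              rw [Matrix.mul_one]
              simp only [Matrix.mul_assoc]
          _ = W l * a l * ((W l)ᴴ * W l) * b l * (W l)ᴴ := by rw [hW1]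
          _ = _ := by simp only [Matrix.mul_assoc]
      map_star' := fun a => by
        funext l
        simp only [Pi.star_apply, Matrix.star_eq_conjTranspose, Matrix.conjTranspose_mul,
          Matrix.conjTranspose_conjTranspose, Matrix.mul_assoc] }
  refine ⟨K, δ, υ, ?_, ?_, ?_⟩
  · have hcp : IsCP δ := by
      refine isCP_of_family (ev K) (fun b hb => funext hb) δ fun l => ?_
      by_cases hne : Nonempty (K.n l)
      · have h1 := (isCP_compr ((W l)ᴴ)).comp
          (isCPC_hom (ev G l) (ev G l : G.alg →ₗ[ℂ] _) fun a => rfl).1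
        have h2 : (ev K l : K.alg →ₗ[ℂ] _) ∘ₗ δ =
            (compr ((W l)ᴴ)) ∘ₗ (ev G l : G.alg →ₗ[ℂ] _) := by
          ext a
          change _ = ((W l)ᴴ * a l * (W l)ᴴᴴ) _ _
          rw [Matrix.conjTranspose_conjTranspose]
          rfl
        rw [h2]
        exact h1
      · have he : IsEmpty (K.n l) := not_nonempty_iff.1 hne
        have h2 : (ev K l : K.alg →ₗ[ℂ] Matrix (K.n l) (K.n l) ℂ) ∘ₗ δ = 0 := by
          ext a i j
          exact he.elim i
        rw [h2]
        exact IsCP.zero
    refine hcp.isCPC ?_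
    have h1 : δ 1 = 1 := by
      funext l
      change (W l)ᴴ * (1 : Matrix (G.n l) (G.n l) ℂ) * W l = 1
      rw [Matrix.mul_one, hW1]
    rw [h1]
    exact norm_one_le
  · intro a
    funext l
    change W l * ((W l)ᴴ * a l * W l) * (W l)ᴴ = Q l * a l * Q l
    rw [← hW2]
    simp only [Matrix.mul_assoc]
  · funext l
    change W l * (1 : Matrix (K.n l) (K.n l) ℂ) * (W l)ᴴ = Q l
    rw [Matrix.mul_one, hW2]

end Pool.Agent.Helper7_ND.J_COR
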