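import Pool.Agent.Helper7_ND.Stm3

set_option autoImplicit false

open scoped Matrix.Norms.L2Operator ENNReal Matrix
open Pool.Agent.W659.EC

noncomputable section

namespace Pool.Agent.Helper7_ND.J_ETA

/-- the cut-off function -/
def gf (ε s : ℝ) : ℝ := max (s - ε) 0 / max s ε

theorem gf_cont {ε : ℝ} (hε : 0 < ε) : Continuous (gf ε) := by
  unfold gf
  refine Continuous.div (by fun_prop) (by fun_prop) fun s => ?_
  exact (lt_of_lt_of_le hε (le_max_right s ε)).ne'

theorem gf_zero {ε : ℝ} (hε : 0 < ε) : gf ε 0 = 0 := by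
  have : max (0 - ε) 0 = 0 := max_eq_right (by linarith)
  rw [gf, this, zero_div]

theorem gf_small {ε s : ℝ} (hs : s ≤ ε) : gf ε s = 0 := by
  have : max (s - ε) 0 = 0 := max_eq_right (by linarith)
  rw [gf, this, zero_div]

theorem gf_large {ε s : ℝ} (hs : ε ≤ s) : gf ε s = (s - ε) / s := by
  rw [gf, max_eq_left (by linarith), max_eq_left hs]

theorem gf_nonneg {ε : ℝ} (hε : 0 < ε) (s : ℝ) : 0 ≤ gf ε s := by
  rcases le_total s ε with h | h
  · rw [gf_small h]
  · rw [gf_large h]; exact div_nonneg (by linarith) (by linarith)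

theorem gf_le_one {ε : ℝ} (hε : 0 < ε) (s : ℝ) : gf ε s ≤ 1 := by
  rcases le_total s ε with h | h
  · rw [gf_small h]; exact zero_le_one
  · rw [gf_large h, div_le_one (by linarith)]; linarith

theorem gf_bound {ε : ℝ} (hε : 0 < ε) {s : ℝ} (hs : 0 ≤ s) :
    |s - gf ε s * s * gf ε s| ≤ 2 * ε := by
  rcases le_total s ε with h | h
  · rw [gf_small h]
    rw [zero_mul, zero_mul, sub_zero, abs_of_nonneg hs]; linarith
  · have hs0 : 0 < s := by linarith
    have h1 : s - gf ε s * s * gf ε s = (2 * ε * s - ε ^ 2) / s := by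
      rw [gf_large h]; field_simp; ring
    rw [h1, abs_of_nonneg (div_nonneg (by nlinarith) hs0.le), div_le_iff₀ hs0]
    nlinarith

section

variable {A : Type} [NonUnitalCStarAlgebra A]

theorem isCP_conj {B : Type} [NonUnitalCStarAlgebra B] {φ η : B →ₗ[ℂ] A} (hφ : IsCP φ) (m : A)
    (hm : star m = m) (hη : ∀ y, η y = m * φ y * m) : IsCP η := by
  intro k M
  obtain ⟨N, hN⟩ := hφ k M
  refine ⟨Matrix.of fun i j => N i j * m, ?_⟩
  ext i j
  have h1 : φ ((Mᴴ * M) i j) = (Nᴴ * N) i j := congrFun (congrFun hN i) j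
  rw [Matrix.map_apply, hη, h1, Matrix.mul_apply, Matrix.mul_apply, Finset.mul_sum,
    Finset.sum_mul]
  refine Finset.sum_congr rfl fun l _ => ?_
  simp only [Matrix.conjTranspose_apply, Matrix.of_apply, star_mul, hm, mul_assoc]

theorem isCP_conj' {B : Type} [NonUnitalCStarAlgebra B] {φ η : B →ₗ[ℂ] A} (hφ : IsCP φ) (v : A)
    (hv : star v = v) (hη : ∀ y, η y = φ y - v * φ y - φ y * v + v * φ y * v) : IsCP η := by
  intro k M
  obtain ⟨N, hN⟩ := hφ k M
  refine ⟨Matrix.of fun i j => N i j - N i j * v, ?_⟩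
  ext i j
  have h1 : φ ((Mᴴ * M) i j) = (Nᴴ * N) i j := congrFun (congrFun hN i) j
  rw [Matrix.map_apply, hη, h1, Matrix.mul_apply, Matrix.mul_apply, Finset.mul_sum,
    Finset.sum_mul, Finset.sum_mul, ← Finset.sum_sub_distrib, ← Finset.sum_sub_distrib,
    ← Finset.sum_add_distrib]
  refine Finset.sum_congr rfl fun l _ => ?_
  simp only [Matrix.conjTranspose_apply, Matrix.of_apply, star_sub, star_mul, hv, mul_sub,
    sub_mul, mul_assoc]
  abel

end

theorem t_ETA (hL1 : StL1) : StETA := by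
  intro A _ K φ ε hε hφ hoz
  let _ := CStarAlgebra.spectralOrder A
  let _ := CStarAlgebra.spectralOrderedRing A
  have hO : OZ φ := hL1 K A φ hφ.1 hoz
  set h : A := φ 1 with hh
  have h0 : 0 ≤ h := by simpa using hφ.1.nonneg (1 : K.alg)
  have hsa : IsSelfAdjoint h := IsSelfAdjoint.of_nonneg h0
  have hcomm : ∀ y, Commute h (φ y) := by
    intro y
    have h1 : φ y * φ 1 = φ 1 * φ (y * 1) := hO y 1
    rw [mul_one] at h1
    exact h1.symm
  have hq : ∀ x ∈ quasispectrum ℝ h, 0 ≤ x := quasispectrum_nonneg_of_nonneg h h0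
  have hgc := gf_cont hε
  have hg0 := gf_zero hε
  set m : A := cfcₙ (gf ε) h with hm
  have hms : star m = m := (cfcₙ_predicate (gf ε) h : IsSelfAdjoint _).star_eq
  have hmc : ∀ y, m * φ y = φ y * m := fun y => ((hcomm y).cfcₙ_real (gf ε)).eq
  have hm1 : ‖m‖ ≤ 1 := by
    refine norm_cfcₙ_le fun x _ => ?_
    rw [Real.norm_of_nonneg (gf_nonneg hε x)]
    exact gf_le_one hε x
  -- the map
  let η : K.alg →ₗ[ℂ] A := (LinearMap.mulLeft ℂ m) ∘ₗ (LinearMap.mulRight ℂ m) ∘ₗ φ
  have hη : ∀ y, η y = m * φ y * m := by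
    intro y
    change m * (φ y * m) = _
    rw [mul_assoc]
  have hηc : IsCPC η := by
    refine ⟨isCP_conj hφ.1 m hms hη, fun y => ?_⟩
    rw [hη]
    have h1 : ‖m * φ y * m‖ ≤ ‖m‖ * ‖φ y‖ * ‖m‖ :=
      (norm_mul_le _ _).trans (mul_le_mul_of_nonneg_right (norm_mul_le _ _) (norm_nonneg _))
    have h2 := hφ.2 y
    have h3 : ‖m‖ * ‖φ y‖ ≤ 1 * ‖y‖ :=
      mul_le_mul hm1 h2 (norm_nonneg _) zero_le_one
    have h4 : ‖m‖ * ‖φ y‖ * ‖m‖ ≤ (1 * ‖y‖) * 1 :=
      mul_le_mul h3 hm1 (norm_nonneg _) (by positivity)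
    linarith
  refine ⟨η, hηc, ?_, ?_, ?_⟩
  · intro a b hab
    have h1 := hoz a b hab
    rw [hη, hη]
    calc m * φ (star a * a) * m * (m * φ (star b * b) * m)
        = m * (φ (star a * a) * m) * (m * φ (star b * b)) * m := by simp only [mul_assoc]
      _ = m * (m * φ (star a * a)) * (φ (star b * b) * m) * m := by rw [hmc, hmc]
      _ = m * m * (φ (star a * a) * φ (star b * b)) * m * m := by simp only [mul_assoc]
      _ = 0 := by rw [h1, mul_zero, zero_mul, zero_mul]
  · -- the difference is completely positive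
    set vf : ℝ → ℝ := fun s => 1 - Real.sqrt (1 - gf ε s ^ 2) with hvf
    have hvc : Continuous vf := by
      rw [hvf]; fun_prop
    have hv0 : vf 0 = 0 := by
      rw [hvf]; simp [hg0]
    set v : A := cfcₙ vf h with hv
    have hvs : star v = v := (cfcₙ_predicate vf h : IsSelfAdjoint _).star_eq
    have hvcomm : ∀ y, v * φ y = φ y * v := fun y => ((hcomm y).cfcₙ_real vf).eq
    have hvm : m * m = v + v - v * v := by
      rw [hm, hv, ← cfcₙ_mul (gf ε) (gf ε) h hgc.continuousOn hg0 hgc.continuousOn hg0,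
        ← cfcₙ_mul vf vf h hvc.continuousOn hv0 hvc.continuousOn hv0,
        ← cfcₙ_add vf vf h hvc.continuousOn hv0 hvc.continuousOn hv0,
        ← cfcₙ_sub (fun x => vf x + vf x) (fun x => vf x * vf x) h
          (hvc.add hvc).continuousOn (by simp [hv0]) (hvc.mul hvc).continuousOn (by simp [hv0])]
      refine cfcₙ_congr fun s _ => ?_
      simp only [hvf]
      have h1 : 0 ≤ 1 - gf ε s ^ 2 := by
        have := gf_nonneg hε s
        have := gf_le_one hε s
        nlinarith
      have h2 := Real.mul_self_sqrt h1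
      nlinarith
    have hθ : IsCP (φ - η) := by
      refine isCP_conj' hφ.1 v hvs fun y => ?_
      rw [LinearMap.sub_apply, hη, hmc, mul_assoc, hvm, ← hvcomm, hvcomm y, mul_sub, mul_add,
        mul_assoc]
      abel
    have hθn : ‖(φ - η) 1‖ ≤ 2 * ε := by
      rw [LinearMap.sub_apply, hη, ← hh]
      have e1 : h - m * h * m = cfcₙ (fun s => s - gf ε s * s * gf ε s) h := by
        rw [cfcₙ_sub (fun s => s) (fun s => gf ε s * s * gf ε s) h (by fun_prop) rfl
          (by fun_prop) (by simp [hg0]), cfcₙ_id' ℝ h,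
          cfcₙ_mul (fun s => gf ε s * s) (gf ε) h (by fun_prop) (by simp [hg0])
            hgc.continuousOn hg0,
          cfcₙ_mul (gf ε) (fun s => s) h hgc.continuousOn hg0 (by fun_prop) rfl, cfcₙ_id' ℝ h]
      rw [e1]
      refine norm_cfcₙ_le fun x hx => ?_
      rw [Real.norm_eq_abs]
      exact gf_bound hε (hq x hx)
    intro y
    have h1 := hθ.norm_le y
    rw [LinearMap.sub_apply] at h1
    rw [norm_sub_rev]
    exact h1.trans (mul_le_mul_of_nonneg_right hθn (norm_nonneg _))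
  · intro y
    set g2 : ℝ → ℝ := fun s => min (s / ε) 1 / max s ε with hg2
    have hg2c : Continuous g2 := by
      rw [hg2]
      refine Continuous.div (by fun_prop) (by fun_prop) fun s => ?_
      exact (lt_of_lt_of_le hε (le_max_right s ε)).ne'
    have hg20 : g2 0 = 0 := by
      rw [hg2]; simp
    refine ⟨cfcₙ g2 h * φ y * m, ?_⟩
    rw [hη]
    have e1 : m = cfcₙ (fun s : ℝ => max (s - ε) 0) h * cfcₙ g2 h := by
      rw [hm, ← cfcₙ_mul (fun s : ℝ => max (s - ε) 0) g2 h (by fun_prop)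
        (max_eq_right (by linarith)) hg2c.continuousOn hg20]
      refine cfcₙ_congr fun s _ => ?_
      simp only [hg2]
      rcases le_total s ε with hs | hs
      · rw [gf_small hs, max_eq_right (by linarith : s - ε ≤ 0), zero_mul]
      · rw [gf_large hs, max_eq_left (by linarith : (0 : ℝ) ≤ s - ε), max_eq_left hs,
          min_eq_right ((one_le_div hε).2 hs), mul_one_div]
    rw [← mul_assoc, ← mul_assoc, ← e1]

end Pool.Agent.Helper7_ND.J_ETA
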