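import Pool.Agent.Helper7_ND.Stm2

/-
Project MP_30b5b4_an (owner helper7): dim_nuc(E) <= dim_nuc(I) + dim_nuc(D) for C*-algebra extensions.
SETUP: in /workdir/pool/outputs/live: git fetch -q; then copy from origin/main to /workdir/pool at the same paths:
Pool/Agent/Helper7_ND/Stm.lean, Pool/Agent/Helper7_ND/Stm2.lean, Pool/Agent/W659/EC/CP.lean, CP2.lean, Defs.lean; lake build Pool.Agent.Helper7_ND.Stm2.
All definitions (Pos, Prj, OZ, IsRow, IsRP, Polar, SpecU, CutA, ...) and the statement StFD are in Stm.lean. Useful lemmas on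
completely positive maps: W659/EC/CP.lean (IsCP.add/comp/sum/smul, isCP_hom, isCP_of_family, nonneg_iff_star, mpos_iff),
CP2.lean (IsCP.schwarz, IsCP.nonneg, IsCP.star_map, IsCP.norm_le, IsCP.isCPC, compr, isCP_compr).
For the order use `let _ := CStarAlgebra.spectralOrder A; let _ := CStarAlgebra.spectralOrderedRing A` (Pos a is then 0 <= a by
CStarAlgebra.nonneg_iff_eq_star_mul_self). The file will be landed, so keep to RULES.md (no banned words/characters), keep all
helper lemmas inside the namespace, do not change Stm.lean. If the statement is false or lacks a hypothesis say so in note.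
Full paper proof of the whole theorem: papers table, pid MP_30b5b4_an.

TARGET t_FD : StFD. For F : FDA: every y in F.alg is u * b with u unitary and b positive; spectra are finite.
PROOF. Finite spectrum: F.alg is a finite-dimensional algebra (Module.Finite), the spectrum of a is contained in the root set of
its minimal polynomial (or: blockwise, spectrum of a matrix = roots of the characteristic polynomial;
Matrix.finite_spectrum / spectrum.finite... may exist; Pi.spectrum_eq). Polar: blockwise (choose u l, b l; the star and product of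
F.alg are pointwise). One block, y : Matrix n n ℂ: (a) if y is invertible put b = CFC.sqrt (star y * y) (or CFC.abs y), b is
invertible, u = y * b⁻¹, star u * u = b⁻¹ (star y * y) b⁻¹ = 1, and u is invertible so u * star u = 1. (b) general y:
y_k = y + c_k • 1 is invertible for a sequence c_k -> 0 (finite spectrum), y_k = u_k b_k; the unitary matrices form a compact set,
pass to a subsequence u_k -> u; then b_k = star u_k * y_k -> star u * y =: b, and b is positive as a limit of positive elements
(the cone {0 <= a} is closed), y = u * b.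
-/
set_option autoImplicit false

open scoped Matrix.Norms.L2Operator ENNReal Matrix
open Pool.Agent.W659.EC

noncomputable section

namespace Pool.Agent.Helper7_ND.J_FD

/-- two matrices with the same `star y * y` differ by a unitary matrix -/
theorem exists_unitary {n : Type} [Fintype n] [DecidableEq n] (y b : Matrix n n ℂ)
    (h : star y * y = star b * b) :
    ∃ u : Matrix n n ℂ, star u * u = 1 ∧ u * star u = 1 ∧ y = u * b := by
  set Y := Matrix.toEuclideanLin y with hY
  set B := Matrix.toEuclideanLin b with hB
  have hmul : ∀ (a c : Matrix n n ℂ) (v : EuclideanSpace ℂ n),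
      Matrix.toEuclideanLin (a * c) v = Matrix.toEuclideanLin a (Matrix.toEuclideanLin c v) := by
    intro a c v
    simp [Matrix.toLpLin_apply, Matrix.mulVec_mulVec]
  have hin : ∀ (a : Matrix n n ℂ) (v w : EuclideanSpace ℂ n),
      inner ℂ (Matrix.toEuclideanLin a v) (Matrix.toEuclideanLin a w) =
        inner ℂ v (Matrix.toEuclideanLin (star a * a) w) := by
    intro a v w
    rw [hmul, Matrix.star_eq_conjTranspose, Matrix.toEuclideanLin_conjTranspose_eq_adjoint,
      LinearMap.adjoint_inner_right]
  have hnorm : ∀ v, ‖Y v‖ = ‖B v‖ := by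
    intro v
    have h1 : inner ℂ (Y v) (Y v) = inner ℂ (B v) (B v) := by
      rw [hY, hB, hin, hin, h]
    rw [inner_self_eq_norm_sq_to_K, inner_self_eq_norm_sq_to_K] at h1
    have h2 : ‖Y v‖ ^ 2 = ‖B v‖ ^ 2 := by exact_mod_cast h1
    exact (sq_eq_sq₀ (norm_nonneg _) (norm_nonneg _)).1 h2
  have hker : LinearMap.ker B ≤ LinearMap.ker Y := by
    intro v hv
    rw [LinearMap.mem_ker] at hv ⊢
    rw [← norm_eq_zero, hnorm, hv, norm_zero]
  let L0 : LinearMap.range B →ₗ[ℂ] EuclideanSpace ℂ n :=
    ((LinearMap.ker B).liftQ Y hker).comp B.quotKerEquivRange.symm.toLinearMap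
  have hL0 : ∀ v, L0 ⟨B v, LinearMap.mem_range_self B v⟩ = Y v := by
    intro v
    have h1 : B.quotKerEquivRange.symm ⟨B v, LinearMap.mem_range_self B v⟩ =
        Submodule.Quotient.mk v := by
      rw [LinearEquiv.symm_apply_eq]
      rfl
    show (LinearMap.ker B).liftQ Y hker (B.quotKerEquivRange.symm _) = _
    rw [h1]
    rfl
  let L : LinearMap.range B →ₗᵢ[ℂ] EuclideanSpace ℂ n := ⟨L0, by
    rintro ⟨_, v, rfl⟩
    rw [hL0 v, hnorm]
    rfl⟩
  let U := L.extend
  have hUB : ∀ v, U (B v) = Y v := by
    intro v
    have h1 := L.extend_apply ⟨B v, LinearMap.mem_range_self B v⟩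
    rw [← hL0 v]
    exact h1
  let u : Matrix n n ℂ := Matrix.toEuclideanLin.symm U.toLinearMap
  have hu : Matrix.toEuclideanLin u = U.toLinearMap := LinearEquiv.apply_symm_apply _ _
  have hy : y = u * b := by
    apply Matrix.toEuclideanLin.injective
    apply LinearMap.ext
    intro v
    rw [hmul, hu]
    exact (hUB v).symm
  have huu : star u * u = 1 := by
    apply Matrix.toEuclideanLin.injective
    apply LinearMap.ext
    intro w
    apply ext_inner_left ℂ
    intro v
    rw [← hin, hu]
    have h1 : inner ℂ (U.toLinearMap v) (U.toLinearMap w) = inner ℂ v w := U.inner_map_map v w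
    rw [h1]
    congr 1
    simp
  exact ⟨u, huu, mul_eq_one_comm.1 huu, hy⟩

/-- polar decomposition of a matrix -/
theorem polar_block {n : Type} [Fintype n] [DecidableEq n] (y : Matrix n n ℂ) :
    ∃ u b c : Matrix n n ℂ, star u * u = 1 ∧ u * star u = 1 ∧ b = star c * c ∧ y = u * b := by
  let _ := CStarAlgebra.spectralOrder (Matrix n n ℂ)
  let _ := CStarAlgebra.spectralOrderedRing (Matrix n n ℂ)
  have h0 : 0 ≤ star y * y := star_mul_self_nonneg y
  have h1 : 0 ≤ CFC.sqrt (star y * y) := CFC.sqrt_nonneg _
  have h2 : CFC.sqrt (star y * y) * CFC.sqrt (star y * y) = star y * y :=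
    CFC.sqrt_mul_sqrt_self _ h0
  have h3 : star (CFC.sqrt (star y * y)) = CFC.sqrt (star y * y) :=
    (IsSelfAdjoint.of_nonneg h1).star_eq
  obtain ⟨c, hc⟩ := CStarAlgebra.nonneg_iff_eq_star_mul_self.1 h1
  obtain ⟨u, hu1, hu2, hy⟩ := exists_unitary y (CFC.sqrt (star y * y)) (by rw [h3, h2])
  exact ⟨u, _, c, hu1, hu2, hc, hy⟩

theorem t_FD : StFD := by
  intro F
  refine ⟨?_, ?_⟩
  · intro y
    choose u b c h1 h2 h3 h4 using fun i => polar_block (y i)
    exact ⟨u, b, funext h1, funext h2, ⟨c, funext h3⟩, funext h4⟩
  · intro a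
    rw [Pi.spectrum_eq]
    exact Set.finite_iUnion fun i => Matrix.finite_spectrum (a i)

end Pool.Agent.Helper7_ND.J_FD
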