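import Pool.Agent.Helper7_ND.Stm2

set_option autoImplicit false

open scoped Matrix.Norms.L2Operator ENNReal Matrix
open Pool.Agent.W659.EC

noncomputable section

namespace Pool.Agent.Helper7_ND.J_FP

/-! ### matrix units -/

theorem mu_apply (F : FDA) (l : F.ι) (i j : F.n l) : mu F l i j l = Matrix.single i j (1 : ℂ) := by
  classical
  unfold mu
  simp

theorem mu_apply_ne (F : FDA) (l : F.ι) (i j : F.n l) (l' : F.ι) (h : l' ≠ l) :
    mu F l i j l' = 0 := by
  classical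
  unfold mu
  simp [h]

theorem mu_mul_same (F : FDA) (l : F.ι) (i j k : F.n l) :
    mu F l i j * mu F l j k = mu F l i k := by
  classical
  funext l'
  rw [Pi.mul_apply]
  by_cases h : l' = l
  · subst h
    rw [mu_apply, mu_apply, mu_apply]
    simp
  · rw [mu_apply_ne F l _ _ l' h, mu_apply_ne F l _ _ l' h, mu_apply_ne F l _ _ l' h, zero_mul]

theorem mu_mul_ne (F : FDA) (l : F.ι) (i j j' k : F.n l) (hj : j ≠ j') :
    mu F l i j * mu F l j' k = 0 := by
  classical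
  funext l'
  rw [Pi.mul_apply]
  by_cases h : l' = l
  · subst h
    rw [mu_apply, mu_apply]
    simp [hj]
  · rw [mu_apply_ne F l _ _ l' h, mu_apply_ne F l _ _ l' h, zero_mul, Pi.zero_apply]

theorem mu_mul_ne' (F : FDA) (l l' : F.ι) (i j : F.n l) (i' j' : F.n l') (hl : l ≠ l') :
    mu F l i j * mu F l' i' j' = 0 := by
  classical
  funext m
  rw [Pi.mul_apply, Pi.zero_apply]
  by_cases h : m = l
  · subst h
    rw [mu_apply_ne F l' _ _ m hl, mul_zero]
  · rw [mu_apply_ne F l _ _ m h, zero_mul]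

theorem star_mu (F : FDA) (l : F.ι) (i j : F.n l) : star (mu F l i j) = mu F l j i := by
  classical
  funext m
  rw [Pi.star_apply]
  by_cases h : m = l
  · subst h
    rw [mu_apply, mu_apply, Matrix.star_eq_conjTranspose]
    simp
  · rw [mu_apply_ne F l _ _ m h, mu_apply_ne F l _ _ m h, star_zero]

theorem eq_sum_mu (F : FDA) (y : F.alg) : y = ∑ l, ∑ i, ∑ j, y l i j • mu F l i j := by
  classical
  funext m
  rw [Finset.sum_apply]
  rw [Finset.sum_eq_single m]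
  · rw [Finset.sum_apply]
    simp only [Finset.sum_apply, Pi.smul_apply, mu_apply]
    conv_lhs => rw [Matrix.matrix_eq_sum_single (y m)]
    simp
  · intro l _ hl
    simp only [Finset.sum_apply, Pi.smul_apply, mu_apply_ne F l _ _ m (Ne.symm hl), smul_zero,
      Finset.sum_const_zero]
  · intro h
    exact absurd (Finset.mem_univ m) h

theorem one_eq_sum_mu (F : FDA) : (1 : F.alg) = ∑ l, ∑ i, mu F l i i := by
  classical
  conv_lhs => rw [eq_sum_mu F 1]
  refine Finset.sum_congr rfl fun l _ => Finset.sum_congr rfl fun i _ => ?_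
  rw [Finset.sum_eq_single i]
  · simp
  · intro j _ hj
    simp [Matrix.one_apply_ne (Ne.symm hj)]
  · intro h
    exact absurd (Finset.mem_univ i) h

theorem norm_entry_le' {n : Type} [Fintype n] [DecidableEq n] (A : Matrix n n ℂ) (i j : n) :
    ‖A i j‖ ≤ ‖A‖ := by
  have h := A.l2_opNorm_mulVec (EuclideanSpace.single j (1 : ℂ))
  rw [PiLp.norm_single, norm_one, mul_one] at h
  refine le_trans ?_ h
  have := PiLp.norm_apply_le
    ((EuclideanSpace.equiv n ℂ).symm <| A *ᵥ (EuclideanSpace.single j (1 : ℂ))) i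
  simpa using this

theorem norm_entry_le (F : FDA) (y : F.alg) (l : F.ι) (i j : F.n l) : ‖y l i j‖ ≤ ‖y‖ :=
  (norm_entry_le' (y l) i j).trans (norm_le_pi_norm y l)

/-! ### bounded sequences -/

section lpe

variable (X : ℕ → Type) [∀ n, CStarAlgebra (X n)] [∀ n, Nontrivial (X n)]

/-- evaluation -/
def ev (n : ℕ) : lp X ∞ →⋆ₐ[ℂ] X n where
  toFun x := x n
  map_one' := by rw [lp.infty_coeFn_one]; rfl
  map_mul' x y := by rw [lp.infty_coeFn_mul]; rfl
  map_zero' := rfl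
  map_add' x y := rfl
  commutes' c := by
    rw [Algebra.algebraMap_eq_smul_one, Algebra.algebraMap_eq_smul_one]
    change (c • (1 : lp X ∞)) n = c • (1 : X n)
    rw [lp.coeFn_smul, Pi.smul_apply, lp.infty_coeFn_one]
    rfl
  map_star' x := rfl

theorem ev_apply (n : ℕ) (x : lp X ∞) : ev X n x = x n := rfl

end lpe


/-! ### the functions -/

section fns

variable {e : ℝ} (he : 0 < e)

/-- the function `f` -/
def ff (e s : ℝ) : ℝ := max (s - e) 0 / (max s e * Real.sqrt (max s e))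

/-- the function `χ₁` -/
def ch1 (e s : ℝ) : ℝ := (max s e)⁻¹

/-- the function `f₁` -/
def ff1 (e s : ℝ) : ℝ := ff e s * ch1 e s

/-- the function `χ` -/
def ch (e s : ℝ) : ℝ := s * ch1 e s

include he

theorem max_pos' (s : ℝ) : 0 < max s e := lt_max_of_lt_right he

theorem cont_ch1 : Continuous (ch1 e) :=
  Continuous.inv₀ (by fun_prop) fun s => (max_pos' he s).ne'

theorem cont_ch : Continuous (ch e) := continuous_id.mul (cont_ch1 he)

theorem cont_ff : Continuous (ff e) := by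
  unfold ff
  refine Continuous.div (by fun_prop) (by fun_prop) fun s => ?_
  have h1 := max_pos' he s
  have h2 := Real.sqrt_pos.mpr h1
  positivity

theorem cont_ff1 : Continuous (ff1 e) := (cont_ff he).mul (cont_ch1 he)

theorem ff_zero : ff e 0 = 0 := by
  unfold ff
  rw [max_eq_right (by linarith : (0 : ℝ) - e ≤ 0), zero_div]

theorem ff_eq (s : ℝ) : ff e s = s * ff1 e s := by
  unfold ff1 ch1
  rcases le_total s e with h | h
  · have : ff e s = 0 := by
      unfold ff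
      rw [max_eq_right (by linarith : s - e ≤ 0), zero_div]
    rw [this]; ring
  · rw [max_eq_left h]
    have hs : s ≠ 0 := by linarith
    field_simp

theorem cut_ch (s : ℝ) : max (s - e) 0 * ch e s = max (s - e) 0 := by
  unfold ch ch1
  rcases le_total s e with h | h
  · rw [max_eq_right (by linarith : s - e ≤ 0), zero_mul]
  · rw [max_eq_left h]
    have hs : s ≠ 0 := by linarith
    rw [mul_inv_cancel₀ hs, mul_one]

theorem gg_bound (s : ℝ) (hs : 0 ≤ s) :
    ‖(1 - ff e s * s * ff e s) * s * (1 - ff e s * s * ff e s)‖ ≤ 4 * e := by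
  rcases le_total s e with h | h
  · have : ff e s = 0 := by
      unfold ff
      rw [max_eq_right (by linarith : s - e ≤ 0), zero_div]
    rw [this, Real.norm_of_nonneg (by nlinarith)]
    nlinarith
  · have hs' : 0 < s := lt_of_lt_of_le he h
    have h1 : ff e s * s * ff e s = (1 - e / s) ^ 2 := by
      unfold ff
      rw [max_eq_left h, max_eq_left (by linarith : 0 ≤ s - e)]
      have h2 := Real.sqrt_pos.mpr hs'
      have h3 := Real.mul_self_sqrt hs
      field_simp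
      rw [Real.sq_sqrt hs]
      ring
    set r := e / s with hr
    have hr0 : 0 < r := div_pos he hs'
    have hr1 : r ≤ 1 := (div_le_one hs').mpr h
    have hrs : r * s = e := by rw [hr]; field_simp
    rw [h1]
    have h4 : (1 - (1 - r) ^ 2) * s * (1 - (1 - r) ^ 2) = (r * s) * (r * (2 - r) ^ 2) := by ring
    rw [h4, hrs, Real.norm_of_nonneg (by positivity)]
    have h5 : r * (2 - r) ^ 2 ≤ 4 := by nlinarith [mul_nonneg hr0.le (sub_nonneg.mpr hr1)]
    nlinarith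

end fns

/-! ### computations in the reduced product -/

/-- the base index -/
def oo (F : FDA) (l : F.ι) (i : F.n l) : F.n l := Classical.choice ⟨i⟩

theorem oo_eq (F : FDA) (l : F.ι) (i j : F.n l) : oo F l i = oo F l j := rfl

section Qs

variable {Q : Type} [CStarAlgebra Q] (F : FDA) (H : Q) (p : ∀ l, F.n l → F.n l → Q)

/-- the hypotheses on the limit -/
structure Lim : Prop where
  pos : Pos H
  same : ∀ l i j k, p l i j * p l j k = H * p l i k
  ne : ∀ l i j j' k, j ≠ j' → p l i j * p l j' k = 0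
  ne' : ∀ l l' i j i' j', l ≠ l' → p l i j * p l' i' j' = 0
  st : ∀ l i j, star (p l i j) = p l j i
  cm : ∀ l i j, Commute H (p l i j)

variable {F H p} (L : Lim F H p) {e : ℝ} (he : 0 < e)

include L

theorem Lim.sa : IsSelfAdjoint H := by
  obtain ⟨c, hc⟩ := L.pos
  rw [hc]
  exact IsSelfAdjoint.star_mul_self c

theorem Lim.spec (s : ℝ) (hs : s ∈ spectrum ℝ H) : 0 ≤ s := by
  let _ := CStarAlgebra.spectralOrder Q
  let _ := CStarAlgebra.spectralOrderedRing Q
  obtain ⟨c, hc⟩ := L.pos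
  have h0 : 0 ≤ H := by rw [hc]; exact star_mul_self_nonneg c
  exact spectrum_nonneg_of_nonneg h0 hs

theorem Lim.commute (f : ℝ → ℝ) (l : F.ι) (i j : F.n l) : Commute (cfc f H) (p l i j) :=
  (L.cm l i j).cfc_real f

/-- the row -/
def xx (F : FDA) (H : Q) (p : ∀ l, F.n l → F.n l → Q) (e : ℝ) (l : F.ι) (i : F.n l) : Q :=
  cfc (ff e) H * p l i (oo F l i)

theorem Lim.star_xx (l : F.ι) (i : F.n l) :
    star (xx F H p e l i) = p l (oo F l i) i * cfc (ff e) H := by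
  unfold xx
  rw [star_mul, L.st, IsSelfAdjoint.star_eq (cfc_predicate (ff e) H)]

theorem Lim.xx_ne (l : F.ι) (i j : F.n l) (h : i ≠ j) :
    star (xx F H p e l i) * xx F H p e l j = 0 := by
  rw [L.star_xx]
  unfold xx
  rw [mul_assoc, ← mul_assoc (cfc (ff e) H) (cfc (ff e) H), ← mul_assoc,
    ← ((L.commute (ff e) l (oo F l i) i).mul_left (L.commute (ff e) l (oo F l i) i)).eq, mul_assoc,
    L.ne _ _ _ _ _ h, mul_zero]

theorem Lim.xx_ne' (l l' : F.ι) (i : F.n l) (j : F.n l') (h : l ≠ l') :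
    star (xx F H p e l i) * xx F H p e l' j = 0 := by
  rw [L.star_xx]
  unfold xx
  rw [mul_assoc, ← mul_assoc (cfc (ff e) H) (cfc (ff e) H), ← mul_assoc,
    ← ((L.commute (ff e) l (oo F l i) i).mul_left (L.commute (ff e) l (oo F l i) i)).eq, mul_assoc,
    L.ne' _ _ _ _ _ _ h, mul_zero]

theorem Lim.xx_self (l : F.ι) (i : F.n l) :
    star (xx F H p e l i) * xx F H p e l i =
      cfc (ff e) H * cfc (ff e) H * (H * p l (oo F l i) (oo F l i)) := by
  rw [L.star_xx]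
  unfold xx
  rw [mul_assoc, ← mul_assoc (cfc (ff e) H) (cfc (ff e) H), ← mul_assoc,
    ← ((L.commute (ff e) l (oo F l i) i).mul_left (L.commute (ff e) l (oo F l i) i)).eq, mul_assoc,
    L.same]

theorem Lim.xx_row (l : F.ι) (i j : F.n l) :
    xx F H p e l i * star (xx F H p e l j) =
      (cfc (ff e) H * H * cfc (ff e) H) * p l i j := by
  rw [L.star_xx]
  unfold xx
  rw [oo_eq F l j i]
  have h1 : cfc (ff e) H * p l i (oo F l i) * (p l (oo F l i) j * cfc (ff e) H) =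
      cfc (ff e) H * (p l i (oo F l i) * p l (oo F l i) j) * cfc (ff e) H := by
    simp only [mul_assoc]
  rw [h1, L.same, mul_assoc, mul_assoc, ← (L.commute (ff e) l i j).eq]
  simp only [mul_assoc]

include he in
theorem Lim.xx_bound (l : F.ι) (i j : F.n l) :
    ‖xx F H p e l i * star (xx F H p e l j) - p l i j‖ ^ 2 ≤ 4 * e * ‖p l i i‖ := by
  have hsa : IsSelfAdjoint H := L.sa
  have hc := cont_ff he
  set D := cfc (fun s => 1 - ff e s * s * ff e s) H with hD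
  have h1 : cfc (ff e) H * H * cfc (ff e) H = 1 - D := by
    rw [hD, cfc_sub (fun _ => (1 : ℝ)) (fun s => ff e s * s * ff e s) H, cfc_mul (fun s => ff e s * s) (ff e) H,
      cfc_mul (ff e) (fun s => s) H, cfc_id' ℝ H, cfc_const_one ℝ H, sub_sub_cancel]
  have hDs : star D = D := IsSelfAdjoint.star_eq (cfc_predicate _ H)
  have h2 : xx F H p e l i * star (xx F H p e l j) - p l i j = -(D * p l i j) := by
    rw [L.xx_row, h1, sub_mul, one_mul]; abel
  rw [h2, norm_neg, sq, ← CStarRing.norm_self_mul_star, star_mul, L.st, hDs]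
  have h3 : D * p l i j * (p l j i * D) = (D * H * D) * p l i i := by
    have h4 : D * p l i j * (p l j i * D) = D * (p l i j * p l j i) * D := by
      simp only [mul_assoc]
    have hDc : Commute D (p l i i) := L.commute _ l i i
    rw [h4, L.same, mul_assoc, mul_assoc, ← hDc.eq]
    simp only [mul_assoc]
  have h5 : D * H * D = cfc (fun s => (1 - ff e s * s * ff e s) * s * (1 - ff e s * s * ff e s)) H := by
    rw [cfc_mul (fun s => (1 - ff e s * s * ff e s) * s) (fun s => 1 - ff e s * s * ff e s) H,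
      cfc_mul (fun s => (1 - ff e s * s * ff e s)) (fun s => s) H, cfc_id' ℝ H]
  rw [h3]
  refine (norm_mul_le _ _).trans (mul_le_mul_of_nonneg_right ?_ (norm_nonneg _))
  rw [h5]
  exact norm_cfc_le (by positivity) fun s hs => gg_bound he s (L.spec s hs)

end Qs


/-! ### the limit argument -/

/-- the functional calculus of a unital algebra -/
def cR {L : Type} [CStarAlgebra L] (f : ℝ → ℝ) (x : L) : L := cfc f x

open scoped CStarAlgebra in
theorem cR_map {L Y : Type} [CStarAlgebra L] [CStarAlgebra Y] (φ : L →⋆ₐ[ℂ] Y) (f : ℝ → ℝ)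
    (hf : Continuous f) (x : L) (hx : IsSelfAdjoint x) : φ (cR f x) = cR f (φ x) := by
  unfold cR
  exact φ.map_cfc f x hf.continuousOn (map_continuous φ) hx (hx.map φ)

section core

open Filter Topology

variable {E : ℕ → Type} [∀ n, NonUnitalCStarAlgebra (E n)] {X : ℕ → Type}
  [∀ n, CStarAlgebra (X n)] [∀ n, Nontrivial (X n)]

/-- isometric embeddings compatible with the functional calculus -/
structure Emb (j : ∀ n, E n →⋆ₙₐ[ℂ] X n) : Prop where
  nrm : ∀ n a, ‖j n a‖ = ‖a‖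
  fc : ∀ n (a : E n) (f : ℝ → ℝ), f 0 = 0 → j n (cfcₙ f a) = cfc f (j n a)

variable {j : ∀ n, E n →⋆ₙₐ[ℂ] X n} (hj : Emb j)

/-- bounded sequences in the algebras `E n` as elements of the product -/
def el (hj : Emb j) (a : ∀ n, E n) (M : ℝ) (h : ∀ n, ‖a n‖ ≤ M) : lp X ∞ :=
  ⟨fun n => j n (a n), memℓp_infty ⟨M, by
    rintro _ ⟨n, rfl⟩
    change ‖j n (a n)‖ ≤ M
    rw [hj.nrm]
    exact h n⟩⟩

theorem el_apply (a : ∀ n, E n) (M : ℝ) (h : ∀ n, ‖a n‖ ≤ M) (n : ℕ) :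
    (el hj a M h : ∀ n, X n) n = j n (a n) := rfl

/-- the limit map on the level of the product -/
def RR (hj : Emb j) (F : FDA) (ρ : ∀ n, F.alg →ₗ[ℂ] E n) (hρ : ∀ n y, ‖ρ n y‖ ≤ 3 * ‖y‖) :
    F.alg →ₗ[ℂ] lp X ∞ where
  toFun y := el hj (fun n => ρ n y) (3 * ‖y‖) (fun n => hρ n y)
  map_add' x y := by
    apply lp.ext
    funext n
    rw [lp.coeFn_add, Pi.add_apply, el_apply, el_apply, el_apply, map_add, map_add]
  map_smul' c y := by
    apply lp.ext
    funext n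
    rw [lp.coeFn_smul, Pi.smul_apply, el_apply, el_apply, map_smul, map_smul]
    rfl

theorem RR_apply (F : FDA) (ρ : ∀ n, F.alg →ₗ[ℂ] E n) (hρ : ∀ n y, ‖ρ n y‖ ≤ 3 * ‖y‖)
    (y : F.alg) (n : ℕ) :
    (RR hj F ρ hρ y : ∀ n, X n) n = j n (ρ n y) := rfl

theorem q_zero {Q : Type} [CStarAlgebra Q] {q : lp X ∞ →⋆ₐ[ℂ] Q}
    (hq : IsRP X atTop Q q) (x : lp X ∞)
    (h : Tendsto (fun n => ‖x n‖) atTop (𝓝 0)) : q x = 0 := by
  rw [← norm_le_zero_iff]
  refine le_of_forall_pos_le_add fun c hc => ?_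
  rw [zero_add]
  refine hq.le x c hc.le ?_
  filter_upwards [h.eventually (gt_mem_nhds hc)] with n hn using hn.le

theorem cp_pos {A : Type} [NonUnitalCStarAlgebra A] {F : FDA} {φ : F.alg →ₗ[ℂ] A} (h : IsCP φ) :
    Pos (φ 1) := by
  let _ := CStarAlgebra.spectralOrder A
  let _ := CStarAlgebra.spectralOrderedRing A
  have h0 : (0 : A) ≤ φ 1 := by simpa using h.nonneg (1 : F.alg)
  exact (nonneg_iff_star _).1 h0

theorem limit_props (F : FDA) (ρ : ∀ n, F.alg →ₗ[ℂ] E n) (hρ : ∀ n y, ‖ρ n y‖ ≤ 3 * ‖y‖)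
    (hcp : ∀ n, IsCP (ρ n)) (h1 : ∀ n, ‖ρ n 1‖ ≤ 3)
    (hoz : ∀ l i k l' i' k', Tendsto (fun n => ‖ρ n (mu F l i k) * ρ n (mu F l' i' k')
        - ρ n 1 * ρ n (mu F l i k * mu F l' i' k')‖) atTop (𝓝 0))
    {Q : Type} [CStarAlgebra Q] {q : lp X ∞ →⋆ₐ[ℂ] Q} (hq : IsRP X atTop Q q) :
    Lim F (q (RR hj F ρ hρ 1)) (fun l i k => q (RR hj F ρ hρ (mu F l i k))) := by
  have hOZ : ∀ l i k l' i' k', q (RR hj F ρ hρ (mu F l i k)) * q (RR hj F ρ hρ (mu F l' i' k')) =
      q (RR hj F ρ hρ 1) * q (RR hj F ρ hρ (mu F l i k * mu F l' i' k')) := by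
    intro l i k l' i' k'
    rw [← sub_eq_zero, ← map_mul q, ← map_mul q, ← map_sub q]
    apply q_zero hq
    refine (hoz l i k l' i' k').congr fun n => ?_
    rw [lp.coeFn_sub, Pi.sub_apply, lp.infty_coeFn_mul, lp.infty_coeFn_mul, Pi.mul_apply,
      Pi.mul_apply, RR_apply, RR_apply, RR_apply, RR_apply, ← map_mul (j n), ← map_mul (j n),
      ← map_sub (j n), hj.nrm]
  have hst : ∀ y, q (RR hj F ρ hρ (star y)) = star (q (RR hj F ρ hρ y)) := by
    intro y
    rw [← map_star]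
    congr 1
    apply lp.ext
    funext n
    rw [lp.coeFn_star, Pi.star_apply, RR_apply, RR_apply, (hcp n).star_map, map_star]
  refine ⟨?_, ?_, ?_, ?_, ?_, ?_⟩
  · choose c hc using fun n => cp_pos (hcp n)
    have hcn : ∀ n, ‖c n‖ ≤ 2 := by
      intro n
      have h2 : ‖c n‖ * ‖c n‖ ≤ 3 := by
        rw [← CStarRing.norm_star_mul_self, ← hc n]
        exact h1 n
      nlinarith [norm_nonneg (c n)]
    refine ⟨q (el hj c 2 hcn), ?_⟩
    rw [← map_star, ← map_mul]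
    congr 1
    apply lp.ext
    funext n
    rw [lp.infty_coeFn_mul, Pi.mul_apply, lp.coeFn_star, Pi.star_apply, RR_apply, el_apply, hc n,
      map_mul, map_star]
  · intro l i k m
    rw [hOZ, mu_mul_same]
  · intro l i k k' m hk
    rw [hOZ, mu_mul_ne F l i k k' m hk, map_zero, map_zero, mul_zero]
  · intro l l' i k i' k' hl
    rw [hOZ, mu_mul_ne' F l l' i k i' k' hl, map_zero, map_zero, mul_zero]
  · intro l i k
    rw [← hst, star_mu]
  · intro l i k
    change q (RR hj F ρ hρ 1) * q (RR hj F ρ hρ (mu F l i k)) =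
      q (RR hj F ρ hρ (mu F l i k)) * q (RR hj F ρ hρ 1)
    symm
    have e1 : q (RR hj F ρ hρ (mu F l i k)) * q (RR hj F ρ hρ 1) =
        ∑ l', ∑ i', q (RR hj F ρ hρ (mu F l i k)) * q (RR hj F ρ hρ (mu F l' i' i')) := by
      conv_lhs => rw [one_eq_sum_mu F]
      simp only [map_sum, Finset.mul_sum]
    have e2 : mu F l i k = ∑ l', ∑ i', mu F l i k * mu F l' i' i' := by
      conv_lhs => rw [← mul_one (mu F l i k), one_eq_sum_mu F]
      simp only [Finset.mul_sum]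
    have e3 : q (RR hj F ρ hρ 1) * q (RR hj F ρ hρ (mu F l i k)) =
        ∑ l', ∑ i', q (RR hj F ρ hρ 1) * q (RR hj F ρ hρ (mu F l i k * mu F l' i' i')) := by
      conv_lhs => rw [e2]
      simp only [map_sum, Finset.mul_sum]
    rw [e1, e3]
    exact Finset.sum_congr rfl fun l' _ => Finset.sum_congr rfl fun i' _ => hOZ l i k l' i' i'

/-- the almost row -/
def YY (F : FDA) (ρ : ∀ n, F.alg →ₗ[ℂ] E n) (b : ∀ n, E n) (e ε : ℝ) (n : ℕ) (l : F.ι)
    (i : F.n l) : E n :=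
  cfcₙ (ff e) (ρ n 1) * ρ n (mu F l i (oo F l i))
    - cfcₙ (ch ε) (b n) * (cfcₙ (ff e) (ρ n 1) * ρ n (mu F l i (oo F l i)))

/-- the almost row in the product -/
def YL (hj : Emb j) (F : FDA) (ρ : ∀ n, F.alg →ₗ[ℂ] E n) (hρ : ∀ n y, ‖ρ n y‖ ≤ 3 * ‖y‖)
    (B : lp X ∞) (e ε : ℝ) (l : F.ι) (i : F.n l) : lp X ∞ :=
  cR (ff e) (RR hj F ρ hρ 1) * RR hj F ρ hρ (mu F l i (oo F l i))
    - cR (ch ε) B * (cR (ff e) (RR hj F ρ hρ 1) * RR hj F ρ hρ (mu F l i (oo F l i)))

include hj in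
theorem cfc_coord (x : lp X ∞) (hx : IsSelfAdjoint x) (a : ∀ n, E n)
    (hxa : ∀ n, x n = j n (a n)) (f : ℝ → ℝ) (hf : Continuous f)
    (hf0 : f 0 = 0) (n : ℕ) :
    (cR f x : lp X ∞) n = j n (cfcₙ f (a n)) := by
  rw [hj.fc n (a n) f hf0, ← hxa n]
  exact cR_map (ev X n) f hf x hx

theorem RR_sa (F : FDA) (ρ : ∀ n, F.alg →ₗ[ℂ] E n) (hρ : ∀ n y, ‖ρ n y‖ ≤ 3 * ‖y‖)
    (hcp : ∀ n, IsCP (ρ n)) : IsSelfAdjoint (RR hj F ρ hρ 1) := by
  rw [isSelfAdjoint_iff]
  apply lp.ext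
  funext n
  rw [lp.coeFn_star, Pi.star_apply, RR_apply, ← map_star, ← (hcp n).star_map, star_one]

theorem el_sa (b : ∀ n, E n) (M : ℝ) (hb1 : ∀ n, ‖b n‖ ≤ M) (hbs : ∀ n, star (b n) = b n) :
    IsSelfAdjoint (el hj b M hb1) := by
  rw [isSelfAdjoint_iff]
  apply lp.ext
  funext n
  rw [lp.coeFn_star, Pi.star_apply, el_apply, ← map_star, hbs]

theorem YL_apply (F : FDA) (ρ : ∀ n, F.alg →ₗ[ℂ] E n) (hρ : ∀ n y, ‖ρ n y‖ ≤ 3 * ‖y‖)
    (hcp : ∀ n, IsCP (ρ n)) (b : ∀ n, E n) (hb1 : ∀ n, ‖b n‖ ≤ 1) (hbs : ∀ n, star (b n) = b n)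
    (e ε : ℝ) (he : 0 < e) (hε : 0 < ε) (l : F.ι) (i : F.n l) (n : ℕ) :
    (YL hj F ρ hρ (el hj b 1 hb1) e ε l i : ∀ n, X n) n = j n (YY F ρ b e ε n l i) := by
  unfold YL YY
  rw [lp.coeFn_sub, Pi.sub_apply, lp.infty_coeFn_mul, lp.infty_coeFn_mul, Pi.mul_apply,
    Pi.mul_apply, lp.infty_coeFn_mul, Pi.mul_apply,
    cfc_coord hj _ (RR_sa hj F ρ hρ hcp) (fun n => ρ n 1) (fun n => rfl) (ff e) (cont_ff he)
      (ff_zero he),
    cfc_coord hj _ (el_sa hj b 1 hb1 hbs) b (fun n => rfl) (ch ε) (cont_ch hε) (by simp [ch]),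
    RR_apply, map_sub (j n), map_mul (j n), map_mul (j n), map_mul (j n)]

theorem cut_YY (F : FDA) (ρ : ∀ n, F.alg →ₗ[ℂ] E n) (b : ∀ n, E n) (hbs : ∀ n, star (b n) = b n)
    (e ε : ℝ) (hε : 0 < ε) (n : ℕ) (l : F.ι) (i : F.n l) :
    cfcₙ (fun s : ℝ => max (s - ε) 0) (b n) * YY F ρ b e ε n l i = 0 := by
  have hsa : IsSelfAdjoint (b n) := hbs n
  have h1 : cfcₙ (fun s : ℝ => max (s - ε) 0) (b n) * cfcₙ (ch ε) (b n) =
      cfcₙ (fun s : ℝ => max (s - ε) 0) (b n) := by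
    rw [← cfcₙ_mul (fun s : ℝ => max (s - ε) 0) (ch ε) (b n) (by fun_prop)
      (by simp [hε.le]) ((cont_ch hε).continuousOn) (by simp [ch])]
    congr 1
    funext s
    exact cut_ch hε s
  unfold YY
  rw [mul_sub, ← mul_assoc (cfcₙ (fun s : ℝ => max (s - ε) 0) (b n)) (cfcₙ (ch ε) (b n)), h1,
    sub_self]

theorem ann {Q : Type} [CStarAlgebra Q] (H B : Q) (hH : IsSelfAdjoint H) (hB : IsSelfAdjoint B)
    (hBH : B * H = 0) (e ε : ℝ) (he : 0 < e) (hε : 0 < ε) : cR (ch ε) B * cR (ff e) H = 0 := by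
  have h1 : cR (ch ε) B = cfc (ch1 ε) B * B := by
    unfold cR
    have h2 : ch ε = fun s => ch1 ε s * s := by
      funext s; unfold ch; ring
    rw [h2, cfc_mul (ch1 ε) (fun s => s) B (cont_ch1 hε).continuousOn (by fun_prop), cfc_id' ℝ B]
  have h2 : cR (ff e) H = H * cfc (ff1 e) H := by
    unfold cR
    have h3 : ff e = fun s => s * ff1 e s := by
      funext s; exact ff_eq he s
    rw [h3, cfc_mul (fun s => s) (ff1 e) H (by fun_prop) (cont_ff1 he).continuousOn, cfc_id' ℝ H]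
  rw [h1, h2, mul_assoc, ← mul_assoc B H, hBH, zero_mul, mul_zero]

include hj in
theorem ev_of {Q : Type} [CStarAlgebra Q] {q : lp X ∞ →⋆ₐ[ℂ] Q} (hq : IsRP X atTop Q q)
    (x : lp X ∞) (c : ℝ) (h : ‖q x‖ < c) (a : ∀ n, E n) (hxa : ∀ n, x n = j n (a n)) :
    ∀ᶠ n in atTop, ‖a n‖ < c := by
  filter_upwards [hq.lt x c h] with n hn
  rwa [hxa n, hj.nrm] at hn

theorem exists_bound (F : FDA) (f : ∀ l, F.n l → ℝ) (hf : ∀ l i, 0 ≤ f l i) :
    ∃ K : ℝ, 0 < K ∧ ∀ l i, f l i < K := by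
  refine ⟨1 + ∑ l, ∑ i, f l i, ?_, ?_⟩
  · have : 0 ≤ ∑ l, ∑ i, f l i := Finset.sum_nonneg fun l _ => Finset.sum_nonneg fun i _ => hf l i
    linarith
  · intro l i
    have e1 : f l i ≤ ∑ i, f l i :=
      Finset.single_le_sum (f := fun i => f l i) (fun i _ => hf l i) (Finset.mem_univ i)
    have e2 : ∑ i, f l i ≤ ∑ l, ∑ i, f l i :=
      Finset.single_le_sum (f := fun l => ∑ i, f l i)
        (fun l _ => Finset.sum_nonneg fun i _ => hf l i) (Finset.mem_univ l)
    linarith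

theorem final_est (F : FDA) (ε : ℝ) (hε : 0 < ε) : ∃ η : ℝ, 0 < η ∧
    ∀ (A : Type) [NonUnitalCStarAlgebra A] (φ : F.alg →ₗ[ℂ] A) (z : ∀ l, F.n l → A),
      (∀ l i k, ‖z l i * star (z l k) - φ (mu F l i k)‖ ≤ η) →
      ∀ y, ‖rowMap F z y - φ y‖ ≤ ε * ‖y‖ := by
  have hM : 0 ≤ ∑ l : F.ι, ∑ _i : F.n l, ∑ _k : F.n l, (1 : ℝ) :=
    Finset.sum_nonneg fun l _ => Finset.sum_nonneg fun i _ => Finset.sum_nonneg fun k _ => zero_le_one
  refine ⟨ε / ((∑ l : F.ι, ∑ _i : F.n l, ∑ _k : F.n l, (1 : ℝ)) + 1), div_pos hε (by linarith), ?_⟩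
  intro A _ φ z h y
  have h2 : rowMap F z y - φ y =
      ∑ l, ∑ i, ∑ k, y l i k • (z l i * star (z l k) - φ (mu F l i k)) := by
    have h3 : φ y = ∑ l, ∑ i, ∑ k, y l i k • φ (mu F l i k) := by
      conv_lhs => rw [eq_sum_mu F y]
      simp only [map_sum, map_smul]
    rw [h3]
    change (∑ l, ∑ i, ∑ k, y l i k • (z l i * star (z l k))) - _ = _
    simp only [smul_sub, Finset.sum_sub_distrib]
  rw [h2]
  set η := ε / ((∑ l : F.ι, ∑ _i : F.n l, ∑ _k : F.n l, (1 : ℝ)) + 1) with hη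
  calc ‖∑ l, ∑ i, ∑ k, y l i k • (z l i * star (z l k) - φ (mu F l i k))‖
      ≤ ∑ l, ∑ i, ∑ k, ‖y l i k • (z l i * star (z l k) - φ (mu F l i k))‖ := by
        refine (norm_sum_le _ _).trans (Finset.sum_le_sum fun l _ => ?_)
        refine (norm_sum_le _ _).trans (Finset.sum_le_sum fun i _ => ?_)
        exact norm_sum_le _ _
    _ ≤ ∑ l : F.ι, ∑ _i : F.n l, ∑ _k : F.n l, (‖y‖ * η) * 1 := by
        refine Finset.sum_le_sum fun l _ => Finset.sum_le_sum fun i _ =>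
          Finset.sum_le_sum fun k _ => ?_
        rw [norm_smul, mul_one]
        exact mul_le_mul (norm_entry_le F y l i k) (h l i k) (norm_nonneg _) (norm_nonneg _)
    _ = (‖y‖ * η) * ∑ l : F.ι, ∑ _i : F.n l, ∑ _k : F.n l, (1 : ℝ) := by
        simp only [Finset.mul_sum]
    _ ≤ (‖y‖ * η) * ((∑ l : F.ι, ∑ _i : F.n l, ∑ _k : F.n l, (1 : ℝ)) + 1) := by
        refine mul_le_mul_of_nonneg_left (by linarith) (mul_nonneg (norm_nonneg _) ?_)
        exact (div_pos hε (by linarith)).le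
    _ = ε * ‖y‖ := by
        have hne : (∑ l : F.ι, ∑ _i : F.n l, ∑ _k : F.n l, (1 : ℝ)) + 1 ≠ 0 := by linarith
        rw [mul_assoc, hη, div_mul_cancel₀ ε hne, mul_comm]

theorem core_thm (hj : Emb j) (F : FDA) (ε : ℝ) (hε : 0 < ε) (hROW : StROW) (hT1R : StT1R)
    {Q : Type} [CStarAlgebra Q] {q : lp X ∞ →⋆ₐ[ℂ] Q} (hq : IsRP X atTop Q q)
    (ρ : ∀ n, F.alg →ₗ[ℂ] E n) (hcp : ∀ n, IsCP (ρ n)) (h1 : ∀ n, ‖ρ n 1‖ ≤ 3)
    (hoz : ∀ l i k l' i' k', Tendsto (fun n => ‖ρ n (mu F l i k) * ρ n (mu F l' i' k')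
        - ρ n 1 * ρ n (mu F l i k * mu F l' i' k')‖) atTop (𝓝 0))
    (b : ∀ n, E n) (hbs : ∀ n, star (b n) = b n) (hb1 : ∀ n, ‖b n‖ ≤ 1)
    (hhb : Tendsto (fun n => ‖ρ n 1 * b n‖) atTop (𝓝 0)) :
    ∃ n, ∃ ρ' : F.alg →ₗ[ℂ] E n, IsCP ρ' ∧ IsOrderZero ρ' ∧ (∀ y, ‖ρ' y - ρ n y‖ ≤ ε * ‖y‖) ∧
      ∀ y, ρ' y * cfcₙ (fun s : ℝ => max (s - ε) 0) (b n) = 0 := by
  have hρ : ∀ n y, ‖ρ n y‖ ≤ 3 * ‖y‖ := by
    intro n y
    let _ := CStarAlgebra.spectralOrder (E n)
    let _ := CStarAlgebra.spectralOrderedRing (E n)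
    exact ((hcp n).norm_le y).trans (mul_le_mul_of_nonneg_right (h1 n) (norm_nonneg _))
  set H := q (RR hj F ρ hρ 1) with hH
  set p : ∀ l, F.n l → F.n l → Q := fun l i k => q (RR hj F ρ hρ (mu F l i k)) with hp
  have L : Lim F H p := limit_props hj F ρ hρ hcp h1 hoz hq
  set B := q (el hj b 1 hb1) with hB
  have hBs : IsSelfAdjoint B := (el_sa hj b 1 hb1 hbs).map q
  have hHB : H * B = 0 := by
    rw [hH, hB, ← map_mul]
    apply q_zero hq
    refine hhb.congr fun n => ?_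
    rw [lp.infty_coeFn_mul, Pi.mul_apply, RR_apply, el_apply, ← map_mul (j n), hj.nrm]
  have hBH : B * H = 0 := by
    have := congrArg star hHB
    rwa [star_mul, star_zero, hBs.star_eq, L.sa.star_eq] at this
  -- constants
  obtain ⟨η, hη0, hfin⟩ := final_est F ε hε
  obtain ⟨K, hK0, hpK⟩ := exists_bound F (fun l i => ‖p l i i‖) (fun l i => norm_nonneg _)
  obtain ⟨e, he0, h4⟩ : ∃ e : ℝ, 0 < e ∧ 4 * e * K = η ^ 2 / 8 :=
    ⟨η ^ 2 / (32 * K), by positivity, by field_simp; ring⟩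
  have hY : ∀ l i, q (YL hj F ρ hρ (el hj b 1 hb1) e ε l i) = xx F H p e l i := by
    intro l i
    unfold YL xx
    rw [map_sub, map_mul, map_mul, map_mul, cR_map q _ (cont_ff he0) _ (RR_sa hj F ρ hρ hcp),
      cR_map q _ (cont_ch hε) _ (el_sa hj b 1 hb1 hbs), ← hH, ← hB, ← mul_assoc, 
      ann H B L.sa hBs hBH e ε he0 hε, zero_mul, sub_zero]
    rfl
  obtain ⟨C, hC0, hxC⟩ := exists_bound F (fun l i => ‖xx F H p e l i‖) (fun l i => norm_nonneg _)
  obtain ⟨ε₂, hε₂0, hε₂1, hε₂η⟩ : ∃ ε₂ : ℝ, 0 < ε₂ ∧ ε₂ ≤ 1 ∧ ε₂ * (2 * (C + 1)) ≤ η / 2 := by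
    refine ⟨min 1 (η / (4 * (C + 1))), lt_min one_pos (by positivity), min_le_left _ _, ?_⟩
    calc min 1 (η / (4 * (C + 1))) * (2 * (C + 1)) ≤ (η / (4 * (C + 1))) * (2 * (C + 1)) :=
          mul_le_mul_of_nonneg_right (min_le_right _ _) (by positivity)
      _ = η / 2 := by field_simp; ring
  obtain ⟨δ, hδ, hT⟩ := hT1R F ε₂ hε₂0
  set Y : ∀ n, ∀ l : F.ι, F.n l → E n := fun n l i => YY F ρ b e ε n l i with hYdef
  have hYL : ∀ l i n, (YL hj F ρ hρ (el hj b 1 hb1) e ε l i : ∀ n, X n) n = j n (Y n l i) :=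
    fun l i n => YL_apply hj F ρ hρ hcp b hb1 hbs e ε he0 hε l i n
  let k : ∀ n, F.ι → E n := fun n l =>
    open Classical in if h : Nonempty (F.n l) then star (Y n l h.some) * Y n l h.some else 0
  have hk : ∀ n l (i : F.n l), k n l = star (Y n l (oo F l i)) * Y n l (oo F l i) := by
    intro n l i
    exact dif_pos ⟨i⟩
  have hkpos : ∀ n l, Pos (k n l) := by
    intro n l
    by_cases h : Nonempty (F.n l)
    · obtain ⟨i⟩ := h
      rw [hk n l i]
      exact ⟨_, rfl⟩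
    · refine ⟨0, ?_⟩
      rw [mul_zero]
      exact dif_neg h
  have E1 : ∀ᶠ n in atTop, ∀ l i, ‖star (Y n l i) * Y n l i - k n l‖ < δ := by
    rw [eventually_all]; intro l
    rw [eventually_all]; intro i
    refine ev_of hj hq (star (YL hj F ρ hρ (el hj b 1 hb1) e ε l i) *
      YL hj F ρ hρ (el hj b 1 hb1) e ε l i - star (YL hj F ρ hρ (el hj b 1 hb1) e ε l (oo F l i)) *
      YL hj F ρ hρ (el hj b 1 hb1) e ε l (oo F l i)) δ ?_ _ ?_
    · rw [map_sub, map_mul, map_mul, map_star, map_star, hY, hY, L.xx_self, L.xx_self,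
        oo_eq F l (oo F l i) i, sub_self, norm_zero]
      exact hδ
    · intro n
      rw [lp.coeFn_sub, Pi.sub_apply, lp.infty_coeFn_mul, lp.infty_coeFn_mul, Pi.mul_apply,
        Pi.mul_apply, lp.coeFn_star, lp.coeFn_star, Pi.star_apply, Pi.star_apply, hYL, hYL,
        hk n l i, map_sub (j n), map_mul (j n), map_mul (j n), map_star (j n), map_star (j n)]
  have E2 : ∀ᶠ n in atTop, ∀ l i i', i ≠ i' → ‖star (Y n l i) * Y n l i'‖ < δ := by
    rw [eventually_all]; intro l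
    rw [eventually_all]; intro i
    rw [eventually_all]; intro i'
    by_cases h : i = i'
    · exact Eventually.of_forall fun n hn => absurd h hn
    refine (ev_of hj hq (star (YL hj F ρ hρ (el hj b 1 hb1) e ε l i) *
      YL hj F ρ hρ (el hj b 1 hb1) e ε l i') δ ?_ (fun n => star (Y n l i) * Y n l i') ?_).mono
        fun n hn _ => hn
    · rw [map_mul, map_star, hY, hY, L.xx_ne l i i' h, norm_zero]
      exact hδ
    · intro n
      rw [lp.infty_coeFn_mul, Pi.mul_apply, lp.coeFn_star, Pi.star_apply, hYL, hYL,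
        map_mul (j n), map_star (j n)]
  have E3 : ∀ᶠ n in atTop, ∀ l l' i i', l ≠ l' → ‖star (Y n l i) * Y n l' i'‖ < δ := by
    rw [eventually_all]; intro l
    rw [eventually_all]; intro l'
    rw [eventually_all]; intro i
    rw [eventually_all]; intro i'
    by_cases h : l = l'
    · exact Eventually.of_forall fun n hn => absurd h hn
    refine (ev_of hj hq (star (YL hj F ρ hρ (el hj b 1 hb1) e ε l i) *
      YL hj F ρ hρ (el hj b 1 hb1) e ε l' i') δ ?_ (fun n => star (Y n l i) * Y n l' i') ?_).mono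
        fun n hn _ => hn
    · rw [map_mul, map_star, hY, hY, L.xx_ne' l l' i i' h, norm_zero]
      exact hδ
    · intro n
      rw [lp.infty_coeFn_mul, Pi.mul_apply, lp.coeFn_star, Pi.star_apply, hYL, hYL,
        map_mul (j n), map_star (j n)]
  have E4 : ∀ᶠ n in atTop, ∀ l i, ‖Y n l i‖ < C := by
    rw [eventually_all]; intro l
    rw [eventually_all]; intro i
    exact ev_of hj hq (YL hj F ρ hρ (el hj b 1 hb1) e ε l i) C (by rw [hY]; exact hxC l i) _
      (fun n => hYL l i n)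
  have E5 : ∀ᶠ n in atTop, ∀ l i i', ‖Y n l i * star (Y n l i') - ρ n (mu F l i i')‖ < η / 2 := by
    rw [eventually_all]; intro l
    rw [eventually_all]; intro i
    rw [eventually_all]; intro i'
    refine ev_of hj hq (YL hj F ρ hρ (el hj b 1 hb1) e ε l i *
      star (YL hj F ρ hρ (el hj b 1 hb1) e ε l i') - RR hj F ρ hρ (mu F l i i')) (η / 2) ?_
        (fun n => Y n l i * star (Y n l i') - ρ n (mu F l i i')) ?_
    · rw [map_sub, map_mul, map_star, hY, hY]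
      have h2 := L.xx_bound he0 l i i'
      have h3 : 4 * e * ‖p l i i‖ ≤ 4 * e * K :=
        mul_le_mul_of_nonneg_left (hpK l i).le (by positivity)
      refine lt_of_pow_lt_pow_left₀ 2 (by positivity) ?_
      calc _ ≤ 4 * e * ‖p l i i‖ := h2
        _ ≤ η ^ 2 / 8 := by rw [← h4]; exact h3
        _ < (η / 2) ^ 2 := by nlinarith [sq_nonneg η, pow_pos hη0 2]
    · intro n
      rw [lp.coeFn_sub, Pi.sub_apply, lp.infty_coeFn_mul, Pi.mul_apply, lp.coeFn_star,
        Pi.star_apply, hYL, hYL, RR_apply, map_sub (j n), map_mul (j n), map_star (j n)]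
  obtain ⟨n, hn1, hn2, hn3, hn4, hn5⟩ := (E1.and (E2.and (E3.and (E4.and E5)))).exists
  obtain ⟨z, k', hz, hk', hzY, hcz⟩ := hT (E n) (Y n) (k n) (hkpos n)
    ⟨fun l i => (hn1 l i).le, fun l i i' h => (hn2 l i i' h).le,
      fun l l' i i' h => (hn3 l l' i i' h).le⟩
  refine ⟨n, rowMap F z, hROW.1 F (E n) z, hROW.2.1 F (E n) z k' hz, ?_, ?_⟩
  · apply hfin
    intro l i i'
    have e1 : z l i * star (z l i') - ρ n (mu F l i i') = z l i * star (z l i' - Y n l i') +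
        (z l i - Y n l i) * star (Y n l i') + (Y n l i * star (Y n l i') - ρ n (mu F l i i')) := by
      rw [star_sub, mul_sub, sub_mul]; abel
    have e2 : ‖z l i‖ ≤ C + 1 := by
      have : z l i = (z l i - Y n l i) + Y n l i := by abel
      rw [this]
      refine (norm_add_le _ _).trans ?_
      have := hzY l i
      have := hn4 l i
      linarith
    rw [e1]
    refine (norm_add₃_le).trans ?_
    have e3 : ‖z l i * star (z l i' - Y n l i')‖ ≤ (C + 1) * ε₂ := by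
      refine (norm_mul_le _ _).trans ?_
      rw [norm_star]
      exact mul_le_mul e2 (hzY l i') (norm_nonneg _) (by positivity)
    have e4 : ‖(z l i - Y n l i) * star (Y n l i')‖ ≤ ε₂ * (C + 1) := by
      refine (norm_mul_le _ _).trans ?_
      rw [norm_star]
      have := hn4 l i'
      exact mul_le_mul (hzY l i) (by linarith) (norm_nonneg _) (by positivity)
    have e5 := hn5 l i i'
    nlinarith
  · intro y
    have hzc : ∀ l i, cfcₙ (fun s : ℝ => max (s - ε) 0) (b n) * z l i = 0 :=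
      hcz _ (fun l i => cut_YY F ρ b hbs e ε hε n l i)
    have hcs : star (cfcₙ (fun s : ℝ => max (s - ε) 0) (b n)) =
        cfcₙ (fun s : ℝ => max (s - ε) 0) (b n) := IsSelfAdjoint.star_eq (cfcₙ_predicate _ (b n))
    have hzc' : ∀ l i, star (z l i) * cfcₙ (fun s : ℝ => max (s - ε) 0) (b n) = 0 := by
      intro l i
      have := congrArg star (hzc l i)
      rwa [star_mul, hcs, star_zero] at this
    change (∑ l, ∑ i, ∑ k, y l i k • (z l i * star (z l k))) * _ = 0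
    simp only [Finset.sum_mul, smul_mul_assoc, mul_assoc, hzc', mul_zero, smul_zero,
      Finset.sum_const_zero]

end core


theorem t_FP (hROW : StROW) (hT1R : StT1R) (hCOM : StCOM) (hRP : StRP) : StFP := by
  intro F ε hε
  by_contra hcon
  have key : ∀ n : ℕ, ∃ (E : Type) (_ : NonUnitalCStarAlgebra E) (ρ : F.alg →ₗ[ℂ] E) (b : E),
      IsCP ρ ∧ ‖ρ 1‖ ≤ 3 ∧
      (∀ l i j l' i' j', ‖ρ (mu F l i j) * ρ (mu F l' i' j')
        - ρ 1 * ρ (mu F l i j * mu F l' i' j')‖ ≤ 1 / ((n : ℝ) + 1)) ∧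
      Pos b ∧ ‖b‖ ≤ 1 ∧ ‖ρ 1 * b‖ ≤ 1 / ((n : ℝ) + 1) ∧
      ¬ ∃ ρ' : F.alg →ₗ[ℂ] E, IsCP ρ' ∧ IsOrderZero ρ' ∧ (∀ y, ‖ρ' y - ρ y‖ ≤ ε * ‖y‖) ∧
        ∀ y, ρ' y * cfcₙ (fun s : ℝ => max (s - ε) 0) b = 0 := by
    intro n
    by_contra hn
    apply hcon
    refine ⟨1 / ((n : ℝ) + 1), by positivity, ?_⟩
    intro E _ ρ b h1 h2 h3 h4 h5 h6
    by_contra h7
    exact hn ⟨E, inferInstance, ρ, b, h1, h2, h3, h4, h5, h6, h7⟩
  choose E inst ρ b hcp h1 hoz hb hb1 hhb hno using key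
  obtain ⟨Q, _, q, hq⟩ := hRP ℕ (fun n => Unitization ℂ (E n)) Filter.atTop
  have hj : Emb (fun n => Unitization.inrNonUnitalStarAlgHom ℂ (E n)) :=
    ⟨fun n a => Unitization.norm_inr a, fun n a f hf => Unitization.real_cfcₙ_eq_cfc_inr a f hf⟩
  have hbs : ∀ n, star (b n) = b n := by
    intro n
    obtain ⟨c, hc⟩ := hb n
    rw [hc, star_mul, star_star]
  obtain ⟨n, hn⟩ := core_thm hj F ε hε hROW hT1R hq ρ hcp h1
    (fun l i k l' i' k' => squeeze_zero (fun n => norm_nonneg _) (fun n => hoz n l i k l' i' k')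
      tendsto_one_div_add_atTop_nhds_zero_nat)
    b hbs hb1 (squeeze_zero (fun n => norm_nonneg _) (fun n => hhb n)
      tendsto_one_div_add_atTop_nhds_zero_nat)
  exact hno n hn

end Pool.Agent.Helper7_ND.J_FP
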