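import Pool.Agent.Helper7_ND.Stm2

set_option autoImplicit false

open scoped Matrix.Norms.L2Operator ENNReal Matrix
open Pool.Agent.W659.EC

noncomputable section

namespace Pool.Agent.Helper7_ND.J_LFT

section gen

variable {E : Type} [NonUnitalCStarAlgebra E]

/-- left multiplication by elements of the unitization -/
def mulL (b : Unitization ℂ E) (x : E) : E := b.fst • x + b.snd * x

theorem inr_mulL (b : Unitization ℂ E) (x : E) :
    ((mulL b x : E) : Unitization ℂ E) = b * (x : Unitization ℂ E) := by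
  ext
  · simp [Unitization.fst_mul]
  · simp [mulL, Unitization.snd_mul]

/-- right multiplication by elements of the unitization -/
def mulR (x : E) (b : Unitization ℂ E) : E := b.fst • x + x * b.snd

theorem inr_mulR (x : E) (b : Unitization ℂ E) :
    ((mulR x b : E) : Unitization ℂ E) = (x : Unitization ℂ E) * b := by
  ext
  · simp [Unitization.fst_mul]
  · simp [mulR, Unitization.snd_mul]

theorem entry_norm_le {n : Type} [Fintype n] [DecidableEq n] (y : Matrix n n ℂ) (i j : n) :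
    ‖y i j‖ ≤ ‖y‖ := by
  have h1 := Matrix.l2_opNorm_mulVec y (EuclideanSpace.single j (1 : ℂ))
  have h2 : ‖(EuclideanSpace.single j (1 : ℂ) : EuclideanSpace ℂ n)‖ = 1 := by simp
  rw [h2, mul_one] at h1
  refine le_trans ?_ h1
  have h3 := PiLp.norm_apply_le ((EuclideanSpace.equiv n ℂ).symm
    (y.mulVec (EuclideanSpace.single j (1 : ℂ)).ofLp)) i
  refine le_trans (le_of_eq ?_) h3
  simp [Matrix.mulVec_single]

theorem entry_le {F : FDA} (y : F.alg) (l : F.ι) (i j : F.n l) : ‖y l i j‖ ≤ ‖y‖ :=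
  (entry_norm_le (y l) i j).trans (norm_le_pi_norm y l)

/-- the number of matrix entries -/
def nE (F : FDA) : ℝ := ∑ l : F.ι, ∑ _i : F.n l, ∑ _j : F.n l, (1 : ℝ)

theorem nE_nonneg (F : FDA) : 0 ≤ nE F := by
  unfold nE
  positivity

theorem rowMap_sub_le (F : FDA) (z x : ∀ l : F.ι, F.n l → E) (η M : ℝ) (hη : 0 ≤ η)
    (hη1 : η ≤ 1) (hM : 0 ≤ M) (hz : ∀ l i, ‖z l i - x l i‖ ≤ η) (hx : ∀ l i, ‖x l i‖ ≤ M)
    (y : F.alg) : ‖rowMap F z y - rowMap F x y‖ ≤ nE F * ((2 * M + 1) * η) * ‖y‖ := by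
  have key : ∀ l i j, ‖y l i j • (z l i * star (z l j)) - y l i j • (x l i * star (x l j))‖ ≤
      ((2 * M + 1) * η) * ‖y‖ := by
    intro l i j
    rw [← smul_sub, norm_smul, mul_comm]
    have h1 : z l i * star (z l j) - x l i * star (x l j) =
        (z l i - x l i) * star (z l j) + x l i * star (z l j - x l j) := by
      rw [star_sub]; noncomm_ring
    have h2 : ‖z l j‖ ≤ M + 1 := by
      have : z l j = (z l j - x l j) + x l j := by abel
      rw [this]
      refine (norm_add_le _ _).trans ?_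
      linarith [hz l j, hx l j]
    have h3 : ‖z l i * star (z l j) - x l i * star (x l j)‖ ≤ (2 * M + 1) * η := by
      rw [h1]
      refine (norm_add_le _ _).trans ?_
      have h4 : ‖(z l i - x l i) * star (z l j)‖ ≤ η * (M + 1) := by
        refine (norm_mul_le _ _).trans ?_
        rw [norm_star]
        exact mul_le_mul (hz l i) h2 (norm_nonneg _) hη
      have h5 : ‖x l i * star (z l j - x l j)‖ ≤ M * η := by
        refine (norm_mul_le _ _).trans ?_
        rw [norm_star]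
        exact mul_le_mul (hx l i) (hz l j) (norm_nonneg _) hM
      nlinarith
    exact mul_le_mul h3 (entry_le y l i j) (norm_nonneg _) (by positivity)
  have e : rowMap F z y - rowMap F x y = ∑ l, ∑ i, ∑ j,
      (y l i j • (z l i * star (z l j)) - y l i j • (x l i * star (x l j))) := by
    simp only [Finset.sum_sub_distrib]
    rfl
  rw [e]
  calc _ ≤ ∑ l : F.ι, ∑ _i : F.n l, ∑ _j : F.n l, ((2 * M + 1) * η) * ‖y‖ := by
        refine (norm_sum_le _ _).trans (Finset.sum_le_sum fun l _ => ?_)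
        refine (norm_sum_le _ _).trans (Finset.sum_le_sum fun i _ => ?_)
        exact (norm_sum_le _ _).trans (Finset.sum_le_sum fun j _ => key l i j)
    _ = nE F * ((2 * M + 1) * η) * ‖y‖ := by
        unfold nE
        simp only [Finset.sum_const, nsmul_eq_mul, Finset.sum_mul, mul_one]
        refine Finset.sum_congr rfl fun l _ => ?_
        ring

theorem one_norm_le (F : FDA) : ‖(1 : F.alg)‖ ≤ 1 := by
  have h : ‖star (1 : F.alg) * 1‖ = ‖(1 : F.alg)‖ * ‖(1 : F.alg)‖ := CStarRing.norm_star_mul_self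
  rw [star_one, mul_one] at h
  by_contra hc
  rw [not_le] at hc
  nlinarith

/-- the row condition for `a x` -/
theorem row_est {B : Type} [CStarAlgebra B] (a X X' W G : B) (M η : ℝ) (hη : 0 ≤ η)
    (ha : star a = a) (ha1 : ‖a‖ ≤ 1) (hM : 0 ≤ M) (hX : ‖X‖ ≤ M) (hX' : ‖X'‖ ≤ M)
    (h1 : ‖a * X - X * a‖ ≤ η) (h2 : ‖a * X' - X' * a‖ ≤ η) (hG : ‖a * G‖ ≤ η)
    (hW : star X * X' - W = G) :
    ‖star (a * X) * (a * X') - a * W * a‖ ≤ 2 * M * η + η := by
  have e : star (a * X) * (a * X') - a * W * a =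
      star X * a * (a * X' - X' * a) + star (a * X - X * a) * (X' * a) + a * G * a := by
    rw [← hW, star_mul, star_sub, star_mul, star_mul, ha]
    noncomm_ring
  rw [e]
  have t1 : ‖star X * a * (a * X' - X' * a)‖ ≤ M * η := by
    refine (norm_mul_le _ _).trans (mul_le_mul ?_ h2 (norm_nonneg _) hM)
    refine (norm_mul_le _ _).trans ?_
    rw [norm_star]
    calc ‖X‖ * ‖a‖ ≤ M * 1 := mul_le_mul hX ha1 (norm_nonneg _) hM
      _ = M := mul_one M
  have t2 : ‖star (a * X - X * a) * (X' * a)‖ ≤ η * M := by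
    refine (norm_mul_le _ _).trans (mul_le_mul ?_ ?_ (norm_nonneg _) hη)
    · rw [norm_star]
      exact h1
    · refine (norm_mul_le _ _).trans ?_
      calc ‖X'‖ * ‖a‖ ≤ M * 1 := mul_le_mul hX' ha1 (norm_nonneg _) hM
        _ = M := mul_one M
  have t3 : ‖a * G * a‖ ≤ η := by
    refine (norm_mul_le _ _).trans ?_
    calc ‖a * G‖ * ‖a‖ ≤ η * 1 := mul_le_mul hG ha1 (norm_nonneg _) hη
      _ = η := mul_one η
  refine (norm_add₃_le).trans ?_
  linarith

/-- `a = (1 - T²)^{1/2}` -/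
theorem sqrt_facts {B : Type} [CStarAlgebra B] (T : B) (hT : Pos T) (hT1 : ‖T‖ ≤ 1) :
    star (cfc (fun s : ℝ => Real.sqrt (1 - s ^ 2)) T) =
      cfc (fun s : ℝ => Real.sqrt (1 - s ^ 2)) T ∧
    cfc (fun s : ℝ => Real.sqrt (1 - s ^ 2)) T * cfc (fun s : ℝ => Real.sqrt (1 - s ^ 2)) T =
      1 - T * T ∧ ‖cfc (fun s : ℝ => Real.sqrt (1 - s ^ 2)) T‖ ≤ 1 := by
  nontriviality B
  have hsa : IsSelfAdjoint T := by
    obtain ⟨b, rfl⟩ := hT
    exact IsSelfAdjoint.star_mul_self b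
  have hsp : ∀ s ∈ spectrum ℝ T, |s| ≤ 1 := by
    intro s hs
    have := spectrum.norm_le_norm_of_mem hs
    rw [Real.norm_eq_abs] at this
    exact this.trans hT1
  have hcont : Continuous fun s : ℝ => Real.sqrt (1 - s ^ 2) := by fun_prop
  refine ⟨(cfc_predicate (fun s : ℝ => Real.sqrt (1 - s ^ 2)) T).star_eq, ?_, ?_⟩
  · rw [← cfc_mul _ _ T hcont.continuousOn hcont.continuousOn]
    have h1 : cfc (fun s : ℝ => Real.sqrt (1 - s ^ 2) * Real.sqrt (1 - s ^ 2)) T =
        cfc (fun s : ℝ => 1 - s * s) T := by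
      refine cfc_congr fun s hs => ?_
      have hs1 := abs_le.1 (hsp s hs)
      show Real.sqrt (1 - s ^ 2) * Real.sqrt (1 - s ^ 2) = 1 - s * s
      rw [Real.mul_self_sqrt (by nlinarith)]
      ring
    rw [h1, cfc_sub (fun _ => (1 : ℝ)) (fun s => s * s) T (by fun_prop) (by fun_prop),
      cfc_const_one ℝ T, cfc_mul (fun s => s) (fun s => s) T (by fun_prop) (by fun_prop),
      cfc_id' ℝ T]
  · refine norm_cfc_le zero_le_one fun s hs => ?_
    have hs1 := abs_le.1 (hsp s hs)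
    rw [Real.norm_of_nonneg (Real.sqrt_nonneg _), Real.sqrt_le_one]
    nlinarith

/-- FACT 2 -/
theorem ideal_small {I : Type} [NonUnitalCStarAlgebra I] (ι : I →⋆ₙₐ[ℂ] E) (t c : I)
    (ht1 : ‖t‖ ≤ 1) (a : Unitization ℂ E) (ha : star a = a)
    (ha2 : a * a = 1 - ((ι t : E) : Unitization ℂ E) * ((ι t : E) : Unitization ℂ E))
    (G δ η : ℝ) (hG : ‖c‖ ≤ G) (hη : 0 ≤ η) (hδη : 2 * G * δ ≤ η ^ 2)
    (hc : ‖t * c - c‖ ≤ δ) : ‖a * ((ι c : E) : Unitization ℂ E)‖ ≤ η := by
  have hδ : 0 ≤ δ := (norm_nonneg _).trans hc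
  have hG0 : 0 ≤ G := (norm_nonneg _).trans hG
  have e : star (a * ((ι c : E) : Unitization ℂ E)) * (a * ((ι c : E) : Unitization ℂ E)) =
      ((ι (star c * (c - t * (t * c))) : E) : Unitization ℂ E) := by
    rw [map_mul, map_sub, map_mul, map_mul, map_star, Unitization.inr_mul, Unitization.inr_sub,
      Unitization.inr_mul, Unitization.inr_mul, Unitization.inr_star, star_mul, ha]
    calc star ((ι c : E) : Unitization ℂ E) * a * (a * ((ι c : E) : Unitization ℂ E)) =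
        star ((ι c : E) : Unitization ℂ E) * (a * a) * ((ι c : E) : Unitization ℂ E) := by
          noncomm_ring
      _ = _ := by rw [ha2]; noncomm_ring
  have h1 : ‖c - t * (t * c)‖ ≤ 2 * δ := by
    have e2 : c - t * (t * c) = -(t * c - c) - t * (t * c - c) := by noncomm_ring
    rw [e2]
    refine (norm_sub_le _ _).trans ?_
    rw [norm_neg]
    have : ‖t * (t * c - c)‖ ≤ 1 * δ :=
      (norm_mul_le _ _).trans (mul_le_mul ht1 hc (norm_nonneg _) zero_le_one)
    linarith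
  have h2 : ‖a * ((ι c : E) : Unitization ℂ E)‖ * ‖a * ((ι c : E) : Unitization ℂ E)‖ ≤ η ^ 2 := by
    rw [← CStarRing.norm_star_mul_self, e, Unitization.norm_inr]
    refine (NonUnitalStarAlgHom.norm_apply_le ι _).trans ?_
    refine (norm_mul_le _ _).trans ?_
    rw [norm_star]
    calc ‖c‖ * ‖c - t * (t * c)‖ ≤ G * (2 * δ) := mul_le_mul hG h1 (norm_nonneg _) hG0
      _ = 2 * G * δ := by ring
      _ ≤ η ^ 2 := hδη
  exact abs_le_of_sq_le_sq' (by nlinarith [norm_nonneg (a * ((ι c : E) : Unitization ℂ E))]) hη |>.2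

theorem pos_iff {B : Type} [NonUnitalCStarAlgebra B] [PartialOrder B] [StarOrderedRing B] (x : B) :
    Pos x ↔ 0 ≤ x := (nonneg_iff_star x).symm

theorem csmul_nonneg {B : Type} [NonUnitalCStarAlgebra B] [PartialOrder B] [StarOrderedRing B]
    (c : ℝ) (hc : 0 ≤ c) {x : B} (hx : 0 ≤ x) : 0 ≤ (c : ℂ) • x := by
  obtain ⟨b, rfl⟩ := (nonneg_iff_star x).1 hx
  rw [nonneg_iff_star]
  refine ⟨((Real.sqrt c : ℝ) : ℂ) • b, ?_⟩
  rw [star_smul, smul_mul_smul_comm, Complex.star_def, Complex.conj_ofReal, ← Complex.ofReal_mul,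
    Real.mul_self_sqrt hc]

theorem le_csmul_one {B : Type} [CStarAlgebra B] [PartialOrder B] [StarOrderedRing B]
    (x : B) (hx : IsSelfAdjoint x) (c : ℝ) (hc : ‖x‖ ≤ c) : 0 ≤ (c : ℂ) • (1 : B) - x := by
  have h1 : 0 ≤ algebraMap ℝ B ‖x‖ - x := sub_nonneg.2 hx.le_algebraMap_norm_self
  have h2 : 0 ≤ ((c - ‖x‖ : ℝ) : ℂ) • (1 : B) :=
    csmul_nonneg _ (sub_nonneg.2 hc) zero_le_one
  have h3 : (algebraMap ℝ B ‖x‖ : B) = ((‖x‖ : ℝ) : ℂ) • (1 : B) := by
    rw [Algebra.algebraMap_eq_smul_one]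
    rfl
  rw [h3] at h1
  have e : (c : ℂ) • (1 : B) - x =
      ((c - ‖x‖ : ℝ) : ℂ) • (1 : B) + (((‖x‖ : ℝ) : ℂ) • (1 : B) - x) := by
    push_cast
    module
  rw [e]
  exact add_nonneg h2 h1

/-- the final inequality -/
theorem final_ineq {B : Type} [CStarAlgebra B] (T a p q ph : B) (ε ε1 η r : ℝ)
    (ha : star a = a) (ha2 : a * a = 1 - T * T) (hT : star T = T)
    (hε1 : 0 ≤ ε1) (hsum : ε1 + η + r ≤ ε)
    (hp : Pos ((1 + ε1 : ℂ) • (1 : B) + q - p)) (hq : star q = q) (hqa : ‖a * q * a‖ ≤ η)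
    (hpp : star p = p) (hph : star ph = ph) (hd : ‖ph - a * p * a‖ ≤ r) :
    Pos ((1 + ε : ℂ) • (1 : B) - T * T - ph) := by
  let _ := CStarAlgebra.spectralOrder B
  let _ := CStarAlgebra.spectralOrderedRing B
  rw [pos_iff] at hp ⊢
  have c1 : 0 ≤ star a * ((1 + ε1 : ℂ) • (1 : B) + q - p) * a := star_left_conjugate_nonneg hp a
  have s1 : IsSelfAdjoint (a * q * a) := by
    rw [IsSelfAdjoint, star_mul, star_mul, ha, hq, mul_assoc]
  have s2 : IsSelfAdjoint (ph - a * p * a) := by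
    rw [IsSelfAdjoint, star_sub, star_mul, star_mul, ha, hpp, hph, mul_assoc]
  have c2 := le_csmul_one _ s1 η hqa
  have c3 := le_csmul_one _ s2 r hd
  have c4 : 0 ≤ (ε1 : ℂ) • (T * T) := by
    refine csmul_nonneg _ hε1 ?_
    have := star_mul_self_nonneg T
    rwa [hT] at this
  have c5 : 0 ≤ ((ε - ε1 - η - r : ℝ) : ℂ) • (1 : B) :=
    csmul_nonneg _ (by linarith) zero_le_one
  have e1 : star a * ((1 + ε1 : ℂ) • (1 : B) + q - p) * a =
      (1 + ε1 : ℂ) • (1 - T * T) + a * q * a - a * p * a := by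
    rw [ha, ← ha2, mul_sub, mul_add, sub_mul, add_mul, mul_smul_comm, smul_mul_assoc, mul_one]
  rw [e1] at c1
  have := add_nonneg (add_nonneg (add_nonneg c4 c5) (add_nonneg c1 c2)) c3
  refine this.trans (le_of_eq ?_)
  push_cast
  module

theorem exists_m {I D : Type} [NonUnitalCStarAlgebra I] [NonUnitalCStarAlgebra D]
    {ι : I →⋆ₙₐ[ℂ] E} {π : E →⋆ₙₐ[ℂ] D} (hext : IsExt ι π) (P : E) (hP : Pos P) (ε1 : ℝ)
    (hε1 : 0 < ε1) (h : ‖π P‖ ≤ 1 + ε1) :
    ∃ m : I, star ((ι m : E) : Unitization ℂ E) = ((ι m : E) : Unitization ℂ E) ∧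
      Pos ((1 + ε1 : ℂ) • (1 : Unitization ℂ E) + ((ι m : E) : Unitization ℂ E)
        - (P : Unitization ℂ E)) := by
  let _ := CStarAlgebra.spectralOrder (Unitization ℂ E)
  let _ := CStarAlgebra.spectralOrderedRing (Unitization ℂ E)
  have hPsa : IsSelfAdjoint P := by
    obtain ⟨b, rfl⟩ := hP
    exact IsSelfAdjoint.star_mul_self b
  have hcont : Continuous fun s : ℝ => max (s - (1 + ε1)) 0 := by fun_prop
  have hf0 : (fun s : ℝ => max (s - (1 + ε1)) 0) 0 = 0 := by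
    show max (0 - (1 + ε1)) 0 = 0
    rw [max_eq_right]
    linarith
  have hc : Continuous π :=
    ((π : E →ₗ[ℂ] D).mkContinuous 1 (fun x => by
      rw [one_mul]; exact NonUnitalStarAlgHom.norm_apply_le π x)).continuous
  have hπ : π (cfcₙ (fun s : ℝ => max (s - (1 + ε1)) 0) P) = 0 := by
    rw [NonUnitalStarAlgHom.map_cfcₙ (S := ℂ) π (fun s : ℝ => max (s - (1 + ε1)) 0) P
      (hf := hcont.continuousOn) (hf₀ := hf0) (hφ := hc) (ha := hPsa) (hφa := hPsa.map π)]
    have hz : cfcₙ (fun s : ℝ => max (s - (1 + ε1)) 0) (π P) = cfcₙ (fun _ : ℝ => (0 : ℝ)) (π P) := by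
      refine cfcₙ_congr fun s hs => ?_
      have h1 := norm_apply_le_norm_cfcₙ (id : ℝ → ℝ) (π P) hs continuousOn_id rfl (hPsa.map π)
      rw [cfcₙ_id ℝ (π P) (hPsa.map π)] at h1
      have h2 : s ≤ 1 + ε1 := (le_abs_self s).trans (h1.trans h)
      exact max_eq_right (by linarith)
    rw [hz]
    simp
  obtain ⟨m, hm⟩ := (hext.exact _).1 hπ
  have hm' : ((ι m : E) : Unitization ℂ E) =
      cfc (fun s : ℝ => max (s - (1 + ε1)) 0) (P : Unitization ℂ E) := by
    rw [hm]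
    exact Unitization.real_cfcₙ_eq_cfc_inr P _ hf0
  have hPsa' : IsSelfAdjoint (P : Unitization ℂ E) := by
    rw [IsSelfAdjoint, ← Unitization.inr_star, hPsa.star_eq]
  refine ⟨m, ?_, ?_⟩
  · rw [hm']
    exact (cfc_predicate (fun s : ℝ => max (s - (1 + ε1)) 0) (P : Unitization ℂ E)).star_eq
  · rw [pos_iff, sub_nonneg, hm']
    have h1 : cfc (fun s : ℝ => s) (P : Unitization ℂ E) ≤
        cfc (fun s : ℝ => (1 + ε1) + max (s - (1 + ε1)) 0) (P : Unitization ℂ E) := by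
      refine cfc_mono (fun s _ => ?_) (by fun_prop) (by fun_prop)
      show s ≤ (1 + ε1) + max (s - (1 + ε1)) 0
      linarith [le_max_left (s - (1 + ε1)) 0]
    rw [cfc_id' ℝ (P : Unitization ℂ E), cfc_add (P : Unitization ℂ E) (fun _ => 1 + ε1)
      (fun s => max (s - (1 + ε1)) 0) (by fun_prop) hcont.continuousOn,
      cfc_const (1 + ε1) (P : Unitization ℂ E)] at h1
    refine h1.trans (le_of_eq ?_)
    rw [Algebra.algebraMap_eq_smul_one]
    congr 1
    rw [← Complex.coe_smul]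
    push_cast
    rfl

end gen

theorem inr_rowMap {E : Type} [NonUnitalCStarAlgebra E] (F : FDA) (x : ∀ l : F.ι, F.n l → E)
    (a : Unitization ℂ E) (ha : star a = a) (y : F.alg) :
    ((rowMap F (fun l i => mulL a (x l i)) y : E) : Unitization ℂ E) =
      a * ((rowMap F x y : E) : Unitization ℂ E) * a := by
  have key : ∀ w : ∀ l : F.ι, F.n l → E, ((rowMap F w y : E) : Unitization ℂ E) =
      ∑ l, ∑ i, ∑ j, y l i j • ((w l i : Unitization ℂ E) * star (w l j : Unitization ℂ E)) := by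
    intro w
    change Unitization.inrNonUnitalStarAlgHom ℂ E (∑ l, ∑ i, ∑ j, y l i j • (w l i * star (w l j))) = _
    simp only [map_sum, map_smul, map_mul, map_star]
    rfl
  rw [key, key]
  simp only [Finset.mul_sum, Finset.sum_mul]
  refine Finset.sum_congr rfl fun l _ => Finset.sum_congr rfl fun i _ =>
    Finset.sum_congr rfl fun j _ => ?_
  rw [inr_mulL, inr_mulL, star_mul, ha, mul_smul_comm, smul_mul_assoc]
  congr 1
  noncomm_ring

theorem rowMap_lift {E D : Type} [NonUnitalCStarAlgebra E] [NonUnitalCStarAlgebra D]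
    (π : E →⋆ₙₐ[ℂ] D) (F : FDA) (x : ∀ l : F.ι, F.n l → E) (x' : ∀ l : F.ι, F.n l → D)
    (h : ∀ l i, π (x l i) = x' l i) (y : F.alg) : π (rowMap F x y) = rowMap F x' y := by
  change π (∑ l, ∑ i, ∑ j, y l i j • (x l i * star (x l j))) =
    ∑ l, ∑ i, ∑ j, y l i j • (x' l i * star (x' l j))
  simp only [map_sum, map_smul, map_mul, map_star, h]

theorem t_LFT (hROW : StROW) (hT1R : StT1R) (hCOM : StCOM) (_hLN : StLN) : StLFT := by
  classical
  intro I E D _ _ _ ι π hext F φ ε hε hφ hφ0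
  obtain ⟨hR1, hR2, hR3⟩ := hROW
  obtain ⟨x, k, hxk, hk, hxφ⟩ := hR3 F D φ (ε / 4) (by positivity) hφ hφ0
  choose xt hxt using fun l i => hext.surj (x l i)
  choose b hb using hk
  choose bt hbt using fun l => hext.surj (b l)
  -- norms
  obtain ⟨M, hM0, hM⟩ : ∃ M : ℝ, 0 ≤ M ∧ ∀ l i, ‖xt l i‖ ≤ M := by
    refine ⟨∑ l, ∑ i, ‖xt l i‖, by positivity, fun l i => ?_⟩
    have h1 : ‖xt l i‖ ≤ ∑ i, ‖xt l i‖ :=
      Finset.single_le_sum (f := fun i => ‖xt l i‖) (fun i _ => norm_nonneg _) (Finset.mem_univ i)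
    have h2 : ∑ i, ‖xt l i‖ ≤ ∑ l, ∑ i, ‖xt l i‖ :=
      Finset.single_le_sum (f := fun l => ∑ i, ‖xt l i‖)
        (fun l _ => Finset.sum_nonneg fun i _ => norm_nonneg _) (Finset.mem_univ l)
    exact h1.trans h2
  have hN0 := nE_nonneg F
  -- the tolerance for the rows
  obtain ⟨ε2, hε2, hε21, hε2N⟩ : ∃ ε2 : ℝ, 0 < ε2 ∧ ε2 ≤ 1 ∧
      nE F * ((2 * M + 1) * ε2) ≤ ε / 4 := by
    refine ⟨min 1 (ε / 4 / (nE F * (2 * M + 1) + 1)), by positivity, min_le_left _ _, ?_⟩
    have h1 : min 1 (ε / 4 / (nE F * (2 * M + 1) + 1)) ≤ ε / 4 / (nE F * (2 * M + 1) + 1) :=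
      min_le_right _ _
    calc nE F * ((2 * M + 1) * min 1 (ε / 4 / (nE F * (2 * M + 1) + 1)))
        = (nE F * (2 * M + 1)) * min 1 (ε / 4 / (nE F * (2 * M + 1) + 1)) := by ring
      _ ≤ (nE F * (2 * M + 1) + 1) * (ε / 4 / (nE F * (2 * M + 1) + 1)) := by
          gcongr
          linarith
      _ = ε / 4 := by field_simp
  obtain ⟨δ1, hδ1, hT⟩ := hT1R F ε2 hε2
  -- the elements of the ideal
  have hg1 : ∀ l i, ∃ g : I, ι g = star (xt l i) * xt l i - star (bt l) * bt l := by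
    intro l i
    refine (hext.exact _).1 ?_
    rw [map_sub, map_mul, map_mul, map_star, map_star, hxt, hbt, ← hb]
    exact norm_le_zero_iff.1 (hxk.1 l i)
  have hg2 : ∀ l i j, ∃ g : I, i ≠ j → ι g = star (xt l i) * xt l j := by
    intro l i j
    by_cases hij : i = j
    · exact ⟨0, fun h => absurd hij h⟩
    · obtain ⟨g, hg⟩ := (hext.exact (star (xt l i) * xt l j)).1 (by
        rw [map_mul, map_star, hxt, hxt]
        exact norm_le_zero_iff.1 (hxk.2.1 l i j hij))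
      exact ⟨g, fun _ => hg⟩
  have hg3 : ∀ l l' i j, ∃ g : I, l ≠ l' → ι g = star (xt l i) * xt l' j := by
    intro l l' i j
    by_cases hij : l = l'
    · exact ⟨0, fun h => absurd hij h⟩
    · obtain ⟨g, hg⟩ := (hext.exact (star (xt l i) * xt l' j)).1 (by
        rw [map_mul, map_star, hxt, hxt]
        exact norm_le_zero_iff.1 (hxk.2.2 l l' i j hij))
      exact ⟨g, fun _ => hg⟩
  choose g1 hg1 using hg1
  choose g2 hg2 using hg2
  choose g3 hg3 using hg3
  have hπΦ : ∀ y, ‖π (rowMap F xt y) - φ y‖ ≤ ε / 4 * ‖y‖ := by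
    intro y
    rw [rowMap_lift π F xt x hxt y]
    exact hxφ y
  have hP : Pos (rowMap F xt 1) := by
    let _ := CStarAlgebra.spectralOrder E
    let _ := CStarAlgebra.spectralOrderedRing E
    rw [pos_iff]
    have := (hR1 F E xt).nonneg (1 : F.alg)
    simpa using this
  have hP1 : ‖π (rowMap F xt 1)‖ ≤ 1 + ε / 4 := by
    have h1 := hπΦ 1
    have h2 := hφ.2 1
    have h3 := one_norm_le F
    have h4 : ‖π (rowMap F xt 1)‖ ≤ ‖π (rowMap F xt 1) - φ 1‖ + ‖φ 1‖ := by
      have := norm_add_le (π (rowMap F xt 1) - φ 1) (φ 1)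
      rwa [sub_add_cancel] at this
    nlinarith
  obtain ⟨m, hmsa, hmP⟩ := exists_m hext (rowMap F xt 1) hP (ε / 4) (by positivity) hP1
  -- the finite sets
  let C : Finset I := (Finset.univ.image fun p : Σ l, F.n l => g1 p.1 p.2) ∪
    (Finset.univ.image fun p : Σ l, F.n l × F.n l => g2 p.1 p.2.1 p.2.2) ∪
    (Finset.univ.image fun p : Σ l : F.ι × F.ι, F.n l.1 × F.n l.2 =>
      g3 p.1.1 p.1.2 p.2.1 p.2.2) ∪ {m}
  have hC1 : ∀ l i, g1 l i ∈ C := fun l i => by
    refine Finset.mem_union_left _ (Finset.mem_union_left _ (Finset.mem_union_left _ ?_))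
    exact Finset.mem_image.2 ⟨⟨l, i⟩, Finset.mem_univ _, rfl⟩
  have hC2 : ∀ l i j, g2 l i j ∈ C := fun l i j => by
    refine Finset.mem_union_left _ (Finset.mem_union_left _ (Finset.mem_union_right _ ?_))
    exact Finset.mem_image.2 ⟨⟨l, i, j⟩, Finset.mem_univ _, rfl⟩
  have hC3 : ∀ l l' i j, g3 l l' i j ∈ C := fun l l' i j => by
    refine Finset.mem_union_left _ (Finset.mem_union_right _ ?_)
    exact Finset.mem_image.2 ⟨⟨(l, l'), i, j⟩, Finset.mem_univ _, rfl⟩
  have hCm : m ∈ C := Finset.mem_union_right _ (Finset.mem_singleton_self m)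
  let S : Finset E := Finset.univ.image fun p : Σ l, F.n l => xt p.1 p.2
  have hS : ∀ l i, xt l i ∈ S := fun l i =>
    Finset.mem_image.2 ⟨⟨l, i⟩, Finset.mem_univ _, rfl⟩
  -- tolerances
  obtain ⟨η, hη, hηε, hηδ⟩ : ∃ η : ℝ, 0 < η ∧ η ≤ ε / 4 ∧ 2 * M * η + η ≤ δ1 := by
    refine ⟨min (ε / 4) (δ1 / (2 * M + 1)), by positivity, min_le_left _ _, ?_⟩
    calc 2 * M * min (ε / 4) (δ1 / (2 * M + 1)) + min (ε / 4) (δ1 / (2 * M + 1))
        = (2 * M + 1) * min (ε / 4) (δ1 / (2 * M + 1)) := by ring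
      _ ≤ (2 * M + 1) * (δ1 / (2 * M + 1)) := by
          gcongr
          exact min_le_right _ _
      _ = δ1 := by field_simp
  obtain ⟨δ2, hδ2, hcom⟩ := hCOM (fun s : ℝ => Real.sqrt (1 - s ^ 2)) M η (by fun_prop) hη
  obtain ⟨Gm, hGm0, hGm⟩ : ∃ Gm : ℝ, 0 ≤ Gm ∧ ∀ c ∈ C, ‖c‖ ≤ Gm :=
    ⟨∑ c ∈ C, ‖c‖, by positivity, fun c hc =>
      Finset.single_le_sum (f := fun c => ‖c‖) (fun c _ => norm_nonneg _) hc⟩
  obtain ⟨δ, hδ, hδδ2, hδη⟩ : ∃ δ : ℝ, 0 < δ ∧ δ ≤ δ2 ∧ 2 * Gm * δ ≤ η ^ 2 := by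
    refine ⟨min δ2 (η ^ 2 / (2 * Gm + 1)), by positivity, min_le_left _ _, ?_⟩
    calc 2 * Gm * min δ2 (η ^ 2 / (2 * Gm + 1)) ≤ (2 * Gm + 1) * (η ^ 2 / (2 * Gm + 1)) := by
          gcongr
          · linarith
          · exact min_le_right _ _
      _ = η ^ 2 := by field_simp
  refine ⟨rowMap F xt, C, S, δ, hδ, ?_, ?_⟩
  · intro y
    refine (hπΦ y).trans ?_
    gcongr
    linarith
  intro t ht ht1 htC htS
  -- the element a
  have hTP : Pos ((ι t : E) : Unitization ℂ E) := by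
    obtain ⟨s, rfl⟩ := ht
    exact ⟨((ι s : E) : Unitization ℂ E), by
      rw [map_mul, map_star, Unitization.inr_mul, Unitization.inr_star]⟩
  have hT1 : ‖((ι t : E) : Unitization ℂ E)‖ ≤ 1 := by
    rw [Unitization.norm_inr]
    exact (NonUnitalStarAlgHom.norm_apply_le ι t).trans ht1
  obtain ⟨ha, ha2, ha1⟩ := sqrt_facts ((ι t : E) : Unitization ℂ E) hTP hT1
  change star (cut ι t) = cut ι t at ha
  change cut ι t * cut ι t = _ at ha2
  change ‖cut ι t‖ ≤ 1 at ha1
  have hTsa : star ((ι t : E) : Unitization ℂ E) = ((ι t : E) : Unitization ℂ E) := by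
    obtain ⟨s, hs⟩ := hTP
    rw [hs, star_mul, star_star]
  have hideal : ∀ c ∈ C, ‖cut ι t * ((ι c : E) : Unitization ℂ E)‖ ≤ η := fun c hc =>
    ideal_small ι t c ht1 (cut ι t) ha ha2 Gm δ η (hGm c hc) hη.le hδη (htC c hc)
  have hcomm : ∀ l i, ‖cut ι t * (xt l i : Unitization ℂ E)
      - (xt l i : Unitization ℂ E) * cut ι t‖ ≤ η := by
    intro l i
    refine hcom (Unitization ℂ E) ((ι t : E) : Unitization ℂ E) (xt l i : Unitization ℂ E) hTP hT1
      ?_ ?_
    · rw [Unitization.norm_inr]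
      exact hM l i
    · rw [← Unitization.inr_mul, ← Unitization.inr_mul, ← Unitization.inr_sub,
        Unitization.norm_inr]
      exact (htS _ (hS l i)).trans hδδ2
  have hXM : ∀ l i, ‖(xt l i : Unitization ℂ E)‖ ≤ M := fun l i => by
    rw [Unitization.norm_inr]
    exact hM l i
  -- the almost row
  have hrow : IsRow F (fun l i => mulL (cut ι t) (xt l i))
      (fun l => star (mulR (bt l) (cut ι t)) * mulR (bt l) (cut ι t)) δ1 := by
    refine ⟨fun l i => ?_, fun l i j hij => ?_, fun l l' i j hll => ?_⟩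
    · rw [← Unitization.norm_inr (𝕜 := ℂ), Unitization.inr_sub, Unitization.inr_mul,
        Unitization.inr_mul, Unitization.inr_star, Unitization.inr_star, inr_mulL, inr_mulR]
      have e : star ((bt l : Unitization ℂ E) * cut ι t) * ((bt l : Unitization ℂ E) * cut ι t) =
          cut ι t * (star (bt l : Unitization ℂ E) * (bt l : Unitization ℂ E)) * cut ι t := by
        rw [star_mul, ha]; noncomm_ring
      rw [e]
      refine (row_est (cut ι t) _ _ _ ((ι (g1 l i) : E) : Unitization ℂ E) M η hη.le ha ha1 hM0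
        (hXM l i) (hXM l i) (hcomm l i) (hcomm l i) (hideal _ (hC1 l i)) ?_).trans hηδ
      rw [hg1, Unitization.inr_sub, Unitization.inr_mul, Unitization.inr_mul,
        Unitization.inr_star, Unitization.inr_star]
    · rw [← Unitization.norm_inr (𝕜 := ℂ), Unitization.inr_mul, Unitization.inr_star, inr_mulL,
        inr_mulL]
      have := (row_est (cut ι t) _ _ 0 ((ι (g2 l i j) : E) : Unitization ℂ E) M η hη.le ha ha1 hM0
        (hXM l i) (hXM l j) (hcomm l i) (hcomm l j) (hideal _ (hC2 l i j)) (by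
          rw [hg2 l i j hij, Unitization.inr_mul, Unitization.inr_star, sub_zero])).trans hηδ
      simpa using this
    · rw [← Unitization.norm_inr (𝕜 := ℂ), Unitization.inr_mul, Unitization.inr_star, inr_mulL,
        inr_mulL]
      have := (row_est (cut ι t) _ _ 0 ((ι (g3 l l' i j) : E) : Unitization ℂ E) M η hη.le ha ha1
        hM0 (hXM l i) (hXM l' j) (hcomm l i) (hcomm l' j) (hideal _ (hC3 l l' i j)) (by
          rw [hg3 l l' i j hll, Unitization.inr_mul, Unitization.inr_star, sub_zero])).trans hηδ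
      simpa using this
  obtain ⟨z, k', hz, -, hzx, -⟩ := hT E _ _ (fun l => ⟨_, rfl⟩) hrow
  have hYM : ∀ l i, ‖mulL (cut ι t) (xt l i)‖ ≤ M := by
    intro l i
    rw [← Unitization.norm_inr (𝕜 := ℂ), inr_mulL]
    refine (norm_mul_le _ _).trans ?_
    calc ‖cut ι t‖ * ‖(xt l i : Unitization ℂ E)‖ ≤ 1 * M :=
          mul_le_mul ha1 (hXM l i) (norm_nonneg _) zero_le_one
      _ = M := one_mul M
  have hdiff : ∀ y, ‖((rowMap F z y : E) : Unitization ℂ E)
      - cut ι t * ((rowMap F xt y : E) : Unitization ℂ E) * cut ι t‖ ≤ ε / 4 * ‖y‖ := by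
    intro y
    rw [← inr_rowMap F xt (cut ι t) ha y, ← Unitization.inr_sub, Unitization.norm_inr]
    refine (rowMap_sub_le F z _ ε2 M hε2.le hε21 hM0 hzx hYM y).trans ?_
    gcongr
  refine ⟨rowMap F z, hR1 F E z, hR2 F E z k' hz, ?_, ?_⟩
  · intro y
    refine (hdiff y).trans ?_
    gcongr
    linarith
  · rw [map_mul, Unitization.inr_mul]
    have hd1 := hdiff 1
    have h1 := one_norm_le F
    refine final_ineq ((ι t : E) : Unitization ℂ E) (cut ι t)
      ((rowMap F xt 1 : E) : Unitization ℂ E) ((ι m : E) : Unitization ℂ E) _ ε (ε / 4) η (ε / 4)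
      ha ha2 hTsa (by positivity) (by linarith) ?_ hmsa ?_ ?_ ?_ (hd1.trans (by nlinarith))
    · push_cast at hmP ⊢
      exact hmP
    · refine (norm_mul_le _ _).trans ?_
      calc ‖cut ι t * ((ι m : E) : Unitization ℂ E)‖ * ‖cut ι t‖ ≤ η * 1 :=
            mul_le_mul (hideal m hCm) ha1 (norm_nonneg _) hη.le
        _ = η := mul_one η
    · rw [← Unitization.inr_star, ← (hR1 F E xt).star_map, star_one]
    · rw [← Unitization.inr_star, ← (hR1 F E z).star_map, star_one]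

end Pool.Agent.Helper7_ND.J_LFT
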