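import Pool.Agent.Helper7_ND.Stm2

/-
Project MP_30b5b4_an (owner helper7): dim_nuc(E) <= dim_nuc(I) + dim_nuc(D) for C*-algebra extensions.
SETUP: in /workdir/pool/outputs/live: git fetch -q; then copy from origin/main to /workdir/pool at the same paths:
Pool/Agent/Helper7_ND/Stm.lean, Pool/Agent/Helper7_ND/Stm2.lean, Pool/Agent/W659/EC/CP.lean, CP2.lean, Defs.lean; lake build Pool.Agent.Helper7_ND.Stm2.
All definitions (Pos, Prj, OZ, IsRow, IsRP, Polar, SpecU, CutA, ...) and the statement StLN are in Stm.lean. Useful lemmas on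
completely positive maps: W659/EC/CP.lean (IsCP.add/comp/sum/smul, isCP_hom, isCP_of_family, nonneg_iff_star, mpos_iff),
CP2.lean (IsCP.schwarz, IsCP.nonneg, IsCP.star_map, IsCP.norm_le, IsCP.isCPC, compr, isCP_compr).
For the order use `let _ := CStarAlgebra.spectralOrder A; let _ := CStarAlgebra.spectralOrderedRing A` (Pos a is then 0 <= a by
CStarAlgebra.nonneg_iff_eq_star_mul_self). The file will be landed, so keep to RULES.md (no banned words/characters), keep all
helper lemmas inside the namespace, do not change Stm.lean. If the statement is false or lacks a hypothesis say so in note.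
Full paper proof of the whole theorem: papers table, pid MP_30b5b4_an.

TARGET t_LN : StLN. PROOF. c = ‖π e‖, h = star e * e. k(s) = min 1 (c/√s) for s > 0, k(s) = 1 for s <= 0... If c = 0 take e' = 0. If c > 0:
k(s) = c / max c (√s) is continuous on ℝ (Real.sqrt = 0 for negative s), k(s) - 1 vanishes at 0 and on [0,c²]. e' = e + e * cfcₙ (k - 1) h.
π h = star (π e) * π e has spectrum in [0,c²], so π (cfcₙ (k-1) h) = cfcₙ (k-1) (π h) = 0 (NonUnitalStarAlgHom.map_cfcₙ), π e' = π e.
star e' * e' = k(h) h k(h) = (k² s)(h) (write it as cfcₙ of s + 2 s (k-1) + s (k-1)², i.e. s k(s)²) whose norm is <= sup s k(s)² <= c².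
-/
set_option autoImplicit false

open scoped Matrix.Norms.L2Operator ENNReal Matrix
open Pool.Agent.W659.EC

noncomputable section

namespace Pool.Agent.Helper7_ND.J_LN

theorem t_LN : StLN := by
  intro E D _ _ π e
  let _ := CStarAlgebra.spectralOrder E
  let _ := CStarAlgebra.spectralOrderedRing E
  by_cases hc : ‖π e‖ = 0
  · exact ⟨0, by rw [map_zero]; exact (norm_eq_zero.1 hc).symm, by simp⟩
  have hc0 : 0 < ‖π e‖ := lt_of_le_of_ne (norm_nonneg _) (Ne.symm hc)
  set c : ℝ := ‖π e‖ with hcdef
  set h : E := star e * e with hh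
  have hsa : IsSelfAdjoint h := IsSelfAdjoint.star_mul_self e
  have hsaπ : IsSelfAdjoint (π h) := hsa.map π
  have hπc : Continuous π := AddMonoidHomClass.continuous_of_bound π 1 (fun x => by
    rw [one_mul]; exact NonUnitalStarAlgHom.norm_apply_le π x)
  let g : ℝ → ℝ := fun s => c / max c (Real.sqrt s) - 1
  have hm : ∀ s : ℝ, 0 < max c (Real.sqrt s) := fun s => lt_max_of_lt_left hc0
  have hgc : Continuous g := by
    refine Continuous.sub (Continuous.div continuous_const (by fun_prop) fun s => (hm s).ne')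
      continuous_const
  have hg0 : g 0 = 0 := by
    simp only [g, Real.sqrt_zero, max_eq_left hc0.le]
    rw [div_self hc0.ne', sub_self]
  set k : E := cfcₙ g h with hk
  have hksa : IsSelfAdjoint k := cfcₙ_predicate g h
  have hπk : π k = 0 := by
    rw [hk, NonUnitalStarAlgHom.map_cfcₙ π g h hgc.continuousOn hg0 hπc hsa hsaπ]
    rw [← norm_eq_zero]
    refine le_antisymm ?_ (norm_nonneg _)
    refine norm_cfcₙ_le fun x hx => ?_
    have h1 : ‖x‖ ≤ ‖π h‖ := by
      have := norm_apply_le_norm_cfcₙ (id : ℝ → ℝ) (π h) hx continuous_id.continuousOn rfl hsaπ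
      rwa [cfcₙ_id ℝ (π h) hsaπ] at this
    have h2 : ‖π h‖ = c * c := by
      rw [hh, map_mul, map_star, CStarRing.norm_star_mul_self]
    rw [h2] at h1
    have h3 : x ≤ c * c := (le_abs_self x).trans h1
    have h4 : Real.sqrt x ≤ c := by
      rw [Real.sqrt_le_left hc0.le]
      nlinarith
    simp only [g, max_eq_left h4]
    rw [div_self hc0.ne', sub_self, norm_zero]
  refine ⟨e + e * k, ?_, ?_⟩
  · rw [map_add, map_mul, hπk, mul_zero, add_zero]
  · have h5 : star (e + e * k) * (e + e * k) = cfcₙ (fun s : ℝ => s * (1 + g s) ^ 2) h := by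
      have e1 : cfcₙ (fun s : ℝ => s * (1 + g s) ^ 2) h
          = cfcₙ (fun s : ℝ => (s + g s * s) + (s * g s + g s * s * g s)) h := by
        congr 1
        funext s
        ring
      rw [e1]
      have hid0 : (fun s : ℝ => s) 0 = 0 := rfl
      rw [cfcₙ_add (fun s : ℝ => s + g s * s) (fun s : ℝ => s * g s + g s * s * g s) h
        (by fun_prop) (by simp [hg0]) (by fun_prop) (by simp [hg0])]
      rw [cfcₙ_add (fun s : ℝ => s) (fun s : ℝ => g s * s) h
        (by fun_prop) rfl (by fun_prop) (by simp [hg0])]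
      rw [cfcₙ_add (fun s : ℝ => s * g s) (fun s : ℝ => g s * s * g s) h
        (by fun_prop) (by simp [hg0]) (by fun_prop) (by simp [hg0])]
      rw [cfcₙ_mul (fun s : ℝ => s) g h (by fun_prop) rfl (by fun_prop) hg0]
      rw [cfcₙ_mul (fun s : ℝ => g s * s) g h (by fun_prop) (by simp [hg0]) (by fun_prop) hg0]
      rw [cfcₙ_mul g (fun s : ℝ => s) h (by fun_prop) hg0 (by fun_prop) rfl]
      rw [cfcₙ_id' ℝ h hsa, ← hk]
      rw [star_add, star_mul, hksa.star_eq, hh]
      noncomm_ring
    have h6 : ‖star (e + e * k) * (e + e * k)‖ ≤ c * c := by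
      rw [h5]
      refine norm_cfcₙ_le fun s hs => ?_
      have hs0 : 0 ≤ s := quasispectrum_nonneg_of_nonneg h (star_mul_self_nonneg e) s hs
      have h7 : 1 + g s = c / max c (Real.sqrt s) := by simp only [g]; ring
      rw [h7, Real.norm_of_nonneg (by positivity), div_pow, mul_div_assoc', div_le_iff₀ (by have := hm s; positivity)]
      have h8 : Real.sqrt s ≤ max c (Real.sqrt s) := le_max_right _ _
      have h9 : s ≤ (max c (Real.sqrt s)) ^ 2 := by
        calc s = Real.sqrt s ^ 2 := (Real.sq_sqrt hs0).symm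
          _ ≤ _ := by
            have := Real.sqrt_nonneg s
            gcongr
      nlinarith [mul_le_mul_of_nonneg_left h9 (sq_nonneg c)]
    rw [CStarRing.norm_star_mul_self] at h6
    nlinarith [norm_nonneg (e + e * k)]

end Pool.Agent.Helper7_ND.J_LN
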