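import Pool.Agent.Helper7_ND.Stm

/-! # Nuclear dimension of extensions: further statements -/

set_option autoImplicit false

open scoped Matrix.Norms.L2Operator ENNReal Matrix
open Pool.Agent.W659.EC

noncomputable section

namespace Pool.Agent.Helper7_ND

/-- S0a: normal elements can be moved off finitely many points -/
def StS0a : Prop :=
  ∀ (Q : Type) [CStarAlgebra Q], Polar Q → ∀ y : Q, star y * y = y * star y →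
    ∀ (S : Finset ℂ) (ε : ℝ), 0 < ε →
    ∃ y' : Q, star y' * y' = y' * star y' ∧ ‖y' - y‖ ≤ ε ∧ ∀ c ∈ S, c ∉ spectrum ℂ y'

/-- S0b: retraction of the spectrum onto a ladder -/
def StS0b : Prop :=
  ∀ (Q : Type) [CStarAlgebra Q] (y : Q), star y * y = y * star y → ∀ M : ℕ,
    ‖y‖ ≤ M → 1 ≤ M → (∀ j : ℤ, |j| ≤ M → (2 * (j : ℂ) * Complex.I) ∉ spectrum ℂ y) →
    ∃ y2 : Q, star y2 * y2 = y2 * star y2 ∧ ‖y2 - y‖ ≤ 2 ∧ ∀ z ∈ spectrum ℂ y2,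
      1 ≤ |z.re| ∨ ∃ j : ℤ, -(M : ℤ) - 1 ≤ j ∧ j ≤ M ∧ z.im = 2 * j + 1

/-- S0c: cutting a normal element whose spectrum crosses a strip along segments -/
def StS0c : Prop :=
  ∀ (Q : Type) [CStarAlgebra Q], SpecU Q → ∀ y : Q, star y * y = y * star y →
    ∀ M : ℕ, (∀ z ∈ spectrum ℂ y,
      1 ≤ |z.re| ∨ ∃ j : ℤ, -(M : ℤ) - 1 ≤ j ∧ j ≤ M ∧ z.im = 2 * j + 1) →
    ∃ p : Q, Prj p ∧ p * y = y * p ∧
      (∀ f : ℂ → ℂ, Continuous f → (∀ z : ℂ, z.re ≤ 1 → f z = 0) → p * cfc f y = 0) ∧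
      (∀ f : ℂ → ℂ, Continuous f → (∀ z : ℂ, -1 ≤ z.re → f z = 0) → (1 - p) * cfc f y = 0)

/-- ALGA: the two projections -/
def StALGA : Prop :=
  ∀ (R : Type) [CStarAlgebra R], CutE R → SpecS R →
    ∀ (F : FDA) (κ : F.alg →ₗ[ℂ] R) (s b : R) (ε : ℝ), 0 < ε →
    IsCP κ → OZ κ → ‖κ 1‖ ≤ 2 → Pos s → (∀ y, κ y * s = s * κ y) → Pos b →
    (κ 1 - s) * b = 0 →
    ∃ (p q : R) (η : ℝ), Prj p ∧ Prj q ∧ 0 < η ∧ (∀ y, p * κ y = κ y * p) ∧ p * s = s * p ∧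
      (∀ X, (κ 1 - s) * X = 0 → p * X = 0) ∧ p * q = 0 ∧ Pos (s + b - (η : ℂ) • q) ∧
      ‖κ 1 * (1 - p - q)‖ ≤ ε ∧ ‖(1 - p - q) * b * (1 - p - q)‖ ≤ ε

/-- VW: asymptotically invariant nets in the ideal (used in MRG) -/
def StVW : Prop :=
  ∀ (I E : Type) [NonUnitalCStarAlgebra I] [NonUnitalCStarAlgebra E] (ι : I →⋆ₙₐ[ℂ] E),
    IsIdeal ι → ∀ (t : I) (S : Finset E),
    ∃ u v : ℕ → I, (∀ k, Pos (u k) ∧ ‖u k‖ ≤ 1 ∧ Pos (v k) ∧ ‖v k‖ ≤ 1) ∧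
      Filter.Tendsto (fun k => ‖u k * t - t‖) Filter.atTop (nhds 0) ∧
      Filter.Tendsto (fun k => ‖v k * u k - u k‖) Filter.atTop (nhds 0) ∧
      (∀ x ∈ S, Filter.Tendsto (fun k => ‖ι (u k) * x - x * ι (u k)‖) Filter.atTop (nhds 0)) ∧
      ∀ x ∈ S, Filter.Tendsto (fun k => ‖ι (v k) * x - x * ι (v k)‖) Filter.atTop (nhds 0)

/-- CPN: norms of completely positive maps on non-unital algebras -/
def StCPN : Prop :=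
  ∀ (A B : Type) [NonUnitalCStarAlgebra A] [NonUnitalCStarAlgebra B] (T : A →ₗ[ℂ] B) (M : ℝ),
    IsCP T → (∀ x, Pos x → ‖x‖ ≤ 1 → ‖T x‖ ≤ M) → ∀ x, ‖T x‖ ≤ M * ‖x‖

end Pool.Agent.Helper7_ND
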