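
import Pool.Agent.Helper7_ND.Stm2

set_option autoImplicit false

open scoped Matrix.Norms.L2Operator ENNReal Matrix
open Pool.Agent.W659.EC

noncomputable section

namespace Pool.Agent.Helper7_ND.J_ND

/-- evaluation of a family of finite-dimensional algebras is completely positive and contractive -/
theorem isCPC_proj {J : Type} [Fintype J] (F : J → FDA) (j : J) :
    IsCPC (LinearMap.proj (R := ℂ) (φ := fun i => (F i).alg) j) :=
  isCPC_hom (Pi.evalNonUnitalStarAlgHom ℂ (fun i => (F i).alg) j) _ (fun _ => rfl)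

/-- a component of a decomposable system, placed at the colour `c` -/
theorem comp_at {A : Type} [NonUnitalCStarAlgebra A] {I K : Type} [Fintype I] (u : I → K)
    (hu : Function.Injective u) (i₀ : I) (F : I → FDA) (ψ : A →ₗ[ℂ] ∀ j, (F j).alg)
    (φ : ∀ j, (F j).alg →ₗ[ℂ] A) (hψ : IsCPC ψ) (hφ : ∀ j, IsCPC (φ j) ∧ IsOrderZero (φ j))
    (c : K) : ∃ (G : FDA) (α : A →ₗ[ℂ] G.alg) (β : G.alg →ₗ[ℂ] A), IsCPC α ∧
      (IsCPC β ∧ IsOrderZero β) ∧ (∀ j, u j = c → ∀ a, φ j (ψ a j) = β (α a)) ∧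
      ((∀ j, u j ≠ c) → ∀ a, β (α a) = 0) := by
  by_cases h : ∃ j, u j = c
  · obtain ⟨j, rfl⟩ := h
    refine ⟨F j, LinearMap.proj (R := ℂ) (φ := fun i => (F i).alg) j ∘ₗ ψ, φ j,
      (isCPC_proj F j).comp hψ, hφ j, ?_, fun h => absurd rfl (h j)⟩
    intro i hi a
    obtain rfl := hu hi
    rfl
  · push Not at h
    refine ⟨F i₀, 0, 0, ⟨IsCP.zero, fun a => ?_⟩, ⟨⟨IsCP.zero, fun a => ?_⟩, ?_⟩,
      fun j hj => absurd hj (h j), fun _ a => rfl⟩
    · simp
    · simp
    · intro a b _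
      simp

theorem sysAll_of {A : Type} [NonUnitalCStarAlgebra A] {d' d : ℕ} (hd : d' ≤ d)
    (h : ∀ (G : Finset A) (ε : ℝ), 0 < ε → ∃ r, HasDec A d' G ε r) :
    SysAll A (Option (Fin d)) := by
  intro G ε hε
  obtain ⟨r, F, _, ψ, φ, hψ, hφ, happ⟩ := h G ε hε
  obtain ⟨u⟩ : Nonempty (Fin (d' + 1) ↪ Option (Fin d)) := by
    apply Function.Embedding.nonempty_of_card_le
    simp only [Fintype.card_fin, Fintype.card_option]
    omega
  choose F' ψ' φ' h1 h2 h3 h4 using fun c => comp_at u u.injective 0 F ψ φ hψ hφ c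
  refine ⟨F', ψ', φ', h1, h2, fun a ha => ?_⟩
  have hs : ∑ j, φ j (ψ a j) = ∑ c, φ' c (ψ' c a) := by
    refine Fintype.sum_of_injective u u.injective _ _ ?_ ?_
    · intro c hc
      exact h4 c (fun j hj => hc ⟨j, hj⟩) a
    · intro j
      exact h3 (u j) j rfl a
  rw [← hs]
  exact happ a ha

theorem nucDim_le_of {A : Type} [NonUnitalCStarAlgebra A] (J : Type) [Fintype J]
    (h : SysAll A (Option J)) : nucDim A ≤ (Fintype.card J : ℕ∞) := by
  classical
  unfold nucDim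
  refine iInf₂_le (Fintype.card J) ?_
  intro G ε hε
  obtain ⟨F, ψ, φ, hψ, hφ, happ⟩ := h G ε hε
  have e : Fin (Fintype.card J + 1) ≃ Option J :=
    (Fintype.equivFinOfCardEq (by simp)).symm
  refine ⟨_, fun i => F (e i), rfl, LinearMap.pi (fun i => ψ (e i)), fun i => φ (e i), ⟨?_, ?_⟩,
    fun i => hφ (e i), fun a ha => ?_⟩
  · refine isCP_of_family (E := fun i => (F (e i)).alg)
      (fun i => Pi.evalNonUnitalStarAlgHom ℂ (fun i => (F (e i)).alg) i) ?_ _ ?_
    · intro b hb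
      exact funext hb
    · intro i
      exact (hψ (e i)).1
  · intro a
    rw [pi_norm_le_iff_of_nonneg (norm_nonneg a)]
    intro i
    exact (hψ (e i)).2 a
  · have hs : ∑ i, φ (e i) (ψ (e i) a) = ∑ c, φ c (ψ c a) :=
      Equiv.sum_comp e (fun c => φ c (ψ c a))
    have := happ a ha
    rw [← hs] at this
    exact this

theorem t_ND : StND := by
  refine ⟨?_, fun A _ J _ h => nucDim_le_of J h⟩
  intro A _ d hd
  by_contra hcon
  have h1 : ((d + 1 : ℕ) : ℕ∞) ≤ nucDim A := by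
    unfold nucDim
    refine le_iInf₂ fun d' hd' => ?_
    rw [Nat.cast_le]
    by_contra hlt
    exact hcon (sysAll_of (by omega) hd')
  have h2 := h1.trans hd
  rw [Nat.cast_le] at h2
  omega

end Pool.Agent.Helper7_ND.J_ND
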