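import Pool.Agent.Helper7_ND.Stm2

set_option autoImplicit false

open scoped Matrix.Norms.L2Operator ENNReal Matrix
open Pool.Agent.W659.EC

noncomputable section

namespace Pool.Agent.Helper7_ND.J_NRM

section oz

variable {F : FDA} {A : Type} [NonUnitalCStarAlgebra A] {φ : F.alg →ₗ[ℂ] A}

theorem star_eq (h : IsCP φ) (a : F.alg) : φ (star a) = star (φ a) := h.star_map a

theorem comm_one (hz : OZ φ) (x : F.alg) : φ x * φ 1 = φ 1 * φ x := by
  rw [hz x 1, mul_one]

theorem prj_sq (hz : OZ φ) {P : F.alg} (hP : P * P = P) : φ 1 * φ P = φ P * φ P := by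
  rw [hz P P, hP]

theorem sa {P : F.alg} (h : IsCP φ) (hP : star P = P) : star (φ P) = φ P := by
  rw [← star_eq h, hP]

/-- norms of powers of self-adjoint elements -/
theorem norm_sq {x : A} (hx : star x = x) : ‖x * x‖ = ‖x‖ ^ 2 := by
  nth_rewrite 1 [← hx]
  rw [CStarRing.norm_star_mul_self, sq]

theorem norm_cube {x : A} (hx : star x = x) : ‖x‖ ^ 3 ≤ ‖x * (x * x)‖ := by
  by_cases h0 : ‖x‖ = 0
  · rw [h0]; simp
  have h1 : star (x * x) = x * x := by rw [star_mul, hx]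
  have h2 := norm_sq h1
  rw [norm_sq hx] at h2
  have h3 : ‖x * x * (x * x)‖ ≤ ‖x‖ * ‖x * (x * x)‖ := by
    rw [mul_assoc]
    exact norm_mul_le _ _
  rw [h2] at h3
  have h4 : 0 < ‖x‖ := lt_of_le_of_ne (norm_nonneg _) (Ne.symm h0)
  have h5 : ‖x‖ * ‖x‖ ^ 3 ≤ ‖x‖ * ‖x * (x * x)‖ := by
    refine le_trans (le_of_eq ?_) h3
    ring
  exact le_of_mul_le_mul_left h5 h4

/-- comparison of norms -/
theorem cmp (h : IsCP φ) (hz : OZ φ) {E P w : F.alg} (hE : star E = E) (hE2 : E * E = E)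
    (hw : star w * w = E) (hPw : star w * P * w = E) : ‖φ E‖ ≤ ‖φ P‖ := by
  have hEsa := sa h hE
  have h1 : φ (star w) * φ P * φ w = φ E * (φ E * φ E) := by
    rw [hz (star w) P, mul_assoc, hz (star w * P) w, hPw, prj_sq hz hE2, ← mul_assoc,
      prj_sq hz hE2, mul_assoc]
  have h2 : ‖φ w‖ ^ 2 = ‖φ E‖ ^ 2 := by
    rw [sq, ← CStarRing.norm_star_mul_self, ← star_eq h, hz, hw, prj_sq hz hE2, norm_sq hEsa]
  have h2' : ‖φ w‖ = ‖φ E‖ := by
    have := (sq_eq_sq₀ (norm_nonneg _) (norm_nonneg _)).1 h2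
    exact this
  have h3 : ‖φ E‖ ^ 3 ≤ ‖φ E‖ ^ 2 * ‖φ P‖ := by
    refine (norm_cube hEsa).trans ?_
    rw [← h1]
    refine (norm_mul_le _ _).trans ?_
    refine (mul_le_mul_of_nonneg_right (norm_mul_le _ _) (norm_nonneg _)).trans ?_
    rw [star_eq h, norm_star, h2']
    exact le_of_eq (by ring)
  by_cases h0 : ‖φ E‖ = 0
  · rw [h0]; exact norm_nonneg _
  have h4 : 0 < ‖φ E‖ := lt_of_le_of_ne (norm_nonneg _) (Ne.symm h0)
  have h5 : ‖φ E‖ ^ 2 * ‖φ E‖ ≤ ‖φ E‖ ^ 2 * ‖φ P‖ := by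
    refine le_trans (le_of_eq ?_) h3
    ring
  exact le_of_mul_le_mul_left h5 (by positivity)

/-- the lower bound -/
theorem lower (h : IsCP φ) (hz : OZ φ) {a P : F.alg} {c : ℝ} (hc : 0 ≤ c) (hP : star P = P)
    (hP2 : P * P = P) (ha : star a * a * P = ((c ^ 2 : ℝ) : ℂ) • P) (hP1 : 1 ≤ ‖φ P‖) :
    c ≤ ‖φ a * φ 1‖ := by
  have hx := sa h hP
  have hh : star (φ 1) = φ 1 := sa h (star_one _)
  set x := φ P with hxd
  set k := φ 1 with hkd
  have e1 : k * x = x * x := prj_sq hz hP2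
  have e2 : x * k = x * x := by rw [comm_one hz, e1]
  have e3 : k * φ a = φ a * k := (comm_one hz a).symm
  have key : star (φ a * k * x) * (φ a * k * x) =
      ((c ^ 2 : ℝ) : ℂ) • (star (x * (x * x)) * (x * (x * x))) := by
    have s1 : star (φ a * k * x) = x * (k * φ (star a)) := by
      rw [star_mul, star_mul, hx, hh, star_eq h]
    have s2 : star (x * (x * x)) = x * (x * x) := by
      rw [star_mul, star_mul, hx, mul_assoc]
    have s3 : φ (star a) * φ a = k * φ (star a * a) := hz _ _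
    have s4 : φ (star a * a) * x = ((c ^ 2 : ℝ) : ℂ) • (k * x) := by
      rw [hxd, hz, ha, map_smul, mul_smul_comm]
    rw [s1, s2]
    calc x * (k * φ (star a)) * (φ a * k * x)
        = x * (k * (φ (star a) * φ a * (k * x))) := by simp only [mul_assoc]
      _ = x * (k * (k * (φ (star a * a) * x * x))) := by
          rw [s3, e1]; simp only [mul_assoc]
      _ = ((c ^ 2 : ℝ) : ℂ) • (x * (k * (k * (k * x * x)))) := by
          rw [s4]; simp only [smul_mul_assoc, mul_smul_comm]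
      _ = ((c ^ 2 : ℝ) : ℂ) • (x * (x * x) * (x * (x * x))) := by
          congr 1
          have f1 : ∀ z : A, k * (x * z) = x * (x * z) := fun z => by
            rw [← mul_assoc, e1, mul_assoc]
          simp only [mul_assoc, f1]
  have h1 : ‖φ a * k * x‖ ^ 2 = c ^ 2 * ‖x * (x * x)‖ ^ 2 := by
    rw [sq, ← CStarRing.norm_star_mul_self, key, norm_smul, CStarRing.norm_star_mul_self]
    have : ‖((c ^ 2 : ℝ) : ℂ)‖ = c ^ 2 := by
      rw [Complex.norm_real, Real.norm_of_nonneg (by positivity)]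
    rw [this]
    ring
  have h2 : ‖φ a * k * x‖ = c * ‖x * (x * x)‖ := by
    rw [← mul_pow] at h1
    exact (sq_eq_sq₀ (norm_nonneg _) (by positivity)).1 h1
  have h3 := norm_cube hx
  have h4 : ‖φ a * k * x‖ ≤ ‖φ a * k‖ * ‖x‖ := norm_mul_le _ _
  have h5 : c * ‖x‖ ^ 3 ≤ ‖φ a * k‖ * ‖x‖ :=
    (mul_le_mul_of_nonneg_left h3 hc).trans (h2 ▸ h4)
  have h6 : c * ‖x‖ ^ 2 ≤ ‖φ a * k‖ := by
    have h7 : 0 < ‖x‖ := by linarith
    have : ‖x‖ * (c * ‖x‖ ^ 2) ≤ ‖x‖ * ‖φ a * k‖ := by nlinarith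
    exact le_of_mul_le_mul_left this h7
  have h8 : (1 : ℝ) ≤ ‖x‖ ^ 2 := one_le_pow₀ hP1
  nlinarith

end oz

/-! ### Matrices -/

/-- a projection onto a top eigenvector -/
theorem top_vec {n : Type} [Fintype n] [DecidableEq n] [Nonempty n] (M : Matrix n n ℂ) :
    ∃ v : n → ℂ, star v ⬝ᵥ v = 1 ∧
      star M * M * Matrix.vecMulVec v (star v) = ((‖M‖ ^ 2 : ℝ) : ℂ) • Matrix.vecMulVec v (star v)
    := by
  let _ := CStarAlgebra.spectralOrder (Matrix n n ℂ)
  let _ := CStarAlgebra.spectralOrderedRing (Matrix n n ℂ)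
  have h0 : (0 : Matrix n n ℂ) ≤ star M * M := star_mul_self_nonneg M
  have h1 := CStarAlgebra.norm_mem_spectrum_of_nonneg h0
  have hH : (star M * M).IsHermitian := Matrix.isHermitian_conjTranspose_mul_self M
  rw [hH.spectrum_real_eq_range_eigenvalues] at h1
  obtain ⟨i, hi⟩ := h1
  refine ⟨⇑(hH.eigenvectorBasis i), ?_, ?_⟩
  · have h2 := hH.eigenvectorBasis.orthonormal.1 i
    have h3 : inner ℂ (hH.eigenvectorBasis i) (hH.eigenvectorBasis i) = (1 : ℂ) := by
      rw [inner_self_eq_norm_sq_to_K, h2]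
      simp
    rw [EuclideanSpace.inner_eq_star_dotProduct] at h3
    rw [dotProduct_comm]
    exact h3
  · rw [Matrix.mul_vecMulVec, hH.mulVec_eigenvectorBasis, hi]
    rw [CStarRing.norm_star_mul_self, ← sq]
    ext a b
    simp [Matrix.vecMulVec_apply, mul_assoc]

theorem vec_prj {n : Type} [Fintype n] [DecidableEq n] {v : n → ℂ} (hv : star v ⬝ᵥ v = 1) :
    star (Matrix.vecMulVec v (star v)) = Matrix.vecMulVec v (star v) ∧
      Matrix.vecMulVec v (star v) * Matrix.vecMulVec v (star v) = Matrix.vecMulVec v (star v) := by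
  constructor
  · rw [Matrix.star_eq_conjTranspose, Matrix.conjTranspose_vecMulVec, star_star]
  · rw [Matrix.vecMulVec_mul_vecMulVec, hv, one_smul]

theorem vv_single {n : Type} [DecidableEq n] (i : n) :
    Matrix.vecMulVec (star (Pi.single i (1 : ℂ))) (Pi.single i (1 : ℂ)) =
      Matrix.single i i (1 : ℂ) := by
  ext a b
  simp only [Matrix.vecMulVec_apply, Matrix.single_apply, Pi.star_apply, Pi.single_apply]
  by_cases ha : a = i
  · subst ha
    by_cases hb : b = a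
    · subst hb; simp
    · simp [hb, Ne.symm hb]
  · simp [ha, Ne.symm ha]

theorem vv_single' {n : Type} [DecidableEq n] (i : n) :
    Matrix.vecMulVec (Pi.single i (1 : ℂ)) (star (Pi.single i (1 : ℂ))) =
      Matrix.single i i (1 : ℂ) := by
  ext a b
  simp only [Matrix.vecMulVec_apply, Matrix.single_apply, Pi.star_apply, Pi.single_apply]
  by_cases ha : a = i
  · subst ha
    by_cases hb : b = a
    · subst hb; simp
    · simp [hb, Ne.symm hb]
  · simp [ha, Ne.symm ha]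

theorem vec_w {n : Type} [Fintype n] [DecidableEq n] {v : n → ℂ} (hv : star v ⬝ᵥ v = 1) (i : n) :
    star (Matrix.vecMulVec v (Pi.single i 1)) * Matrix.vecMulVec v (Pi.single i 1) =
      Matrix.single i i (1 : ℂ) ∧
    Matrix.vecMulVec v (star v) * Matrix.vecMulVec v (Pi.single i 1) =
      Matrix.vecMulVec v (Pi.single i 1) := by
  constructor
  · rw [Matrix.star_eq_conjTranspose, Matrix.conjTranspose_vecMulVec,
      Matrix.vecMulVec_mul_vecMulVec, hv, one_smul]
    exact vv_single i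
  · rw [Matrix.vecMulVec_mul_vecMulVec, hv, one_smul]

/-! ### Blocks -/

section blocks

variable (F : FDA)

open Classical in
/-- elements supported in a block -/
def sg (l : F.ι) (X : Matrix (F.n l) (F.n l) ℂ) : F.alg := Pi.single l X

theorem mu_eq (l : F.ι) (i j : F.n l) : mu F l i j = sg F l (Matrix.single i j 1) := rfl

theorem sg_mul (l : F.ι) (X Y : Matrix (F.n l) (F.n l) ℂ) :
    sg F l (X * Y) = sg F l X * sg F l Y := by
  classical
  exact Pi.single_mul _ _ _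

theorem sg_star (l : F.ι) (X : Matrix (F.n l) (F.n l) ℂ) :
    sg F l (star X) = star (sg F l X) := by
  classical
  exact Pi.single_star _ _

theorem sg_smul (l : F.ι) (c : ℂ) (X : Matrix (F.n l) (F.n l) ℂ) :
    sg F l (c • X) = c • sg F l X := by
  classical
  exact Pi.single_smul _ _ _

theorem sg_add (l : F.ι) (X Y : Matrix (F.n l) (F.n l) ℂ) :
    sg F l (X + Y) = sg F l X + sg F l Y := by
  classical
  exact Pi.single_add _ _ _

theorem sg_same (l : F.ι) (X : Matrix (F.n l) (F.n l) ℂ) : sg F l X l = X := by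
  classical
  exact Pi.single_eq_same _ _

theorem sg_ne {l l' : F.ι} (h : l' ≠ l) (X : Matrix (F.n l) (F.n l) ℂ) : sg F l X l' = 0 := by
  classical
  exact Pi.single_eq_of_ne h _

theorem sum_sg (y : F.alg) : ∑ l, sg F l (y l) = y := by
  classical
  exact Finset.univ_sum_single y

theorem sg_mul_ne {l l' : F.ι} (h : l ≠ l') (X : Matrix (F.n l) (F.n l) ℂ)
    (Y : Matrix (F.n l') (F.n l') ℂ) : sg F l X * sg F l' Y = 0 := by
  funext m
  rw [Pi.mul_apply]
  by_cases hm : m = l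
  · subst hm
    rw [sg_ne F h, mul_zero]; rfl
  · rw [sg_ne F hm, zero_mul]; rfl

/-- `sg` as a homomorphism -/
def sgH (l : F.ι) : Matrix (F.n l) (F.n l) ℂ →⋆ₙₐ[ℂ] F.alg where
  toFun := sg F l
  map_smul' c X := sg_smul F l c X
  map_zero' := by
    classical
    exact Pi.single_zero _
  map_add' := sg_add F l
  map_mul' := sg_mul F l
  map_star' := sg_star F l

/-- restriction to a block as a homomorphism -/
def prH (l : F.ι) : F.alg →⋆ₙₐ[ℂ] Matrix (F.n l) (F.n l) ℂ where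
  toFun y := y l
  map_smul' _ _ := rfl
  map_zero' := rfl
  map_add' _ _ := rfl
  map_mul' _ _ := rfl
  map_star' _ := rfl

theorem one_eq : (1 : F.alg) = ∑ p : (l : F.ι) × F.n l, mu F p.1 p.2 p.2 := by
  rw [Fintype.sum_sigma]
  nth_rewrite 1 [← sum_sg F 1]
  refine Finset.sum_congr rfl fun l _ => ?_
  have h1 : (1 : Matrix (F.n l) (F.n l) ℂ) = ∑ i, Matrix.single i i (1 : ℂ) := by
    ext a b
    rw [Matrix.sum_apply]
    simp only [Matrix.single_apply, Matrix.one_apply]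
    by_cases hab : a = b
    · subst hab
      simp
    · rw [if_neg hab]
      symm
      refine Finset.sum_eq_zero fun i _ => ?_
      rw [if_neg]
      rintro ⟨rfl, rfl⟩
      exact hab rfl
  show sg F l (1 : Matrix (F.n l) (F.n l) ℂ) = _
  rw [h1]
  exact map_sum (sgH F l) _ _

end blocks

section main

variable {F : FDA} {A : Type} [NonUnitalCStarAlgebra A] {φ : F.alg →ₗ[ℂ] A}

theorem mu_star (l : F.ι) (i : F.n l) : star (mu F l i i) = mu F l i i := by
  rw [mu_eq, ← sg_star]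
  congr 1
  rw [Matrix.star_eq_conjTranspose, Matrix.conjTranspose_single, star_one]

theorem mu_sq (l : F.ι) (i : F.n l) : mu F l i i * mu F l i i = mu F l i i := by
  rw [mu_eq, ← sg_mul]
  congr 1
  simp

theorem mu_orth {p q : (l : F.ι) × F.n l} (h : p ≠ q) :
    mu F p.1 p.2 p.2 * mu F q.1 q.2 q.2 = 0 := by
  obtain ⟨l, i⟩ := p
  obtain ⟨l', i'⟩ := q
  by_cases hl : l = l'
  · subst hl
    have hi : i ≠ i' := fun e => h (by rw [e])
    simp only [mu_eq, ← sg_mul]
    rw [Matrix.single_mul_single_of_ne _ _ _ _ hi]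
    exact map_zero (sgH F l)
  · exact sg_mul_ne F hl _ _

/-- vector projections have norms at least those of the matrix units -/
theorem le_vec (h : IsCP φ) (hz : OZ φ) (l : F.ι) (i : F.n l) {v : F.n l → ℂ}
    (hv : star v ⬝ᵥ v = 1) :
    ‖φ (mu F l i i)‖ ≤ ‖φ (sg F l (Matrix.vecMulVec v (star v)))‖ := by
  obtain ⟨w1, w2⟩ := vec_w hv i
  refine cmp h hz (w := sg F l (Matrix.vecMulVec v (Pi.single i 1))) (mu_star l i) (mu_sq l i)
    ?_ ?_
  · rw [← sg_star, ← sg_mul, w1]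
    rfl
  · rw [mul_assoc, ← sg_mul, w2, ← sg_star, ← sg_mul, w1]
    rfl

theorem mu_norm (h : IsCP φ) (hz : OZ φ) (l : F.ι) (i j : F.n l) :
    ‖φ (mu F l i i)‖ = ‖φ (mu F l j j)‖ := by
  have key : ∀ i j : F.n l, ‖φ (mu F l i i)‖ ≤ ‖φ (mu F l j j)‖ := by
    intro i j
    have hv : star (Pi.single j (1 : ℂ)) ⬝ᵥ (Pi.single j (1 : ℂ)) = 1 := by simp
    have h1 := le_vec h hz l i hv
    rw [vv_single' j] at h1
    exact h1
  exact le_antisymm (key i j) (key j i)

/-! ### The modified map -/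

variable (F φ) in
open Classical in
/-- the norms on the blocks -/
def kp (l : F.ι) : ℝ := if h : Nonempty (F.n l) then ‖φ (mu F l h.some h.some)‖ else 0

theorem kp_eq (h : IsCP φ) (hz : OZ φ) (l : F.ι) (i : F.n l) :
    ‖φ (mu F l i i)‖ = kp F φ l := by
  have hn : Nonempty (F.n l) := ⟨i⟩
  unfold kp
  rw [dif_pos hn]
  exact mu_norm h hz l i _

theorem kp_nonneg (l : F.ι) : 0 ≤ kp F φ l := by
  unfold kp
  split_ifs
  · exact norm_nonneg _
  · exact le_rfl

variable (F φ) in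
open Classical in
/-- the kept blocks -/
abbrev FK : FDA where
  ι := {l : F.ι // kp F φ l ≠ 0}
  n := fun l => F.n l.1

variable (F φ) in
open Classical in
/-- the weighted embedding -/
def em : (FK F φ).alg →ₗ[ℂ] F.alg where
  toFun y := fun l => if h : kp F φ l ≠ 0 then (((kp F φ l)⁻¹ : ℝ) : ℂ) • y ⟨l, h⟩ else 0
  map_add' x y := by
    funext l
    by_cases h : kp F φ l ≠ 0
    · simp only [Pi.add_apply, dif_pos h, smul_add]
    · simp only [Pi.add_apply, dif_neg h, add_zero]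
  map_smul' c x := by
    funext l
    by_cases h : kp F φ l ≠ 0
    · simp only [Pi.smul_apply, dif_pos h, RingHom.id_apply]
      rw [smul_comm]
    · simp only [Pi.smul_apply, dif_neg h, RingHom.id_apply, smul_zero]

theorem em_apply (y : (FK F φ).alg) (l : F.ι) (h : kp F φ l ≠ 0) :
    em F φ y l = (((kp F φ l)⁻¹ : ℝ) : ℂ) • y ⟨l, h⟩ := dif_pos h

theorem em_apply' (y : (FK F φ).alg) (l : F.ι) (h : ¬ kp F φ l ≠ 0) :
    em F φ y l = 0 := dif_neg h

theorem em_eq (y : (FK F φ).alg) :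
    em F φ y = ∑ l : (FK F φ).ι, (((kp F φ l.1)⁻¹ : ℝ) : ℂ) • sg F l.1 (y l) := by
  classical
  nth_rewrite 1 [← sum_sg F (em F φ y)]
  have h1 : ∀ l : F.ι, l ∉ (Finset.univ.image (fun m : (FK F φ).ι => m.1)) →
      sg F l (em F φ y l) = 0 := by
    intro l hl
    have hk : ¬ kp F φ l ≠ 0 := by
      intro hk
      exact hl (Finset.mem_image.2 ⟨⟨l, hk⟩, Finset.mem_univ _, rfl⟩)
    rw [em_apply' y l hk]
    exact map_zero (sgH F l)
  rw [← Finset.sum_subset (Finset.subset_univ (Finset.univ.image (fun m : (FK F φ).ι => m.1)))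
    (fun l _ hl => h1 l hl), Finset.sum_image (fun a _ b _ hab => Subtype.ext hab)]
  refine Finset.sum_congr rfl fun l _ => ?_
  rw [em_apply y l.1 l.2, sg_smul]

theorem em_cp : IsCP (em F φ) := by
  have e : em F φ = ∑ l : (FK F φ).ι, (((kp F φ l.1)⁻¹ : ℝ) : ℂ) •
      (((sgH F l.1).comp (prH (FK F φ) l) : (FK F φ).alg →⋆ₙₐ[ℂ] F.alg) :
        (FK F φ).alg →ₗ[ℂ] F.alg) := by
    apply LinearMap.ext
    intro y
    rw [em_eq, LinearMap.sum_apply]
    rfl
  rw [e]
  refine IsCP.sum _ fun l _ => IsCP.smul ?_ (inv_nonneg.2 (kp_nonneg _))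
  exact isCP_hom ((sgH F l.1).comp (prH (FK F φ) l)) _ fun _ => rfl

theorem em_mul (x y : (FK F φ).alg) : em F φ x * em F φ y = em F φ 1 * em F φ (x * y) := by
  funext l
  rw [Pi.mul_apply, Pi.mul_apply]
  by_cases h : kp F φ l ≠ 0
  · rw [em_apply _ l h, em_apply _ l h, em_apply _ l h, em_apply _ l h]
    rw [smul_mul_smul_comm, smul_mul_smul_comm, Pi.mul_apply, Pi.one_apply, one_mul]
  · rw [em_apply' x l h, em_apply' 1 l h, zero_mul, zero_mul]

theorem new_cp (h : IsCP φ) : IsCP (φ ∘ₗ em F φ) := h.comp em_cp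

theorem new_oz (hz : OZ φ) : OZ (φ ∘ₗ em F φ) := by
  intro x y
  show φ _ * φ _ = φ _ * φ _
  rw [hz (em F φ x) (em F φ y), hz (em F φ 1) (em F φ (x * y)), em_mul]

theorem oz_zero (hz : OZ φ) : IsOrderZero φ := by
  intro a b hab
  rw [hz, hab, map_zero, mul_zero]

theorem em_mu (l : (FK F φ).ι) (i : (FK F φ).n l) :
    em F φ (mu (FK F φ) l i i) = (((kp F φ l.1)⁻¹ : ℝ) : ℂ) • mu F l.1 i i := by
  classical
  rw [em_eq, Finset.sum_eq_single l]
  · rw [mu_eq, sg_same]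
    rfl
  · intro m _ hm
    rw [mu_eq, sg_ne _ hm]
    have : sg F m.1 (0 : Matrix (F.n m.1) (F.n m.1) ℂ) = 0 := map_zero (sgH F m.1)
    rw [show (0 : Matrix ((FK F φ).n m) ((FK F φ).n m) ℂ) =
      (0 : Matrix (F.n m.1) (F.n m.1) ℂ) from rfl, this, smul_zero]
  · intro h
    exact absurd (Finset.mem_univ _) h

theorem new_mu (h : IsCP φ) (hz : OZ φ) (l : (FK F φ).ι) (i : (FK F φ).n l) :
    ‖(φ ∘ₗ em F φ) (mu (FK F φ) l i i)‖ = 1 := by
  rw [LinearMap.comp_apply, em_mu, map_smul, norm_smul, kp_eq h hz, Complex.norm_real,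
    Real.norm_of_nonneg (inv_nonneg.2 (kp_nonneg _))]
  exact inv_mul_cancel₀ l.2

theorem new_one (h : IsCP φ) (hz : OZ φ) : ‖(φ ∘ₗ em F φ) 1‖ ≤ 1 := by
  classical
  rw [one_eq, map_sum]
  have h1 := IsSelfAdjoint.nnnorm_sum_eq_sup
    (f := fun p : (l : (FK F φ).ι) × (FK F φ).n l => (φ ∘ₗ em F φ) (mu (FK F φ) p.1 p.2 p.2))
    Finset.univ (fun p _ => sa (new_cp h) (mu_star _ _)) (by
      intro p q hpq
      show (φ ∘ₗ em F φ) _ * (φ ∘ₗ em F φ) _ = 0
      rw [new_oz hz, mu_orth hpq, map_zero, mul_zero])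
  have h2 : ‖∑ p : (l : (FK F φ).ι) × (FK F φ).n l,
      (φ ∘ₗ em F φ) (mu (FK F φ) p.1 p.2 p.2)‖₊ ≤ 1 := by
    rw [h1]
    refine Finset.sup_le fun p _ => ?_
    rw [← NNReal.coe_le_coe, coe_nnnorm, new_mu h hz]
    rfl
  exact_mod_cast h2

/-- the lower bound for the modified map -/
theorem new_lower (h : IsCP φ) (hz : OZ φ) (a : (FK F φ).alg) :
    ‖a‖ ≤ ‖(φ ∘ₗ em F φ) a * (φ ∘ₗ em F φ) 1‖ := by
  classical
  by_cases ha : ‖a‖ = 0
  · rw [ha]; exact norm_nonneg _
  have hpos : 0 < ‖a‖ := lt_of_le_of_ne (norm_nonneg _) (Ne.symm ha)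
  have hne : Nonempty (FK F φ).ι := by
    by_contra hcon
    rw [not_nonempty_iff] at hcon
    have : a = 0 := Subsingleton.elim _ _
    rw [this, norm_zero] at hpos
    exact lt_irrefl _ hpos
  obtain ⟨l, hl⟩ : ∃ l, ‖a‖ = ‖a l‖ := by
    obtain ⟨l, hl⟩ := Finite.exists_max (fun l => ‖a l‖)
    refine ⟨l, le_antisymm ?_ (norm_le_pi_norm a l)⟩
    exact (pi_norm_le_iff_of_nonneg (norm_nonneg _)).2 hl
  have hnl : Nonempty ((FK F φ).n l) := by
    by_contra hcon
    rw [not_nonempty_iff] at hcon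
    have : a l = 0 := Subsingleton.elim _ _
    rw [this, norm_zero] at hl
    exact ha hl
  obtain ⟨v, hv, hv2⟩ := top_vec (a l)
  obtain ⟨p1, p2⟩ := vec_prj hv
  refine lower (P := sg (FK F φ) l (Matrix.vecMulVec v (star v))) (new_cp h) (new_oz hz)
    hpos.le ?_ ?_ ?_ ?_
  · rw [← sg_star, p1]
  · rw [← sg_mul, p2]
  · rw [← sg_smul, hl, ← hv2]
    funext m
    by_cases hm : m = l
    · subst hm
      rw [Pi.mul_apply, sg_same, sg_same]
      rfl
    · rw [Pi.mul_apply, sg_ne _ hm, sg_ne _ hm, mul_zero]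
  · rw [← new_mu h hz l (Classical.arbitrary _)]
    exact le_vec (new_cp h) (new_oz hz) l _ hv

/-- the down map -/
def dn (F : FDA) {A : Type} [NonUnitalCStarAlgebra A] (φ : F.alg →ₗ[ℂ] A) :
    F.alg →ₗ[ℂ] (FK F φ).alg where
  toFun y := fun l => ((kp F φ l.1 : ℝ) : ℂ) • y l.1
  map_add' x y := by
    funext l
    simp only [Pi.add_apply, smul_add]
  map_smul' c x := by
    funext l
    simp only [Pi.smul_apply, RingHom.id_apply]
    rw [smul_comm]

theorem dn_cp : IsCP (dn F φ) := by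
  have e : dn F φ = ∑ l : (FK F φ).ι, ((kp F φ l.1 : ℝ) : ℂ) •
      (((sgH (FK F φ) l).comp (prH F l.1) : F.alg →⋆ₙₐ[ℂ] (FK F φ).alg) :
        F.alg →ₗ[ℂ] (FK F φ).alg) := by
    apply LinearMap.ext
    intro y
    rw [LinearMap.sum_apply]
    nth_rewrite 1 [← sum_sg (FK F φ) (dn F φ y)]
    refine Finset.sum_congr rfl fun l _ => ?_
    rw [LinearMap.smul_apply]
    show sg (FK F φ) l (((kp F φ l.1 : ℝ) : ℂ) • y l.1) = _
    rw [sg_smul]
    rfl
  rw [e]
  refine IsCP.sum _ fun l _ => IsCP.smul ?_ (kp_nonneg _)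
  exact isCP_hom ((sgH (FK F φ) l).comp (prH F l.1)) _ fun _ => rfl

theorem single_norm {n : Type} [Fintype n] [DecidableEq n] (i : n) :
    ‖Matrix.single i i (1 : ℂ)‖ ≤ 1 := by
  have h1 : ‖star (Matrix.single i i (1 : ℂ)) * Matrix.single i i (1 : ℂ)‖ =
      ‖Matrix.single i i (1 : ℂ)‖ * ‖Matrix.single i i (1 : ℂ)‖ := CStarRing.norm_star_mul_self
  have h2 : star (Matrix.single i i (1 : ℂ)) * Matrix.single i i (1 : ℂ) =
      Matrix.single i i (1 : ℂ) := by
    rw [Matrix.star_eq_conjTranspose, Matrix.conjTranspose_single, star_one]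
    simp
  rw [h2] at h1
  by_contra hcon
  push Not at hcon
  nlinarith

theorem mu_le (l : F.ι) (i : F.n l) : ‖mu F l i i‖ ≤ 1 := by
  refine (pi_norm_le_iff_of_nonneg zero_le_one).2 fun m => ?_
  by_cases hm : m = l
  · subst hm
    rw [mu_eq, sg_same]
    exact single_norm i
  · rw [mu_eq, sg_ne _ hm, norm_zero]
    exact zero_le_one

theorem kp_le (hc : IsCPC φ) (l : F.ι) : kp F φ l ≤ 1 := by
  unfold kp
  split_ifs
  · exact (hc.2 _).trans (mu_le _ _)
  · exact zero_le_one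

theorem dn_norm (hc : IsCPC φ) (y : F.alg) : ‖dn F φ y‖ ≤ ‖y‖ := by
  refine (pi_norm_le_iff_of_nonneg (norm_nonneg _)).2 fun l => ?_
  show ‖((kp F φ l.1 : ℝ) : ℂ) • y l.1‖ ≤ _
  rw [norm_smul, Complex.norm_real, Real.norm_of_nonneg (kp_nonneg _)]
  calc kp F φ l.1 * ‖y l.1‖ ≤ 1 * ‖y l.1‖ :=
        mul_le_mul_of_nonneg_right (kp_le hc _) (norm_nonneg _)
    _ ≤ ‖y‖ := by rw [one_mul]; exact norm_le_pi_norm y l.1

/-- blocks of norm zero are killed -/
theorem kill (h : IsCP φ) (hz : OZ φ) (l : F.ι) (hl : ¬ kp F φ l ≠ 0)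
    (X : Matrix (F.n l) (F.n l) ℂ) : φ (sg F l X) = 0 := by
  classical
  have h1 : φ (sg F l 1) = 0 := by
    have e : (1 : Matrix (F.n l) (F.n l) ℂ) = ∑ i, Matrix.single i i (1 : ℂ) := by
      ext a b
      rw [Matrix.sum_apply]
      simp only [Matrix.single_apply, Matrix.one_apply]
      by_cases hab : a = b
      · subst hab
        simp
      · rw [if_neg hab]
        symm
        refine Finset.sum_eq_zero fun i _ => ?_
        rw [if_neg]
        rintro ⟨rfl, rfl⟩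
        exact hab rfl
    have e2 : sg F l 1 = ∑ i, mu F l i i := by
      rw [e]
      exact map_sum (sgH F l) _ _
    rw [e2, map_sum]
    refine Finset.sum_eq_zero fun i _ => ?_
    rw [← norm_eq_zero, kp_eq h hz]
    push Not at hl
    exact hl
  let _ := CStarAlgebra.spectralOrder A
  let _ := CStarAlgebra.spectralOrderedRing A
  have h2 : IsCP (φ ∘ₗ ((sgH F l : Matrix (F.n l) (F.n l) ℂ →⋆ₙₐ[ℂ] F.alg) :
      Matrix (F.n l) (F.n l) ℂ →ₗ[ℂ] F.alg)) := h.comp (isCP_hom (sgH F l) _ fun _ => rfl)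
  have h3 := h2.norm_le X
  have h4 : (φ ∘ₗ ((sgH F l : Matrix (F.n l) (F.n l) ℂ →⋆ₙₐ[ℂ] F.alg) :
      Matrix (F.n l) (F.n l) ℂ →ₗ[ℂ] F.alg)) 1 = 0 := h1
  rw [h4, norm_zero, zero_mul] at h3
  exact norm_le_zero_iff.1 h3

theorem factor (h : IsCP φ) (hz : OZ φ) (y : F.alg) :
    (φ ∘ₗ em F φ) (dn F φ y) = φ y := by
  classical
  have e : y = em F φ (dn F φ y) + ∑ l ∈ Finset.univ.filter (fun l => ¬ kp F φ l ≠ 0),
      sg F l (y l) := by
    funext m
    rw [Pi.add_apply, Finset.sum_apply]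
    by_cases hm : kp F φ m ≠ 0
    · rw [em_apply _ m hm, Finset.sum_eq_zero, add_zero]
      · show y m = (((kp F φ m)⁻¹ : ℝ) : ℂ) • (((kp F φ m : ℝ) : ℂ) • y m)
        rw [smul_smul, ← Complex.ofReal_mul, inv_mul_cancel₀ hm, Complex.ofReal_one, one_smul]
      · intro l hl
        refine sg_ne F ?_ _
        rintro rfl
        exact (Finset.mem_filter.1 hl).2 hm
    · rw [em_apply' _ m hm, zero_add, Finset.sum_eq_single m]
      · rw [sg_same]
      · intro l _ hl
        exact sg_ne F (Ne.symm hl) _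
      · intro hcon
        exact absurd (Finset.mem_filter.2 (⟨Finset.mem_univ m, hm⟩ :
          m ∈ Finset.univ ∧ ¬ kp F φ m ≠ 0)) hcon
  nth_rewrite 2 [e]
  rw [map_add, map_sum, Finset.sum_eq_zero, add_zero]
  · rfl
  · intro l hl
    exact kill h hz l (Finset.mem_filter.1 hl).2 _

end main

/-! ### One block of size one -/

section one

variable {A : Type} [NonUnitalCStarAlgebra A]

/-- the complex numbers -/
abbrev F1 : FDA where
  ι := Unit
  n := fun _ => Unit

/-- `c ↦ c b^* b` -/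
def up1 (b : A) : F1.alg →ₗ[ℂ] A where
  toFun y := y () () () • (star b * b)
  map_add' x y := by
    simp only [Pi.add_apply, Matrix.add_apply, add_smul]
  map_smul' c x := by
    simp only [Pi.smul_apply, Matrix.smul_apply, smul_eq_mul, mul_smul, RingHom.id_apply]

theorem up1_cp (b : A) : IsCP (up1 b) := by
  intro k M
  refine ⟨Matrix.of fun l j => M l j () () () • b, ?_⟩
  ext i j
  simp only [Matrix.map_apply, Matrix.mul_apply, Matrix.conjTranspose_apply, Matrix.of_apply,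
    map_sum]
  refine Finset.sum_congr rfl fun l _ => ?_
  show ((star (M l i) * M l j) () () ()) • (star b * b) = _
  rw [star_smul, smul_mul_smul_comm]
  congr 1
  show (star (M l i ()) * M l j ()) () () = _
  rw [Matrix.mul_apply]
  simp [Matrix.star_apply]

theorem up1_one (b : A) : up1 b 1 = star b * b := by
  show ((1 : Matrix Unit Unit ℂ) () ()) • (star b * b) = star b * b
  simp

theorem up1_oz (b : A) : OZ (up1 b) := by
  intro x y
  rw [up1_one]
  show (x () () () • (star b * b)) * (y () () () • (star b * b)) =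
    (star b * b) * (((x * y) () () ()) • (star b * b))
  have : (x * y) () () () = x () () () * y () () () := by
    show (x () * y ()) () () = _
    rw [Matrix.mul_apply]
    simp
  rw [this, smul_mul_smul_comm, mul_smul_comm]

theorem norm1 (y : F1.alg) : ‖y‖ ≤ ‖y () () ()‖ := by
  refine (pi_norm_le_iff_of_nonneg (norm_nonneg _)).2 fun u => ?_
  have e : y u = Matrix.diagonal (fun _ : Unit => y () () ()) := by
    ext i j
    simp
  rw [e, Matrix.l2_opNorm_diagonal]
  simp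

end one

/-- the distinguished colour -/
theorem colour {A : Type} [NonUnitalCStarAlgebra A] [Nontrivial A] (F : FDA)
    (ψ : A →ₗ[ℂ] F.alg) (φ : F.alg →ₗ[ℂ] A) (hψ : IsCPC ψ) (hφ : IsCPC φ) (hz : OZ φ) :
    ∃ (F' : FDA) (ψ' : A →ₗ[ℂ] F'.alg) (φ' : F'.alg →ₗ[ℂ] A), IsCPC ψ' ∧ IsCPC φ' ∧
      IsOrderZero φ' ∧ (∀ a, φ' (ψ' a) = φ (ψ a)) ∧ Nontrivial F'.alg ∧
      ∀ a : F'.alg, ‖a‖ ≤ ‖φ' a * φ' 1‖ := by
  classical
  by_cases hne : Nontrivial (FK F φ).alg
  · refine ⟨FK F φ, dn F φ ∘ₗ ψ, φ ∘ₗ em F φ, ⟨dn_cp.comp hψ.1, fun a => ?_⟩,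
      (new_cp hφ.1).isCPC (new_one hφ.1 hz), oz_zero (new_oz hz), fun a => factor hφ.1 hz _, hne,
      new_lower hφ.1 hz⟩
    exact (dn_norm hφ _).trans (hψ.2 a)
  · have h0 : ∀ y, φ y = 0 := by
      intro y
      rw [← factor hφ.1 hz y]
      rw [not_nontrivial_iff_subsingleton] at hne
      have : dn F φ y = 0 := Subsingleton.elim _ _
      rw [this, map_zero]
    obtain ⟨x, hx⟩ := exists_ne (0 : A)
    have hxn : 0 < ‖x‖ := norm_pos_iff.2 hx
    obtain ⟨b, hb⟩ : ∃ b : A, ‖star b * b‖ = 1 := by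
      refine ⟨((‖x‖⁻¹ : ℝ) : ℂ) • x, ?_⟩
      rw [CStarRing.norm_star_mul_self, norm_smul, Complex.norm_real,
        Real.norm_of_nonneg (inv_nonneg.2 hxn.le), inv_mul_cancel₀ hxn.ne', one_mul]
    refine ⟨F1, 0, up1 b, ⟨IsCP.zero, fun a => ?_⟩, (up1_cp b).isCPC ?_, oz_zero (up1_oz b), ?_,
      ?_, ?_⟩
    · simp
    · rw [up1_one, hb]
    · intro a
      rw [h0]
      simp
    · exact ⟨⟨0, 1, fun hcon => zero_ne_one (congrFun (congrFun (congrFun hcon ()) ()) ())⟩⟩
    · intro a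
      rw [up1_one]
      show _ ≤ ‖(a () () () • (star b * b)) * (star b * b)‖
      rw [smul_mul_assoc, norm_smul]
      have : ‖star b * b * (star b * b)‖ = 1 := by
        rw [norm_sq (by rw [star_mul, star_star]), hb]; norm_num
      rw [this, mul_one]
      exact norm1 a

theorem t_NRM (hL1 : StL1) : StNRM := by
  intro A _ _ J _ hS G ε hε
  obtain ⟨F, ψ, φ, hψ, hφ, happ⟩ := hS G ε hε
  obtain ⟨F', ψ', φ', a1, a2, a3, a4, a5, a6⟩ := colour (F none) (ψ none) (φ none) (hψ none)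
    (hφ none).1 (hL1 _ _ _ (hφ none).1.1 (hφ none).2)
  refine ⟨fun j => match j with | none => F' | some i => F (some i),
    fun j => match j with | none => ψ' | some i => ψ (some i),
    fun j => match j with | none => φ' | some i => φ (some i), ?_, ?_, ?_, a5, a6⟩
  · intro j
    cases j with
    | none => exact a1
    | some i => exact hψ (some i)
  · intro j
    cases j with
    | none => exact ⟨a2, a3⟩
    | some i => exact hφ (some i)
  · intro a ha
    have h1 := happ a ha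
    rw [Fintype.sum_option] at h1 ⊢
    show ‖φ' (ψ' a) + ∑ i, φ (some i) (ψ (some i) a) - a‖ ≤ ε
    rw [a4]
    exact h1

end Pool.Agent.Helper7_ND.J_NRM
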