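import Pool.Agent.Helper7_ND.Stm2

/-
Project MP_30b5b4_an (owner helper7): dim_nuc(E) <= dim_nuc(I) + dim_nuc(D) for C*-algebra extensions.
SETUP: in /workdir/pool/outputs/live: git fetch -q; then copy from origin/main to /workdir/pool at the same paths:
Pool/Agent/Helper7_ND/Stm.lean, Pool/Agent/Helper7_ND/Stm2.lean, Pool/Agent/W659/EC/CP.lean, CP2.lean, Defs.lean; lake build Pool.Agent.Helper7_ND.Stm2.
All definitions (Pos, Prj, OZ, IsRow, IsRP, Polar, SpecU, CutA, ...) and the statement StNV are in Stm.lean. Useful lemmas on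
completely positive maps: W659/EC/CP.lean (IsCP.add/comp/sum/smul, isCP_hom, isCP_of_family, nonneg_iff_star, mpos_iff),
CP2.lean (IsCP.schwarz, IsCP.nonneg, IsCP.star_map, IsCP.norm_le, IsCP.isCPC, compr, isCP_compr).
For the order use `let _ := CStarAlgebra.spectralOrder A; let _ := CStarAlgebra.spectralOrderedRing A` (Pos a is then 0 <= a by
CStarAlgebra.nonneg_iff_eq_star_mul_self). The file will be landed, so keep to RULES.md (no banned words/characters), keep all
helper lemmas inside the namespace, do not change Stm.lean. If the statement is false or lacks a hypothesis say so in note.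
Full paper proof of the whole theorem: papers table, pid MP_30b5b4_an.

TARGET t_NV : StNV. PROOF. For each j apply IsCP (θ j) to k = 3 and the 3x3 matrix M with first row (x, y, w) and the other rows 0: it
gives N_j in M_3(A) with θ_j(m_a^* m_b) = ∑_r (N_j r a)^* (N_j r b), m = (x,y,w). Put n_r = N_j r 0, ν_r = N_j r 1 * z - N_j r 2. Then
∑_r n_r^* ν_r = θ_j(x^*y) z - θ_j(x^*w), ∑_r n_r^* n_r = θ_j(x^*x) and V_j := ∑_r ν_r^* ν_r = z^*θ_j(y^*y)z - z^*θ_j(y^*w) -
θ_j(w^*y)z + θ_j(w^*w). Cauchy-Schwarz for columns: ‖∑ n_r^* ν_r‖² <= ‖∑ n_r^* n_r‖ ‖∑ ν_r^* ν_r‖ (put the columns in 3x3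
CStarMatrix's X, Y with one nonzero column and use ‖star X * Y‖² <= ‖star X * X‖ ‖star Y * Y‖ = ‖X‖²‖Y‖², or WithCStarModule). Finally
V_j <= ∑_i V_i as all V_i >= 0, so ‖V_j‖ <= ‖∑_i V_i‖ (CStarAlgebra.norm_le_norm_of_nonneg_of_le), and ∑_i V_i is the sum in the statement.
-/
set_option autoImplicit false

open scoped Matrix.Norms.L2Operator ENNReal Matrix
open Pool.Agent.W659.EC

noncomputable section

namespace Pool.Agent.Helper7_ND.J_NV

/-- Cauchy-Schwarz for columns -/
theorem cs {A : Type} [NonUnitalCStarAlgebra A] (n ν : Fin 3 → A) :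
    ‖∑ r, star (n r) * ν r‖ ^ 2 ≤ ‖∑ r, star (n r) * n r‖ * ‖∑ r, star (ν r) * ν r‖ := by
  let _ := CStarAlgebra.spectralOrder A
  let _ := CStarAlgebra.spectralOrderedRing A
  let x : WithCStarModule A (Fin 3 → A) := (WithCStarModule.equiv A (Fin 3 → A)).symm
    fun r => star (n r)
  let y : WithCStarModule A (Fin 3 → A) := (WithCStarModule.equiv A (Fin 3 → A)).symm
    fun r => star (ν r)
  have h1 := CStarModule.norm_inner_le (A := A) (WithCStarModule A (Fin 3 → A)) (x := x) (y := y)
  have h2 : inner A x y = star (∑ r, star (n r) * ν r) := by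
    rw [WithCStarModule.pi_inner, star_sum]
    refine Finset.sum_congr rfl fun r _ => ?_
    rw [WithCStarModule.inner_def, star_mul]
    rfl
  have h3 : ‖x‖ ^ 2 = ‖∑ r, star (n r) * n r‖ := by
    rw [WithCStarModule.pi_norm_sq]
    congr 1
    refine Finset.sum_congr rfl fun r _ => ?_
    rw [WithCStarModule.inner_def]
    change star (n r) * star (star (n r)) = _
    rw [star_star]
  have h4 : ‖y‖ ^ 2 = ‖∑ r, star (ν r) * ν r‖ := by
    rw [WithCStarModule.pi_norm_sq]
    congr 1
    refine Finset.sum_congr rfl fun r _ => ?_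
    rw [WithCStarModule.inner_def]
    change star (ν r) * star (star (ν r)) = _
    rw [star_star]
  rw [h2, norm_star] at h1
  rw [← h3, ← h4, ← mul_pow]
  exact pow_le_pow_left₀ (norm_nonneg _) h1 2

theorem vj {I A : Type} [NonUnitalCStarAlgebra I] [NonUnitalCStarAlgebra A]
    (θ : I →ₗ[ℂ] A) (hθ : IsCP θ) (x y w : I) (z : A) :
    ∃ n ν : Fin 3 → A, ∑ r, star (n r) * n r = θ (star x * x) ∧
      ∑ r, star (n r) * ν r = θ (star x * y) * z - θ (star x * w) ∧
      ∑ r, star (ν r) * ν r = star z * θ (star y * y) * z - star z * θ (star y * w)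
        - θ (star w * y) * z + θ (star w * w) := by
  let m : Fin 3 → I := ![x, y, w]
  obtain ⟨N, hN⟩ := hθ 3 (Matrix.of fun i j => if i = 0 then m j else 0)
  have key : ∀ a b : Fin 3, θ (star (m a) * m b) = ∑ r, star (N r a) * N r b := by
    intro a b
    have h := congrFun (congrFun hN a) b
    simp only [Matrix.map_apply, Matrix.mul_apply, Matrix.conjTranspose_apply, Matrix.of_apply]
      at h
    rw [Fin.sum_univ_three] at h
    simpa using h
  have k00 : θ (star x * x) = ∑ r, star (N r 0) * N r 0 := key 0 0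
  have k01 : θ (star x * y) = ∑ r, star (N r 0) * N r 1 := key 0 1
  have k02 : θ (star x * w) = ∑ r, star (N r 0) * N r 2 := key 0 2
  have k11 : θ (star y * y) = ∑ r, star (N r 1) * N r 1 := key 1 1
  have k12 : θ (star y * w) = ∑ r, star (N r 1) * N r 2 := key 1 2
  have k21 : θ (star w * y) = ∑ r, star (N r 2) * N r 1 := key 2 1
  have k22 : θ (star w * w) = ∑ r, star (N r 2) * N r 2 := key 2 2
  refine ⟨fun r => N r 0, fun r => N r 1 * z - N r 2, k00.symm, ?_, ?_⟩
  · rw [k01, k02, Finset.sum_mul, ← Finset.sum_sub_distrib]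
    refine Finset.sum_congr rfl fun r _ => ?_
    rw [mul_sub, mul_assoc]
  · rw [k11, k12, k21, k22]
    simp only [Finset.sum_mul, Finset.mul_sum, ← Finset.sum_sub_distrib,
      ← Finset.sum_add_distrib]
    refine Finset.sum_congr rfl fun r _ => ?_
    rw [star_sub, star_mul]
    simp only [mul_sub, sub_mul, mul_assoc]
    abel

theorem t_NV : StNV := by
  intro I A _ _ J _ θ x y w z j hθ
  let _ := CStarAlgebra.spectralOrder A
  let _ := CStarAlgebra.spectralOrderedRing A
  choose n ν h1 h2 h3 using fun j => vj (θ j) (hθ j) x y w z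
  have h4 := cs (n j) (ν j)
  rw [h1, h2] at h4
  refine h4.trans (mul_le_mul_of_nonneg_left ?_ (norm_nonneg _))
  have h5 : ∑ j, (star z * θ j (star y * y) * z - star z * θ j (star y * w) -
      θ j (star w * y) * z + θ j (star w * w)) = ∑ j, ∑ r, star (ν j r) * ν j r :=
    Finset.sum_congr rfl fun i _ => (h3 i).symm
  rw [h5]
  have h6 : ∀ i, 0 ≤ ∑ r, star (ν i r) * ν i r := fun i =>
    Finset.sum_nonneg fun r _ => star_mul_self_nonneg _
  refine CStarAlgebra.norm_le_norm_of_nonneg_of_le (h6 j) ?_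
  exact Finset.single_le_sum (f := fun i => ∑ r, star (ν i r) * ν i r) (fun i _ => h6 i)
    (Finset.mem_univ j)

end Pool.Agent.Helper7_ND.J_NV
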