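import Pool.Agent.Helper7_ND.Stm2
set_option autoImplicit false

open scoped Matrix.Norms.L2Operator ENNReal Matrix
open Pool.Agent.W659.EC

noncomputable section

namespace Pool.Agent.Helper7_ND.J_QC

section

variable {I E : Type} [NonUnitalCStarAlgebra I] [NonUnitalCStarAlgebra E]

theorem pos_iff {A : Type} [NonUnitalCStarAlgebra A] (a : A) :
    Pos a ↔ (letI := CStarAlgebra.spectralOrder A; 0 ≤ a) := by
  let _ := CStarAlgebra.spectralOrder A
  let _ := CStarAlgebra.spectralOrderedRing A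
  exact (nonneg_iff_star a).symm

theorem pos_star {A : Type} [NonUnitalCStarAlgebra A] {a : A} (h : Pos a) : star a = a := by
  obtain ⟨b, rfl⟩ := h
  simp

/-- approximate units -/
theorem exists_unit (C : Finset I) (δ : ℝ) (hδ : 0 < δ) :
    ∃ t : I, Pos t ∧ ‖t‖ ≤ 1 ∧ ∀ c ∈ C, ‖t * c - c‖ ≤ δ ∧ ‖c * t - c‖ ≤ δ := by
  let _ := CStarAlgebra.spectralOrder I
  let _ := CStarAlgebra.spectralOrderedRing I
  have h := CStarAlgebra.increasingApproximateUnit (A := I)
  have hne := h.neBot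
  have h1 : ∀ c : I, ∀ᶠ t in CStarAlgebra.approximateUnit I, ‖t * c - c‖ ≤ δ := by
    intro c
    have := (h.tendsto_mul_right c).sub_const c
    rw [sub_self] at this
    have h2 := this.norm
    rw [norm_zero] at h2
    exact h2.eventually (ge_mem_nhds hδ)
  have h1' : ∀ c : I, ∀ᶠ t in CStarAlgebra.approximateUnit I, ‖c * t - c‖ ≤ δ := by
    intro c
    have := (h.tendsto_mul_left c).sub_const c
    rw [sub_self] at this
    have h2 := this.norm
    rw [norm_zero] at h2
    exact h2.eventually (ge_mem_nhds hδ)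
  have h2 : ∀ᶠ t in CStarAlgebra.approximateUnit I, ∀ c ∈ C, ‖t * c - c‖ ≤ δ ∧ ‖c * t - c‖ ≤ δ :=
    (Filter.eventually_all_finset C).2 fun c _ => (h1 c).and (h1' c)
  obtain ⟨t, ht, ht1, ht2⟩ := (h.eventually_nonneg.and (h.eventually_norm.and h2)).exists
  exact ⟨t, (pos_iff t).2 ht, ht1, ht2⟩

theorem half_pos {t s : I} (ht : Pos t) (hs : Pos s) : Pos ((1 / 2 : ℝ) • (t + s)) := by
  let _ := CStarAlgebra.spectralOrder I
  let _ := CStarAlgebra.spectralOrderedRing I
  rw [pos_iff] at *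
  exact smul_nonneg (by norm_num) (add_nonneg ht hs)

theorem norm_map_le (ι : I →⋆ₙₐ[ℂ] E) (a : I) : ‖ι a‖ ≤ ‖a‖ := NonUnitalStarAlgHom.norm_apply_le ι a

/-- the square of the norm of a sum -/
theorem norm_sq_add_le (a b : E) : ‖a + b‖ ^ 2 ≤ ‖a‖ ^ 2 + ‖b‖ ^ 2 + 2 * ‖star a * b‖ := by
  have h1 : ‖a + b‖ ^ 2 = ‖star (a + b) * (a + b)‖ := by
    rw [CStarRing.norm_star_mul_self, sq]
  have h2 : star (a + b) * (a + b) = star a * a + star b * b + (star a * b + star (star a * b)) := by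
    rw [star_add, star_mul, star_star]
    noncomm_ring
  have h3 : ‖star a * a‖ = ‖a‖ ^ 2 := by rw [CStarRing.norm_star_mul_self, sq]
  have h4 : ‖star b * b‖ = ‖b‖ ^ 2 := by rw [CStarRing.norm_star_mul_self, sq]
  rw [h1, h2]
  calc ‖star a * a + star b * b + (star a * b + star (star a * b))‖
      ≤ ‖star a * a + star b * b‖ + ‖star a * b + star (star a * b)‖ := norm_add_le _ _
    _ ≤ (‖star a * a‖ + ‖star b * b‖) + (‖star a * b‖ + ‖star (star a * b)‖) :=
        add_le_add (norm_add_le _ _) (norm_add_le _ _)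
    _ = _ := by rw [h3, h4, norm_star]; ring

/-- the cross term -/
theorem cross (p q x : E) (η : ℝ) (hp : star p = p)
    (h0 : ‖p * q - p‖ ≤ η) (h1 : ‖p * x * q - p * x‖ ≤ η)
    (h2 : ‖p * star x * q - p * star x‖ ≤ η)
    (h3 : ‖p * (star x * x) * q - p * (star x * x)‖ ≤ η) :
    ‖star (p * x - x * p) * (q * x - x * q)‖ ≤ (1 + ‖x‖) ^ 2 * η := by
  have e : star (p * x - x * p) * (q * x - x * q) =
      star x * (p * q - p) * x - star x * (p * x * q - p * x)
        - (p * star x * q - p * star x) * x + (p * (star x * x) * q - p * (star x * x)) := by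
    rw [star_sub, star_mul, star_mul, hp]
    noncomm_ring
  rw [e]
  have n1 : ‖star x * (p * q - p) * x‖ ≤ ‖x‖ * η * ‖x‖ := by
    refine (norm_mul_le _ _).trans ?_
    refine mul_le_mul_of_nonneg_right ?_ (norm_nonneg _)
    refine (norm_mul_le _ _).trans ?_
    rw [norm_star]
    exact mul_le_mul_of_nonneg_left h0 (norm_nonneg _)
  have n2 : ‖star x * (p * x * q - p * x)‖ ≤ ‖x‖ * η := by
    refine (norm_mul_le _ _).trans ?_
    rw [norm_star]
    exact mul_le_mul_of_nonneg_left h1 (norm_nonneg _)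
  have n3 : ‖(p * star x * q - p * star x) * x‖ ≤ η * ‖x‖ := by
    refine (norm_mul_le _ _).trans ?_
    exact mul_le_mul_of_nonneg_right h2 (norm_nonneg _)
  have t1 := norm_add_le (star x * (p * q - p) * x - star x * (p * x * q - p * x)
        - (p * star x * q - p * star x) * x) (p * (star x * x) * q - p * (star x * x))
  have t2 := norm_sub_le (star x * (p * q - p) * x - star x * (p * x * q - p * x))
        ((p * star x * q - p * star x) * x)
  have t3 := norm_sub_le (star x * (p * q - p) * x) (star x * (p * x * q - p * x))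
  nlinarith [norm_nonneg x]

theorem base (ι : I →⋆ₙₐ[ℂ] E) (t : I) (x : E) (ht : ‖t‖ ≤ 1) :
    ‖ι t * x - x * ι t‖ ≤ 2 * ‖x‖ := by
  have h1 := (norm_map_le ι t).trans ht
  have h2 := norm_sub_le (ι t * x) (x * ι t)
  have h3 := norm_mul_le (ι t) x
  have h4 := norm_mul_le x (ι t)
  nlinarith [norm_nonneg x, norm_nonneg (ι t)]

theorem induct (ι : I →⋆ₙₐ[ℂ] E) (hι : IsIdeal ι) (S : Finset E) (B η : ℝ) (hη : 0 < η)
    (hB : ∀ x ∈ S, (2 * ‖x‖) ^ 2 ≤ B) (n : ℕ) :
    ∀ (C : Finset I) (δ : ℝ), 0 < δ → ∃ t : I, Pos t ∧ ‖t‖ ≤ 1 ∧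
      (∀ c ∈ C, ‖t * c - c‖ ≤ δ ∧ ‖c * t - c‖ ≤ δ) ∧
      ∀ x ∈ S, ‖ι t * x - x * ι t‖ ^ 2 ≤ B / 2 ^ n + η := by
  classical
  induction n with
  | zero =>
    intro C δ hδ
    obtain ⟨t, ht, ht1, htC⟩ := exists_unit C δ hδ
    refine ⟨t, ht, ht1, htC, fun x hx => ?_⟩
    have h1 := base ι t x ht1
    have h2 := hB x hx
    have h3 : ‖ι t * x - x * ι t‖ ^ 2 ≤ (2 * ‖x‖) ^ 2 := pow_le_pow_left₀ (norm_nonneg _) h1 2
    simp only [pow_zero, div_one]
    linarith
  | succ n ih =>
    intro C δ hδ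
    obtain ⟨t, ht, ht1, htC, htS⟩ := ih C δ hδ
    choose g hg using fun e : E => hι.right e t
    -- the bound for the norms
    obtain ⟨K, hK0, hK⟩ : ∃ K : ℝ, 0 < K ∧ ∀ x ∈ S, (1 + ‖x‖) ^ 2 ≤ K := by
      refine ⟨1 + ∑ x ∈ S, (1 + ‖x‖) ^ 2, ?_, fun x hx => ?_⟩
      · have : 0 ≤ ∑ x ∈ S, (1 + ‖x‖) ^ 2 := Finset.sum_nonneg fun x _ => by positivity
        linarith
      · have := Finset.single_le_sum (f := fun x => (1 + ‖x‖) ^ 2) (fun x _ => by positivity) hx
        linarith
    have hδ' : 0 < min δ (η / K) := lt_min hδ (div_pos hη hK0)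
    obtain ⟨s, hs, hs1, hsC, hsS⟩ := ih
      (C ∪ ({t} ∪ (S.image g ∪ (S.image (fun x => g (star x)) ∪
        S.image (fun x => g (star x * x)))))) (min δ (η / K)) hδ'
    refine ⟨(1 / 2 : ℝ) • (t + s), half_pos ht hs, ?_, fun c hc => ⟨?_, ?_⟩, fun x hx => ?_⟩
    · rw [norm_smul]
      have := norm_add_le t s
      norm_num
      linarith
    · have e : (1 / 2 : ℝ) • (t + s) * c - c = (1 / 2 : ℝ) • ((t * c - c) + (s * c - c)) := by
        rw [smul_mul_assoc, add_mul]
        module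
      have h1 := (htC c hc).1
      have h2 := ((hsC c (Finset.mem_union_left _ hc)).1).trans (min_le_left _ _)
      rw [e, norm_smul]
      have := norm_add_le (t * c - c) (s * c - c)
      norm_num
      linarith
    · have e : c * (1 / 2 : ℝ) • (t + s) - c = (1 / 2 : ℝ) • ((c * t - c) + (c * s - c)) := by
        rw [mul_smul_comm, mul_add]
        module
      have h1 := (htC c hc).2
      have h2 := ((hsC c (Finset.mem_union_left _ hc)).2).trans (min_le_left _ _)
      rw [e, norm_smul]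
      have := norm_add_le (c * t - c) (c * s - c)
      norm_num
      linarith
    · have key : ∀ c ∈ (C ∪ ({t} ∪ (S.image g ∪ (S.image (fun x => g (star x)) ∪
          S.image (fun x => g (star x * x)))))), ‖ι c * ι s - ι c‖ ≤ η / K := by
        intro c hc
        rw [← map_mul, ← map_sub]
        exact (norm_map_le ι _).trans (((hsC c hc).2).trans (min_le_right _ _))
      have k0 := key t (by simp)
      have k1 := key (g x) (Finset.mem_union_right _ (Finset.mem_union_right _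
        (Finset.mem_union_left _ (Finset.mem_image_of_mem g hx))))
      have k2 := key (g (star x)) (Finset.mem_union_right _ (Finset.mem_union_right _
        (Finset.mem_union_right _ (Finset.mem_union_left _
          (Finset.mem_image_of_mem (fun x => g (star x)) hx)))))
      have k3 := key (g (star x * x)) (Finset.mem_union_right _ (Finset.mem_union_right _
        (Finset.mem_union_right _ (Finset.mem_union_right _
          (Finset.mem_image_of_mem (fun x => g (star x * x)) hx)))))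
      rw [hg] at k1 k2 k3
      have hc := cross (ι t) (ι s) x (η / K) (by rw [← map_star, pos_star ht])
        k0 k1 k2 k3
      have hc' : ‖star (ι t * x - x * ι t) * (ι s * x - x * ι s)‖ ≤ η := by
        refine hc.trans ?_
        calc (1 + ‖x‖) ^ 2 * (η / K) ≤ K * (η / K) :=
              mul_le_mul_of_nonneg_right (hK x hx) (by positivity)
          _ = η := by field_simp
      have hsum := norm_sq_add_le (ι t * x - x * ι t) (ι s * x - x * ι s)
      have e : ι ((1 / 2 : ℝ) • (t + s)) * x - x * ι ((1 / 2 : ℝ) • (t + s)) =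
          (1 / 2 : ℝ) • ((ι t * x - x * ι t) + (ι s * x - x * ι s)) := by
        have e1 : ι ((1 / 2 : ℝ) • (t + s)) = (1 / 2 : ℝ) • (ι t + ι s) := by
          have : ((1 / 2 : ℝ) • (t + s) : I) = ((1 / 2 : ℝ) : ℂ) • (t + s) := by
            rw [Complex.coe_smul]
          rw [this, map_smul, map_add, Complex.coe_smul]
        rw [e1, smul_mul_assoc, mul_smul_comm, add_mul, mul_add]
        module
      rw [e, norm_smul, mul_pow]
      have h1 := htS x hx
      have h2 := hsS x hx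
      have h3 : ‖(1 / 2 : ℝ)‖ ^ 2 = 1 / 4 := by norm_num
      rw [h3]
      have h4 : B / 2 ^ (n + 1) = (B / 2 ^ n) / 2 := by
        rw [pow_succ]
        field_simp
      rw [h4]
      linarith

end

theorem t_QC : StQC := by
  intro I E _ _ ι hι C S δ hδ
  obtain ⟨B, hB⟩ : ∃ B : ℝ, ∀ x ∈ S, (2 * ‖x‖) ^ 2 ≤ B := by
    refine ⟨∑ x ∈ S, (2 * ‖x‖) ^ 2, fun x hx => ?_⟩
    exact Finset.single_le_sum (f := fun x => (2 * ‖x‖) ^ 2) (fun x _ => by positivity) hx
  have hη : 0 < δ ^ 2 / 2 := by positivity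
  obtain ⟨n, hn⟩ : ∃ n : ℕ, B / 2 ^ n ≤ δ ^ 2 / 2 := by
    have h1 : Filter.Tendsto (fun n : ℕ => B * (1 / 2 : ℝ) ^ n) Filter.atTop (nhds (B * 0)) :=
      (tendsto_pow_atTop_nhds_zero_of_lt_one (by norm_num) (by norm_num)).const_mul B
    rw [mul_zero] at h1
    obtain ⟨n, hn⟩ := (h1.eventually (ge_mem_nhds hη)).exists
    refine ⟨n, ?_⟩
    have : B / 2 ^ n = B * (1 / 2 : ℝ) ^ n := by
      rw [one_div, inv_pow, div_eq_mul_inv]
    rw [this]
    exact hn
  obtain ⟨t, ht, ht1, htC, htS⟩ := induct ι hι S B (δ ^ 2 / 2) hη hB n C δ hδ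
  refine ⟨t, ht, ht1, fun c hc => (htC c hc).1, fun x hx => ?_⟩
  have h1 := htS x hx
  have h2 : ‖ι t * x - x * ι t‖ ^ 2 ≤ δ ^ 2 := by linarith
  exact (pow_le_pow_iff_left₀ (norm_nonneg _) hδ.le (by norm_num)).1 h2

theorem t_VW (hQC : StQC) : StVW := by
  intro I E _ _ ι hι t S
  have hpos : ∀ k : ℕ, (0 : ℝ) < 1 / ((k : ℝ) + 1) := fun k => by positivity
  choose u hu hu1 hut huS using fun k : ℕ => hQC I E ι hι {t} S (1 / ((k : ℝ) + 1)) (hpos k)
  choose v hv hv1 hvt hvS using fun k : ℕ => hQC I E ι hι {u k} S (1 / ((k : ℝ) + 1)) (hpos k)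
  have h0 := tendsto_one_div_add_atTop_nhds_zero_nat (𝕜 := ℝ)
  refine ⟨u, v, fun k => ⟨hu k, hu1 k, hv k, hv1 k⟩, ?_, ?_, fun x hx => ?_, fun x hx => ?_⟩
  · exact squeeze_zero (fun k => norm_nonneg _) (fun k => hut k t (Finset.mem_singleton_self _)) h0
  · exact squeeze_zero (fun k => norm_nonneg _)
      (fun k => hvt k (u k) (Finset.mem_singleton_self _)) h0
  · exact squeeze_zero (fun k => norm_nonneg _) (fun k => huS k x hx) h0
  · exact squeeze_zero (fun k => norm_nonneg _) (fun k => hvS k x hx) h0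

end Pool.Agent.Helper7_ND.J_QC
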