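import Pool.Agent.Helper7_ND.Stm2

set_option autoImplicit false

open scoped Matrix.Norms.L2Operator ENNReal Matrix
open Pool.Agent.W659.EC

noncomputable section

namespace Pool.Agent.Helper7_ND.J_RF

theorem prj_norm {A : Type} [NonUnitalCStarAlgebra A] {p : A} (h : Prj p) : ‖p‖ ≤ 1 := by
  have h1 : ‖p‖ * ‖p‖ = ‖p‖ := by rw [← CStarRing.norm_star_mul_self, h.1, h.2]
  by_contra hc
  push Not at hc
  nlinarith

theorem prj_map {A B : Type} [CStarAlgebra A] [CStarAlgebra B] (q : A →⋆ₐ[ℂ] B) {p : A}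
    (h : Prj p) : Prj (q p) :=
  ⟨by rw [← map_star, h.1], by rw [← map_mul, h.2]⟩

theorem hom_cont {A B : Type} [CStarAlgebra A] [CStarAlgebra B] (φ : A →⋆ₐ[ℂ] B) :
    Continuous φ :=
  AddMonoidHomClass.continuous_of_bound φ 1
    (fun x => by rw [one_mul]; exact NonUnitalStarAlgHom.norm_apply_le φ x)

/-- the square root of `1` is `1` -/
theorem pos_one {Q : Type} [CStarAlgebra Q] {b : Q} (hb : Pos b) (h : b * b = 1) : b = 1 := by
  let _ := CStarAlgebra.spectralOrder Q
  let _ := CStarAlgebra.spectralOrderedRing Q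
  have hb0 : 0 ≤ b := CStarAlgebra.nonneg_iff_eq_star_mul_self.2 hb
  have h1 : CFC.sqrt (1 : Q) = b := CFC.sqrt_unique h hb0
  have h2 : CFC.sqrt (1 : Q) = 1 := CFC.sqrt_unique (mul_one 1) zero_le_one
  rw [← h1, h2]

section

variable {Λ : Type} {X : Λ → Type} [∀ l, CStarAlgebra (X l)] {T Q : Type} [CStarAlgebra T]
  [CStarAlgebra Q]

/-- what is used of the algebra of bounded families -/
structure Bdd (ev : ∀ l, T →⋆ₐ[ℂ] X l) : Prop where
  inj : ∀ x y : T, (∀ l, ev l x = ev l y) → x = y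
  ex : ∀ (x : ∀ l, X l) (C : ℝ), (∀ l, ‖x l‖ ≤ C) → ∃ t : T, ∀ l, ev l t = x l

theorem specC {ev : ∀ l, T →⋆ₐ[ℂ] X l} (hB : Bdd ev) (q : T →⋆ₐ[ℂ] Q) (N : T)
    (hN : star N * N = N * star N)
    (hfin : ∀ l, (spectrum ℂ (ev l N)).Finite) (J : Set ℂ) :
    ∃ P : T, Prj P ∧ P * N = N * P ∧
      (∀ f : ℂ → ℂ, Continuous f → (∀ z ∈ J, f z = 0) → q P * cfc f (q N) = 0) ∧
      (∀ f : ℂ → ℂ, Continuous f → (∀ z, z ∉ J → f z = 0) →
        cfc f (q N) * q P = cfc f (q N)) := by
  classical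
  have hNn : IsStarNormal N := ⟨hN⟩
  have hqN : IsStarNormal (q N) := by
    constructor
    have h := congrArg q hN
    rw [map_mul, map_mul, map_star] at h
    exact h
  have hNl : ∀ l, IsStarNormal (ev l N) := fun l => by
    constructor
    have h := congrArg (ev l) hN
    rw [map_mul, map_mul, map_star] at h
    exact h
  have hc : ∀ l (f : ℂ → ℂ), ContinuousOn f (spectrum ℂ (ev l N)) := fun l f =>
    (hfin l).continuousOn f
  let χ : ℂ → ℂ := fun z => if z ∈ J then 1 else 0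
  have hχ : ∀ z, χ z = if z ∈ J then 1 else 0 := fun z => rfl
  have hP : ∀ l, Prj (cfc χ (ev l N)) := by
    intro l
    constructor
    · rw [← cfc_star]
      congr 1
      funext z
      rw [hχ]; split_ifs <;> simp
    · rw [← cfc_mul χ χ (ev l N) (hc l _) (hc l _)]
      congr 1
      funext z
      rw [hχ]; split_ifs <;> simp
  obtain ⟨P, hPl⟩ := hB.ex (fun l => cfc χ (ev l N)) 1 (fun l => prj_norm (hP l))
  have hcfc : ∀ f : ℂ → ℂ, Continuous f → ∀ l, ev l (cfc f N) = cfc f (ev l N) := fun f hf l =>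
    StarAlgHomClass.map_cfc (ev l) f N hf.continuousOn (hom_cont (ev l)) hNn (hNl l)
  have hcq : ∀ f : ℂ → ℂ, Continuous f → q (cfc f N) = cfc f (q N) := fun f hf =>
    StarAlgHomClass.map_cfc q f N hf.continuousOn (hom_cont q) hNn hqN
  refine ⟨P, ⟨?_, ?_⟩, ?_, ?_, ?_⟩
  · refine hB.inj _ _ (fun l => ?_)
    rw [map_star, hPl]; exact (hP l).1
  · refine hB.inj _ _ (fun l => ?_)
    rw [map_mul, hPl]; exact (hP l).2
  · refine hB.inj _ _ (fun l => ?_)
    rw [map_mul, map_mul, hPl]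
    have h1 : ev l N = cfc (id : ℂ → ℂ) (ev l N) := (cfc_id ℂ (ev l N)).symm
    have h2 := cfc_commute_cfc χ (id : ℂ → ℂ) (ev l N)
    rw [← h1] at h2
    exact h2
  · intro f hf h0
    rw [← hcq f hf, ← map_mul]
    have : P * cfc f N = 0 := by
      refine hB.inj _ _ (fun l => ?_)
      rw [map_mul, hPl, hcfc f hf, map_zero, ← cfc_mul χ f (ev l N) (hc l _) (hc l _)]
      have : (fun z => χ z * f z) = fun _ => (0 : ℂ) := by
        funext z
        rw [hχ]
        split_ifs with hz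
        · rw [h0 z hz, mul_zero]
        · rw [zero_mul]
      rw [this, cfc_const_zero]
    rw [this, map_zero]
  · intro f hf h0
    rw [← hcq f hf, ← map_mul]
    congr 1
    refine hB.inj _ _ (fun l => ?_)
    rw [map_mul, hPl, hcfc f hf, ← cfc_mul f χ (ev l N) (hc l _) (hc l _)]
    congr 1
    funext z
    rw [hχ]
    split_ifs with hz
    · rw [mul_one]
    · rw [h0 z hz, zero_mul]

theorem specR {ev : ∀ l, T →⋆ₐ[ℂ] X l} (hB : Bdd ev) (q : T →⋆ₐ[ℂ] Q) (N : T)
    (hN : star N = N)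
    (hfin : ∀ l, (spectrum ℂ (ev l N)).Finite) (J : Set ℝ) :
    ∃ P : T, Prj P ∧ P * N = N * P ∧
      (∀ f : ℝ → ℝ, Continuous f → (∀ z ∈ J, f z = 0) → q P * cfc f (q N) = 0) ∧
      (∀ f : ℝ → ℝ, Continuous f → (∀ z, z ∉ J → f z = 0) →
        cfc f (q N) * q P = cfc f (q N)) := by
  classical
  have hNn : IsSelfAdjoint N := hN
  have hqN : IsSelfAdjoint (q N) := by
    have h := congrArg q hN
    rw [map_star] at h
    exact h
  have hNl : ∀ l, IsSelfAdjoint (ev l N) := fun l => by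
    have h := congrArg (ev l) hN
    rw [map_star] at h
    exact h
  have hfinR : ∀ l, (spectrum ℝ (ev l N)).Finite := by
    intro l
    rw [← spectrum.preimage_algebraMap ℂ]
    exact (hfin l).preimage (Complex.ofReal_injective.injOn)
  have hc : ∀ l (f : ℝ → ℝ), ContinuousOn f (spectrum ℝ (ev l N)) := fun l f =>
    (hfinR l).continuousOn f
  let χ : ℝ → ℝ := fun z => if z ∈ J then 1 else 0
  have hχ : ∀ z, χ z = if z ∈ J then 1 else 0 := fun z => rfl
  have hP : ∀ l, Prj (cfc χ (ev l N)) := by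
    intro l
    constructor
    · exact (cfc_predicate χ (ev l N) : IsSelfAdjoint _)
    · rw [← cfc_mul χ χ (ev l N) (hc l _) (hc l _)]
      congr 1
      funext z
      rw [hχ]; split_ifs <;> simp
  obtain ⟨P, hPl⟩ := hB.ex (fun l => cfc χ (ev l N)) 1 (fun l => prj_norm (hP l))
  have hcfc : ∀ f : ℝ → ℝ, Continuous f → ∀ l, ev l (cfc f N) = cfc f (ev l N) := fun f hf l =>
    StarAlgHomClass.map_cfc (ev l) f N hf.continuousOn (hom_cont (ev l)) hNn (hNl l)
  have hcq : ∀ f : ℝ → ℝ, Continuous f → q (cfc f N) = cfc f (q N) := fun f hf =>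
    StarAlgHomClass.map_cfc q f N hf.continuousOn (hom_cont q) hNn hqN
  refine ⟨P, ⟨?_, ?_⟩, ?_, ?_, ?_⟩
  · refine hB.inj _ _ (fun l => ?_)
    rw [map_star, hPl]; exact (hP l).1
  · refine hB.inj _ _ (fun l => ?_)
    rw [map_mul, hPl]; exact (hP l).2
  · refine hB.inj _ _ (fun l => ?_)
    rw [map_mul, map_mul, hPl]
    have h1 : ev l N = cfc (id : ℝ → ℝ) (ev l N) := (cfc_id ℝ (ev l N)).symm
    have h2 := cfc_commute_cfc χ (id : ℝ → ℝ) (ev l N)
    rw [← h1] at h2
    exact h2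
  · intro f hf h0
    rw [← hcq f hf, ← map_mul]
    have : P * cfc f N = 0 := by
      refine hB.inj _ _ (fun l => ?_)
      rw [map_mul, hPl, hcfc f hf, map_zero, ← cfc_mul χ f (ev l N) (hc l _) (hc l _)]
      have : (fun z => χ z * f z) = fun _ => (0 : ℝ) := by
        funext z
        rw [hχ]
        split_ifs with hz
        · rw [h0 z hz, mul_zero]
        · rw [zero_mul]
      rw [this, cfc_const_zero]
    rw [this, map_zero]
  · intro f hf h0
    rw [← hcq f hf, ← map_mul]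
    congr 1
    refine hB.inj _ _ (fun l => ?_)
    rw [map_mul, hPl, hcfc f hf, ← cfc_mul f χ (ev l N) (hc l _) (hc l _)]
    congr 1
    funext z
    rw [hχ]
    split_ifs with hz
    · rw [mul_one]
    · rw [h0 z hz, zero_mul]

/-- polar decompositions with unitary factor in `T` -/
theorem polar [∀ l, Nontrivial (X l)] {ev : ∀ l, T →⋆ₐ[ℂ] X l} (hB : Bdd ev)
    (hpol : ∀ l, Polar (X l)) (Y : T) :
    ∃ U C : T, star U * U = 1 ∧ U * star U = 1 ∧ Y = U * (star C * C) := by
  choose u b hu1 hu2 hb hy using fun l => hpol l (ev l Y)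
  choose c hc using hb
  have hun : ∀ l, ‖u l‖ ≤ 1 := by
    intro l
    have h1 : ‖u l‖ * ‖u l‖ = 1 := by
      rw [← CStarRing.norm_star_mul_self, hu1, CStarRing.norm_one]
    nlinarith [norm_nonneg (u l)]
  have hYn : ∀ l, ‖ev l Y‖ ≤ ‖Y‖ := fun l => NonUnitalStarAlgHom.norm_apply_le (ev l) Y
  have hbn : ∀ l, ‖b l‖ ≤ ‖Y‖ := by
    intro l
    have h1 : b l = star (u l) * ev l Y := by rw [hy l, ← mul_assoc, hu1, one_mul]
    calc ‖b l‖ ≤ ‖star (u l)‖ * ‖ev l Y‖ := by rw [h1]; exact norm_mul_le _ _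
      _ ≤ 1 * ‖Y‖ := by
        rw [norm_star]
        exact mul_le_mul (hun l) (hYn l) (norm_nonneg _) zero_le_one
      _ = ‖Y‖ := one_mul _
  have hcn : ∀ l, ‖c l‖ ≤ ‖Y‖ + 1 := by
    intro l
    have h1 : ‖c l‖ * ‖c l‖ ≤ ‖Y‖ := by
      rw [← CStarRing.norm_star_mul_self, ← hc l]; exact hbn l
    nlinarith [norm_nonneg (c l), norm_nonneg Y, sq_nonneg (‖c l‖ - 1)]
  obtain ⟨U, hU⟩ := hB.ex u 1 hun
  obtain ⟨C, hC⟩ := hB.ex c (‖Y‖ + 1) hcn
  refine ⟨U, C, ?_, ?_, ?_⟩
  · refine hB.inj _ _ (fun l => ?_)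
    rw [map_mul, map_star, hU, hu1, map_one]
  · refine hB.inj _ _ (fun l => ?_)
    rw [map_mul, map_star, hU, hu2, map_one]
  · refine hB.inj _ _ (fun l => ?_)
    rw [map_mul, map_mul, map_star, hU, hC, ← hc l, ← hy l]

theorem main [∀ l, Nontrivial (X l)] {ev : ∀ l, T →⋆ₐ[ℂ] X l} (hB : Bdd ev)
    (q : T →⋆ₐ[ℂ] Q) (hq : Function.Surjective q)
    (hpol : ∀ l, Polar (X l)) (hfin : ∀ l, ∀ a : X l, (spectrum ℂ a).Finite) :
    Polar Q ∧ SpecU Q ∧ SpecS Q ∧ ∀ p : Q, Prj p → ∃ P : T, Prj P ∧ q P = p := by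
  have hsa : ∀ y : Q, star y = y → ∃ N : T, star N = N ∧ q N = y := by
    intro y hy
    obtain ⟨Y, rfl⟩ := hq y
    refine ⟨(1 / 2 : ℂ) • (Y + star Y), ?_, ?_⟩
    · rw [star_smul, star_add, star_star, add_comm (star Y)]
      congr 1
      simp
    · rw [map_smul, map_add, map_star, hy, ← two_smul ℂ (q Y), smul_smul]
      norm_num
  refine ⟨?_, ?_, ?_, ?_⟩
  · intro y
    obtain ⟨Y, rfl⟩ := hq y
    obtain ⟨U, C, h1, h2, h3⟩ := polar hB hpol Y
    refine ⟨q U, star (q C) * q C, ?_, ?_, ⟨q C, rfl⟩, ?_⟩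
    · rw [← map_star, ← map_mul, h1, map_one]
    · rw [← map_star, ← map_mul, h2, map_one]
    · rw [← map_star, ← map_mul, ← map_mul, ← h3]
  · intro u hu1 hu2 J
    obtain ⟨Y, rfl⟩ := hq u
    obtain ⟨U, C, h1, h2, h3⟩ := polar hB hpol Y
    have e1 : q Y = q U * (star (q C) * q C) := by
      rw [← map_star, ← map_mul, ← map_mul, ← h3]
    have e2 : star (q U) * q U = 1 := by rw [← map_star, ← map_mul, h1, map_one]
    have e3 : star (q C) * q C = 1 := by
      apply pos_one ⟨q C, rfl⟩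
      have h4 : star (q Y) * q Y = (star (q C) * q C) * (star (q C) * q C) := by
        rw [e1, star_mul, star_mul, star_star]
        calc star (q C) * q C * star (q U) * (q U * (star (q C) * q C))
            = star (q C) * q C * (star (q U) * q U) * (star (q C) * q C) := by noncomm_ring
          _ = _ := by rw [e2, mul_one]
      rw [← h4, hu1]
    have e4 : q Y = q U := by rw [e1, e3, mul_one]
    obtain ⟨P, hP, hPN, hf, hg⟩ := specC hB q U (by rw [h1, h2]) (fun l => hfin l _) J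
    rw [e4]
    exact ⟨q P, prj_map q hP, by rw [← map_mul, hPN, map_mul], hf, hg⟩
  · intro u hu J
    obtain ⟨N, hN, rfl⟩ := hsa u hu
    obtain ⟨P, hP, hPN, hf, hg⟩ := specR hB q N hN (fun l => hfin l _) J
    exact ⟨q P, prj_map q hP, by rw [← map_mul, hPN, map_mul], hf, hg⟩
  · intro p hp
    obtain ⟨N, hN, rfl⟩ := hsa p hp.1
    obtain ⟨P, hP, hPN, hf, hg⟩ := specR hB q N hN (fun l => hfin l _) (Set.Ici (1 / 2))
    refine ⟨P, hP, ?_⟩
    have hspec : spectrum ℝ (q N) ⊆ {0, 1} := IsIdempotentElem.spectrum_subset ℝ hp.2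
    have hsaN : IsSelfAdjoint (q N) := hp.1
    -- `f`
    have e1 : cfc (fun t : ℝ => max (2 * t - 1) 0) (q N) = q N := by
      conv_rhs => rw [← cfc_id ℝ (q N)]
      apply cfc_congr
      intro t ht
      rcases hspec ht with rfl | ht1
      · norm_num
      · rw [Set.mem_singleton_iff] at ht1
        subst ht1
        norm_num
    have e2 : cfc (fun t : ℝ => max (1 - 2 * t) 0) (q N) = 1 - q N := by
      have h1 : cfc (fun t : ℝ => 1 - t) (q N) = 1 - q N := by
        rw [cfc_sub (fun _ => (1 : ℝ)) (fun t => t) (q N), cfc_const_one ℝ (q N), cfc_id' ℝ (q N)]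
      rw [← h1]
      apply cfc_congr
      intro t ht
      rcases hspec ht with rfl | ht1
      · norm_num
      · rw [Set.mem_singleton_iff] at ht1
        subst ht1
        norm_num
    have h1 : q N * q P = q N := by
      have := hg (fun t : ℝ => max (2 * t - 1) 0) (by fun_prop) (by
        intro z hz
        rw [Set.mem_Ici, not_le] at hz
        exact max_eq_right (by linarith))
      rwa [e1] at this
    have h2 : q P * (1 - q N) = 0 := by
      have := hf (fun t : ℝ => max (1 - 2 * t) 0) (by fun_prop) (by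
        intro z hz
        rw [Set.mem_Ici] at hz
        exact max_eq_right (by linarith))
      rwa [e2] at this
    have h3 : q P = q P * q N := by
      rw [mul_sub, mul_one, sub_eq_zero] at h2
      exact h2
    have h4 : q P * q N = q N := by
      have := congrArg star h1
      rw [star_mul, (prj_map q hP).1, hp.1] at this
      exact this
    rw [h3, h4]

end

section

variable {Λ : Type} {X : Λ → Type} [∀ l, CStarAlgebra (X l)] [∀ l, Nontrivial (X l)]

/-- evaluation at an index -/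
def ev (l : Λ) : lp X ∞ →⋆ₐ[ℂ] X l where
  toFun x := x l
  map_one' := by rw [lp.infty_coeFn_one]; rfl
  map_mul' x y := by rw [lp.infty_coeFn_mul]; rfl
  map_zero' := by rw [lp.coeFn_zero]; rfl
  map_add' x y := by rw [lp.coeFn_add]; rfl
  commutes' c := rfl
  map_star' x := rfl

theorem bdd_ev : Bdd (ev (X := X)) where
  inj _ _ h := lp.ext (funext h)
  ex x C h := ⟨⟨x, memℓp_infty ⟨C, by rintro _ ⟨l, rfl⟩; exact h l⟩⟩, fun _ => rfl⟩

end

theorem t_RF : StRF := by
  intro Λ X _ _ ℱ Q _ q hq hpol hfin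
  exact main bdd_ev q hq.surj hpol hfin

end Pool.Agent.Helper7_ND.J_RF
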