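import Pool.Agent.Helper7_ND.Stm2

/-! # Rows and order zero maps (helper623, job ND-ROW of helper7) -/

set_option autoImplicit false

open scoped Matrix.Norms.L2Operator ENNReal Matrix
open Pool.Agent.W659.EC

noncomputable section

namespace Pool.Agent.Helper7_ND.J_ROW

section rows

variable {F : FDA} {A : Type} [NonUnitalCStarAlgebra A]

theorem mpos_row {k : ℕ} (v : Fin k → A) : MPos (Matrix.of fun a b => star (v a) * v b) := by
  cases k with
  | zero => exact ⟨0, by ext i; exact i.elim0⟩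
  | succ k =>
    refine ⟨Matrix.of fun c a => if c = 0 then v a else 0, ?_⟩
    ext a b
    rw [Matrix.mul_apply, Finset.sum_eq_single 0]
    · simp [Matrix.conjTranspose_apply]
    · intro c _ hc
      simp [hc]
    · simp

theorem vv {J : Type} [Fintype J] (m n : J → ℂ) (x : J → A) :
    star (∑ j, m j • star (x j)) * (∑ j, n j • star (x j)) =
      ∑ i, ∑ j, (star (m i) * n j) • (x i * star (x j)) := by
  rw [star_sum, Finset.sum_mul_sum]
  refine Finset.sum_congr rfl fun i _ => Finset.sum_congr rfl fun j _ => ?_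
  rw [star_smul, star_star, smul_mul_assoc, mul_smul_comm, smul_smul]

theorem sum_comm4 {C T J : Type} [Fintype C] [Fintype T] [Fintype J] (f : C → T → J → J → A) :
    ∑ c, ∑ t, ∑ i, ∑ j, f c t i j = ∑ i, ∑ j, ∑ c, ∑ t, f c t i j := by
  have h1 : ∀ c, ∑ t, ∑ i, ∑ j, f c t i j = ∑ i, ∑ j, ∑ t, f c t i j := by
    intro c
    rw [Finset.sum_comm]
    exact Finset.sum_congr rfl fun i _ => Finset.sum_comm
  rw [Finset.sum_congr rfl fun c _ => h1 c, Finset.sum_comm]
  exact Finset.sum_congr rfl fun i _ => Finset.sum_comm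

theorem isCP_rowMap (x : ∀ l : F.ι, F.n l → A) : IsCP (rowMap F x) := by
  intro k M
  change MPos _
  have key : (Mᴴ * M).map (rowMap F x) = ∑ l : F.ι, ∑ c : Fin k, ∑ t : F.n l,
      (Matrix.of fun a b => star (∑ j, (M c a) l t j • star (x l j)) *
        (∑ j, (M c b) l t j • star (x l j))) := by
    ext a b
    rw [Matrix.map_apply]
    rw [Matrix.sum_apply]
    change (∑ l, ∑ i, ∑ j, ((Mᴴ * M) a b) l i j • (x l i * star (x l j))) = _
    refine Finset.sum_congr rfl fun l _ => ?_
    rw [Matrix.sum_apply]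
    have h1 : ∀ i j, ((Mᴴ * M) a b) l i j = ∑ c, ∑ t, star ((M c a) l t i) * (M c b) l t j := by
      intro i j
      rw [Matrix.mul_apply, Finset.sum_apply, Matrix.sum_apply]
      refine Finset.sum_congr rfl fun c _ => ?_
      rw [Matrix.conjTranspose_apply, Pi.mul_apply, Matrix.mul_apply]
      rfl
    simp only [Matrix.sum_apply, Matrix.of_apply, vv]
    rw [sum_comm4]
    refine Finset.sum_congr rfl fun i _ => Finset.sum_congr rfl fun j _ => ?_
    rw [h1, Finset.sum_smul]
    exact Finset.sum_congr rfl fun c _ => Finset.sum_smul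
  rw [key]
  exact MPos.sum _ fun l _ => MPos.sum _ fun c _ => MPos.sum _ fun t _ => mpos_row _

theorem row_mul {x : ∀ l : F.ι, F.n l → A} {k : F.ι → A} (hx : IsRow F x k 0) (a b : F.alg) :
    rowMap F x a * rowMap F x b =
      ∑ l, ∑ i, ∑ q, (a * b) l i q • (x l i * k l * star (x l q)) := by
  obtain ⟨h1, h2, h3⟩ := hx
  have h1' : ∀ l i, star (x l i) * x l i = k l := fun l i =>
    sub_eq_zero.1 (norm_le_zero_iff.1 (h1 l i))
  have h2' : ∀ l i j, i ≠ j → star (x l i) * x l j = 0 := fun l i j h =>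
    norm_le_zero_iff.1 (h2 l i j h)
  have h3' : ∀ l l' i j, l ≠ l' → star (x l i) * x l' j = 0 := fun l l' i j h =>
    norm_le_zero_iff.1 (h3 l l' i j h)
  change (∑ l, ∑ i, ∑ j, a l i j • (x l i * star (x l j))) *
    (∑ l, ∑ i, ∑ j, b l i j • (x l i * star (x l j))) = _
  rw [Finset.sum_mul_sum]
  refine Finset.sum_congr rfl fun l _ => ?_
  rw [Finset.sum_eq_single l]
  · rw [Finset.sum_mul_sum]
    refine Finset.sum_congr rfl fun i _ => ?_
    have e1 : ∀ p, (∑ j, a l i j • (x l i * star (x l j))) *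
        (∑ q, b l p q • (x l p * star (x l q))) =
        ∑ q, (a l i p * b l p q) • (x l i * k l * star (x l q)) := by
      intro p
      rw [Finset.sum_mul_sum, Finset.sum_eq_single p]
      · refine Finset.sum_congr rfl fun q _ => ?_
        rw [smul_mul_assoc, mul_smul_comm, smul_smul]
        congr 1
        rw [← h1' l p]
        simp only [mul_assoc]
      · intro j _ hj
        refine Finset.sum_eq_zero fun q _ => ?_
        rw [smul_mul_assoc, mul_smul_comm]
        have : x l i * star (x l j) * (x l p * star (x l q)) =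
            x l i * (star (x l j) * x l p) * star (x l q) := by simp only [mul_assoc]
        rw [this, h2' l j p hj]
        simp
      · intro h; exact absurd (Finset.mem_univ p) h
    rw [Finset.sum_congr rfl fun p _ => e1 p, Finset.sum_comm]
    refine Finset.sum_congr rfl fun q _ => ?_
    rw [← Finset.sum_smul]
    rfl
  · intro l' _ hl
    rw [Finset.sum_mul_sum]
    refine Finset.sum_eq_zero fun i _ => Finset.sum_eq_zero fun p _ => ?_
    rw [Finset.sum_mul_sum]
    refine Finset.sum_eq_zero fun j _ => Finset.sum_eq_zero fun q _ => ?_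
    rw [smul_mul_assoc, mul_smul_comm]
    have : x l i * star (x l j) * (x l' p * star (x l' q)) =
        x l i * (star (x l j) * x l' p) * star (x l' q) := by simp only [mul_assoc]
    rw [this, h3' l l' j p (Ne.symm hl)]
    simp
  · intro h; exact absurd (Finset.mem_univ l) h

theorem isOrderZero_rowMap {x : ∀ l : F.ι, F.n l → A} {k : F.ι → A} (hx : IsRow F x k 0) :
    IsOrderZero (rowMap F x) := by
  intro a b hab
  rw [row_mul hx, hab]
  simp

/-! ## matrix units -/

theorem mu_mul_same (l : F.ι) (i j q : F.n l) : mu F l i j * mu F l j q = mu F l i q := by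
  classical
  unfold mu
  rw [← Pi.single_mul, Matrix.single_mul_single_same, mul_one]

theorem mu_mul_of_ne (l : F.ι) (i j p q : F.n l) (h : j ≠ p) : mu F l i j * mu F l p q = 0 := by
  classical
  unfold mu
  rw [← Pi.single_mul, Matrix.single_mul_single_of_ne _ _ _ _ h, Pi.single_zero]

theorem mu_mul_ne {l l' : F.ι} (h : l ≠ l') (i j : F.n l) (p q : F.n l') :
    mu F l i j * mu F l' p q = 0 := by
  classical
  unfold mu
  ext m : 1
  rw [Pi.mul_apply]
  by_cases hm : m = l
  · subst hm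
    have e : (Pi.single l' (Matrix.single p q (1 : ℂ)) : F.alg) m = 0 := Pi.single_eq_of_ne h _
    rw [e, mul_zero]
    rfl
  · have e : (Pi.single l (Matrix.single i j (1 : ℂ)) : F.alg) m = 0 := Pi.single_eq_of_ne hm _
    rw [e, zero_mul]
    rfl

theorem star_mu (l : F.ι) (i j : F.n l) : star (mu F l i j) = mu F l j i := by
  classical
  unfold mu
  rw [← Pi.single_star]
  congr 1
  rw [Matrix.star_eq_conjTranspose, Matrix.conjTranspose_single, star_one]

theorem sum_mu (y : F.alg) : ∑ l, ∑ i, ∑ j, y l i j • mu F l i j = y := by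
  classical
  ext m : 1
  rw [Finset.sum_apply, Finset.sum_eq_single m]
  · rw [Finset.sum_apply]
    conv_rhs => rw [Matrix.matrix_eq_sum_single (y m)]
    refine Finset.sum_congr rfl fun i _ => ?_
    rw [Finset.sum_apply]
    refine Finset.sum_congr rfl fun j _ => ?_
    unfold mu
    rw [Pi.smul_apply, Pi.single_eq_same, Matrix.smul_single, smul_eq_mul, mul_one]
  · intro l _ hl
    rw [Finset.sum_apply]
    refine Finset.sum_eq_zero fun i _ => ?_
    rw [Finset.sum_apply]
    refine Finset.sum_eq_zero fun j _ => ?_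
    unfold mu
    rw [Pi.smul_apply, Pi.single_eq_of_ne (Ne.symm hl), smul_zero]
  · intro h; exact absurd (Finset.mem_univ m) h

end rows

section oz

variable {F : FDA} {A : Type} [NonUnitalCStarAlgebra A] [PartialOrder A] [StarOrderedRing A]

/-- the function used to cut down -/
def ff (e : ℝ) (s : ℝ) : ℝ := Real.sqrt s / (|s| + e)

theorem ff_cont {e : ℝ} (he : 0 < e) : Continuous (ff e) := by
  unfold ff
  refine Real.continuous_sqrt.div (by fun_prop) fun s => ?_
  have := abs_nonneg s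
  positivity

theorem ff_zero (e : ℝ) : ff e 0 = 0 := by simp [ff]

theorem ff_real {e s : ℝ} (he : 0 < e) (hs : 0 ≤ s) :
    0 ≤ (1 - ff e s * ff e s * s) * s ∧ (1 - ff e s * ff e s * s) * s ≤ 2 * e := by
  have h1 : ff e s * ff e s * s = s ^ 2 / (s + e) ^ 2 := by
    unfold ff
    rw [abs_of_nonneg hs, div_mul_div_comm, Real.mul_self_sqrt hs]
    field_simp
  rw [h1]
  have h2 : (1 - s ^ 2 / (s + e) ^ 2) * s = e * s * (2 * s + e) / (s + e) ^ 2 := by
    field_simp
    ring
  rw [h2]
  refine ⟨by positivity, ?_⟩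
  rw [div_le_iff₀ (by positivity)]
  nlinarith [mul_nonneg hs he.le, mul_pos he he, mul_nonneg he.le (mul_nonneg hs hs),
    mul_nonneg hs (mul_pos he he).le, mul_pos he (mul_pos he he)]

/-- the estimate -/
theorem est {φ : F.alg →ₗ[ℂ] A} (hφ : IsCP φ) (y : F.alg) :
    φ (y * star y) ≤ ((‖y‖ ^ 2 : ℝ) : ℂ) • φ 1 := by
  let _ := CStarAlgebra.spectralOrder F.alg
  let _ := CStarAlgebra.spectralOrderedRing F.alg
  have h2 : (0 : F.alg) ≤ ((‖y‖ ^ 2 : ℝ) : ℂ) • (1 : F.alg) - y * star y := by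
    rw [sub_nonneg]
    have := CStarAlgebra.star_mul_le_algebraMap_norm_sq (a := star y)
    rw [star_star, norm_star] at this
    refine this.trans (le_of_eq ?_)
    rw [Algebra.algebraMap_eq_smul_one]
    rfl
  obtain ⟨b, hb⟩ := (nonneg_iff_star _).1 h2
  have h3 := hφ.nonneg b
  rw [← hb, map_sub, map_smul, sub_nonneg] at h3
  exact h3

/-- the cut down of an order zero map -/
theorem cut_est {φ : F.alg →ₗ[ℂ] A} (hφ : IsCP φ) (hoz : OZ φ) {e : ℝ} (he : 0 < e) (y : F.alg) :
    ‖cfcₙ (ff e) (φ 1) * cfcₙ (ff e) (φ 1) * (φ 1 * φ y) - φ y‖ ≤ 2 * e * ‖y‖ := by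
  obtain ⟨h, hh⟩ : ∃ h, h = φ 1 := ⟨_, rfl⟩
  have h0 : 0 ≤ h := by rw [hh]; simpa using hφ.nonneg (1 : F.alg)
  have hsa : IsSelfAdjoint h := IsSelfAdjoint.of_nonneg h0
  have hcomm : ∀ z, Commute h (φ z) := by
    intro z
    have := hoz z 1
    rw [mul_one, ← hh] at this
    exact this.symm
  have hpos : ∀ s ∈ quasispectrum ℝ h, 0 ≤ s := fun s hs =>
    quasispectrum_nonneg_of_nonneg h h0 s hs
  rw [← hh]
  have cm : ∀ f g : ℝ → ℝ, Continuous f → Continuous g → f 0 = 0 → g 0 = 0 →
      cfcₙ f h * cfcₙ g h = cfcₙ (fun s => f s * g s) h := fun f g hf hg hf0 hg0 =>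
    (cfcₙ_mul f g h hf.continuousOn hf0 hg.continuousOn hg0).symm
  have ca : ∀ f g : ℝ → ℝ, Continuous f → Continuous g → f 0 = 0 → g 0 = 0 →
      cfcₙ f h + cfcₙ g h = cfcₙ (fun s => f s + g s) h := fun f g hf hg hf0 hg0 =>
    (cfcₙ_add f g h hf.continuousOn hf0 hg.continuousOn hg0).symm
  have cs : ∀ f g : ℝ → ℝ, Continuous f → Continuous g → f 0 = 0 → g 0 = 0 →
      cfcₙ f h - cfcₙ g h = cfcₙ (fun s => f s - g s) h := fun f g hf hg hf0 hg0 =>
    (cfcₙ_sub f g h hf.continuousOn hf0 hg.continuousOn hg0).symm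
  have hid : h = cfcₙ (fun s : ℝ => s) h := (cfcₙ_id' ℝ h).symm
  have hf := ff_cont he
  have hf0 := ff_zero e
  obtain ⟨G, hG⟩ : ∃ G : ℝ → ℝ, G = fun s => ff e s * ff e s * s := ⟨_, rfl⟩
  have hGc : Continuous G := by rw [hG]; exact (hf.mul hf).mul continuous_id
  have hG0 : G 0 = 0 := by rw [hG]; simp
  obtain ⟨g, hg⟩ : ∃ g : A, g = cfcₙ G h := ⟨_, rfl⟩
  have hgw : cfcₙ (ff e) h * cfcₙ (ff e) h * h = g := by
    rw [hg, hG]
    conv_lhs => rw [cm _ _ hf hf hf0 hf0]
    conv_lhs =>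
      enter [2]
      rw [hid]
    exact cm (fun s => ff e s * ff e s) (fun s => s) (hf.mul hf) continuous_id (by simp [hf0]) rfl
  obtain ⟨K, hK⟩ : ∃ K : A, K = cfcₙ (fun s : ℝ => (1 - G s) * Real.sqrt s) h := ⟨_, rfl⟩
  have hKc : Continuous (fun s : ℝ => (1 - G s) * Real.sqrt s) :=
    (continuous_const.sub hGc).mul Real.continuous_sqrt
  have hK0 : (fun s : ℝ => (1 - G s) * Real.sqrt s) 0 = 0 := by simp
  have hKsa : IsSelfAdjoint K := by rw [hK]; exact IsSelfAdjoint.cfcₙ
  have hgsa : IsSelfAdjoint g := by rw [hg]; exact IsSelfAdjoint.cfcₙ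
  have hKK : K * K = g * g * h - g * h - g * h + h := by
    have e1 : g * h = cfcₙ (fun s => G s * s) h := by
      rw [hg]
      conv_lhs =>
        enter [2]
        rw [hid]
      exact cm G (fun s => s) hGc continuous_id hG0 rfl
    have e2 : g * g * h = cfcₙ (fun s => G s * (G s * s)) h := by
      rw [mul_assoc, e1, hg]
      exact cm G (fun s => G s * s) hGc (hGc.mul continuous_id) hG0 (by simp)
    rw [e2, e1, hK, cm _ _ hKc hKc hK0 hK0]
    rw [cs (fun s => G s * (G s * s)) (fun s => G s * s) (hGc.mul (hGc.mul continuous_id))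
      (hGc.mul continuous_id) (by simp) (by simp)]
    rw [cs (fun s => G s * (G s * s) - G s * s) (fun s => G s * s)
      ((hGc.mul (hGc.mul continuous_id)).sub (hGc.mul continuous_id))
      (hGc.mul continuous_id) (by simp) (by simp)]
    conv_rhs =>
      enter [2]
      rw [hid]
    rw [ca (fun s => G s * (G s * s) - G s * s - G s * s) (fun s => s)
      (((hGc.mul (hGc.mul continuous_id)).sub (hGc.mul continuous_id)).sub
        (hGc.mul continuous_id)) continuous_id (by simp) rfl]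
    refine cfcₙ_congr fun s hs => ?_
    have hs0 := hpos s hs
    have := Real.mul_self_sqrt hs0
    change (1 - G s) * Real.sqrt s * ((1 - G s) * Real.sqrt s) = _
    calc (1 - G s) * Real.sqrt s * ((1 - G s) * Real.sqrt s)
        = (1 - G s) * (1 - G s) * (Real.sqrt s * Real.sqrt s) := by ring
      _ = _ := by rw [this]; ring
  have hKcomm : ∀ z, Commute K (φ z) := fun z => by
    rw [hK]; exact (hcomm z).cfcₙ_real _
  have hgcomm : ∀ z, Commute g (φ z) := fun z => by
    rw [hg]; exact (hcomm z).cfcₙ_real _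
  obtain ⟨P, hP⟩ : ∃ P, P = φ (y * star y) := ⟨_, rfl⟩
  have hP0 : 0 ≤ P := by
    rw [hP]; have := hφ.nonneg (star y); rwa [star_star] at this
  have hPle : P ≤ ((‖y‖ ^ 2 : ℝ) : ℂ) • h := by rw [hP, hh]; exact est hφ y
  have hyy : φ y * star (φ y) = h * P := by
    rw [← hφ.star_map, hoz, hh, hP]
  have hD : (g * φ y - φ y) * star (g * φ y - φ y) = K * P * K := by
    have e1 : star (g * φ y - φ y) = star (φ y) * g - star (φ y) := by
      rw [star_sub, star_mul, hgsa.star_eq]
    have e2 : K * P * K = K * K * P := by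
      rw [mul_assoc, mul_assoc, hP, (hKcomm _).eq]
    rw [e1, e2, hKK]
    have e3 : g * φ y * (star (φ y) * g) = g * g * h * P := by
      rw [show g * φ y * (star (φ y) * g) = g * (φ y * star (φ y)) * g by simp only [mul_assoc],
        hyy]
      have : h * P * g = g * (h * P) := by
        rw [mul_assoc, hP, ← (hgcomm _).eq, ← mul_assoc, ← mul_assoc]
        congr 1
        rw [hh]
        exact (hgcomm 1).eq.symm
      rw [mul_assoc, this]
      simp only [mul_assoc]
    have e4 : g * φ y * star (φ y) = g * h * P := by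
      rw [mul_assoc, hyy, mul_assoc]
    have e5 : φ y * (star (φ y) * g) = g * h * P := by
      rw [← mul_assoc, hyy, mul_assoc, hP, ← (hgcomm _).eq, ← mul_assoc]
      congr 1
      rw [hh]
      exact (hgcomm 1).eq.symm
    rw [sub_mul, mul_sub, mul_sub, e3, e4, e5, hyy]
    simp only [sub_mul, add_mul]
    abel
  have hKhK : K * h * K = cfcₙ (fun s : ℝ => (1 - G s) * Real.sqrt s * s *
      ((1 - G s) * Real.sqrt s)) h := by
    rw [hK]
    conv_lhs =>
      enter [1, 2]
      rw [hid]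
    rw [cm _ (fun s => s) hKc continuous_id hK0 rfl]
    exact cm _ _ (hKc.mul continuous_id) hKc (by simp) hK0
  have hKn : ‖K * h * K‖ ≤ (2 * e) ^ 2 := by
    rw [hKhK]
    refine norm_cfcₙ_le fun s hs => ?_
    have hs0 := hpos s hs
    obtain ⟨a1, a2⟩ := ff_real he hs0
    have e1 : (1 - G s) * Real.sqrt s * s * ((1 - G s) * Real.sqrt s) =
        ((1 - ff e s * ff e s * s) * s) ^ 2 := by
      rw [hG]
      calc (1 - ff e s * ff e s * s) * Real.sqrt s * s * ((1 - ff e s * ff e s * s) * Real.sqrt s)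
          = (1 - ff e s * ff e s * s) ^ 2 * s * (Real.sqrt s * Real.sqrt s) := by ring
        _ = _ := by rw [Real.mul_self_sqrt hs0]; ring
    rw [e1, Real.norm_of_nonneg (sq_nonneg _)]
    exact pow_le_pow_left₀ a1 a2 2
  have hfin : ‖g * φ y - φ y‖ ^ 2 ≤ (2 * e * ‖y‖) ^ 2 := by
    rw [sq, ← CStarRing.norm_self_mul_star, hD]
    have e1 : 0 ≤ K * P * K := hKsa.conjugate_nonneg hP0
    have e2 : K * P * K ≤ K * (((‖y‖ ^ 2 : ℝ) : ℂ) • h) * K := hKsa.conjugate_le_conjugate hPle
    refine (CStarAlgebra.norm_le_norm_of_nonneg_of_le e1 e2).trans ?_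
    rw [mul_smul_comm, smul_mul_assoc, norm_smul]
    have e3 : ‖((‖y‖ ^ 2 : ℝ) : ℂ)‖ = ‖y‖ ^ 2 := by
      rw [Complex.norm_real, Real.norm_of_nonneg (sq_nonneg _)]
    rw [e3]
    calc ‖y‖ ^ 2 * ‖K * h * K‖ ≤ ‖y‖ ^ 2 * (2 * e) ^ 2 := by gcongr
      _ = _ := by ring
  have hfin2 := (sq_le_sq₀ (norm_nonneg _) (by positivity)).1 hfin
  have e9 : cfcₙ (ff e) h * cfcₙ (ff e) h * (h * φ y) = g * φ y := by
    rw [← mul_assoc, hgw]
  rw [e9]
  exact hfin2

/-- the chosen index of a block -/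
def oo (F : FDA) (l : F.ι) (i : F.n l) : F.n l := Classical.choice ⟨i⟩

theorem oo_eq (l : F.ι) (i j : F.n l) : oo F l i = oo F l j := rfl

theorem approx {φ : F.alg →ₗ[ℂ] A} (hφ : IsCP φ) (hoz : OZ φ) {ε : ℝ} (hε : 0 < ε) :
    ∃ (x : ∀ l : F.ι, F.n l → A) (k : F.ι → A),
      IsRow F x k 0 ∧ (∀ l, Pos (k l)) ∧ ∀ y, ‖rowMap F x y - φ y‖ ≤ ε * ‖y‖ := by
  classical
  obtain ⟨w, hw⟩ : ∃ w : A, w = cfcₙ (ff (ε / 2)) (φ 1) := ⟨_, rfl⟩
  have hcomm : ∀ z, Commute (φ 1) (φ z) := by
    intro z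
    have := hoz z 1
    rw [mul_one] at this
    exact this.symm
  have hwc : ∀ z, Commute w (φ z) := fun z => by
    rw [hw]; exact (hcomm z).cfcₙ_real _
  have hwsa : IsSelfAdjoint w := by rw [hw]; exact IsSelfAdjoint.cfcₙ
  obtain ⟨x, hx⟩ : ∃ x : ∀ l : F.ι, F.n l → A, ∀ l i, x l i = w * φ (mu F l i (oo F l i)) :=
    ⟨_, fun _ _ => rfl⟩
  have hxs : ∀ l i, star (x l i) = φ (mu F l (oo F l i) i) * w := by
    intro l i
    rw [hx, star_mul, hwsa.star_eq, ← hφ.star_map, star_mu]
  have hmid : ∀ a b : F.alg, φ a * w * (w * φ b) = w * w * (φ 1 * φ (a * b)) := by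
    intro a b
    rw [← hoz a b, ← (hwc a).eq]
    rw [show w * φ a * (w * φ b) = w * (φ a * w) * φ b by simp only [mul_assoc], ← (hwc a).eq]
    simp only [mul_assoc]
  have hmid2 : ∀ a b : F.alg, w * φ a * (φ b * w) = w * w * (φ 1 * φ (a * b)) := by
    intro a b
    rw [← hoz a b, ← (hwc b).eq]
    rw [show w * φ a * (w * φ b) = w * (φ a * w) * φ b by simp only [mul_assoc], ← (hwc a).eq]
    simp only [mul_assoc]
  have hxx : ∀ l i l' j, star (x l i) * x l' j =
      w * w * (φ 1 * φ (mu F l (oo F l i) i * mu F l' j (oo F l' j))) := by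
    intro l i l' j
    rw [hxs, hx, hmid]
  obtain ⟨k, hk1, hk2⟩ : ∃ k : F.ι → A, (∀ l, ∀ h : Nonempty (F.n l), k l =
      star (x l (Classical.choice h)) * x l (Classical.choice h)) ∧
      ∀ l, ¬ Nonempty (F.n l) → k l = 0 := by
    refine ⟨fun l => if h : Nonempty (F.n l) then
      star (x l (Classical.choice h)) * x l (Classical.choice h) else 0, fun l h => ?_,
      fun l h => ?_⟩
    · simp only [dif_pos h]
    · simp only [dif_neg h]
  refine ⟨x, k, ⟨?_, ?_, ?_⟩, ?_, ?_⟩
  · intro l i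
    rw [hk1 l ⟨i⟩, hxx, hxx, mu_mul_same, mu_mul_same]
    have : oo F l i = oo F l (Classical.choice ⟨i⟩) := rfl
    rw [← this, sub_self, norm_zero]
  · intro l i j hij
    rw [hxx, mu_mul_of_ne _ _ _ _ _ hij]
    simp
  · intro l l' i j hl
    rw [hxx, mu_mul_ne hl]
    simp
  · intro l
    by_cases h : Nonempty (F.n l)
    · rw [hk1 l h]
      exact ⟨_, rfl⟩
    · rw [hk2 l h]
      exact ⟨0, by simp⟩
  · intro y
    have hT : rowMap F x y = w * w * (φ 1 * φ y) := by
      change (∑ l, ∑ i, ∑ j, y l i j • (x l i * star (x l j))) = _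
      conv_rhs => rw [← sum_mu y]
      simp only [map_sum, map_smul, Finset.mul_sum, mul_smul_comm]
      refine Finset.sum_congr rfl fun l _ => Finset.sum_congr rfl fun i _ =>
        Finset.sum_congr rfl fun j _ => ?_
      congr 1
      rw [hxs, hx, hmid2]
      have : oo F l i = oo F l j := rfl
      rw [this, mu_mul_same]
    rw [hT, hw]
    have := cut_est hφ hoz (half_pos hε) y
    rwa [mul_div_cancel₀ _ (two_ne_zero' ℝ)] at this

end oz

theorem t_ROW (hL1 : StL1) : StROW := by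
  refine ⟨fun F A _ x => isCP_rowMap x, fun F A _ x k hx => isOrderZero_rowMap hx, ?_⟩
  intro F A _ φ ε hε hφ hoz
  let _ := CStarAlgebra.spectralOrder A
  let _ := CStarAlgebra.spectralOrderedRing A
  exact approx hφ.1 (hL1 F A φ hφ.1 hoz) hε

end Pool.Agent.Helper7_ND.J_ROW
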