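import Pool.Agent.Helper7_ND.Stm2

set_option autoImplicit false

open scoped Matrix.Norms.L2Operator ENNReal Matrix
open Pool.Agent.W659.EC

noncomputable section

namespace Pool.Agent.Helper7_ND.J_S0

open Complex in
/-- the real part of an affine image of a normal element and the functional calculus -/
theorem aux_cfc {Q : Type} [CStarAlgebra Q] (y : Q) (hy : IsStarNormal y) (r c : ℝ)
    (f : ℝ → ℝ) (hf : Continuous f) :
    cfc f ((realPart ((r : ℂ) • y + (c : ℂ) • (1 : Q)) : selfAdjoint Q) : Q) =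
      cfc (fun z : ℂ => ((f (r * z.re + c) : ℝ) : ℂ)) y := by
  have e1 : (r : ℂ) • y + (c : ℂ) • (1 : Q) = cfc (fun z : ℂ => (r : ℂ) * z + (c : ℂ)) y := by
    rw [cfc_add_const .., cfc_const_mul .., cfc_id' .., Algebra.algebraMap_eq_smul_one]
  have hn : IsStarNormal ((r : ℂ) • y + (c : ℂ) • (1 : Q)) := by
    rw [e1]
    exact cfc_predicate _ _
  rw [← cfc_comp_re f _ hf.continuousOn hn, e1,
    ← cfc_comp' (fun z : ℂ => ((f z.re : ℝ) : ℂ)) (fun z : ℂ => (r : ℂ) * z + (c : ℂ)) y
      (by fun_prop) (by fun_prop) hy]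
  congr 1
  funext z
  simp

/-- affine images of normal elements are normal -/
theorem aux_normal {Q : Type} [CStarAlgebra Q] (y : Q) (hy : star y * y = y * star y) (r c : ℂ) :
    star (r • y + c • (1 : Q)) * (r • y + c • (1 : Q)) =
      (r • y + c • (1 : Q)) * star (r • y + c • (1 : Q)) := by
  simp only [star_add, star_smul, star_one, mul_add, add_mul, smul_mul_assoc, mul_smul_comm,
    one_mul, mul_one, hy]
  module

theorem t_S0 (ha : StS0a) (hb : StS0b) (hc : StS0c) : StS0 := by
  intro Q _ hP hU a s α β ε hsa hss hcom hαβ hε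
  obtain ⟨r, hr0, hr1, hr2⟩ : ∃ r : ℝ, 0 < r ∧ α + 2 * r ≤ β ∧ 3 * r ≤ ε := by
    refine ⟨min ((β - α) / 2) (ε / 3), lt_min (by linarith) (by linarith), ?_, ?_⟩
    · have := min_le_left ((β - α) / 2) (ε / 3)
      linarith
    · have := min_le_right ((β - α) / 2) (ε / 3)
      linarith
  set x : Q := s + Complex.I • a with hx
  have hxn : star x * x = x * star x := by
    rw [hx, star_add, star_smul, hsa, hss]
    simp only [mul_add, add_mul, smul_mul_assoc, mul_smul_comm, hcom, Complex.star_def,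
      Complex.conj_I]
    module
  have hrc : (r : ℂ) ≠ 0 := by exact_mod_cast hr0.ne'
  set c : ℝ := α + r with hcdef
  set y0 : Q := ((r : ℂ)⁻¹) • x + (-((r : ℂ)⁻¹ * c)) • (1 : Q) with hy0
  have hy0n : star y0 * y0 = y0 * star y0 := aux_normal x hxn _ _
  have hxy : (r : ℂ) • y0 + (c : ℂ) • (1 : Q) = x := by
    rw [hy0, smul_add, smul_smul, smul_smul, mul_inv_cancel₀ hrc, one_smul, add_assoc, ← add_smul]
    have : (r : ℂ) * -((r : ℂ)⁻¹ * c) + c = 0 := by
      field_simp
      ring
    rw [this, zero_smul, add_zero]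
  obtain ⟨M, hM1, hM⟩ : ∃ M : ℕ, 1 ≤ M ∧ ‖y0‖ + 1 ≤ M := by
    obtain ⟨n, hn⟩ := exists_nat_ge ‖y0‖
    exact ⟨n + 1, by omega, by push_cast; linarith⟩
  obtain ⟨y1, hy1n, hy1, hy1s⟩ := ha Q hP y0 hy0n
    ((Finset.Icc (-(M : ℤ)) M).image fun j : ℤ => 2 * (j : ℂ) * Complex.I) 1 one_pos
  have hy1M : ‖y1‖ ≤ M := by
    have := norm_add_le (y1 - y0) y0
    rw [sub_add_cancel] at this
    linarith
  obtain ⟨y2, hy2n, hy2, hy2s⟩ := hb Q y1 hy1n M hy1M hM1 (fun j hj => hy1s _ (by
    rw [Finset.mem_image]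
    refine ⟨j, ?_, rfl⟩
    rw [Finset.mem_Icc]
    exact abs_le.1 hj))
  obtain ⟨p, hp, hpy, hp1, hp2⟩ := hc Q hU y2 hy2n M hy2s
  have hy2N : IsStarNormal y2 := ⟨hy2n⟩
  set X : Q := (r : ℂ) • y2 + (c : ℂ) • (1 : Q) with hX
  have hXn : star X * X = X * star X := aux_normal y2 hy2n _ _
  have hXN : IsStarNormal X := ⟨hXn⟩
  have hd : ‖X - x‖ ≤ ε := by
    have e1 : X - x = (r : ℂ) • ((y2 - y1) + (y1 - y0)) := by
      rw [hX, ← hxy]
      module
    rw [e1, norm_smul, Complex.norm_real, Real.norm_eq_abs, abs_of_pos hr0]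
    have h2 := norm_add_le (y2 - y1) (y1 - y0)
    have h3 : ‖y2 - y1 + (y1 - y0)‖ ≤ 3 := by linarith
    nlinarith
  have hps : star p = p := hp.1
  have hpy' : p * star y2 = star y2 * p := by
    have := congrArg star hpy
    rw [star_mul, star_mul, hps] at this
    exact this.symm
  have hpX : p * X = X * p := by
    rw [hX, mul_add, add_mul, mul_smul_comm, smul_mul_assoc, hpy, mul_smul_comm, smul_mul_assoc,
      one_mul, mul_one]
  have hpX' : p * star X = star X * p := by
    have := congrArg star hpX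
    rw [star_mul, star_mul, hps] at this
    exact this.symm
  have hre : ((realPart x : selfAdjoint Q) : Q) = s := by
    rw [hx, map_add, realPart_I_smul]
    have h1 : IsSelfAdjoint a := hsa
    have h2 : IsSelfAdjoint s := hss
    rw [h1.imaginaryPart, neg_zero, add_zero, h2.coe_realPart]
  have him : ((imaginaryPart x : selfAdjoint Q) : Q) = a := by
    rw [hx, map_add, imaginaryPart_I_smul]
    have h1 : IsSelfAdjoint a := hsa
    have h2 : IsSelfAdjoint s := hss
    rw [h2.imaginaryPart, zero_add, h1.coe_realPart]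
  have hcomm := isStarNormal_iff_commute_realPart_imaginaryPart.1 hXN
  refine ⟨imaginaryPart X, realPart X, p, (imaginaryPart X).2, (realPart X).2, hcomm.eq.symm, ?_,
    ?_, hp, ?_, ?_, ?_, ?_⟩
  · have : ‖((imaginaryPart (X - x) : selfAdjoint Q) : Q)‖ ≤ ‖X - x‖ :=
      imaginaryPart.norm_le (X - x)
    rw [map_sub, AddSubgroupClass.coe_sub, him] at this
    exact this.trans hd
  · have : ‖((realPart (X - x) : selfAdjoint Q) : Q)‖ ≤ ‖X - x‖ := realPart.norm_le (X - x)
    rw [map_sub, AddSubgroupClass.coe_sub, hre] at this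
    exact this.trans hd
  · rw [imaginaryPart_apply_coe]
    simp only [mul_smul_comm, smul_mul_assoc, mul_sub, sub_mul, hpX, hpX']
  · rw [realPart_apply_coe]
    simp only [mul_smul_comm, smul_mul_assoc, mul_add, add_mul, hpX, hpX']
  · rw [hX, aux_cfc y2 hy2N r c _ (by fun_prop)]
    apply hp1
    · fun_prop
    · intro z hz
      rw [max_eq_right, Complex.ofReal_zero]
      nlinarith
  · rw [hX, aux_cfc y2 hy2N r c _ (by fun_prop)]
    apply hp2
    · fun_prop
    · intro z hz
      rw [max_eq_right, Complex.ofReal_zero]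
      nlinarith

end Pool.Agent.Helper7_ND.J_S0
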