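import Pool.Agent.Helper7_ND.Stm2

set_option autoImplicit false

open scoped Matrix.Norms.L2Operator ENNReal Matrix
open Pool.Agent.W659.EC

noncomputable section

namespace Pool.Agent.Helper7_ND.J_S0a

/-- moving a normal element off one point -/
theorem one_point (Q : Type) [CStarAlgebra Q] (hQ : Polar Q) (y : Q)
    (hy : star y * y = y * star y) (c : ℂ) (ε : ℝ) (hε : 0 < ε) :
    ∃ y' : Q, star y' * y' = y' * star y' ∧ ‖y' - y‖ ≤ ε ∧
      IsUnit (y' - algebraMap ℂ Q c) := by
  let _ := CStarAlgebra.spectralOrder Q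
  let _ := CStarAlgebra.spectralOrderedRing Q
  obtain ⟨u, b, hu1, hu2, hb, hw⟩ := hQ (y - algebraMap ℂ Q c)
  have hb0 : 0 ≤ b := CStarAlgebra.nonneg_iff_eq_star_mul_self.2 hb
  have hbs : star b = b := (IsSelfAdjoint.of_nonneg hb0).star_eq
  have hstar : star (algebraMap ℂ Q c) = algebraMap ℂ Q (star c) :=
    (algebraMap_star_comm c).symm
  -- the shifted element is normal
  have hn : star (y - algebraMap ℂ Q c) * (y - algebraMap ℂ Q c)
      = (y - algebraMap ℂ Q c) * star (y - algebraMap ℂ Q c) := by
    rw [star_sub, hstar, sub_mul, mul_sub, mul_sub, sub_mul, mul_sub, mul_sub, hy,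
      ← Algebra.commutes c (star y), Algebra.commutes (star c) y,
      ← map_mul, ← map_mul, mul_comm (star c) c]
    abel
  rw [hw] at hn
  have h2 : u * (b * b) = (b * b) * u := by
    have e1 : star (u * b) * (u * b) = b * b := by
      rw [star_mul, hbs]
      calc b * star u * (u * b) = b * (star u * u) * b := by simp only [mul_assoc]
        _ = b * b := by rw [hu1, mul_one]
    have e2 : (u * b) * star (u * b) = u * (b * b) * star u := by
      rw [star_mul, hbs]; simp only [mul_assoc]
    have e3 : b * b = u * (b * b) * star u := by rw [← e2, ← hn, e1]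
    calc u * (b * b) = u * (b * b) * (star u * u) := by rw [hu1, mul_one]
      _ = (u * (b * b) * star u) * u := by simp only [mul_assoc]
      _ = (b * b) * u := by rw [← e3]
  have hcomm : Commute b u := by
    have h3 : Commute (b * b) u := h2.symm
    have h4 := h3.cfcₙ_nnreal NNReal.sqrt
    have h5 : cfcₙ NNReal.sqrt (b * b) = b := CFC.sqrt_mul_self b
    rwa [h5] at h4
  have hcomm' : Commute b (star u) := by
    have := hcomm.star_star
    rwa [hbs] at this
  set e : Q := algebraMap ℂ Q (ε : ℂ) with he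
  have hes : star e = e := by
    rw [he, ← algebraMap_star_comm]
    simp
  have hec : ∀ x : Q, e * x = x * e := fun x => Algebra.commutes _ _
  -- the new element
  have hkey : y + u * e - algebraMap ℂ Q c = u * (b + e) := by
    rw [mul_add, ← hw]; abel
  have hbe : star (b + e) = b + e := by rw [star_add, hbs, hes]
  have hube : u * (b + e) = (b + e) * u := by
    rw [mul_add, add_mul, hcomm.eq, hec]
  have hsube : star u * (b + e) = (b + e) * star u := by
    rw [mul_add, add_mul, hcomm'.eq, hec]
  have hn' : star (u * (b + e)) * (u * (b + e)) = (u * (b + e)) * star (u * (b + e)) := by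
    rw [star_mul, hbe]
    calc (b + e) * star u * (u * (b + e)) = (b + e) * (star u * u) * (b + e) := by
          simp only [mul_assoc]
      _ = (b + e) * (b + e) := by rw [hu1, mul_one]
      _ = (b + e) * (u * star u) * (b + e) := by rw [hu2, mul_one]
      _ = ((b + e) * u) * (star u * (b + e)) := by simp only [mul_assoc]
      _ = (u * (b + e)) * ((b + e) * star u) := by rw [← hube, hsube]
  have hepos : IsStrictlyPositive e := by
    have h6 : e = algebraMap ℝ Q ε := by
      rw [he]; exact (IsScalarTower.algebraMap_apply ℝ ℂ Q ε).symm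
    rw [h6]
    refine ⟨?_, ?_⟩
    · rw [Algebra.algebraMap_eq_smul_one]
      exact smul_nonneg hε.le zero_le_one
    · exact (IsUnit.mk0 ε hε.ne').map (algebraMap ℝ Q)
  have hunit : IsUnit (b + e) := by
    refine CStarAlgebra.isUnit_of_le e ?_ hepos
    exact le_add_of_nonneg_left hb0
  have huu : IsUnit u := ⟨⟨u, star u, hu2, hu1⟩, rfl⟩
  refine ⟨y + u * e, ?_, ?_, ?_⟩
  · have hz : y + u * e = u * (b + e) + algebraMap ℂ Q c := by rw [← hkey]; abel
    set z := u * (b + e) with hzdef
    rw [hz, star_add, hstar, add_mul, mul_add, mul_add, add_mul, mul_add, mul_add, hn',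
      ← Algebra.commutes c (star z), Algebra.commutes (star c) z,
      ← map_mul, ← map_mul, mul_comm (star c) c]
    abel
  · have h7 : y + u * e - y = u * e := by abel
    rw [h7]
    have hu : ‖u‖ ≤ 1 := by
      rcases subsingleton_or_nontrivial Q with hs | hs
      · rw [Subsingleton.elim u 0, norm_zero]; exact zero_le_one
      · have h8 : ‖u‖ * ‖u‖ = 1 := by
          rw [← CStarRing.norm_star_mul_self, hu1, CStarRing.norm_one]
        nlinarith [norm_nonneg u]
    have h9 : u * e = (ε : ℂ) • u := by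
      rw [he, Algebra.algebraMap_eq_smul_one, mul_smul_comm, mul_one]
    rw [h9, norm_smul]
    have h10 : ‖(ε : ℂ)‖ = ε := by
      rw [Complex.norm_real, Real.norm_of_nonneg hε.le]
    rw [h10]
    nlinarith
  · rw [hkey]
    exact huu.mul hunit

/-- the same for finitely many points -/
theorem many_points (Q : Type) [CStarAlgebra Q] (hQ : Polar Q) (y : Q)
    (hy : star y * y = y * star y) (S : Finset ℂ) :
    ∀ ε : ℝ, 0 < ε → ∃ y' : Q, star y' * y' = y' * star y' ∧ ‖y' - y‖ ≤ ε ∧
      ∀ c ∈ S, IsUnit (y' - algebraMap ℂ Q c) := by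
  classical
  induction S using Finset.induction_on with
  | empty =>
    intro ε hε
    exact ⟨y, hy, by rw [sub_self, norm_zero]; exact hε.le, by simp⟩
  | insert c S hc ih =>
    intro ε hε
    obtain ⟨y1, hy1, hd1, hS⟩ := ih (ε / 2) (half_pos hε)
    have hopen : ∃ δ > 0, ∀ z : Q, ‖z - y1‖ ≤ δ → ∀ a ∈ S, IsUnit (z - algebraMap ℂ Q a) := by
      have h1 : ∀ a ∈ S, ∀ᶠ z in nhds y1, IsUnit (z - algebraMap ℂ Q a) := by
        intro a ha
        have hcont : Continuous fun z : Q => z - algebraMap ℂ Q a := by fun_prop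
        have hop : IsOpen {z : Q | IsUnit (z - algebraMap ℂ Q a)} :=
          Units.isOpen.preimage hcont
        exact hop.mem_nhds (hS a ha)
      have h2 : ∀ᶠ z in nhds y1, ∀ a ∈ S, IsUnit (z - algebraMap ℂ Q a) :=
        (Filter.eventually_all_finset S).2 h1
      obtain ⟨r, hr, hball⟩ := Metric.eventually_nhds_iff.1 h2
      refine ⟨r / 2, half_pos hr, fun z hz => hball ?_⟩
      rw [dist_eq_norm]
      linarith
    obtain ⟨δ, hδ, hδS⟩ := hopen
    obtain ⟨y2, hy2, hd2, hu2⟩ := one_point Q hQ y1 hy1 c (min δ (ε / 2))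
      (lt_min hδ (half_pos hε))
    refine ⟨y2, hy2, ?_, ?_⟩
    · calc ‖y2 - y‖ = ‖(y2 - y1) + (y1 - y)‖ := by congr 1; abel
        _ ≤ ‖y2 - y1‖ + ‖y1 - y‖ := norm_add_le _ _
        _ ≤ ε / 2 + ε / 2 := add_le_add (hd2.trans (min_le_right _ _)) hd1
        _ = ε := by ring
    · intro a ha
      rcases Finset.mem_insert.1 ha with rfl | ha
      · exact hu2
      · exact hδS y2 (hd2.trans (min_le_left _ _)) a ha

theorem t_S0a : StS0a := by
  intro Q _ hQ y hy S ε hε
  obtain ⟨y', h1, h2, h3⟩ := many_points Q hQ y hy S ε hε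
  refine ⟨y', h1, h2, fun c hc => ?_⟩
  rw [spectrum.notMem_iff, ← IsUnit.neg_iff, neg_sub]
  exact h3 c hc

end Pool.Agent.Helper7_ND.J_S0a
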