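import Pool.Agent.Helper7_ND.Stm2

set_option autoImplicit false

open scoped Matrix.Norms.L2Operator ENNReal Matrix
open Pool.Agent.W659.EC

noncomputable section

namespace Pool.Agent.Helper7_ND.J_S0b

/-- the maximum norm on the plane -/
def N (w : ℂ) : ℝ := max |w.re| |w.im|

theorem N_nonneg (w : ℂ) : 0 ≤ N w := le_max_of_le_left (abs_nonneg _)

theorem N_cont : Continuous N := by
  unfold N
  exact (continuous_abs.comp Complex.continuous_re).max (continuous_abs.comp Complex.continuous_im)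

theorem N_pos {w : ℂ} (hw : w ≠ 0) : 0 < N w := by
  rcases (N_nonneg w).lt_or_eq with h | h
  · exact h
  · exfalso
    apply hw
    have h1 : |w.re| ≤ N w := le_max_left _ _
    have h2 : |w.im| ≤ N w := le_max_right _ _
    rw [← h] at h1 h2
    exact Complex.ext (abs_nonpos_iff.mp h1) (abs_nonpos_iff.mp h2)

theorem norm_le_two_N (w : ℂ) : ‖w‖ ≤ 2 * N w := by
  have h1 : |w.re| ≤ N w := le_max_left _ _
  have h2 : |w.im| ≤ N w := le_max_right _ _
  have h3 := Complex.norm_le_abs_re_add_abs_im w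
  linarith

/-- the centres -/
def c (j : ℤ) : ℂ := 2 * (j : ℂ) * Complex.I

theorem c_re (j : ℤ) : (c j).re = 0 := by simp [c]

theorem c_im (j : ℤ) : (c j).im = 2 * j := by simp [c]

/-- the displacement around the centre `c j` -/
def D (j : ℤ) (z : ℂ) : ℂ := (((1 / min 1 (N (z - c j))) - 1 : ℝ) : ℂ) * (z - c j)

theorem D_zero {j : ℤ} {z : ℂ} (h : 1 ≤ N (z - c j)) : D j z = 0 := by
  unfold D
  rw [min_eq_left h]
  simp

theorem D_cont (j : ℤ) : ContinuousOn (D j) {z | z ≠ c j} := by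
  unfold D
  apply ContinuousOn.mul
  · apply Complex.continuous_ofReal.comp_continuousOn
    apply ContinuousOn.sub _ continuousOn_const
    apply ContinuousOn.div continuousOn_const
    · exact (continuous_const.min (N_cont.comp (by fun_prop))).continuousOn
    · intro z hz
      have : 0 < N (z - c j) := N_pos (sub_ne_zero.mpr hz)
      positivity
  · fun_prop

/-- the retraction -/
def ret (M : ℕ) (z : ℂ) : ℂ := z + ∑ j ∈ Finset.Icc (-(M : ℤ)) M, D j z

theorem ret_eq {M : ℕ} (hM : 1 ≤ M) {z : ℂ} (hz : ‖z‖ ≤ M) :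
    ∃ j : ℤ, -(M : ℤ) ≤ j ∧ j ≤ M ∧ |z.im - 2 * j| ≤ 1 ∧ ret M z = z + D j z := by
  set j : ℤ := round (z.im / 2) with hj
  have h1 : |z.im / 2 - j| ≤ 1 / 2 := abs_sub_round _
  have h2 : |z.im - 2 * j| ≤ 1 := by
    have : z.im - 2 * j = 2 * (z.im / 2 - j) := by ring
    rw [this, abs_mul, abs_two]
    linarith
  have h3 : |z.im| ≤ M := (Complex.abs_im_le_norm z).trans hz
  have hMr : (1 : ℝ) ≤ M := by exact_mod_cast hM
  have h4 : |(j : ℝ)| ≤ M := by
    rw [abs_le] at h2 h3 ⊢
    constructor <;> linarith [h2.1, h2.2, h3.1, h3.2]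
  have h5 : |j| ≤ (M : ℤ) := by exact_mod_cast h4
  rw [abs_le] at h5
  refine ⟨j, h5.1, h5.2, h2, ?_⟩
  unfold ret
  congr 1
  apply Finset.sum_eq_single j
  · intro k _ hk
    apply D_zero
    have h6 : (1 : ℤ) ≤ |j - k| := Int.one_le_abs (sub_ne_zero.mpr (Ne.symm hk))
    have h7 : (1 : ℝ) ≤ |(j : ℝ) - k| := by exact_mod_cast h6
    have h8 : 1 ≤ |(z - c k).im| := by
      rw [Complex.sub_im, c_im]
      have h9 : 2 * ((j : ℝ) - k) = (z.im - 2 * k) - (z.im - 2 * j) := by ring
      have h10 : 2 * |(j : ℝ) - k| ≤ |z.im - 2 * k| + |z.im - 2 * j| := by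
        rw [← abs_two (α := ℝ), ← abs_mul, h9]
        simpa using abs_sub (z.im - 2 * k) (z.im - 2 * j)
      linarith
    exact h8.trans (le_max_right _ _)
  · intro hnot
    exact absurd (Finset.mem_Icc.mpr h5) hnot

theorem ret_spec {M : ℕ} (hM : 1 ≤ M) {z : ℂ} (hz : ‖z‖ ≤ M)
    (hc : ∀ j : ℤ, |j| ≤ M → z ≠ c j) :
    ‖ret M z - z‖ ≤ 2 ∧ (1 ≤ |(ret M z).re| ∨
      ∃ j : ℤ, -(M : ℤ) - 1 ≤ j ∧ j ≤ M ∧ (ret M z).im = 2 * j + 1) := by
  obtain ⟨j, hj1, hj2, him, hret⟩ := ret_eq hM hz
  have hzc : z ≠ c j := hc j (abs_le.mpr ⟨hj1, hj2⟩)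
  have hNpos : 0 < N (z - c j) := N_pos (sub_ne_zero.mpr hzc)
  have hfin : ∀ t : ℝ, |t - 2 * j| = 1 →
      ∃ j : ℤ, -(M : ℤ) - 1 ≤ j ∧ j ≤ M ∧ t = 2 * j + 1 := by
    intro t ht
    rcases eq_or_eq_neg_of_abs_eq ht with h | h
    · exact ⟨j, by linarith, hj2, by linarith⟩
    · refine ⟨j - 1, by linarith, by linarith, ?_⟩
      push_cast
      linarith
  rcases le_or_gt 1 (N (z - c j)) with h | h
  · rw [D_zero h, add_zero] at hret
    rw [hret, sub_self, norm_zero]
    refine ⟨by norm_num, ?_⟩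
    unfold N at h
    rw [Complex.sub_re, Complex.sub_im, c_re, c_im, sub_zero] at h
    rcases le_max_iff.mp h with h | h
    · exact Or.inl h
    · exact Or.inr (hfin _ (le_antisymm him h))
  · have hD : D j z = ((1 / N (z - c j) - 1 : ℝ) : ℂ) * (z - c j) := by
      unfold D
      rw [min_eq_right h.le]
    have hw : ret M z = c j + ((1 / N (z - c j) : ℝ) : ℂ) * (z - c j) := by
      rw [hret, hD]
      push_cast
      ring
    constructor
    · rw [hret, add_sub_cancel_left, hD, norm_mul, Complex.norm_real, Real.norm_eq_abs]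
      have h1 : 0 ≤ 1 / N (z - c j) - 1 := by
        rw [sub_nonneg, le_div_iff₀ hNpos]
        linarith
      rw [abs_of_nonneg h1]
      calc (1 / N (z - c j) - 1) * ‖z - c j‖ ≤ (1 / N (z - c j) - 1) * (2 * N (z - c j)) :=
            mul_le_mul_of_nonneg_left (norm_le_two_N _) h1
        _ = 2 - 2 * N (z - c j) := by field_simp
        _ ≤ 2 := by linarith
    · have hre : (ret M z).re = (1 / N (z - c j)) * (z - c j).re := by
        rw [hw, Complex.add_re, c_re, Complex.re_ofReal_mul, zero_add]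
      have him2 : (ret M z).im - 2 * j = (1 / N (z - c j)) * (z - c j).im := by
        rw [hw, Complex.add_im, c_im, Complex.im_ofReal_mul]
        ring
      have hone : (1 / N (z - c j)) * N (z - c j) = 1 := by field_simp
      rcases max_choice |(z - c j).re| |(z - c j).im| with hm | hm
      · left
        rw [hre, abs_mul, abs_of_pos (by positivity : 0 < 1 / N (z - c j)), ← hm]
        exact hone.ge
      · right
        apply hfin
        rw [him2, abs_mul, abs_of_pos (by positivity : 0 < 1 / N (z - c j)), ← hm]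
        exact hone

theorem t_S0b : StS0b := by
  intro Q _ y hy M hyM hM hsp
  have hn : IsStarNormal y := ⟨hy⟩
  have hz : ∀ z ∈ spectrum ℂ y, ‖z‖ ≤ M := by
    intro z hz
    rcases subsingleton_or_nontrivial Q with h | h
    · rw [spectrum.of_subsingleton] at hz
      exact absurd hz (Set.notMem_empty _)
    · exact (spectrum.norm_le_norm_of_mem hz).trans hyM
  have hcz : ∀ z ∈ spectrum ℂ y, ∀ j : ℤ, |j| ≤ M → z ≠ c j := by
    intro z hz j hj h
    exact hsp j hj (by rw [h] at hz; exact hz)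
  have hcont : ContinuousOn (ret M) (spectrum ℂ y) := by
    unfold ret
    apply continuousOn_id.add
    apply continuousOn_finsetSum
    intro j hj
    apply (D_cont j).mono
    intro z hz
    rw [Finset.mem_Icc] at hj
    exact hcz z hz j (abs_le.mpr hj)
  refine ⟨cfc (ret M) y, ?_, ?_, ?_⟩
  · have : IsStarNormal (cfc (ret M) y) := cfc_predicate (ret M) y
    exact this.star_comm_self
  · have h1 : cfc (ret M) y - y = cfc (fun z => ret M z - z) y := by
      rw [cfc_sub (ret M) (fun z => z) y hcont continuousOn_id, cfc_id' ℂ y]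
    rw [h1]
    apply norm_cfc_le (by norm_num)
    intro z hzz
    exact (ret_spec hM (hz z hzz) (hcz z hzz)).1
  · rw [cfc_map_spectrum (ret M) y hn hcont]
    rintro _ ⟨z, hzz, rfl⟩
    exact (ret_spec hM (hz z hzz) (hcz z hzz)).2

end Pool.Agent.Helper7_ND.J_S0b

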