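import Pool.Agent.Helper7_ND.Stm2

/-
Project MP_30b5b4_an (owner helper7): dim_nuc(E) <= dim_nuc(I) + dim_nuc(D) for C*-algebra extensions.
SETUP: in /workdir/pool/outputs/live: git fetch -q; then copy from origin/main to /workdir/pool at the same paths:
Pool/Agent/Helper7_ND/Stm.lean, Pool/Agent/Helper7_ND/Stm2.lean, Pool/Agent/W659/EC/CP.lean, CP2.lean, Defs.lean; lake build Pool.Agent.Helper7_ND.Stm2.
All definitions (Pos, Prj, OZ, IsRow, IsRP, Polar, SpecU, CutA, ...) and the statement StS0c (Stm2) are in Stm.lean. Useful lemmas on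
completely positive maps: W659/EC/CP.lean (IsCP.add/comp/sum/smul, isCP_hom, isCP_of_family, nonneg_iff_star, mpos_iff),
CP2.lean (IsCP.schwarz, IsCP.nonneg, IsCP.star_map, IsCP.norm_le, IsCP.isCPC, compr, isCP_compr).
For the order use `let _ := CStarAlgebra.spectralOrder A; let _ := CStarAlgebra.spectralOrderedRing A` (Pos a is then 0 <= a by
CStarAlgebra.nonneg_iff_eq_star_mul_self). The file will be landed, so keep to RULES.md (no banned words/characters), keep all
helper lemmas inside the namespace, do not change Stm.lean. If the statement is false or lacks a hypothesis say so in note.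
Full paper proof of the whole theorem: papers table, pid MP_30b5b4_an.

TARGET t_S0c : StS0c. y normal with spectrum in {|Re z| >= 1} ∪ {Im z = 2j+1, j in Icc (-M-1) M}, SpecU Q. Then there is a projection p commuting
with y, p F(y) = 0 for continuous F vanishing on {Re z <= 1}, (1-p) F(y) = 0 for continuous F vanishing on {-1 <= Re z}.
PROOF. clip t = max (-1) (min 1 t). E(t) = (t - i(1-|t|)) / (t + i(1-|t|)) for |t| <= 1 (the denominator is not zero since
|t| + (1-|t|) = 1); |E| = 1, E(1) = E(-1) = 1; for |t| < 1, with s = t/(1-|t|), E = (s-i)/(s+i), Re E = (s²-1)/(s²+1).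
b_j(z) = max 0 (1 - |Im z - (2j+1)|). Θ_j(z) = 1 + (E(clip (Re z)) - 1) b_j(z), continuous on ℂ. On the spectrum of y:
Θ_j(z) = E(Re z) if |Re z| <= 1 and Im z = 2j+1, and Θ_j(z) = 1 otherwise (E(clip ..) = 1 if |Re z| >= 1; b_j ∈ {0,1} on the
lines Im z = 2k+1). So u_j = cfc Θ_j y is unitary. J = {w | w.re <= 0}. P_j = the SpecU projection for u_j, J. Put
m(w) = max 0 (min 1 (1 - 2 Re w)) (=1 on J, =0 if Re w >= 1/2). (1-m) = 0 on J so P_j m(u_j) = P_j = m(u_j) P_j (adjoints).
COMMUTATION: for w ≠ 1, |w|=1, s(w) = i(1+w)/(1-w) is real and t(w) = s/(1+|s|) satisfies E(t(w)) = w, t(E(t)) = t. G(w) =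
(t(w) + i(2j+1)) m(w) (with t(w) computed from the real part of i(1+w)/(1-w)) is continuous: near w = 1 m vanishes. To have a
function continuous on all of ℂ one can replace 1-w in the denominator by something nonzero when Re w > 1/2, e.g.
use s(w) = -(Im w)/(max (1 - Re w) (1/4)) : indeed for |w| = 1, i(1+w)/(1-w) = -Im w/(1 - Re w), so G(w) = (t + i(2j+1)) m(w) with
s = -(Im w)/(max (1 - Re w) (1/4)), t = s/(1+|s|), is continuous on ℂ and has the right values where m ≠ 0. On the spectrum
z m(Θ_j z) = G(Θ_j z). Hence y m(u_j) = G(u_j) (cfc_comp, cfc_mul, cfc_congr) and y P_j = y m(u_j) P_j = G(u_j) P_j = P_j G(u_j) =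
P_j m(u_j) y = P_j y. [P_j commutes with u_j, hence with star u_j (P_j self-adjoint) and with cfc f u_j: Commute.cfc or
cfc_commute... for normal elements, Mathlib ContinuousFunctionalCalculus/Commute.lean.]
ORTHOGONALITY: m(Θ_i z) m(Θ_j z) = 0 on the spectrum for i ≠ j, so P_i P_j = P_i m(u_i) m(u_j) P_j = 0. R = 1 - ∑_j P_j is a
projection commuting with y. f(z) = max 0 (min 1 (1/2 - 2 Re z)), p = f(y) R. f - f² ≠ 0 only for |Re z| < 1/4; there on the
spectrum z lies on exactly one line Im z = 2j+1 and Re Θ_j(z) = (s²-1)/(s²+1) <= -4/5 as |s| <= 1/3. k(w) = max 0 (min 1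
(-(5/4) Re w)) vanishes off J, so k(u_j) P_j = k(u_j), so k(u_j) R = 0 (k(u_j) P_i = k(u_j) P_j P_i = 0, i ≠ j). On the spectrum
f - f² = ∑_j (f - f²) k(Θ_j), so (f - f²)(y) R = 0 and p² = f(y)² R = f(y) R = p; p is self-adjoint since f is real and R commutes
with y and star y. If F = 0 on {Re z <= 1}: f F = 0, p F(y) = R (f F)(y) = 0. If F = 0 on {-1 <= Re z}: f F = F, so
(1 - p) F(y) = F(y) - R F(y) = ∑_j P_j F(y) = ∑_j P_j m(u_j) F(y) = 0 because m(Θ_j) F = 0 on the spectrum (Θ_j = 1 if Re z <= -1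
and m(1) = 0).
-/
set_option autoImplicit false

open scoped Matrix.Norms.L2Operator ENNReal Matrix
open Pool.Agent.W659.EC

noncomputable section

namespace Pool.Agent.Helper7_ND.J_S0c

/-! ### The functions -/

/-- the real part, clipped -/
def cl (z : ℂ) : ℝ := max (-1) (min 1 z.re)

/-- a bump around the line `Im z = 2 j + 1` -/
def bj (j : ℤ) (z : ℂ) : ℝ := max 0 (1 - |z.im - (2 * (j : ℝ) + 1)|)

/-- the map of the plane to the plane that wraps the segment number `j` around the circle -/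
def Th (j : ℤ) (z : ℂ) : ℂ :=
  ((1 + (2 * cl z ^ 2 - 2) * bj j z : ℝ) : ℂ) +
    ((-2 * cl z * Real.sqrt (1 - cl z ^ 2) * bj j z : ℝ) : ℂ) * Complex.I

/-- cutoff -/
def mm (w : ℂ) : ℂ := ((max 0 (min 1 (1 - 2 * w.re)) : ℝ) : ℂ)

/-- cutoff -/
def kk (w : ℂ) : ℂ := ((max 0 (min 1 (-(5 / 4) * w.re)) : ℝ) : ℂ)

/-- cutoff -/
def ff (z : ℂ) : ℂ := ((max 0 (min 1 (1 / 2 - 2 * z.re)) : ℝ) : ℂ)

/-- the inverse of the wrapping -/
def GG (j : ℤ) (w : ℂ) : ℂ :=
  (((-w.im / (2 * Real.sqrt (max ((1 - w.re) / 2) (1 / 4))) : ℝ) : ℂ) +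
    ((2 * (j : ℝ) + 1 : ℝ) : ℂ) * Complex.I) * mm w

theorem cl_cont : Continuous cl := by
  unfold cl
  fun_prop

theorem bj_cont (j : ℤ) : Continuous (bj j) := by
  unfold bj
  fun_prop

theorem Th_cont (j : ℤ) : Continuous (Th j) := by
  have h1 := cl_cont
  have h2 := bj_cont j
  unfold Th
  fun_prop

theorem mm_cont : Continuous mm := by
  unfold mm
  fun_prop

theorem kk_cont : Continuous kk := by
  unfold kk
  fun_prop

theorem ff_cont : Continuous ff := by
  unfold ff
  fun_prop

theorem GG_cont (j : ℤ) : Continuous (GG j) := by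
  have h1 := mm_cont
  have h3 : ∀ w : ℂ, 2 * Real.sqrt (max ((1 - w.re) / 2) (1 / 4)) ≠ 0 := by
    intro w
    have : 0 < max ((1 - w.re) / 2) (1 / 4) := lt_of_lt_of_le (by norm_num) (le_max_right _ _)
    have := Real.sqrt_pos.2 this
    positivity
  have h2 : Continuous (fun w : ℂ => -w.im / (2 * Real.sqrt (max ((1 - w.re) / 2) (1 / 4)))) :=
    Continuous.div (by fun_prop) (by fun_prop) h3
  unfold GG
  fun_prop

/-- the set that contains the spectrum -/
def SS (M : ℕ) (z : ℂ) : Prop :=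
  1 ≤ |z.re| ∨ ∃ j : ℤ, -(M : ℤ) - 1 ≤ j ∧ j ≤ M ∧ z.im = 2 * j + 1

theorem Th_re (j : ℤ) (z : ℂ) : (Th j z).re = 1 + (2 * cl z ^ 2 - 2) * bj j z := by
  unfold Th
  rw [Complex.add_re, Complex.ofReal_re, Complex.re_ofReal_mul, Complex.I_re]
  ring

theorem Th_im (j : ℤ) (z : ℂ) :
    (Th j z).im = -2 * cl z * Real.sqrt (1 - cl z ^ 2) * bj j z := by
  unfold Th
  rw [Complex.add_im, Complex.ofReal_im, Complex.im_ofReal_mul, Complex.I_im]
  ring

theorem Th_cases {M : ℕ} {z : ℂ} (hz : SS M z) (j : ℤ) :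
    (Th j z = 1 ∧ (1 ≤ |z.re| ∨ z.im ≠ 2 * j + 1)) ∨
      (|z.re| < 1 ∧ z.im = 2 * j + 1 ∧ (Th j z).re = 2 * z.re ^ 2 - 1 ∧
        (Th j z).im = -2 * z.re * Real.sqrt (1 - z.re ^ 2)) := by
  rcases le_or_gt 1 |z.re| with h | h
  · left
    refine ⟨?_, Or.inl h⟩
    have h1 : cl z ^ 2 = 1 := by
      unfold cl
      rcases le_abs.1 h with h | h
      · rw [min_eq_left h, max_eq_right (by norm_num)]; norm_num
      · rw [min_eq_right (by linarith), max_eq_left (by linarith)]; norm_num
    unfold Th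
    rw [h1]
    simp
  · have h1 := abs_lt.1 h
    have hcl : cl z = z.re := by
      unfold cl
      rw [min_eq_right h1.2.le, max_eq_right h1.1.le]
    by_cases him : z.im = 2 * j + 1
    · right
      have hb : bj j z = 1 := by
        unfold bj
        rw [him]
        simp
      refine ⟨h, him, ?_, ?_⟩
      · rw [Th_re, hcl, hb]
        ring
      · rw [Th_im, hcl, hb]
        ring
    · left
      refine ⟨?_, Or.inr him⟩
      have hb : bj j z = 0 := by
        rcases hz with hz | ⟨k, -, -, hk⟩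
        · exact absurd hz (not_le.2 h)
        · unfold bj
          apply max_eq_left
          have hkj : k ≠ j := fun e => him (by rw [hk, e])
          have h2 : (1 : ℤ) ≤ |k - j| := Int.one_le_abs (sub_ne_zero.2 hkj)
          have h3 : (1 : ℝ) ≤ |(k : ℝ) - j| := by exact_mod_cast h2
          have h4 : z.im - (2 * (j : ℝ) + 1) = 2 * ((k : ℝ) - j) := by rw [hk]; ring
          rw [h4, abs_mul, abs_of_pos (by norm_num : (0 : ℝ) < 2)]
          linarith
      unfold Th
      rw [hb]
      simp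

theorem mm_one : mm 1 = 0 := by
  unfold mm
  norm_num

theorem kk_one : kk 1 = 0 := by
  unfold kk
  norm_num

theorem Th_unit {M : ℕ} {z : ℂ} (hz : SS M z) (j : ℤ) : star (Th j z) * Th j z = 1 := by
  rcases Th_cases hz j with ⟨h, -⟩ | ⟨h1, -, h2, h3⟩
  · rw [h]; simp
  · have h4 := abs_lt.1 h1
    have h5 : 0 ≤ 1 - z.re ^ 2 := by nlinarith
    have h6 : Complex.normSq (Th j z) = 1 := by
      rw [Complex.normSq_apply, h2, h3]
      have := Real.mul_self_sqrt h5
      nlinarith
    have h7 := Complex.normSq_eq_conj_mul_self (z := Th j z)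
    rw [h6] at h7
    simpa using h7.symm

theorem GG_Th {M : ℕ} {z : ℂ} (hz : SS M z) (j : ℤ) : GG j (Th j z) = z * mm (Th j z) := by
  rcases Th_cases hz j with ⟨h, -⟩ | ⟨h1, him, h2, h3⟩
  · unfold GG
    rw [h, mm_one]
    simp
  · have h4 := abs_lt.1 h1
    have h5 : 0 ≤ 1 - z.re ^ 2 := by nlinarith
    rcases le_or_gt (1 / 2) (Th j z).re with h6 | h6
    · have : mm (Th j z) = 0 := by
        unfold mm
        rw [max_eq_left]
        · simp
        · exact (min_le_right _ _).trans (by linarith)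
      unfold GG
      rw [this]
      simp
    · unfold GG
      congr 1
      have h7 : max ((1 - (Th j z).re) / 2) (1 / 4) = 1 - z.re ^ 2 := by
        rw [h2] at h6 ⊢
        rw [max_eq_left (by linarith)]
        ring
      have h8 : 0 < Real.sqrt (1 - z.re ^ 2) := by
        apply Real.sqrt_pos.2
        rw [h2] at h6
        linarith
      rw [h7, h3]
      have h9 : -(-2 * z.re * Real.sqrt (1 - z.re ^ 2)) / (2 * Real.sqrt (1 - z.re ^ 2)) =
          z.re := by
        field_simp
      rw [h9]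
      apply Complex.ext
      · simp
      · simp [him]

theorem mm_mm {M : ℕ} {z : ℂ} (hz : SS M z) {i j : ℤ} (hij : i ≠ j) :
    mm (Th i z) * mm (Th j z) = 0 := by
  rcases Th_cases hz i with ⟨h, -⟩ | ⟨h1, him, h2, h3⟩
  · rw [h, mm_one, zero_mul]
  · rcases Th_cases hz j with ⟨h, -⟩ | ⟨h1', him', h2', h3'⟩
    · rw [h, mm_one, mul_zero]
    · exfalso
      rw [him] at him'
      have : (i : ℝ) = j := by linarith
      exact hij (by exact_mod_cast this)

theorem kk_sum {M : ℕ} {z : ℂ} (hz : SS M z) :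
    ff z - ff z * ff z =
      ∑ j ∈ Finset.Icc (-(M : ℤ) - 1) M, (ff z - ff z * ff z) * kk (Th j z) := by
  rcases le_or_gt (1 / 4) |z.re| with h | h
  · have h1 : ff z - ff z * ff z = 0 := by
      unfold ff
      rcases le_abs.1 h with h | h
      · rw [max_eq_left ((min_le_right _ _).trans (by linarith))]
        simp
      · rw [min_eq_left (by linarith)]
        simp
    rw [h1]
    simp
  · have h0 := abs_lt.1 h
    rcases hz with hz | ⟨k, hk1, hk2, hk⟩
    · linarith
    · have hz' : SS M z := Or.inr ⟨k, hk1, hk2, hk⟩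
      rw [← Finset.mul_sum, Finset.sum_eq_single k]
      · have h1 : kk (Th k z) = 1 := by
          rcases Th_cases hz' k with ⟨-, h1 | h1⟩ | ⟨h1, him, h2, h3⟩
          · linarith
          · exact absurd hk h1
          · unfold kk
            rw [h2, min_eq_left (by nlinarith)]
            simp
        rw [h1, mul_one]
      · intro j _ hj
        rcases Th_cases hz' j with ⟨h1, -⟩ | ⟨h1, him, h2, h3⟩
        · rw [h1, kk_one]
        · exfalso
          rw [hk] at him
          have : (k : ℝ) = j := by linarith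
          exact hj (by exact_mod_cast this.symm)
      · intro hn
        exact absurd (Finset.mem_Icc.2 ⟨hk1, hk2⟩) hn

theorem mm_F {M : ℕ} {z : ℂ} (hz : SS M z) (j : ℤ) {F : ℂ → ℂ} (hF : ∀ z : ℂ, -1 ≤ z.re → F z = 0) :
    mm (Th j z) * F z = 0 := by
  rcases le_or_gt (-1) z.re with h | h
  · rw [hF z h, mul_zero]
  · rcases Th_cases hz j with ⟨h1, -⟩ | ⟨h1, him, h2, h3⟩
    · rw [h1, mm_one, zero_mul]
    · have := abs_lt.1 h1
      linarith

theorem ff_F1 {F : ℂ → ℂ} (hF : ∀ z : ℂ, z.re ≤ 1 → F z = 0) (z : ℂ) : ff z * F z = 0 := by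
  rcases le_or_gt z.re 1 with h | h
  · rw [hF z h, mul_zero]
  · unfold ff
    rw [max_eq_left ((min_le_right _ _).trans (by linarith))]
    simp

theorem ff_F2 {F : ℂ → ℂ} (hF : ∀ z : ℂ, -1 ≤ z.re → F z = 0) (z : ℂ) : ff z * F z = F z := by
  rcases le_or_gt (-1) z.re with h | h
  · rw [hF z h, mul_zero]
  · unfold ff
    rw [min_eq_left (by linarith)]
    simp

/-! ### The projection -/

section alg
variable {Q : Type} [CStarAlgebra Q]

/-- the algebraic part -/
theorem alg_prj (s : Finset ℤ) (P k : ℤ → Q) (f : Q)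
    (hP : ∀ j ∈ s, star (P j) = P j) (hPP : ∀ j ∈ s, P j * P j = P j)
    (hPo : ∀ i ∈ s, ∀ j ∈ s, i ≠ j → P i * P j = 0)
    (hk : ∀ j ∈ s, k j * P j = k j) (hc : ∀ j ∈ s, P j * f = f * P j)
    (hs : f - f * f = ∑ j ∈ s, (f - f * f) * k j) :
    star (∑ j ∈ s, P j) = ∑ j ∈ s, P j ∧
    (∑ j ∈ s, P j) * (∑ j ∈ s, P j) = ∑ j ∈ s, P j ∧
    (∑ j ∈ s, P j) * f = f * ∑ j ∈ s, P j ∧
    f * f * (1 - ∑ j ∈ s, P j) = f * (1 - ∑ j ∈ s, P j) := by
  refine ⟨?_, ?_, ?_, ?_⟩
  · rw [star_sum]
    exact Finset.sum_congr rfl hP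
  · rw [Finset.sum_mul]
    refine Finset.sum_congr rfl (fun i hi => ?_)
    rw [Finset.mul_sum, Finset.sum_eq_single i (fun j hj hji => hPo i hi j hj (Ne.symm hji))
      (fun h => absurd hi h)]
    exact hPP i hi
  · rw [Finset.sum_mul, Finset.mul_sum]
    exact Finset.sum_congr rfl hc
  · have h1 : ∀ j ∈ s, k j * (1 - ∑ i ∈ s, P i) = 0 := by
      intro j hj
      rw [mul_sub, mul_one, Finset.mul_sum, Finset.sum_eq_single j]
      · rw [hk j hj, sub_self]
      · intro i hi hij
        rw [← hk j hj, mul_assoc, hPo j hj i hi (Ne.symm hij), mul_zero]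
      · intro h
        exact absurd hj h
    have h2 : (f - f * f) * (1 - ∑ j ∈ s, P j) = 0 := by
      rw [hs, Finset.sum_mul]
      refine Finset.sum_eq_zero (fun j hj => ?_)
      rw [mul_assoc, h1 j hj, mul_zero]
    have h3 : f * f * (1 - ∑ j ∈ s, P j) = f * (1 - ∑ j ∈ s, P j) -
        (f - f * f) * (1 - ∑ j ∈ s, P j) := by
      rw [sub_mul]
      abel
    rw [h3, h2, sub_zero]

end alg

theorem t_S0c : StS0c := by
  intro Q _ hU y hy M hsp
  have hn : IsStarNormal y := ⟨hy⟩
  have hS : ∀ z ∈ spectrum ℂ y, SS M z := hsp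
  -- products
  have cm : ∀ {f g : ℂ → ℂ}, Continuous f → Continuous g →
      cfc f y * cfc g y = cfc (fun z => f z * g z) y := by
    intro f g hf hg
    rw [cfc_mul f g y hf.continuousOn hg.continuousOn]
  have mT : ∀ j, Continuous (fun z => mm (Th j z)) := fun j => mm_cont.comp (Th_cont j)
  -- the unitaries
  have hu1 : ∀ j, star (cfc (Th j) y) * cfc (Th j) y = 1 := by
    intro j
    rw [← cfc_star, cm (by have := Th_cont j; fun_prop) (Th_cont j), ← cfc_const_one ℂ y]
    exact cfc_congr (fun z hz => Th_unit (hS z hz) j)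
  have hu2 : ∀ j, cfc (Th j) y * star (cfc (Th j) y) = 1 := by
    intro j
    rw [← cfc_star, cm (Th_cont j) (by have := Th_cont j; fun_prop), ← cfc_const_one ℂ y]
    exact cfc_congr (fun z hz => by
      have := Th_unit (hS z hz) j
      rw [mul_comm] at this
      exact this)
  have hcomp : ∀ (j : ℤ) {g : ℂ → ℂ}, Continuous g →
      cfc g (cfc (Th j) y) = cfc (fun z => g (Th j z)) y := by
    intro j g hg
    rw [cfc_comp' g (Th j) y hg.continuousOn (Th_cont j).continuousOn]
  choose P hP1 hP2 hP3 hP4 using fun j => hU (cfc (Th j) y) (hu1 j) (hu2 j) {w : ℂ | w.re ≤ 0}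
  have hPs : ∀ j, star (P j) = P j := fun j => (hP1 j).1
  have hPP : ∀ j, P j * P j = P j := fun j => (hP1 j).2
  have hun : ∀ j, IsStarNormal (cfc (Th j) y) := fun j => ⟨by
    show star (cfc (Th j) y) * cfc (Th j) y = cfc (Th j) y * star (cfc (Th j) y)
    rw [hu1, hu2]⟩
  -- P j and m
  have hm1 : ∀ j, P j * cfc (fun z => mm (Th j z)) y = P j := by
    intro j
    have h1 := hP3 j (fun w => 1 - mm w) (by have := mm_cont; fun_prop) (by
      intro z hz
      have hz' : z.re ≤ 0 := hz
      have : mm z = 1 := by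
        unfold mm
        rw [min_eq_left (by linarith)]
        simp
      simp [this])
    have h2 : cfc (fun w => 1 - mm w) (cfc (Th j) y) = 1 - cfc mm (cfc (Th j) y) := by
      have := hun j
      rw [cfc_sub (fun _ => 1) mm (cfc (Th j) y) continuous_const.continuousOn
        mm_cont.continuousOn, cfc_const_one ℂ (cfc (Th j) y)]
    rw [h2, mul_sub, mul_one, sub_eq_zero, hcomp j mm_cont] at h1
    exact h1.symm
  have hmm : ∀ j, star (cfc (fun z => mm (Th j z)) y) = cfc (fun z => mm (Th j z)) y := by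
    intro j
    rw [← cfc_star]
    congr 1
    funext z
    unfold mm
    simp
  have hm2 : ∀ j, cfc (fun z => mm (Th j z)) y * P j = P j := by
    intro j
    have h1 := congrArg star (hm1 j)
    rw [star_mul, hmm, hPs] at h1
    exact h1
  -- commutation with functions of u
  have hPu : ∀ j, Commute (cfc (Th j) y) (P j) := fun j => (hP2 j).symm
  have hPu' : ∀ j, Commute (star (cfc (Th j) y)) (P j) := by
    intro j
    have h1 := congrArg star (hP2 j)
    rw [star_mul, star_mul, hPs] at h1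
    exact h1
  have hPg : ∀ (j : ℤ) {g : ℂ → ℂ}, Continuous g →
      cfc (fun z => g (Th j z)) y * P j = P j * cfc (fun z => g (Th j z)) y := by
    intro j g hg
    have h1 := Commute.cfc (hPu j) (hPu' j) g
    rw [hcomp j hg] at h1
    exact h1
  -- commutation with y
  have hyg : ∀ j, cfc (fun z => GG j (Th j z)) y = y * cfc (fun z => mm (Th j z)) y := by
    intro j
    have h1 : cfc (fun z => GG j (Th j z)) y = cfc (fun z => z * mm (Th j z)) y :=
      cfc_congr (fun z hz => GG_Th (hS z hz) j)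
    rw [h1, ← cm (f := fun z => z) (g := fun z => mm (Th j z)) continuous_id
      (mm_cont.comp (Th_cont j)), cfc_id' ℂ y]
  have hyg' : ∀ j, y * cfc (fun z => mm (Th j z)) y = cfc (fun z => mm (Th j z)) y * y := by
    intro j
    have h1 := cm (f := fun z => z) (g := fun z => mm (Th j z)) continuous_id
      (mm_cont.comp (Th_cont j))
    have h2 := cm (f := fun z => mm (Th j z)) (g := fun z => z)
      (mm_cont.comp (Th_cont j)) continuous_id
    rw [cfc_id' ℂ y] at h1 h2
    rw [h1, h2]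
    congr 1
    funext z
    exact mul_comm _ _
  have hyP : ∀ j, y * P j = P j * y := by
    intro j
    calc y * P j = y * (cfc (fun z => mm (Th j z)) y * P j) := by rw [hm2]
      _ = cfc (fun z => GG j (Th j z)) y * P j := by rw [hyg, mul_assoc]
      _ = P j * cfc (fun z => GG j (Th j z)) y := hPg j (GG_cont j)
      _ = P j * cfc (fun z => mm (Th j z)) y * y := by rw [hyg, hyg', mul_assoc]
      _ = P j * y := by rw [hm1]
  have hyP' : ∀ j, star y * P j = P j * star y := by
    intro j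
    have h1 := congrArg star (hyP j)
    rw [star_mul, star_mul, hPs] at h1
    exact h1.symm
  have hPf : ∀ (j : ℤ) (g : ℂ → ℂ), P j * cfc g y = cfc g y * P j := by
    intro j g
    exact (Commute.cfc (show Commute y (P j) from hyP j)
      (show Commute (star y) (P j) from hyP' j) g).symm.eq
  -- orthogonality
  have hPo : ∀ i j, i ≠ j → P i * P j = 0 := by
    intro i j hij
    have h1 : cfc (fun z => mm (Th i z)) y * cfc (fun z => mm (Th j z)) y = 0 := by
      rw [cm (mT i) (mT j), ← cfc_const_zero ℂ y]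
      exact cfc_congr (fun z hz => mm_mm (hS z hz) hij)
    calc P i * P j = (P i * cfc (fun z => mm (Th i z)) y) *
          (cfc (fun z => mm (Th j z)) y * P j) := by rw [hm1, hm2]
      _ = P i * (cfc (fun z => mm (Th i z)) y * cfc (fun z => mm (Th j z)) y) * P j := by
          simp only [mul_assoc]
      _ = 0 := by rw [h1, mul_zero, zero_mul]
  have hk : ∀ j, cfc (fun z => kk (Th j z)) y * P j = cfc (fun z => kk (Th j z)) y := by
    intro j
    have h1 := hP4 j kk kk_cont (by
      intro z hz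
      have hz' : ¬ z.re ≤ 0 := hz
      unfold kk
      rw [max_eq_left ((min_le_right _ _).trans (by linarith))]
      simp)
    rwa [hcomp j kk_cont] at h1
  have hfs : star (cfc ff y) = cfc ff y := by
    rw [← cfc_star]
    congr 1
    funext z
    unfold ff
    simp
  have hsum : cfc ff y - cfc ff y * cfc ff y = ∑ j ∈ Finset.Icc (-(M : ℤ) - 1) M,
      (cfc ff y - cfc ff y * cfc ff y) * cfc (fun z => kk (Th j z)) y := by
    have h1 : cfc ff y - cfc ff y * cfc ff y = cfc (fun z => ff z - ff z * ff z) y := by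
      rw [cm ff_cont ff_cont, cfc_sub ff (fun z => ff z * ff z) y ff_cont.continuousOn
        (ff_cont.mul ff_cont).continuousOn]
    have hc0 : Continuous (fun z => ff z - ff z * ff z) := ff_cont.sub (ff_cont.mul ff_cont)
    rw [h1]
    have h2 : ∀ j ∈ Finset.Icc (-(M : ℤ) - 1) M, cfc (fun z => ff z - ff z * ff z) y *
        cfc (fun z => kk (Th j z)) y = cfc (fun z => (ff z - ff z * ff z) * kk (Th j z)) y :=
      fun j _ => cm hc0 (kk_cont.comp (Th_cont j))
    rw [Finset.sum_congr rfl h2, ← cfc_sum (fun j z => (ff z - ff z * ff z) * kk (Th j z)) y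
      (Finset.Icc (-(M : ℤ) - 1) M)
      (fun j _ => (hc0.mul (kk_cont.comp (Th_cont j))).continuousOn)]
    refine cfc_congr (fun z hz => ?_)
    have := kk_sum (hS z hz)
    simpa [Finset.sum_apply] using this
  obtain ⟨a1, a2, a3, a4⟩ := alg_prj (Finset.Icc (-(M : ℤ) - 1) M) P
    (fun j => cfc (fun z => kk (Th j z)) y) (cfc ff y)
    (fun j _ => hPs j) (fun j _ => hPP j) (fun i _ j _ hij => hPo i j hij) (fun j _ => hk j)
    (fun j _ => hPf j ff) hsum
  have b1 : ∀ g : ℂ → ℂ, (∑ j ∈ Finset.Icc (-(M : ℤ) - 1) M, P j) * cfc g y =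
      cfc g y * ∑ j ∈ Finset.Icc (-(M : ℤ) - 1) M, P j := by
    intro g
    rw [Finset.sum_mul, Finset.mul_sum]
    exact Finset.sum_congr rfl (fun j _ => hPf j g)
  obtain ⟨T, hT⟩ : ∃ T, T = ∑ j ∈ Finset.Icc (-(M : ℤ) - 1) M, P j := ⟨_, rfl⟩
  rw [← hT] at a1 a2 a3 a4
  have b1' : ∀ g : ℂ → ℂ, (1 - T) * cfc g y = cfc g y * (1 - T) := by
    intro g
    rw [sub_mul, mul_sub, one_mul, mul_one, hT, b1]
  have b2 : (1 - T) * (1 - T) = 1 - T := by
    rw [mul_sub, mul_one, sub_mul, one_mul, a2]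
    simp
  have b3 : (1 - T) * y = y * (1 - T) := by
    have := b1' (fun z => z)
    rwa [cfc_id' ℂ y] at this
  have b4 : cfc ff y * y = y * cfc ff y := by
    have h1 := cm (f := ff) (g := fun z => z) ff_cont continuous_id
    have h2 := cm (f := fun z => z) (g := ff) continuous_id ff_cont
    rw [cfc_id' ℂ y] at h1 h2
    rw [h1, h2]
    congr 1
    funext z
    exact mul_comm _ _
  refine ⟨cfc ff y * (1 - T), ⟨?_, ?_⟩, ?_, ?_, ?_⟩
  · rw [star_mul, hfs, star_sub, star_one, a1, b1']
  · calc cfc ff y * (1 - T) * (cfc ff y * (1 - T)) =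
        cfc ff y * ((1 - T) * cfc ff y) * (1 - T) := by simp only [mul_assoc]
      _ = cfc ff y * cfc ff y * ((1 - T) * (1 - T)) := by rw [b1']; simp only [mul_assoc]
      _ = cfc ff y * (1 - T) := by rw [b2, a4]
  · rw [mul_assoc, b3, ← mul_assoc, b4, mul_assoc]
  · intro F hF hF0
    rw [mul_assoc, b1', ← mul_assoc, cm ff_cont hF]
    have : (fun z => ff z * F z) = fun _ => 0 := funext (ff_F1 hF0)
    rw [this, cfc_const_zero, zero_mul]
  · intro F hF hF0
    have h1 : cfc ff y * cfc F y = cfc F y := by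
      rw [cm ff_cont hF]
      congr 1
      exact funext (ff_F2 hF0)
    have h2 : T * cfc F y = 0 := by
      rw [hT, Finset.sum_mul]
      refine Finset.sum_eq_zero (fun j _ => ?_)
      have h3 : cfc (fun z => mm (Th j z)) y * cfc F y = 0 := by
        rw [cm (mT j) hF, ← cfc_const_zero ℂ y]
        exact cfc_congr (fun z hz => mm_F (hS z hz) j hF0)
      rw [← hm1 j, mul_assoc, h3, mul_zero]
    rw [sub_mul, one_mul, mul_assoc, b1', ← mul_assoc, h1, ← b1', sub_mul, one_mul, h2]
    simp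

end Pool.Agent.Helper7_ND.J_S0c
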