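import Pool.Agent.Helper7_ND.Stm2

set_option autoImplicit false

open scoped Matrix.Norms.L2Operator ENNReal Matrix
open Pool.Agent.W659.EC

noncomputable section

namespace Pool.Agent.Helper7_ND.J_S1

theorem prj_norm {Q : Type} [NonUnitalCStarAlgebra Q] {p : Q} (hp : Prj p) : ‖p‖ ≤ 1 := by
  have h := CStarRing.norm_star_mul_self (x := p)
  rw [hp.1, hp.2] at h
  by_contra hc
  push Not at hc
  nlinarith

theorem prj_compl {Q : Type} [CStarAlgebra Q] {p : Q} (hp : Prj p) : Prj (1 - p) := by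
  constructor
  · rw [star_sub, star_one, hp.1]
  · rw [mul_sub, sub_mul, sub_mul, hp.2]; simp

theorem cfc_near {Q : Type} [CStarAlgebra Q] (f : ℝ → ℝ) (hf : Continuous f) (s : Q)
    (hs : star s = s) {η : ℝ} (hη : 0 < η) :
    ∃ ε : ℝ, 0 < ε ∧ ∀ s' : Q, star s' = s' → ‖s' - s‖ ≤ ε → ‖cfc f s' - cfc f s‖ ≤ η := by
  have h1 : ‖(1 : Q)‖ ≤ 1 := by
    have h := CStarRing.norm_star_mul_self (x := (1 : Q))
    rw [star_one, mul_one] at h
    by_contra hc
    push Not at hc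
    nlinarith
  have hR : IsCompact (Metric.closedBall (0 : ℝ) (‖s‖ + 1)) := isCompact_closedBall _ _
  have hc := continuousOn_cfc Q hR f hf.continuousOn
  have hsub : ∀ x : Q, ‖x‖ ≤ ‖s‖ + 1 → spectrum ℝ x ⊆ Metric.closedBall (0 : ℝ) (‖s‖ + 1) := by
    intro x hx
    refine (spectrum.subset_closedBall_norm_mul x).trans (Metric.closedBall_subset_closedBall ?_)
    calc ‖x‖ * ‖(1 : Q)‖ ≤ ‖x‖ * 1 := mul_le_mul_of_nonneg_left h1 (norm_nonneg _)
      _ ≤ _ := by rw [mul_one]; exact hx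
  have hs0 : s ∈ {a : Q | IsSelfAdjoint a ∧ spectrum ℝ a ⊆ Metric.closedBall (0 : ℝ) (‖s‖ + 1)} :=
    ⟨hs, hsub s (by linarith)⟩
  have hc2 := Metric.continuousOn_iff.1 hc s hs0 η hη
  obtain ⟨δ, hδ, hc3⟩ := hc2
  refine ⟨min (δ / 2) 1, by positivity, fun s' hs' hn => ?_⟩
  have h2 : ‖s' - s‖ ≤ δ / 2 := hn.trans (min_le_left _ _)
  have h3 : ‖s' - s‖ ≤ 1 := hn.trans (min_le_right _ _)
  have h4 : ‖s'‖ ≤ ‖s‖ + 1 := by
    calc ‖s'‖ = ‖(s' - s) + s‖ := by rw [sub_add_cancel]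
      _ ≤ ‖s' - s‖ + ‖s‖ := norm_add_le _ _
      _ ≤ _ := by linarith
  have h5 := hc3 s' ⟨hs', hsub s' h4⟩ (by rw [dist_eq_norm]; linarith)
  rw [dist_eq_norm] at h5
  exact h5.le

theorem comm_near {Q : Type} [CStarAlgebra Q] {p a a' : Q} (hp : Prj p) (h : p * a' = a' * p)
    {ε : ℝ} (ha : ‖a' - a‖ ≤ ε) : ‖p * a - a * p‖ ≤ 2 * ε := by
  have e : p * a - a * p = (a' - a) * p - p * (a' - a) := by
    rw [sub_mul, mul_sub, h]; abel
  rw [e]
  have h1 : ‖(a' - a) * p‖ ≤ ε := by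
    calc ‖(a' - a) * p‖ ≤ ‖a' - a‖ * ‖p‖ := norm_mul_le _ _
      _ ≤ ‖a' - a‖ * 1 := mul_le_mul_of_nonneg_left (prj_norm hp) (norm_nonneg _)
      _ ≤ _ := by rw [mul_one]; exact ha
  have h2 : ‖p * (a' - a)‖ ≤ ε := by
    calc ‖p * (a' - a)‖ ≤ ‖p‖ * ‖a' - a‖ := norm_mul_le _ _
      _ ≤ 1 * ‖a' - a‖ := mul_le_mul_of_nonneg_right (prj_norm hp) (norm_nonneg _)
      _ ≤ _ := by rw [one_mul]; exact ha
  calc _ ≤ ‖(a' - a) * p‖ + ‖p * (a' - a)‖ := norm_sub_le _ _
    _ ≤ _ := by linarith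

theorem kill_near {Q : Type} [CStarAlgebra Q] {p b b' : Q} (hp : Prj p) (h : p * b' = 0)
    {ε : ℝ} (hb : ‖b' - b‖ ≤ ε) : ‖p * b‖ ≤ ε := by
  have e : p * b = - (p * (b' - b)) := by
    rw [mul_sub, h]; abel
  rw [e, norm_neg]
  calc ‖p * (b' - b)‖ ≤ ‖p‖ * ‖b' - b‖ := norm_mul_le _ _
    _ ≤ 1 * ‖b' - b‖ := mul_le_mul_of_nonneg_right (prj_norm hp) (norm_nonneg _)
    _ ≤ _ := by rw [one_mul]; exact hb

theorem t_S1 : StS1 := by
  intro Λ X _ _ ℱ Q _ q hq he hlift hcut a s α β ha hs hcomm hαβ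
  obtain ⟨e, he0, hlim⟩ := he
  set b : Q := cfc (fun r : ℝ => max (r - β) 0) s with hb
  set c : Q := cfc (fun r : ℝ => max (α - r) 0) s with hc
  obtain ⟨A, hA⟩ := hq.surj a
  obtain ⟨S, hS⟩ := hq.surj s
  obtain ⟨B, hB⟩ := hq.surj b
  obtain ⟨C, hC⟩ := hq.surj c
  -- the defect
  let D : ∀ l, X l → ℝ := fun l P => ‖P * A l - A l * P‖ + ‖P * S l - S l * P‖ + ‖P * B l‖ +
    ‖(1 - P) * C l‖
  have hD0 : ∀ l P, 0 ≤ D l P := fun l P => by positivity
  have hch : ∀ l, ∃ P : X l, Prj P ∧ ∀ P', Prj P' → D l P ≤ D l P' + e l := by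
    intro l
    have hne : {x : ℝ | ∃ P : X l, Prj P ∧ x = D l P}.Nonempty :=
      ⟨D l 0, 0, ⟨by simp, by simp⟩, rfl⟩
    have hbd : BddBelow {x : ℝ | ∃ P : X l, Prj P ∧ x = D l P} := by
      refine ⟨0, ?_⟩
      rintro x ⟨P, -, rfl⟩
      exact hD0 l P
    obtain ⟨x, ⟨P, hP, rfl⟩, hx⟩ := exists_lt_of_csInf_lt hne
      (lt_add_of_pos_right (sInf {x : ℝ | ∃ P : X l, Prj P ∧ x = D l P}) (he0 l))
    refine ⟨P, hP, fun P' hP' => ?_⟩
    have := csInf_le hbd ⟨P', hP', rfl⟩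
    linarith
  choose P₀ hP₀ hP₁ using hch
  have hmem : Memℓp P₀ ∞ := memℓp_infty ⟨1, by rintro x ⟨l, rfl⟩; exact prj_norm (hP₀ l)⟩
  let P : lp X ∞ := ⟨P₀, hmem⟩
  have hPl : ∀ l, P l = P₀ l := fun l => rfl
  have hPP : Prj P := by
    constructor
    · ext l
      rw [lp.star_apply, hPl]
      exact (hP₀ l).1
    · ext l
      rw [lp.infty_coeFn_mul, Pi.mul_apply, hPl]
      exact (hP₀ l).2
  have hpq : Prj (q P) := ⟨by rw [← map_star, hPP.1], by rw [← map_mul, hPP.2]⟩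
  -- the claim
  have hclaim : ∀ η : ℝ, 0 < η → ∀ᶠ l in ℱ, D l (P₀ l) ≤ η := by
    intro η hη
    obtain ⟨ε1, hε1, hn1⟩ := cfc_near (fun r : ℝ => max (r - β) 0) (by fun_prop) s hs
      (show 0 < η / 16 by positivity)
    obtain ⟨ε2, hε2, hn2⟩ := cfc_near (fun r : ℝ => max (α - r) 0) (by fun_prop) s hs
      (show 0 < η / 16 by positivity)
    obtain ⟨a', s', p, ha', hs', -, hna, hns, hp, hpa, hps, hpb, hpc⟩ :=
      hcut a s α β (min (η / 32) (min ε1 ε2)) ha hs hcomm hαβ (by positivity)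
    obtain ⟨P', hP', hqP'⟩ := hlift p hp
    have k1 : ‖p * a - a * p‖ ≤ 2 * (η / 32) :=
      comm_near hp hpa (hna.trans (min_le_left _ _))
    have k2 : ‖p * s - s * p‖ ≤ 2 * (η / 32) :=
      comm_near hp hps (hns.trans (min_le_left _ _))
    have k3 : ‖p * b‖ ≤ η / 16 := kill_near hp hpb
      (hn1 s' hs' (hns.trans ((min_le_right _ _).trans (min_le_left _ _))))
    have k4 : ‖(1 - p) * c‖ ≤ η / 16 := kill_near (prj_compl hp) hpc
      (hn2 s' hs' (hns.trans ((min_le_right _ _).trans (min_le_right _ _))))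
    have l1 := hq.lt (P' * A - A * P') (η / 8)
      (by rw [map_sub, map_mul, map_mul, hqP', hA]; linarith)
    have l2 := hq.lt (P' * S - S * P') (η / 8)
      (by rw [map_sub, map_mul, map_mul, hqP', hS]; linarith)
    have l3 := hq.lt (P' * B) (η / 8) (by rw [map_mul, hqP', hB]; linarith)
    have l4 := hq.lt ((1 - P') * C) (η / 8)
      (by rw [map_mul, map_sub, map_one, hqP', hC]; linarith)
    have l5 : ∀ᶠ l in ℱ, e l < η / 2 := hlim.eventually (gt_mem_nhds (by positivity))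
    filter_upwards [l1, l2, l3, l4, l5] with l m1 m2 m3 m4 m5
    have hP'l : Prj (P' l) := by
      constructor
      · have := congrArg (fun x : lp X ∞ => x l) hP'.1
        simpa using this
      · have := congrArg (fun x : lp X ∞ => x l) hP'.2
        simpa using this
    have h1 := hP₁ l (P' l) hP'l
    have h2 : D l (P' l) ≤ η / 8 + η / 8 + η / 8 + η / 8 := by
      have n1 : ‖P' l * A l - A l * P' l‖ < η / 8 := by simpa using m1
      have n2 : ‖P' l * S l - S l * P' l‖ < η / 8 := by simpa using m2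
      have n3 : ‖P' l * B l‖ < η / 8 := by simpa using m3
      have n4 : ‖(1 - P' l) * C l‖ < η / 8 := by simpa using m4
      simp only [D]
      linarith
    linarith
  have hzero : ∀ x : lp X ∞, (∀ l, ‖x l‖ ≤ D l (P₀ l)) → q x = 0 := by
    intro x hx
    rw [← norm_le_zero_iff]
    refine le_of_forall_pos_le_add (fun η hη => ?_)
    rw [zero_add]
    refine hq.le x η hη.le ?_
    filter_upwards [hclaim η hη] with l hl
    exact (hx l).trans hl
  refine ⟨q P, hpq, ?_, ?_, ?_, ?_⟩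
  · have := hzero (P * A - A * P) (fun l => by
      have e1 : (P * A - A * P) l = P₀ l * A l - A l * P₀ l := by simp [hPl]
      rw [e1]
      simp only [D]
      have := norm_nonneg (P₀ l * S l - S l * P₀ l)
      have := norm_nonneg (P₀ l * B l)
      have := norm_nonneg ((1 - P₀ l) * C l)
      linarith)
    rw [map_sub, map_mul, map_mul, hA, sub_eq_zero] at this
    exact this
  · have := hzero (P * S - S * P) (fun l => by
      have e1 : (P * S - S * P) l = P₀ l * S l - S l * P₀ l := by simp [hPl]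
      rw [e1]
      simp only [D]
      have := norm_nonneg (P₀ l * A l - A l * P₀ l)
      have := norm_nonneg (P₀ l * B l)
      have := norm_nonneg ((1 - P₀ l) * C l)
      linarith)
    rw [map_sub, map_mul, map_mul, hS, sub_eq_zero] at this
    exact this
  · have := hzero (P * B) (fun l => by
      have e1 : (P * B) l = P₀ l * B l := by simp [hPl]
      rw [e1]
      simp only [D]
      have := norm_nonneg (P₀ l * S l - S l * P₀ l)
      have := norm_nonneg (P₀ l * A l - A l * P₀ l)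
      have := norm_nonneg ((1 - P₀ l) * C l)
      linarith)
    rw [map_mul, hB] at this
    exact this
  · have := hzero ((1 - P) * C) (fun l => by
      have e1 : ((1 - P) * C) l = (1 - P₀ l) * C l := by simp [hPl]
      rw [e1]
      simp only [D]
      have := norm_nonneg (P₀ l * S l - S l * P₀ l)
      have := norm_nonneg (P₀ l * A l - A l * P₀ l)
      have := norm_nonneg (P₀ l * B l)
      linarith)
    rw [map_mul, map_sub, map_one, hC] at this
    exact this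

end Pool.Agent.Helper7_ND.J_S1
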