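import Pool.Agent.Helper7_ND.Stm2

set_option autoImplicit false

open scoped Matrix.Norms.L2Operator ENNReal Matrix
open Pool.Agent.W659.EC

noncomputable section

namespace Pool.Agent.Helper7_ND.J_SUM

/-- direct sum of two finite-dimensional algebras -/
def sumFDA (F G : FDA) : FDA where
  ι := F.ι ⊕ G.ι
  n := Sum.elim F.n G.n
  fι := inferInstance
  fn := fun i => match i with
    | Sum.inl i => F.fn i
    | Sum.inr j => G.fn j
  dn := fun i => match i with
    | Sum.inl i => F.dn i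
    | Sum.inr j => G.dn j

variable (F G : FDA)

def res1 : (sumFDA F G).alg →⋆ₙₐ[ℂ] F.alg where
  toFun y := fun i => y (Sum.inl i)
  map_smul' _ _ := rfl
  map_zero' := rfl
  map_add' _ _ := rfl
  map_mul' _ _ := rfl
  map_star' _ := rfl

def res2 : (sumFDA F G).alg →⋆ₙₐ[ℂ] G.alg where
  toFun y := fun i => y (Sum.inr i)
  map_smul' _ _ := rfl
  map_zero' := rfl
  map_add' _ _ := rfl
  map_mul' _ _ := rfl
  map_star' _ := rfl

variable {F G}

/-- the element with given components -/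
def glue (f : F.alg) (g : G.alg) : (sumFDA F G).alg := fun i => match i with
  | Sum.inl i => f i
  | Sum.inr j => g j

def glueL {E : Type} [NonUnitalCStarAlgebra E] (α : E →ₗ[ℂ] F.alg) (β : E →ₗ[ℂ] G.alg) :
    E →ₗ[ℂ] (sumFDA F G).alg where
  toFun x := glue (α x) (β x)
  map_add' x y := by
    funext i
    rcases i with i | j
    · change α (x + y) i = α x i + α y i
      rw [map_add]; rfl
    · change β (x + y) j = β x j + β y j
      rw [map_add]; rfl
  map_smul' c x := by
    funext i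
    rcases i with i | j
    · change α (c • x) i = c • α x i
      rw [map_smul]; rfl
    · change β (c • x) j = c • β x j
      rw [map_smul]; rfl

/-- coordinate -/
def ev (F : FDA) (i : F.ι) : F.alg →⋆ₙₐ[ℂ] Matrix (F.n i) (F.n i) ℂ where
  toFun y := y i
  map_smul' _ _ := rfl
  map_zero' := rfl
  map_add' _ _ := rfl
  map_mul' _ _ := rfl
  map_star' _ := rfl

theorem isCP_glueL {E : Type} [NonUnitalCStarAlgebra E] (α : E →ₗ[ℂ] F.alg) (β : E →ₗ[ℂ] G.alg)
    (hα : IsCP α) (hβ : IsCP β) : IsCP (glueL α β) := by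
  apply isCP_of_family (fun i => ev (sumFDA F G) i)
  · intro b hb
    funext i
    exact hb i
  · intro i
    rcases i with i | j
    · have h : IsCP (((ev F i : F.alg →⋆ₙₐ[ℂ] Matrix (F.n i) (F.n i) ℂ) :
          F.alg →ₗ[ℂ] Matrix (F.n i) (F.n i) ℂ) ∘ₗ α) :=
        (isCP_hom (ev F i) _ (fun _ => rfl)).comp hα
      exact h
    · have h : IsCP (((ev G j : G.alg →⋆ₙₐ[ℂ] Matrix (G.n j) (G.n j) ℂ) :
          G.alg →ₗ[ℂ] Matrix (G.n j) (G.n j) ℂ) ∘ₗ β) :=
        (isCP_hom (ev G j) _ (fun _ => rfl)).comp hβ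
      exact h

theorem t_SUM : StSUM := by
  intro E _ F G ρ η α β c d hc hd hρ hρ0 hη hη0 hcross hα hβ hαn hβn hρ1 hη1
  let φ : (sumFDA F G).alg →ₗ[ℂ] E :=
    ρ ∘ₗ ((res1 F G : (sumFDA F G).alg →⋆ₙₐ[ℂ] F.alg) : (sumFDA F G).alg →ₗ[ℂ] F.alg) +
    η ∘ₗ ((res2 F G : (sumFDA F G).alg →⋆ₙₐ[ℂ] G.alg) : (sumFDA F G).alg →ₗ[ℂ] G.alg)
  have hφ : ∀ y, φ y = ρ (res1 F G y) + η (res2 F G y) := fun _ => rfl
  have hcross' : ∀ y x, η y * ρ x = 0 := by
    intro y x
    have h := hcross (star x) (star y)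
    rw [hρ.star_map, hη.star_map, ← star_mul] at h
    exact star_eq_zero.1 h
  have hcp : IsCP φ := by
    apply IsCP.add
    · exact hρ.comp (isCP_hom (res1 F G) _ (fun _ => rfl))
    · exact hη.comp (isCP_hom (res2 F G) _ (fun _ => rfl))
  refine ⟨sumFDA F G, glueL α β, φ, isCP_glueL α β hα hβ, ?_, hcp, ?_, ?_, ?_⟩
  · intro x
    rw [pi_norm_le_iff_of_nonneg (by positivity)]
    intro i
    rcases i with i | j
    · exact (norm_le_pi_norm (α x) i).trans (hαn x)
    · exact (norm_le_pi_norm (β x) j).trans (hβn x)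
  · intro a b hab
    have h1 : ρ (res1 F G (star a * a)) * ρ (res1 F G (star b * b)) = 0 := by
      apply hρ0 (res1 F G a) (res1 F G b)
      rw [← map_star, ← map_star, ← map_mul, ← map_mul, ← map_mul, hab, map_zero]
    have h2 : η (res2 F G (star a * a)) * η (res2 F G (star b * b)) = 0 := by
      apply hη0 (res2 F G a) (res2 F G b)
      rw [← map_star, ← map_star, ← map_mul, ← map_mul, ← map_mul, hab, map_zero]
    rw [hφ, hφ, add_mul, mul_add, mul_add, h1, h2, hcross, hcross']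
    simp
  · let _ := CStarAlgebra.spectralOrder E
    let _ := CStarAlgebra.spectralOrderedRing E
    have e1 : φ 1 = ρ 1 + η 1 := rfl
    have hρnn : (0 : E) ≤ ρ 1 := by simpa using hρ.nonneg (1 : F.alg)
    have hηnn : (0 : E) ≤ η 1 := by simpa using hη.nonneg (1 : G.alg)
    have hsρ := hρ.schwarz (1 : F.alg)
    have hsη := hη.schwarz (1 : G.alg)
    rw [star_one, one_mul] at hsρ hsη
    have hle : ∀ (r : ℝ) (x : E), 0 ≤ x → r ≤ d → ((r : ℝ) : ℂ) • x ≤ ((d : ℝ) : ℂ) • x := by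
      intro r x hx hr
      have h2 : (((r : ℝ) : ℂ) • x : E) = r • x := rfl
      have h3 : (((d : ℝ) : ℂ) • x : E) = d • x := rfl
      rw [h2, h3]
      exact smul_le_smul_of_nonneg_right hr hx
    have hsum : star (φ 1) * φ 1 ≤ ((d : ℝ) : ℂ) • φ 1 := by
      have e2 : star (φ 1) * φ 1 = star (ρ 1) * ρ 1 + star (η 1) * η 1 := by
        rw [e1, star_add, add_mul, mul_add, mul_add, ← hρ.star_map, ← hη.star_map, star_one,
          star_one, hcross, hcross']
        simp
      rw [e2, e1, smul_add]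
      exact add_le_add (hsρ.trans (hle _ _ hρnn hρ1)) (hsη.trans (hle _ _ hηnn hη1))
    have hn : ‖φ 1‖ ≤ d := by
      have h3 : ‖φ 1‖ * ‖φ 1‖ ≤ d * ‖φ 1‖ := by
        rw [← CStarRing.norm_star_mul_self]
        refine (CStarAlgebra.norm_le_norm_of_nonneg_of_le (star_mul_self_nonneg _) hsum).trans ?_
        rw [norm_smul]
        simp [abs_of_nonneg hd]
      rcases (norm_nonneg (φ 1)).eq_or_lt with h0 | h0
      · rw [← h0]; exact hd
      · exact le_of_mul_le_mul_right h3 h0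
    intro y
    exact (hcp.norm_le y).trans (mul_le_mul_of_nonneg_right hn (norm_nonneg y))
  · intro x
    rfl

end Pool.Agent.Helper7_ND.J_SUM
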