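import Pool.Agent.Helper7_ND.Stm2

set_option autoImplicit false

open scoped Matrix.Norms.L2Operator ENNReal Matrix
open Pool.Agent.W659.EC

noncomputable section

namespace Pool.Agent.Helper7_ND.J_T1R

section mat

variable {A : Type} [NonUnitalCStarAlgebra A] [PartialOrder A] [StarOrderedRing A]

open CStarMatrix WithCStarModule in
/-- The norm of a matrix is at most the sum of the norms of its entries. -/
theorem norm_le_sum {n : Type} [Fintype n] (M : CStarMatrix n n A) :
    ‖M‖ ≤ ∑ j, ∑ i, ‖M i j‖ := by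
  rw [norm_def]
  refine (toCLM M).opNorm_le_bound (by positivity) fun v => ?_
  simp only [toCLM_apply_eq_sum, Finset.sum_mul]
  apply pi_norm_le_sum_norm _ |>.trans
  gcongr with i _
  apply norm_sum_le _ _ |>.trans
  gcongr with j _
  apply norm_mul_le _ _ |>.trans
  rw [mul_comm]
  gcongr
  exact norm_apply_le_norm v j

/-- Block diagonal matrices. -/
def dg {κ n : Type} [Fintype n] [DecidableEq n] (π : n → κ) :
    (κ → A) →⋆ₙₐ[ℂ] CStarMatrix n n A where
  toFun d := CStarMatrix.ofMatrix (Matrix.of fun p q => if p = q then d (π p) else 0)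
  map_smul' c d := by
    refine CStarMatrix.ext fun p q => ?_
    change (if p = q then c • d (π p) else 0) = c • (if p = q then d (π p) else 0)
    split_ifs
    · rfl
    · rw [smul_zero]
  map_zero' := by
    refine CStarMatrix.ext fun p q => ?_
    change (if p = q then (0 : A) else 0) = 0
    split_ifs <;> rfl
  map_add' d e := by
    refine CStarMatrix.ext fun p q => ?_
    change (if p = q then d (π p) + e (π p) else 0) =
      (if p = q then d (π p) else 0) + (if p = q then e (π p) else 0)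
    split_ifs
    · rfl
    · rw [add_zero]
  map_mul' d e := by
    refine CStarMatrix.ext fun p q => ?_
    change (if p = q then d (π p) * e (π p) else 0) =
      ∑ r, (if p = r then d (π p) else 0) * (if r = q then e (π r) else 0)
    rw [Finset.sum_eq_single p]
    · rw [if_pos rfl]
      split_ifs
      · rfl
      · rw [mul_zero]
    · intro r _ hr
      rw [if_neg (Ne.symm hr), zero_mul]
    · intro hp
      exact absurd (Finset.mem_univ p) hp
  map_star' d := by
    refine CStarMatrix.ext fun p q => ?_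
    change (if p = q then star (d (π p)) else 0) = star (if q = p then d (π q) else 0)
    by_cases h : p = q
    · subst h; rw [if_pos rfl, if_pos rfl]
    · rw [if_neg h, if_neg (Ne.symm h), star_zero]

theorem dg_apply {κ n : Type} [Fintype n] [DecidableEq n] (π : n → κ) (d : κ → A) (p q : n) :
    dg π d p q = if p = q then d (π p) else 0 := rfl

open scoped CStarAlgebra in
/-- Homomorphisms respect the functional calculus. -/
theorem hom_cfc {B C : Type} [NonUnitalCStarAlgebra B] [NonUnitalCStarAlgebra C]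
    (φ : B →⋆ₙₐ[ℂ] C) (a : B) (ha : IsSelfAdjoint a) (f : ℝ → ℝ) (hf : Continuous f)
    (hf0 : f 0 = 0) : cfcₙ f (φ a) = φ (cfcₙ f a) :=
  (NonUnitalStarAlgHom.map_cfcₙ φ f a hf.continuousOn hf0 (map_continuous φ) ha
    (ha.map φ)).symm

theorem pi_cfc {κ A : Type} [NonUnitalCStarAlgebra A] [Fintype κ] (k : κ → A)
    (hk : IsSelfAdjoint k) (f : ℝ → ℝ) (hf : Continuous f) (hf0 : f 0 = 0) :
    cfcₙ f k = fun l => cfcₙ f (k l) := by
  funext l
  exact (hom_cfc (Pi.evalNonUnitalStarAlgHom ℂ (fun _ : κ => A) l) k hk f hf hf0).symm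

end mat

theorem t_T1R (hT1 : StT1) : StT1R := by
  classical
  intro F ε hε
  let N : Type := Σ l, F.n l
  set c : ℝ := (Fintype.card N : ℝ) * (Fintype.card N : ℝ) with hc
  have hc0 : 0 ≤ c := by positivity
  set δ' : ℝ := (ε / 4) ^ 2 with hδ'
  have hδ'0 : 0 < δ' := by positivity
  refine ⟨δ' / (c + 1), by positivity, ?_⟩
  intro A _ x k hk hx
  let _ := CStarAlgebra.spectralOrder A
  let _ := CStarAlgebra.spectralOrderedRing A
  set δ : ℝ := δ' / (c + 1) with hδ
  have hδ0 : 0 < δ := by positivity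
  rcases isEmpty_or_nonempty N with hN | ⟨⟨o⟩⟩
  · have hN' : ∀ l, IsEmpty (F.n l) := fun l => ⟨fun i => hN.false ⟨l, i⟩⟩
    refine ⟨x, k, ⟨fun l i => ((hN' l).false i).elim, fun l i => ((hN' l).false i).elim,
      fun l l' i => ((hN' l).false i).elim⟩, hk, fun l i => ((hN' l).false i).elim,
      fun c _ l i => ((hN' l).false i).elim⟩
  let X : CStarMatrix N N A := CStarMatrix.ofMatrix
    (Matrix.of fun r p => if r = o then x p.1 p.2 else 0)
  have hXo : ∀ p : N, X o p = x p.1 p.2 := fun p => if_pos rfl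
  have hXr : ∀ r p : N, r ≠ o → X r p = 0 := fun r p h => if_neg h
  let K : CStarMatrix N N A := dg (fun p : N => p.1) k
  have hKpos : Pos K := by
    choose b hb using hk
    refine ⟨dg (fun p : N => p.1) b, ?_⟩
    change dg (fun p : N => p.1) k = _
    rw [← map_star, ← map_mul]
    congr 1
    funext l
    exact hb l
  have hsa : ∀ l, IsSelfAdjoint (k l) := by
    intro l
    obtain ⟨b, hb⟩ := hk l
    rw [hb]
    exact IsSelfAdjoint.star_mul_self b
  have hXX : ∀ p q : N, (star X * X) p q = star (x p.1 p.2) * x q.1 q.2 := by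
    intro p q
    rw [CStarMatrix.mul_apply, Finset.sum_eq_single o]
    · rw [CStarMatrix.star_apply, hXo, hXo]
    · intro r _ hr
      rw [hXr r q hr, mul_zero]
    · intro h
      exact absurd (Finset.mem_univ o) h
  have hentry : ∀ p q : N, ‖(star X * X - K) p q‖ ≤ δ := by
    rintro ⟨l, i⟩ ⟨l', j⟩
    rw [CStarMatrix.sub_apply, hXX]
    change ‖star (x l i) * x l' j - (if (⟨l, i⟩ : N) = ⟨l', j⟩ then k l else 0)‖ ≤ δ
    by_cases h : l = l'
    · subst h
      by_cases h' : i = j
      · subst h'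
        rw [if_pos rfl]
        exact hx.1 l i
      · rw [if_neg (by
          intro h2
          exact h' (eq_of_heq (Sigma.mk.inj h2).2)), sub_zero]
        exact hx.2.1 l i j h'
    · rw [if_neg (by
        intro h2
        exact h (Sigma.mk.inj h2).1), sub_zero]
      exact hx.2.2 l l' i j h
  have hnorm : ‖star X * X - K‖ ≤ δ' := by
    calc ‖star X * X - K‖ ≤ ∑ q : N, ∑ p : N, ‖(star X * X - K) p q‖ := norm_le_sum _
      _ ≤ ∑ q : N, ∑ p : N, δ :=
        Finset.sum_le_sum fun q _ => Finset.sum_le_sum fun p _ => hentry p q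
      _ = c * δ := by
        simp only [Finset.sum_const, Finset.card_univ, nsmul_eq_mul]
        rw [hc]; ring
      _ ≤ δ' := by
        rw [hδ, mul_div_assoc', div_le_iff₀ (by positivity)]
        nlinarith
  obtain ⟨Z, hZ1, hZ2, hZ3⟩ := hT1 (CStarMatrix N N A) K X δ' hδ'0 hKpos hnorm
  have hcont : Continuous (fun s : ℝ => max (s - 2 * δ') 0) := by fun_prop
  have hf0 : (fun s : ℝ => max (s - 2 * δ') 0) 0 = 0 := by
    simp only
    exact max_eq_right (by linarith)
  have hZZ : star Z * Z = dg (fun p : N => p.1)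
      (fun l => cfcₙ (fun s : ℝ => max (s - 2 * δ') 0) (k l)) := by
    rw [← pi_cfc k (funext fun l => hsa l) _ hcont hf0,
      ← hom_cfc (dg (fun p : N => p.1)) k (funext fun l => hsa l) _ hcont hf0]
    exact hZ1
  have happ : ∀ η : ℝ, 0 < η → ∃ b : CStarMatrix N N A, ‖Z - X * b‖ < η := by
    intro η hη
    rw [Metric.mem_closure_iff] at hZ3
    obtain ⟨_, ⟨b, rfl⟩, hb⟩ := hZ3 η hη
    exact ⟨b, by rwa [dist_eq_norm] at hb⟩
  have hXb : ∀ (b : CStarMatrix N N A) (r q : N), r ≠ o → (X * b) r q = 0 := by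
    intro b r q hr
    rw [CStarMatrix.mul_apply]
    exact Finset.sum_eq_zero fun p _ => by rw [hXr r p hr, zero_mul]
  have hZr : ∀ r q : N, r ≠ o → Z r q = 0 := by
    intro r q hr
    rw [← norm_le_zero_iff]
    refine le_of_forall_pos_le_add fun η hη => ?_
    obtain ⟨b, hb⟩ := happ η hη
    have h1 := CStarMatrix.norm_entry_le_norm (M := Z - X * b) (i := r) (j := q)
    rw [CStarMatrix.sub_apply, hXb b r q hr, sub_zero] at h1
    linarith
  have hZZ2 : ∀ p q : N, (star Z * Z) p q = star (Z o p) * Z o q := by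
    intro p q
    rw [CStarMatrix.mul_apply, Finset.sum_eq_single o]
    · rw [CStarMatrix.star_apply]
    · intro r _ hr
      rw [hZr r q hr, mul_zero]
    · intro h
      exact absurd (Finset.mem_univ o) h
  have hkey : ∀ p q : N, star (Z o p) * Z o q =
      if p = q then cfcₙ (fun s : ℝ => max (s - 2 * δ') 0) (k p.1) else 0 := by
    intro p q
    rw [← hZZ2, hZZ, dg_apply]
  refine ⟨fun l i => Z o ⟨l, i⟩, fun l => cfcₙ (fun s : ℝ => max (s - 2 * δ') 0) (k l),
    ⟨?_, ?_, ?_⟩, ?_, ?_, ?_⟩
  · intro l i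
    simp only
    rw [hkey, if_pos rfl, sub_self, norm_zero]
  · intro l i j hij
    simp only
    rw [hkey, if_neg, norm_zero]
    intro h2
    exact hij (eq_of_heq (Sigma.mk.inj h2).2)
  · intro l l' i j hll
    simp only
    rw [hkey, if_neg, norm_zero]
    intro h2
    exact hll (Sigma.mk.inj h2).1
  · intro l
    have h1 : 0 ≤ cfcₙ (fun s : ℝ => max (s - 2 * δ') 0) (k l) :=
      cfcₙ_nonneg fun s _ => le_max_right _ _
    exact (nonneg_iff_star _).mp h1
  · intro l i
    simp only
    have h1 := CStarMatrix.norm_entry_le_norm (M := Z - X) (i := o) (j := (⟨l, i⟩ : N))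
    rw [CStarMatrix.sub_apply, hXo] at h1
    refine h1.trans (hZ2.trans ?_)
    rw [hδ', Real.sqrt_sq (by positivity)]
    linarith
  · intro d hd l i
    simp only
    rw [← norm_le_zero_iff]
    refine le_of_forall_pos_le_add fun η hη => ?_
    obtain ⟨b, hb⟩ := happ (η / (‖d‖ + 1)) (by positivity)
    have h1 := CStarMatrix.norm_entry_le_norm (M := Z - X * b) (i := o) (j := (⟨l, i⟩ : N))
    have h2 : d * (X * b) o ⟨l, i⟩ = 0 := by
      rw [CStarMatrix.mul_apply, Finset.mul_sum]
      exact Finset.sum_eq_zero fun p _ => by rw [← mul_assoc, hXo, hd, zero_mul]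
    have h3 : d * Z o ⟨l, i⟩ = d * (Z - X * b) o ⟨l, i⟩ := by
      rw [CStarMatrix.sub_apply, mul_sub, h2, sub_zero]
    rw [h3, zero_add]
    calc ‖d * (Z - X * b) o ⟨l, i⟩‖ ≤ ‖d‖ * ‖(Z - X * b) o ⟨l, i⟩‖ := norm_mul_le _ _
      _ ≤ ‖d‖ * (η / (‖d‖ + 1)) :=
        mul_le_mul_of_nonneg_left (h1.trans hb.le) (norm_nonneg _)
      _ ≤ η := by
        rw [mul_div_assoc', div_le_iff₀ (by positivity)]
        nlinarith [norm_nonneg d]

end Pool.Agent.Helper7_ND.J_T1R
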