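import Pool.Agent.Helper7_ND.Mrg5
import Pool.Agent.Helper7_ND.J_A1
import Pool.Agent.Helper7_ND.J_ALG
import Pool.Agent.Helper7_ND.J_ALGA
import Pool.Agent.Helper7_ND.J_CC
import Pool.Agent.Helper7_ND.J_COM
import Pool.Agent.Helper7_ND.J_COR
import Pool.Agent.Helper7_ND.J_ETA
import Pool.Agent.Helper7_ND.J_FD
import Pool.Agent.Helper7_ND.J_FP
import Pool.Agent.Helper7_ND.J_LFT
import Pool.Agent.Helper7_ND.J_LN
import Pool.Agent.Helper7_ND.J_MAIN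
import Pool.Agent.Helper7_ND.J_ND
import Pool.Agent.Helper7_ND.J_NRM
import Pool.Agent.Helper7_ND.J_NV
import Pool.Agent.Helper7_ND.J_QC
import Pool.Agent.Helper7_ND.J_RF
import Pool.Agent.Helper7_ND.J_ROW
import Pool.Agent.Helper7_ND.J_RP
import Pool.Agent.Helper7_ND.J_S0
import Pool.Agent.Helper7_ND.J_S0a
import Pool.Agent.Helper7_ND.J_S0b
import Pool.Agent.Helper7_ND.J_S0c
import Pool.Agent.Helper7_ND.J_S1
import Pool.Agent.Helper7_ND.J_SUM
import Pool.Agent.Helper7_ND.J_T1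
import Pool.Agent.Helper7_ND.J_T1R

/-! # Nuclear dimension of extensions: all parts together -/

set_option autoImplicit false

open scoped Matrix.Norms.L2Operator ENNReal Matrix
open Pool.Agent.W659.EC

namespace Pool.Agent.Helper7_ND

theorem all_L1 : StL1 := J_L1.t_L1
theorem all_ROW : StROW := J_ROW.t_ROW all_L1
theorem all_T1R : StT1R := J_T1R.t_T1R J_T1.t_T1
theorem all_LFT : StLFT := J_LFT.t_LFT all_ROW all_T1R J_COM.t_COM J_LN.t_LN
theorem all_A1 : StA1 := J_A1.t_A1 all_LFT J_COM.t_COM J_LN.t_LN J_QC.t_QC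
theorem all_FP : StFP := J_FP.t_FP all_ROW all_T1R J_COM.t_COM J_RP.t_RP
theorem all_S0 : StS0 := J_S0.t_S0 J_S0a.t_S0a J_S0b.t_S0b J_S0c.t_S0c
theorem all_ALG : StALG := J_ALG.t_ALG (J_ALGA.t_ALGA J_CC.t_CC)
theorem all_MRG : StMRG :=
  t_MRG all_L1 (J_NRM.t_NRM all_L1) (J_QC.t_VW J_QC.t_QC) J_RP.t_RP J_FD.t_FD J_RF.t_RF all_S0
    J_S1.t_S1 all_ALG J_NV.t_NV J_COM.t_CPN all_FP (J_ETA.t_ETA all_L1) J_SUM.t_SUM J_COR.t_COR
theorem all_MAIN : StMAIN := J_MAIN.t_MAIN all_A1 all_MRG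

end Pool.Agent.Helper7_ND
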