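import Pool.Agent.Helper7_ND.Stm2

/-! Completely positive order zero maps satisfy the order zero identity. -/

set_option autoImplicit false

open scoped Matrix.Norms.L2Operator ENNReal Matrix
open Pool.Agent.W659.EC

noncomputable section

namespace Pool.Agent.Helper7_ND.J_L1

section
variable {A : Type} [NonUnitalCStarAlgebra A]

theorem eq_zero_of_star_mul {z : A} (h : star z * z = 0) : z = 0 := by
  rw [← norm_eq_zero]
  have := CStarRing.norm_star_mul_self (x := z)
  rw [h, norm_zero] at this
  exact mul_self_eq_zero.1 this.symm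

theorem mul_star_eq_zero {m n : A} (h : star m * m * (star n * n) = 0) : m * star n = 0 := by
  apply eq_zero_of_star_mul
  apply eq_zero_of_star_mul
  have e : star (star (m * star n) * (m * star n)) * (star (m * star n) * (m * star n)) =
      n * (star m * m * (star n * n)) * (star m * m * star n) := by
    simp only [star_mul, star_star, mul_assoc]
  rw [e, h]
  simp

theorem mul_eq_zero_aux [PartialOrder A] [StarOrderedRing A] {z w m n : A} {C : ℝ}
    (h1 : star z * z ≤ (C : ℂ) • (star m * m)) (h2 : w * star w ≤ (C : ℂ) • (star n * n))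
    (h : star m * m * (star n * n) = 0) : z * w = 0 := by
  have h3 := mul_star_eq_zero h
  have h4 : m * w = 0 := by
    have h5 := star_right_conjugate_le_conjugate h2 m
    have h6 : m * ((C : ℂ) • (star n * n)) * star m = 0 := by
      rw [mul_smul_comm, ← mul_assoc, h3]
      simp
    have h7 : m * (w * star w) * star m = star (star (m * w)) * star (m * w) := by
      simp only [star_mul, star_star, mul_assoc]
    rw [h6, h7] at h5
    have h8 : star (star (m * w)) * star (m * w) = 0 :=
      le_antisymm h5 (star_mul_self_nonneg _)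
    have h9 := eq_zero_of_star_mul h8
    rwa [star_eq_zero] at h9
  have h5 := star_left_conjugate_le_conjugate h1 w
  have h6 : star w * ((C : ℂ) • (star m * m)) * w = 0 := by
    rw [mul_smul_comm, smul_mul_assoc, mul_assoc, mul_assoc, h4]
    simp
  have h7 : star w * (star z * z) * w = star (z * w) * (z * w) := by
    simp only [star_mul, mul_assoc]
  rw [h6, h7] at h5
  exact eq_zero_of_star_mul (le_antisymm h5 (star_mul_self_nonneg _))

theorem mul_eq_zero_of {B : Type} [CStarAlgebra B] {φ : B →ₗ[ℂ] A} (hφ : IsCP φ)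
    (h0 : IsOrderZero φ) {x y : B} (h : x * y = 0) : φ x * φ y = 0 := by
  let _ := CStarAlgebra.spectralOrder A
  let _ := CStarAlgebra.spectralOrderedRing A
  obtain ⟨m, hm⟩ := (nonneg_iff_star _).1 (hφ.nonneg x)
  obtain ⟨n, hn⟩ := (nonneg_iff_star _).1 (hφ.nonneg (star y))
  have h1 := hφ.schwarz x
  have h2 := hφ.schwarz (star y)
  have h3 := h0 x (star y) (by
    rw [star_star, mul_assoc, ← mul_assoc x, h]
    simp)
  rw [hm] at h1
  rw [hn] at h2
  rw [hm, hn] at h3
  rw [hφ.star_map, star_star] at h2
  exact mul_eq_zero_aux h1 h2 h3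

theorem idem {B : Type} [CStarAlgebra B] {φ : B →ₗ[ℂ] A} (hφ : IsCP φ)
    (h0 : IsOrderZero φ) {f : B} (hf : f * f = f) (x y : B) :
    φ (x * f) * φ y = φ x * φ (f * y) := by
  have h1 : φ (x * f) * φ (y - f * y) = 0 := by
    apply mul_eq_zero_of hφ h0
    rw [mul_sub, mul_assoc x f (f * y), ← mul_assoc f f y, hf, ← mul_assoc, sub_self]
  have h2 : φ (x - x * f) * φ (f * y) = 0 := by
    apply mul_eq_zero_of hφ h0
    rw [sub_mul, mul_assoc x f (f * y), ← mul_assoc f f y, hf, sub_self]
  rw [map_sub, mul_sub, sub_eq_zero] at h1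
  rw [map_sub, sub_mul, sub_eq_zero] at h2
  rw [h1, h2]

/-- the elements which can be moved -/
def mv {B : Type} [CStarAlgebra B] (φ : B →ₗ[ℂ] A) : Submodule ℂ B where
  carrier := {z | ∀ x y, φ (x * z) * φ y = φ x * φ (z * y)}
  zero_mem' := by intro x y; simp
  add_mem' := by
    intro z w hz hw x y
    rw [mul_add, add_mul, map_add, map_add, add_mul, mul_add, hz x y, hw x y]
  smul_mem' := by
    intro c z hz x y
    rw [mul_smul_comm, smul_mul_assoc, map_smul, map_smul, smul_mul_assoc, mul_smul_comm, hz x y]

end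

theorem mu_mul (F : FDA) (l : F.ι) (i j k : F.n l) : mu F l i j * mu F l j k = mu F l i k := by
  classical
  unfold mu
  rw [← Pi.single_mul]
  simp

theorem mu_mul_ne (F : FDA) (l : F.ι) (i j k m : F.n l) (h : j ≠ k) :
    mu F l i j * mu F l k m = 0 := by
  classical
  unfold mu
  rw [← Pi.single_mul, Matrix.single_mul_single_of_ne _ _ _ _ h]
  simp

theorem decomp (F : FDA) (y : F.alg) : y = ∑ l, ∑ i, ∑ j, y l i j • mu F l i j := by
  classical
  funext l
  ext i j
  rw [Finset.sum_apply, Matrix.sum_apply, Finset.sum_eq_single l]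
  · rw [Finset.sum_apply, Matrix.sum_apply, Finset.sum_eq_single i]
    · rw [Finset.sum_apply, Matrix.sum_apply, Finset.sum_eq_single j]
      · simp [mu]
      · intro j' _ hj
        simp [mu, hj]
      · simp
    · intro i' _ hi
      rw [Finset.sum_apply, Matrix.sum_apply]
      refine Finset.sum_eq_zero fun j' _ => ?_
      simp [mu, hi]
    · simp
  · intro l' _ hl
    rw [Finset.sum_apply, Matrix.sum_apply]
    refine Finset.sum_eq_zero fun i' _ => ?_
    rw [Finset.sum_apply, Matrix.sum_apply]
    refine Finset.sum_eq_zero fun j' _ => ?_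
    simp [mu, Pi.single_eq_of_ne (Ne.symm hl)]
  · simp

theorem t_L1 : StL1 := by
  intro F A _ φ hφ h0
  have h1 : ∀ l i j, mu F l i j ∈ mv φ := by
    intro l i j
    have hi : ∀ i, mu F l i i ∈ mv φ := fun i => idem hφ h0 (mu_mul F l i i i)
    by_cases hij : i = j
    · subst hij
      exact hi i
    · have h2 : mu F l i i + mu F l i j ∈ mv φ := by
        apply idem hφ h0
        rw [mul_add, add_mul, add_mul, mu_mul, mu_mul, mu_mul_ne F l i j i i (Ne.symm hij),
          mu_mul_ne F l i j i j (Ne.symm hij)]
        simp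
      have h3 := (mv φ).sub_mem h2 (hi i)
      rwa [add_sub_cancel_left] at h3
  have h2 : ∀ z, z ∈ mv φ := by
    intro z
    rw [decomp F z]
    exact Submodule.sum_mem _ fun l _ => Submodule.sum_mem _ fun i _ =>
      Submodule.sum_mem _ fun j _ => Submodule.smul_mem _ _ (h1 l i j)
  intro x y
  have := h2 x 1 y
  rwa [one_mul] at this

end Pool.Agent.Helper7_ND.J_L1
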