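import Pool.Agent.Helper7_ND.Stm5
import Pool.Agent.Helper7_ND.Rp
import Pool.Agent.Helper7_ND.J_LFT
import Pool.Agent.Helper7_ND.J_RP
import Pool.Agent.Helper7_ND.J_L1

/-! # Lifting approximations with commuting colours -/

set_option autoImplicit false

open scoped Matrix.Norms.L2Operator ENNReal Matrix
open Pool.Agent.W659.EC
open Filter

noncomputable section

namespace Pool.Agent.Helper7_ND.J_A2

/-- completely positive maps preserve adjoints -/
theorem cp_star {A B : Type} [NonUnitalCStarAlgebra A] [NonUnitalCStarAlgebra B] {φ : A →ₗ[ℂ] B}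
    (h : IsCP φ) (a : A) : φ (star a) = star (φ a) := by
  let _ := CStarAlgebra.spectralOrder A
  let _ := CStarAlgebra.spectralOrderedRing A
  have ha : a ∈ Submodule.span ℂ {a : A | 0 ≤ a} := by
    rw [CStarAlgebra.span_nonneg]; trivial
  induction ha using Submodule.span_induction with
  | mem x hx =>
    have hP : Pos x := (pos_iff x).2 hx
    rw [hP.sa, (IsCP.pos h hP).sa]
  | zero => simp
  | add x y _ _ hx hy => rw [star_add, map_add, hx, hy, map_add, star_add]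
  | smul c x _ hx => rw [star_smul, map_smul, hx, map_smul, star_smul]

/-- diagonal argument -/
theorem diag {Λ α : Type} {ℱ : Filter Λ} (P : α → Prop) (d : Λ → α → ℝ) (e : Λ → ℝ) (M : ℝ)
    (he : ∀ l, 0 < e l) (he0 : Tendsto e ℱ (nhds 0)) (hd : ∀ l z, 0 ≤ d l z)
    (h0 : ∀ l, ∃ z, P z ∧ d l z ≤ M)
    (h : ∀ ε : ℝ, 0 < ε → ∀ᶠ l in ℱ, ∃ z, P z ∧ d l z ≤ ε) :
    ∃ z : Λ → α, (∀ l, P (z l)) ∧ (∀ l, d l (z l) ≤ M + e l) ∧
      ∀ ε : ℝ, 0 < ε → ∀ᶠ l in ℱ, d l (z l) ≤ ε := by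
  have h1 : ∀ l, ∃ z, P z ∧ d l z < sInf (d l '' {z | P z}) + e l := by
    intro l
    have hne : (d l '' {z | P z}).Nonempty := by
      obtain ⟨z, hz, _⟩ := h0 l
      exact ⟨_, z, hz, rfl⟩
    obtain ⟨_, ⟨z, hz, rfl⟩, hlt⟩ := exists_lt_of_csInf_lt hne (lt_add_of_pos_right _ (he l))
    exact ⟨z, hz, hlt⟩
  choose z hz hlt using h1
  have hb : ∀ l, BddBelow (d l '' {z | P z}) := fun l =>
    ⟨0, by rintro _ ⟨w, _, rfl⟩; exact hd l w⟩
  refine ⟨z, hz, fun l => ?_, fun ε hε => ?_⟩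
  · obtain ⟨w, hw, hwM⟩ := h0 l
    have := csInf_le (hb l) ⟨w, hw, rfl⟩
    linarith [hlt l]
  · have h2 := h (ε / 2) (by positivity)
    have h3 : ∀ᶠ l in ℱ, e l < ε / 2 := he0.eventually_lt_const (by positivity)
    filter_upwards [h2, h3] with l hl2 hl
    obtain ⟨w, hw, hwe⟩ := hl2
    have := csInf_le (hb l) ⟨w, hw, rfl⟩
    linarith [hlt l]

/-- the constant families -/
def cst (Λ E : Type) [NonUnitalCStarAlgebra E] :
    E →⋆ₙₐ[ℂ] lp (fun _ : Λ => Unitization ℂ E) ∞ where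
  toFun x := mkL (fun _ => (x : Unitization ℂ E)) ⟨‖(x : Unitization ℂ E)‖, fun _ => le_rfl⟩
  map_smul' c x := lpExt fun _ => Unitization.inr_smul ℂ c x
  map_zero' := lpExt fun _ => Unitization.inr_zero ℂ
  map_add' x y := lpExt fun _ => Unitization.inr_add ℂ x y
  map_mul' x y := lpExt fun _ => Unitization.inr_mul ℂ x y
  map_star' x := lpExt fun _ => Unitization.inr_star x

theorem cst_apply {Λ E : Type} [NonUnitalCStarAlgebra E] (x : E) (l : Λ) :
    cst Λ E x l = (x : Unitization ℂ E) := rfl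

/-- the limit objects -/
structure Lim {E D Q : Type} [NonUnitalCStarAlgebra E] [NonUnitalCStarAlgebra D] [CStarAlgebra Q]
    (π : E →⋆ₙₐ[ℂ] D) (K : E →⋆ₙₐ[ℂ] Q) (a T : Q) : Prop where
  asa : star a = a
  a1 : ‖a‖ ≤ 1
  Tsa : star T = T
  aa : a * a = 1 - T * T
  aT : a * T = T * a
  aK : ∀ x, a * K x = K x * a
  TK : ∀ x, T * K x = K x * T
  nK : ∀ x, ‖a * K x * a‖ ≤ ‖π x‖
  pK : ∀ x, Pos x → Pos (((‖π x‖ : ℝ) : ℂ) • (1 : Q) - ((‖π x‖ : ℝ) : ℂ) • (T * T)
    - a * K x * a)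

namespace Lim

variable {E D Q : Type} [NonUnitalCStarAlgebra E] [NonUnitalCStarAlgebra D] [CStarAlgebra Q]
    {π : E →⋆ₙₐ[ℂ] D} {K : E →⋆ₙₐ[ℂ] Q} {a T : Q}

theorem conj_eq (h : Lim π K a T) (u : E) : a * K u * a = K u * (a * a) := by
  rw [h.aK, mul_assoc]

theorem aaK (h : Lim π K a T) (u : E) : (a * a) * K u = K u * (a * a) := by
  rw [mul_assoc, h.aK, ← mul_assoc, h.aK, mul_assoc]

theorem conj_mul (h : Lim π K a T) (u v : E) :
    a * K u * a * K v = a * K (u * v) * a := by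
  rw [h.conj_eq, h.conj_eq, mul_assoc, h.aaK, ← mul_assoc, map_mul]

theorem mul_conj (h : Lim π K a T) (u v : E) :
    K u * (a * K v * a) = a * K (u * v) * a := by
  rw [h.conj_eq, h.conj_eq, ← mul_assoc, map_mul]

theorem conj_conj (h : Lim π K a T) (u v : E) :
    (a * K u * a) * (a * K v * a) = a * (a * K (u * v) * a) * a := by
  calc (a * K u * a) * (a * K v * a) = K u * ((a * a) * K v) * (a * a) := by
        rw [h.conj_eq, h.conj_eq]; noncomm_ring
    _ = K (u * v) * (a * a) * (a * a) := by rw [h.aaK, map_mul]; noncomm_ring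
    _ = (a * (K (u * v) * a)) * (a * a) := by rw [← h.aK (u * v), h.aaK (u * v) |>.symm]; noncomm_ring
    _ = _ := by rw [← h.aK (u * v)]; noncomm_ring

theorem norm_conj_le (h : Lim π K a T) (x : Q) {c : ℝ} (hx : ‖x‖ ≤ c) : ‖a * x * a‖ ≤ c := by
  have hc : 0 ≤ c := (norm_nonneg _).trans hx
  calc ‖a * x * a‖ ≤ ‖a * x‖ * ‖a‖ := norm_mul_le _ _
    _ ≤ (‖a‖ * ‖x‖) * ‖a‖ := by gcongr; exact norm_mul_le _ _
    _ ≤ (1 * c) * 1 := by
        have := h.a1
        gcongr
    _ = c := by ring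

/-- the reconstruction -/
theorem est1 (h : Lim π K a T) (u g : E) :
    ‖a * K u * a + T * K g * T - K g‖ ≤ ‖π (u - g)‖ := by
  have e : a * K u * a + T * K g * T - K g = a * K (u - g) * a := by
    have h1 : a * K g * a + T * K g * T = K g := by
      rw [h.conj_eq, h.TK, mul_assoc, h.aa, mul_sub, mul_one]
      abel
    have h2 : T * K g * T = K g - a * K g * a := eq_sub_of_add_eq' h1
    rw [map_sub, mul_sub, sub_mul, h2]
    abel
  rw [e]
  exact h.nK _

theorem est2 (h : Lim π K a T) (u v g : E) :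
    ‖a * K u * a - a * K v * a * K g‖ ≤ ‖π (u - v * g)‖ := by
  rw [h.conj_mul]
  have e : a * K u * a - a * K (v * g) * a = a * K (u - v * g) * a := by
    rw [map_sub K u, mul_sub, sub_mul]
  rw [e]
  exact h.nK _

theorem est2' (h : Lim π K a T) (u v g : E) :
    ‖a * K u * a - K g * (a * K v * a)‖ ≤ ‖π (u - g * v)‖ := by
  rw [h.mul_conj]
  have e : a * K u * a - a * K (g * v) * a = a * K (u - g * v) * a := by
    rw [map_sub K u, mul_sub, sub_mul]
  rw [e]
  exact h.nK _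

theorem est3 (h : Lim π K a T) (u v w g : E) :
    ‖a * K u * a * (a * K v * a - a * K w * a) * K g‖ ≤ ‖π (u * (v - w) * g)‖ := by
  have e : a * K v * a - a * K w * a = a * K (v - w) * a := by
    rw [map_sub K v, mul_sub, sub_mul]
  rw [e, h.conj_conj]
  have e2 : a * (a * K (u * (v - w)) * a) * a * K g = a * (a * K (u * (v - w) * g) * a) * a := by
    rw [← h.conj_mul (u * (v - w)) g, mul_assoc (a * (a * K (u * (v - w)) * a)) a (K g), h.aK g]
    noncomm_ring
  rw [e2]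
  exact h.norm_conj_le _ (h.nK _)

theorem est3' (h : Lim π K a T) (u v w g : E) :
    ‖K g * (a * K v * a - a * K w * a) * (a * K u * a)‖ ≤ ‖π (g * (v - w) * u)‖ := by
  have e : a * K v * a - a * K w * a = a * K (v - w) * a := by
    rw [map_sub K v, mul_sub, sub_mul]
  rw [e, h.mul_conj, h.conj_conj]
  exact h.norm_conj_le _ (h.nK _)

theorem zero_of (h : Lim π K a T) {u : E} (hu : π u = 0) : a * K u * a = 0 := by
  have := h.nK u
  rw [hu, norm_zero] at this
  exact norm_le_zero_iff.1 this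

theorem comm (h : Lim π K a T) {u v : E} (huv : π (u * v) = π (v * u)) :
    (a * K u * a) * (a * K v * a) = (a * K v * a) * (a * K u * a) := by
  rw [h.conj_conj, h.conj_conj]
  have e : a * K (u * v) * a = a * K (v * u) * a := by
    have h1 := h.zero_of (u := u * v - v * u) (by rw [map_sub, huv, sub_self])
    rw [map_sub K (u * v), mul_sub, sub_mul] at h1
    exact sub_eq_zero.1 h1
  rw [e]

theorem commT (h : Lim π K a T) (u : E) : T * (a * K u * a) = (a * K u * a) * T := by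
  calc T * (a * K u * a) = (a * T) * K u * a := by rw [h.aT]; noncomm_ring
    _ = a * (T * K u) * a := by noncomm_ring
    _ = a * K u * (T * a) := by rw [h.TK]; noncomm_ring
    _ = _ := by rw [← h.aT]; noncomm_ring

theorem est_pos (h : Lim π K a T) (s : E) (hs : Pos s) (ε0 : ℝ) (hε0 : 0 ≤ ε0)
    (hn : ‖π s‖ ≤ 1 + ε0) : Pos ((1 + ε0 : ℂ) • (1 : Q) - T * T - a * K s * a) := by
  have h1 := h.pK s hs
  have h2 : Pos (((1 + ε0 - ‖π s‖ : ℝ) : ℂ) • (a * a)) :=
    Pos.smul ⟨a, by rw [h.asa]⟩ (by linarith)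
  have h3 : Pos ((ε0 : ℂ) • (T * T)) := Pos.smul ⟨T, by rw [h.Tsa]⟩ hε0
  have h4 := (h1.add h2).add h3
  have e : (1 + ε0 : ℂ) • (1 : Q) - T * T - a * K s * a =
      (((‖π s‖ : ℝ) : ℂ) • (1 : Q) - ((‖π s‖ : ℝ) : ℂ) • (T * T)
    - a * K s * a) + ((1 + ε0 - ‖π s‖ : ℝ) : ℂ) • (a * a) + (ε0 : ℂ) • (T * T) := by
    rw [h.aa]
    push_cast
    module
  rw [e]
  exact h4

end Lim

section ev

variable {Λ : Type} {B : Type} [CStarAlgebra B] [Nontrivial B] {ℱ : Filter Λ} {Q : Type}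
  [CStarAlgebra Q] {q : lp (fun _ : Λ => B) ∞ →⋆ₐ[ℂ] Q}

/-- positivity in the limit -/
theorem ev_pos (hq : IsRP (fun _ : Λ => B) ℱ Q q) (W : lp (fun _ : Λ => B) ∞)
    (hW' : star W = W) (hp : Pos (q W)) {ε : ℝ} (hε : 0 < ε) :
    ∀ᶠ l in ℱ, Pos ((ε : ℂ) • (1 : B) + W l) := by
  have hW : ∀ l, star (W l) = W l := fun l => by
    have := congrArg (fun z : lp (fun _ : Λ => B) ∞ => z l) hW'
    exact this
  obtain ⟨b, hb⟩ := hp
  obtain ⟨b', rfl⟩ := hq.surj b
  have h1 : q W = q (star b' * b') := by rw [hb, map_mul, map_star]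
  filter_upwards [hq.small h1 hε] with l hl
  let _ := CStarAlgebra.spectralOrder B
  let _ := CStarAlgebra.spectralOrderedRing B
  have h2 : IsSelfAdjoint ((star b' * b') l - W l) := by
    rw [IsSelfAdjoint, star_sub, hW]
    congr 1
    change star (star (b' l) * b' l) = star (b' l) * b' l
    rw [star_mul, star_star]
  have h3 : ‖(star b' * b') l - W l‖ ≤ ε := by rw [norm_sub_rev]; exact hl.le
  have h4 := J_LFT.le_csmul_one _ h2 ε h3
  rw [pos_iff]
  have h5 : (0 : B) ≤ (star b' * b') l := by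
    change 0 ≤ star (b' l) * b' l
    exact star_mul_self_nonneg _
  have h6 := add_nonneg h4 h5
  refine h6.trans_eq ?_
  abel

/-- positivity from eventual positivity -/
theorem pos_ev (hq : IsRP (fun _ : Λ => B) ℱ Q q) (W : lp (fun _ : Λ => B) ∞)
    (h : ∀ δ : ℝ, 0 < δ → ∀ᶠ l in ℱ, Pos ((δ : ℂ) • (1 : B) + W l)) : Pos (q W) := by
  classical
  let _ := CStarAlgebra.spectralOrder Q
  let _ := CStarAlgebra.spectralOrderedRing Q
  have h1 : ∀ δ : ℝ, 0 < δ → 0 ≤ (δ : ℂ) • (1 : Q) + q W := by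
    intro δ hδ
    set V : lp (fun _ : Λ => B) ∞ := (δ : ℂ) • 1 + W with hV
    have hVl : ∀ l, V l = (δ : ℂ) • (1 : B) + W l := fun l => rfl
    let V' : lp (fun _ : Λ => B) ∞ := mkL (fun l => if Pos (V l) then V l else 0)
      ⟨‖V‖, fun l => by
        split_ifs
        · exact lpNormApply V l
        · rw [norm_zero]; exact norm_nonneg _⟩
    have hV' : ∀ l, V' l = if Pos (V l) then V l else 0 := fun l => rfl
    have hpos : Pos V' := lp_pos fun l => by
      rw [hV']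
      split_ifs with hc
      · exact hc
      · exact Pos.zero
    have heq : q V' = q V := hq.eq_of_eventually (by
      filter_upwards [h δ hδ] with l hl
      rw [hV', if_pos]
      rw [hVl]
      exact hl)
    have h2 : Pos (q V') := hpos.map q
    rw [heq, hV, map_add, map_smul, map_one, pos_iff] at h2
    exact h2
  rw [pos_iff]
  have h2 : Tendsto (fun δ : ℝ => (δ : ℂ) • (1 : Q) + q W) (nhdsWithin 0 (Set.Ioi 0))
      (nhds (((0 : ℝ) : ℂ) • (1 : Q) + q W)) := by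
    have hc : Continuous (fun δ : ℝ => (δ : ℂ) • (1 : Q) + q W) := by fun_prop
    exact (hc.tendsto 0).mono_left nhdsWithin_le_nhds
  rw [Complex.ofReal_zero, zero_smul, zero_add] at h2
  refine ge_of_tendsto h2 ?_
  filter_upwards [self_mem_nhdsWithin] with δ hδ
  exact h1 δ hδ

end ev

theorem exists_lim (hAP : StAP) {I E D : Type} [NonUnitalCStarAlgebra I]
    [NonUnitalCStarAlgebra E] [NonUnitalCStarAlgebra D] (ι : I →⋆ₙₐ[ℂ] E) (π : E →⋆ₙₐ[ℂ] D)
    (hext : IsExt ι π) :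
    ∃ (Λ : Type) (ℱ : Filter Λ) (e : Λ → ℝ) (t : Λ → I) (Q : Type) (_ : CStarAlgebra Q)
      (q : lp (fun _ : Λ => Unitization ℂ E) ∞ →⋆ₐ[ℂ] Q)
      (A T : lp (fun _ : Λ => Unitization ℂ E) ∞),
      ℱ.NeBot ∧ (∀ l, 0 < e l) ∧ (∀ l, e l ≤ 1) ∧ Tendsto e ℱ (nhds 0) ∧
      IsRP (fun _ : Λ => Unitization ℂ E) ℱ Q q ∧ (∀ l, Pos (t l)) ∧ (∀ l, ‖t l‖ ≤ 1) ∧
      (∀ l, star (cut ι (t l)) = cut ι (t l)) ∧ (∀ l, ‖cut ι (t l)‖ ≤ 1) ∧
      (∀ l, A l = cut ι (t l)) ∧ (∀ l, T l = ((ι (t l) : E) : Unitization ℂ E)) ∧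
      Lim π ((q : lp (fun _ : Λ => Unitization ℂ E) ∞ →⋆ₙₐ[ℂ] Q).comp (cst Λ E)) (q A) (q T) := by
  classical
  have h0 := fun l : Finset E × ℕ => hAP I E D ι π hext l.1 (1 / ((l.2 : ℝ) + 1)) (by positivity)
  choose t ht ht1 hcp hcn hcc htx hcx hnx hrx hpx using h0
  obtain ⟨Q, hQ, q, hq⟩ := J_RP.t_RP (Finset E × ℕ) (fun _ => Unitization ℂ E) atTop
  have hTn : ∀ l, ‖((ι (t l) : E) : Unitization ℂ E)‖ ≤ 1 := fun l => by
    rw [Unitization.norm_inr]
    exact (NonUnitalStarAlgHom.norm_apply_le ι _).trans (ht1 l)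
  let A : lp (fun _ : Finset E × ℕ => Unitization ℂ E) ∞ :=
    mkL (fun l => cut ι (t l)) ⟨1, hcn⟩
  let T : lp (fun _ : Finset E × ℕ => Unitization ℂ E) ∞ :=
    mkL (fun l => ((ι (t l) : E) : Unitization ℂ E)) ⟨1, hTn⟩
  have hAl : ∀ l, A l = cut ι (t l) := fun l => rfl
  have hTl : ∀ l, T l = ((ι (t l) : E) : Unitization ℂ E) := fun l => rfl
  have hasa : ∀ l, star (cut ι (t l)) = cut ι (t l) := fun l => (hcp l).sa
  have hTsa : ∀ l, star ((ι (t l) : E) : Unitization ℂ E) = ((ι (t l) : E) : Unitization ℂ E) :=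
    fun l => by rw [← Unitization.inr_star, ← map_star, (ht l).sa]
  have hev : ∀ (x : E) (δ : ℝ), 0 < δ → ∀ᶠ l : Finset E × ℕ in atTop,
      x ∈ l.1 ∧ 1 / ((l.2 : ℝ) + 1) ≤ δ := by
    intro x δ hδ
    obtain ⟨n, hn⟩ := exists_nat_one_div_lt hδ
    filter_upwards [eventually_ge_atTop (({x}, n) : Finset E × ℕ)] with l hl
    refine ⟨hl.1 (Finset.mem_singleton_self x), le_trans ?_ hn.le⟩
    have : (n : ℝ) ≤ l.2 := by exact_mod_cast hl.2
    gcongr
  refine ⟨Finset E × ℕ, atTop, fun l => 1 / ((l.2 : ℝ) + 1), t, Q, hQ, q, A, T, inferInstance,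
    fun l => by positivity, ?_, ?_, hq, ht, ht1, hasa, hcn, hAl, hTl, ?_⟩
  · intro l
    have : (0 : ℝ) ≤ l.2 := Nat.cast_nonneg _
    rw [div_le_one (by positivity)]
    linarith
  · have h1 : Tendsto (fun l : Finset E × ℕ => l.2) atTop atTop := by
      rw [← Filter.prod_atTop_atTop_eq]
      exact tendsto_snd
    exact tendsto_one_div_add_atTop_nhds_zero_nat.comp h1
  · have hKx : ∀ x, ((q : lp (fun _ : Finset E × ℕ => Unitization ℂ E) ∞ →⋆ₙₐ[ℂ] Q).comp
      (cst (Finset E × ℕ) E)) x = q (cst (Finset E × ℕ) E x) := fun x => rfl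
    constructor
    · rw [← map_star]
      congr 1
      exact lpExt fun l => hasa l
    · exact hq.le A 1 zero_le_one (Eventually.of_forall hcn)
    · rw [← map_star]
      congr 1
      exact lpExt fun l => hTsa l
    · rw [← map_mul, ← map_mul, ← map_one q, ← map_sub]
      congr 1
      refine lpExt fun l => ?_
      change cut ι (t l) * cut ι (t l) = 1 - ((ι (t l) : E) : Unitization ℂ E)
        * ((ι (t l) : E) : Unitization ℂ E)
      rw [hcc l, map_mul, Unitization.inr_mul]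
    · rw [← map_mul, ← map_mul]
      congr 1
      refine lpExt fun l => ?_
      change cut ι (t l) * ((ι (t l) : E) : Unitization ℂ E)
        = ((ι (t l) : E) : Unitization ℂ E) * cut ι (t l)
      exact (Commute.cfc_real (Commute.refl ((ι (t l) : E) : Unitization ℂ E)) _).eq
    · intro x
      rw [hKx, ← map_mul, ← map_mul]
      refine hq.eq fun ε hε => ?_
      filter_upwards [hev x ε hε] with l hl
      exact (hcx l x hl.1).trans hl.2
    · intro x
      rw [hKx, ← map_mul, ← map_mul]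
      refine hq.eq fun ε hε => ?_
      filter_upwards [hev x ε hε] with l hl
      change ‖((ι (t l) : E) : Unitization ℂ E) * (x : Unitization ℂ E)
        - (x : Unitization ℂ E) * ((ι (t l) : E) : Unitization ℂ E)‖ ≤ ε
      rw [← Unitization.inr_mul, ← Unitization.inr_mul, ← Unitization.inr_sub,
        Unitization.norm_inr]
      exact (htx l x hl.1).trans hl.2
    · intro x
      rw [hKx, ← map_mul, ← map_mul]
      refine le_of_forall_pos_le_add fun ε hε => ?_
      refine hq.le _ _ (by positivity) ?_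
      filter_upwards [hev x ε hε] with l hl
      exact (hnx l x hl.1).trans (by linarith [hl.2])
    · intro x hx
      rw [hKx]
      have e : ((‖π x‖ : ℝ) : ℂ) • (1 : Q) - ((‖π x‖ : ℝ) : ℂ) • (q T * q T)
          - q A * q (cst (Finset E × ℕ) E x) * q A = q (((‖π x‖ : ℝ) : ℂ) • 1
          - ((‖π x‖ : ℝ) : ℂ) • (T * T) - A * cst (Finset E × ℕ) E x * A) := by
        simp only [map_sub, map_mul, map_smul, map_one]
      rw [e]
      refine pos_ev hq _ fun δ hδ => ?_
      filter_upwards [hev x δ hδ] with l hl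
      have h1 := hpx l x hl.1 hx
      have h2 : Pos (((δ - 1 / ((l.2 : ℝ) + 1) : ℝ) : ℂ) • (1 : Unitization ℂ E)) :=
        Pos.smul ⟨1, by simp⟩ (by linarith [hl.2])
      have h3 := h1.add h2
      change Pos ((δ : ℂ) • (1 : Unitization ℂ E) + (((‖π x‖ : ℝ) : ℂ) • (1 : Unitization ℂ E)
        - ((‖π x‖ : ℝ) : ℂ) • (((ι (t l) : E) : Unitization ℂ E)
          * ((ι (t l) : E) : Unitization ℂ E)) - cut ι (t l) * (x : Unitization ℂ E)
          * cut ι (t l)))
      rw [map_mul, Unitization.inr_mul] at h3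
      have e2 : (δ : ℂ) • (1 : Unitization ℂ E) + (((‖π x‖ : ℝ) : ℂ) • (1 : Unitization ℂ E)
        - ((‖π x‖ : ℝ) : ℂ) • (((ι (t l) : E) : Unitization ℂ E)
          * ((ι (t l) : E) : Unitization ℂ E)) - cut ι (t l) * (x : Unitization ℂ E)
          * cut ι (t l)) = (((‖π x‖ + 1 / ((l.2 : ℝ) + 1) : ℝ) : ℂ) • (1 : Unitization ℂ E)
        - ((‖π x‖ : ℝ) : ℂ) • (((ι (t l) : E) : Unitization ℂ E)
          * ((ι (t l) : E) : Unitization ℂ E)) - cut ι (t l) * (x : Unitization ℂ E)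
          * cut ι (t l)) + ((δ - 1 / ((l.2 : ℝ) + 1) : ℝ) : ℂ) • (1 : Unitization ℂ E) := by
        push_cast
        module
      rw [e2]
      exact h3

theorem rowMap_conj {E Q : Type} [NonUnitalCStarAlgebra E] [CStarAlgebra Q] (K : E →⋆ₙₐ[ℂ] Q)
    (a : Q) (ha : star a = a) (F : FDA) (x : ∀ l : F.ι, F.n l → E) (y : F.alg) :
    rowMap F (fun l i => a * K (x l i)) y = a * K (rowMap F x y) * a := by
  have h1 : K (rowMap F x y) = rowMap F (fun l i => K (x l i)) y :=
    J_LFT.rowMap_lift K F x _ (fun _ _ => rfl) y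
  rw [h1]
  change ∑ l, ∑ i, ∑ j, y l i j • ((a * K (x l i)) * star (a * K (x l j)))
    = a * (∑ l, ∑ i, ∑ j, y l i j • (K (x l i) * star (K (x l j)))) * a
  simp only [Finset.mul_sum, Finset.sum_mul]
  refine Finset.sum_congr rfl fun l _ => Finset.sum_congr rfl fun i _ =>
    Finset.sum_congr rfl fun j _ => ?_
  rw [star_mul, ha, mul_smul_comm, smul_mul_assoc]
  congr 1
  noncomm_ring

theorem comm_bound {E : Type} [NonUnitalCStarAlgebra E] {F : FDA} (κ : F.alg →ₗ[ℂ] E) (b : E)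
    (c : ℝ) (hc : 0 ≤ c) (h : ∀ l i j, ‖b * κ (mu F l i j) - κ (mu F l i j) * b‖ ≤ c)
    (y : F.alg) : ‖b * κ y - κ y * b‖ ≤ J_LFT.nE F * c * ‖y‖ := by
  have e : b * κ y - κ y * b
      = ∑ l, ∑ i, ∑ j, y l i j • (b * κ (mu F l i j) - κ (mu F l i j) * b) := by
    conv_lhs => rw [J_L1.decomp F y]
    simp only [map_sum, map_smul, Finset.mul_sum, Finset.sum_mul, mul_smul_comm, smul_mul_assoc,
      smul_sub, Finset.sum_sub_distrib]
  rw [e]
  have key : ∀ l i j, ‖y l i j • (b * κ (mu F l i j) - κ (mu F l i j) * b)‖ ≤ c * ‖y‖ := by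
    intro l i j
    rw [norm_smul, mul_comm]
    exact mul_le_mul (h l i j) (J_LFT.entry_le y l i j) (norm_nonneg _) hc
  calc _ ≤ ∑ l : F.ι, ∑ _i : F.n l, ∑ _j : F.n l, c * ‖y‖ := by
        refine (norm_sum_le _ _).trans (Finset.sum_le_sum fun l _ => ?_)
        refine (norm_sum_le _ _).trans (Finset.sum_le_sum fun i _ => ?_)
        exact (norm_sum_le _ _).trans (Finset.sum_le_sum fun j _ => key l i j)
    _ = J_LFT.nE F * c * ‖y‖ := by
        unfold J_LFT.nE
        simp only [Finset.sum_const, nsmul_eq_mul, Finset.sum_mul, mul_one]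
        refine Finset.sum_congr rfl fun l _ => ?_
        ring

/-- the almost rows `a x'` can be replaced by exact rows -/
theorem exists_rows (hT1R : StT1R) {I E D Λ Q : Type} [NonUnitalCStarAlgebra I]
    [NonUnitalCStarAlgebra E] [NonUnitalCStarAlgebra D] [CStarAlgebra Q] (ι : I →⋆ₙₐ[ℂ] E)
    (π : E →⋆ₙₐ[ℂ] D) (ℱ : Filter Λ) (e : Λ → ℝ) (t : Λ → I)
    (q : lp (fun _ : Λ => Unitization ℂ E) ∞ →⋆ₐ[ℂ] Q)
    (A T : lp (fun _ : Λ => Unitization ℂ E) ∞) (he : ∀ l, 0 < e l)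
    (he1 : ∀ l, e l ≤ 1)
    (he0 : Tendsto e ℱ (nhds 0)) (hq : IsRP (fun _ : Λ => Unitization ℂ E) ℱ Q q)
    (hasa : ∀ l, star (cut ι (t l)) = cut ι (t l)) (hcn : ∀ l, ‖cut ι (t l)‖ ≤ 1)
    (hAl : ∀ l, A l = cut ι (t l))
    (hL : Lim π ((q : lp (fun _ : Λ => Unitization ℂ E) ∞ →⋆ₙₐ[ℂ] Q).comp (cst Λ E)) (q A) (q T))
    (F : FDA) (x : ∀ l : F.ι, F.n l → E) (k : F.ι → E)
    (h1 : ∀ l i, π (star (x l i) * x l i) = π (star (k l) * k l))
    (h2 : ∀ l i j, i ≠ j → π (star (x l i) * x l j) = 0)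
    (h3 : ∀ l l' i j, l ≠ l' → π (star (x l i) * x l' j) = 0) :
    ∃ Z : Λ → ∀ l : F.ι, F.n l → E, (∀ s, ∃ k', IsRow F (Z s) k' 0) ∧
      (∃ C : ℝ, ∀ s l i, ‖Z s l i‖ ≤ C) ∧
      ∀ l i (ε : ℝ), 0 < ε → ∀ᶠ s in ℱ,
        ‖((Z s l i : E) : Unitization ℂ E) - cut ι (t s) * (x l i : Unitization ℂ E)‖ ≤ ε := by
  classical
  let Y : Λ → ∀ l : F.ι, F.n l → E := fun s l i => J_LFT.mulL (cut ι (t s)) (x l i)
  have hY : ∀ s l i, ((Y s l i : E) : Unitization ℂ E) = cut ι (t s) * (x l i : Unitization ℂ E) :=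
    fun s l i => J_LFT.inr_mulL _ _
  let kk : Λ → F.ι → E := fun s l =>
    star (J_LFT.mulR (k l) (cut ι (t s))) * J_LFT.mulR (k l) (cut ι (t s))
  have hkk : ∀ s l, ((kk s l : E) : Unitization ℂ E)
      = cut ι (t s) * ((star (k l) * k l : E) : Unitization ℂ E) * cut ι (t s) := by
    intro s l
    change ((star (J_LFT.mulR (k l) (cut ι (t s))) * J_LFT.mulR (k l) (cut ι (t s)) : E) :
      Unitization ℂ E) = _
    rw [Unitization.inr_mul, Unitization.inr_star, J_LFT.inr_mulR, star_mul, hasa,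
      Unitization.inr_mul, Unitization.inr_star]
    noncomm_ring
  have hYn : ∀ s l i, ‖Y s l i‖ ≤ ‖x l i‖ := by
    intro s l i
    rw [← Unitization.norm_inr (𝕜 := ℂ), hY]
    refine (norm_mul_le _ _).trans ?_
    rw [Unitization.norm_inr]
    have := mul_le_mul_of_nonneg_right (hcn s) (norm_nonneg (x l i))
    linarith
  -- the almost row relations
  have rel : ∀ (u v w : E), π (star u * v) = π w → ∀ δ : ℝ, 0 < δ → ∀ᶠ s in ℱ,
      ‖star (cut ι (t s) * (u : Unitization ℂ E)) * (cut ι (t s) * (v : Unitization ℂ E))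
        - cut ι (t s) * (w : Unitization ℂ E) * cut ι (t s)‖ ≤ δ := by
    intro u v w huvw δ hδ
    have hs : q (star (A * cst Λ E u) * (A * cst Λ E v) - A * cst Λ E w * A) = 0 := by
      have e1 : ∀ z, q (cst Λ E z)
        = ((q : lp (fun _ : Λ => Unitization ℂ E) ∞ →⋆ₙₐ[ℂ] Q).comp (cst Λ E)) z := fun z => rfl
      rw [map_sub, map_mul, map_star, map_mul, map_mul, map_mul, map_mul, e1, e1, e1, star_mul,
        hL.asa, ← map_star]
      set K := ((q : lp (fun _ : Λ => Unitization ℂ E) ∞ →⋆ₙₐ[ℂ] Q).comp (cst Λ E)) with hK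
      have e2 : K (star u) * q A * (q A * K v) = q A * K (star u * v) * q A := by
        rw [← hL.aK (star u), hL.aK v, map_mul]
        noncomm_ring
      rw [e2]
      have e3 := hL.zero_of (u := star u * v - w) (by rw [map_sub, huvw, sub_self])
      rw [map_sub, mul_sub, sub_mul] at e3
      exact e3
    filter_upwards [hq.small0 hs hδ] with s hss
    have e4 : (star (A * cst Λ E u) * (A * cst Λ E v) - A * cst Λ E w * A) s
        = star (A s * (u : Unitization ℂ E)) * (A s * (v : Unitization ℂ E))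
          - A s * (w : Unitization ℂ E) * A s := rfl
    rw [e4, hAl] at hss
    exact hss.le
  have hrow : ∀ δ : ℝ, 0 < δ → ∀ᶠ s in ℱ, IsRow F (Y s) (kk s) δ := by
    intro δ hδ
    have r1 : ∀ᶠ s in ℱ, ∀ l i, ‖star (Y s l i) * Y s l i - kk s l‖ ≤ δ := by
      rw [eventually_all]; intro l
      rw [eventually_all]; intro i
      filter_upwards [rel (x l i) (x l i) (star (k l) * k l) (h1 l i) δ hδ] with s hs
      rwa [← Unitization.norm_inr (𝕜 := ℂ), Unitization.inr_sub, Unitization.inr_mul,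
        Unitization.inr_star, hY, hkk]
    have r2 : ∀ᶠ s in ℱ, ∀ l (i j : F.n l), i ≠ j → ‖star (Y s l i) * Y s l j‖ ≤ δ := by
      rw [eventually_all]; intro l
      rw [eventually_all]; intro i
      rw [eventually_all]; intro j
      by_cases hij : i = j
      · exact Eventually.of_forall fun s h => absurd hij h
      filter_upwards [rel (x l i) (x l j) 0 (by rw [h2 l i j hij, map_zero]) δ hδ] with s hs
      intro _
      rw [← Unitization.norm_inr (𝕜 := ℂ), Unitization.inr_mul, Unitization.inr_star, hY, hY]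
      rwa [Unitization.inr_zero, mul_zero, zero_mul, sub_zero] at hs
    have r3 : ∀ᶠ s in ℱ, ∀ l l' (i : F.n l) (j : F.n l'), l ≠ l' →
        ‖star (Y s l i) * Y s l' j‖ ≤ δ := by
      rw [eventually_all]; intro l
      rw [eventually_all]; intro l'
      rw [eventually_all]; intro i
      rw [eventually_all]; intro j
      by_cases hij : l = l'
      · exact Eventually.of_forall fun s h => absurd hij h
      filter_upwards [rel (x l i) (x l' j) 0 (by rw [h3 l l' i j hij, map_zero]) δ hδ] with s hs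
      intro _
      rw [← Unitization.norm_inr (𝕜 := ℂ), Unitization.inr_mul, Unitization.inr_star, hY, hY]
      rwa [Unitization.inr_zero, mul_zero, zero_mul, sub_zero] at hs
    filter_upwards [r1, r2, r3] with s hs1 hs2 hs3
    exact ⟨hs1, hs2, hs3⟩
  obtain ⟨N, hN⟩ : ∃ N : ℝ, N = ∑ l : F.ι, ∑ _i : F.n l, (1 : ℝ) := ⟨_, rfl⟩
  have hN0 : 0 ≤ N := by
    rw [hN]
    exact Finset.sum_nonneg fun l _ => Finset.sum_nonneg fun i _ => zero_le_one
  have g0 : ∀ s (z : ∀ l : F.ι, F.n l → E), 0 ≤ ∑ l, ∑ i, ‖z l i - Y s l i‖ := fun s z =>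
    Finset.sum_nonneg fun l _ => Finset.sum_nonneg fun i _ => norm_nonneg _
  have g1 : ∀ s, ∃ z : ∀ l : F.ι, F.n l → E, (∃ k', IsRow F z k' 0) ∧
      ∑ l, ∑ i, ‖z l i - Y s l i‖ ≤ ∑ l, ∑ i, ‖x l i‖ := by
    intro s
    refine ⟨fun _ _ => 0, ⟨fun _ => 0, ⟨fun l i => ?_, fun l i j _ => ?_,
      fun l l' i j _ => ?_⟩⟩, Finset.sum_le_sum fun l _ => Finset.sum_le_sum fun i _ => ?_⟩
    · rw [mul_zero, sub_zero, norm_zero]
    · rw [mul_zero, norm_zero]
    · rw [mul_zero, norm_zero]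
    · rw [zero_sub, norm_neg]
      exact hYn s l i
  have g2 : ∀ ε : ℝ, 0 < ε → ∀ᶠ s in ℱ, ∃ z : ∀ l : F.ι, F.n l → E, (∃ k', IsRow F z k' 0) ∧
      ∑ l, ∑ i, ‖z l i - Y s l i‖ ≤ ε := by
    intro ε hε
    have hN1 : 0 < N + 1 := by linarith
    obtain ⟨δ, hδ, hT⟩ := hT1R F (ε / (N + 1)) (div_pos hε hN1)
    filter_upwards [hrow δ hδ] with s hs
    obtain ⟨z, k', hz, -, hzx, -⟩ := hT E (Y s) (kk s) (fun l => ⟨_, rfl⟩) hs
    refine ⟨z, ⟨k', hz⟩, ?_⟩
    have g3 : ∑ l, ∑ i, ‖z l i - Y s l i‖ ≤ ∑ l : F.ι, ∑ _i : F.n l, (1 : ℝ) * (ε / (N + 1)) := by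
      refine Finset.sum_le_sum fun l _ => Finset.sum_le_sum fun i _ => ?_
      rw [one_mul]
      exact hzx l i
    have g4 : ∑ l : F.ι, ∑ _i : F.n l, (1 : ℝ) * (ε / (N + 1)) = N * (ε / (N + 1)) := by
      rw [hN]
      simp only [Finset.sum_mul]
    rw [g4] at g3
    refine g3.trans ?_
    rw [mul_div_assoc', div_le_iff₀ hN1]
    nlinarith
  obtain ⟨Z, hZP, hZb, hZl⟩ := diag (ℱ := ℱ) (fun z : ∀ l : F.ι, F.n l → E => ∃ k', IsRow F z k' 0)
    (fun s z => ∑ l, ∑ i, ‖z l i - Y s l i‖) e (∑ l, ∑ i, ‖x l i‖) he he0 g0 g1 g2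
  have hone : ∀ s l i, ‖Z s l i - Y s l i‖ ≤ ∑ l, ∑ i, ‖Z s l i - Y s l i‖ := by
    intro s l i
    have g1 : ‖Z s l i - Y s l i‖ ≤ ∑ i, ‖Z s l i - Y s l i‖ :=
      Finset.single_le_sum (f := fun i => ‖Z s l i - Y s l i‖) (fun i _ => norm_nonneg _)
        (Finset.mem_univ i)
    exact g1.trans (Finset.single_le_sum (f := fun l => ∑ i, ‖Z s l i - Y s l i‖)
      (fun l _ => Finset.sum_nonneg fun i _ => norm_nonneg _) (Finset.mem_univ l))
  have hx1 : ∀ l i, ‖x l i‖ ≤ ∑ l, ∑ i, ‖x l i‖ := by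
    intro l i
    have g3 : ‖x l i‖ ≤ ∑ i, ‖x l i‖ :=
      Finset.single_le_sum (f := fun i => ‖x l i‖) (fun i _ => norm_nonneg _)
        (Finset.mem_univ i)
    exact g3.trans (Finset.single_le_sum (f := fun l => ∑ i, ‖x l i‖)
      (fun l _ => Finset.sum_nonneg fun i _ => norm_nonneg _) (Finset.mem_univ l))
  refine ⟨Z, hZP, ⟨(∑ l, ∑ i, ‖x l i‖) + 1 + ∑ l, ∑ i, ‖x l i‖, fun s l i => ?_⟩,
    fun l i ε hε => ?_⟩
  · have g3 : ‖Z s l i‖ ≤ ‖Z s l i - Y s l i‖ + ‖Y s l i‖ := by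
      have := norm_add_le (Z s l i - Y s l i) (Y s l i)
      rwa [sub_add_cancel] at this
    have g4 := hone s l i
    have g5 := hZb s
    have g6 := he1 s
    have g7 := hYn s l i
    have g8 := hx1 l i
    linarith
  · filter_upwards [hZl ε hε] with s hs
    rw [← hY, ← Unitization.inr_sub, Unitization.norm_inr]
    exact (hone s l i).trans hs

theorem t_A2 (hAP : StAP) (hT1R : StT1R) (hROW : StROW) : StA2 := by
  classical
  intro I E D _ _ _ ι π hext J _ hSysC G ε hε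
  obtain ⟨hR1, hR2, -⟩ := hROW
  obtain ⟨F, ψD, x, k, bD, hψD, hrow, hk, hn1, hsum, hmul, hbpos, hbii, hbcom, hbn, hbg⟩ :=
    hSysC (G.image π ∪ G.image (fun g => π (star g))) (ε / 2) (by positivity)
  have hπcpc : IsCPC (π : E →ₗ[ℂ] D) := isCPC_hom π _ (fun a => rfl)
  refine ⟨F, fun j => (ψD j) ∘ₗ (π : E →ₗ[ℂ] D), fun j => (hψD j).comp hπcpc, ?_⟩
  intro η hη
  have hG1 : ∀ g ∈ G, π g ∈ G.image π ∪ G.image (fun g => π (star g)) := fun g hg =>
    Finset.mem_union_left _ (Finset.mem_image_of_mem _ hg)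
  have hG2 : ∀ g ∈ G, π (star g) ∈ G.image π ∪ G.image (fun g => π (star g)) := fun g hg =>
    Finset.mem_union_right _ (Finset.mem_image.2 ⟨g, hg, rfl⟩)
  -- lifts
  choose x' hx' using fun j l i => hext.surj (x j l i)
  choose kr hkr using hk
  choose kr' hkr' using fun j l => hext.surj (kr j l)
  choose br hbr using hbpos
  choose br' hbr' using fun i j => hext.surj (br i j)
  have hφπ : ∀ j y, π (rowMap (F j) (x' j) y) = rowMap (F j) (x j) y := fun j y =>
    J_LFT.rowMap_lift π (F j) (x' j) (x j) (hx' j) y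
  obtain ⟨b', hb'⟩ : ∃ b' : J → J → E, b' = fun i j =>
      if i = j then rowMap (F i) (x' i) 1 else star (br' i j) * br' i j := ⟨_, rfl⟩
  have one_pos' : ∀ F : FDA, Pos (1 : F.alg) := fun F => ⟨1, by simp⟩
  have hφpos : ∀ j, Pos (rowMap (F j) (x' j) 1) := fun j =>
    IsCP.pos (hR1 (F j) E (x' j)) (one_pos' _)
  have hb'pos : ∀ i j, Pos (b' i j) := by
    intro i j
    rw [hb']
    by_cases h : i = j
    · simp only [if_pos h]; exact hφpos i
    · simp only [if_neg h]; exact ⟨_, rfl⟩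
  have hb'π : ∀ i j, π (b' i j) = bD i j := by
    intro i j
    rw [hb']
    by_cases h : i = j
    · subst h
      simp only [if_true]
      rw [hφπ, hbii]
    · simp only [if_neg h]
      rw [map_mul, map_star, hbr', ← hbr]
  -- the limit
  obtain ⟨Λ, ℱ, e, t, Q, hQ, q, A, T, hne, he, he1, he0, hq, ht, ht1, hasa, hcn, hAl, hTl, hL⟩ :=
    exists_lim hAP ι π hext
  have hrows := fun j => exists_rows hT1R ι π ℱ e t q A T he he1 he0 hq hasa hcn hAl hL (F j)
    (x' j) (kr' j)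
    (fun l i => by
      rw [map_mul, map_mul, map_star, map_star, hx', hkr', ← hkr]
      exact sub_eq_zero.1 (norm_le_zero_iff.1 ((hrow j).1 l i)))
    (fun l i i' h => by
      rw [map_mul, map_star, hx', hx']
      exact norm_le_zero_iff.1 ((hrow j).2.1 l i i' h))
    (fun l l' i i' h => by
      rw [map_mul, map_star, hx', hx']
      exact norm_le_zero_iff.1 ((hrow j).2.2 l l' i i' h))
  choose Z hZrow hZbd hZlim using hrows
  choose C hC using hZbd
  obtain ⟨K, hK⟩ : ∃ K : E →⋆ₙₐ[ℂ] Q,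
    K = (q : lp (fun _ : Λ => Unitization ℂ E) ∞ →⋆ₙₐ[ℂ] Q).comp (cst Λ E) := ⟨_, rfl⟩
  rw [← hK] at hL
  have hKx : ∀ z, q (cst Λ E z) = K z := fun z => by rw [hK]; rfl
  obtain ⟨Zl, hZl⟩ : ∃ Zl : ∀ j, ∀ l : (F j).ι, (F j).n l → lp (fun _ : Λ => Unitization ℂ E) ∞,
      ∀ j l i s, Zl j l i s = ((Z j s l i : E) : Unitization ℂ E) :=
    ⟨fun j l i => mkL (fun s => ((Z j s l i : E) : Unitization ℂ E))
      ⟨C j, fun s => by rw [Unitization.norm_inr]; exact hC j s l i⟩, fun j l i s => rfl⟩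
  have hqZ : ∀ j l i, q (Zl j l i) = q A * K (x' j l i) := by
    intro j l i
    rw [← hKx, ← map_mul]
    refine hq.eq fun δ hδ => ?_
    filter_upwards [hZlim j l i δ hδ] with s hs
    have e1 : (A * cst Λ E (x' j l i)) s = A s * (x' j l i : Unitization ℂ E) := rfl
    rw [e1, hZl, hAl]
    exact hs
  -- the maps
  obtain ⟨P, hP⟩ : ∃ P : ∀ j, (F j).alg → lp (fun _ : Λ => Unitization ℂ E) ∞,
      P = fun j y => rowMap (F j) (Zl j) y := ⟨_, rfl⟩
  have hPev : ∀ j y s, evL s (P j y) = jE E (rowMap (F j) (Z j s) y) := by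
    intro j y s
    rw [hP]
    have e1 := J_LFT.rowMap_lift
      ((evL s : lp (fun _ : Λ => Unitization ℂ E) ∞ →⋆ₐ[ℂ] Unitization ℂ E) :
        lp (fun _ : Λ => Unitization ℂ E) ∞ →⋆ₙₐ[ℂ] Unitization ℂ E) (F j) (Zl j)
      (fun l i => ((Z j s l i : E) : Unitization ℂ E)) (fun l i => hZl j l i s) y
    have e2 := J_LFT.rowMap_lift (jE E) (F j) (Z j s)
      (fun l i => ((Z j s l i : E) : Unitization ℂ E)) (fun l i => rfl) y
    exact e1.trans e2.symm
  have hPq : ∀ j y, q (P j y) = q A * K (rowMap (F j) (x' j) y) * q A := by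
    intro j y
    rw [hP]
    have e1 := J_LFT.rowMap_lift
      (q : lp (fun _ : Λ => Unitization ℂ E) ∞ →⋆ₙₐ[ℂ] Q) (F j) (Zl j)
      (fun l i => q A * K (x' j l i)) (fun l i => hqZ j l i) y
    have e2 := rowMap_conj K (q A) hL.asa (F j) (x' j) y
    exact e1.trans e2
  have hPpos : ∀ j, Pos (P j 1) := fun j => by
    rw [hP]
    exact IsCP.pos (hR1 (F j) _ (Zl j)) (one_pos' _)
  have hAsa : star A = A := lpExt fun s => by
    have e1 : (star A) s = star (A s) := rfl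
    rw [e1, hAl, hasa]
  have hTsa : star T = T := lpExt fun s => by
    have e1 : (star T) s = star (T s) := rfl
    rw [e1, hTl, ← Unitization.inr_star, ← map_star, (ht s).sa]
  obtain ⟨Bl, hBl⟩ : ∃ Bl : J → J → lp (fun _ : Λ => Unitization ℂ E) ∞,
      Bl = fun i j => if i = j then P i 1 else star A * cst Λ E (b' i j) * A := ⟨_, rfl⟩
  have hBq : ∀ i j, q (Bl i j) = q A * K (b' i j) * q A := by
    intro i j
    rw [hBl]
    by_cases h : i = j
    · simp only [if_pos h]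
      rw [hPq, hb']
      simp only [if_pos h]
    · simp only [if_neg h]
      rw [map_mul, map_mul, hAsa, hKx]
  have hBpos : ∀ i j, Pos (Bl i j) := by
    intro i j
    rw [hBl]
    by_cases h : i = j
    · simp only [if_pos h]; exact hPpos i
    · simp only [if_neg h]; exact ((hb'pos i j).map (cst Λ E)).conj A
  obtain ⟨bb, hbb⟩ : ∃ bb : Λ → J → J → E, bb = fun s i j =>
      if i = j then rowMap (F i) (Z i s) 1 else cmpE (cut ι (t s)) (b' i j) := ⟨_, rfl⟩
  have hBev : ∀ i j s, evL s (Bl i j) = jE E (bb s i j) := by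
    intro i j s
    rw [hBl, hbb]
    by_cases h : i = j
    · simp only [if_pos h]; exact hPev i 1 s
    · simp only [if_neg h]
      rw [jE_apply, cmpE_apply]
      have e1 : evL s (star A * cst Λ E (b' i j) * A)
        = star (A s) * (b' i j : Unitization ℂ E) * A s := rfl
      rw [e1, hAl]
  have hTev : ∀ s, evL s T = jE E (ι (t s)) := fun s => hTl s
  have hCev : ∀ g s, evL s (cst Λ E g) = jE E g := fun g s => rfl
  have hψstar : ∀ j g, ψD j (π (star g)) = star (ψD j (π g)) := fun j g => by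
    rw [map_star, cp_star (hψD j).1]
  have hrstar : ∀ j y, rowMap (F j) (x j) (star y) = star (rowMap (F j) (x j) y) := fun j y =>
    (hR1 (F j) D (x j)).star_map y
  have hrone : ∀ j, star (rowMap (F j) (x j) 1) = rowMap (F j) (x j) 1 := fun j => by
    rw [← hrstar, star_one]
  have hbDsa : ∀ i j, star (bD i j) = bD i j := fun i j => by
    rw [hbr, star_mul, star_star]
  -- norms in the limit
  have nev : ∀ (W : lp (fun _ : Λ => Unitization ℂ E) ∞) (c : ℝ), ‖q W‖ < c →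
      ∀ᶠ s in ℱ, ‖evL s W‖ ≤ c := fun W c hW => (hq.lt W c hW).mono fun s hs => hs.le
  have hε2 : ε / 2 < ε := by linarith
  have jn : ∀ z : E, ‖jE E z‖ = ‖z‖ := fun z => Unitization.norm_inr z
  -- the positivity statements
  have pev : ∀ (S : E) (W : lp (fun _ : Λ => Unitization ℂ E) ∞) (w : Λ → E), Pos S →
      ‖π S‖ ≤ 1 + ε / 2 → Pos W → q W = q A * K S * q A → (∀ s, evL s W = jE E (w s)) →
      ∀ᶠ s in ℱ, Pos ((1 + ε : ℂ) • (1 : Unitization ℂ E)
        - ((ι (t s * t s) : E) : Unitization ℂ E) - ((w s : E) : Unitization ℂ E)) := by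
    intro S W w hS hSn hW hqW hw
    have h1 := hL.est_pos S hS (ε / 2) (by positivity) hSn
    have h2 : Pos (q ((1 + ((ε / 2 : ℝ) : ℂ)) • (1 : lp (fun _ : Λ => Unitization ℂ E) ∞)
        - T * T - W)) := by
      have e1 : q ((1 + ((ε / 2 : ℝ) : ℂ)) • (1 : lp (fun _ : Λ => Unitization ℂ E) ∞)
        - T * T - W) = (1 + ((ε / 2 : ℝ) : ℂ)) • (1 : Q) - q T * q T - q A * K S * q A := by
        rw [← hqW]
        simp only [map_sub, map_mul, map_smul, map_one]
      rw [e1]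
      exact h1
    have h3 : star ((1 + ((ε / 2 : ℝ) : ℂ)) • (1 : lp (fun _ : Λ => Unitization ℂ E) ∞)
        - T * T - W) = (1 + ((ε / 2 : ℝ) : ℂ)) • (1 : lp (fun _ : Λ => Unitization ℂ E) ∞)
        - T * T - W := by
      rw [star_sub, star_sub, star_smul, star_mul, hTsa, hW.sa, star_one]
      congr 3
      rw [star_add, star_one, Complex.star_def, Complex.conj_ofReal]
    filter_upwards [ev_pos hq _ h3 h2 (ε := ε / 2) (by positivity)] with s hs
    have e2 : ((1 + ((ε / 2 : ℝ) : ℂ)) • (1 : lp (fun _ : Λ => Unitization ℂ E) ∞)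
        - T * T - W) s = (1 + ((ε / 2 : ℝ) : ℂ)) • (1 : Unitization ℂ E)
          - evL s T * evL s T - evL s W := rfl
    rw [e2, hTev, hw] at hs
    have e3 : (1 + ε : ℂ) • (1 : Unitization ℂ E)
        - ((ι (t s * t s) : E) : Unitization ℂ E) - ((w s : E) : Unitization ℂ E)
        = (((ε / 2 : ℝ) : ℂ) • (1 : Unitization ℂ E)
          + ((1 + ((ε / 2 : ℝ) : ℂ)) • (1 : Unitization ℂ E)
          - jE E (ι (t s)) * jE E (ι (t s)) - jE E (w s))) := by
      rw [jE_apply, jE_apply, map_mul, Unitization.inr_mul]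
      push_cast
      module
    rw [e3]
    exact hs
  have F1 : ∀ᶠ s in ℱ, Pos ((1 + ε : ℂ) • (1 : Unitization ℂ E)
        - ((ι (t s * t s) : E) : Unitization ℂ E)
        - ((∑ j, rowMap (F j) (Z j s) 1 : E) : Unitization ℂ E)) := by
    refine pev (∑ j, rowMap (F j) (x' j) 1) (∑ j, P j 1) _ (Pos.sum _ fun j _ => hφpos j) ?_
      (Pos.sum _ fun j _ => hPpos j) ?_ ?_
    · simp only [map_sum, hφπ]
      exact hn1
    · simp only [map_sum, hPq, Finset.mul_sum, Finset.sum_mul]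
    · intro s
      simp only [map_sum, hPev]
  have F2 : ∀ᶠ s in ℱ, ∀ i, Pos ((1 + ε : ℂ) • (1 : Unitization ℂ E)
        - ((ι (t s * t s) : E) : Unitization ℂ E)
        - ((∑ j, bb s i j : E) : Unitization ℂ E)) := by
    rw [eventually_all]
    intro i
    refine pev (∑ j, b' i j) (∑ j, Bl i j) _ (Pos.sum _ fun j _ => hb'pos i j) ?_
      (Pos.sum _ fun j _ => hBpos i j) ?_ ?_
    · simp only [map_sum, hb'π]
      exact hbn i
    · simp only [map_sum, hBq, Finset.mul_sum, Finset.sum_mul]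
    · intro s
      simp only [map_sum, hBev]
  have F3 : ∀ᶠ s in ℱ, ∀ g ∈ G, ‖∑ j, rowMap (F j) (Z j s) (ψD j (π g)) + ι (t s) * g * ι (t s)
      - g‖ ≤ ε := by
    rw [eventually_all_finset]
    intro g hg
    have h1 : ‖q (∑ j, P j (ψD j (π g)) + T * cst Λ E g * T - cst Λ E g)‖ < ε := by
      have e1 : q (∑ j, P j (ψD j (π g)) + T * cst Λ E g * T - cst Λ E g)
          = q A * K (∑ j, rowMap (F j) (x' j) (ψD j (π g))) * q A + q T * K g * q T - K g := by
        simp only [map_sum, map_sub, map_add, map_mul, hPq, Finset.mul_sum, Finset.sum_mul, hKx]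
      rw [e1]
      refine lt_of_le_of_lt (hL.est1 _ g) ?_
      rw [map_sub, map_sum]
      simp only [hφπ]
      exact lt_of_le_of_lt (hsum _ (hG1 g hg)) hε2
    filter_upwards [nev _ _ h1] with s hs
    rw [← jn]
    simp only [map_sum, map_sub, map_add, map_mul, hPev, hTev, hCev] at hs ⊢
    exact hs
  have F4 : ∀ᶠ s in ℱ, ∀ g ∈ G, ∀ j, ‖rowMap (F j) (Z j s) (ψD j (π g))
      - rowMap (F j) (Z j s) 1 * g‖ ≤ ε ∧ ‖rowMap (F j) (Z j s) (ψD j (π g))
      - g * rowMap (F j) (Z j s) 1‖ ≤ ε := by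
    rw [eventually_all_finset]
    intro g hg
    rw [eventually_all]
    intro j
    have h1 : ‖q (P j (ψD j (π g)) - P j 1 * cst Λ E g)‖ < ε := by
      rw [map_sub, map_mul, hPq, hPq, hKx]
      refine lt_of_le_of_lt (hL.est2 _ _ g) ?_
      rw [map_sub, map_mul, hφπ, hφπ]
      exact lt_of_le_of_lt (hmul _ (hG1 g hg) j) hε2
    have h2 : ‖q (P j (ψD j (π g)) - cst Λ E g * P j 1)‖ < ε := by
      rw [map_sub, map_mul, hPq, hPq, hKx]
      refine lt_of_le_of_lt (hL.est2' _ _ g) ?_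
      rw [map_sub, map_mul, hφπ, hφπ]
      have h3 := hmul _ (hG2 g hg) j
      rw [hψstar, hrstar, map_star, ← norm_star, star_sub, star_star, star_mul, star_star,
        hrone] at h3
      exact lt_of_le_of_lt h3 hε2
    filter_upwards [nev _ _ h1, nev _ _ h2] with s hs1 hs2
    constructor
    · rw [← jn]
      simp only [map_sub, map_mul, hPev, hCev] at hs1 ⊢
      exact hs1
    · rw [← jn]
      simp only [map_sub, map_mul, hPev, hCev] at hs2 ⊢
      exact hs2
  have F5 : ∀ᶠ s in ℱ, ∀ g ∈ G, ∀ i j, ‖rowMap (F i) (Z i s) 1 * (bb s i j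
      - rowMap (F j) (Z j s) 1) * g‖ ≤ ε ∧ ‖g * (bb s i j - rowMap (F j) (Z j s) 1)
      * rowMap (F i) (Z i s) 1‖ ≤ ε := by
    rw [eventually_all_finset]
    intro g hg
    rw [eventually_all]
    intro i
    rw [eventually_all]
    intro j
    have h1 : ‖q (P i 1 * (Bl i j - P j 1) * cst Λ E g)‖ < ε := by
      rw [map_mul, map_mul, map_sub, hPq, hPq, hBq, hKx]
      refine lt_of_le_of_lt (hL.est3 _ _ _ g) ?_
      rw [map_mul, map_mul, map_sub, hφπ, hφπ, hb'π]
      exact lt_of_le_of_lt (hbg _ (hG1 g hg) i j) hε2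
    have h2 : ‖q (cst Λ E g * (Bl i j - P j 1) * P i 1)‖ < ε := by
      rw [map_mul, map_mul, map_sub, hPq, hPq, hBq, hKx]
      refine lt_of_le_of_lt (hL.est3' _ _ _ g) ?_
      rw [map_mul, map_mul, map_sub, hφπ, hφπ, hb'π]
      have h3 := hbg _ (hG2 g hg) i j
      rw [map_star, ← norm_star, star_mul, star_mul, star_star, star_sub, hrone, hrone,
        hbDsa, ← mul_assoc] at h3
      exact lt_of_le_of_lt h3 hε2
    filter_upwards [nev _ _ h1, nev _ _ h2] with s hs1 hs2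
    constructor
    · rw [← jn]
      simp only [map_sub, map_mul, hPev, hCev, hBev] at hs1 ⊢
      exact hs1
    · rw [← jn]
      simp only [map_sub, map_mul, hPev, hCev, hBev] at hs2 ⊢
      exact hs2
  have F6 : ∀ᶠ s in ℱ, ∀ g ∈ G, ‖ι (t s) * g - g * ι (t s)‖ ≤ η := by
    rw [eventually_all_finset]
    intro g hg
    have h1 : ‖q (T * cst Λ E g - cst Λ E g * T)‖ < η := by
      rw [map_sub, map_mul, map_mul, hKx, hL.TK, sub_self, norm_zero]
      exact hη
    filter_upwards [nev _ _ h1] with s hs1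
    rw [← jn]
    simp only [map_sub, map_mul, hTev, hCev] at hs1 ⊢
    exact hs1
  have hNE : ∀ i, 0 < J_LFT.nE (F i) + 1 := fun i => by
    have := J_LFT.nE_nonneg (F i)
    linarith
  have hηi : ∀ i, 0 < η / (J_LFT.nE (F i) + 1) := fun i => div_pos hη (hNE i)
  have hηb : ∀ (i : J) (y : (F i).alg),
      J_LFT.nE (F i) * (η / (J_LFT.nE (F i) + 1)) * ‖y‖ ≤ η * ‖y‖ := by
    intro i y
    have h1 : J_LFT.nE (F i) * (η / (J_LFT.nE (F i) + 1)) ≤ η := by
      rw [mul_div_assoc', div_le_iff₀ (hNE i)]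
      nlinarith
    exact mul_le_mul_of_nonneg_right h1 (norm_nonneg _)
  have F7 : ∀ᶠ s in ℱ, ∀ i j, ∀ y, ‖bb s i j * rowMap (F i) (Z i s) y
      - rowMap (F i) (Z i s) y * bb s i j‖ ≤ η * ‖y‖ := by
    rw [eventually_all]
    intro i
    rw [eventually_all]
    intro j
    have h2 : ∀ᶠ s in ℱ, ∀ l k m, ‖bb s i j * rowMap (F i) (Z i s) (mu (F i) l k m)
        - rowMap (F i) (Z i s) (mu (F i) l k m) * bb s i j‖ ≤ η / (J_LFT.nE (F i) + 1) := by
      rw [eventually_all]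
      intro l
      rw [eventually_all]
      intro k
      rw [eventually_all]
      intro m
      have h1 : ‖q (Bl i j * P i (mu (F i) l k m) - P i (mu (F i) l k m) * Bl i j)‖
          < η / (J_LFT.nE (F i) + 1) := by
        rw [map_sub, map_mul, map_mul, hPq, hBq, hL.comm, sub_self, norm_zero]
        · exact hηi i
        · rw [map_mul, map_mul, hb'π, hφπ, hbcom]
      filter_upwards [nev _ _ h1] with s hs1
      rw [← jn]
      simp only [map_sub, map_mul, hPev, hBev] at hs1 ⊢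
      exact hs1
    filter_upwards [h2] with s hs y
    exact (comm_bound (rowMap (F i) (Z i s)) (bb s i j) _ (hηi i).le hs y).trans (hηb i y)
  have F8 : ∀ᶠ s in ℱ, ∀ i, ∀ y, ‖ι (t s) * rowMap (F i) (Z i s) y
      - rowMap (F i) (Z i s) y * ι (t s)‖ ≤ η * ‖y‖ := by
    rw [eventually_all]
    intro i
    have h2 : ∀ᶠ s in ℱ, ∀ l k m, ‖ι (t s) * rowMap (F i) (Z i s) (mu (F i) l k m)
        - rowMap (F i) (Z i s) (mu (F i) l k m) * ι (t s)‖ ≤ η / (J_LFT.nE (F i) + 1) := by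
      rw [eventually_all]
      intro l
      rw [eventually_all]
      intro k
      rw [eventually_all]
      intro m
      have h1 : ‖q (T * P i (mu (F i) l k m) - P i (mu (F i) l k m) * T)‖
          < η / (J_LFT.nE (F i) + 1) := by
        rw [map_sub, map_mul, map_mul, hPq, hL.commT, sub_self, norm_zero]
        exact hηi i
      filter_upwards [nev _ _ h1] with s hs1
      rw [← jn]
      simp only [map_sub, map_mul, hPev, hTev] at hs1 ⊢
      exact hs1
    filter_upwards [h2] with s hs y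
    exact (comm_bound (rowMap (F i) (Z i s)) (ι (t s)) _ (hηi i).le hs y).trans (hηb i y)
  have F9 : ∀ᶠ s in ℱ, ∀ i j, ‖ι (t s) * bb s i j - bb s i j * ι (t s)‖ ≤ η := by
    rw [eventually_all]
    intro i
    rw [eventually_all]
    intro j
    have h1 : ‖q (T * Bl i j - Bl i j * T)‖ < η := by
      rw [map_sub, map_mul, map_mul, hBq, hL.commT, sub_self, norm_zero]
      exact hη
    filter_upwards [nev _ _ h1] with s hs1
    rw [← jn]
    simp only [map_sub, map_mul, hBev, hTev] at hs1 ⊢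
    exact hs1
  obtain ⟨s, s1, s2, s3, s4, s5, s6, s7, s8, s9⟩ := (F1.and (F2.and (F3.and (F4.and (F5.and
    (F6.and (F7.and (F8.and F9)))))))).exists
  refine ⟨fun j => rowMap (F j) (Z j s), t s, bb s, fun j => ⟨hR1 (F j) E (Z j s), ?_⟩, ht s,
    ht1 s, ?_, ?_, s1, s2, s3, s4, s5, s6, s7, s8, s9⟩
  · obtain ⟨k', hk'⟩ := hZrow j s
    exact hR2 (F j) E (Z j s) k' hk'
  · intro i j
    rw [hbb]
    by_cases h : i = j
    · simp only [if_pos h]
      exact IsCP.pos (hR1 (F i) E (Z i s)) (one_pos' _)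
    · simp only [if_neg h]
      exact IsCP.pos (isCP_cmpE _) (hb'pos i j)
  · intro i
    rw [hbb]
    simp only [if_true]

end Pool.Agent.Helper7_ND.J_A2
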