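import Pool.Agent.Helper7_ND.Stm7
import Pool.Agent.Helper7_ND.J_A2

/-! # Lifting approximations which are almost multiplications -/

set_option autoImplicit false

open scoped Matrix.Norms.L2Operator ENNReal Matrix
open Pool.Agent.W659.EC
open Filter

noncomputable section

namespace Pool.Agent.Helper7_ND.J_A3

open J_A2

theorem norm_one_le (F : FDA) : ‖(1 : F.alg)‖ ≤ 1 := by
  rcases subsingleton_or_nontrivial F.alg with h | h
  · rw [Subsingleton.elim (1 : F.alg) 0, norm_zero]; exact zero_le_one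
  · exact (CStarRing.norm_one).le

theorem t_A3 (hAP : StAP) (hT1R : StT1R) (hROW : StROW) : StA3 := by
  classical
  intro I E D _ _ _ ι π hext J _ hSysD G ε hε
  obtain ⟨hR1, hR2, hR3⟩ := hROW
  set m : ℝ := (Fintype.card J : ℝ) with hm
  set M : ℝ := 1 + ∑ g ∈ G, ‖g‖ with hM
  have hm0 : 0 ≤ m := Nat.cast_nonneg _
  have hM1 : 1 ≤ M := by
    have : 0 ≤ ∑ g ∈ G, ‖g‖ := Finset.sum_nonneg fun g _ => norm_nonneg g
    linarith
  have hGM : ∀ g ∈ G, ‖g‖ ≤ M := by
    intro g hg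
    have := Finset.single_le_sum (f := fun g : E => ‖g‖) (fun g _ => norm_nonneg g) hg
    linarith
  have hM0 : 0 < M := by linarith
  set δ' : ℝ := ε / (8 * (m + 1) * M) with hδ'
  have hδ'0 : 0 < δ' := by positivity
  have hδM : (m + 1) * (δ' * M) = ε / 8 := by
    rw [hδ']; field_simp
  have hδM1 : δ' * M ≤ ε / 8 := by nlinarith [mul_pos hδ'0 hM0]
  have hδM2 : m * (δ' * M) ≤ ε / 8 := by nlinarith [mul_pos hδ'0 hM0]
  have hδM3 : δ' ≤ ε / 8 := by nlinarith
  obtain ⟨F, ψD, φD, hψD, hφD, hsum0, hmul0⟩ :=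
    hSysD (G.image π ∪ G.image (fun g => π (star g))) (ε / 8) (by positivity)
  choose x k hrow hk happ using fun j => hR3 (F j) D (φD j) δ' hδ'0 (hφD j).1 (hφD j).2
  have hSM : ∀ d ∈ G.image π ∪ G.image (fun g => π (star g)), ‖d‖ ≤ M := by
    intro d hd
    rcases Finset.mem_union.1 hd with h | h
    · obtain ⟨g, hg, rfl⟩ := Finset.mem_image.1 h
      exact (NonUnitalStarAlgHom.norm_apply_le π g).trans (hGM g hg)
    · obtain ⟨g, hg, rfl⟩ := Finset.mem_image.1 h
      refine (NonUnitalStarAlgHom.norm_apply_le π _).trans ?_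
      rw [norm_star]
      exact hGM g hg
  have hd1 : ∀ j d, ‖d‖ ≤ M → ‖rowMap (F j) (x j) (ψD j d) - φD j (ψD j d)‖ ≤ δ' * M := by
    intro j d hd
    refine (happ j _).trans (mul_le_mul_of_nonneg_left ?_ hδ'0.le)
    exact ((hψD j).2 d).trans hd
  have hone1 : ∀ j, ‖rowMap (F j) (x j) 1 - φD j 1‖ ≤ δ' := by
    intro j
    refine (happ j 1).trans ?_
    have := norm_one_le (F j)
    nlinarith
  have hn1 : ∀ j, ‖rowMap (F j) (x j) 1‖ ≤ 1 + ε / 2 := by
    intro j
    have h1 : ‖φD j 1‖ ≤ 1 := ((hφD j).1.2 1).trans (norm_one_le _)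
    have h2 := norm_add_le (rowMap (F j) (x j) 1 - φD j 1) (φD j 1)
    rw [sub_add_cancel] at h2
    linarith [hone1 j]
  have hsum : ∀ d ∈ G.image π ∪ G.image (fun g => π (star g)),
      ‖∑ j, rowMap (F j) (x j) (ψD j d) - d‖ ≤ ε / 2 := by
    intro d hd
    have h1 : ‖∑ j, (rowMap (F j) (x j) (ψD j d) - φD j (ψD j d))‖ ≤ m * (δ' * M) := by
      refine (norm_sum_le _ _).trans ?_
      refine (Finset.sum_le_sum fun j _ => hd1 j d (hSM d hd)).trans ?_
      rw [Finset.sum_const, Finset.card_univ, nsmul_eq_mul]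
    have h2 := norm_add_le (∑ j, (rowMap (F j) (x j) (ψD j d) - φD j (ψD j d)))
      (∑ j, φD j (ψD j d) - d)
    rw [Finset.sum_sub_distrib, sub_add_sub_cancel, ← Finset.sum_sub_distrib] at h2
    linarith [hsum0 d hd]
  have hmul : ∀ d ∈ G.image π ∪ G.image (fun g => π (star g)), ∀ j,
      ‖rowMap (F j) (x j) (ψD j d) - rowMap (F j) (x j) 1 * d‖ ≤ ε / 2 := by
    intro d hd j
    have h1 : ‖(φD j 1 - rowMap (F j) (x j) 1) * d‖ ≤ δ' * M := by
      refine (norm_mul_le _ _).trans ?_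
      rw [norm_sub_rev]
      exact mul_le_mul (hone1 j) (hSM d hd) (norm_nonneg _) hδ'0.le
    have h2 := norm_add_le (rowMap (F j) (x j) (ψD j d) - φD j (ψD j d))
      (φD j (ψD j d) - φD j 1 * d)
    rw [sub_add_sub_cancel] at h2
    have h3 := norm_add_le (rowMap (F j) (x j) (ψD j d) - φD j 1 * d)
      ((φD j 1 - rowMap (F j) (x j) 1) * d)
    rw [sub_mul, sub_add_sub_cancel, ← sub_mul] at h3
    linarith [hd1 j d (hSM d hd), hmul0 d hd j]
  have hπcpc : IsCPC (π : E →ₗ[ℂ] D) := isCPC_hom π _ (fun a => rfl)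
  refine ⟨F, fun j => (ψD j) ∘ₗ (π : E →ₗ[ℂ] D), fun j => (hψD j).comp hπcpc, ?_⟩
  intro η hη
  have hG1 : ∀ g ∈ G, π g ∈ G.image π ∪ G.image (fun g => π (star g)) := fun g hg =>
    Finset.mem_union_left _ (Finset.mem_image_of_mem _ hg)
  have hG2 : ∀ g ∈ G, π (star g) ∈ G.image π ∪ G.image (fun g => π (star g)) := fun g hg =>
    Finset.mem_union_right _ (Finset.mem_image.2 ⟨g, hg, rfl⟩)
  -- lifts
  choose x' hx' using fun j l i => hext.surj (x j l i)
  choose kr hkr using hk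
  choose kr' hkr' using fun j l => hext.surj (kr j l)
  have hφπ : ∀ j y, π (rowMap (F j) (x' j) y) = rowMap (F j) (x j) y := fun j y =>
    J_LFT.rowMap_lift π (F j) (x' j) (x j) (hx' j) y
  have one_pos' : ∀ F : FDA, Pos (1 : F.alg) := fun F => ⟨1, by simp⟩
  have hφpos : ∀ j, Pos (rowMap (F j) (x' j) 1) := fun j =>
    IsCP.pos (hR1 (F j) E (x' j)) (one_pos' _)
  -- the limit
  obtain ⟨Λ, ℱ, e, t, Q, hQ, q, A, T, hne, he, he1, he0, hq, ht, ht1, hasa, hcn, hAl, hTl, hL⟩ :=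
    exists_lim hAP ι π hext
  have hrows := fun j => exists_rows hT1R ι π ℱ e t q A T he he1 he0 hq hasa hcn hAl hL (F j)
    (x' j) (kr' j)
    (fun l i => by
      rw [map_mul, map_mul, map_star, map_star, hx', hkr', ← hkr]
      exact sub_eq_zero.1 (norm_le_zero_iff.1 ((hrow j).1 l i)))
    (fun l i i' h => by
      rw [map_mul, map_star, hx', hx']
      exact norm_le_zero_iff.1 ((hrow j).2.1 l i i' h))
    (fun l l' i i' h => by
      rw [map_mul, map_star, hx', hx']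
      exact norm_le_zero_iff.1 ((hrow j).2.2 l l' i i' h))
  choose Z hZrow hZbd hZlim using hrows
  choose C hC using hZbd
  obtain ⟨K, hK⟩ : ∃ K : E →⋆ₙₐ[ℂ] Q,
    K = (q : lp (fun _ : Λ => Unitization ℂ E) ∞ →⋆ₙₐ[ℂ] Q).comp (cst Λ E) := ⟨_, rfl⟩
  rw [← hK] at hL
  have hKx : ∀ z, q (cst Λ E z) = K z := fun z => by rw [hK]; rfl
  obtain ⟨Zl, hZl⟩ : ∃ Zl : ∀ j, ∀ l : (F j).ι, (F j).n l → lp (fun _ : Λ => Unitization ℂ E) ∞,
      ∀ j l i s, Zl j l i s = ((Z j s l i : E) : Unitization ℂ E) :=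
    ⟨fun j l i => mkL (fun s => ((Z j s l i : E) : Unitization ℂ E))
      ⟨C j, fun s => by rw [Unitization.norm_inr]; exact hC j s l i⟩, fun j l i s => rfl⟩
  have hqZ : ∀ j l i, q (Zl j l i) = q A * K (x' j l i) := by
    intro j l i
    rw [← hKx, ← map_mul]
    refine hq.eq fun δ hδ => ?_
    filter_upwards [hZlim j l i δ hδ] with s hs
    have e1 : (A * cst Λ E (x' j l i)) s = A s * (x' j l i : Unitization ℂ E) := rfl
    rw [e1, hZl, hAl]
    exact hs
  -- the maps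
  obtain ⟨P, hP⟩ : ∃ P : ∀ j, (F j).alg → lp (fun _ : Λ => Unitization ℂ E) ∞,
      P = fun j y => rowMap (F j) (Zl j) y := ⟨_, rfl⟩
  have hPev : ∀ j y s, evL s (P j y) = jE E (rowMap (F j) (Z j s) y) := by
    intro j y s
    rw [hP]
    have e1 := J_LFT.rowMap_lift
      ((evL s : lp (fun _ : Λ => Unitization ℂ E) ∞ →⋆ₐ[ℂ] Unitization ℂ E) :
        lp (fun _ : Λ => Unitization ℂ E) ∞ →⋆ₙₐ[ℂ] Unitization ℂ E) (F j) (Zl j)
      (fun l i => ((Z j s l i : E) : Unitization ℂ E)) (fun l i => hZl j l i s) y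
    have e2 := J_LFT.rowMap_lift (jE E) (F j) (Z j s)
      (fun l i => ((Z j s l i : E) : Unitization ℂ E)) (fun l i => rfl) y
    exact e1.trans e2.symm
  have hPq : ∀ j y, q (P j y) = q A * K (rowMap (F j) (x' j) y) * q A := by
    intro j y
    rw [hP]
    have e1 := J_LFT.rowMap_lift
      (q : lp (fun _ : Λ => Unitization ℂ E) ∞ →⋆ₙₐ[ℂ] Q) (F j) (Zl j)
      (fun l i => q A * K (x' j l i)) (fun l i => hqZ j l i) y
    have e2 := rowMap_conj K (q A) hL.asa (F j) (x' j) y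
    exact e1.trans e2
  have hPpos : ∀ j, Pos (P j 1) := fun j => by
    rw [hP]
    exact IsCP.pos (hR1 (F j) _ (Zl j)) (one_pos' _)
  have hAsa : star A = A := lpExt fun s => by
    have e1 : (star A) s = star (A s) := rfl
    rw [e1, hAl, hasa]
  have hTsa : star T = T := lpExt fun s => by
    have e1 : (star T) s = star (T s) := rfl
    rw [e1, hTl, ← Unitization.inr_star, ← map_star, (ht s).sa]
  have hTev : ∀ s, evL s T = jE E (ι (t s)) := fun s => hTl s
  have hCev : ∀ g s, evL s (cst Λ E g) = jE E g := fun g s => rfl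
  have hψstar : ∀ j g, ψD j (π (star g)) = star (ψD j (π g)) := fun j g => by
    rw [map_star, cp_star (hψD j).1]
  have hrstar : ∀ j y, rowMap (F j) (x j) (star y) = star (rowMap (F j) (x j) y) := fun j y =>
    (hR1 (F j) D (x j)).star_map y
  have hrone : ∀ j, star (rowMap (F j) (x j) 1) = rowMap (F j) (x j) 1 := fun j => by
    rw [← hrstar, star_one]
  -- norms in the limit
  have nev : ∀ (W : lp (fun _ : Λ => Unitization ℂ E) ∞) (c : ℝ), ‖q W‖ < c →
      ∀ᶠ s in ℱ, ‖evL s W‖ ≤ c := fun W c hW => (hq.lt W c hW).mono fun s hs => hs.le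
  have hε2 : ε / 2 < ε := by linarith
  have jn : ∀ z : E, ‖jE E z‖ = ‖z‖ := fun z => Unitization.norm_inr z
  -- the positivity statements
  have pev : ∀ (S : E) (W : lp (fun _ : Λ => Unitization ℂ E) ∞) (w : Λ → E), Pos S →
      ‖π S‖ ≤ 1 + ε / 2 → Pos W → q W = q A * K S * q A → (∀ s, evL s W = jE E (w s)) →
      ∀ᶠ s in ℱ, Pos ((1 + ε : ℂ) • (1 : Unitization ℂ E)
        - ((ι (t s * t s) : E) : Unitization ℂ E) - ((w s : E) : Unitization ℂ E)) := by
    intro S W w hS hSn hW hqW hw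
    have h1 := hL.est_pos S hS (ε / 2) (by positivity) hSn
    have h2 : Pos (q ((1 + ((ε / 2 : ℝ) : ℂ)) • (1 : lp (fun _ : Λ => Unitization ℂ E) ∞)
        - T * T - W)) := by
      have e1 : q ((1 + ((ε / 2 : ℝ) : ℂ)) • (1 : lp (fun _ : Λ => Unitization ℂ E) ∞)
        - T * T - W) = (1 + ((ε / 2 : ℝ) : ℂ)) • (1 : Q) - q T * q T - q A * K S * q A := by
        rw [← hqW]
        simp only [map_sub, map_mul, map_smul, map_one]
      rw [e1]
      exact h1
    have h3 : star ((1 + ((ε / 2 : ℝ) : ℂ)) • (1 : lp (fun _ : Λ => Unitization ℂ E) ∞)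
        - T * T - W) = (1 + ((ε / 2 : ℝ) : ℂ)) • (1 : lp (fun _ : Λ => Unitization ℂ E) ∞)
        - T * T - W := by
      rw [star_sub, star_sub, star_smul, star_mul, hTsa, hW.sa, star_one]
      congr 3
      rw [star_add, star_one, Complex.star_def, Complex.conj_ofReal]
    filter_upwards [ev_pos hq _ h3 h2 (ε := ε / 2) (by positivity)] with s hs
    have e2 : ((1 + ((ε / 2 : ℝ) : ℂ)) • (1 : lp (fun _ : Λ => Unitization ℂ E) ∞)
        - T * T - W) s = (1 + ((ε / 2 : ℝ) : ℂ)) • (1 : Unitization ℂ E)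
          - evL s T * evL s T - evL s W := rfl
    rw [e2, hTev, hw] at hs
    have e3 : (1 + ε : ℂ) • (1 : Unitization ℂ E)
        - ((ι (t s * t s) : E) : Unitization ℂ E) - ((w s : E) : Unitization ℂ E)
        = (((ε / 2 : ℝ) : ℂ) • (1 : Unitization ℂ E)
          + ((1 + ((ε / 2 : ℝ) : ℂ)) • (1 : Unitization ℂ E)
          - jE E (ι (t s)) * jE E (ι (t s)) - jE E (w s))) := by
      rw [jE_apply, jE_apply, map_mul, Unitization.inr_mul]
      push_cast
      module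
    rw [e3]
    exact hs
  have F1 : ∀ᶠ s in ℱ, ∀ j, Pos ((1 + ε : ℂ) • (1 : Unitization ℂ E)
        - ((ι (t s * t s) : E) : Unitization ℂ E)
        - ((rowMap (F j) (Z j s) 1 : E) : Unitization ℂ E)) := by
    rw [eventually_all]
    intro j
    refine pev (rowMap (F j) (x' j) 1) (P j 1) _ (hφpos j) ?_ (hPpos j) (hPq j 1) ?_
    · rw [hφπ]
      exact hn1 j
    · intro s
      exact hPev j 1 s
  have F3 : ∀ᶠ s in ℱ, ∀ g ∈ G, ‖∑ j, rowMap (F j) (Z j s) (ψD j (π g)) + ι (t s) * g * ι (t s)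
      - g‖ ≤ ε := by
    rw [eventually_all_finset]
    intro g hg
    have h1 : ‖q (∑ j, P j (ψD j (π g)) + T * cst Λ E g * T - cst Λ E g)‖ < ε := by
      have e1 : q (∑ j, P j (ψD j (π g)) + T * cst Λ E g * T - cst Λ E g)
          = q A * K (∑ j, rowMap (F j) (x' j) (ψD j (π g))) * q A + q T * K g * q T - K g := by
        simp only [map_sum, map_sub, map_add, map_mul, hPq, Finset.mul_sum, Finset.sum_mul, hKx]
      rw [e1]
      refine lt_of_le_of_lt (hL.est1 _ g) ?_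
      rw [map_sub, map_sum]
      simp only [hφπ]
      exact lt_of_le_of_lt (hsum _ (hG1 g hg)) hε2
    filter_upwards [nev _ _ h1] with s hs
    rw [← jn]
    simp only [map_sum, map_sub, map_add, map_mul, hPev, hTev, hCev] at hs ⊢
    exact hs
  have F4 : ∀ᶠ s in ℱ, ∀ g ∈ G, ∀ j, ‖rowMap (F j) (Z j s) (ψD j (π g))
      - rowMap (F j) (Z j s) 1 * g‖ ≤ ε ∧ ‖rowMap (F j) (Z j s) (ψD j (π g))
      - g * rowMap (F j) (Z j s) 1‖ ≤ ε := by
    rw [eventually_all_finset]
    intro g hg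
    rw [eventually_all]
    intro j
    have h1 : ‖q (P j (ψD j (π g)) - P j 1 * cst Λ E g)‖ < ε := by
      rw [map_sub, map_mul, hPq, hPq, hKx]
      refine lt_of_le_of_lt (hL.est2 _ _ g) ?_
      rw [map_sub, map_mul, hφπ, hφπ]
      exact lt_of_le_of_lt (hmul _ (hG1 g hg) j) hε2
    have h2 : ‖q (P j (ψD j (π g)) - cst Λ E g * P j 1)‖ < ε := by
      rw [map_sub, map_mul, hPq, hPq, hKx]
      refine lt_of_le_of_lt (hL.est2' _ _ g) ?_
      rw [map_sub, map_mul, hφπ, hφπ]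
      have h3 := hmul _ (hG2 g hg) j
      rw [hψstar, hrstar, map_star, ← norm_star, star_sub, star_star, star_mul, star_star,
        hrone] at h3
      exact lt_of_le_of_lt h3 hε2
    filter_upwards [nev _ _ h1, nev _ _ h2] with s hs1 hs2
    constructor
    · rw [← jn]
      simp only [map_sub, map_mul, hPev, hCev] at hs1 ⊢
      exact hs1
    · rw [← jn]
      simp only [map_sub, map_mul, hPev, hCev] at hs2 ⊢
      exact hs2
  have F6 : ∀ᶠ s in ℱ, ∀ g ∈ G, ‖ι (t s) * g - g * ι (t s)‖ ≤ η := by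
    rw [eventually_all_finset]
    intro g hg
    have h1 : ‖q (T * cst Λ E g - cst Λ E g * T)‖ < η := by
      rw [map_sub, map_mul, map_mul, hKx, hL.TK, sub_self, norm_zero]
      exact hη
    filter_upwards [nev _ _ h1] with s hs1
    rw [← jn]
    simp only [map_sub, map_mul, hTev, hCev] at hs1 ⊢
    exact hs1
  have hNE : ∀ i, 0 < J_LFT.nE (F i) + 1 := fun i => by
    have := J_LFT.nE_nonneg (F i)
    linarith
  have hηi : ∀ i, 0 < η / (J_LFT.nE (F i) + 1) := fun i => div_pos hη (hNE i)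
  have hηb : ∀ (i : J) (y : (F i).alg),
      J_LFT.nE (F i) * (η / (J_LFT.nE (F i) + 1)) * ‖y‖ ≤ η * ‖y‖ := by
    intro i y
    have h1 : J_LFT.nE (F i) * (η / (J_LFT.nE (F i) + 1)) ≤ η := by
      rw [mul_div_assoc', div_le_iff₀ (hNE i)]
      nlinarith
    exact mul_le_mul_of_nonneg_right h1 (norm_nonneg _)
  have F8 : ∀ᶠ s in ℱ, ∀ i, ∀ y, ‖ι (t s) * rowMap (F i) (Z i s) y
      - rowMap (F i) (Z i s) y * ι (t s)‖ ≤ η * ‖y‖ := by
    rw [eventually_all]
    intro i
    have h2 : ∀ᶠ s in ℱ, ∀ l k m, ‖ι (t s) * rowMap (F i) (Z i s) (mu (F i) l k m)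
        - rowMap (F i) (Z i s) (mu (F i) l k m) * ι (t s)‖ ≤ η / (J_LFT.nE (F i) + 1) := by
      rw [eventually_all]
      intro l
      rw [eventually_all]
      intro k
      rw [eventually_all]
      intro m
      have h1 : ‖q (T * P i (mu (F i) l k m) - P i (mu (F i) l k m) * T)‖
          < η / (J_LFT.nE (F i) + 1) := by
        rw [map_sub, map_mul, map_mul, hPq, hL.commT, sub_self, norm_zero]
        exact hηi i
      filter_upwards [nev _ _ h1] with s hs1
      rw [← jn]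
      simp only [map_sub, map_mul, hPev, hTev] at hs1 ⊢
      exact hs1
    filter_upwards [h2] with s hs y
    exact (comm_bound (rowMap (F i) (Z i s)) (ι (t s)) _ (hηi i).le hs y).trans (hηb i y)
  obtain ⟨s, s1, s3, s4, s6, s8⟩ := (F1.and (F3.and (F4.and (F6.and F8)))).exists
  refine ⟨fun j => rowMap (F j) (Z j s), t s, fun j => ⟨hR1 (F j) E (Z j s), ?_⟩, ht s,
    ht1 s, s1, s3, s4, s6, s8⟩
  obtain ⟨k', hk'⟩ := hZrow j s
  exact hR2 (F j) E (Z j s) k' hk'

end Pool.Agent.Helper7_ND.J_A3
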