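import Pool.Agent.Helper7_ND.Stm5
import Pool.Agent.Helper7_ND.Rp
import Pool.Agent.Helper7_ND.J_ROW
import Pool.Agent.Helper7_ND.J_T1R

/-! # Algebras with a full commutative hereditary subalgebra (helper348, job ABL of helper7)

`A` is approximated from a finite row `y` of elements of `A β(B)` with `e = ∑ y_p y_p^* ≤ 1`. For a
partition of unity `φ_l` of `B` with characters `χ_l` the matrix `z = (y_p^* y_q)` is frozen at
`χ_l`, and `V_l` is an isometry onto the spectral subspace of `z` at `χ_l` for eigenvalues near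
`1`. The rows are `∑_p (V_l)_{p,i} y_p φ_l^{1/2}`, corrected with the perturbation lemma T1B. -/

set_option autoImplicit false
set_option linter.unusedSectionVars false
set_option linter.unusedVariables false

open scoped Matrix.Norms.L2Operator ENNReal Matrix
open Pool.Agent.W659.EC

noncomputable section

namespace Pool.Agent.Helper7_ND.J_ABL

section general

variable {A : Type} [NonUnitalCStarAlgebra A]

/-- `y f y^* ≤ ‖f‖ y y^*` -/
theorem conj_le (y f : A) (hf : Pos f) (c : ℝ) (hc : ‖f‖ ≤ c) :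
    Pos ((c : ℂ) • (y * star y) - y * f * star y) := by
  let _ := CStarAlgebra.spectralOrder A
  let _ := CStarAlgebra.spectralOrderedRing A
  rw [pos_iff, sub_nonneg]
  have h1 := CStarAlgebra.star_right_conjugate_le_norm_smul (a := y) (b := f)
    (IsSelfAdjoint.of_nonneg ((pos_iff f).1 hf))
  refine h1.trans ?_
  have h2 : ((c : ℂ) • (y * star y) : A) = c • (y * star y) := rfl
  rw [h2]
  exact smul_le_smul_of_nonneg_right hc (mul_star_self_nonneg y)

theorem pos_mul_star (a : A) : Pos (a * star a) := ⟨star a, by rw [star_star]⟩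

/-- norms of sums `∑ a_i a_i^*` with `a_i^* a_j = 0` -/
theorem norm_sum_star {ι : Type} [Fintype ι] (a : ι → A) (c : ℝ) (hc0 : 0 ≤ c)
    (h : ∀ i j, i ≠ j → star (a i) * a j = 0) (hc : ∀ i, ‖star (a i) * a i‖ ≤ c) :
    ‖∑ i, a i * star (a i)‖ ≤ c := by
  obtain ⟨D, hD⟩ : ∃ D, D = ∑ i, a i * star (a i) := ⟨_, rfl⟩
  rw [← hD]
  have hsa : star D = D := by
    rw [hD, star_sum]
    exact Finset.sum_congr rfl fun i _ => by rw [star_mul, star_star]
  have hDD : D * D = ∑ i, a i * (star (a i) * a i) * star (a i) := by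
    conv_lhs => rw [hD]
    rw [Finset.sum_mul_sum]
    refine Finset.sum_congr rfl fun i _ => ?_
    rw [Finset.sum_eq_single i]
    · simp only [mul_assoc]
    · intro j _ hj
      have : a i * star (a i) * (a j * star (a j)) = a i * (star (a i) * a j) * star (a j) := by
        simp only [mul_assoc]
      rw [this, h i j (Ne.symm hj), mul_zero, zero_mul]
    · intro hi; exact absurd (Finset.mem_univ i) hi
  have h1 : Pos ((c : ℂ) • D - D * D) := by
    rw [hDD, hD, Finset.smul_sum, ← Finset.sum_sub_distrib]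
    exact Pos.sum _ fun i _ => conj_le _ _ ⟨a i, rfl⟩ _ (hc i)
  have h2 : Pos (D * D) := ⟨D, by rw [hsa]⟩
  have h3 := h2.norm_le h1
  have h4 : ‖D * D‖ = ‖D‖ * ‖D‖ := by
    conv_lhs => rw [← hsa]
    rw [hsa]
    conv_lhs => 
      enter [1, 1]
      rw [← hsa]
    exact CStarRing.norm_star_mul_self
  rw [h4, norm_smul, Complex.norm_real, Real.norm_of_nonneg hc0] at h3
  by_contra hcon
  push Not at hcon
  have h5 : 0 < ‖D‖ := lt_of_le_of_lt hc0 hcon
  nlinarith

/-- norms of sums of orthogonal elements -/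
theorem norm_sum_orth {ι : Type} [Fintype ι] (a : ι → A) (c : ℝ) (hc0 : 0 ≤ c)
    (h : ∀ i j, i ≠ j → star (a i) * a j = 0) (h' : ∀ i j, i ≠ j → a i * star (a j) = 0)
    (hc : ∀ i, ‖a i‖ ≤ c) : ‖∑ i, a i‖ ≤ c := by
  have h1 : ‖∑ i, star (a i) * star (star (a i))‖ ≤ c ^ 2 := by
    refine norm_sum_star (fun i => star (a i)) (c ^ 2) (by positivity) ?_ ?_
    · intro i j hij
      rw [star_star]
      exact h' i j hij
    · intro i
      rw [star_star, CStarRing.norm_self_mul_star, ← pow_two]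
      exact pow_le_pow_left₀ (norm_nonneg _) (hc i) 2
  have h2 : star (∑ i, a i) * (∑ i, a i) = ∑ i, star (a i) * star (star (a i)) := by
    rw [star_sum, Finset.sum_mul_sum]
    refine Finset.sum_congr rfl fun i _ => ?_
    rw [Finset.sum_eq_single i]
    · rw [star_star]
    · intro j _ hj
      exact h i j (Ne.symm hj)
    · intro hi; exact absurd (Finset.mem_univ i) hi
  have h3 : ‖∑ i, a i‖ ^ 2 ≤ c ^ 2 := by
    rw [pow_two, ← CStarRing.norm_star_mul_self, h2]
    exact h1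
  exact (sq_le_sq₀ (norm_nonneg _) hc0).1 h3

end general

section units

variable {A B : Type} [NonUnitalCStarAlgebra A] [NonUnitalCStarAlgebra B]

/-- the right ideal generated by a finite set -/
def RW (W : Finset A) (g : A) : Prop := ∃ c : A → A, g = ∑ w ∈ W, w * c w

theorem RW.mono {W W' : Finset A} (h : W ⊆ W') {g : A} (hg : RW W g) : RW W' g := by
  classical
  obtain ⟨c, hc⟩ := hg
  refine ⟨fun w => if w ∈ W then c w else 0, ?_⟩
  rw [hc]
  have h1 : ∑ w ∈ W, w * c w = ∑ w ∈ W, w * (if w ∈ W then c w else 0) :=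
    Finset.sum_congr rfl fun w hw => by rw [if_pos hw]
  rw [h1]
  refine Finset.sum_subset h fun w _ hw => ?_
  rw [if_neg hw, mul_zero]

theorem RW.add {W : Finset A} {g g' : A} (hg : RW W g) (hg' : RW W g') : RW W (g + g') := by
  obtain ⟨c, hc⟩ := hg
  obtain ⟨c', hc'⟩ := hg'
  refine ⟨fun w => c w + c' w, ?_⟩
  rw [hc, hc', ← Finset.sum_add_distrib]
  exact Finset.sum_congr rfl fun w _ => (mul_add _ _ _).symm

theorem RW.smul {W : Finset A} {g : A} (r : ℂ) (hg : RW W g) : RW W (r • g) := by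
  obtain ⟨c, hc⟩ := hg
  refine ⟨fun w => r • c w, ?_⟩
  rw [hc, Finset.smul_sum]
  exact Finset.sum_congr rfl fun w _ => (mul_smul_comm _ _ _).symm

/-- elements of `A β(B)` -/
def AB (β : B →⋆ₙₐ[ℂ] A) (w : A) : Prop := ∃ (a : A) (b : B), w = a * β b

theorem span_RW (β : B →⋆ₙₐ[ℂ] A) (g : A)
    (hg : g ∈ Submodule.span ℂ {z : A | ∃ (x y : A) (b : B), z = x * β b * y}) :
    ∃ W : Finset A, (∀ w ∈ W, AB β w) ∧ RW W g ∧ RW W (star g) := by
  classical
  induction hg using Submodule.span_induction with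
  | mem g hg =>
    obtain ⟨x, y, b, rfl⟩ := hg
    refine ⟨{x * β b} ∪ {star y * β (star b)}, ?_, ?_, ?_⟩
    · intro w hw
      rw [Finset.mem_union, Finset.mem_singleton, Finset.mem_singleton] at hw
      rcases hw with rfl | rfl
      · exact ⟨_, _, rfl⟩
      · exact ⟨_, _, rfl⟩
    · refine RW.mono Finset.subset_union_left ⟨fun _ => y, ?_⟩
      rw [Finset.sum_singleton]
    · refine RW.mono Finset.subset_union_right ⟨fun _ => star x, ?_⟩
      rw [Finset.sum_singleton, star_mul, star_mul, map_star]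
      simp only [mul_assoc]
  | zero =>
    refine ⟨∅, ?_, ⟨fun _ => 0, ?_⟩, ⟨fun _ => 0, ?_⟩⟩
    · intro w hw; exact absurd hw (Finset.notMem_empty _)
    · simp
    · simp
  | add x y _ _ hx hy =>
    obtain ⟨W, h1, h2, h3⟩ := hx
    obtain ⟨W', h1', h2', h3'⟩ := hy
    refine ⟨W ∪ W', ?_, ?_, ?_⟩
    · intro w hw
      rw [Finset.mem_union] at hw
      rcases hw with hw | hw
      · exact h1 w hw
      · exact h1' w hw
    · exact (h2.mono Finset.subset_union_left).add (h2'.mono Finset.subset_union_right)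
    · rw [star_add]
      exact (h3.mono Finset.subset_union_left).add (h3'.mono Finset.subset_union_right)
  | smul a x _ hx =>
    obtain ⟨W, h1, h2, h3⟩ := hx
    refine ⟨W, h1, h2.smul a, ?_⟩
    rw [star_smul]
    exact h3.smul _

/-- approximation of finitely many elements -/
theorem exists_W (β : B →⋆ₙₐ[ℂ] A)
    (hβ : ∀ a : A, a ∈ closure (Submodule.span ℂ {z : A | ∃ (x y : A) (b : B),
      z = x * β b * y} : Set A)) (G : Finset A) (ε : ℝ) (hε : 0 < ε) :
    ∃ (W : Finset A) (γ : A → A), (∀ w ∈ W, AB β w) ∧ W.Nonempty ∧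
      ∀ g ∈ G, ‖g - γ g‖ ≤ ε ∧ RW W (γ g) ∧ RW W (star (γ g)) := by
  classical
  have h1 : ∀ g : A, ∃ g' : A, ‖g - g'‖ ≤ ε ∧ ∃ W : Finset A, (∀ w ∈ W, AB β w) ∧ RW W g' ∧
      RW W (star g') := by
    intro g
    obtain ⟨g', hg', hd⟩ := Metric.mem_closure_iff.1 (hβ g) ε hε
    refine ⟨g', ?_, span_RW β g' hg'⟩
    rw [← dist_eq_norm]
    exact hd.le
  choose γ hγ W hW hW1 hW2 using h1
  refine ⟨insert 0 (G.biUnion W), γ, ?_, Finset.insert_nonempty _ _, ?_⟩
  · intro w hw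
    rw [Finset.mem_insert, Finset.mem_biUnion] at hw
    rcases hw with rfl | ⟨g, _, hg⟩
    · exact ⟨0, 0, by simp⟩
    · exact hW g w hg
  · intro g hg
    have hsub : W g ⊆ insert 0 (G.biUnion W) :=
      (Finset.subset_biUnion_of_mem W hg).trans (Finset.subset_insert _ _)
    exact ⟨hγ g, (hW1 g).mono hsub, (hW2 g).mono hsub⟩

theorem G_le {ν s : ℝ} (hν : 0 < ν) (hs : 0 ≤ s) :
    0 ≤ J_ROW.ff ν s * J_ROW.ff ν s * s ∧ J_ROW.ff ν s * J_ROW.ff ν s * s ≤ 1 := by
  have h1 : J_ROW.ff ν s * J_ROW.ff ν s * s = (s / (s + ν)) ^ 2 := by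
    unfold J_ROW.ff
    rw [abs_of_nonneg hs, div_mul_div_comm, Real.mul_self_sqrt hs]
    field_simp
  rw [h1]
  refine ⟨by positivity, ?_⟩
  have h2 : s / (s + ν) ≤ 1 := by
    rw [div_le_one (by positivity)]
    linarith
  exact pow_le_one₀ (by positivity) h2

/-- approximate units from rows -/
theorem exists_y (β : B →⋆ₙₐ[ℂ] A) (W : Finset A) (hW : ∀ w ∈ W, AB β w)
    (G : Finset A) (hG : ∀ g ∈ G, RW W g) (ε : ℝ) (hε : 0 < ε) :
    ∃ y : W → A, (∀ p, AB β (y p)) ∧ ‖∑ p, y p * star (y p)‖ ≤ 1 ∧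
      ∀ g ∈ G, ‖(∑ p, y p * star (y p)) * g - g‖ ≤ ε := by
  classical
  -- constants
  choose! c hc using hG
  obtain ⟨C, hC0, hC⟩ : ∃ C : ℝ, 0 < C ∧ ∀ g ∈ G, ∑ w ∈ W, ‖c g w‖ ≤ C := by
    refine ⟨∑ g ∈ G, ∑ w ∈ W, ‖c g w‖ + 1, by positivity, fun g hg => ?_⟩
    have := Finset.single_le_sum (f := fun g => ∑ w ∈ W, ‖c g w‖)
      (fun g _ => by positivity) hg
    linarith
  obtain ⟨ν, hν0, hν⟩ : ∃ ν : ℝ, 0 < ν ∧ Real.sqrt (2 * ν) * C ≤ ε := by
    refine ⟨(ε / C) ^ 2 / 2, by positivity, ?_⟩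
    rw [mul_div_cancel₀ _ (two_ne_zero' ℝ), Real.sqrt_sq (by positivity),
      div_mul_cancel₀ _ hC0.ne']
  let _ := CStarAlgebra.spectralOrder A
  let _ := CStarAlgebra.spectralOrderedRing A
  obtain ⟨h, hh⟩ : ∃ h : A, h = ∑ w ∈ W, w * star w := ⟨_, rfl⟩
  have h0 : 0 ≤ h := by
    rw [hh]; exact Finset.sum_nonneg fun w _ => mul_star_self_nonneg w
  have hsa : IsSelfAdjoint h := IsSelfAdjoint.of_nonneg h0
  have hpos : ∀ s ∈ quasispectrum ℝ h, 0 ≤ s := fun s hs =>
    quasispectrum_nonneg_of_nonneg h h0 s hs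
  have cm : ∀ f g : ℝ → ℝ, Continuous f → Continuous g → f 0 = 0 → g 0 = 0 →
      cfcₙ f h * cfcₙ g h = cfcₙ (fun s => f s * g s) h := fun f g hf hg hf0 hg0 =>
    (cfcₙ_mul f g h hf.continuousOn hf0 hg.continuousOn hg0).symm
  have ca : ∀ f g : ℝ → ℝ, Continuous f → Continuous g → f 0 = 0 → g 0 = 0 →
      cfcₙ f h + cfcₙ g h = cfcₙ (fun s => f s + g s) h := fun f g hf hg hf0 hg0 =>
    (cfcₙ_add f g h hf.continuousOn hf0 hg.continuousOn hg0).symm
  have cs : ∀ f g : ℝ → ℝ, Continuous f → Continuous g → f 0 = 0 → g 0 = 0 →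
      cfcₙ f h - cfcₙ g h = cfcₙ (fun s => f s - g s) h := fun f g hf hg hf0 hg0 =>
    (cfcₙ_sub f g h hf.continuousOn hf0 hg.continuousOn hg0).symm
  have hid : cfcₙ (fun s : ℝ => s) h = h := cfcₙ_id' ℝ h
  have hf := J_ROW.ff_cont hν0
  have hf0 := J_ROW.ff_zero ν
  obtain ⟨u, hu⟩ : ∃ u, u = cfcₙ (J_ROW.ff ν) h := ⟨_, rfl⟩
  have husa : star u = u := by
    have : IsSelfAdjoint u := by rw [hu]; exact IsSelfAdjoint.cfcₙ
    exact this.star_eq
  obtain ⟨G', hG'⟩ : ∃ G' : ℝ → ℝ, G' = fun s => J_ROW.ff ν s * J_ROW.ff ν s * s := ⟨_, rfl⟩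
  have hGc : Continuous G' := by rw [hG']; exact (hf.mul hf).mul continuous_id
  have hG0 : G' 0 = 0 := by rw [hG']; simp
  obtain ⟨e, he⟩ : ∃ e : A, e = cfcₙ G' h := ⟨_, rfl⟩
  have hesa : star e = e := by
    have : IsSelfAdjoint e := by rw [he]; exact IsSelfAdjoint.cfcₙ
    exact this.star_eq
  have hehu : ∑ p : W, (u * (p : A)) * star (u * (p : A)) = e := by
    have h1 : ∑ p : W, (u * (p : A)) * star (u * (p : A)) = u * h * u := by
      rw [hh, Finset.mul_sum, Finset.sum_mul]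
      rw [← Finset.sum_coe_sort W (fun w => u * (w * star w) * u)]
      refine Finset.sum_congr rfl fun p _ => ?_
      rw [star_mul, husa]
      simp only [mul_assoc]
    rw [h1, he, hG', hu]
    conv_lhs =>
      enter [1, 2]
      rw [← hid]
    rw [cm (J_ROW.ff ν) (fun s => s) hf continuous_id hf0 rfl,
      cm (fun s => J_ROW.ff ν s * s) (J_ROW.ff ν) (hf.mul continuous_id) hf (by simp) hf0]
    congr 1
    funext s
    ring
  refine ⟨fun p => u * (p : A), ?_, ?_, ?_⟩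
  · intro p
    obtain ⟨a, b, hab⟩ := hW p p.2
    exact ⟨u * a, b, by change u * (p : A) = _; rw [hab, mul_assoc]⟩
  · rw [hehu, he]
    refine norm_cfcₙ_le fun s hs => ?_
    obtain ⟨a1, a2⟩ := G_le hν0 (hpos s hs)
    rw [hG', Real.norm_of_nonneg a1]
    exact a2
  · intro g hg
    rw [hehu]
    have key : ∀ w ∈ W, ‖e * w - w‖ ≤ Real.sqrt (2 * ν) := by
      intro w hw
      have e1 : ∑ w ∈ W, (e * w - w) * star (e * w - w) = e * h * e - e * h - h * e + h := by
        rw [hh, Finset.mul_sum, Finset.sum_mul, Finset.sum_mul, ← Finset.sum_sub_distrib,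
          ← Finset.sum_sub_distrib, ← Finset.sum_add_distrib]
        refine Finset.sum_congr rfl fun w _ => ?_
        rw [star_sub, star_mul, hesa]
        simp only [mul_sub, sub_mul, mul_assoc]
        abel
      have e2 : e * h * e - e * h - h * e + h = cfcₙ (fun s => (1 - G' s) * s * (1 - G' s)) h := by
        have f1 : h * e = cfcₙ (fun s => s * G' s) h := by
          rw [he]
          conv_lhs =>
            enter [1]
            rw [← hid]
          exact cm (fun s => s) G' continuous_id hGc rfl hG0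
        have f2 : e * h = cfcₙ (fun s => G' s * s) h := by
          rw [he]
          conv_lhs =>
            enter [2]
            rw [← hid]
          exact cm G' (fun s => s) hGc continuous_id hG0 rfl
        have f3 : e * h * e = cfcₙ (fun s => G' s * s * G' s) h := by
          rw [f2, he]
          exact cm (fun s => G' s * s) G' (hGc.mul continuous_id) hGc (by simp) hG0
        rw [f3, f1, f2]
        rw [cs (fun s => G' s * s * G' s) (fun s => G' s * s) ((hGc.mul continuous_id).mul hGc)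
          (hGc.mul continuous_id) (by simp) (by simp)]
        rw [cs (fun s => G' s * s * G' s - G' s * s) (fun s => s * G' s)
          (((hGc.mul continuous_id).mul hGc).sub (hGc.mul continuous_id))
          (continuous_id.mul hGc) (by simp) (by simp)]
        conv_lhs =>
          enter [2]
          rw [← hid]
        rw [ca (fun s => G' s * s * G' s - G' s * s - s * G' s) (fun s => s)
          ((((hGc.mul continuous_id).mul hGc).sub (hGc.mul continuous_id)).sub
            (continuous_id.mul hGc)) continuous_id (by simp) rfl]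
        congr 1
        funext s
        ring
      have e3 : ‖e * h * e - e * h - h * e + h‖ ≤ 2 * ν := by
        rw [e2]
        refine norm_cfcₙ_le fun s hs => ?_
        obtain ⟨a1, a2⟩ := G_le hν0 (hpos s hs)
        obtain ⟨b1, b2⟩ := J_ROW.ff_real hν0 (hpos s hs)
        rw [hG']
        change ‖(1 - J_ROW.ff ν s * J_ROW.ff ν s * s) * s *
          (1 - J_ROW.ff ν s * J_ROW.ff ν s * s)‖ ≤ 2 * ν
        have b3 : 0 ≤ 1 - J_ROW.ff ν s * J_ROW.ff ν s * s := by linarith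
        rw [Real.norm_of_nonneg (mul_nonneg b1 b3)]
        calc (1 - J_ROW.ff ν s * J_ROW.ff ν s * s) * s *
          (1 - J_ROW.ff ν s * J_ROW.ff ν s * s) ≤ (1 - J_ROW.ff ν s * J_ROW.ff ν s * s) * s * 1 := by
              gcongr
              linarith
          _ ≤ 2 * ν := by rw [mul_one]; exact b2
      have e4 : ‖e * w - w‖ ^ 2 ≤ 2 * ν := by
        rw [pow_two, ← CStarRing.norm_self_mul_star]
        refine le_trans (CStarAlgebra.norm_le_norm_of_nonneg_of_le (mul_star_self_nonneg _) ?_) e3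
        rw [← e1]
        exact Finset.single_le_sum (f := fun w => (e * w - w) * star (e * w - w))
          (fun w _ => mul_star_self_nonneg _) hw
      exact Real.le_sqrt_of_sq_le e4
    have h5 : e * g - g = ∑ w ∈ W, (e * w - w) * c g w := by
      conv_lhs => rw [hc g hg]
      rw [Finset.mul_sum, ← Finset.sum_sub_distrib]
      refine Finset.sum_congr rfl fun w _ => ?_
      rw [sub_mul, mul_assoc]
    rw [h5]
    calc ‖∑ w ∈ W, (e * w - w) * c g w‖ ≤ ∑ w ∈ W, ‖(e * w - w) * c g w‖ := norm_sum_le _ _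
      _ ≤ ∑ w ∈ W, Real.sqrt (2 * ν) * ‖c g w‖ := by
          refine Finset.sum_le_sum fun w hw => (norm_mul_le _ _).trans ?_
          gcongr
          exact key w hw
      _ = Real.sqrt (2 * ν) * ∑ w ∈ W, ‖c g w‖ := by rw [Finset.mul_sum]
      _ ≤ Real.sqrt (2 * ν) * C := by gcongr; exact hC g hg
      _ ≤ ε := hν

end units

section theta

variable {A B : Type} [NonUnitalCStarAlgebra A] [NonUnitalCStarAlgebra B]
  {P : Type} [Fintype P] [DecidableEq P]

/-- the map `m ↦ ∑ y_p m_pq y_q^*` -/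
def Th (β : B →⋆ₙₐ[ℂ] A) (y : P → A) (m : Matrix P P B) : A :=
  ∑ p, ∑ q, y p * β (m p q) * star (y q)

/-- the element `∑ y_p y_p^*` -/
def ee (y : P → A) : A := ∑ p, y p * star (y p)

variable {β : B →⋆ₙₐ[ℂ] A} {y : P → A}

theorem Th_add (m m' : Matrix P P B) : Th β y (m + m') = Th β y m + Th β y m' := by
  unfold Th
  simp only [Matrix.add_apply, map_add, mul_add, add_mul, Finset.sum_add_distrib]

theorem Th_sub (m m' : Matrix P P B) : Th β y (m - m') = Th β y m - Th β y m' := by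
  unfold Th
  simp only [Matrix.sub_apply, map_sub, mul_sub, sub_mul, Finset.sum_sub_distrib]

theorem Th_swap (m : Matrix P P B) : Th β y m = ∑ q, ∑ p, y p * β (m p q) * star (y q) :=
  Finset.sum_comm

theorem Th_mul_ae (mt : A →ₗ[ℂ] Matrix P P B)
    (hmt : ∀ a p q, β (mt a p q) = star (y p) * a * y q) (m : Matrix P P B) (a : A) :
    Th β y m * a * ee y = Th β y (m * mt a) := by
  rw [Th_swap (m * mt a)]
  unfold Th ee
  rw [Finset.mul_sum]
  have h1 : ∀ t, (∑ p, ∑ q, y p * β (m p q) * star (y q)) * a * (y t * star (y t)) =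
      ∑ p, y p * β ((m * mt a) p t) * star (y t) := by
    intro t
    rw [Finset.sum_mul, Finset.sum_mul]
    refine Finset.sum_congr rfl fun p _ => ?_
    rw [Finset.sum_mul, Finset.sum_mul, Matrix.mul_apply, map_sum, Finset.mul_sum, Finset.sum_mul]
    refine Finset.sum_congr rfl fun q _ => ?_
    rw [map_mul, hmt]
    simp only [mul_assoc]
  exact Finset.sum_congr rfl fun t _ => h1 t

theorem Th_mul_e (z : Matrix P P B) (hz : ∀ p q, β (z p q) = star (y p) * y q)
    (m : Matrix P P B) : Th β y m * ee y = Th β y (m * z) := by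
  rw [Th_swap (m * z)]
  unfold Th ee
  rw [Finset.mul_sum]
  have h1 : ∀ t, (∑ p, ∑ q, y p * β (m p q) * star (y q)) * (y t * star (y t)) =
      ∑ p, y p * β ((m * z) p t) * star (y t) := by
    intro t
    rw [Finset.sum_mul]
    refine Finset.sum_congr rfl fun p _ => ?_
    rw [Finset.sum_mul, Matrix.mul_apply, map_sum, Finset.mul_sum, Finset.sum_mul]
    refine Finset.sum_congr rfl fun q _ => ?_
    rw [map_mul, hz]
    simp only [mul_assoc]
  exact Finset.sum_congr rfl fun t _ => h1 t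

theorem Th_diag (f : B) : Th β y (Matrix.diagonal fun _ => f) =
    ∑ p, y p * β f * star (y p) := by
  unfold Th
  refine Finset.sum_congr rfl fun p _ => ?_
  rw [Finset.sum_eq_single p]
  · rw [Matrix.diagonal_apply_eq]
  · intro q _ hq
    rw [Matrix.diagonal_apply_ne _ (Ne.symm hq), map_zero, mul_zero, zero_mul]
  · intro h; exact absurd (Finset.mem_univ p) h

/-- `Θ(m) Θ(diag f) = Θ(m diag f) e` -/
theorem Th_mul_diag (hB : ∀ x y : B, x * y = y * x) (z : Matrix P P B)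
    (hz : ∀ p q, β (z p q) = star (y p) * y q) (m : Matrix P P B) (f : B) :
    Th β y m * Th β y (Matrix.diagonal fun _ => f) =
      Th β y (Matrix.of fun p q => m p q * f) * ee y := by
  rw [Th_mul_e z hz, Th_diag, Th_swap (_ * z)]
  unfold Th
  rw [Finset.mul_sum]
  have hR : ∀ p t, β (((Matrix.of fun p q => m p q * f) * z) p t) =
      ∑ q, β (m p q) * (β (z q t) * β f) := by
    intro p t
    rw [Matrix.mul_apply, map_sum]
    refine Finset.sum_congr rfl fun q _ => ?_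
    rw [Matrix.of_apply, map_mul, map_mul, ← map_mul β (z q t) f, hB (z q t) f, map_mul]
    simp only [mul_assoc]
  refine Finset.sum_congr rfl fun t _ => ?_
  rw [Finset.sum_mul]
  refine Finset.sum_congr rfl fun p _ => ?_
  rw [Finset.sum_mul]
  rw [hR, Finset.mul_sum, Finset.sum_mul]
  refine Finset.sum_congr rfl fun q _ => ?_
  rw [hz]
  simp only [mul_assoc]

theorem y_norm (he : ‖ee y‖ ≤ 1) (p : P) : ‖y p‖ ≤ 1 := by
  let _ := CStarAlgebra.spectralOrder A
  let _ := CStarAlgebra.spectralOrderedRing A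
  have h1 : ‖y p‖ ^ 2 ≤ 1 := by
    rw [pow_two, ← CStarRing.norm_self_mul_star]
    refine le_trans (CStarAlgebra.norm_le_norm_of_nonneg_of_le (mul_star_self_nonneg _) ?_) he
    exact Finset.single_le_sum (f := fun p => y p * star (y p))
      (fun p _ => mul_star_self_nonneg _) (Finset.mem_univ p)
  nlinarith [norm_nonneg (y p)]

theorem norm_Th (he : ‖ee y‖ ≤ 1) (m : Matrix P P B) (c : ℝ) (hm : ∀ p q, ‖m p q‖ ≤ c) :
    ‖Th β y m‖ ≤ (Fintype.card P : ℝ) ^ 2 * c := by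
  unfold Th
  have h1 : ∀ p q, ‖y p * β (m p q) * star (y q)‖ ≤ c := by
    intro p q
    have hc : 0 ≤ c := (norm_nonneg _).trans (hm p q)
    calc ‖y p * β (m p q) * star (y q)‖ ≤ ‖y p‖ * ‖β (m p q)‖ * ‖star (y q)‖ :=
          (norm_mul_le _ _).trans (by gcongr; exact norm_mul_le _ _)
      _ ≤ 1 * c * 1 := by
          rw [norm_star]
          gcongr
          · exact y_norm he p
          · exact (NonUnitalStarAlgHom.norm_apply_le β _).trans (hm p q)
          · exact y_norm he q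
      _ = c := by ring
  calc ‖∑ p, ∑ q, y p * β (m p q) * star (y q)‖
      ≤ ∑ p : P, ∑ q : P, c := by
        refine norm_sum_le_of_le _ fun p _ => norm_sum_le_of_le _ fun q _ => h1 p q
    _ = (Fintype.card P : ℝ) ^ 2 * c := by
        simp only [Finset.sum_const, Finset.card_univ, nsmul_eq_mul]
        ring

theorem Th_diag_le (f : B) (hf : Pos f) (hf1 : ‖f‖ ≤ 1) :
    Pos (ee y - Th β y (Matrix.diagonal fun _ => f)) := by
  rw [Th_diag, ee, ← Finset.sum_sub_distrib]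
  refine Pos.sum _ fun p _ => ?_
  have := conj_le (y p) (β f) (hf.map β) 1 ((NonUnitalStarAlgHom.norm_apply_le β f).trans hf1)
  rwa [Complex.ofReal_one, one_smul] at this

theorem pos_Th_diag (f : B) (hf : Pos f) : Pos (Th β y (Matrix.diagonal fun _ => f)) := by
  rw [Th_diag]
  refine Pos.sum _ fun p _ => ?_
  have := (hf.map β).conj (star (y p))
  rwa [star_star] at this

theorem pos_ee : Pos (ee y) := Pos.sum _ fun p _ => pos_mul_star _

/-- existence of the matrices -/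
theorem exists_mt (hβ : IsHer β) (hy : ∀ p, AB β (y p)) :
    ∃ (mt : A →ₗ[ℂ] Matrix P P B) (z : Matrix P P B),
      (∀ a p q, β (mt a p q) = star (y p) * a * y q) ∧
      (∀ p q, β (z p q) = star (y p) * y q) := by
  choose a b hab using hy
  have h1 : ∀ c p q, ∃ d : B, β d = star (y p) * c * y q := by
    intro c p q
    obtain ⟨d, hd⟩ := hβ.her (star (b p)) (b q) (star (a p) * c * a q)
    refine ⟨d, ?_⟩
    rw [hd, hab p, hab q, star_mul, map_star]
    simp only [mul_assoc]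
  have h2 : ∀ p q, ∃ d : B, β d = star (y p) * y q := by
    intro p q
    obtain ⟨d, hd⟩ := hβ.her (star (b p)) (b q) (star (a p) * a q)
    refine ⟨d, ?_⟩
    rw [hd, hab p, hab q, star_mul, map_star]
    simp only [mul_assoc]
  choose m hm using h1
  choose z hz using h2
  refine ⟨{ toFun := fun c => Matrix.of fun p q => m c p q
            map_add' := ?_
            map_smul' := ?_ }, Matrix.of z, fun c p q => hm c p q, hz⟩
  · intro c c'
    ext p q
    apply hβ.inj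
    change β (m (c + c') p q) = β (m c p q + m c' p q)
    rw [map_add, hm, hm, hm, mul_add, add_mul]
  · intro r c
    ext p q
    apply hβ.inj
    change β (m (r • c) p q) = β (r • m c p q)
    rw [map_smul, hm, hm, mul_smul_comm, smul_mul_assoc]

end theta

section tensor

variable {A B : Type} [NonUnitalCStarAlgebra A] [NonUnitalCStarAlgebra B]
  {P : Type} [Fintype P] [DecidableEq P] {L : Type} [Fintype L]

/-- the matrix `∑_l d_l ⊗ φ_l` -/
def tens (φ : L → B) (d : L → Matrix P P ℂ) : Matrix P P B :=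
  Matrix.of fun p q => ∑ l, d l p q • φ l

theorem tens_apply (φ : L → B) (d : L → Matrix P P ℂ) (p q : P) :
    tens φ d p q = ∑ l, d l p q • φ l := rfl

/-- the algebra `⊕_l M_P` -/
abbrev FP (L P : Type) [Fintype L] [Fintype P] [DecidableEq P] : FDA where
  ι := L
  n := fun _ => P

variable {β : B →⋆ₙₐ[ℂ] A} {y : P → A}

theorem rowMap_FP (h : L → B) (φ : L → B) (hφ : ∀ l, h l * star (h l) = φ l)
    (d : (FP L P).alg) :
    rowMap (FP L P) (fun (l : L) (p : P) => y p * β (h l)) d = Th β y (tens φ d) := by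
  change (∑ l : L, ∑ i : P, ∑ j : P, d l i j • (y i * β (h l) * star (y j * β (h l)))) = _
  unfold Th
  rw [Finset.sum_comm]
  refine Finset.sum_congr rfl fun i _ => ?_
  rw [Finset.sum_comm]
  refine Finset.sum_congr rfl fun j _ => ?_
  rw [tens_apply, map_sum, Finset.mul_sum, Finset.sum_mul]
  refine Finset.sum_congr rfl fun l _ => ?_
  rw [map_smul, mul_smul_comm, smul_mul_assoc, ← hφ l, map_mul, map_star, star_mul]
  simp only [mul_assoc]

theorem tens_one (φ : L → B) :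
    tens φ (fun _ => (1 : Matrix P P ℂ)) = Matrix.diagonal fun _ => ∑ l, φ l := by
  ext p q
  rw [tens_apply]
  by_cases h : p = q
  · subst h
    rw [Matrix.diagonal_apply_eq]
    simp
  · rw [Matrix.diagonal_apply_ne _ h]
    refine Finset.sum_eq_zero fun l _ => ?_
    rw [Matrix.one_apply_ne h, zero_smul]

theorem exists_h (hB : ∀ x y : B, x * y = y * x) (φ : L → B) (hφ : ∀ l, Pos (φ l)) :
    ∃ h : L → B, (∀ l, h l * star (h l) = φ l) ∧ (∀ l, star (h l) * h l = φ l) := by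
  choose h hh using hφ
  exact ⟨h, fun l => by rw [hB, hh l], fun l => (hh l).symm⟩

theorem norm_tens (hB : ∀ x y : B, x * y = y * x) (he : ‖ee y‖ ≤ 1) (φ : L → B)
    (hφ : ∀ l, Pos (φ l)) (h1 : ‖∑ l, φ l‖ ≤ 1) (d : L → Matrix P P ℂ) (c : ℝ) (hc : 0 ≤ c)
    (hd : ∀ l, ‖d l‖ ≤ c) : ‖Th β y (tens φ d)‖ ≤ c := by
  let _ := CStarAlgebra.spectralOrder A
  let _ := CStarAlgebra.spectralOrderedRing A
  obtain ⟨h, hh, -⟩ := exists_h hB φ hφ
  have hcp := J_ROW.isCP_rowMap (F := FP L P) (fun (l : L) (p : P) => y p * β (h l))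
  have h2 := hcp.norm_le (d : (FP L P).alg)
  have e1 : rowMap (FP L P) (fun (l : L) (p : P) => y p * β (h l)) (1 : (FP L P).alg) =
      Th β y (Matrix.diagonal fun _ => ∑ l, φ l) := by
    rw [rowMap_FP h φ hh]
    exact congrArg (Th β y) (tens_one φ)
  rw [e1, rowMap_FP h φ hh] at h2
  have h3 : ‖Th β y (Matrix.diagonal fun _ => ∑ l, φ l)‖ ≤ 1 := by
    have hp : Pos (∑ l, φ l) := Pos.sum _ fun l _ => hφ l
    exact ((pos_Th_diag _ hp).norm_le (Th_diag_le _ hp h1)).trans he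
  have h4 : ‖(d : (FP L P).alg)‖ ≤ c := (pi_norm_le_iff_of_nonneg hc).2 hd
  calc ‖Th β y (tens φ d)‖ ≤ _ := h2
    _ ≤ 1 * c := by gcongr
    _ = c := one_mul c

theorem pos_tens (hB : ∀ x y : B, x * y = y * x) (φ : L → B)
    (hφ : ∀ l, Pos (φ l)) (d : L → Matrix P P ℂ) (hd : Pos (d : (FP L P).alg)) :
    Pos (Th β y (tens φ d)) := by
  obtain ⟨h, hh, -⟩ := exists_h hB φ hφ
  have hcp := J_ROW.isCP_rowMap (F := FP L P) (fun (l : L) (p : P) => y p * β (h l))
  have h2 := IsCP.pos hcp hd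
  rwa [rowMap_FP h φ hh] at h2

theorem tens_sub (φ : L → B) (d d' : L → Matrix P P ℂ) :
    tens φ (fun l => d l - d' l) = tens φ d - tens φ d' := by
  ext p q
  rw [Matrix.sub_apply, tens_apply, tens_apply, tens_apply, ← Finset.sum_sub_distrib]
  refine Finset.sum_congr rfl fun l _ => ?_
  rw [Matrix.sub_apply, sub_smul]

theorem norm_tens_sub (hB : ∀ x y : B, x * y = y * x) (he : ‖ee y‖ ≤ 1) (φ : L → B)
    (hφ : ∀ l, Pos (φ l)) (h1 : ‖∑ l, φ l‖ ≤ 1) (d d' : L → Matrix P P ℂ) (c : ℝ) (hc : 0 ≤ c)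
    (hd : ∀ l, ‖d l - d' l‖ ≤ c) : ‖Th β y (tens φ d) - Th β y (tens φ d')‖ ≤ c := by
  rw [← Th_sub, ← tens_sub]
  exact norm_tens hB he φ hφ h1 _ c hc hd

/-- freezing the coefficients -/
theorem frozen (hB : ∀ x y : B, x * y = y * x) (he : ‖ee y‖ ≤ 1)
    (mt : A →ₗ[ℂ] Matrix P P B) (hmt : ∀ a p q, β (mt a p q) = star (y p) * a * y q)
    (φ : L → B) (hφ : ∀ l, Pos (φ l)) (hor : ∀ l l', l ≠ l' → φ l * φ l' = 0)
    (χ : L → (B →⋆ₙₐ[ℂ] ℂ)) (a : A) (ε : ℝ) (hε : 0 ≤ ε)
    (hχ : ∀ l p q, ‖mt a p q * φ l - χ l (mt a p q) • φ l‖ ≤ ε) (d : L → Matrix P P ℂ)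
    (hd : ∀ l p q, ‖d l p q‖ ≤ 1) :
    ‖Th β y (tens φ d) * a * ee y - Th β y (tens φ (fun l => d l * (mt a).map (χ l)))‖ ≤
      (Fintype.card P : ℝ) ^ 2 * (Fintype.card P * ε) := by
  rw [Th_mul_ae mt hmt, ← Th_sub]
  refine norm_Th he _ _ fun p t => ?_
  have e1 : (tens φ d * mt a - tens φ (fun l => d l * (mt a).map (χ l))) p t =
      ∑ l, ∑ q, d l p q • (mt a q t * φ l - χ l (mt a q t) • φ l) := by
    rw [Matrix.sub_apply, Matrix.mul_apply, tens_apply]
    simp only [tens_apply, Matrix.mul_apply, Matrix.map_apply, Finset.sum_mul, Finset.sum_smul,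
      smul_sub, smul_smul, smul_mul_assoc, Finset.sum_sub_distrib]
    congr 1
    rw [Finset.sum_comm]
    refine Finset.sum_congr rfl fun l _ => Finset.sum_congr rfl fun q _ => ?_
    rw [hB]
  rw [e1]
  have hsa : ∀ l, star (φ l) = φ l := fun l => (hφ l).sa
  have hz : ∀ l l', l ≠ l' → (∑ q, d l p q • (mt a q t * φ l - χ l (mt a q t) • φ l)) *
      star (∑ q, d l' p q • (mt a q t * φ l' - χ l' (mt a q t) • φ l')) = 0 := by
    intro l l' hl
    have e2 : (∑ q, d l p q • (mt a q t * φ l - χ l (mt a q t) • φ l)) * φ l' = 0 := by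
      rw [Finset.sum_mul]
      refine Finset.sum_eq_zero fun q _ => ?_
      rw [smul_mul_assoc, sub_mul, smul_mul_assoc, mul_assoc, hor l l' hl]
      simp
    rw [star_sum, Finset.mul_sum]
    refine Finset.sum_eq_zero fun q _ => ?_
    rw [star_smul, star_sub, star_smul, star_mul, hsa, mul_smul_comm, mul_sub, mul_smul_comm,
      ← mul_assoc, e2]
    simp
  refine norm_sum_orth _ _ (by positivity) ?_ ?_ ?_
  · intro l l' hl
    rw [hB]
    exact hz l' l (Ne.symm hl)
  · exact hz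
  · intro l
    calc ‖∑ q, d l p q • (mt a q t * φ l - χ l (mt a q t) • φ l)‖ ≤ ∑ q : P, 1 * ε := by
          refine norm_sum_le_of_le _ fun q _ => ?_
          rw [norm_smul]
          gcongr
          · exact hd l p q
          · exact hχ l q t
      _ = Fintype.card P * ε := by
          simp only [Finset.sum_const, Finset.card_univ, nsmul_eq_mul, one_mul]

end tensor

section spec

variable {P : Type} [Fintype P] [DecidableEq P]

theorem norm_le_one_of_isom {N : Type} [Fintype N] [DecidableEq N] (W : Matrix P N ℂ)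
    (h : Wᴴ * W = 1) : ‖W‖ ≤ 1 := by
  have h1 : ‖(1 : Matrix N N ℂ)‖ ≤ 1 := by
    rw [← Matrix.diagonal_one, Matrix.l2_opNorm_diagonal]
    refine (pi_norm_le_iff_of_nonneg zero_le_one).2 fun i => ?_
    simp
  have h2 := Matrix.l2_opNorm_conjTranspose_mul_self W
  rw [h] at h2
  nlinarith [norm_nonneg W]

theorem norm_entry {N : Type} [Fintype N] [DecidableEq N] (W : Matrix P N ℂ) (p : P) (i : N) :
    ‖W p i‖ ≤ ‖W‖ := by
  have h1 := W.l2_opNorm_mulVec (EuclideanSpace.single i 1)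
  rw [PiLp.norm_single, norm_one, mul_one] at h1
  refine le_trans ?_ h1
  refine le_trans (le_of_eq ?_) (PiLp.norm_apply_le _ p)
  simp

theorem spec_lemma (H : Matrix P P ℂ) (hH : H.IsHermitian) (κ : ℝ) (hκ : 0 < κ) :
    ∃ (N : Type) (_ : Fintype N) (_ : DecidableEq N) (V : Matrix P N ℂ),
      Fintype.card N ≤ Fintype.card P ∧ Vᴴ * V = 1 ∧ ‖H * V‖ ≤ κ ∧
      ∀ m : Matrix P P ℂ, ‖m - V * Vᴴ * m‖ ≤ κ⁻¹ * ‖H * m‖ := by
  classical
  obtain ⟨U, D, hU1, hU2, hHU⟩ : ∃ (U : Matrix P P ℂ) (D : P → ℝ), Uᴴ * U = 1 ∧ U * Uᴴ = 1 ∧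
      H = U * Matrix.diagonal (fun i => (D i : ℂ)) * Uᴴ := by
    refine ⟨hH.eigenvectorUnitary, hH.eigenvalues, ?_, ?_, ?_⟩
    · exact Unitary.coe_star_mul_self hH.eigenvectorUnitary
    · exact Unitary.coe_mul_star_self hH.eigenvectorUnitary
    · conv_lhs => rw [hH.spectral_theorem]
      rw [Unitary.conjStarAlgAut_apply]
      rfl
  have hUn : ‖U‖ ≤ 1 := norm_le_one_of_isom U hU1
  have hUn' : ‖Uᴴ‖ ≤ 1 := by rw [Matrix.l2_opNorm_conjTranspose]; exact hUn
  obtain ⟨E, hE⟩ : ∃ E : Matrix P {i : P // |D i| ≤ κ} ℂ, ∀ p i, E p i = if p = i.1 then 1 else 0 :=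
    ⟨Matrix.of fun p i => if p = i.1 then 1 else 0, fun _ _ => rfl⟩
  have hEE : Eᴴ * E = 1 := by
    ext i j
    rw [Matrix.mul_apply, Finset.sum_eq_single i.1]
    · rw [Matrix.conjTranspose_apply, hE, hE, if_pos rfl, star_one, one_mul]
      by_cases h : i = j
      · subst h; simp
      · rw [Matrix.one_apply_ne h, if_neg]
        exact fun h' => h (Subtype.ext h')
    · intro p _ hp
      rw [Matrix.conjTranspose_apply, hE, if_neg hp]
      simp
    · intro h; exact absurd (Finset.mem_univ _) h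
  have hEn : ‖E‖ ≤ 1 := norm_le_one_of_isom E hEE
  have hDE : Matrix.diagonal (fun i => (D i : ℂ)) * E =
      E * Matrix.diagonal (fun i : {i : P // |D i| ≤ κ} => (D i.1 : ℂ)) := by
    ext p i
    rw [Matrix.diagonal_mul, Matrix.mul_diagonal, hE]
    split_ifs with h
    · rw [h]; ring
    · simp
  have hEE' : E * Eᴴ = Matrix.diagonal (fun p => if |D p| ≤ κ then (1 : ℂ) else 0) := by
    ext p q
    rw [Matrix.mul_apply]
    by_cases hp : |D p| ≤ κ
    · rw [Finset.sum_eq_single ⟨p, hp⟩]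
      · rw [Matrix.conjTranspose_apply, hE, hE, if_pos rfl, one_mul]
        by_cases hpq : p = q
        · subst hpq
          rw [Matrix.diagonal_apply_eq, if_pos hp, if_pos rfl, star_one]
        · rw [Matrix.diagonal_apply_ne _ hpq, if_neg (Ne.symm hpq), star_zero]
      · intro i _ hi
        rw [hE, if_neg, zero_mul]
        intro h
        exact hi (Subtype.ext h.symm)
      · intro h; exact absurd (Finset.mem_univ _) h
    · rw [Finset.sum_eq_zero]
      · by_cases hpq : p = q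
        · subst hpq
          rw [Matrix.diagonal_apply_eq, if_neg hp]
        · rw [Matrix.diagonal_apply_ne _ hpq]
      · intro i _
        rw [hE, if_neg, zero_mul]
        intro h
        rw [h] at hp
        exact hp i.2
  refine ⟨{i : P // |D i| ≤ κ}, inferInstance, inferInstance, U * E, Fintype.card_subtype_le _,
    ?_, ?_, ?_⟩
  · rw [Matrix.conjTranspose_mul, show Eᴴ * Uᴴ * (U * E) = Eᴴ * (Uᴴ * U) * E by
      simp only [Matrix.mul_assoc], hU1, Matrix.mul_one, hEE]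
  · have e1 : H * (U * E) = U * (E * Matrix.diagonal
        (fun i : {i : P // |D i| ≤ κ} => (D i.1 : ℂ))) := by
      rw [← hDE, hHU]
      calc U * Matrix.diagonal (fun i => (D i : ℂ)) * Uᴴ * (U * E)
          = U * Matrix.diagonal (fun i => (D i : ℂ)) * (Uᴴ * U) * E := by
            simp only [Matrix.mul_assoc]
        _ = _ := by rw [hU1, Matrix.mul_one, Matrix.mul_assoc]
    rw [e1]
    have e2 : ‖Matrix.diagonal (fun i : {i : P // |D i| ≤ κ} => (D i.1 : ℂ))‖ ≤ κ := by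
      rw [Matrix.l2_opNorm_diagonal]
      refine (pi_norm_le_iff_of_nonneg hκ.le).2 fun i => ?_
      rw [Complex.norm_real]
      exact i.2
    calc ‖U * (E * Matrix.diagonal (fun i : {i : P // |D i| ≤ κ} => (D i.1 : ℂ)))‖
        ≤ ‖U‖ * (‖E‖ * ‖Matrix.diagonal (fun i : {i : P // |D i| ≤ κ} => (D i.1 : ℂ))‖) :=
          (Matrix.l2_opNorm_mul _ _).trans (by gcongr; exact Matrix.l2_opNorm_mul _ _)
      _ ≤ 1 * (1 * κ) := by gcongr
      _ = κ := by ring
  · intro m
    obtain ⟨s, hs⟩ : ∃ s : P → ℂ, ∀ p, s p = if |D p| ≤ κ then 0 else ((D p)⁻¹ : ℂ) :=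
      ⟨_, fun _ => rfl⟩
    have hsn : ‖Matrix.diagonal s‖ ≤ κ⁻¹ := by
      rw [Matrix.l2_opNorm_diagonal]
      refine (pi_norm_le_iff_of_nonneg (by positivity)).2 fun p => ?_
      rw [hs]
      split_ifs with h
      · rw [norm_zero]; positivity
      · rw [norm_inv, Complex.norm_real]
        push Not at h
        exact inv_anti₀ hκ h.le
    have e1 : m - U * E * (U * E)ᴴ * m = U * Matrix.diagonal s * Uᴴ * (H * m) := by
      have f1 : U * Matrix.diagonal s * Uᴴ * (H * m) =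
          U * (Matrix.diagonal s * Matrix.diagonal (fun i => (D i : ℂ))) * Uᴴ * m := by
        rw [hHU]
        calc U * Matrix.diagonal s * Uᴴ * (U * Matrix.diagonal (fun i => (D i : ℂ)) * Uᴴ * m)
            = U * Matrix.diagonal s * (Uᴴ * U) * Matrix.diagonal (fun i => (D i : ℂ)) * Uᴴ * m := by
              simp only [Matrix.mul_assoc]
          _ = _ := by rw [hU1, Matrix.mul_one]; simp only [Matrix.mul_assoc]
      have f2 : U * E * (U * E)ᴴ * m = U * (E * Eᴴ) * Uᴴ * m := by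
        rw [Matrix.conjTranspose_mul]; simp only [Matrix.mul_assoc]
      have f3 : m = U * 1 * Uᴴ * m := by rw [Matrix.mul_one, hU2, Matrix.one_mul]
      rw [f1, f2]
      conv_lhs =>
        enter [1]
        rw [f3]
      rw [← Matrix.sub_mul, ← Matrix.sub_mul, ← Matrix.mul_sub, hEE', Matrix.diagonal_mul_diagonal,
        ← Matrix.diagonal_one, Matrix.diagonal_sub]
      congr 4
      funext p
      rw [hs]
      split_ifs with h
      · simp
      · rw [sub_zero, inv_mul_cancel₀]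
        intro h0
        apply h
        have : D p = 0 := by exact_mod_cast h0
        rw [this, abs_zero]
        exact hκ.le
    rw [e1]
    calc ‖U * Matrix.diagonal s * Uᴴ * (H * m)‖
        ≤ ‖U‖ * ‖Matrix.diagonal s‖ * ‖Uᴴ‖ * ‖H * m‖ := by
          refine (Matrix.l2_opNorm_mul _ _).trans ?_
          gcongr
          refine (Matrix.l2_opNorm_mul _ _).trans ?_
          gcongr
          exact Matrix.l2_opNorm_mul _ _
      _ ≤ 1 * κ⁻¹ * 1 * ‖H * m‖ := by gcongr
      _ = κ⁻¹ * ‖H * m‖ := by ring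

end spec

section down

variable {A B : Type} [NonUnitalCStarAlgebra A] [NonUnitalCStarAlgebra B]
  {P : Type} [Fintype P] [DecidableEq P]

/-- the corner embedding -/
def cr (A : Type) [NonUnitalCStarAlgebra A] {P : Type} [Fintype P] [DecidableEq P] (o : P) :
    A →⋆ₙₐ[ℂ] CStarMatrix P P A where
  toFun a := CStarMatrix.ofMatrix (Matrix.of fun p q => if p = o ∧ q = o then a else 0)
  map_smul' c d := by
    refine CStarMatrix.ext fun p q => ?_
    change (if p = o ∧ q = o then c • d else 0) = c • (if p = o ∧ q = o then d else 0)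
    split_ifs
    · rfl
    · rw [smul_zero]
  map_zero' := by
    refine CStarMatrix.ext fun p q => ?_
    change (if p = o ∧ q = o then (0 : A) else 0) = 0
    split_ifs <;> rfl
  map_add' d e := by
    refine CStarMatrix.ext fun p q => ?_
    change (if p = o ∧ q = o then d + e else 0) =
      (if p = o ∧ q = o then d else 0) + (if p = o ∧ q = o then e else 0)
    split_ifs
    · rfl
    · rw [add_zero]
  map_mul' d e := by
    refine CStarMatrix.ext fun p q => ?_
    change (if p = o ∧ q = o then d * e else 0) =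
      ∑ r, (if p = o ∧ r = o then d else 0) * (if r = o ∧ q = o then e else 0)
    rw [Finset.sum_eq_single o]
    · by_cases hp : p = o
      · by_cases hq : q = o
        · simp [hp, hq]
        · simp [hp, hq]
      · simp [hp]
    · intro r _ hr
      rw [if_neg (fun h => hr h.2), zero_mul]
    · intro hp
      exact absurd (Finset.mem_univ o) hp
  map_star' d := by
    refine CStarMatrix.ext fun p q => ?_
    change (if p = o ∧ q = o then star d else 0) = star (if q = o ∧ p = o then d else 0)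
    by_cases h : p = o ∧ q = o
    · rw [if_pos h, if_pos h.symm]
    · rw [if_neg h, if_neg (fun h' => h h'.symm), star_zero]

theorem cr_apply (o : P) (a : A) (p q : P) :
    cr A o a p q = if p = o ∧ q = o then a else 0 := rfl

/-- the row `y` as a matrix -/
def Yh (o : P) (y : P → A) : CStarMatrix P P A :=
  CStarMatrix.ofMatrix (Matrix.of fun s p => if s = o then y p else 0)

theorem Yh_star (o : P) (y : P → A) : Yh o y * star (Yh o y) = cr A o (ee y) := by
  refine CStarMatrix.ext fun p q => ?_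
  change ∑ r, (if p = o then y r else 0) * star (if q = o then y r else 0) =
    if p = o ∧ q = o then ee y else 0
  by_cases hp : p = o
  · by_cases hq : q = o
    · simp [hp, hq, ee]
    · simp [hp, hq]
  · simp [hp]

theorem Yh_norm [PartialOrder A] [StarOrderedRing A] (o : P) {y : P → A} (he : ‖ee y‖ ≤ 1) :
    ‖Yh o y‖ ≤ 1 := by
  have h1 : ‖Yh o y‖ * ‖Yh o y‖ ≤ 1 := by
    rw [← CStarRing.norm_self_mul_star, Yh_star]
    exact (NonUnitalStarAlgHom.norm_apply_le (cr A o) _).trans he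
  nlinarith [norm_nonneg (Yh o y)]

theorem Yh_conj (o : P) (y : P → A) (a : A) (p q : P) :
    (star (Yh o y) * cr A o a * Yh o y) p q = star (y p) * a * y q := by
  change ∑ r, (∑ s, star (if s = o then y p else 0) * (if s = o ∧ r = o then a else 0)) *
    (if r = o then y q else 0) = _
  rw [Finset.sum_eq_single o]
  · rw [Finset.sum_eq_single o]
    · simp
    · intro s _ hs
      simp [hs]
    · intro h; exact absurd (Finset.mem_univ o) h
  · intro r _ hr
    rw [if_neg hr, mul_zero]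
  · intro h; exact absurd (Finset.mem_univ o) h

variable {β : B →⋆ₙₐ[ℂ] A} {y : P → A}

/-- the matrix-valued map, in the C*-algebra of matrices -/
def mtC (mt : A →ₗ[ℂ] Matrix P P B) : A →ₗ[ℂ] CStarMatrix P P B where
  toFun a := CStarMatrix.ofMatrix (mt a)
  map_add' x y := by rw [map_add]; rfl
  map_smul' c x := by rw [map_smul]; rfl

theorem mtC_eq (o : P) (mt : A →ₗ[ℂ] Matrix P P B)
    (hmt : ∀ a p q, β (mt a p q) = star (y p) * a * y q) (a : A) :
    CStarMatrix.mapₙₐ β (mtC mt a) = star (Yh o y) * cr A o a * Yh o y := by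
  refine CStarMatrix.ext fun p q => ?_
  rw [Yh_conj]
  exact hmt a p q

theorem mapC_inj (hβ : Function.Injective β) :
    Function.Injective (CStarMatrix.mapₙₐ β : CStarMatrix P P B →⋆ₙₐ[ℂ] CStarMatrix P P A) := by
  intro m m' h
  refine CStarMatrix.ext fun p q => hβ ?_
  exact congrFun (congrFun h p) q

theorem isCP_mtC [PartialOrder A] [StarOrderedRing A] [PartialOrder B] [StarOrderedRing B]
    (o : P) (hβ : Function.Injective β) (mt : A →ₗ[ℂ] Matrix P P B)
    (hmt : ∀ a p q, β (mt a p q) = star (y p) * a * y q) : IsCP (mtC mt) := by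
  refine isCP_of_inj (CStarMatrix.mapₙₐ β) (mapC_inj hβ) _ ?_
  have h1 : ((CStarMatrix.mapₙₐ β : CStarMatrix P P B →⋆ₙₐ[ℂ] CStarMatrix P P A) :
      CStarMatrix P P B →ₗ[ℂ] CStarMatrix P P A) ∘ₗ mtC mt =
      conjL (Yh o y) ∘ₗ (cr A o : A →ₗ[ℂ] CStarMatrix P P A) := by
    apply LinearMap.ext
    intro a
    exact mtC_eq o mt hmt a
  rw [h1]
  exact (isCP_conjL _).comp (isCP_hom (cr A o) _ fun _ => rfl)

theorem norm_mtC [PartialOrder A] [StarOrderedRing A] [PartialOrder B] [StarOrderedRing B]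
    (o : P) (he : ‖ee y‖ ≤ 1) (hβ : Function.Injective β)
    (mt : A →ₗ[ℂ] Matrix P P B)
    (hmt : ∀ a p q, β (mt a p q) = star (y p) * a * y q) (a : A) : ‖mtC mt a‖ ≤ ‖a‖ := by
  rw [← hom_norm (CStarMatrix.mapₙₐ β) (mapC_inj hβ), mtC_eq o mt hmt a]
  calc ‖star (Yh o y) * cr A o a * Yh o y‖ ≤ ‖star (Yh o y)‖ * ‖cr A o a‖ * ‖Yh o y‖ :=
        (norm_mul_le _ _).trans (by gcongr; exact norm_mul_le _ _)
    _ ≤ 1 * ‖a‖ * 1 := by
        rw [norm_star]
        gcongr
        · exact Yh_norm o he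
        · exact NonUnitalStarAlgHom.norm_apply_le (cr A o) _
        · exact Yh_norm o he
    _ = ‖a‖ := by ring

/-- entrywise application of a character -/
def chm (χ : B →⋆ₙₐ[ℂ] ℂ) : CStarMatrix P P B →⋆ₙₐ[ℂ] Matrix P P ℂ where
  toFun m := Matrix.of fun p q => χ (m p q)
  map_smul' c m := by
    ext p q
    exact map_smul χ c (m p q)
  map_zero' := by
    ext p q
    exact map_zero χ
  map_add' m m' := by
    ext p q
    exact map_add χ (m p q) (m' p q)
  map_mul' m m' := by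
    ext p q
    change χ (∑ r, m p r * m' r q) = ∑ r, χ (m p r) * χ (m' r q)
    rw [map_sum]
    exact Finset.sum_congr rfl fun r _ => map_mul χ _ _
  map_star' m := by
    ext p q
    exact map_star χ (m q p)

/-- the matrix-valued map with frozen coefficients -/
def fz (mt : A →ₗ[ℂ] Matrix P P B) (χ : B →⋆ₙₐ[ℂ] ℂ) : A →ₗ[ℂ] Matrix P P ℂ where
  toFun a := (mt a).map χ
  map_add' x y := by
    rw [map_add]
    ext p q
    exact map_add χ _ _
  map_smul' c x := by
    rw [map_smul]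
    ext p q
    exact map_smul χ c _

theorem fz_apply (mt : A →ₗ[ℂ] Matrix P P B) (χ : B →⋆ₙₐ[ℂ] ℂ) (a : A) :
    fz mt χ a = (mt a).map χ := rfl

theorem isCP_fz (o : P) (hβ : Function.Injective β) (mt : A →ₗ[ℂ] Matrix P P B)
    (hmt : ∀ a p q, β (mt a p q) = star (y p) * a * y q) (χ : B →⋆ₙₐ[ℂ] ℂ) :
    IsCP (fz mt χ) := by
  let _ := CStarAlgebra.spectralOrder A
  let _ := CStarAlgebra.spectralOrderedRing A
  let _ := CStarAlgebra.spectralOrder B
  let _ := CStarAlgebra.spectralOrderedRing B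
  have h1 : IsCP (((chm χ : CStarMatrix P P B →⋆ₙₐ[ℂ] Matrix P P ℂ) :
      CStarMatrix P P B →ₗ[ℂ] Matrix P P ℂ) ∘ₗ mtC mt) :=
    IsCP.comp (isCP_hom (chm χ) _ fun _ => rfl) (isCP_mtC o hβ mt hmt)
  exact h1

theorem norm_fz (o : P) (he : ‖ee y‖ ≤ 1) (hβ : Function.Injective β)
    (mt : A →ₗ[ℂ] Matrix P P B)
    (hmt : ∀ a p q, β (mt a p q) = star (y p) * a * y q) (χ : B →⋆ₙₐ[ℂ] ℂ) (a : A) :
    ‖fz mt χ a‖ ≤ ‖a‖ := by
  let _ := CStarAlgebra.spectralOrder A
  let _ := CStarAlgebra.spectralOrderedRing A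
  let _ := CStarAlgebra.spectralOrder B
  let _ := CStarAlgebra.spectralOrderedRing B
  have h1 : fz mt χ a = (chm χ : CStarMatrix P P B →⋆ₙₐ[ℂ] Matrix P P ℂ) (mtC mt a) := rfl
  rw [h1]
  exact (NonUnitalStarAlgHom.norm_apply_le
    (chm χ : CStarMatrix P P B →⋆ₙₐ[ℂ] Matrix P P ℂ) _).trans (norm_mtC o he hβ mt hmt a)

/-- the algebra `⊕_l M_{N l}` -/
abbrev FN {L : Type} [Fintype L] (N : L → Type) [∀ l, Fintype (N l)] [∀ l, DecidableEq (N l)] :
    FDA where
  ι := L
  n := N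

/-- the down map -/
def dn (mt : A →ₗ[ℂ] Matrix P P B) {L : Type} [Fintype L] (N : L → Type)
    [∀ l, Fintype (N l)] [∀ l, DecidableEq (N l)] (χ : L → (B →⋆ₙₐ[ℂ] ℂ))
    (V : ∀ l, Matrix P (N l) ℂ) : A →ₗ[ℂ] (FN N).alg :=
  LinearMap.pi fun l => compr (V l)ᴴ ∘ₗ fz mt (χ l)

theorem dn_apply (mt : A →ₗ[ℂ] Matrix P P B) {L : Type} [Fintype L] (N : L → Type)
    [∀ l, Fintype (N l)] [∀ l, DecidableEq (N l)] (χ : L → (B →⋆ₙₐ[ℂ] ℂ))
    (V : ∀ l, Matrix P (N l) ℂ) (a : A) (l : L) :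
    dn mt N χ V a l = (V l)ᴴ * (mt a).map (χ l) * V l := by
  change (V l)ᴴ * (mt a).map (χ l) * (V l)ᴴᴴ = _
  rw [Matrix.conjTranspose_conjTranspose]

theorem isCPC_dn (o : P) (he : ‖ee y‖ ≤ 1) (hβ : Function.Injective β)
    (mt : A →ₗ[ℂ] Matrix P P B)
    (hmt : ∀ a p q, β (mt a p q) = star (y p) * a * y q) {L : Type} [Fintype L] (N : L → Type)
    [∀ l, Fintype (N l)] [∀ l, DecidableEq (N l)] (χ : L → (B →⋆ₙₐ[ℂ] ℂ))
    (V : ∀ l, Matrix P (N l) ℂ) (hV : ∀ l, (V l)ᴴ * V l = 1) : IsCPC (dn mt N χ V) := by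
  constructor
  · refine isCP_of_family (J := L)
      (fun l => Pi.evalNonUnitalStarAlgHom ℂ (fun l : L => Matrix (N l) (N l) ℂ) l) ?_ _ ?_
    · intro b hb
      exact funext hb
    · intro l
      have h1 : IsCP (compr (V l)ᴴ ∘ₗ fz mt (χ l)) := by
        rcases isEmpty_or_nonempty (N l) with hN | hN
        · intro k M
          refine ⟨0, ?_⟩
          ext i j
          exact (hN.false (by assumption)).elim
        · exact (isCP_compr _).comp (isCP_fz o hβ mt hmt (χ l))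
      exact h1
  · intro a
    refine (pi_norm_le_iff_of_nonneg (norm_nonneg a)).2 fun l => ?_
    rw [dn_apply]
    have hn : ‖V l‖ ≤ 1 := norm_le_one_of_isom _ (hV l)
    calc ‖(V l)ᴴ * (mt a).map (χ l) * V l‖ ≤ ‖(V l)ᴴ‖ * ‖(mt a).map (χ l)‖ * ‖V l‖ :=
          (Matrix.l2_opNorm_mul _ _).trans (by gcongr; exact Matrix.l2_opNorm_mul _ _)
      _ ≤ 1 * ‖a‖ * 1 := by
          rw [Matrix.l2_opNorm_conjTranspose]
          gcongr
          exact norm_fz o he hβ mt hmt (χ l) a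
      _ = ‖a‖ := by ring

end down

section pert

variable {A : Type} [NonUnitalCStarAlgebra A] {L : Type} [Fintype L] {N : L → Type}
  [∀ l, Fintype (N l)] [∀ l, DecidableEq (N l)]

/-- perturbation of row maps, uniformly in the number of blocks -/
theorem pert (r : ℕ) (hr : ∀ l, Fintype.card (N l) ≤ r) (z X : ∀ l, N l → A) (η : ℝ)
    (hzz : ∀ l l' i j, l ≠ l' → star (z l i) * z l' j = 0)
    (hXz : ∀ l l' i j, l ≠ l' → star (X l i) * z l' j = 0)
    (hXX : ∀ l l' i j, l ≠ l' → star (X l i) * X l' j = 0)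
    (hz : ∀ l i, ‖z l i‖ ≤ 1) (hX : ∀ l i, ‖X l i‖ ≤ 1) (hη : ∀ l i, ‖z l i - X l i‖ ≤ η)
    (hη0 : 0 ≤ η) (d : (FN N).alg) :
    ‖rowMap (FN N) z d - rowMap (FN N) X d‖ ≤ 2 * (r : ℝ) ^ 2 * η * ‖d‖ := by
  have hzX : ∀ l l' i j, l ≠ l' → star (z l i) * X l' j = 0 := by
    intro l l' i j hl
    have := congrArg star (hXz l' l j i (Ne.symm hl))
    rwa [star_mul, star_star, star_zero] at this
  obtain ⟨D, hD⟩ : ∃ D : L → A, ∀ l, D l =
      ∑ i, ∑ j, (d l i j • (z l i * star (z l j)) - d l i j • (X l i * star (X l j))) :=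
    ⟨_, fun _ => rfl⟩
  have e1 : rowMap (FN N) z d - rowMap (FN N) X d = ∑ l, D l := by
    change (∑ l, ∑ i, ∑ j, d l i j • (z l i * star (z l j))) -
      (∑ l, ∑ i, ∑ j, d l i j • (X l i * star (X l j))) = _
    rw [← Finset.sum_sub_distrib]
    refine Finset.sum_congr rfl fun l _ => ?_
    rw [hD, ← Finset.sum_sub_distrib]
    exact Finset.sum_congr rfl fun i _ => Finset.sum_sub_distrib _ _ |>.symm
  rw [e1]
  have h1 : ∀ l l' i, l ≠ l' → star (z l i) * D l' = 0 := by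
    intro l l' i hl
    rw [hD, Finset.mul_sum]
    refine Finset.sum_eq_zero fun i' _ => ?_
    rw [Finset.mul_sum]
    refine Finset.sum_eq_zero fun j' _ => ?_
    rw [mul_sub, mul_smul_comm, mul_smul_comm, ← mul_assoc, ← mul_assoc, hzz l l' i i' hl,
      hzX l l' i i' hl]
    simp
  have h2 : ∀ l l' i, l ≠ l' → star (X l i) * D l' = 0 := by
    intro l l' i hl
    rw [hD, Finset.mul_sum]
    refine Finset.sum_eq_zero fun i' _ => ?_
    rw [Finset.mul_sum]
    refine Finset.sum_eq_zero fun j' _ => ?_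
    rw [mul_sub, mul_smul_comm, mul_smul_comm, ← mul_assoc, ← mul_assoc, hXz l l' i i' hl,
      hXX l l' i i' hl]
    simp
  have h3 : ∀ l l' i, l ≠ l' → D l' * z l i = 0 := by
    intro l l' i hl
    rw [hD, Finset.sum_mul]
    refine Finset.sum_eq_zero fun i' _ => ?_
    rw [Finset.sum_mul]
    refine Finset.sum_eq_zero fun j' _ => ?_
    rw [sub_mul, smul_mul_assoc, smul_mul_assoc, mul_assoc, mul_assoc,
      hzz l' l j' i (Ne.symm hl), hXz l' l j' i (Ne.symm hl)]
    simp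
  have h4 : ∀ l l' i, l ≠ l' → D l' * X l i = 0 := by
    intro l l' i hl
    rw [hD, Finset.sum_mul]
    refine Finset.sum_eq_zero fun i' _ => ?_
    rw [Finset.sum_mul]
    refine Finset.sum_eq_zero fun j' _ => ?_
    rw [sub_mul, smul_mul_assoc, smul_mul_assoc, mul_assoc, mul_assoc,
      hzX l' l j' i (Ne.symm hl), hXX l' l j' i (Ne.symm hl)]
    simp
  refine norm_sum_orth D _ (by positivity) ?_ ?_ ?_
  · intro l l' hl
    rw [hD l, star_sum, Finset.sum_mul]
    refine Finset.sum_eq_zero fun i _ => ?_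
    rw [star_sum, Finset.sum_mul]
    refine Finset.sum_eq_zero fun j _ => ?_
    rw [star_sub, star_smul, star_smul, star_mul, star_mul, star_star, star_star, sub_mul,
      smul_mul_assoc, smul_mul_assoc, mul_assoc, mul_assoc, h1 l l' i hl, h2 l l' i hl]
    simp
  · intro l l' hl
    rw [hD l', star_sum, Finset.mul_sum]
    refine Finset.sum_eq_zero fun i _ => ?_
    rw [star_sum, Finset.mul_sum]
    refine Finset.sum_eq_zero fun j _ => ?_
    rw [star_sub, star_smul, star_smul, star_mul, star_mul, star_star, star_star, mul_sub,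
      mul_smul_comm, mul_smul_comm, ← mul_assoc, ← mul_assoc, h3 l' l j (Ne.symm hl),
      h4 l' l j (Ne.symm hl)]
    simp
  · intro l
    have hdl : ∀ i j, ‖d l i j‖ ≤ ‖d‖ := fun i j =>
      (norm_entry (d l) i j).trans (norm_le_pi_norm d l)
    have hterm : ∀ i j, ‖d l i j • (z l i * star (z l j)) - d l i j • (X l i * star (X l j))‖ ≤
        ‖d‖ * (2 * η) := by
      intro i j
      rw [← smul_sub, norm_smul]
      have e2 : z l i * star (z l j) - X l i * star (X l j) =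
          (z l i - X l i) * star (z l j) + X l i * star (z l j - X l j) := by
        rw [star_sub, sub_mul, mul_sub]; abel
      have e3 : ‖z l i * star (z l j) - X l i * star (X l j)‖ ≤ 2 * η := by
        rw [e2]
        calc ‖(z l i - X l i) * star (z l j) + X l i * star (z l j - X l j)‖
            ≤ ‖z l i - X l i‖ * ‖star (z l j)‖ + ‖X l i‖ * ‖star (z l j - X l j)‖ :=
              (norm_add_le _ _).trans (add_le_add (norm_mul_le _ _) (norm_mul_le _ _))
          _ ≤ η * 1 + 1 * η := by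
              rw [norm_star, norm_star]
              gcongr
              · exact hη l i
              · exact hz l j
              · exact hX l i
              · exact hη l j
          _ = 2 * η := by ring
      exact mul_le_mul (hdl i j) e3 (norm_nonneg _) (norm_nonneg _)
    rw [hD]
    have hrl : (Fintype.card (N l) : ℝ) ≤ r := by exact_mod_cast hr l
    calc ‖∑ i, ∑ j, (d l i j • (z l i * star (z l j)) - d l i j • (X l i * star (X l j)))‖
        ≤ ∑ i : N l, ∑ j : N l, ‖d‖ * (2 * η) :=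
          norm_sum_le_of_le _ fun i _ => norm_sum_le_of_le _ fun j _ => hterm i j
      _ = (Fintype.card (N l) : ℝ) * (Fintype.card (N l)) * (‖d‖ * (2 * η)) := by
          simp only [Finset.sum_const, Finset.card_univ, nsmul_eq_mul]
          ring
      _ ≤ (r : ℝ) * r * (‖d‖ * (2 * η)) := by gcongr
      _ = 2 * (r : ℝ) ^ 2 * η * ‖d‖ := by ring

end pert

/-- the data for one colour -/
structure Col {A B : Type} [NonUnitalCStarAlgebra A] [NonUnitalCStarAlgebra B]
    (β : B →⋆ₙₐ[ℂ] A) {P : Type} [Fintype P] [DecidableEq P] (y : P → A)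
    (mt : A →ₗ[ℂ] Matrix P P B) (z : Matrix P P B) {L : Type} [Fintype L] (φ : L → B)
    (χ : L → (B →⋆ₙₐ[ℂ] ℂ)) (G : Set A) (ε1 ε3 : ℝ) : Prop where
  hB : ∀ x y : B, x * y = y * x
  hβ : Function.Injective β
  he : ‖ee y‖ ≤ 1
  hmt : ∀ a p q, β (mt a p q) = star (y p) * a * y q
  hz : ∀ p q, β (z p q) = star (y p) * y q
  hφ : ∀ l, Pos (φ l)
  hor : ∀ l l', l ≠ l' → φ l * φ l' = 0
  h1 : ‖∑ l, φ l‖ ≤ 1
  hε1 : 0 ≤ ε1
  hε3 : 0 ≤ ε3
  hχ : ∀ g ∈ G, ∀ l p q, ‖mt g p q * φ l - χ l (mt g p q) • φ l‖ ≤ ε3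
  hχz : ∀ l p q, ‖z p q * φ l - χ l (z p q) • φ l‖ ≤ ε3
  hG1 : ∀ g ∈ G, ‖g - ee y * g‖ ≤ ε1
  hG2 : ∀ g ∈ G, ‖g - g * ee y‖ ≤ ε1

section colour

variable {A B : Type} [NonUnitalCStarAlgebra A] [NonUnitalCStarAlgebra B]
  {β : B →⋆ₙₐ[ℂ] A} {P : Type} [Fintype P] [DecidableEq P] {y : P → A}
  {mt : A →ₗ[ℂ] Matrix P P B} {z : Matrix P P B} {L : Type} [Fintype L] {φ : L → B}
  {χ : L → (B →⋆ₙₐ[ℂ] ℂ)} {G : Set A} {ε1 ε3 : ℝ}
  {N : L → Type} [∀ l, Fintype (N l)] [∀ l, DecidableEq (N l)]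

/-- the almost exact row -/
def Xr (β : B →⋆ₙₐ[ℂ] A) (y : P → A) (h : L → B) (V : ∀ l, Matrix P (N l) ℂ) (l : L)
    (i : N l) : A := ∑ p, V l p i • (y p * β (h l))

theorem sum_comm4' {T S A : Type} [Fintype T] [Fintype S] [AddCommMonoid A]
    (f : T → T → S → S → A) :
    ∑ c, ∑ t, ∑ i, ∑ j, f c t i j = ∑ i, ∑ j, ∑ c, ∑ t, f c t i j := by
  have h1 : ∀ c, ∑ t, ∑ i, ∑ j, f c t i j = ∑ i, ∑ j, ∑ t, f c t i j := by
    intro c
    rw [Finset.sum_comm]
    exact Finset.sum_congr rfl fun i _ => Finset.sum_comm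
  rw [Finset.sum_congr rfl fun c _ => h1 c, Finset.sum_comm]
  exact Finset.sum_congr rfl fun i _ => Finset.sum_comm

theorem rowMap_X (h : L → B) (hh : ∀ l, h l * star (h l) = φ l) (V : ∀ l, Matrix P (N l) ℂ)
    (d : (FN N).alg) :
    rowMap (FN N) (Xr β y h V) d = Th β y (tens φ (fun l => V l * d l * (V l)ᴴ)) := by
  change (∑ l, ∑ i, ∑ j, d l i j • (Xr β y h V l i * star (Xr β y h V l j))) = _
  have hR : Th β y (tens φ (fun l => V l * d l * (V l)ᴴ)) =
      ∑ l, ∑ p, ∑ q, (V l * d l * (V l)ᴴ) p q • (y p * β (φ l) * star (y q)) := by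
    unfold Th
    conv_rhs => rw [Finset.sum_comm]
    refine Finset.sum_congr rfl fun p _ => ?_
    conv_rhs => rw [Finset.sum_comm]
    refine Finset.sum_congr rfl fun q _ => ?_
    rw [tens_apply, map_sum, Finset.mul_sum, Finset.sum_mul]
    refine Finset.sum_congr rfl fun l _ => ?_
    rw [map_smul, mul_smul_comm, smul_mul_assoc]
  rw [hR]
  refine Finset.sum_congr rfl fun l _ => ?_
  have hx : ∀ i j, Xr β y h V l i * star (Xr β y h V l j) =
      ∑ p, ∑ q, (V l p i * star (V l q j)) • (y p * β (φ l) * star (y q)) := by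
    intro i j
    unfold Xr
    rw [star_sum, Finset.sum_mul_sum]
    refine Finset.sum_congr rfl fun p _ => Finset.sum_congr rfl fun q _ => ?_
    rw [star_smul, smul_mul_smul_comm, star_mul, ← hh l, map_mul, map_star]
    simp only [mul_assoc]
  have hL : ∀ i j, d l i j • (Xr β y h V l i * star (Xr β y h V l j)) =
      ∑ p, ∑ q, (V l p i * d l i j * star (V l q j)) • (y p * β (φ l) * star (y q)) := by
    intro i j
    rw [hx, Finset.smul_sum]
    refine Finset.sum_congr rfl fun p _ => ?_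
    rw [Finset.smul_sum]
    refine Finset.sum_congr rfl fun q _ => ?_
    rw [smul_smul]
    congr 1
    ring
  rw [Finset.sum_congr rfl fun i _ => Finset.sum_congr rfl fun j _ => hL i j, sum_comm4']
  refine Finset.sum_congr rfl fun p _ => Finset.sum_congr rfl fun q _ => ?_
  rw [Matrix.mul_apply, Finset.sum_smul, Finset.sum_comm]
  refine Finset.sum_congr rfl fun j _ => ?_
  rw [Matrix.mul_apply, ← Finset.sum_smul, Matrix.conjTranspose_apply, Finset.sum_mul]

theorem rowMap_one' {F : FDA} (x : ∀ l : F.ι, F.n l → A) :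
    rowMap F x 1 = ∑ l, ∑ i, x l i * star (x l i) := by
  change (∑ l, ∑ i, ∑ j, (1 : F.alg) l i j • (x l i * star (x l j))) = _
  refine Finset.sum_congr rfl fun l _ => Finset.sum_congr rfl fun i _ => ?_
  rw [Finset.sum_eq_single i]
  · rw [Pi.one_apply, Matrix.one_apply_eq, one_smul]
  · intro j _ hj
    rw [Pi.one_apply, Matrix.one_apply_ne (Ne.symm hj), zero_smul]
  · intro hi; exact absurd (Finset.mem_univ i) hi

theorem norm_row_sq {F : FDA} (x : ∀ l : F.ι, F.n l → A) (l : F.ι) (i : F.n l) :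
    ‖x l i‖ ^ 2 ≤ ‖rowMap F x 1‖ := by
  let _ := CStarAlgebra.spectralOrder A
  let _ := CStarAlgebra.spectralOrderedRing A
  rw [rowMap_one', pow_two, ← CStarRing.norm_self_mul_star]
  refine CStarAlgebra.norm_le_norm_of_nonneg_of_le (mul_star_self_nonneg _) ?_
  have h1 : x l i * star (x l i) ≤ ∑ i, x l i * star (x l i) :=
    Finset.single_le_sum (f := fun i => x l i * star (x l i))
      (fun i _ => mul_star_self_nonneg _) (Finset.mem_univ i)
  refine h1.trans ?_
  exact Finset.single_le_sum (f := fun l => ∑ i, x l i * star (x l i))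
    (fun l _ => Finset.sum_nonneg fun i _ => mul_star_self_nonneg _) (Finset.mem_univ l)

theorem pos_rowMap_one {F : FDA} (x : ∀ l : F.ι, F.n l → A) : Pos (rowMap F x 1) := by
  rw [rowMap_one']
  exact Pos.sum _ fun l _ => Pos.sum _ fun i _ => pos_mul_star _

theorem star_X_X (hz : ∀ p q, β (z p q) = star (y p) * y q) (h : L → B)
    (V : ∀ l, Matrix P (N l) ℂ) (l l' : L) (i : N l) (j : N l') :
    star (Xr β y h V l i) * Xr β y h V l' j =
      β (star (h l) * (∑ p, ∑ q, (star (V l p i) * V l' q j) • z p q) * h l') := by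
  unfold Xr
  rw [star_sum, Finset.sum_mul_sum, Finset.mul_sum, Finset.sum_mul, map_sum]
  refine Finset.sum_congr rfl fun p _ => ?_
  rw [Finset.mul_sum, Finset.sum_mul, map_sum]
  refine Finset.sum_congr rfl fun q _ => ?_
  rw [star_smul, smul_mul_smul_comm, star_mul, mul_smul_comm, smul_mul_assoc, map_smul, map_mul,
    map_mul, map_star, hz]
  simp only [mul_assoc]

theorem h_orth (H : Col β y mt z φ χ G ε1 ε3) (h : L → B) (hh : ∀ l, h l * star (h l) = φ l)
    (l l' : L) (hl : l ≠ l') : star (h l) * h l' = 0 := by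
  have h2 : star (star (h l) * h l') * (star (h l) * h l') = φ l * φ l' := by
    rw [star_mul, star_star, ← hh l, ← hh l']
    calc star (h l') * h l * (star (h l) * h l') = star (h l') * (h l * star (h l)) * h l' := by
          simp only [mul_assoc]
      _ = (h l * star (h l)) * (star (h l') * h l') := by
          rw [H.hB (star (h l')), mul_assoc]
      _ = _ := by rw [H.hB (star (h l')) (h l')]
  rw [H.hor l l' hl] at h2
  have h3 : ‖star (h l) * h l'‖ * ‖star (h l) * h l'‖ = 0 := by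
    rw [← CStarRing.norm_star_mul_self, h2, norm_zero]
  exact norm_eq_zero.1 (mul_self_eq_zero.1 h3)

theorem X_orth (H : Col β y mt z φ χ G ε1 ε3) (h : L → B) (hh : ∀ l, h l * star (h l) = φ l)
    (V : ∀ l, Matrix P (N l) ℂ) (l l' : L) (i : N l) (j : N l') (hl : l ≠ l') :
    star (Xr β y h V l i) * Xr β y h V l' j = 0 := by
  rw [star_X_X H.hz, H.hB (star (h l)), mul_assoc, h_orth H h hh l l' hl, mul_zero, map_zero]

theorem phi_norm (H : Col β y mt z φ χ G ε1 ε3) (l : L) : ‖φ l‖ ≤ 1 := by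
  let _ := CStarAlgebra.spectralOrder B
  let _ := CStarAlgebra.spectralOrderedRing B
  refine le_trans (CStarAlgebra.norm_le_norm_of_nonneg_of_le ((pos_iff _).1 (H.hφ l)) ?_) H.h1
  exact Finset.single_le_sum (f := φ) (fun l _ => (pos_iff _).1 (H.hφ l)) (Finset.mem_univ l)

/-- the rows `X` are almost exact -/
theorem X_almost (H : Col β y mt z φ χ G ε1 ε3) (h : L → B) (hh : ∀ l, h l * star (h l) = φ l)
    (V : ∀ l, Matrix P (N l) ℂ) (hV : ∀ l, (V l)ᴴ * V l = 1) (κ : ℝ)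
    (hκ : ∀ l, ‖(1 - z.map (χ l)) * V l‖ ≤ κ) (l : L) (i j : N l) :
    ‖star (Xr β y h V l i) * Xr β y h V l j - (if i = j then β (φ l) else 0)‖ ≤
      (Fintype.card P : ℝ) ^ 2 * ε3 + κ := by
  have hVn : ‖V l‖ ≤ 1 := norm_le_one_of_isom _ (hV l)
  have hVe : ∀ p i, ‖V l p i‖ ≤ 1 := fun p i => (norm_entry _ p i).trans hVn
  have e1 : star (h l) * (∑ p, ∑ q, (star (V l p i) * V l q j) • z p q) * h l =
      ∑ p, ∑ q, (star (V l p i) * V l q j) • (z p q * φ l) := by
    rw [H.hB (star (h l)), mul_assoc, H.hB (star (h l)) (h l), hh, Finset.sum_mul]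
    refine Finset.sum_congr rfl fun p _ => ?_
    rw [Finset.sum_mul]
    exact Finset.sum_congr rfl fun q _ => smul_mul_assoc _ _ _
  have e2 : (if i = j then β (φ l) else 0) = β ((if i = j then (1 : ℂ) else 0) • φ l) := by
    split_ifs
    · rw [one_smul]
    · rw [zero_smul, map_zero]
  rw [star_X_X H.hz, e1, e2, ← map_sub]
  refine (NonUnitalStarAlgHom.norm_apply_le β _).trans ?_
  have e3 : ∑ p, ∑ q, (star (V l p i) * V l q j) • (z p q * φ l) =
      (∑ p, ∑ q, (star (V l p i) * V l q j) • (z p q * φ l - χ l (z p q) • φ l)) +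
        ((V l)ᴴ * z.map (χ l) * V l) i j • φ l := by
    have : ((V l)ᴴ * z.map (χ l) * V l) i j =
        ∑ p, ∑ q, (star (V l p i) * V l q j) * χ l (z p q) := by
      rw [Matrix.mul_apply, Finset.sum_comm]
      refine Finset.sum_congr rfl fun q _ => ?_
      rw [Matrix.mul_apply, Finset.sum_mul]
      refine Finset.sum_congr rfl fun p _ => ?_
      rw [Matrix.conjTranspose_apply, Matrix.map_apply]
      ring
    rw [this, Finset.sum_smul, ← Finset.sum_add_distrib]
    refine Finset.sum_congr rfl fun p _ => ?_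
    rw [Finset.sum_smul, ← Finset.sum_add_distrib]
    refine Finset.sum_congr rfl fun q _ => ?_
    rw [smul_sub, smul_smul]
    abel
  have e4 : (if i = j then (1 : ℂ) else 0) = ((V l)ᴴ * V l) i j := by
    rw [hV, Matrix.one_apply]
  have e5 : ((V l)ᴴ * z.map (χ l) * V l) i j - ((V l)ᴴ * V l) i j =
      -(((V l)ᴴ * ((1 - z.map (χ l)) * V l) : Matrix (N l) (N l) ℂ) i j) := by
    rw [Matrix.sub_mul, Matrix.one_mul, Matrix.mul_sub, Matrix.mul_assoc, Matrix.sub_apply]
    ring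
  rw [e3, e4, add_sub_assoc, ← sub_smul, e5]
  refine (norm_add_le _ _).trans (add_le_add ?_ ?_)
  · calc ‖∑ p, ∑ q, (star (V l p i) * V l q j) • (z p q * φ l - χ l (z p q) • φ l)‖
        ≤ ∑ p : P, ∑ q : P, ε3 := by
          refine norm_sum_le_of_le _ fun p _ => norm_sum_le_of_le _ fun q _ => ?_
          rw [norm_smul, norm_mul, norm_star]
          calc ‖V l p i‖ * ‖V l q j‖ * ‖z p q * φ l - χ l (z p q) • φ l‖ ≤ 1 * 1 * ε3 := by
                gcongr
                · exact hVe p i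
                · exact hVe q j
                · exact H.hχz l p q
            _ = ε3 := by ring
      _ = (Fintype.card P : ℝ) ^ 2 * ε3 := by
          simp only [Finset.sum_const, Finset.card_univ, nsmul_eq_mul]
          ring
  · rw [norm_smul, norm_neg]
    calc ‖((V l)ᴴ * ((1 - z.map (χ l)) * V l) : Matrix (N l) (N l) ℂ) i j‖ * ‖φ l‖
        ≤ ‖(V l)ᴴ * ((1 - z.map (χ l)) * V l)‖ * 1 := by
          gcongr
          · exact norm_entry _ i j
          · exact phi_norm H l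
      _ ≤ (1 * κ) * 1 := by
          gcongr
          refine (Matrix.l2_opNorm_mul _ _).trans ?_
          rw [Matrix.l2_opNorm_conjTranspose]
          gcongr
          exact hκ l
      _ = κ := by ring

end colour

section colour2

variable {A B : Type} [NonUnitalCStarAlgebra A] [NonUnitalCStarAlgebra B]
  {β : B →⋆ₙₐ[ℂ] A} {P : Type} [Fintype P] [DecidableEq P] {y : P → A}
  {mt : A →ₗ[ℂ] Matrix P P B} {z : Matrix P P B} {L : Type} [Fintype L] {φ : L → B}
  {χ : L → (B →⋆ₙₐ[ℂ] ℂ)} {G : Set A} {ε1 ε3 : ℝ}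
  {N : L → Type} [∀ l, Fintype (N l)] [∀ l, DecidableEq (N l)]

theorem PP_norm {N : Type} [Fintype N] [DecidableEq N] (V : Matrix P N ℂ) (hV : Vᴴ * V = 1) :
    ‖V * Vᴴ‖ ≤ 1 := by
  have h := norm_le_one_of_isom V hV
  calc ‖V * Vᴴ‖ ≤ ‖V‖ * ‖Vᴴ‖ := Matrix.l2_opNorm_mul _ _
    _ ≤ 1 * 1 := by
        rw [Matrix.l2_opNorm_conjTranspose]
        gcongr
    _ = 1 := one_mul 1

theorem z_mul_mt (H : Col β y mt z φ χ G ε1 ε3) (g : A) : z * mt g = mt (ee y * g) := by
  ext p s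
  apply H.hβ
  rw [Matrix.mul_apply, map_sum, H.hmt, ee, Finset.sum_mul, Finset.mul_sum, Finset.sum_mul]
  refine Finset.sum_congr rfl fun q _ => ?_
  rw [map_mul, H.hz, H.hmt]
  simp only [mul_assoc]

theorem mt_star (H : Col β y mt z φ χ G ε1 ε3) (g : A) (l : L) :
    (mt (star g)).map (χ l) = ((mt g).map (χ l))ᴴ := by
  ext p q
  rw [Matrix.conjTranspose_apply, Matrix.map_apply, Matrix.map_apply, ← map_star (χ l)]
  congr 1
  apply H.hβ
  rw [map_star β, H.hmt, H.hmt]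
  simp only [star_mul, star_star, mul_assoc]

theorem one_sub_z (H : Col β y mt z φ χ G ε1 ε3) (o : P) (g : A) (l : L) :
    ‖(1 - z.map (χ l)) * (mt g).map (χ l)‖ ≤ ‖g - ee y * g‖ := by
  have h1 : (1 - z.map (χ l)) * (mt g).map (χ l) = fz mt (χ l) (g - ee y * g) := by
    rw [map_sub, fz_apply, fz_apply, ← z_mul_mt H, Matrix.sub_mul, Matrix.one_mul]
    congr 1
    ext p q
    rw [Matrix.mul_apply, Matrix.map_apply, Matrix.mul_apply, map_sum]
    exact Finset.sum_congr rfl fun r _ => (map_mul (χ l) _ _).symm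
  rw [h1]
  exact norm_fz o H.he H.hβ mt H.hmt (χ l) _

theorem star_ee : star (ee y) = ee y := (pos_ee (y := y)).sa

theorem est_Pm (H : Col β y mt z φ χ G ε1 ε3) (o : P) (V : ∀ l, Matrix P (N l) ℂ) (κ : ℝ)
    (hκ : 0 < κ)
    (hS : ∀ l, ∀ m : Matrix P P ℂ, ‖m - V l * (V l)ᴴ * m‖ ≤ κ⁻¹ * ‖(1 - z.map (χ l)) * m‖)
    (g : A) (hg : g ∈ G) (l : L) :
    ‖(mt g).map (χ l) - V l * (V l)ᴴ * (mt g).map (χ l)‖ ≤ κ⁻¹ * ε1 := by
  refine (hS l _).trans ?_
  gcongr
  exact (one_sub_z H o g l).trans (H.hG1 g hg)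

theorem est_mP (H : Col β y mt z φ χ G ε1 ε3) (o : P) (V : ∀ l, Matrix P (N l) ℂ) (κ : ℝ)
    (hκ : 0 < κ)
    (hS : ∀ l, ∀ m : Matrix P P ℂ, ‖m - V l * (V l)ᴴ * m‖ ≤ κ⁻¹ * ‖(1 - z.map (χ l)) * m‖)
    (g : A) (hg : g ∈ G) (l : L) :
    ‖(mt g).map (χ l) - (mt g).map (χ l) * (V l * (V l)ᴴ)‖ ≤ κ⁻¹ * ε1 := by
  have h1 : ((mt g).map (χ l) - (mt g).map (χ l) * (V l * (V l)ᴴ))ᴴ =
      (mt (star g)).map (χ l) - V l * (V l)ᴴ * (mt (star g)).map (χ l) := by
    rw [Matrix.conjTranspose_sub, Matrix.conjTranspose_mul, Matrix.conjTranspose_mul,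
      Matrix.conjTranspose_conjTranspose, mt_star H]
  rw [← Matrix.l2_opNorm_conjTranspose, h1]
  refine (hS l _).trans ?_
  gcongr
  refine (one_sub_z H o (star g) l).trans ?_
  have h2 : star g - ee y * star g = star (g - g * ee y) := by
    rw [star_sub, star_mul, star_ee]
  rw [h2, norm_star]
  exact H.hG2 g hg

theorem est_PmP (H : Col β y mt z φ χ G ε1 ε3) (o : P) (V : ∀ l, Matrix P (N l) ℂ)
    (hV : ∀ l, (V l)ᴴ * V l = 1) (κ : ℝ) (hκ : 0 < κ)
    (hS : ∀ l, ∀ m : Matrix P P ℂ, ‖m - V l * (V l)ᴴ * m‖ ≤ κ⁻¹ * ‖(1 - z.map (χ l)) * m‖)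
    (g : A) (hg : g ∈ G) (l : L) :
    ‖V l * ((V l)ᴴ * (mt g).map (χ l) * V l) * (V l)ᴴ - (mt g).map (χ l)‖ ≤
      2 * (κ⁻¹ * ε1) := by
  have e1 : V l * ((V l)ᴴ * (mt g).map (χ l) * V l) * (V l)ᴴ - (mt g).map (χ l) =
      -(((mt g).map (χ l) - V l * (V l)ᴴ * (mt g).map (χ l)) +
        V l * (V l)ᴴ * ((mt g).map (χ l) - (mt g).map (χ l) * (V l * (V l)ᴴ))) := by
    rw [Matrix.mul_sub]
    simp only [Matrix.mul_assoc]
    abel
  rw [e1, norm_neg]
  refine (norm_add_le _ _).trans ?_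
  have e2 := est_Pm H o V κ hκ hS g hg l
  have e3 := est_mP H o V κ hκ hS g hg l
  have e4 : ‖V l * (V l)ᴴ * ((mt g).map (χ l) - (mt g).map (χ l) * (V l * (V l)ᴴ))‖ ≤
      1 * (κ⁻¹ * ε1) := by
    refine (Matrix.l2_opNorm_mul _ _).trans ?_
    gcongr
    exact PP_norm _ (hV l)
  linarith

/-- the element `E` -/
def EE (β : B →⋆ₙₐ[ℂ] A) (y : P → A) (φ : L → B) : A :=
  Th β y (Matrix.diagonal fun _ => ∑ l, φ l)

theorem EE_norm (H : Col β y mt z φ χ G ε1 ε3) : ‖EE β y φ‖ ≤ 1 := by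
  have hp : Pos (∑ l, φ l) := Pos.sum _ fun l _ => H.hφ l
  exact ((pos_Th_diag _ hp).norm_le (Th_diag_le _ hp H.h1)).trans H.he

theorem one_entry (l : L) (p q : P) : ‖(1 : Matrix P P ℂ) p q‖ ≤ 1 := by
  rw [Matrix.one_apply]
  split_ifs <;> simp

/-- `T(g) ≈ E g` -/
theorem est_T (H : Col β y mt z φ χ G ε1 ε3) (o : P) (h : L → B)
    (hh : ∀ l, h l * star (h l) = φ l) (V : ∀ l, Matrix P (N l) ℂ)
    (hV : ∀ l, (V l)ᴴ * V l = 1) (κ : ℝ) (hκ : 0 < κ)
    (hS : ∀ l, ∀ m : Matrix P P ℂ, ‖m - V l * (V l)ᴴ * m‖ ≤ κ⁻¹ * ‖(1 - z.map (χ l)) * m‖)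
    (g : A) (hg : g ∈ G) :
    ‖rowMap (FN N) (Xr β y h V) (dn mt N χ V g) - EE β y φ * g‖ ≤
      2 * (κ⁻¹ * ε1) + (Fintype.card P : ℝ) ^ 2 * (Fintype.card P * ε3) + ε1 := by
  have e0 : rowMap (FN N) (Xr β y h V) (dn mt N χ V g) =
      Th β y (tens φ (fun l => V l * ((V l)ᴴ * (mt g).map (χ l) * V l) * (V l)ᴴ)) := by
    rw [rowMap_X h hh]
    congr 2
    funext l
    rw [dn_apply]
  have e1 : ‖Th β y (tens φ (fun l => V l * ((V l)ᴴ * (mt g).map (χ l) * V l) * (V l)ᴴ)) -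
      Th β y (tens φ (fun l => (mt g).map (χ l)))‖ ≤ 2 * (κ⁻¹ * ε1) := by
    refine norm_tens_sub H.hB H.he φ H.hφ H.h1 _ _ _ ?_ ?_
    · have := H.hε1
      positivity
    · exact est_PmP H o V hV κ hκ hS g hg
  have e2 := frozen H.hB H.he mt H.hmt φ H.hφ H.hor χ g ε3 H.hε3 (H.hχ g hg)
    (fun _ => (1 : Matrix P P ℂ)) (fun l p q => one_entry l p q)
  simp only [Matrix.one_mul] at e2
  rw [tens_one] at e2
  have e3 : ‖EE β y φ * g * ee y - EE β y φ * g‖ ≤ ε1 := by
    rw [mul_assoc, ← mul_sub]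
    calc ‖EE β y φ * (g * ee y - g)‖ ≤ ‖EE β y φ‖ * ‖g * ee y - g‖ := norm_mul_le _ _
      _ ≤ 1 * ε1 := by
          gcongr
          · exact EE_norm H
          · rw [norm_sub_rev]; exact H.hG2 g hg
      _ = ε1 := one_mul _
  rw [e0]
  obtain ⟨T, hT⟩ : ∃ T, T = Th β y
    (tens φ (fun l => V l * ((V l)ᴴ * (mt g).map (χ l) * V l) * (V l)ᴴ)) := ⟨_, rfl⟩
  obtain ⟨T', hT'⟩ : ∃ T', T' = Th β y (tens φ (fun l => (mt g).map (χ l))) := ⟨_, rfl⟩
  rw [← hT, ← hT'] at e1
  rw [← hT'] at e2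
  rw [← hT]
  change ‖EE β y φ * g * ee y - T'‖ ≤ _ at e2
  calc ‖T - EE β y φ * g‖ = ‖(T - T') - (EE β y φ * g * ee y - T') +
        (EE β y φ * g * ee y - EE β y φ * g)‖ := by congr 1; abel
    _ ≤ ‖T - T'‖ + ‖EE β y φ * g * ee y - T'‖ + ‖EE β y φ * g * ee y - EE β y φ * g‖ :=
        (norm_add_le _ _).trans (by gcongr; exact norm_sub_le _ _)
    _ ≤ _ := by gcongr

/-- the element `c` -/
theorem c_eq (h : L → B) (hh : ∀ l, h l * star (h l) = φ l) (V : ∀ l, Matrix P (N l) ℂ) :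
    rowMap (FN N) (Xr β y h V) 1 = Th β y (tens φ (fun l => V l * (V l)ᴴ)) := by
  rw [rowMap_X h hh]
  congr 2
  funext l
  rw [Pi.one_apply, Matrix.mul_one]

theorem c_norm (H : Col β y mt z φ χ G ε1 ε3) (h : L → B)
    (hh : ∀ l, h l * star (h l) = φ l) (V : ∀ l, Matrix P (N l) ℂ)
    (hV : ∀ l, (V l)ᴴ * V l = 1) : ‖rowMap (FN N) (Xr β y h V) 1‖ ≤ 1 := by
  rw [c_eq h hh]
  exact norm_tens H.hB H.he φ H.hφ H.h1 _ _ zero_le_one fun l => PP_norm _ (hV l)

theorem c_le (H : Col β y mt z φ χ G ε1 ε3) (h : L → B)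
    (hh : ∀ l, h l * star (h l) = φ l) (V : ∀ l, Matrix P (N l) ℂ)
    (hV : ∀ l, (V l)ᴴ * V l = 1) : Pos (EE β y φ - rowMap (FN N) (Xr β y h V) 1) := by
  rw [c_eq h hh, EE, ← tens_one, ← Th_sub, ← tens_sub]
  refine pos_tens H.hB φ H.hφ _ ⟨fun l => 1 - V l * (V l)ᴴ, ?_⟩
  funext l
  change 1 - V l * (V l)ᴴ = (1 - V l * (V l)ᴴ)ᴴ * (1 - V l * (V l)ᴴ)
  have e1 : (V l * (V l)ᴴ)ᴴ = V l * (V l)ᴴ := by
    rw [Matrix.conjTranspose_mul, Matrix.conjTranspose_conjTranspose]
  have e2 : V l * (V l)ᴴ * (V l * (V l)ᴴ) = V l * (V l)ᴴ := by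
    calc V l * (V l)ᴴ * (V l * (V l)ᴴ) = V l * ((V l)ᴴ * V l) * (V l)ᴴ := by
          simp only [Matrix.mul_assoc]
      _ = _ := by rw [hV, Matrix.mul_one]
  rw [Matrix.conjTranspose_sub, Matrix.conjTranspose_one, e1, Matrix.sub_mul, Matrix.mul_sub,
    Matrix.mul_sub, e2]
  simp

/-- `c g ≈ T(g)` -/
theorem est_cT (H : Col β y mt z φ χ G ε1 ε3) (o : P) (h : L → B)
    (hh : ∀ l, h l * star (h l) = φ l) (V : ∀ l, Matrix P (N l) ℂ)
    (hV : ∀ l, (V l)ᴴ * V l = 1) (κ : ℝ) (hκ : 0 < κ)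
    (hS : ∀ l, ∀ m : Matrix P P ℂ, ‖m - V l * (V l)ᴴ * m‖ ≤ κ⁻¹ * ‖(1 - z.map (χ l)) * m‖)
    (g : A) (hg : g ∈ G) :
    ‖rowMap (FN N) (Xr β y h V) (dn mt N χ V g) - rowMap (FN N) (Xr β y h V) 1 * g‖ ≤
      3 * (κ⁻¹ * ε1) + (Fintype.card P : ℝ) ^ 2 * (Fintype.card P * ε3) + ε1 := by
  have e0 : rowMap (FN N) (Xr β y h V) (dn mt N χ V g) =
      Th β y (tens φ (fun l => V l * ((V l)ᴴ * (mt g).map (χ l) * V l) * (V l)ᴴ)) := by
    rw [rowMap_X h hh]
    congr 2
    funext l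
    rw [dn_apply]
  have e1 : ‖Th β y (tens φ (fun l => V l * ((V l)ᴴ * (mt g).map (χ l) * V l) * (V l)ᴴ)) -
      Th β y (tens φ (fun l => V l * (V l)ᴴ * (mt g).map (χ l)))‖ ≤ 3 * (κ⁻¹ * ε1) := by
    refine norm_tens_sub H.hB H.he φ H.hφ H.h1 _ _ _ ?_ ?_
    · have := H.hε1
      positivity
    · intro l
      have a1 := est_PmP H o V hV κ hκ hS g hg l
      have a2 := est_Pm H o V κ hκ hS g hg l
      calc ‖V l * ((V l)ᴴ * (mt g).map (χ l) * V l) * (V l)ᴴ - V l * (V l)ᴴ * (mt g).map (χ l)‖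
          = ‖(V l * ((V l)ᴴ * (mt g).map (χ l) * V l) * (V l)ᴴ - (mt g).map (χ l)) +
            ((mt g).map (χ l) - V l * (V l)ᴴ * (mt g).map (χ l))‖ := by congr 1; abel
        _ ≤ _ := norm_add_le _ _
        _ ≤ 2 * (κ⁻¹ * ε1) + κ⁻¹ * ε1 := by gcongr
        _ = _ := by ring
  have e2 := frozen H.hB H.he mt H.hmt φ H.hφ H.hor χ g ε3 H.hε3 (H.hχ g hg)
    (fun l => V l * (V l)ᴴ) (fun l p q => (norm_entry _ p q).trans (PP_norm _ (hV l)))
  have e3 : ‖rowMap (FN N) (Xr β y h V) 1 * g * ee y - rowMap (FN N) (Xr β y h V) 1 * g‖ ≤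
      ε1 := by
    rw [mul_assoc, ← mul_sub]
    calc ‖rowMap (FN N) (Xr β y h V) 1 * (g * ee y - g)‖ ≤
          ‖rowMap (FN N) (Xr β y h V) 1‖ * ‖g * ee y - g‖ := norm_mul_le _ _
      _ ≤ 1 * ε1 := by
          gcongr
          · exact c_norm H h hh V hV
          · rw [norm_sub_rev]; exact H.hG2 g hg
      _ = ε1 := one_mul _
  rw [e0]
  rw [c_eq h hh] at e3 ⊢
  obtain ⟨T, hT⟩ : ∃ T, T = Th β y
    (tens φ (fun l => V l * ((V l)ᴴ * (mt g).map (χ l) * V l) * (V l)ᴴ)) := ⟨_, rfl⟩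
  obtain ⟨T', hT'⟩ : ∃ T', T' = Th β y (tens φ (fun l => V l * (V l)ᴴ * (mt g).map (χ l))) :=
    ⟨_, rfl⟩
  obtain ⟨c, hc⟩ : ∃ c, c = Th β y (tens φ (fun l => V l * (V l)ᴴ)) := ⟨_, rfl⟩
  rw [← hT, ← hT'] at e1
  rw [← hT', ← hc] at e2
  rw [← hc] at e3 ⊢
  rw [← hT]
  calc ‖T - c * g‖ = ‖(T - T') - (c * g * ee y - T') + (c * g * ee y - c * g)‖ := by
        congr 1; abel
    _ ≤ ‖T - T'‖ + ‖c * g * ee y - T'‖ + ‖c * g * ee y - c * g‖ :=
        (norm_add_le _ _).trans (by gcongr; exact norm_sub_le _ _)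
    _ ≤ _ := by gcongr

end colour2

section colour3

variable {A B : Type} [NonUnitalCStarAlgebra A] [NonUnitalCStarAlgebra B]
  {β : B →⋆ₙₐ[ℂ] A} {P : Type} [Fintype P] [DecidableEq P] {y : P → A}
  {mt : A →ₗ[ℂ] Matrix P P B} {z : Matrix P P B} {L : Type} [Fintype L] {φ : L → B}
  {χ : L → (B →⋆ₙₐ[ℂ] ℂ)} {G : Set A} {ε1 ε3 : ℝ}

/-- the perturbation lemma for one block, with fixed constants -/
def T1Bc (r : ℕ) (ε δ : ℝ) : Prop :=
  ∀ (n : Type) [Fintype n], Fintype.card n ≤ r →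
    ∀ (A : Type) [NonUnitalCStarAlgebra A] (x : n → A) (K : A), Pos K →
      (∀ i, ‖star (x i) * x i - K‖ ≤ δ) → (∀ i j, i ≠ j → ‖star (x i) * x j‖ ≤ δ) →
      ∃ (z : n → A) (δ' : ℝ), 0 < δ' ∧ δ' ≤ ε ∧
        (∀ i, star (z i) * z i = cfcₙ (fun s : ℝ => max (s - δ') 0) K) ∧
        (∀ i j, i ≠ j → star (z i) * z j = 0) ∧ (∀ i, ‖z i - x i‖ ≤ ε) ∧
        ∀ c : A, (∀ i, c * x i = 0) → ∀ i, c * z i = 0

theorem alg_one_norm (F : FDA) : ‖(1 : F.alg)‖ ≤ 1 := by
  refine (pi_norm_le_iff_of_nonneg zero_le_one).2 fun l => ?_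
  rw [Pi.one_apply, ← Matrix.diagonal_one, Matrix.l2_opNorm_diagonal]
  refine (pi_norm_le_iff_of_nonneg zero_le_one).2 fun i => ?_
  simp

theorem z_herm (H : Col β y mt z φ χ G ε1 ε3) (l : L) : (1 - z.map (χ l)).IsHermitian := by
  have h1 : (z.map (χ l))ᴴ = z.map (χ l) := by
    ext p q
    rw [Matrix.conjTranspose_apply, Matrix.map_apply, Matrix.map_apply, ← map_star (χ l)]
    congr 1
    apply H.hβ
    rw [map_star β, H.hz, H.hz, star_mul, star_star]
  unfold Matrix.IsHermitian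
  rw [Matrix.conjTranspose_sub, Matrix.conjTranspose_one, h1]

theorem cut_pos {B : Type} [NonUnitalCStarAlgebra B] (a : B) (ha : Pos a) (δ : ℝ)
    (hδ : 0 < δ) :
    Pos (cfcₙ (fun s : ℝ => max (s - δ) 0) a) ∧
      Pos (a - cfcₙ (fun s : ℝ => max (s - δ) 0) a) := by
  let _ := CStarAlgebra.spectralOrder B
  let _ := CStarAlgebra.spectralOrderedRing B
  have ha0 := (pos_iff a).1 ha
  have hsa : IsSelfAdjoint a := IsSelfAdjoint.of_nonneg ha0
  have hc : Continuous (fun s : ℝ => max (s - δ) 0) := by fun_prop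
  have h0 : (fun s : ℝ => max (s - δ) 0) 0 = 0 := by
    change max (0 - δ) 0 = 0
    rw [zero_sub]
    exact max_eq_right (by linarith)
  constructor
  · rw [pos_iff]
    exact cfcₙ_nonneg fun s _ => le_max_right _ _
  · rw [pos_iff]
    conv_rhs =>
      enter [1]
      rw [← cfcₙ_id' ℝ a]
    rw [← cfcₙ_sub (fun s : ℝ => s) (fun s : ℝ => max (s - δ) 0) a continuousOn_id rfl
      hc.continuousOn h0]
    refine cfcₙ_nonneg fun s hs => ?_
    have := quasispectrum_nonneg_of_nonneg a ha0 s hs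
    rw [sub_nonneg]
    exact max_le (by linarith) this

theorem Th_mid (H : Col β y mt z φ χ G ε1 ε3) {N : L → Type} [∀ l, Fintype (N l)]
    [∀ l, DecidableEq (N l)] (h : L → B) (hh : ∀ l, h l * star (h l) = φ l)
    (V : ∀ l, Matrix P (N l) ℂ) (g : B) :
    rowMap (FN N) (fun l i => Xr β y h V l i * β g) 1 =
      Th β y (tens (fun l => φ l * (g * star g)) (fun l => V l * (V l)ᴴ)) := by
  have h1 : (fun (l : L) (i : N l) => Xr β y h V l i * β g) = Xr β y (fun l => h l * g) V := by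
    funext l i
    unfold Xr
    rw [Finset.sum_mul]
    refine Finset.sum_congr rfl fun p _ => ?_
    rw [smul_mul_assoc, map_mul, mul_assoc]
  rw [h1]
  refine c_eq (φ := fun l => φ l * (g * star g)) (fun l => h l * g) (fun l => ?_) V
  rw [star_mul, ← hh l]
  calc h l * g * (star g * star (h l)) = h l * ((g * star g) * star (h l)) := by
        simp only [mul_assoc]
    _ = h l * (star (h l) * (g * star g)) := by rw [H.hB (g * star g)]
    _ = _ := by simp only [mul_assoc]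

theorem tens_mul_right (f : B) (d : L → Matrix P P ℂ) :
    tens (fun l => φ l * f) d = Matrix.of fun p q => tens φ d p q * f := by
  ext p q
  rw [tens_apply, Matrix.of_apply, tens_apply, Finset.sum_mul]
  exact Finset.sum_congr rfl fun l _ => (smul_mul_assoc _ _ _).symm

theorem one_colour (H : Col β y mt z φ χ G ε1 ε3) (o : P) (κ δ ε4 : ℝ) (hκ : 0 < κ)
    (hε4 : 0 ≤ ε4) (hδ : (Fintype.card P : ℝ) ^ 2 * ε3 + κ ≤ δ)
    (hT : T1Bc (Fintype.card P) ε4 δ) (η : ℝ) (hη : η = 2 * (Fintype.card P : ℝ) ^ 2 * ε4) :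
    ∃ (F : FDA) (ψ : A →ₗ[ℂ] F.alg) (x : ∀ l : F.ι, F.n l → A) (k : F.ι → B) (c : A),
      IsCPC ψ ∧ IsRow F x (fun l => β (k l)) 0 ∧ (∀ l, Pos (k l)) ∧
      (∀ l, ∃ l', Pos (φ l' - k l)) ∧ (∀ l, Fintype.card (F.n l) ≤ Fintype.card P) ∧
      (∀ l i, ‖x l i‖ ≤ 1) ∧ Pos c ∧ ‖c‖ ≤ 1 ∧ Pos (EE β y φ - c) ∧
      ‖rowMap F x 1 - c‖ ≤ η ∧
      (∀ g ∈ G, ‖rowMap F x (ψ g) - EE β y φ * g‖ ≤
        η * ‖g‖ + (2 * (κ⁻¹ * ε1) + (Fintype.card P : ℝ) ^ 2 * (Fintype.card P * ε3) + ε1)) ∧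
      (∀ g ∈ G, ‖rowMap F x (ψ g) - rowMap F x 1 * g‖ ≤
        2 * η * ‖g‖ +
          (3 * (κ⁻¹ * ε1) + (Fintype.card P : ℝ) ^ 2 * (Fintype.card P * ε3) + ε1)) ∧
      ∀ f : B, Pos f → ‖f‖ ≤ 1 → ∃ Θ : A, ‖Θ‖ ≤ 1 ∧
        ‖∑ l, ∑ i, x l i * β f * star (x l i) - Θ‖ ≤ η ∧
        Θ * ee y = c * Th β y (Matrix.diagonal fun _ => f) := by
  classical
  obtain ⟨h, hh, hh'⟩ := exists_h H.hB φ H.hφ
  choose N iN dN V hc hV hκV hS using fun l => spec_lemma (1 - z.map (χ l)) (z_herm H l) κ hκ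
  -- the almost exact rows
  have hA := X_almost H h hh V hV κ hκV
  have hK : ∀ l, Pos (β (φ l)) := fun l => (H.hφ l).map β
  choose x δ' hδ'0 hδ'1 hx1 hx2 hx3 hx4 using fun l => hT (N l) (hc l) A (Xr β y h V l)
    (β (φ l)) (hK l) (fun i => by
      have := hA l i i
      rw [if_pos rfl] at this
      exact this.trans hδ) (fun i j hij => by
      have := hA l i j
      rw [if_neg hij, sub_zero] at this
      exact this.trans hδ)
  obtain ⟨k, hk⟩ : ∃ k : L → B, ∀ l, k l = cfcₙ (fun s : ℝ => max (s - δ' l) 0) (φ l) :=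
    ⟨_, fun _ => rfl⟩
  have hβk : ∀ l, β (k l) = cfcₙ (fun s : ℝ => max (s - δ' l) 0) (β (φ l)) := by
    intro l
    rw [hk]
    refine (J_T1R.hom_cfc β (φ l) (H.hφ l).sa (fun s : ℝ => max (s - δ' l) 0) (by fun_prop)
      ?_).symm
    rw [zero_sub]
    exact max_eq_right (by linarith [hδ'0 l])
  have hkp : ∀ l, Pos (k l) := fun l => by rw [hk]; exact (cut_pos _ (H.hφ l) _ (hδ'0 l)).1
  have hkp' : ∀ l, Pos (φ l - k l) := fun l => by
    rw [hk]; exact (cut_pos _ (H.hφ l) _ (hδ'0 l)).2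
  have hkn : ∀ l, ‖k l‖ ≤ 1 := fun l => ((hkp l).norm_le (hkp' l)).trans (phi_norm H l)
  -- orthogonality
  have hXX : ∀ l l' i j, l ≠ l' → star (Xr β y h V l i) * Xr β y h V l' j = 0 :=
    fun l l' i j hl => X_orth H h hh V l l' i j hl
  have hXz : ∀ l l' i j, l ≠ l' → star (Xr β y h V l i) * x l' j = 0 := by
    intro l l' i j hl
    exact hx4 l' _ (fun j' => hXX l l' i j' hl) j
  have hzX : ∀ l l' i j, l ≠ l' → star (x l i) * Xr β y h V l' j = 0 := by
    intro l l' i j hl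
    have := congrArg star (hXz l' l j i (Ne.symm hl))
    rwa [star_mul, star_star, star_zero] at this
  have hzz : ∀ l l' i j, l ≠ l' → star (x l i) * x l' j = 0 := by
    intro l l' i j hl
    exact hx4 l' _ (fun j' => hzX l l' i j' hl) j
  have hxn : ∀ l i, ‖x l i‖ ≤ 1 := by
    intro l i
    have h1 : ‖x l i‖ * ‖x l i‖ ≤ 1 := by
      rw [← CStarRing.norm_star_mul_self, hx1, ← hβk]
      exact (NonUnitalStarAlgHom.norm_apply_le β _).trans (hkn l)
    nlinarith [norm_nonneg (x l i)]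
  have hXn : ∀ l i, ‖Xr β y h V l i‖ ≤ 1 := by
    intro l i
    have h1 : ‖Xr β y h V l i‖ ^ 2 ≤ 1 :=
      (norm_row_sq (F := FN N) (Xr β y h V) l i).trans (c_norm H h hh V hV)
    nlinarith [norm_nonneg (Xr β y h V l i)]
  have hpert : ∀ d : (FN N).alg, ‖rowMap (FN N) x d - rowMap (FN N) (Xr β y h V) d‖ ≤
      η * ‖d‖ := by
    intro d
    rw [hη]
    exact pert (Fintype.card P) hc x (Xr β y h V) ε4 hzz hXz hXX hxn hXn (fun l i => hx3 l i)
      hε4 d
  have hη0 : 0 ≤ η := by rw [hη]; positivity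
  have hcp := isCPC_dn o H.he H.hβ mt H.hmt N χ V hV
  have hone : ‖rowMap (FN N) x 1 - rowMap (FN N) (Xr β y h V) 1‖ ≤ η := by
    refine (hpert 1).trans ?_
    calc η * ‖(1 : (FN N).alg)‖ ≤ η * 1 := by gcongr; exact alg_one_norm _
      _ = η := mul_one _
  have hψ : ∀ g, ‖rowMap (FN N) x (dn mt N χ V g) -
      rowMap (FN N) (Xr β y h V) (dn mt N χ V g)‖ ≤ η * ‖g‖ := by
    intro g
    refine (hpert _).trans ?_
    gcongr
    exact hcp.2 g
  refine ⟨FN N, dn mt N χ V, x, k, rowMap (FN N) (Xr β y h V) 1, hcp, ⟨?_, ?_, ?_⟩, hkp,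
    fun l => ⟨l, hkp' l⟩, hc, hxn, pos_rowMap_one _, c_norm H h hh V hV, c_le H h hh V hV, hone,
    ?_, ?_, ?_⟩
  · intro l i
    change ‖star (x l i) * x l i - β (k l)‖ ≤ 0
    rw [hβk, hx1, sub_self, norm_zero]
  · intro l i j hij
    rw [hx2 l i j hij, norm_zero]
  · intro l l' i j hl
    rw [hzz l l' i j hl, norm_zero]
  · intro g hg
    have e1 := est_T H o h hh V hV κ hκ hS g hg
    calc ‖rowMap (FN N) x (dn mt N χ V g) - EE β y φ * g‖
        = ‖(rowMap (FN N) x (dn mt N χ V g) - rowMap (FN N) (Xr β y h V) (dn mt N χ V g)) +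
          (rowMap (FN N) (Xr β y h V) (dn mt N χ V g) - EE β y φ * g)‖ := by congr 1; abel
      _ ≤ _ := (norm_add_le _ _).trans (add_le_add (hψ g) e1)
  · intro g hg
    have e1 := est_cT H o h hh V hV κ hκ hS g hg
    have e2 : ‖(rowMap (FN N) x 1 - rowMap (FN N) (Xr β y h V) 1) * g‖ ≤ η * ‖g‖ :=
      (norm_mul_le _ _).trans (by gcongr)
    calc ‖rowMap (FN N) x (dn mt N χ V g) - rowMap (FN N) x 1 * g‖
        = ‖(rowMap (FN N) x (dn mt N χ V g) - rowMap (FN N) (Xr β y h V) (dn mt N χ V g)) -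
          (rowMap (FN N) x 1 - rowMap (FN N) (Xr β y h V) 1) * g +
          (rowMap (FN N) (Xr β y h V) (dn mt N χ V g) - rowMap (FN N) (Xr β y h V) 1 * g)‖ := by
            congr 1
            rw [sub_mul]
            abel
      _ ≤ (η * ‖g‖ + η * ‖g‖) + _ :=
          (norm_add_le _ _).trans (add_le_add ((norm_sub_le _ _).trans
            (add_le_add (hψ g) e2)) e1)
      _ = _ := by ring
  · intro f hf hf1
    obtain ⟨g, hg⟩ := hf
    have hgg : g * star g = f := by rw [H.hB, hg]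
    have hgn : ‖g‖ ≤ 1 := by
      have : ‖g‖ * ‖g‖ ≤ 1 := by
        rw [← CStarRing.norm_star_mul_self, ← hg]; exact hf1
      nlinarith [norm_nonneg g]
    have hβg : ‖β g‖ ≤ 1 := (NonUnitalStarAlgHom.norm_apply_le β g).trans hgn
    refine ⟨Th β y (tens (fun l => φ l * f) (fun l => V l * (V l)ᴴ)), ?_, ?_, ?_⟩
    · refine norm_tens H.hB H.he _ ?_ ?_ _ _ zero_le_one fun l => PP_norm _ (hV l)
      · intro l
        refine ⟨star (h l) * g, ?_⟩
        rw [star_mul, star_star, ← hh l, hg]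
        calc h l * star (h l) * (star g * g) = (star g * g) * (h l * star (h l)) := H.hB _ _
          _ = star g * (g * (h l * star (h l))) := by simp only [mul_assoc]
          _ = star g * ((h l * star (h l)) * g) := by rw [H.hB g]
          _ = _ := by simp only [mul_assoc]
      · rw [← Finset.sum_mul]
        calc ‖(∑ l, φ l) * f‖ ≤ ‖∑ l, φ l‖ * ‖f‖ := norm_mul_le _ _
          _ ≤ 1 * 1 := by
              gcongr
              exact H.h1
          _ = 1 := one_mul 1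
    · have e1 : ∑ l, ∑ i, x l i * β f * star (x l i) =
          rowMap (FN N) (fun l i => x l i * β g) 1 := by
        rw [rowMap_one']
        refine Finset.sum_congr rfl fun l _ => Finset.sum_congr rfl fun i _ => ?_
        rw [star_mul, ← hgg, map_mul, map_star]
        simp only [mul_assoc]
      have e2 := Th_mid H h hh V g
      rw [hgg] at e2
      have hmul : ∀ a b : A, star (a * β g) * (b * β g) = star (β g) * (star a * b) * β g := by
        intro a b
        rw [star_mul]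
        simp only [mul_assoc]
      have e3 := pert (Fintype.card P) hc (fun l i => x l i * β g)
        (fun l i => Xr β y h V l i * β g) ε4
        (fun l l' i j hl => by rw [hmul, hzz l l' i j hl, mul_zero, zero_mul])
        (fun l l' i j hl => by rw [hmul, hXz l l' i j hl, mul_zero, zero_mul])
        (fun l l' i j hl => by rw [hmul, hXX l l' i j hl, mul_zero, zero_mul])
        (fun l i => (norm_mul_le _ _).trans (mul_le_one₀ (hxn l i) (norm_nonneg _) hβg))
        (fun l i => (norm_mul_le _ _).trans (mul_le_one₀ (hXn l i) (norm_nonneg _) hβg))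
        (fun l i => by
          rw [← sub_mul]
          calc ‖(x l i - Xr β y h V l i) * β g‖ ≤ ‖x l i - Xr β y h V l i‖ * ‖β g‖ :=
                norm_mul_le _ _
            _ ≤ ε4 * 1 := by
                gcongr
                exact hx3 l i
            _ = ε4 := mul_one _)
        hε4 1
      rw [e2] at e3
      rw [e1]
      refine e3.trans ?_
      rw [← hη]
      calc η * ‖(1 : (FN N).alg)‖ ≤ η * 1 := by gcongr; exact alg_one_norm _
        _ = η := mul_one _
    · rw [tens_mul_right, c_eq h hh, Th_mul_diag H.hB z H.hz]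

end colour3

section midel

variable {A B : Type} [NonUnitalCStarAlgebra A] [NonUnitalCStarAlgebra B]

theorem exists_rho (k : B) (hk : Pos k) (ν : ℝ) (hν : 0 < ν) :
    ∃ ρ θ : B, Pos ρ ∧ Pos θ ∧ ‖ρ‖ ≤ 1 ∧ k * θ = ρ * ρ ∧
      ‖k - k * ρ - ρ * k + ρ * k * ρ‖ ≤ ν ∧ ‖k - k * (ρ * ρ)‖ ≤ 2 * ν := by
  let _ := CStarAlgebra.spectralOrder B
  let _ := CStarAlgebra.spectralOrderedRing B
  have h0 := (pos_iff k).1 hk
  have hsa : IsSelfAdjoint k := IsSelfAdjoint.of_nonneg h0
  have hpos : ∀ s ∈ quasispectrum ℝ k, 0 ≤ s := fun s hs =>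
    quasispectrum_nonneg_of_nonneg k h0 s hs
  have cm : ∀ f g : ℝ → ℝ, Continuous f → Continuous g → f 0 = 0 → g 0 = 0 →
      cfcₙ f k * cfcₙ g k = cfcₙ (fun s => f s * g s) k := fun f g hf hg hf0 hg0 =>
    (cfcₙ_mul f g k hf.continuousOn hf0 hg.continuousOn hg0).symm
  have ca : ∀ f g : ℝ → ℝ, Continuous f → Continuous g → f 0 = 0 → g 0 = 0 →
      cfcₙ f k + cfcₙ g k = cfcₙ (fun s => f s + g s) k := fun f g hf hg hf0 hg0 =>
    (cfcₙ_add f g k hf.continuousOn hf0 hg.continuousOn hg0).symm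
  have cs : ∀ f g : ℝ → ℝ, Continuous f → Continuous g → f 0 = 0 → g 0 = 0 →
      cfcₙ f k - cfcₙ g k = cfcₙ (fun s => f s - g s) k := fun f g hf hg hf0 hg0 =>
    (cfcₙ_sub f g k hf.continuousOn hf0 hg.continuousOn hg0).symm
  have hid : cfcₙ (fun s : ℝ => s) k = k := cfcₙ_id' ℝ k
  obtain ⟨R, hR⟩ : ∃ R : ℝ → ℝ, R = fun s => s / (|s| + ν) := ⟨_, rfl⟩
  obtain ⟨T, hT⟩ : ∃ T : ℝ → ℝ, T = fun s => s / (|s| + ν) ^ 2 := ⟨_, rfl⟩
  have hRc : Continuous R := by
    rw [hR]
    refine continuous_id.div (by fun_prop) fun s => ?_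
    have := abs_nonneg s
    positivity
  have hTc : Continuous T := by
    rw [hT]
    refine continuous_id.div (by fun_prop) fun s => ?_
    have := abs_nonneg s
    positivity
  have hR0 : R 0 = 0 := by rw [hR]; simp
  have hT0 : T 0 = 0 := by rw [hT]; simp
  obtain ⟨ρ, hρ⟩ : ∃ ρ : B, ρ = cfcₙ R k := ⟨_, rfl⟩
  obtain ⟨θ, hθ⟩ : ∃ θ : B, θ = cfcₙ T k := ⟨_, rfl⟩
  have hid' : k = cfcₙ (fun s : ℝ => s) k := hid.symm
  have f1 : k * ρ = cfcₙ (fun s => s * R s) k := by
    rw [hρ]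
    conv_lhs =>
      enter [1]
      rw [hid']
    exact cm (fun s => s) R continuous_id hRc rfl hR0
  have f2 : ρ * k = cfcₙ (fun s => R s * s) k := by
    rw [hρ]
    conv_lhs =>
      enter [2]
      rw [hid']
    exact cm R (fun s => s) hRc continuous_id hR0 rfl
  have f3 : ρ * k * ρ = cfcₙ (fun s => R s * s * R s) k := by
    rw [f2, hρ]
    exact cm (fun s => R s * s) R (hRc.mul continuous_id) hRc (by simp) hR0
  have f4 : k * (ρ * ρ) = cfcₙ (fun s => s * (R s * R s)) k := by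
    rw [hρ, cm R R hRc hRc hR0 hR0]
    conv_lhs =>
      enter [1]
      rw [hid']
    exact cm (fun s => s) (fun s => R s * R s) continuous_id (hRc.mul hRc) rfl (by simp [hR0])
  refine ⟨ρ, θ, ?_, ?_, ?_, ?_, ?_, ?_⟩
  · rw [pos_iff, hρ]
    refine cfcₙ_nonneg fun s hs => ?_
    have := hpos s hs
    rw [hR]
    change 0 ≤ s / (|s| + ν)
    positivity
  · rw [pos_iff, hθ]
    refine cfcₙ_nonneg fun s hs => ?_
    have := hpos s hs
    rw [hT]
    change 0 ≤ s / (|s| + ν) ^ 2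
    positivity
  · rw [hρ]
    refine norm_cfcₙ_le fun s hs => ?_
    have := hpos s hs
    rw [hR]
    change ‖s / (|s| + ν)‖ ≤ 1
    rw [abs_of_nonneg this, Real.norm_of_nonneg (by positivity), div_le_one (by positivity)]
    linarith
  · rw [hρ, cm R R hRc hRc hR0 hR0, hθ]
    conv_lhs =>
      enter [1]
      rw [hid']
    rw [cm (fun s => s) T continuous_id hTc rfl hT0]
    congr 1
    funext s
    rw [hR, hT]
    change s * (s / (|s| + ν) ^ 2) = s / (|s| + ν) * (s / (|s| + ν))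
    have : |s| + ν ≠ 0 := by
      have := abs_nonneg s
      positivity
    field_simp
  · rw [f3, f2, f1]
    conv_lhs =>
      enter [1, 1, 1, 1]
      rw [hid']
    rw [cs (fun s => s) (fun s => s * R s) continuous_id (continuous_id.mul hRc) rfl (by simp),
      cs (fun s => s - s * R s) (fun s => R s * s) (continuous_id.sub (continuous_id.mul hRc))
        (hRc.mul continuous_id) (by simp) (by simp),
      ca (fun s => s - s * R s - R s * s) (fun s => R s * s * R s)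
        ((continuous_id.sub (continuous_id.mul hRc)).sub (hRc.mul continuous_id))
        ((hRc.mul continuous_id).mul hRc) (by simp) (by simp)]
    refine norm_cfcₙ_le fun s hs => ?_
    have hs0 := hpos s hs
    rw [hR]
    change ‖s - s * (s / (|s| + ν)) - s / (|s| + ν) * s + s / (|s| + ν) * s * (s / (|s| + ν))‖ ≤ ν
    rw [abs_of_nonneg hs0]
    have e1 : s - s * (s / (s + ν)) - s / (s + ν) * s + s / (s + ν) * s * (s / (s + ν)) =
        s * ν ^ 2 / (s + ν) ^ 2 := by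
      field_simp
      ring
    rw [e1, Real.norm_of_nonneg (by positivity), div_le_iff₀ (by positivity)]
    nlinarith [mul_nonneg hs0 hν.le, mul_pos hν hν, mul_nonneg hs0 hs0,
      mul_nonneg hν.le (mul_nonneg hs0 hs0), mul_nonneg hs0 (mul_pos hν hν).le,
      mul_pos hν (mul_pos hν hν)]
  · rw [f4]
    conv_lhs =>
      enter [1, 1]
      rw [hid']
    rw [cs (fun s => s) (fun s => s * (R s * R s)) continuous_id
      (continuous_id.mul (hRc.mul hRc)) rfl (by simp)]
    refine norm_cfcₙ_le fun s hs => ?_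
    have hs0 := hpos s hs
    rw [hR]
    change ‖s - s * (s / (|s| + ν) * (s / (|s| + ν)))‖ ≤ 2 * ν
    rw [abs_of_nonneg hs0]
    have e1 : s - s * (s / (s + ν) * (s / (s + ν))) = s * ν * (2 * s + ν) / (s + ν) ^ 2 := by
      field_simp
      ring
    rw [e1, Real.norm_of_nonneg (by positivity), div_le_iff₀ (by positivity)]
    nlinarith [mul_nonneg hs0 hν.le, mul_pos hν hν, mul_nonneg hs0 hs0,
      mul_nonneg hν.le (mul_nonneg hs0 hs0), mul_nonneg hs0 (mul_pos hν hν).le,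
      mul_pos hν (mul_pos hν hν)]

variable {β : B →⋆ₙₐ[ℂ] A} {F : FDA} {x : ∀ l : F.ι, F.n l → A} {k : F.ι → B}

/-- the elements commuting with a row map -/
def bb (β : B →⋆ₙₐ[ℂ] A) (x : ∀ l : F.ι, F.n l → A) (w : F.ι → B) : A :=
  ∑ l, ∑ i, x l i * β (w l) * star (x l i)

theorem bb_add (w w' : F.ι → B) : bb β x (fun l => w l + w' l) = bb β x w + bb β x w' := by
  unfold bb
  simp only [map_add, mul_add, add_mul, Finset.sum_add_distrib]

theorem bb_sub (w w' : F.ι → B) : bb β x (fun l => w l - w' l) = bb β x w - bb β x w' := by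
  unfold bb
  simp only [map_sub, mul_sub, sub_mul, Finset.sum_sub_distrib]

theorem bb_sum {J : Type} (s : Finset J) (w : J → F.ι → B) :
    bb β x (fun l => ∑ j ∈ s, w j l) = ∑ j ∈ s, bb β x (w j) := by
  classical
  induction s using Finset.induction_on with
  | empty =>
    simp [bb]
  | insert j s hj ih =>
    rw [Finset.sum_insert hj, ← ih, ← bb_add]
    congr 1
    funext l
    rw [Finset.sum_insert hj]

theorem pos_bb (w : F.ι → B) (hw : ∀ l, Pos (w l)) : Pos (bb β x w) := by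
  refine Pos.sum _ fun l _ => Pos.sum _ fun i _ => ?_
  have := ((hw l).map β).conj (star (x l i))
  rwa [star_star] at this

theorem row_bb (hx : IsRow F x (fun l => β (k l)) 0) (w : F.ι → B) (y : F.alg) :
    rowMap F x y * bb β x w =
      ∑ l, ∑ i, ∑ j, y l i j • (x l i * β (k l * w l) * star (x l j)) := by
  obtain ⟨h1, h2, h3⟩ := hx
  have h1' : ∀ l i, star (x l i) * x l i = β (k l) := fun l i =>
    sub_eq_zero.1 (norm_le_zero_iff.1 (h1 l i))
  have h2' : ∀ l i j, i ≠ j → star (x l i) * x l j = 0 := fun l i j h =>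
    norm_le_zero_iff.1 (h2 l i j h)
  have h3' : ∀ l l' i j, l ≠ l' → star (x l i) * x l' j = 0 := fun l l' i j h =>
    norm_le_zero_iff.1 (h3 l l' i j h)
  change (∑ l, ∑ i, ∑ j, y l i j • (x l i * star (x l j))) * _ = _
  have key : ∀ l j, star (x l j) * bb β x w = β (k l * w l) * star (x l j) := by
    intro l j
    unfold bb
    rw [Finset.mul_sum, Finset.sum_eq_single l]
    · rw [Finset.mul_sum, Finset.sum_eq_single j]
      · rw [map_mul, ← h1' l j]
        simp only [mul_assoc]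
      · intro i _ hi
        rw [← mul_assoc, ← mul_assoc, h2' l j i (Ne.symm hi), zero_mul, zero_mul]
      · intro h; exact absurd (Finset.mem_univ _) h
    · intro l' _ hl
      rw [Finset.mul_sum]
      refine Finset.sum_eq_zero fun i _ => ?_
      rw [← mul_assoc, ← mul_assoc, h3' l l' j i (Ne.symm hl), zero_mul, zero_mul]
    · intro h; exact absurd (Finset.mem_univ _) h
  rw [Finset.sum_mul]
  refine Finset.sum_congr rfl fun l _ => ?_
  rw [Finset.sum_mul]
  refine Finset.sum_congr rfl fun i _ => ?_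
  rw [Finset.sum_mul]
  refine Finset.sum_congr rfl fun j _ => ?_
  rw [smul_mul_assoc, mul_assoc, key]
  simp only [mul_assoc]

theorem bb_row (hx : IsRow F x (fun l => β (k l)) 0) (w : F.ι → B) (y : F.alg) :
    bb β x w * rowMap F x y =
      ∑ l, ∑ i, ∑ j, y l i j • (x l i * β (w l * k l) * star (x l j)) := by
  obtain ⟨h1, h2, h3⟩ := hx
  have h1' : ∀ l i, star (x l i) * x l i = β (k l) := fun l i =>
    sub_eq_zero.1 (norm_le_zero_iff.1 (h1 l i))
  have h2' : ∀ l i j, i ≠ j → star (x l i) * x l j = 0 := fun l i j h =>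
    norm_le_zero_iff.1 (h2 l i j h)
  have h3' : ∀ l l' i j, l ≠ l' → star (x l i) * x l' j = 0 := fun l l' i j h =>
    norm_le_zero_iff.1 (h3 l l' i j h)
  change _ * (∑ l, ∑ i, ∑ j, y l i j • (x l i * star (x l j))) = _
  have key : ∀ l i, bb β x w * x l i = x l i * β (w l * k l) := by
    intro l i
    unfold bb
    rw [Finset.sum_mul, Finset.sum_eq_single l]
    · rw [Finset.sum_mul, Finset.sum_eq_single i]
      · rw [map_mul, ← h1' l i]
        simp only [mul_assoc]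
      · intro j _ hj
        rw [mul_assoc, h2' l j i hj, mul_zero]
      · intro h; exact absurd (Finset.mem_univ _) h
    · intro l' _ hl
      rw [Finset.sum_mul]
      refine Finset.sum_eq_zero fun j _ => ?_
      rw [mul_assoc, h3' l' l j i hl, mul_zero]
    · intro h; exact absurd (Finset.mem_univ _) h
  rw [Finset.mul_sum]
  refine Finset.sum_congr rfl fun l _ => ?_
  rw [Finset.mul_sum]
  refine Finset.sum_congr rfl fun i _ => ?_
  rw [Finset.mul_sum]
  refine Finset.sum_congr rfl fun j _ => ?_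
  rw [mul_smul_comm, ← mul_assoc, key]

theorem bb_comm (hB : ∀ x y : B, x * y = y * x) (hx : IsRow F x (fun l => β (k l)) 0)
    (w : F.ι → B) (y : F.alg) : bb β x w * rowMap F x y = rowMap F x y * bb β x w := by
  rw [row_bb hx, bb_row hx]
  refine Finset.sum_congr rfl fun l _ => Finset.sum_congr rfl fun i _ =>
    Finset.sum_congr rfl fun j _ => ?_
  rw [hB]

theorem row_one_bb (hx : IsRow F x (fun l => β (k l)) 0) (w : F.ι → B) :
    rowMap F x 1 * bb β x w = bb β x (fun l => k l * w l) := by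
  rw [row_bb hx]
  unfold bb
  refine Finset.sum_congr rfl fun l _ => Finset.sum_congr rfl fun i _ => ?_
  rw [Finset.sum_eq_single i]
  · rw [Pi.one_apply, Matrix.one_apply_eq, one_smul]
  · intro j _ hj
    rw [Pi.one_apply, Matrix.one_apply_ne (Ne.symm hj), zero_smul]
  · intro hi; exact absurd (Finset.mem_univ i) hi

theorem norm_bb (hB : ∀ x y : B, x * y = y * x) (hx : IsRow F x (fun l => β (k l)) 0)
    (w : F.ι → B) (hw : ∀ l, Pos (w l)) (c : ℝ) (hc : 0 ≤ c) (hwc : ∀ l, ‖k l * w l‖ ≤ c) :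
    ‖bb β x w‖ ≤ c := by
  obtain ⟨h1, h2, h3⟩ := hx
  have h1' : ∀ l i, star (x l i) * x l i = β (k l) := fun l i =>
    sub_eq_zero.1 (norm_le_zero_iff.1 (h1 l i))
  have h2' : ∀ l i j, i ≠ j → star (x l i) * x l j = 0 := fun l i j h =>
    norm_le_zero_iff.1 (h2 l i j h)
  have h3' : ∀ l l' i j, l ≠ l' → star (x l i) * x l' j = 0 := fun l l' i j h =>
    norm_le_zero_iff.1 (h3 l l' i j h)
  choose g hg using hw
  have e1 : bb β x w = ∑ a : (Σ l : F.ι, F.n l), (x a.1 a.2 * β (g a.1)) *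
      star (x a.1 a.2 * β (g a.1)) := by
    rw [Fintype.sum_sigma]
    refine Finset.sum_congr rfl fun l _ => Finset.sum_congr rfl fun i _ => ?_
    rw [star_mul, hg, hB (star (g l)), map_mul, map_star]
    simp only [mul_assoc]
  have hmul : ∀ (a b : A) (u v : B), star (a * β u) * (b * β v) =
      star (β u) * (star a * b) * β v := by
    intro a b u v
    rw [star_mul]
    simp only [mul_assoc]
  rw [e1]
  refine norm_sum_star _ c hc ?_ ?_
  · rintro ⟨l, i⟩ ⟨l', j⟩ hne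
    change star (x l i * β (g l)) * (x l' j * β (g l')) = 0
    rw [hmul]
    by_cases hl : l = l'
    · subst hl
      have hij : i ≠ j := fun h => hne (by rw [h])
      rw [h2' l i j hij, mul_zero, zero_mul]
    · rw [h3' l l' i j hl, mul_zero, zero_mul]
  · rintro ⟨l, i⟩
    change ‖star (x l i * β (g l)) * (x l i * β (g l))‖ ≤ c
    rw [hmul, h1', ← map_star, ← map_mul, ← map_mul]
    refine (NonUnitalStarAlgHom.norm_apply_le β _).trans ?_
    have e2 : star (g l) * k l * g l = k l * w l := by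
      rw [hB (star (g l)), mul_assoc, hg]
    rw [e2]
    exact hwc l

/-- the unit of the row is approximated by elements `bb` -/
theorem row_one_approx (hB : ∀ x y : B, x * y = y * x) (hx : IsRow F x (fun l => β (k l)) 0)
    (hx1 : ∀ l i, ‖x l i‖ ≤ 1) (r : ℕ) (hr : ∀ l, Fintype.card (F.n l) ≤ r) (ρ : F.ι → B)
    (hρ : ∀ l, Pos (ρ l)) (hρ1 : ∀ l, ‖ρ l‖ ≤ 1) (ν : ℝ) (hν : 0 ≤ ν)
    (hk : ∀ l, ‖k l - k l * ρ l - ρ l * k l + ρ l * k l * ρ l‖ ≤ ν) :
    ‖rowMap F x 1 - bb β x (fun l => ρ l * ρ l)‖ ≤ 2 * (r : ℝ) ^ 2 * Real.sqrt ν := by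
  obtain ⟨h1, h2, h3⟩ := hx
  have h1' : ∀ l i, star (x l i) * x l i = β (k l) := fun l i =>
    sub_eq_zero.1 (norm_le_zero_iff.1 (h1 l i))
  have h3' : ∀ l l' i j, l ≠ l' → star (x l i) * x l' j = 0 := fun l l' i j h =>
    norm_le_zero_iff.1 (h3 l l' i j h)
  have hβρ : ∀ l, ‖β (ρ l)‖ ≤ 1 := fun l =>
    (NonUnitalStarAlgHom.norm_apply_le β _).trans (hρ1 l)
  have e1 : bb β x (fun l => ρ l * ρ l) = rowMap F (fun l i => x l i * β (ρ l)) 1 := by
    rw [rowMap_one']
    refine Finset.sum_congr rfl fun l _ => Finset.sum_congr rfl fun i _ => ?_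
    rw [star_mul, ← map_star, (hρ l).sa, map_mul]
    simp only [mul_assoc]
  have e2 : ∀ l i, ‖x l i - x l i * β (ρ l)‖ ≤ Real.sqrt ν := by
    intro l i
    refine Real.le_sqrt_of_sq_le ?_
    have e3 : star (x l i - x l i * β (ρ l)) * (x l i - x l i * β (ρ l)) =
        β (k l - k l * ρ l - ρ l * k l + ρ l * k l * ρ l) := by
      rw [star_sub, star_mul, ← map_star, (hρ l).sa, map_add, map_sub, map_sub, map_mul, map_mul,
        map_mul, map_mul, ← h1' l i]
      simp only [sub_mul, mul_sub, mul_assoc]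
      abel
    rw [pow_two, ← CStarRing.norm_star_mul_self, e3]
    exact (NonUnitalStarAlgHom.norm_apply_le β _).trans (hk l)
  have e4 := pert (N := F.n) r hr x (fun l i => x l i * β (ρ l)) (Real.sqrt ν)
    h3' (fun l l' i j hl => by rw [star_mul, mul_assoc, h3' l l' i j hl, mul_zero])
    (fun l l' i j hl => by
      rw [star_mul, mul_assoc, ← mul_assoc (star (x l i)), h3' l l' i j hl, zero_mul, mul_zero])
    hx1 (fun l i => (norm_mul_le _ _).trans (mul_le_one₀ (hx1 l i) (norm_nonneg _) (hβρ l)))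
    e2 (Real.sqrt_nonneg _) 1
  rw [e1]
  refine e4.trans ?_
  calc 2 * (r : ℝ) ^ 2 * Real.sqrt ν * ‖(1 : F.alg)‖ ≤ 2 * (r : ℝ) ^ 2 * Real.sqrt ν * 1 := by
        gcongr
        exact alg_one_norm F
    _ = _ := mul_one _

end midel

/-- approximations with commuting colours of a fixed set -/
def SysCG (D : Type) [NonUnitalCStarAlgebra D] (J : Type) [Fintype J] (G : Set D) (ε : ℝ) :
    Prop :=
  ∃ (F : J → FDA) (ψ : ∀ j, D →ₗ[ℂ] (F j).alg) (x : ∀ j, ∀ l : (F j).ι, (F j).n l → D)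
    (k : ∀ j, (F j).ι → D) (b : J → J → D),
    (∀ j, IsCPC (ψ j)) ∧ (∀ j, IsRow (F j) (x j) (k j) 0) ∧ (∀ j l, Pos (k j l)) ∧
    ‖∑ j, rowMap (F j) (x j) 1‖ ≤ 1 + ε ∧
    (∀ g ∈ G, ‖∑ j, rowMap (F j) (x j) (ψ j g) - g‖ ≤ ε) ∧
    (∀ g ∈ G, ∀ j, ‖rowMap (F j) (x j) (ψ j g) - rowMap (F j) (x j) 1 * g‖ ≤ ε) ∧
    (∀ i j, Pos (b i j)) ∧ (∀ i, b i i = rowMap (F i) (x i) 1) ∧
    (∀ i j y, b i j * rowMap (F i) (x i) y = rowMap (F i) (x i) y * b i j) ∧
    (∀ i, ‖∑ j, b i j‖ ≤ 1 + ε) ∧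
    ∀ g ∈ G, ∀ i j, ‖rowMap (F i) (x i) 1 * (b i j - rowMap (F j) (x j) 1) * g‖ ≤ ε

theorem pos_le_sum {A J : Type} [NonUnitalCStarAlgebra A] [Fintype J] (a : J → A)
    (ha : ∀ j, Pos (a j)) (j : J) : ‖a j‖ ≤ ‖∑ j, a j‖ := by
  let _ := CStarAlgebra.spectralOrder A
  let _ := CStarAlgebra.spectralOrderedRing A
  exact CStarAlgebra.norm_le_norm_of_nonneg_of_le ((pos_iff _).1 (ha j))
    (Finset.single_le_sum (f := a) (fun j _ => (pos_iff _).1 (ha j)) (Finset.mem_univ j))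

theorem rowMap_norm {A : Type} [NonUnitalCStarAlgebra A] {F : FDA}
    (x : ∀ l : F.ι, F.n l → A) (y : F.alg) : ‖rowMap F x y‖ ≤ ‖rowMap F x 1‖ * ‖y‖ := by
  let _ := CStarAlgebra.spectralOrder A
  let _ := CStarAlgebra.spectralOrderedRing A
  exact (J_ROW.isCP_rowMap x).norm_le y

/-- changing the finite set slightly -/
theorem transfer {D J : Type} [NonUnitalCStarAlgebra D] [Fintype J] (G : Finset D) (γ : D → D)
    (ε ε' ε0 : ℝ) (hε' : ε' ≤ ε / 2) (hε'1 : ε' ≤ 1)
    (hε0 : (2 * (Fintype.card J : ℝ) + 10) * ε0 ≤ ε / 2) (hε00 : 0 ≤ ε0) (hε : 0 < ε)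
    (hγ : ∀ g ∈ G, ‖g - γ g‖ ≤ ε0) (h : SysCG D J (γ '' (G : Set D)) ε') :
    SysCG D J (G : Set D) ε := by
  obtain ⟨F, ψ, x, k, b, h1, h2, h3, h4, h5, h6, h7, h8, h9, h10, h11⟩ := h
  have hn : (0 : ℝ) ≤ Fintype.card J := by positivity
  have hR : ∀ j, ‖rowMap (F j) (x j) 1‖ ≤ 2 := fun j =>
    (pos_le_sum (fun j => rowMap (F j) (x j) 1) (fun j => pos_rowMap_one _) j).trans
      (by linarith)
  have hRψ : ∀ j (g : D), ‖rowMap (F j) (x j) (ψ j g)‖ ≤ 2 * ‖g‖ := fun j g =>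
    (rowMap_norm _ _).trans (mul_le_mul (hR j) ((h1 j).2 g) (norm_nonneg _) (by norm_num))
  have hb : ∀ i j, ‖b i j‖ ≤ 2 := fun i j =>
    (pos_le_sum (fun j => b i j) (h7 i) j).trans (by linarith [h10 i])
  refine ⟨F, ψ, x, k, b, h1, h2, h3, by linarith, ?_, ?_, h7, h8, h9,
    fun i => by linarith [h10 i], ?_⟩
  · intro g hg
    have e1 := h5 (γ g) ⟨g, hg, rfl⟩
    have e2 : ∑ j, rowMap (F j) (x j) (ψ j g) - g =
        (∑ j, rowMap (F j) (x j) (ψ j (γ g)) - γ g) +
          (∑ j, rowMap (F j) (x j) (ψ j (g - γ g)) - (g - γ g)) := by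
      simp only [map_sub, Finset.sum_sub_distrib]
      abel
    have e3 : ‖∑ j, rowMap (F j) (x j) (ψ j (g - γ g))‖ ≤ Fintype.card J * (2 * ε0) := by
      calc ‖∑ j, rowMap (F j) (x j) (ψ j (g - γ g))‖ ≤ ∑ j : J, 2 * ε0 := by
            refine norm_sum_le_of_le _ fun j _ => (hRψ j _).trans ?_
            have := hγ g hg
            linarith
        _ = _ := by simp
    rw [e2]
    have e4 := hγ g hg
    calc _ ≤ ε' + (Fintype.card J * (2 * ε0) + ε0) :=
          (norm_add_le _ _).trans (add_le_add e1 ((norm_sub_le _ _).trans (add_le_add e3 e4)))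
      _ ≤ ε := by nlinarith
  · intro g hg j
    have e1 := h6 (γ g) ⟨g, hg, rfl⟩ j
    have e2 : rowMap (F j) (x j) (ψ j g) - rowMap (F j) (x j) 1 * g =
        (rowMap (F j) (x j) (ψ j (γ g)) - rowMap (F j) (x j) 1 * γ g) +
          (rowMap (F j) (x j) (ψ j (g - γ g)) - rowMap (F j) (x j) 1 * (g - γ g)) := by
      simp only [map_sub, mul_sub]
      abel
    have e4 := hγ g hg
    have e5 : ‖rowMap (F j) (x j) 1 * (g - γ g)‖ ≤ 2 * ε0 :=
      (norm_mul_le _ _).trans (mul_le_mul (hR j) e4 (norm_nonneg _) (by norm_num))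
    have e6 : ‖rowMap (F j) (x j) (ψ j (g - γ g))‖ ≤ 2 * ε0 :=
      (hRψ j _).trans (by linarith)
    rw [e2]
    calc _ ≤ ε' + (2 * ε0 + 2 * ε0) :=
          (norm_add_le _ _).trans (add_le_add e1 ((norm_sub_le _ _).trans (add_le_add e6 e5)))
      _ ≤ ε := by nlinarith
  · intro g hg i j
    have e1 := h11 (γ g) ⟨g, hg, rfl⟩ i j
    have e2 : rowMap (F i) (x i) 1 * (b i j - rowMap (F j) (x j) 1) * g =
        rowMap (F i) (x i) 1 * (b i j - rowMap (F j) (x j) 1) * γ g +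
          rowMap (F i) (x i) 1 * (b i j - rowMap (F j) (x j) 1) * (g - γ g) := by
      rw [← mul_add]
      congr 1
      abel
    have e4 := hγ g hg
    have e5 : ‖rowMap (F i) (x i) 1 * (b i j - rowMap (F j) (x j) 1) * (g - γ g)‖ ≤
        2 * (2 + 2) * ε0 := by
      refine (norm_mul_le _ _).trans (mul_le_mul ?_ e4 (norm_nonneg _) (by norm_num))
      refine (norm_mul_le _ _).trans (mul_le_mul (hR i) ?_ (norm_nonneg _) (by norm_num))
      exact (norm_sub_le _ _).trans (add_le_add (hb i j) (hR j))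
    rw [e2]
    calc _ ≤ ε' + 2 * (2 + 2) * ε0 := (norm_add_le _ _).trans (add_le_add e1 e5)
      _ ≤ ε := by nlinarith

section final

variable {A B : Type} [NonUnitalCStarAlgebra A] [NonUnitalCStarAlgebra B]
  {β : B →⋆ₙₐ[ℂ] A}

theorem est_E {P : Type} [Fintype P] [DecidableEq P] {y : P → A} {z : Matrix P P B}
    (hB : ∀ x y : B, x * y = y * x) (he : ‖ee y‖ ≤ 1)
    (hz : ∀ p q, β (z p q) = star (y p) * y q) (f : B) (hf : Pos f) (hf1 : ‖f‖ ≤ 1) (ε3 : ℝ)
    (h : ∀ p, ‖f * z p p - z p p‖ ≤ ε3) :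
    ‖Th β y (Matrix.diagonal fun _ => f) - ee y‖ ≤ Fintype.card P * Real.sqrt (2 * ε3) := by
  have e1 : Th β y (Matrix.diagonal fun _ => f) - ee y =
      ∑ p, (y p * β f - y p) * star (y p) := by
    rw [Th_diag, ee, ← Finset.sum_sub_distrib]
    exact Finset.sum_congr rfl fun p _ => (sub_mul _ _ _).symm
  have e2 : ∀ p, ‖y p * β f - y p‖ ≤ Real.sqrt (2 * ε3) := by
    intro p
    refine Real.le_sqrt_of_sq_le ?_
    have e3 : star (y p * β f - y p) * (y p * β f - y p) =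
        β (f * (z p p * f) - z p p * f - (f * z p p - z p p)) := by
      rw [star_sub, star_mul, ← map_star, hf.sa, map_sub, map_sub, map_sub, map_mul, map_mul,
        map_mul, hz]
      simp only [sub_mul, mul_sub, mul_assoc]
    have e4 : f * (z p p * f) - z p p * f - (f * z p p - z p p) =
        (f * z p p - z p p) * f - (f * z p p - z p p) := by
      rw [sub_mul, mul_assoc]
    rw [pow_two, ← CStarRing.norm_star_mul_self, e3, e4]
    refine (NonUnitalStarAlgHom.norm_apply_le β _).trans ?_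
    calc ‖(f * z p p - z p p) * f - (f * z p p - z p p)‖
        ≤ ‖f * z p p - z p p‖ * ‖f‖ + ‖f * z p p - z p p‖ :=
          (norm_sub_le _ _).trans (by gcongr; exact norm_mul_le _ _)
      _ ≤ ε3 * 1 + ε3 := by
          gcongr
          · exact (norm_nonneg _).trans (h p)
          · exact h p
          · exact h p
      _ = 2 * ε3 := by ring
  rw [e1]
  calc ‖∑ p, (y p * β f - y p) * star (y p)‖ ≤ ∑ p : P, Real.sqrt (2 * ε3) * 1 := by
        refine norm_sum_le_of_le _ fun p _ => (norm_mul_le _ _).trans ?_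
        rw [norm_star]
        exact mul_le_mul (e2 p) (y_norm he p) (norm_nonneg _) (Real.sqrt_nonneg _)
    _ = _ := by simp

theorem sum_Th_diag {P : Type} [Fintype P] [DecidableEq P] {y : P → A} {J : Type} [Fintype J]
    (f : J → B) : ∑ j, Th β y (Matrix.diagonal fun _ => f j) =
      Th β y (Matrix.diagonal fun _ => ∑ j, f j) := by
  simp only [Th_diag]
  rw [Finset.sum_comm]
  refine Finset.sum_congr rfl fun p _ => ?_
  rw [map_sum, Finset.mul_sum, Finset.sum_mul]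

/-- the small numbers -/
theorem small_nums (R C μ δ : ℝ) (hR : 1 ≤ R) (hC : 1 ≤ C) (hμ : 0 < μ) (hδ : 0 < δ) :
    (∃ ε3 : ℝ, 0 < ε3 ∧ R ^ 2 * (R * ε3) ≤ μ ∧ R ^ 2 * ε3 ≤ δ ∧
      R * Real.sqrt (2 * ε3) * C ≤ μ) ∧
    ∃ ν : ℝ, 0 < ν ∧ 2 * R ^ 2 * Real.sqrt ν ≤ μ ∧ 2 * ν * C ≤ μ := by
  constructor
  · refine ⟨min (μ / R ^ 3) (min (δ / R ^ 2) ((μ / (R * C)) ^ 2 / 2)), by positivity, ?_, ?_, ?_⟩
    · have : min (μ / R ^ 3) (min (δ / R ^ 2) ((μ / (R * C)) ^ 2 / 2)) ≤ μ / R ^ 3 :=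
        min_le_left _ _
      calc R ^ 2 * (R * min (μ / R ^ 3) (min (δ / R ^ 2) ((μ / (R * C)) ^ 2 / 2)))
          ≤ R ^ 2 * (R * (μ / R ^ 3)) := by gcongr
        _ = μ := by field_simp
    · have : min (μ / R ^ 3) (min (δ / R ^ 2) ((μ / (R * C)) ^ 2 / 2)) ≤ δ / R ^ 2 :=
        (min_le_right _ _).trans (min_le_left _ _)
      calc R ^ 2 * min (μ / R ^ 3) (min (δ / R ^ 2) ((μ / (R * C)) ^ 2 / 2))
          ≤ R ^ 2 * (δ / R ^ 2) := by gcongr
        _ = δ := by field_simp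
    · have : min (μ / R ^ 3) (min (δ / R ^ 2) ((μ / (R * C)) ^ 2 / 2)) ≤
          (μ / (R * C)) ^ 2 / 2 := (min_le_right _ _).trans (min_le_right _ _)
      calc R * Real.sqrt (2 * min (μ / R ^ 3) (min (δ / R ^ 2) ((μ / (R * C)) ^ 2 / 2))) * C
          ≤ R * Real.sqrt (2 * ((μ / (R * C)) ^ 2 / 2)) * C := by gcongr
        _ = μ := by
            rw [mul_div_cancel₀ _ (two_ne_zero' ℝ), Real.sqrt_sq (by positivity)]
            field_simp
  · refine ⟨min ((μ / (2 * R ^ 2)) ^ 2) (μ / (2 * C)), by positivity, ?_, ?_⟩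
    · calc 2 * R ^ 2 * Real.sqrt (min ((μ / (2 * R ^ 2)) ^ 2) (μ / (2 * C)))
          ≤ 2 * R ^ 2 * Real.sqrt ((μ / (2 * R ^ 2)) ^ 2) := by
            gcongr
            exact min_le_left _ _
        _ = μ := by
            rw [Real.sqrt_sq (by positivity)]
            field_simp
    · calc 2 * min ((μ / (2 * R ^ 2)) ^ 2) (μ / (2 * C)) * C ≤ 2 * (μ / (2 * C)) * C := by
            gcongr
            exact min_le_right _ _
        _ = μ := by field_simp

theorem core (hT1B : StT1B) (hB : ∀ x y : B, x * y = y * x) (hβ : IsHer β) (J : Type)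
    [Fintype J] (hPart : Part B J) (W : Finset A) (hW : ∀ w ∈ W, AB β w) (hWne : W.Nonempty)
    (G : Finset A) (hG1 : ∀ g ∈ G, RW W g) (hG2 : ∀ g ∈ G, RW W (star g)) (ε : ℝ)
    (hε : 0 < ε) (hεle : ε ≤ 1) :
    SysCG A J (G : Set A) ε := by
  classical
  obtain ⟨w0, hw0⟩ := hWne
  obtain ⟨R, hR⟩ : ∃ R : ℝ, R = (Fintype.card {w // w ∈ W} : ℝ) := ⟨_, rfl⟩
  have hR1 : 1 ≤ R := by
    rw [hR]
    have : 0 < Fintype.card {w // w ∈ W} := Fintype.card_pos_iff.2 ⟨⟨w0, hw0⟩⟩
    exact_mod_cast this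
  obtain ⟨n, hn⟩ : ∃ n : ℝ, n = (Fintype.card J : ℝ) := ⟨_, rfl⟩
  have hn0 : 0 ≤ n := by rw [hn]; positivity
  obtain ⟨C, hC1, hC⟩ : ∃ C : ℝ, 1 ≤ C ∧ ∀ g ∈ G, ‖g‖ ≤ C := by
    refine ⟨1 + ∑ g ∈ G, ‖g‖, ?_, fun g hg => ?_⟩
    · have : 0 ≤ ∑ g ∈ G, ‖g‖ := Finset.sum_nonneg fun g _ => norm_nonneg g
      linarith
    · have := Finset.single_le_sum (f := fun g : A => ‖g‖) (fun g _ => norm_nonneg g) hg
      linarith
  obtain ⟨μ, hμ0, hμ1, hμ2⟩ : ∃ μ : ℝ, 0 < μ ∧ 40 * μ ≤ ε ∧ (5 * n + 2) * μ ≤ ε := by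
    refine ⟨ε / (40 * (n + 1)), by positivity, ?_, ?_⟩
    · have : 40 * (ε / (40 * (n + 1))) = ε / (n + 1) := by field_simp
      rw [this]
      exact div_le_self hε.le (by linarith)
    · have e1 : (5 * n + 2) * (ε / (40 * (n + 1))) = ε * ((5 * n + 2) / (40 * (n + 1))) := by
        field_simp
      rw [e1]
      have e2 : (5 * n + 2) / (40 * (n + 1)) ≤ 1 := by
        rw [div_le_one (by positivity)]
        linarith
      exact mul_le_of_le_one_right hε.le e2
  -- parameters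
  obtain ⟨ε4, hε4⟩ : ∃ ε4 : ℝ, ε4 = μ / (2 * R ^ 2 * C) := ⟨_, rfl⟩
  have hε40 : 0 < ε4 := by rw [hε4]; positivity
  obtain ⟨η, hη⟩ : ∃ η : ℝ, η = 2 * R ^ 2 * ε4 := ⟨_, rfl⟩
  have hηC : η * C = μ := by rw [hη, hε4]; field_simp
  have hη0 : 0 ≤ η := by rw [hη]; positivity
  have hημ : η ≤ μ := by nlinarith
  obtain ⟨δ, hδ0, hT⟩ := hT1B (Fintype.card {w // w ∈ W}) ε4 hε40
  obtain ⟨κ, hκ⟩ : ∃ κ : ℝ, κ = δ / 2 := ⟨_, rfl⟩
  have hκ0 : 0 < κ := by rw [hκ]; positivity
  obtain ⟨ε1, hε1⟩ : ∃ ε1 : ℝ, ε1 = μ * min κ 1 := ⟨_, rfl⟩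
  have hε10 : 0 < ε1 := by rw [hε1]; positivity
  have hε1μ : ε1 ≤ μ := by
    rw [hε1]
    exact mul_le_of_le_one_right hμ0.le (min_le_right _ _)
  have hκε1 : κ⁻¹ * ε1 ≤ μ := by
    rw [inv_mul_le_iff₀ hκ0, hε1, mul_comm κ μ]
    gcongr
    exact min_le_left _ _
  obtain ⟨y, hyAB, hye, hy1⟩ := exists_y β W hW (G ∪ G.image star) (by
    intro g hg
    rw [Finset.mem_union, Finset.mem_image] at hg
    rcases hg with hg | ⟨g', hg', rfl⟩
    · exact hG1 g hg
    · exact hG2 g' hg') ε1 hε10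
  have he : ‖ee y‖ ≤ 1 := hye
  obtain ⟨mt, z, hmt, hz⟩ := exists_mt (P := {w // w ∈ W}) hβ hyAB
  obtain ⟨⟨ε3, hε30, hε3a, hε3b, hε3c⟩, ν, hν0, hν1, hν2⟩ :=
    small_nums R C μ (δ / 2) hR1 hC1 hμ0 (by positivity)
  obtain ⟨L, fL, f, χ, hf1, hf2, hf3, hf4, hf5⟩ := hPart
    (Finset.univ.image (fun a : {w // w ∈ W} × {w // w ∈ W} => z a.1 a.2) ∪
      (G ×ˢ Finset.univ).image
        (fun a : A × ({w // w ∈ W} × {w // w ∈ W}) => mt a.1 a.2.1 a.2.2)) ε3 hε30
  have hzmem : ∀ p q, z p q ∈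
      (Finset.univ.image (fun a : {w // w ∈ W} × {w // w ∈ W} => z a.1 a.2) ∪
      (G ×ˢ Finset.univ).image
        (fun a : A × ({w // w ∈ W} × {w // w ∈ W}) => mt a.1 a.2.1 a.2.2)) := by
    intro p q
    rw [Finset.mem_union]
    left
    exact Finset.mem_image.2 ⟨(p, q), Finset.mem_univ _, rfl⟩
  have hmmem : ∀ g ∈ G, ∀ p q, mt g p q ∈
      (Finset.univ.image (fun a : {w // w ∈ W} × {w // w ∈ W} => z a.1 a.2) ∪
      (G ×ˢ Finset.univ).image
        (fun a : A × ({w // w ∈ W} × {w // w ∈ W}) => mt a.1 a.2.1 a.2.2)) := by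
    intro g hg p q
    rw [Finset.mem_union]
    right
    exact Finset.mem_image.2 ⟨(g, (p, q)), Finset.mem_product.2 ⟨hg, Finset.mem_univ _⟩, rfl⟩
  -- the functions `f_j`
  obtain ⟨fj, hfj⟩ : ∃ fj : J → B, ∀ j, fj j = ∑ l, f j l := ⟨_, fun _ => rfl⟩
  have hfjp : ∀ j, Pos (fj j) := fun j => by
    rw [hfj]; exact Pos.sum _ fun l _ => hf1 j l
  have hfs : ‖∑ j, fj j‖ ≤ 1 := by
    have : ∑ j, fj j = ∑ j, ∑ l, f j l := Finset.sum_congr rfl fun j _ => hfj j
    rw [this]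
    exact hf3
  have hfsp : Pos (∑ j, fj j) := Pos.sum _ fun j _ => hfjp j
  have hfj1 : ∀ j, ‖fj j‖ ≤ 1 := fun j => (pos_le_sum fj hfjp j).trans hfs
  -- colours
  have hgG1 : ∀ g ∈ G, ‖g - ee y * g‖ ≤ ε1 := by
    intro g hg
    rw [norm_sub_rev]
    exact hy1 g (Finset.mem_union_left _ hg)
  have hcol : ∀ j, Col β y mt z (f j) (χ j) (G : Set A) ε1 ε3 := by
    intro j
    refine ⟨hB, hβ.inj, he, hmt, hz, hf1 j, hf2 j, ?_, hε10.le, hε30.le, ?_, ?_, ?_, ?_⟩
    · rw [← hfj]; exact hfj1 j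
    · intro g hg l p q
      exact hf5 _ (hmmem g hg p q) j l
    · intro l p q
      exact hf5 _ (hzmem p q) j l
    · exact hgG1
    · intro g hg
      have h1 := hy1 (star g) (Finset.mem_union_right _ (Finset.mem_image_of_mem _ hg))
      have h2 : ee y * star g - star g = star (g * ee y - g) := by
        rw [star_sub, star_mul, star_ee]
      change ‖ee y * star g - star g‖ ≤ ε1 at h1
      rw [h2, norm_star] at h1
      rw [norm_sub_rev]
      exact h1
  have hδ' : (Fintype.card {w // w ∈ W} : ℝ) ^ 2 * ε3 + κ ≤ δ := by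
    rw [← hR, hκ]
    linarith
  choose F ψ x k c hcpc hrow hkp hkl hcard hxn hcp hcn hEc hRc hT1 hT2 hΘ using fun j =>
    one_colour (hcol j) ⟨w0, hw0⟩ κ δ ε4 hκ0 hε40.le hδ' hT η (by rw [hη, hR])
  choose ρ θ hρ hθ hρ1 hkθ hk1 hk2 using fun j l => exists_rho (k j l) (hkp j l) ν hν0
  have hEE : ∀ j, EE β y (f j) = Th β y (Matrix.diagonal fun _ => fj j) := by
    intro j
    rw [EE, hfj]
  have hEEn : ∀ j, ‖EE β y (f j)‖ ≤ 1 := fun j => EE_norm (hcol j)
  have hEsum : ∑ j, EE β y (f j) = Th β y (Matrix.diagonal fun _ => ∑ j, fj j) := by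
    rw [← sum_Th_diag]
    exact Finset.sum_congr rfl fun j _ => hEE j
  -- error terms
  obtain ⟨e1, he1, he1μ⟩ : ∃ e1 : ℝ, e1 = η * C + (2 * (κ⁻¹ * ε1) +
      (Fintype.card {w // w ∈ W} : ℝ) ^ 2 * (Fintype.card {w // w ∈ W} * ε3) + ε1) ∧
      e1 ≤ 5 * μ := by
    refine ⟨_, rfl, ?_⟩
    rw [← hR, hηC]
    linarith
  obtain ⟨e2, he2, he2μ⟩ : ∃ e2 : ℝ, e2 = 2 * η * C + (3 * (κ⁻¹ * ε1) +
      (Fintype.card {w // w ∈ W} : ℝ) ^ 2 * (Fintype.card {w // w ∈ W} * ε3) + ε1) ∧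
      e2 ≤ 7 * μ := by
    refine ⟨_, rfl, ?_⟩
    rw [← hR, mul_assoc 2 η C, hηC]
    linarith
  have hT1' : ∀ j, ∀ g ∈ G, ‖rowMap (F j) (x j) (ψ j g) - EE β y (f j) * g‖ ≤ e1 := by
    intro j g hg
    refine (hT1 j g hg).trans ?_
    rw [he1]
    have := hC g hg
    gcongr
  have hT2' : ∀ j, ∀ g ∈ G, ‖rowMap (F j) (x j) (ψ j g) - rowMap (F j) (x j) 1 * g‖ ≤ e2 := by
    intro j g hg
    refine (hT2 j g hg).trans ?_
    rw [he2]
    have := hC g hg
    gcongr
  obtain ⟨b, hb1, hb2⟩ : ∃ b : J → J → A, (∀ i, b i i = rowMap (F i) (x i) 1) ∧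
      ∀ i j, i ≠ j → b i j = bb β (x i) (fun l => fj j * θ i l) := by
    refine ⟨fun i j => if i = j then rowMap (F i) (x i) 1 else
      bb β (x i) (fun l => fj j * θ i l), fun i => if_pos rfl, fun i j hij => if_neg hij⟩
  have hmulpos : ∀ a b : B, Pos a → Pos b → Pos (a * b) := by
    rintro _ _ ⟨a, rfl⟩ ⟨b, rfl⟩
    refine ⟨a * b, ?_⟩
    rw [star_mul]
    calc star a * a * (star b * b) = (star b * b) * (star a * a) := hB _ _
      _ = star b * (b * (star a * a)) := by simp only [mul_assoc]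
      _ = star b * ((star a * a) * b) := by rw [hB b]
      _ = _ := by simp only [mul_assoc]
  have hR2 : ∀ j, ‖rowMap (F j) (x j) 1‖ ≤ 1 + μ := by
    intro j
    calc ‖rowMap (F j) (x j) 1‖ = ‖c j + (rowMap (F j) (x j) 1 - c j)‖ := by congr 1; abel
      _ ≤ 1 + η := (norm_add_le _ _).trans (add_le_add (hcn j) (hRc j))
      _ ≤ 1 + μ := by linarith
  refine ⟨F, ψ, x, fun j l => β (k j l), b, hcpc, hrow, fun j l => (hkp j l).map β, ?_, ?_, ?_,
    ?_, hb1, ?_, ?_, ?_⟩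
  · -- the norm of the sum of the units
    have h1 : ‖∑ j, c j‖ ≤ 1 := by
      have h2 : Pos (∑ j, EE β y (f j) - ∑ j, c j) := by
        rw [← Finset.sum_sub_distrib]
        exact Pos.sum _ fun j _ => hEc j
      refine ((Pos.sum _ fun j _ => hcp j).norm_le h2).trans ?_
      rw [hEsum]
      exact ((pos_Th_diag _ hfsp).norm_le (Th_diag_le _ hfsp hfs)).trans he
    have h3 : ‖∑ j, (rowMap (F j) (x j) 1 - c j)‖ ≤ n * η := by
      calc ‖∑ j, (rowMap (F j) (x j) 1 - c j)‖ ≤ ∑ j : J, η :=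
            norm_sum_le_of_le _ fun j _ => hRc j
        _ = n * η := by rw [hn]; simp
    calc ‖∑ j, rowMap (F j) (x j) 1‖ = ‖∑ j, c j + ∑ j, (rowMap (F j) (x j) 1 - c j)‖ := by
          rw [← Finset.sum_add_distrib]
          congr 1
          exact Finset.sum_congr rfl fun j _ => by abel
      _ ≤ 1 + n * η := (norm_add_le _ _).trans (add_le_add h1 h3)
      _ ≤ 1 + ε := by nlinarith
  · -- approximation
    intro g hg
    have h1 : ‖∑ j, (rowMap (F j) (x j) (ψ j g) - EE β y (f j) * g)‖ ≤ n * e1 := by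
      calc _ ≤ ∑ j : J, e1 := norm_sum_le_of_le _ fun j _ => hT1' j g hg
        _ = n * e1 := by rw [hn]; simp
    have h2 : ‖(∑ j, EE β y (f j) - ee y) * g‖ ≤ μ := by
      have h3 : ‖∑ j, EE β y (f j) - ee y‖ ≤ R * Real.sqrt (2 * ε3) := by
        rw [hEsum, hR]
        refine est_E hB he hz _ hfsp hfs ε3 fun p => ?_
        have := hf4 _ (hzmem p p)
        have h4 : ∑ j, fj j = ∑ j, ∑ l, f j l := Finset.sum_congr rfl fun j _ => hfj j
        rw [h4]
        exact this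
      calc ‖(∑ j, EE β y (f j) - ee y) * g‖ ≤ ‖∑ j, EE β y (f j) - ee y‖ * ‖g‖ :=
            norm_mul_le _ _
        _ ≤ R * Real.sqrt (2 * ε3) * C := by
            gcongr
            exact hC g hg
        _ ≤ μ := hε3c
    have h5 : ‖g - ee y * g‖ ≤ μ := ((hgG1 g hg)).trans hε1μ
    have h6 : ∑ j, rowMap (F j) (x j) (ψ j g) - g =
        ∑ j, (rowMap (F j) (x j) (ψ j g) - EE β y (f j) * g) +
          (∑ j, EE β y (f j) - ee y) * g - (g - ee y * g) := by
      rw [Finset.sum_sub_distrib, ← Finset.sum_mul, sub_mul]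
      abel
    rw [h6]
    calc _ ≤ n * e1 + μ + μ := (norm_sub_le _ _).trans (add_le_add ((norm_add_le _ _).trans
          (add_le_add h1 h2)) h5)
      _ ≤ ε := by nlinarith
  · intro g hg j
    exact (hT2' j g hg).trans (by linarith)
  · intro i j
    by_cases hij : i = j
    · subst hij
      rw [hb1]
      exact pos_rowMap_one _
    · rw [hb2 i j hij]
      exact pos_bb _ fun l => hmulpos _ _ (hfjp j) (hθ i l)
  · intro i j Y
    by_cases hij : i = j
    · subst hij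
      rw [hb1, J_ROW.row_mul (hrow i), J_ROW.row_mul (hrow i), one_mul, mul_one]
    · rw [hb2 i j hij]
      exact bb_comm hB (hrow i) _ _
  · intro i
    have h1 : ∑ j, b i j = rowMap (F i) (x i) 1 +
        bb β (x i) (fun l => ∑ j ∈ Finset.univ.erase i, fj j * θ i l) := by
      rw [← Finset.add_sum_erase _ _ (Finset.mem_univ i), hb1,
        bb_sum (Finset.univ.erase i) (fun j l => fj j * θ i l)]
      congr 1
      refine Finset.sum_congr rfl fun j hj => ?_
      exact hb2 i j (Ne.symm (Finset.ne_of_mem_erase hj))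
    have h2 := row_one_approx hB (hrow i) (hxn i) _ (hcard i) (ρ i) (hρ i) (hρ1 i) ν hν0.le
      (hk1 i)
    rw [← hR] at h2
    have h3 : ‖bb β (x i) (fun l => ρ i l * ρ i l +
        ∑ j ∈ Finset.univ.erase i, fj j * θ i l)‖ ≤ 1 := by
      refine norm_bb hB (hrow i) _ ?_ 1 zero_le_one ?_
      · intro l
        exact (hmulpos _ _ (hρ i l) (hρ i l)).add
          (Pos.sum _ fun j _ => hmulpos _ _ (hfjp j) (hθ i l))
      · intro l
        have h4 : k i l * (ρ i l * ρ i l + ∑ j ∈ Finset.univ.erase i, fj j * θ i l) =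
            (k i l + ∑ j ∈ Finset.univ.erase i, fj j) * (ρ i l * ρ i l) := by
          rw [← Finset.sum_mul, mul_add, add_mul, ← hkθ i l]
          congr 1
          rw [hB (∑ j ∈ Finset.univ.erase i, fj j) (θ i l), ← mul_assoc,
            hB (∑ j ∈ Finset.univ.erase i, fj j)]
        rw [h4]
        have h5 : ‖k i l + ∑ j ∈ Finset.univ.erase i, fj j‖ ≤ 1 := by
          have h6 : Pos (∑ j, fj j - (k i l + ∑ j ∈ Finset.univ.erase i, fj j)) := by
            rw [← Finset.add_sum_erase _ _ (Finset.mem_univ i), add_sub_add_right_eq_sub]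
            obtain ⟨l', hl'⟩ := hkl i l
            have h7 : Pos (fj i - f i l') := by
              rw [hfj, ← Finset.add_sum_erase _ _ (Finset.mem_univ l'), add_sub_cancel_left]
              exact Pos.sum _ fun l _ => hf1 i l
            have h8 : fj i - k i l = (fj i - f i l') + (f i l' - k i l) := by abel
            rw [h8]
            exact h7.add hl'
          exact (((hkp i l).add (Pos.sum _ fun j _ => hfjp j)).norm_le h6).trans hfs
        calc ‖(k i l + ∑ j ∈ Finset.univ.erase i, fj j) * (ρ i l * ρ i l)‖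
            ≤ ‖k i l + ∑ j ∈ Finset.univ.erase i, fj j‖ * (‖ρ i l‖ * ‖ρ i l‖) :=
              (norm_mul_le _ _).trans (by gcongr; exact norm_mul_le _ _)
          _ ≤ 1 * (1 * 1) := by
              gcongr
              · exact hρ1 i l
              · exact hρ1 i l
          _ = 1 := by ring
    have h9 : rowMap (F i) (x i) 1 +
        bb β (x i) (fun l => ∑ j ∈ Finset.univ.erase i, fj j * θ i l) =
        bb β (x i) (fun l => ρ i l * ρ i l + ∑ j ∈ Finset.univ.erase i, fj j * θ i l) +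
          (rowMap (F i) (x i) 1 - bb β (x i) (fun l => ρ i l * ρ i l)) := by
      rw [bb_add]
      abel
    rw [h1, h9]
    calc _ ≤ 1 + 2 * R ^ 2 * Real.sqrt ν := (norm_add_le _ _).trans (add_le_add h3 h2)
      _ ≤ 1 + ε := by linarith
  · intro g hg i j
    by_cases hij : i = j
    · subst hij
      rw [hb1, sub_self, mul_zero, zero_mul, norm_zero]
      exact hε.le
    obtain ⟨Θ, hΘ1, hΘ2, hΘ3⟩ := hΘ i (fj j) (hfjp j) (hfj1 j)
    have h1 : rowMap (F i) (x i) 1 * b i j =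
        bb β (x i) (fun l => fj j * (ρ i l * ρ i l)) := by
      rw [hb2 i j hij, row_one_bb (hrow i)]
      congr 1
      funext l
      rw [← hkθ i l, ← mul_assoc, hB (k i l) (fj j), mul_assoc]
    have h2 : ‖bb β (x i) (fun _ => fj j) - bb β (x i) (fun l => fj j * (ρ i l * ρ i l))‖ ≤
        2 * ν := by
      rw [← bb_sub (x := x i) (fun _ => fj j) (fun l => fj j * (ρ i l * ρ i l))]
      refine norm_bb hB (hrow i) _ ?_ (2 * ν) (by positivity) ?_
      · intro l
        obtain ⟨g0, hg0⟩ := hfjp j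
        have h3 := conj_le (star g0) (ρ i l * ρ i l) (hmulpos _ _ (hρ i l) (hρ i l)) 1
          ((norm_mul_le _ _).trans (mul_le_one₀ (hρ1 i l) (norm_nonneg _) (hρ1 i l)))
        rw [star_star, Complex.ofReal_one, one_smul, ← hg0] at h3
        have h4 : star g0 * (ρ i l * ρ i l) * g0 = fj j * (ρ i l * ρ i l) := by
          rw [mul_assoc, hB (ρ i l * ρ i l) g0, ← mul_assoc, ← hg0]
        rwa [h4] at h3
      · intro l
        have h5 : k i l * (fj j - fj j * (ρ i l * ρ i l)) =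
            (k i l - k i l * (ρ i l * ρ i l)) * fj j := by
          rw [hB (fj j) (ρ i l * ρ i l), mul_sub, sub_mul, mul_assoc (k i l) (ρ i l * ρ i l)]
        rw [h5]
        calc _ ≤ ‖k i l - k i l * (ρ i l * ρ i l)‖ * ‖fj j‖ := norm_mul_le _ _
          _ ≤ (2 * ν) * 1 := by
              gcongr
              · exact hk2 i l
              · exact hfj1 j
          _ = 2 * ν := mul_one _
    have h3 : ‖rowMap (F i) (x i) 1 * b i j - Θ‖ ≤ 2 * ν + η := by
      rw [h1]
      have h4 : bb β (x i) (fun l => fj j * (ρ i l * ρ i l)) - Θ =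
          (bb β (x i) (fun _ => fj j) - Θ) -
            (bb β (x i) (fun _ => fj j) - bb β (x i) (fun l => fj j * (ρ i l * ρ i l))) := by
        abel
      rw [h4]
      refine (norm_sub_le _ _).trans ?_
      rw [add_comm]
      exact add_le_add h2 hΘ2
    have hgC := hC g hg
    have hg1 : ‖g - ee y * g‖ ≤ ε1 := hgG1 g hg
    rw [← hEE j] at hΘ3
    have h6 : rowMap (F i) (x i) 1 * (b i j - rowMap (F j) (x j) 1) * g =
        (rowMap (F i) (x i) 1 * b i j - Θ) * g + Θ * (g - ee y * g) -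
        ((rowMap (F i) (x i) 1 - c i) * (EE β y (f j) * g) +
          rowMap (F i) (x i) 1 * (rowMap (F j) (x j) (ψ j g) - EE β y (f j) * g) -
          rowMap (F i) (x i) 1 * (rowMap (F j) (x j) (ψ j g) - rowMap (F j) (x j) 1 * g)) := by
      have h7 : Θ * (ee y * g) = c i * (EE β y (f j) * g) := by
        rw [← mul_assoc, hΘ3, mul_assoc]
      rw [mul_sub Θ, h7]
      simp only [mul_sub, sub_mul, mul_assoc]
      abel
    have hμ1' : 0 ≤ 1 + μ := by linarith
    have a1 : ‖(rowMap (F i) (x i) 1 * b i j - Θ) * g‖ ≤ (2 * ν + η) * C :=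
      (norm_mul_le _ _).trans (mul_le_mul h3 hgC (norm_nonneg _) (by linarith))
    have a2 : ‖Θ * (g - ee y * g)‖ ≤ 1 * ε1 :=
      (norm_mul_le _ _).trans (mul_le_mul hΘ1 hg1 (norm_nonneg _) zero_le_one)
    have a3 : ‖(rowMap (F i) (x i) 1 - c i) * (EE β y (f j) * g)‖ ≤ η * (1 * C) :=
      (norm_mul_le _ _).trans (mul_le_mul (hRc i) ((norm_mul_le _ _).trans
        (mul_le_mul (hEEn j) hgC (norm_nonneg _) zero_le_one)) (norm_nonneg _) hη0)
    have a4 : ‖rowMap (F i) (x i) 1 * (rowMap (F j) (x j) (ψ j g) - EE β y (f j) * g)‖ ≤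
        (1 + μ) * e1 :=
      (norm_mul_le _ _).trans (mul_le_mul (hR2 i) (hT1' j g hg) (norm_nonneg _) hμ1')
    have a5 : ‖rowMap (F i) (x i) 1 * (rowMap (F j) (x j) (ψ j g) -
        rowMap (F j) (x j) 1 * g)‖ ≤ (1 + μ) * e2 :=
      (norm_mul_le _ _).trans (mul_le_mul (hR2 i) (hT2' j g hg) (norm_nonneg _) hμ1')
    rw [h6]
    calc _ ≤ ((2 * ν + η) * C + 1 * ε1) + ((η * (1 * C) + (1 + μ) * e1) + (1 + μ) * e2) :=
          (norm_sub_le _ _).trans (add_le_add ((norm_add_le _ _).trans (add_le_add a1 a2))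
            ((norm_sub_le _ _).trans (add_le_add ((norm_add_le _ _).trans (add_le_add a3 a4))
              a5)))
      _ ≤ ε := by
          have hμle : μ ≤ 1 := by linarith
          have b1 : (1 + μ) * e1 ≤ 2 * (5 * μ) :=
            mul_le_mul (by linarith) he1μ (by rw [he1]; positivity) (by norm_num)
          have b2 : (1 + μ) * e2 ≤ 2 * (7 * μ) :=
            mul_le_mul (by linarith) he2μ (by rw [he2]; positivity) (by norm_num)
          have b3 : (2 * ν + η) * C ≤ μ + μ := by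
            rw [add_mul, hηC]
            linarith
          have b4 : η * (1 * C) = μ := by rw [one_mul, hηC]
          linarith

end final

theorem t_ABL (hT1B : StT1B) : StABL := by
  classical
  intro A B _ _ β hB hβ hfull J _ hPart G ε hε
  obtain ⟨ε0, hε0⟩ : ∃ ε0 : ℝ, ε0 = ε / 2 / (2 * (Fintype.card J : ℝ) + 10) := ⟨_, rfl⟩
  have hn : (0 : ℝ) ≤ Fintype.card J := by positivity
  have hε00 : 0 < ε0 := by rw [hε0]; positivity
  obtain ⟨W, γ, hW, hWne, hγ⟩ := exists_W β hfull G ε0 hε00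
  have h1 := core hT1B hB hβ J hPart W hW hWne (G.image γ)
    (by
      intro g hg
      obtain ⟨g', hg', rfl⟩ := Finset.mem_image.1 hg
      exact (hγ g' hg').2.1)
    (by
      intro g hg
      obtain ⟨g', hg', rfl⟩ := Finset.mem_image.1 hg
      exact (hγ g' hg').2.2) (min (ε / 2) 1) (by positivity) (min_le_right _ _)
  rw [Finset.coe_image] at h1
  exact transfer G γ ε (min (ε / 2) 1) ε0 (min_le_left _ _) (min_le_right _ _)
    (by rw [hε0, mul_div_cancel₀]; positivity) hε00.le hε (fun g hg => (hγ g hg).1) h1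

end Pool.Agent.Helper7_ND.J_ABL
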