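import Pool.Agent.Helper7_ND.Stm5
import Pool.Agent.Helper7_ND.Rp
import Pool.Agent.Helper7_ND.J_A1
import Pool.Agent.Helper7_ND.J_LFT

/-! # Quasi-central elements of an ideal and the compression by `a = (1 - t²)^{1/2}` -/

set_option autoImplicit false

open scoped Matrix.Norms.L2Operator ENNReal Matrix
open Pool.Agent.W659.EC

noncomputable section

namespace Pool.Agent.Helper7_ND.J_AP

/-- a positive element is dominated by the norm of its image plus an element of the ideal -/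
theorem ap_exists_m {I E D : Type} [NonUnitalCStarAlgebra I] [NonUnitalCStarAlgebra E]
    [NonUnitalCStarAlgebra D] {ι : I →⋆ₙₐ[ℂ] E} {π : E →⋆ₙₐ[ℂ] D} (hext : IsExt ι π) (P : E)
    (hP : Pos P) (c : ℝ) (hc0 : 0 ≤ c) (h : ‖π P‖ ≤ c) :
    ∃ m : I, star ((ι m : E) : Unitization ℂ E) = ((ι m : E) : Unitization ℂ E) ∧
      Pos ((c : ℂ) • (1 : Unitization ℂ E) + ((ι m : E) : Unitization ℂ E)
        - (P : Unitization ℂ E)) := by
  let _ := CStarAlgebra.spectralOrder (Unitization ℂ E)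
  let _ := CStarAlgebra.spectralOrderedRing (Unitization ℂ E)
  have hPsa : IsSelfAdjoint P := by
    obtain ⟨b, rfl⟩ := hP
    exact IsSelfAdjoint.star_mul_self b
  have hcont : Continuous fun s : ℝ => max (s - c) 0 := by fun_prop
  have hf0 : (fun s : ℝ => max (s - c) 0) 0 = 0 := by
    show max (0 - c) 0 = 0
    rw [max_eq_right]
    linarith
  have hc : Continuous π :=
    ((π : E →ₗ[ℂ] D).mkContinuous 1 (fun x => by
      rw [one_mul]; exact NonUnitalStarAlgHom.norm_apply_le π x)).continuous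
  have hπ : π (cfcₙ (fun s : ℝ => max (s - c) 0) P) = 0 := by
    rw [NonUnitalStarAlgHom.map_cfcₙ (S := ℂ) π (fun s : ℝ => max (s - c) 0) P
      (hf := hcont.continuousOn) (hf₀ := hf0) (hφ := hc) (ha := hPsa) (hφa := hPsa.map π)]
    have hz : cfcₙ (fun s : ℝ => max (s - c) 0) (π P) = cfcₙ (fun _ : ℝ => (0 : ℝ)) (π P) := by
      refine cfcₙ_congr fun s hs => ?_
      have h1 := norm_apply_le_norm_cfcₙ (id : ℝ → ℝ) (π P) hs continuousOn_id rfl (hPsa.map π)
      rw [cfcₙ_id ℝ (π P) (hPsa.map π)] at h1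
      have h2 : s ≤ c := (le_abs_self s).trans (h1.trans h)
      exact max_eq_right (by linarith)
    rw [hz]
    simp
  obtain ⟨m, hm⟩ := (hext.exact _).1 hπ
  have hm' : ((ι m : E) : Unitization ℂ E) =
      cfc (fun s : ℝ => max (s - c) 0) (P : Unitization ℂ E) := by
    rw [hm]
    exact Unitization.real_cfcₙ_eq_cfc_inr P _ hf0
  have hPsa' : IsSelfAdjoint (P : Unitization ℂ E) := by
    rw [IsSelfAdjoint, ← Unitization.inr_star, hPsa.star_eq]
  refine ⟨m, ?_, ?_⟩
  · rw [hm']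
    exact (cfc_predicate (fun s : ℝ => max (s - c) 0) (P : Unitization ℂ E)).star_eq
  · rw [pos_iff, sub_nonneg, hm']
    have h1 : cfc (fun s : ℝ => s) (P : Unitization ℂ E) ≤
        cfc (fun s : ℝ => c + max (s - c) 0) (P : Unitization ℂ E) := by
      refine cfc_mono (fun s _ => ?_) (by fun_prop) (by fun_prop)
      show s ≤ c + max (s - c) 0
      linarith [le_max_left (s - c) 0]
    rw [cfc_id' ℝ (P : Unitization ℂ E), cfc_add (P : Unitization ℂ E) (fun _ => c)
      (fun s => max (s - c) 0) (by fun_prop) hcont.continuousOn,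
      cfc_const c (P : Unitization ℂ E)] at h1
    refine h1.trans (le_of_eq ?_)
    rw [Algebra.algebraMap_eq_smul_one]
    congr 1

/-- positivity of the cut -/
theorem ap_cut_pos {I E : Type} [NonUnitalCStarAlgebra I] [NonUnitalCStarAlgebra E]
    (ι : I →⋆ₙₐ[ℂ] E) (t : I) : Pos (cut ι t) := by
  let _ := CStarAlgebra.spectralOrder (Unitization ℂ E)
  let _ := CStarAlgebra.spectralOrderedRing (Unitization ℂ E)
  rw [pos_iff]
  unfold cut
  exact cfc_nonneg fun s _ => Real.sqrt_nonneg _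

/-- the compression of a positive element -/
theorem ap_ineq {B : Type} [CStarAlgebra B] (T a p q : B) (c δ : ℝ) (ha : star a = a)
    (ha2 : a * a = 1 - T * T) (hp : Pos ((c : ℂ) • (1 : B) + q - p)) (hq : star q = q)
    (hqa : ‖a * q * a‖ ≤ δ) :
    Pos (((c + δ : ℝ) : ℂ) • (1 : B) - (c : ℂ) • (T * T) - a * p * a) := by
  let _ := CStarAlgebra.spectralOrder B
  let _ := CStarAlgebra.spectralOrderedRing B
  rw [pos_iff] at hp ⊢
  have c1 : 0 ≤ star a * ((c : ℂ) • (1 : B) + q - p) * a := star_left_conjugate_nonneg hp a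
  have s1 : IsSelfAdjoint (a * q * a) := by
    rw [IsSelfAdjoint, star_mul, star_mul, ha, hq, mul_assoc]
  have c2 := J_LFT.le_csmul_one _ s1 δ hqa
  have e1 : star a * ((c : ℂ) • (1 : B) + q - p) * a =
      (c : ℂ) • (1 - T * T) + a * q * a - a * p * a := by
    rw [ha, ← ha2, mul_sub, mul_add, sub_mul, add_mul, mul_smul_comm, smul_mul_assoc, mul_one]
  rw [e1] at c1
  have := add_nonneg c1 c2
  refine this.trans (le_of_eq ?_)
  push_cast
  module

theorem t_AP (hCOM : StCOM) (hLN : StLN) (hQC : StQC) : StAP := by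
  classical
  intro I E D _ _ _ ι π hext S δ hδ
  have hz' : ∀ x : E, ∃ (z' : E) (i : I), ‖z'‖ ≤ ‖π x‖ ∧ x = z' + ι i := by
    intro x
    obtain ⟨z', h1, h2⟩ := hLN E D π x
    have h3 : π (x - z') = 0 := by
      rw [map_sub π _ z', h1, sub_self]
    obtain ⟨i, hi⟩ := (hext.exact _).1 h3
    exact ⟨z', i, h2, by rw [hi]; abel⟩
  choose z' ix hz'n hz'e using hz'
  have hm' : ∀ x : E, ∃ m : I, Pos x →
      (star ((ι m : E) : Unitization ℂ E) = ((ι m : E) : Unitization ℂ E) ∧
      Pos (((‖π x‖ : ℝ) : ℂ) • (1 : Unitization ℂ E) + ((ι m : E) : Unitization ℂ E)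
        - (x : Unitization ℂ E))) := by
    intro x
    by_cases hx : Pos x
    · obtain ⟨m, hm⟩ := ap_exists_m hext x hx ‖π x‖ (norm_nonneg _) le_rfl
      exact ⟨m, fun _ => hm⟩
    · exact ⟨0, fun h => absurd h hx⟩
  choose mx hmx using hm'
  -- a common bound of the norms
  obtain ⟨M, hM1, hxM, hixM, hmM⟩ : ∃ M : ℝ, 1 ≤ M ∧ (∀ x ∈ S, ‖x‖ ≤ M) ∧
      (∀ x ∈ S, ‖ix x‖ ≤ M) ∧ ∀ x ∈ S, ‖mx x‖ ≤ M := by
    have h0 : ∀ f : E → ℝ, (∀ x, 0 ≤ f x) → 0 ≤ ∑ x ∈ S, f x := fun f hf =>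
      Finset.sum_nonneg fun x _ => hf x
    have h1 := h0 (fun x => ‖x‖) fun x => norm_nonneg _
    have h2 := h0 (fun x => ‖ix x‖) fun x => norm_nonneg _
    have h3 := h0 (fun x => ‖mx x‖) fun x => norm_nonneg _
    refine ⟨1 + ∑ x ∈ S, ‖x‖ + ∑ x ∈ S, ‖ix x‖ + ∑ x ∈ S, ‖mx x‖, by linarith, ?_, ?_, ?_⟩
    · intro x hx
      have := Finset.single_le_sum (f := fun x : E => ‖x‖) (fun _ _ => norm_nonneg _) hx
      linarith
    · intro x hx
      have := Finset.single_le_sum (f := fun x : E => ‖ix x‖) (fun _ _ => norm_nonneg _) hx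
      linarith
    · intro x hx
      have := Finset.single_le_sum (f := fun x : E => ‖mx x‖) (fun _ _ => norm_nonneg _) hx
      linarith
  obtain ⟨δc, hδc, hcom⟩ := hCOM (fun s : ℝ => Real.sqrt (1 - s ^ 2)) M (δ / 2)
    (by fun_prop) (by positivity)
  obtain ⟨δ0, hδ0, hδ0c, hδ0δ, hδ0M⟩ : ∃ δ0 : ℝ, 0 < δ0 ∧ δ0 ≤ δc ∧ δ0 ≤ δ / 2 ∧
      2 * M * δ0 ≤ δ ^ 2 := by
    refine ⟨min (min δc (δ / 2)) (δ ^ 2 / (2 * M)), by positivity,
      (min_le_left _ _).trans (min_le_left _ _), (min_le_left _ _).trans (min_le_right _ _), ?_⟩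
    calc 2 * M * min (min δc (δ / 2)) (δ ^ 2 / (2 * M)) ≤ 2 * M * (δ ^ 2 / (2 * M)) := by
          gcongr
          exact min_le_right _ _
      _ = δ ^ 2 := by
        have : M ≠ 0 := by positivity
        field_simp
  have hideal : IsIdeal ι := by
    have hπι : ∀ i, π (ι i) = 0 := fun i => (hext.exact _).2 ⟨i, rfl⟩
    exact ⟨hext.inj, fun e i => (hext.exact _).1 (by rw [map_mul, hπι, mul_zero]),
      fun e i => (hext.exact _).1 (by rw [map_mul, hπι, zero_mul])⟩
  obtain ⟨t, htp, ht1, htC, htS⟩ := hQC I E ι hideal (S.image ix ∪ S.image mx) S δ0 hδ0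
  obtain ⟨a1, a2, a3⟩ := J_A1.cut_facts ι t htp ht1
  have hTn : ‖((ι t : E) : Unitization ℂ E)‖ ≤ 1 := by
    rw [Unitization.norm_inr]
    exact (NonUnitalStarAlgHom.norm_apply_le ι t).trans ht1
  have a2' : cut ι t * cut ι t = 1 - ((ι (t * t) : E) : Unitization ℂ E) := by
    rw [a2, map_mul, Unitization.inr_mul]
  -- elements of the ideal are cut off
  have hcut : ∀ i : I, ‖i‖ ≤ M → ‖t * i - i‖ ≤ δ0 →
      ‖cut ι t * ((ι i : E) : Unitization ℂ E) * cut ι t‖ ≤ δ := by
    intro i hi hti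
    have c1 := J_A1.cut_ideal ι t htp ht1 i
    have c3 : ‖cut ι t * ((ι i : E) : Unitization ℂ E)‖ ^ 2 ≤ δ ^ 2 := by
      refine c1.trans (le_trans ?_ hδ0M)
      gcongr
    have c4 : ‖cut ι t * ((ι i : E) : Unitization ℂ E)‖ ≤ δ :=
      (pow_le_pow_iff_left₀ (norm_nonneg _) hδ.le (by norm_num)).1 c3
    calc _ ≤ ‖cut ι t * ((ι i : E) : Unitization ℂ E)‖ * ‖cut ι t‖ := norm_mul_le _ _
      _ ≤ δ * 1 := by gcongr
      _ = δ := mul_one _
  have hcomS : ∀ x ∈ S, ‖cut ι t * (x : Unitization ℂ E) - (x : Unitization ℂ E) * cut ι t‖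
      ≤ δ / 2 := by
    intro x hx
    have b1 : ‖((ι t : E) : Unitization ℂ E) * (x : Unitization ℂ E)
        - (x : Unitization ℂ E) * ((ι t : E) : Unitization ℂ E)‖ ≤ δ0 := by
      rw [← Unitization.inr_mul, ← Unitization.inr_mul, ← Unitization.inr_sub,
        Unitization.norm_inr]
      exact htS x hx
    exact hcom (Unitization ℂ E) _ _ (J_A1.pos_unit ι t htp) hTn
      (by rw [Unitization.norm_inr]; exact hxM x hx) (b1.trans hδ0c)
  refine ⟨t, htp, ht1, ap_cut_pos ι t, a3, a2', fun x hx => (htS x hx).trans (by linarith),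
    fun x hx => (hcomS x hx).trans (by linarith), ?_, ?_, ?_⟩
  · intro x hx
    have e1 : (x : Unitization ℂ E) = (z' x : Unitization ℂ E)
        + ((ι (ix x) : E) : Unitization ℂ E) := by
      rw [← Unitization.inr_add, ← hz'e x]
    rw [e1, mul_add, add_mul]
    refine (norm_add_le _ _).trans (add_le_add ?_ ?_)
    · calc _ ≤ ‖cut ι t * (z' x : Unitization ℂ E)‖ * ‖cut ι t‖ := norm_mul_le _ _
        _ ≤ (‖cut ι t‖ * ‖(z' x : Unitization ℂ E)‖) * ‖cut ι t‖ := by
            gcongr; exact norm_mul_le _ _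
        _ ≤ (1 * ‖(z' x : Unitization ℂ E)‖) * 1 := by gcongr
        _ = ‖z' x‖ := by rw [Unitization.norm_inr]; ring
        _ ≤ ‖π x‖ := hz'n x
    · exact hcut _ (hixM x hx)
        (htC _ (Finset.mem_union_left _ (Finset.mem_image_of_mem _ hx)))
  · intro x hx
    have b1 : ‖((ι t : E) : Unitization ℂ E) * (x : Unitization ℂ E)
        - (x : Unitization ℂ E) * ((ι t : E) : Unitization ℂ E)‖ ≤ δ0 := by
      rw [← Unitization.inr_mul, ← Unitization.inr_mul, ← Unitization.inr_sub,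
        Unitization.norm_inr]
      exact htS x hx
    have e1 : (x : Unitization ℂ E) - cut ι t * (x : Unitization ℂ E) * cut ι t
        - ((ι t * x * ι t : E) : Unitization ℂ E) =
        cut ι t * (cut ι t * (x : Unitization ℂ E) - (x : Unitization ℂ E) * cut ι t)
        + ((ι t : E) : Unitization ℂ E) * (((ι t : E) : Unitization ℂ E) * (x : Unitization ℂ E)
          - (x : Unitization ℂ E) * ((ι t : E) : Unitization ℂ E)) := by
      have e2 : (x : Unitization ℂ E) = (cut ι t * cut ι t) * (x : Unitization ℂ E)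
          + ((ι t : E) : Unitization ℂ E) * ((ι t : E) : Unitization ℂ E)
            * (x : Unitization ℂ E) := by
        rw [a2]; noncomm_ring
      rw [Unitization.inr_mul, Unitization.inr_mul]
      calc (x : Unitization ℂ E) - cut ι t * (x : Unitization ℂ E) * cut ι t
          - ((ι t : E) : Unitization ℂ E) * (x : Unitization ℂ E) * ((ι t : E) : Unitization ℂ E)
          = ((cut ι t * cut ι t) * (x : Unitization ℂ E)
          + ((ι t : E) : Unitization ℂ E) * ((ι t : E) : Unitization ℂ E)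
            * (x : Unitization ℂ E)) - cut ι t * (x : Unitization ℂ E) * cut ι t
          - ((ι t : E) : Unitization ℂ E) * (x : Unitization ℂ E)
            * ((ι t : E) : Unitization ℂ E) := by rw [← e2]
        _ = _ := by noncomm_ring
    rw [e1]
    have f1 : ‖cut ι t * (cut ι t * (x : Unitization ℂ E) - (x : Unitization ℂ E) * cut ι t)‖
        ≤ δ / 2 :=
      (norm_mul_le _ _).trans ((mul_le_mul a3 (hcomS x hx) (norm_nonneg _) zero_le_one).trans
        (by rw [one_mul]))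
    have f2 : ‖((ι t : E) : Unitization ℂ E) * (((ι t : E) : Unitization ℂ E)
        * (x : Unitization ℂ E) - (x : Unitization ℂ E) * ((ι t : E) : Unitization ℂ E))‖
        ≤ δ / 2 :=
      (norm_mul_le _ _).trans ((mul_le_mul hTn (b1.trans hδ0δ) (norm_nonneg _)
        zero_le_one).trans (by rw [one_mul]))
    refine (norm_add_le _ _).trans ?_
    linarith
  · intro x hx hxp
    obtain ⟨m1, m2⟩ := hmx x hxp
    have h1 := ap_ineq ((ι t : E) : Unitization ℂ E) (cut ι t) (x : Unitization ℂ E)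
      ((ι (mx x) : E) : Unitization ℂ E) ‖π x‖ δ a1 a2 m2 m1 (hcut _ (hmM x hx)
        (htC _ (Finset.mem_union_right _ (Finset.mem_image_of_mem _ hx))))
    rw [map_mul, Unitization.inr_mul]
    exact h1

end Pool.Agent.Helper7_ND.J_AP
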