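import Pool.Agent.Helper7_ND.Stm6

/-! # COL: one colour of the merging -/

set_option autoImplicit false

open scoped Matrix.Norms.L2Operator ENNReal Matrix
open Pool.Agent.W659.EC

noncomputable section

namespace Pool.Agent.Helper7_ND.J_COL

section general

variable {A : Type} [CStarAlgebra A]

/-- square roots of positive elements -/
theorem sq_lem {a : A} (ha : Pos a) : star (sq a) = sq a ∧ sq a * sq a = a ∧
    ∀ z : A, z * a = a * z → z * sq a = sq a * z := by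
  let _ := CStarAlgebra.spectralOrder A
  let _ := CStarAlgebra.spectralOrderedRing A
  have h0 : (0 : A) ≤ a := (pos_iff a).1 ha
  have hsa : IsSelfAdjoint a := ha.sa
  refine ⟨cfc_predicate Real.sqrt a, ?_, ?_⟩
  · unfold sq
    rw [← cfc_mul Real.sqrt Real.sqrt a]
    have h1 : Set.EqOn (fun x => Real.sqrt x * Real.sqrt x) id (spectrum ℝ a) := by
      intro x hx
      exact Real.mul_self_sqrt (spectrum_nonneg_of_nonneg h0 hx)
    rw [cfc_congr h1, cfc_id ℝ a]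
  · intro z hz
    have hc : Commute a z := hz.symm
    exact (hc.cfc_real Real.sqrt).symm

theorem pos_mul {a b : A} (ha : Pos a) (hb : Pos b) (h : a * b = b * a) : Pos (a * b) := by
  obtain ⟨h1, h2, h3⟩ := sq_lem ha
  have h4 := h3 b h.symm
  have h5 : a * b = star (sq a) * b * sq a := by
    rw [h1, mul_assoc, h4, ← mul_assoc, h2]
  rw [h5]
  exact hb.conj _

/-- the inverse square root above `1` -/
def rF (s : ℝ) : ℝ := 1 / Real.sqrt (max s 1)

theorem rF_cont : Continuous rF := by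
  unfold rF
  refine Continuous.div continuous_const (by fun_prop) ?_
  intro s
  have : 0 < Real.sqrt (max s 1) := Real.sqrt_pos.2 (lt_of_lt_of_le one_pos (le_max_right _ _))
  exact this.ne'

theorem inv_lem {W : A} (hW : Pos W) (h1 : Pos (W - 1)) : star (cfc rF W) = cfc rF W ∧
    cfc rF W * cfc rF W * W = 1 ∧ ∀ z : A, z * W = W * z → z * cfc rF W = cfc rF W * z := by
  let _ := CStarAlgebra.spectralOrder A
  let _ := CStarAlgebra.spectralOrderedRing A
  have h0 : (0 : A) ≤ W := (pos_iff W).1 hW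
  have hsa : IsSelfAdjoint W := hW.sa
  have h2 : (1 : A) ≤ W := sub_nonneg.1 ((pos_iff _).1 h1)
  refine ⟨cfc_predicate rF W, ?_, ?_⟩
  · have hs : ∀ s ∈ spectrum ℝ W, 1 ≤ s := by
      intro s hs
      have h3 : (algebraMap ℝ A 1) ≤ W := by rw [map_one]; exact h2
      exact (algebraMap_le_iff_le_spectrum (R := ℝ) (r := 1) (a := W)).1 h3 s hs
    have e1 : cfc rF W * cfc rF W * W = cfc (fun s : ℝ => rF s * rF s * s) W := by
      rw [cfc_mul (fun s : ℝ => rF s * rF s) (fun s => s) W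
          (rF_cont.mul rF_cont).continuousOn (by fun_prop),
        cfc_mul rF rF W rF_cont.continuousOn rF_cont.continuousOn, cfc_id' ℝ W]
    rw [e1, ← cfc_const_one ℝ W]
    refine cfc_congr fun s hs' => ?_
    have h3 := hs s hs'
    have h4 : rF s = 1 / Real.sqrt s := by unfold rF; rw [max_eq_left h3]
    show rF s * rF s * s = 1
    rw [h4, div_mul_div_comm, one_mul, Real.mul_self_sqrt (by linarith)]
    field_simp
  · intro z hz
    have hc : Commute W z := hz.symm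
    exact (hc.cfc_real rF).symm

theorem one_norm_le : ‖(1 : A)‖ ≤ 1 := by
  rcases subsingleton_or_nontrivial A with h | h
  · rw [Subsingleton.elim (1 : A) 0, norm_zero]; exact zero_le_one
  · exact CStarRing.norm_one.le

theorem prj_norm {p : A} (hp : Prj p) : ‖p‖ ≤ 1 := by
  have h1 : ‖p‖ * ‖p‖ = ‖p‖ := by
    rw [← CStarRing.norm_star_mul_self, hp.1, hp.2]
  rcases eq_or_ne ‖p‖ 0 with h | h
  · rw [h]; exact zero_le_one
  · exact (mul_left_cancel₀ h (h1.trans (mul_one _).symm)).le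

theorem norm_cst {ε : ℝ} (hε : 0 < ε) : ‖(1 + ε : ℂ) • (1 : A)‖ ≤ 1 + ε := by
  rw [norm_smul]
  have h : ‖(1 + ε : ℂ)‖ = 1 + ε := by
    rw [show (1 + ε : ℂ) = ((1 + ε : ℝ) : ℂ) by push_cast; rfl, Complex.norm_real,
      Real.norm_eq_abs, abs_of_pos (by linarith)]
  rw [h]
  calc (1 + ε) * ‖(1 : A)‖ ≤ (1 + ε) * 1 := by
        exact mul_le_mul_of_nonneg_left one_norm_le (by linarith)
    _ = 1 + ε := mul_one _

/-- bounds for one summand of a sum below `1 + ε - t²` -/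
theorem sum_bound {J : Type} [Fintype J] [DecidableEq J] {ε : ℝ} (hε : 0 < ε) (hε1 : ε ≤ 1)
    (t : A) (ht : Pos t) (x : J → A) (hx : ∀ j, Pos (x j))
    (h : Pos ((1 + ε : ℂ) • (1 : A) - t * t - ∑ j, x j)) (j : J) :
    Pos ((1 + ε : ℂ) • (1 : A) - x j) ∧ ‖x j‖ ≤ 2 := by
  have h1 : Pos ((1 + ε : ℂ) • (1 : A) - x j) := by
    have e : (1 + ε : ℂ) • (1 : A) - x j = ((1 + ε : ℂ) • (1 : A) - t * t - ∑ j, x j) + t * t
        + ∑ k ∈ Finset.univ.erase j, x k := by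
      rw [← Finset.add_sum_erase Finset.univ x (Finset.mem_univ j)]
      abel
    rw [e]
    refine (h.add ?_).add (Pos.sum _ fun k _ => hx k)
    exact ⟨t, by rw [ht.sa]⟩
  refine ⟨h1, (Pos.norm_le (hx j) h1).trans ((norm_cst hε).trans (by linarith))⟩

end general

theorem t_COL (hALG2 : StALG2) (hWMAP : StWMAP) (hWPOS : StWPOS) (hWQ1 : StWQ1) (hWQ2 : StWQ2)
    (hWQ4 : StWQ4) : StCOL := by
  intro J _ _ δ C ε₂ hδ hε₂
  obtain ⟨ε₀, hε₀, hQ4⟩ := hWQ4 J δ C (ε₂ / 8) hδ (by positivity)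
  refine ⟨ε₀, hε₀, ?_⟩
  intro T Q R _ _ _ ω N P F Φ i v u t b ε Γ _ g X hCut hSpec hε hεle hε1 hN hNle hP hPoz hPinj
    hPcom hP1 hΦ hΦoz ht ht1 hu hu1 hv hv1 hb hbi hvu hut hvΦ hvb huΦ hub htΦ hbΦ hS1 hS2 hgC hXC
    hvg hug htg hA1 hA2 hA3 hA4 ΦW hΦW
  -- the elements
  set s : Finset J := Finset.univ.erase i with hs
  set c : T := Φ i 1 with hc
  set W : T := elW δ s t c u b with hW
  have su : star u = u := hu.sa
  have st : star t = t := ht.sa
  have sv : star v = v := hv.sa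
  have pc : Pos c := IsCP.pos (hΦ i) ⟨1, by simp⟩
  have pΦ1 : ∀ j, Pos (Φ j 1) := fun j => IsCP.pos (hΦ j) ⟨1, by simp⟩
  have nΦ : ∀ j, Pos ((1 + ε : ℂ) • (1 : T) - Φ j 1) ∧ ‖Φ j 1‖ ≤ 2 :=
    fun j => sum_bound hε hε1 t ht (fun j => Φ j 1) pΦ1 hS1 j
  have nb : ∀ j, Pos ((1 + ε : ℂ) • (1 : T) - b j) ∧ ‖b j‖ ≤ 2 :=
    fun j => sum_bound hε hε1 t ht b hb hS2 j
  have nω : ∀ z : T, ‖ω z‖ ≤ ‖z‖ := fun z => NonUnitalStarAlgHom.norm_apply_le ω z
  -- images
  have wsu : star (ω u) = ω u := by rw [← map_star, su]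
  have wst : star (ω t) = ω t := by rw [← map_star, st]
  have wsv : star (ω v) = ω v := by rw [← map_star, sv]
  have q_vu : ω v * ω u = ω u := by rw [← map_mul]; exact hvu
  have q_uv : ω u * ω v = ω u := by
    have := congrArg star q_vu
    rwa [star_mul, wsu, wsv] at this
  have q_ut : ω u * ω t = ω t := by rw [← map_mul]; exact hut
  have q_tu : ω t * ω u = ω t := by
    have := congrArg star q_ut
    rwa [star_mul, wsu, wst] at this
  have q_vt : ω v * ω t = ω t := by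
    calc ω v * ω t = ω v * (ω u * ω t) := by rw [q_ut]
      _ = ω t := by rw [← mul_assoc, q_vu, q_ut]
  have q_tv : ω t * ω v = ω t := by
    have := congrArg star q_vt
    rwa [star_mul, wst, wsv] at this
  have q_vΦ : ∀ j y, ω v * ω (Φ j y) = ω (Φ j y) * ω v := by
    intro j y; rw [← map_mul, ← map_mul]; exact hvΦ j y
  have q_vb : ∀ j, ω v * ω (b j) = ω (b j) * ω v := by
    intro j; rw [← map_mul, ← map_mul]; exact hvb j
  have q_uΦ : ∀ j y, ω u * ω (Φ j y) = ω (Φ j y) * ω u := by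
    intro j y; rw [← map_mul, ← map_mul]; exact huΦ j y
  have q_ub : ∀ j, ω u * ω (b j) = ω (b j) * ω u := by
    intro j; rw [← map_mul, ← map_mul]; exact hub j
  have q_tΦ : ∀ y, ω t * ω (Φ i y) = ω (Φ i y) * ω t := by
    intro y; rw [← map_mul, ← map_mul]; exact htΦ y
  have q_bΦ : ∀ j y, ω (b j) * ω (Φ i y) = ω (Φ i y) * ω (b j) := by
    intro j y; rw [← map_mul, ← map_mul]; exact hbΦ j y
  have q_vg : ∀ γ, ω v * ω (g γ) = ω (g γ) * ω v := by
    intro j; rw [← map_mul, ← map_mul]; exact hvg j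
  have q_ug : ∀ γ, ω u * ω (g γ) = ω (g γ) * ω u := by
    intro j; rw [← map_mul, ← map_mul]; exact hug j
  have q_tg : ∀ γ, ω t * ω (g γ) = ω (g γ) * ω t := by
    intro j; rw [← map_mul, ← map_mul]; exact htg j
  have q_oz : ∀ j x y, ω (Φ j x) * ω (Φ j y) = ω (Φ j 1) * ω (Φ j (x * y)) := by
    intro j x y
    rw [← map_mul ω (Φ j x), ← map_mul ω (Φ j 1)]
    exact hΦoz j x y
  have q_1Φ : ∀ j y, ω (Φ j 1) * ω (Φ j y) = ω (Φ j y) * ω (Φ j 1) := by
    intro j y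
    rw [q_oz j y 1, mul_one]
  -- the weights
  have pcQ : Pos (ω c) := pc.map ω
  have puQ : Pos (ω u) := hu.map ω
  have ptQ : Pos (ω t) := ht.map ω
  have pbQ : ∀ k, Pos (ω (b k)) := fun k => (hb k).map ω
  obtain ⟨-, m1, m2, m3, m4⟩ := hWMAP T Q ω J s δ hδ t c u b pc su (fun k _ => hb k)
  have mL : ∀ k, ω (cutL δ (Φ k 1) u) = cutL δ (ω (Φ k 1)) (ω u) := fun k =>
    (hWMAP T Q ω J s δ hδ t (Φ k 1) u b (pΦ1 k) su (fun k _ => hb k)).2.1
  obtain ⟨-, -, -, w1, w2, w3, w4, w5, w6, w7, w8, w9, w10, w11, w12⟩ :=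
    hWPOS Q J s δ hδ (ω t) (ω c) (ω u) (fun k => ω (b k)) ptQ pcQ wsu (fun k _ => pbQ k)
  obtain ⟨-, -, -, -, -, -, -, t5, t6, -, t8, t9, -, t11, -⟩ :=
    hWPOS T J s δ hδ t c u b ht pc su (fun k _ => hb k)
  have wL : ∀ k, Pos (cutL δ (ω (Φ k 1)) (ω u)) ∧ Pos (1 - cutL δ (ω (Φ k 1)) (ω u)) ∧
      (∀ z, z * ω (Φ k 1) = ω (Φ k 1) * z → z * ω u = ω u * z →
        z * cutL δ (ω (Φ k 1)) (ω u) = cutL δ (ω (Φ k 1)) (ω u) * z) := by
    intro k
    obtain ⟨-, -, -, a1, -, a3, a4, -⟩ :=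
      hWPOS Q J s δ hδ (ω t) (ω (Φ k 1)) (ω u) (fun k => ω (b k)) ptQ ((pΦ1 k).map ω) wsu
        (fun k _ => pbQ k)
    exact ⟨a1, a3, a4⟩
  have tL : ∀ k, Pos (1 - cutL δ (Φ k 1) u) := by
    intro k
    obtain ⟨-, -, -, -, -, a3, -⟩ :=
      hWPOS T J s δ hδ t (Φ k 1) u b ht (pΦ1 k) su (fun k _ => hb k)
    exact a3
  have hcc : ∀ y, ω (Φ i y) * ω c = ω c * ω (Φ i y) := fun y => (q_1Φ i y).symm
  -- WQ1 in Q
  have hsum : Pos ((1 + ε : ℂ) • (1 : Q) - ω t * ω t - ω c - ∑ k ∈ s, ω (b k)) := by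
    have e : (1 + ε : ℂ) • (1 : Q) - ω t * ω t - ω c - ∑ k ∈ s, ω (b k)
        = ω ((1 + ε : ℂ) • (1 : T) - t * t - ∑ j, b j) := by
      rw [map_sub, map_sub, map_smul, map_one, map_mul, map_sum,
        ← Finset.add_sum_erase Finset.univ (fun j => ω (b j)) (Finset.mem_univ i)]
      rw [hbi]
      abel
    rw [e]
    exact hS2.map ω
  obtain ⟨k1, k2, k3⟩ := hWQ1 Q J s δ ε hδ hε.le (ω t) (ω c) (ω u) (fun k => ω (b k)) ptQ pcQ puQ
    (fun k _ => pbQ k) (q_tΦ 1) (q_uΦ i 1) (fun k _ => q_bΦ k 1) (fun k _ => (q_ub k).symm) hsum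
  have mW : ω W = elW δ s (ω t) (ω c) (ω u) (fun k => ω (b k)) := m4
  set WQ : Q := elW δ s (ω t) (ω c) (ω u) (fun k => ω (b k)) with hWQ
  set LQ : Q := cutL δ (ω c) (ω u) with hLQ
  set GQ : Q := cutG δ (ω c) (ω u) with hGQ
  set τQ : Q := cutT δ (ω c) with hτQ
  -- commutation with the weights
  have cΦW : ∀ y, ω (Φ i y) * WQ = WQ * ω (Φ i y) := fun y =>
    w12 _ (q_tΦ y).symm (hcc y) (q_uΦ i y).symm fun k _ => (q_bΦ k y).symm
  have cvW : ω v * WQ = WQ * ω v :=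
    w12 _ (q_vt.trans q_tv.symm) (q_vΦ i 1) (q_vu.trans q_uv.symm) fun k _ => q_vb k
  have ccW : ω c * WQ = WQ * ω c := cΦW 1
  have cuW : ω u * WQ = WQ * ω u :=
    w12 _ (q_ut.trans q_tu.symm) (q_uΦ i 1) rfl fun k _ => q_ub k
  have cΦL : ∀ y, ω (Φ i y) * LQ = LQ * ω (Φ i y) := fun y => w4 _ (hcc y) (q_uΦ i y).symm
  have cvL : ω v * LQ = LQ * ω v := w4 _ (q_vΦ i 1) (q_vu.trans q_uv.symm)
  have cWL : WQ * LQ = LQ * WQ := w4 _ ccW.symm cuW.symm
  have cΦG : ∀ y, ω (Φ i y) * GQ = GQ * ω (Φ i y) := fun y => w7 _ (hcc y) (q_uΦ i y).symm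
  have cvG : ω v * GQ = GQ * ω v := w7 _ (q_vΦ i 1) (q_vu.trans q_uv.symm)
  have cWG : WQ * GQ = GQ * WQ := w7 _ ccW.symm cuW.symm
  have cvτ : ω v * τQ = τQ * ω v := w10 _ (q_vΦ i 1)
  have ccu : ω c * ω u = ω u * ω c := (q_uΦ i 1).symm
  obtain ⟨g1, g2, -⟩ := hWQ2 Q δ hδ (ω c) (ω u) pcQ puQ ccu
  have pLQ : Pos LQ := by
    obtain ⟨a1, -, -⟩ := wL i
    exact a1
  have p1LQ : Pos (1 - LQ) := by
    obtain ⟨-, a1, -⟩ := wL i
    exact a1
  have pWQ : Pos WQ := w11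
  obtain ⟨sWs, sW2, sW3⟩ := sq_lem pWQ
  obtain ⟨sLs, sL2, sL3⟩ := sq_lem pLQ
  obtain ⟨Vs, V2, V3⟩ := inv_lem pWQ k1
  set V : Q := cfc rF WQ with hV
  set SW : Q := sq WQ with hSW
  set l : Q := sq LQ with hl
  -- the map `ΦW`
  have mSW : ω (sq W) = SW := by
    rw [hSW, ← mW]
    exact (hWMAP T Q ω J s δ hδ t W u b t11 su (fun k _ => hb k)).1
  have sSW : star (sq W) = sq W := (sq_lem t11).1
  have hΦWy : ∀ y, ΦW y = star (sq W) * Φ i y * sq W := by
    intro y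
    rw [hΦW]
    rfl
  have qΦW : ∀ y, ω (ΦW y) = WQ * ω (Φ i y) := by
    intro y
    rw [hΦWy, map_mul, map_mul, map_star, mSW, sWs, mul_assoc, sW3 _ (cΦW y), ← mul_assoc, sW2]
  have cpΦW : IsCP ΦW := by
    rw [hΦW]
    exact (isCP_conjL _).comp (hΦ i)
  have ozΦW : ∀ x y, ω (ΦW x * ΦW y) = ω (ΦW 1 * ΦW (x * y)) := by
    intro x y
    rw [map_mul, map_mul, qΦW, qΦW, qΦW, qΦW]
    calc WQ * ω (Φ i x) * (WQ * ω (Φ i y)) = WQ * (ω (Φ i x) * WQ) * ω (Φ i y) := by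
          simp only [mul_assoc]
      _ = WQ * WQ * (ω (Φ i x) * ω (Φ i y)) := by rw [cΦW]; simp only [mul_assoc]
      _ = WQ * WQ * (ω (Φ i 1) * ω (Φ i (x * y))) := by rw [q_oz]
      _ = WQ * (WQ * ω (Φ i 1)) * ω (Φ i (x * y)) := by simp only [mul_assoc]
      _ = WQ * (ω (Φ i 1) * WQ) * ω (Φ i (x * y)) := by rw [cΦW]
      _ = WQ * ω (Φ i 1) * (WQ * ω (Φ i (x * y))) := by simp only [mul_assoc]
  have nΦW : ‖ω (ΦW 1)‖ ≤ 2 := by
    rw [qΦW]
    exact k2.trans (by linarith)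
  -- the element `H`
  set H : Q := P (N 1) with hH
  have pH : Pos H := IsCP.pos hP.1 (IsCP.pos hN ⟨1, by simp⟩)
  have HC : ∀ z : T, ω v * ω z = ω z * ω v → P (N z) = H * ω z ∧ P (N z) = ω z * H := by
    intro z hz
    refine hPcom z ?_
    rw [map_mul, map_mul, hz]
  have HC' : ∀ z : T, ω v * ω z = ω z * ω v → ω z * H = H * ω z := by
    intro z hz
    rw [← (HC z hz).1, (HC z hz).2]
  have cHL : H * LQ = LQ * H := by
    have h1 := HC' (cutL δ c u) (by rw [mL]; exact cvL)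
    rw [mL] at h1
    exact h1.symm
  have cHG : H * GQ = GQ * H := by
    have h1 := HC' (cutG δ c u) (by rw [m2]; exact cvG)
    rw [m2] at h1
    exact h1.symm
  have cHW : H * WQ = WQ * H := by
    have h1 := HC' W (by rw [mW]; exact cvW)
    rw [mW] at h1
    exact h1.symm
  have cHΦ : ∀ y, H * ω (Φ i y) = ω (Φ i y) * H := fun y => (HC' (Φ i y) (q_vΦ i y)).symm
  obtain ⟨hs1, hs2, hs3⟩ := sq_lem hP1
  set h : Q := sq (1 - H) with hh
  have c1H : ∀ z : Q, H * z = z * H → z * h = h * z := by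
    intro z hz
    refine hs3 z ?_
    rw [mul_sub, sub_mul, one_mul, mul_one, hz]
  have clH : H * l = l * H := sL3 H cHL
  have cVH : H * V = V * H := V3 H cHW
  have clh : l * h = h * l := c1H l clH
  have cVh : V * h = h * V := c1H V cVH
  have clV : l * V = V * l := V3 l (sL3 WQ cWL).symm
  -- the element `r`
  set r : Q := h * l * V with hr
  have sr : star r = r := by
    rw [hr, star_mul, star_mul, Vs, sLs, hs1]
    calc V * (l * h) = V * h * l := by rw [clh, ← mul_assoc]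
      _ = h * (l * V) := by rw [cVh, clV, mul_assoc]
      _ = h * l * V := by rw [← mul_assoc]
  have sG : star GQ = GQ := w5.sa
  have lG : l * GQ = 0 := by
    rw [← CStarRing.star_mul_self_eq_zero_iff]
    rw [star_mul, sLs, sG]
    calc GQ * l * (l * GQ) = GQ * ((l * l) * GQ) := by simp only [mul_assoc]
      _ = 0 := by rw [sL2, g2, mul_zero]
  have rG : r * GQ = 0 := by
    calc r * GQ = h * (l * V) * GQ := by rw [hr, mul_assoc h l V]
      _ = h * V * (l * GQ) := by rw [clV]; simp only [mul_assoc]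
      _ = 0 := by rw [lG, mul_zero]
  have rz : ∀ z : Q, z * h = h * z → z * l = l * z → z * V = V * z → r * z = z * r := by
    intro z h1 h2 h3
    calc r * z = h * l * (V * z) := by rw [hr, mul_assoc]
      _ = h * (l * z) * V := by rw [← h3]; simp only [mul_assoc]
      _ = (h * z) * l * V := by rw [← h2]; simp only [mul_assoc]
      _ = z * r := by rw [← h1, hr]; simp only [mul_assoc]
  have rr : r * r = (1 - H) * LQ * (V * V) := by
    calc r * r = h * l * (V * h) * l * V := by rw [hr]; simp only [mul_assoc]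
      _ = h * (l * h) * (V * l) * V := by rw [cVh]; simp only [mul_assoc]
      _ = (h * h) * (l * l) * (V * V) := by rw [clh, ← clV]; simp only [mul_assoc]
      _ = _ := by rw [hs2, sL2]
  have czh : ∀ y, (WQ * ω (Φ i y)) * h = h * (WQ * ω (Φ i y)) := by
    intro y
    refine c1H _ ?_
    rw [← mul_assoc, cHW, mul_assoc, cHΦ, mul_assoc]
  have czL : ∀ y, (WQ * ω (Φ i y)) * LQ = LQ * (WQ * ω (Φ i y)) := by
    intro y
    rw [mul_assoc, cΦL, ← mul_assoc, cWL, mul_assoc]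
  have czW : ∀ y, (WQ * ω (Φ i y)) * WQ = WQ * (WQ * ω (Φ i y)) := by
    intro y
    rw [mul_assoc, cΦW]
  have rΦW : ∀ y, r * ω (ΦW y) = ω (ΦW y) * r := by
    intro y
    rw [qΦW]
    exact rz _ (czh y) (sL3 _ (czL y)) (V3 _ (czW y))
  have rΦr : ∀ y, r * ω (ΦW y) * r = (1 - H) * (LQ * ω (Φ i y)) := by
    intro y
    calc r * ω (ΦW y) * r = r * r * ω (ΦW y) := by
          rw [mul_assoc r (ω (ΦW y)) r, ← rΦW, ← mul_assoc r r]
      _ = (1 - H) * LQ * (V * V * WQ) * ω (Φ i y) := by rw [rr, qΦW]; simp only [mul_assoc]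
      _ = _ := by rw [V2, mul_one, mul_assoc]
  -- the elements `z`
  set zT : Γ → T := fun γ => elM δ i t u Φ (g γ) (X γ) - ΦW (X γ i) with hzT
  set S : ℝ := ∑ γ, (‖X γ i‖ + ‖zT γ‖) with hS
  have hS0 : 0 ≤ S := Finset.sum_nonneg fun γ _ => by positivity
  set εA : ℝ := ε₂ / 4 / (1 + S) with hεA
  have hεA0 : 0 < εA := by positivity
  have hεA1 : ∀ γ, εA * (‖X γ i‖ + ‖zT γ‖) ≤ ε₂ / 4 := by
    intro γ
    have h1 : ‖X γ i‖ + ‖zT γ‖ ≤ S :=
      Finset.single_le_sum (f := fun γ => ‖X γ i‖ + ‖zT γ‖) (fun γ _ => by positivity)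
        (Finset.mem_univ γ)
    calc εA * (‖X γ i‖ + ‖zT γ‖) ≤ εA * (1 + S) := by
          refine mul_le_mul_of_nonneg_left (by linarith) hεA0.le
      _ = ε₂ / 4 := by rw [hεA]; field_simp
  obtain ⟨p, q, hp, hq, oz, orth, third, fourth⟩ := hALG2 T Q R ω N P (F i) ΦW v (cutG δ c u)
    (cutT δ c) r εA hCut hSpec hεA0 hN hNle hP hPoz hPinj hPcom cpΦW ozΦW nΦW t5 t6 t8 t9
    (by rw [map_mul, m2, m3]; exact g1)
    (by rw [map_mul, map_mul, m2]; exact cvG)
    (by rw [map_mul, map_mul, m3]; exact cvτ)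
    (by
      intro y
      rw [map_mul, map_mul, qΦW, ← mul_assoc, cvW, mul_assoc, q_vΦ, mul_assoc])
    (by
      intro y
      rw [map_mul, map_mul, qΦW, m2]
      rw [mul_assoc, cΦG, ← mul_assoc, ← mul_assoc, cWG])
    sr (by rw [m2]; exact rG) rΦW
  have cvΦW : ∀ y, ω v * ω (ΦW y) = ω (ΦW y) * ω v := by
    intro y
    rw [qΦW, ← mul_assoc, cvW, mul_assoc, q_vΦ, mul_assoc]
  refine ⟨p, q, r, hp, hq, sr, oz, orth, ?_, ?_⟩
  · -- the norm
    have e1 : (1 + ε : ℂ) • (1 : Q) - rhoQ ω N P ΦW r p 1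
        = (1 - H) * (((1 + ε : ℂ) • (1 : Q) - ω c) + (1 - LQ) * ω c)
          + H * ((1 + ε : ℂ) • (1 : Q) - WQ * ω c)
          + (P (N (ΦW 1)) - P (p * N (ΦW 1) * p)) := by
      rw [rhoQ, rΦr, (HC _ (cvΦW 1)).1, qΦW]
      have e2 : ω (Φ i 1) = ω c := rfl
      rw [e2]
      simp only [mul_add, mul_sub, sub_mul, one_mul, mul_one, mul_smul_comm, smul_sub]
      abel
    have p1 : Pos ((1 + ε : ℂ) • (1 : Q) - ω c) := by
      have h1 := (nΦ i).1.map ω
      rwa [map_sub, map_smul, map_one] at h1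
    have cLc : ω c * LQ = LQ * ω c := cΦL 1
    have p2 : Pos ((1 - LQ) * ω c) := by
      refine pos_mul p1LQ pcQ ?_
      rw [sub_mul, mul_sub, one_mul, mul_one, cLc]
    have cHc : H * ω c = ω c * H := cHΦ 1
    have p3 : Pos ((1 - H) * (((1 + ε : ℂ) • (1 : Q) - ω c) + (1 - LQ) * ω c)) := by
      refine pos_mul hP1 (p1.add p2) ?_
      have h2 : H * (((1 + ε : ℂ) • (1 : Q) - ω c) + (1 - LQ) * ω c)
          = (((1 + ε : ℂ) • (1 : Q) - ω c) + (1 - LQ) * ω c) * H := by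
        have h3 : H * (LQ * ω c) = LQ * ω c * H := by
          rw [← mul_assoc, cHL, mul_assoc, cHc, mul_assoc]
        simp only [mul_add, mul_sub, sub_mul, add_mul, one_mul, mul_one, mul_smul_comm,
          smul_mul_assoc, h3, cHc]
      rw [sub_mul, mul_sub, one_mul, mul_one, h2]
    have p4 : Pos (H * ((1 + ε : ℂ) • (1 : Q) - WQ * ω c)) := by
      refine pos_mul pH k3 ?_
      have h3 : H * (WQ * ω c) = WQ * ω c * H := by
        rw [← mul_assoc, cHW, mul_assoc, cHc, mul_assoc]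
      simp only [mul_sub, sub_mul, one_mul, mul_one, mul_smul_comm, smul_mul_assoc, h3]
    rw [e1]
    exact (p3.add p4).add third
  · intro γ
    set M : T := elM δ i t u Φ (g γ) (X γ) with hM
    -- the image of `M`
    have qM : ω M = ω t * ω (g γ) * ω t + ω (Φ i (X γ i))
        + ∑ k ∈ s, (1 - cutL δ (ω (Φ k 1)) (ω u)) * ω (Φ k (X γ k)) := by
      rw [hM, elM, map_add, map_add, map_sum, conjL_apply, map_mul, map_mul, st]
      congr 1
      refine Finset.sum_congr rfl fun k _ => ?_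
      obtain ⟨a1, a2, a3⟩ := sq_lem (wL k).2.1
      have e1 : ω (sq (1 - cutL δ (Φ k 1) u)) = sq (1 - cutL δ (ω (Φ k 1)) (ω u)) := by
        have h1 := (hWMAP T Q ω J s δ hδ t (1 - cutL δ (Φ k 1) u) u b (tL k) su
          (fun k _ => hb k)).1
        rw [h1, map_sub, map_one, mL]
      have e2 : ω (Φ k (X γ k)) * (1 - cutL δ (ω (Φ k 1)) (ω u))
          = (1 - cutL δ (ω (Φ k 1)) (ω u)) * ω (Φ k (X γ k)) := by
        rw [mul_sub, sub_mul, one_mul, mul_one,
          (wL k).2.2 _ (q_1Φ k (X γ k)).symm (q_uΦ k (X γ k)).symm]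
      rw [conjL_apply, map_mul, map_mul, map_star, e1, a1, mul_assoc, a3 _ e2, ← mul_assoc, a2]
    have cvM : ω v * ω M = ω M * ω v := by
      rw [qM, mul_add, mul_add, add_mul, add_mul, Finset.mul_sum, Finset.sum_mul]
      congr 1
      · congr 1
        · rw [← mul_assoc, ← mul_assoc, q_vt, mul_assoc (ω t * ω (g γ)), q_tv]
        · exact q_vΦ i _
      · refine Finset.sum_congr rfl fun k _ => ?_
        have h1 := (wL k).2.2 (ω v) (q_vΦ k 1) (q_vu.trans q_uv.symm)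
        rw [sub_mul, one_mul, mul_sub, sub_mul, q_vΦ k, ← mul_assoc, h1, mul_assoc, q_vΦ k,
          mul_assoc]
    have hz : zT γ = M - ΦW (X γ i) := rfl
    have cvz : ω v * ω (zT γ) = ω (zT γ) * ω v := by
      rw [hz, map_sub, mul_sub, sub_mul, cvM, cvΦW]
    -- the estimate of WQ4
    obtain ⟨z1, z2⟩ := hQ4 Q F (fun j => (ω : T →ₗ[ℂ] Q) ∘ₗ Φ j) i (ω t) (ω u) (ω (g γ))
      (fun j => ω (b j)) (X γ) (fun j => (isCP_hom ω _ fun _ => rfl).comp (hΦ j))
      (fun j x y => q_oz j x y) (fun j => (nω _).trans (nΦ j).2) ptQ ((nω _).trans ht1) puQ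
      ((nω _).trans hu1) pbQ (fun j => (nω _).trans (nb j).2) (hgC γ) (hXC γ) q_uΦ q_ub
      (q_ug γ) (q_tu.trans q_ut.symm) (q_tg γ) q_tΦ q_bΦ
      (by
        intro j
        refine le_trans (le_of_eq ?_) ((hA1 γ j).trans hεle)
        rw [map_sub, map_mul]
        rfl)
      (by
        intro j
        refine le_trans (le_of_eq ?_) ((hA2 γ j).trans hεle)
        rw [map_sub, map_mul]
        rfl)
      (by
        intro j
        refine le_trans (le_of_eq ?_) ((hA3 γ j).trans hεle)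
        rw [map_mul, map_mul, map_sub]
        rfl)
      (by
        intro j
        refine le_trans (le_of_eq ?_) ((hA4 γ j).trans hεle)
        rw [map_mul, map_mul, map_sub]
        rfl)
      (ω (zT γ))
      (by
        rw [hz, map_sub, qM, qΦW]
        rfl)
    have z1' : ‖(1 - τQ) * ω (zT γ)‖ ≤ ε₂ / 8 := z1
    have z2' : ‖ω (zT γ) * (1 - τQ)‖ ≤ ε₂ / 8 := z2
    have n1 : ‖ω (zT γ) - τQ * ω (zT γ) * τQ‖ ≤ ε₂ / 4 := by
      have e1 : ω (zT γ) - τQ * ω (zT γ) * τQ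
          = (1 - τQ) * ω (zT γ) + τQ * (ω (zT γ) * (1 - τQ)) := by noncomm_ring
      rw [e1]
      refine (norm_add_le _ _).trans ?_
      have h1 : ‖τQ * (ω (zT γ) * (1 - τQ))‖ ≤ 1 * (ε₂ / 8) :=
        (norm_mul_le _ _).trans (mul_le_mul w9 z2' (norm_nonneg _) zero_le_one)
      linarith
    have n2 : ‖N (zT γ) - N (cutT δ c * zT γ * cutT δ c)‖ ≤ ε₂ / 4 := by
      rw [← map_sub]
      refine (hNle _).trans ?_
      rw [map_sub, map_mul, map_mul, m3]
      exact n1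
    have n3 := (fourth (X γ i) (zT γ) (by rw [map_mul, map_mul, cvz])).trans (hεA1 γ)
    have hMz : M = ΦW (X γ i) + zT γ := by rw [hz]; abel
    have e2 : rhoQ ω N P ΦW r p (X γ i) + P (q * N M * q)
        - ((1 - H) * (ω (cutL δ (Φ i 1) u) * ω (Φ i (X γ i))) + H * ω M)
        = -P (N M - p * N (ΦW (X γ i)) * p - q * N M * q) := by
      rw [rhoQ, rΦr, mL i, ← (HC M cvM).1, map_sub, map_sub]
      have e3 : cutL δ (ω (Φ i 1)) (ω u) = LQ := rfl
      rw [e3]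
      abel
    rw [e2, norm_neg]
    refine (hP.2 _).trans ?_
    have e4 : N M - p * N (ΦW (X γ i)) * p - q * N M * q
        = (N (ΦW (X γ i)) + N (cutT δ c * zT γ * cutT δ c) - p * N (ΦW (X γ i)) * p
          - q * (N (ΦW (X γ i)) + N (cutT δ c * zT γ * cutT δ c)) * q)
          + (N (zT γ) - N (cutT δ c * zT γ * cutT δ c))
          - q * (N (zT γ) - N (cutT δ c * zT γ * cutT δ c)) * q := by
      have h1 : N M = N (ΦW (X γ i)) + N (zT γ) := by rw [hMz, map_add]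
      rw [h1]
      noncomm_ring
    rw [e4]
    have n4 : ‖q * (N (zT γ) - N (cutT δ c * zT γ * cutT δ c)) * q‖ ≤ 1 * (ε₂ / 4) * 1 := by
      refine (norm_mul_le _ _).trans (mul_le_mul ((norm_mul_le _ _).trans ?_) (prj_norm hq)
        (norm_nonneg _) (by positivity))
      exact mul_le_mul (prj_norm hq) n2 (norm_nonneg _) zero_le_one
    refine (norm_sub_le _ _).trans ?_
    refine (add_le_add (norm_add_le _ _) n4).trans ?_
    linarith

end Pool.Agent.Helper7_ND.J_COL
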