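import Pool.Agent.Helper7_ND.Stm7
import Pool.Agent.Helper7_ND.J_COL

/-! # COL3: one colour of the merging, simple version -/

set_option autoImplicit false

open scoped Matrix.Norms.L2Operator ENNReal Matrix
open Pool.Agent.W659.EC

noncomputable section

namespace Pool.Agent.Helper7_ND.J_COL3

open Pool.Agent.Helper7_ND.J_COL

/-- the variant of COL with commutation relations -/
def StCOLV : Prop :=
  ∀ (J : Type) [Fintype J] [DecidableEq J] (δ C ε₂ : ℝ), 0 < δ → 0 < ε₂ →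
    ∃ ε₀ : ℝ, 0 < ε₀ ∧ ∀ (T Q R : Type) [CStarAlgebra T] [CStarAlgebra Q] [CStarAlgebra R]
      (ω : T →⋆ₐ[ℂ] Q) (N : T →ₗ[ℂ] R) (P : R →ₗ[ℂ] Q) (F : J → FDA)
      (Φ : ∀ j, (F j).alg →ₗ[ℂ] T) (i : J) (v u t : T) (b : J → T) (ε : ℝ)
      (Γ : Type) [Fintype Γ] (g : Γ → T) (X : Γ → ∀ j, (F j).alg),
      CutE R → SpecS R → 0 < ε → ε ≤ ε₀ → ε ≤ 1 →
      IsCP N → (∀ z, ‖N z‖ ≤ ‖ω z‖) →
      IsCPC P → (∀ a b, P a * P b = P 1 * P (a * b)) → (∀ a, P 1 * P a = 0 → a = 0) →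
      (∀ z, ω (z * v) = ω (v * z) → P (N z) = P (N 1) * ω z ∧ P (N z) = ω z * P (N 1)) →
      Pos (1 - P (N 1)) →
      (∀ j, IsCP (Φ j)) → (∀ j x y, ω (Φ j x * Φ j y) = ω (Φ j 1 * Φ j (x * y))) →
      Pos t → ‖t‖ ≤ 1 → Pos u → ‖u‖ ≤ 1 → Pos v → ‖v‖ ≤ 1 → (∀ j, Pos (b j)) → b i = Φ i 1 →
      ω (v * u) = ω (u * v) → ω (u * t) = ω (t * u) → ω (v * t) = ω t →
      (∀ j y, ω (v * Φ j y) = ω (Φ j y * v)) → (∀ j, ω (v * b j) = ω (b j * v)) →
      (∀ j y, ω (u * Φ j y) = ω (Φ j y * u)) → (∀ j, ω (u * b j) = ω (b j * u)) →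
      (∀ y, ω (t * Φ i y) = ω (Φ i y * t)) → (∀ j y, ω (b j * Φ i y) = ω (Φ i y * b j)) →
      Pos ((1 + ε : ℂ) • (1 : T) - t * t - ∑ j, Φ j 1) →
      Pos ((1 + ε : ℂ) • (1 : T) - t * t - ∑ j, b j) →
      (∀ γ, ‖ω (g γ)‖ ≤ C) → (∀ γ j, ‖X γ j‖ ≤ C) →
      (∀ γ, ω (v * g γ) = ω (g γ * v)) → (∀ γ, ω (u * g γ) = ω (g γ * u)) →
      (∀ γ, ω (t * g γ) = ω (g γ * t)) →
      (∀ γ j, ‖ω (Φ j (X γ j) - Φ j 1 * g γ)‖ ≤ ε) →
      (∀ γ j, ‖ω (Φ j (X γ j) - g γ * Φ j 1)‖ ≤ ε) →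
      (∀ γ j, ‖ω (Φ i 1 * (b j - Φ j 1) * g γ)‖ ≤ ε) →
      (∀ γ j, ‖ω (g γ * (b j - Φ j 1) * Φ i 1)‖ ≤ ε) →
      ∀ ΦW : (F i).alg →ₗ[ℂ] T,
        ΦW = phW (elW δ (Finset.univ.erase i) t (Φ i 1) u b) (Φ i) →
      ∃ (p q : R) (r : Q), Prj p ∧ Prj q ∧ star r = r ∧
        (∀ x y, rhoQ ω N P ΦW r p x * rhoQ ω N P ΦW r p y
          = rhoQ ω N P ΦW r p 1 * rhoQ ω N P ΦW r p (x * y)) ∧
        rhoQ ω N P ΦW r p 1 * P q = 0 ∧
        Pos ((1 + ε : ℂ) • (1 : Q) - rhoQ ω N P ΦW r p 1) ∧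
        ∀ γ, ‖rhoQ ω N P ΦW r p (X γ i) + P (q * N (elM δ i t u Φ (g γ) (X γ)) * q)
          - ((1 - P (N 1)) * (ω (cutL δ (Φ i 1) u) * ω (Φ i (X γ i)))
            + P (N 1) * ω (elM δ i t u Φ (g γ) (X γ)))‖ ≤ ε₂

theorem t_COLV (hALG2 : StALG2) (hWMAP : StWMAP) (hWPOS : StWPOS) (hWQ1 : StWQ1) (hWQ2 : StWQ2)
    (hWQ4 : StWQ4) : StCOLV := by
  intro J _ _ δ C ε₂ hδ hε₂
  obtain ⟨ε₀, hε₀, hQ4⟩ := hWQ4 J δ C (ε₂ / 8) hδ (by positivity)
  refine ⟨ε₀, hε₀, ?_⟩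
  intro T Q R _ _ _ ω N P F Φ i v u t b ε Γ _ g X hCut hSpec hε hεle hε1 hN hNle hP hPoz hPinj
    hPcom hP1 hΦ hΦoz ht ht1 hu hu1 hv hv1 hb hbi hvu hut hvt hvΦ hvb huΦ hub htΦ hbΦ hS1 hS2 hgC hXC
    hvg hug htg hA1 hA2 hA3 hA4 ΦW hΦW
  -- the elements
  set s : Finset J := Finset.univ.erase i with hs
  set c : T := Φ i 1 with hc
  set W : T := elW δ s t c u b with hW
  have su : star u = u := hu.sa
  have st : star t = t := ht.sa
  have sv : star v = v := hv.sa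
  have pc : Pos c := IsCP.pos (hΦ i) ⟨1, by simp⟩
  have pΦ1 : ∀ j, Pos (Φ j 1) := fun j => IsCP.pos (hΦ j) ⟨1, by simp⟩
  have nΦ : ∀ j, Pos ((1 + ε : ℂ) • (1 : T) - Φ j 1) ∧ ‖Φ j 1‖ ≤ 2 :=
    fun j => sum_bound hε hε1 t ht (fun j => Φ j 1) pΦ1 hS1 j
  have nb : ∀ j, Pos ((1 + ε : ℂ) • (1 : T) - b j) ∧ ‖b j‖ ≤ 2 :=
    fun j => sum_bound hε hε1 t ht b hb hS2 j
  have nω : ∀ z : T, ‖ω z‖ ≤ ‖z‖ := fun z => NonUnitalStarAlgHom.norm_apply_le ω z
  -- images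
  have wsu : star (ω u) = ω u := by rw [← map_star, su]
  have wst : star (ω t) = ω t := by rw [← map_star, st]
  have wsv : star (ω v) = ω v := by rw [← map_star, sv]
  have c_vu : ω v * ω u = ω u * ω v := by rw [← map_mul, ← map_mul]; exact hvu
  have c_ut : ω u * ω t = ω t * ω u := by rw [← map_mul, ← map_mul]; exact hut
  have q_vt : ω v * ω t = ω t := by rw [← map_mul]; exact hvt
  have q_tv : ω t * ω v = ω t := by
    have := congrArg star q_vt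
    rwa [star_mul, wst, wsv] at this
  have q_vΦ : ∀ j y, ω v * ω (Φ j y) = ω (Φ j y) * ω v := by
    intro j y; rw [← map_mul, ← map_mul]; exact hvΦ j y
  have q_vb : ∀ j, ω v * ω (b j) = ω (b j) * ω v := by
    intro j; rw [← map_mul, ← map_mul]; exact hvb j
  have q_uΦ : ∀ j y, ω u * ω (Φ j y) = ω (Φ j y) * ω u := by
    intro j y; rw [← map_mul, ← map_mul]; exact huΦ j y
  have q_ub : ∀ j, ω u * ω (b j) = ω (b j) * ω u := by
    intro j; rw [← map_mul, ← map_mul]; exact hub j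
  have q_tΦ : ∀ y, ω t * ω (Φ i y) = ω (Φ i y) * ω t := by
    intro y; rw [← map_mul, ← map_mul]; exact htΦ y
  have q_bΦ : ∀ j y, ω (b j) * ω (Φ i y) = ω (Φ i y) * ω (b j) := by
    intro j y; rw [← map_mul, ← map_mul]; exact hbΦ j y
  have q_vg : ∀ γ, ω v * ω (g γ) = ω (g γ) * ω v := by
    intro j; rw [← map_mul, ← map_mul]; exact hvg j
  have q_ug : ∀ γ, ω u * ω (g γ) = ω (g γ) * ω u := by
    intro j; rw [← map_mul, ← map_mul]; exact hug j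
  have q_tg : ∀ γ, ω t * ω (g γ) = ω (g γ) * ω t := by
    intro j; rw [← map_mul, ← map_mul]; exact htg j
  have q_oz : ∀ j x y, ω (Φ j x) * ω (Φ j y) = ω (Φ j 1) * ω (Φ j (x * y)) := by
    intro j x y
    rw [← map_mul ω (Φ j x), ← map_mul ω (Φ j 1)]
    exact hΦoz j x y
  have q_1Φ : ∀ j y, ω (Φ j 1) * ω (Φ j y) = ω (Φ j y) * ω (Φ j 1) := by
    intro j y
    rw [q_oz j y 1, mul_one]
  -- the weights
  have pcQ : Pos (ω c) := pc.map ω
  have puQ : Pos (ω u) := hu.map ω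
  have ptQ : Pos (ω t) := ht.map ω
  have pbQ : ∀ k, Pos (ω (b k)) := fun k => (hb k).map ω
  obtain ⟨-, m1, m2, m3, m4⟩ := hWMAP T Q ω J s δ hδ t c u b pc su (fun k _ => hb k)
  have mL : ∀ k, ω (cutL δ (Φ k 1) u) = cutL δ (ω (Φ k 1)) (ω u) := fun k =>
    (hWMAP T Q ω J s δ hδ t (Φ k 1) u b (pΦ1 k) su (fun k _ => hb k)).2.1
  obtain ⟨-, -, -, w1, w2, w3, w4, w5, w6, w7, w8, w9, w10, w11, w12⟩ :=
    hWPOS Q J s δ hδ (ω t) (ω c) (ω u) (fun k => ω (b k)) ptQ pcQ wsu (fun k _ => pbQ k)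
  obtain ⟨-, -, -, -, -, -, -, t5, t6, -, t8, t9, -, t11, -⟩ :=
    hWPOS T J s δ hδ t c u b ht pc su (fun k _ => hb k)
  have wL : ∀ k, Pos (cutL δ (ω (Φ k 1)) (ω u)) ∧ Pos (1 - cutL δ (ω (Φ k 1)) (ω u)) ∧
      (∀ z, z * ω (Φ k 1) = ω (Φ k 1) * z → z * ω u = ω u * z →
        z * cutL δ (ω (Φ k 1)) (ω u) = cutL δ (ω (Φ k 1)) (ω u) * z) := by
    intro k
    obtain ⟨-, -, -, a1, -, a3, a4, -⟩ :=
      hWPOS Q J s δ hδ (ω t) (ω (Φ k 1)) (ω u) (fun k => ω (b k)) ptQ ((pΦ1 k).map ω) wsu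
        (fun k _ => pbQ k)
    exact ⟨a1, a3, a4⟩
  have tL : ∀ k, Pos (1 - cutL δ (Φ k 1) u) := by
    intro k
    obtain ⟨-, -, -, -, -, a3, -⟩ :=
      hWPOS T J s δ hδ t (Φ k 1) u b ht (pΦ1 k) su (fun k _ => hb k)
    exact a3
  have hcc : ∀ y, ω (Φ i y) * ω c = ω c * ω (Φ i y) := fun y => (q_1Φ i y).symm
  -- WQ1 in Q
  have hsum : Pos ((1 + ε : ℂ) • (1 : Q) - ω t * ω t - ω c - ∑ k ∈ s, ω (b k)) := by
    have e : (1 + ε : ℂ) • (1 : Q) - ω t * ω t - ω c - ∑ k ∈ s, ω (b k)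
        = ω ((1 + ε : ℂ) • (1 : T) - t * t - ∑ j, b j) := by
      rw [map_sub, map_sub, map_smul, map_one, map_mul, map_sum,
        ← Finset.add_sum_erase Finset.univ (fun j => ω (b j)) (Finset.mem_univ i)]
      rw [hbi]
      abel
    rw [e]
    exact hS2.map ω
  obtain ⟨k1, k2, k3⟩ := hWQ1 Q J s δ ε hδ hε.le (ω t) (ω c) (ω u) (fun k => ω (b k)) ptQ pcQ puQ
    (fun k _ => pbQ k) (q_tΦ 1) (q_uΦ i 1) (fun k _ => q_bΦ k 1) (fun k _ => (q_ub k).symm) hsum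
  have mW : ω W = elW δ s (ω t) (ω c) (ω u) (fun k => ω (b k)) := m4
  set WQ : Q := elW δ s (ω t) (ω c) (ω u) (fun k => ω (b k)) with hWQ
  set LQ : Q := cutL δ (ω c) (ω u) with hLQ
  set GQ : Q := cutG δ (ω c) (ω u) with hGQ
  set τQ : Q := cutT δ (ω c) with hτQ
  -- commutation with the weights
  have cΦW : ∀ y, ω (Φ i y) * WQ = WQ * ω (Φ i y) := fun y =>
    w12 _ (q_tΦ y).symm (hcc y) (q_uΦ i y).symm fun k _ => (q_bΦ k y).symm
  have cvW : ω v * WQ = WQ * ω v :=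
    w12 _ (q_vt.trans q_tv.symm) (q_vΦ i 1) c_vu fun k _ => q_vb k
  have ccW : ω c * WQ = WQ * ω c := cΦW 1
  have cuW : ω u * WQ = WQ * ω u :=
    w12 _ c_ut (q_uΦ i 1) rfl fun k _ => q_ub k
  have cΦL : ∀ y, ω (Φ i y) * LQ = LQ * ω (Φ i y) := fun y => w4 _ (hcc y) (q_uΦ i y).symm
  have cvL : ω v * LQ = LQ * ω v := w4 _ (q_vΦ i 1) c_vu
  have cWL : WQ * LQ = LQ * WQ := w4 _ ccW.symm cuW.symm
  have cΦG : ∀ y, ω (Φ i y) * GQ = GQ * ω (Φ i y) := fun y => w7 _ (hcc y) (q_uΦ i y).symm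
  have cvG : ω v * GQ = GQ * ω v := w7 _ (q_vΦ i 1) c_vu
  have cWG : WQ * GQ = GQ * WQ := w7 _ ccW.symm cuW.symm
  have cvτ : ω v * τQ = τQ * ω v := w10 _ (q_vΦ i 1)
  have ccu : ω c * ω u = ω u * ω c := (q_uΦ i 1).symm
  obtain ⟨g1, g2, -⟩ := hWQ2 Q δ hδ (ω c) (ω u) pcQ puQ ccu
  have pLQ : Pos LQ := by
    obtain ⟨a1, -, -⟩ := wL i
    exact a1
  have p1LQ : Pos (1 - LQ) := by
    obtain ⟨-, a1, -⟩ := wL i
    exact a1
  have pWQ : Pos WQ := w11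
  obtain ⟨sWs, sW2, sW3⟩ := sq_lem pWQ
  obtain ⟨sLs, sL2, sL3⟩ := sq_lem pLQ
  obtain ⟨Vs, V2, V3⟩ := inv_lem pWQ k1
  set V : Q := cfc rF WQ with hV
  set SW : Q := sq WQ with hSW
  set l : Q := sq LQ with hl
  -- the map `ΦW`
  have mSW : ω (sq W) = SW := by
    rw [hSW, ← mW]
    exact (hWMAP T Q ω J s δ hδ t W u b t11 su (fun k _ => hb k)).1
  have sSW : star (sq W) = sq W := (sq_lem t11).1
  have hΦWy : ∀ y, ΦW y = star (sq W) * Φ i y * sq W := by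
    intro y
    rw [hΦW]
    rfl
  have qΦW : ∀ y, ω (ΦW y) = WQ * ω (Φ i y) := by
    intro y
    rw [hΦWy, map_mul, map_mul, map_star, mSW, sWs, mul_assoc, sW3 _ (cΦW y), ← mul_assoc, sW2]
  have cpΦW : IsCP ΦW := by
    rw [hΦW]
    exact (isCP_conjL _).comp (hΦ i)
  have ozΦW : ∀ x y, ω (ΦW x * ΦW y) = ω (ΦW 1 * ΦW (x * y)) := by
    intro x y
    rw [map_mul, map_mul, qΦW, qΦW, qΦW, qΦW]
    calc WQ * ω (Φ i x) * (WQ * ω (Φ i y)) = WQ * (ω (Φ i x) * WQ) * ω (Φ i y) := by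
          simp only [mul_assoc]
      _ = WQ * WQ * (ω (Φ i x) * ω (Φ i y)) := by rw [cΦW]; simp only [mul_assoc]
      _ = WQ * WQ * (ω (Φ i 1) * ω (Φ i (x * y))) := by rw [q_oz]
      _ = WQ * (WQ * ω (Φ i 1)) * ω (Φ i (x * y)) := by simp only [mul_assoc]
      _ = WQ * (ω (Φ i 1) * WQ) * ω (Φ i (x * y)) := by rw [cΦW]
      _ = WQ * ω (Φ i 1) * (WQ * ω (Φ i (x * y))) := by simp only [mul_assoc]
  have nΦW : ‖ω (ΦW 1)‖ ≤ 2 := by
    rw [qΦW]
    exact k2.trans (by linarith)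
  -- the element `H`
  set H : Q := P (N 1) with hH
  have pH : Pos H := IsCP.pos hP.1 (IsCP.pos hN ⟨1, by simp⟩)
  have HC : ∀ z : T, ω v * ω z = ω z * ω v → P (N z) = H * ω z ∧ P (N z) = ω z * H := by
    intro z hz
    refine hPcom z ?_
    rw [map_mul, map_mul, hz]
  have HC' : ∀ z : T, ω v * ω z = ω z * ω v → ω z * H = H * ω z := by
    intro z hz
    rw [← (HC z hz).1, (HC z hz).2]
  have cHL : H * LQ = LQ * H := by
    have h1 := HC' (cutL δ c u) (by rw [mL]; exact cvL)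
    rw [mL] at h1
    exact h1.symm
  have cHG : H * GQ = GQ * H := by
    have h1 := HC' (cutG δ c u) (by rw [m2]; exact cvG)
    rw [m2] at h1
    exact h1.symm
  have cHW : H * WQ = WQ * H := by
    have h1 := HC' W (by rw [mW]; exact cvW)
    rw [mW] at h1
    exact h1.symm
  have cHΦ : ∀ y, H * ω (Φ i y) = ω (Φ i y) * H := fun y => (HC' (Φ i y) (q_vΦ i y)).symm
  obtain ⟨hs1, hs2, hs3⟩ := sq_lem hP1
  set h : Q := sq (1 - H) with hh
  have c1H : ∀ z : Q, H * z = z * H → z * h = h * z := by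
    intro z hz
    refine hs3 z ?_
    rw [mul_sub, sub_mul, one_mul, mul_one, hz]
  have clH : H * l = l * H := sL3 H cHL
  have cVH : H * V = V * H := V3 H cHW
  have clh : l * h = h * l := c1H l clH
  have cVh : V * h = h * V := c1H V cVH
  have clV : l * V = V * l := V3 l (sL3 WQ cWL).symm
  -- the element `r`
  set r : Q := h * l * V with hr
  have sr : star r = r := by
    rw [hr, star_mul, star_mul, Vs, sLs, hs1]
    calc V * (l * h) = V * h * l := by rw [clh, ← mul_assoc]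
      _ = h * (l * V) := by rw [cVh, clV, mul_assoc]
      _ = h * l * V := by rw [← mul_assoc]
  have sG : star GQ = GQ := w5.sa
  have lG : l * GQ = 0 := by
    rw [← CStarRing.star_mul_self_eq_zero_iff]
    rw [star_mul, sLs, sG]
    calc GQ * l * (l * GQ) = GQ * ((l * l) * GQ) := by simp only [mul_assoc]
      _ = 0 := by rw [sL2, g2, mul_zero]
  have rG : r * GQ = 0 := by
    calc r * GQ = h * (l * V) * GQ := by rw [hr, mul_assoc h l V]
      _ = h * V * (l * GQ) := by rw [clV]; simp only [mul_assoc]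
      _ = 0 := by rw [lG, mul_zero]
  have rz : ∀ z : Q, z * h = h * z → z * l = l * z → z * V = V * z → r * z = z * r := by
    intro z h1 h2 h3
    calc r * z = h * l * (V * z) := by rw [hr, mul_assoc]
      _ = h * (l * z) * V := by rw [← h3]; simp only [mul_assoc]
      _ = (h * z) * l * V := by rw [← h2]; simp only [mul_assoc]
      _ = z * r := by rw [← h1, hr]; simp only [mul_assoc]
  have rr : r * r = (1 - H) * LQ * (V * V) := by
    calc r * r = h * l * (V * h) * l * V := by rw [hr]; simp only [mul_assoc]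
      _ = h * (l * h) * (V * l) * V := by rw [cVh]; simp only [mul_assoc]
      _ = (h * h) * (l * l) * (V * V) := by rw [clh, ← clV]; simp only [mul_assoc]
      _ = _ := by rw [hs2, sL2]
  have czh : ∀ y, (WQ * ω (Φ i y)) * h = h * (WQ * ω (Φ i y)) := by
    intro y
    refine c1H _ ?_
    rw [← mul_assoc, cHW, mul_assoc, cHΦ, mul_assoc]
  have czL : ∀ y, (WQ * ω (Φ i y)) * LQ = LQ * (WQ * ω (Φ i y)) := by
    intro y
    rw [mul_assoc, cΦL, ← mul_assoc, cWL, mul_assoc]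
  have czW : ∀ y, (WQ * ω (Φ i y)) * WQ = WQ * (WQ * ω (Φ i y)) := by
    intro y
    rw [mul_assoc, cΦW]
  have rΦW : ∀ y, r * ω (ΦW y) = ω (ΦW y) * r := by
    intro y
    rw [qΦW]
    exact rz _ (czh y) (sL3 _ (czL y)) (V3 _ (czW y))
  have rΦr : ∀ y, r * ω (ΦW y) * r = (1 - H) * (LQ * ω (Φ i y)) := by
    intro y
    calc r * ω (ΦW y) * r = r * r * ω (ΦW y) := by
          rw [mul_assoc r (ω (ΦW y)) r, ← rΦW, ← mul_assoc r r]
      _ = (1 - H) * LQ * (V * V * WQ) * ω (Φ i y) := by rw [rr, qΦW]; simp only [mul_assoc]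
      _ = _ := by rw [V2, mul_one, mul_assoc]
  -- the elements `z`
  set zT : Γ → T := fun γ => elM δ i t u Φ (g γ) (X γ) - ΦW (X γ i) with hzT
  set S : ℝ := ∑ γ, (‖X γ i‖ + ‖zT γ‖) with hS
  have hS0 : 0 ≤ S := Finset.sum_nonneg fun γ _ => by positivity
  set εA : ℝ := ε₂ / 4 / (1 + S) with hεA
  have hεA0 : 0 < εA := by positivity
  have hεA1 : ∀ γ, εA * (‖X γ i‖ + ‖zT γ‖) ≤ ε₂ / 4 := by
    intro γ
    have h1 : ‖X γ i‖ + ‖zT γ‖ ≤ S :=
      Finset.single_le_sum (f := fun γ => ‖X γ i‖ + ‖zT γ‖) (fun γ _ => by positivity)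
        (Finset.mem_univ γ)
    calc εA * (‖X γ i‖ + ‖zT γ‖) ≤ εA * (1 + S) := by
          refine mul_le_mul_of_nonneg_left (by linarith) hεA0.le
      _ = ε₂ / 4 := by rw [hεA]; field_simp
  obtain ⟨p, q, hp, hq, oz, orth, third, fourth⟩ := hALG2 T Q R ω N P (F i) ΦW v (cutG δ c u)
    (cutT δ c) r εA hCut hSpec hεA0 hN hNle hP hPoz hPinj hPcom cpΦW ozΦW nΦW t5 t6 t8 t9
    (by rw [map_mul, m2, m3]; exact g1)
    (by rw [map_mul, map_mul, m2]; exact cvG)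
    (by rw [map_mul, map_mul, m3]; exact cvτ)
    (by
      intro y
      rw [map_mul, map_mul, qΦW, ← mul_assoc, cvW, mul_assoc, q_vΦ, mul_assoc])
    (by
      intro y
      rw [map_mul, map_mul, qΦW, m2]
      rw [mul_assoc, cΦG, ← mul_assoc, ← mul_assoc, cWG])
    sr (by rw [m2]; exact rG) rΦW
  have cvΦW : ∀ y, ω v * ω (ΦW y) = ω (ΦW y) * ω v := by
    intro y
    rw [qΦW, ← mul_assoc, cvW, mul_assoc, q_vΦ, mul_assoc]
  refine ⟨p, q, r, hp, hq, sr, oz, orth, ?_, ?_⟩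
  · -- the norm
    have e1 : (1 + ε : ℂ) • (1 : Q) - rhoQ ω N P ΦW r p 1
        = (1 - H) * (((1 + ε : ℂ) • (1 : Q) - ω c) + (1 - LQ) * ω c)
          + H * ((1 + ε : ℂ) • (1 : Q) - WQ * ω c)
          + (P (N (ΦW 1)) - P (p * N (ΦW 1) * p)) := by
      rw [rhoQ, rΦr, (HC _ (cvΦW 1)).1, qΦW]
      have e2 : ω (Φ i 1) = ω c := rfl
      rw [e2]
      simp only [mul_add, mul_sub, sub_mul, one_mul, mul_one, mul_smul_comm, smul_sub]
      abel
    have p1 : Pos ((1 + ε : ℂ) • (1 : Q) - ω c) := by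
      have h1 := (nΦ i).1.map ω
      rwa [map_sub, map_smul, map_one] at h1
    have cLc : ω c * LQ = LQ * ω c := cΦL 1
    have p2 : Pos ((1 - LQ) * ω c) := by
      refine pos_mul p1LQ pcQ ?_
      rw [sub_mul, mul_sub, one_mul, mul_one, cLc]
    have cHc : H * ω c = ω c * H := cHΦ 1
    have p3 : Pos ((1 - H) * (((1 + ε : ℂ) • (1 : Q) - ω c) + (1 - LQ) * ω c)) := by
      refine pos_mul hP1 (p1.add p2) ?_
      have h2 : H * (((1 + ε : ℂ) • (1 : Q) - ω c) + (1 - LQ) * ω c)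
          = (((1 + ε : ℂ) • (1 : Q) - ω c) + (1 - LQ) * ω c) * H := by
        have h3 : H * (LQ * ω c) = LQ * ω c * H := by
          rw [← mul_assoc, cHL, mul_assoc, cHc, mul_assoc]
        simp only [mul_add, mul_sub, sub_mul, add_mul, one_mul, mul_one, mul_smul_comm,
          smul_mul_assoc, h3, cHc]
      rw [sub_mul, mul_sub, one_mul, mul_one, h2]
    have p4 : Pos (H * ((1 + ε : ℂ) • (1 : Q) - WQ * ω c)) := by
      refine pos_mul pH k3 ?_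
      have h3 : H * (WQ * ω c) = WQ * ω c * H := by
        rw [← mul_assoc, cHW, mul_assoc, cHc, mul_assoc]
      simp only [mul_sub, sub_mul, one_mul, mul_one, mul_smul_comm, smul_mul_assoc, h3]
    rw [e1]
    exact (p3.add p4).add third
  · intro γ
    set M : T := elM δ i t u Φ (g γ) (X γ) with hM
    -- the image of `M`
    have qM : ω M = ω t * ω (g γ) * ω t + ω (Φ i (X γ i))
        + ∑ k ∈ s, (1 - cutL δ (ω (Φ k 1)) (ω u)) * ω (Φ k (X γ k)) := by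
      rw [hM, elM, map_add, map_add, map_sum, conjL_apply, map_mul, map_mul, st]
      congr 1
      refine Finset.sum_congr rfl fun k _ => ?_
      obtain ⟨a1, a2, a3⟩ := sq_lem (wL k).2.1
      have e1 : ω (sq (1 - cutL δ (Φ k 1) u)) = sq (1 - cutL δ (ω (Φ k 1)) (ω u)) := by
        have h1 := (hWMAP T Q ω J s δ hδ t (1 - cutL δ (Φ k 1) u) u b (tL k) su
          (fun k _ => hb k)).1
        rw [h1, map_sub, map_one, mL]
      have e2 : ω (Φ k (X γ k)) * (1 - cutL δ (ω (Φ k 1)) (ω u))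
          = (1 - cutL δ (ω (Φ k 1)) (ω u)) * ω (Φ k (X γ k)) := by
        rw [mul_sub, sub_mul, one_mul, mul_one,
          (wL k).2.2 _ (q_1Φ k (X γ k)).symm (q_uΦ k (X γ k)).symm]
      rw [conjL_apply, map_mul, map_mul, map_star, e1, a1, mul_assoc, a3 _ e2, ← mul_assoc, a2]
    have cvM : ω v * ω M = ω M * ω v := by
      rw [qM, mul_add, mul_add, add_mul, add_mul, Finset.mul_sum, Finset.sum_mul]
      congr 1
      · congr 1
        · rw [← mul_assoc, ← mul_assoc, q_vt, mul_assoc (ω t * ω (g γ)), q_tv]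
        · exact q_vΦ i _
      · refine Finset.sum_congr rfl fun k _ => ?_
        have h1 := (wL k).2.2 (ω v) (q_vΦ k 1) c_vu
        rw [sub_mul, one_mul, mul_sub, sub_mul, q_vΦ k, ← mul_assoc, h1, mul_assoc, q_vΦ k,
          mul_assoc]
    have hz : zT γ = M - ΦW (X γ i) := rfl
    have cvz : ω v * ω (zT γ) = ω (zT γ) * ω v := by
      rw [hz, map_sub, mul_sub, sub_mul, cvM, cvΦW]
    -- the estimate of WQ4
    obtain ⟨z1, z2⟩ := hQ4 Q F (fun j => (ω : T →ₗ[ℂ] Q) ∘ₗ Φ j) i (ω t) (ω u) (ω (g γ))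
      (fun j => ω (b j)) (X γ) (fun j => (isCP_hom ω _ fun _ => rfl).comp (hΦ j))
      (fun j x y => q_oz j x y) (fun j => (nω _).trans (nΦ j).2) ptQ ((nω _).trans ht1) puQ
      ((nω _).trans hu1) pbQ (fun j => (nω _).trans (nb j).2) (hgC γ) (hXC γ) q_uΦ q_ub
      (q_ug γ) c_ut.symm (q_tg γ) q_tΦ q_bΦ
      (by
        intro j
        refine le_trans (le_of_eq ?_) ((hA1 γ j).trans hεle)
        rw [map_sub, map_mul]
        rfl)
      (by
        intro j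
        refine le_trans (le_of_eq ?_) ((hA2 γ j).trans hεle)
        rw [map_sub, map_mul]
        rfl)
      (by
        intro j
        refine le_trans (le_of_eq ?_) ((hA3 γ j).trans hεle)
        rw [map_mul, map_mul, map_sub]
        rfl)
      (by
        intro j
        refine le_trans (le_of_eq ?_) ((hA4 γ j).trans hεle)
        rw [map_mul, map_mul, map_sub]
        rfl)
      (ω (zT γ))
      (by
        rw [hz, map_sub, qM, qΦW]
        rfl)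
    have z1' : ‖(1 - τQ) * ω (zT γ)‖ ≤ ε₂ / 8 := z1
    have z2' : ‖ω (zT γ) * (1 - τQ)‖ ≤ ε₂ / 8 := z2
    have n1 : ‖ω (zT γ) - τQ * ω (zT γ) * τQ‖ ≤ ε₂ / 4 := by
      have e1 : ω (zT γ) - τQ * ω (zT γ) * τQ
          = (1 - τQ) * ω (zT γ) + τQ * (ω (zT γ) * (1 - τQ)) := by noncomm_ring
      rw [e1]
      refine (norm_add_le _ _).trans ?_
      have h1 : ‖τQ * (ω (zT γ) * (1 - τQ))‖ ≤ 1 * (ε₂ / 8) :=
        (norm_mul_le _ _).trans (mul_le_mul w9 z2' (norm_nonneg _) zero_le_one)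
      linarith
    have n2 : ‖N (zT γ) - N (cutT δ c * zT γ * cutT δ c)‖ ≤ ε₂ / 4 := by
      rw [← map_sub]
      refine (hNle _).trans ?_
      rw [map_sub, map_mul, map_mul, m3]
      exact n1
    have n3 := (fourth (X γ i) (zT γ) (by rw [map_mul, map_mul, cvz])).trans (hεA1 γ)
    have hMz : M = ΦW (X γ i) + zT γ := by rw [hz]; abel
    have e2 : rhoQ ω N P ΦW r p (X γ i) + P (q * N M * q)
        - ((1 - H) * (ω (cutL δ (Φ i 1) u) * ω (Φ i (X γ i))) + H * ω M)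
        = -P (N M - p * N (ΦW (X γ i)) * p - q * N M * q) := by
      rw [rhoQ, rΦr, mL i, ← (HC M cvM).1, map_sub, map_sub]
      have e3 : cutL δ (ω (Φ i 1)) (ω u) = LQ := rfl
      rw [e3]
      abel
    rw [e2, norm_neg]
    refine (hP.2 _).trans ?_
    have e4 : N M - p * N (ΦW (X γ i)) * p - q * N M * q
        = (N (ΦW (X γ i)) + N (cutT δ c * zT γ * cutT δ c) - p * N (ΦW (X γ i)) * p
          - q * (N (ΦW (X γ i)) + N (cutT δ c * zT γ * cutT δ c)) * q)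
          + (N (zT γ) - N (cutT δ c * zT γ * cutT δ c))
          - q * (N (zT γ) - N (cutT δ c * zT γ * cutT δ c)) * q := by
      have h1 : N M = N (ΦW (X γ i)) + N (zT γ) := by rw [hMz, map_add]
      rw [h1]
      noncomm_ring
    rw [e4]
    have n4 : ‖q * (N (zT γ) - N (cutT δ c * zT γ * cutT δ c)) * q‖ ≤ 1 * (ε₂ / 4) * 1 := by
      refine (norm_mul_le _ _).trans (mul_le_mul ((norm_mul_le _ _).trans ?_) (prj_norm hq)
        (norm_nonneg _) (by positivity))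
      exact mul_le_mul (prj_norm hq) n2 (norm_nonneg _) zero_le_one
    refine (norm_sub_le _ _).trans ?_
    refine (add_le_add (norm_add_le _ _) n4).trans ?_
    linarith


theorem t_COL3 (hALG2 : StALG2) (hWMAP : StWMAP) (hWPOS : StWPOS) (hWQ1 : StWQ1) (hWQ2 : StWQ2)
    (hWQ4 : StWQ4) : StCOL3 := by
  intro δ C ε₂ hδ hε₂
  obtain ⟨ε₀, hε₀, h0⟩ := t_COLV hALG2 hWMAP hWPOS hWQ1 hWQ2 hWQ4 Unit δ C ε₂ hδ hε₂
  refine ⟨ε₀, hε₀, ?_⟩
  intro T Q R _ _ _ ω N P F Φ v t ε Γ _ g X hCut hSpec hε hεle hε1 hN hNle hP hPoz hPinj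
    hPcom hP1 hΦ hΦoz ht ht1 hv hv1 hvt hvΦ htΦ hS1 hgC hXC hvg htg hA1 hA2 ΦW hΦW
  have he : (Finset.univ.erase () : Finset Unit) = ∅ := by decide
  have hcomm : ∀ y, ω (Φ 1 * Φ y) = ω (Φ y * Φ 1) := by
    intro y
    rw [hΦoz y 1, mul_one]
  have hsum : (∑ _j : Unit, Φ 1) = Φ 1 := by simp
  have h1 := h0 T Q R ω N P (fun _ => F) (fun _ => Φ) () v 0 t (fun _ => Φ 1) ε Γ g
    (fun γ _ => X γ) hCut hSpec hε hεle hε1 hN hNle hP hPoz hPinj hPcom hP1 (fun _ => hΦ)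
    (fun _ => hΦoz) ht ht1 ⟨0, by simp⟩ (by simp) hv hv1 (fun _ => IsCP.pos hΦ ⟨1, by simp⟩) rfl
    (by simp) (by simp) hvt (fun _ => hvΦ) (fun _ => hvΦ 1) (by simp) (by simp) htΦ
    (fun _ => hcomm) (by rw [hsum]; exact hS1) (by rw [hsum]; exact hS1) hgC (fun γ _ => hXC γ)
    hvg (by simp) htg (fun γ _ => hA1 γ) (fun γ _ => hA2 γ)
    (by intro γ j; simpa using hε.le) (by intro γ j; simpa using hε.le) ΦW
    (by rw [hΦW, he]; rfl)
  obtain ⟨p, q, r, hp, hq, sr, oz, orth, third, fourth⟩ := h1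
  refine ⟨p, q, r, hp, hq, sr, oz, orth, third, fun γ => ?_⟩
  have h2 := fourth γ
  have h3 : elM δ () t 0 (fun _ : Unit => Φ) (g γ) (fun _ => X γ) = conjL t (g γ) + Φ (X γ) := by
    rw [elM, he, Finset.sum_empty, add_zero]
  rw [h3] at h2
  exact h2

end Pool.Agent.Helper7_ND.J_COL3
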