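import Pool.Agent.Helper7_ND.Stm5
import Pool.Agent.Helper7_ND.Rp
import Pool.Agent.Helper7_ND.J_MAIN

/-! # CORE: from the lifts of commuting approximations and the merging lemma to the core theorem -/

set_option autoImplicit false

open scoped Matrix.Norms.L2Operator ENNReal Matrix
open Pool.Agent.W659.EC

noncomputable section

namespace Pool.Agent.Helper7_ND.J_CORE

open J_MAIN

/-- the norm of one of the row maps is at most the norm of the sum -/
theorem norm_row_le {D : Type} [NonUnitalCStarAlgebra D] {J : Type} [Fintype J] {F : J → FDA}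
    {f : ∀ j, (F j).alg →ₗ[ℂ] D} (hf : ∀ j, IsCP (f j)) {ε : ℝ}
    (h : ‖∑ j, f j 1‖ ≤ 1 + ε) (j : J) (y : (F j).alg) : ‖f j y‖ ≤ (1 + ε) * ‖y‖ := by
  classical
  let _ := CStarAlgebra.spectralOrder D
  let _ := CStarAlgebra.spectralOrderedRing D
  refine ((hf j).norm_le y).trans (mul_le_mul_of_nonneg_right ?_ (norm_nonneg y))
  have hpos : ∀ i, Pos (f i 1) := fun i => IsCP.pos (hf i) ⟨1, by simp⟩
  refine (Pos.norm_le (hpos j) ?_).trans h
  have h1 : ∑ i, f i 1 - f j 1 = ∑ i ∈ Finset.univ.erase j, f i 1 := by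
    rw [← Finset.add_sum_erase Finset.univ (fun i => f i 1) (Finset.mem_univ j)]
    exact add_sub_cancel_left _ _
  rw [h1]
  exact Pos.sum _ fun i _ => hpos i

theorem choose_eps {N M ε : ℝ} (hN : 0 ≤ N) (hM : 0 ≤ M) (hε : 0 < ε) :
    ∃ e : ℝ, 0 < e ∧ e ≤ 1 ∧ e + N * ((1 + e) ^ 2 - 1) * M ≤ ε := by
  have hden : 0 < 1 + 3 * N * M := by positivity
  refine ⟨min 1 (ε / (1 + 3 * N * M)), lt_min one_pos (div_pos hε hden), min_le_left _ _, ?_⟩
  set e : ℝ := min 1 (ε / (1 + 3 * N * M)) with he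
  have he0 : 0 < e := lt_min one_pos (div_pos hε hden)
  have he1 : e ≤ 1 := min_le_left _ _
  have he2 : e * (1 + 3 * N * M) ≤ ε := by
    have : e ≤ ε / (1 + 3 * N * M) := min_le_right _ _
    rwa [le_div_iff₀ hden] at this
  have h1 : (1 + e) ^ 2 - 1 ≤ 3 * e := by nlinarith
  have h2 : N * ((1 + e) ^ 2 - 1) * M ≤ N * (3 * e) * M :=
    mul_le_mul_of_nonneg_right (mul_le_mul_of_nonneg_left h1 hN) hM
  calc e + N * ((1 + e) ^ 2 - 1) * M ≤ e + N * (3 * e) * M := by linarith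
    _ = e * (1 + 3 * N * M) := by ring
    _ ≤ ε := he2

theorem t_CORE (hA2 : StA2) (hMRG2 : StMRG2) (hROW : StROW) : StCORE := by
  intro I E D _ _ _ ι π hext J _ hI hD G ε hε
  set N : ℝ := (Fintype.card J : ℝ) with hN
  set M : ℝ := ∑ x ∈ G, ‖x‖ with hM
  have hN0 : 0 ≤ N := Nat.cast_nonneg _
  have hM0 : 0 ≤ M := Finset.sum_nonneg fun x _ => norm_nonneg x
  have hGM : ∀ a ∈ G, ‖a‖ ≤ M := fun a ha =>
    Finset.single_le_sum (f := fun x => ‖x‖) (fun x _ => norm_nonneg x) ha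
  obtain ⟨e, he0, he1, he2⟩ := choose_eps hN0 hM0 hε
  rcases subsingleton_or_nontrivial I with hsub | hnt
  · -- the trivial case
    have hinj : Function.Injective π := by
      rw [injective_iff_map_eq_zero]
      intro x hx
      obtain ⟨i, rfl⟩ := (hext.exact x).1 hx
      rw [Subsingleton.elim i 0, map_zero]
    let σ : E ≃⋆ₐ[ℂ] D := StarAlgEquiv.ofBijective π ⟨hinj, hext.surj⟩
    let σ' : D →⋆ₙₐ[ℂ] E := (σ.symm : D ≃⋆ₐ[ℂ] E)
    have hσ' : ∀ x, σ' (π x) = x := fun x => by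
      change σ.symm (σ x) = x
      exact σ.symm_apply_apply x
    classical
    obtain ⟨F, ψ, x, k, b, hψ, hrow, hk, hone, happ, -⟩ := hD (G.image π) e he0
    have hcp : ∀ j, IsCP (rowMap (F j) (x j)) := fun j => hROW.1 (F j) D (x j)
    have hoz : ∀ j, IsOrderZero (rowMap (F j) (x j)) := fun j =>
      hROW.2.1 (F j) D (x j) (k j) (hrow j)
    let P : E →ₗ[ℂ] D := (π : E →ₗ[ℂ] D)
    let P' : D →ₗ[ℂ] E := (σ' : D →ₗ[ℂ] E)
    have hP : IsCPC P := isCPC_hom π P fun _ => rfl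
    have hP' : IsCPC P' := isCPC_hom σ' P' fun _ => rfl
    let c : J → Col E := fun j => ⟨F j, ψ j ∘ₗ P, P' ∘ₗ rowMap (F j) (x j)⟩
    have hc : ∀ j, (c j).Good (1 + e) := by
      intro j
      refine ⟨(hψ j).1.comp hP.1, fun y => ?_, hP'.1.comp (hcp j), ?_, fun y => ?_⟩
      · have h1 := ((hψ j).comp hP).2 y
        have h2 := norm_nonneg y
        have h3 : ‖y‖ ≤ (1 + e) * ‖y‖ := by nlinarith
        exact h1.trans h3
      · intro u v huv
        have := hoz j u v huv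
        change σ' (rowMap (F j) (x j) (star u * u)) * σ' (rowMap (F j) (x j) (star v * v)) = 0
        rw [← map_mul, this, map_zero]
      · exact (hP'.2 _).trans (norm_row_le hcp hone j y)
    refine sys_of_good (κ := 1 + e) (δ := e) (M := M) (by linarith) c hc (fun a ha => ?_)
      (fun a ha => hGM a (Finset.mem_coe.1 ha)) he2
    have h1 : ∑ j, (c j).φ ((c j).ψ a) = σ' (∑ j, rowMap (F j) (x j) (ψ j (π a))) := by
      rw [map_sum]
      rfl
    have h3 : ∑ j, (c j).φ ((c j).ψ a) - a =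
        σ' (∑ j, rowMap (F j) (x j) (ψ j (π a)) - π a) := by
      rw [h1, map_sub, hσ']
    rw [h3]
    refine (NonUnitalStarAlgHom.norm_apply_le σ' _).trans (happ _ ?_)
    exact Finset.mem_image_of_mem _ (Finset.mem_coe.1 ha)
  · -- the nontrivial case
    obtain ⟨ε₀, hε₀, hmrg⟩ := hMRG2 J M e he0 he1
    obtain ⟨F, ψ, hψ, hL⟩ := hA2 I E D ι π hext J hD G ε₀ hε₀
    obtain ⟨F', ψ', φ', hψ', hφ', happ'⟩ := hmrg I E ι (isIdeal_of_isExt hext) hI F ψ G hψ hGM hL
    let c : J → Col E := fun j => ⟨F' j, ψ' j, φ' j⟩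
    have hc : ∀ j, (c j).Good (1 + e) := fun j =>
      ⟨(hψ' j).1, (hψ' j).2, (hφ' j).1, (hφ' j).2.1, (hφ' j).2.2⟩
    exact sys_of_good (κ := 1 + e) (δ := e) (M := M) (by linarith) c hc
      (fun a ha => happ' a (Finset.mem_coe.1 ha)) (fun a ha => hGM a (Finset.mem_coe.1 ha)) he2

end Pool.Agent.Helper7_ND.J_CORE
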