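import Pool.Agent.Helper7_ND.Stm7
import Pool.Agent.Helper7_ND.J_CORE

/-! # CORE3: from the lifts of approximations and the merging lemma to the core theorem, for
quotients whose approximations are approximately multiplications -/

set_option autoImplicit false

open scoped Matrix.Norms.L2Operator ENNReal Matrix
open Pool.Agent.W659.EC

noncomputable section

namespace Pool.Agent.Helper7_ND.J_CORE3

open J_MAIN J_CORE

theorem t_CORE3 (hA3 : StA3) (hMRG3 : StMRG3) : StCORE3 := by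
  intro I E D _ _ _ ι π hext J _ hI hD G ε hε
  set N : ℝ := (Fintype.card J : ℝ) with hN
  set M : ℝ := ∑ x ∈ G, ‖x‖ with hM
  have hN0 : 0 ≤ N := Nat.cast_nonneg _
  have hM0 : 0 ≤ M := Finset.sum_nonneg fun x _ => norm_nonneg x
  have hGM : ∀ a ∈ G, ‖a‖ ≤ M := fun a ha =>
    Finset.single_le_sum (f := fun x => ‖x‖) (fun x _ => norm_nonneg x) ha
  obtain ⟨e, he0, he1, he2⟩ := choose_eps hN0 hM0 hε
  rcases subsingleton_or_nontrivial I with hsub | hnt
  · -- the trivial case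
    have hinj : Function.Injective π := by
      rw [injective_iff_map_eq_zero]
      intro x hx
      obtain ⟨i, rfl⟩ := (hext.exact x).1 hx
      rw [Subsingleton.elim i 0, map_zero]
    let σ : E ≃⋆ₐ[ℂ] D := StarAlgEquiv.ofBijective π ⟨hinj, hext.surj⟩
    let σ' : D →⋆ₙₐ[ℂ] E := (σ.symm : D ≃⋆ₐ[ℂ] E)
    have hσ' : ∀ x, σ' (π x) = x := fun x => by
      change σ.symm (σ x) = x
      exact σ.symm_apply_apply x
    classical
    obtain ⟨F, ψ, φ, hψ, hφ, happ, -⟩ := hD (G.image π) e he0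
    let P : E →ₗ[ℂ] D := (π : E →ₗ[ℂ] D)
    let P' : D →ₗ[ℂ] E := (σ' : D →ₗ[ℂ] E)
    have hP : IsCPC P := isCPC_hom π P fun _ => rfl
    have hP' : IsCPC P' := isCPC_hom σ' P' fun _ => rfl
    let c : J → Col E := fun j => ⟨F j, ψ j ∘ₗ P, P' ∘ₗ φ j⟩
    have hc : ∀ j, (c j).Good (1 + e) := by
      intro j
      refine ⟨(hψ j).1.comp hP.1, fun y => ?_, hP'.1.comp (hφ j).1.1, ?_, fun y => ?_⟩
      · have h1 := ((hψ j).comp hP).2 y
        have h2 := norm_nonneg y
        have h3 : ‖y‖ ≤ (1 + e) * ‖y‖ := by nlinarith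
        exact h1.trans h3
      · intro u v huv
        have := (hφ j).2 u v huv
        change σ' (φ j (star u * u)) * σ' (φ j (star v * v)) = 0
        rw [← map_mul, this, map_zero]
      · have h1 := (hP'.comp (hφ j).1).2 y
        have h2 := norm_nonneg y
        have h3 : ‖y‖ ≤ (1 + e) * ‖y‖ := by nlinarith
        exact h1.trans h3
    refine sys_of_good (κ := 1 + e) (δ := e) (M := M) (by linarith) c hc (fun a ha => ?_)
      (fun a ha => hGM a (Finset.mem_coe.1 ha)) he2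
    have h1 : ∑ j, (c j).φ ((c j).ψ a) = σ' (∑ j, φ j (ψ j (π a))) := by
      rw [map_sum]
      rfl
    have h3 : ∑ j, (c j).φ ((c j).ψ a) - a = σ' (∑ j, φ j (ψ j (π a)) - π a) := by
      rw [h1, map_sub, hσ']
    rw [h3]
    refine (NonUnitalStarAlgHom.norm_apply_le σ' _).trans (happ _ ?_)
    exact Finset.mem_image_of_mem _ (Finset.mem_coe.1 ha)
  · -- the nontrivial case
    obtain ⟨ε₀, hε₀, hmrg⟩ := hMRG3 J M e he0 he1
    obtain ⟨F, ψ, hψ, hL⟩ := hA3 I E D ι π hext J hD G ε₀ hε₀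
    obtain ⟨F', ψ', φ', hψ', hφ', happ'⟩ := hmrg I E ι (isIdeal_of_isExt hext) hI F ψ G hψ hGM hL
    let c : J → Col E := fun j => ⟨F' j, ψ' j, φ' j⟩
    have hc : ∀ j, (c j).Good (1 + e) := fun j =>
      ⟨(hψ' j).1, (hψ' j).2, (hφ' j).1, (hφ' j).2.1, (hφ' j).2.2⟩
    exact sys_of_good (κ := 1 + e) (δ := e) (M := M) (by linarith) c hc
      (fun a ha => happ' a (Finset.mem_coe.1 ha)) (fun a ha => hGM a (Finset.mem_coe.1 ha)) he2

end Pool.Agent.Helper7_ND.J_CORE3
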