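import Pool.Agent.Helper7_ND.Stm5
import Pool.Agent.Helper7_ND.Rp
import Pool.Agent.Helper7_ND.J_ROW
import Pool.Agent.Helper7_ND.J_NV

set_option autoImplicit false

open scoped Matrix.Norms.L2Operator ENNReal Matrix
open Pool.Agent.W659.EC

noncomputable section

namespace Pool.Agent.Helper7_ND.J_DRS

section schwarz

variable {A B : Type} [NonUnitalCStarAlgebra A] [NonUnitalCStarAlgebra B]

/-- the Schwarz inequality for products, on non-unital algebras -/
theorem sch_aux [PartialOrder B] [StarOrderedRing B] {T : A →ₗ[ℂ] B} (h : IsCP T) (e a : A) :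
    star (T (star e * a)) * T (star e * a) ≤
      ((‖T (star e * e)‖ : ℝ) : ℂ) • T (star a * a) := by
  obtain ⟨N, hN⟩ := h 2 !![e, a; 0, 0]
  have h00 : T (star e * e) = star (N 0 0) * N 0 0 + star (N 1 0) * N 1 0 := by
    have := congrFun (congrFun hN 0) 0
    simpa [Matrix.mul_apply, Fin.sum_univ_two, Matrix.conjTranspose_apply] using this
  have h01 : T (star e * a) = star (N 0 0) * N 0 1 + star (N 1 0) * N 1 1 := by
    have := congrFun (congrFun hN 0) 1
    simpa [Matrix.mul_apply, Fin.sum_univ_two, Matrix.conjTranspose_apply] using this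
  have h11 : T (star a * a) = star (N 0 1) * N 0 1 + star (N 1 1) * N 1 1 := by
    have := congrFun (congrFun hN 1) 1
    simpa [Matrix.mul_apply, Fin.sum_univ_two, Matrix.conjTranspose_apply] using this
  set X : CStarMatrix (Fin 2) (Fin 2) B := CStarMatrix.ofMatrix !![N 0 0, 0; N 1 0, 0] with hX
  set Y : CStarMatrix (Fin 2) (Fin 2) B := CStarMatrix.ofMatrix !![N 0 1, 0; N 1 1, 0] with hY
  have hXX : star X * X = corner (T (star e * e)) := by
    rw [h00]
    ext i j
    fin_cases i <;> fin_cases j <;>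
      simp [hX, corner, CStarMatrix.mul_apply, Fin.sum_univ_two, CStarMatrix.star_apply]
  have hXY : star X * Y = corner (T (star e * a)) := by
    rw [h01]
    ext i j
    fin_cases i <;> fin_cases j <;>
      simp [hX, hY, corner, CStarMatrix.mul_apply, Fin.sum_univ_two, CStarMatrix.star_apply]
  have hYY : star Y * Y = corner (T (star a * a)) := by
    rw [h11]
    ext i j
    fin_cases i <;> fin_cases j <;>
      simp [hY, corner, CStarMatrix.mul_apply, Fin.sum_univ_two, CStarMatrix.star_apply]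
  have hn : ‖X * star X‖ ≤ ‖T (star e * e)‖ := by
    rw [CStarRing.norm_self_mul_star, ← CStarRing.norm_star_mul_self, hXX]
    exact NonUnitalStarAlgHom.norm_apply_le corner _
  have key := star_mul_le_aux X Y _ hn
  have h2 := corner_entry_nonneg (sub_nonneg.2 key)
  rw [hXY, hYY, ← map_star, ← map_mul] at h2
  rw [← sub_nonneg]
  exact h2

/-- the Schwarz inequality for contractive completely positive maps on non-unital algebras -/
theorem sch [PartialOrder B] [StarOrderedRing B] {T : A →ₗ[ℂ] B} (h : IsCPC T) (a : A) :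
    star (T a) * T a ≤ T (star a * a) := by
  let _ := CStarAlgebra.spectralOrder A
  let _ := CStarAlgebra.spectralOrderedRing A
  have hTc : Continuous T := (T.mkContinuous 1 (fun y => by simpa using h.2 y)).continuous
  have hl := CStarAlgebra.increasingApproximateUnit A
  have h1 : Filter.Tendsto (fun e => star (T (e * a)) * T (e * a))
      (CStarAlgebra.approximateUnit A) (nhds (star (T a) * T a)) := by
    have h2 := (hTc.tendsto a).comp (hl.tendsto_mul_right a)
    exact h2.star.mul h2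
  refine le_of_tendsto h1 ?_
  filter_upwards [hl.eventually_star_eq, hl.eventually_norm] with e he1 he2
  have h3 := sch_aux h.1 e a
  rw [he1] at h3
  refine h3.trans ?_
  have h4 : ‖T (e * e)‖ ≤ 1 := by
    refine (h.2 _).trans ((norm_mul_le _ _).trans ?_)
    calc ‖e‖ * ‖e‖ ≤ 1 * 1 := by gcongr
      _ = 1 := one_mul 1
  have h5 : (0 : B) ≤ T (star a * a) := h.1.nonneg a
  have h6 : ((‖T (e * e)‖ : ℝ) : ℂ) • T (star a * a) = ‖T (e * e)‖ • T (star a * a) := rfl
  rw [h6]
  calc ‖T (e * e)‖ • T (star a * a) ≤ (1 : ℝ) • T (star a * a) :=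
        smul_le_smul_of_nonneg_right h4 h5
    _ = T (star a * a) := one_smul _ _

end schwarz

theorem norm_one_le (B : Type) [CStarAlgebra B] : ‖(1 : B)‖ ≤ 1 := by
  rcases subsingleton_or_nontrivial B with h | h
  · rw [Subsingleton.elim (1 : B) 0, norm_zero]
    exact zero_le_one
  · rw [CStarRing.norm_one]

theorem pos_mono {A B : Type} [NonUnitalCStarAlgebra A] [NonUnitalCStarAlgebra B]
    [PartialOrder A] [StarOrderedRing A] [PartialOrder B] [StarOrderedRing B]
    {T : A →ₗ[ℂ] B} (h : IsCP T) {a b : A} (hab : a ≤ b) : T a ≤ T b := by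
  obtain ⟨c, hc⟩ := (nonneg_iff_star _).1 (sub_nonneg.2 hab)
  have h1 := h.nonneg c
  rw [← hc, map_sub, sub_nonneg] at h1
  exact h1

/-- the multiplicative domain estimate -/
theorem mdom {A : Type} [NonUnitalCStarAlgebra A] {K : Type} [Fintype K] (F : K → FDA)
    (ψ : A →ₗ[ℂ] ∀ j, (F j).alg) (φ : ∀ j, (F j).alg →ₗ[ℂ] A) (hψ : IsCPC ψ)
    (hφ : ∀ j, IsCPC (φ j)) (hc : ∀ f : ∀ j, (F j).alg, ‖∑ j, φ j (f j)‖ ≤ ‖f‖) (g : A)
    (δ M : ℝ) (hM : ‖g‖ ≤ M) (h1 : ‖∑ j, φ j (ψ g j) - g‖ ≤ δ)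
    (h2 : ‖∑ j, φ j (ψ (star g * g) j) - star g * g‖ ≤ δ) (j : K) :
    ‖φ j (ψ g j) - φ j 1 * g‖ ^ 2 ≤ 2 * M * δ + δ := by
  let _ := CStarAlgebra.spectralOrder A
  let _ := CStarAlgebra.spectralOrderedRing A
  let _ := CStarAlgebra.spectralOrder (∀ j, (F j).alg)
  let _ := CStarAlgebra.spectralOrderedRing (∀ j, (F j).alg)
  let θ : K → (∀ j, (F j).alg) →ₗ[ℂ] A := fun j =>
    φ j ∘ₗ LinearMap.proj (R := ℂ) (φ := fun i => (F i).alg) j
  have hθ : ∀ j, IsCP (θ j) := fun j => (hφ j).1.comp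
    (isCPC_hom (Pi.evalNonUnitalStarAlgHom ℂ (fun i => (F i).alg) j) _ (fun _ => rfl)).1
  let Φ : (∀ j, (F j).alg) →ₗ[ℂ] A := ∑ j, θ j
  have hΦ : IsCP Φ := IsCP.sum _ fun j _ => hθ j
  have hΦa : ∀ f, Φ f = ∑ j, φ j (f j) := by
    intro f
    simp only [Φ, LinearMap.sum_apply]
    rfl
  have hΦn : ∀ f, ‖Φ f‖ ≤ ‖f‖ := by
    intro f
    rw [hΦa]
    exact hc f
  have hΦ1 : ‖Φ 1‖ ≤ 1 := (hΦn 1).trans (norm_one_le _)
  set R : A := ∑ i, (star g * θ i (star 1 * 1) * g - star g * θ i (star 1 * ψ g) -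
    θ i (star (ψ g) * 1) * g + θ i (star (ψ g) * ψ g)) with hR
  have hR' : R = star g * Φ 1 * g - star g * Φ (ψ g) - Φ (star (ψ g)) * g +
      Φ (star (ψ g) * ψ g) := by
    rw [hR]
    simp only [Φ, LinearMap.sum_apply, Finset.mul_sum, Finset.sum_mul, star_one, one_mul, mul_one,
      Finset.sum_sub_distrib, Finset.sum_add_distrib]
  have hnv := J_NV.t_NV (∀ j, (F j).alg) A K θ 1 1 (ψ g) g j hθ
  rw [← hR] at hnv
  have hR0 : 0 ≤ R := by
    rw [hR]
    refine Finset.sum_nonneg fun i _ => ?_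
    obtain ⟨n, ν, -, -, h3⟩ := J_NV.vj (θ i) (hθ i) 1 1 (ψ g) g
    rw [← h3]
    exact Finset.sum_nonneg fun r _ => star_mul_self_nonneg _
  set Tg : A := Φ (ψ g) with hTg
  have hT1 : ‖Tg - g‖ ≤ δ := by
    rw [hTg, hΦa]
    exact h1
  have hT2 : ‖Φ (ψ (star g * g)) - star g * g‖ ≤ δ := by
    rw [hΦa]
    exact h2
  have hδ : 0 ≤ δ := (norm_nonneg _).trans hT1
  have hst : Φ (star (ψ g)) = star Tg := hΦ.star_map (ψ g)
  have hb1 : star g * Φ 1 * g ≤ star g * g := by
    have hsa : IsSelfAdjoint (Φ 1) := by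
      have : (0 : A) ≤ Φ 1 := by simpa using hΦ.nonneg (1 : ∀ j, (F j).alg)
      exact IsSelfAdjoint.of_nonneg this
    refine (CStarAlgebra.star_left_conjugate_le_norm_smul hsa).trans ?_
    calc ‖Φ 1‖ • (star g * g) ≤ (1 : ℝ) • (star g * g) :=
          smul_le_smul_of_nonneg_right hΦ1 (star_mul_self_nonneg _)
      _ = star g * g := one_smul _ _
  have hb2 : Φ (star (ψ g) * ψ g) ≤ Φ (ψ (star g * g)) := pos_mono hΦ (sch hψ g)
  have hRle : R ≤ star g * g - star g * Tg - star Tg * g + Φ (ψ (star g * g)) := by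
    rw [hR', hst]
    gcongr
  have hRn := CStarAlgebra.norm_le_norm_of_nonneg_of_le hR0 hRle
  have hRe : star g * g - star g * Tg - star Tg * g + Φ (ψ (star g * g)) =
      -(star g * (Tg - g)) - star (Tg - g) * g + (Φ (ψ (star g * g)) - star g * g) := by
    rw [star_sub, mul_sub, sub_mul]
    abel
  rw [hRe] at hRn
  have hRf : ‖R‖ ≤ 2 * M * δ + δ := by
    refine hRn.trans ((norm_add_le _ _).trans ?_)
    refine add_le_add ((norm_sub_le _ _).trans ?_) hT2
    rw [norm_neg]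
    have e1 : ‖star g * (Tg - g)‖ ≤ M * δ := by
      refine (norm_mul_le _ _).trans ?_
      rw [norm_star]
      exact mul_le_mul hM hT1 (norm_nonneg _) ((norm_nonneg _).trans hM)
    have e2 : ‖star (Tg - g) * g‖ ≤ δ * M := by
      refine (norm_mul_le _ _).trans ?_
      rw [norm_star]
      exact mul_le_mul hT1 hM (norm_nonneg _) hδ
    linarith
  have e3 : ‖θ j (star 1 * 1)‖ ≤ 1 := by
    rw [star_one, one_mul]
    exact ((hφ j).2 _).trans (norm_one_le _)
  have e4 : θ j (star 1 * 1) * g - θ j (star 1 * ψ g) = -(φ j (ψ g j) - φ j 1 * g) := by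
    rw [star_one, one_mul, one_mul, neg_sub]
    rfl
  rw [e4, norm_neg] at hnv
  calc ‖φ j (ψ g j) - φ j 1 * g‖ ^ 2 ≤ ‖θ j (star 1 * 1)‖ * ‖R‖ := hnv
    _ ≤ 1 * (2 * M * δ + δ) := by
        gcongr
    _ = 2 * M * δ + δ := one_mul _

/-- a component of a decomposable system, placed at the colour `c` -/
theorem comp_at {A : Type} [NonUnitalCStarAlgebra A] {I K : Type} [Fintype I] (u : I → K)
    (hu : Function.Injective u) (i₀ : I) (F : I → FDA) (ψ : A →ₗ[ℂ] ∀ j, (F j).alg)
    (φ : ∀ j, (F j).alg →ₗ[ℂ] A) (hψ : IsCPC ψ) (hφ : ∀ j, IsCPC (φ j) ∧ IsOrderZero (φ j))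
    (c : K) : ∃ (G : FDA) (α : A →ₗ[ℂ] G.alg) (β : G.alg →ₗ[ℂ] A), IsCPC α ∧
      (IsCPC β ∧ IsOrderZero β) ∧
      (∀ j, u j = c → (∀ a, φ j (ψ a j) = β (α a)) ∧ φ j 1 = β 1) ∧
      ((∀ j, u j ≠ c) → β = 0) := by
  by_cases h : ∃ j, u j = c
  · obtain ⟨j, rfl⟩ := h
    refine ⟨F j, LinearMap.proj (R := ℂ) (φ := fun i => (F i).alg) j ∘ₗ ψ, φ j,
      (isCPC_hom (Pi.evalNonUnitalStarAlgHom ℂ (fun i => (F i).alg) j) _ (fun _ => rfl)).comp hψ,
      hφ j, ?_, fun h => absurd rfl (h j)⟩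
    intro i hi
    obtain rfl := hu hi
    exact ⟨fun a => rfl, rfl⟩
  · push Not at h
    refine ⟨F i₀, 0, 0, ⟨IsCP.zero, fun a => ?_⟩, ⟨⟨IsCP.zero, fun a => ?_⟩, ?_⟩,
      fun j hj => absurd hj (h j), fun _ => rfl⟩
    · simp
    · simp
    · intro a b _
      simp

/-- the systems given by decomposition rank at most one -/
theorem sys {A : Type} [NonUnitalCStarAlgebra A] {J : Type} [Fintype J] (i j : J) (hij : i ≠ j)
    (hA : decRank A ≤ 1) (G : Finset A) (M δ : ℝ) (hM : ∀ g ∈ G, ‖g‖ ≤ M) (hM0 : 0 ≤ M)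
    (hδ : 0 < δ) :
    ∃ (F : J → FDA) (ψ : ∀ c, A →ₗ[ℂ] (F c).alg) (φ : ∀ c, (F c).alg →ₗ[ℂ] A),
      (∀ c, IsCPC (ψ c)) ∧ (∀ c, IsCPC (φ c) ∧ IsOrderZero (φ c)) ∧
      (∀ g ∈ G, ‖∑ c, φ c (ψ c g) - g‖ ≤ δ) ∧
      (∀ g ∈ G, ∀ c, ‖φ c (ψ c g) - φ c 1 * g‖ ≤ δ) ∧
      ‖∑ c, φ c 1‖ ≤ 1 ∧ ∀ c, c ≠ i → c ≠ j → φ c = 0 := by
  classical
  obtain ⟨d, hd1, hd⟩ : ∃ d : ℕ, d ≤ 1 ∧
      ∀ (G : Finset A) (ε : ℝ), 0 < ε → ∃ r, HasContrDec A d G ε r := by
    by_contra hcon
    push Not at hcon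
    have h1 : ((2 : ℕ) : ℕ∞) ≤ decRank A := by
      unfold decRank
      refine le_iInf₂ fun d' hd' => ?_
      rw [Nat.cast_le]
      by_contra hlt
      obtain ⟨G, ε, hε, h⟩ := hcon d' (by omega)
      obtain ⟨r, hr⟩ := hd' G ε hε
      exact h r hr
    have h2 := h1.trans hA
    norm_num at h2
  set δ' : ℝ := min δ (δ ^ 2 / (2 * M + 1)) with hδ'
  have hδ'0 : 0 < δ' := lt_min hδ (by positivity)
  have hδ'1 : δ' ≤ δ := min_le_left _ _
  have hδ'2 : 2 * M * δ' + δ' ≤ δ ^ 2 := by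
    have h1 : δ' ≤ δ ^ 2 / (2 * M + 1) := min_le_right _ _
    rw [le_div_iff₀ (by positivity)] at h1
    linarith
  obtain ⟨r, F, -, ψ, φ, hψ, hφ, hcon, happ⟩ := hd (G ∪ G.image fun g => star g * g) δ' hδ'0
  let u : Fin (d + 1) → J := fun t => if t.val = 0 then i else j
  have hu : Function.Injective u := by
    intro t t' htt
    simp only [u] at htt
    have h1 := t.2
    have h2 := t'.2
    apply Fin.ext
    by_cases a : t.val = 0 <;> by_cases b : t'.val = 0
    · omega
    · rw [if_pos a, if_neg b] at htt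
      exact absurd htt hij
    · rw [if_neg a, if_pos b] at htt
      exact absurd htt.symm hij
    · omega
  have hur : ∀ c, c ≠ i → c ≠ j → ∀ t, u t ≠ c := by
    intro c h1 h2 t ht
    simp only [u] at ht
    split_ifs at ht
    · exact h1 ht.symm
    · exact h2 ht.symm
  choose F' ψ' φ' g1 g2 g3 g4 using fun c => comp_at u hu 0 F ψ φ hψ hφ c
  have hs1 : ∀ a, ∑ t, φ t (ψ a t) = ∑ c, φ' c (ψ' c a) := by
    intro a
    refine Fintype.sum_of_injective u hu _ _ ?_ ?_
    · intro c hc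
      rw [g4 c (fun t ht => hc ⟨t, ht⟩)]
      rfl
    · intro t
      exact (g3 (u t) t rfl).1 a
  have hs2 : ∑ t, φ t 1 = ∑ c, φ' c 1 := by
    refine Fintype.sum_of_injective u hu _ _ ?_ ?_
    · intro c hc
      rw [g4 c (fun t ht => hc ⟨t, ht⟩)]
      rfl
    · intro t
      exact (g3 (u t) t rfl).2
  refine ⟨F', ψ', φ', g1, g2, ?_, ?_, ?_, ?_⟩
  · intro g hg
    rw [← hs1]
    refine (happ g ?_).trans hδ'1
    simp only [Finset.coe_union, Set.mem_union, Finset.mem_coe]
    exact Or.inl hg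
  · intro g hg c
    by_cases h : ∃ t, u t = c
    · obtain ⟨t, rfl⟩ := h
      obtain ⟨e1, e2⟩ := g3 (u t) t rfl
      rw [← e1, ← e2]
      have h3 : ‖φ t (ψ g t) - φ t 1 * g‖ ^ 2 ≤ 2 * M * δ' + δ' := by
        refine mdom F ψ φ hψ (fun t => (hφ t).1) hcon g δ' M (hM g hg) (happ g ?_) (happ _ ?_) t
        · simp only [Finset.coe_union, Set.mem_union, Finset.mem_coe]
          exact Or.inl hg
        · simp only [Finset.coe_union, Set.mem_union, Finset.mem_coe, Finset.mem_image]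
          exact Or.inr ⟨g, hg, rfl⟩
      exact (sq_le_sq₀ (norm_nonneg _) hδ.le).1 (h3.trans hδ'2)
    · push Not at h
      rw [g4 c h]
      simp [hδ.le]
  · rw [← hs2]
    exact (hcon 1).trans (norm_one_le _)
  · intro c h1 h2
    exact g4 c (hur c h1 h2)

/-- the function `min (s / ν) 1 * max (1 - s) 0`, made nonnegative -/
def hf (ν s : ℝ) : ℝ := max 0 (min 1 (s / ν)) * max 0 (1 - s)

theorem hf_cont (ν : ℝ) : Continuous (hf ν) := by
  unfold hf
  fun_prop

theorem hf_zero (ν : ℝ) : hf ν 0 = 0 := by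
  simp [hf]

theorem hf_nonneg (ν s : ℝ) : 0 ≤ hf ν s :=
  mul_nonneg (le_max_left _ _) (le_max_left _ _)

theorem hf_add_le {ν η s : ℝ} (h0 : 0 ≤ s) (h1 : s ≤ 1 + η) (hη : 0 ≤ η) :
    |s + hf ν s| ≤ 1 + η := by
  rw [abs_of_nonneg (add_nonneg h0 (hf_nonneg _ _))]
  rcases le_total s 1 with h | h
  · have h2 : max 0 (1 - s) = 1 - s := max_eq_right (by linarith)
    have h3 : max 0 (min 1 (s / ν)) ≤ 1 := max_le zero_le_one (min_le_left _ _)
    have h4 : hf ν s ≤ 1 * (1 - s) := by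
      unfold hf
      rw [h2]
      exact mul_le_mul_of_nonneg_right h3 (by linarith)
    linarith
  · have h2 : max 0 (1 - s) = 0 := max_eq_left (by linarith)
    unfold hf
    rw [h2, mul_zero]
    linarith

theorem hf_bound {ν η s : ℝ} (hν : 0 < ν) (h0 : 0 ≤ s) (h1 : s ≤ 1 + η) (hη : 0 ≤ η)
    (hη1 : η ≤ 1) : |s * hf ν s - (s - s * s)| ≤ ν + 2 * η := by
  rcases le_total s 1 with h | h
  · have h2 : max 0 (1 - s) = 1 - s := max_eq_right (by linarith)
    have h3 : 0 ≤ s / ν := div_nonneg h0 hν.le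
    have h4 : max 0 (min 1 (s / ν)) = min 1 (s / ν) := max_eq_right (le_min zero_le_one h3)
    unfold hf
    rw [h2, h4]
    rcases le_total s ν with h5 | h5
    · have h6 : min 1 (s / ν) = s / ν := min_eq_right ((div_le_one hν).2 h5)
      rw [h6]
      have h7 : s / ν ≤ 1 := (div_le_one hν).2 h5
      have h8 : s * (s / ν * (1 - s)) - (s - s * s) = -(s * (1 - s) * (1 - s / ν)) := by ring
      rw [h8, abs_neg, abs_of_nonneg (by
        have : 0 ≤ 1 - s / ν := by linarith
        have : 0 ≤ 1 - s := by linarith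
        positivity)]
      have h9 : s * (1 - s) * (1 - s / ν) ≤ s * 1 * 1 := by
        gcongr
        · linarith
        · linarith
      linarith
    · have h6 : min 1 (s / ν) = 1 := min_eq_left ((one_le_div hν).2 h5)
      rw [h6]
      have h8 : s * (1 * (1 - s)) - (s - s * s) = 0 := by ring
      rw [h8, abs_zero]
      linarith
  · have h2 : max 0 (1 - s) = 0 := max_eq_left (by linarith)
    unfold hf
    rw [h2, mul_zero, mul_zero, zero_sub, abs_neg, abs_le]
    constructor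
    · nlinarith
    · nlinarith

/-- the norms of two functions of a positive element -/
theorem norm_two {A : Type} [NonUnitalCStarAlgebra A] [PartialOrder A] [StarOrderedRing A]
    (ν : ℝ) {η : ℝ} (hν : 0 < ν) (hη : 0 ≤ η) (hη1 : η ≤ 1) (c : A) (hc : 0 ≤ c)
    (hcn : ‖c‖ ≤ 1 + η) :
    ‖c + cfcₙ (hf ν) c‖ ≤ 1 + η ∧ ‖c * cfcₙ (hf ν) c - (c - c * c)‖ ≤ ν + 2 * η := by
  have hsa : IsSelfAdjoint c := IsSelfAdjoint.of_nonneg hc
  have hspec : ∀ s ∈ quasispectrum ℝ c, 0 ≤ s ∧ s ≤ 1 + η := by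
    intro s hs
    refine ⟨quasispectrum_nonneg_of_nonneg _ hc s hs, ?_⟩
    have h1 := NonUnitalIsometricContinuousFunctionalCalculus.norm_quasispectrum_le c hs hsa
    rw [Real.norm_eq_abs] at h1
    exact (le_abs_self s).trans (h1.trans hcn)
  have hcont := hf_cont ν
  have h00 := hf_zero ν
  constructor
  · have h1 : c + cfcₙ (hf ν) c = cfcₙ (fun s => s + hf ν s) c := by
      rw [cfcₙ_add (fun s => s) (hf ν) c (by fun_prop) rfl hcont.continuousOn h00,
        cfcₙ_id' ℝ c]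
    rw [h1]
    refine norm_cfcₙ_le fun s hs => ?_
    rw [Real.norm_eq_abs]
    exact hf_add_le (hspec s hs).1 (hspec s hs).2 hη
  · have h1 : c * cfcₙ (hf ν) c - (c - c * c) = cfcₙ (fun s => s * hf ν s - (s - s * s)) c := by
      rw [cfcₙ_sub (fun s => s * hf ν s) (fun s => s - s * s) c
        (by fun_prop) (by simp) (by fun_prop) (by simp),
        cfcₙ_mul (fun s => s) (hf ν) c (by fun_prop) rfl hcont.continuousOn h00,
        cfcₙ_sub (fun s => s) (fun s => s * s) c (by fun_prop) rfl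
        (by fun_prop) (by simp), cfcₙ_mul (fun s => s) (fun s => s) c (by fun_prop) rfl
        (by fun_prop) rfl, cfcₙ_id' ℝ c]
    rw [h1]
    refine norm_cfcₙ_le fun s hs => ?_
    rw [Real.norm_eq_abs]
    exact hf_bound hν (hspec s hs).1 (hspec s hs).2 hη hη1

/-- exact rows for a colour -/
theorem row_at (hROW : StROW) {A : Type} [NonUnitalCStarAlgebra A] (F : FDA)
    (φ : F.alg →ₗ[ℂ] A) (hφ : IsCPC φ ∧ IsOrderZero φ) {η : ℝ} (hη : 0 < η) :
    ∃ (x : ∀ l : F.ι, F.n l → A) (k : F.ι → A), IsRow F x k 0 ∧ (∀ l, Pos (k l)) ∧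
      (∀ y, ‖rowMap F x y - φ y‖ ≤ η * ‖y‖) ∧ (φ = 0 → rowMap F x = 0) := by
  by_cases h : φ = 0
  · refine ⟨fun _ _ => 0, fun _ => 0, ⟨?_, ?_, ?_⟩, fun _ => Pos.zero, ?_, ?_⟩
    · intro l i; simp
    · intro l i j _; simp
    · intro l l' i j _; simp
    · intro y
      rw [h]
      have : rowMap F (fun _ _ => (0 : A)) y = 0 := by
        change (∑ l, ∑ i, ∑ j, y l i j • ((0 : A) * star (0 : A))) = 0
        simp
      rw [this]
      simp only [LinearMap.zero_apply, sub_zero, norm_zero]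
      positivity
    · intro _
      apply LinearMap.ext
      intro y
      change (∑ l, ∑ i, ∑ j, y l i j • ((0 : A) * star (0 : A))) = 0
      simp
  · obtain ⟨x, k, h1, h2, h3⟩ := hROW.2.2 F A φ η hη hφ.1 hφ.2
    exact ⟨x, k, h1, h2, h3, fun h' => absurd h' h⟩

theorem t_DRS (hL1 : StL1) (hROW : StROW) : StDRS := by
  classical
  intro A _ J _ i j hij hA G ε₀ hε₀
  let _ := CStarAlgebra.spectralOrder A
  let _ := CStarAlgebra.spectralOrderedRing A
  -- constants
  obtain ⟨M, hM1, hM⟩ : ∃ M : ℝ, 1 ≤ M ∧ ∀ g ∈ G, ‖g‖ ≤ M := by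
    refine ⟨1 + ∑ g ∈ G, ‖g‖, ?_, fun g hg => ?_⟩
    · have : 0 ≤ ∑ g ∈ G, ‖g‖ := Finset.sum_nonneg fun g _ => norm_nonneg g
      linarith
    · have := Finset.single_le_sum (f := fun g : A => ‖g‖) (fun g _ => norm_nonneg g) hg
      linarith
  have hM0 : 0 < M := by linarith
  set ε : ℝ := min ε₀ 1 with hε
  have hε0 : 0 < ε := lt_min hε₀ one_pos
  have hεε : ε ≤ ε₀ := min_le_left _ _
  have hε1 : ε ≤ 1 := min_le_right _ _
  set N : ℝ := (Fintype.card J : ℝ) + 1 with hN
  have hN1 : 1 ≤ N := by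
    rw [hN]
    have : (0 : ℝ) ≤ Fintype.card J := Nat.cast_nonneg _
    linarith
  have hN0 : 0 < N := by linarith
  set δ : ℝ := ε / (16 * N) with hδ
  set η : ℝ := ε / (16 * N * M) with hη
  set ν : ℝ := ε / (4 * M) with hν
  have hδ0 : 0 < δ := by positivity
  have hη0 : 0 < η := by positivity
  have hν0 : 0 < ν := by positivity
  have hNδ : N * δ = ε / 16 := by rw [hδ]; field_simp
  have hNη : N * η * M = ε / 16 := by rw [hη]; field_simp
  have hνM : ν * M = ε / 4 := by rw [hν]; field_simp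
  have hNη' : N * η ≤ ε / 16 := by
    rw [← hNη]
    have : 0 ≤ N * η := by positivity
    nlinarith
  have hηM : η * M ≤ ε / 16 := by
    rw [← hNη]
    have : 0 ≤ η * M := by positivity
    nlinarith
  have hη' : η ≤ ε / 16 := by
    have : 0 ≤ η := hη0.le
    nlinarith
  have hδ' : δ ≤ ε / 16 := by
    rw [← hNδ]
    nlinarith
  obtain ⟨F, ψ, φ, hψ, hφ, happ, hmul, hone, hzero⟩ := sys i j hij hA G M δ hM hM0.le hδ0
  choose x k hx hk hxφ hx0 using fun c => row_at hROW (F c) (φ c) (hφ c) hη0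
  have hcp : ∀ c, IsCP (rowMap (F c) (x c)) := fun c => hROW.1 _ _ _
  have hoz : ∀ c, OZ (rowMap (F c) (x c)) := fun c =>
    hL1 _ _ _ (hcp c) (hROW.2.1 _ _ _ _ (hx c))
  set C : J → A := fun c => rowMap (F c) (x c) 1 with hC
  have hC0 : ∀ c, 0 ≤ C c := fun c => by simpa using (hcp c).nonneg (1 : (F c).alg)
  have hCφ : ∀ c, ‖C c - φ c 1‖ ≤ η := by
    intro c
    refine (hxφ c 1).trans ?_
    calc η * ‖(1 : (F c).alg)‖ ≤ η * 1 := by
          gcongr
          exact norm_one_le _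
      _ = η := mul_one _
  have hCn : ∀ c, ‖C c‖ ≤ 1 + η := by
    intro c
    have h1 : ‖φ c 1‖ ≤ 1 := ((hφ c).1.2 _).trans (norm_one_le _)
    have h2 : C c = (C c - φ c 1) + φ c 1 := by abel
    rw [h2]
    refine (norm_add_le _ _).trans ?_
    have := hCφ c
    linarith
  have hR0 : ∀ c, c ≠ i → c ≠ j → rowMap (F c) (x c) = 0 := fun c h1 h2 =>
    hx0 c (hzero c h1 h2)
  have hCz : ∀ c, c ≠ i → c ≠ j → C c = 0 := by
    intro c h1 h2
    simp only [hC]
    rw [hR0 c h1 h2]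
    rfl
  have hcardN : (Fintype.card J : ℝ) ≤ N := by rw [hN]; linarith
  -- the estimates
  have hE1 : ∀ g ∈ G, ∀ c, ‖rowMap (F c) (x c) (ψ c g) - φ c (ψ c g)‖ ≤ η * M := by
    intro g hg c
    refine (hxφ c _).trans ?_
    gcongr
    exact ((hψ c).2 g).trans (hM g hg)
  have hE2 : ∀ g ∈ G, ‖∑ c, rowMap (F c) (x c) (ψ c g) - g‖ ≤ ε / 4 := by
    intro g hg
    have e1 : ∑ c, rowMap (F c) (x c) (ψ c g) - g =
        ∑ c, (rowMap (F c) (x c) (ψ c g) - φ c (ψ c g)) + (∑ c, φ c (ψ c g) - g) := by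
      rw [Finset.sum_sub_distrib]
      abel
    rw [e1]
    have e2 : ‖∑ c, (rowMap (F c) (x c) (ψ c g) - φ c (ψ c g))‖ ≤ N * (η * M) := by
      refine (norm_sum_le _ _).trans ?_
      refine (Finset.sum_le_card_nsmul _ _ (η * M) fun c _ => hE1 g hg c).trans ?_
      rw [nsmul_eq_mul]
      gcongr
      exact hcardN
    refine (norm_add_le _ _).trans ?_
    have := happ g hg
    nlinarith
  have hE3 : ∀ g ∈ G, ∀ c, ‖rowMap (F c) (x c) (ψ c g) - C c * g‖ ≤ ε / 4 := by
    intro g hg c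
    have e1 : rowMap (F c) (x c) (ψ c g) - C c * g =
        (rowMap (F c) (x c) (ψ c g) - φ c (ψ c g)) + (φ c (ψ c g) - φ c 1 * g) -
          (C c - φ c 1) * g := by
      rw [sub_mul]
      abel
    rw [e1]
    have e2 : ‖(C c - φ c 1) * g‖ ≤ η * M :=
      (norm_mul_le _ _).trans (mul_le_mul (hCφ c) (hM g hg) (norm_nonneg _) hη0.le)
    refine (norm_sub_le _ _).trans ?_
    have e3 := norm_add_le (rowMap (F c) (x c) (ψ c g) - φ c (ψ c g))
      (φ c (ψ c g) - φ c 1 * g)
    have e4 := hE1 g hg c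
    have e5 := hmul g hg c
    linarith
  have hE4 : ‖∑ c, C c‖ ≤ 1 + ε / 4 := by
    have e1 : ∑ c, C c = ∑ c, (C c - φ c 1) + ∑ c, φ c 1 := by
      rw [Finset.sum_sub_distrib]
      abel
    rw [e1]
    have e2 : ‖∑ c, (C c - φ c 1)‖ ≤ N * η := by
      refine (norm_sum_le _ _).trans ?_
      refine (Finset.sum_le_card_nsmul _ _ η fun c _ => hCφ c).trans ?_
      rw [nsmul_eq_mul]
      gcongr
      exact hcardN
    refine (norm_add_le _ _).trans ?_
    linarith
  have hE5 : ∀ g ∈ G, ‖g - (∑ c, C c) * g‖ ≤ ε / 4 := by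
    intro g hg
    have e1 : g - (∑ c, C c) * g = ∑ c, (φ c (ψ c g) - φ c 1 * g) - ∑ c, (C c - φ c 1) * g -
        (∑ c, φ c (ψ c g) - g) := by
      simp only [Finset.sum_sub_distrib, sub_mul, Finset.sum_mul]
      abel
    rw [e1]
    have e2 : ‖∑ c, (φ c (ψ c g) - φ c 1 * g)‖ ≤ N * δ := by
      refine (norm_sum_le _ _).trans ?_
      refine (Finset.sum_le_card_nsmul _ _ δ fun c _ => hmul g hg c).trans ?_
      rw [nsmul_eq_mul]
      gcongr
      exact hcardN
    have e3 : ‖∑ c, (C c - φ c 1) * g‖ ≤ N * (η * M) := by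
      refine (norm_sum_le _ _).trans ?_
      refine (Finset.sum_le_card_nsmul _ _ (η * M) fun c _ =>
        (norm_mul_le _ _).trans (mul_le_mul (hCφ c) (hM g hg) (norm_nonneg _) hη0.le)).trans ?_
      rw [nsmul_eq_mul]
      gcongr
      exact hcardN
    have e4 := happ g hg
    refine (norm_sub_le _ _).trans ?_
    have e5 := norm_sub_le (∑ c, (φ c (ψ c g) - φ c 1 * g)) (∑ c, (C c - φ c 1) * g)
    nlinarith
  -- the function of `C c`
  set e : J → A := fun c => cfcₙ (hf ν) (C c) with he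
  have hCsa : ∀ c, IsSelfAdjoint (C c) := fun c => IsSelfAdjoint.of_nonneg (hC0 c)
  have hcomm : ∀ c y, Commute (C c) (rowMap (F c) (x c) y) := by
    intro c y
    have h1 : rowMap (F c) (x c) y * rowMap (F c) (x c) 1 =
      rowMap (F c) (x c) 1 * rowMap (F c) (x c) (y * 1) := hoz c y 1
    rw [mul_one] at h1
    exact h1.symm
  have hecomm : ∀ c y, e c * rowMap (F c) (x c) y = rowMap (F c) (x c) y * e c :=
    fun c y => ((hcomm c y).cfcₙ_real (hf ν)).eq
  have he0 : ∀ c, 0 ≤ e c := fun c => cfcₙ_nonneg fun s _ => hf_nonneg ν s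
  have hsum : ∀ c, ‖C c + e c‖ ≤ 1 + η := fun c =>
    (norm_two ν hν0 hη0.le (by linarith) (C c) (hC0 c) (hCn c)).1
  have hprod : ∀ c, ‖C c * e c - (C c - C c * C c)‖ ≤ ν + 2 * η := fun c =>
    (norm_two ν hν0 hη0.le (by linarith) (C c) (hC0 c) (hCn c)).2
  -- the key estimate
  have hkey : ∀ g ∈ G, ∀ p q, (p = i ∧ q = j) ∨ (p = j ∧ q = i) →
      ‖C p * (e p - C q) * g‖ ≤ ε := by
    intro g hg p q hpq
    have h1 : ∑ c, C c = C p + C q := by
      rcases hpq with ⟨rfl, rfl⟩ | ⟨rfl, rfl⟩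
      · exact Fintype.sum_eq_add p q hij fun c hc => hCz c hc.1 hc.2
      · rw [Fintype.sum_eq_add q p hij fun c hc => hCz c hc.1 hc.2, add_comm]
    have h2 : C p * (e p - C q) * g = (C p * e p - (C p - C p * C p)) * g +
        C p * (g - (∑ c, C c) * g) := by
      rw [h1]
      simp only [mul_sub, sub_mul, add_mul, mul_add, mul_assoc]
      abel
    rw [h2]
    have h3 : ‖(C p * e p - (C p - C p * C p)) * g‖ ≤ (ν + 2 * η) * M :=
      (norm_mul_le _ _).trans (mul_le_mul (hprod p) (hM g hg) (norm_nonneg _) (by positivity))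
    have h4 : ‖C p * (g - (∑ c, C c) * g)‖ ≤ (1 + η) * (ε / 4) :=
      (norm_mul_le _ _).trans (mul_le_mul (hCn p) (hE5 g hg) (norm_nonneg _) (by positivity))
    refine (norm_add_le _ _).trans ?_
    nlinarith
  set b : J → J → A := fun p q => if (p = i ∧ q = j) ∨ (p = j ∧ q = i) then e p else C q with hb
  have hbii : ∀ p, b p p = C p := by
    intro p
    simp only [hb]
    rw [if_neg]
    rintro (⟨h1, h2⟩ | ⟨h1, h2⟩)
    · exact hij (h1.symm.trans h2)
    · exact hij (h2.symm.trans h1)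
  refine ⟨F, ψ, x, k, b, hψ, hx, hk, ?_, ?_, ?_, ?_, hbii, ?_, ?_, ?_⟩
  · exact hE4.trans (by linarith)
  · intro g hg
    exact (hE2 g hg).trans (by linarith)
  · intro g hg c
    exact (hE3 g hg c).trans (by linarith)
  · intro p q
    simp only [hb]
    split_ifs
    · exact (pos_iff _).2 (he0 p)
    · exact (pos_iff _).2 (hC0 q)
  · intro p q y
    by_cases h : (p = i ∧ q = j) ∨ (p = j ∧ q = i)
    · have : b p q = e p := if_pos h
      rw [this]
      exact hecomm p y
    · have : b p q = C q := if_neg h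
      rw [this]
      by_cases hp : p ≠ i ∧ p ≠ j
      · rw [hR0 p hp.1 hp.2]
        simp
      · by_cases hq : q ≠ i ∧ q ≠ j
        · rw [hCz q hq.1 hq.2]
          simp
        · have hpq : q = p := by
            by_contra hne
            apply h
            by_cases h1 : p = i
            · subst h1
              refine Or.inl ⟨rfl, ?_⟩
              by_contra h2
              exact hq ⟨hne, h2⟩
            · have h2 : p = j := by
                by_contra h2
                exact hp ⟨h1, h2⟩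
              subst h2
              refine Or.inr ⟨rfl, ?_⟩
              by_contra h3
              exact hq ⟨h3, hne⟩
          subst hpq
          exact (hcomm q y).eq
  · intro p
    by_cases h1 : p = i
    · subst h1
      have h2 : ∑ q, b p q = C p + e p := by
        rw [Fintype.sum_eq_add p j hij]
        · rw [hbii p]
          congr 1
          exact if_pos (Or.inl ⟨rfl, rfl⟩)
        · intro c hc
          have : b p c = C c := if_neg (by
            rintro (⟨h1, h2⟩ | ⟨h1, h2⟩)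
            · exact hc.2 h2
            · exact hc.1 h2)
          rw [this]
          exact hCz c hc.1 hc.2
      rw [h2]
      exact (hsum p).trans (by linarith)
    · by_cases h1' : p = j
      · subst h1'
        have h2 : ∑ q, b p q = e p + C p := by
          rw [Fintype.sum_eq_add i p hij]
          · rw [hbii p]
            congr 1
            exact if_pos (Or.inr ⟨rfl, rfl⟩)
          · intro c hc
            have : b p c = C c := if_neg (by
              rintro (⟨h1, h2⟩ | ⟨h1, h2⟩)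
              · exact hc.2 h2
              · exact hc.1 h2)
            rw [this]
            exact hCz c hc.1 hc.2
        rw [h2, add_comm]
        exact (hsum p).trans (by linarith)
      · have h2 : ∑ q, b p q = ∑ q, C q := by
          refine Finset.sum_congr rfl fun q _ => ?_
          exact if_neg (by
            rintro (⟨h3, h4⟩ | ⟨h3, h4⟩)
            · exact h1 h3
            · exact h1' h3)
        rw [h2]
        exact hE4.trans (by linarith)
  · intro g hg p q
    by_cases h : (p = i ∧ q = j) ∨ (p = j ∧ q = i)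
    · have : b p q = e p := if_pos h
      rw [this]
      exact (hkey g hg p q h).trans hεε
    · have : b p q = C q := if_neg h
      rw [this]
      change ‖C p * (C q - C q) * g‖ ≤ ε₀
      simp [hε₀.le]

end Pool.Agent.Helper7_ND.J_DRS
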