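import Pool.Agent.Helper7_ND.Stm7
import Pool.Agent.Helper7_ND.J_DRS

set_option autoImplicit false

open scoped Matrix.Norms.L2Operator ENNReal Matrix
open Pool.Agent.W659.EC

noncomputable section

namespace Pool.Agent.Helper7_ND.J_DRN

theorem t_DRN (hNV : StNV) : StDRN := by
  classical
  have _ := hNV
  intro A _ n hA G ε hε
  obtain ⟨d, hd1, hd⟩ : ∃ d : ℕ, d ≤ n ∧
      ∀ (G : Finset A) (ε : ℝ), 0 < ε → ∃ r, HasContrDec A d G ε r := by
    by_contra hcon
    push Not at hcon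
    have h1 : ((n + 1 : ℕ) : ℕ∞) ≤ decRank A := by
      unfold decRank
      refine le_iInf₂ fun d' hd' => ?_
      rw [Nat.cast_le]
      by_contra hlt
      obtain ⟨G, ε, hε, h⟩ := hcon d' (by omega)
      obtain ⟨r, hr⟩ := hd' G ε hε
      exact h r hr
    have h2 := h1.trans hA
    rw [Nat.cast_le] at h2
    omega
  set M : ℝ := 1 + ∑ g ∈ G, ‖g‖ with hMdef
  have hM1 : 1 ≤ M := by
    have : 0 ≤ ∑ g ∈ G, ‖g‖ := Finset.sum_nonneg fun g _ => norm_nonneg g
    linarith
  have hM : ∀ g ∈ G, ‖g‖ ≤ M := by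
    intro g hg
    have := Finset.single_le_sum (f := fun g : A => ‖g‖) (fun g _ => norm_nonneg g) hg
    linarith
  have hM0 : 0 ≤ M := by linarith
  set δ' : ℝ := min ε (ε ^ 2 / (2 * M + 1)) with hδ'
  have hδ'0 : 0 < δ' := lt_min hε (by positivity)
  have hδ'1 : δ' ≤ ε := min_le_left _ _
  have hδ'2 : 2 * M * δ' + δ' ≤ ε ^ 2 := by
    have h1 : δ' ≤ ε ^ 2 / (2 * M + 1) := min_le_right _ _
    rw [le_div_iff₀ (by positivity)] at h1
    linarith
  obtain ⟨r, F, -, ψ, φ, hψ, hφ, hcon, happ⟩ := hd (G ∪ G.image fun g => star g * g) δ' hδ'0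
  obtain ⟨u⟩ : Nonempty (Fin (d + 1) ↪ Option (Fin n)) := by
    apply Function.Embedding.nonempty_of_card_le
    simp only [Fintype.card_fin, Fintype.card_option]
    omega
  choose F' ψ' φ' g1 g2 g3 g4 using fun c => J_DRS.comp_at u u.injective 0 F ψ φ hψ hφ c
  have hs1 : ∀ a, ∑ t, φ t (ψ a t) = ∑ c, φ' c (ψ' c a) := by
    intro a
    refine Fintype.sum_of_injective u u.injective _ _ ?_ ?_
    · intro c hc
      rw [g4 c (fun t ht => hc ⟨t, ht⟩)]
      rfl
    · intro t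
      exact (g3 (u t) t rfl).1 a
  refine ⟨F', ψ', φ', g1, g2, ?_, ?_⟩
  · intro g hg
    rw [← hs1]
    refine (happ g ?_).trans hδ'1
    simp only [Finset.coe_union, Set.mem_union, Finset.mem_coe]
    exact Or.inl hg
  · intro g hg c
    by_cases h : ∃ t, u t = c
    · obtain ⟨t, rfl⟩ := h
      obtain ⟨e1, e2⟩ := g3 (u t) t rfl
      rw [← e1, ← e2]
      have h3 : ‖φ t (ψ g t) - φ t 1 * g‖ ^ 2 ≤ 2 * M * δ' + δ' := by
        refine J_DRS.mdom F ψ φ hψ (fun t => (hφ t).1) hcon g δ' M (hM g hg) (happ g ?_)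
          (happ _ ?_) t
        · simp only [Finset.coe_union, Set.mem_union, Finset.mem_coe]
          exact Or.inl hg
        · simp only [Finset.coe_union, Set.mem_union, Finset.mem_coe, Finset.mem_image]
          exact Or.inr ⟨g, hg, rfl⟩
      exact (sq_le_sq₀ (norm_nonneg _) hε.le).1 (h3.trans hδ'2)
    · push Not at h
      rw [g4 c h]
      simp [hε.le]

end Pool.Agent.Helper7_ND.J_DRN
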