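import Pool.Agent.Helper7_ND.Stm5
import Pool.Agent.Helper7_ND.Rp
import Pool.Agent.Helper7_ND.J_SUM
import Pool.Agent.Helper7_ND.J_QC

set_option autoImplicit false

open scoped Matrix.Norms.L2Operator ENNReal Matrix
open Pool.Agent.W659.EC

noncomputable section

namespace Pool.Agent.Helper7_ND.J_DS

section ds

variable {K₁ K₂ E : Type} [NonUnitalCStarAlgebra K₁] [NonUnitalCStarAlgebra K₂]
  [NonUnitalCStarAlgebra E]

/-- the sum of two orthogonal homomorphisms -/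
def kap (κ₁ : K₁ →⋆ₙₐ[ℂ] E) (κ₂ : K₂ →⋆ₙₐ[ℂ] E) (h : ∀ x y, κ₁ x * κ₂ y = 0)
    (h' : ∀ x y, κ₂ y * κ₁ x = 0) : (K₁ × K₂) →⋆ₙₐ[ℂ] E where
  toFun z := κ₁ z.1 + κ₂ z.2
  map_smul' c z := by
    change κ₁ (c • z.1) + κ₂ (c • z.2) = c • (κ₁ z.1 + κ₂ z.2)
    rw [map_smul, map_smul, smul_add]
  map_zero' := by
    change κ₁ 0 + κ₂ 0 = 0
    rw [map_zero, map_zero, add_zero]
  map_add' z w := by
    change κ₁ (z.1 + w.1) + κ₂ (z.2 + w.2) = (κ₁ z.1 + κ₂ z.2) + (κ₁ w.1 + κ₂ w.2)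
    rw [map_add, map_add]
    abel
  map_mul' z w := by
    change κ₁ (z.1 * w.1) + κ₂ (z.2 * w.2) = (κ₁ z.1 + κ₂ z.2) * (κ₁ w.1 + κ₂ w.2)
    rw [map_mul, map_mul, add_mul, mul_add, mul_add, h, h', add_zero, zero_add]
  map_star' z := by
    change κ₁ (star z.1) + κ₂ (star z.2) = star (κ₁ z.1 + κ₂ z.2)
    rw [map_star, map_star, star_add]

theorem kap_apply (κ₁ : K₁ →⋆ₙₐ[ℂ] E) (κ₂ : K₂ →⋆ₙₐ[ℂ] E) (h : ∀ x y, κ₁ x * κ₂ y = 0)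
    (h' : ∀ x y, κ₂ y * κ₁ x = 0) (z : K₁ × K₂) : kap κ₁ κ₂ h h' z = κ₁ z.1 + κ₂ z.2 := rfl

theorem orth_symm (κ₁ : K₁ →⋆ₙₐ[ℂ] E) (κ₂ : K₂ →⋆ₙₐ[ℂ] E) (h : ∀ x y, κ₁ x * κ₂ y = 0) :
    ∀ x y, κ₂ y * κ₁ x = 0 := by
  intro x y
  have h1 := congrArg star (h (star x) (star y))
  rw [star_mul, ← map_star, ← map_star, star_star, star_star, star_zero] at h1
  exact h1

theorem kap_ideal (κ₁ : K₁ →⋆ₙₐ[ℂ] E) (κ₂ : K₂ →⋆ₙₐ[ℂ] E) (h1 : IsIdeal κ₁) (h2 : IsIdeal κ₂)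
    (h : ∀ x y, κ₁ x * κ₂ y = 0) (h' : ∀ x y, κ₂ y * κ₁ x = 0) : IsIdeal (kap κ₁ κ₂ h h') where
  inj := by
    rw [injective_iff_map_eq_zero]
    rintro ⟨x, y⟩ hxy
    rw [kap_apply] at hxy
    have hx : κ₁ (x * star x) = 0 := by
      have := congrArg (fun e => e * κ₁ (star x)) hxy
      simp only [add_mul, zero_mul, h', add_zero] at this
      rw [map_mul]
      exact this
    have hy : κ₂ (y * star y) = 0 := by
      have := congrArg (fun e => e * κ₂ (star y)) hxy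
      simp only [add_mul, zero_mul, h, zero_add] at this
      rw [map_mul]
      exact this
    have hx' : x = 0 := by
      have := (map_eq_zero_iff κ₁ h1.inj).1 hx
      exact CStarRing.mul_star_self_eq_zero_iff x |>.1 this
    have hy' : y = 0 := by
      have := (map_eq_zero_iff κ₂ h2.inj).1 hy
      exact CStarRing.mul_star_self_eq_zero_iff y |>.1 this
    rw [hx', hy']
    rfl
  left := by
    intro e z
    obtain ⟨a, ha⟩ := h1.left e z.1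
    obtain ⟨b, hb⟩ := h2.left e z.2
    refine ⟨(a, b), ?_⟩
    rw [kap_apply, kap_apply, ha, hb, mul_add]
  right := by
    intro e z
    obtain ⟨a, ha⟩ := h1.right e z.1
    obtain ⟨b, hb⟩ := h2.right e z.2
    refine ⟨(a, b), ?_⟩
    rw [kap_apply, kap_apply, ha, hb, add_mul]

/-- first coordinate embedding -/
def inl1 (K₁ K₂ : Type) [NonUnitalCStarAlgebra K₁] [NonUnitalCStarAlgebra K₂] :
    K₁ →⋆ₙₐ[ℂ] (K₁ × K₂) where
  toFun x := (x, 0)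
  map_smul' c x := by
    change (c • x, (0 : K₂)) = (c • x, c • (0 : K₂))
    rw [smul_zero]
  map_zero' := rfl
  map_add' x y := by
    change (x + y, (0 : K₂)) = (x + y, (0 : K₂) + 0)
    rw [add_zero]
  map_mul' x y := by
    change (x * y, (0 : K₂)) = (x * y, (0 : K₂) * 0)
    rw [mul_zero]
  map_star' x := by
    change (star x, (0 : K₂)) = (star x, star (0 : K₂))
    rw [star_zero]

/-- second coordinate embedding -/
def inr1 (K₁ K₂ : Type) [NonUnitalCStarAlgebra K₁] [NonUnitalCStarAlgebra K₂] :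
    K₂ →⋆ₙₐ[ℂ] (K₁ × K₂) where
  toFun x := (0, x)
  map_smul' c x := by
    change ((0 : K₁), c • x) = (c • (0 : K₁), c • x)
    rw [smul_zero]
  map_zero' := rfl
  map_add' x y := by
    change ((0 : K₁), x + y) = ((0 : K₁) + 0, x + y)
    rw [add_zero]
  map_mul' x y := by
    change ((0 : K₁), x * y) = ((0 : K₁) * 0, x * y)
    rw [mul_zero]
  map_star' x := by
    change ((0 : K₁), star x) = (star (0 : K₁), star x)
    rw [star_zero]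

/-- first projection -/
def fst1 (K₁ K₂ : Type) [NonUnitalCStarAlgebra K₁] [NonUnitalCStarAlgebra K₂] :
    (K₁ × K₂) →⋆ₙₐ[ℂ] K₁ where
  toFun x := x.1
  map_smul' _ _ := rfl
  map_zero' := rfl
  map_add' _ _ := rfl
  map_mul' _ _ := rfl
  map_star' _ := rfl

/-- second projection -/
def snd1 (K₁ K₂ : Type) [NonUnitalCStarAlgebra K₁] [NonUnitalCStarAlgebra K₂] :
    (K₁ × K₂) →⋆ₙₐ[ℂ] K₂ where
  toFun x := x.2
  map_smul' _ _ := rfl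
  map_zero' := rfl
  map_add' _ _ := rfl
  map_mul' _ _ := rfl
  map_star' _ := rfl

theorem oz_comp {F : FDA} {A B : Type} [NonUnitalCStarAlgebra A] [NonUnitalCStarAlgebra B]
    (π : A →⋆ₙₐ[ℂ] B) (φ : F.alg →ₗ[ℂ] A) (h : IsOrderZero φ) :
    IsOrderZero ((π : A →ₗ[ℂ] B) ∘ₗ φ) := by
  intro a b hab
  change π (φ (star a * a)) * π (φ (star b * b)) = 0
  rw [← map_mul, h a b hab, map_zero]

theorem one_le (F : FDA) : ‖(1 : F.alg)‖ ≤ 1 := by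
  rcases subsingleton_or_nontrivial F.alg with h | h
  · rw [Subsingleton.elim (1 : F.alg) 0, norm_zero]
    exact zero_le_one
  · exact (CStarRing.norm_one (E := F.alg)).le

theorem ds_one (hSUM : StSUM) (F G : FDA) (ψ₁ : K₁ →ₗ[ℂ] F.alg) (ψ₂ : K₂ →ₗ[ℂ] G.alg)
    (φ₁ : F.alg →ₗ[ℂ] K₁) (φ₂ : G.alg →ₗ[ℂ] K₂) (h1 : IsCPC ψ₁) (h2 : IsCPC ψ₂)
    (h3 : IsCPC φ₁ ∧ IsOrderZero φ₁) (h4 : IsCPC φ₂ ∧ IsOrderZero φ₂) :
    ∃ (K : FDA) (ψ : (K₁ × K₂) →ₗ[ℂ] K.alg) (φ : K.alg →ₗ[ℂ] (K₁ × K₂)), IsCPC ψ ∧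
      (IsCPC φ ∧ IsOrderZero φ) ∧ ∀ z, φ (ψ z) = (φ₁ (ψ₁ z.1), φ₂ (ψ₂ z.2)) := by
  have hl : IsCPC ((inl1 K₁ K₂ : K₁ →⋆ₙₐ[ℂ] (K₁ × K₂)) : K₁ →ₗ[ℂ] (K₁ × K₂)) :=
    isCPC_hom (inl1 K₁ K₂) _ fun _ => rfl
  have hr : IsCPC ((inr1 K₁ K₂ : K₂ →⋆ₙₐ[ℂ] (K₁ × K₂)) : K₂ →ₗ[ℂ] (K₁ × K₂)) :=
    isCPC_hom (inr1 K₁ K₂) _ fun _ => rfl
  have hf : IsCPC ((fst1 K₁ K₂ : (K₁ × K₂) →⋆ₙₐ[ℂ] K₁) : (K₁ × K₂) →ₗ[ℂ] K₁) :=
    isCPC_hom (fst1 K₁ K₂) _ fun _ => rfl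
  have hs : IsCPC ((snd1 K₁ K₂ : (K₁ × K₂) →⋆ₙₐ[ℂ] K₂) : (K₁ × K₂) →ₗ[ℂ] K₂) :=
    isCPC_hom (snd1 K₁ K₂) _ fun _ => rfl
  have hρ := hl.comp h3.1
  have hη := hr.comp h4.1
  have hα := h1.comp hf
  have hβ := h2.comp hs
  obtain ⟨K, ψ, φ, a1, a2, a3, a4, a5, a6⟩ := hSUM (K₁ × K₂) F G
    (((inl1 K₁ K₂ : K₁ →⋆ₙₐ[ℂ] (K₁ × K₂)) : K₁ →ₗ[ℂ] (K₁ × K₂)) ∘ₗ φ₁)
    (((inr1 K₁ K₂ : K₂ →⋆ₙₐ[ℂ] (K₁ × K₂)) : K₂ →ₗ[ℂ] (K₁ × K₂)) ∘ₗ φ₂)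
    (ψ₁ ∘ₗ ((fst1 K₁ K₂ : (K₁ × K₂) →⋆ₙₐ[ℂ] K₁) : (K₁ × K₂) →ₗ[ℂ] K₁))
    (ψ₂ ∘ₗ ((snd1 K₁ K₂ : (K₁ × K₂) →⋆ₙₐ[ℂ] K₂) : (K₁ × K₂) →ₗ[ℂ] K₂))
    1 1 zero_le_one zero_le_one hρ.1 (oz_comp _ _ h3.2) hη.1 (oz_comp _ _ h4.2)
    (by
      intro x y
      change ((φ₁ x, (0 : K₂)) : K₁ × K₂) * ((0 : K₁), φ₂ y) = 0
      rw [Prod.mk_mul_mk, mul_zero, zero_mul]
      rfl)
    hα.1 hβ.1 (fun x => by rw [one_mul]; exact hα.2 x) (fun x => by rw [one_mul]; exact hβ.2 x)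
    ((hρ.2 _).trans (one_le F)) ((hη.2 _).trans (one_le G))
  refine ⟨K, ψ, φ, ⟨a1, fun x => (a2 x).trans (one_mul _).le⟩,
    ⟨⟨a3, fun x => (a5 x).trans (one_mul _).le⟩, a4⟩, ?_⟩
  intro z
  rw [a6 z]
  change ((φ₁ (ψ₁ z.1), (0 : K₂)) : K₁ × K₂) + ((0 : K₁), φ₂ (ψ₂ z.2)) = _
  rw [Prod.mk_add_mk, add_zero, zero_add]

theorem ds_sys (hSUM : StSUM) (J : Type) [Fintype J] (h1 : SysAll K₁ J) (h2 : SysAll K₂ J) :
    SysAll (K₁ × K₂) J := by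
  classical
  intro G ε hε
  obtain ⟨F₁, ψ₁, φ₁, a1, a2, a3⟩ := h1 (G.image Prod.fst) ε hε
  obtain ⟨F₂, ψ₂, φ₂, b1, b2, b3⟩ := h2 (G.image Prod.snd) ε hε
  choose K ψ φ c1 c2 c3 using fun j => ds_one hSUM (F₁ j) (F₂ j) (ψ₁ j) (ψ₂ j) (φ₁ j) (φ₂ j)
    (a1 j) (b1 j) (a2 j) (b2 j)
  refine ⟨K, ψ, φ, c1, c2, ?_⟩
  intro z hz
  have hz' : z ∈ G := hz
  have e1 : (∑ j, φ j (ψ j z) - z) = ((∑ j, φ₁ j (ψ₁ j z.1)) - z.1, (∑ j, φ₂ j (ψ₂ j z.2)) - z.2) := by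
    have : ∑ j, φ j (ψ j z) = (∑ j, φ₁ j (ψ₁ j z.1), ∑ j, φ₂ j (ψ₂ j z.2)) := by
      refine Prod.ext ?_ ?_
      · rw [Prod.fst_sum]
        exact Finset.sum_congr rfl fun j _ => by rw [c3]
      · rw [Prod.snd_sum]
        exact Finset.sum_congr rfl fun j _ => by rw [c3]
    rw [this]
    rfl
  rw [e1, Prod.norm_mk]
  refine max_le ?_ ?_
  · exact a3 z.1 (Finset.mem_coe.2 (Finset.mem_image_of_mem _ hz'))
  · exact b3 z.2 (Finset.mem_coe.2 (Finset.mem_image_of_mem _ hz'))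

end ds

theorem t_DS (hSUM : StSUM) : StDS := by
  intro K₁ K₂ E _ _ _ κ₁ κ₂ h1 h2 h J _ s1 s2
  have h' := orth_symm κ₁ κ₂ h
  refine ⟨K₁ × K₂, inferInstance, kap κ₁ κ₂ h h', kap_ideal κ₁ κ₂ h1 h2 h h',
    ds_sys hSUM J s1 s2, ?_⟩
  intro e
  constructor
  · rintro ⟨z, hz⟩
    exact ⟨z.1, z.2, hz⟩
  · rintro ⟨x, y, hxy⟩
    exact ⟨(x, y), hxy⟩

section chn

variable {E : Type} [NonUnitalCStarAlgebra E]

/-- the union of a chain of ideals as a subalgebra -/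
def uni (c : Set (Set E)) (hc : IsChain (· ⊆ ·) c) (hn : c.Nonempty)
    (h : ∀ S ∈ c, ∃ (K : Type) (_ : NonUnitalCStarAlgebra K) (κ : K →⋆ₙₐ[ℂ] E), IsIdeal κ ∧
      Set.range κ = S) : NonUnitalStarSubalgebra ℂ E where
  carrier := ⋃₀ c
  add_mem' := by
    rintro a b ⟨S, hS, ha⟩ ⟨T, hT, hb⟩
    obtain ⟨U, hU, hSU, hTU⟩ := hc.directedOn S hS T hT
    refine ⟨U, hU, ?_⟩
    obtain ⟨K, _, κ, _, hr⟩ := h U hU
    rw [← hr]
    have ha' := hSU ha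
    have hb' := hTU hb
    rw [← hr] at ha' hb'
    obtain ⟨x, rfl⟩ := ha'
    obtain ⟨y, rfl⟩ := hb'
    exact ⟨x + y, map_add κ x y⟩
  zero_mem' := by
    obtain ⟨S, hS⟩ := hn
    obtain ⟨K, _, κ, _, hr⟩ := h S hS
    refine ⟨S, hS, ?_⟩
    rw [← hr]
    exact ⟨0, map_zero κ⟩
  mul_mem' := by
    rintro a b ⟨S, hS, ha⟩ ⟨T, hT, hb⟩
    obtain ⟨K, _, κ, hκ, hr⟩ := h S hS
    refine ⟨S, hS, ?_⟩
    rw [← hr] at ha ⊢
    obtain ⟨x, rfl⟩ := ha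
    exact hκ.right b x
  smul_mem' := by
    rintro r a ⟨S, hS, ha⟩
    obtain ⟨K, _, κ, hκ, hr⟩ := h S hS
    refine ⟨S, hS, ?_⟩
    rw [← hr] at ha ⊢
    obtain ⟨x, rfl⟩ := ha
    exact ⟨r • x, map_smul κ r x⟩
  star_mem' := by
    rintro a ⟨S, hS, ha⟩
    obtain ⟨K, _, κ, hκ, hr⟩ := h S hS
    refine ⟨S, hS, ?_⟩
    rw [← hr] at ha ⊢
    obtain ⟨x, rfl⟩ := ha
    exact ⟨star x, map_star κ x⟩

theorem chain_fin (c : Set (Set E)) (hc : IsChain (· ⊆ ·) c) (hn : c.Nonempty) {X : Type}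
    (f : X → E) (hf : ∀ x, f x ∈ closure (⋃₀ c)) (G : Finset X) (δ : ℝ) (hδ : 0 < δ) :
    ∃ S ∈ c, ∀ g ∈ G, ∃ a ∈ S, ‖f g - a‖ ≤ δ := by
  classical
  induction G using Finset.induction_on with
  | empty =>
    obtain ⟨S, hS⟩ := hn
    exact ⟨S, hS, by simp⟩
  | insert g G hg ih =>
    obtain ⟨S, hS, h1⟩ := ih
    obtain ⟨a, ⟨T, hT, haT⟩, ha⟩ := Metric.mem_closure_iff.1 (hf g) δ hδ
    rw [dist_eq_norm] at ha
    obtain ⟨U, hU, hSU, hTU⟩ := hc.directedOn S hS T hT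
    refine ⟨U, hU, ?_⟩
    intro g' hg'
    rcases Finset.mem_insert.1 hg' with rfl | hg'
    · exact ⟨a, hTU haT, ha.le⟩
    · obtain ⟨b, hb, hb'⟩ := h1 g' hg'
      exact ⟨b, hSU hb, hb'⟩

theorem approx (e g k : E) (δ : ℝ) (he : ‖e‖ ≤ 1) (h1 : ‖g - k‖ ≤ δ) (h2 : ‖e * k - k‖ ≤ δ)
    (h3 : ‖k * e - k‖ ≤ δ) : ‖e * g * e - g‖ ≤ 4 * δ := by
  have e1 : e * g * e - g = e * (g - k) * e + e * (k * e - k) + (e * k - k) + (k - g) := by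
    noncomm_ring
  have hδ : 0 ≤ δ := (norm_nonneg _).trans h1
  have n1 : ‖e * (g - k) * e‖ ≤ δ := by
    calc ‖e * (g - k) * e‖ ≤ ‖e * (g - k)‖ * ‖e‖ := norm_mul_le _ _
      _ ≤ (‖e‖ * ‖g - k‖) * ‖e‖ := by gcongr; exact norm_mul_le _ _
      _ ≤ (1 * δ) * 1 := by gcongr
      _ = δ := by ring
  have n2 : ‖e * (k * e - k)‖ ≤ δ := by
    calc ‖e * (k * e - k)‖ ≤ ‖e‖ * ‖k * e - k‖ := norm_mul_le _ _
      _ ≤ 1 * δ := by gcongr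
      _ = δ := by ring
  have n3 : ‖k - g‖ ≤ δ := by rw [norm_sub_rev]; exact h1
  rw [e1]
  have t1 := norm_add_le (e * (g - k) * e + e * (k * e - k) + (e * k - k)) (k - g)
  have t2 := norm_add_le (e * (g - k) * e + e * (k * e - k)) (e * k - k)
  have t3 := norm_add_le (e * (g - k) * e) (e * (k * e - k))
  linarith

end chn

theorem t_CHN (hLOC : StLOC) : StCHN := by
  classical
  intro E _ J _ c hc hn h
  let U : NonUnitalStarSubalgebra ℂ E := uni c hc hn (fun S hS => by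
    obtain ⟨K, i, κ, h1, h2, _⟩ := h S hS
    exact ⟨K, i, κ, h1, h2⟩)
  let T : NonUnitalStarSubalgebra ℂ E := U.topologicalClosure
  have hT : (T : Set E) = closure (⋃₀ c) := rfl
  have hTc : IsClosed (T : Set E) := by
    rw [hT]
    exact isClosed_closure
  let κ : T →⋆ₙₐ[ℂ] E := NonUnitalStarSubalgebraClass.subtype T
  have hκ : ∀ x : T, κ x = (x : E) := fun _ => rfl
  have hsub : ∀ S ∈ c, S ⊆ (T : Set E) := by
    intro S hS x hx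
    rw [hT]
    exact subset_closure ⟨S, hS, hx⟩
  refine ⟨T, inferInstance, κ, ?_, ?_, ?_⟩
  · refine ⟨Subtype.val_injective, ?_, ?_⟩
    · intro e x
      have hx : (x : E) ∈ closure (⋃₀ c) := x.2
      have : e * (x : E) ∈ closure (⋃₀ c) := by
        refine map_mem_closure (f := fun y => e * y) (continuous_const.mul continuous_id) hx ?_
        rintro y ⟨S, hS, hy⟩
        obtain ⟨K, _, κ', hκ', hr, _⟩ := h S hS
        refine ⟨S, hS, ?_⟩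
        rw [← hr] at hy ⊢
        obtain ⟨z, rfl⟩ := hy
        exact hκ'.left e z
      exact ⟨⟨_, this⟩, rfl⟩
    · intro e x
      have hx : (x : E) ∈ closure (⋃₀ c) := x.2
      have : (x : E) * e ∈ closure (⋃₀ c) := by
        refine map_mem_closure (f := fun y => y * e) (continuous_id.mul continuous_const) hx ?_
        rintro y ⟨S, hS, hy⟩
        obtain ⟨K, _, κ', hκ', hr, _⟩ := h S hS
        refine ⟨S, hS, ?_⟩
        rw [← hr] at hy ⊢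
        obtain ⟨z, rfl⟩ := hy
        exact hκ'.right e z
      exact ⟨⟨_, this⟩, rfl⟩
  · ext e
    constructor
    · rintro ⟨x, rfl⟩
      exact x.2
    · intro he
      exact ⟨⟨e, he⟩, rfl⟩
  · refine hLOC T J ?_
    intro G ε hε
    obtain ⟨S, hS, hG⟩ := chain_fin c hc hn (fun x : T => (x : E)) (fun x => x.2) G (ε / 4)
      (by linarith)
    obtain ⟨K, iK, κ', hκ', hr, hsys⟩ := h S hS
    have hmem : ∀ x, κ' x ∈ T := fun x => hsub S hS (by rw [← hr]; exact ⟨x, rfl⟩)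
    let ι : K →⋆ₙₐ[ℂ] T := NonUnitalStarAlgHom.codRestrict κ' T hmem
    have hι : ∀ x, ((ι x : T) : E) = κ' x := fun _ => rfl
    have hG' : ∀ g : T, ∃ k : K, g ∈ G → ‖(g : E) - κ' k‖ ≤ ε / 4 := by
      intro g
      by_cases hg : g ∈ G
      · obtain ⟨a, ha, hga⟩ := hG g hg
        rw [← hr] at ha
        obtain ⟨k, rfl⟩ := ha
        exact ⟨k, fun _ => hga⟩
      · exact ⟨0, fun h => absurd h hg⟩
    choose k hk using hG'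
    obtain ⟨e, he1, he2, he3⟩ := J_QC.exists_unit (G.image k) (ε / 4) (by linarith)
    refine ⟨K, iK, ι, ⟨?_, ?_⟩, hsys, e, he1, he2, ?_⟩
    · intro x y hxy
      refine hκ'.inj ?_
      rw [← hι, ← hι, hxy]
    · intro x y a
      obtain ⟨z, hz⟩ := hκ'.left (κ' x * (a : E)) y
      refine ⟨z, ?_⟩
      apply Subtype.ext
      rw [hι, hz]
      rfl
    · intro g hg
      obtain ⟨u1, u2⟩ := he3 (k g) (Finset.mem_image_of_mem _ hg)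
      have := approx (κ' e) (g : E) (κ' (k g)) (ε / 4) ((J_QC.norm_map_le κ' e).trans he2) (hk g hg)
        (by
          rw [← map_mul, ← map_sub]
          exact (J_QC.norm_map_le κ' _).trans u1)
        (by
          rw [← map_mul, ← map_sub]
          exact (J_QC.norm_map_le κ' _).trans u2)
      calc ‖ι e * g * ι e - g‖ = ‖κ' e * (g : E) * κ' e - (g : E)‖ := rfl
        _ ≤ 4 * (ε / 4) := this
        _ = ε := by ring

end Pool.Agent.Helper7_ND.J_DS
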