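import Pool.Agent.Helper7_ND.Stm5
import Pool.Agent.Helper7_ND.Rp
import Pool.Agent.Helper7_ND.J_ROW
import Pool.Agent.Helper7_ND.J_COR
import Pool.Agent.Helper7_ND.J_NV
import Pool.Agent.Helper7_ND.J_RF
import Pool.Agent.Helper7_ND.J_QC
import Pool.Agent.Helper7_ND.J_FD

/-! # Nuclear dimension of hereditary subalgebras -/

set_option autoImplicit false

open scoped Matrix.Norms.L2Operator ENNReal Matrix
open Pool.Agent.W659.EC

noncomputable section

namespace Pool.Agent.Helper7_ND.J_HER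

/-- spectral projections of elements with finite spectrum -/
theorem spec_prj {Q : Type} [CStarAlgebra Q] (hF : ∀ a : Q, (spectrum ℂ a).Finite) (h : Q)
    (hh : Pos h) (θ : ℝ) (hθ : 0 < θ) :
    ∃ q : Q, Prj q ∧ Pos (h - (θ : ℂ) • q) ∧ ‖(1 - q) * h * (1 - q)‖ ≤ θ := by
  classical
  let _ := CStarAlgebra.spectralOrder Q
  let _ := CStarAlgebra.spectralOrderedRing Q
  have hsa : IsSelfAdjoint h := hh.sa
  have hfin : (spectrum ℝ h).Finite := by
    refine Set.Finite.subset ((hF h).preimage (Complex.ofReal_injective.injOn)) ?_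
    intro x hx
    exact (spectrum.algebraMap_mem_iff ℂ).2 hx
  have hc : ∀ f : ℝ → ℝ, ContinuousOn f (spectrum ℝ h) := fun f => hfin.continuousOn f
  have h0 : 0 ≤ h := (Helper7_ND.pos_iff h).1 hh
  have hnn : ∀ x ∈ spectrum ℝ h, 0 ≤ x := fun x hx => spectrum_nonneg_of_nonneg h0 hx
  let χ : ℝ → ℝ := fun x => if θ ≤ x then 1 else 0
  have hχ : ∀ x, χ x = if θ ≤ x then 1 else 0 := fun _ => rfl
  refine ⟨cfc χ h, ⟨?_, ?_⟩, ?_, ?_⟩
  · exact (cfc_predicate χ h : IsSelfAdjoint _)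
  · rw [← cfc_mul χ χ h (hc _) (hc _)]
    congr 1
    funext x
    rw [hχ]; split_ifs <;> simp
  · have e1 : h - (θ : ℂ) • cfc χ h = cfc (fun x => x - θ * χ x) h := by
      rw [cfc_sub (fun x => x) (fun x => θ * χ x) h (hc _) (hc _), cfc_id' ℝ h,
        cfc_const_mul θ χ h (hc _)]
      rfl
    rw [e1, Helper7_ND.pos_iff]
    refine cfc_nonneg fun x hx => ?_
    rw [hχ]
    split_ifs with hx1
    · rw [mul_one]; exact sub_nonneg.2 hx1
    · rw [mul_zero, sub_zero]; exact hnn x hx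
  · have e1 : (1 - cfc χ h) = cfc (fun x => 1 - χ x) h := by
      rw [cfc_sub (fun _ => (1 : ℝ)) χ h (hc _) (hc _), cfc_const_one ℝ h]
    have e2 : (1 - cfc χ h) * h * (1 - cfc χ h)
        = cfc (fun x => (1 - χ x) * x * (1 - χ x)) h := by
      rw [cfc_mul (fun x => (1 - χ x) * x) (fun x => 1 - χ x) h (hc _) (hc _),
        cfc_mul (fun x => 1 - χ x) (fun x => x) h (hc _) (hc _), cfc_id' ℝ h, ← e1]
    rw [e2]
    refine norm_cfc_le hθ.le fun x hx => ?_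
    rw [hχ]
    split_ifs with hx1
    · simp [hθ.le]
    · push Not at hx1
      rw [Real.norm_eq_abs, sub_zero, one_mul, mul_one, abs_of_nonneg (hnn x hx)]
      exact hx1.le

section down

variable {A B : Type} [NonUnitalCStarAlgebra A] [NonUnitalCStarAlgebra B]

theorem sm {θ : A →ₗ[ℂ] B} (hθ : IsCP θ) (x y : A) : θ (star x * y) = star (θ (star y * x)) := by
  let m : Fin 2 → A := ![x, y]
  obtain ⟨N, hN⟩ := hθ 2 (Matrix.of fun i j => if i = 0 then m j else 0)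
  have key : ∀ a b : Fin 2, θ (star (m a) * m b) = ∑ r, star (N r a) * N r b := by
    intro a b
    have h := congrFun (congrFun hN a) b
    simp only [Matrix.map_apply, Matrix.mul_apply, Matrix.conjTranspose_apply, Matrix.of_apply]
      at h
    rw [Fin.sum_univ_two] at h
    simpa using h
  have k01 : θ (star x * y) = ∑ r, star (N r 0) * N r 1 := key 0 1
  have k10 : θ (star y * x) = ∑ r, star (N r 1) * N r 0 := key 1 0
  rw [k01, k10, star_sum]
  refine Finset.sum_congr rfl fun r _ => ?_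
  rw [star_mul, star_star]

theorem cs2 {θ : A →ₗ[ℂ] B} (hθ : IsCP θ) (x y : A) (z : B) :
    ‖θ (star x * y) * z‖ ^ 2 ≤ ‖θ (star x * x)‖ * ‖star z * θ (star y * y) * z‖ := by
  obtain ⟨n, ν, h1, h2, h3⟩ := J_NV.vj θ hθ x y 0 z
  have h4 := J_NV.cs n ν
  rw [h1, h2, h3] at h4
  simpa using h4

end down

section down2

variable {A B : Type} [NonUnitalCStarAlgebra A] [CStarAlgebra B]

theorem prj_compl {q : B} (hq : Prj q) : Prj (1 - q) := by
  refine ⟨by rw [star_sub, star_one, hq.1], ?_⟩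
  rw [mul_sub, mul_one, sub_mul, one_mul, hq.2, sub_self, sub_zero]

theorem down1 {ψ : A →ₗ[ℂ] B} (hψ : IsCPC ψ) {e : A} (he : Pos e) (g : A) {q : B} (hq : Prj q)
    {θ : ℝ} (hb : ‖(1 - q) * ψ (e * e) * (1 - q)‖ ≤ θ) :
    ‖ψ (g * e) * (1 - q)‖ ≤ Real.sqrt θ * ‖g‖ := by
  have hθ : 0 ≤ θ := (norm_nonneg _).trans hb
  have h1 := cs2 hψ.1 (star g) e (1 - q)
  rw [star_star, he.sa, (prj_compl hq).1] at h1
  have h2 : ‖ψ (g * star g)‖ ≤ ‖g‖ ^ 2 := by
    refine (hψ.2 _).trans ?_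
    rw [CStarRing.norm_self_mul_star, pow_two]
  have h3 : ‖ψ (g * e) * (1 - q)‖ ^ 2 ≤ (Real.sqrt θ * ‖g‖) ^ 2 := by
    refine h1.trans ?_
    rw [mul_pow, Real.sq_sqrt hθ, mul_comm θ]
    exact mul_le_mul h2 hb (norm_nonneg _) (by positivity)
  exact (sq_le_sq₀ (norm_nonneg _) (by positivity)).1 h3

theorem down2 {ψ : A →ₗ[ℂ] B} (hψ : IsCPC ψ) {e : A} (he : Pos e) (g : A) {q : B} (hq : Prj q)
    {θ : ℝ} (hb : ‖(1 - q) * ψ (e * e) * (1 - q)‖ ≤ θ) :
    ‖(1 - q) * ψ (e * g)‖ ≤ Real.sqrt θ * ‖g‖ := by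
  have h1 := down1 hψ he (star g) hq hb
  have h2 := sm hψ.1 e g
  rw [he.sa] at h2
  rw [norm_star] at h1
  rw [← norm_star, star_mul, (prj_compl hq).1, h2, star_star]
  exact h1

theorem cut_q {ψ : A →ₗ[ℂ] B} (hψ : IsCPC ψ) {e : A} (he : Pos e) (g : A) {q : B} (hq : Prj q)
    {θ η : ℝ} (hb : ‖(1 - q) * ψ (e * e) * (1 - q)‖ ≤ θ) (h1 : ‖e * g - g‖ ≤ η)
    (h2 : ‖g * e - g‖ ≤ η) : ‖q * ψ g * q - ψ g‖ ≤ 2 * (Real.sqrt θ * ‖g‖ + η) := by
  have hn : ‖1 - q‖ ≤ 1 := J_RF.prj_norm (prj_compl hq)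
  have hn' : ‖q‖ ≤ 1 := J_RF.prj_norm hq
  have a1 : ‖(1 - q) * ψ g‖ ≤ Real.sqrt θ * ‖g‖ + η := by
    have : (1 - q) * ψ g = (1 - q) * ψ (e * g) - (1 - q) * ψ (e * g - g) := by
      rw [map_sub, mul_sub]; abel
    rw [this]
    refine (norm_sub_le _ _).trans (add_le_add (down2 hψ he g hq hb) ?_)
    calc ‖(1 - q) * ψ (e * g - g)‖ ≤ ‖1 - q‖ * ‖ψ (e * g - g)‖ := norm_mul_le _ _
      _ ≤ 1 * η := mul_le_mul hn ((hψ.2 _).trans h1) (norm_nonneg _) zero_le_one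
      _ = η := one_mul _
  have a2 : ‖ψ g * (1 - q)‖ ≤ Real.sqrt θ * ‖g‖ + η := by
    have : ψ g * (1 - q) = ψ (g * e) * (1 - q) - ψ (g * e - g) * (1 - q) := by
      rw [map_sub, sub_mul]; abel
    rw [this]
    refine (norm_sub_le _ _).trans (add_le_add (down1 hψ he g hq hb) ?_)
    calc ‖ψ (g * e - g) * (1 - q)‖ ≤ ‖ψ (g * e - g)‖ * ‖1 - q‖ := norm_mul_le _ _
      _ ≤ η * 1 := mul_le_mul ((hψ.2 _).trans h2) hn (norm_nonneg _) ((norm_nonneg _).trans h2)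
      _ = η := mul_one _
  have e1 : q * ψ g * q - ψ g = -((1 - q) * ψ g + q * (ψ g * (1 - q))) := by
    rw [sub_mul, mul_sub, mul_sub, one_mul, mul_one, mul_assoc]; abel
  rw [e1, norm_neg]
  calc ‖(1 - q) * ψ g + q * (ψ g * (1 - q))‖ ≤ ‖(1 - q) * ψ g‖ + ‖q * (ψ g * (1 - q))‖ :=
        norm_add_le _ _
    _ ≤ (Real.sqrt θ * ‖g‖ + η) + ‖q‖ * ‖ψ g * (1 - q)‖ := add_le_add a1 (norm_mul_le _ _)
    _ ≤ (Real.sqrt θ * ‖g‖ + η) + 1 * (Real.sqrt θ * ‖g‖ + η) := by gcongr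
    _ = _ := by ring

end down2

section up

variable {U : Type} [CStarAlgebra U]

theorem pos_of_norm {D : U} (hD : star D = D) {c : ℝ} (hc : ‖D‖ ≤ c) :
    Pos ((c : ℂ) • (1 : U) - D) := by
  let _ := CStarAlgebra.spectralOrder U
  let _ := CStarAlgebra.spectralOrderedRing U
  rw [Helper7_ND.pos_iff, sub_nonneg]
  have h1 : D ≤ algebraMap ℝ U ‖D‖ := IsSelfAdjoint.le_algebraMap_norm_self hD
  have h2 : algebraMap ℝ U ‖D‖ ≤ algebraMap ℝ U c := algebraMap_mono U hc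
  refine (h1.trans h2).trans (le_of_eq ?_)
  rw [Algebra.algebraMap_eq_smul_one]
  rfl

theorem up_est {a E d : U} {θ ε1 ε2 : ℝ} (hθ : 0 ≤ θ) (hε1 : 0 ≤ ε1) (ha : Pos a) (ha1 : ‖a‖ ≤ 1)
    (hd : Pos d) (hd1 : ‖d‖ ≤ 1) (hE : Pos (E + (ε1 : ℂ) • (1 : U) - (θ : ℂ) • a))
    (hdE : ‖E - d * E‖ ≤ ε2) : θ * ‖a - d * a‖ ^ 2 ≤ 2 * ε2 + 4 * ε1 := by
  obtain ⟨b, hb⟩ := ha
  have hn1 : ‖(1 : U)‖ ≤ 1 := J_COR.norm_one_le
  have hn2 : ‖1 - d‖ ≤ 2 := (norm_sub_le _ _).trans (by linarith)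
  have hs : star (1 - d) = 1 - d := by rw [star_sub, star_one, hd.sa]
  have hE2 := hE.conj (1 - d)
  rw [hs] at hE2
  have e1 : (1 - d) * (E + (ε1 : ℂ) • (1 : U) - (θ : ℂ) • a) * (1 - d)
      = ((E - d * E) * (1 - d) + (ε1 : ℂ) • ((1 - d) * (1 - d)))
        - (θ : ℂ) • ((1 - d) * a * (1 - d)) := by
    have e0 : E - d * E = (1 - d) * E := by rw [sub_mul, one_mul]
    rw [e0]
    generalize (1 - d) = c
    rw [mul_sub, mul_add, sub_mul, add_mul, mul_smul_comm, mul_smul_comm, mul_one,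
      smul_mul_assoc, smul_mul_assoc]
  rw [e1] at hE2
  have hp : Pos ((θ : ℂ) • ((1 - d) * a * (1 - d))) := by
    refine Pos.smul ?_ hθ
    have := (show Pos a from ⟨b, hb⟩).conj (1 - d)
    rwa [hs] at this
  have h1 := hp.norm_le hE2
  have h2 : ‖(E - d * E) * (1 - d) + (ε1 : ℂ) • ((1 - d) * (1 - d))‖ ≤ 2 * ε2 + 4 * ε1 := by
    refine (norm_add_le _ _).trans ?_
    have h3 : ‖(E - d * E) * (1 - d)‖ ≤ ε2 * 2 :=
      (norm_mul_le _ _).trans (mul_le_mul hdE hn2 (norm_nonneg _) ((norm_nonneg _).trans hdE))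
    have h4 : ‖(ε1 : ℂ) • ((1 - d) * (1 - d))‖ ≤ ε1 * (2 * 2) := by
      rw [norm_smul, Complex.norm_real, Real.norm_of_nonneg hε1]
      refine mul_le_mul_of_nonneg_left ?_ hε1
      exact (norm_mul_le _ _).trans (mul_le_mul hn2 hn2 (norm_nonneg _) (by norm_num))
    linarith
  have h3 : ‖(θ : ℂ) • ((1 - d) * a * (1 - d))‖ = θ * ‖(1 - d) * star b‖ ^ 2 := by
    rw [norm_smul, Complex.norm_real, Real.norm_of_nonneg hθ]
    congr 1
    rw [pow_two, ← CStarRing.norm_self_mul_star, star_mul, star_star, hs, hb]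
    simp only [mul_assoc]
  have h4 : ‖a - d * a‖ ^ 2 ≤ ‖(1 - d) * star b‖ ^ 2 := by
    have e2 : a - d * a = (1 - d) * star b * b := by
      rw [mul_assoc, ← hb, sub_mul, one_mul]
    have hb1 : ‖b‖ ≤ 1 := by
      have h5 : ‖b‖ * ‖b‖ ≤ 1 := by
        rw [← CStarRing.norm_star_mul_self, ← hb]; exact ha1
      nlinarith [norm_nonneg b]
    have h6 : ‖a - d * a‖ ≤ ‖(1 - d) * star b‖ := by
      rw [e2]
      calc ‖(1 - d) * star b * b‖ ≤ ‖(1 - d) * star b‖ * ‖b‖ := norm_mul_le _ _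
        _ ≤ ‖(1 - d) * star b‖ * 1 := by gcongr
        _ = _ := mul_one _
    gcongr
  calc θ * ‖a - d * a‖ ^ 2 ≤ θ * ‖(1 - d) * star b‖ ^ 2 := by gcongr
    _ = ‖(θ : ℂ) • ((1 - d) * a * (1 - d))‖ := h3.symm
    _ ≤ _ := h1.trans h2

end up

section row

variable {A : Type} [NonUnitalCStarAlgebra A]

theorem norm_one (K : FDA) : ‖(1 : K.alg)‖ ≤ 1 := J_COR.norm_one_le

theorem row_part (hROW : StROW) (K : FDA) (φ : K.alg →ₗ[ℂ] A) (h1 : IsCPC φ)
    (h2 : IsOrderZero φ) {ε : ℝ} (hε : 0 < ε) :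
    ∃ (x : ∀ l : K.ι, K.n l → A) (k : K.ι → A), IsRow K x k 0 ∧ (∀ l, Pos (k l)) ∧
      ‖rowMap K x 1‖ ≤ 1 ∧ ∀ y, ‖rowMap K x y - φ y‖ ≤ 2 * ε * ‖y‖ := by
  obtain ⟨x, k, hr, hk, hx⟩ := hROW.2.2 K A φ ε hε h1 h2
  set c : ℝ := Real.sqrt (1 / (1 + ε)) with hc
  have hc0 : 0 ≤ c := Real.sqrt_nonneg _
  have hc2 : c * c = 1 / (1 + ε) := Real.mul_self_sqrt (by positivity)
  have e1 : ∀ y, rowMap K (fun l i => (c : ℂ) • x l i) y = ((1 / (1 + ε) : ℝ) : ℂ) • rowMap K x y := by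
    intro y
    change ∑ l, ∑ i, ∑ j, y l i j • ((c : ℂ) • x l i * star ((c : ℂ) • x l j))
      = ((1 / (1 + ε) : ℝ) : ℂ) • ∑ l, ∑ i, ∑ j, y l i j • (x l i * star (x l j))
    simp only [Finset.smul_sum]
    refine Finset.sum_congr rfl fun l _ => Finset.sum_congr rfl fun i _ =>
      Finset.sum_congr rfl fun j _ => ?_
    rw [star_smul, Complex.star_def, Complex.conj_ofReal, smul_mul_smul_comm, ← Complex.ofReal_mul,
      hc2, smul_comm]
  have hb : ∀ y, ‖rowMap K x y‖ ≤ (1 + ε) * ‖y‖ := by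
    intro y
    have h3 : rowMap K x y = (rowMap K x y - φ y) + φ y := by abel
    rw [h3]
    refine (norm_add_le _ _).trans ?_
    have := hx y
    have := h1.2 y
    linarith
  have hsc : ∀ u : A, ‖((1 / (1 + ε) : ℝ) : ℂ) • u‖ = 1 / (1 + ε) * ‖u‖ := by
    intro u
    rw [norm_smul, Complex.norm_real, Real.norm_of_nonneg (by positivity)]
  refine ⟨fun l i => (c : ℂ) • x l i, fun l => ((1 / (1 + ε) : ℝ) : ℂ) • k l, ?_, ?_, ?_, ?_⟩
  · have e2 : ∀ u v : A, star ((c : ℂ) • u) * ((c : ℂ) • v)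
        = ((1 / (1 + ε) : ℝ) : ℂ) • (star u * v) := by
      intro u v
      rw [star_smul, Complex.star_def, Complex.conj_ofReal, smul_mul_smul_comm,
        ← Complex.ofReal_mul, hc2]
    refine ⟨fun l i => ?_, fun l i j hij => ?_, fun l l' i j hl => ?_⟩
    · rw [e2, ← smul_sub, hsc]
      have := hr.1 l i
      have h0 : ‖star (x l i) * x l i - k l‖ = 0 := le_antisymm this (norm_nonneg _)
      rw [h0, mul_zero]
    · rw [e2, hsc]
      have := hr.2.1 l i j hij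
      have h0 : ‖star (x l i) * x l j‖ = 0 := le_antisymm this (norm_nonneg _)
      rw [h0, mul_zero]
    · rw [e2, hsc]
      have := hr.2.2 l l' i j hl
      have h0 : ‖star (x l i) * x l' j‖ = 0 := le_antisymm this (norm_nonneg _)
      rw [h0, mul_zero]
  · exact fun l => (hk l).smul (by positivity)
  · rw [e1, hsc]
    have h3 : ‖rowMap K x 1‖ ≤ (1 + ε) * 1 :=
      (hb 1).trans (mul_le_mul_of_nonneg_left (norm_one K) (by positivity))
    calc 1 / (1 + ε) * ‖rowMap K x 1‖ ≤ 1 / (1 + ε) * ((1 + ε) * 1) := by gcongr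
      _ = 1 := by field_simp
  · intro y
    rw [e1]
    have h3 : ((1 / (1 + ε) : ℝ) : ℂ) • rowMap K x y - φ y
        = (rowMap K x y - φ y) - ((ε / (1 + ε) : ℝ) : ℂ) • rowMap K x y := by
      have h4 : ((1 / (1 + ε) : ℝ) : ℂ) = 1 - ((ε / (1 + ε) : ℝ) : ℂ) := by
        rw [← Complex.ofReal_one, ← Complex.ofReal_sub]
        congr 1
        field_simp
        ring
      rw [h4, sub_smul, one_smul]
      abel
    rw [h3]
    refine (norm_sub_le _ _).trans ?_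
    have h5 : ‖((ε / (1 + ε) : ℝ) : ℂ) • rowMap K x y‖ ≤ ε * ‖y‖ := by
      rw [norm_smul, Complex.norm_real, Real.norm_of_nonneg (by positivity)]
      calc ε / (1 + ε) * ‖rowMap K x y‖ ≤ ε / (1 + ε) * ((1 + ε) * ‖y‖) := by
            gcongr; exact hb y
        _ = ε * ‖y‖ := by field_simp
    have := hx y
    linarith

end row

section her

variable {H A : Type} [NonUnitalCStarAlgebra H] [NonUnitalCStarAlgebra A]

theorem her_map {ι : H →⋆ₙₐ[ℂ] A} (hι : IsHer ι) (K : FDA) (e : H) (he : Pos e)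
    (z : ∀ l : K.ι, K.n l → A)
    (hz : ∀ l i, z l i ∈ closure (Set.range fun a : A => ι e * a)) :
    ∃ φ : K.alg →ₗ[ℂ] H, ∀ y, ι (φ y) = rowMap K z y := by
  have hcl : IsClosed (Set.range ι) :=
    (AddMonoidHomClass.isometry_of_norm ι (hom_norm ι hι.inj)).isClosedEmbedding.isClosed_range
  have h1 : ∀ l i j, z l i * star (z l j) ∈ Set.range ι := by
    intro l i j
    rw [← hcl.closure_eq]
    refine map_mem_closure₂ (f := fun u v : A => u * star v)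
      (continuous_fst.mul (continuous_star.comp continuous_snd)) (hz l i) (hz l j) ?_
    rintro _ ⟨a, rfl⟩ _ ⟨b, rfl⟩
    obtain ⟨h, hh⟩ := hι.her e e (a * star b)
    refine ⟨h, ?_⟩
    have : star (ι e) = ι e := by rw [← map_star, he.sa]
    rw [hh]
    simp only [star_mul, this, mul_assoc]
  have h2 : ∀ y, rowMap K z y ∈ LinearMap.range (ι : H →ₗ[ℂ] A) := by
    intro y
    change ∑ l, ∑ i, ∑ j, y l i j • (z l i * star (z l j)) ∈ _
    refine Submodule.sum_mem _ fun l _ => Submodule.sum_mem _ fun i _ =>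
      Submodule.sum_mem _ fun j _ => Submodule.smul_mem _ _ ?_
    obtain ⟨h, hh⟩ := h1 l i j
    exact ⟨h, hh⟩
  choose f hf using h2
  have hf' : ∀ y, ι (f y) = rowMap K z y := hf
  refine ⟨{ toFun := f, map_add' := ?_, map_smul' := ?_ }, hf'⟩
  · intro x y
    apply hι.inj
    rw [map_add, hf', hf', hf', map_add]
  · intro c y
    apply hι.inj
    rw [RingHom.id_apply, map_smul, hf', hf', map_smul]

end her

theorem dom {A : Type} [NonUnitalCStarAlgebra A] {J : Type} [Fintype J] [DecidableEq J]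
    (f : J → A) (hf : ∀ j, Pos (f j)) (j : J) (a : A) (h : Pos (f j - a)) :
    Pos (∑ i, f i - a) := by
  have e1 : ∑ i, f i - a = (f j - a) + ∑ i ∈ Finset.univ.erase j, f i := by
    rw [← Finset.add_sum_erase Finset.univ f (Finset.mem_univ j)]
    abel
  rw [e1]
  exact h.add (Pos.sum _ fun i _ => hf i)

theorem up_A {A : Type} [NonUnitalCStarAlgebra A] {a E d S : A} {θ ε1 τ : ℝ} (hθ : 0 ≤ θ)
    (hε1 : 0 ≤ ε1) (ha : Pos a) (ha1 : ‖a‖ ≤ 1) (hd : Pos d) (hd1 : ‖d‖ ≤ 1)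
    (hS : star (S - E) = S - E) (hSE : ‖S - E‖ ≤ ε1) (hSa : Pos (S - (θ : ℂ) • a))
    (hdE : ‖E - d * E‖ ≤ τ) : θ * ‖a - d * a‖ ^ 2 ≤ 2 * τ + 4 * ε1 := by
  have h1 : Pos ((ε1 : ℂ) • (1 : Unitization ℂ A) - ((S - E : A) : Unitization ℂ A)) := by
    refine pos_of_norm ?_ ?_
    · rw [← Unitization.inr_star, hS]
    · rw [jE_norm]; exact hSE
  have h2 : Pos (((S - (θ : ℂ) • a : A) : Unitization ℂ A)) := hSa.map (jE A)
  have h3 := h1.add h2
  have e1 : (ε1 : ℂ) • (1 : Unitization ℂ A) - ((S - E : A) : Unitization ℂ A)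
      + ((S - (θ : ℂ) • a : A) : Unitization ℂ A)
      = (E : Unitization ℂ A) + (ε1 : ℂ) • (1 : Unitization ℂ A)
        - (θ : ℂ) • (a : Unitization ℂ A) := by
    rw [Unitization.inr_sub, Unitization.inr_sub, Unitization.inr_smul]
    abel
  rw [e1] at h3
  have h4 := up_est (U := Unitization ℂ A) (a := (a : Unitization ℂ A))
    (E := (E : Unitization ℂ A)) (d := (d : Unitization ℂ A)) (ε2 := τ) hθ hε1 (ha.map (jE A))
    (by rw [jE_norm]; exact ha1) (hd.map (jE A)) (by rw [jE_norm]; exact hd1) h3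
    (by rw [← Unitization.inr_mul, ← Unitization.inr_sub, jE_norm]; exact hdE)
  rwa [← Unitization.inr_mul, ← Unitization.inr_sub, jE_norm] at h4

theorem t_HER (hL1 : StL1) (hROW : StROW) (hT1H : StT1H) (hCOR : StCOR) : StHER := by
  classical
  intro H A _ _ ι hι J _ hA G ε hε
  set N : ℝ := (Fintype.card J : ℝ) with hN
  have hN0 : 0 ≤ N := Nat.cast_nonneg _
  obtain ⟨M, hM1, hM⟩ : ∃ M : ℝ, 1 ≤ M ∧ ∀ g ∈ G, ‖g‖ ≤ M := by
    refine ⟨1 + ∑ g ∈ G, ‖g‖, ?_, fun g hg => ?_⟩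
    · have : 0 ≤ ∑ g ∈ G, ‖g‖ := Finset.sum_nonneg fun _ _ => norm_nonneg _
      linarith
    · have : ‖g‖ ≤ ∑ g ∈ G, ‖g‖ :=
        Finset.single_le_sum (f := fun g : H => ‖g‖) (fun _ _ => norm_nonneg _) hg
      linarith
  have hM0 : 0 < M := by linarith
  set η : ℝ := ε / (8 * (N + 1) * M) with hη
  have hη0 : 0 < η := by positivity
  obtain ⟨δ, hδ, hT⟩ := hT1H η hη0
  set θ : ℝ := (η / M) ^ 2 with hθd
  have hθ : 0 < θ := by positivity
  have hsθ : Real.sqrt θ = η / M := Real.sqrt_sq (by positivity)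
  obtain ⟨e, he, he1, heG⟩ := J_QC.exists_unit G η hη0
  set τ : ℝ := θ * δ ^ 2 / 24 with hτd
  have hτ : 0 < τ := by positivity
  obtain ⟨e2, he2, he21, he2e⟩ := J_QC.exists_unit {e * e} τ hτ
  have hd := (he2e (e * e) (Finset.mem_singleton_self _)).1
  set ε1 : ℝ := min τ η with hε1d
  have hε1 : 0 < ε1 := lt_min hτ hη0
  obtain ⟨F, ψ, φ, hψ, hφ, hap⟩ := hA (insert (ι (e * e)) (G.image ι)) ε1 hε1
  have hE : Pos (e * e) := ⟨e, by rw [he.sa]⟩
  have hapE : ‖∑ j, φ j (ψ j (ι (e * e))) - ι (e * e)‖ ≤ ε1 :=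
    hap _ (by simp)
  have hapG : ∀ g ∈ G, ‖∑ j, φ j (ψ j (ι g)) - ι g‖ ≤ ε1 := fun g hg =>
    hap _ (by
      rw [Finset.coe_insert, Finset.coe_image]
      exact Or.inr ⟨g, hg, rfl⟩)
  have hhp : ∀ j, Pos (ψ j (ι (e * e))) := fun j => Helper7_ND.IsCP.pos (hψ j).1 (hE.map ι)
  choose q hq hq1 hq2 using fun j => spec_prj (J_FD.t_FD (F j)).2 (ψ j (ι (e * e))) (hhp j) θ hθ
  choose K δ' υ hδ' hυ hυ1 using fun j => hCOR (F j) (q j) (hq j)
  -- the order zero maps into `A`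
  have hφ'1 : ∀ j, IsCPC (φ j ∘ₗ (υ j : (K j).alg →ₗ[ℂ] (F j).alg)) := fun j =>
    (hφ j).1.comp (isCPC_hom (υ j) _ fun _ => rfl)
  have hφ'2 : ∀ j, IsOrderZero (φ j ∘ₗ (υ j : (K j).alg →ₗ[ℂ] (F j).alg)) := by
    intro j a b hab
    have h1 := (hφ j).2 (υ j a) (υ j b) (by
      rw [← map_star, ← map_mul, ← map_star, ← map_mul, ← map_mul, hab, map_zero])
    change φ j (υ j (star a * a)) * φ j (υ j (star b * b)) = 0
    rw [map_mul (υ j), map_mul (υ j), map_star, map_star]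
    exact h1
  have hqp : ∀ j, Pos (q j) := fun j => ⟨q j, by rw [(hq j).1, (hq j).2]⟩
  have ha0 : ∀ j, Pos (φ j (q j)) := fun j => Helper7_ND.IsCP.pos (hφ j).1.1 (hqp j)
  have ha1 : ∀ j, ‖φ j (q j)‖ ≤ 1 := fun j =>
    ((hφ j).1.2 _).trans (J_RF.prj_norm (hq j))
  have hdp : Pos (ι e2) := he2.map ι
  have hdn : ‖ι e2‖ ≤ 1 := by rw [hom_norm ι hι.inj]; exact he21
  have hest : ∀ j, ‖φ j (q j) - ι e2 * φ j (q j)‖ ≤ δ / 2 := by
    intro j
    have hpos : ∀ i, Pos (φ i (ψ i (ι (e * e)))) := fun i =>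
      Helper7_ND.IsCP.pos (hφ i).1.1 (hhp i)
    have h1 : Pos (∑ i, φ i (ψ i (ι (e * e))) - (θ : ℂ) • φ j (q j)) := by
      refine dom _ hpos j _ ?_
      have := Helper7_ND.IsCP.pos (hφ j).1.1 (hq1 j)
      rwa [map_sub, map_smul] at this
    have h2 := up_A (τ := τ) hθ.le hε1.le (ha0 j) (ha1 j) hdp hdn
      (by rw [star_sub, (Pos.sum Finset.univ fun i _ => hpos i).sa, (hE.map ι).sa]) hapE h1
      (by rw [← map_mul, ← map_sub, hom_norm ι hι.inj, norm_sub_rev]; exact hd)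
    have h3 : 2 * τ + 4 * ε1 ≤ θ * (δ / 2) ^ 2 := by
      have : ε1 ≤ τ := min_le_left _ _
      have h4 : θ * (δ / 2) ^ 2 = 6 * τ := by rw [hτd]; ring
      rw [h4]; linarith
    have h5 := (mul_le_mul_iff_right₀ hθ).1 (h2.trans h3)
    exact (sq_le_sq₀ (norm_nonneg _) (by positivity)).1 h5
  -- rows
  set ε2 : ℝ := min (δ / 8) η with hε2d
  have hε2 : 0 < ε2 := lt_min (by positivity) hη0
  choose x k hr hk hx1 hxy using fun j => row_part hROW (K j) _ (hφ'1 j) (hφ'2 j) hε2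
  have hrow : ∀ j, ‖rowMap (K j) (x j) 1 - ι e2 * rowMap (K j) (x j) 1‖ ≤ δ := by
    intro j
    have h1 := hxy j 1
    have h2 : (φ j ∘ₗ (υ j : (K j).alg →ₗ[ℂ] (F j).alg)) 1 = φ j (q j) := by
      change φ j (υ j 1) = _
      rw [hυ1]
    rw [h2] at h1
    have h3 : ‖rowMap (K j) (x j) 1 - φ j (q j)‖ ≤ 2 * ε2 :=
      h1.trans (by
        have := norm_one (K j)
        calc 2 * ε2 * ‖(1 : (K j).alg)‖ ≤ 2 * ε2 * 1 := by gcongr
          _ = 2 * ε2 := mul_one _)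
    generalize rowMap (K j) (x j) 1 = s at h3
    have e1 : s - ι e2 * s = (φ j (q j) - ι e2 * φ j (q j)) +
        ((s - φ j (q j)) - ι e2 * (s - φ j (q j))) := by
      rw [mul_sub]; abel
    rw [e1]
    have h4 : ‖ι e2 * (s - φ j (q j))‖ ≤ 1 * (2 * ε2) :=
      (norm_mul_le _ _).trans (mul_le_mul hdn h3 (norm_nonneg _) zero_le_one)
    have h5 : ε2 ≤ δ / 8 := min_le_left _ _
    calc _ ≤ ‖φ j (q j) - ι e2 * φ j (q j)‖ +
          (‖s - φ j (q j)‖ + ‖ι e2 * (s - φ j (q j))‖) :=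
          (norm_add_le _ _).trans (add_le_add le_rfl (norm_sub_le _ _))
      _ ≤ δ / 2 + (2 * ε2 + 1 * (2 * ε2)) := add_le_add (hest j) (add_le_add h3 h4)
      _ ≤ δ := by linarith
  choose z k' hz0 hk' hz1 hzx hzc using fun j =>
    hT (K j) A (x j) (k j) (ι e2) (hr j) (hk j) (hx1 j) hdp hdn (hrow j)
  choose φH hφH using fun j => her_map hι (K j) e2 he2 (z j) (hzc j)
  refine ⟨K, fun j => δ' j ∘ₗ (ψ j ∘ₗ (ι : H →ₗ[ℂ] A)), φH, fun j => ?_, fun j => ⟨?_, ?_⟩, ?_⟩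
  · exact (hδ' j).comp ((hψ j).comp (isCPC_hom ι _ fun _ => rfl))
  · have h1 : IsCP (φH j) := by
      refine isCP_of_inj ι hι.inj _ ?_
      have : (ι : H →ₗ[ℂ] A) ∘ₗ φH j = rowMap (K j) (z j) := LinearMap.ext fun y => hφH j y
      rw [this]
      exact hROW.1 _ _ _
    refine h1.isCPC ?_
    rw [← hom_norm ι hι.inj, hφH]
    exact hz1 j
  · intro a b hab
    apply hι.inj
    rw [map_mul, hφH, hφH, map_zero]
    exact hROW.2.1 (K j) A (z j) (k' j) (hz0 j) a b hab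
  · intro g hg
    have hg' : g ∈ G := hg
    have hgM : ‖ι g‖ ≤ M := by rw [hom_norm ι hι.inj]; exact hM g hg'
    have hterm : ∀ j, ‖ι (φH j (δ' j (ψ j (ι g)))) - φ j (ψ j (ι g))‖ ≤ 7 * η * M := by
      intro j
      have hw : ‖ψ j (ι g)‖ ≤ M := ((hψ j).2 _).trans hgM
      have hY : ‖δ' j (ψ j (ι g))‖ ≤ M := ((hδ' j).2 _).trans hw
      have h1 := hzx j (δ' j (ψ j (ι g)))
      have h2 := hxy j (δ' j (ψ j (ι g)))
      have h3 : ‖φ j (q j * ψ j (ι g) * q j) - φ j (ψ j (ι g))‖ ≤ 4 * η := by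
        rw [← map_sub]
        refine ((hφ j).1.2 _).trans ?_
        have h4 := cut_q (hψ j) (he.map ι) (ι g) (hq j) (θ := θ) (η := η)
          (by rw [← map_mul]; exact hq2 j)
          (by rw [← map_mul, ← map_sub, hom_norm ι hι.inj]; exact (heG g hg').1)
          (by rw [← map_mul, ← map_sub, hom_norm ι hι.inj]; exact (heG g hg').2)
        refine h4.trans ?_
        have h5 : Real.sqrt θ * ‖ι g‖ ≤ η := by
          rw [hsθ]
          calc η / M * ‖ι g‖ ≤ η / M * M := by gcongr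
            _ = η := div_mul_cancel₀ _ hM0.ne'
        linarith
      have e2' : (φ j ∘ₗ (υ j : (K j).alg →ₗ[ℂ] (F j).alg)) (δ' j (ψ j (ι g)))
          = φ j (q j * ψ j (ι g) * q j) := by
        change φ j (υ j (δ' j (ψ j (ι g)))) = _
        rw [hυ]
      rw [e2'] at h2
      rw [hφH]
      have h6 : ε2 ≤ η := min_le_right _ _
      calc ‖rowMap (K j) (z j) (δ' j (ψ j (ι g))) - φ j (ψ j (ι g))‖
          = ‖(rowMap (K j) (z j) (δ' j (ψ j (ι g))) - rowMap (K j) (x j) (δ' j (ψ j (ι g))))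
            + ((rowMap (K j) (x j) (δ' j (ψ j (ι g))) - φ j (q j * ψ j (ι g) * q j))
            + (φ j (q j * ψ j (ι g) * q j) - φ j (ψ j (ι g))))‖ := by
              congr 1; abel
        _ ≤ η * ‖δ' j (ψ j (ι g))‖ + (2 * ε2 * ‖δ' j (ψ j (ι g))‖ + 4 * η) :=
            (norm_add_le _ _).trans (add_le_add h1 ((norm_add_le _ _).trans (add_le_add h2 h3)))
        _ ≤ η * M + (2 * η * M + 4 * η * M) := by
            have : 4 * η ≤ 4 * η * M := by nlinarith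
            gcongr
        _ = 7 * η * M := by ring
    rw [← hom_norm ι hι.inj, map_sub, map_sum]
    change ‖∑ j, ι (φH j (δ' j (ψ j (ι g)))) - ι g‖ ≤ ε
    have e3 : ∑ j, ι (φH j (δ' j (ψ j (ι g)))) - ι g
        = ∑ j, (ι (φH j (δ' j (ψ j (ι g)))) - φ j (ψ j (ι g)))
          + (∑ j, φ j (ψ j (ι g)) - ι g) := by
      rw [Finset.sum_sub_distrib]; abel
    rw [e3]
    have h7 : ‖∑ j, (ι (φH j (δ' j (ψ j (ι g)))) - φ j (ψ j (ι g)))‖ ≤ N * (7 * η * M) := by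
      refine (norm_sum_le _ _).trans ((Finset.sum_le_sum fun j _ => hterm j).trans ?_)
      rw [Finset.sum_const, Finset.card_univ, nsmul_eq_mul]
    have h8 : ε1 ≤ η := min_le_right _ _
    have h9 : ε = 8 * (N + 1) * M * η := by
      rw [hη]; field_simp
    calc _ ≤ N * (7 * η * M) + η := (norm_add_le _ _).trans (add_le_add h7 ((hapG g hg').trans h8))
      _ ≤ N * (7 * η * M) + η * M := by nlinarith
      _ ≤ 8 * (N + 1) * M * η := by
        have : 0 ≤ N * (η * M) := by positivity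
        have : 0 ≤ η * M := by positivity
        nlinarith
      _ = ε := h9.symm

end Pool.Agent.Helper7_ND.J_HER
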