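import Pool.Agent.Helper7_ND.Stm5
import Pool.Agent.Helper7_ND.Rp
import Pool.Agent.Helper7_ND.J_QC

/-! # Generated hereditary subalgebras and ideals, annihilators, preimages of ideals -/

set_option autoImplicit false

open scoped Matrix.Norms.L2Operator ENNReal Matrix
open Pool.Agent.W659.EC

noncomputable section

namespace Pool.Agent.Helper7_ND.J_HG

/-- a closed star closed subalgebra is the range of an injective homomorphism -/
theorem build (A : Type) [NonUnitalCStarAlgebra A] (S : Set A) (h0 : (0 : A) ∈ S)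
    (hadd : ∀ x ∈ S, ∀ y ∈ S, x + y ∈ S) (hmul : ∀ x ∈ S, ∀ y ∈ S, x * y ∈ S)
    (hsmul : ∀ (c : ℂ), ∀ x ∈ S, c • x ∈ S) (hstar : ∀ x ∈ S, star x ∈ S) (hcl : IsClosed S) :
    ∃ (K : Type) (_ : NonUnitalCStarAlgebra K) (κ : K →⋆ₙₐ[ℂ] A), Function.Injective κ ∧
      Set.range κ = S := by
  let T : NonUnitalStarSubalgebra ℂ A :=
    { carrier := S
      zero_mem' := h0
      add_mem' := fun {x y} hx hy => hadd x hx y hy
      mul_mem' := fun {x y} hx hy => hmul x hx y hy
      smul_mem' := fun c x hx => hsmul c x hx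
      star_mem' := fun {x} hx => hstar x hx }
  have hT : IsClosed (T : Set A) := hcl
  refine ⟨T, NonUnitalStarSubalgebra.nonUnitalCStarAlgebra T,
    NonUnitalStarSubalgebraClass.subtype T, Subtype.val_injective, ?_⟩
  exact Subtype.range_coe

/-- factoring a homomorphism through an injective one -/
theorem factor {K J A : Type} [NonUnitalCStarAlgebra K] [NonUnitalCStarAlgebra J]
    [NonUnitalCStarAlgebra A] (j : J →⋆ₙₐ[ℂ] A) (hj : Function.Injective j) (g : K →⋆ₙₐ[ℂ] A)
    (hg : ∀ k, ∃ x, j x = g k) : ∃ ρ : K →⋆ₙₐ[ℂ] J, ∀ k, j (ρ k) = g k := by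
  choose r hr using hg
  refine ⟨{ toFun := r
            map_smul' := ?_
            map_zero' := ?_
            map_add' := ?_
            map_mul' := ?_
            map_star' := ?_ }, hr⟩
  · intro c x
    apply hj
    rw [hr, map_smul, map_smul, MonoidHom.id_apply, hr]
  · apply hj
    rw [hr, map_zero, map_zero]
  · intro x y
    apply hj
    rw [hr, map_add, map_add, hr, hr]
  · intro x y
    apply hj
    rw [hr, map_mul, map_mul, hr, hr]
  · intro x
    apply hj
    rw [hr, map_star, map_star, hr]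

theorem quot_cont (η : ℝ) (hη : 0 < η) : Continuous fun s : ℝ => s / (s ^ 2 + η) :=
  continuous_id.div (by fun_prop) fun s => by positivity

/-- elementary bound -/
theorem elem (η s : ℝ) (hη : 0 < η) : |s| * (η / (s ^ 2 + η)) ≤ Real.sqrt η := by
  have h1 : 0 < s ^ 2 + η := by positivity
  have h2 : 0 ≤ Real.sqrt η := Real.sqrt_nonneg _
  have h3 : Real.sqrt η ^ 2 = η := Real.sq_sqrt hη.le
  have h4 : |s| ^ 2 = s ^ 2 := sq_abs s
  rw [mul_div_assoc', div_le_iff₀ h1]
  have h5 : 0 ≤ (|s| - Real.sqrt η) ^ 2 := sq_nonneg _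
  have h6 : 0 ≤ |s| := abs_nonneg s
  nlinarith [mul_nonneg h2 h5, mul_nonneg h2 h6, mul_nonneg (mul_nonneg h2 h6) h6]

/-- `a = lim a x a` -/
theorem approx {A : Type} [NonUnitalCStarAlgebra A] (a : A) (ha : star a = a) (ε : ℝ)
    (hε : 0 < ε) : ∃ x : A, ‖a * x * a - a‖ ≤ ε := by
  have hsa : IsSelfAdjoint a := ha
  have hη : 0 < ε ^ 2 := by positivity
  have hc := quot_cont (ε ^ 2) hη
  set g : ℝ → ℝ := fun s => s / (s ^ 2 + ε ^ 2) with hg
  have hg0 : g 0 = 0 := by simp [hg]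
  refine ⟨cfcₙ g a, ?_⟩
  have c1 : ContinuousOn (fun s : ℝ => s * g s) (quasispectrum ℝ a) :=
    (continuous_id.mul hc).continuousOn
  have e : cfcₙ (fun s : ℝ => s * g s * s) a = a * cfcₙ g a * a := by
    rw [cfcₙ_mul (fun s : ℝ => s * g s) (fun s : ℝ => s) a c1 (by simp)
      continuousOn_id rfl, cfcₙ_mul (fun s : ℝ => s) g a continuousOn_id rfl hc.continuousOn hg0,
      cfcₙ_id' ℝ a]
  have c2 : ContinuousOn (fun s : ℝ => s * g s * s) (quasispectrum ℝ a) :=
    ((continuous_id.mul hc).mul continuous_id).continuousOn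
  have e2 : cfcₙ (fun s : ℝ => s * g s * s - s) a = a * cfcₙ g a * a - a := by
    rw [cfcₙ_sub (fun s : ℝ => s * g s * s) (fun s : ℝ => s) a c2 (by simp)
      continuousOn_id rfl, e, cfcₙ_id' ℝ a]
  rw [← e2]
  refine norm_cfcₙ_le fun s _ => ?_
  have h1 : 0 < s ^ 2 + ε ^ 2 := by positivity
  have h2 : s * g s * s - s = -(s * (ε ^ 2 / (s ^ 2 + ε ^ 2))) := by
    rw [hg]; field_simp; ring
  rw [h2, norm_neg, norm_mul, Real.norm_eq_abs, Real.norm_eq_abs,
    abs_of_pos (by positivity : 0 < ε ^ 2 / (s ^ 2 + ε ^ 2))]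
  have := elem (ε ^ 2) s hη
  rwa [Real.sqrt_sq hε.le] at this

theorem t_HG : StHG := by
  intro A _ a ha
  have hsa : star a = a := ha.sa
  let L : A →ₗ[ℂ] A :=
    { toFun := fun x => a * x * a
      map_add' := fun x y => by simp only [mul_add, add_mul]
      map_smul' := fun c x => by simp only [mul_smul_comm, smul_mul_assoc, RingHom.id_apply] }
  have hL : (LinearMap.range L : Set A) = Set.range fun x : A => a * x * a := by
    ext y; simp [L]
  let M : Submodule ℂ A := (LinearMap.range L).topologicalClosure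
  have hM : (M : Set A) = closure (Set.range fun x : A => a * x * a) := by
    rw [← hL]; rfl
  have hmem : ∀ y, y ∈ M ↔ y ∈ closure (Set.range fun x : A => a * x * a) := by
    intro y; rw [← hM]; rfl
  have hher : ∀ h ∈ M, ∀ h' ∈ M, ∀ x : A, h * x * h' ∈ M := by
    intro h hh h' hh' x
    rw [hmem] at hh hh' ⊢
    refine map_mem_closure₂ (f := fun h h' : A => h * x * h') (by fun_prop) hh hh' ?_
    rintro _ ⟨y, rfl⟩ _ ⟨y', rfl⟩
    exact ⟨y * a * x * a * y', by simp only [mul_assoc]⟩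
  have hmul : ∀ h ∈ M, ∀ h' ∈ M, h * h' ∈ M := by
    intro h hh h' hh'
    rw [hmem] at hh hh' ⊢
    refine map_mem_closure₂ continuous_mul hh hh' ?_
    rintro _ ⟨y, rfl⟩ _ ⟨y', rfl⟩
    exact ⟨y * a * a * y', by simp only [mul_assoc]⟩
  have hstar : ∀ h ∈ M, star h ∈ M := by
    intro h hh
    rw [hmem] at hh ⊢
    refine map_mem_closure continuous_star hh ?_
    rintro _ ⟨y, rfl⟩
    exact ⟨star y, by simp only [star_mul, hsa, mul_assoc]⟩
  obtain ⟨K, iK, κ, hκ, hr⟩ := build A (M : Set A) M.zero_mem (fun x hx y hy => M.add_mem hx hy)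
    hmul (fun c x hx => M.smul_mem c hx) hstar (Submodule.isClosed_topologicalClosure _)
  refine ⟨K, iK, κ, ⟨hκ, ?_⟩, hr.trans hM, ?_⟩
  · intro h h' x
    have h1 : κ h ∈ (M : Set A) := hr ▸ ⟨h, rfl⟩
    have h2 : κ h' ∈ (M : Set A) := hr ▸ ⟨h', rfl⟩
    have h3 : κ h * x * κ h' ∈ (M : Set A) := hher _ h1 _ h2 x
    rw [← hr] at h3
    exact h3
  · have h1 : a ∈ (M : Set A) := by
      rw [hM, Metric.mem_closure_iff]
      intro ε hε
      obtain ⟨x, hx⟩ := approx a hsa (ε / 2) (half_pos hε)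
      refine ⟨_, ⟨x, rfl⟩, ?_⟩
      rw [dist_eq_norm, norm_sub_rev]
      linarith
    rw [← hr] at h1
    exact h1

/-- closed two-sided ideals are star closed -/
theorem ideal_star {A : Type} [NonUnitalCStarAlgebra A] (S : Set A) (hcl : IsClosed S)
    (hl : ∀ e : A, ∀ x ∈ S, e * x ∈ S) (hr : ∀ e : A, ∀ x ∈ S, x * e ∈ S) (s : A) (hs : s ∈ S) :
    star s ∈ S := by
  have hu : star s * s ∈ S := hl _ _ hs
  have hsa : IsSelfAdjoint (star s * s) := IsSelfAdjoint.star_mul_self s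
  rw [← hcl.closure_eq, Metric.mem_closure_iff]
  intro ε hε
  -- the parameter
  have hη : 0 < (ε ^ 2 / 4) ^ 2 := by positivity
  set η : ℝ := (ε ^ 2 / 4) ^ 2 with hηd
  have hc := quot_cont η hη
  set g : ℝ → ℝ := fun t => t / (t ^ 2 + η) with hg
  have hg0 : g 0 = 0 := by simp [hg]
  set u : A := star s * s with hud
  set h : ℝ → ℝ := fun t => t * g t with hh
  have hch : Continuous h := continuous_id.mul hc
  have hh0 : h 0 = 0 := by simp [hh]
  set p : A := cfcₙ h u with hp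
  have ep : p = u * cfcₙ g u := by
    rw [hp, hh, cfcₙ_mul (fun s : ℝ => s) g u continuousOn_id rfl hc.continuousOn hg0,
      cfcₙ_id' ℝ u]
  have hpS : p ∈ S := by rw [ep]; exact hr _ _ hu
  have hpsa : star p = p := (cfcₙ_predicate h u : IsSelfAdjoint (cfcₙ h u))
  refine ⟨p * star s, hr _ _ hpS, ?_⟩
  rw [dist_eq_norm, norm_sub_rev]
  have e1 : (p * star s - star s) * star (p * star s - star s) =
      p * u * p - p * u - u * p + u := by
    rw [star_sub, star_mul, star_star, hpsa, hud]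
    noncomm_ring
  have e2 : cfcₙ (fun t : ℝ => h t * t * h t - h t * t - t * h t + t) u =
      p * u * p - p * u - u * p + u := by
    have k1 : cfcₙ (fun t : ℝ => h t * t) u = p * u := by
      rw [cfcₙ_mul h (fun t : ℝ => t) u hch.continuousOn hh0 continuousOn_id rfl, cfcₙ_id' ℝ u]
    have k2 : cfcₙ (fun t : ℝ => t * h t) u = u * p := by
      rw [cfcₙ_mul (fun t : ℝ => t) h u continuousOn_id rfl hch.continuousOn hh0, cfcₙ_id' ℝ u]
    have k3 : cfcₙ (fun t : ℝ => h t * t * h t) u = p * u * p := by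
      rw [cfcₙ_mul (fun t : ℝ => h t * t) h u (hch.mul continuous_id).continuousOn (by simp)
        hch.continuousOn hh0, k1]
    rw [cfcₙ_add (fun t : ℝ => h t * t * h t - h t * t - t * h t) (fun t : ℝ => t) u
        ((((hch.mul continuous_id).mul hch).sub (hch.mul continuous_id)).sub
          (continuous_id.mul hch)).continuousOn (by simp [hh0]) continuousOn_id rfl,
      cfcₙ_sub (fun t : ℝ => h t * t * h t - h t * t) (fun t : ℝ => t * h t) u
        (((hch.mul continuous_id).mul hch).sub (hch.mul continuous_id)).continuousOn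
        (by simp [hh0]) (continuous_id.mul hch).continuousOn (by simp),
      cfcₙ_sub (fun t : ℝ => h t * t * h t) (fun t : ℝ => h t * t) u
        ((hch.mul continuous_id).mul hch).continuousOn (by simp [hh0])
        (hch.mul continuous_id).continuousOn (by simp), k1, k2, k3, cfcₙ_id' ℝ u]
  have h4 : ‖p * u * p - p * u - u * p + u‖ ≤ ε ^ 2 / 4 := by
    rw [← e2]
    refine norm_cfcₙ_le fun t _ => ?_
    have h1 : 0 < t ^ 2 + η := by positivity
    have h2 : h t * t * h t - h t * t - t * h t + t =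
        (t * (η / (t ^ 2 + η))) * (η / (t ^ 2 + η)) := by
      rw [hh, hg]; field_simp; ring
    have h3 : η / (t ^ 2 + η) ≤ 1 := by
      rw [div_le_one h1]; nlinarith [sq_nonneg t]
    have h3' : 0 < η / (t ^ 2 + η) := by positivity
    have h5 := elem η t hη
    have h6 : Real.sqrt η = ε ^ 2 / 4 := by rw [hηd, Real.sqrt_sq (by positivity)]
    rw [h6] at h5
    rw [h2, norm_mul, norm_mul, Real.norm_eq_abs, Real.norm_eq_abs, abs_of_pos h3']
    have h7 : 0 ≤ |t| * (η / (t ^ 2 + η)) := by positivity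
    nlinarith
  have h5 : ‖p * star s - star s‖ ^ 2 ≤ (ε / 2) ^ 2 := by
    have := CStarRing.norm_self_mul_star (x := p * star s - star s)
    rw [e1] at this
    rw [pow_two, ← this]
    calc _ ≤ ε ^ 2 / 4 := h4
      _ = (ε / 2) ^ 2 := by ring
  have h6 : ‖p * star s - star s‖ ≤ ε / 2 := le_of_sq_le_sq h5 (by positivity)
  linarith

/-- a closed two-sided ideal is the range of an `IsIdeal` homomorphism -/
theorem build_ideal (A : Type) [NonUnitalCStarAlgebra A] (S : Set A) (h0 : (0 : A) ∈ S)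
    (hadd : ∀ x ∈ S, ∀ y ∈ S, x + y ∈ S) (hsmul : ∀ (c : ℂ), ∀ x ∈ S, c • x ∈ S)
    (hl : ∀ e : A, ∀ x ∈ S, e * x ∈ S) (hr : ∀ e : A, ∀ x ∈ S, x * e ∈ S) (hcl : IsClosed S) :
    ∃ (K : Type) (_ : NonUnitalCStarAlgebra K) (κ : K →⋆ₙₐ[ℂ] A), IsIdeal κ ∧
      Set.range κ = S := by
  obtain ⟨K, iK, κ, hκ, hra⟩ := build A S h0 hadd (fun x hx y hy => hr y x hx) hsmul
    (ideal_star S hcl hl hr) hcl
  refine ⟨K, iK, κ, ⟨hκ, ?_, ?_⟩, hra⟩
  · intro e i
    have h1 : κ i ∈ S := hra ▸ ⟨i, rfl⟩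
    have h2 := hl e _ h1
    rw [← hra] at h2
    exact h2
  · intro e i
    have h1 : κ i ∈ S := hra ▸ ⟨i, rfl⟩
    have h2 := hr e _ h1
    rw [← hra] at h2
    exact h2

theorem t_IG : StIG := by
  intro A _ a
  let N : Submodule ℂ A := Submodule.span ℂ {z : A | ∃ x y : A, z = x * a * y}
  let M : Submodule ℂ A := N.topologicalClosure
  have hM : (M : Set A) = closure (N : Set A) := rfl
  have hmem : ∀ y, y ∈ (M : Set A) ↔ y ∈ closure (N : Set A) := fun y => Iff.rfl
  have hNl : ∀ e : A, ∀ x ∈ (N : Set A), e * x ∈ (N : Set A) := by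
    intro e x hx
    refine Submodule.span_induction (p := fun x _ => e * x ∈ N) ?_ ?_ ?_ ?_ hx
    · rintro _ ⟨z, y, rfl⟩
      exact Submodule.subset_span ⟨e * z, y, by simp only [mul_assoc]⟩
    · rw [mul_zero]; exact N.zero_mem
    · intro y z _ _ hy hz
      rw [mul_add]; exact N.add_mem hy hz
    · intro c y _ hy
      rw [mul_smul_comm]; exact N.smul_mem c hy
  have hNr : ∀ e : A, ∀ x ∈ (N : Set A), x * e ∈ (N : Set A) := by
    intro e x hx
    refine Submodule.span_induction (p := fun x _ => x * e ∈ N) ?_ ?_ ?_ ?_ hx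
    · rintro _ ⟨z, y, rfl⟩
      exact Submodule.subset_span ⟨z, y * e, by simp only [mul_assoc]⟩
    · rw [zero_mul]; exact N.zero_mem
    · intro y z _ _ hy hz
      rw [add_mul]; exact N.add_mem hy hz
    · intro c y _ hy
      rw [smul_mul_assoc]; exact N.smul_mem c hy
  obtain ⟨K, iK, κ, hκ, hra⟩ := build_ideal A (M : Set A) M.zero_mem
    (fun x hx y hy => M.add_mem hx hy) (fun c x hx => M.smul_mem c hx)
    (fun e x hx => map_mem_closure (f := fun x => e * x) (by fun_prop) hx (hNl e))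
    (fun e x hx => map_mem_closure (f := fun x => x * e) (by fun_prop) hx (hNr e))
    (Submodule.isClosed_topologicalClosure _)
  refine ⟨K, iK, κ, hκ, ?_, ?_⟩
  · have h1 : a ∈ (M : Set A) := by
      rw [hM, Metric.mem_closure_iff]
      intro ε hε
      obtain ⟨t, -, ht1, ht⟩ := J_QC.exists_unit (I := A) {a} (ε / 4) (by positivity)
      have h2 := ht a (Finset.mem_singleton_self a)
      refine ⟨t * a * t, Submodule.subset_span ⟨t, t, rfl⟩, ?_⟩
      rw [dist_eq_norm, norm_sub_rev]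
      have e : t * a * t - a = (t * a - a) * t + (a * t - a) := by noncomm_ring
      rw [e]
      calc ‖(t * a - a) * t + (a * t - a)‖ ≤ ‖(t * a - a) * t‖ + ‖a * t - a‖ := norm_add_le _ _
        _ ≤ ‖t * a - a‖ * ‖t‖ + ‖a * t - a‖ := by gcongr; exact norm_mul_le _ _
        _ ≤ ε / 4 * 1 + ε / 4 := by
          gcongr
          · exact h2.1
          · exact h2.2
        _ < ε := by linarith
    rw [← hra] at h1
    exact h1
  · intro k
    have h1 : κ k ∈ (M : Set A) := hra ▸ ⟨k, rfl⟩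
    exact h1

theorem t_PERP : StPERP := by
  intro I E _ _ ι hι
  have hl : ∀ e : E, ∀ x ∈ {x : E | ∀ i, x * ι i = 0}, e * x ∈ {x : E | ∀ i, x * ι i = 0} := by
    intro e x hx i
    rw [mul_assoc, hx i, mul_zero]
  have hr : ∀ e : E, ∀ x ∈ {x : E | ∀ i, x * ι i = 0}, x * e ∈ {x : E | ∀ i, x * ι i = 0} := by
    intro e x hx i
    obtain ⟨i', hi'⟩ := hι.left e i
    rw [mul_assoc, ← hi']
    exact hx i'
  obtain ⟨P, iP, p, hp, hra⟩ := build_ideal E {x : E | ∀ i, x * ι i = 0}
    (fun i => zero_mul _) (fun x hx y hy i => by rw [add_mul, hx i, hy i, add_zero])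
    (fun c x hx i => by rw [smul_mul_assoc, hx i, smul_zero]) hl hr (by
      rw [Set.ofPred_forall]
      exact isClosed_iInter fun i => isClosed_eq (by fun_prop) continuous_const)
  refine ⟨P, iP, p, hp, ?_, ?_⟩
  · intro e
    have : e ∈ Set.range p ↔ e ∈ {x : E | ∀ i, x * ι i = 0} := by rw [hra]
    exact this
  · intro x i
    have h1 : p x ∈ {x : E | ∀ i, x * ι i = 0} := hra ▸ ⟨x, rfl⟩
    rw [← CStarRing.mul_star_self_eq_zero_iff, star_mul]
    obtain ⟨i', hi'⟩ := hι.left (star (p x)) (star i)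
    have h2 : ι i * p x * (star (p x) * star (ι i)) = ι i * (p x * (star (p x) * ι (star i))) := by
      rw [map_star]; simp only [mul_assoc]
    rw [h2, ← hi', h1 i', mul_zero]

theorem t_PRE : StPRE := by
  intro K E A J _ _ _ _ κ θ j hκ hj
  have hjc : IsClosed (Set.range j) := (NonUnitalStarAlgHom.isometry j hj.inj).isClosedEmbedding.isClosed_range
  have hθ : Continuous θ := AddMonoidHomClass.continuous_of_bound θ 1 fun x => by
    rw [one_mul]; exact NonUnitalStarAlgHom.norm_apply_le θ x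
  have hra' : ∀ e : E, e ∈ (θ ⁻¹' (Set.range j)) ↔ ∃ x, j x = θ e := fun e => Iff.rfl
  obtain ⟨K', iK, κ', hκ', hra⟩ := build_ideal E (θ ⁻¹' (Set.range j))
    ⟨0, by rw [map_zero, map_zero]⟩
    (by
      rintro x ⟨x', hx⟩ y ⟨y', hy⟩
      exact ⟨x' + y', by rw [map_add, map_add, hx, hy]⟩)
    (by
      rintro c x ⟨x', hx⟩
      exact ⟨c • x', by rw [map_smul, map_smul, hx]⟩)
    (by
      rintro e x ⟨x', hx⟩
      obtain ⟨z, hz⟩ := hj.left (θ e) x'
      exact ⟨z, by rw [hz, map_mul, hx]⟩)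
    (by
      rintro e x ⟨x', hx⟩
      obtain ⟨z, hz⟩ := hj.right (θ e) x'
      exact ⟨z, by rw [hz, map_mul, hx]⟩)
    (hjc.preimage hθ)
  have hmem : ∀ e : E, (∃ k', κ' k' = e) ↔ ∃ x, j x = θ e := by
    intro e
    have : e ∈ Set.range κ' ↔ e ∈ θ ⁻¹' (Set.range j) := by rw [hra]
    exact this
  obtain ⟨ρ, hρ⟩ := factor j hj.inj (θ.comp κ') fun k => (hmem _).1 ⟨k, rfl⟩
  obtain ⟨lam, hlam⟩ := factor κ' hκ'.inj κ fun k => (hmem _).2
    ⟨0, by rw [map_zero]; exact ((hκ.exact _).2 ⟨k, rfl⟩).symm⟩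
  refine ⟨K', iK, κ', ρ, lam, hκ', ⟨?_, ?_, ?_⟩, hlam, hρ, hmem⟩
  · intro x y hxy
    apply hκ.inj
    rw [← hlam, ← hlam, hxy]
  · intro x
    obtain ⟨e, he⟩ := hκ.surj (j x)
    obtain ⟨k', hk'⟩ := (hmem e).2 ⟨x, he.symm⟩
    refine ⟨k', hj.inj ?_⟩
    rw [hρ]
    show θ (κ' k') = j x
    rw [hk', he]
  · intro e
    have h1 : ρ e = 0 ↔ θ (κ' e) = 0 := by
      constructor
      · intro h
        have := hρ e
        rw [h, map_zero] at this
        exact this.symm
      · intro h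
        apply hj.inj
        rw [hρ, map_zero]
        exact h
    rw [h1, hκ.exact]
    constructor
    · rintro ⟨i, hi⟩
      exact ⟨i, hκ'.inj (by rw [hlam, hi])⟩
    · rintro ⟨i, hi⟩
      exact ⟨i, by rw [← hlam, hi]⟩

end Pool.Agent.Helper7_ND.J_HG
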