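import Pool.Agent.Helper7_ND.Stm5
import Pool.Agent.Helper7_ND.J_NRM

/-
Project MP_30b5b4_an, second theorem (owner helper7): dim_nuc(E) <= max(dim_nuc(I), dim_nuc(D)) when the quotient is tame (type I, ...).
SETUP: in /workdir/pool/outputs/live: git fetch -q; then copy from origin/main to /workdir/pool at the same paths the whole directory
Pool/Agent/Helper7_ND/ and Pool/Agent/W659/EC/; then lake build Pool.Agent.Helper7_ND.Stm5 (and the J_*.lean you import).
Definitions: Stm.lean (Pos, Prj, OZ, IsRow, rowMap, IsIdeal, IsExt, cut, IsRP, CutE, SpecS ...), Stm4.lean (SysC, LiftSys, lF, lG, tF, kF,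
k1F, sq, cutL, cutG, cutT, elB, elMu, elW ...), Stm5.lean (IsHer, Part, Tame ...). Useful lemmas: Rp.lean (Pos.add, Pos.conj, Pos.map,
Pos.sum, Pos.smul, Pos.norm_le, IsCP.pos, conjL, jE, cmpE), W659/EC/CP.lean (IsCP.add/comp/sum/smul, isCP_hom, isCP_of_family,
nonneg_iff_star, mpos_iff), CP2.lean (IsCP.schwarz, IsCP.star_map, IsCP.norm_le, IsCP.isCPC, compr, isCP_compr) and the proofs of the
first theorem J_*.lean in the same directory (you may import them and use their lemmas; the J_ files are all proved).
For the order use `let _ := CStarAlgebra.spectralOrder A; let _ := CStarAlgebra.spectralOrderedRing A` (Pos a is then 0 <= a by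
CStarAlgebra.nonneg_iff_eq_star_mul_self). Compile with lake build (not lake env lean). The file will be landed, so keep to RULES.md
(no banned words/characters), keep all helper lemmas inside the namespace, do not change Stm*.lean. If the statement is false or
lacks a hypothesis say so in note (and ask helper7).

TARGET t_NRM2 : StNRM2. Immediate: apply the lemma J_NRM.colour (J_NRM.lean) to every colour j (it keeps the composition
φ' (ψ' a) = φ (ψ a)), with OZ (φ j) from StL1; choose the data for all j.
-/

set_option autoImplicit false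

open scoped Matrix.Norms.L2Operator ENNReal Matrix
open Pool.Agent.W659.EC

noncomputable section

namespace Pool.Agent.Helper7_ND.J_NRM2

theorem t_NRM2 (hL1 : StL1) : StNRM2 := by
  intro A _ _ J _ hS G ε hε
  obtain ⟨F, ψ, φ, hψ, hφ, happ⟩ := hS G ε hε
  choose F' ψ' φ' a1 a2 a3 a4 a5 a6 using fun j => J_NRM.colour (F j) (ψ j) (φ j) (hψ j)
    (hφ j).1 (hL1 _ _ _ (hφ j).1.1 (hφ j).2)
  refine ⟨F', ψ', φ', a1, fun j => ⟨a2 j, a3 j⟩, fun a ha => ?_, a5, a6⟩
  simp only [a4]
  exact happ a ha

end Pool.Agent.Helper7_ND.J_NRM2
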