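import Pool.Agent.Helper7_ND.Stm5
import Pool.Agent.Helper7_ND.Rp
import Pool.Agent.Helper7_ND.J_L1
import Pool.Agent.Helper7_ND.J_QC

set_option autoImplicit false

open scoped Matrix.Norms.L2Operator ENNReal Matrix
open Pool.Agent.W659.EC

noncomputable section

namespace Pool.Agent.Helper7_ND.J_PART

/-- characters of commutative algebras -/
theorem gel (B : Type) [hB : NonUnitalCStarAlgebra B] (hc : ∀ x y : B, x * y = y * x) :
    ∃ (X : Type) (ev : X → (B →⋆ₙₐ[ℂ] ℂ)),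
      (∀ (b : B) (C : ℝ), (∀ x, ‖ev x b‖ ≤ C) → ‖b‖ ≤ C) ∧ ∀ b : B, ∃ x, ‖ev x b‖ = ‖b‖ := by
  let iB : NonUnitalCommCStarAlgebra B := { hB with mul_comm := hc }
  let X := WeakDual.characterSpace ℂ (Unitization ℂ B)
  let ev : X → (B →⋆ₙₐ[ℂ] ℂ) := fun x =>
    { toFun := fun b => x (b : Unitization ℂ B)
      map_smul' := fun c b => by rw [Unitization.inr_smul, map_smul]; rfl
      map_zero' := by rw [Unitization.inr_zero, map_zero]
      map_add' := fun a b => by rw [Unitization.inr_add, map_add]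
      map_mul' := fun a b => by rw [Unitization.inr_mul, map_mul]
      map_star' := fun a => by rw [Unitization.inr_star, map_star] }
  have hev : ∀ (x : X) (b : B), ev x b = WeakDual.gelfandTransform ℂ (Unitization ℂ B) (b : Unitization ℂ B) x :=
    fun x b => rfl
  have hnorm : ∀ b : B, ‖WeakDual.gelfandTransform ℂ (Unitization ℂ B) (b : Unitization ℂ B)‖ = ‖b‖ := by
    intro b
    have h1 := (gelfandTransform_isometry (Unitization ℂ B)).norm_map_of_map_zero (map_zero _)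
      (b : Unitization ℂ B)
    rw [h1, Unitization.norm_inr]
  have hne : Nonempty X := inferInstance
  refine ⟨X, ev, ?_, ?_⟩
  · intro b C h
    rw [← hnorm b]
    rw [ContinuousMap.norm_le_of_nonempty]
    exact fun x => h x
  · intro b
    obtain ⟨x, -, hx⟩ := isCompact_univ.exists_isMaxOn (Set.univ_nonempty (α := X))
      (continuous_norm.comp (WeakDual.gelfandTransform ℂ (Unitization ℂ B)
        (b : Unitization ℂ B)).continuous).continuousOn
    refine ⟨x, le_antisymm ?_ ?_⟩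
    · rw [← hnorm b]
      exact (WeakDual.gelfandTransform ℂ (Unitization ℂ B)
        (b : Unitization ℂ B)).norm_coe_le_norm x
    · rw [← hnorm b, ContinuousMap.norm_le_of_nonempty]
      exact fun y => hx (Set.mem_univ y)

theorem star_mu (F : FDA) (l : F.ι) (i j : F.n l) : star (mu F l i j) = mu F l j i := by
  classical
  unfold mu
  funext l'
  rw [Pi.star_apply]
  by_cases h : l' = l
  · subst h
    rw [Pi.single_eq_same, Pi.single_eq_same, Matrix.star_eq_conjTranspose]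
    ext a b
    simp only [Matrix.conjTranspose_apply, Matrix.single_apply]
    by_cases h1 : i = b ∧ j = a
    · rw [if_pos h1, if_pos ⟨h1.2, h1.1⟩, star_one]
    · rw [if_neg h1, if_neg (fun h2 => h1 ⟨h2.2, h2.1⟩), star_zero]
  · rw [Pi.single_eq_of_ne h, Pi.single_eq_of_ne h, star_zero]

theorem mu_mul_block (F : FDA) (l l' : F.ι) (h : l ≠ l') (i j : F.n l) (i' j' : F.n l') :
    mu F l i j * mu F l' i' j' = 0 := by
  classical
  unfold mu
  funext m
  rw [Pi.mul_apply, Pi.zero_apply]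
  by_cases h1 : m = l
  · subst h1
    rw [Pi.single_eq_of_ne h, mul_zero]
  · rw [Pi.single_eq_of_ne h1, zero_mul]

/-- the index set: blocks together with a diagonal entry -/
abbrev Ix (F : FDA) : Type := Σ l : F.ι, F.n l

/-- diagonal matrix units -/
def dg (F : FDA) (p : Ix F) : F.alg := mu F p.1 p.2 p.2

theorem dg_mul (F : FDA) (p q : Ix F) (h : p ≠ q) : dg F p * dg F q = 0 := by
  unfold dg
  by_cases h1 : p.1 = q.1
  · obtain ⟨l, i⟩ := p
    obtain ⟨l', j⟩ := q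
    simp only at h1
    subst h1
    exact J_L1.mu_mul_ne F l i i j j (fun h2 => h (by rw [h2]))
  · exact mu_mul_block F _ _ h1 _ _ _ _

theorem dg_pos (F : FDA) (p : Ix F) : Pos (dg F p) :=
  ⟨dg F p, by unfold dg; rw [star_mu, J_L1.mu_mul]⟩

section

variable {F : FDA} {B : Type} [NonUnitalCStarAlgebra B]

/-- order zero maps into commutative algebras vanish outside the diagonal -/
theorem offdiag (hc : ∀ x y : B, x * y = y * x) {φ : F.alg →ₗ[ℂ] B} (hφ : IsCP φ) (hO : OZ φ)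
    (l : F.ι) (i k : F.n l) (hik : i ≠ k) : φ (mu F l i k) = 0 := by
  have hz : star (φ (mu F l i k)) = φ (mu F l k i) := by
    rw [← IsCP.star_map hφ, star_mu]
  have h1 : star (φ (mu F l i k)) * φ (mu F l i k) = φ 1 * φ (mu F l k k) := by
    rw [hz, hO, J_L1.mu_mul]
  have h2 : star (φ (mu F l i k)) * φ (mu F l i k) = φ 1 * φ (mu F l i i) := by
    rw [hc, hz, hO, J_L1.mu_mul]
  have h3 : φ (mu F l k k) * φ (mu F l i i) = 0 := by
    rw [hO, J_L1.mu_mul_ne F l k k i i (Ne.symm hik), map_zero, mul_zero]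
  obtain ⟨a, ha⟩ : ∃ a, a = star (φ (mu F l i k)) * φ (mu F l i k) := ⟨_, rfl⟩
  have h4 : star a * a = 0 := by
    have hs : star a = a := by rw [ha, star_mul, star_star]
    rw [hs]
    nth_rewrite 1 [ha]
    rw [ha, h1]
    nth_rewrite 2 [← h1]
    rw [h2]
    calc φ 1 * φ (mu F l k k) * (φ 1 * φ (mu F l i i))
        = φ 1 * (φ (mu F l k k) * φ 1) * φ (mu F l i i) := by simp only [mul_assoc]
      _ = φ 1 * (φ 1 * φ (mu F l k k)) * φ (mu F l i i) := by rw [hc (φ (mu F l k k)) (φ 1)]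
      _ = φ 1 * φ 1 * (φ (mu F l k k) * φ (mu F l i i)) := by simp only [mul_assoc]
      _ = 0 := by rw [h3, mul_zero]
  have h5 : a = 0 := J_L1.eq_zero_of_star_mul h4
  exact J_L1.eq_zero_of_star_mul (ha.symm.trans h5)

theorem diag_sum (hc : ∀ x y : B, x * y = y * x) {φ : F.alg →ₗ[ℂ] B} (hφ : IsCP φ) (hO : OZ φ)
    (y : F.alg) : φ y = ∑ p : Ix F, y p.1 p.2 p.2 • φ (dg F p) := by
  rw [Fintype.sum_sigma]
  conv_lhs => rw [J_L1.decomp F y]
  simp only [map_sum, map_smul]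
  refine Finset.sum_congr rfl fun l _ => Finset.sum_congr rfl fun i _ => ?_
  rw [Finset.sum_eq_single i]
  · rfl
  · intro j _ hj
    rw [offdiag hc hφ hO l i j (Ne.symm hj), smul_zero]
  · intro h
    exact absurd (Finset.mem_univ i) h

/-- diagonal entries of positive elements -/
theorem entry_pos {y : F.alg} (hy : Pos y) (p : Ix F) :
    ∃ r : ℝ, 0 ≤ r ∧ y p.1 p.2 p.2 = (r : ℂ) := by
  obtain ⟨b, rfl⟩ := hy
  refine ⟨∑ k, Complex.normSq (b p.1 k p.2), Finset.sum_nonneg fun k _ => Complex.normSq_nonneg _, ?_⟩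
  rw [Pi.mul_apply, Pi.star_apply, Matrix.mul_apply, Complex.ofReal_sum]
  refine Finset.sum_congr rfl fun k _ => ?_
  rw [Matrix.star_apply, Complex.star_def, mul_comm, Complex.mul_conj]

end

/-- the estimate at two characters -/
theorem two_char (r : ℝ) (t tp β βp c : ℂ) (ε : ℝ) (h1 : ‖(r : ℂ) * t * β - c * t‖ ≤ ε)
    (h2 : ‖(r : ℂ) * tp * βp - c * tp‖ ≤ ε) (h3 : ‖(r : ℂ) * t‖ ≤ ‖(r : ℂ) * tp‖)
    (h4 : (r : ℂ) * tp ≠ 0) : ‖β * ((r : ℂ) * t) - βp * ((r : ℂ) * t)‖ ≤ 2 * ε := by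
  have hr : (r : ℂ) ≠ 0 := left_ne_zero_of_mul h4
  have htp : tp ≠ 0 := right_ne_zero_of_mul h4
  have hrn : 0 < ‖(r : ℂ)‖ := norm_pos_iff.mpr hr
  have h5 : ‖t‖ ≤ ‖tp‖ := by
    rw [norm_mul, norm_mul] at h3
    exact le_of_mul_le_mul_left h3 hrn
  have h6 : ‖t / tp‖ ≤ 1 := by
    rw [norm_div]
    exact div_le_one_of_le₀ h5 (norm_nonneg _)
  have h7 : β * ((r : ℂ) * t) - βp * ((r : ℂ) * t) = ((r : ℂ) * t * β - c * t) -
      (t / tp) * ((r : ℂ) * tp * βp - c * tp) := by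
    field_simp
    ring
  rw [h7]
  refine (norm_sub_le _ _).trans ?_
  rw [norm_mul]
  have h8 : ‖t / tp‖ * ‖(r : ℂ) * tp * βp - c * tp‖ ≤ 1 * ε :=
    mul_le_mul h6 h2 (norm_nonneg _) zero_le_one
  linarith

theorem colour {H B : Type} [NonUnitalCStarAlgebra H] [NonUnitalCStarAlgebra B]
    (hc : ∀ x y : B, x * y = y * x) (F : FDA) (φ : F.alg →ₗ[ℂ] B) (hφ : IsCP φ) (hO : OZ φ)
    (ψ : H →ₗ[ℂ] F.alg) (hψ : IsCP ψ) (e : H) (G : Finset B) (w : B → H) (ε : ℝ) (hε : 0 ≤ ε)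
    (hv : ∀ b ∈ G, ‖φ (ψ (star e * e)) * b - φ (ψ (star e * w b))‖ ≤ ε) :
    ∃ (r : Ix F → ℝ) (χ : Ix F → (B →⋆ₙₐ[ℂ] ℂ)), (∀ p, 0 ≤ r p) ∧
      (∀ p, ψ (star e * e) p.1 p.2 p.2 = (r p : ℂ)) ∧
      ∀ b ∈ G, ∀ p, ‖b * ((r p : ℂ) • φ (dg F p)) - χ p b • ((r p : ℂ) • φ (dg F p))‖ ≤ 2 * ε := by
  obtain ⟨X, ev, hX1, hX2⟩ := gel B hc
  choose r hr0 hr using fun p : Ix F => entry_pos (IsCP.pos hψ (a := star e * e) ⟨e, rfl⟩) p
  choose xp hxp using fun p : Ix F => hX2 ((r p : ℂ) • φ (dg F p))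
  have hort : ∀ p q : Ix F, p ≠ q → φ (dg F p) * φ (dg F q) = 0 := by
    intro p q hpq
    rw [hO, dg_mul F p q hpq, map_zero, mul_zero]
  have claimA : ∀ b ∈ G, ∀ p, ∀ x, ‖(r p : ℂ) * ev x (φ (dg F p)) * ev x b -
      ψ (star e * w b) p.1 p.2 p.2 * ev x (φ (dg F p))‖ ≤ ε := by
    intro b hb p x
    by_cases h0 : ev x (φ (dg F p)) = 0
    · rw [h0]
      simpa using hε
    · have h1 : ∀ y : F.alg, ev x (φ y) = y p.1 p.2 p.2 * ev x (φ (dg F p)) := by
        intro y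
        rw [diag_sum hc hφ hO y, map_sum, Finset.sum_eq_single p]
        · rw [map_smul, smul_eq_mul]
        · intro q _ hq
          have h2 : ev x (φ (dg F p)) * ev x (φ (dg F q)) = 0 := by
            rw [← map_mul, hort p q (Ne.symm hq), map_zero]
          rw [map_smul, (mul_eq_zero.mp h2).resolve_left h0, smul_zero]
        · intro h
          exact absurd (Finset.mem_univ p) h
      have h3 : (r p : ℂ) * ev x (φ (dg F p)) * ev x b -
          ψ (star e * w b) p.1 p.2 p.2 * ev x (φ (dg F p)) =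
          ev x (φ (ψ (star e * e)) * b - φ (ψ (star e * w b))) := by
        rw [map_sub, map_mul (ev x), h1 (ψ (star e * e)), h1 (ψ (star e * w b)), hr]
      rw [h3]
      exact (NonUnitalStarAlgHom.norm_apply_le (ev x) _).trans (hv b hb)
  refine ⟨r, fun p => ev (xp p), hr0, hr, ?_⟩
  intro b hb p
  by_cases hf : (r p : ℂ) • φ (dg F p) = 0
  · rw [hf, mul_zero, smul_zero, sub_zero, norm_zero]
    positivity
  · apply hX1
    intro x
    have e1 : ∀ x, ev x ((r p : ℂ) • φ (dg F p)) = (r p : ℂ) * ev x (φ (dg F p)) := by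
      intro x
      rw [map_smul, smul_eq_mul]
    have h3 : ‖(r p : ℂ) * ev x (φ (dg F p))‖ ≤ ‖(r p : ℂ) * ev (xp p) (φ (dg F p))‖ := by
      rw [← e1, ← e1, hxp]
      exact NonUnitalStarAlgHom.norm_apply_le (ev x) _
    have h4 : (r p : ℂ) * ev (xp p) (φ (dg F p)) ≠ 0 := by
      rw [← e1, ← norm_ne_zero_iff, hxp]
      exact norm_ne_zero_iff.mpr hf
    have h5 := two_char (r p) (ev x (φ (dg F p))) (ev (xp p) (φ (dg F p))) (ev x b)
      (ev (xp p) b) (ψ (star e * w b) p.1 p.2 p.2) ε (claimA b hb p x) (claimA b hb p (xp p)) h3 h4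
    have h6 : ev x (b * ((r p : ℂ) • φ (dg F p)) - ev (xp p) b • ((r p : ℂ) • φ (dg F p))) =
        ev x b * ((r p : ℂ) * ev x (φ (dg F p))) - ev (xp p) b * ((r p : ℂ) * ev x (φ (dg F p))) := by
      rw [map_sub, map_mul (ev x), e1, map_smul (ev x) (ev (xp p) b), e1, smul_eq_mul]
    rw [h6]
    exact h5

theorem t_PART (hL1 : StL1) (hNV : StNV) : StPART := by
  intro H B _ _ π hc hπ J _ hS G ε hε
  classical
  choose lift hlift using hπ
  -- bound
  obtain ⟨M, hM1, hM⟩ : ∃ M : ℝ, 1 ≤ M ∧ ∀ b ∈ G, ‖b‖ ≤ M := by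
    refine ⟨1 + ∑ b ∈ G, ‖b‖, ?_, ?_⟩
    · have : 0 ≤ ∑ b ∈ G, ‖b‖ := Finset.sum_nonneg fun b _ => norm_nonneg b
      linarith
    · intro b hb
      have := Finset.single_le_sum (f := fun b : B => ‖b‖) (fun b _ => norm_nonneg b) hb
      linarith
  obtain ⟨e, he, he1, he2⟩ := J_QC.exists_unit (G.image lift) (ε / 8) (by positivity)
  have hesa : star e = e := he.sa
  have hπn : ∀ h : H, ‖π h‖ ≤ ‖h‖ := fun h => NonUnitalStarAlgHom.norm_apply_le π h
  have hebn : ∀ b ∈ G, ‖π e * b - b‖ ≤ ε / 8 := by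
    intro b hb
    have h1 := (he2 (lift b) (Finset.mem_image_of_mem _ hb)).1
    have h2 := hπn (e * lift b - lift b)
    rw [map_sub, map_mul, hlift] at h2
    exact h2.trans h1
  have hpie : ‖π e‖ ≤ 1 := (hπn e).trans he1
  have hee : ∀ b ∈ G, ‖π (star e * e) * b - b‖ ≤ ε / 4 := by
    intro b hb
    rw [hesa, map_mul]
    have h1 : π e * π e * b - b = π e * (π e * b - b) + (π e * b - b) := by
      rw [mul_sub, mul_assoc]; abel
    rw [h1]
    refine (norm_add_le _ _).trans ?_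
    have h2 : ‖π e * (π e * b - b)‖ ≤ 1 * (ε / 8) :=
      (norm_mul_le _ _).trans (mul_le_mul hpie (hebn b hb) (norm_nonneg _) zero_le_one)
    linarith [hebn b hb]
  obtain ⟨η, hη0, hη1, hη2, hη3⟩ : ∃ η : ℝ, 0 < η ∧ η * M ≤ ε / 8 ∧ η * (M + 1) ^ 2 ≤ (ε / 2) ^ 2 ∧
      η ≤ 1 := by
    refine ⟨min 1 (min (ε / 8 / M) ((ε / 2) ^ 2 / (M + 1) ^ 2)), ?_, ?_, ?_, min_le_left _ _⟩
    · have hM0 : 0 < M := by linarith
      positivity
    · have hM0 : 0 < M := by linarith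
      have := (min_le_right (1 : ℝ) _).trans (min_le_left (ε / 8 / M) ((ε / 2) ^ 2 / (M + 1) ^ 2))
      exact (le_div_iff₀ hM0).mp this
    · have hM0 : 0 < (M + 1) ^ 2 := by positivity
      have := (min_le_right (1 : ℝ) _).trans (min_le_right (ε / 8 / M) ((ε / 2) ^ 2 / (M + 1) ^ 2))
      exact (le_div_iff₀ hM0).mp this
  obtain ⟨w, hw⟩ : ∃ w : B → H, ∀ b, w b = e * lift b := ⟨fun b => e * lift b, fun b => rfl⟩
  have hπw : ∀ b, π (w b) = π e * b := fun b => by rw [hw, map_mul, hlift]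
  obtain ⟨F, ψ, φ, hψ, hφ, happ⟩ := hS ({star e * e} ∪ G.image (fun b => star e * w b) ∪
    G.image (fun b => star (w b) * e) ∪ G.image (fun b => star (w b) * w b)) η hη0
  have a1 : ‖∑ j, φ j (ψ j (star e * e)) - star e * e‖ ≤ η := by
    apply happ
    simp
  have a2 : ∀ b ∈ G, ‖∑ j, φ j (ψ j (star e * w b)) - star e * w b‖ ≤ η := by
    intro b hb
    apply happ
    simp only [Finset.coe_union, Set.mem_union, Finset.mem_coe]
    exact Or.inl (Or.inl (Or.inr (Finset.mem_image_of_mem _ hb)))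
  have a3 : ∀ b ∈ G, ‖∑ j, φ j (ψ j (star (w b) * e)) - star (w b) * e‖ ≤ η := by
    intro b hb
    apply happ
    simp only [Finset.coe_union, Set.mem_union, Finset.mem_coe]
    exact Or.inl (Or.inr (Finset.mem_image_of_mem _ hb))
  have a4 : ∀ b ∈ G, ‖∑ j, φ j (ψ j (star (w b) * w b)) - star (w b) * w b‖ ≤ η := by
    intro b hb
    apply happ
    simp only [Finset.coe_union, Set.mem_union, Finset.mem_coe]
    exact Or.inr (Finset.mem_image_of_mem _ hb)
  -- the maps into `B`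
  obtain ⟨πl, hπl⟩ : ∃ πl : H →ₗ[ℂ] B, ∀ h, πl h = π h :=
    ⟨{ toFun := π, map_add' := map_add π, map_smul' := fun c h => map_smul π c h }, fun h => rfl⟩
  have hπlCP : IsCP πl := isCP_hom π πl hπl
  have hφB : ∀ j, IsCP (πl ∘ₗ φ j) := fun j => hπlCP.comp (hφ j).1.1
  have hφO : ∀ j, OZ (πl ∘ₗ φ j) := by
    intro j
    apply hL1 _ _ _ (hφB j)
    intro a b hab
    have h1 := (hφ j).2 a b hab
    change πl (φ j (star a * a)) * πl (φ j (star b * b)) = 0
    rw [hπl, hπl, ← map_mul, h1, map_zero]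
  have hθ : ∀ j, IsCP ((πl ∘ₗ φ j) ∘ₗ ψ j) := fun j => (hφB j).comp (hψ j).1
  have hsum : ∀ h : H, ∑ j, ((πl ∘ₗ φ j) ∘ₗ ψ j) h - π h = π (∑ j, φ j (ψ j h) - h) := by
    intro h
    rw [map_sub, map_sum]
    congr 1
    exact Finset.sum_congr rfl fun j _ => hπl _
  have hS' : ∀ h : H, ‖∑ j, φ j (ψ j h) - h‖ ≤ η → ‖∑ j, ((πl ∘ₗ φ j) ∘ₗ ψ j) h - π h‖ ≤ η := by
    intro h hh
    rw [hsum]
    exact (hπn _).trans hh
  have hM0 : 0 < M := by linarith
  have hv : ∀ j, ∀ b ∈ G, ‖(πl ∘ₗ φ j) (ψ j (star e * e)) * b - (πl ∘ₗ φ j) (ψ j (star e * w b))‖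
      ≤ ε / 2 := by
    intro j b hb
    have h1 := hNV H B J (fun j => (πl ∘ₗ φ j) ∘ₗ ψ j) e e (w b) b j hθ
    have h2 : ‖((πl ∘ₗ φ j) ∘ₗ ψ j) (star e * e)‖ ≤ 1 := by
      have h3 : ‖((πl ∘ₗ φ j) ∘ₗ ψ j) (star e * e)‖ ≤ ‖star e * e‖ := by
        change ‖πl (φ j (ψ j (star e * e)))‖ ≤ _
        rw [hπl]
        exact (hπn _).trans (((hφ j).1.2 _).trans ((hψ j).2 _))
      refine h3.trans ?_
      rw [CStarRing.norm_star_mul_self]
      nlinarith [norm_nonneg e]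
    obtain ⟨s1, hs1⟩ : ∃ s, s = ∑ j, ((πl ∘ₗ φ j) ∘ₗ ψ j) (star e * e) := ⟨_, rfl⟩
    obtain ⟨s2, hs2⟩ : ∃ s, s = ∑ j, ((πl ∘ₗ φ j) ∘ₗ ψ j) (star e * w b) := ⟨_, rfl⟩
    obtain ⟨s3, hs3⟩ : ∃ s, s = ∑ j, ((πl ∘ₗ φ j) ∘ₗ ψ j) (star (w b) * e) := ⟨_, rfl⟩
    obtain ⟨s4, hs4⟩ : ∃ s, s = ∑ j, ((πl ∘ₗ φ j) ∘ₗ ψ j) (star (w b) * w b) := ⟨_, rfl⟩
    have h4 : ∑ j, (star b * ((πl ∘ₗ φ j) ∘ₗ ψ j) (star e * e) * b -
        star b * ((πl ∘ₗ φ j) ∘ₗ ψ j) (star e * w b) -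
        ((πl ∘ₗ φ j) ∘ₗ ψ j) (star (w b) * e) * b + ((πl ∘ₗ φ j) ∘ₗ ψ j) (star (w b) * w b)) =
        star b * s1 * b - star b * s2 - s3 * b + s4 := by
      rw [Finset.sum_add_distrib, Finset.sum_sub_distrib, Finset.sum_sub_distrib, hs1, hs2, hs3, hs4,
        Finset.mul_sum, Finset.sum_mul, Finset.mul_sum, Finset.sum_mul]
    have b1 := hS' _ a1
    have b2 := hS' _ (a2 b hb)
    have b3 := hS' _ (a3 b hb)
    have b4 := hS' _ (a4 b hb)
    rw [← hs1] at b1
    rw [← hs2] at b2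
    rw [← hs3] at b3
    rw [← hs4] at b4
    have h5 : star b * s1 * b - star b * s2 - s3 * b + s4 =
        star b * (s1 - π (star e * e)) * b - star b * (s2 - π (star e * w b)) -
        (s3 - π (star (w b) * e)) * b + (s4 - π (star (w b) * w b)) := by
      have c1 : π (star e * e) = π e * π e := by rw [map_mul, hesa]
      have c2 : π (star e * w b) = π e * (π e * b) := by rw [map_mul, hesa, hπw]
      have hsp : star (π e) = π e := by rw [← map_star, hesa]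
      have c3 : π (star (w b) * e) = star b * π e * π e := by
        rw [map_mul, map_star, hπw, star_mul, hsp]
      have c4 : π (star (w b) * w b) = star b * π e * (π e * b) := by
        rw [map_mul, map_star, hπw, star_mul, hsp]
      rw [c1, c2, c3, c4]
      simp only [mul_sub, sub_mul, mul_assoc]
      abel
    have hbM := hM b hb
    have hb0 := norm_nonneg b
    have n1 : ‖star b * (s1 - π (star e * e)) * b‖ ≤ M * η * M := by
      refine (norm_mul_le _ _).trans (mul_le_mul ((norm_mul_le _ _).trans (mul_le_mul ?_ b1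
        (norm_nonneg _) hM0.le)) hbM hb0 (by positivity))
      rw [norm_star]; exact hbM
    have n2 : ‖star b * (s2 - π (star e * w b))‖ ≤ M * η := by
      refine (norm_mul_le _ _).trans (mul_le_mul ?_ b2 (norm_nonneg _) hM0.le)
      rw [norm_star]; exact hbM
    have n3 : ‖(s3 - π (star (w b) * e)) * b‖ ≤ η * M :=
      (norm_mul_le _ _).trans (mul_le_mul b3 hbM hb0 hη0.le)
    have h6 : ‖star b * s1 * b - star b * s2 - s3 * b + s4‖ ≤ (ε / 2) ^ 2 := by
      rw [h5]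
      have t1 := norm_add_le (star b * (s1 - π (star e * e)) * b - star b * (s2 - π (star e * w b)) -
        (s3 - π (star (w b) * e)) * b) (s4 - π (star (w b) * w b))
      have t2 := norm_sub_le (star b * (s1 - π (star e * e)) * b - star b * (s2 - π (star e * w b)))
        ((s3 - π (star (w b) * e)) * b)
      have t3 := norm_sub_le (star b * (s1 - π (star e * e)) * b) (star b * (s2 - π (star e * w b)))
      nlinarith
    rw [h4] at h1
    have h7 : ‖((πl ∘ₗ φ j) ∘ₗ ψ j) (star e * e) * b - ((πl ∘ₗ φ j) ∘ₗ ψ j) (star e * w b)‖ ^ 2 ≤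
        (ε / 2) ^ 2 := by
      refine h1.trans ((mul_le_mul h2 h6 (norm_nonneg _) zero_le_one).trans ?_)
      rw [one_mul]
    exact (sq_le_sq₀ (norm_nonneg _) (by positivity)).mp h7
  choose r χ hr0 hr hχ using fun j => colour hc (F j) (πl ∘ₗ φ j) (hφB j) (hφO j) (ψ j) (hψ j).1 e G w
    (ε / 2) (by positivity) (hv j)
  -- scaling
  obtain ⟨c, hcdef⟩ : ∃ c : ℝ, c = (1 + η)⁻¹ := ⟨_, rfl⟩
  have hc0 : 0 ≤ c := by rw [hcdef]; positivity
  have hc1 : c ≤ 1 := by rw [hcdef]; exact inv_le_one_of_one_le₀ (by linarith)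
  have hcη : c * (1 + η) = 1 := by rw [hcdef]; exact inv_mul_cancel₀ (by positivity)
  obtain ⟨s, hs⟩ : ∃ s : B, s = ∑ j, ((πl ∘ₗ φ j) ∘ₗ ψ j) (star e * e) := ⟨_, rfl⟩
  have hs1 : ‖s - π (star e * e)‖ ≤ η := by rw [hs]; exact hS' _ a1
  have hπee : ‖π (star e * e)‖ ≤ 1 := by
    refine (hπn _).trans ?_
    rw [CStarRing.norm_star_mul_self]
    nlinarith [norm_nonneg e]
  have hs2 : ‖s‖ ≤ 1 + η := by
    have := norm_add_le (s - π (star e * e)) (π (star e * e))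
    rw [sub_add_cancel] at this
    linarith
  have hsumf : ∑ j, ∑ p : Ix (F j), (c : ℂ) • ((r j p : ℂ) • (πl ∘ₗ φ j) (dg (F j) p)) =
      (c : ℂ) • s := by
    rw [hs, Finset.smul_sum]
    refine Finset.sum_congr rfl fun j _ => ?_
    rw [← Finset.smul_sum]
    congr 1
    change _ = (πl ∘ₗ φ j) (ψ j (star e * e))
    rw [diag_sum hc (hφB j) (hφO j)]
    refine Finset.sum_congr rfl fun p _ => ?_
    rw [hr]
  refine ⟨fun j => Ix (F j), fun j => inferInstance,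
    fun j p => (c : ℂ) • ((r j p : ℂ) • (πl ∘ₗ φ j) (dg (F j) p)), χ, ?_, ?_, ?_, ?_, ?_⟩
  · intro j p
    exact ((IsCP.pos (hφB j) (dg_pos (F j) p)).smul (hr0 j p)).smul hc0
  · intro j p q hpq
    have h1 : (πl ∘ₗ φ j) (dg (F j) p) * (πl ∘ₗ φ j) (dg (F j) q) = 0 := by
      rw [hφO j, dg_mul (F j) p q hpq, map_zero, mul_zero]
    simp only [smul_mul_assoc, mul_smul_comm, h1, smul_zero]
  · rw [hsumf, norm_smul, Complex.norm_real, Real.norm_of_nonneg hc0]
    calc c * ‖s‖ ≤ c * (1 + η) := mul_le_mul_of_nonneg_left hs2 hc0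
      _ = 1 := hcη
  · intro b hb
    rw [hsumf]
    have h1 : (c : ℂ) • s * b - b = -(((1 - c : ℝ) : ℂ) • (s * b)) + (s - π (star e * e)) * b +
        (π (star e * e) * b - b) := by
      rw [Complex.ofReal_sub, Complex.ofReal_one, sub_smul, one_smul, smul_mul_assoc, sub_mul]
      abel
    rw [h1]
    have hbM := hM b hb
    have hb0 := norm_nonneg b
    have n1 : ‖((1 - c : ℝ) : ℂ) • (s * b)‖ ≤ η * M := by
      rw [norm_smul, Complex.norm_real, Real.norm_of_nonneg (by linarith)]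
      have h2 : ‖s * b‖ ≤ (1 + η) * M :=
        (norm_mul_le _ _).trans (mul_le_mul hs2 hbM hb0 (by positivity))
      calc (1 - c) * ‖s * b‖ ≤ (1 - c) * ((1 + η) * M) :=
            mul_le_mul_of_nonneg_left h2 (by linarith)
        _ = ((1 + η) - c * (1 + η)) * M := by ring
        _ = η * M := by rw [hcη]; ring
    have n2 : ‖(s - π (star e * e)) * b‖ ≤ η * M :=
      (norm_mul_le _ _).trans (mul_le_mul hs1 hbM hb0 hη0.le)
    have t1 := norm_add_le (-(((1 - c : ℝ) : ℂ) • (s * b)) + (s - π (star e * e)) * b)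
      (π (star e * e) * b - b)
    have t2 := norm_add_le (-(((1 - c : ℝ) : ℂ) • (s * b))) ((s - π (star e * e)) * b)
    rw [norm_neg] at t2
    have := hee b hb
    linarith
  · intro b hb j p
    have h1 := hχ j b hb p
    have h2 : b * ((c : ℂ) • ((r j p : ℂ) • (πl ∘ₗ φ j) (dg (F j) p))) -
        χ j p b • ((c : ℂ) • ((r j p : ℂ) • (πl ∘ₗ φ j) (dg (F j) p))) =
        (c : ℂ) • (b * ((r j p : ℂ) • (πl ∘ₗ φ j) (dg (F j) p)) -
        χ j p b • ((r j p : ℂ) • (πl ∘ₗ φ j) (dg (F j) p))) := by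
      rw [smul_sub, mul_smul_comm, smul_comm (χ j p b) (c : ℂ)]
    rw [h2, norm_smul, Complex.norm_real, Real.norm_of_nonneg hc0]
    calc c * _ ≤ 1 * (2 * (ε / 2)) := mul_le_mul hc1 h1 (norm_nonneg _) zero_le_one
      _ = ε := by ring

end Pool.Agent.Helper7_ND.J_PART
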