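import Pool.Agent.Helper7_ND.Stm5
import Pool.Agent.Helper7_ND.Rp
import Pool.Agent.Helper7_ND.J_QC

/-! # Quotients of C*-algebras by ideals -/

set_option autoImplicit false

open scoped Matrix.Norms.L2Operator ENNReal Matrix
open Pool.Agent.W659.EC

noncomputable section

namespace Pool.Agent.Helper7_ND.J_QUO

/-- multiplication by `1 - e` for a positive contraction `e` does not increase the norm -/
theorem norm_sub_mul_le {A : Type} [NonUnitalCStarAlgebra A] {e : A} (he : Pos e)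
    (he1 : ‖e‖ ≤ 1) (z : A) : ‖z - z * e‖ ≤ ‖z‖ := by
  let _ := CStarAlgebra.spectralOrder (Unitization ℂ A)
  let _ := CStarAlgebra.spectralOrderedRing (Unitization ℂ A)
  have h0 : 0 ≤ (e : Unitization ℂ A) := by
    obtain ⟨b, rfl⟩ := he
    rw [Unitization.inr_mul, Unitization.inr_star]
    exact star_mul_self_nonneg _
  have h1 : (e : Unitization ℂ A) ≤ 1 := by
    rw [← CStarAlgebra.norm_le_one_iff_of_nonneg _ h0, Unitization.norm_inr]
    exact he1
  have h2 : ‖1 - (e : Unitization ℂ A)‖ ≤ 1 := by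
    rw [CStarAlgebra.norm_le_one_iff_of_nonneg _ (sub_nonneg.2 h1)]
    exact sub_le_self _ h0
  have h3 : ((z - z * e : A) : Unitization ℂ A) =
      (z : Unitization ℂ A) * (1 - (e : Unitization ℂ A)) := by
    rw [Unitization.inr_sub, Unitization.inr_mul, mul_sub, mul_one]
  rw [← Unitization.norm_inr (𝕜 := ℂ) (a := z - z * e), h3]
  refine (norm_mul_le _ _).trans ?_
  rw [Unitization.norm_inr]
  have := mul_le_mul_of_nonneg_left h2 (norm_nonneg z)
  linarith

section

variable {K E : Type} [NonUnitalCStarAlgebra K] [NonUnitalCStarAlgebra E] (κ : K →⋆ₙₐ[ℂ] E)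

/-- the range of the map as a subspace -/
def S : Submodule ℂ E where
  carrier := Set.range κ
  zero_mem' := ⟨0, map_zero κ⟩
  add_mem' := by
    rintro _ _ ⟨x, rfl⟩ ⟨y, rfl⟩
    exact ⟨x + y, map_add κ x y⟩
  smul_mem' := by
    rintro c _ ⟨x, rfl⟩
    exact ⟨c • x, map_smul κ c x⟩

theorem mem_S {e : E} : e ∈ S κ ↔ ∃ i, κ i = e := Iff.rfl

variable {κ}

theorem star_mem {e : E} (h : e ∈ S κ) : star e ∈ S κ := by
  obtain ⟨i, rfl⟩ := h
  exact ⟨star i, map_star κ i⟩

theorem closed (hκ : IsIdeal κ) : IsClosed ((S κ : Submodule ℂ E) : Set E) := by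
  have h1 : Isometry κ := AddMonoidHomClass.isometry_of_norm κ (hom_norm κ hκ.inj)
  exact h1.isClosedEmbedding.isClosed_range

theorem mul_mem_left (hκ : IsIdeal κ) (e : E) {s : E} (h : s ∈ S κ) : e * s ∈ S κ := by
  obtain ⟨i, rfl⟩ := h
  exact hκ.left e i

theorem mul_mem_right (hκ : IsIdeal κ) (e : E) {s : E} (h : s ∈ S κ) : s * e ∈ S κ := by
  obtain ⟨i, rfl⟩ := h
  exact hκ.right e i

variable (hκ : IsIdeal κ)

/-- the quotient -/
def Q (_ : IsIdeal κ) : Type := E ⧸ S κ

instance instNACG : NormedAddCommGroup (Q hκ) :=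
  have := closed hκ
  Submodule.Quotient.normedAddCommGroup (S κ)

instance instNS : NormedSpace ℂ (Q hκ) :=
  inferInstanceAs (NormedSpace ℂ (E ⧸ S κ))

instance instCS : CompleteSpace (Q hκ) :=
  inferInstanceAs (CompleteSpace (E ⧸ S κ))

/-- the quotient map -/
def mk : E →ₗ[ℂ] Q hκ := (S κ).mkQ

theorem mk_surj (y : Q hκ) : ∃ x : E, mk hκ x = y := Submodule.mkQ_surjective (S κ) y

theorem mk_eq {x y : E} : mk hκ x = mk hκ y ↔ x - y ∈ S κ := Submodule.Quotient.eq (S κ)

theorem mk_eq_zero {x : E} : mk hκ x = 0 ↔ x ∈ S κ := Submodule.Quotient.mk_eq_zero (S κ)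

theorem norm_mk_le (x : E) : ‖mk hκ x‖ ≤ ‖x‖ := Submodule.Quotient.norm_mk_le (S κ) x

theorem norm_mk_lt (y : Q hκ) {ε : ℝ} (hε : 0 < ε) : ∃ x : E, mk hκ x = y ∧ ‖x‖ < ‖y‖ + ε :=
  Submodule.Quotient.norm_mk_lt (S := S κ) y hε

instance instMul : Mul (Q hκ) where
  mul := Quotient.map₂ (· * ·) (by
    intro a a' ha b b' hb
    have h1 : a - a' ∈ S κ := (Submodule.quotientRel_def _).1 ha
    have h2 : b - b' ∈ S κ := (Submodule.quotientRel_def _).1 hb
    refine (Submodule.quotientRel_def _).2 ?_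
    have e1 : a * b - a' * b' = (a - a') * b + a' * (b - b') := by
      rw [sub_mul, mul_sub]; abel
    rw [e1]
    exact (S κ).add_mem (mul_mem_right hκ b h1) (mul_mem_left hκ a' h2))

theorem mk_mul (a b : E) : mk hκ (a * b) = mk hκ a * mk hκ b := rfl

instance instStar : Star (Q hκ) where
  star := Quotient.map star (by
    intro a b hab
    have h1 : a - b ∈ S κ := (Submodule.quotientRel_def _).1 hab
    refine (Submodule.quotientRel_def _).2 ?_
    rw [← star_sub]
    exact star_mem h1)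

theorem mk_star (a : E) : mk hκ (star a) = star (mk hκ a) := rfl

instance instNUR : NonUnitalRing (Q hκ) :=
  { instNACG hκ, instMul hκ with
    left_distrib := by
      intro x y z
      obtain ⟨a, rfl⟩ := mk_surj hκ x
      obtain ⟨b, rfl⟩ := mk_surj hκ y
      obtain ⟨c, rfl⟩ := mk_surj hκ z
      change mk hκ a * (mk hκ b + mk hκ c) = mk hκ a * mk hκ b + mk hκ a * mk hκ c
      rw [← map_add, ← mk_mul, ← mk_mul, ← mk_mul, mul_add, map_add]
    right_distrib := by
      intro x y z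
      obtain ⟨a, rfl⟩ := mk_surj hκ x
      obtain ⟨b, rfl⟩ := mk_surj hκ y
      obtain ⟨c, rfl⟩ := mk_surj hκ z
      change (mk hκ a + mk hκ b) * mk hκ c = mk hκ a * mk hκ c + mk hκ b * mk hκ c
      rw [← map_add, ← mk_mul, ← mk_mul, ← mk_mul, add_mul, map_add]
    zero_mul := by
      intro x
      obtain ⟨a, rfl⟩ := mk_surj hκ x
      change (0 : Q hκ) * mk hκ a = (0 : Q hκ)
      rw [← map_zero (mk hκ), ← mk_mul, zero_mul]
    mul_zero := by
      intro x
      obtain ⟨a, rfl⟩ := mk_surj hκ x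
      change mk hκ a * (0 : Q hκ) = (0 : Q hκ)
      rw [← map_zero (mk hκ), ← mk_mul, mul_zero]
    mul_assoc := by
      intro x y z
      obtain ⟨a, rfl⟩ := mk_surj hκ x
      obtain ⟨b, rfl⟩ := mk_surj hκ y
      obtain ⟨c, rfl⟩ := mk_surj hκ z
      change mk hκ a * mk hκ b * mk hκ c = mk hκ a * (mk hκ b * mk hκ c)
      rw [← mk_mul, ← mk_mul, ← mk_mul, ← mk_mul, mul_assoc] }

theorem norm_mul_le' (x y : Q hκ) : ‖x * y‖ ≤ ‖x‖ * ‖y‖ := by
  have h1 : ∀ ε : ℝ, 0 < ε → ‖x * y‖ ≤ (‖x‖ + ε) * (‖y‖ + ε) := by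
    intro ε hε
    obtain ⟨a, ha, ha'⟩ := norm_mk_lt hκ x hε
    obtain ⟨b, hb, hb'⟩ := norm_mk_lt hκ y hε
    rw [← ha, ← hb, ← mk_mul]
    refine (norm_mk_le hκ _).trans ((norm_mul_le _ _).trans ?_)
    rw [ha, hb]
    exact mul_le_mul ha'.le hb'.le (norm_nonneg _) (by positivity)
  have h4 : Filter.Tendsto (fun ε : ℝ => (‖x‖ + ε) * (‖y‖ + ε)) (nhdsWithin 0 (Set.Ioi 0))
      (nhds (‖x‖ * ‖y‖)) := by
    have : Continuous fun ε : ℝ => (‖x‖ + ε) * (‖y‖ + ε) := by fun_prop
    have h5 := this.tendsto 0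
    rw [add_zero, add_zero] at h5
    exact h5.mono_left nhdsWithin_le_nhds
  exact ge_of_tendsto h4 (Filter.eventually_of_mem self_mem_nhdsWithin fun ε hε => h1 ε hε)

instance instNUNR : NonUnitalNormedRing (Q hκ) :=
  { instNACG hκ, instNUR hκ with
    norm_mul_le := norm_mul_le' hκ }

instance instStarRing : StarRing (Q hκ) where
  star_involutive := by
    intro x
    obtain ⟨a, rfl⟩ := mk_surj hκ x
    rw [← mk_star, ← mk_star, star_star]
  star_mul := by
    intro x y
    obtain ⟨a, rfl⟩ := mk_surj hκ x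
    obtain ⟨b, rfl⟩ := mk_surj hκ y
    rw [← mk_mul, ← mk_star, ← mk_star, ← mk_star, ← mk_mul, star_mul]
  star_add := by
    intro x y
    obtain ⟨a, rfl⟩ := mk_surj hκ x
    obtain ⟨b, rfl⟩ := mk_surj hκ y
    rw [← map_add, ← mk_star, ← mk_star, ← mk_star, ← map_add, star_add]

instance instStarModule : StarModule ℂ (Q hκ) where
  star_smul := by
    intro c x
    obtain ⟨a, rfl⟩ := mk_surj hκ x
    rw [← map_smul, ← mk_star, ← mk_star, ← map_smul, star_smul]

instance instIST : IsScalarTower ℂ (Q hκ) (Q hκ) where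
  smul_assoc := by
    intro c x y
    obtain ⟨a, rfl⟩ := mk_surj hκ x
    obtain ⟨b, rfl⟩ := mk_surj hκ y
    change (c • mk hκ a) * mk hκ b = c • (mk hκ a * mk hκ b)
    rw [← map_smul, ← mk_mul, ← mk_mul, ← map_smul, smul_mul_assoc]

instance instSCC : SMulCommClass ℂ (Q hκ) (Q hκ) where
  smul_comm := by
    intro c x y
    obtain ⟨a, rfl⟩ := mk_surj hκ x
    obtain ⟨b, rfl⟩ := mk_surj hκ y
    change c • (mk hκ a * mk hκ b) = mk hκ a * (c • mk hκ b)
    rw [← map_smul, ← mk_mul, ← mk_mul, ← map_smul, mul_smul_comm]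

instance instCStarRing : CStarRing (Q hκ) where
  norm_mul_self_le := by
    intro y
    obtain ⟨x, rfl⟩ := mk_surj hκ y
    refine le_of_forall_pos_le_add fun ε hε => ?_
    rw [← mk_star, ← mk_mul]
    obtain ⟨y, hy, hy'⟩ := norm_mk_lt hκ (mk hκ (star x * x)) (half_pos hε)
    obtain ⟨c, hc⟩ := (mk_eq hκ).1 hy
    obtain ⟨t, ht, ht1, htc⟩ := J_QC.exists_unit {c} (ε / 2) (half_pos hε)
    have htc' := (htc c (Finset.mem_singleton_self c)).2
    have he : Pos (κ t) := ht.map κ
    have he1 : ‖κ t‖ ≤ 1 := (NonUnitalStarAlgHom.norm_apply_le κ t).trans ht1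
    have hs : star (κ t) = κ t := he.sa
    -- the class of `x` is the class of `x - x * κ t`
    have e1 : mk hκ x = mk hκ (x - x * κ t) := by
      rw [mk_eq, sub_sub_cancel]
      exact mul_mem_left hκ x ⟨t, rfl⟩
    have e2 : star (x - x * κ t) * (x - x * κ t) =
        star (star (star x * x - star x * x * κ t) - star (star x * x - star x * x * κ t) * κ t) := by
      simp only [star_sub, star_mul, star_star, hs, sub_mul, mul_sub, mul_assoc]
      abel
    have e3 : star x * x - star x * x * κ t = (y - y * κ t) + (κ (c * t - c)) := by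
      have : star x * x = y - κ c := by rw [hc]; abel
      rw [this, map_sub, map_mul, sub_mul]
      abel
    have n1 : ‖mk hκ x‖ * ‖mk hκ x‖ ≤ ‖x - x * κ t‖ * ‖x - x * κ t‖ := by
      have := norm_mk_le hκ (x - x * κ t)
      rw [← e1] at this
      exact mul_self_le_mul_self (norm_nonneg _) this
    rw [← CStarRing.norm_star_mul_self (x := x - x * κ t), e2, norm_star] at n1
    have n2 := norm_sub_mul_le he he1 (star (star x * x - star x * x * κ t))
    rw [norm_star, e3] at n2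
    have n3 := norm_add_le (y - y * κ t) (κ (c * t - c))
    have n4 := norm_sub_mul_le he he1 y
    have n5 := NonUnitalStarAlgHom.norm_apply_le κ (c * t - c)
    rw [e3] at n1
    linarith

instance instNUCSA : NonUnitalCStarAlgebra (Q hκ) where

/-- the quotient map as a homomorphism -/
def q : E →⋆ₙₐ[ℂ] Q hκ where
  toFun := mk hκ
  map_smul' := fun c x => map_smul (mk hκ) c x
  map_zero' := map_zero (mk hκ)
  map_add' := map_add (mk hκ)
  map_mul' := mk_mul hκ
  map_star' := mk_star hκ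

end

theorem t_QUO : StQUO := by
  intro K E _ _ κ hκ
  exact ⟨Q hκ, instNUCSA hκ, q hκ, hκ.inj, mk_surj hκ, fun e => mk_eq_zero hκ⟩

end Pool.Agent.Helper7_ND.J_QUO
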