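import Pool.Agent.Helper7_ND.Stm7
import Pool.Agent.Helper7_ND.J_STEP
import Pool.Agent.Helper7_ND.J_MAIN3

/-! # Enlarging an ideal of bounded nuclear dimension, and extensions by tame quotients -/

set_option autoImplicit false

open scoped Matrix.Norms.L2Operator ENNReal Matrix
open Pool.Agent.W659.EC

noncomputable section

namespace Pool.Agent.Helper7_ND.J_STEP3

theorem t_STEP3 (hND : StND) (hMAIN : StMAIN) (hCORE3 : StCORE3) (hRIX : StRIX) (hHER : StHER)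
    (hLN : StLN) (hHG : StHG) (hIG : StIG) (hPRE : StPRE) (hPART : StPART) (hABL : StABL)
    (hCD : StCD) (hDRN : StDRN) : StSTEP3 := by
  intro I E D K A _ _ _ _ _ ι π κ θ hι hκ hκθ hθι N hT hD hK
  -- ideals of the quotient with approximations
  have key : ∀ (K₀ : Type) (_ : NonUnitalCStarAlgebra K₀) (κ₀ : K₀ →⋆ₙₐ[ℂ] A), IsIdeal κ₀ →
      Nontrivial K₀ → SysD K₀ (Option (Fin N)) →
      ∃ (K' : Type) (_ : NonUnitalCStarAlgebra K') (κ' : K' →⋆ₙₐ[ℂ] E), IsIdeal κ' ∧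
        SysAll K' (Option (Fin N)) ∧ Set.range κ ⊂ Set.range κ' := by
    intro K₀ _ κ₀ hκ₀ hnt hC
    obtain ⟨K', _, κ', ρ, lam, h1, h2, h3, h4, _⟩ := hPRE K E A K₀ κ θ κ₀ hκθ hκ₀
    exact ⟨K', inferInstance, κ', h1, hCORE3 K K' K₀ lam ρ h2 _ hK hC,
      J_STEP.ssub κ θ κ₀ κ' ρ lam hκθ hκ₀ h2 h3 h4 hnt⟩
  rcases hT with ⟨a, ha0, hap, hab⟩ | ⟨K₀, _, κ₀, hκ₀, hnt, hdim⟩
  · have hker : ∀ e, π e = 0 → θ e = 0 := by
      intro e he
      obtain ⟨i, rfl⟩ := (hι.exact e).1 he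
      exact hθι i
    have hsurj : Function.Surjective (J_STEP.desc π hι.surj θ hker) := by
      intro x
      obtain ⟨e, rfl⟩ := hκθ.surj x
      exact ⟨π e, J_STEP.desc_spec π hι.surj θ hker e⟩
    obtain ⟨K₀, _, κ₀, hκ₀, hnt, hC⟩ := J_STEP.abel hHER hLN hHG hIG hPART hABL
      (J_STEP.desc π hι.surj θ hker) hsurj (Option (Fin N)) hD a ha0 hap hab
    exact key K₀ inferInstance κ₀ hκ₀ hnt (hCD K₀ _ hC)
  · rcases hdim with hdim | hdim
    · obtain ⟨K', _, κ', ρ, lam, h1, h2, h3, h4, _⟩ := hPRE K E A K₀ κ θ κ₀ hκθ hκ₀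
      have h5 : SysAll K₀ (Option (Fin 0)) := hND.1 K₀ 0 (by simpa using hdim)
      have h6 := hMAIN K K' K₀ lam ρ h2 (Fin N) (Fin 0) hK h5
      have h7 : SysAll K' (Option (Fin N)) :=
        hRIX K' _ _ ⟨Equiv.optionCongr (Equiv.emptySum (Fin 0) (Fin N))⟩ h6
      exact ⟨K', inferInstance, κ', h1, h7,
        J_STEP.ssub κ θ κ₀ κ' ρ lam hκθ hκ₀ h2 h3 h4 hnt⟩
    · exact key K₀ inferInstance κ₀ hκ₀ hnt (hDRN K₀ N hdim)

theorem t_MAIN4 (hND : StND) (hMAIN : StMAIN) (hHER : StHER) (hLOC : StLOC) (hQUO : StQUO)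
    (hPERP : StPERP) (hDS : StDS) (hCHN : StCHN) (hSTEP3 : StSTEP3) : StMAIN4 := by
  intro I E D _ _ _ ι π hext M hI hD htame
  by_cases htop : M = ⊤
  · rw [htop]
    exact le_top
  obtain ⟨N, rfl⟩ := ENat.ne_top_iff_exists.1 htop
  have sI := hND.1 I N hI
  have sD := hND.1 D N hD
  have hid := J_MAIN3.isIdeal_of_isExt hext
  -- the annihilator
  obtain ⟨P, iP, p, hp, hp1, hp2⟩ := hPERP I E ι hid
  have hpι : ∀ x i, p x * ι i = 0 := fun x => (hp1 (p x)).1 ⟨x, rfl⟩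
  have sP : SysAll P (Option (Fin N)) := by
    refine hHER P D (π.comp p) ⟨?_, ?_⟩ _ sD
    · rw [injective_iff_map_eq_zero]
      intro x hx
      obtain ⟨i, hi⟩ := (hext.exact (p x)).1 hx
      have h1 : ι i * star (ι i) = 0 := by
        rw [← map_star, hi]
        exact hpι x (star i)
      have h2 : ι i = 0 := CStarRing.mul_star_self_eq_zero_iff _ |>.1 h1
      have h3 : p x = 0 := by rw [← hi, h2]
      exact hp.inj (by rw [h3, map_zero])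
    · intro h h' a
      obtain ⟨e, rfl⟩ := hext.surj a
      obtain ⟨h1, hh1⟩ := hp.right e h
      obtain ⟨h2, hh2⟩ := hp.right (p h') h1
      refine ⟨h2, ?_⟩
      show π (p h2) = π (p h) * π e * π (p h')
      rw [hh2, hh1, map_mul, map_mul]
  -- the sum of the two ideals
  obtain ⟨K₀, iK₀, κ₀, hκ₀, sK₀, hr₀⟩ := hDS I P E ι p hid hp (fun x y => hp2 y x) (Option (Fin N))
    sI sP
  -- the maximal ideal
  obtain ⟨m, hm0, hm⟩ := zorn_subset_nonempty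
    {S : Set E | ∃ (K : Type) (_ : NonUnitalCStarAlgebra K) (κ : K →⋆ₙₐ[ℂ] E), IsIdeal κ ∧
      Set.range κ = S ∧ SysAll K (Option (Fin N))}
    (by
      intro c hc hch hne
      obtain ⟨K, iK, κ, h1, h2, h3⟩ := hCHN E (Option (Fin N)) c hch hne (fun S hS => hc hS)
      exact ⟨closure (⋃₀ c), ⟨K, iK, κ, h1, h2, h3⟩, fun S hS =>
        (Set.subset_sUnion_of_mem hS).trans subset_closure⟩)
    (Set.range κ₀) ⟨K₀, iK₀, κ₀, hκ₀, rfl, sK₀⟩
  obtain ⟨K, iK, κ, hκ, hrκ, sK⟩ := hm.prop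
  have hfin : SysAll E (Option (Fin N)) → nucDim E ≤ (N : ℕ∞) := by
    intro sE
    have := hND.2 E (Fin N) sE
    rwa [Fintype.card_fin] at this
  by_cases hsur : Function.Surjective κ
  · exact hfin (J_MAIN3.sysAll_of_bij hHER κ ⟨hκ.inj, hsur⟩ _ sK)
  exfalso
  obtain ⟨A, iA, θ, hθ⟩ := hQUO K E κ hκ
  have hθκ : ∀ e, e ∈ Set.range κ₀ → θ e = 0 := by
    intro e he
    have he' : e ∈ Set.range κ := by
      rw [hrκ]; exact hm0 he
    obtain ⟨x, hx⟩ := he'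
    exact (hθ.exact e).2 ⟨x, hx⟩
  have hθι : ∀ i, θ (ι i) = 0 := fun i =>
    hθκ _ ((hr₀ (ι i)).2 ⟨i, 0, by rw [map_zero, add_zero]⟩)
  have hθa : ∀ e, (∀ i, e * ι i = 0) → θ e = 0 := by
    intro e he
    obtain ⟨x, hx⟩ := (hp1 e).2 he
    exact hθκ _ ((hr₀ e).2 ⟨0, x, by rw [map_zero, zero_add, hx]⟩)
  have hnt : Nontrivial A := by
    unfold Function.Surjective at hsur
    push Not at hsur
    obtain ⟨e, he⟩ := hsur
    refine ⟨θ e, 0, fun h => ?_⟩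
    obtain ⟨x, hx⟩ := (hθ.exact e).1 h
    exact he x hx
  have ht : TameN (N : ℕ∞) A := htame A θ hθ.surj hnt hθι hθa
  obtain ⟨K', iK', κ', hκ', sK', hlt⟩ := hSTEP3 I E D K A ι π κ θ hext hκ hθ hθι N ht sD sK
  have hle : Set.range κ' ≤ m := hm.le_of_ge ⟨K', iK', κ', hκ', rfl, sK'⟩ (by
    rw [← hrκ]; exact hlt.subset)
  rw [← hrκ] at hle
  exact hlt.not_subset hle

end Pool.Agent.Helper7_ND.J_STEP3
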