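import Pool.Agent.Helper7_ND.Stm2

set_option autoImplicit false

open scoped Matrix.Norms.L2Operator ENNReal Matrix
open Pool.Agent.W659.EC

noncomputable section

namespace Pool.Agent.Helper7_ND.J_T1

section gen

variable {A : Type} [CStarAlgebra A] [PartialOrder A] [StarOrderedRing A]

/-- square roots -/
def rt (a : A) : A := cfc Real.sqrt a

theorem rt_eq {a : A} (ha : 0 ≤ a) : CFC.sqrt a = rt a := by
  rw [CFC.sqrt_eq_real_sqrt a ha, cfcₙ_eq_cfc (by fun_prop) (by simp)]
  rfl

omit [PartialOrder A] [StarOrderedRing A] in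
theorem rt_sa (a : A) : IsSelfAdjoint (rt a) := cfc_predicate _ _

theorem rt_nonneg (a : A) : 0 ≤ rt a := cfc_nonneg fun x _ => Real.sqrt_nonneg x

theorem rt_mul {a : A} (ha : 0 ≤ a) : rt a * rt a = a := by
  rw [← rt_eq ha, CFC.sqrt_mul_sqrt_self a ha]

theorem rt_mono {a b : A} (ha : 0 ≤ a) (hab : a ≤ b) : rt a ≤ rt b := by
  rw [← rt_eq ha, ← rt_eq (ha.trans hab)]
  exact CFC.sqrt_le_sqrt a b hab

/-- the difference of square roots -/
theorem rt_sub {y c : A} (hy : 0 ≤ y) (hyc : y ≤ c) : ‖rt c - rt y‖ ≤ Real.sqrt ‖c - y‖ := by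
  have hc : 0 ≤ c := hy.trans hyc
  set d : ℝ := Real.sqrt ‖c - y‖ with hd
  have hd0 : 0 ≤ d := Real.sqrt_nonneg _
  have h0 : 0 ≤ rt c - rt y := sub_nonneg.2 (rt_mono hy hyc)
  have hda : 0 ≤ algebraMap ℝ A d := by
    have := algebraMap_nonneg A hd0
    exact this
  have h1 : c ≤ (rt y + algebraMap ℝ A d) * (rt y + algebraMap ℝ A d) := by
    have h2 : c - y ≤ algebraMap ℝ A ‖c - y‖ :=
      IsSelfAdjoint.le_algebraMap_norm_self (ha := (sub_nonneg.2 hyc).isSelfAdjoint)
    have h3 : (rt y + algebraMap ℝ A d) * (rt y + algebraMap ℝ A d) =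
        y + algebraMap ℝ A ‖c - y‖ + (2 * d) • rt y := by
      have h4 : algebraMap ℝ A ‖c - y‖ = algebraMap ℝ A d * algebraMap ℝ A d := by
        rw [← map_mul, hd, Real.mul_self_sqrt (norm_nonneg _)]
      rw [h4, add_mul, mul_add, mul_add, rt_mul hy, ← Algebra.commutes d (rt y),
        ← Algebra.smul_def, mul_smul, two_smul]
      abel
    have h5 : 0 ≤ (2 * d) • rt y := smul_nonneg (by positivity) (rt_nonneg y)
    rw [h3]
    have h6 : c ≤ y + algebraMap ℝ A ‖c - y‖ := by
      rw [← sub_le_iff_le_add']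
      exact h2
    exact h6.trans (le_add_of_nonneg_right h5)
  have h7 : 0 ≤ rt y + algebraMap ℝ A d := add_nonneg (rt_nonneg y) hda
  have h8 : rt c ≤ rt y + algebraMap ℝ A d := by
    rw [← rt_eq hc, ← CFC.sqrt_mul_self (rt y + algebraMap ℝ A d) h7]
    exact CFC.sqrt_le_sqrt _ _ h1
  rw [CStarAlgebra.norm_le_iff_le_algebraMap _ hd0 h0, sub_le_iff_le_add']
  exact h8

theorem n1 (w T : A) : ‖w * T‖ = ‖rt (star w * w) * T‖ := by
  have h : ∀ S : A, ‖S‖ * ‖S‖ = ‖star S * S‖ := fun S => (CStarRing.norm_star_mul_self).symm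
  have h1 : ‖w * T‖ * ‖w * T‖ = ‖rt (star w * w) * T‖ * ‖rt (star w * w) * T‖ := by
    rw [h, h]
    congr 1
    rw [star_mul, star_mul, (rt_sa (star w * w)).star_eq]
    calc star T * star w * (w * T) = star T * (star w * w) * T := by noncomm_ring
      _ = star T * (rt (star w * w) * rt (star w * w)) * T := by
          rw [rt_mul (star_mul_self_nonneg w)]
      _ = _ := by noncomm_ring
  exact (mul_self_inj (norm_nonneg _) (norm_nonneg _)).1 h1

theorem n2 {y c : A} (hy : 0 ≤ y) (hyc : y ≤ c) {G : A} (hG : IsSelfAdjoint G) :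
    ‖G * rt y‖ ≤ ‖G * rt c‖ := by
  have hc : 0 ≤ c := hy.trans hyc
  have h : ∀ a : A, 0 ≤ a → ‖G * rt a‖ * ‖G * rt a‖ = ‖G * a * G‖ := by
    intro a ha
    rw [← CStarRing.norm_self_mul_star, star_mul, (rt_sa a).star_eq, hG.star_eq]
    congr 1
    calc G * rt a * (rt a * G) = G * (rt a * rt a) * G := by noncomm_ring
      _ = G * a * G := by rw [rt_mul ha]
  have h1 : ‖G * y * G‖ ≤ ‖G * c * G‖ :=
    CStarAlgebra.norm_le_norm_of_nonneg_of_le (hG.conjugate_nonneg hy)
      (hG.conjugate_le_conjugate hyc)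
  rw [← h y hy, ← h c hc] at h1
  exact (mul_self_le_mul_self_iff (norm_nonneg _) (norm_nonneg _)).2 h1

theorem n3 {w y : A} (hy : 0 ≤ y) (hyc : y ≤ star w * w) {f : ℝ → ℝ} (hf : Continuous f) :
    ‖w * cfc f (star w * w) * rt y‖ ≤
      ‖cfc (fun s => Real.sqrt s * f s * Real.sqrt s) (star w * w)‖ := by
  have e1 : cfc (fun s => Real.sqrt s * f s * Real.sqrt s) (star w * w) =
      rt (star w * w) * cfc f (star w * w) * rt (star w * w) := by
    rw [cfc_mul (fun s => Real.sqrt s * f s) Real.sqrt _ (by fun_prop) (by fun_prop),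
      cfc_mul Real.sqrt f _ (by fun_prop) (by fun_prop)]
    rfl
  have e2 : IsSelfAdjoint (rt (star w * w) * cfc f (star w * w)) := by
    have : rt (star w * w) * cfc f (star w * w) = cfc (fun s => Real.sqrt s * f s) (star w * w) := by
      rw [cfc_mul Real.sqrt f _ (by fun_prop) (by fun_prop)]
      rfl
    rw [this]
    exact cfc_predicate _ _
  rw [e1, mul_assoc, n1, ← mul_assoc]
  exact n2 hy hyc e2

/-- the function `(s + ε)^(-1/2)` -/
def ph (ε s : ℝ) : ℝ := (Real.sqrt (|s| + ε))⁻¹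

theorem ph_cont {ε : ℝ} (hε : 0 < ε) : Continuous (ph ε) := by
  unfold ph
  refine Continuous.inv₀ (by fun_prop) fun s => ?_
  exact (Real.sqrt_pos.2 (by positivity)).ne'

theorem ph_bd {ε s : ℝ} (hε : 0 < ε) (hs : 0 ≤ s) :
    0 ≤ Real.sqrt s * ph ε s ∧ Real.sqrt s * ph ε s ≤ 1 ∧
      |Real.sqrt s - s * ph ε s| ≤ Real.sqrt ε ∧ 1 - s * (ph ε s * ph ε s) = ε * (ph ε s * ph ε s) := by
  unfold ph
  rw [abs_of_nonneg hs]
  set a := Real.sqrt s with ha
  set b := Real.sqrt (s + ε) with hb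
  have ha0 : 0 ≤ a := Real.sqrt_nonneg _
  have hb0 : 0 < b := Real.sqrt_pos.2 (by linarith)
  have ha2 : a * a = s := Real.mul_self_sqrt hs
  have hb2 : b * b = s + ε := Real.mul_self_sqrt (by linarith)
  have hab : a ≤ b := Real.sqrt_le_sqrt (by linarith)
  have hba : b - a ≤ Real.sqrt ε := by
    apply Real.le_sqrt_of_sq_le
    nlinarith
  refine ⟨by positivity, ?_, ?_, ?_⟩
  · rw [← div_eq_mul_inv, div_le_one hb0]; exact hab
  · have h1 : a - s * b⁻¹ = a / b * (b - a) := by
      rw [← ha2]; field_simp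
    have h2 : a / b ≤ 1 := by rw [div_le_one hb0]; exact hab
    have h3 : 0 ≤ a / b := by positivity
    rw [h1, abs_of_nonneg (mul_nonneg h3 (by linarith))]
    nlinarith
  · have h1 : b⁻¹ * b⁻¹ = (s + ε)⁻¹ := by rw [← mul_inv, hb2]
    rw [h1]
    have : s + ε ≠ 0 := by linarith
    field_simp
    ring

theorem spec_nonneg {c : A} (hc : 0 ≤ c) {s : ℝ} (hs : s ∈ spectrum ℝ c) : 0 ≤ s :=
  spectrum_nonneg_of_nonneg hc hs

/-- factorisation -/
theorem doug {w y : A} (hy : 0 ≤ y) (hyc : y ≤ star w * w) :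
    ∃ (b : ℕ → A) (Z : A), Filter.Tendsto (fun n => w * b n) Filter.atTop (nhds Z) ∧
      star Z * Z = y ∧ ‖w - Z‖ ≤ Real.sqrt ‖star w * w - y‖ := by
  set c := star w * w with hc
  have hc0 : 0 ≤ c := star_mul_self_nonneg w
  set ε : ℕ → ℝ := fun n => 1 / ((n : ℝ) + 1) with hε
  have hεp : ∀ n, 0 < ε n := fun n => by positivity
  have hεa : ∀ N n, N ≤ n → ε n ≤ ε N := by
    intro N n h
    have h' : (N : ℝ) ≤ n := by exact_mod_cast h
    exact one_div_le_one_div_of_le (by positivity) (by linarith)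
  have hε0 : Filter.Tendsto ε Filter.atTop (nhds 0) := tendsto_one_div_add_atTop_nhds_zero_nat
  have hsε0 : Filter.Tendsto (fun n => Real.sqrt (ε n)) Filter.atTop (nhds 0) := by
    have := (Real.continuous_sqrt.tendsto 0).comp hε0
    rw [Real.sqrt_zero] at this
    exact this
  set b : ℕ → A := fun n => cfc (ph (ε n)) c * rt y with hb
  have hwb : ∀ n, w * b n = w * cfc (ph (ε n)) c * rt y := fun n => (mul_assoc _ _ _).symm
  -- Cauchy
  have hcau : CauchySeq (fun n => w * b n) := by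
    refine cauchySeq_of_le_tendsto_0 (fun N => 2 * Real.sqrt (ε N)) ?_ ?_
    · intro n m N hn hm
      rw [dist_eq_norm, hwb, hwb, ← sub_mul, ← mul_sub,
        ← cfc_sub (ph (ε n)) (ph (ε m)) c (ph_cont (hεp n)).continuousOn
          (ph_cont (hεp m)).continuousOn]
      refine (n3 hy hyc (f := fun s => ph (ε n) s - ph (ε m) s)
        ((ph_cont (hεp n)).sub (ph_cont (hεp m)))).trans ?_
      refine norm_cfc_le (by positivity) fun s hs => ?_
      have hs0 := spec_nonneg hc0 hs
      have h1 := (ph_bd (hεp n) hs0).2.2.1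
      have h2 := (ph_bd (hεp m) hs0).2.2.1
      have h3 := Real.sqrt_le_sqrt (hεa N n hn)
      have h4 := Real.sqrt_le_sqrt (hεa N m hm)
      have h5 : Real.sqrt s * (ph (ε n) s - ph (ε m) s) * Real.sqrt s =
          -(Real.sqrt s - s * ph (ε n) s) + (Real.sqrt s - s * ph (ε m) s) := by
        have h6 : Real.sqrt s * Real.sqrt s = s := Real.mul_self_sqrt hs0
        calc Real.sqrt s * (ph (ε n) s - ph (ε m) s) * Real.sqrt s =
            (Real.sqrt s * Real.sqrt s) * (ph (ε n) s - ph (ε m) s) := by ring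
          _ = _ := by rw [h6]; ring
      rw [h5, Real.norm_eq_abs]
      refine (abs_add_le _ _).trans ?_
      rw [abs_neg]
      linarith
    · simpa using hsε0.const_mul 2
  obtain ⟨Z, hZ⟩ := cauchySeq_tendsto_of_complete hcau
  refine ⟨b, Z, hZ, ?_, ?_⟩
  · -- star Z * Z = y
    have h1 : Filter.Tendsto (fun n => star (w * b n) * (w * b n)) Filter.atTop
        (nhds (star Z * Z)) := (hZ.star).mul hZ
    have h2 : Filter.Tendsto (fun n => star (w * b n) * (w * b n)) Filter.atTop (nhds y) := by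
      rw [tendsto_iff_norm_sub_tendsto_zero]
      refine squeeze_zero (fun n => norm_nonneg _) (fun n => ?_) hε0
      have hφ := (ph_cont (hεp n))
      have hsaφ : IsSelfAdjoint (cfc (ph (ε n)) c) := cfc_predicate _ _
      have e1 : star (w * b n) * (w * b n) = rt y * (cfc (ph (ε n)) c * c * cfc (ph (ε n)) c) *
          rt y := by
        rw [hb]
        simp only [star_mul, (rt_sa y).star_eq, hsaφ.star_eq]
        rw [hc]
        noncomm_ring
      have e2 : cfc (ph (ε n)) c * c * cfc (ph (ε n)) c =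
          1 - (ε n) • (cfc (ph (ε n)) c * cfc (ph (ε n)) c) := by
        have f1 : cfc (ph (ε n)) c * c * cfc (ph (ε n)) c =
            cfc (fun s => ph (ε n) s * s * ph (ε n) s) c := by
          rw [cfc_mul (fun s => ph (ε n) s * s) (ph (ε n)) c (by fun_prop) (by fun_prop),
            cfc_mul (ph (ε n)) (fun s => s) c (by fun_prop) (by fun_prop), cfc_id' ℝ c]
        have f2 : (ε n) • (cfc (ph (ε n)) c * cfc (ph (ε n)) c) =
            cfc (fun s => ε n * (ph (ε n) s * ph (ε n) s)) c := by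
          rw [cfc_const_mul (ε n) (fun s => ph (ε n) s * ph (ε n) s) c (by fun_prop),
            cfc_mul (ph (ε n)) (ph (ε n)) c (by fun_prop) (by fun_prop)]
        rw [f1, f2, ← cfc_const_one ℝ c, ← cfc_sub (fun _ : ℝ => (1 : ℝ)) _ c (by fun_prop) (by fun_prop)]
        refine cfc_congr fun s hs => ?_
        have := (ph_bd (hεp n) (spec_nonneg hc0 hs)).2.2.2
        linarith
      have e3 : star (w * b n) * (w * b n) - y =
          -((ε n) • (star (cfc (ph (ε n)) c * rt y) * (cfc (ph (ε n)) c * rt y))) := by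
        rw [e1, e2, star_mul, (rt_sa y).star_eq, hsaφ.star_eq, mul_sub, mul_one, sub_mul,
          rt_mul hy, mul_smul_comm, smul_mul_assoc]
        simp only [mul_assoc]
        abel
      rw [e3, norm_neg, norm_smul, CStarRing.norm_star_mul_self, Real.norm_eq_abs,
        abs_of_pos (hεp n)]
      have e4 : ‖cfc (ph (ε n)) c * rt y‖ ≤ 1 := by
        refine (n2 hy hyc hsaφ).trans ?_
        have f3 : cfc (ph (ε n)) c * rt c = cfc (fun s => ph (ε n) s * Real.sqrt s) c := by
          rw [cfc_mul (ph (ε n)) Real.sqrt c (by fun_prop) (by fun_prop)]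
          rfl
        rw [f3]
        refine norm_cfc_le zero_le_one fun s hs => ?_
        have h5 := ph_bd (hεp n) (spec_nonneg hc0 hs)
        rw [Real.norm_eq_abs, mul_comm, abs_of_nonneg h5.1]
        exact h5.2.1
      have e5 : ‖cfc (ph (ε n)) c * rt y‖ * ‖cfc (ph (ε n)) c * rt y‖ ≤ 1 := by
        nlinarith [norm_nonneg (cfc (ph (ε n)) c * rt y)]
      calc ε n * (‖cfc (ph (ε n)) c * rt y‖ * ‖cfc (ph (ε n)) c * rt y‖) ≤ ε n * 1 :=
            mul_le_mul_of_nonneg_left e5 (hεp n).le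
        _ = ε n := mul_one _
    exact tendsto_nhds_unique h1 h2
  · have h1 : Filter.Tendsto (fun n => ‖w - w * b n‖) Filter.atTop (nhds ‖w - Z‖) :=
      (tendsto_const_nhds.sub hZ).norm
    have h2 : Filter.Tendsto (fun n => Real.sqrt (ε n) + Real.sqrt ‖c - y‖) Filter.atTop
        (nhds (0 + Real.sqrt ‖c - y‖)) := hsε0.add_const _
    rw [zero_add] at h2
    refine le_of_tendsto_of_tendsto' h1 h2 fun n => ?_
    have hφ := (ph_cont (hεp n))
    have e1 : w - w * b n = w * (1 - cfc (ph (ε n)) c * rt c) +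
        w * cfc (ph (ε n)) c * (rt c - rt y) := by
      rw [hb]
      noncomm_ring
    rw [e1]
    refine (norm_add_le _ _).trans (add_le_add ?_ ?_)
    · rw [n1, ← hc]
      have e2 : rt c * (1 - cfc (ph (ε n)) c * rt c) =
          cfc (fun s => Real.sqrt s - Real.sqrt s * (ph (ε n) s * Real.sqrt s)) c := by
        rw [cfc_sub Real.sqrt _ c (by fun_prop) (by fun_prop),
          cfc_mul Real.sqrt (fun s => ph (ε n) s * Real.sqrt s) c (by fun_prop) (by fun_prop),
          cfc_mul (ph (ε n)) Real.sqrt c (by fun_prop) (by fun_prop), mul_sub, mul_one]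
        rfl
      rw [e2]
      refine norm_cfc_le (Real.sqrt_nonneg _) fun s hs => ?_
      have hs0 := spec_nonneg hc0 hs
      have h5 := (ph_bd (hεp n) hs0).2.2.1
      have h6 : Real.sqrt s * (ph (ε n) s * Real.sqrt s) = s * ph (ε n) s := by
        calc Real.sqrt s * (ph (ε n) s * Real.sqrt s) = (Real.sqrt s * Real.sqrt s) * ph (ε n) s := by
              ring
          _ = _ := by rw [Real.mul_self_sqrt hs0]
      rw [h6, Real.norm_eq_abs]
      exact h5
    · refine (norm_mul_le _ _).trans ?_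
      have e3 : ‖w * cfc (ph (ε n)) c‖ ≤ 1 := by
        rw [n1, ← hc]
        have f3 : rt c * cfc (ph (ε n)) c = cfc (fun s => Real.sqrt s * ph (ε n) s) c := by
          rw [cfc_mul Real.sqrt (ph (ε n)) c (by fun_prop) (by fun_prop)]
          rfl
        rw [f3]
        refine norm_cfc_le zero_le_one fun s hs => ?_
        have h5 := ph_bd (hεp n) (spec_nonneg hc0 hs)
        rw [Real.norm_eq_abs, abs_of_nonneg h5.1]
        exact h5.2.1
      have e4 := rt_sub hy hyc
      calc ‖w * cfc (ph (ε n)) c‖ * ‖rt c - rt y‖ ≤ 1 * Real.sqrt ‖c - y‖ :=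
            mul_le_mul e3 e4 (norm_nonneg _) zero_le_one
        _ = _ := one_mul _

/-- the cut-off -/
def gf (δ s : ℝ) : ℝ := min 1 (max 0 ((s - δ) / δ))

theorem gf_cont (δ : ℝ) : Continuous (gf δ) := by
  unfold gf
  fun_prop

theorem gf_bd {δ : ℝ} (hδ : 0 < δ) (s : ℝ) : 0 ≤ gf δ s ∧ gf δ s ≤ 1 ∧
    max (s - 2 * δ) 0 ≤ gf δ s * (s - δ) * gf δ s ∧
    (0 ≤ s → (1 - gf δ s) * s * (1 - gf δ s) ≤ δ) ∧
    (0 ≤ s → |gf δ s * s * gf δ s - max (s - 2 * δ) 0| ≤ 2 * δ) := by
  unfold gf
  rcases le_total s δ with h1 | h1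
  · have e1 : max 0 ((s - δ) / δ) = 0 := max_eq_left (div_nonpos_of_nonpos_of_nonneg (by linarith)
      hδ.le)
    have e2 : min (1 : ℝ) 0 = 0 := min_eq_right zero_le_one
    have e3 : max (s - 2 * δ) 0 = 0 := max_eq_right (by linarith)
    rw [e1, e2, e3]
    refine ⟨le_rfl, zero_le_one, by simp, fun _ => by linarith, fun _ => ?_⟩
    simp only [zero_mul, sub_zero, abs_zero]
    linarith
  · rcases le_total s (2 * δ) with h2 | h2
    · have e1 : max 0 ((s - δ) / δ) = (s - δ) / δ := max_eq_right (div_nonneg (by linarith) hδ.le)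
      have e2 : min (1 : ℝ) ((s - δ) / δ) = (s - δ) / δ := min_eq_right (by
        rw [div_le_one hδ]; linarith)
      have e3 : max (s - 2 * δ) 0 = 0 := max_eq_right (by linarith)
      rw [e1, e2, e3]
      set u := (s - δ) / δ with hu
      have hs : s = δ * (1 + u) := by rw [hu]; field_simp; ring
      have hu0 : 0 ≤ u := div_nonneg (by linarith) hδ.le
      have hu1 : u ≤ 1 := by rw [hu, div_le_one hδ]; linarith
      refine ⟨hu0, hu1, ?_, fun _ => ?_, fun _ => ?_⟩
      · have : 0 ≤ s - δ := by linarith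
        positivity
      · rw [hs]
        have h3 : (1 - u) * (1 + u) ≤ 1 := by nlinarith
        have h4 : (1 - u) * (1 + u) * (1 - u) ≤ 1 := by nlinarith [mul_nonneg (sub_nonneg.2 hu1) hu0]
        calc (1 - u) * (δ * (1 + u)) * (1 - u) = δ * ((1 - u) * (1 + u) * (1 - u)) := by ring
          _ ≤ δ * 1 := mul_le_mul_of_nonneg_left h4 hδ.le
          _ = δ := mul_one _
      · rw [sub_zero]
        have h5 : 0 ≤ u * s * u := by
          have : 0 ≤ s := by linarith
          positivity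
        rw [abs_of_nonneg h5]
        have h6 : u * u ≤ 1 := by nlinarith
        have h7 : 0 ≤ s := by linarith
        nlinarith
    · have e1 : max 0 ((s - δ) / δ) = (s - δ) / δ := max_eq_right (div_nonneg (by linarith) hδ.le)
      have e2 : min (1 : ℝ) ((s - δ) / δ) = 1 := min_eq_left (by
        rw [le_div_iff₀ hδ]; linarith)
      have e3 : max (s - 2 * δ) 0 = s - 2 * δ := max_eq_left (by linarith)
      rw [e1, e2, e3]
      refine ⟨zero_le_one, le_rfl, by linarith, fun _ => ?_, fun _ => ?_⟩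
      · simp only [sub_self, zero_mul]; exact hδ.le
      · rw [one_mul, mul_one, show s - (s - 2 * δ) = 2 * δ by ring, abs_of_pos (by linarith)]

theorem pert {k x : A} {δ : ℝ} (hδ : 0 < δ) (hk : 0 ≤ k) (hx : ‖star x * x - k‖ ≤ δ) :
    cfc (fun s => max (s - 2 * δ) 0) k ≤ star (x * cfc (gf δ) k) * (x * cfc (gf δ) k) ∧
      ‖x - x * cfc (gf δ) k‖ ≤ Real.sqrt (2 * δ) ∧
      ‖star (x * cfc (gf δ) k) * (x * cfc (gf δ) k) - cfc (fun s => max (s - 2 * δ) 0) k‖ ≤
        3 * δ := by
  set g := cfc (gf δ) k with hg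
  have hgc := gf_cont δ
  have hgs : IsSelfAdjoint g := cfc_predicate _ _
  have hks : IsSelfAdjoint k := hk.isSelfAdjoint
  set E := star x * x - k with hE
  have hEs : IsSelfAdjoint E := (IsSelfAdjoint.star_mul_self x).sub hks
  have e1 : star (x * g) * (x * g) = g * k * g + g * E * g := by
    rw [star_mul, hgs.star_eq, hE]
    noncomm_ring
  have hg1 : ‖g‖ ≤ 1 := norm_cfc_le zero_le_one fun s _ => by
    rw [Real.norm_eq_abs, abs_of_nonneg (gf_bd hδ s).1]
    exact (gf_bd hδ s).2.1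
  have e2 : g * k * g = cfc (fun s => gf δ s * s * gf δ s) k := by
    rw [cfc_mul (fun s => gf δ s * s) (gf δ) k (by fun_prop) (by fun_prop),
      cfc_mul (gf δ) (fun s => s) k (by fun_prop) (by fun_prop), cfc_id' ℝ k]
  refine ⟨?_, ?_, ?_⟩
  · have h1 : -(algebraMap ℝ A δ) ≤ E := by
      have h2 := IsSelfAdjoint.neg_algebraMap_norm_le_self (a := E) hEs
      refine le_trans ?_ h2
      rw [neg_le_neg_iff]
      exact algebraMap_mono A hx
    have h3 := hgs.conjugate_le_conjugate h1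
    have h4 : g * -(algebraMap ℝ A δ) * g = -(cfc (fun s => δ * (gf δ s * gf δ s)) k) := by
      rw [cfc_const_mul δ (fun s => gf δ s * gf δ s) k (by fun_prop),
        cfc_mul (gf δ) (gf δ) k (by fun_prop) (by fun_prop), ← hg, mul_neg, neg_mul,
        ← Algebra.commutes, ← Algebra.smul_def, smul_mul_assoc]
    have h5 : cfc (fun s => max (s - 2 * δ) 0) k ≤ g * k * g +
        -(cfc (fun s => δ * (gf δ s * gf δ s)) k) := by
      rw [e2, ← sub_eq_add_neg, ← cfc_sub _ _ k (by fun_prop) (by fun_prop)]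
      refine cfc_mono (fun s _ => ?_) (by fun_prop) (by fun_prop)
      have h6 := (gf_bd hδ s).2.2.1
      calc max (s - 2 * δ) 0 ≤ gf δ s * (s - δ) * gf δ s := h6
        _ = gf δ s * s * gf δ s - δ * (gf δ s * gf δ s) := by ring
    rw [e1]
    rw [h4] at h3
    exact h5.trans (by gcongr)
  · set h : A := 1 - g with hh
    have hhs : IsSelfAdjoint h := (IsSelfAdjoint.one A).sub hgs
    have e3 : x - x * g = x * h := by rw [hh, mul_sub, mul_one]
    have e4 : h = cfc (fun s => 1 - gf δ s) k := by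
      rw [cfc_sub (fun _ => 1) (gf δ) k (by fun_prop) (by fun_prop), cfc_const_one ℝ k]
    have h1 : ‖h‖ ≤ 1 := by
      rw [e4]
      refine norm_cfc_le zero_le_one fun s _ => ?_
      have h2 := gf_bd hδ s
      rw [Real.norm_eq_abs, abs_of_nonneg (by linarith [h2.2.1])]
      linarith [h2.1]
    have e5 : h * k * h = cfc (fun s => (1 - gf δ s) * s * (1 - gf δ s)) k := by
      rw [cfc_mul (fun s => (1 - gf δ s) * s) (fun s => 1 - gf δ s) k (by fun_prop) (by fun_prop),
        cfc_mul (fun s => 1 - gf δ s) (fun s => s) k (by fun_prop) (by fun_prop), cfc_id' ℝ k, ← e4]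
    have h2 : ‖h * k * h‖ ≤ δ := by
      rw [e5]
      refine norm_cfc_le hδ.le fun s hs => ?_
      have hs0 := spec_nonneg hk hs
      have h3 := gf_bd hδ s
      rw [Real.norm_eq_abs, abs_of_nonneg (mul_nonneg (mul_nonneg (by linarith [h3.2.1]) hs0)
        (by linarith [h3.2.1]))]
      exact h3.2.2.2.1 hs0
    have h3 : ‖h * E * h‖ ≤ δ := by
      calc ‖h * E * h‖ ≤ ‖h‖ * ‖E‖ * ‖h‖ := (norm_mul_le _ _).trans
            (mul_le_mul_of_nonneg_right (norm_mul_le _ _) (norm_nonneg _))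
        _ ≤ 1 * δ * 1 := by gcongr
        _ = δ := by ring
    rw [e3]
    apply Real.le_sqrt_of_sq_le
    rw [sq, ← CStarRing.norm_star_mul_self]
    have e6 : star (x * h) * (x * h) = h * k * h + h * E * h := by
      rw [star_mul, hhs.star_eq, hE]
      noncomm_ring
    rw [e6]
    refine (norm_add_le _ _).trans ?_
    linarith
  · rw [e1]
    have e7 : g * k * g + g * E * g - cfc (fun s => max (s - 2 * δ) 0) k =
        cfc (fun s => gf δ s * s * gf δ s - max (s - 2 * δ) 0) k + g * E * g := by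
      rw [cfc_sub _ _ k (by fun_prop) (by fun_prop), ← e2]
      abel
    rw [e7]
    refine (norm_add_le _ _).trans ?_
    have h1 : ‖cfc (fun s => gf δ s * s * gf δ s - max (s - 2 * δ) 0) k‖ ≤ 2 * δ := by
      refine norm_cfc_le (by positivity) fun s hs => ?_
      rw [Real.norm_eq_abs]
      exact (gf_bd hδ s).2.2.2.2 (spec_nonneg hk hs)
    have h3 : ‖g * E * g‖ ≤ δ := by
      calc ‖g * E * g‖ ≤ ‖g‖ * ‖E‖ * ‖g‖ := (norm_mul_le _ _).trans
            (mul_le_mul_of_nonneg_right (norm_mul_le _ _) (norm_nonneg _))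
        _ ≤ 1 * δ * 1 := by gcongr
        _ = δ := by ring
    linarith

/-- the perturbation lemma in the unital case -/
theorem pertU {k x : A} {δ : ℝ} (hδ : 0 < δ) (hk : 0 ≤ k) (hx : ‖star x * x - k‖ ≤ δ) :
    ∃ (b : ℕ → A) (Z : A),
      Filter.Tendsto (fun n => x * (cfc (gf δ) k * b n)) Filter.atTop (nhds Z) ∧
      star Z * Z = cfc (fun s => max (s - 2 * δ) 0) k ∧ ‖Z - x‖ ≤ 4 * Real.sqrt δ := by
  obtain ⟨h1, h2, h3⟩ := pert hδ hk hx
  obtain ⟨b, Z, hb, hZ, hn⟩ := doug (cfc_nonneg fun s _ => le_max_right _ _) h1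
  refine ⟨b, Z, ?_, hZ, ?_⟩
  · simpa only [mul_assoc] using hb
  · have h4 : Real.sqrt (2 * δ) ≤ 2 * Real.sqrt δ := by
      rw [show 2 * Real.sqrt δ = Real.sqrt (4 * δ) by
        rw [Real.sqrt_mul (by norm_num), show (4 : ℝ) = 2 ^ 2 by norm_num,
          Real.sqrt_sq (by norm_num)]]
      exact Real.sqrt_le_sqrt (by linarith)
    have h5 : Real.sqrt ‖star (x * cfc (gf δ) k) * (x * cfc (gf δ) k) -
        cfc (fun s => max (s - 2 * δ) 0) k‖ ≤ 2 * Real.sqrt δ := by
      rw [show 2 * Real.sqrt δ = Real.sqrt (4 * δ) by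
        rw [Real.sqrt_mul (by norm_num), show (4 : ℝ) = 2 ^ 2 by norm_num,
          Real.sqrt_sq (by norm_num)]]
      exact Real.sqrt_le_sqrt (h3.trans (by linarith))
    have h6 : Z - x = -((x - x * cfc (gf δ) k) + (x * cfc (gf δ) k - Z)) := by abel
    rw [h6, norm_neg]
    refine (norm_add_le _ _).trans ?_
    linarith

end gen

theorem t_T1 : StT1 := by
  intro B _ K X δ hδ hK hX
  let _ := CStarAlgebra.spectralOrder (Unitization ℂ B)
  let _ := CStarAlgebra.spectralOrderedRing (Unitization ℂ B)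
  have hk : (0 : Unitization ℂ B) ≤ (K : Unitization ℂ B) := by
    obtain ⟨b, rfl⟩ := hK
    rw [Unitization.inr_mul, Unitization.inr_star]
    exact star_mul_self_nonneg _
  have hx : ‖star (X : Unitization ℂ B) * (X : Unitization ℂ B) - (K : Unitization ℂ B)‖ ≤ δ := by
    rw [← Unitization.inr_star, ← Unitization.inr_mul, ← Unitization.inr_sub,
      Unitization.norm_inr]
    exact hX
  obtain ⟨b, Z, hb, hZ, hn⟩ := pertU hδ hk hx
  have hg0 : gf δ 0 = 0 := by
    unfold gf
    rw [max_eq_left, min_eq_right zero_le_one]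
    exact div_nonpos_of_nonpos_of_nonneg (by linarith) hδ.le
  have hg : cfc (gf δ) (K : Unitization ℂ B) = ((cfcₙ (gf δ) K : B) : Unitization ℂ B) :=
    (Unitization.real_cfcₙ_eq_cfc_inr K (gf δ) hg0).symm
  set G : B := cfcₙ (gf δ) K with hG
  have hu : ∀ c : Unitization ℂ B, (G : Unitization ℂ B) * c =
      ((c.fst • G + G * c.snd : B) : Unitization ℂ B) := by
    intro c
    ext
    · simp
    · simp
  set u : ℕ → B := fun n => (b n).fst • G + G * (b n).snd with hudef
  have hb' : Filter.Tendsto (fun n => ((X * u n : B) : Unitization ℂ B)) Filter.atTop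
      (nhds Z) := by
    refine hb.congr fun n => ?_
    rw [hg, hu, ← Unitization.inr_mul]
  have hiso : Isometry ((↑) : B → Unitization ℂ B) := Unitization.isometry_inr
  have hemb := hiso.isClosedEmbedding
  obtain ⟨Z0, rfl⟩ : ∃ Z0 : B, (Z0 : Unitization ℂ B) = Z := by
    have h1 : Z ∈ closure (Set.range ((↑) : B → Unitization ℂ B)) :=
      mem_closure_of_tendsto hb' (Filter.Eventually.of_forall fun n => ⟨_, rfl⟩)
    rw [hemb.isClosed_range.closure_eq] at h1
    exact h1
  have hb0 : Filter.Tendsto (fun n => X * u n) Filter.atTop (nhds Z0) :=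
    hemb.isEmbedding.tendsto_nhds_iff.2 hb'
  refine ⟨Z0, ?_, ?_, ?_⟩
  · apply hiso.injective
    rw [Unitization.inr_mul, Unitization.inr_star, hZ]
    exact (Unitization.real_cfcₙ_eq_cfc_inr K (fun s : ℝ => max (s - 2 * δ) 0) (by
      show max ((0 : ℝ) - 2 * δ) 0 = 0
      exact max_eq_right (by linarith))).symm
  · rw [← Unitization.inr_sub, Unitization.norm_inr] at hn
    exact hn
  · exact mem_closure_of_tendsto hb0 (Filter.Eventually.of_forall fun n => ⟨u n, rfl⟩)

end Pool.Agent.Helper7_ND.J_T1
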