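import Pool.Agent.Helper7_ND.Stm5
import Pool.Agent.Helper7_ND.J_T1
import Pool.Agent.Helper7_ND.J_T1R

set_option autoImplicit false

open scoped Matrix.Norms.L2Operator ENNReal Matrix
open Pool.Agent.W659.EC

noncomputable section

namespace Pool.Agent.Helper7_ND.J_T1B

open Pool.Agent.Helper7_ND.J_T1R (norm_le_sum dg dg_apply hom_cfc pi_cfc)

theorem t_T1B (hT1 : StT1) : StT1B := by
  classical
  intro m ε hε
  set c : ℝ := (m : ℝ) * (m : ℝ) with hc
  have hc0 : 0 ≤ c := by positivity
  set δ' : ℝ := min ((ε / 4) ^ 2) (ε / 2) with hδ'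
  have hδ'0 : 0 < δ' := lt_min (by positivity) (by positivity)
  refine ⟨δ' / (c + 1), by positivity, ?_⟩
  intro N _ hN A _ x k hk hx1 hx2
  let _ := CStarAlgebra.spectralOrder A
  let _ := CStarAlgebra.spectralOrderedRing A
  set δ : ℝ := δ' / (c + 1) with hδ
  have hδ0 : 0 < δ := by positivity
  rcases isEmpty_or_nonempty N with hN' | ⟨⟨o⟩⟩
  · exact ⟨x, ε, hε, le_rfl, fun i => (hN'.false i).elim, fun i => (hN'.false i).elim,
      fun i => (hN'.false i).elim, fun _ _ i => (hN'.false i).elim⟩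
  let X : CStarMatrix N N A := CStarMatrix.ofMatrix
    (Matrix.of fun r p => if r = o then x p else 0)
  have hXo : ∀ p : N, X o p = x p := fun p => if_pos rfl
  have hXr : ∀ r p : N, r ≠ o → X r p = 0 := fun r p h => if_neg h
  let K : CStarMatrix N N A := dg (fun _ : N => ()) (fun _ => k)
  have hKpos : Pos K := by
    obtain ⟨b, hb⟩ := hk
    refine ⟨dg (fun _ : N => ()) (fun _ => b), ?_⟩
    change dg (fun _ : N => ()) (fun _ => k) = _
    rw [← map_star, ← map_mul]
    congr 1
    funext l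
    exact hb
  have hsa : IsSelfAdjoint k := by
    obtain ⟨b, hb⟩ := hk
    rw [hb]
    exact IsSelfAdjoint.star_mul_self b
  have hXX : ∀ p q : N, (star X * X) p q = star (x p) * x q := by
    intro p q
    rw [CStarMatrix.mul_apply, Finset.sum_eq_single o]
    · rw [CStarMatrix.star_apply, hXo, hXo]
    · intro r _ hr
      rw [hXr r q hr, mul_zero]
    · intro h
      exact absurd (Finset.mem_univ o) h
  have hentry : ∀ p q : N, ‖(star X * X - K) p q‖ ≤ δ := by
    intro i j
    rw [CStarMatrix.sub_apply, hXX]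
    change ‖star (x i) * x j - (if i = j then k else 0)‖ ≤ δ
    by_cases h' : i = j
    · subst h'
      rw [if_pos rfl]
      exact hx1 i
    · rw [if_neg h', sub_zero]
      exact hx2 i j h'
  have hNm : (Fintype.card N : ℝ) ≤ m := by exact_mod_cast hN
  have hnorm : ‖star X * X - K‖ ≤ δ' := by
    calc ‖star X * X - K‖ ≤ ∑ q : N, ∑ p : N, ‖(star X * X - K) p q‖ := norm_le_sum _
      _ ≤ ∑ q : N, ∑ p : N, δ :=
        Finset.sum_le_sum fun q _ => Finset.sum_le_sum fun p _ => hentry p q
      _ = (Fintype.card N : ℝ) * (Fintype.card N : ℝ) * δ := by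
        simp only [Finset.sum_const, Finset.card_univ, nsmul_eq_mul]
        ring
      _ ≤ c * δ := mul_le_mul_of_nonneg_right
        (mul_le_mul hNm hNm (Nat.cast_nonneg _) (Nat.cast_nonneg _)) hδ0.le
      _ ≤ δ' := by
        rw [hδ, mul_div_assoc', div_le_iff₀ (by positivity)]
        nlinarith
  obtain ⟨Z, hZ1, hZ2, hZ3⟩ := hT1 (CStarMatrix N N A) K X δ' hδ'0 hKpos hnorm
  have hcont : Continuous (fun s : ℝ => max (s - 2 * δ') 0) := by fun_prop
  have hf0 : (fun s : ℝ => max (s - 2 * δ') 0) 0 = 0 := by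
    simp only
    exact max_eq_right (by linarith)
  have hsa' : IsSelfAdjoint (fun _ : Unit => k) := funext fun _ => hsa
  have hZZ : star Z * Z = dg (fun _ : N => ())
      (fun _ => cfcₙ (fun s : ℝ => max (s - 2 * δ') 0) k) := by
    rw [← pi_cfc (fun _ : Unit => k) hsa' _ hcont hf0,
      ← hom_cfc (dg (fun _ : N => ())) (fun _ => k) hsa' _ hcont hf0]
    exact hZ1
  have happ : ∀ η : ℝ, 0 < η → ∃ b : CStarMatrix N N A, ‖Z - X * b‖ < η := by
    intro η hη
    rw [Metric.mem_closure_iff] at hZ3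
    obtain ⟨_, ⟨b, rfl⟩, hb⟩ := hZ3 η hη
    exact ⟨b, by rwa [dist_eq_norm] at hb⟩
  have hXb : ∀ (b : CStarMatrix N N A) (r q : N), r ≠ o → (X * b) r q = 0 := by
    intro b r q hr
    rw [CStarMatrix.mul_apply]
    exact Finset.sum_eq_zero fun p _ => by rw [hXr r p hr, zero_mul]
  have hZr : ∀ r q : N, r ≠ o → Z r q = 0 := by
    intro r q hr
    rw [← norm_le_zero_iff]
    refine le_of_forall_pos_le_add fun η hη => ?_
    obtain ⟨b, hb⟩ := happ η hη
    have h1 := CStarMatrix.norm_entry_le_norm (M := Z - X * b) (i := r) (j := q)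
    rw [CStarMatrix.sub_apply, hXb b r q hr, sub_zero] at h1
    linarith
  have hZZ2 : ∀ p q : N, (star Z * Z) p q = star (Z o p) * Z o q := by
    intro p q
    rw [CStarMatrix.mul_apply, Finset.sum_eq_single o]
    · rw [CStarMatrix.star_apply]
    · intro r _ hr
      rw [hZr r q hr, mul_zero]
    · intro h
      exact absurd (Finset.mem_univ o) h
  have hkey : ∀ p q : N, star (Z o p) * Z o q =
      if p = q then cfcₙ (fun s : ℝ => max (s - 2 * δ') 0) k else 0 := by
    intro p q
    rw [← hZZ2, hZZ, dg_apply]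
  refine ⟨fun i => Z o i, 2 * δ', by positivity, ?_, ?_, ?_, ?_, ?_⟩
  · have := min_le_right ((ε / 4) ^ 2) (ε / 2)
    rw [← hδ'] at this
    linarith
  · intro i
    simp only
    rw [hkey, if_pos rfl]
  · intro i j hij
    simp only
    rw [hkey, if_neg hij]
  · intro i
    simp only
    have h1 := CStarMatrix.norm_entry_le_norm (M := Z - X) (i := o) (j := i)
    rw [CStarMatrix.sub_apply, hXo] at h1
    refine h1.trans (hZ2.trans ?_)
    have h2 : Real.sqrt δ' ≤ ε / 4 := by
      rw [← Real.sqrt_sq (show 0 ≤ ε / 4 by positivity)]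
      exact Real.sqrt_le_sqrt (min_le_left _ _)
    linarith
  · intro d hd i
    simp only
    rw [← norm_le_zero_iff]
    refine le_of_forall_pos_le_add fun η hη => ?_
    obtain ⟨b, hb⟩ := happ (η / (‖d‖ + 1)) (by positivity)
    have h1 := CStarMatrix.norm_entry_le_norm (M := Z - X * b) (i := o) (j := i)
    have h2 : d * (X * b) o i = 0 := by
      rw [CStarMatrix.mul_apply, Finset.mul_sum]
      exact Finset.sum_eq_zero fun p _ => by rw [← mul_assoc, hXo, hd, zero_mul]
    have h3 : d * Z o i = d * (Z - X * b) o i := by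
      rw [CStarMatrix.sub_apply, mul_sub, h2, sub_zero]
    rw [h3, zero_add]
    calc ‖d * (Z - X * b) o i‖ ≤ ‖d‖ * ‖(Z - X * b) o i‖ := norm_mul_le _ _
      _ ≤ ‖d‖ * (η / (‖d‖ + 1)) :=
        mul_le_mul_of_nonneg_left (h1.trans hb.le) (norm_nonneg _)
      _ ≤ η := by
        rw [mul_div_assoc', div_le_iff₀ (by positivity)]
        nlinarith [norm_nonneg d]

end Pool.Agent.Helper7_ND.J_T1B
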