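import Pool.Agent.Helper7_ND.Stm5
import Pool.Agent.Helper7_ND.J_T1
import Pool.Agent.Helper7_ND.J_T1R
import Pool.Agent.Helper7_ND.Rp

/-! # Compressing an exact row (helper420, job ND-T1H of helper7) -/

set_option autoImplicit false

open scoped Matrix.Norms.L2Operator ENNReal Matrix
open Pool.Agent.W659.EC

noncomputable section

namespace Pool.Agent.Helper7_ND.J_T1H

section blk

/-- scalar block diagonal matrices, as matrices over a unital algebra -/
def blk (F : FDA) (U : Type) [CStarAlgebra U] :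
    F.alg →⋆ₙₐ[ℂ] CStarMatrix (Σ l, F.n l) (Σ l, F.n l) U where
  toFun y := by
    classical
    exact CStarMatrix.ofMatrix ((Matrix.blockDiagonal' y).map (algebraMap ℂ U))
  map_smul' c y := by
    classical
    refine CStarMatrix.ext fun p q => ?_
    change algebraMap ℂ U (Matrix.blockDiagonal' (c • y) p q) =
      c • algebraMap ℂ U (Matrix.blockDiagonal' y p q)
    rw [Matrix.blockDiagonal'_smul, Matrix.smul_apply, smul_eq_mul, map_mul, Algebra.smul_def]
  map_zero' := by
    classical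
    refine CStarMatrix.ext fun p q => ?_
    change algebraMap ℂ U (Matrix.blockDiagonal' 0 p q) = 0
    rw [Matrix.blockDiagonal'_zero, Matrix.zero_apply, map_zero]
  map_add' y z := by
    classical
    refine CStarMatrix.ext fun p q => ?_
    change algebraMap ℂ U (Matrix.blockDiagonal' (y + z) p q) =
      algebraMap ℂ U (Matrix.blockDiagonal' y p q) + algebraMap ℂ U (Matrix.blockDiagonal' z p q)
    rw [Matrix.blockDiagonal'_add, Matrix.add_apply, map_add]
  map_mul' y z := by
    classical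
    refine CStarMatrix.ext fun p q => ?_
    change algebraMap ℂ U (Matrix.blockDiagonal' (fun l => y l * z l) p q) =
      ∑ r, algebraMap ℂ U (Matrix.blockDiagonal' y p r) *
        algebraMap ℂ U (Matrix.blockDiagonal' z r q)
    rw [Matrix.blockDiagonal'_mul, Matrix.mul_apply, map_sum]
    exact Finset.sum_congr rfl fun r _ => map_mul _ _ _
  map_star' y := by
    classical
    refine CStarMatrix.ext fun p q => ?_
    change algebraMap ℂ U (Matrix.blockDiagonal' (fun l => (y l)ᴴ) p q) =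
      star (algebraMap ℂ U (Matrix.blockDiagonal' y q p))
    rw [← Matrix.blockDiagonal'_conjTranspose, Matrix.conjTranspose_apply,
      ← algebraMap_star_comm]

theorem blk_same (F : FDA) (U : Type) [CStarAlgebra U] (y : F.alg) (l : F.ι) (i j : F.n l) :
    blk F U y ⟨l, i⟩ ⟨l, j⟩ = algebraMap ℂ U (y l i j) := by
  classical
  change algebraMap ℂ U (Matrix.blockDiagonal' y ⟨l, i⟩ ⟨l, j⟩) = _
  rw [Matrix.blockDiagonal'_apply_eq]

theorem blk_ne (F : FDA) (U : Type) [CStarAlgebra U] (y : F.alg) (l l' : F.ι) (i : F.n l)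
    (j : F.n l') (h : l ≠ l') : blk F U y ⟨l, i⟩ ⟨l', j⟩ = 0 := by
  classical
  change algebraMap ℂ U (Matrix.blockDiagonal' y ⟨l, i⟩ ⟨l', j⟩) = _
  rw [Matrix.blockDiagonal'_apply_ne _ _ _ h, map_zero]

/-- the basic estimate -/
theorem est {F : FDA} {A : Type} [NonUnitalCStarAlgebra A] [PartialOrder A] [StarOrderedRing A]
    (M M' : CStarMatrix (Σ l, F.n l) (Σ l, F.n l) A) (o : Σ l, F.n l) (y : F.alg) :
    ‖∑ l, ∑ i, ∑ j, y l i j • (M o ⟨l, i⟩ * star (M' o ⟨l, j⟩))‖ ≤ ‖M‖ * ‖y‖ * ‖M'‖ := by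
  classical
  let _ := CStarAlgebra.spectralOrder (Unitization ℂ A)
  let _ := CStarAlgebra.spectralOrderedRing (Unitization ℂ A)
  let Jh : CStarMatrix (Σ l, F.n l) (Σ l, F.n l) A →⋆ₙₐ[ℂ]
      CStarMatrix (Σ l, F.n l) (Σ l, F.n l) (Unitization ℂ A) := CStarMatrix.mapₙₐ (jE A)
  have hJ : ∀ (P : CStarMatrix (Σ l, F.n l) (Σ l, F.n l) A) p q,
      Jh P p q = ((P p q : A) : Unitization ℂ A) := fun P p q => rfl
  have hn : ∀ P, ‖Jh P‖ ≤ ‖P‖ := fun P => NonUnitalStarAlgHom.norm_apply_le Jh P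
  have hy : ‖blk F (Unitization ℂ A) y‖ ≤ ‖y‖ :=
    NonUnitalStarAlgHom.norm_apply_le (blk F (Unitization ℂ A)) y
  have key : ((∑ l, ∑ i, ∑ j, y l i j • (M o ⟨l, i⟩ * star (M' o ⟨l, j⟩)) : A) :
      Unitization ℂ A) = (Jh M * (blk F (Unitization ℂ A) y * star (Jh M'))) o o := by
    rw [CStarMatrix.mul_apply, Fintype.sum_sigma]
    have e0 : ∀ a : A, (a : Unitization ℂ A) = jE A a := fun a => rfl
    rw [e0, map_sum]
    refine Finset.sum_congr rfl fun l _ => ?_
    rw [map_sum]
    refine Finset.sum_congr rfl fun i _ => ?_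
    rw [map_sum, CStarMatrix.mul_apply, Fintype.sum_sigma, Finset.sum_eq_single l]
    · rw [Finset.mul_sum]
      refine Finset.sum_congr rfl fun j _ => ?_
      rw [blk_same, CStarMatrix.star_apply, hJ, hJ, map_smul, map_mul, map_star, jE_apply,
        jE_apply, ← Algebra.smul_def, mul_smul_comm]
    · intro l' _ hl
      refine Finset.sum_eq_zero fun j _ => ?_
      rw [blk_ne F _ y l l' i j (Ne.symm hl), zero_mul]
    · intro h
      exact absurd (Finset.mem_univ l) h
  rw [← jE_norm, key]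
  refine (CStarMatrix.norm_entry_le_norm).trans ?_
  calc ‖Jh M * (blk F (Unitization ℂ A) y * star (Jh M'))‖
      ≤ ‖Jh M‖ * (‖blk F (Unitization ℂ A) y‖ * ‖star (Jh M')‖) :=
        (norm_mul_le _ _).trans (mul_le_mul_of_nonneg_left (norm_mul_le _ _) (norm_nonneg _))
    _ ≤ ‖M‖ * (‖y‖ * ‖M'‖) := by
        rw [norm_star]
        exact mul_le_mul (hn M) (mul_le_mul hy (hn M') (norm_nonneg _) (norm_nonneg _))
          (by positivity) (norm_nonneg _)
    _ = _ := by ring

end blk

section single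

variable {A : Type} [NonUnitalCStarAlgebra A] [PartialOrder A] [StarOrderedRing A] {N : Type}
  [Fintype N]

/-- A matrix with a single entry. -/
theorem norm_single_le {o : N} {M : CStarMatrix N N A} (h : ∀ r p, ¬ (r = o ∧ p = o) → M r p = 0) :
    ‖M‖ ≤ ‖M o o‖ := by
  classical
  refine (J_T1R.norm_le_sum M).trans (le_of_eq ?_)
  rw [Finset.sum_eq_single o, Finset.sum_eq_single o]
  · intro r _ hr
    rw [h r o (fun e => hr e.1), norm_zero]
  · intro h
    exact absurd (Finset.mem_univ o) h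
  · intro p _ hp
    exact Finset.sum_eq_zero fun r _ => by rw [h r p (fun e => hp e.2), norm_zero]
  · intro h
    exact absurd (Finset.mem_univ o) h

/-- A matrix with a single row. -/
theorem norm_row_sq {o : N} {M : CStarMatrix N N A} (h : ∀ r p, r ≠ o → M r p = 0) :
    ‖M‖ ^ 2 ≤ ‖∑ p, M o p * star (M o p)‖ := by
  have e : (M * star M) o o = ∑ p, M o p * star (M o p) := by
    rw [CStarMatrix.mul_apply]
    exact Finset.sum_congr rfl fun p _ => by rw [CStarMatrix.star_apply]
  rw [pow_two, ← CStarRing.norm_self_mul_star, ← e]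
  refine norm_single_le fun r p hrp => ?_
  rw [CStarMatrix.mul_apply]
  refine Finset.sum_eq_zero fun q _ => ?_
  rw [CStarMatrix.star_apply]
  by_cases hr : r = o
  · have hp : p ≠ o := fun e => hrp ⟨hr, e⟩
    rw [h p q hp, star_zero, mul_zero]
  · rw [h r q hr, zero_mul]

end single

theorem rowMap_one (F : FDA) {A : Type} [NonUnitalCStarAlgebra A] (x : ∀ l : F.ι, F.n l → A) :
    rowMap F x 1 = ∑ p : (Σ l, F.n l), x p.1 p.2 * star (x p.1 p.2) := by
  classical
  rw [Fintype.sum_sigma]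
  change (∑ l, ∑ i, ∑ j, (1 : F.alg) l i j • (x l i * star (x l j))) = _
  refine Finset.sum_congr rfl fun l _ => Finset.sum_congr rfl fun i _ => ?_
  rw [Finset.sum_eq_single i]
  · rw [Pi.one_apply, Matrix.one_apply_eq, one_smul]
  · intro j _ hj
    rw [Pi.one_apply, Matrix.one_apply_ne (Ne.symm hj), zero_smul]
  · intro h
    exact absurd (Finset.mem_univ i) h

theorem t_T1H (hT1 : StT1) : StT1H := by
  classical
  intro ε hε
  set δ1 : ℝ := (ε / 16) ^ 2 with hδ1
  have hδ10 : 0 < δ1 := by positivity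
  set e2 : ℝ := min (δ1 / 2) (ε / 4) with he2
  have he20 : 0 < e2 := by positivity
  have he2a : e2 ≤ δ1 / 2 := min_le_left _ _
  have he2b : e2 ≤ ε / 4 := min_le_right _ _
  refine ⟨e2 ^ 2 / 2, by positivity, ?_⟩
  intro F A _ x k d hx hk hx1 hd hd1 hsd
  let _ := CStarAlgebra.spectralOrder A
  let _ := CStarAlgebra.spectralOrderedRing A
  let N : Type := Σ l, F.n l
  rcases isEmpty_or_nonempty N with hN | ⟨⟨o⟩⟩
  · have hN' : ∀ l, IsEmpty (F.n l) := fun l => ⟨fun i => hN.false ⟨l, i⟩⟩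
    refine ⟨x, k, hx, hk, hx1, fun y => ?_, fun l i => ((hN' l).false i).elim⟩
    rw [sub_self, norm_zero]
    positivity
  have hsa : ∀ l, IsSelfAdjoint (k l) := by
    intro l
    obtain ⟨b, hb⟩ := hk l
    rw [hb]
    exact IsSelfAdjoint.star_mul_self b
  let X : CStarMatrix N N A := CStarMatrix.ofMatrix
    (Matrix.of fun r p => if r = o then x p.1 p.2 else 0)
  have hXo : ∀ p : N, X o p = x p.1 p.2 := fun p => if_pos rfl
  have hXr : ∀ r p : N, r ≠ o → X r p = 0 := fun r p h => if_neg h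
  let K : CStarMatrix N N A := J_T1R.dg (fun p : N => p.1) k
  have hKpos : Pos K := by
    choose b hb using hk
    refine ⟨J_T1R.dg (fun p : N => p.1) b, ?_⟩
    change J_T1R.dg (fun p : N => p.1) k = _
    rw [← map_star, ← map_mul]
    congr 1
    funext l
    exact hb l
  have hKsa : IsSelfAdjoint K := hKpos.sa
  have hXX : star X * X = K := by
    refine CStarMatrix.ext fun p q => ?_
    have e1 : (star X * X) p q = star (x p.1 p.2) * x q.1 q.2 := by
      rw [CStarMatrix.mul_apply, Finset.sum_eq_single o]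
      · rw [CStarMatrix.star_apply, hXo, hXo]
      · intro r _ hr
        rw [hXr r q hr, mul_zero]
      · intro h
        exact absurd (Finset.mem_univ o) h
    rw [e1]
    obtain ⟨l, i⟩ := p
    obtain ⟨l', j⟩ := q
    change star (x l i) * x l' j = (if (⟨l, i⟩ : N) = ⟨l', j⟩ then k l else 0)
    by_cases h : l = l'
    · subst h
      by_cases h' : i = j
      · subst h'
        rw [if_pos rfl]
        exact sub_eq_zero.1 (norm_le_zero_iff.1 (hx.1 l i))
      · rw [if_neg (by
          intro h2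
          exact h' (eq_of_heq (Sigma.mk.inj h2).2))]
        exact norm_le_zero_iff.1 (hx.2.1 l i j h')
    · rw [if_neg (by
        intro h2
        exact h (Sigma.mk.inj h2).1)]
      exact norm_le_zero_iff.1 (hx.2.2 l l' i j h)
  have hXn : ‖X‖ ^ 2 ≤ 1 := by
    refine (norm_row_sq hXr).trans (le_trans (le_of_eq ?_) hx1)
    rw [rowMap_one]
    congr 1
    exact Finset.sum_congr rfl fun p _ => by rw [hXo]
  have hXn1 : ‖X‖ ≤ 1 := by nlinarith [norm_nonneg X]
  let Dh : (Unit → A) →⋆ₙₐ[ℂ] CStarMatrix N N A := J_T1R.dg (fun _ : N => ())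
  let D : CStarMatrix N N A := Dh (fun _ => d)
  have hDn : ‖D‖ ≤ 1 := by
    refine (NonUnitalStarAlgHom.norm_apply_le Dh (fun _ => d)).trans ?_
    exact (pi_norm_le_iff_of_nonneg zero_le_one).2 fun _ => hd1
  have hDM : ∀ (M : CStarMatrix N N A) r p, (D * M) r p = d * M r p := by
    intro M r p
    rw [CStarMatrix.mul_apply, Finset.sum_eq_single r]
    · change (if r = r then d else 0) * M r p = _
      rw [if_pos rfl]
    · intro q _ hq
      change (if r = q then d else 0) * M q p = _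
      rw [if_neg (Ne.symm hq), zero_mul]
    · intro h
      exact absurd (Finset.mem_univ r) h
  have hDstar : star D = D := by
    have e0 : star (fun _ : Unit => d) = fun _ => d := funext fun _ => hd.sa
    have e1 : star (Dh fun _ : Unit => d) = Dh (star fun _ : Unit => d) :=
      (map_star Dh fun _ : Unit => d).symm
    rw [e0] at e1
    exact e1
  -- the row X - D X is small
  have hXDX : ‖X - D * X‖ ≤ e2 := by
    have h1 : ‖X - D * X‖ ^ 2 ≤ e2 ^ 2 := by
      have hr : ∀ r p : N, r ≠ o → (X - D * X) r p = 0 := by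
        intro r p hr
        rw [CStarMatrix.sub_apply, hDM, hXr r p hr, mul_zero, sub_zero]
      refine (norm_row_sq hr).trans ?_
      have e1 : ∑ p, (X - D * X) o p * star ((X - D * X) o p) =
          (rowMap F x 1 - d * rowMap F x 1) - (rowMap F x 1 - d * rowMap F x 1) * d := by
        rw [rowMap_one, Finset.mul_sum, ← Finset.sum_sub_distrib, Finset.sum_mul,
          ← Finset.sum_sub_distrib]
        refine Finset.sum_congr rfl fun p _ => ?_
        rw [CStarMatrix.sub_apply, hDM, hXo, star_sub, star_mul, hd.sa]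
        noncomm_ring
      rw [e1]
      calc ‖(rowMap F x 1 - d * rowMap F x 1) - (rowMap F x 1 - d * rowMap F x 1) * d‖
          ≤ ‖rowMap F x 1 - d * rowMap F x 1‖ + ‖rowMap F x 1 - d * rowMap F x 1‖ * ‖d‖ :=
            (norm_sub_le _ _).trans (add_le_add_right (norm_mul_le _ _) _)
        _ ≤ e2 ^ 2 / 2 + e2 ^ 2 / 2 * 1 :=
            add_le_add hsd (mul_le_mul hsd hd1 (norm_nonneg _) (by positivity))
        _ = e2 ^ 2 := by ring
    exact (sq_le_sq₀ (norm_nonneg _) he20.le).1 h1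
  have hnorm : ‖star (D * X) * (D * X) - K‖ ≤ δ1 := by
    have e1 : star (D * X) * (D * X) - K = -(star X * ((X - D * X) + D * (X - D * X))) := by
      rw [star_mul, hDstar, ← hXX]
      simp only [mul_add, mul_sub, mul_assoc]
      abel
    rw [e1, norm_neg]
    calc ‖star X * ((X - D * X) + D * (X - D * X))‖
        ≤ ‖star X‖ * (‖X - D * X‖ + ‖D‖ * ‖X - D * X‖) :=
          (norm_mul_le _ _).trans (mul_le_mul_of_nonneg_left ((norm_add_le _ _).trans
            (add_le_add_right (norm_mul_le _ _) _)) (norm_nonneg _))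
      _ ≤ 1 * (e2 + 1 * e2) := by
          rw [norm_star]
          gcongr
      _ ≤ δ1 := by linarith
  obtain ⟨Z, hZ1, hZ2, hZ3⟩ := hT1 (CStarMatrix N N A) K (D * X) δ1 hδ10 hKpos hnorm
  have hcont : Continuous (fun s : ℝ => max (s - 2 * δ1) 0) := by fun_prop
  have hf0 : (fun s : ℝ => max (s - 2 * δ1) 0) 0 = 0 := by
    simp only
    exact max_eq_right (by linarith)
  have hZZ : star Z * Z = J_T1R.dg (fun p : N => p.1)
      (fun l => cfcₙ (fun s : ℝ => max (s - 2 * δ1) 0) (k l)) := by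
    rw [← J_T1R.pi_cfc k (funext fun l => hsa l) _ hcont hf0,
      ← J_T1R.hom_cfc (J_T1R.dg (fun p : N => p.1)) k (funext fun l => hsa l) _ hcont hf0]
    exact hZ1
  have happ : ∀ η : ℝ, 0 < η → ∃ b : CStarMatrix N N A, ‖Z - D * X * b‖ < η := by
    intro η hη
    rw [Metric.mem_closure_iff] at hZ3
    obtain ⟨_, ⟨b, rfl⟩, hb⟩ := hZ3 η hη
    exact ⟨b, by rwa [dist_eq_norm] at hb⟩
  have hXb : ∀ (b : CStarMatrix N N A) (r q : N), r ≠ o → (D * X * b) r q = 0 := by
    intro b r q hr
    rw [CStarMatrix.mul_apply]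
    exact Finset.sum_eq_zero fun p _ => by rw [hDM, hXr r p hr, mul_zero, zero_mul]
  have hZr : ∀ r q : N, r ≠ o → Z r q = 0 := by
    intro r q hr
    rw [← norm_le_zero_iff]
    refine le_of_forall_pos_le_add fun η hη => ?_
    obtain ⟨b, hb⟩ := happ η hη
    have h1 := CStarMatrix.norm_entry_le_norm (M := Z - D * X * b) (i := r) (j := q)
    rw [CStarMatrix.sub_apply, hXb b r q hr, sub_zero] at h1
    linarith
  have hZZ2 : ∀ p q : N, (star Z * Z) p q = star (Z o p) * Z o q := by
    intro p q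
    rw [CStarMatrix.mul_apply, Finset.sum_eq_single o]
    · rw [CStarMatrix.star_apply]
    · intro r _ hr
      rw [hZr r q hr, mul_zero]
    · intro h
      exact absurd (Finset.mem_univ o) h
  have hkey : ∀ p q : N, star (Z o p) * Z o q =
      if p = q then cfcₙ (fun s : ℝ => max (s - 2 * δ1) 0) (k p.1) else 0 := by
    intro p q
    rw [← hZZ2, hZZ, J_T1R.dg_apply]
  have hZn : ‖Z‖ ≤ 1 := by
    have h1 : ‖Z‖ ^ 2 ≤ 1 := by
      rw [pow_two, ← CStarRing.norm_star_mul_self, hZ1]
      refine (norm_cfcₙ_le (c := ‖K‖) fun s hs => ?_).trans ?_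
      · have h2 : ‖s‖ ≤ ‖K‖ :=
          NonUnitalIsometricContinuousFunctionalCalculus.norm_quasispectrum_le K hs hKsa
        rw [Real.norm_of_nonneg (le_max_right _ _)]
        refine max_le ?_ (norm_nonneg _)
        have h3 : s ≤ ‖s‖ := Real.le_norm_self s
        linarith
      · rw [← hXX, CStarRing.norm_star_mul_self, ← pow_two]
        exact hXn
    nlinarith [norm_nonneg Z]
  have hZX : ‖Z - X‖ ≤ ε / 2 := by
    have e1 : Z - X = (Z - D * X) - (X - D * X) := by abel
    rw [e1]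
    refine (norm_sub_le _ _).trans ?_
    have h2 : Real.sqrt δ1 = ε / 16 := by rw [hδ1, Real.sqrt_sq (by positivity)]
    rw [h2] at hZ2
    linarith
  refine ⟨fun l i => Z o ⟨l, i⟩, fun l => cfcₙ (fun s : ℝ => max (s - 2 * δ1) 0) (k l),
    ⟨?_, ?_, ?_⟩, ?_, ?_, ?_, ?_⟩
  · intro l i
    simp only
    rw [hkey, if_pos rfl, sub_self, norm_zero]
  · intro l i j hij
    simp only
    rw [hkey, if_neg, norm_zero]
    intro h2
    exact hij (eq_of_heq (Sigma.mk.inj h2).2)
  · intro l l' i j hll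
    simp only
    rw [hkey, if_neg, norm_zero]
    intro h2
    exact hll (Sigma.mk.inj h2).1
  · intro l
    have h1 : 0 ≤ cfcₙ (fun s : ℝ => max (s - 2 * δ1) 0) (k l) :=
      cfcₙ_nonneg fun s _ => le_max_right _ _
    exact (nonneg_iff_star _).mp h1
  · rw [rowMap_one]
    have e1 : ∑ p : (Σ l, F.n l), Z o ⟨p.1, p.2⟩ * star (Z o ⟨p.1, p.2⟩) = (Z * star Z) o o := by
      rw [CStarMatrix.mul_apply]
      exact Finset.sum_congr rfl fun p _ => by rw [CStarMatrix.star_apply]
    rw [e1]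
    refine CStarMatrix.norm_entry_le_norm.trans ?_
    rw [CStarRing.norm_self_mul_star]
    nlinarith [norm_nonneg Z]
  · intro y
    have e1 : rowMap F (fun l i => Z o ⟨l, i⟩) y - rowMap F x y =
        (∑ l, ∑ i, ∑ j, y l i j • ((Z - X) o ⟨l, i⟩ * star (Z o ⟨l, j⟩))) +
        ∑ l, ∑ i, ∑ j, y l i j • (X o ⟨l, i⟩ * star ((Z - X) o ⟨l, j⟩)) := by
      change (∑ l, ∑ i, ∑ j, y l i j • (Z o ⟨l, i⟩ * star (Z o ⟨l, j⟩))) -
        (∑ l, ∑ i, ∑ j, y l i j • (x l i * star (x l j))) = _
      simp only [← Finset.sum_sub_distrib, ← Finset.sum_add_distrib]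
      refine Finset.sum_congr rfl fun l _ => Finset.sum_congr rfl fun i _ =>
        Finset.sum_congr rfl fun j _ => ?_
      rw [← smul_sub, ← smul_add]
      congr 1
      rw [CStarMatrix.sub_apply, CStarMatrix.sub_apply, hXo, hXo, star_sub]
      noncomm_ring
    rw [e1]
    calc _ ≤ ‖Z - X‖ * ‖y‖ * ‖Z‖ + ‖X‖ * ‖y‖ * ‖Z - X‖ :=
          (norm_add_le _ _).trans (add_le_add (est (Z - X) Z o y) (est X (Z - X) o y))
      _ ≤ ε / 2 * ‖y‖ * 1 + 1 * ‖y‖ * (ε / 2) := by gcongr
      _ = ε * ‖y‖ := by ring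
  · intro l i
    rw [Metric.mem_closure_iff]
    intro η hη
    obtain ⟨b, hb⟩ := happ η hη
    refine ⟨d * (X * b) o ⟨l, i⟩, ⟨_, rfl⟩, ?_⟩
    have h1 := CStarMatrix.norm_entry_le_norm (M := Z - D * X * b) (i := o) (j := (⟨l, i⟩ : N))
    rw [CStarMatrix.sub_apply] at h1
    have h2 : (D * X * b) o ⟨l, i⟩ = d * (X * b) o ⟨l, i⟩ := by rw [mul_assoc, hDM]
    rw [h2] at h1
    rw [dist_eq_norm]
    exact h1.trans_lt hb

end Pool.Agent.Helper7_ND.J_T1H
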