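import Pool.Agent.Helper7_ND.Stm6

/-! # Nuclear dimension of extensions: the sum over all colours (TOT), and the norms (MNRM) -/

set_option autoImplicit false

open scoped Matrix.Norms.L2Operator ENNReal Matrix
open Pool.Agent.W659.EC

noncomputable section

namespace Pool.Agent.Helper7_ND.J_TOT

section one

variable {T Q : Type} [CStarAlgebra T] [CStarAlgebra Q] {F : FDA}

/-- the composition with `ω` -/
def cmω (ω : T →⋆ₐ[ℂ] Q) (Φ : F.alg →ₗ[ℂ] T) : F.alg →ₗ[ℂ] Q :=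
  (ω.toAlgHom.toLinearMap) ∘ₗ Φ

theorem cmω_apply (ω : T →⋆ₐ[ℂ] Q) (Φ : F.alg →ₗ[ℂ] T) (y : F.alg) : cmω ω Φ y = ω (Φ y) := rfl

theorem cmω_cp (ω : T →⋆ₐ[ℂ] Q) {Φ : F.alg →ₗ[ℂ] T} (h : IsCP Φ) : IsCP (cmω ω Φ) :=
  (isCP_hom ω (ω.toAlgHom.toLinearMap) fun _ => rfl).comp h

theorem cmω_oz (ω : T →⋆ₐ[ℂ] Q) {Φ : F.alg →ₗ[ℂ] T}
    (h : ∀ x y, ω (Φ x * Φ y) = ω (Φ 1 * Φ (x * y))) : OZ (cmω ω Φ) := by
  intro x y
  simp only [cmω_apply, ← map_mul]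
  exact h x y

theorem pos_one {A : Type} [CStarAlgebra A] : Pos (1 : A) := ⟨1, by simp⟩

/-- everything needed about one colour -/
theorem key (hWMAP : StWMAP) (hWPOS : StWPOS) {δ : ℝ} (hδ : 0 < δ) (ω : T →⋆ₐ[ℂ] Q)
    {Φ : F.alg →ₗ[ℂ] T} {u : T} (hcp : IsCP Φ)
    (hoz : ∀ x y, ω (Φ x * Φ y) = ω (Φ 1 * Φ (x * y))) (hu : Pos u)
    (hcom : ∀ y, ω (u * Φ y) = ω (Φ y * u)) :
    ω (cutL δ (Φ 1) u) = cutL δ (ω (Φ 1)) (ω u) ∧ Pos (cutL δ (ω (Φ 1)) (ω u)) ∧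
      (∀ y, cutL δ (ω (Φ 1)) (ω u) * ω (Φ y) = ω (Φ y) * cutL δ (ω (Φ 1)) (ω u)) ∧
      ∀ y, ω (conjL (sq (1 - cutL δ (Φ 1) u)) (Φ y))
        = (1 - cutL δ (ω (Φ 1)) (ω u)) * ω (Φ y) := by
  have hc : Pos (Φ 1) := IsCP.pos hcp pos_one
  have hc' : Pos (ω (Φ 1)) := hc.map ω
  have hu' : Pos (ω u) := hu.map ω
  have e1 := (hWMAP T Q ω Unit ∅ δ hδ 0 (Φ 1) u (fun _ => 0) hc hu.sa (by simp)).2.1
  obtain ⟨-, -, -, p1, -, p2, -, -⟩ :=
    hWPOS T Unit ∅ δ hδ 0 (Φ 1) u (fun _ => 0) Pos.zero hc hu.sa (by simp)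
  obtain ⟨-, -, -, q1, -, q2, q3, -⟩ :=
    hWPOS Q Unit ∅ δ hδ 0 (ω (Φ 1)) (ω u) (fun _ => 0) Pos.zero hc' hu'.sa (by simp)
  have e2 := (hWMAP T Q ω Unit ∅ δ hδ 0 (1 - cutL δ (Φ 1) u) u (fun _ => 0) p2 hu.sa (by simp)).1
  obtain ⟨r1, r2, r3, -⟩ := hWPOS Q Unit ∅ δ hδ 0 (1 - cutL δ (ω (Φ 1)) (ω u)) (ω u)
    (fun _ => 0) Pos.zero q2 hu'.sa (by simp)
  have hcc : ∀ y, ω (Φ y) * ω (Φ 1) = ω (Φ 1) * ω (Φ y) := by
    intro y
    rw [← map_mul, hoz, mul_one, map_mul]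
  have hcu : ∀ y, ω (Φ y) * ω u = ω u * ω (Φ y) := by
    intro y
    rw [← map_mul, ← hcom, map_mul]
  have hL : ∀ y, ω (Φ y) * cutL δ (ω (Φ 1)) (ω u) = cutL δ (ω (Φ 1)) (ω u) * ω (Φ y) :=
    fun y => q3 _ (hcc y) (hcu y)
  refine ⟨e1, q1, fun y => (hL y).symm, fun y => ?_⟩
  have hA : ω (Φ y) * sq (1 - cutL δ (ω (Φ 1)) (ω u))
      = sq (1 - cutL δ (ω (Φ 1)) (ω u)) * ω (Φ y) := by
    refine r3 _ ?_
    rw [mul_sub, sub_mul, mul_one, one_mul, hL]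
  rw [conjL_apply, map_mul, map_mul, map_star, e2, map_sub, map_one, e1, r1.sa, mul_assoc, hA,
    ← mul_assoc, r2]

end one

theorem elM_map (hWMAP : StWMAP) (hWPOS : StWPOS) {J : Type} [Fintype J] [DecidableEq J] {δ : ℝ}
    (hδ : 0 < δ) {T Q : Type} [CStarAlgebra T] [CStarAlgebra Q] (ω : T →⋆ₐ[ℂ] Q) {F : J → FDA}
    {Φ : ∀ j, (F j).alg →ₗ[ℂ] T} {u t : T} (hcp : ∀ j, IsCP (Φ j))
    (hoz : ∀ j x y, ω (Φ j x * Φ j y) = ω (Φ j 1 * Φ j (x * y))) (ht : Pos t) (hu : Pos u)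
    (hcom : ∀ j y, ω (u * Φ j y) = ω (Φ j y * u)) (i : J) (g : T) (X : ∀ j, (F j).alg) :
    ω (elM δ i t u Φ g X) = ω t * ω g * ω t + ω (Φ i (X i))
      + ∑ k ∈ Finset.univ.erase i, (1 - cutL δ (ω (Φ k 1)) (ω u)) * ω (Φ k (X k)) := by
  rw [elM, map_add, map_add, map_sum, conjL_apply, ht.sa, map_mul, map_mul]
  congr 1
  refine Finset.sum_congr rfl fun k _ => ?_
  exact (key hWMAP hWPOS hδ ω (hcp k) (hoz k) hu (hcom k)).2.2.2 (X k)

theorem norm_one_sub_sq {A : Type} [CStarAlgebra A] {v : A} (hv : Pos v) (h1 : ‖v‖ ≤ 1) :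
    ‖1 - v * v‖ ≤ 1 := by
  let _ := CStarAlgebra.spectralOrder A
  let _ := CStarAlgebra.spectralOrderedRing A
  have hvv : ‖v * v‖ ≤ 1 := (norm_mul_le _ _).trans (by nlinarith [norm_nonneg v])
  have hpos : (0 : A) ≤ v * v := by
    have := star_mul_self_nonneg v
    rwa [hv.sa] at this
  have hle : v * v ≤ 1 := (CStarAlgebra.norm_le_one_iff_of_nonneg _ hpos).1 hvv
  have h2 : (0 : A) ≤ 1 - v * v := sub_nonneg.2 hle
  have h3 : 1 - v * v ≤ 1 := sub_le_self _ hpos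
  exact (CStarAlgebra.norm_le_one_iff_of_nonneg _ h2).2 h3

theorem t_TOT (hWMAP : StWMAP) (hWPOS : StWPOS) (hWQ3 : StWQ3) : StTOT := by
  intro J _ _ δ C hδ hC T Q _ _ ω F Φ v u t g H X hcp hoz ht ht1 hu hu1 hv hv1 hvu hut hcom hH hX
  have hk := fun j => key hWMAP hWPOS hδ ω (hcp j) (hoz j) hu (hcom j)
  set L : J → Q := fun j => cutL δ (ω (Φ j 1)) (ω u) with hL
  set x : J → Q := fun j => ω (Φ j (X j)) with hx
  set G0 : Q := ω t * ω g * ω t with hG0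
  set S : Q := ∑ k, (1 - L k) * x k with hS
  have hM : ∀ i, ω (elM δ i t u Φ g X) = G0 + S + L i * x i := by
    intro i
    rw [elM_map hWMAP hWPOS hδ ω hcp hoz ht hu hcom i g X, hS,
      ← Finset.add_sum_erase Finset.univ (fun k => (1 - L k) * x k) (Finset.mem_univ i)]
    simp only [sub_mul, one_mul, hL, hx, hG0]
    abel
  have hterm : ∀ i, (1 - H i) * (ω (cutL δ (Φ i 1) u) * ω (Φ i (X i)))
      + H i * ω (elM δ i t u Φ g X) = L i * x i + H i * (G0 + S) := by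
    intro i
    rw [hM, (hk i).1]
    simp only [sub_mul, one_mul, mul_add, hL, hx]
    abel
  have hvt : ω v * ω t = ω t := by
    have h1 : ω u * ω t = ω t := by rw [← map_mul, hut]
    have h2 : ω v * ω u = ω u := by rw [← map_mul, hvu]
    rw [← h1, ← mul_assoc, h2]
  have hG : ω (v * v) * G0 = G0 := by
    rw [hG0, map_mul, mul_assoc, ← mul_assoc (ω v) (ω t * ω g), ← mul_assoc (ω v) (ω t), hvt,
      ← mul_assoc (ω v), ← mul_assoc (ω v) (ω t), hvt]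
  have hdiff : ∑ i, ((1 - H i) * (ω (cutL δ (Φ i 1) u) * ω (Φ i (X i)))
      + H i * ω (elM δ i t u Φ g X)) - ω (t * g * t + ∑ j, Φ j (X j))
      = - ∑ k, (1 - ω v * ω v) * ((1 - L k) * x k) := by
    rw [Finset.sum_congr rfl fun i _ => hterm i, Finset.sum_add_distrib, ← Finset.sum_mul, hH,
      mul_add, hG, map_add, map_sum, map_mul ω (t * g) t, map_mul ω t g, ← Finset.mul_sum, ← hS,
      ← hG0, map_mul ω v v]
    have hSx : ∑ k, ω (Φ k (X k)) = S + ∑ k, L k * x k := by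
      rw [hS, ← Finset.sum_add_distrib]
      refine Finset.sum_congr rfl fun k _ => ?_
      rw [sub_mul, one_mul, sub_add_cancel]
    rw [hSx, sub_mul, one_mul]
    abel
  rw [hdiff, norm_neg]
  refine (norm_sum_le _ _).trans ?_
  have hb : ∀ k ∈ Finset.univ, ‖(1 - ω v * ω v) * ((1 - L k) * x k)‖ ≤ 4 * δ * C := by
    intro k _
    have h1 : ω u * cmω ω (Φ k) 1 = cmω ω (Φ k) 1 * ω u := by
      rw [cmω_apply, ← map_mul, hcom, map_mul]
    have h2 : (1 - ω v * ω v) * ω u = 0 := by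
      have h2 : ω v * ω u = ω u := by rw [← map_mul, hvu]
      rw [sub_mul, one_mul, mul_assoc, h2, h2, sub_self]
    have h3 : ‖1 - ω v * ω v‖ ≤ 1 :=
      norm_one_sub_sq (hv.map ω) ((NonUnitalStarAlgHom.norm_apply_le ω v).trans hv1)
    have := hWQ3 Q (F k) (cmω ω (Φ k)) δ hδ (cmω_cp ω (hcp k)) (cmω_oz ω (hoz k)) (ω u)
      (1 - ω v * ω v) (hu.map ω) h1 h2 h3 (X k)
    refine this.trans ?_
    have h4 := hX k
    have h5 : 0 ≤ 4 * δ := by positivity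
    exact mul_le_mul_of_nonneg_left h4 h5
  refine (Finset.sum_le_sum hb).trans ?_
  rw [Finset.sum_const, nsmul_eq_mul, Finset.card_univ, mul_comm]

theorem t_MNRM (hWMAP : StWMAP) (hWPOS : StWPOS) : StMNRM := by
  intro J _ _ δ ε hδ hε T Q _ _ ω F Φ i u t hcp hoz ht hu hcom hpos
  have hk := fun j => key hWMAP hWPOS hδ ω (hcp j) (hoz j) hu (hcom j)
  set L : J → Q := fun j => cutL δ (ω (Φ j 1)) (ω u) with hL
  set c : J → Q := fun j => ω (Φ j 1) with hc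
  have hM := elM_map hWMAP hWPOS hδ ω hcp hoz ht hu hcom i 1 (fun _ => 1)
  have hcpos : ∀ j, Pos (c j) := fun j => (IsCP.pos (hcp j) pos_one).map ω
  -- `L_k c_k` is positive
  have hLc : ∀ j, Pos (L j * c j) := by
    intro j
    have hLp : Pos (L j) := (hk j).2.1
    obtain ⟨r1, r2, r3, -⟩ := hWPOS Q Unit ∅ δ hδ 0 (L j) (ω u)
      (fun _ => 0) Pos.zero hLp (hu.map ω).sa (by simp)
    have h1 : c j * L j = L j * c j := ((hk j).2.2.1 1).symm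
    have h2 := r3 _ h1
    have h3 := (hcpos j).conj (sq (L j))
    rw [r1.sa, mul_assoc, h2, ← mul_assoc, r2] at h3
    exact h3
  have hMpos : Pos (ω (elM δ i t u Φ 1 (fun _ => 1))) := by
    refine Pos.map ?_ ω
    rw [elM]
    refine ((pos_one.conj t).add (IsCP.pos (hcp i) pos_one)).add (Pos.sum _ fun k _ => ?_)
    exact (IsCP.pos (hcp k) pos_one).conj _
  have hdiff : Pos ((1 + ε : ℂ) • (1 : Q) - ω (elM δ i t u Φ 1 (fun _ => 1))) := by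
    have h1 := hpos.map ω
    have h2 : (1 + ε : ℂ) • (1 : Q) - ω (elM δ i t u Φ 1 (fun _ => 1))
        = ω ((1 + ε : ℂ) • (1 : T) - t * t - ∑ j, Φ j 1)
          + ∑ k ∈ Finset.univ.erase i, L k * c k := by
      rw [hM, map_sub, map_sub, map_smul, map_one, map_sum, map_mul,
        ← Finset.add_sum_erase Finset.univ (fun k => ω (Φ k 1)) (Finset.mem_univ i)]
      simp only [sub_mul, one_mul, mul_one, Finset.sum_sub_distrib, hL, hc]
      abel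
    rw [h2]
    exact h1.add (Pos.sum _ fun k _ => hLc k)
  refine (hMpos.norm_le hdiff).trans ?_
  rw [norm_smul]
  have h3 : ‖(1 + ε : ℂ)‖ = 1 + ε := by
    have : (1 + ε : ℂ) = ((1 + ε : ℝ) : ℂ) := by push_cast; rfl
    rw [this, Complex.norm_real, Real.norm_of_nonneg (by positivity)]
  rw [h3]
  have h4 : ‖(1 : Q)‖ ≤ 1 := by
    have := CStarRing.norm_self_mul_star (x := (1 : Q))
    rw [star_one, mul_one] at this
    by_contra hcon
    push Not at hcon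
    nlinarith [norm_nonneg (1 : Q)]
  have h5 : 0 ≤ 1 + ε := by positivity
  nlinarith

end Pool.Agent.Helper7_ND.J_TOT
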