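import Pool.Agent.Helper7_ND.Stm7
import Pool.Agent.Helper7_ND.J_TOT
import Pool.Agent.Helper7_ND.J_CORE

/-! # Nuclear dimension of extensions: the sum over all colours, simple version (TOT3), and CD -/

set_option autoImplicit false

open scoped Matrix.Norms.L2Operator ENNReal Matrix
open Pool.Agent.W659.EC

noncomputable section

namespace Pool.Agent.Helper7_ND.J_TOT3

/-- if `H` and `1 - H` are positive, the norm of `1 - H` is at most one -/
theorem norm_one_sub_le {A : Type} [CStarAlgebra A] {H : A} (h0 : Pos H) (h1 : Pos (1 - H)) :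
    ‖1 - H‖ ≤ 1 := by
  let _ := CStarAlgebra.spectralOrder A
  let _ := CStarAlgebra.spectralOrderedRing A
  rw [pos_iff] at h0 h1
  have h3 : 1 - H ≤ 1 := sub_le_self _ h0
  exact (CStarAlgebra.norm_le_one_iff_of_nonneg _ h1).2 h3

theorem t_TOT3 (hWMAP : StWMAP) (hWPOS : StWPOS) (hWQ3 : StWQ3) : StTOT3 := by
  intro J _ δ C hδ hC T Q _ _ ω F Φ v t g H X hcp hoz ht hv hvt hH0 hH1 hH hX
  have h0c : ∀ j y, ω ((0 : T) * Φ j y) = ω (Φ j y * 0) := fun j y => by
    rw [zero_mul, mul_zero]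
  have hk := fun j => J_TOT.key hWMAP hWPOS hδ ω (hcp j) (hoz j) Pos.zero (h0c j)
  set L : J → Q := fun j => cutL δ (ω (Φ j 1)) 0 with hL
  set x : J → Q := fun j => ω (Φ j (X j)) with hx
  set G0 : Q := ω t * ω g * ω t with hG0
  have hterm : ∀ i, (1 - H i) * (ω (cutL δ (Φ i 1) 0) * ω (Φ i (X i)))
      + H i * ω (conjL t g + Φ i (X i)) = x i + H i * G0 - (1 - H i) * ((1 - L i) * x i) := by
    intro i
    rw [(hk i).1, map_zero, map_add, conjL_apply, ht.sa, map_mul, map_mul]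
    simp only [hL, hx, hG0]
    noncomm_ring
  have hvt' : ω v * ω t = ω t := by rw [← map_mul, hvt]
  have hG : ω (v * v) * G0 = G0 := by
    rw [hG0, map_mul, mul_assoc, ← mul_assoc (ω v) (ω t * ω g), ← mul_assoc (ω v) (ω t), hvt',
      ← mul_assoc (ω v), ← mul_assoc (ω v) (ω t), hvt']
  have hdiff : ∑ i, ((1 - H i) * (ω (cutL δ (Φ i 1) 0) * ω (Φ i (X i)))
      + H i * ω (conjL t g + Φ i (X i))) - ω (t * g * t + ∑ j, Φ j (X j))
      = - ∑ k, (1 - H k) * ((1 - L k) * x k) := by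
    rw [Finset.sum_congr rfl fun i _ => hterm i, Finset.sum_sub_distrib, Finset.sum_add_distrib,
      ← Finset.sum_mul, hH, hG, map_add, map_sum, map_mul ω (t * g) t, map_mul ω t g, ← hG0]
    simp only [hx]
    abel
  rw [hdiff, norm_neg]
  refine (norm_sum_le _ _).trans ?_
  have hb : ∀ k ∈ Finset.univ, ‖(1 - H k) * ((1 - L k) * x k)‖ ≤ 4 * δ * C := by
    intro k _
    have := hWQ3 Q (F k) (J_TOT.cmω ω (Φ k)) δ hδ (J_TOT.cmω_cp ω (hcp k))
      (J_TOT.cmω_oz ω (hoz k)) 0 (1 - H k) Pos.zero (by rw [zero_mul, mul_zero]) (mul_zero _)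
      (norm_one_sub_le (hH0 k) (hH1 k)) (X k)
    refine this.trans ?_
    exact mul_le_mul_of_nonneg_left (hX k) (by positivity)
  refine (Finset.sum_le_sum hb).trans ?_
  rw [Finset.sum_const, nsmul_eq_mul, Finset.card_univ, mul_comm]

theorem t_CD (hROW : StROW) : StCD := by
  intro A _ J _ hC G ε hε
  set M : ℝ := ∑ g ∈ G, ‖g‖ with hM
  have hM0 : 0 ≤ M := Finset.sum_nonneg fun x _ => norm_nonneg x
  have hGM : ∀ a ∈ G, ‖a‖ ≤ M := fun a ha =>
    Finset.single_le_sum (f := fun x => ‖x‖) (fun x _ => norm_nonneg x) ha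
  have hden : 0 < 1 + M := by positivity
  set e : ℝ := ε / (1 + M) with he
  have he0 : 0 < e := div_pos hε hden
  have he1 : e + e * M = ε := by
    rw [he]
    field_simp
  obtain ⟨F, ψ, x, k, b, hψ, hrow, hk, hone, happ, hmul, -⟩ := hC G e he0
  have hcp : ∀ j, IsCP (rowMap (F j) (x j)) := fun j => hROW.1 (F j) A (x j)
  have hoz : ∀ j, IsOrderZero (rowMap (F j) (x j)) := fun j =>
    hROW.2.1 (F j) A (x j) (k j) (hrow j)
  have hle : ∀ j y, ‖rowMap (F j) (x j) y‖ ≤ (1 + e) * ‖y‖ := fun j y =>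
    J_CORE.norm_row_le hcp hone j y
  set c : ℝ := (1 + e)⁻¹ with hc
  have hc0 : 0 ≤ c := by positivity
  have hc1 : c * (1 + e) = 1 := inv_mul_cancel₀ (by positivity)
  have hc2 : c ≤ 1 := by nlinarith
  have hc3 : 1 - c ≤ e := by nlinarith
  have hcn : ‖(c : ℂ)‖ = c := by rw [Complex.norm_real, Real.norm_of_nonneg hc0]
  refine ⟨F, ψ, fun j => (c : ℂ) • rowMap (F j) (x j), hψ, fun j => ⟨⟨(hcp j).smul hc0, ?_⟩, ?_⟩,
    ?_, ?_⟩
  · intro y
    rw [LinearMap.smul_apply, norm_smul, hcn]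
    calc c * ‖rowMap (F j) (x j) y‖ ≤ c * ((1 + e) * ‖y‖) :=
          mul_le_mul_of_nonneg_left (hle j y) hc0
      _ = ‖y‖ := by rw [← mul_assoc, hc1, one_mul]
  · intro u w huw
    rw [LinearMap.smul_apply, LinearMap.smul_apply, smul_mul_smul_comm, hoz j u w huw, smul_zero]
  · intro g hg
    have h1 : ∑ j, ((c : ℂ) • rowMap (F j) (x j)) (ψ j g) - g
        = (c : ℂ) • (∑ j, rowMap (F j) (x j) (ψ j g) - g) - ((1 - c : ℝ) : ℂ) • g := by
      simp only [LinearMap.smul_apply, ← Finset.smul_sum]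
      rw [smul_sub, Complex.ofReal_sub, Complex.ofReal_one, sub_smul, one_smul]
      abel
    rw [h1]
    refine (norm_sub_le _ _).trans ?_
    rw [norm_smul, norm_smul, hcn, Complex.norm_real, Real.norm_of_nonneg (by linarith)]
    have h2 : c * ‖∑ j, rowMap (F j) (x j) (ψ j g) - g‖ ≤ 1 * e :=
      mul_le_mul hc2 (happ g hg) (norm_nonneg _) zero_le_one
    have h3 : (1 - c) * ‖g‖ ≤ e * M :=
      mul_le_mul hc3 (hGM g hg) (norm_nonneg _) he0.le
    linarith
  · intro g hg j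
    have h1 : ((c : ℂ) • rowMap (F j) (x j)) (ψ j g) - ((c : ℂ) • rowMap (F j) (x j)) 1 * g
        = (c : ℂ) • (rowMap (F j) (x j) (ψ j g) - rowMap (F j) (x j) 1 * g) := by
      rw [LinearMap.smul_apply, LinearMap.smul_apply, smul_mul_assoc, smul_sub]
    rw [h1, norm_smul, hcn]
    have h2 : c * ‖rowMap (F j) (x j) (ψ j g) - rowMap (F j) (x j) 1 * g‖ ≤ 1 * e :=
      mul_le_mul hc2 (hmul g hg j) (norm_nonneg _) zero_le_one
    have h3 : 0 ≤ e * M := by positivity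
    linarith

end Pool.Agent.Helper7_ND.J_TOT3
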