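import Pool.Agent.Helper7_ND.Mrg2
import Pool.Agent.Helper7_ND.J_L1

/-! # The merging, III: the map into the ideal and the elements of the reduced product -/

set_option autoImplicit false
set_option linter.unusedSectionVars false
set_option linter.unusedVariables false

open scoped Matrix.Norms.L2Operator ENNReal Matrix
open Pool.Agent.W659.EC Filter

noncomputable section

namespace Pool.Agent.Helper7_ND

/-! ## positivity in unital algebras -/

theorem pos_one_sub {A : Type} [CStarAlgebra A] {x : A} (hx : Pos x) (h1 : ‖x‖ ≤ 1) : Pos (1 - x) := by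
  let _ := CStarAlgebra.spectralOrder A
  let _ := CStarAlgebra.spectralOrderedRing A
  rw [pos_iff] at *
  rw [sub_nonneg]
  exact (CStarAlgebra.norm_le_one_iff_of_nonneg x hx).1 h1

theorem pos_spec {A : Type} [CStarAlgebra A] {x : A} (hx : Pos x) (h1 : ‖x‖ ≤ 1) :
    ∀ s ∈ spectrum ℝ x, 0 ≤ s ∧ s ≤ 1 := by
  let _ := CStarAlgebra.spectralOrder A
  let _ := CStarAlgebra.spectralOrderedRing A
  intro s hs
  rw [pos_iff] at hx
  have hsa : IsSelfAdjoint x := IsSelfAdjoint.of_nonneg hx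
  refine ⟨spectrum_nonneg_of_nonneg hx hs, ?_⟩
  have := (CStarAlgebra.norm_le_one_iff_of_nonneg x hx).1 h1
  have h3 : ‖s‖ ≤ ‖x‖ * ‖(1 : A)‖ := spectrum.norm_le_norm_mul_of_mem hs
  have h4 : ‖(1 : A)‖ ≤ 1 := by
    rcases subsingleton_or_nontrivial A with h | h
    · rw [Subsingleton.elim (1 : A) 0, norm_zero]; exact zero_le_one
    · exact CStarRing.norm_one.le
  have h5 : ‖s‖ ≤ 1 := h3.trans (by
    calc ‖x‖ * ‖(1 : A)‖ ≤ 1 * 1 := by gcongr
      _ = 1 := one_mul 1)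
  exact (le_abs_self s).trans h5

/-- the function `√(1 - s²)` -/
def sqc (s : ℝ) : ℝ := Real.sqrt (1 - s ^ 2)

theorem sqc_cont : Continuous sqc := by unfold sqc; fun_prop

theorem sqc_mul {A : Type} [CStarAlgebra A] {x : A} (hx : Pos x) (h1 : ‖x‖ ≤ 1) :
    cfc sqc x * cfc sqc x = 1 - x * x := by
  have hsa : IsSelfAdjoint x := hx.sa
  rw [← cfc_mul sqc sqc x sqc_cont.continuousOn sqc_cont.continuousOn]
  have h2 : cfc (fun s : ℝ => sqc s * sqc s) x = cfc (fun s : ℝ => 1 - s * s) x := by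
    refine cfc_congr fun s hs => ?_
    obtain ⟨a, b⟩ := pos_spec hx h1 s hs
    show sqc s * sqc s = 1 - s * s
    rw [sqc, Real.mul_self_sqrt (by nlinarith)]
    ring
  rw [h2, cfc_sub (fun _ : ℝ => (1 : ℝ)) (fun s => s * s) x (by fun_prop) (by fun_prop),
    cfc_const_one ℝ x, cfc_mul (fun s : ℝ => s) (fun s => s) x (by fun_prop) (by fun_prop),
    cfc_id' ℝ x]

theorem sqc_pos {A : Type} [CStarAlgebra A] (x : A) : Pos (cfc sqc x) := by
  let _ := CStarAlgebra.spectralOrder A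
  let _ := CStarAlgebra.spectralOrderedRing A
  rw [pos_iff]
  exact cfc_nonneg fun s _ => Real.sqrt_nonneg _

/-- `√(1 - x²)` -/
def sqcOf {A : Type} [CStarAlgebra A] (x : A) : A := cfc sqc x

theorem sqcOf_mul {A : Type} [CStarAlgebra A] {x : A} (hx : Pos x) (h1 : ‖x‖ ≤ 1) :
    sqcOf x * sqcOf x = 1 - x * x := sqc_mul hx h1

theorem sqcOf_pos {A : Type} [CStarAlgebra A] (x : A) : Pos (sqcOf x) := sqc_pos x

theorem hom_cont {A B : Type} [CStarAlgebra A] [CStarAlgebra B] (f : A →⋆ₐ[ℂ] B) :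
    Continuous f := by
  have : Continuous (((f : A →ₗ[ℂ] B)).mkContinuous 1 (fun x => by
    rw [one_mul]; exact NonUnitalStarAlgHom.norm_apply_le f x)) := ContinuousLinearMap.continuous _
  exact this

theorem map_sqcOf {A B : Type} [CStarAlgebra A] [CStarAlgebra B] (f : A →⋆ₐ[ℂ] B) (x : A)
    (hx : Pos x) : f (sqcOf x) = sqcOf (f x) :=
  StarAlgHomClass.map_cfc (S := ℂ) f sqc x (hf := sqc_cont.continuousOn) (hφ := hom_cont f)
    (ha := hx.sa) (hφa := (show IsSelfAdjoint x from hx.sa).map f)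

theorem sqcOf_comm {A : Type} [CStarAlgebra A] {x y : A} (h : x * y = y * x) :
    sqcOf x * y = y * sqcOf x := by
  have hc : Commute x y := h
  exact hc.cfc_real sqc

section theta

variable {I E : Type} [NonUnitalCStarAlgebra I] [NonUnitalCStarAlgebra E] {ι : I →⋆ₙₐ[ℂ] E}
  (hι : IsIdeal ι) {F : FDA} (ψ : E →ₗ[ℂ] F.alg) (Φ : F.alg →ₗ[ℂ] E) (t : I)

/-- the map into the ideal -/
def Tht (hι : IsIdeal ι) {F : FDA} (ψ : E →ₗ[ℂ] F.alg) (Φ : F.alg →ₗ[ℂ] E) (t v : I) : E →ₗ[ℂ] I :=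
  cmp hι v ∘ₗ (jE E : E →ₗ[ℂ] Unitization ℂ E) ∘ₗ Φ ∘ₗ ψ + cmp hι t ∘ₗ (jE E : E →ₗ[ℂ] Unitization ℂ E)

theorem Tht_apply (v : I) (x : E) :
    Tht hι ψ Φ t v x = cmp hι v (jE E (Φ (ψ x))) + cmp hι t (jE E x) := rfl

theorem isCP_Tht (hψ : IsCPC ψ) (hΦ : IsCP Φ) (v : I) : IsCP (Tht hι ψ Φ t v) :=
  ((isCP_cmp hι v).comp ((isCP_hom (jE E) _ fun _ => rfl).comp (hΦ.comp hψ.1))).add
    ((isCP_cmp hι t).comp (isCP_hom (jE E) _ fun _ => rfl))

theorem Tht_norm (hCPN : StCPN) (hψ : IsCPC ψ) (hΦ : IsCP Φ) (v : I) (hv1 : ‖v‖ ≤ 1)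
    (hvs : star v = v) (hts : star t = t) (ht1 : ‖t‖ ≤ 1) (ε : ℝ) (hε : 0 < ε)
    (hcond : Pos ((1 + ε : ℂ) • (1 : Unitization ℂ E)
            - ((ι (t * t) : E) : Unitization ℂ E) - ((Φ 1 : E) : Unitization ℂ E)))
    (hvt : ‖t * t - v * (t * t) * v‖ ≤ ε) (x : E) :
    ‖Tht hι ψ Φ t v x‖ ≤ (1 + 2 * ε) * ‖x‖ := by
  refine hCPN E I (Tht hι ψ Φ t v) (1 + 2 * ε) (isCP_Tht hι ψ Φ t hψ hΦ v) ?_ x
  intro x hx hx1
  have hjv : star (jI ι v) = jI ι v := by rw [← map_star, hvs]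
  have hjt : star (jI ι t) = jI ι t := by rw [← map_star, hts]
  rw [← norm_jI hι]
  -- the dominating element
  set d : Unitization ℂ E := jI ι v * ((1 + ε : ℂ) • (1 : Unitization ℂ E) - jI ι (t * t)) * jI ι v
    + jI ι (t * t) with hd
  have hψx : Pos (1 - ψ x) := by
    refine pos_one_sub (IsCP.pos hψ.1 hx) ?_
    exact (hψ.2 x).trans hx1
  have q1 : Pos (jE E (Φ 1) - jE E (Φ (ψ x))) := by
    have h1 := IsCP.pos hΦ hψx
    rw [map_sub] at h1
    have h2 := h1.map (jE E)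
    rwa [map_sub] at h2
  have q2 : Pos ((1 : Unitization ℂ E) - jE E x) := by
    refine pos_one_sub (hx.map (jE E)) ?_
    rw [jE_apply, jE_norm]
    exact hx1
  have h3 : Pos (jI ι (Tht hι ψ Φ t v x)) := (IsCP.pos (isCP_Tht hι ψ Φ t hψ hΦ v) hx).map (jI ι)
  have h4 : Pos (d - jI ι (Tht hι ψ Φ t v x)) := by
    have e1 : d - jI ι (Tht hι ψ Φ t v x)
        = star (jI ι v) * ((1 + ε : ℂ) • (1 : Unitization ℂ E) - jI ι (t * t) - jE E (Φ 1)) * jI ι v
          + star (jI ι v) * (jE E (Φ 1) - jE E (Φ (ψ x))) * jI ι v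
          + star (jI ι t) * ((1 : Unitization ℂ E) - jE E x) * jI ι t := by
      rw [Tht_apply, map_add, cmp_apply, cmp_apply, hjv, hjt, hd, map_mul]
      simp only [mul_sub, sub_mul, mul_one, mul_smul_comm, smul_mul_assoc]
      abel
    rw [e1]
    refine ((Pos.conj ?_ _).add (Pos.conj q1 _)).add (Pos.conj q2 _)
    exact hcond
  refine (Pos.norm_le h3 h4).trans ?_
  have e2 : d = (1 + ε : ℂ) • (jI ι v * jI ι v) + jI ι (t * t - v * (t * t) * v) := by
    rw [hd]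
    simp only [mul_sub, sub_mul, mul_one, mul_smul_comm, smul_mul_assoc, map_mul, map_sub]
    abel
  rw [e2]
  refine (norm_add_le _ _).trans ?_
  have n1 : ‖(1 + ε : ℂ) • (jI ι v * jI ι v)‖ ≤ (1 + ε) * (1 * 1) := by
    rw [norm_smul]
    have : ‖(1 + ε : ℂ)‖ = 1 + ε := by
      rw [show (1 + ε : ℂ) = ((1 + ε : ℝ) : ℂ) by push_cast; rfl, Complex.norm_real, Real.norm_eq_abs,
        abs_of_pos (by linarith)]
    rw [this]
    refine mul_le_mul_of_nonneg_left ((norm_mul_le _ _).trans ?_) (by linarith)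
    rw [norm_jI hι]
    gcongr
  have n2 : ‖jI ι (t * t - v * (t * t) * v)‖ ≤ ε := by rw [norm_jI hι]; exact hvt
  linarith

end theta

/-- `v k t → t` -/
theorem tendsto_vt {I : Type} [NonUnitalCStarAlgebra I] (u v : ℕ → I) (t : I) (hv : ∀ k, ‖v k‖ ≤ 1)
    (hu : ∀ k, ‖u k‖ ≤ 1)
    (h1 : Tendsto (fun k => ‖u k * t - t‖) atTop (nhds 0))
    (h2 : Tendsto (fun k => ‖v k * u k - u k‖) atTop (nhds 0)) :
    Tendsto (fun k => ‖v k * t - t‖) atTop (nhds 0) := by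
  have h3 : Tendsto (fun k => ‖u k * t - t‖ + ‖v k * u k - u k‖ * ‖t‖ + ‖u k * t - t‖) atTop
      (nhds (0 + 0 * ‖t‖ + 0)) := (h1.add (h2.mul_const _)).add h1
  rw [zero_mul, add_zero, add_zero] at h3
  refine squeeze_zero (fun k => norm_nonneg _) (fun k => ?_) h3
  have e : v k * t - t = v k * (t - u k * t) + (v k * u k - u k) * t + (u k * t - t) := by
    noncomm_ring
  rw [e]
  refine (norm_add_le _ _).trans (add_le_add ((norm_add_le _ _).trans (add_le_add ?_ (norm_mul_le _ _))) le_rfl)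
  refine (norm_mul_le _ _).trans ?_
  rw [norm_sub_rev]
  calc _ ≤ 1 * ‖u k * t - t‖ := by gcongr; exact hv k
    _ = _ := one_mul _

theorem tendsto_vtt {I : Type} [NonUnitalCStarAlgebra I] (v : ℕ → I) (t : I) (hv : ∀ k, ‖v k‖ ≤ 1)
    (hvs : ∀ k, star (v k) = v k) (hts : star t = t)
    (h : Tendsto (fun k => ‖v k * t - t‖) atTop (nhds 0)) :
    Tendsto (fun k => ‖t * t - v k * (t * t) * v k‖) atTop (nhds 0) := by
  have h3 : Tendsto (fun k => ‖v k * t - t‖ * ‖t‖ + ‖t‖ * ‖v k * t - t‖) atTop (nhds (0 * ‖t‖ + ‖t‖ * 0)) :=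
    (h.mul_const _).add (h.const_mul _)
  rw [zero_mul, mul_zero, add_zero] at h3
  refine squeeze_zero (fun k => norm_nonneg _) (fun k => ?_) h3
  have e : t * t - v k * (t * t) * v k = -((v k * t - t) * (t * v k)) - t * (t * v k - t) := by
    noncomm_ring
  have e2 : ‖t * v k - t‖ = ‖v k * t - t‖ := by
    rw [← norm_star (t * v k - t), star_sub, star_mul, hvs, hts]
  rw [e]
  refine (norm_sub_le _ _).trans (add_le_add ?_ ?_)
  · rw [norm_neg]
    refine (norm_mul_le _ _).trans (mul_le_mul_of_nonneg_left ?_ (norm_nonneg _))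
    refine (norm_mul_le _ _).trans ?_
    calc _ ≤ ‖t‖ * 1 := by gcongr; exact hv k
      _ = _ := mul_one _
  · refine (norm_mul_le _ _).trans ?_
    rw [e2]

end Pool.Agent.Helper7_ND
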