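import Pool.Agent.Helper7_ND.Stm5
import Pool.Agent.Helper7_ND.Rp
import Pool.Agent.Helper7_ND.Mrg3

/-! # The weights: compatibility with homomorphisms, positivity, commutation -/

set_option autoImplicit false

open scoped Matrix.Norms.L2Operator ENNReal Matrix
open Pool.Agent.W659.EC

noncomputable section

namespace Pool.Agent.Helper7_ND.J_WP

theorem clip_cont : Continuous clip := by
  unfold clip; fun_prop

theorem clip_nonneg (s : ℝ) : 0 ≤ clip s := le_max_left _ _

theorem clip_le_one (s : ℝ) : clip s ≤ 1 := max_le zero_le_one (min_le_left _ _)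

theorem lF_cont (δ : ℝ) : Continuous (lF δ) := by
  unfold lF
  exact clip_cont.comp (by fun_prop)

theorem lG_cont (δ : ℝ) : Continuous (lG δ) := by
  unfold lG
  exact clip_cont.comp (by fun_prop)

theorem tF_cont (δ : ℝ) : Continuous (tF δ) := by
  unfold tF
  exact clip_cont.comp (by fun_prop)

theorem max_pos' {δ : ℝ} (hδ : 0 < δ) (s : ℝ) : 0 < max s δ := lt_max_of_lt_right hδ

theorem kF_cont {δ : ℝ} (hδ : 0 < δ) : Continuous (kF δ) := by
  unfold kF
  exact continuous_const.div (by fun_prop) fun s => (max_pos' hδ s).ne'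

theorem k1F_cont {δ : ℝ} (hδ : 0 < δ) : Continuous (k1F δ) := by
  unfold k1F
  exact continuous_const.sub (continuous_id.div (by fun_prop) fun s => (max_pos' hδ s).ne')

theorem kF_nonneg {δ : ℝ} (hδ : 0 < δ) (s : ℝ) : 0 ≤ kF δ s :=
  div_nonneg zero_le_one (max_pos' hδ s).le

theorem k1F_nonneg {δ : ℝ} (hδ : 0 < δ) (s : ℝ) : 0 ≤ k1F δ s := by
  unfold k1F
  rw [sub_nonneg, div_le_one (max_pos' hδ s)]
  exact le_max_left _ _

theorem map_cfc' {A B : Type} [CStarAlgebra A] [CStarAlgebra B] (f : A →⋆ₐ[ℂ] B) (g : ℝ → ℝ)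
    (hg : Continuous g) (x : A) (hx : star x = x) : f (cfc g x) = cfc g (f x) :=
  StarAlgHomClass.map_cfc (S := ℂ) f g x (hf := hg.continuousOn) (hφ := hom_cont f)
    (ha := hx) (hφa := (show IsSelfAdjoint x from hx).map f)

theorem cfc_sa {A : Type} [CStarAlgebra A] (g : ℝ → ℝ) (x : A) : star (cfc g x) = cfc g x :=
  (cfc_predicate g x : IsSelfAdjoint (cfc g x))

theorem sq_sa {A : Type} [CStarAlgebra A] (x : A) : star (sq x) = sq x := cfc_sa _ _

theorem map_sq {A B : Type} [CStarAlgebra A] [CStarAlgebra B] (f : A →⋆ₐ[ℂ] B) (x : A)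
    (hx : star x = x) : f (sq x) = sq (f x) :=
  map_cfc' f Real.sqrt Real.continuous_sqrt x hx

theorem map_cutL {A B : Type} [CStarAlgebra A] [CStarAlgebra B] (f : A →⋆ₐ[ℂ] B) (δ : ℝ)
    (c u : A) (hc : star c = c) (hu : star u = u) : f (cutL δ c u) = cutL δ (f c) (f u) := by
  unfold cutL
  rw [map_cfc' f _ (lF_cont δ) _ (by rw [star_sub, hc, hu]), map_sub]

theorem map_cutG {A B : Type} [CStarAlgebra A] [CStarAlgebra B] (f : A →⋆ₐ[ℂ] B) (δ : ℝ)
    (c u : A) (hc : star c = c) (hu : star u = u) : f (cutG δ c u) = cutG δ (f c) (f u) := by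
  unfold cutG
  rw [map_sub, map_one, map_cfc' f _ (lG_cont δ) _ (by rw [star_sub, hc, hu]), map_sub]

theorem map_elB {A B : Type} [CStarAlgebra A] [CStarAlgebra B] (f : A →⋆ₐ[ℂ] B) (δ : ℝ)
    (b u : A) (hb : star b = b) (hu : star u = u) : f (elB δ b u) = elB δ (f b) (f u) := by
  unfold elB
  rw [map_mul, map_mul, map_sub, map_one, map_cutL f δ b u hb hu, map_sq f b hb]

theorem t_WMAP : StWMAP := by
  intro A B _ _ ω K s δ hδ t c u b hc hu hb
  have hcs := hc.sa
  refine ⟨map_sq ω c hcs, map_cutL ω δ c u hcs hu, map_cutG ω δ c u hcs hu,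
    map_cfc' ω _ (tF_cont δ) c hcs, ?_⟩
  unfold elW elMu
  rw [map_add, map_mul, map_mul, map_add, map_add, map_mul, map_sum,
    map_cfc' ω _ (k1F_cont hδ) c hcs, map_sq ω _ (cfc_sa _ _), map_cfc' ω _ (kF_cont hδ) c hcs,
    Finset.sum_congr rfl fun k hk => map_elB ω δ (b k) u (hb k hk).sa hu]

theorem cfc_pos' {A : Type} [CStarAlgebra A] {g : ℝ → ℝ} (hg : ∀ s, 0 ≤ g s) (x : A) :
    Pos (cfc g x) := by
  let _ := CStarAlgebra.spectralOrder A
  let _ := CStarAlgebra.spectralOrderedRing A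
  rw [pos_iff]
  exact cfc_nonneg fun s _ => hg s

theorem cfc_norm' {A : Type} [CStarAlgebra A] {g : ℝ → ℝ} (hg : ∀ s, 0 ≤ g s)
    (hg1 : ∀ s, g s ≤ 1) (x : A) : ‖cfc g x‖ ≤ 1 :=
  norm_cfc_le zero_le_one fun s _ => by
    rw [Real.norm_of_nonneg (hg s)]; exact hg1 s

theorem one_norm' {A : Type} [CStarAlgebra A] : ‖(1 : A)‖ ≤ 1 := by
  rcases subsingleton_or_nontrivial A with h | h
  · rw [Subsingleton.elim (1 : A) 0, norm_zero]; exact zero_le_one
  · exact CStarRing.norm_one.le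

theorem sq_mul_sq {A : Type} [CStarAlgebra A] {c : A} (hc : Pos c) : sq c * sq c = c := by
  let _ := CStarAlgebra.spectralOrder A
  let _ := CStarAlgebra.spectralOrderedRing A
  have h0 : 0 ≤ c := (pos_iff c).1 hc
  have hsa : IsSelfAdjoint c := hc.sa
  unfold sq
  rw [← cfc_mul Real.sqrt Real.sqrt c Real.continuous_sqrt.continuousOn
    Real.continuous_sqrt.continuousOn]
  have h2 : cfc (fun s : ℝ => Real.sqrt s * Real.sqrt s) c = cfc (fun s : ℝ => s) c := by
    refine cfc_congr fun s hs => ?_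
    exact Real.mul_self_sqrt (spectrum_nonneg_of_nonneg h0 hs)
  rw [h2, cfc_id' ℝ c]

theorem comm_cfc {A : Type} [CStarAlgebra A] {c z : A} (h : z * c = c * z) (g : ℝ → ℝ) :
    z * cfc g c = cfc g c * z := by
  have hc : Commute c z := h.symm
  exact ((hc.cfc_real g).eq).symm

theorem comm_sub' {A : Type} [CStarAlgebra A] {c u z : A} (h : z * c = c * z)
    (h' : z * u = u * z) : z * (c - u) = (c - u) * z := by
  rw [mul_sub, sub_mul, h, h']

theorem comm_add' {A : Type} [CStarAlgebra A] {c u z : A} (h : z * c = c * z)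
    (h' : z * u = u * z) : z * (c + u) = (c + u) * z := by
  rw [mul_add, add_mul, h, h']

theorem comm_mul' {A : Type} [CStarAlgebra A] {c u z : A} (h : z * c = c * z)
    (h' : z * u = u * z) : z * (c * u) = (c * u) * z := by
  rw [← mul_assoc, h, mul_assoc, h', mul_assoc]

theorem comm_one' {A : Type} [CStarAlgebra A] (z : A) : z * 1 = 1 * z := by
  rw [mul_one, one_mul]

theorem cutL_pos {A : Type} [CStarAlgebra A] (δ : ℝ) (c u : A) : Pos (cutL δ c u) :=
  cfc_pos' (fun _ => clip_nonneg _) _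

theorem cutL_norm {A : Type} [CStarAlgebra A] (δ : ℝ) (c u : A) : ‖cutL δ c u‖ ≤ 1 :=
  cfc_norm' (fun _ => clip_nonneg _) (fun _ => clip_le_one _) _

theorem elB_pos {A : Type} [CStarAlgebra A] (δ : ℝ) (b u : A) : Pos (elB δ b u) := by
  have h := Pos.conj (pos_one_sub (cutL_pos δ b u) (cutL_norm δ b u)) (sq b)
  rwa [sq_sa] at h

theorem elB_comm {A : Type} [CStarAlgebra A] (δ : ℝ) {b u z : A} (h : z * b = b * z)
    (h' : z * u = u * z) : z * elB δ b u = elB δ b u * z :=
  comm_mul' (comm_mul' (comm_cfc h _) (comm_sub' (comm_one' z) (comm_cfc (comm_sub' h h') _)))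
    (comm_cfc h _)

theorem t_WPOS : StWPOS := by
  intro A _ K s δ hδ t c u b ht hc hu hb
  refine ⟨cfc_pos' Real.sqrt_nonneg c, sq_mul_sq hc, fun z hz => comm_cfc hz _,
    cutL_pos δ c u, cutL_norm δ c u, pos_one_sub (cutL_pos δ c u) (cutL_norm δ c u),
    fun z h h' => comm_cfc (comm_sub' h h') _, ?_, ?_,
    fun z h h' => comm_sub' (comm_one' z) (comm_cfc (comm_sub' h h') _),
    cfc_pos' (fun _ => clip_nonneg _) _,
    cfc_norm' (fun _ => clip_nonneg _) (fun _ => clip_le_one _) _, fun z h => comm_cfc h _, ?_, ?_⟩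
  · exact pos_one_sub (cfc_pos' (fun _ => clip_nonneg _) _)
      (cfc_norm' (fun _ => clip_nonneg _) (fun _ => clip_le_one _) _)
  · have h1 : Pos (cfc (lG δ) (c - u)) := cfc_pos' (fun _ => clip_nonneg _) _
    have h2 : Pos (cutG δ c u) := pos_one_sub h1
      (cfc_norm' (fun _ => clip_nonneg _) (fun _ => clip_le_one _) _)
    refine (Pos.norm_le h2 (b := 1) ?_).trans one_norm'
    unfold cutG
    rwa [sub_sub_cancel]
  · unfold elW
    refine Pos.add ?_ (cfc_pos' (k1F_nonneg hδ) c)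
    have hμ : Pos (elMu δ s t c u b) := by
      unfold elMu
      exact ((show Pos (t * t) from ⟨t, by rw [ht.sa]⟩).add hc).add
        (Pos.sum s fun k _ => elB_pos δ (b k) u)
    have h := Pos.conj hμ (sq (cfc (kF δ) c))
    rwa [sq_sa] at h
  · intro z h1 h2 h3 h4
    unfold elW elMu
    refine comm_add' (comm_mul' (comm_mul' (comm_cfc (comm_cfc h2 _) _)
      (comm_add' (comm_add' (comm_mul' h1 h1) h2) ?_)) (comm_cfc (comm_cfc h2 _) _))
      (comm_cfc h2 _)
    rw [Finset.mul_sum, Finset.sum_mul]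
    exact Finset.sum_congr rfl fun k hk => elB_comm δ (h4 k hk) h3

end Pool.Agent.Helper7_ND.J_WP
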