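import Pool.Agent.Helper7_ND.Stm5
import Pool.Agent.Helper7_ND.Rp

/-! # The weight W is at least 1 and W c is at most 1 + ε -/

set_option autoImplicit false

open scoped Matrix.Norms.L2Operator ENNReal Matrix
open Pool.Agent.W659.EC

noncomputable section

namespace Pool.Agent.Helper7_ND.J_WQ1

section aux

variable {A : Type} [CStarAlgebra A]

theorem kF_cont {δ : ℝ} (hδ : 0 < δ) : Continuous (kF δ) := by
  unfold kF
  refine continuous_const.div (continuous_id.max continuous_const) fun s => ?_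
  exact (lt_of_lt_of_le hδ (le_max_right _ _)).ne'

theorem k1F_cont {δ : ℝ} (hδ : 0 < δ) : Continuous (k1F δ) := by
  unfold k1F
  refine continuous_const.sub (continuous_id.div (continuous_id.max continuous_const) fun s => ?_)
  exact (lt_of_lt_of_le hδ (le_max_right _ _)).ne'

theorem kF_pos {δ : ℝ} (hδ : 0 < δ) (s : ℝ) : 0 ≤ kF δ s :=
  div_nonneg zero_le_one (hδ.le.trans (le_max_right _ _))

theorem k1F_pos {δ : ℝ} (hδ : 0 < δ) (s : ℝ) : 0 ≤ k1F δ s := by
  have h : 0 < max s δ := lt_of_lt_of_le hδ (le_max_right _ _)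
  unfold k1F
  rw [sub_nonneg, div_le_one h]
  exact le_max_left _ _

theorem pos_cfc (f : ℝ → ℝ) (hf : ∀ s, 0 ≤ f s) (c : A) : Pos (cfc f c) := by
  let _ := CStarAlgebra.spectralOrder A
  let _ := CStarAlgebra.spectralOrderedRing A
  rw [pos_iff]
  exact cfc_nonneg fun s _ => hf s

theorem kc_add {δ : ℝ} (hδ : 0 < δ) (c : A) (hc : Pos c) :
    cfc (kF δ) c * c + cfc (k1F δ) c = 1 := by
  have hs : IsSelfAdjoint c := hc.sa
  have h1 : cfc (kF δ) c * c = cfc (fun s => kF δ s * s) c := by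
    conv_lhs => rw [show cfc (kF δ) c * c = cfc (kF δ) c * cfc (fun s : ℝ => s) c by
      rw [cfc_id' ℝ c]]
    rw [cfc_mul (kF δ) (fun s : ℝ => s) c (kF_cont hδ).continuousOn continuous_id.continuousOn]
  rw [h1, ← cfc_add (a := c) (fun s => kF δ s * s) (k1F δ)
    ((kF_cont hδ).mul continuous_id).continuousOn (k1F_cont hδ).continuousOn]
  have h2 : (fun s => kF δ s * s + k1F δ s) = fun _ => (1 : ℝ) := by
    funext s
    unfold kF k1F
    ring
  rw [h2, cfc_const_one ℝ c]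

theorem comm_cfc {c z : A} (h : z * c = c * z) (f : ℝ → ℝ) : z * cfc f c = cfc f c * z := by
  have h1 : Commute c z := h.symm
  exact (h1.cfc_real f).symm

end aux

theorem t_WQ1 (hWP : StWPOS) : StWQ1 := by
  intro A _ K s δ ε hδ hε t c u b ht hc hu hb htc huc hbc hbu hP
  set κ := cfc (kF δ) c with hκ
  set k₁ := cfc (k1F δ) c with hk₁
  have hκp : Pos κ := pos_cfc _ (kF_pos hδ) c
  have hk1p : Pos k₁ := pos_cfc _ (k1F_pos hδ) c
  have hone : κ * c + k₁ = 1 := kc_add hδ c hc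
  -- facts on square roots
  have hsq : ∀ a : A, Pos a → Pos (sq a) ∧ sq a * sq a = a ∧
      ∀ z, z * a = a * z → z * sq a = sq a * z := fun a ha => by
    obtain ⟨h1, h2, h3, _⟩ := hWP A K s δ hδ t a u b ht ha hu.sa hb
    exact ⟨h1, h2, h3⟩
  have hcut : ∀ a : A, Pos a → Pos (cutL δ a u) ∧ Pos (1 - cutL δ a u) ∧
      ∀ z, z * a = a * z → z * u = u * z → z * cutL δ a u = cutL δ a u * z := fun a ha => by
    obtain ⟨_, _, _, h4, _, h6, h7, _⟩ := hWP A K s δ hδ t a u b ht ha hu.sa hb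
    exact ⟨h4, h6, h7⟩
  obtain ⟨hS1, hS2, hS3⟩ := hsq κ hκp
  -- elB
  have hB1 : ∀ k ∈ s, Pos (elB δ (b k) u) := by
    intro k hk
    obtain ⟨h1, h2, h3⟩ := hsq (b k) (hb k hk)
    have := (hcut (b k) (hb k hk)).2.1.conj (sq (b k))
    rw [h1.sa] at this
    exact this
  have hB2 : ∀ k ∈ s, Pos (b k - elB δ (b k) u) := by
    intro k hk
    obtain ⟨h1, h2, h3⟩ := hsq (b k) (hb k hk)
    have := (hcut (b k) (hb k hk)).1.conj (sq (b k))
    rw [h1.sa] at this
    have e : b k - elB δ (b k) u = sq (b k) * cutL δ (b k) u * sq (b k) := by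
      unfold elB
      rw [mul_sub, sub_mul, mul_one, h2]
      abel
    rw [e]; exact this
  have hB3 : ∀ k ∈ s, c * elB δ (b k) u = elB δ (b k) u * c := by
    intro k hk
    obtain ⟨h1, h2, h3⟩ := hsq (b k) (hb k hk)
    have e1 := h3 c (hbc k hk).symm
    have e2 := (hcut (b k) (hb k hk)).2.2 c (hbc k hk).symm huc.symm
    have c1 : Commute c (sq (b k)) := e1
    have c2 : Commute c (cutL δ (b k) u) := e2
    exact ((c1.mul_right ((Commute.one_right c).sub_right c2)).mul_right c1)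
  set μ := elMu δ s t c u b with hμ
  have hμc : Commute c μ := by
    have c1 : Commute c t := htc.symm
    refine (((c1.mul_right c1).add_right (Commute.refl c)).add_right ?_)
    exact Commute.sum_right _ _ _ fun k hk => hB3 k hk
  have hμκ : μ * κ = κ * μ := comm_cfc hμc.symm _
  have hμS : μ * sq κ = sq κ * μ := hS3 μ hμκ
  have hcS : c * sq κ = sq κ * c := hS3 c (comm_cfc rfl _)
  have hW : elW δ s t c u b = sq κ * μ * sq κ + k₁ := rfl
  have htt : Pos (t * t) := ⟨t, by rw [ht.sa]⟩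
  have hμ1 : Pos (μ - c) := by
    have e : μ - c = t * t + ∑ k ∈ s, elB δ (b k) u := by
      rw [hμ]; unfold elMu; abel
    rw [e]
    exact htt.add (Pos.sum s hB1)
  have hμ2 : Pos ((1 + ε : ℂ) • (1 : A) - μ) := by
    have e : (1 + ε : ℂ) • (1 : A) - μ = ((1 + ε : ℂ) • (1 : A) - t * t - c - ∑ k ∈ s, b k) +
        ∑ k ∈ s, (b k - elB δ (b k) u) := by
      rw [hμ, Finset.sum_sub_distrib]; unfold elMu; abel
    rw [e]
    exact hP.add (Pos.sum s hB2)
  have hc2 : Pos ((1 + ε : ℂ) • (1 : A) - c) := by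
    have e : (1 + ε : ℂ) • (1 : A) - c = ((1 + ε : ℂ) • (1 : A) - t * t - c - ∑ k ∈ s, b k) +
        (t * t + ∑ k ∈ s, b k) := by abel
    rw [e]
    exact hP.add (htt.add (Pos.sum s hb))
  have hμp : Pos μ := by
    have e : μ = (μ - c) + c := by abel
    rw [e]; exact hμ1.add hc
  -- first claim
  have hκc : κ * c = sq κ * c * sq κ := by
    rw [mul_assoc, hcS, ← mul_assoc, hS2]
  have r1 : Pos (elW δ s t c u b - 1) := by
    have e : elW δ s t c u b - 1 = sq κ * (μ - c) * sq κ := by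
      rw [hW, ← hone, mul_sub, sub_mul, hκc]; abel
    rw [e]
    have := hμ1.conj (sq κ)
    rwa [hS1.sa] at this
  -- second
  have hm : Pos (κ * c) := by
    rw [hκc]
    have := hc.conj (sq κ)
    rwa [hS1.sa] at this
  obtain ⟨hQ1, hQ2, hQ3⟩ := hsq _ hm
  obtain ⟨hR1, hR2, hR3⟩ := hsq _ hk1p
  have hμQ : μ * sq (κ * c) = sq (κ * c) * μ := by
    apply hQ3
    rw [← mul_assoc, hμκ, mul_assoc, ← hμc.eq, mul_assoc]
  have hcR : c * sq k₁ = sq k₁ * c := hR3 c (comm_cfc rfl _)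
  have hWc : elW δ s t c u b * c = sq (κ * c) * μ * sq (κ * c) + sq k₁ * c * sq k₁ := by
    have e1 : sq (κ * c) * μ * sq (κ * c) = κ * c * μ := by
      rw [mul_assoc, hμQ, ← mul_assoc, hQ2]
    have e2 : sq k₁ * c * sq k₁ = k₁ * c := by
      rw [mul_assoc, hcR, ← mul_assoc, hR2]
    have e3 : sq κ * μ * sq κ = κ * μ := by
      rw [mul_assoc, hμS, ← mul_assoc, hS2]
    rw [hW, e1, e2, e3, add_mul, mul_assoc κ μ c, ← hμc.eq, mul_assoc κ c μ]
  have r2 : Pos (elW δ s t c u b * c) := by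
    rw [hWc]
    have h1 := hμp.conj (sq (κ * c))
    have h2 := hc.conj (sq k₁)
    rw [hQ1.sa] at h1
    rw [hR1.sa] at h2
    exact h1.add h2
  have r3 : Pos ((1 + ε : ℂ) • (1 : A) - elW δ s t c u b * c) := by
    have e : (1 + ε : ℂ) • (1 : A) - elW δ s t c u b * c =
        sq (κ * c) * ((1 + ε : ℂ) • (1 : A) - μ) * sq (κ * c) +
          sq k₁ * ((1 + ε : ℂ) • (1 : A) - c) * sq k₁ := by
      rw [hWc, mul_sub, sub_mul, mul_sub, sub_mul, mul_smul_comm, smul_mul_assoc, mul_smul_comm,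
        smul_mul_assoc, mul_one, mul_one, hQ2, hR2]
      conv_lhs => rw [← hone]
      rw [smul_add]
      abel
    rw [e]
    have h1 := hμ2.conj (sq (κ * c))
    have h2 := hc2.conj (sq k₁)
    rw [hQ1.sa] at h1
    rw [hR1.sa] at h2
    exact h1.add h2
  refine ⟨r1, ?_, r3⟩
  refine (r2.norm_le r3).trans ?_
  rw [norm_smul]
  have h1 : ‖(1 + ε : ℂ)‖ = 1 + ε := by
    rw [show (1 + ε : ℂ) = ((1 + ε : ℝ) : ℂ) by push_cast; rfl, Complex.norm_real,
      Real.norm_of_nonneg (by linarith)]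
  rw [h1]
  have h2 : ‖(1 : A)‖ ≤ 1 := by
    rcases subsingleton_or_nontrivial A with h | h
    · rw [Subsingleton.elim (1 : A) 0, norm_zero]; exact zero_le_one
    · exact (CStarRing.norm_one (E := A)).le
  nlinarith [norm_nonneg (1 : A)]

end Pool.Agent.Helper7_ND.J_WQ1
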