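import Pool.Agent.Helper7_ND.Stm5
import Pool.Agent.Helper7_ND.Rp
import Pool.Agent.Helper7_ND.J_ROW

set_option autoImplicit false

open scoped Matrix.Norms.L2Operator ENNReal Matrix
open Pool.Agent.W659.EC

noncomputable section

namespace Pool.Agent.Helper7_ND.J_WQ2

theorem clip_eq {w δ : ℝ} (hδ : 0 < δ) : clip (w / δ) = max w 0 * (1 / max w δ) := by
  unfold clip
  rcases le_total w 0 with h | h
  · have h1 : w / δ ≤ 0 := div_nonpos_of_nonpos_of_nonneg h hδ.le
    rw [max_eq_right h, zero_mul, max_eq_left]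
    exact (min_le_right _ _).trans h1
  · rw [max_eq_left h]
    rcases le_total w δ with h2 | h2
    · have h3 : w / δ ≤ 1 := (div_le_one hδ).2 h2
      have h4 : 0 ≤ w / δ := div_nonneg h hδ.le
      rw [min_eq_right h3, max_eq_right h4, max_eq_right h2, mul_one_div]
    · have h3 : 1 ≤ w / δ := (one_le_div hδ).2 h2
      have h5 : w ≠ 0 := (lt_of_lt_of_le hδ h2).ne'
      rw [min_eq_left h3, max_eq_right zero_le_one, max_eq_left h2, mul_one_div, div_self h5]

theorem lG_eq {δ : ℝ} (hδ : 0 < δ) :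
    lG δ = fun s => max (s - 2 * δ) 0 * (1 / max (s - 2 * δ) δ) := by
  funext s
  exact clip_eq hδ

theorem tF_eq {δ : ℝ} (hδ : 0 < δ) :
    tF δ = fun s => max (2 * δ - s) 0 * (1 / max (2 * δ - s) δ) := by
  funext s
  have : 2 - s / δ = (2 * δ - s) / δ := by
    field_simp
  unfold tF
  rw [this]
  exact clip_eq hδ

theorem clip_cont : Continuous clip := by
  unfold clip
  fun_prop

theorem lF_cont (δ : ℝ) : Continuous (lF δ) := by
  unfold lF
  exact clip_cont.comp (by fun_prop)

theorem lG_cont (δ : ℝ) : Continuous (lG δ) := by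
  unfold lG
  exact clip_cont.comp (by fun_prop)

theorem tF_cont (δ : ℝ) : Continuous (tF δ) := by
  unfold tF
  exact clip_cont.comp (by fun_prop)

theorem max_cont {δ : ℝ} (hδ : 0 < δ) {g : ℝ → ℝ} (hg : Continuous g) :
    Continuous fun s => 1 / max (g s) δ := by
  refine continuous_const.div (hg.max continuous_const) fun s => ?_
  exact (lt_of_lt_of_le hδ (le_max_right _ _)).ne'

section pm

variable {A : Type} [CStarAlgebra A]

theorem pm_zero {x y : A} (hx : IsSelfAdjoint x) (hy : IsSelfAdjoint y) (hxy : Pos (y - x))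
    (hc : Commute x y) (θ : ℝ) :
    cfc (fun s : ℝ => max (s - θ) 0) x * cfc (fun s : ℝ => max (θ - s) 0) y = 0 := by
  let _ := CStarAlgebra.spectralOrder A
  let _ := CStarAlgebra.spectralOrderedRing A
  set p := cfc (fun s : ℝ => max (s - θ) 0) x with hp
  set m := cfc (fun s : ℝ => max (θ - s) 0) y with hm
  set X := x - algebraMap ℝ A θ with hX
  set Y := y - algebraMap ℝ A θ with hY
  have cp : Continuous fun s : ℝ => max (s - θ) 0 := by fun_prop
  have cm : Continuous fun s : ℝ => max (θ - s) 0 := by fun_prop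
  have hX' : X = cfc (fun s : ℝ => s - θ) x := by
    rw [cfc_sub (fun s : ℝ => s) (fun _ : ℝ => θ) x, cfc_id' ℝ x, cfc_const θ x]
  have hY' : Y = cfc (fun s : ℝ => s - θ) y := by
    rw [cfc_sub (fun s : ℝ => s) (fun _ : ℝ => θ) y, cfc_id' ℝ y, cfc_const θ y]
  have hpX : p * X = p * p := by
    rw [hX', hp, ← cfc_mul (fun s : ℝ => max (s - θ) 0) (fun s : ℝ => s - θ) x cp.continuousOn
      (by fun_prop), ← cfc_mul (fun s : ℝ => max (s - θ) 0) (fun s : ℝ => max (s - θ) 0) x
      cp.continuousOn cp.continuousOn]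
    refine cfc_congr fun s _ => ?_
    rcases le_total (s - θ) 0 with h | h
    · simp [max_eq_right h]
    · simp [max_eq_left h]
  have hmY : m * Y = -(m * m) := by
    rw [hY', hm, ← cfc_mul (fun s : ℝ => max (θ - s) 0) (fun s : ℝ => s - θ) y cm.continuousOn
      (by fun_prop), ← cfc_mul (fun s : ℝ => max (θ - s) 0) (fun s : ℝ => max (θ - s) 0) y
      cm.continuousOn cm.continuousOn, ← cfc_neg]
    refine cfc_congr fun s _ => ?_
    rcases le_total (θ - s) 0 with h | h
    · simp [max_eq_right h]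
    · simp only [max_eq_left h]
      ring
  have cpy : Commute p y := hc.cfc_real _
  have cpm : Commute p m := (cpy.symm.cfc_real _).symm
  have cxm : Commute m x := hc.symm.cfc_real _
  have cmX : Commute m X := cxm.sub_right (Algebra.commutes' θ m).symm
  have cpY : Commute p Y := cpy.sub_right (Algebra.commutes' θ p).symm
  have hp0 : 0 ≤ p := cfc_nonneg fun s _ => le_max_right _ _
  have hm0 : 0 ≤ m := cfc_nonneg fun s _ => le_max_right _ _
  have hps : IsSelfAdjoint p := IsSelfAdjoint.of_nonneg hp0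
  have hms : IsSelfAdjoint m := IsSelfAdjoint.of_nonneg hm0
  set q := p * m with hq
  have hqs : star q = q := by
    rw [hq, star_mul, hps.star_eq, hms.star_eq, cpm.eq]
  have e1 : q * X * q = q * p * q := by
    have : q * X = q * p := by
      rw [hq, mul_assoc, cmX.eq, ← mul_assoc, hpX, mul_assoc, mul_assoc, cpm.eq]
    rw [this]
  have e2 : q * Y * q = -(q * m * q) := by
    have : q * Y = -(q * m) := by
      rw [hq, mul_assoc, hmY, mul_neg, mul_assoc]
    rw [this, neg_mul]
  have e3 : y - x = Y - X := by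
    rw [hX, hY]
    abel
  have h1 : 0 ≤ q * (Y - X) * q := by
    have h := hxy.conj q
    rw [e3, hqs] at h
    exact (pos_iff _).1 h
  have h2 : 0 ≤ q * p * q := by
    have h := ((pos_iff _).2 hp0).conj q
    rw [hqs] at h
    exact (pos_iff _).1 h
  have h3 : 0 ≤ q * m * q := by
    have h := ((pos_iff _).2 hm0).conj q
    rw [hqs] at h
    exact (pos_iff _).1 h
  rw [mul_sub, sub_mul, e1, e2] at h1
  have h4 : q * p * q = 0 := by
    refine le_antisymm ?_ h2
    have h5 : q * p * q + q * m * q ≤ 0 := by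
      have h6 := neg_nonpos.2 h1
      refine le_of_eq_of_le ?_ h6
      abel
    exact (le_add_of_nonneg_right h3).trans h5
  have cqm : Commute q m := (cpm.mul_left (Commute.refl m))
  have h6 : q * q * q = 0 := by
    have : q * q * q = q * p * q * m := by
      rw [mul_assoc (q * p) q m, cqm.eq, ← mul_assoc (q * p) m q, mul_assoc q p m]
    rw [this, h4, zero_mul]
  have h7 : (q * q) * (q * q) = 0 := by
    rw [← mul_assoc, h6, zero_mul]
  have h8 : q * q = 0 := by
    have h9 : star (q * q) * (q * q) = 0 := by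
      rw [star_mul, hqs]
      exact h7
    exact CStarRing.star_mul_self_eq_zero_iff _ |>.1 h9
  have h10 : star q * q = 0 := by
    rw [hqs]
    exact h8
  exact CStarRing.star_mul_self_eq_zero_iff _ |>.1 h10

theorem e_pow {e c u : A} (hcu : c * u = u * c) (he : e * u = 0) (n : ℕ) :
    e * (c - u) ^ n = e * c ^ n := by
  induction n with
  | zero => simp
  | succ n ih =>
    rw [pow_succ, ← mul_assoc, ih, mul_sub, mul_assoc e (c ^ n) u,
      ((Commute.pow_left (show Commute c u from hcu) n).eq), ← mul_assoc e u, he, zero_mul,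
      sub_zero, mul_assoc, ← pow_succ]

theorem e_poly {e c u : A} (hcu : c * u = u * c) (he : e * u = 0) (P : Polynomial ℝ) :
    e * Polynomial.aeval (c - u) P = e * Polynomial.aeval c P := by
  induction P using Polynomial.induction_on' with
  | add p q hp hq => rw [map_add, map_add, mul_add, mul_add, hp, hq]
  | monomial n a =>
    rw [Polynomial.aeval_monomial, Polynomial.aeval_monomial, Algebra.algebraMap_eq_smul_one,
      smul_one_mul, smul_one_mul, mul_smul_comm, mul_smul_comm, e_pow hcu he]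

theorem e_cfc {e c u : A} (hc : IsSelfAdjoint c) (hu : IsSelfAdjoint u) (hcu : c * u = u * c)
    (he : e * u = 0) {f : ℝ → ℝ} (hf : Continuous f) : e * cfc f (c - u) = e * cfc f c := by
  rw [← sub_eq_zero, ← norm_le_zero_iff]
  refine le_of_forall_pos_le_add fun ε hε => ?_
  rw [zero_add]
  set M : ℝ := ‖c‖ + ‖c - u‖ with hM
  obtain ⟨P, hP⟩ := exists_polynomial_near_of_continuousOn (-M) M f hf.continuousOn
    (ε / (2 * (‖e‖ + 1))) (by positivity)
  have key : ∀ t : A, IsSelfAdjoint t → ‖t‖ ≤ M →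
      ‖cfc f t - Polynomial.aeval t P‖ ≤ ε / (2 * (‖e‖ + 1)) := by
    intro t ht htM
    rw [← cfc_polynomial P t ht, ← cfc_sub f P.eval t hf.continuousOn P.continuous.continuousOn]
    refine norm_cfc_le (by positivity) fun s hs => ?_
    have hs' : s ∈ Set.Icc (-M) M := by
      rcases subsingleton_or_nontrivial A with hB | hB
      · rw [spectrum.of_subsingleton] at hs
        exact absurd hs (Set.notMem_empty _)
      · have h1 := spectrum.norm_le_norm_of_mem hs
        rw [Real.norm_eq_abs] at h1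
        exact abs_le.1 (h1.trans htM)
    have := (hP s hs').le
    rw [Real.norm_eq_abs, abs_sub_comm]
    exact this
  have k1 := key (c - u) (hc.sub hu) (by rw [hM]; linarith [norm_nonneg c])
  have k2 := key c hc (by rw [hM]; linarith [norm_nonneg (c - u)])
  have e1 : e * cfc f (c - u) - e * cfc f c = e * (cfc f (c - u) - Polynomial.aeval (c - u) P) -
      e * (cfc f c - Polynomial.aeval c P) := by
    rw [mul_sub, mul_sub, e_poly hcu he]
    abel
  rw [e1]
  refine (norm_sub_le _ _).trans ?_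
  have b : ∀ t : A, ‖t‖ ≤ ε / (2 * (‖e‖ + 1)) → ‖e * t‖ ≤ ε / 2 := by
    intro t ht
    calc ‖e * t‖ ≤ ‖e‖ * ‖t‖ := norm_mul_le _ _
      _ ≤ (‖e‖ + 1) * (ε / (2 * (‖e‖ + 1))) := by
        gcongr
        linarith
      _ = ε / 2 := by field_simp
  linarith [b _ k1, b _ k2]

end pm

theorem t_WQ2 (hWP : StWPOS) : StWQ2 := by
  intro A _ δ hδ c u hc hu hcu
  have hcs : IsSelfAdjoint c := hc.sa
  have hus : IsSelfAdjoint u := hu.sa
  have hs : IsSelfAdjoint (c - u) := hcs.sub hus
  refine ⟨?_, ?_, fun e he => ?_⟩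
  · have h1 : cfc (lG δ) (c - u) * cfc (tF δ) c = 0 := by
      have hpm := pm_zero hs hcs (by rwa [sub_sub_cancel])
        ((Commute.refl c).sub_left (show Commute u c from hcu.symm)) (2 * δ)
      have cp : Continuous fun s : ℝ => max (s - 2 * δ) 0 := by fun_prop
      have cm : Continuous fun s : ℝ => max (2 * δ - s) 0 := by fun_prop
      have cp' : Continuous fun s : ℝ => 1 / max (s - 2 * δ) δ := max_cont hδ (by fun_prop)
      have cm' : Continuous fun s : ℝ => 1 / max (2 * δ - s) δ := max_cont hδ (by fun_prop)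
      have e1 : cfc (lG δ) (c - u) = cfc (fun s : ℝ => 1 / max (s - 2 * δ) δ) (c - u) *
          cfc (fun s : ℝ => max (s - 2 * δ) 0) (c - u) := by
        rw [← cfc_mul _ _ _ cp'.continuousOn cp.continuousOn, lG_eq hδ]
        refine cfc_congr fun s _ => ?_
        exact mul_comm _ _
      have e2 : cfc (tF δ) c = cfc (fun s : ℝ => max (2 * δ - s) 0) c *
          cfc (fun s : ℝ => 1 / max (2 * δ - s) δ) c := by
        rw [← cfc_mul _ _ _ cm.continuousOn cm'.continuousOn, tF_eq hδ]
      rw [e1, e2, mul_assoc, ← mul_assoc (cfc (fun s : ℝ => max (s - 2 * δ) 0) (c - u)), hpm,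
        zero_mul, mul_zero]
    unfold cutG cutT
    rw [sub_mul, one_mul, h1, sub_zero]
  · unfold cutL cutG
    rw [mul_sub, mul_one, ← cfc_mul _ _ _ (lF_cont δ).continuousOn (lG_cont δ).continuousOn,
      sub_eq_zero]
    refine cfc_congr fun s _ => ?_
    rcases le_total s (3 * δ) with h | h
    · have h1 : lF δ s = 0 := by
        unfold lF clip
        have : (s - 3 * δ) / δ ≤ 0 := div_nonpos_of_nonpos_of_nonneg (by linarith) hδ.le
        exact max_eq_left ((min_le_right _ _).trans this)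
      rw [h1, zero_mul]
    · have h1 : lG δ s = 1 := by
        unfold lG clip
        have : 1 ≤ (s - 2 * δ) / δ := (one_le_div hδ).2 (by linarith)
        rw [min_eq_left this, max_eq_right zero_le_one]
      rw [h1, mul_one]
  · exact e_cfc hcs hus hcu he (lF_cont δ)

theorem lF_small {δ s : ℝ} (hδ : 0 < δ) (hs : 0 ≤ s) :
    0 ≤ (1 - lF δ s) * s ∧ (1 - lF δ s) * s ≤ 4 * δ := by
  have h0 : 0 ≤ lF δ s := le_max_left _ _
  have h1 : lF δ s ≤ 1 := max_le zero_le_one (min_le_left _ _)
  refine ⟨mul_nonneg (by linarith) hs, ?_⟩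
  rcases le_total s (4 * δ) with h | h
  · nlinarith
  · have h2 : lF δ s = 1 := by
      unfold lF clip
      have : 1 ≤ (s - 3 * δ) / δ := (one_le_div hδ).2 (by linarith)
      rw [min_eq_left this, max_eq_right zero_le_one]
    rw [h2]
    linarith

theorem small_est {A : Type} [CStarAlgebra A] {F : FDA} {Φ : F.alg →ₗ[ℂ] A} {δ : ℝ} (hδ : 0 < δ)
    (hcp : IsCP Φ) (hoz : OZ Φ) (y : F.alg) :
    ‖(1 - cfc (lF δ) (Φ 1)) * Φ y‖ ≤ 4 * δ * ‖y‖ := by
  let _ := CStarAlgebra.spectralOrder A
  let _ := CStarAlgebra.spectralOrderedRing A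
  obtain ⟨c, hcd⟩ : ∃ c, c = Φ 1 := ⟨_, rfl⟩
  have h0 : 0 ≤ c := by rw [hcd]; simpa using hcp.nonneg (1 : F.alg)
  have hsa : IsSelfAdjoint c := IsSelfAdjoint.of_nonneg h0
  have hcomm : ∀ z, Commute c (Φ z) := by
    intro z
    have := hoz z 1
    rw [mul_one, ← hcd] at this
    exact this.symm
  rw [← hcd]
  have hpos : ∀ s ∈ spectrum ℝ c, 0 ≤ s := fun s hs => spectrum_nonneg_of_nonneg h0 hs
  have hl := lF_cont δ
  set h := 1 - cfc (lF δ) c with hh
  have hh' : h = cfc (fun s => 1 - lF δ s) c := by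
    rw [cfc_sub (fun _ : ℝ => (1 : ℝ)) (lF δ) c (by fun_prop) hl.continuousOn, cfc_const_one ℝ c]
  have hhs : IsSelfAdjoint h := by rw [hh']; exact cfc_predicate _ _
  set K := cfc (fun s => (1 - lF δ s) * Real.sqrt s) c with hK
  have hKc : Continuous fun s => (1 - lF δ s) * Real.sqrt s :=
    (continuous_const.sub hl).mul Real.continuous_sqrt
  have hKs : IsSelfAdjoint K := cfc_predicate _ _
  have hKcomm : ∀ z, Commute K (Φ z) := fun z => (hcomm z).cfc_real _
  have hhcomm : ∀ z, Commute h (Φ z) := fun z => by rw [hh']; exact (hcomm z).cfc_real _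
  have hid : c = cfc (fun s : ℝ => s) c := (cfc_id' ℝ c).symm
  have hl1 : Continuous fun s => 1 - lF δ s := continuous_const.sub hl
  have hKK : K * K = h * h * c := by
    have e1 : h * h * c = cfc (fun s => (1 - lF δ s) * (1 - lF δ s) * s) c := by
      rw [cfc_mul (fun s => (1 - lF δ s) * (1 - lF δ s)) (fun s => s) c
        (hl1.mul hl1).continuousOn continuous_id.continuousOn, cfc_mul (fun s => 1 - lF δ s)
        (fun s => 1 - lF δ s) c hl1.continuousOn hl1.continuousOn, ← hh', cfc_id' ℝ c]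
    rw [e1, hK, ← cfc_mul _ _ _ hKc.continuousOn hKc.continuousOn]
    refine cfc_congr fun s hs => ?_
    have := Real.mul_self_sqrt (hpos s hs)
    calc (1 - lF δ s) * Real.sqrt s * ((1 - lF δ s) * Real.sqrt s)
        = (1 - lF δ s) * (1 - lF δ s) * (Real.sqrt s * Real.sqrt s) := by ring
      _ = _ := by rw [this]
  obtain ⟨P, hP⟩ : ∃ P, P = Φ (y * star y) := ⟨_, rfl⟩
  have hP0 : 0 ≤ P := by
    rw [hP]; have := hcp.nonneg (star y); rwa [star_star] at this
  have hPle : P ≤ ((‖y‖ ^ 2 : ℝ) : ℂ) • c := by rw [hP, hcd]; exact J_ROW.est hcp y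
  have hyy : Φ y * star (Φ y) = c * P := by
    rw [← hcp.star_map, hoz, hcd, hP]
  have hD : (h * Φ y) * star (h * Φ y) = K * P * K := by
    have e2 : K * P * K = K * K * P := by
      rw [mul_assoc, mul_assoc, hP, (hKcomm _).eq]
    have ch : Commute h c := by
      have := hhcomm 1
      rwa [← hcd] at this
    rw [e2, hKK, star_mul, hhs.star_eq]
    calc h * Φ y * (star (Φ y) * h) = h * (Φ y * star (Φ y)) * h := by simp only [mul_assoc]
      _ = h * (c * P) * h := by rw [hyy]
      _ = h * h * c * P := by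
        have h1 : c * P * h = h * (c * P) := by
          rw [mul_assoc, hP, ← (hhcomm _).eq, ← mul_assoc, ← mul_assoc, ch.eq]
        rw [mul_assoc h (c * P) h, h1]
        simp only [mul_assoc]
  have hKhK : K * c * K = cfc (fun s : ℝ => (1 - lF δ s) * Real.sqrt s * s *
      ((1 - lF δ s) * Real.sqrt s)) c := by
    rw [cfc_mul (fun s : ℝ => (1 - lF δ s) * Real.sqrt s * s) (fun s => (1 - lF δ s) * Real.sqrt s) c
      (hKc.mul continuous_id).continuousOn hKc.continuousOn,
      cfc_mul (fun s : ℝ => (1 - lF δ s) * Real.sqrt s) (fun s => s) c hKc.continuousOn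
      continuous_id.continuousOn, cfc_id' ℝ c]
  have hKn : ‖K * c * K‖ ≤ (4 * δ) ^ 2 := by
    rw [hKhK]
    refine norm_cfc_le (by positivity) fun s hs => ?_
    have hs0 := hpos s hs
    obtain ⟨a1, a2⟩ := lF_small hδ hs0
    have e1 : (1 - lF δ s) * Real.sqrt s * s * ((1 - lF δ s) * Real.sqrt s) =
        ((1 - lF δ s) * s) ^ 2 := by
      calc (1 - lF δ s) * Real.sqrt s * s * ((1 - lF δ s) * Real.sqrt s)
          = (1 - lF δ s) ^ 2 * s * (Real.sqrt s * Real.sqrt s) := by ring
        _ = _ := by rw [Real.mul_self_sqrt hs0]; ring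
    rw [e1, Real.norm_of_nonneg (sq_nonneg _)]
    exact pow_le_pow_left₀ a1 a2 2
  have hfin : ‖h * Φ y‖ ^ 2 ≤ (4 * δ * ‖y‖) ^ 2 := by
    rw [pow_two, ← CStarRing.norm_self_mul_star, hD]
    have e1 : 0 ≤ K * P * K := hKs.conjugate_nonneg hP0
    have e2 : K * P * K ≤ K * (((‖y‖ ^ 2 : ℝ) : ℂ) • c) * K := hKs.conjugate_le_conjugate hPle
    refine (CStarAlgebra.norm_le_norm_of_nonneg_of_le e1 e2).trans ?_
    rw [mul_smul_comm, smul_mul_assoc, norm_smul]
    have e3 : ‖((‖y‖ ^ 2 : ℝ) : ℂ)‖ = ‖y‖ ^ 2 := by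
      rw [Complex.norm_real, Real.norm_of_nonneg (sq_nonneg _)]
    rw [e3]
    calc ‖y‖ ^ 2 * ‖K * c * K‖ ≤ ‖y‖ ^ 2 * (4 * δ) ^ 2 := by gcongr
      _ = _ := by ring
  exact (sq_le_sq₀ (norm_nonneg _) (by positivity)).1 hfin

theorem t_WQ3 (hWP : StWPOS) (h2 : StWQ2) : StWQ3 := by
  intro A _ F Φ δ hδ hcp hoz u e hu huc heu he y
  have hc : Pos (Φ 1) := Pool.Agent.Helper7_ND.IsCP.pos hcp ⟨1, by simp⟩
  have h3 := (h2 A δ hδ (Φ 1) u hc hu huc.symm).2.2 e heu
  have h4 : e * ((1 - cutL δ (Φ 1) u) * Φ y) = e * ((1 - cfc (lF δ) (Φ 1)) * Φ y) := by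
    rw [← mul_assoc, ← mul_assoc, mul_sub, mul_sub, h3]
  rw [h4]
  calc ‖e * ((1 - cfc (lF δ) (Φ 1)) * Φ y)‖ ≤ ‖e‖ * ‖(1 - cfc (lF δ) (Φ 1)) * Φ y‖ :=
        norm_mul_le _ _
    _ ≤ 1 * ‖(1 - cfc (lF δ) (Φ 1)) * Φ y‖ := by gcongr
    _ ≤ 4 * δ * ‖y‖ := by
      rw [one_mul]
      exact small_est hδ hcp hoz y

end Pool.Agent.Helper7_ND.J_WQ2
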