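import Pool.Agent.Helper7_ND.Stm5
import Pool.Agent.Helper7_ND.Rp

set_option autoImplicit false

open scoped Matrix.Norms.L2Operator ENNReal Matrix
open Pool.Agent.W659.EC

noncomputable section

namespace Pool.Agent.Helper7_ND.J_WQ4

theorem norm_one_le1 (B : Type) [CStarAlgebra B] : ‖(1 : B)‖ ≤ 1 := by
  rcases subsingleton_or_nontrivial B with h | h
  · have h1 : (1 : B) = 0 := Subsingleton.elim _ _
    rw [h1]; simp
  · exact CStarRing.norm_one.le

theorem norm_pow_le1 (B : Type) [CStarAlgebra B] (M : ℝ) (hM : 0 ≤ M) (x : B) (hx : ‖x‖ ≤ M)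
    (n : ℕ) : ‖x ^ n‖ ≤ M ^ n := by
  induction n with
  | zero => simpa using norm_one_le1 B
  | succ n ih =>
    rw [pow_succ, pow_succ]
    exact (norm_mul_le _ _).trans (mul_le_mul ih hx (norm_nonneg _) (by positivity))

theorem F_mono (M : ℝ) (hM : 0 ≤ M) (n : ℕ) : ∃ K : ℝ, 0 ≤ K ∧
    ∀ (B : Type) [CStarAlgebra B] (a β γ g : B) (e : ℝ), 0 ≤ e → ‖a‖ ≤ M → ‖β‖ ≤ M → ‖γ‖ ≤ M →
      a * β = β * a → ‖a * (β - γ) * g‖ ≤ e → ‖γ * g - g * γ‖ ≤ e →
      ‖a * (β ^ n - γ ^ n) * g‖ ≤ K * e ∧ ‖γ ^ n * g - g * γ ^ n‖ ≤ K * e := by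
  induction n with
  | zero =>
    refine ⟨0, le_rfl, ?_⟩
    intros
    simp
  | succ n ih =>
    obtain ⟨K, hK, h⟩ := ih
    refine ⟨(K * M + M ^ n) + (M * K + M ^ n + M * (M + M) * K), by positivity, ?_⟩
    intro B _ a β γ g e he ha hβ hγ hab h1 h2
    obtain ⟨i1, i2⟩ := h B a β γ g e he ha hβ hγ hab h1 h2
    have hγn : ‖γ ^ n‖ ≤ M ^ n := norm_pow_le1 B M hM γ hγ n
    have e2 : γ ^ (n + 1) * g - g * γ ^ (n + 1) =
        γ ^ n * (γ * g - g * γ) + (γ ^ n * g - g * γ ^ n) * γ := by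
      rw [pow_succ]; noncomm_ring
    have b2 : ‖γ ^ (n + 1) * g - g * γ ^ (n + 1)‖ ≤ (K * M + M ^ n) * e := by
      rw [e2]
      calc _ ≤ ‖γ ^ n * (γ * g - g * γ)‖ + ‖(γ ^ n * g - g * γ ^ n) * γ‖ := norm_add_le _ _
        _ ≤ ‖γ ^ n‖ * ‖γ * g - g * γ‖ + ‖γ ^ n * g - g * γ ^ n‖ * ‖γ‖ :=
          add_le_add (norm_mul_le _ _) (norm_mul_le _ _)
        _ ≤ M ^ n * e + K * e * M := by gcongr
        _ = (K * M + M ^ n) * e := by ring
    have e1 : a * (β ^ (n + 1) - γ ^ (n + 1)) * g =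
        β * (a * (β ^ n - γ ^ n) * g) + a * (β - γ) * g * γ ^ n
          + a * (β - γ) * (γ ^ n * g - g * γ ^ n) := by
      have h3 : β * (a * (β ^ n - γ ^ n) * g) = a * β * (β ^ n - γ ^ n) * g := by
        rw [hab]; noncomm_ring
      rw [h3, pow_succ' β, pow_succ' γ]
      noncomm_ring
    have b1 : ‖a * (β ^ (n + 1) - γ ^ (n + 1)) * g‖ ≤
        (M * K + M ^ n + M * (M + M) * K) * e := by
      rw [e1]
      calc _ ≤ ‖β * (a * (β ^ n - γ ^ n) * g)‖ + ‖a * (β - γ) * g * γ ^ n‖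
            + ‖a * (β - γ) * (γ ^ n * g - g * γ ^ n)‖ := norm_add₃_le
        _ ≤ ‖β‖ * ‖a * (β ^ n - γ ^ n) * g‖ + ‖a * (β - γ) * g‖ * ‖γ ^ n‖
            + ‖a‖ * (‖β‖ + ‖γ‖) * ‖γ ^ n * g - g * γ ^ n‖ := by
          refine add_le_add (add_le_add (norm_mul_le _ _) (norm_mul_le _ _)) ?_
          refine (norm_mul_le _ _).trans ?_
          gcongr
          refine (norm_mul_le _ _).trans ?_
          gcongr
          exact norm_sub_le _ _
        _ ≤ M * (K * e) + e * M ^ n + M * (M + M) * (K * e) := by gcongr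
        _ = (M * K + M ^ n + M * (M + M) * K) * e := by ring
    have p1 : 0 ≤ (K * M + M ^ n) * e := by positivity
    have p2 : 0 ≤ (M * K + M ^ n + M * (M + M) * K) * e := by positivity
    constructor
    · refine b1.trans ?_
      rw [add_mul]
      linarith
    · refine b2.trans ?_
      rw [add_mul _ _ e]
      linarith

theorem F_poly (M : ℝ) (hM : 0 ≤ M) (P : Polynomial ℝ) : ∃ K : ℝ, 0 ≤ K ∧
    ∀ (B : Type) [CStarAlgebra B] (a β γ g : B) (e : ℝ), 0 ≤ e → ‖a‖ ≤ M → ‖β‖ ≤ M → ‖γ‖ ≤ M →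
      a * β = β * a → ‖a * (β - γ) * g‖ ≤ e → ‖γ * g - g * γ‖ ≤ e →
      ‖a * (Polynomial.aeval β P - Polynomial.aeval γ P) * g‖ ≤ K * e ∧
      ‖Polynomial.aeval γ P * g - g * Polynomial.aeval γ P‖ ≤ K * e := by
  induction P using Polynomial.induction_on' with
  | add p q hp hq =>
    obtain ⟨K, hK, h⟩ := hp
    obtain ⟨L, hL, h'⟩ := hq
    refine ⟨K + L, by positivity, ?_⟩
    intro B _ a β γ g e he ha hβ hγ hab h1 h2
    obtain ⟨i1, i2⟩ := h B a β γ g e he ha hβ hγ hab h1 h2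
    obtain ⟨j1, j2⟩ := h' B a β γ g e he ha hβ hγ hab h1 h2
    constructor
    · have e1 : a * (Polynomial.aeval β (p + q) - Polynomial.aeval γ (p + q)) * g =
          a * (Polynomial.aeval β p - Polynomial.aeval γ p) * g +
          a * (Polynomial.aeval β q - Polynomial.aeval γ q) * g := by
        rw [map_add, map_add]; noncomm_ring
      rw [e1, add_mul]
      exact (norm_add_le _ _).trans (add_le_add i1 j1)
    · have e1 : Polynomial.aeval γ (p + q) * g - g * Polynomial.aeval γ (p + q) =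
          (Polynomial.aeval γ p * g - g * Polynomial.aeval γ p) +
          (Polynomial.aeval γ q * g - g * Polynomial.aeval γ q) := by
        rw [map_add]; noncomm_ring
      rw [e1, add_mul]
      exact (norm_add_le _ _).trans (add_le_add i2 j2)
  | monomial n r =>
    obtain ⟨K, hK, h⟩ := F_mono M hM n
    refine ⟨|r| * K, by positivity, ?_⟩
    intro B _ a β γ g e he ha hβ hγ hab h1 h2
    obtain ⟨i1, i2⟩ := h B a β γ g e he ha hβ hγ hab h1 h2
    have hm : ∀ x : B, Polynomial.aeval x (Polynomial.monomial n r) = r • x ^ n := by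
      intro x
      rw [Polynomial.aeval_monomial, Algebra.algebraMap_eq_smul_one, smul_one_mul]
    constructor
    · have e1 : a * (Polynomial.aeval β (Polynomial.monomial n r) -
          Polynomial.aeval γ (Polynomial.monomial n r)) * g =
          r • (a * (β ^ n - γ ^ n) * g) := by
        rw [hm, hm, ← smul_sub, mul_smul_comm, smul_mul_assoc]
      rw [e1, norm_smul, Real.norm_eq_abs, mul_assoc |r|]
      exact mul_le_mul_of_nonneg_left i1 (abs_nonneg r)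
    · have e1 : Polynomial.aeval γ (Polynomial.monomial n r) * g -
          g * Polynomial.aeval γ (Polynomial.monomial n r) =
          r • (γ ^ n * g - g * γ ^ n) := by
        rw [hm, smul_sub, mul_smul_comm, smul_mul_assoc]
      rw [e1, norm_smul, Real.norm_eq_abs, mul_assoc |r|]
      exact mul_le_mul_of_nonneg_left i2 (abs_nonneg r)

theorem F_fun (f : ℝ → ℝ) (hf : Continuous f) (M ε1 : ℝ) (hM : 0 ≤ M) (hε : 0 < ε1) :
    ∃ e2 : ℝ, 0 < e2 ∧
    ∀ (B : Type) [CStarAlgebra B] (a β γ g : B), ‖a‖ ≤ M → ‖β‖ ≤ M → ‖γ‖ ≤ M → ‖g‖ ≤ M →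
      IsSelfAdjoint β → IsSelfAdjoint γ →
      a * β = β * a → ‖a * (β - γ) * g‖ ≤ e2 → ‖γ * g - g * γ‖ ≤ e2 →
      ‖a * (cfc f β - cfc f γ) * g‖ ≤ ε1 ∧ ‖cfc f γ * g - g * cfc f γ‖ ≤ ε1 := by
  obtain ⟨P, hP⟩ := exists_polynomial_near_of_continuousOn (-M) M f hf.continuousOn
    (ε1 / (4 * (M + 1) ^ 2)) (by positivity)
  obtain ⟨K, hK, h⟩ := F_poly M hM P
  refine ⟨ε1 / (2 * (K + 1)), by positivity, ?_⟩
  intro B _ a β γ g ha hβ hγ hg sβ sγ hab h1 h2
  obtain ⟨i1, i2⟩ := h B a β γ g _ (by positivity) ha hβ hγ hab h1 h2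
  have hd : ∀ x : B, IsSelfAdjoint x → ‖x‖ ≤ M →
      ‖cfc f x - Polynomial.aeval x P‖ ≤ ε1 / (4 * (M + 1) ^ 2) := by
    intro x sx hx
    rw [← cfc_polynomial P x sx, ← cfc_sub f P.eval x (hf.continuousOn) P.continuous.continuousOn]
    refine norm_cfc_le (by positivity) ?_
    intro s hs
    have hs1 : s ∈ Set.Icc (-M) M := by
      rcases subsingleton_or_nontrivial B with hB | hB
      · rw [spectrum.of_subsingleton] at hs
        exact absurd hs (Set.notMem_empty _)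
      · have h1 := spectrum.norm_le_norm_of_mem hs
        rw [Real.norm_eq_abs] at h1
        exact abs_le.mp (h1.trans hx)
    have := (hP s hs1).le
    rw [Real.norm_eq_abs, abs_sub_comm]
    exact this
  have dβ := hd β sβ hβ
  have dγ := hd γ sγ hγ
  have hKe : K * (ε1 / (2 * (K + 1))) ≤ ε1 / 2 := by
    have : K * (ε1 / (2 * (K + 1))) ≤ (K + 1) * (ε1 / (2 * (K + 1))) := by
      gcongr
      linarith
    refine this.trans (le_of_eq ?_)
    field_simp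
  have hM2 : M * (ε1 / (4 * (M + 1) ^ 2)) * M ≤ ε1 / 4 := by
    have h3 : M * (ε1 / (4 * (M + 1) ^ 2)) * M ≤
        (M + 1) * (ε1 / (4 * (M + 1) ^ 2)) * (M + 1) := by
      gcongr <;> linarith
    refine h3.trans (le_of_eq ?_)
    field_simp
  have hM1 : M * (ε1 / (4 * (M + 1) ^ 2)) ≤ ε1 / 4 := by
    have h3 : M * (ε1 / (4 * (M + 1) ^ 2)) ≤
        (M + 1) * (ε1 / (4 * (M + 1) ^ 2)) * (M + 1) := by
      have h4 : M * (ε1 / (4 * (M + 1) ^ 2)) ≤ (M + 1) * (ε1 / (4 * (M + 1) ^ 2)) := by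
        gcongr; linarith
      refine h4.trans ?_
      have h5 : 0 ≤ (M + 1) * (ε1 / (4 * (M + 1) ^ 2)) := by positivity
      nlinarith
    refine h3.trans (le_of_eq ?_)
    field_simp
  constructor
  · have e1 : a * (cfc f β - cfc f γ) * g =
        a * (Polynomial.aeval β P - Polynomial.aeval γ P) * g +
        a * (cfc f β - Polynomial.aeval β P) * g - a * (cfc f γ - Polynomial.aeval γ P) * g := by
      noncomm_ring
    rw [e1]
    calc _ ≤ ‖a * (Polynomial.aeval β P - Polynomial.aeval γ P) * g‖ +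
        ‖a * (cfc f β - Polynomial.aeval β P) * g‖ + ‖a * (cfc f γ - Polynomial.aeval γ P) * g‖ :=
          (norm_sub_le _ _).trans (add_le_add (norm_add_le _ _) le_rfl)
      _ ≤ ε1 / 2 + M * (ε1 / (4 * (M + 1) ^ 2)) * M + M * (ε1 / (4 * (M + 1) ^ 2)) * M := by
          refine add_le_add (add_le_add (i1.trans hKe) ?_) ?_
          · refine (norm_mul_le _ _).trans ?_
            gcongr
            refine (norm_mul_le _ _).trans ?_
            gcongr
          · refine (norm_mul_le _ _).trans ?_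
            gcongr
            refine (norm_mul_le _ _).trans ?_
            gcongr
      _ ≤ ε1 := by linarith
  · have e1 : cfc f γ * g - g * cfc f γ =
        (Polynomial.aeval γ P * g - g * Polynomial.aeval γ P) +
        (cfc f γ - Polynomial.aeval γ P) * g - g * (cfc f γ - Polynomial.aeval γ P) := by
      noncomm_ring
    rw [e1]
    calc _ ≤ ‖Polynomial.aeval γ P * g - g * Polynomial.aeval γ P‖ +
        ‖(cfc f γ - Polynomial.aeval γ P) * g‖ + ‖g * (cfc f γ - Polynomial.aeval γ P)‖ :=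
          (norm_sub_le _ _).trans (add_le_add (norm_add_le _ _) le_rfl)
      _ ≤ ε1 / 2 + M * (ε1 / (4 * (M + 1) ^ 2)) + M * (ε1 / (4 * (M + 1) ^ 2)) := by
          refine add_le_add (add_le_add (i2.trans hKe) ?_) ?_
          · refine (norm_mul_le _ _).trans ?_
            rw [mul_comm M]
            gcongr
          · refine (norm_mul_le _ _).trans ?_
            gcongr
      _ ≤ ε1 := by linarith

theorem clip_cont : Continuous clip := by unfold clip; fun_prop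

theorem clip_nonneg (s : ℝ) : 0 ≤ clip s := le_max_left _ _

theorem clip_le (s : ℝ) : clip s ≤ 1 := max_le zero_le_one (min_le_left _ _)

theorem clip_one (s : ℝ) (h : 1 ≤ s) : clip s = 1 := by
  unfold clip
  rw [min_eq_left h]
  exact max_eq_right zero_le_one

theorem max_pos' (δ s : ℝ) (hδ : 0 < δ) : 0 < max s δ := lt_max_of_lt_right hδ

/-- auxiliary function -/
def hF (δ s : ℝ) : ℝ := (1 - tF δ s) / max s δ

theorem lF_cont (δ : ℝ) : Continuous (lF δ) := by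
  unfold lF
  exact clip_cont.comp (by fun_prop)

theorem tF_cont (δ : ℝ) : Continuous (tF δ) := by
  unfold tF
  exact clip_cont.comp (by fun_prop)

theorem kF_cont (δ : ℝ) (hδ : 0 < δ) : Continuous (kF δ) := by
  unfold kF
  exact continuous_const.div (by fun_prop) (fun s => (max_pos' δ s hδ).ne')

theorem k1F_cont (δ : ℝ) (hδ : 0 < δ) : Continuous (k1F δ) := by
  unfold k1F
  exact continuous_const.sub (continuous_id.div (by fun_prop) (fun s => (max_pos' δ s hδ).ne'))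

theorem hF_cont (δ : ℝ) (hδ : 0 < δ) : Continuous (hF δ) := by
  unfold hF
  exact (continuous_const.sub (tF_cont δ)).div (by fun_prop) (fun s => (max_pos' δ s hδ).ne')

theorem tF_one (δ s : ℝ) (hδ : 0 < δ) (hs : s ≤ δ) : tF δ s = 1 := by
  unfold tF
  apply clip_one
  have : s / δ ≤ 1 := (div_le_one hδ).2 hs
  linarith

theorem hF_mul (δ s : ℝ) (hδ : 0 < δ) : hF δ s * s = 1 - tF δ s := by
  unfold hF
  rcases le_total s δ with h | h
  · rw [tF_one δ s hδ h]; simp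
  · rw [max_eq_left h]
    have : s ≠ 0 := (lt_of_lt_of_le hδ h).ne'
    field_simp

theorem kF_mul (δ s : ℝ) : kF δ s * s = 1 - k1F δ s := by
  unfold kF k1F
  ring

theorem tk1 (δ s : ℝ) (hδ : 0 < δ) : (1 - tF δ s) * k1F δ s = 0 := by
  rcases le_total s δ with h | h
  · rw [tF_one δ s hδ h]; simp
  · unfold k1F
    rw [max_eq_left h]
    have : s ≠ 0 := (lt_of_lt_of_le hδ h).ne'
    rw [div_self this]; simp

theorem hF_le (δ s : ℝ) (hδ : 0 < δ) : ‖hF δ s‖ ≤ 1 / δ := by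
  unfold hF
  have h1 := max_pos' δ s hδ
  have h2 : 0 ≤ 1 - tF δ s := by have := clip_le (2 - s / δ); unfold tF; linarith
  have h3 : 1 - tF δ s ≤ 1 := by have := clip_nonneg (2 - s / δ); unfold tF; linarith
  rw [Real.norm_eq_abs, abs_of_nonneg (by positivity)]
  exact div_le_div₀ zero_le_one h3 hδ (le_max_right _ _)

theorem kF_le (δ s : ℝ) (hδ : 0 < δ) : ‖kF δ s‖ ≤ 1 / δ := by
  unfold kF
  have h1 := max_pos' δ s hδ
  rw [Real.norm_eq_abs, abs_of_nonneg (by positivity)]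
  exact div_le_div₀ zero_le_one le_rfl hδ (le_max_right _ _)

theorem k1F_le (δ s : ℝ) (hδ : 0 < δ) (hs : 0 ≤ s) : ‖k1F δ s‖ ≤ 1 := by
  unfold k1F
  have h1 := max_pos' δ s hδ
  have h2 : 0 ≤ s / max s δ := by positivity
  have h3 : s / max s δ ≤ 1 := (div_le_one h1).2 (le_max_left _ _)
  rw [Real.norm_eq_abs, abs_of_nonneg (by linarith)]
  linarith

section fc

variable {A : Type} [CStarAlgebra A]

theorem pos_sa {c : A} (hc : Pos c) : IsSelfAdjoint c := hc.sa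

theorem pos_spec {c : A} (hc : Pos c) : ∀ s ∈ spectrum ℝ c, 0 ≤ s := by
  let _ := CStarAlgebra.spectralOrder A
  let _ := CStarAlgebra.spectralOrderedRing A
  intro s hs
  exact spectrum_nonneg_of_nonneg ((pos_iff c).1 hc) hs

theorem one_sub_cutT {c : A} (hc : Pos c) (δ : ℝ) (hδ : 0 < δ) :
    1 - cutT δ c = cfc (hF δ) c * c := by
  have sc := pos_sa hc
  have h1 : cfc (fun s => 1 - tF δ s) c = 1 - cutT δ c := by
    rw [cfc_sub (fun _ => 1) (tF δ) c continuousOn_const (tF_cont δ).continuousOn,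
      cfc_const_one ℝ c]
    rfl
  have h2 : cfc (fun s => hF δ s * s) c = cfc (hF δ) c * c := by
    rw [cfc_mul (hF δ) (fun s => s) c (hF_cont δ hδ).continuousOn continuousOn_id, cfc_id' ℝ c]
  rw [← h1, ← h2]
  apply cfc_congr
  intro s _
  exact (hF_mul δ s hδ).symm

theorem kappa_mul {c : A} (hc : Pos c) (δ : ℝ) (hδ : 0 < δ) :
    cfc (kF δ) c * c = 1 - cfc (k1F δ) c := by
  have sc := pos_sa hc
  have h1 : cfc (fun s => 1 - k1F δ s) c = 1 - cfc (k1F δ) c := by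
    rw [cfc_sub (fun _ => 1) (k1F δ) c continuousOn_const (k1F_cont δ hδ).continuousOn,
      cfc_const_one ℝ c]
  have h2 : cfc (fun s => kF δ s * s) c = cfc (kF δ) c * c := by
    rw [cfc_mul (kF δ) (fun s => s) c (kF_cont δ hδ).continuousOn continuousOn_id, cfc_id' ℝ c]
  rw [← h1, ← h2]
  apply cfc_congr
  intro s _
  exact kF_mul δ s

theorem tau_k1 {c : A} (hc : Pos c) (δ : ℝ) (hδ : 0 < δ) :
    (1 - cutT δ c) * cfc (k1F δ) c = 0 := by
  have sc := pos_sa hc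
  have h1 : cfc (fun s => 1 - tF δ s) c = 1 - cutT δ c := by
    rw [cfc_sub (fun _ => 1) (tF δ) c continuousOn_const (tF_cont δ).continuousOn,
      cfc_const_one ℝ c]
    rfl
  rw [← h1, ← cfc_mul (fun s => 1 - tF δ s) (k1F δ) c
    (continuousOn_const.sub (tF_cont δ).continuousOn) (k1F_cont δ hδ).continuousOn]
  have h2 : cfc (fun s => (1 - tF δ s) * k1F δ s) c = cfc (fun _ : ℝ => (0 : ℝ)) c := by
    apply cfc_congr
    intro s _
    exact tk1 δ s hδ
  rw [h2, cfc_const_zero]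

theorem norm_H {c : A} (δ : ℝ) (hδ : 0 < δ) : ‖cfc (hF δ) c‖ ≤ 1 / δ :=
  norm_cfc_le (by positivity) (fun s _ => hF_le δ s hδ)

theorem norm_K {c : A} (δ : ℝ) (hδ : 0 < δ) : ‖cfc (kF δ) c‖ ≤ 1 / δ :=
  norm_cfc_le (by positivity) (fun s _ => kF_le δ s hδ)

theorem norm_K1 {c : A} (hc : Pos c) (δ : ℝ) (hδ : 0 < δ) : ‖cfc (k1F δ) c‖ ≤ 1 :=
  norm_cfc_le zero_le_one (fun s hs => k1F_le δ s hδ (pos_spec hc s hs))

theorem pos_K {c : A} (δ : ℝ) (hδ : 0 < δ) : Pos (cfc (kF δ) c) := by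
  let _ := CStarAlgebra.spectralOrder A
  let _ := CStarAlgebra.spectralOrderedRing A
  rw [pos_iff]
  apply cfc_nonneg
  intro s _
  have := max_pos' δ s hδ
  unfold kF
  positivity

end fc

/-- the estimate for one colour -/
theorem one_term {A : Type} [CStarAlgebra A] (ci ck bk g L L' : A) (ε ε1 : ℝ)
    (hε : 0 ≤ ε)
    (hci : ‖ci‖ ≤ 2) (hck : ‖ck‖ ≤ 2) (hbk : ‖bk‖ ≤ 2) (hL : ‖L‖ ≤ 1)
    (hbc : bk * ci = ci * bk) (hLc : ck * L = L * ck) (hLb : bk * L' = L' * bk)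
    (h3 : ‖ci * (bk - ck) * g‖ ≤ ε) (hF1 : ‖ci * (L' - L) * g‖ ≤ ε1)
    (hF2 : ‖L * g - g * L‖ ≤ ε1) :
    ‖ci * ((1 - L) * ck - (1 - L') * bk) * g‖ ≤ 2 * ε + 10 * ε1 := by
  have hε1 : 0 ≤ ε1 := (norm_nonneg _).trans hF2
  have e : ci * ((1 - L) * ck - (1 - L') * bk) * g =
      -(ci * (bk - ck) * g) + bk * (ci * (L' - L) * g) + ci * (bk - ck) * g * L
        + ci * (bk - ck) * (L * g - g * L) := by
    have h4 : bk * (ci * (L' - L) * g) = ci * bk * L' * g - ci * bk * L * g := by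
      rw [← mul_assoc, ← mul_assoc, hbc]; noncomm_ring
    have h5 : ci * ((1 - L) * ck - (1 - L') * bk) * g =
        ci * ck * g - ci * (ck * L) * g - ci * bk * g + ci * (bk * L') * g := by
      rw [hLc, hLb]; noncomm_ring
    rw [h4, h5]
    noncomm_ring
  rw [e]
  calc _ ≤ ‖-(ci * (bk - ck) * g)‖ + ‖bk * (ci * (L' - L) * g)‖ + ‖ci * (bk - ck) * g * L‖
        + ‖ci * (bk - ck) * (L * g - g * L)‖ := by
        refine (norm_add_le _ _).trans (add_le_add ?_ le_rfl)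
        exact norm_add₃_le
    _ ≤ ε + 2 * ε1 + ε * 1 + (2 * (2 + 2)) * ε1 := by
        refine add_le_add (add_le_add (add_le_add ?_ ?_) ?_) ?_
        · rw [norm_neg]; exact h3
        · exact (norm_mul_le _ _).trans (mul_le_mul hbk hF1 (norm_nonneg _) (by norm_num))
        · exact (norm_mul_le _ _).trans (mul_le_mul h3 hL (norm_nonneg _) hε)
        · refine (norm_mul_le _ _).trans (mul_le_mul ?_ hF2 (norm_nonneg _) (by norm_num))
          refine (norm_mul_le _ _).trans (mul_le_mul hci ?_ (norm_nonneg _) (by norm_num))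
          exact (norm_sub_le _ _).trans (add_le_add hbk hck)
    _ = 2 * ε + 10 * ε1 := by ring

theorem half (hWP : StWPOS) (J : Type) [Fintype J] [DecidableEq J] (δ C ε' : ℝ) (hδ : 0 < δ)
    (hε' : 0 < ε') :
    ∃ ε : ℝ, 0 < ε ∧ ∀ (A : Type) [CStarAlgebra A] (F : J → FDA) (Φ : ∀ j, (F j).alg →ₗ[ℂ] A)
      (i : J) (t u g : A) (b : J → A) (X : ∀ j, (F j).alg),
      (∀ j, IsCP (Φ j)) → (∀ j, OZ (Φ j)) → (∀ j, ‖Φ j 1‖ ≤ 2) → Pos t → ‖t‖ ≤ 1 → Pos u →
      ‖u‖ ≤ 1 → (∀ j, Pos (b j)) → (∀ j, ‖b j‖ ≤ 2) → ‖g‖ ≤ C →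
      (∀ j y, u * Φ j y = Φ j y * u) → (∀ j, u * b j = b j * u) → u * g = g * u →
      t * u = u * t → t * g = g * t → (∀ y, t * Φ i y = Φ i y * t) →
      (∀ j y, b j * Φ i y = Φ i y * b j) →
      (∀ j, ‖Φ j (X j) - Φ j 1 * g‖ ≤ ε) → (∀ j, ‖Φ j (X j) - g * Φ j 1‖ ≤ ε) →
      (∀ j, ‖Φ i 1 * (b j - Φ j 1) * g‖ ≤ ε) →
      ∀ Z : A, Z = t * g * t + Φ i (X i) + ∑ k ∈ Finset.univ.erase i,
          (1 - cutL δ (Φ k 1) u) * Φ k (X k)
          - elW δ (Finset.univ.erase i) t (Φ i 1) u b * Φ i (X i) →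
        ‖(1 - cutT δ (Φ i 1)) * Z‖ ≤ ε' := by
  obtain ⟨n, hn⟩ : ∃ n : ℝ, n = (Fintype.card J : ℝ) := ⟨_, rfl⟩
  have hn0 : 0 ≤ n := by rw [hn]; positivity
  obtain ⟨ε1, hε1⟩ : ∃ ε1 : ℝ, ε1 = δ * ε' / (40 * (n + 1)) := ⟨_, rfl⟩
  have hε1p : 0 < ε1 := by rw [hε1]; positivity
  obtain ⟨e2, he2, hFF⟩ := F_fun (lF δ) (lF_cont δ) (|C| + 3) ε1 (by positivity) hε1p
  obtain ⟨MW, hMW⟩ : ∃ MW : ℝ, MW = (1 + 2 + n * 4) * (1 / δ) + 1 := ⟨_, rfl⟩
  have hMWp : 0 ≤ MW := by rw [hMW]; positivity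
  obtain ⟨Kc, hKc⟩ : ∃ Kc : ℝ, Kc = (1 / δ) * (n * 2) + (1 / δ * 2) * (1 + n * 2 + MW) + 1 :=
    ⟨_, rfl⟩
  have hKcp : 0 < Kc := by rw [hKc]; positivity
  refine ⟨min (e2 / 2) (ε' / (2 * Kc)), by positivity, ?_⟩
  intro A _ F Φ i t u g b X hCP hOZ hΦ1 ht htn hu hun hb hbn hg huΦ hub hug htu htg htΦ hbΦ
    h1 h2 h3 Z hZ
  obtain ⟨ε, hε⟩ : ∃ ε : ℝ, ε = min (e2 / 2) (ε' / (2 * Kc)) := ⟨_, rfl⟩
  rw [← hε] at h1 h2 h3
  have hεp : 0 < ε := by rw [hε]; positivity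
  have hεa : ε ≤ e2 / 2 := by rw [hε]; exact min_le_left _ _
  have hεb : ε ≤ ε' / (2 * Kc) := by rw [hε]; exact min_le_right _ _
  have pos1 : ∀ j, Pos (1 : (F j).alg) := fun j => ⟨1, by simp⟩
  have hc : ∀ j, Pos (Φ j 1) := fun j => IsCP.pos (hCP j) (pos1 j)
  have su : star u = u := hu.sa
  have hcc : ∀ j y, Φ j 1 * Φ j y = Φ j y * Φ j 1 := by
    intro j y
    rw [hOZ j y 1, mul_one]
  -- facts on the weights
  obtain ⟨-, -, -, -, -, -, -, -, -, -, pT, -, cT, -, -⟩ :=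
    hWP A J (Finset.univ.erase i) δ hδ t (Φ i 1) u b ht (hc i) su (fun k _ => hb k)
  have LF : ∀ c : A, Pos c → ‖cutL δ c u‖ ≤ 1 ∧
      (∀ z, z * c = c * z → z * u = u * z → z * cutL δ c u = cutL δ c u * z) ∧
      sq c * sq c = c ∧ (∀ z, z * c = c * z → z * sq c = sq c * z) := by
    intro c hc'
    obtain ⟨-, q1, q2, -, q3, -, q4, -⟩ :=
      hWP A J ∅ δ hδ t c u b ht hc' su (by simp)
    exact ⟨q3, q4, q1, q2⟩
  have n1 : ‖(1 : A)‖ ≤ 1 := norm_one_le1 A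
  -- the element elB
  have hB : ∀ k, elB δ (b k) u = (1 - cutL δ (b k) u) * b k := by
    intro k
    obtain ⟨-, q4, q1, q2⟩ := LF (b k) (hb k)
    have a1 : sq (b k) * b k = b k * sq (b k) := (q2 (b k) rfl).symm
    have a2 : sq (b k) * u = u * sq (b k) := (q2 u (hub k)).symm
    have a3 := q4 (sq (b k)) a1 a2
    unfold elB
    have a4 : sq (b k) * (1 - cutL δ (b k) u) = (1 - cutL δ (b k) u) * sq (b k) := by
      rw [mul_sub, sub_mul, a3, mul_one, one_mul]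
    rw [a4, mul_assoc, q1]
  have hbL : ∀ k, b k * cutL δ (b k) u = cutL δ (b k) u * b k := fun k =>
    (LF (b k) (hb k)).2.1 (b k) rfl (hub k).symm
  -- μ commutes with c
  obtain ⟨μ, hμ⟩ : ∃ μ : A, μ = elMu δ (Finset.univ.erase i) t (Φ i 1) u b := ⟨_, rfl⟩
  have hμ' : μ = t * t + Φ i 1 + ∑ k ∈ Finset.univ.erase i, (1 - cutL δ (b k) u) * b k := by
    rw [hμ]
    unfold elMu
    rw [Finset.sum_congr rfl (fun k _ => hB k)]
  have cL : ∀ k, Φ i 1 * cutL δ (b k) u = cutL δ (b k) u * Φ i 1 := fun k =>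
    (LF (b k) (hb k)).2.1 (Φ i 1) (hbΦ k 1).symm (huΦ i 1).symm
  have hμc : μ * Φ i 1 = Φ i 1 * μ := by
    rw [hμ', add_mul, add_mul, mul_add, mul_add, Finset.sum_mul, Finset.mul_sum]
    congr 1
    · congr 1
      rw [mul_assoc, htΦ 1, ← mul_assoc, htΦ 1, mul_assoc]
    · apply Finset.sum_congr rfl
      intro k _
      rw [mul_assoc, hbΦ k 1, ← mul_assoc, sub_mul, one_mul, ← cL k, ← mul_assoc, mul_sub,
        mul_one]
  have hμK : μ * cfc (kF δ) (Φ i 1) = cfc (kF δ) (Φ i 1) * μ := by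
    have h5 : Commute (Φ i 1) μ := hμc.symm
    exact (h5.cfc_real (kF δ)).symm
  obtain ⟨-, -, qK1, qK2⟩ := LF (cfc (kF δ) (Φ i 1)) (pos_K δ hδ)
  have hW : elW δ (Finset.univ.erase i) t (Φ i 1) u b =
      μ * cfc (kF δ) (Φ i 1) + cfc (k1F δ) (Φ i 1) := by
    unfold elW
    rw [← hμ, ← qK2 μ hμK, mul_assoc, qK1]
  have hKc' := kappa_mul (hc i) δ hδ
  have hTk := tau_k1 (hc i) δ hδ
  obtain ⟨τ, hτ⟩ : ∃ τ : A, τ = cutT δ (Φ i 1) := ⟨_, rfl⟩
  rw [← hτ] at hTk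
  have hτμ : (1 - τ) * μ = μ * (1 - τ) := by
    have := cT μ hμc
    rw [← hτ] at this
    rw [sub_mul, mul_sub, this, one_mul, mul_one]
  obtain ⟨κ, hκ⟩ : ∃ κ : A, κ = cfc (kF δ) (Φ i 1) := ⟨_, rfl⟩
  obtain ⟨κ1, hκ1⟩ : ∃ κ1 : A, κ1 = cfc (k1F δ) (Φ i 1) := ⟨_, rfl⟩
  obtain ⟨H, hH⟩ : ∃ H : A, H = cfc (hF δ) (Φ i 1) := ⟨_, rfl⟩
  have hHc : 1 - τ = H * Φ i 1 := by rw [hτ, hH]; exact one_sub_cutT (hc i) δ hδ
  have nH : ‖H‖ ≤ 1 / δ := by rw [hH]; exact norm_H δ hδ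
  have nκ : ‖κ‖ ≤ 1 / δ := by rw [hκ]; exact norm_K δ hδ
  have nκ1 : ‖κ1‖ ≤ 1 := by rw [hκ1]; exact norm_K1 (hc i) δ hδ
  rw [← hκ, ← hκ1] at hW hKc'
  rw [← hκ1] at hTk
  have hWc : (1 - τ) * (elW δ (Finset.univ.erase i) t (Φ i 1) u b * Φ i 1) = (1 - τ) * μ := by
    rw [hW]
    have a1 : (μ * κ + κ1) * Φ i 1 = μ - μ * κ1 + κ1 * Φ i 1 := by
      rw [add_mul, mul_assoc, hKc']; noncomm_ring
    rw [a1, mul_add, mul_sub, ← mul_assoc, hτμ, mul_assoc μ, hTk, ← mul_assoc, hTk]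
    simp
  -- errors
  obtain ⟨E, hE⟩ : ∃ E : J → A, ∀ j, E j = Φ j (X j) - Φ j 1 * g := ⟨_, fun _ => rfl⟩
  have nE : ∀ j, ‖E j‖ ≤ ε := fun j => by rw [hE]; exact h1 j
  have hΦE : ∀ j, Φ j (X j) = Φ j 1 * g + E j := fun j => by rw [hE]; abel
  obtain ⟨W, hWd⟩ : ∃ W : A, W = elW δ (Finset.univ.erase i) t (Φ i 1) u b := ⟨_, rfl⟩
  rw [← hWd] at hZ hWc hW
  have key : (1 - τ) * Z = H * ∑ k ∈ Finset.univ.erase i,
      (Φ i 1 * ((1 - cutL δ (Φ k 1) u) * Φ k 1 - (1 - cutL δ (b k) u) * b k) * g)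
      + (1 - τ) * (E i + ∑ k ∈ Finset.univ.erase i, (1 - cutL δ (Φ k 1) u) * E k - W * E i) := by
    have a1 : t * g * t = t * t * g := by rw [mul_assoc, ← htg, ← mul_assoc]
    have a2 : ∑ k ∈ Finset.univ.erase i, (1 - cutL δ (Φ k 1) u) * Φ k (X k) =
        (∑ k ∈ Finset.univ.erase i, (1 - cutL δ (Φ k 1) u) * Φ k 1) * g +
        ∑ k ∈ Finset.univ.erase i, (1 - cutL δ (Φ k 1) u) * E k := by
      rw [Finset.sum_mul, ← Finset.sum_add_distrib]
      apply Finset.sum_congr rfl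
      intro k _
      rw [hΦE k, mul_add, mul_assoc]
    have a3 : Z = (t * t + Φ i 1 + ∑ k ∈ Finset.univ.erase i, (1 - cutL δ (Φ k 1) u) * Φ k 1) * g
        - W * Φ i 1 * g
        + (E i + ∑ k ∈ Finset.univ.erase i, (1 - cutL δ (Φ k 1) u) * E k - W * E i) := by
      rw [hZ, a1, a2, hΦE i]
      noncomm_ring
    have a4 : (1 - τ) * (W * Φ i 1 * g) = (1 - τ) * μ * g := by
      rw [← mul_assoc, hWc]
    have a5 : H * ∑ k ∈ Finset.univ.erase i,
      (Φ i 1 * ((1 - cutL δ (Φ k 1) u) * Φ k 1 - (1 - cutL δ (b k) u) * b k) * g) =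
      (1 - τ) * ((∑ k ∈ Finset.univ.erase i, (1 - cutL δ (Φ k 1) u) * Φ k 1) -
        ∑ k ∈ Finset.univ.erase i, (1 - cutL δ (b k) u) * b k) * g := by
      rw [hHc, ← Finset.sum_sub_distrib, ← Finset.sum_mul, ← Finset.mul_sum]
      noncomm_ring
    rw [a5, a3, mul_add, mul_sub, a4, hμ']
    noncomm_ring
  -- norms
  have nsum : ∀ (f : J → A) (r : ℝ), 0 ≤ r → (∀ k, ‖f k‖ ≤ r) →
      ‖∑ k ∈ Finset.univ.erase i, f k‖ ≤ n * r := by
    intro f r hr hf
    refine (norm_sum_le _ _).trans ?_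
    refine (Finset.sum_le_card_nsmul _ _ r (fun k _ => hf k)).trans ?_
    rw [nsmul_eq_mul]
    apply mul_le_mul_of_nonneg_right _ hr
    rw [hn]
    exact_mod_cast (Finset.card_le_univ _)
  have nL : ∀ k, ‖1 - cutL δ (Φ k 1) u‖ ≤ 2 := by
    intro k
    refine (norm_sub_le _ _).trans ?_
    have := (LF (Φ k 1) (hc k)).1
    linarith
  have nL' : ∀ k, ‖1 - cutL δ (b k) u‖ ≤ 2 := by
    intro k
    refine (norm_sub_le _ _).trans ?_
    have := (LF (b k) (hb k)).1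
    linarith
  have nμ : ‖μ‖ ≤ 1 + 2 + n * 4 := by
    rw [hμ']
    refine (norm_add₃_le).trans (add_le_add (add_le_add ?_ (hΦ1 i)) ?_)
    · refine (norm_mul_le _ _).trans ?_
      calc ‖t‖ * ‖t‖ ≤ 1 * 1 := mul_le_mul htn htn (norm_nonneg _) zero_le_one
        _ = 1 := one_mul 1
    · apply nsum _ 4 (by norm_num)
      intro k
      refine (norm_mul_le _ _).trans ?_
      calc _ ≤ (2 : ℝ) * 2 := mul_le_mul (nL' k) (hbn k) (norm_nonneg _) (by norm_num)
        _ = 4 := by norm_num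
  have nW : ‖W‖ ≤ MW := by
    rw [hW, hMW]
    refine (norm_add_le _ _).trans (add_le_add ?_ nκ1)
    refine (norm_mul_le _ _).trans ?_
    exact mul_le_mul nμ nκ (norm_nonneg _) (by positivity)
  have nT : ‖1 - τ‖ ≤ 1 / δ * 2 := by
    rw [hHc]
    refine (norm_mul_le _ _).trans ?_
    exact mul_le_mul nH (hΦ1 i) (norm_nonneg _) (by positivity)
  have nterm : ∀ k, ‖Φ i 1 * ((1 - cutL δ (Φ k 1) u) * Φ k 1 - (1 - cutL δ (b k) u) * b k) * g‖ ≤
      2 * ε + 10 * ε1 := by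
    intro k
    have hCg : ‖g‖ ≤ |C| + 3 := hg.trans ((le_abs_self C).trans (by linarith))
    have hC0 : 0 ≤ |C| := abs_nonneg C
    have m1 : ‖Φ i 1‖ ≤ |C| + 3 := (hΦ1 i).trans (by linarith)
    have m2 : ‖b k - u‖ ≤ |C| + 3 := by
      refine (norm_sub_le _ _).trans ?_
      have := hbn k
      linarith
    have m3 : ‖Φ k 1 - u‖ ≤ |C| + 3 := by
      refine (norm_sub_le _ _).trans ?_
      have := hΦ1 k
      linarith
    have s1 : IsSelfAdjoint (b k - u) := (pos_sa (hb k)).sub su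
    have s2 : IsSelfAdjoint (Φ k 1 - u) := (pos_sa (hc k)).sub su
    have c1 : Φ i 1 * (b k - u) = (b k - u) * Φ i 1 := by
      rw [mul_sub, sub_mul, hbΦ k 1, huΦ i 1]
    have c2 : ‖Φ i 1 * ((b k - u) - (Φ k 1 - u)) * g‖ ≤ e2 := by
      have : (b k - u) - (Φ k 1 - u) = b k - Φ k 1 := by abel
      rw [this]
      exact (h3 k).trans (by linarith)
    have c3 : ‖(Φ k 1 - u) * g - g * (Φ k 1 - u)‖ ≤ e2 := by
      have e3 : (Φ k 1 - u) * g - g * (Φ k 1 - u) =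
          (Φ k (X k) - g * Φ k 1) - (Φ k (X k) - Φ k 1 * g) := by
        rw [sub_mul, mul_sub, hug]; abel
      rw [e3]
      refine (norm_sub_le _ _).trans ?_
      have := h1 k
      have := h2 k
      linarith
    obtain ⟨f1, f2⟩ := hFF A (Φ i 1) (b k - u) (Φ k 1 - u) g m1 m2 m3 hCg s1 s2 c1 c2 c3
    have hLk := LF (Φ k 1) (hc k)
    exact one_term (Φ i 1) (Φ k 1) (b k) g (cutL δ (Φ k 1) u) (cutL δ (b k) u) ε ε1 hεp.le
      (hΦ1 i) (hΦ1 k) (hbn k) hLk.1 (hbΦ k 1)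
      (hLk.2.1 (Φ k 1) rfl (huΦ k 1).symm) (hbL k) (h3 k) f1 f2
  rw [← hτ, key]
  have b1 : ‖H * ∑ k ∈ Finset.univ.erase i,
      (Φ i 1 * ((1 - cutL δ (Φ k 1) u) * Φ k 1 - (1 - cutL δ (b k) u) * b k) * g)‖ ≤
      (1 / δ) * (n * (2 * ε + 10 * ε1)) := by
    refine (norm_mul_le _ _).trans ?_
    exact mul_le_mul nH (nsum _ _ (by positivity) nterm) (norm_nonneg _) (by positivity)
  have b2 : ‖(1 - τ) * (E i + ∑ k ∈ Finset.univ.erase i, (1 - cutL δ (Φ k 1) u) * E k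
      - W * E i)‖ ≤ (1 / δ * 2) * ((1 + n * 2 + MW) * ε) := by
    refine (norm_mul_le _ _).trans ?_
    refine mul_le_mul nT ?_ (norm_nonneg _) (by positivity)
    refine (norm_sub_le _ _).trans ?_
    refine (add_le_add (norm_add_le _ _) le_rfl).trans ?_
    have d1 : ‖∑ k ∈ Finset.univ.erase i, (1 - cutL δ (Φ k 1) u) * E k‖ ≤ n * (2 * ε) := by
      apply nsum _ _ (by positivity)
      intro k
      refine (norm_mul_le _ _).trans ?_
      exact mul_le_mul (nL k) (nE k) (norm_nonneg _) (by norm_num)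
    have d2 : ‖W * E i‖ ≤ MW * ε :=
      (norm_mul_le _ _).trans (mul_le_mul nW (nE i) (norm_nonneg _) hMWp)
    have d3 := nE i
    calc ‖E i‖ + ‖∑ k ∈ Finset.univ.erase i, (1 - cutL δ (Φ k 1) u) * E k‖ + ‖W * E i‖
        ≤ ε + n * (2 * ε) + MW * ε := by linarith
      _ = (1 + n * 2 + MW) * ε := by ring
  refine (norm_add_le _ _).trans ((add_le_add b1 b2).trans ?_)
  have f1 : (1 / δ) * (n * (10 * ε1)) ≤ ε' / 4 := by
    rw [hε1]
    have : (1 / δ) * (n * (10 * (δ * ε' / (40 * (n + 1))))) = (ε' / 4) * (n / (n + 1)) := by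
      field_simp
      ring
    rw [this]
    have h7 : n / (n + 1) ≤ 1 := (div_le_one (by linarith)).2 (by linarith)
    have h8 : 0 ≤ n / (n + 1) := by positivity
    nlinarith
  have f2 : Kc * ε ≤ ε' / 2 := by
    calc Kc * ε ≤ Kc * (ε' / (2 * Kc)) := by gcongr
      _ = ε' / 2 := by field_simp
  have f3 : (1 / δ) * (n * (2 * ε + 10 * ε1)) + (1 / δ * 2) * ((1 + n * 2 + MW) * ε) =
      (1 / δ) * (n * (10 * ε1)) + (Kc - 1) * ε := by
    rw [hKc]; ring
  rw [f3]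
  have f4 : (Kc - 1) * ε ≤ Kc * ε := by nlinarith
  linarith

theorem t_WQ4 (hWP : StWPOS) : StWQ4 := by
  intro J _ _ δ C ε' hδ hε'
  obtain ⟨ε, hε, h⟩ := half hWP J δ C ε' hδ hε'
  refine ⟨ε, hε, ?_⟩
  intro A _ F Φ i t u g b X hCP hOZ hΦ1 ht htn hu hun hb hbn hg hX huΦ hub hug htu htg htΦ hbΦ
    h1 h2 h3 h4 Z hZ
  refine ⟨h A F Φ i t u g b X hCP hOZ hΦ1 ht htn hu hun hb hbn hg huΦ hub hug htu htg htΦ hbΦ
    h1 h2 h3 Z hZ, ?_⟩
  have pos1 : ∀ j, Pos (1 : (F j).alg) := fun j => ⟨1, by simp⟩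
  have hc : ∀ j, Pos (Φ j 1) := fun j => IsCP.pos (hCP j) (pos1 j)
  have su : star u = u := hu.sa
  have st : star t = t := ht.sa
  have sb : ∀ j, star (b j) = b j := fun j => (hb j).sa
  have sc : ∀ j, star (Φ j 1) = Φ j 1 := fun j => (hc j).sa
  have hcc : ∀ j y, Φ j 1 * Φ j y = Φ j y * Φ j 1 := by
    intro j y
    rw [hOZ j y 1, mul_one]
  have sΦ : ∀ j y, Φ j (star y) = star (Φ j y) := fun j y => IsCP.star_map (hCP j) y
  obtain ⟨-, -, -, -, -, -, -, -, -, -, pT, -, -, pW, cW⟩ :=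
    hWP A J (Finset.univ.erase i) δ hδ t (Φ i 1) u b ht (hc i) su (fun k _ => hb k)
  have LF : ∀ c : A, Pos c → Pos (cutL δ c u) ∧
      (∀ z, z * c = c * z → z * u = u * z → z * cutL δ c u = cutL δ c u * z) := by
    intro c hc'
    obtain ⟨-, -, -, q3, -, -, q4, -⟩ :=
      hWP A J ∅ δ hδ t c u b ht hc' su (by simp)
    exact ⟨q3, q4⟩
  have hL : ∀ k y, Φ k y * cutL δ (Φ k 1) u = cutL δ (Φ k 1) u * Φ k y := fun k y =>
    (LF (Φ k 1) (hc k)).2 (Φ k y) (hcc k y).symm (huΦ k y).symm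
  have hWc : Φ i (X i) * elW δ (Finset.univ.erase i) t (Φ i 1) u b =
      elW δ (Finset.univ.erase i) t (Φ i 1) u b * Φ i (X i) :=
    cW (Φ i (X i)) (htΦ (X i)).symm (hcc i (X i)).symm (huΦ i (X i)).symm
      (fun k _ => (hbΦ k (X i)).symm)
  have hstar : star Z = t * star g * t + Φ i (star (X i)) + ∑ k ∈ Finset.univ.erase i,
          (1 - cutL δ (Φ k 1) u) * Φ k (star (X k))
          - elW δ (Finset.univ.erase i) t (Φ i 1) u b * Φ i (star (X i)) := by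
    have e1 : star (elW δ (Finset.univ.erase i) t (Φ i 1) u b * Φ i (X i)) =
        elW δ (Finset.univ.erase i) t (Φ i 1) u b * star (Φ i (X i)) := by
      rw [← hWc, star_mul, pW.sa]
    have e2 : ∀ k, star ((1 - cutL δ (Φ k 1) u) * Φ k (X k)) =
        (1 - cutL δ (Φ k 1) u) * star (Φ k (X k)) := by
      intro k
      have e3 : (1 - cutL δ (Φ k 1) u) * Φ k (X k) = Φ k (X k) * (1 - cutL δ (Φ k 1) u) := by
        rw [sub_mul, mul_sub, hL, one_mul, mul_one]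
      rw [e3, star_mul, star_sub, star_one, (LF (Φ k 1) (hc k)).1.sa]
    rw [hZ, star_sub, star_add, star_add, e1, star_sum]
    simp only [e2, sΦ, star_mul, st]
    rw [mul_assoc]
  have c1 : u * star g = star g * u := by
    have := congrArg star hug
    rw [star_mul, star_mul, su] at this
    exact this.symm
  have c2 : t * star g = star g * t := by
    have := congrArg star htg
    rw [star_mul, star_mul, st] at this
    exact this.symm
  have key := h A F Φ i t u (star g) b (fun j => star (X j)) hCP hOZ hΦ1 ht htn hu hun hb hbn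
    (by rw [norm_star]; exact hg) huΦ hub c1 htu c2 htΦ hbΦ
    (by
      intro j
      have e : Φ j (star (X j)) - Φ j 1 * star g = star (Φ j (X j) - g * Φ j 1) := by
        rw [sΦ, star_sub, star_mul, sc]
      rw [e, norm_star]
      exact h2 j)
    (by
      intro j
      have e : Φ j (star (X j)) - star g * Φ j 1 = star (Φ j (X j) - Φ j 1 * g) := by
        rw [sΦ, star_sub, star_mul, sc]
      rw [e, norm_star]
      exact h1 j)
    (by
      intro j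
      have e : Φ i 1 * (b j - Φ j 1) * star g = star (g * (b j - Φ j 1) * Φ i 1) := by
        rw [star_mul, star_mul, star_sub, sb, sc, sc, mul_assoc]
      rw [e, norm_star]
      exact h4 j)
    (star Z) hstar
  have e : (1 - cutT δ (Φ i 1)) * star Z = star (Z * (1 - cutT δ (Φ i 1))) := by
    rw [star_mul, star_sub, star_one, pT.sa]
  rw [e, norm_star] at key
  exact key

end Pool.Agent.Helper7_ND.J_WQ4
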