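import Pool.Agent.Helper7_ND.Stm4
import Pool.Agent.Helper7_ND.Rp

/-! # Nuclear dimension of extensions: statements for the merging of all colours -/

set_option autoImplicit false

open scoped Matrix.Norms.L2Operator ENNReal Matrix
open Pool.Agent.W659.EC

noncomputable section

namespace Pool.Agent.Helper7_ND

section els

variable {A : Type} [CStarAlgebra A]

/-- the map `y ↦ W^{1/2} Φ(y) W^{1/2}` -/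
def phW {F : FDA} (W : A) (Φ : F.alg →ₗ[ℂ] A) : F.alg →ₗ[ℂ] A := conjL (sq W) ∘ₗ Φ

/-- the element `t g t + Φ_i(X_i) + ∑_{k ≠ i} (1 - L_k)^{1/2} Φ_k(X_k) (1 - L_k)^{1/2}` -/
def elM {J : Type} [Fintype J] [DecidableEq J] {F : J → FDA} (δ : ℝ) (i : J) (t u : A)
    (Φ : ∀ j, (F j).alg →ₗ[ℂ] A) (g : A) (X : ∀ j, (F j).alg) : A :=
  conjL t g + Φ i (X i)
    + ∑ k ∈ Finset.univ.erase i, conjL (sq (1 - cutL δ (Φ k 1) u)) (Φ k (X k))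

/-- the element `r ω(Φ(y)) r + P(p N(Φ(y)) p)` -/
def rhoQ {T Q R : Type} [CStarAlgebra T] [CStarAlgebra Q] [CStarAlgebra R] (ω : T →⋆ₐ[ℂ] Q)
    (N : T →ₗ[ℂ] R) (P : R →ₗ[ℂ] Q) {F : FDA} (Φ : F.alg →ₗ[ℂ] T) (r : Q) (p : R) (y : F.alg) : Q :=
  r * ω (Φ y) * r + P (p * N (Φ y) * p)

end els

/-- COL: one colour of the merging -/
def StCOL : Prop :=
  ∀ (J : Type) [Fintype J] [DecidableEq J] (δ C ε₂ : ℝ), 0 < δ → 0 < ε₂ →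
    ∃ ε₀ : ℝ, 0 < ε₀ ∧ ∀ (T Q R : Type) [CStarAlgebra T] [CStarAlgebra Q] [CStarAlgebra R]
      (ω : T →⋆ₐ[ℂ] Q) (N : T →ₗ[ℂ] R) (P : R →ₗ[ℂ] Q) (F : J → FDA)
      (Φ : ∀ j, (F j).alg →ₗ[ℂ] T) (i : J) (v u t : T) (b : J → T) (ε : ℝ)
      (Γ : Type) [Fintype Γ] (g : Γ → T) (X : Γ → ∀ j, (F j).alg),
      CutE R → SpecS R → 0 < ε → ε ≤ ε₀ → ε ≤ 1 →
      IsCP N → (∀ z, ‖N z‖ ≤ ‖ω z‖) →
      IsCPC P → (∀ a b, P a * P b = P 1 * P (a * b)) → (∀ a, P 1 * P a = 0 → a = 0) →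
      (∀ z, ω (z * v) = ω (v * z) → P (N z) = P (N 1) * ω z ∧ P (N z) = ω z * P (N 1)) →
      Pos (1 - P (N 1)) →
      (∀ j, IsCP (Φ j)) → (∀ j x y, ω (Φ j x * Φ j y) = ω (Φ j 1 * Φ j (x * y))) →
      Pos t → ‖t‖ ≤ 1 → Pos u → ‖u‖ ≤ 1 → Pos v → ‖v‖ ≤ 1 → (∀ j, Pos (b j)) → b i = Φ i 1 →
      ω (v * u) = ω u → ω (u * t) = ω t →
      (∀ j y, ω (v * Φ j y) = ω (Φ j y * v)) → (∀ j, ω (v * b j) = ω (b j * v)) →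
      (∀ j y, ω (u * Φ j y) = ω (Φ j y * u)) → (∀ j, ω (u * b j) = ω (b j * u)) →
      (∀ y, ω (t * Φ i y) = ω (Φ i y * t)) → (∀ j y, ω (b j * Φ i y) = ω (Φ i y * b j)) →
      Pos ((1 + ε : ℂ) • (1 : T) - t * t - ∑ j, Φ j 1) →
      Pos ((1 + ε : ℂ) • (1 : T) - t * t - ∑ j, b j) →
      (∀ γ, ‖ω (g γ)‖ ≤ C) → (∀ γ j, ‖X γ j‖ ≤ C) →
      (∀ γ, ω (v * g γ) = ω (g γ * v)) → (∀ γ, ω (u * g γ) = ω (g γ * u)) →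
      (∀ γ, ω (t * g γ) = ω (g γ * t)) →
      (∀ γ j, ‖ω (Φ j (X γ j) - Φ j 1 * g γ)‖ ≤ ε) →
      (∀ γ j, ‖ω (Φ j (X γ j) - g γ * Φ j 1)‖ ≤ ε) →
      (∀ γ j, ‖ω (Φ i 1 * (b j - Φ j 1) * g γ)‖ ≤ ε) →
      (∀ γ j, ‖ω (g γ * (b j - Φ j 1) * Φ i 1)‖ ≤ ε) →
      ∀ ΦW : (F i).alg →ₗ[ℂ] T,
        ΦW = phW (elW δ (Finset.univ.erase i) t (Φ i 1) u b) (Φ i) →
      ∃ (p q : R) (r : Q), Prj p ∧ Prj q ∧ star r = r ∧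
        (∀ x y, rhoQ ω N P ΦW r p x * rhoQ ω N P ΦW r p y
          = rhoQ ω N P ΦW r p 1 * rhoQ ω N P ΦW r p (x * y)) ∧
        rhoQ ω N P ΦW r p 1 * P q = 0 ∧
        Pos ((1 + ε : ℂ) • (1 : Q) - rhoQ ω N P ΦW r p 1) ∧
        ∀ γ, ‖rhoQ ω N P ΦW r p (X γ i) + P (q * N (elM δ i t u Φ (g γ) (X γ)) * q)
          - ((1 - P (N 1)) * (ω (cutL δ (Φ i 1) u) * ω (Φ i (X γ i)))
            + P (N 1) * ω (elM δ i t u Φ (g γ) (X γ)))‖ ≤ ε₂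

/-- TOT: the sum over all colours -/
def StTOT : Prop :=
  ∀ (J : Type) [Fintype J] [DecidableEq J] (δ C : ℝ), 0 < δ → 0 ≤ C →
    ∀ (T Q : Type) [CStarAlgebra T] [CStarAlgebra Q] (ω : T →⋆ₐ[ℂ] Q) (F : J → FDA)
      (Φ : ∀ j, (F j).alg →ₗ[ℂ] T) (v u t g : T) (H : J → Q) (X : ∀ j, (F j).alg),
      (∀ j, IsCP (Φ j)) → (∀ j x y, ω (Φ j x * Φ j y) = ω (Φ j 1 * Φ j (x * y))) →
      Pos t → ‖t‖ ≤ 1 → Pos u → ‖u‖ ≤ 1 → Pos v → ‖v‖ ≤ 1 →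
      ω (v * u) = ω u → ω (u * t) = ω t → (∀ j y, ω (u * Φ j y) = ω (Φ j y * u)) →
      (∑ j, H j = ω (v * v)) → (∀ j, ‖X j‖ ≤ C) →
      ‖∑ i, ((1 - H i) * (ω (cutL δ (Φ i 1) u) * ω (Φ i (X i))) + H i * ω (elM δ i t u Φ g X))
        - ω (t * g * t + ∑ j, Φ j (X j))‖ ≤ 4 * δ * C * (Fintype.card J : ℝ)

/-- MNRM: the norms of the elements `M` -/
def StMNRM : Prop :=
  ∀ (J : Type) [Fintype J] [DecidableEq J] (δ ε : ℝ), 0 < δ → 0 < ε →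
    ∀ (T Q : Type) [CStarAlgebra T] [CStarAlgebra Q] (ω : T →⋆ₐ[ℂ] Q) (F : J → FDA)
      (Φ : ∀ j, (F j).alg →ₗ[ℂ] T) (i : J) (u t : T),
      (∀ j, IsCP (Φ j)) → (∀ j x y, ω (Φ j x * Φ j y) = ω (Φ j 1 * Φ j (x * y))) →
      Pos t → Pos u → (∀ j y, ω (u * Φ j y) = ω (Φ j y * u)) →
      Pos ((1 + ε : ℂ) • (1 : T) - t * t - ∑ j, Φ j 1) →
      ‖ω (elM δ i t u Φ 1 (fun _ => 1))‖ ≤ 1 + ε

end Pool.Agent.Helper7_ND
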