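import Pool.Agent.Helper7_ND.Stm5
import Pool.Agent.Helper7_ND.Stm6

/-! # Nuclear dimension of extensions: statements for quotients of finite decomposition rank -/

set_option autoImplicit false

open scoped Matrix.Norms.L2Operator ENNReal Matrix
open Pool.Agent.W659.EC

noncomputable section

namespace Pool.Agent.Helper7_ND

/-- approximations for which the maps `φ j ∘ ψ j` are approximately multiplication by `φ j 1` -/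
def SysD (D : Type) [NonUnitalCStarAlgebra D] (J : Type) [Fintype J] : Prop :=
  ∀ (G : Finset D) (ε : ℝ), 0 < ε →
    ∃ (F : J → FDA) (ψ : ∀ j, D →ₗ[ℂ] (F j).alg) (φ : ∀ j, (F j).alg →ₗ[ℂ] D),
      (∀ j, IsCPC (ψ j)) ∧ (∀ j, IsCPC (φ j) ∧ IsOrderZero (φ j)) ∧
      (∀ g ∈ G, ‖∑ j, φ j (ψ j g) - g‖ ≤ ε) ∧
      ∀ g ∈ G, ∀ j, ‖φ j (ψ j g) - φ j 1 * g‖ ≤ ε

/-- lifts of such approximations of a quotient, together with a quasi-central element `t` -/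
def LiftD {I E : Type} [NonUnitalCStarAlgebra I] [NonUnitalCStarAlgebra E]
    (ι : I →⋆ₙₐ[ℂ] E) (J : Type) [Fintype J] (F : J → FDA) (ψ : ∀ j, E →ₗ[ℂ] (F j).alg)
    (G : Finset E) (ε : ℝ) : Prop :=
  ∀ η : ℝ, 0 < η → ∃ (Φ : ∀ j, (F j).alg →ₗ[ℂ] E) (t : I),
    (∀ j, IsCP (Φ j) ∧ IsOrderZero (Φ j)) ∧ Pos t ∧ ‖t‖ ≤ 1 ∧
    (∀ j, Pos ((1 + ε : ℂ) • (1 : Unitization ℂ E) - ((ι (t * t) : E) : Unitization ℂ E)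
      - ((Φ j 1 : E) : Unitization ℂ E))) ∧
    (∀ g ∈ G, ‖∑ j, Φ j (ψ j g) + ι t * g * ι t - g‖ ≤ ε) ∧
    (∀ g ∈ G, ∀ j, ‖Φ j (ψ j g) - Φ j 1 * g‖ ≤ ε ∧ ‖Φ j (ψ j g) - g * Φ j 1‖ ≤ ε) ∧
    (∀ g ∈ G, ‖ι t * g - g * ι t‖ ≤ η) ∧
    ∀ i y, ‖ι t * Φ i y - Φ i y * ι t‖ ≤ η * ‖y‖

/-- A3: lifting the approximations -/
def StA3 : Prop :=
  ∀ (I E D : Type) [NonUnitalCStarAlgebra I] [NonUnitalCStarAlgebra E]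
    [NonUnitalCStarAlgebra D] (ι : I →⋆ₙₐ[ℂ] E) (π : E →⋆ₙₐ[ℂ] D), IsExt ι π →
    ∀ (J : Type) [Fintype J], SysD D J → ∀ (G : Finset E) (ε : ℝ), 0 < ε →
    ∃ (F : J → FDA) (ψ : ∀ j, E →ₗ[ℂ] (F j).alg), (∀ j, IsCPC (ψ j)) ∧ LiftD ι J F ψ G ε

/-- the weight of one colour -/
def elW1 {A : Type} [CStarAlgebra A] (δ : ℝ) (t c : A) : A :=
  elW δ (∅ : Finset Unit) t c 0 (fun _ => c)

/-- COL3: one colour of the merging -/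
def StCOL3 : Prop :=
  ∀ (δ C ε₂ : ℝ), 0 < δ → 0 < ε₂ →
    ∃ ε₀ : ℝ, 0 < ε₀ ∧ ∀ (T Q R : Type) [CStarAlgebra T] [CStarAlgebra Q] [CStarAlgebra R]
      (ω : T →⋆ₐ[ℂ] Q) (N : T →ₗ[ℂ] R) (P : R →ₗ[ℂ] Q) (F : FDA)
      (Φ : F.alg →ₗ[ℂ] T) (v t : T) (ε : ℝ)
      (Γ : Type) [Fintype Γ] (g : Γ → T) (X : Γ → F.alg),
      CutE R → SpecS R → 0 < ε → ε ≤ ε₀ → ε ≤ 1 →
      IsCP N → (∀ z, ‖N z‖ ≤ ‖ω z‖) →
      IsCPC P → (∀ a b, P a * P b = P 1 * P (a * b)) → (∀ a, P 1 * P a = 0 → a = 0) →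
      (∀ z, ω (z * v) = ω (v * z) → P (N z) = P (N 1) * ω z ∧ P (N z) = ω z * P (N 1)) →
      Pos (1 - P (N 1)) →
      IsCP Φ → (∀ x y, ω (Φ x * Φ y) = ω (Φ 1 * Φ (x * y))) →
      Pos t → ‖t‖ ≤ 1 → Pos v → ‖v‖ ≤ 1 → ω (v * t) = ω t →
      (∀ y, ω (v * Φ y) = ω (Φ y * v)) → (∀ y, ω (t * Φ y) = ω (Φ y * t)) →
      Pos ((1 + ε : ℂ) • (1 : T) - t * t - Φ 1) →
      (∀ γ, ‖ω (g γ)‖ ≤ C) → (∀ γ, ‖X γ‖ ≤ C) →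
      (∀ γ, ω (v * g γ) = ω (g γ * v)) → (∀ γ, ω (t * g γ) = ω (g γ * t)) →
      (∀ γ, ‖ω (Φ (X γ) - Φ 1 * g γ)‖ ≤ ε) →
      (∀ γ, ‖ω (Φ (X γ) - g γ * Φ 1)‖ ≤ ε) →
      ∀ ΦW : F.alg →ₗ[ℂ] T, ΦW = phW (elW1 δ t (Φ 1)) Φ →
      ∃ (p q : R) (r : Q), Prj p ∧ Prj q ∧ star r = r ∧
        (∀ x y, rhoQ ω N P ΦW r p x * rhoQ ω N P ΦW r p y
          = rhoQ ω N P ΦW r p 1 * rhoQ ω N P ΦW r p (x * y)) ∧
        rhoQ ω N P ΦW r p 1 * P q = 0 ∧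
        Pos ((1 + ε : ℂ) • (1 : Q) - rhoQ ω N P ΦW r p 1) ∧
        ∀ γ, ‖rhoQ ω N P ΦW r p (X γ) + P (q * N (conjL t (g γ) + Φ (X γ)) * q)
          - ((1 - P (N 1)) * (ω (cutL δ (Φ 1) 0) * ω (Φ (X γ)))
            + P (N 1) * ω (conjL t (g γ) + Φ (X γ)))‖ ≤ ε₂

/-- TOT3: the sum over all colours -/
def StTOT3 : Prop :=
  ∀ (J : Type) [Fintype J] (δ C : ℝ), 0 < δ → 0 ≤ C →
    ∀ (T Q : Type) [CStarAlgebra T] [CStarAlgebra Q] (ω : T →⋆ₐ[ℂ] Q) (F : J → FDA)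
      (Φ : ∀ j, (F j).alg →ₗ[ℂ] T) (v t g : T) (H : J → Q) (X : ∀ j, (F j).alg),
      (∀ j, IsCP (Φ j)) → (∀ j x y, ω (Φ j x * Φ j y) = ω (Φ j 1 * Φ j (x * y))) →
      Pos t → Pos v → ω (v * t) = ω t → (∀ j, Pos (H j)) → (∀ j, Pos (1 - H j)) →
      (∑ j, H j = ω (v * v)) → (∀ j, ‖X j‖ ≤ C) →
      ‖∑ i, ((1 - H i) * (ω (cutL δ (Φ i 1) 0) * ω (Φ i (X i)))
          + H i * ω (conjL t g + Φ i (X i)))
        - ω (t * g * t + ∑ j, Φ j (X j))‖ ≤ 4 * δ * C * (Fintype.card J : ℝ)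

/-- MRG3: merging all the colours -/
def StMRG3 : Prop :=
  ∀ (J : Type) [Fintype J] (C ε' : ℝ), 0 < ε' → ε' ≤ 1 →
    ∃ ε : ℝ, 0 < ε ∧ ∀ (I E : Type) [NonUnitalCStarAlgebra I] [NonUnitalCStarAlgebra E]
      [Nontrivial I] (ι : I →⋆ₙₐ[ℂ] E), IsIdeal ι → SysAll I J →
      ∀ (F : J → FDA) (ψ : ∀ j, E →ₗ[ℂ] (F j).alg) (G : Finset E), (∀ j, IsCPC (ψ j)) →
      (∀ g ∈ G, ‖g‖ ≤ C) → LiftD ι J F ψ G ε →
      ∃ (F' : J → FDA) (ψ' : ∀ c, E →ₗ[ℂ] (F' c).alg) (φ' : ∀ c, (F' c).alg →ₗ[ℂ] E),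
        (∀ c, IsCP (ψ' c) ∧ ∀ x, ‖ψ' c x‖ ≤ (1 + ε') * ‖x‖) ∧
        (∀ c, IsCP (φ' c) ∧ IsOrderZero (φ' c) ∧ ∀ y, ‖φ' c y‖ ≤ (1 + ε') * ‖y‖) ∧
        ∀ g ∈ G, ‖∑ c, φ' c (ψ' c g) - g‖ ≤ ε'

/-- CORE3: extensions by quotients with such approximations -/
def StCORE3 : Prop :=
  ∀ (I E D : Type) [NonUnitalCStarAlgebra I] [NonUnitalCStarAlgebra E]
    [NonUnitalCStarAlgebra D] (ι : I →⋆ₙₐ[ℂ] E) (π : E →⋆ₙₐ[ℂ] D), IsExt ι π →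
    ∀ (J : Type) [Fintype J], SysAll I J → SysD D J → SysAll E J

/-- DRN: decomposition rank gives such approximations -/
def StDRN : Prop :=
  ∀ (A : Type) [NonUnitalCStarAlgebra A] (n : ℕ), decRank A ≤ n → SysD A (Option (Fin n))

/-- CD: approximations with commuting colours are such approximations -/
def StCD : Prop :=
  ∀ (A : Type) [NonUnitalCStarAlgebra A] (J : Type) [Fintype J], SysC A J → SysD A J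

/-- the algebra `A` has a nonzero abelian element (a positive `a` with `a A a` commutative), or
a nonzero closed ideal of nuclear dimension zero or of decomposition rank at most `N` -/
def TameN (N : ℕ∞) (A : Type) [NonUnitalCStarAlgebra A] : Prop :=
  (∃ a : A, a ≠ 0 ∧ Pos a ∧ ∀ x y : A, (a * x * a) * (a * y * a) = (a * y * a) * (a * x * a)) ∨
  ∃ (K : Type) (_ : NonUnitalCStarAlgebra K) (κ : K →⋆ₙₐ[ℂ] A), IsIdeal κ ∧ Nontrivial K ∧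
    (nucDim K ≤ 0 ∨ decRank K ≤ N)

/-- STEP3: enlarging an ideal of bounded nuclear dimension -/
def StSTEP3 : Prop :=
  ∀ (I E D K A : Type) [NonUnitalCStarAlgebra I] [NonUnitalCStarAlgebra E]
    [NonUnitalCStarAlgebra D] [NonUnitalCStarAlgebra K] [NonUnitalCStarAlgebra A]
    (ι : I →⋆ₙₐ[ℂ] E) (π : E →⋆ₙₐ[ℂ] D) (κ : K →⋆ₙₐ[ℂ] E) (θ : E →⋆ₙₐ[ℂ] A),
    IsExt ι π → IsIdeal κ → IsExt κ θ → (∀ i, θ (ι i) = 0) → ∀ N : ℕ, TameN N A →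
    SysAll D (Option (Fin N)) → SysAll K (Option (Fin N)) →
    ∃ (K' : Type) (_ : NonUnitalCStarAlgebra K') (κ' : K' →⋆ₙₐ[ℂ] E), IsIdeal κ' ∧
      SysAll K' (Option (Fin N)) ∧ Set.range κ ⊂ Set.range κ'

/-- MAIN4: extensions by tame quotients -/
def StMAIN4 : Prop :=
  ∀ (I E D : Type) [NonUnitalCStarAlgebra I] [NonUnitalCStarAlgebra E]
    [NonUnitalCStarAlgebra D] (ι : I →⋆ₙₐ[ℂ] E) (π : E →⋆ₙₐ[ℂ] D), IsExt ι π →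
    ∀ N : ℕ∞, nucDim I ≤ N → nucDim D ≤ N →
    (∀ (A : Type) [NonUnitalCStarAlgebra A] (θ : E →⋆ₙₐ[ℂ] A), Function.Surjective θ →
      Nontrivial A → (∀ i, θ (ι i) = 0) → (∀ e, (∀ i, e * ι i = 0) → θ e = 0) → TameN N A) →
    nucDim E ≤ N

end Pool.Agent.Helper7_ND
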