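import Pool.Agent.Helper7_ND.Mrg7
import Pool.Agent.Helper7_ND.Stm7
import Pool.Agent.Helper7_ND.Mrg8

/-! # The merging of all colours, IV: the merging lemma, simple version -/

set_option autoImplicit false
set_option linter.unusedSectionVars false
set_option linter.unusedVariables false

open scoped Matrix.Norms.L2Operator ENNReal Matrix
open Pool.Agent.W659.EC Filter

noncomputable section

namespace Pool.Agent.Helper7_ND.AllC

theorem t_MRG3 (hL1 : StL1) (hNRM2 : StNRM2) (hQC : StQC) (hRP : StRP) (hFD : StFD) (hRF : StRF)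
    (hS0 : StS0) (hS1 : StS1) (hNV : StNV) (hCPN : StCPN) (hFP : StFP)
    (hETA : StETA) (hSUM : StSUM) (hCOR : StCOR) (hCOL : StCOL3) (hTOT : StTOT3) :
    StMRG3 := by
  intro J _ C ε' hε' hε'1
  classical
  set m : ℝ := (Fintype.card J : ℝ) with hm
  have hm0 : 0 ≤ m := Nat.cast_nonneg _
  set C1 : ℝ := max C 1 with hC1
  have hC1' : 1 ≤ C1 := le_max_right _ _
  have hC10 : 0 < C1 := by linarith
  have hCC1 : C ≤ C1 := le_max_left _ _
  set δ : ℝ := ε' / (32 * (m + 1) * C1) with hδ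
  have hδ0 : 0 < δ := by positivity
  have hδC : 4 * δ * C1 * m ≤ ε' / 8 := by
    have h1 : 4 * δ * C1 * (m + 1) = ε' / 8 := by
      rw [hδ]; field_simp; ring
    have h2 : 4 * δ * C1 * m ≤ 4 * δ * C1 * (m + 1) := by
      apply mul_le_mul_of_nonneg_left _ (by positivity)
      linarith
    linarith
  set ε₂ : ℝ := ε' / (8 * (m + 1)) with hε₂
  have hε₂0 : 0 < ε₂ := by positivity
  have hε₂m : m * ε₂ ≤ ε' / 8 := by
    have h1 : (m + 1) * ε₂ = ε' / 8 := by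
      rw [hε₂]; field_simp
    nlinarith
  obtain ⟨ε₀, hε₀, hcol⟩ := hCOL δ C1 ε₂ hδ0 hε₂0
  set ε : ℝ := min ε₀ (ε' / 8) with hε
  have hε0 : 0 < ε := lt_min hε₀ (by positivity)
  have hεε₀ : ε ≤ ε₀ := min_le_left _ _
  have hε8 : ε ≤ ε' / 8 := min_le_right _ _
  have hε1 : ε ≤ 1 := by linarith
  refine ⟨ε, hε0, ?_⟩
  intro I E _ _ _ ι hι hsys F ψ G hψ hGC hLS
  -- the lifts
  have hLS' := fun k : ℕ => hLS (1 / ((k : ℝ) + 1)) (by positivity)
  choose Φs ts hΦs hts htn hpos1 hg1 hg2 hgt htΦ using hLS'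
  have hΦ1p : ∀ k j, Pos (Φs k j 1) := fun k j => by
    have h1 : Pos (1 : (F j).alg) := ⟨1, by simp⟩
    exact IsCP.pos (hΦs k j).1 h1
  have htt : ∀ k, Pos (((ι (ts k * ts k) : E) : Unitization ℂ E)) := fun k => by
    have : Pos (ts k * ts k) := ⟨ts k, by rw [(hts k).sa]⟩
    exact this.map (jI ι)
  have hΦn : ∀ k j, ‖Φs k j 1‖ ≤ 1 + ε := fun k j =>
    summand_norm (J := Unit) (fun _ => Φs k j 1) (fun _ => hΦ1p k j) _ (htt k) ε hε0.le
      (by simpa using hpos1 k j) ()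
  have hΦb : ∀ k j y, ‖Φs k j y‖ ≤ 2 * ‖y‖ := fun k j y => by
    refine (cp_norm (hΦs k j).1 y).trans ?_
    have := hΦn k j
    gcongr
    linarith
  -- quasi-central elements
  set S : ℕ → Finset E := fun k =>
    (Finset.univ.image fun x : (Σ j : J, Σ l : (F j).ι, (F j).n l × (F j).n l) =>
      Φs k x.1 (mu (F x.1) x.2.1 x.2.2.1 x.2.2.2)) ∪ G with hS
  have hSmu : ∀ k j l a b, Φs k j (mu (F j) l a b) ∈ S k := fun k j l a b =>
    Finset.mem_union_left _ (Finset.mem_image.2 ⟨⟨j, l, a, b⟩, Finset.mem_univ _, rfl⟩)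
  have hSG : ∀ k, ∀ g ∈ G, g ∈ S k := fun k g hg => Finset.mem_union_right _ hg
  have hv := fun k : ℕ => hQC I E ι hι {ts k} (S k) (1 / ((k : ℝ) + 1)) (by positivity)
  choose vs hvp hvn hvu hvS using hv
  have hvs : ∀ k, star (vs k) = vs k := fun k => (hvp k).sa
  -- the systems of the ideal
  have hN := fun l : Idx I => hNRM2 I J hsys l.2 (1 / ((l.1 : ℝ) + 1)) (by positivity)
  choose FF ψψ φφ hψψ hφφ happ hnt hnorm using hN
  have hφφ1 : ∀ l c, IsCPC (φφ l c) := fun l c => (hφφ l c).1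
  have := hnt
  obtain ⟨Q, instQ, qB, hQ⟩ := hRP (Idx I) (fun _ => Unitization ℂ E) (Fil I)
  have hRex := fun c : J => hRP (Idx I) (fun l => (FF l c).alg) (Fil I)
  choose R instR qR hR using hRex
  have hrf := fun c : J => hRF (Idx I) (fun l => (FF l c).alg) (Fil I) (R c) (qR c) (hR c)
    (fun l => (hFD (FF l c)).1) (fun l => (hFD (FF l c)).2)
  have hcut : ∀ c, CutE (R c) := fun c =>
    hS1 (Idx I) (fun l => (FF l c).alg) (Fil I) (R c) (qR c) (hR c) (fil_tendsto I) (hrf c).2.2.2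
      (hS0 (R c) (hrf c).1 (hrf c).2.1)
  -- the elements of `T`
  set vT : TT E := sqI ι vs ⟨1, hvn⟩ with hvTdef
  set tT : TT E := sqI ι ts ⟨1, htn⟩ with htTdef
  set ΦT : ∀ j, (F j).alg →ₗ[ℂ] TT E := fun j => PhS (fun k => Φs k j) (fun k y => hΦb k j y) with hΦT
  set gT : ↥G → TT E := fun γ => cst E (jE E γ.1) with hgT
  have hΦTk : ∀ j y k, ΦT j y k = jE E (Φs k j y) := fun j y k => rfl
  have hgTk : ∀ γ k, gT γ k = jE E γ.1 := fun γ k => rfl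
  have hvTp : Pos vT := sqI_pos vs _ hvp
  have htTp : Pos tT := sqI_pos ts _ hts
  have hvTn : ‖vT‖ ≤ 1 := sqI_norm hι vs _ hvn
  have htTn : ‖tT‖ ≤ 1 := sqI_norm hι ts _ htn
  have hΦTcp : ∀ j, IsCP (ΦT j) := fun j => isCP_PhS _ _ fun k => (hΦs k j).1
  have hΦToz : ∀ j x y, om qB (ΦT j x * ΦT j y) = om qB (ΦT j 1 * ΦT j (x * y)) := by
    intro j x y
    refine congrArg _ (lpExt fun k => ?_)
    show jE E (Φs k j x) * jE E (Φs k j y) = jE E (Φs k j 1) * jE E (Φs k j (x * y))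
    rw [← map_mul, hL1 (F j) E (Φs k j) (hΦs k j).1 (hΦs k j).2 x y, map_mul]
  -- relations
  have hnE : ∀ x : E, ‖jE E x‖ = ‖x‖ := fun x => by rw [jE_apply, jE_norm]
  have rel1 : om qB (vT * tT) = om qB tT := by
    refine om_eq' hQ 1 fun k => ?_
    show ‖jI ι (vs k) * jI ι (ts k) - jI ι (ts k)‖ ≤ _
    rw [← map_mul, ← map_sub, norm_jI hι, one_mul]
    exact hvu k _ (Finset.mem_singleton_self _)
  have commS : ∀ (w : ℕ → I) (hw : ∃ C : ℝ, ∀ k, ‖w k‖ ≤ C)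
      (hwS : ∀ k, ∀ x ∈ S k, ‖ι (w k) * x - x * ι (w k)‖ ≤ 1 / ((k : ℝ) + 1))
      (x : ℕ → E) (z : TT E) (hz : ∀ k, z k = jE E (x k)) (hx : ∀ k, x k ∈ S k),
      om qB (sqI ι w hw * z) = om qB (z * sqI ι w hw) := by
    intro w hw hwS x z hz hx
    refine om_eq' hQ 1 fun k => ?_
    show ‖jI ι (w k) * z k - z k * jI ι (w k)‖ ≤ _
    rw [hz, one_mul, jI_apply, ← jE_apply, ← map_mul, ← map_mul, ← map_sub, hnE]
    exact hwS k _ (hx k)
  have commΦ : ∀ (w : ℕ → I) (hw : ∃ C : ℝ, ∀ k, ‖w k‖ ≤ C)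
      (hwS : ∀ k, ∀ x ∈ S k, ‖ι (w k) * x - x * ι (w k)‖ ≤ 1 / ((k : ℝ) + 1)) (j : J) (y : (F j).alg),
      om qB (sqI ι w hw * ΦT j y) = om qB (ΦT j y * sqI ι w hw) := by
    intro w hw hwS j y
    rw [map_mul, map_mul]
    refine comm_of_mu (((om qB : TT E →⋆ₐ[ℂ] Q) : TT E →ₗ[ℂ] Q) ∘ₗ ΦT j) _ ?_ y
    intro l a b
    show om qB (sqI ι w hw) * om qB (ΦT j (mu (F j) l a b)) = om qB (ΦT j (mu (F j) l a b)) * om qB (sqI ι w hw)
    rw [← map_mul, ← map_mul]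
    exact commS w hw hwS (fun k => Φs k j (mu (F j) l a b)) _ (fun k => rfl) (fun k => hSmu k j l a b)
  have relvΦ : ∀ j y, om qB (vT * ΦT j y) = om qB (ΦT j y * vT) := commΦ vs _ hvS
  have relvg : ∀ γ, om qB (vT * gT γ) = om qB (gT γ * vT) := fun γ =>
    commS vs _ hvS (fun k => γ.1) _ (fun k => rfl) (fun k => hSG k _ γ.2)
  have reltg : ∀ γ, om qB (tT * gT γ) = om qB (gT γ * tT) := by
    intro γ
    refine om_eq' hQ 1 fun k => ?_
    show ‖jI ι (ts k) * jE E γ.1 - jE E γ.1 * jI ι (ts k)‖ ≤ _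
    rw [one_mul, jI_apply, ← jE_apply, ← map_mul, ← map_mul, ← map_sub, hnE]
    exact hgt k _ γ.2
  have reltΦ : ∀ i y, om qB (tT * ΦT i y) = om qB (ΦT i y * tT) := by
    intro i y
    refine om_eq' hQ ‖y‖ fun k => ?_
    show ‖jI ι (ts k) * jE E (Φs k i y) - jE E (Φs k i y) * jI ι (ts k)‖ ≤ _
    rw [jI_apply, ← jE_apply, ← map_mul, ← map_mul, ← map_sub, hnE, mul_comm]
    exact htΦ k i y
  have hposT1 : ∀ j, Pos ((1 + ε : ℂ) • (1 : TT E) - tT * tT - ΦT j 1) := by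
    intro j
    refine lp_pos fun k => ?_
    have e : ((1 + ε : ℂ) • (1 : TT E) - tT * tT - ΦT j 1) k
        = (1 + ε : ℂ) • (1 : Unitization ℂ E) - ((ι (ts k * ts k) : E) : Unitization ℂ E)
          - ((Φs k j 1 : E) : Unitization ℂ E) := by
      show (1 + ε : ℂ) • (1 : Unitization ℂ E) - jI ι (ts k) * jI ι (ts k) - jE E (Φs k j 1) = _
      rw [← map_mul]
      rfl
    rw [e]
    exact hpos1 k j
  have omle : ∀ (x : TT E) (c : ℝ), 0 ≤ c → (∀ k, ‖x k‖ ≤ c) → ‖om qB x‖ ≤ c := fun x c hc h =>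
    (NonUnitalStarAlgHom.norm_apply_le (om qB) x).trans (lpNormLe hc h)
  -- the maps between the reduced products
  set N : ∀ i, TT E →ₗ[ℂ] R i := fun i =>
    NN hι vs hvn (fun l => ψψ l i) (fun l => hψψ l i) (qR i) with hNdef
  set P : ∀ i, R i →ₗ[ℂ] Q := fun i =>
    PP (fun l => φφ l i) (fun l => hφφ1 l i) hQ (hR i) ι with hPdef
  have hNcp : ∀ i, IsCP (N i) := fun i => isCP_NN hι vs hvn _ _
  have hPcp : ∀ i, IsCPC (P i) := fun i => isCPC_PP _ _ hQ (hR i)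
  have hPoz : ∀ i a b, P i a * P i b = P i 1 * P i (a * b) := fun i =>
    PP_oz _ _ hQ (hR i) fun l => hL1 _ _ _ (hφφ l i).1.1 (hφφ l i).2
  have hPinj : ∀ i a, P i 1 * P i a = 0 → a = 0 := fun i =>
    PP_inj _ _ hQ (hR i) hι (fun l => hL1 _ _ _ (hφφ l i).1.1 (hφφ l i).2) (fun l => hnorm l i)
  have hN1p : ∀ i, Pos (P i (N i 1)) := fun i => by
    have h1 : Pos (1 : TT E) := ⟨1, by simp⟩
    exact IsCP.pos (hPcp i).1 (IsCP.pos (hNcp i) h1)
  have hH3 : ∑ c, P c (N c 1) = om qB (vT * vT) :=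
    H3 hι vs hvn hvs ψψ hψψ φφ hφφ1 happ hQ hR vT (fun _ => rfl)
  have hposH : ∀ i, Pos (1 - P i (N i 1)) := by
    intro i
    have e : 1 - P i (N i 1) = om qB (1 - vT * vT) + ∑ c ∈ Finset.univ.erase i, P c (N c 1) := by
      rw [map_sub (om qB), map_one (om qB), ← hH3, ← Finset.sum_erase_add _ _ (Finset.mem_univ i)]
      abel
    rw [e]
    refine Pos.add ?_ (Pos.sum _ fun c _ => hN1p c)
    refine Pos.map ?_ (om qB)
    have h1 : Pos (vT * vT) := ⟨vT, by rw [hvTp.sa]⟩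
    refine pos_one_sub h1 ((norm_mul_le _ _).trans ?_)
    calc ‖vT‖ * ‖vT‖ ≤ 1 * 1 := by gcongr
      _ = 1 := one_mul 1
  -- the colours
  have hgn : ∀ γ : ↥G, ‖γ.1‖ ≤ C1 := fun γ => (hGC _ γ.2).trans hCC1
  set ΦW : ∀ i, (F i).alg →ₗ[ℂ] TT E := fun i =>
    phW (elW1 δ tT (ΦT i 1)) (ΦT i) with hΦW
  have hcol' := fun i : J =>
    hcol (TT E) Q (R i) (om qB) (N i) (P i) (F i) (ΦT i) vT tT ε ↥G gT (fun γ => ψ i γ.1)
      (hcut i) (hrf i).2.2.1 hε0 hεε₀ hε1 (hNcp i) (NN_norm hι vs hvn _ _ hQ (hR i))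
      (hPcp i) (hPoz i) (hPinj i)
      (fun z hz => ⟨H1 hι vs hvn hvs ψψ hψψ φφ hφφ1 happ hQ (hR i) vT (fun _ => rfl) hNV z hz,
        H2 hι vs hvn hvs ψψ hψψ φφ hφφ1 happ hQ (hR i) vT (fun _ => rfl) hNV z hz⟩)
      (hposH i) (hΦTcp i) (hΦToz i) htTp htTn hvTp hvTn rel1 (relvΦ i)
      (reltΦ i) (hposT1 i)
      (fun γ => omle _ _ hC10.le fun k => by rw [hgTk, hnE]; exact hgn γ)
      (fun γ => ((hψ i).2 _).trans (hgn γ)) relvg reltg
      (fun γ => omle _ _ hε0.le fun k => by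
        show ‖jE E (Φs k i (ψ i γ.1)) - jE E (Φs k i 1) * jE E γ.1‖ ≤ ε
        rw [← map_mul, ← map_sub, hnE]
        exact (hg2 k γ.1 γ.2 i).1)
      (fun γ => omle _ _ hε0.le fun k => by
        show ‖jE E (Φs k i (ψ i γ.1)) - jE E γ.1 * jE E (Φs k i 1)‖ ≤ ε
        rw [← map_mul, ← map_sub, hnE]
        exact (hg2 k γ.1 γ.2 i).2)
      (ΦW i) rfl
  choose p q r hp hq hr c1 c2 c3 c4 using hcol'
  have hrr := fun i => hQ.surj (r i)
  choose rr hrr using hrr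
  have hPP := fun i => (hrf i).2.2.2 (p i) (hp i)
  choose Pl hPl hPlp using hPP
  have hQQ := fun i => (hrf i).2.2.2 (q i) (hq i)
  choose Ql hQl hQlq using hQQ
  have hPls : ∀ i l, star (Pl i l) = Pl i l := fun i l =>
    congrArg (fun x : lp (fun l => (FF l i).alg) ∞ => x l) (hPl i).1
  have hQlp : ∀ i l, Prj (Ql i l) := fun i l =>
    ⟨congrArg (fun x : lp (fun l => (FF l i).alg) ∞ => x l) (hQl i).1,
      congrArg (fun x : lp (fun l => (FF l i).alg) ∞ => x l) (hQl i).2⟩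
  -- the families of maps
  set sW : J → TT E := fun i => sq (elW1 δ tT (ΦT i 1)) with hsW
  set ρ : ∀ (i : J) (l : Idx I), (F i).alg →ₗ[ℂ] E := fun i l =>
    rhoL hι (cmpE (sW i l.1) ∘ₗ Φs l.1 i) (ψψ l i) (φφ l i) (rr i l) (Pl i l) (vs l.1) with hρ
  set W : ∀ i : J, (F i).alg → QT I E := fun i y => star (rr i) * pull I E (ΦW i y) * rr i
    + P0 (fun l => φφ l i) (fun l => hφφ1 l i) ι
        (Pl i * N0 hι vs hvn (fun l => ψψ l i) (fun l => hψψ l i) (ΦW i y) * Pl i) with hW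
  have hΦWk : ∀ i y k, ΦW i y k = jE E (cmpE (sW i k) (Φs k i y)) := by
    intro i y k
    rw [jE_apply, cmpE_apply]
    rfl
  have hWρ : ∀ i y l, W i y l = jE E (ρ i l y) := by
    intro i y l
    rw [hρ]
    simp only
    rw [jE_apply, rhoL_apply, hPls]
    show star (rr i l) * ΦW i y l.1 * rr i l
      + jI ι (φφ l i (Pl i l * ψψ l i (cmp hι (vs l.1) (ΦW i y l.1)) * Pl i l)) = _
    rw [hΦWk]
    rfl
  have hqW : ∀ i y, qB (W i y) = rhoQ (om qB) (N i) (P i) (ΦW i) (r i) (p i) y := by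
    intro i y
    rw [hW]
    simp only
    rw [map_add, map_mul qB, map_mul qB, map_star, hrr, hr,
      ← PP_q (fun l => φφ l i) (fun l => hφφ1 l i) hQ (hR i),
      map_mul (qR i), map_mul (qR i), hPlp]
    rfl
  -- the maps `M`
  set MM : ∀ (i : J), ↥G → TT E := fun i γ => conjL tT (gT γ) + ΦT i (ψ i γ.1) with hMM
  set Me : ∀ (i : J) (k : ℕ), E →ₗ[ℂ] E := fun i k =>
    MxE (J := Unit) (F := fun _ => F i) (fun _ => ψ i) (fun _ => Φs k i) (jI ι (ts k)) (fun _ => 0) () with hMe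
  have huni : (Finset.univ.erase () : Finset Unit) = ∅ := by decide
  have hMMk : ∀ i γ k, MM i γ k = jE E (Me i k γ.1) := by
    intro i γ k
    rw [hMe]
    simp only
    rw [MxE_apply, huni, Finset.sum_empty, add_zero]
    rfl
  set Th : ∀ (i : J) (l : Idx I), E →ₗ[ℂ] I := fun i l =>
    cmp hι (vs l.1) ∘ₗ (jE E : E →ₗ[ℂ] Unitization ℂ E) ∘ₗ Me i l.1 with hTh
  have hThcp : ∀ i l, IsCP (Th i l) := fun i l =>
    (isCP_cmp hι _).comp ((isCP_hom (jE E) _ fun _ => rfl).comp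
      (isCP_MxE _ _ _ _ _ (fun _ => hψ i) fun _ => (hΦs l.1 i).1))
  -- first condition: the norms of the maps `M`
  have ev1 : ∀ i, ∀ᶠ l in Fil I, ∀ x, ‖Th i l x‖ ≤ (1 + 2 * ε) * ‖x‖ := by
    intro i
    refine Filter.Eventually.of_forall fun l x => ?_
    refine (norm_cmp_le hι _ (hvn _) _).trans ?_
    rw [show ((jE E : E →ₗ[ℂ] Unitization ℂ E) ∘ₗ Me i l.1) x = jE E (Me i l.1 x) from rfl, hnE]
    refine MxE_norm hCPN _ _ _ _ _ (fun _ => hψ i) (fun _ => (hΦs l.1 i).1) _ ?_ x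
    rw [huni, Finset.sum_empty, add_zero, mul_one]
    have hjt : star (jI ι (ts l.1)) = jI ι (ts l.1) := by rw [← map_star, (hts l.1).sa]
    rw [hjt, ← map_mul]
    have p1 : Pos (jI ι (ts l.1 * ts l.1) + jE E (Φs l.1 i 1)) :=
      (htt l.1).add ((hΦ1p l.1 i).map (jE E))
    have p2 := hpos1 l.1 i
    rw [sub_sub] at p2
    exact (norm_le_scal hε0.le p1 p2).trans (by linarith)
  -- second condition: the norms of `ρ 1`
  have ev2 : ∀ i, ∀ᶠ l in Fil I, ‖ρ i l 1‖ < 1 + 2 * ε := by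
    intro i
    have h1 : ‖qB (W i 1)‖ < 1 + 2 * ε := by
      rw [hqW]
      refine (norm_le_scal hε0.le ?_ (c3 i)).trans_lt (by linarith)
      have h1F : Pos (1 : (F i).alg) := ⟨1, by simp⟩
      have hΦWcp : IsCP (ΦW i) := (isCP_conjL _).comp (hΦTcp i)
      have q1 := Pos.conj ((IsCP.pos hΦWcp h1F).map (om qB)) (r i)
      have q2 := Pos.conj (IsCP.pos (hNcp i) (IsCP.pos hΦWcp h1F)) (p i)
      rw [hr] at q1
      rw [(hp i).1] at q2
      exact q1.add (IsCP.pos (hPcp i).1 q2)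
    refine (hQ.lt _ _ h1).mono fun l hl => ?_
    rwa [hWρ, hnE] at hl
  -- the constants of the final perturbation
  set εF : ℝ := min (ε / 2) (ε' / (56 * (m + 1) * C1)) with hεF
  have hεF0 : 0 < εF := lt_min (by positivity) (by positivity)
  have hεF1 : εF ≤ ε / 2 := min_le_left _ _
  have hεF2 : m * (7 * εF * C1) ≤ ε' / 8 := by
    have h1 : εF ≤ ε' / (56 * (m + 1) * C1) := min_le_right _ _
    have h2 : (m + 1) * (7 * (ε' / (56 * (m + 1) * C1)) * C1) = ε' / 8 := by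
      field_simp; ring
    have h3 : 7 * εF * C1 ≤ 7 * (ε' / (56 * (m + 1) * C1)) * C1 := by gcongr
    have h4 : (m + 1) * (7 * εF * C1) ≤ (m + 1) * (7 * (ε' / (56 * (m + 1) * C1)) * C1) :=
      mul_le_mul_of_nonneg_left h3 (by linarith)
    have h5 : 0 ≤ 7 * εF * C1 := by positivity
    nlinarith
  have hFP' := fun i : J => hFP (F i) εF hεF0
  choose δF hδF hFP'' using hFP'
  -- third condition: orthogonality
  have ev3 : ∀ i, ∀ᶠ l in Fil I, ‖ρ i l 1 * ι (φφ l i (Ql i l))‖ ≤ δF i := by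
    intro i
    have h1 : qB (W i 1 * P0 (fun l => φφ l i) (fun l => hφφ1 l i) ι (Ql i)) = 0 := by
      rw [map_mul qB, hqW, ← PP_q (fun l => φφ l i) (fun l => hφφ1 l i) hQ (hR i), hQlq]
      exact c2 i
    refine (hQ.small0 h1 (hδF i)).mono fun l hl => ?_
    have e : (W i 1 * P0 (fun l => φφ l i) (fun l => hφφ1 l i) ι (Ql i)) l
        = jE E (ρ i l 1 * ι (φφ l i (Ql i l))) := by
      rw [map_mul, ← hWρ]
      rfl
    rw [e, hnE] at hl
    exact hl.le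
  -- fourth condition: the order zero identity
  have ev4 : ∀ i, ∀ᶠ l in Fil I, ∀ a s t b s' t', ‖ρ i l (mu (F i) a s t) * ρ i l (mu (F i) b s' t')
        - ρ i l 1 * ρ i l (mu (F i) a s t * mu (F i) b s' t')‖ ≤ δF i := by
    intro i
    simp only [Filter.eventually_all]
    intro a s t b s' t'
    have h1 : qB (W i (mu (F i) a s t) * W i (mu (F i) b s' t')
        - W i 1 * W i (mu (F i) a s t * mu (F i) b s' t')) = 0 := by
      rw [map_sub, map_mul qB, map_mul qB, hqW, hqW, hqW, hqW, c1, sub_self]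
    refine (hQ.small0 h1 (hδF i)).mono fun l hl => ?_
    have e : (W i (mu (F i) a s t) * W i (mu (F i) b s' t')
        - W i 1 * W i (mu (F i) a s t * mu (F i) b s' t')) l
        = jE E (ρ i l (mu (F i) a s t) * ρ i l (mu (F i) b s' t')
        - ρ i l 1 * ρ i l (mu (F i) a s t * mu (F i) b s' t')) := by
      rw [map_sub, map_mul, map_mul, ← hWρ, ← hWρ, ← hWρ, ← hWρ]
      rfl
    rw [e, hnE] at hl
    exact hl.le
  -- fifth condition: the approximation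
  have ev5 : ∀ γ : ↥G, ∀ᶠ l in Fil I,
      ‖∑ i, (ρ i l (ψ i γ.1) + ι (φφ l i (Ql i l * ψψ l i (Th i l γ.1) * Ql i l)))
        - (ι (ts l.1) * γ.1 * ι (ts l.1) + ∑ j, Φs l.1 j (ψ j γ.1))‖ < ε' / 2 := by
    intro γ
    set DD : QT I E := ∑ i, (W i (ψ i γ.1) + P0 (fun l => φφ l i) (fun l => hφφ1 l i) ι
        (Ql i * N0 hι vs hvn (fun l => ψψ l i) (fun l => hψψ l i) (MM i γ) * Ql i))
      - pull I E (tT * gT γ * tT + ∑ j, ΦT j (ψ j γ.1)) with hDD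
    have f1 : ∀ i, qB (P0 (fun l => φφ l i) (fun l => hφφ1 l i) ι
        (Ql i * N0 hι vs hvn (fun l => ψψ l i) (fun l => hψψ l i) (MM i γ) * Ql i))
        = P i (q i * N i (MM i γ) * q i) := by
      intro i
      rw [← PP_q (fun l => φφ l i) (fun l => hφφ1 l i) hQ (hR i), map_mul (qR i), map_mul (qR i), hQlq]
      rfl
    have f2 : qB DD = ∑ i, (rhoQ (om qB) (N i) (P i) (ΦW i) (r i) (p i) (ψ i γ.1)
        + P i (q i * N i (MM i γ) * q i)) - om qB (tT * gT γ * tT + ∑ j, ΦT j (ψ j γ.1)) := by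
      rw [hDD, map_sub, map_sum]
      congr 1
      refine Finset.sum_congr rfl fun i _ => ?_
      rw [map_add, hqW, f1]
    have hDn : ‖qB DD‖ < ε' / 2 := by
      set Y : J → Q := fun i => (1 - P i (N i 1)) * (om qB (cutL δ (ΦT i 1) 0) * om qB (ΦT i (ψ i γ.1)))
            + P i (N i 1) * om qB (MM i γ) with hY
      have g1 : qB DD = ∑ i, (rhoQ (om qB) (N i) (P i) (ΦW i) (r i) (p i) (ψ i γ.1)
        + P i (q i * N i (MM i γ) * q i) - Y i) + (∑ i, Y i - om qB (tT * gT γ * tT + ∑ j, ΦT j (ψ j γ.1))) := by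
        rw [f2, Finset.sum_sub_distrib]
        abel
      have g2 : ‖∑ i, (rhoQ (om qB) (N i) (P i) (ΦW i) (r i) (p i) (ψ i γ.1)
        + P i (q i * N i (MM i γ) * q i) - Y i)‖ ≤ m * ε₂ := by
        refine (norm_sum_le _ _).trans ?_
        refine (Finset.sum_le_sum fun i _ => c4 i γ).trans (le_of_eq ?_)
        rw [Finset.sum_const, nsmul_eq_mul]
        rfl
      have g3 : ‖∑ i, Y i - om qB (tT * gT γ * tT + ∑ j, ΦT j (ψ j γ.1))‖ ≤ 4 * δ * C1 * m :=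
        hTOT J δ C1 hδ0 hC10.le (TT E) Q (om qB) F ΦT vT tT (gT γ) (fun i => P i (N i 1))
          (fun j => ψ j γ.1) hΦTcp hΦToz htTp hvTp rel1 hN1p hposH hH3
          (fun j => ((hψ j).2 _).trans (hgn γ))
      rw [g1]
      refine ((norm_add_le _ _).trans (add_le_add g2 g3)).trans_lt ?_
      linarith
    refine (hQ.lt _ _ hDn).mono fun l hl => ?_
    have e : DD l = jE E (∑ i, (ρ i l (ψ i γ.1) + ι (φφ l i (Ql i l * ψψ l i (Th i l γ.1) * Ql i l)))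
        - (ι (ts l.1) * γ.1 * ι (ts l.1) + ∑ j, Φs l.1 j (ψ j γ.1))) := by
      rw [map_sub, jE_sum]
      have e1 : DD l = (∑ i, (W i (ψ i γ.1) + P0 (fun l => φφ l i) (fun l => hφφ1 l i) ι
        (Ql i * N0 hι vs hvn (fun l => ψψ l i) (fun l => hψψ l i) (MM i γ) * Ql i)) : QT I E) l
        - (tT * gT γ * tT + ∑ j, ΦT j (ψ j γ.1)) l.1 := rfl
      rw [e1, lp_sum_apply]
      congr 1
      · refine Finset.sum_congr rfl fun i _ => ?_
        show W i (ψ i γ.1) l + jI ι (φφ l i (Ql i l * ψψ l i (cmp hι (vs l.1) (MM i γ l.1)) * Ql i l)) = _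
        rw [hWρ, hMMk, map_add]
        rfl
      · show jI ι (ts l.1) * jE E γ.1 * jI ι (ts l.1) + (∑ j, ΦT j (ψ j γ.1) : TT E) l.1 = _
        rw [lp_sum_apply, map_add, map_mul, map_mul, jE_sum]
        rfl
    rw [e, hnE] at hl
    exact hl
  -- choose one index
  have evall : ∀ᶠ l in Fil I, (∀ i, ∀ x, ‖Th i l x‖ ≤ (1 + 2 * ε) * ‖x‖) ∧ (∀ i, ‖ρ i l 1‖ < 1 + 2 * ε) ∧
      (∀ i, ‖ρ i l 1 * ι (φφ l i (Ql i l))‖ ≤ δF i) ∧
      (∀ i, ∀ a s t b s' t', ‖ρ i l (mu (F i) a s t) * ρ i l (mu (F i) b s' t')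
        - ρ i l 1 * ρ i l (mu (F i) a s t * mu (F i) b s' t')‖ ≤ δF i) ∧
      ∀ γ : ↥G, ‖∑ i, (ρ i l (ψ i γ.1) + ι (φφ l i (Ql i l * ψψ l i (Th i l γ.1) * Ql i l)))
        - (ι (ts l.1) * γ.1 * ι (ts l.1) + ∑ j, Φs l.1 j (ψ j γ.1))‖ < ε' / 2 :=
    (eventually_all.2 ev1).and ((eventually_all.2 ev2).and ((eventually_all.2 ev3).and
      ((eventually_all.2 ev4).and (eventually_all.2 ev5))))
  obtain ⟨l, l1, l2, l3, l4, l5⟩ := evall.exists
  have hfin : ∀ i : J, ∃ (K : FDA) (ψ' : E →ₗ[ℂ] K.alg) (φ' : K.alg →ₗ[ℂ] E),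
      (IsCP ψ' ∧ ∀ x, ‖ψ' x‖ ≤ (1 + 3 * ε) * ‖x‖) ∧
      (IsCP φ' ∧ IsOrderZero φ' ∧ ∀ y, ‖φ' y‖ ≤ (1 + 3 * ε) * ‖y‖) ∧
      ∀ x, ‖φ' (ψ' x) - (ρ i l (ψ i x) + ι (φφ l i (Ql i l * ψψ l i (Th i l x) * Ql i l)))‖
        ≤ 7 * εF * ‖x‖ := by
    intro i
    have hρcp : IsCP (ρ i l) := isCP_rhoL hι _ ((isCP_cmpE _).comp (hΦs l.1 i).1) _ _ (hψψ l i).1
      (hφφ1 l i).1 _ _ _
    have hPQ : Pos (Ql i l) := ⟨Ql i l, by rw [(hQlp i l).1, (hQlp i l).2]⟩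
    have hQn : ‖Ql i l‖ ≤ 1 := by
      have h := CStarRing.norm_star_mul_self (x := Ql i l)
      rw [(hQlp i l).1, (hQlp i l).2] at h
      by_contra hc
      push Not at hc
      nlinarith
    obtain ⟨ρ', r1, r2, r3, r4⟩ := hFP'' i E (ρ i l) (ι (φφ l i (Ql i l))) hρcp
      ((l2 i).le.trans (by linarith)) (l4 i)
      ((IsCP.pos (hφφ1 l i).1 hPQ).map ι)
      ((NonUnitalStarAlgHom.norm_apply_le ι _).trans (((hφφ1 l i).2 _).trans hQn)) (l3 i)
    exact asm hETA hSUM hCOR (ψ i) (hψ i) (ψψ l i) (φφ l i) (hψψ l i) (hφφ l i) (Th i l) (hThcp i l)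
      ε εF hε0 hε1 hεF0 hεF1 (l1 i) (ρ i l) ρ' (l2 i).le r1 r2 r3 (Ql i l) (hQlp i l) r4
  choose K ψ' φ' k1 k2 k3 using hfin
  have h3ε : 3 * ε ≤ ε' := by linarith
  refine ⟨K, ψ', φ', fun c => ⟨(k1 c).1, fun x => ((k1 c).2 x).trans ?_⟩,
    fun c => ⟨(k2 c).1, (k2 c).2.1, fun y => ((k2 c).2.2 y).trans ?_⟩, ?_⟩
  · gcongr
  · gcongr
  · intro g hg
    have hgC : ‖g‖ ≤ C1 := (hGC g hg).trans hCC1
    have e : ∑ c, φ' c (ψ' c g) - g
        = ∑ c, (φ' c (ψ' c g) - (ρ c l (ψ c g) + ι (φφ l c (Ql c l * ψψ l c (Th c l g) * Ql c l))))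
          + (∑ i, (ρ i l (ψ i g) + ι (φφ l i (Ql i l * ψψ l i (Th i l g) * Ql i l)))
        - (ι (ts l.1) * g * ι (ts l.1) + ∑ j, Φs l.1 j (ψ j g)))
          + (∑ j, Φs l.1 j (ψ j g) + ι (ts l.1) * g * ι (ts l.1) - g) := by
      rw [Finset.sum_sub_distrib]
      abel
    have n1 : ‖∑ c, (φ' c (ψ' c g) - (ρ c l (ψ c g)
        + ι (φφ l c (Ql c l * ψψ l c (Th c l g) * Ql c l))))‖ ≤ m * (7 * εF * C1) := by
      refine (norm_sum_le _ _).trans ?_
      refine (Finset.sum_le_sum fun i _ => (k3 i g).trans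
        (mul_le_mul_of_nonneg_left hgC (by positivity))).trans (le_of_eq ?_)
      rw [Finset.sum_const, nsmul_eq_mul]
      rfl
    have n2 := l5 ⟨g, hg⟩
    have n3 := hg1 l.1 g hg
    rw [e]
    refine (norm_add_le _ _).trans ((add_le_add ((norm_add_le _ _).trans (add_le_add n1 n2.le)) n3).trans ?_)
    linarith

end Pool.Agent.Helper7_ND.AllC
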