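import Pool.Agent.Helper7_ND.All
import Pool.Agent.Helper7_ND.Mrg9
import Pool.Agent.Helper7_ND.J_A3
import Pool.Agent.Helper7_ND.J_ABL
import Pool.Agent.Helper7_ND.J_ALG2
import Pool.Agent.Helper7_ND.J_AP
import Pool.Agent.Helper7_ND.J_COL3
import Pool.Agent.Helper7_ND.J_CORE3
import Pool.Agent.Helper7_ND.J_DRN
import Pool.Agent.Helper7_ND.J_DS
import Pool.Agent.Helper7_ND.J_HER
import Pool.Agent.Helper7_ND.J_HG
import Pool.Agent.Helper7_ND.J_LOC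
import Pool.Agent.Helper7_ND.J_NRM2
import Pool.Agent.Helper7_ND.J_PART
import Pool.Agent.Helper7_ND.J_QUO
import Pool.Agent.Helper7_ND.J_STEP3
import Pool.Agent.Helper7_ND.J_T1B
import Pool.Agent.Helper7_ND.J_T1H
import Pool.Agent.Helper7_ND.J_TOT3
import Pool.Agent.Helper7_ND.J_WP
import Pool.Agent.Helper7_ND.J_WQ1
import Pool.Agent.Helper7_ND.J_WQ2
import Pool.Agent.Helper7_ND.J_WQ4

/-! # Nuclear dimension of extensions by tame quotients: all parts together -/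

set_option autoImplicit false

open scoped Matrix.Norms.L2Operator ENNReal Matrix
open Pool.Agent.W659.EC

namespace Pool.Agent.Helper7_ND

theorem all_A3 : StA3 := J_A3.t_A3 (J_AP.t_AP J_COM.t_COM J_LN.t_LN J_QC.t_QC) all_T1R all_ROW
theorem all_ALG2 : StALG2 := J_ALG2.t_ALG2 (J_ALGA.t_ALGA J_CC.t_CC)
theorem all_WQ2 : StWQ2 := J_WQ2.t_WQ2 J_WP.t_WPOS
theorem all_COL3 : StCOL3 :=
  J_COL3.t_COL3 all_ALG2 J_WP.t_WMAP J_WP.t_WPOS (J_WQ1.t_WQ1 J_WP.t_WPOS) all_WQ2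
    (J_WQ4.t_WQ4 J_WP.t_WPOS)
theorem all_TOT3 : StTOT3 :=
  J_TOT3.t_TOT3 J_WP.t_WMAP J_WP.t_WPOS (J_WQ2.t_WQ3 J_WP.t_WPOS all_WQ2)
theorem all_MRG3 : StMRG3 :=
  AllC.t_MRG3 all_L1 (J_NRM2.t_NRM2 all_L1) J_QC.t_QC J_RP.t_RP J_FD.t_FD J_RF.t_RF all_S0
    J_S1.t_S1 J_NV.t_NV J_COM.t_CPN all_FP (J_ETA.t_ETA all_L1) J_SUM.t_SUM J_COR.t_COR
    all_COL3 all_TOT3
/-- extensions by quotients with approximations which are almost multiplications -/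
theorem all_CORE3 : StCORE3 := J_CORE3.t_CORE3 all_A3 all_MRG3
theorem all_DRN : StDRN := J_DRN.t_DRN J_NV.t_NV
theorem all_CD : StCD := J_TOT3.t_CD all_ROW
theorem all_HER : StHER := J_HER.t_HER all_L1 all_ROW (J_T1H.t_T1H J_T1.t_T1) J_COR.t_COR
theorem all_PART : StPART := J_PART.t_PART all_L1 J_NV.t_NV
theorem all_ABL : StABL := J_ABL.t_ABL (J_T1B.t_T1B J_T1.t_T1)
theorem all_STEP3 : StSTEP3 :=
  J_STEP3.t_STEP3 J_ND.t_ND all_MAIN all_CORE3 J_LOC.t_RIX all_HER J_LN.t_LN J_HG.t_HG J_HG.t_IG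
    J_HG.t_PRE all_PART all_ABL all_CD all_DRN
/-- extensions by tame quotients -/
theorem all_MAIN4 : StMAIN4 :=
  J_STEP3.t_MAIN4 J_ND.t_ND all_MAIN all_HER J_LOC.t_LOC J_QUO.t_QUO J_HG.t_PERP
    (J_DS.t_DS J_SUM.t_SUM) (J_DS.t_CHN J_LOC.t_LOC) all_STEP3

end Pool.Agent.Helper7_ND
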