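import Pool.Agent.Helper7_ND.Stm8
import Pool.Agent.Helper7_ND.J_COL
import Pool.Agent.Helper7_ND.J_WP
import Pool.Agent.Helper7_ND.J_ALGA

/-! # COL5: one colour of the merging, for ideals of real rank zero -/

set_option autoImplicit false

open scoped Matrix.Norms.L2Operator ENNReal Matrix
open Pool.Agent.W659.EC

noncomputable section

namespace Pool.Agent.Helper7_ND.J_COL5

open J_COL J_WP

/-! ## The functions -/

theorem ramp_cont (a b : ℝ) : Continuous (ramp a b) := by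
  unfold ramp
  exact clip_cont.comp (by fun_prop)

theorem ramp_nonneg (a b s : ℝ) : 0 ≤ ramp a b s := clip_nonneg _

theorem ramp_le_one (a b s : ℝ) : ramp a b s ≤ 1 := clip_le_one _

theorem ramp_zero {a b s : ℝ} (hab : a < b) (hs : s ≤ a) : ramp a b s = 0 := by
  unfold ramp clip
  have h1 : (s - a) / (b - a) ≤ 0 := div_nonpos_of_nonpos_of_nonneg (by linarith) (by linarith)
  exact max_eq_left ((min_le_right _ _).trans h1)

theorem ramp_one {a b s : ℝ} (hab : a < b) (hs : b ≤ s) : ramp a b s = 1 := by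
  unfold ramp clip
  have h1 : 1 ≤ (s - a) / (b - a) := by
    rw [le_div_iff₀ (by linarith)]; linarith
  rw [min_eq_left h1]
  exact max_eq_right zero_le_one

theorem mA_cont {κ : ℝ} (hκ : 0 < κ) : Continuous (mA κ) := by
  unfold mA
  refine Real.continuous_sqrt.comp ((ramp_cont _ _).div (by fun_prop) fun s => ?_)
  exact (lt_max_of_lt_right (by linarith : (0:ℝ) < κ / 2)).ne'

theorem mA_zero {κ : ℝ} (hκ : 0 < κ) : mA κ 0 = 0 := by
  unfold mA
  rw [ramp_zero (by linarith) (by linarith), zero_div, Real.sqrt_zero]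

theorem mA_mul {κ : ℝ} (hκ : 0 < κ) (s : ℝ) : mA κ s * s * mA κ s = ramp (κ / 2) κ s := by
  unfold mA
  rcases le_or_gt s (κ / 2) with h | h
  · rw [ramp_zero (by linarith) h, zero_div, Real.sqrt_zero]; ring
  · have hs : 0 < s := by linarith
    rw [max_eq_left h.le]
    have h1 : 0 ≤ ramp (κ / 2) κ s / s := div_nonneg (ramp_nonneg _ _ _) hs.le
    calc Real.sqrt (ramp (κ / 2) κ s / s) * s * Real.sqrt (ramp (κ / 2) κ s / s)
        = (Real.sqrt (ramp (κ / 2) κ s / s) * Real.sqrt (ramp (κ / 2) κ s / s)) * s := by ring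
      _ = ramp (κ / 2) κ s / s * s := by rw [Real.mul_self_sqrt h1]
      _ = ramp (κ / 2) κ s := by field_simp

theorem wF_cont {δ : ℝ} (hδ : 0 < δ) : Continuous (wF δ) := by
  unfold wF
  exact continuous_const.max (continuous_const.sub (continuous_const.div (by fun_prop)
    fun s => (max_pos' hδ s).ne'))

theorem wF_nonneg (δ s : ℝ) : 0 ≤ wF δ s := le_max_left _ _

theorem wF_le_one {δ : ℝ} (hδ : 0 < δ) (s : ℝ) : wF δ s ≤ 1 := by
  unfold wF
  refine max_le zero_le_one ?_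
  have : 0 ≤ δ / max s δ := div_nonneg hδ.le (max_pos' hδ s).le
  linarith

theorem wF_bound {δ : ℝ} (hδ : 0 < δ) (s : ℝ) : (1 - wF δ s) * s ≤ δ := by
  unfold wF
  rcases le_or_gt s δ with h | h
  · rw [max_eq_right h, div_self hδ.ne', sub_self, max_self, sub_zero, one_mul]; exact h
  · rw [max_eq_left h.le]
    have hs' : 0 < s := hδ.trans h
    have h1 : 0 ≤ 1 - δ / s := by
      rw [sub_nonneg, div_le_one hs']; exact h.le
    rw [max_eq_right h1]
    have : (1 - (1 - δ / s)) * s = δ := by field_simp; ring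
    exact this.le

/-! ## Homomorphisms and the functional calculus -/

section fc

variable {R Q : Type} [CStarAlgebra R] [CStarAlgebra Q]

theorem hom_cont' (P : R →⋆ₙₐ[ℂ] Q) : Continuous P :=
  ((P : R →ₗ[ℂ] Q).mkContinuous 1 (fun x => by
    rw [one_mul]; exact NonUnitalStarAlgHom.norm_apply_le P x)).continuous

theorem hom_cfc0 (P : R →⋆ₙₐ[ℂ] Q) (f : ℝ → ℝ) (hf : Continuous f) (h0 : f 0 = 0) (n : R)
    (hn : star n = n) : P (cfc f n) = cfc f (P n) := by
  have hsa : IsSelfAdjoint n := hn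
  have hsa' : IsSelfAdjoint (P n) := hsa.map P
  rw [← cfcₙ_eq_cfc (a := n) (hf := hf.continuousOn) (hf0 := h0),
    ← cfcₙ_eq_cfc (a := P n) (hf := hf.continuousOn) (hf0 := h0)]
  exact NonUnitalStarAlgHom.map_cfcₙ (S := ℂ) P f n (hf := hf.continuousOn) (hf₀ := h0)
    (hφ := hom_cont' P) (hφa := hsa')

theorem comm_P (P : R →⋆ₙₐ[ℂ] Q) {f : ℝ → ℝ} (hf : Continuous f) (h0 : f 0 = 0) {n : R}
    (hn : star n = n) {z : Q} (hz : z * P n = P n * z) : z * P (cfc f n) = P (cfc f n) * z := by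
  rw [hom_cfc0 P f hf h0 n hn]
  exact comm_cfc hz f

theorem cp_norm_le {A B : Type} [CStarAlgebra A] [NonUnitalCStarAlgebra B] {φ : A →ₗ[ℂ] B}
    (h : IsCP φ) (a : A) : ‖φ a‖ ≤ ‖φ 1‖ * ‖a‖ := by
  let _ := CStarAlgebra.spectralOrder B
  let _ := CStarAlgebra.spectralOrderedRing B
  exact h.norm_le a

/-- Cauchy-Schwarz for completely positive maps -/
theorem cp_cs {A B : Type} [CStarAlgebra A] [CStarAlgebra B] {L : A →ₗ[ℂ] B} (h : IsCP L) {e : B}
    (he : star e = e) {τ : ℝ} (hτ0 : 0 ≤ τ) (hτ : ‖e * L 1 * e‖ ≤ τ ^ 2) (h1 : ‖L 1‖ ≤ 1) (g : A) :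
    ‖e * L g‖ ≤ τ * ‖g‖ := by
  let _ := CStarAlgebra.spectralOrder A
  let _ := CStarAlgebra.spectralOrderedRing A
  let _ := CStarAlgebra.spectralOrder B
  let _ := CStarAlgebra.spectralOrderedRing B
  have hs := h.schwarz (star g)
  rw [star_star, h.star_map, star_star] at hs
  -- `L g * star (L g) ≤ ‖L 1‖ L (g * star g)`
  have h2 : L (g * star g) ≤ ((‖g‖ ^ 2 : ℝ) : ℂ) • L 1 := by
    have h3 : (0 : A) ≤ ((‖g‖ ^ 2 : ℝ) : ℂ) • (1 : A) - g * star g := by
      rw [sub_nonneg]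
      have := CStarAlgebra.star_mul_le_algebraMap_norm_sq (a := star g)
      rw [star_star, norm_star] at this
      refine this.trans (le_of_eq ?_)
      rw [Algebra.algebraMap_eq_smul_one]
      rfl
    obtain ⟨b, hb⟩ := (nonneg_iff_star _).1 h3
    have h4 := h.nonneg b
    rw [← hb, map_sub, map_smul, sub_nonneg] at h4
    exact h4
  have h5 : L g * star (L g) ≤ ((‖L 1‖ : ℝ) : ℂ) • (((‖g‖ ^ 2 : ℝ) : ℂ) • L 1) :=
    hs.trans (J_ALGA.smul_le_smul' (norm_nonneg _) h2)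
  have h6 := J_ALGA.conj_le he h5
  have h7 : e * (L g * star (L g)) * e = (e * L g) * star (e * L g) := by
    rw [star_mul, he]; simp only [mul_assoc]
  rw [h7] at h6
  have h8 : e * (((‖L 1‖ : ℝ) : ℂ) • (((‖g‖ ^ 2 : ℝ) : ℂ) • L 1)) * e
      = ((‖L 1‖ : ℝ) : ℂ) • (((‖g‖ ^ 2 : ℝ) : ℂ) • (e * L 1 * e)) := by
    simp only [mul_smul_comm, smul_mul_assoc]
  rw [h8] at h6
  have h9 : ‖(e * L g) * star (e * L g)‖ ≤ ‖L 1‖ * (‖g‖ ^ 2 * ‖e * L 1 * e‖) := by
    refine (CStarAlgebra.norm_le_norm_of_nonneg_of_le (mul_star_self_nonneg _) h6).trans ?_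
    rw [norm_smul, norm_smul, Complex.norm_real, Complex.norm_real, norm_norm,
      Real.norm_of_nonneg (sq_nonneg _)]
  rw [CStarRing.norm_self_mul_star, ← pow_two] at h9
  have h10 : ‖e * L g‖ ^ 2 ≤ (τ * ‖g‖) ^ 2 := by
    refine h9.trans ?_
    calc ‖L 1‖ * (‖g‖ ^ 2 * ‖e * L 1 * e‖) ≤ 1 * (‖g‖ ^ 2 * τ ^ 2) := by
          refine mul_le_mul h1 ?_ (by positivity) zero_le_one
          exact mul_le_mul_of_nonneg_left hτ (sq_nonneg _)
      _ = (τ * ‖g‖) ^ 2 := by ring
  exact (sq_le_sq₀ (norm_nonneg _) (by positivity)).1 h10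

end fc

theorem inj_eq {R Q : Type} [CStarAlgebra R] [CStarAlgebra Q] {P : R →⋆ₙₐ[ℂ] Q}
    (hP : Function.Injective P) {x y : R} (h : P x = P y) : x = y := hP h

theorem t_COL5 (hPP5 : StPP5) (hQL : StQL) : StCOL5 := by
  intro ε₂ hε₂
  set δ : ℝ := ε₂ / 12 with hδd
  have hδ : 0 < δ := by positivity
  refine ⟨δ, hδ, ?_⟩
  intro T Q R _ _ _ ω N P F Φ v u t ε hCut hSpec hε hε1 hN hNle hPinj hPcom hΦ hΦoz hv hv1 hu
    hu1 ht ht1 hvu hut hvΦ huΦ hS ΦW hΦW
  obtain ⟨p, hp, p1, -, p3, p4⟩ := hPP5 T Q R ω N P F Φ v u t δ δ hδ hδ hCut hN hNle hPinj hPcom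
    hΦ hΦoz hv hv1 hu hu1 ht ht1 hvu hut hvΦ huΦ ΦW (cfc (mA δ) (N 1))
    (cfc (ramp (2 * δ) (3 * δ)) (N 1)) hΦW rfl rfl
  set n : R := N 1 with hn
  set m : R := cfc (mA δ) n with hm
  set m2 : R := cfc (ramp (2 * δ) (3 * δ)) n with hm2
  set e : R := cfc (ramp (δ / 2) δ) n with he
  -- basic facts on `n`
  have pn : Pos n := IsCP.pos hN ⟨1, by simp⟩
  have nω : ∀ z : T, ‖ω z‖ ≤ ‖z‖ := fun z => NonUnitalStarAlgHom.norm_apply_le ω z
  have nn : ‖n‖ ≤ 1 := (hNle 1).trans ((nω 1).trans one_norm_le)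
  have sn : star n = n := pn.sa
  have nP : ∀ z : R, ‖P z‖ = ‖z‖ := fun z => hom_norm P hPinj z
  have sm : star m = m := cfc_sa _ _
  have sm2 : star m2 = m2 := cfc_sa _ _
  have se : star e = e := cfc_sa _ _
  have zr1 : ramp (δ / 2) δ 0 = 0 := ramp_zero (by linarith) (by linarith)
  have zr2 : ramp (2 * δ) (3 * δ) 0 = 0 := ramp_zero (by linarith) (by linarith)
  have pe : Pos e := cfc_pos' (ramp_nonneg _ _) _
  have ne : ‖e‖ ≤ 1 := cfc_norm' (ramp_nonneg _ _) (ramp_le_one _ _) _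
  have nm2 : ‖m2‖ ≤ 1 := cfc_norm' (ramp_nonneg _ _) (ramp_le_one _ _) _
  have snI : IsSelfAdjoint n := sn
  have mnm : m * n * m = e := by
    have e1 : m * n = cfc (fun s : ℝ => mA δ s * s) n := by
      rw [cfc_mul (mA δ) (fun s : ℝ => s) n (mA_cont hδ).continuousOn (by fun_prop),
        cfc_id' ℝ n]
    rw [e1, hm, ← cfc_mul (fun s : ℝ => mA δ s * s) (mA δ) n
      ((mA_cont hδ).mul continuous_id).continuousOn (mA_cont hδ).continuousOn, he]
    exact cfc_congr fun s _ => mA_mul hδ s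
  have em2 : e * m2 = m2 := by
    rw [he, hm2, ← cfc_mul (ramp (δ / 2) δ) (ramp (2 * δ) (3 * δ)) n
      (ramp_cont _ _).continuousOn (ramp_cont _ _).continuousOn]
    refine cfc_congr fun s _ => ?_
    show ramp (δ / 2) δ s * ramp (2 * δ) (3 * δ) s = ramp (2 * δ) (3 * δ) s
    rcases le_or_gt s (2 * δ) with h | h
    · rw [ramp_zero (by linarith) h, mul_zero]
    · rw [ramp_one (by linarith) (by linarith), one_mul]
  have nM : ‖n - m2 * n * m2‖ ≤ 3 * δ := by
    have e1 : m2 * n * m2 = cfc (fun s : ℝ => ramp (2 * δ) (3 * δ) s * s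
        * ramp (2 * δ) (3 * δ) s) n := by
      rw [cfc_mul (fun s : ℝ => ramp (2 * δ) (3 * δ) s * s) (ramp (2 * δ) (3 * δ)) n
          ((ramp_cont _ _).mul continuous_id).continuousOn (ramp_cont _ _).continuousOn,
        cfc_mul (ramp (2 * δ) (3 * δ)) (fun s : ℝ => s) n (ramp_cont _ _).continuousOn
          (by fun_prop), cfc_id' ℝ n]
    have e2 : n - m2 * n * m2 = cfc (fun s : ℝ => s - ramp (2 * δ) (3 * δ) s * s
        * ramp (2 * δ) (3 * δ) s) n := by
      rw [cfc_sub (fun s : ℝ => s) (fun s : ℝ => ramp (2 * δ) (3 * δ) s * s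
        * ramp (2 * δ) (3 * δ) s) n (by fun_prop)
        (((ramp_cont _ _).mul continuous_id).mul (ramp_cont _ _)).continuousOn, cfc_id' ℝ n, e1]
    rw [e2]
    let _ := CStarAlgebra.spectralOrder R
    let _ := CStarAlgebra.spectralOrderedRing R
    refine norm_cfc_le (by positivity) fun s hs => ?_
    have hs0 : 0 ≤ s := spectrum_nonneg_of_nonneg ((pos_iff n).1 pn) hs
    have r0 := ramp_nonneg (2 * δ) (3 * δ) s
    have r1 := ramp_le_one (2 * δ) (3 * δ) s
    set ρ := ramp (2 * δ) (3 * δ) s with hρ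
    have e3 : s - ρ * s * ρ = s * (1 - ρ * ρ) := by ring
    have e4 : 0 ≤ 1 - ρ * ρ := by nlinarith
    rw [e3, Real.norm_of_nonneg (mul_nonneg hs0 e4)]
    rcases le_or_gt s (3 * δ) with h | h
    · have : s * (1 - ρ * ρ) ≤ s * 1 := mul_le_mul_of_nonneg_left (by nlinarith) hs0
      linarith
    · have : ρ = 1 := ramp_one (by linarith) h.le
      rw [this]
      have : s * (1 - 1 * 1) = 0 := by ring
      rw [this]; positivity
  -- images under `ω`
  set c : Q := ω (Φ 1) with hc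
  have wst : star (ω t) = ω t := by rw [← map_star, ht.sa]
  have wsv : star (ω v) = ω v := by rw [← map_star, hv.sa]
  have wsu : star (ω u) = ω u := by rw [← map_star, hu.sa]
  have q_vu : ω v * ω u = ω u := by rw [← map_mul]; exact hvu
  have q_ut : ω u * ω t = ω t := by rw [← map_mul]; exact hut
  have q_vt : ω v * ω t = ω t := by
    rw [← q_ut, ← mul_assoc, q_vu]
  have q_tv : ω t * ω v = ω t := by
    have := congrArg star q_vt
    rwa [star_mul, wst, wsv] at this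
  have q_vΦ : ∀ y, ω v * ω (Φ y) = ω (Φ y) * ω v := by
    intro y; rw [← map_mul, ← map_mul]; exact hvΦ y
  have q_oz : ∀ x y, ω (Φ x) * ω (Φ y) = c * ω (Φ (x * y)) := by
    intro x y
    rw [hc, ← map_mul ω (Φ x), ← map_mul ω (Φ 1)]
    exact hΦoz x y
  have q_1Φ : ∀ y, ω (Φ y) * c = c * ω (Φ y) := by
    intro y
    rw [hc, q_oz y 1, mul_one]
  have pΦ1 : Pos (Φ 1) := IsCP.pos hΦ ⟨1, by simp⟩
  have pc : Pos c := pΦ1.map ω
  -- the weight
  set W : T := cfc (wF δ) (Φ 1) with hW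
  set w : Q := cfc (wF δ) c with hw
  have mW : ω W = w := by rw [hW, hw, hc, map_cfc' ω _ (wF_cont hδ) _ pΦ1.sa]
  have pW : Pos W := cfc_pos' (wF_nonneg δ) _
  have pw : Pos w := cfc_pos' (wF_nonneg δ) _
  have nw : ‖w‖ ≤ 1 := cfc_norm' (wF_nonneg δ) (wF_le_one hδ) _
  have p1w : Pos (1 - w) := pos_one_sub pw nw
  have cΦw : ∀ y, ω (Φ y) * w = w * ω (Φ y) := fun y => comm_cfc (q_1Φ y) _
  have cvw : ω v * w = w * ω v := comm_cfc (q_vΦ 1) _
  have qΦW : ∀ y, ω (ΦW y) = w * ω (Φ y) := by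
    intro y
    have h1 : ΦW y = star (sq W) * Φ y * sq W := by rw [hΦW]; rfl
    obtain ⟨s1, s2, s3⟩ := sq_lem pw
    rw [h1, map_mul, map_mul, map_star, map_sq ω W pW.sa, mW, s1, mul_assoc,
      s3 _ (cΦw y), ← mul_assoc, s2]
  have cpΦW : IsCP ΦW := by
    rw [hΦW]
    exact (isCP_conjL _).comp hΦ
  have q_vW : ∀ y, ω v * ω (ΦW y) = ω (ΦW y) * ω v := by
    intro y
    rw [qΦW, ← mul_assoc, cvw, mul_assoc, q_vΦ, mul_assoc]
  -- the element `H = P n`
  have HC : ∀ z : T, ω v * ω z = ω z * ω v → P (N z) = P n * ω z ∧ ω z * P n = P n * ω z := by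
    intro z hz
    have h1 := hPcom z (by rw [map_mul, map_mul, hz])
    exact ⟨h1.1, h1.2.symm.trans h1.1⟩
  have HM : ∀ z : T, ω v * ω z = ω z * ω v → P (m * N z * m) = P e * ω z := by
    intro z hz
    obtain ⟨h1, h2⟩ := HC z hz
    have h3 := comm_P P (mA_cont hδ) (mA_zero hδ) sn h2
    rw [map_mul, map_mul, h1, ← mnm, map_mul, map_mul]
    simp only [mul_assoc]
    rw [h3]
  have HM2 : ∀ z : T, ω v * ω z = ω z * ω v → P (m2 * N z * m2) = P (m2 * n * m2) * ω z := by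
    intro z hz
    obtain ⟨h1, h2⟩ := HC z hz
    have h3 := comm_P P (ramp_cont _ _) zr2 sn h2
    rw [map_mul, map_mul, h1, map_mul, map_mul]
    simp only [mul_assoc]
    rw [h3]
  have He : ∀ z : T, ω v * ω z = ω z * ω v → ω z * P e = P e * ω z := by
    intro z hz
    exact comm_P P (ramp_cont _ _) zr1 sn (HC z hz).2
  have q_vtt : ∀ g : T, ω v * ω (t * g * t) = ω (t * g * t) * ω v := by
    intro g
    simp only [map_mul]
    rw [← mul_assoc, ← mul_assoc, q_vt, mul_assoc (ω t * ω g), q_tv]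
  have htt : t * t = t * 1 * t := by rw [mul_one]
  have q_vtt1 : ω v * ω (t * t) = ω (t * t) * ω v := by rw [htt]; exact q_vtt 1
  -- the projection `p`
  have pep : P p * P e = P p := by
    have h1 : p * e = p := by
      have := congrArg star p3
      rwa [star_mul, se, hp.1] at this
    rw [← map_mul, h1]
  have pep' : P e * P p = P p := by rw [← map_mul, p3]
  have ppp : P p * P p = P p := by rw [← map_mul, hp.2]
  have spp : star (P p) = P p := by rw [← map_star, hp.1]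
  have pPw : P p * w = w * P p := comm_cfc (p1 1) _
  have pPW : ∀ y, P p * ω (ΦW y) = ω (ΦW y) * P p := by
    intro y
    rw [qΦW, ← mul_assoc, pPw, mul_assoc, p1, mul_assoc]
  have pK : ∀ y, p * (m * N (Φ y) * m) = (m * N (Φ y) * m) * p := by
    intro y
    apply inj_eq hPinj
    rw [map_mul, map_mul P _ p, HM _ (q_vΦ y), ← mul_assoc, pep, mul_assoc, ← p1, ← mul_assoc,
      pep']
  have pKW : ∀ y, p * (m * N (ΦW y) * m) = (m * N (ΦW y) * m) * p := by
    intro y
    apply inj_eq hPinj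
    rw [map_mul, map_mul P _ p, HM _ (q_vW y), ← mul_assoc, pep, mul_assoc, ← pPW, ← mul_assoc,
      pep']
  -- the elements `a`, `b` and the projection `q`
  have prj1 := J_ALGA.prj_compl hp
  set a : R := (1 - p) * (m * N (ΦW 1) * m) * (1 - p) with ha
  set b : R := m2 * N (t * t) * m2 + p with hb
  have pNW : Pos (N (ΦW 1)) := IsCP.pos hN (IsCP.pos cpΦW ⟨1, by simp⟩)
  have pNt : Pos (N (t * t)) := IsCP.pos hN ⟨t, by rw [ht.sa]⟩
  have pmW : Pos (m * N (ΦW 1) * m) := by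
    have := pNW.conj m
    rwa [sm] at this
  have pa : Pos a := by
    have := pmW.conj (1 - p)
    rwa [prj1.1] at this
  have pm2t : Pos (m2 * N (t * t) * m2) := by
    have := pNt.conj m2
    rwa [sm2] at this
  have ppos : Pos p := ⟨p, by rw [hp.1, hp.2]⟩
  have pb : Pos b := pm2t.add ppos
  have ea : a = (1 - p) * (m * N (ΦW 1) * m) := by
    have h1 : (m * N (ΦW 1) * m) * (1 - p) = (1 - p) * (m * N (ΦW 1) * m) := by
      rw [mul_sub, sub_mul, one_mul, mul_one, pKW]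
    rw [ha, mul_assoc, h1, ← mul_assoc, prj1.2]
  have ea' : a = (m * N (ΦW 1) * m) * (1 - p) := by
    have := congrArg star ea
    rwa [pa.sa, star_mul, pmW.sa, prj1.1] at this
  have Pa : P a = (P e - P p) * ω (ΦW 1) := by
    rw [ea, sub_mul, one_mul, map_sub, map_mul P p, HM _ (q_vW 1), ← mul_assoc, pep, sub_mul]
  have hab : a * b = 0 := by
    have h1 : a * p = 0 := by
      rw [ea', mul_assoc, sub_mul, one_mul, hp.2, sub_self, mul_zero]
    rw [hb, mul_add, h1, add_zero]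
    apply inj_eq hPinj
    rw [map_mul, Pa, map_zero]
    have h2 : ω (ΦW 1) * P (m2 * N (t * t) * m2)
        = P p * (ω (ΦW 1) * P (m2 * N (t * t) * m2)) := by
      have h3 := p4
      rw [mul_assoc, sub_mul, one_mul, sub_eq_zero] at h3
      exact h3
    rw [mul_assoc, h2, ← mul_assoc, sub_mul, pep', ppp, sub_self, zero_mul]
  have heb : e * b = b := by
    rw [hb, mul_add, p3, ← mul_assoc, ← mul_assoc, em2]
  obtain ⟨q, hq, q1, q2, q3⟩ := hQL R hSpec a b e (δ ^ 2) (by positivity) pa pb hab heb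
  -- the element `r`
  obtain ⟨r, hr⟩ : ∃ r : Q, r = 1 - P p := ⟨_, rfl⟩
  have sr : star r = r := by rw [hr, star_sub, star_one, spp]
  have rr : r * r = r := by
    rw [hr, mul_sub, sub_mul, sub_mul, ppp]; simp
  have rW : ∀ y, r * ω (ΦW y) = ω (ΦW y) * r := by
    intro y
    rw [hr, sub_mul, mul_sub, one_mul, mul_one, pPW]
  have rWr : ∀ y, r * ω (ΦW y) * r = r * ω (ΦW y) := by
    intro y
    rw [mul_assoc, ← rW, ← mul_assoc, rr]
  have aq : a * q = 0 := by
    have := congrArg star q1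
    rwa [star_mul, hq.1, pa.sa, star_zero] at this
  have nq := prj_norm hq
  have nq1 := prj_norm (J_ALGA.prj_compl hq)
  have np1 := prj_norm prj1
  have nΦ1 : ‖Φ 1‖ ≤ 2 := by
    have h1 : Pos ((1 + ε : ℂ) • (1 : T) - Φ 1) := by
      have e1 : (1 + ε : ℂ) • (1 : T) - Φ 1 = ((1 + ε : ℂ) • (1 : T) - t * t - Φ 1) + t * t := by
        abel
      rw [e1]
      exact hS.add ⟨t, by rw [ht.sa]⟩
    exact (Pos.norm_le pΦ1 h1).trans ((norm_cst hε).trans (by linarith))
  have hSQ : Pos ((1 + ε : ℂ) • (1 : Q) - ω (t * t) - c) := by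
    have e1 : (1 + ε : ℂ) • (1 : Q) - ω (t * t) - c
        = ω ((1 + ε : ℂ) • (1 : T) - t * t - Φ 1) := by
      rw [map_sub, map_sub, map_smul, map_one]
    rw [e1]
    exact hS.map ω
  have ptt : Pos (t * t) := ⟨t, by rw [ht.sa]⟩
  have pttQ : Pos (ω (t * t)) := ptt.map ω
  have cwc : w * c = c * w := (cΦw 1).symm
  have prQ : Pos r := ⟨r, by rw [sr, rr]⟩
  refine ⟨m, q, r, sm, hq, sr, ?_, ?_, ?_, ?_, ?_⟩
  · -- order zero
    intro x y
    rw [rWr, rWr, rWr, rWr]
    have h1 : ∀ x y, r * ω (ΦW x) * (r * ω (ΦW y)) = r * (ω (ΦW x) * ω (ΦW y)) := by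
      intro x y
      rw [rW x, mul_assoc (ω (ΦW x)) r, ← mul_assoc r r, rr, ← mul_assoc, ← rW x, mul_assoc]
    rw [h1, h1]
    congr 1
    rw [qΦW, qΦW, qΦW, qΦW]
    have h2 : ∀ x y, w * ω (Φ x) * (w * ω (Φ y)) = w * w * (ω (Φ x) * ω (Φ y)) := by
      intro x y
      rw [mul_assoc w (ω (Φ x)), ← mul_assoc (ω (Φ x)) w, cΦw]
      simp only [mul_assoc]
    rw [h2, h2, q_oz]
  · -- orthogonality
    rw [rWr]
    have h1 : P q = P e * P q := by rw [← map_mul, q2]
    have h2 : r * P e = P e - P p := by rw [hr, sub_mul, one_mul, pep]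
    rw [h1, ← mul_assoc, mul_assoc r, He _ (q_vW 1), ← mul_assoc, h2, ← Pa, ← map_mul, aq,
      map_zero]
  · -- the bound
    have e1 : (1 + ε : ℂ) • (1 : Q) - r * ω (ΦW 1) * r
        = (((1 + ε : ℂ) • (1 : Q) - ω (t * t) - c) + ω (t * t)) + (1 - w) * c
          + P p * (w * c) := by
      rw [rWr, qΦW, ← hc, hr]
      simp only [sub_mul, one_mul]
      abel
    rw [e1]
    have p2 : Pos ((1 - w) * c) := pos_mul p1w pc (by rw [sub_mul, mul_sub, one_mul, mul_one, cwc])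
    have p5 : Pos (w * c) := pos_mul pw pc cwc
    have p6 : Pos (P p * (w * c)) := by
      refine pos_mul (ppos.map P) p5 ?_
      rw [← mul_assoc, pPw, mul_assoc, hc, p1, mul_assoc]
    exact ((hSQ.add pttQ).add p2).add p6
  · -- the norm
    have h1 : P (m * N (Φ 1) * m + N (t * t)) = P e * c + P n * ω (t * t) := by
      rw [map_add, HM _ (q_vΦ 1), (HC _ q_vtt1).1]
    have pPe : Pos (P e) := pe.map P
    have nPe : ‖P e‖ ≤ 1 := (nP e).le.trans ne
    have pPn : Pos (P n) := pn.map P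
    have nPn : ‖P n‖ ≤ 1 := (nP n).le.trans nn
    have cec : P e * c = c * P e := (He _ (q_vΦ 1)).symm
    have cnt : P n * ω (t * t) = ω (t * t) * P n := ((HC _ q_vtt1).2).symm
    have h2 : Pos (P e * c + P n * ω (t * t)) :=
      (pos_mul pPe pc cec).add (pos_mul pPn pttQ cnt)
    have h3 : Pos ((1 + ε : ℂ) • (1 : Q) - (P e * c + P n * ω (t * t))) := by
      have e1 : (1 + ε : ℂ) • (1 : Q) - (P e * c + P n * ω (t * t))
          = ((1 + ε : ℂ) • (1 : Q) - ω (t * t) - c) + (1 - P e) * c + (1 - P n) * ω (t * t) := by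
        simp only [sub_mul, one_mul]
        abel
      rw [e1]
      refine (hSQ.add ?_).add ?_
      · exact pos_mul (pos_one_sub pPe nPe) pc (by rw [sub_mul, mul_sub, one_mul, mul_one, cec])
      · exact pos_mul (pos_one_sub pPn nPn) pttQ (by rw [sub_mul, mul_sub, one_mul, mul_one, cnt])
    have h4 : ‖m * N (Φ 1) * m + N (t * t)‖ ≤ 1 + ε := by
      rw [← nP, h1]
      exact (Pos.norm_le h2 h3).trans (norm_cst hε)
    calc ‖q * (m * N (Φ 1) * m + N (t * t)) * q‖
        ≤ ‖q * (m * N (Φ 1) * m + N (t * t))‖ * ‖q‖ := norm_mul_le _ _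
      _ ≤ (‖q‖ * ‖m * N (Φ 1) * m + N (t * t)‖) * ‖q‖ :=
          mul_le_mul_of_nonneg_right (norm_mul_le _ _) (norm_nonneg _)
      _ ≤ (1 * (1 + ε)) * 1 := by
          refine mul_le_mul (mul_le_mul nq h4 (norm_nonneg _) zero_le_one) nq (norm_nonneg _)
            (by positivity)
      _ = 1 + ε := by ring
  · -- the estimate
    intro X g
    have prQ' : Prj r := ⟨sr, rr⟩
    have nr := prj_norm prQ'
    have prp : r + P p = 1 := by rw [hr]; abel
    set K : R := m * N (Φ X) * m with hK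
    set KW : R := m * N (ΦW X) * m with hKW
    set Y : R := N (t * g * t) with hY
    set M : R := m2 * Y * m2 with hM
    have PK : P K = P e * ω (Φ X) := HM _ (q_vΦ X)
    have PKW : P KW = P e * ω (ΦW X) := HM _ (q_vW X)
    have nPe : ‖P e‖ ≤ 1 := (nP e).le.trans ne
    -- norms of products
    have nmul : ∀ {B : Type} [CStarAlgebra B] (x y : B) (a b : ℝ), 0 ≤ a → ‖x‖ ≤ a → ‖y‖ ≤ b →
        ‖x * y‖ ≤ a * b := by
      intro B _ x y a b ha hx hy
      exact (norm_mul_le _ _).trans (mul_le_mul hx hy (norm_nonneg _) ha)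
    -- (i)
    have nE1 : ‖(1 - w) * ω (Φ X)‖ ≤ δ * ‖X‖ := by
      obtain ⟨s1, s2, s3⟩ := sq_lem p1w
      have c1 : ∀ y, ω (Φ y) * (1 - w) = (1 - w) * ω (Φ y) := by
        intro y
        rw [mul_sub, sub_mul, one_mul, mul_one, cΦw]
      have cpL : IsCP (conjL (sq (1 - w)) ∘ₗ ((ω : T →ₗ[ℂ] Q) ∘ₗ Φ)) :=
        (isCP_conjL _).comp ((isCP_hom ω _ fun _ => rfl).comp hΦ)
      have eL : ∀ y, (conjL (sq (1 - w)) ∘ₗ ((ω : T →ₗ[ℂ] Q) ∘ₗ Φ)) y = (1 - w) * ω (Φ y) := by
        intro y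
        show star (sq (1 - w)) * ω (Φ y) * sq (1 - w) = _
        rw [s1, mul_assoc, s3 _ (c1 y), ← mul_assoc, s2]
      have h1 := cp_norm_le cpL X
      rw [eL, eL, ← hc] at h1
      have h2 : ‖(1 - w) * c‖ ≤ δ := by
        have hsac : IsSelfAdjoint c := pc.sa
        have e1 : (1 - w) * c = cfc (fun s : ℝ => (1 - wF δ s) * s) c := by
          rw [cfc_mul (fun s : ℝ => 1 - wF δ s) (fun s : ℝ => s) c
              (continuous_const.sub (wF_cont hδ)).continuousOn (by fun_prop), cfc_id' ℝ c,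
            cfc_sub (fun _ : ℝ => (1 : ℝ)) (wF δ) c (by fun_prop) (wF_cont hδ).continuousOn,
            cfc_const_one ℝ c]
        rw [e1]
        let _ := CStarAlgebra.spectralOrder Q
        let _ := CStarAlgebra.spectralOrderedRing Q
        refine norm_cfc_le hδ.le fun s hs => ?_
        have hs0 : 0 ≤ s := spectrum_nonneg_of_nonneg ((pos_iff c).1 pc) hs
        have h3 : 0 ≤ 1 - wF δ s := by have := wF_le_one hδ s; linarith
        rw [Real.norm_of_nonneg (mul_nonneg h3 hs0)]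
        exact wF_bound hδ s
      exact h1.trans (mul_le_mul_of_nonneg_right h2 (norm_nonneg _))
    -- (ii)
    have nKK : ‖K - KW‖ ≤ δ * ‖X‖ := by
      have h1 : P (K - KW) = P e * ((1 - w) * ω (Φ X)) := by
        rw [map_sub, PK, PKW, qΦW, sub_mul, one_mul, mul_sub]
      rw [← nP, h1]
      have := nmul (P e) ((1 - w) * ω (Φ X)) 1 _ zero_le_one nPe nE1
      rwa [one_mul] at this
    have eKW : (1 - p) * KW * (1 - p) = (1 - p) * KW := by
      have h1 : KW * (1 - p) = (1 - p) * KW := by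
        rw [mul_sub, sub_mul, one_mul, mul_one, hKW, pKW]
      rw [mul_assoc, h1, ← mul_assoc, prj1.2]
    have zKW : q * ((1 - p) * KW) * q = 0 := by
      have cpL : IsCP (conjL q ∘ₗ (conjL (1 - p) ∘ₗ (conjL m ∘ₗ (N ∘ₗ ΦW)))) :=
        (isCP_conjL _).comp ((isCP_conjL _).comp ((isCP_conjL _).comp (hN.comp cpΦW)))
      have eL : ∀ y, (conjL q ∘ₗ (conjL (1 - p) ∘ₗ (conjL m ∘ₗ (N ∘ₗ ΦW)))) y
          = q * ((1 - p) * (m * N (ΦW y) * m) * (1 - p)) * q := by
        intro y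
        show star q * (star (1 - p) * (star m * N (ΦW y) * m) * (1 - p)) * q = _
        rw [hq.1, prj1.1, sm]
      have h1 := cp_norm_le cpL X
      rw [eL, eL, ← ha, q1, zero_mul, norm_zero, zero_mul, ← hKW, eKW] at h1
      exact norm_le_zero_iff.1 h1
    -- (iii)
    have nqb : ∀ x : R, Pos x → Pos (b - x) → ‖(1 - q) * x * (1 - q)‖ ≤ δ ^ 2 := by
      intro x hx hbx
      have sq1 : star (1 - q) = 1 - q := (J_ALGA.prj_compl hq).1
      have h1 := hx.conj (1 - q)
      have h2 := hbx.conj (1 - q)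
      rw [sq1] at h1 h2
      refine (Pos.norm_le h1 ?_).trans q3
      have h3 : (1 - q) * b * (1 - q) - (1 - q) * x * (1 - q) = (1 - q) * (b - x) * (1 - q) := by
        noncomm_ring
      rw [h3]
      exact h2
    have nqp : ‖(1 - q) * p‖ ≤ δ := by
      have h1 := nqb p ppos (by rw [hb, add_sub_cancel_right]; exact pm2t)
      have h2 : (1 - q) * p * (1 - q) = ((1 - q) * p) * star ((1 - q) * p) := by
        rw [star_mul, hp.1, (J_ALGA.prj_compl hq).1, mul_assoc (1 - q) p (p * (1 - q)),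
          ← mul_assoc p p, hp.2, mul_assoc]
      rw [h2, CStarRing.norm_self_mul_star, ← pow_two] at h1
      exact (sq_le_sq₀ (norm_nonneg _) hδ.le).1 h1
    have npq : ‖p * (1 - q)‖ ≤ δ := by
      have h1 : p * (1 - q) = star ((1 - q) * p) := by
        rw [star_mul, hp.1, (J_ALGA.prj_compl hq).1]
      rw [h1, norm_star]
      exact nqp
    have nK : ‖K‖ ≤ 2 * ‖X‖ := by
      rw [← nP, PK]
      have h1 : ‖ω (Φ X)‖ ≤ 2 * ‖X‖ :=
        (nω _).trans ((cp_norm_le hΦ X).trans (mul_le_mul_of_nonneg_right nΦ1 (norm_nonneg _)))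
      have := nmul (P e) (ω (Φ X)) 1 _ zero_le_one nPe h1
      rwa [one_mul] at this
    have np := prj_norm hp
    have epK : p * K * p = p * K := by
      rw [mul_assoc, ← pK, ← mul_assoc, hp.2]
    have n3 : ‖q * (p * K) * q - p * K‖ ≤ 4 * δ * ‖X‖ := by
      have h1 : q * (p * K) * q - p * K
          = -(((1 - q) * p) * K * (p * q) + p * K * (p * (1 - q))) := by
        have h0 : ((1 - q) * p) * K * (p * q) = (1 - q) * (p * K * p) * q := by
          simp only [mul_assoc]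
        have h0' : p * K * (p * (1 - q)) = (p * K * p) * (1 - q) := by simp only [mul_assoc]
        rw [h0, h0', epK]
        noncomm_ring
      rw [h1, norm_neg]
      have h2 : ‖((1 - q) * p) * K * (p * q)‖ ≤ (δ * (2 * ‖X‖)) * (1 * 1) :=
        nmul _ _ _ _ (by positivity) (nmul _ _ _ _ hδ.le nqp nK) (nmul _ _ _ _ zero_le_one np nq)
      have h3 : ‖p * K * (p * (1 - q))‖ ≤ (1 * (2 * ‖X‖)) * δ :=
        nmul _ _ _ _ (by positivity) (nmul _ _ _ _ zero_le_one np nK) npq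
      refine (norm_add_le _ _).trans ((add_le_add h2 h3).trans (le_of_eq ?_))
      ring
    have n4 : ‖q * K * q - p * K‖ ≤ 5 * δ * ‖X‖ := by
      have h1 : q * K * q - p * K = (q * (p * K) * q - p * K) + q * ((1 - p) * (K - KW)) * q := by
        have h2 : q * ((1 - p) * (K - KW)) * q
            = q * ((1 - p) * K) * q - q * ((1 - p) * KW) * q := by
          rw [mul_sub, mul_sub, sub_mul]
        rw [h2, zKW]
        noncomm_ring
      rw [h1]
      have h3 : ‖q * ((1 - p) * (K - KW)) * q‖ ≤ (1 * (1 * (δ * ‖X‖))) * 1 :=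
        nmul _ _ _ _ (by positivity) (nmul _ _ _ _ zero_le_one nq
          (nmul _ _ _ _ zero_le_one np1 nKK)) nq
      refine (norm_add_le _ _).trans ((add_le_add n3 h3).trans (le_of_eq ?_))
      ring
    -- (iv)
    have ntgt : ‖ω (t * g * t)‖ ≤ ‖g‖ := by
      refine (nω _).trans ?_
      have := nmul (t * g) t (1 * ‖g‖) 1 (by positivity) (nmul t g 1 _ zero_le_one ht1 le_rfl) ht1
      rwa [one_mul, mul_one] at this
    have nYM : ‖Y - M‖ ≤ 3 * δ * ‖g‖ := by
      have h1 : P (Y - M) = P (n - m2 * n * m2) * ω (t * g * t) := by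
        rw [map_sub, map_sub, (HC _ (q_vtt g)).1, HM2 _ (q_vtt g), sub_mul]
      rw [← nP, h1]
      exact nmul _ _ _ _ (by positivity) ((nP _).le.trans nM) ntgt
    have cpL3 : IsCP (conjL m2 ∘ₗ (N ∘ₗ conjL t)) :=
      (isCP_conjL _).comp (hN.comp (isCP_conjL _))
    have eL3 : ∀ y, (conjL m2 ∘ₗ (N ∘ₗ conjL t)) y = m2 * N (t * y * t) * m2 := by
      intro y
      show star m2 * N (star t * y * t) * m2 = _
      rw [sm2, ht.sa]
    have nL31 : ‖(conjL m2 ∘ₗ (N ∘ₗ conjL t)) 1‖ ≤ 1 := by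
      rw [eL3, mul_one]
      have h1 : ‖N (t * t)‖ ≤ 1 := by
        refine (hNle _).trans ((nω _).trans ?_)
        have := nmul t t 1 1 zero_le_one ht1 ht1
        rwa [one_mul] at this
      have := nmul _ _ _ _ (by positivity) (nmul _ _ _ _ zero_le_one nm2 h1) nm2
      rwa [one_mul, one_mul] at this
    have hL3 : ‖(1 - q) * (conjL m2 ∘ₗ (N ∘ₗ conjL t)) 1 * (1 - q)‖ ≤ δ ^ 2 := by
      rw [eL3, mul_one]
      exact nqb _ pm2t (by rw [hb, add_sub_cancel_left]; exact ppos)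
    have n5 : ‖(1 - q) * M‖ ≤ δ * ‖g‖ := by
      have h1 := cp_cs cpL3 (J_ALGA.prj_compl hq).1 hδ.le hL3 nL31 g
      rwa [eL3] at h1
    have n6 : ‖M * (1 - q)‖ ≤ δ * ‖g‖ := by
      have h1 := cp_cs cpL3 (J_ALGA.prj_compl hq).1 hδ.le hL3 nL31 (star g)
      rw [eL3, norm_star] at h1
      have h2 : star ((1 - q) * (m2 * N (t * star g * t) * m2)) = M * (1 - q) := by
        have h3 : star (N (t * star g * t)) = N (t * g * t) := by
          let _ := CStarAlgebra.spectralOrder R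
          let _ := CStarAlgebra.spectralOrderedRing R
          rw [← hN.star_map]
          congr 1
          rw [star_mul, star_mul, star_star, ht.sa, mul_assoc]
        rw [star_mul, (J_ALGA.prj_compl hq).1, star_mul, star_mul, sm2, h3, ← mul_assoc]
      rw [← h2, norm_star]
      exact h1
    have n7 : ‖q * Y * q - Y‖ ≤ 8 * δ * ‖g‖ := by
      have h1 : q * Y * q - Y
          = -((1 - q) * M * q) - M * (1 - q) + q * (Y - M) * q - (Y - M) := by
        noncomm_ring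
      rw [h1]
      have h2 : ‖(1 - q) * M * q‖ ≤ (δ * ‖g‖) * 1 := nmul _ _ _ _ (by positivity) n5 nq
      have h3 : ‖q * (Y - M) * q‖ ≤ (1 * (3 * δ * ‖g‖)) * 1 :=
        nmul _ _ _ _ (by positivity) (nmul _ _ _ _ zero_le_one nq nYM) nq
      calc ‖-((1 - q) * M * q) - M * (1 - q) + q * (Y - M) * q - (Y - M)‖
          ≤ ‖-((1 - q) * M * q) - M * (1 - q) + q * (Y - M) * q‖ + ‖Y - M‖ := norm_sub_le _ _
        _ ≤ (‖-((1 - q) * M * q) - M * (1 - q)‖ + ‖q * (Y - M) * q‖) + ‖Y - M‖ := by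
            gcongr; exact norm_add_le _ _
        _ ≤ ((‖-((1 - q) * M * q)‖ + ‖M * (1 - q)‖) + ‖q * (Y - M) * q‖) + ‖Y - M‖ := by
            gcongr; exact norm_sub_le _ _
        _ ≤ (((δ * ‖g‖) * 1 + δ * ‖g‖) + (1 * (3 * δ * ‖g‖)) * 1) + 3 * δ * ‖g‖ := by
            rw [norm_neg]
            gcongr
        _ = 8 * δ * ‖g‖ := by ring
    -- the sum
    have key : r * ω (ΦW X) * r + P (q * (K + Y) * q) - (ω (Φ X) + P Y)
        = -(r * ((1 - w) * ω (Φ X))) + P (q * K * q - p * K) + P (q * Y * q - Y) := by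
      have h1 : P (p * K) = P p * ω (Φ X) := by
        rw [map_mul, PK, ← mul_assoc, pep]
      have h2 : ω (Φ X) = r * ω (Φ X) + P p * ω (Φ X) := by
        rw [← add_mul, prp, one_mul]
      have h3 : q * (K + Y) * q = q * K * q + q * Y * q := by
        rw [mul_add, add_mul]
      have h4 : r * ((1 - w) * ω (Φ X)) = r * ω (Φ X) - r * (w * ω (Φ X)) := by
        rw [sub_mul, one_mul, mul_sub]
      have h5 : r * ω (Φ X) = ω (Φ X) - P p * ω (Φ X) := by
        rw [eq_sub_iff_add_eq]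
        exact h2.symm
      rw [rWr, h3, map_add, map_sub, map_sub, h1, qΦW, h4, h5]
      abel
    rw [key]
    have n8 : ‖r * ((1 - w) * ω (Φ X))‖ ≤ 1 * (δ * ‖X‖) := nmul _ _ _ _ zero_le_one nr nE1
    refine (norm_add_le _ _).trans ((add_le_add (norm_add_le _ _) le_rfl).trans ?_)
    rw [norm_neg, nP, nP]
    have hX0 := norm_nonneg X
    have hg0 := norm_nonneg g
    have e12 : ε₂ = 12 * δ := by rw [hδd]; ring
    rw [e12]
    have h9 : 0 ≤ δ * ‖X‖ := by positivity
    have h10 : 0 ≤ δ * ‖g‖ := by positivity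
    nlinarith

end Pool.Agent.Helper7_ND.J_COL5
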