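import Pool.Agent.Helper7_ND.Stm9
import Pool.Agent.Helper7_ND.Rp
import Pool.Agent.Helper7_ND.J_QC

/-! # Ideals of ideals are ideals; homomorphisms factor through quotients -/

set_option autoImplicit false

open scoped Matrix.Norms.L2Operator ENNReal Matrix
open Pool.Agent.W659.EC

noncomputable section

namespace Pool.Agent.Helper7_ND.J_IDT

/-- the range of an injective homomorphism of C*-algebras is closed -/
theorem mem_range_of_approx {K E : Type} [NonUnitalCStarAlgebra K] [NonUnitalCStarAlgebra E]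
    (f : K →⋆ₙₐ[ℂ] E) (hf : Function.Injective f) (x : E)
    (h : ∀ δ : ℝ, 0 < δ → ∃ k : K, ‖f k - x‖ < δ) : ∃ k : K, f k = x := by
  have hiso : Isometry f := AddMonoidHomClass.isometry_of_norm f fun a => hom_norm f hf a
  have hcl : IsClosed (Set.range f) := hiso.isClosedEmbedding.isClosed_range
  have hx : x ∈ closure (Set.range f) := by
    rw [Metric.mem_closure_iff]
    intro δ hδ
    obtain ⟨k, hk⟩ := h δ hδ
    refine ⟨f k, ⟨k, rfl⟩, ?_⟩
    rw [dist_comm, dist_eq_norm]
    exact hk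
  rw [hcl.closure_eq] at hx
  exact hx

theorem t_IDT : StIDT := by
  intro K I E _ _ _ κ ι hκ hι
  have hinj : Function.Injective (ι.comp κ) := by
    intro a b hab
    exact hκ.inj (hι.inj hab)
  refine ⟨hinj, ?_, ?_⟩
  · intro e k
    refine mem_range_of_approx (ι.comp κ) hinj _ ?_
    intro δ hδ
    have hp : 0 < ‖e‖ + 1 := by positivity
    obtain ⟨u, -, -, hu⟩ := J_QC.exists_unit ({k} : Finset K) (δ / (2 * (‖e‖ + 1))) (by positivity)
    obtain ⟨hu1, -⟩ := hu k (Finset.mem_singleton_self k)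
    obtain ⟨i, hi⟩ := hι.left e (κ u)
    obtain ⟨k', hk'⟩ := hκ.left i k
    refine ⟨k', ?_⟩
    have e1 : (ι.comp κ) k' = e * (ι.comp κ) (u * k) := by
      rw [NonUnitalStarAlgHom.comp_apply, hk', map_mul, hi, NonUnitalStarAlgHom.comp_apply,
        map_mul, map_mul, mul_assoc]
    have e2 : (ι.comp κ) k' - e * (ι.comp κ) k = e * (ι.comp κ) (u * k - k) := by
      rw [e1, map_sub, mul_sub]
    rw [e2]
    have h1 : ‖(ι.comp κ) (u * k - k)‖ ≤ δ / (2 * (‖e‖ + 1)) := by
      rw [hom_norm _ hinj]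
      exact hu1
    calc ‖e * (ι.comp κ) (u * k - k)‖ ≤ ‖e‖ * ‖(ι.comp κ) (u * k - k)‖ := norm_mul_le _ _
      _ ≤ (‖e‖ + 1) * (δ / (2 * (‖e‖ + 1))) := by
          apply mul_le_mul (by linarith) h1 (norm_nonneg _) hp.le
      _ = δ / 2 := by field_simp
      _ < δ := by linarith
  · intro e k
    refine mem_range_of_approx (ι.comp κ) hinj _ ?_
    intro δ hδ
    have hp : 0 < ‖e‖ + 1 := by positivity
    obtain ⟨u, -, -, hu⟩ := J_QC.exists_unit ({k} : Finset K) (δ / (2 * (‖e‖ + 1))) (by positivity)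
    obtain ⟨-, hu1⟩ := hu k (Finset.mem_singleton_self k)
    obtain ⟨i, hi⟩ := hι.right e (κ u)
    obtain ⟨k', hk'⟩ := hκ.right i k
    refine ⟨k', ?_⟩
    have e1 : (ι.comp κ) k' = (ι.comp κ) (k * u) * e := by
      rw [NonUnitalStarAlgHom.comp_apply, hk', map_mul, hi, NonUnitalStarAlgHom.comp_apply,
        map_mul, map_mul, mul_assoc]
    have e2 : (ι.comp κ) k' - (ι.comp κ) k * e = (ι.comp κ) (k * u - k) * e := by
      rw [e1, map_sub, sub_mul]
    rw [e2]
    have h1 : ‖(ι.comp κ) (k * u - k)‖ ≤ δ / (2 * (‖e‖ + 1)) := by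
      rw [hom_norm _ hinj]
      exact hu1
    calc ‖(ι.comp κ) (k * u - k) * e‖ ≤ ‖(ι.comp κ) (k * u - k)‖ * ‖e‖ := norm_mul_le _ _
      _ ≤ (δ / (2 * (‖e‖ + 1))) * (‖e‖ + 1) := by
          apply mul_le_mul h1 (by linarith) (norm_nonneg _) (by positivity)
      _ = δ / 2 := by field_simp
      _ < δ := by linarith

theorem t_FAC : StFAC := by
  intro K E A D _ _ _ _ κ θ π hE hk
  have key : ∀ x y : E, θ x = θ y → π x = π y := by
    intro x y hxy
    have h0 : θ (x - y) = 0 := by rw [map_sub, hxy, sub_self]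
    obtain ⟨k, hk'⟩ := (hE.exact (x - y)).1 h0
    have h1 : π (x - y) = 0 := by rw [← hk', hk]
    rw [map_sub] at h1
    exact sub_eq_zero.1 h1
  have hs : ∀ a : A, θ (Function.surjInv hE.surj a) = a := Function.surjInv_eq hE.surj
  refine ⟨{ toFun := fun a => π (Function.surjInv hE.surj a)
            map_smul' := ?_, map_zero' := ?_, map_add' := ?_, map_mul' := ?_, map_star' := ?_ }, ?_⟩
  · intro c a
    change π _ = c • π _
    rw [← map_smul]
    apply key
    rw [hs, map_smul, hs]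
  · rw [← map_zero π]
    apply key
    rw [hs, map_zero]
  · intro a b
    rw [← map_add]
    apply key
    rw [hs, map_add, hs, hs]
  · intro a b
    change π _ = π _ * π _
    rw [← map_mul]
    apply key
    rw [hs, map_mul, hs, hs]
  · intro a
    change π _ = star (π _)
    rw [← map_star]
    apply key
    rw [hs, map_star, hs]
  · intro e
    change π _ = π _
    apply key
    rw [hs]

end Pool.Agent.Helper7_ND.J_IDT
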