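import Pool.Agent.Helper7_ND.Stm9
import Pool.Agent.Helper7_ND.J_CORE

/-
Project MP_30b5b4_an, third theorem (owner helper7): dim_nuc(E) <= max(dim_nuc(I), dim_nuc(D)) when the ideal I is an iterated extension of
algebras of real rank zero.
SETUP: in /workdir/pool/outputs/live: git fetch -q; then copy from origin/main to /workdir/pool at the same paths the whole directory
Pool/Agent/Helper7_ND/ and Pool/Agent/W659/EC/; then lake build Pool.Agent.Helper7_ND.Stm9 (and the J_*.lean you import).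
Definitions: Stm.lean (Pos, Prj, OZ, IsRow, rowMap, IsIdeal, IsExt, CutE, SpecS, StCC ...), Stm4.lean (clip, sq ...), Stm6.lean (phW),
Stm8.lean (RR0, SysH ...), Stm9.lean (LP, the
statements of these jobs), Stm5.lean (StQUO, StPRE, StCHN ...). Useful lemmas: Rp.lean (Pos.add, Pos.conj, Pos.map, Pos.sum,
Pos.smul, Pos.norm_le, IsCP.pos, conjL, hom_norm), J_WP.lean (map_cfc', cfc_sa, cfc_pos', comm_cfc, sq_mul_sq, map_sq, clip_cont,
clip_nonneg, clip_le_one), J_COL.lean (sq_lem, pos_mul, prj_norm, norm_cst), J_ALGA.lean (prj_mul_zero, conj_le, prj_compl ...),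
J_ALG2.lean (ek, eX: Cauchy-Schwarz estimates), W659/EC/CP.lean (IsCP.add/comp/sum/smul, isCP_hom, nonneg_iff_star), CP2.lean
(IsCP.schwarz, IsCP.star_map, IsCP.norm_le, IsCP.nonneg) and the proofs of the earlier theorems J_*.lean in the same directory (all
proved; import them and use their lemmas). For the order use `let _ := CStarAlgebra.spectralOrder A; let _ :=
CStarAlgebra.spectralOrderedRing A` (Pos a is then 0 <= a: Helper7_ND.pos_iff in Rp.lean). Compile with lake build (not lake env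
lean). The file will be landed, so keep to RULES.md (no banned words/characters, no double quotes), keep all helper lemmas inside the
namespace, do not change Stm*.lean. If the statement is false or lacks a hypothesis say so in note (and ask helper7).

TARGET t_LP1 : StLP1 (Stm9.lean), from StA1L, StMRG5, StRR. Compare t_CORE3 in J_CORE3.lean and t_MAIN5 in J_MAIN5.lean (short, proved). Given the extension, G, ε < ε'
and the system F, ψ, φ of D for π '' G with error ε. (1) I trivial (subsingleton): π is injective, E ≅ D, transport the system (as in J_CORE3). (2) I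
nontrivial: StRR gives SysH I J. Choose η > 0 with η <= 1, ε + 2 η + N ((1 + 3 η)^2 - 1) M <= ε' where N = card J and M bounds the norms of the elements of G
(J_CORE.choose_eps helps; or an elementary choice). StA1L gives Φ, t; StMRG5 with the down maps ψ j ∘ π, with ε := η, gives F', ψ', φ'; the error on G is
<= ε + 2 η; J_MAIN.sys_of_good with κ = 1 + 3 η gives Sys E J G ε'.
-/

set_option autoImplicit false

open scoped Matrix.Norms.L2Operator ENNReal Matrix
open Pool.Agent.W659.EC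

noncomputable section

namespace Pool.Agent.Helper7_ND.J_LP1

open J_MAIN J_CORE

theorem t_LP1 (hA1L : StA1L) (hMRG5 : StMRG5) (hRR : StRR) : StLP1 := by
  intro I _ J _ hRR0 hI E D _ _ ι π hext G ε ε' hε hεε' hD
  obtain ⟨F, ψ, φ, hψ, hφ, happ⟩ := hD
  have happ' : ∀ x ∈ G, ‖∑ j, φ j (ψ j (π x)) - π x‖ ≤ ε := fun x hx =>
    happ (π x) ⟨x, Finset.mem_coe.2 hx, rfl⟩
  rcases subsingleton_or_nontrivial I with hsub | hnt
  · -- the trivial case
    have hinj : Function.Injective π := by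
      rw [injective_iff_map_eq_zero]
      intro x hx
      obtain ⟨i, rfl⟩ := (hext.exact x).1 hx
      rw [Subsingleton.elim i 0, map_zero]
    let σ : E ≃⋆ₐ[ℂ] D := StarAlgEquiv.ofBijective π ⟨hinj, hext.surj⟩
    let σ' : D →⋆ₙₐ[ℂ] E := (σ.symm : D ≃⋆ₐ[ℂ] E)
    have hσ' : ∀ x, σ' (π x) = x := fun x => by
      change σ.symm (σ x) = x
      exact σ.symm_apply_apply x
    let P : E →ₗ[ℂ] D := (π : E →ₗ[ℂ] D)
    let P' : D →ₗ[ℂ] E := (σ' : D →ₗ[ℂ] E)
    have hP : IsCPC P := isCPC_hom π P fun _ => rfl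
    have hP' : IsCPC P' := isCPC_hom σ' P' fun _ => rfl
    refine ⟨F, fun j => ψ j ∘ₗ P, fun j => P' ∘ₗ φ j, fun j => (hψ j).comp hP,
      fun j => ⟨hP'.comp (hφ j).1, ?_⟩, fun a ha => ?_⟩
    · intro u v huv
      have := (hφ j).2 u v huv
      change σ' (φ j (star u * u)) * σ' (φ j (star v * v)) = 0
      rw [← map_mul, this, map_zero]
    · have h1 : ∑ j, (P' ∘ₗ φ j) ((ψ j ∘ₗ P) a) = σ' (∑ j, φ j (ψ j (π a))) := by
        rw [map_sum]
        rfl
      have h3 : ∑ j, (P' ∘ₗ φ j) ((ψ j ∘ₗ P) a) - a = σ' (∑ j, φ j (ψ j (π a)) - π a) := by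
        rw [h1, map_sub, hσ']
      rw [h3]
      exact (NonUnitalStarAlgHom.norm_apply_le σ' _).trans
        ((happ' a (Finset.mem_coe.1 ha)).trans hεε'.le)
  · -- the nontrivial case
    set N : ℝ := (Fintype.card J : ℝ) with hN
    set M : ℝ := ∑ x ∈ G, ‖x‖ with hM
    have hN0 : 0 ≤ N := Nat.cast_nonneg _
    have hM0 : 0 ≤ M := Finset.sum_nonneg fun x _ => norm_nonneg x
    have hGM : ∀ a ∈ G, ‖a‖ ≤ M := fun a ha =>
      Finset.single_le_sum (f := fun x => ‖x‖) (fun x _ => norm_nonneg x) ha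
    obtain ⟨e, he0, he1, he2⟩ := choose_eps hN0 hM0 (sub_pos.2 hεε')
    have hη : 0 < e / 3 := by linarith
    let P : E →ₗ[ℂ] D := (π : E →ₗ[ℂ] D)
    have hP : IsCPC P := isCPC_hom π P fun _ => rfl
    obtain ⟨Φ, t, hΦ, ht, ht1, hpos, happL⟩ :=
      hA1L I E D ι π hext J F ψ φ hψ hφ G ε (e / 3) hε hη happ'
    obtain ⟨F', ψ', φ', hψ', hφ', happM⟩ := hMRG5 I E ι (isIdeal_of_isExt hext) J
      (hRR I J hRR0 hI) F (fun j => ψ j ∘ₗ P) Φ t (e / 3) hη (by linarith)
      (fun j => (hψ j).comp hP) hΦ ht ht1 hpos G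
    have h3e : 1 + 3 * (e / 3) = 1 + e := by ring
    rw [h3e] at hψ' hφ'
    let c : J → Col E := fun j => ⟨F' j, ψ' j, φ' j⟩
    have hc : ∀ j, (c j).Good (1 + e) := fun j =>
      ⟨(hψ' j).1, (hψ' j).2, (hφ' j).1, (hφ' j).2.1, (hφ' j).2.2⟩
    refine sys_of_good (κ := 1 + e) (δ := ε + e) (M := M) (by linarith) c hc
      (fun a ha => ?_) (fun a ha => hGM a (Finset.mem_coe.1 ha)) (by linarith)
    have h1 : ‖a - ∑ j, Φ j ((ψ j ∘ₗ P) a) - ι t * a * ι t‖ ≤ ε + e / 3 :=
      happL a (Finset.mem_coe.1 ha)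
    have h2 := happM a (Finset.mem_coe.1 ha)
    have h3 : ∑ j, (c j).φ ((c j).ψ a) - a =
        -((a - ∑ j, Φ j ((ψ j ∘ₗ P) a) - ι t * a * ι t) +
          (∑ j, Φ j ((ψ j ∘ₗ P) a) + ι t * a * ι t - ∑ j, φ' j (ψ' j a))) := by
      change ∑ j, φ' j (ψ' j a) - a = _
      abel
    rw [h3, norm_neg]
    refine (norm_add_le _ _).trans ?_
    linarith

end Pool.Agent.Helper7_ND.J_LP1
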