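import Pool.Agent.Helper7_ND.Stm9
import Pool.Agent.Helper7_ND.Rp
import Pool.Agent.Helper7_ND.J_MAIN

/-! # Lifting systems along extensions of ideals -/

set_option autoImplicit false

open scoped Matrix.Norms.L2Operator ENNReal Matrix
open Pool.Agent.W659.EC

noncomputable section

namespace Pool.Agent.Helper7_ND.J_LP2

theorem isIdeal_of_isExt' {I E D : Type} [NonUnitalCStarAlgebra I] [NonUnitalCStarAlgebra E]
    [NonUnitalCStarAlgebra D] {ι : I →⋆ₙₐ[ℂ] E} {π : E →⋆ₙₐ[ℂ] D} (h : IsExt ι π) :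
    IsIdeal ι where
  inj := h.inj
  left := by
    intro e i
    refine (h.exact _).1 ?_
    rw [map_mul, (h.exact (ι i)).2 ⟨i, rfl⟩, mul_zero]
  right := by
    intro e i
    refine (h.exact _).1 ?_
    rw [map_mul, (h.exact (ι i)).2 ⟨i, rfl⟩, zero_mul]

theorem t_LP2 (hIDT : StIDT) (hFAC : StFAC) (hQUO : StQUO) : StLP2 := by
  classical
  intro K K' L _ _ _ lam ρ hlr J _ hK hL E D _ _ ι π hE G ε ε' hε hεε' hS
  have h1 : IsIdeal (ι.comp lam) :=
    hIDT K K' E lam ι (isIdeal_of_isExt' hlr) (isIdeal_of_isExt' hE)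
  obtain ⟨A, iA, θ, hθ⟩ := hQUO K E (ι.comp lam) h1
  have hπι : ∀ k', π (ι k') = 0 := fun k' => (hE.exact _).2 ⟨k', rfl⟩
  obtain ⟨π', hπ'⟩ := hFAC K E A D (ι.comp lam) θ π hθ (fun k => hπι (lam k))
  obtain ⟨j, hj⟩ := hFAC K K' L A lam ρ (θ.comp ι) hlr
    (fun k => (hθ.exact _).2 ⟨k, rfl⟩)
  have hj' : ∀ k', j (ρ k') = θ (ι k') := hj
  have hext : IsExt j π' := by
    refine ⟨?_, ?_, ?_⟩
    · rw [injective_iff_map_eq_zero]
      intro l hl
      obtain ⟨k', rfl⟩ := hlr.surj l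
      rw [hj'] at hl
      obtain ⟨k, hk⟩ := (hθ.exact _).1 hl
      have : lam k = k' := hE.inj hk
      exact (hlr.exact _).2 ⟨k, this⟩
    · intro d
      obtain ⟨e, rfl⟩ := hE.surj d
      exact ⟨θ e, hπ' e⟩
    · intro a
      obtain ⟨e, rfl⟩ := hθ.surj a
      rw [hπ']
      constructor
      · intro he
        obtain ⟨k', rfl⟩ := (hE.exact _).1 he
        exact ⟨ρ k', hj' k'⟩
      · rintro ⟨l, hl⟩
        obtain ⟨k', rfl⟩ := hlr.surj l
        rw [hj'] at hl
        have h2 : θ (e - ι k') = 0 := by rw [map_sub, hl, sub_self]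
        obtain ⟨k, hk⟩ := (hθ.exact _).1 h2
        have h3 : e = ι (lam k) + ι k' := by
          have : ι (lam k) = e - ι k' := hk
          rw [this]; abel
        rw [h3, map_add, hπι, hπι, add_zero]
  have h4 : Sys A J (((G.image θ : Finset A)) : Set A) ((ε + ε') / 2) := by
    refine hL A D j π' hext (G.image θ) ε ((ε + ε') / 2) hε (by linarith) ?_
    have h5 : (π' '' ((G.image θ : Finset A) : Set A)) = π '' (G : Set E) := by
      ext d
      simp only [Finset.coe_image, Set.mem_image]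
      constructor
      · rintro ⟨a, ⟨e, he, rfl⟩, rfl⟩
        exact ⟨e, he, (hπ' e).symm⟩
      · rintro ⟨e, he, rfl⟩
        exact ⟨θ e, ⟨e, he, rfl⟩, hπ' e⟩
    rw [h5]
    exact hS
  rw [Finset.coe_image] at h4
  exact hK E A (ι.comp lam) θ hθ G ((ε + ε') / 2) ε' (by linarith) (by linarith) h4

end Pool.Agent.Helper7_ND.J_LP2
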