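import Pool.Agent.Helper7_ND.Stm9
import Pool.Agent.Helper7_ND.Rp
import Pool.Agent.Helper7_ND.J_LFT
import Pool.Agent.Helper7_ND.J_MAIN

/-! # LP3: lifting for limits of ideals -/

set_option autoImplicit false

open scoped Matrix.Norms.L2Operator ENNReal Matrix
open Pool.Agent.W659.EC

noncomputable section

namespace Pool.Agent.Helper7_ND.J_LP3

theorem exists_le_fin {J : Type} [Finite J] (d : J → ℝ) (hd : ∀ j, 0 < d j) (e : ℝ)
    (he : 0 < e) : ∃ δ : ℝ, 0 < δ ∧ δ ≤ e ∧ ∀ j, δ ≤ d j := by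
  have h1 : ∀ᶠ x in nhdsWithin (0 : ℝ) (Set.Ioi 0), ∀ j, x ≤ d j :=
    Filter.eventually_all.2 fun j => by
      filter_upwards [Ioc_mem_nhdsGT (hd j)] with x hx using hx.2
  have h2 : ∀ᶠ x in nhdsWithin (0 : ℝ) (Set.Ioi 0), x ∈ Set.Ioc 0 e := Ioc_mem_nhdsGT he
  obtain ⟨x, hx1, hx2⟩ := (h1.and h2).exists
  exact ⟨x, hx2.1, hx2.2, hx1⟩

/-- quotients by smaller ideals -/
theorem quot_approx (hIDT : StIDT) (hFAC : StFAC) (hQUO : StQUO) (hLN : StLN)
    {I E D : Type} [NonUnitalCStarAlgebra I] [NonUnitalCStarAlgebra E]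
    [NonUnitalCStarAlgebra D] {J : Type} [Fintype J]
    (hlim : ∀ (C : Finset I) (δ : ℝ), 0 < δ → ∃ (K : Type) (_ : NonUnitalCStarAlgebra K)
      (κ : K →⋆ₙₐ[ℂ] I), IsIdeal κ ∧ LP K J ∧ ∀ c ∈ C, ∃ k : K, ‖κ k - c‖ ≤ δ)
    (ι : I →⋆ₙₐ[ℂ] E) (π : E →⋆ₙₐ[ℂ] D) (hext : IsExt ι π) (S : Set E) (hS : S.Finite)
    (δ : ℝ) (hδ : 0 < δ) :
    ∃ (K : Type) (_ : NonUnitalCStarAlgebra K) (κ : K →⋆ₙₐ[ℂ] E) (A : Type)
      (_ : NonUnitalCStarAlgebra A) (θ : E →⋆ₙₐ[ℂ] A) (ρ : A →⋆ₙₐ[ℂ] D), LP K J ∧ IsExt κ θ ∧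
      (∀ e, ρ (θ e) = π e) ∧ ∀ e ∈ S, ‖θ e‖ ≤ ‖π e‖ + δ := by
  classical
  have hsplit : ∀ e : E, ∃ i : I, ‖e - ι i‖ ≤ ‖π e‖ := by
    intro e
    obtain ⟨e', he', hn⟩ := hLN E D π e
    obtain ⟨i, hi⟩ := (hext.exact (e - e')).1 (by rw [map_sub, he', sub_self])
    refine ⟨i, ?_⟩
    rw [hi, sub_sub_cancel]
    exact hn
  choose f hf using hsplit
  obtain ⟨K, iK, κ, hκ, hLP, hC⟩ := hlim (hS.toFinset.image f) δ hδ
  have hid : IsIdeal (ι.comp κ) := hIDT K I E κ ι hκ (J_MAIN.isIdeal_of_isExt hext)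
  obtain ⟨A, iA, θ, hθ⟩ := hQUO K E (ι.comp κ) hid
  obtain ⟨ρ, hρ⟩ := hFAC K E A D (ι.comp κ) θ π hθ (fun k => (hext.exact _).2 ⟨κ k, rfl⟩)
  refine ⟨K, iK, ι.comp κ, A, iA, θ, ρ, hLP, hθ, hρ, fun e he => ?_⟩
  obtain ⟨k, hk⟩ := hC (f e) (Finset.mem_image_of_mem f (hS.mem_toFinset.2 he))
  have h0 : θ (ι (κ k)) = 0 := (hθ.exact _).2 ⟨k, rfl⟩
  have h1 : θ e = θ (e - ι (f e)) - θ (ι (κ k - f e)) := by
    rw [map_sub, map_sub ι, map_sub θ (ι (κ k)), h0]
    abel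
  rw [h1]
  refine (norm_sub_le _ _).trans (add_le_add ?_ ?_)
  · exact (NonUnitalStarAlgHom.norm_apply_le θ _).trans (hf e)
  · exact (NonUnitalStarAlgHom.norm_apply_le θ _).trans
      ((NonUnitalStarAlgHom.norm_apply_le ι _).trans hk)

theorem t_LP3 (hIDT : StIDT) (hFAC : StFAC) (hQUO : StQUO) (hLN : StLN) (hT1R : StT1R)
    (hROW : StROW) (hL1 : StL1) : StLP3 := by
  classical
  have _ := hL1
  intro I _ J _ hlim E D _ _ ι π hext G ε ε' hε hεε' hsys
  obtain ⟨F, ψ, φ, hψ, hφ, happ⟩ := hsys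
  obtain ⟨hR1, hR2, hR3⟩ := hROW
  set N : ℝ := (Fintype.card J : ℝ) with hN
  set M0 : ℝ := ∑ x ∈ G, ‖x‖ with hM0
  have hN0 : 0 ≤ N := Nat.cast_nonneg _
  have hM00 : 0 ≤ M0 := Finset.sum_nonneg fun x _ => norm_nonneg x
  have hGM : ∀ g ∈ G, ‖g‖ ≤ M0 := fun g hg =>
    Finset.single_le_sum (f := fun x => ‖x‖) (fun x _ => norm_nonneg x) hg
  have hden : 0 < 1 + 17 * N * M0 := by positivity
  set e : ℝ := min 1 ((ε' - ε) / 2 / (1 + 17 * N * M0)) with he
  have he0 : 0 < e := lt_min one_pos (div_pos (by linarith) hden)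
  have he1 : e ≤ 1 := min_le_left _ _
  have he2 : e * (1 + 17 * N * M0) ≤ (ε' - ε) / 2 := by
    have : e ≤ (ε' - ε) / 2 / (1 + 17 * N * M0) := min_le_right _ _
    rwa [le_div_iff₀ hden] at this
  -- exact rows in the quotient
  have hrows := fun j => hR3 (F j) D (φ j) e he0 (hφ j).1 (hφ j).2
  choose x k hx hk hxφ using hrows
  have hk1 : ∀ j l, ∃ b : D, k j l = star b * b := hk
  choose b hb using hk1
  have hxl : ∀ j l i, ∃ y : E, π y = x j l i := fun j l i => hext.surj _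
  choose x' hx' using hxl
  have hbl : ∀ j l, ∃ y : E, π y = b j l := fun j l => hext.surj _
  choose b' hb' using hbl
  -- bounds
  set M : ℝ := ∑ j, ∑ l, ∑ i, ‖x' j l i‖ with hM
  have hM1 : 0 ≤ M := Finset.sum_nonneg fun _ _ => Finset.sum_nonneg fun _ _ =>
    Finset.sum_nonneg fun _ _ => norm_nonneg _
  have hxM : ∀ j l i, ‖x' j l i‖ ≤ M := by
    intro j l i
    have h1 : ‖x' j l i‖ ≤ ∑ i, ‖x' j l i‖ :=
      Finset.single_le_sum (f := fun i => ‖x' j l i‖) (fun _ _ => norm_nonneg _)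
        (Finset.mem_univ i)
    have h2 : ∑ i, ‖x' j l i‖ ≤ ∑ l, ∑ i, ‖x' j l i‖ :=
      Finset.single_le_sum (f := fun l => ∑ i, ‖x' j l i‖)
        (fun _ _ => Finset.sum_nonneg fun _ _ => norm_nonneg _) (Finset.mem_univ l)
    have h3 : ∑ l, ∑ i, ‖x' j l i‖ ≤ M :=
      Finset.single_le_sum (f := fun j => ∑ l, ∑ i, ‖x' j l i‖)
        (fun _ _ => Finset.sum_nonneg fun _ _ => Finset.sum_nonneg fun _ _ => norm_nonneg _)
        (Finset.mem_univ j)
    exact h1.trans (h2.trans h3)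
  have hd : ∀ j, 0 < J_LFT.nE (F j) * (2 * M + 1) + 1 := fun j => by
    have := J_LFT.nE_nonneg (F j)
    positivity
  have hT0 := fun j => hT1R (F j) (min 1 (e / (J_LFT.nE (F j) * (2 * M + 1) + 1)))
    (lt_min one_pos (div_pos he0 (hd j)))
  choose δ hδ hT using hT0
  obtain ⟨δ0, hδ0, hδe, hδj⟩ := exists_le_fin δ hδ e he0
  -- the finite set of elements with controlled images
  let f1 : (Σ j : J, Σ l : (F j).ι, (F j).n l) → E := fun p =>
    star (x' p.1 p.2.1 p.2.2) * x' p.1 p.2.1 p.2.2 - star (b' p.1 p.2.1) * b' p.1 p.2.1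
  let f2 : (Σ j : J, (Σ l : (F j).ι, (F j).n l) × (Σ l : (F j).ι, (F j).n l)) → E := fun p =>
    star (x' p.1 p.2.1.1 p.2.1.2) * x' p.1 p.2.2.1 p.2.2.2
  let f3 : J → E := fun j => rowMap (F j) (x' j) 1
  let f4 : E → E := fun g => ∑ j, rowMap (F j) (x' j) (ψ j (π g)) - g
  have hSfin : (Set.range f1 ∪ Set.range f2 ∪ Set.range f3 ∪ f4 '' (G : Set E)).Finite :=
    (((Set.finite_range f1).union (Set.finite_range f2)).union (Set.finite_range f3)).union
      (G.finite_toSet.image f4)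
  obtain ⟨K, iK, κ, A, iA, θ, ρ, hLP, hθ, hρ, hS⟩ := quot_approx hIDT hFAC hQUO hLN hlim ι π hext
    _ hSfin δ0 hδ0
  have hrow : ∀ j, IsRow (F j) (fun l i => θ (x' j l i))
      (fun l => θ (star (b' j l) * b' j l)) (δ j) := by
    intro j
    refine ⟨fun l i => ?_, fun l i i' hi => ?_, fun l l' i i' hl => ?_⟩
    · have h1 := hS (f1 ⟨j, l, i⟩) (Or.inl (Or.inl (Or.inl ⟨_, rfl⟩)))
      have h2 : π (f1 ⟨j, l, i⟩) = star (x j l i) * x j l i - k j l := by
        simp only [f1]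
        rw [map_sub, map_mul, map_star, map_mul, map_star, hx', hb', hb]
      have h3 : θ (f1 ⟨j, l, i⟩) =
          star (θ (x' j l i)) * θ (x' j l i) - θ (star (b' j l) * b' j l) := by
        simp only [f1]
        rw [map_sub, map_mul, map_star]
      rw [h2, h3] at h1
      have h4 := (hx j).1 l i
      linarith [hδj j]
    · have h1 := hS (f2 ⟨j, ⟨l, i⟩, ⟨l, i'⟩⟩) (Or.inl (Or.inl (Or.inr ⟨_, rfl⟩)))
      have h2 : π (f2 ⟨j, ⟨l, i⟩, ⟨l, i'⟩⟩) = star (x j l i) * x j l i' := by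
        simp only [f2]
        rw [map_mul, map_star, hx', hx']
      have h3 : θ (f2 ⟨j, ⟨l, i⟩, ⟨l, i'⟩⟩) = star (θ (x' j l i)) * θ (x' j l i') := by
        simp only [f2]
        rw [map_mul, map_star]
      rw [h2, h3] at h1
      have h4 := (hx j).2.1 l i i' hi
      linarith [hδj j]
    · have h1 := hS (f2 ⟨j, ⟨l, i⟩, ⟨l', i'⟩⟩) (Or.inl (Or.inl (Or.inr ⟨_, rfl⟩)))
      have h2 : π (f2 ⟨j, ⟨l, i⟩, ⟨l', i'⟩⟩) = star (x j l i) * x j l' i' := by
        simp only [f2]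
        rw [map_mul, map_star, hx', hx']
      have h3 : θ (f2 ⟨j, ⟨l, i⟩, ⟨l', i'⟩⟩) = star (θ (x' j l i)) * θ (x' j l' i') := by
        simp only [f2]
        rw [map_mul, map_star]
      rw [h2, h3] at h1
      have h4 := (hx j).2.2 l l' i i' hl
      linarith [hδj j]
  have hz0 := fun j => hT j A _ _
    (fun l => (⟨θ (b' j l), by rw [map_mul, map_star]⟩ : Pos (θ (star (b' j l) * b' j l))))
    (hrow j)
  choose z k' hz hzp hzx hzc using hz0
  -- the row maps of the exact rows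
  have hdiff : ∀ j y, ‖rowMap (F j) (z j) y - rowMap (F j) (fun l i => θ (x' j l i)) y‖ ≤
      e * ‖y‖ := by
    intro j y
    have h1 := J_LFT.rowMap_sub_le (F j) (z j) (fun l i => θ (x' j l i))
      (min 1 (e / (J_LFT.nE (F j) * (2 * M + 1) + 1))) M
      (lt_min one_pos (div_pos he0 (hd j))).le (min_le_left _ _) hM1 (hzx j)
      (fun l i => (NonUnitalStarAlgHom.norm_apply_le θ _).trans (hxM j l i)) y
    refine h1.trans (mul_le_mul_of_nonneg_right ?_ (norm_nonneg y))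
    have h2 : min 1 (e / (J_LFT.nE (F j) * (2 * M + 1) + 1)) ≤
        e / (J_LFT.nE (F j) * (2 * M + 1) + 1) := min_le_right _ _
    have h3 := J_LFT.nE_nonneg (F j)
    have h4 : 0 ≤ J_LFT.nE (F j) * (2 * M + 1) := by positivity
    calc J_LFT.nE (F j) * ((2 * M + 1) * min 1 (e / (J_LFT.nE (F j) * (2 * M + 1) + 1)))
        = (J_LFT.nE (F j) * (2 * M + 1)) * min 1 (e / (J_LFT.nE (F j) * (2 * M + 1) + 1)) := by
          ring
      _ ≤ (J_LFT.nE (F j) * (2 * M + 1)) * (e / (J_LFT.nE (F j) * (2 * M + 1) + 1)) :=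
          mul_le_mul_of_nonneg_left h2 h4
      _ ≤ e := by
          rw [← mul_div_assoc, div_le_iff₀ (hd j)]
          nlinarith
  have hθx : ∀ j y, rowMap (F j) (fun l i => θ (x' j l i)) y = θ (rowMap (F j) (x' j) y) :=
    fun j y => (J_LFT.rowMap_lift θ (F j) (x' j) _ (fun _ _ => rfl) y).symm
  have hπx : ∀ j y, π (rowMap (F j) (x' j) y) = rowMap (F j) (x j) y :=
    fun j y => J_LFT.rowMap_lift π (F j) (x' j) _ (fun l i => hx' j l i) y
  -- norms of the row maps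
  have hz1 : ∀ j, ‖rowMap (F j) (z j) 1‖ ≤ 1 + 3 * e := by
    intro j
    have h0 := J_LFT.one_norm_le (F j)
    have h1 := hdiff j 1
    rw [hθx] at h1
    have h2 : ‖θ (rowMap (F j) (x' j) 1)‖ ≤ ‖rowMap (F j) (x j) 1‖ + δ0 := by
      have := hS (f3 j) (Or.inl (Or.inr ⟨_, rfl⟩))
      simp only [f3] at this
      rwa [hπx] at this
    have h3 : ‖rowMap (F j) (x j) 1‖ ≤ 1 + e := by
      have h4 := hxφ j 1
      have h5 := (hφ j).1.2 1
      have h6 : rowMap (F j) (x j) 1 = (rowMap (F j) (x j) 1 - φ j 1) + φ j 1 := by abel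
      rw [h6]
      refine (norm_add_le _ _).trans ?_
      nlinarith
    have h7 : rowMap (F j) (z j) 1 =
        (rowMap (F j) (z j) 1 - θ (rowMap (F j) (x' j) 1)) + θ (rowMap (F j) (x' j) 1) := by abel
    rw [h7]
    refine (norm_add_le _ _).trans ?_
    nlinarith
  have hsysA : Sys A J (θ '' (G : Set E)) ((ε + ε') / 2) := by
    let P : A →ₗ[ℂ] D := (ρ : A →ₗ[ℂ] D)
    have hP : IsCPC P := isCPC_hom ρ P fun _ => rfl
    refine J_MAIN.sys_of_good (κ := 1 + 3 * e) (δ := ε + (1 + 2 * N * M0) * e) (M := M0)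
      (by linarith)
      (fun j => (⟨F j, ψ j ∘ₗ P, rowMap (F j) (z j)⟩ : J_MAIN.Col A)) (fun j => ?_) ?_ ?_ ?_
    · refine ⟨(hψ j).1.comp hP.1, fun a => ?_, hR1 (F j) A (z j), hR2 (F j) A (z j) (k' j) (hz j),
        fun y => ?_⟩
      · refine (((hψ j).comp hP).2 a).trans ?_
        nlinarith [norm_nonneg a]
      · let _ := CStarAlgebra.spectralOrder A
        let _ := CStarAlgebra.spectralOrderedRing A
        exact ((hR1 (F j) A (z j)).norm_le y).trans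
          (mul_le_mul_of_nonneg_right (hz1 j) (norm_nonneg y))
    · rintro _ ⟨g, hg, rfl⟩
      change ‖∑ j, rowMap (F j) (z j) (ψ j (ρ (θ g))) - θ g‖ ≤ _
      rw [hρ]
      have hgM := hGM g (Finset.mem_coe.1 hg)
      have hψn : ∀ j, ‖ψ j (π g)‖ ≤ M0 := fun j =>
        ((hψ j).2 _).trans ((NonUnitalStarAlgHom.norm_apply_le π g).trans hgM)
      have h1 : ∑ j, rowMap (F j) (z j) (ψ j (π g)) - θ g =
          ∑ j, (rowMap (F j) (z j) (ψ j (π g)) -
            rowMap (F j) (fun l i => θ (x' j l i)) (ψ j (π g))) + θ (f4 g) := by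
        simp only [f4]
        rw [Finset.sum_sub_distrib, map_sub, map_sum]
        simp only [hθx]
        abel
      have h2 : ‖∑ j, (rowMap (F j) (z j) (ψ j (π g)) -
            rowMap (F j) (fun l i => θ (x' j l i)) (ψ j (π g)))‖ ≤ N * (e * M0) := by
        refine (norm_sum_le _ _).trans ?_
        have h3 : ∀ j ∈ (Finset.univ : Finset J), ‖rowMap (F j) (z j) (ψ j (π g)) -
            rowMap (F j) (fun l i => θ (x' j l i)) (ψ j (π g))‖ ≤ e * M0 := fun j _ =>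
          (hdiff j _).trans (mul_le_mul_of_nonneg_left (hψn j) he0.le)
        refine (Finset.sum_le_sum h3).trans ?_
        rw [Finset.sum_const, nsmul_eq_mul, Finset.card_univ]
      have h4 : ‖θ (f4 g)‖ ≤ ‖π (f4 g)‖ + δ0 := hS _ (Or.inr ⟨g, hg, rfl⟩)
      have h5 : ‖π (f4 g)‖ ≤ ε + N * (e * M0) := by
        have h6 : π (f4 g) = (∑ j, φ j (ψ j (π g)) - π g) +
            ∑ j, (rowMap (F j) (x j) (ψ j (π g)) - φ j (ψ j (π g))) := by
          simp only [f4]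
          rw [Finset.sum_sub_distrib, map_sub, map_sum]
          simp only [hπx]
          abel
        rw [h6]
        refine (norm_add_le _ _).trans (add_le_add (happ _ ⟨g, hg, rfl⟩) ?_)
        refine (norm_sum_le _ _).trans ?_
        have h3 : ∀ j ∈ (Finset.univ : Finset J), ‖rowMap (F j) (x j) (ψ j (π g)) -
            φ j (ψ j (π g))‖ ≤ e * M0 := fun j _ =>
          (hxφ j _).trans (mul_le_mul_of_nonneg_left (hψn j) he0.le)
        refine (Finset.sum_le_sum h3).trans ?_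
        rw [Finset.sum_const, nsmul_eq_mul, Finset.card_univ]
      rw [h1]
      refine (norm_add_le _ _).trans ?_
      nlinarith
    · rintro _ ⟨g, hg, rfl⟩
      exact (NonUnitalStarAlgHom.norm_apply_le θ g).trans (hGM g (Finset.mem_coe.1 hg))
    · rw [← hN]
      have h1 : (1 + 3 * e) ^ 2 - 1 ≤ 15 * e := by nlinarith
      have h2 : N * ((1 + 3 * e) ^ 2 - 1) * M0 ≤ N * (15 * e) * M0 :=
        mul_le_mul_of_nonneg_right (mul_le_mul_of_nonneg_left h1 hN0) hM00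
      calc ε + (1 + 2 * N * M0) * e + N * ((1 + 3 * e) ^ 2 - 1) * M0
          ≤ ε + (1 + 2 * N * M0) * e + N * (15 * e) * M0 := by linarith
        _ = ε + e * (1 + 17 * N * M0) := by ring
        _ ≤ (ε + ε') / 2 := by linarith
  exact hLP E A κ θ hθ G ((ε + ε') / 2) ε' (by linarith) (by linarith) hsysA

end Pool.Agent.Helper7_ND.J_LP3
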