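import Pool.Agent.Helper7_ND.Stm9
import Pool.Agent.Helper7_ND.J_DS

set_option autoImplicit false

open scoped Matrix.Norms.L2Operator ENNReal Matrix
open Pool.Agent.W659.EC

noncomputable section

namespace Pool.Agent.Helper7_ND.J_LPC

open Pool.Agent.Helper7_ND.J_DS

theorem t_LPC (hLP3 : StLP3) : StLPC := by
  classical
  intro E _ J _ c hc hn h
  let U : NonUnitalStarSubalgebra ℂ E := uni c hc hn (fun S hS => by
    obtain ⟨K, i, κ, h1, h2, _⟩ := h S hS
    exact ⟨K, i, κ, h1, h2⟩)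
  let T : NonUnitalStarSubalgebra ℂ E := U.topologicalClosure
  have hT : (T : Set E) = closure (⋃₀ c) := rfl
  have hTc : IsClosed (T : Set E) := by
    rw [hT]
    exact isClosed_closure
  let κ : T →⋆ₙₐ[ℂ] E := NonUnitalStarSubalgebraClass.subtype T
  have hκ : ∀ x : T, κ x = (x : E) := fun _ => rfl
  have hsub : ∀ S ∈ c, S ⊆ (T : Set E) := by
    intro S hS x hx
    rw [hT]
    exact subset_closure ⟨S, hS, hx⟩
  refine ⟨T, inferInstance, κ, ?_, ?_, ?_⟩
  · refine ⟨Subtype.val_injective, ?_, ?_⟩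
    · intro e x
      have hx : (x : E) ∈ closure (⋃₀ c) := x.2
      have : e * (x : E) ∈ closure (⋃₀ c) := by
        refine map_mem_closure (f := fun y => e * y) (continuous_const.mul continuous_id) hx ?_
        rintro y ⟨S, hS, hy⟩
        obtain ⟨K, _, κ', hκ', hr, _⟩ := h S hS
        refine ⟨S, hS, ?_⟩
        rw [← hr] at hy ⊢
        obtain ⟨z, rfl⟩ := hy
        exact hκ'.left e z
      exact ⟨⟨_, this⟩, rfl⟩
    · intro e x
      have hx : (x : E) ∈ closure (⋃₀ c) := x.2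
      have : (x : E) * e ∈ closure (⋃₀ c) := by
        refine map_mem_closure (f := fun y => y * e) (continuous_id.mul continuous_const) hx ?_
        rintro y ⟨S, hS, hy⟩
        obtain ⟨K, _, κ', hκ', hr, _⟩ := h S hS
        refine ⟨S, hS, ?_⟩
        rw [← hr] at hy ⊢
        obtain ⟨z, rfl⟩ := hy
        exact hκ'.right e z
      exact ⟨⟨_, this⟩, rfl⟩
  · ext e
    constructor
    · rintro ⟨x, rfl⟩
      exact x.2
    · intro he
      exact ⟨⟨e, he⟩, rfl⟩
  · refine hLP3 T J ?_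
    intro G δ hδ
    obtain ⟨S, hS, hG⟩ := chain_fin c hc hn (fun x : T => (x : E)) (fun x => x.2) G δ hδ
    obtain ⟨K, iK, κ', hκ', hr, hLP⟩ := h S hS
    have hmem : ∀ x, κ' x ∈ T := fun x => hsub S hS (by rw [← hr]; exact ⟨x, rfl⟩)
    let ι : K →⋆ₙₐ[ℂ] T := NonUnitalStarAlgHom.codRestrict κ' T hmem
    have hι : ∀ x, ((ι x : T) : E) = κ' x := fun _ => rfl
    refine ⟨K, iK, ι, ⟨?_, ?_, ?_⟩, hLP, ?_⟩
    · intro x y hxy
      refine hκ'.inj ?_
      rw [← hι, ← hι, hxy]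
    · intro e y
      obtain ⟨z, hz⟩ := hκ'.left (e : E) y
      refine ⟨z, ?_⟩
      apply Subtype.ext
      rw [hι, hz]
      rfl
    · intro e y
      obtain ⟨z, hz⟩ := hκ'.right (e : E) y
      refine ⟨z, ?_⟩
      apply Subtype.ext
      rw [hι, hz]
      rfl
    · intro g hg
      obtain ⟨a, ha, hga⟩ := hG g hg
      rw [← hr] at ha
      obtain ⟨k, rfl⟩ := ha
      refine ⟨k, ?_⟩
      calc ‖ι k - g‖ = ‖κ' k - (g : E)‖ := rfl
        _ = ‖(g : E) - κ' k‖ := norm_sub_rev _ _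
        _ ≤ δ := hga

end Pool.Agent.Helper7_ND.J_LPC
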