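import Pool.Agent.Helper7_ND.Stm8
import Pool.Agent.Helper7_ND.J_CORE

/-
Project MP_30b5b4_an, third theorem (owner helper7): dim_nuc(E) <= max(dim_nuc(I), dim_nuc(D)) when the ideal I has real rank zero.
SETUP: in /workdir/pool/outputs/live: git fetch -q; then copy from origin/main to /workdir/pool at the same paths the whole directory
Pool/Agent/Helper7_ND/ and Pool/Agent/W659/EC/; then lake build Pool.Agent.Helper7_ND.Stm8 (and the J_*.lean you import).
Definitions: Stm.lean (Pos, Prj, OZ, IsRow, rowMap, IsIdeal, IsExt, CutE, SpecS, StCC ...), Stm4.lean (clip, sq ...), Stm6.lean (phW),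
Stm8.lean (RR0, SysH, ramp, mA, wF and the statements of these jobs). Useful lemmas: Rp.lean (Pos.add, Pos.conj, Pos.map, Pos.sum,
Pos.smul, Pos.norm_le, IsCP.pos, conjL, hom_norm), J_WP.lean (map_cfc', cfc_sa, cfc_pos', comm_cfc, sq_mul_sq, map_sq, clip_cont,
clip_nonneg, clip_le_one), J_COL.lean (sq_lem, pos_mul, prj_norm, norm_cst), J_ALGA.lean (prj_mul_zero, conj_le, prj_compl ...),
J_ALG2.lean (ek, eX: Cauchy-Schwarz estimates), W659/EC/CP.lean (IsCP.add/comp/sum/smul, isCP_hom, nonneg_iff_star), CP2.lean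
(IsCP.schwarz, IsCP.star_map, IsCP.norm_le, IsCP.nonneg) and the proofs of the earlier theorems J_*.lean in the same directory (all
proved; import them and use their lemmas). For the order use `let _ := CStarAlgebra.spectralOrder A; let _ :=
CStarAlgebra.spectralOrderedRing A` (Pos a is then 0 <= a: Helper7_ND.pos_iff in Rp.lean). Compile with lake build (not lake env
lean). The file will be landed, so keep to RULES.md (no banned words/characters, no double quotes), keep all helper lemmas inside the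
namespace, do not change Stm*.lean. If the statement is false or lacks a hypothesis say so in note (and ask helper7).

TARGET t_MAIN5 : StMAIN5 (Stm8.lean), from StA1, StMRG5, StRR. Adapt t_CORE3 in J_CORE3.lean (short file; same structure: trivial I - use the system of D
transported along π - and nontrivial I): in the nontrivial case StRR gives SysH I J; StA1 (Stm.lean; it is for an arbitrary set J of colours) gives
F, ψ, Φ, t for G and ε₀; StMRG5 gives F', ψ', φ' with norms <= 1 + 3 ε₀ and error <= ε₀ + ε₀ on G; conclude by J_MAIN.sys_of_good and J_CORE.choose_eps with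
κ = 1 + e, where 3 ε₀ <= e. In the trivial case SysAll D J directly.
-/

set_option autoImplicit false

open scoped Matrix.Norms.L2Operator ENNReal Matrix
open Pool.Agent.W659.EC

noncomputable section

namespace Pool.Agent.Helper7_ND.J_MAIN5

open J_MAIN J_CORE

theorem t_MAIN5 (hA1 : StA1) (hMRG5 : StMRG5) (hRR : StRR) : StMAIN5 := by
  intro I E D _ _ _ ι π hext hRR0 J _ hI hD G ε hε
  set N : ℝ := (Fintype.card J : ℝ) with hN
  set M : ℝ := ∑ x ∈ G, ‖x‖ with hM
  have hN0 : 0 ≤ N := Nat.cast_nonneg _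
  have hM0 : 0 ≤ M := Finset.sum_nonneg fun x _ => norm_nonneg x
  have hGM : ∀ a ∈ G, ‖a‖ ≤ M := fun a ha =>
    Finset.single_le_sum (f := fun x => ‖x‖) (fun x _ => norm_nonneg x) ha
  obtain ⟨e, he0, he1, he2⟩ := choose_eps hN0 hM0 hε
  rcases subsingleton_or_nontrivial I with hsub | hnt
  · -- the trivial case
    have hinj : Function.Injective π := by
      rw [injective_iff_map_eq_zero]
      intro x hx
      obtain ⟨i, rfl⟩ := (hext.exact x).1 hx
      rw [Subsingleton.elim i 0, map_zero]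
    let σ : E ≃⋆ₐ[ℂ] D := StarAlgEquiv.ofBijective π ⟨hinj, hext.surj⟩
    let σ' : D →⋆ₙₐ[ℂ] E := (σ.symm : D ≃⋆ₐ[ℂ] E)
    have hσ' : ∀ x, σ' (π x) = x := fun x => by
      change σ.symm (σ x) = x
      exact σ.symm_apply_apply x
    classical
    obtain ⟨F, ψ, φ, hψ, hφ, happ⟩ := hD (G.image π) e he0
    let P : E →ₗ[ℂ] D := (π : E →ₗ[ℂ] D)
    let P' : D →ₗ[ℂ] E := (σ' : D →ₗ[ℂ] E)
    have hP : IsCPC P := isCPC_hom π P fun _ => rfl
    have hP' : IsCPC P' := isCPC_hom σ' P' fun _ => rfl
    let c : J → Col E := fun j => ⟨F j, ψ j ∘ₗ P, P' ∘ₗ φ j⟩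
    have hc : ∀ j, (c j).Good (1 + e) := by
      intro j
      refine ⟨(hψ j).1.comp hP.1, fun y => ?_, hP'.1.comp (hφ j).1.1, ?_, fun y => ?_⟩
      · have h1 := ((hψ j).comp hP).2 y
        have h2 := norm_nonneg y
        have h3 : ‖y‖ ≤ (1 + e) * ‖y‖ := by nlinarith
        exact h1.trans h3
      · intro u v huv
        have := (hφ j).2 u v huv
        change σ' (φ j (star u * u)) * σ' (φ j (star v * v)) = 0
        rw [← map_mul, this, map_zero]
      · have h1 := (hP'.comp (hφ j).1).2 y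
        have h2 := norm_nonneg y
        have h3 : ‖y‖ ≤ (1 + e) * ‖y‖ := by nlinarith
        exact h1.trans h3
    refine sys_of_good (κ := 1 + e) (δ := e) (M := M) (by linarith) c hc (fun a ha => ?_)
      (fun a ha => hGM a (Finset.mem_coe.1 ha)) he2
    have h1 : ∑ j, (c j).φ ((c j).ψ a) = σ' (∑ j, φ j (ψ j (π a))) := by
      rw [map_sum]
      rfl
    have h3 : ∑ j, (c j).φ ((c j).ψ a) - a = σ' (∑ j, φ j (ψ j (π a)) - π a) := by
      rw [h1, map_sub, hσ']
    rw [h3]
    refine (NonUnitalStarAlgHom.norm_apply_le σ' _).trans (happ _ ?_)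
    exact Finset.mem_coe.2 (Finset.mem_image_of_mem _ (Finset.mem_coe.1 ha))
  · -- the nontrivial case
    have hε₀ : 0 < e / 3 := by linarith
    obtain ⟨F, ψ, Φ, t, hψ, hΦ, ht, ht1, hpos, happ⟩ := hA1 I E D ι π hext J hD G (e / 3) hε₀
    obtain ⟨F', ψ', φ', hψ', hφ', happ'⟩ := hMRG5 I E ι (isIdeal_of_isExt hext) J
      (hRR I J hRR0 hI) F ψ Φ t (e / 3) hε₀ (by linarith) hψ hΦ ht ht1 hpos G
    have h3e : 1 + 3 * (e / 3) = 1 + e := by ring
    rw [h3e] at hψ' hφ'
    let c : J → Col E := fun j => ⟨F' j, ψ' j, φ' j⟩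
    have hc : ∀ j, (c j).Good (1 + e) := fun j =>
      ⟨(hψ' j).1, (hψ' j).2, (hφ' j).1, (hφ' j).2.1, (hφ' j).2.2⟩
    refine sys_of_good (κ := 1 + e) (δ := e) (M := M) (by linarith) c hc
      (fun a ha => ?_) (fun a ha => hGM a (Finset.mem_coe.1 ha)) he2
    have h1 := happ a (Finset.mem_coe.1 ha)
    have h2 := happ' a (Finset.mem_coe.1 ha)
    have h3 : ∑ j, (c j).φ ((c j).ψ a) - a =
        -((a - ∑ j, Φ j (ψ j a) - ι t * a * ι t) +
          (∑ j, Φ j (ψ j a) + ι t * a * ι t - ∑ j, φ' j (ψ' j a))) := by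
      change ∑ j, φ' j (ψ' j a) - a = _
      abel
    rw [h3, norm_neg]
    refine (norm_add_le _ _).trans ?_
    linarith

end Pool.Agent.Helper7_ND.J_MAIN5
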