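import Pool.Agent.Helper7_ND.Stm9
import Pool.Agent.Helper7_ND.J_MAIN3

set_option autoImplicit false

open scoped Matrix.Norms.L2Operator ENNReal Matrix
open Pool.Agent.W659.EC

noncomputable section

namespace Pool.Agent.Helper7_ND.J_MAIN6

/-- the zero algebra has real rank zero -/
theorem rr0_of_subsingleton (K : Type) [NonUnitalCStarAlgebra K] [Subsingleton K] : RR0 K := by
  intro a ε _ hε
  refine ⟨0, fun i => i.elim0, fun i => i.elim0, fun i => i.elim0, fun i => i.elim0, ?_⟩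
  have h : (∑ i : Fin 0, ((i.elim0 : ℝ) : ℂ) • (i.elim0 : K)) - a = 0 := Subsingleton.elim _ _
  rw [h, norm_zero]
  exact hε.le

/-- the zero algebra has coloured approximations -/
theorem sysAll_of_subsingleton (K : Type) [NonUnitalCStarAlgebra K] [Subsingleton K] (J : Type)
    [Fintype J] : SysAll K J := by
  intro G ε hε
  let F0 : FDA := { ι := Empty, n := fun _ => Unit }
  refine ⟨fun _ => F0, fun _ => 0, fun _ => 0, fun _ => ⟨IsCP.zero, fun a => ?_⟩,
    fun _ => ⟨⟨IsCP.zero, fun a => ?_⟩, ?_⟩, fun a _ => ?_⟩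
  · rw [LinearMap.zero_apply, norm_zero]
    exact norm_nonneg _
  · rw [LinearMap.zero_apply, norm_zero]
    exact norm_nonneg _
  · intro x y _
    exact Subsingleton.elim _ _
  · have h : (∑ j : J, (0 : F0.alg →ₗ[ℂ] K) ((0 : K →ₗ[ℂ] F0.alg) a)) - a = 0 :=
      Subsingleton.elim _ _
    rw [h, norm_zero]
    exact hε.le

/-- the ideal generated by zero is zero -/
theorem subsingleton_of_closure (A K : Type) [NonUnitalCStarAlgebra A] [NonUnitalCStarAlgebra K]
    (κ : K →⋆ₙₐ[ℂ] A) (hκ : IsIdeal κ)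
    (h : ∀ k, κ k ∈ closure (Submodule.span ℂ {z : A | ∃ x y : A, z = x * 0 * y} : Set A)) :
    Subsingleton K := by
  have h0 : ({z : A | ∃ x y : A, z = x * 0 * y} : Set A) = {0} := by
    ext z
    constructor
    · rintro ⟨x, y, rfl⟩
      rw [mul_zero, zero_mul]
      rfl
    · intro hz
      rw [Set.mem_singleton_iff] at hz
      exact ⟨0, 0, by rw [hz, mul_zero]⟩
  have h1 : ∀ k, κ k = 0 := by
    intro k
    have := h k
    rw [h0, Submodule.span_singleton_eq_bot.2 rfl, Submodule.bot_coe, closure_singleton] at this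
    exact this
  exact ⟨fun x y => hκ.inj (by rw [h1 x, h1 y])⟩

theorem t_MAIN6 (hND : StND) (hIG : StIG) (hQUO : StQUO) (hPRE : StPRE) (hLP1 : StLP1)
    (hLP2 : StLP2) (hLP3 : StLP3) (hLPC : StLPC) : StMAIN6 := by
  intro I E D _ _ _ ι π hext N hDN hI
  classical
  by_cases htop : N = ⊤
  · rw [htop]
    exact le_top
  obtain ⟨M, hM⟩ := ENat.ne_top_iff_exists.1 htop
  subst hM
  have sD := hND.1 D M hDN
  have hfin : SysAll E (Option (Fin M)) → nucDim E ≤ (M : ℕ∞) := by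
    intro sE
    have := hND.2 E (Fin M) sE
    rwa [Fintype.card_fin] at this
  apply hfin
  -- the zero ideal
  obtain ⟨K₀, iK₀, κ₀, hκ₀, -, hc₀⟩ := hIG I 0
  have : Subsingleton K₀ := subsingleton_of_closure I K₀ κ₀ hκ₀ hc₀
  have L₀ : LP K₀ (Option (Fin M)) :=
    hLP1 K₀ _ (rr0_of_subsingleton K₀) (sysAll_of_subsingleton K₀ _)
  obtain ⟨m, hm0, hm⟩ := zorn_subset_nonempty
    {S : Set I | ∃ (K : Type) (_ : NonUnitalCStarAlgebra K) (κ : K →⋆ₙₐ[ℂ] I), IsIdeal κ ∧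
      Set.range κ = S ∧ LP K (Option (Fin M))}
    (by
      intro c hc hch hne
      obtain ⟨K, iK, κ, h1, h2, h3⟩ := hLPC I (Option (Fin M)) c hch hne (fun S hS => hc hS)
      exact ⟨closure (⋃₀ c), ⟨K, iK, κ, h1, h2, h3⟩, fun S hS =>
        (Set.subset_sUnion_of_mem hS).trans subset_closure⟩)
    (Set.range κ₀) ⟨K₀, iK₀, κ₀, hκ₀, rfl, L₀⟩
  obtain ⟨K, iK, κ, hκ, hrκ, LK⟩ := hm.prop
  have hsur : Function.Surjective κ := by
    by_contra hns
    obtain ⟨A, iA, θ, hθ⟩ := hQUO K I κ hκ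
    have hnt : Nontrivial A := by
      unfold Function.Surjective at hns
      push Not at hns
      obtain ⟨e, he⟩ := hns
      refine ⟨θ e, 0, fun h => ?_⟩
      obtain ⟨x, hx⟩ := (hθ.exact e).1 h
      exact he x hx
    obtain ⟨L, iL, j, hj, hntL, hRR, hLN⟩ := hI A θ hθ.surj hnt
    have sL := hND.1 L M hLN
    have LL : LP L (Option (Fin M)) := hLP1 L _ hRR sL
    obtain ⟨K', iK', κ', ρ, lam, hκ', hext', hlam, hρ, hran⟩ := hPRE K I A L κ θ j hθ hj
    have LK' : LP K' (Option (Fin M)) := hLP2 K K' L lam ρ hext' _ LK LL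
    have hsub : Set.range κ ⊆ Set.range κ' := by
      rintro e ⟨k, rfl⟩
      exact ⟨lam k, hlam k⟩
    have hle : Set.range κ' ≤ m := hm.le_of_ge ⟨K', iK', κ', hκ', rfl, LK'⟩ (by
      rw [← hrκ]; exact hsub)
    rw [← hrκ] at hle
    obtain ⟨x, hx⟩ := exists_ne (0 : L)
    obtain ⟨e, he⟩ := hθ.surj (j x)
    obtain ⟨k', hk'⟩ := (hran e).2 ⟨x, he.symm⟩
    obtain ⟨k, hk⟩ := hle ⟨k', hk'⟩
    have h0 : θ e = 0 := (hθ.exact e).2 ⟨k, hk⟩
    rw [he] at h0
    exact hx (hj.inj (by rw [h0, map_zero]))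
  have LI : LP I (Option (Fin M)) := hLP3 I _ (fun C δ hδ => ⟨K, iK, κ, hκ, LK, fun c _ => by
    obtain ⟨k, hk⟩ := hsur c
    exact ⟨k, by rw [hk, sub_self, norm_zero]; exact hδ.le⟩⟩)
  intro G ε hε
  have h1 := sD (G.image π) (ε / 2) (half_pos hε)
  rw [Finset.coe_image] at h1
  exact LI E D ι π hext G (ε / 2) ε (half_pos hε) (half_lt_self hε) h1

end Pool.Agent.Helper7_ND.J_MAIN6
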