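import Pool.Agent.Helper7_ND.Stm8
import Pool.Agent.Helper7_ND.J_COL
import Pool.Agent.Helper7_ND.J_WP
import Pool.Agent.Helper7_ND.J_ALGA

set_option autoImplicit false

open scoped Matrix.Norms.L2Operator ENNReal Matrix
open Pool.Agent.W659.EC

noncomputable section

namespace Pool.Agent.Helper7_ND.J_PP5

/-! ### Functions -/

theorem ramp_cont (a b : ℝ) : Continuous (ramp a b) := by
  unfold ramp
  exact J_WP.clip_cont.comp (by fun_prop)

theorem ramp_nonneg (a b s : ℝ) : 0 ≤ ramp a b s := J_WP.clip_nonneg _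

theorem ramp_le_one (a b s : ℝ) : ramp a b s ≤ 1 := J_WP.clip_le_one _

theorem ramp_lo {a b s : ℝ} (hab : a < b) (hs : s ≤ a) : ramp a b s = 0 := by
  unfold ramp clip
  have h : (s - a) / (b - a) ≤ 0 := div_nonpos_of_nonpos_of_nonneg (by linarith) (by linarith)
  have h2 : min 1 ((s - a) / (b - a)) ≤ 0 := (min_le_right _ _).trans h
  exact max_eq_left h2

theorem ramp_hi {a b s : ℝ} (hab : a < b) (hs : b ≤ s) : ramp a b s = 1 := by
  unfold ramp clip
  have h : 1 ≤ (s - a) / (b - a) := by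
    rw [le_div_iff₀ (by linarith)]
    linarith
  rw [min_eq_left h]
  exact max_eq_right zero_le_one

theorem ramp_mul {a b c d s : ℝ} (hab : a < b) (hbc : b ≤ c) (hcd : c < d) :
    ramp a b s * ramp c d s = ramp c d s := by
  rcases le_total s c with h | h
  · rw [ramp_lo hcd h, mul_zero]
  · rw [ramp_hi hab (hbc.trans h), one_mul]

theorem mA_cont {κ : ℝ} (hκ : 0 < κ) : Continuous (mA κ) := by
  unfold mA
  refine Real.continuous_sqrt.comp ((ramp_cont _ _).div (by fun_prop) fun s => ?_)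
  have : κ / 2 ≤ max s (κ / 2) := le_max_right _ _
  linarith

theorem mA_zero {κ : ℝ} (hκ : 0 < κ) : mA κ 0 = 0 := by
  unfold mA
  rw [ramp_lo (by linarith) (by linarith), zero_div, Real.sqrt_zero]

theorem mA_mul {κ : ℝ} (hκ : 0 < κ) (s : ℝ) : mA κ s * s * mA κ s = ramp (κ / 2) κ s := by
  have h1 : mA κ s * mA κ s = ramp (κ / 2) κ s / max s (κ / 2) := by
    unfold mA
    refine Real.mul_self_sqrt (div_nonneg (ramp_nonneg _ _ _) ?_)
    have : κ / 2 ≤ max s (κ / 2) := le_max_right _ _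
    linarith
  rw [mul_right_comm, h1]
  rcases le_total s (κ / 2) with h | h
  · rw [ramp_lo (by linarith) h]
    simp
  · rw [max_eq_left h]
    have : s ≠ 0 := by
      intro h0
      rw [h0] at h
      linarith
    field_simp

/-- the function of `m0` -/
def m0F (κ s : ℝ) : ℝ := Real.sqrt (ramp κ (2 * κ) s / max s κ)

theorem m0F_cont {κ : ℝ} (hκ : 0 < κ) : Continuous (m0F κ) := by
  unfold m0F
  refine Real.continuous_sqrt.comp ((ramp_cont _ _).div (by fun_prop) fun s => ?_)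
  have : κ ≤ max s κ := le_max_right _ _
  linarith

theorem m0F_zero {κ : ℝ} (hκ : 0 < κ) : m0F κ 0 = 0 := by
  unfold m0F
  rw [ramp_lo (by linarith) (by linarith), zero_div, Real.sqrt_zero]

theorem m0F_mul {κ : ℝ} (hκ : 0 < κ) (s : ℝ) : m0F κ s * s * m0F κ s = ramp κ (2 * κ) s := by
  have h1 : m0F κ s * m0F κ s = ramp κ (2 * κ) s / max s κ := by
    unfold m0F
    refine Real.mul_self_sqrt (div_nonneg (ramp_nonneg _ _ _) ?_)
    have : κ ≤ max s κ := le_max_right _ _
    linarith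
  rw [mul_right_comm, h1]
  rcases le_total s κ with h | h
  · rw [ramp_lo (by linarith) h]
    simp
  · rw [max_eq_left h]
    have : s ≠ 0 := by
      intro h0
      rw [h0] at h
      linarith
    field_simp

theorem e_m0F {κ : ℝ} (hκ : 0 < κ) (s : ℝ) : ramp (κ / 2) κ s * m0F κ s = m0F κ s := by
  rcases le_total s κ with h | h
  · unfold m0F
    rw [ramp_lo (a := κ) (b := 2 * κ) (by linarith) h, zero_div, Real.sqrt_zero, mul_zero]
  · rw [ramp_hi (by linarith) h, one_mul]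

theorem wF_cont {δ : ℝ} (hδ : 0 < δ) : Continuous (wF δ) := by
  unfold wF
  refine continuous_const.max (continuous_const.sub (continuous_const.div (by fun_prop) fun s => ?_))
  have : δ ≤ max s δ := le_max_right _ _
  linarith

theorem wF_nonneg (δ s : ℝ) : 0 ≤ wF δ s := le_max_left _ _

theorem wF_lo {δ s : ℝ} (hδ : 0 < δ) (h : s ≤ δ) : wF δ s = 0 := by
  unfold wF
  rw [max_eq_right h, div_self hδ.ne', sub_self, max_self]

/-! ### The homomorphism `P` and functional calculus -/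

section hom

variable {Q R : Type} [CStarAlgebra Q] [CStarAlgebra R]

theorem P_comm (P : R →⋆ₙₐ[ℂ] Q) {n : R} (hn : star n = n) {z : Q} (hz : z * P n = P n * z)
    {f : ℝ → ℝ} (hf : Continuous f) (hf0 : f 0 = 0) : z * P (cfc f n) = P (cfc f n) * z := by
  have hsa : IsSelfAdjoint n := hn
  have hP : Continuous P :=
    ((P : R →ₗ[ℂ] Q).mkContinuous 1 (fun x => by
      rw [one_mul]; exact NonUnitalStarAlgHom.norm_apply_le P x)).continuous
  have h1 : cfc f n = cfcₙ f n := by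
    rw [cfcₙ_eq_cfc (hf := hf.continuousOn) (hf0 := hf0)]
  have h2 : P (cfc f n) = cfcₙ f (P n) := by
    rw [h1]
    exact NonUnitalStarAlgHom.map_cfcₙ (S := ℂ) P f n (hf := hf.continuousOn) (hf₀ := hf0)
      (hφ := hP) (hφa := hsa.map P)
  rw [h2]
  have hc : Commute (P n) z := hz.symm
  exact ((hc.cfcₙ_real f).eq).symm

theorem h_pos {δ : ℝ} (hδ : 0 < δ) {c : Q} (hc : star c = c) :
    Pos ((cfc (wF δ) c * c) * (c * c - ((δ ^ 2 : ℝ) : ℂ) • 1) * (cfc (wF δ) c * c)) := by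
  have hsa : IsSelfAdjoint c := hc
  have hw := wF_cont hδ
  have e1 : cfc (wF δ) c * c = cfc (fun s : ℝ => wF δ s * s) c := by
    rw [cfc_mul (wF δ) (fun s : ℝ => s) c hw.continuousOn (by fun_prop), cfc_id' ℝ c]
  have e2 : c * c - ((δ ^ 2 : ℝ) : ℂ) • 1 = cfc (fun s : ℝ => s * s - δ ^ 2) c := by
    have e3 : ((δ ^ 2 : ℝ) : ℂ) • (1 : Q) = cfc (fun _ : ℝ => δ ^ 2) c := by
      rw [cfc_const (δ ^ 2) c hsa, Algebra.algebraMap_eq_smul_one]
      rfl
    rw [e3, cfc_sub (fun s : ℝ => s * s) (fun _ : ℝ => δ ^ 2) c (by fun_prop) (by fun_prop),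
      cfc_mul (fun s : ℝ => s) (fun s : ℝ => s) c (by fun_prop) (by fun_prop), cfc_id' ℝ c]
  rw [e1, e2, ← cfc_mul (fun s : ℝ => wF δ s * s) (fun s : ℝ => s * s - δ ^ 2) c
      (hw.mul continuous_id).continuousOn (by fun_prop),
    ← cfc_mul (fun s : ℝ => wF δ s * s * (s * s - δ ^ 2)) (fun s : ℝ => wF δ s * s) c
      ((hw.mul continuous_id).mul (by fun_prop)).continuousOn (hw.mul continuous_id).continuousOn]
  refine J_WP.cfc_pos' (fun s => ?_) c
  rcases le_total s δ with h | h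
  · rw [wF_lo hδ h]
    simp
  · have h1 : 0 ≤ s * s - δ ^ 2 := by nlinarith
    have h2 : wF δ s * s * (s * s - δ ^ 2) * (wF δ s * s)
        = (wF δ s * s) * (wF δ s * s) * (s * s - δ ^ 2) := by ring
    rw [h2]
    exact mul_nonneg (mul_self_nonneg _) h1

theorem kill {δ : ℝ} (hδ : 0 < δ) {c h X Y E G : Q} (hE : Prj E) (hX : X = h * Y)
    (hh : star h = h) (h1 : E * X = X) (hGX : G * X = (1 / 2 : ℂ) • (c * (c * X)))
    (p1 : Pos (((2 * (δ ^ 2 / 8) : ℝ) : ℂ) • E - E * G * E))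
    (p2 : Pos (h * (c * c - ((δ ^ 2 : ℝ) : ℂ) • 1) * h)) : X = 0 := by
  have hXE : star X * E = star X := by
    have := congrArg star h1
    rwa [star_mul, hE.1] at this
  have q1 : Pos (((2 * (δ ^ 2 / 8) : ℝ) : ℂ) • (star X * X)
      - (1 / 2 : ℂ) • (star X * (c * (c * X)))) := by
    have := p1.conj X
    convert this using 1
    rw [mul_sub, sub_mul, mul_smul_comm, hXE, smul_mul_assoc]
    congr 1
    calc (1 / 2 : ℂ) • (star X * (c * (c * X))) = star X * (G * X) := by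
          rw [hGX, mul_smul_comm]
      _ = (star X * E) * G * (E * X) := by rw [hXE, h1, mul_assoc]
      _ = star X * (E * G * E) * X := by simp only [mul_assoc]
  have q2 : Pos (star X * (c * (c * X)) - ((δ ^ 2 : ℝ) : ℂ) • (star X * X)) := by
    have := p2.conj Y
    convert this using 1
    rw [hX, star_mul, hh]
    simp only [mul_sub, sub_mul, mul_assoc, mul_smul_comm, smul_mul_assoc, one_mul]
  have q3 := q1.add (q2.smul (c := 1 / 2) (by norm_num))
  have e : ((2 * (δ ^ 2 / 8) : ℝ) : ℂ) • (star X * X)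
      - (1 / 2 : ℂ) • (star X * (c * (c * X)))
      + ((1 / 2 : ℝ) : ℂ) • (star X * (c * (c * X)) - ((δ ^ 2 : ℝ) : ℂ) • (star X * X))
      = -(((δ ^ 2 / 4 : ℝ) : ℂ) • (star X * X)) := by
    push_cast
    module
  rw [e] at q3
  let _ := CStarAlgebra.spectralOrder Q
  let _ := CStarAlgebra.spectralOrderedRing Q
  rw [pos_iff] at q3
  have q4 : Pos (((δ ^ 2 / 4 : ℝ) : ℂ) • (star X * X)) :=
    Pos.smul ⟨X, rfl⟩ (by positivity)
  rw [pos_iff] at q4
  have q5 := le_antisymm (neg_nonneg.1 q3) q4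
  rcases smul_eq_zero.1 q5 with h0 | h0
  · exfalso
    have : δ ^ 2 / 4 = 0 := Complex.ofReal_eq_zero.1 h0
    have : 0 < δ ^ 2 / 4 := by positivity
    linarith
  · exact CStarRing.star_mul_self_eq_zero_iff X |>.1 h0

theorem supp {p g e : R} {γ : ℝ} (hγ : 0 < γ) (hp : Prj p) (he : star e = e)
    (hge : e * g = g) (hpg : p * g = g * p)
    (h : Pos (p * (g - (γ : ℂ) • 1) * p)) : e * p = p := by
  have q1 := h.conj (1 - e)
  have e1 : star (1 - e) * (p * (g - (γ : ℂ) • 1) * p) * (1 - e)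
      = -((γ : ℂ) • ((1 - e) * p * (1 - e))) := by
    have e2 : (1 - e) * (p * g * p) = 0 := by
      rw [hpg, mul_assoc g p p, hp.2, ← mul_assoc, sub_mul, one_mul, hge, sub_self, zero_mul]
    rw [star_sub, star_one, he, mul_sub p, sub_mul (p * g), mul_sub (1 - e), e2, zero_sub,
      mul_smul_comm, mul_one, smul_mul_assoc, hp.2, mul_smul_comm, neg_mul, smul_mul_assoc]
  rw [e1] at q1
  have q2 : Pos ((γ : ℂ) • ((1 - e) * p * (1 - e))) := by
    refine Pos.smul ⟨p * (1 - e), ?_⟩ hγ.le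
    rw [star_mul, star_sub, star_one, he, hp.1, mul_assoc, mul_assoc, ← mul_assoc p p, hp.2]
  let _ := CStarAlgebra.spectralOrder R
  let _ := CStarAlgebra.spectralOrderedRing R
  rw [pos_iff] at q1 q2
  have q3 := le_antisymm (neg_nonneg.1 q1) q2
  have q4 : (1 - e) * p * (1 - e) = 0 := by
    rcases smul_eq_zero.1 q3 with h0 | h0
    · exact absurd (Complex.ofReal_eq_zero.1 h0) hγ.ne'
    · exact h0
  have q5 : p * (1 - e) = 0 := by
    refine CStarRing.star_mul_self_eq_zero_iff (p * (1 - e)) |>.1 ?_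
    rw [star_mul, star_sub, star_one, he, hp.1, mul_assoc, ← mul_assoc p p, hp.2, ← mul_assoc, q4]
  have q6 := congrArg star q5
  rw [star_mul, star_sub, star_one, he, hp.1, star_zero, sub_mul, one_mul, sub_eq_zero] at q6
  exact q6.symm

theorem sandwich {n : R} (hn : star n = n) {f g : ℝ → ℝ} (hf : Continuous f)
    (h : ∀ s, f s * s * f s = g s) : cfc f n * n * cfc f n = cfc g n := by
  have hsa : IsSelfAdjoint n := hn
  have e1 : cfc f n * n = cfc (fun s : ℝ => f s * s) n := by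
    rw [cfc_mul f (fun s : ℝ => s) n hf.continuousOn (by fun_prop), cfc_id' ℝ n]
  rw [e1, ← cfc_mul (fun s : ℝ => f s * s) f n (hf.mul continuous_id).continuousOn
    hf.continuousOn]
  congr 1
  funext s
  exact h s

theorem cfc_mul_cfc {n : R} {f g k : ℝ → ℝ} (hf : Continuous f) (hg : Continuous g)
    (h : ∀ s, f s * g s = k s) : cfc f n * cfc g n = cfc k n := by
  rw [← cfc_mul f g n hf.continuousOn hg.continuousOn]
  congr 1
  funext s
  exact h s

theorem cfc_comm' (n : R) (f g : ℝ → ℝ) : cfc f n * cfc g n = cfc g n * cfc f n :=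
  (cfc_commute_cfc f g n).eq

end hom

theorem t_PP5 (hCC : StCC) : StPP5 := by
  intro T Q R _ _ _ ω N P F Φ v u t δ κ hδ hκ hCE hN hNle hPinj hcomP hΦ hΦoz hv hv1 hu hu1 ht ht1
    hvu hut hvΦ huΦ ΦW m m2 hΦW hm hm2
  -- basic facts
  have su : star u = u := hu.sa
  have st : star t = t := ht.sa
  have sv : star v = v := hv.sa
  have pΦ1 : Pos (Φ 1) := IsCP.pos hΦ ⟨1, by simp⟩
  set n : R := N 1 with hn
  have pn : Pos n := IsCP.pos hN ⟨1, by simp⟩
  have sn : star n = n := pn.sa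
  have wsu : star (ω u) = ω u := by rw [← map_star, su]
  have wst : star (ω t) = ω t := by rw [← map_star, st]
  have wsv : star (ω v) = ω v := by rw [← map_star, sv]
  have q_vu : ω v * ω u = ω u := by rw [← map_mul]; exact hvu
  have q_uv : ω u * ω v = ω u := by
    have := congrArg star q_vu
    rwa [star_mul, wsu, wsv] at this
  have q_ut : ω u * ω t = ω t := by rw [← map_mul]; exact hut
  have q_vt : ω v * ω t = ω t := by
    calc ω v * ω t = ω v * (ω u * ω t) := by rw [q_ut]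
      _ = ω t := by rw [← mul_assoc, q_vu, q_ut]
  have q_tv : ω t * ω v = ω t := by
    have := congrArg star q_vt
    rwa [star_mul, wst, wsv] at this
  -- central elements
  set H : Q := P n with hH
  have hc1 : ∀ z, ω (z * v) = ω (v * z) → P (N z) = H * ω z := fun z hz => (hcomP z hz).1
  have hc2 : ∀ z, ω (z * v) = ω (v * z) → ω z * H = H * ω z := fun z hz =>
    (hcomP z hz).2.symm.trans (hcomP z hz).1
  have cvu : ω (u * v) = ω (v * u) := by rw [map_mul, map_mul, q_uv, q_vu]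
  have cvt : ω (t * v) = ω (v * t) := by rw [map_mul, map_mul, q_tv, q_vt]
  have cvtt : ω (t * t * v) = ω (v * (t * t)) := by
    rw [map_mul, map_mul, map_mul, map_mul, mul_assoc, q_tv, ← mul_assoc, q_vt]
  have cvΦ : ∀ y, ω (Φ y * v) = ω (v * Φ y) := fun y => (hvΦ y).symm
  have fz : ∀ (f : ℝ → ℝ), Continuous f → f 0 = 0 → ∀ z, ω (z * v) = ω (v * z) →
      ω z * P (cfc f n) = P (cfc f n) * ω z := fun f hf hf0 z hz => P_comm P sn (hc2 z hz) hf hf0
  -- the elements of `R`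
  have mc := mA_cont hκ
  have m0c := m0F_cont hκ
  have mz := mA_zero hκ
  have m0z := m0F_zero hκ
  have rz : ramp (κ / 2) κ 0 = 0 := ramp_lo (by linarith) (by linarith)
  have rz1 : ramp κ (2 * κ) 0 = 0 := ramp_lo (by linarith) (by linarith)
  have rz2 : ramp (2 * κ) (3 * κ) 0 = 0 := ramp_lo (by linarith) (by linarith)
  set e : R := cfc (ramp (κ / 2) κ) n with he
  set k : R := cfc (ramp κ (2 * κ)) n with hk
  set m0 : R := cfc (m0F κ) n with hm0
  have sm : star m = m := by rw [hm]; exact J_WP.cfc_sa _ _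
  have sm0 : star m0 = m0 := J_WP.cfc_sa _ _
  have se : star e = e := J_WP.cfc_sa _ _
  have mnm : m * n * m = e := by rw [hm]; exact sandwich sn mc (mA_mul hκ)
  have m0nm0 : m0 * n * m0 = k := sandwich sn m0c (m0F_mul hκ)
  have em0 : e * m0 = m0 := cfc_mul_cfc (ramp_cont _ _) m0c (e_m0F hκ)
  have ek : e * k = k := cfc_mul_cfc (ramp_cont _ _) (ramp_cont _ _)
    (fun s => ramp_mul (by linarith) le_rfl (by linarith))
  have em2 : e * m2 = m2 := by
    rw [hm2]
    exact cfc_mul_cfc (ramp_cont _ _) (ramp_cont _ _)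
      (fun s => ramp_mul (by linarith) (by linarith) (by linarith))
  have km2 : k * m2 = m2 := by
    rw [hm2]
    exact cfc_mul_cfc (ramp_cont _ _) (ramp_cont _ _)
      (fun s => ramp_mul (by linarith) le_rfl (by linarith))
  have ke : e * k = k * e := cfc_comm' n _ _
  -- their images
  have PκF : ∀ y, P (m * N (Φ y) * m) = P e * ω (Φ y) := by
    intro y
    rw [map_mul, map_mul, hc1 _ (cvΦ y)]
    have h1 : ω (Φ y) * P m = P m * ω (Φ y) := by
      rw [hm]; exact fz _ mc mz _ (cvΦ y)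
    calc P m * (H * ω (Φ y)) * P m = P m * H * (ω (Φ y) * P m) := by simp only [mul_assoc]
      _ = P m * H * P m * ω (Φ y) := by rw [h1, ← mul_assoc]
      _ = P e * ω (Φ y) := by rw [hH, ← map_mul, ← map_mul, mnm]
  set f : R := m0 * N u * m0 with hf
  have Pf : P f = P k * ω u := by
    rw [hf, map_mul, map_mul, hc1 _ cvu]
    have h1 : ω u * P m0 = P m0 * ω u := fz _ m0c m0z _ cvu
    calc P m0 * (H * ω u) * P m0 = P m0 * H * (ω u * P m0) := by simp only [mul_assoc]
      _ = P m0 * H * P m0 * ω u := by rw [h1, ← mul_assoc]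
      _ = P k * ω u := by rw [hH, ← map_mul, ← map_mul, m0nm0]
  have posf : Pos f := by
    have h1 := (IsCP.pos hN hu).conj m0
    rwa [sm0] at h1
  have nf : ‖f‖ ≤ 1 := by
    rw [← hom_norm P hPinj f, Pf]
    have h1 : ‖P k‖ ≤ 1 := by
      rw [hom_norm P hPinj]
      exact J_WP.cfc_norm' (ramp_nonneg _ _) (ramp_le_one _ _) n
    have h2 : ‖ω u‖ ≤ 1 := (NonUnitalStarAlgHom.norm_apply_le ω u).trans hu1
    calc ‖P k * ω u‖ ≤ ‖P k‖ * ‖ω u‖ := norm_mul_le _ _
      _ ≤ 1 * 1 := by gcongr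
      _ = 1 := one_mul 1
  have ef : e * f = f := by rw [hf, ← mul_assoc, ← mul_assoc, em0]
  -- commutation in `Q`
  have cK1 : ∀ z, ω (z * v) = ω (v * z) → ω z * P e = P e * ω z := fun z hz =>
    fz _ (ramp_cont _ _) rz z hz
  have cK : ∀ z, ω (z * v) = ω (v * z) → ω z * P k = P k * ω z := fun z hz =>
    fz _ (ramp_cont _ _) rz1 z hz
  have cM : ∀ z, ω (z * v) = ω (v * z) → ω z * P m2 = P m2 * ω z := fun z hz => by
    rw [hm2]; exact fz _ (ramp_cont _ _) rz2 z hz
  have cuΦ : ∀ y, ω u * ω (Φ y) = ω (Φ y) * ω u := by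
    intro y; rw [← map_mul, ← map_mul]; exact huΦ y
  have c1Φ : ∀ y, ω (Φ 1) * ω (Φ y) = ω (Φ y) * ω (Φ 1) := by
    intro y
    rw [← map_mul ω (Φ 1), ← map_mul ω (Φ y), hΦoz y 1, mul_one]
  have PeK : P e * P k = P k * P e := by rw [← map_mul, ← map_mul, ke]
  -- the map `κF`
  set κF : F.alg →ₗ[ℂ] R := conjL m ∘ₗ (N ∘ₗ Φ) with hκF
  have κFa : ∀ y, κF y = m * N (Φ y) * m := by
    intro y
    rw [hκF]
    show star m * N (Φ y) * m = _
    rw [sm]
  have PκF' : ∀ y, P (κF y) = P e * ω (Φ y) := fun y => by rw [κFa, PκF]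
  have κcp : IsCP κF := (isCP_conjL m).comp (hN.comp hΦ)
  have κoz : OZ κF := by
    intro x y
    apply hPinj
    rw [map_mul, map_mul, PκF', PκF', PκF', PκF']
    have h1 : ∀ a b, P e * ω (Φ a) * (P e * ω (Φ b)) = P e * P e * ω (Φ a * Φ b) := by
      intro a b
      calc P e * ω (Φ a) * (P e * ω (Φ b)) = P e * (ω (Φ a) * P e) * ω (Φ b) := by
            simp only [mul_assoc]
        _ = P e * (P e * ω (Φ a)) * ω (Φ b) := by rw [cK1 _ (cvΦ a)]
        _ = P e * P e * ω (Φ a * Φ b) := by rw [map_mul]; simp only [mul_assoc]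
    rw [h1, h1, hΦoz]
  have κ1 : ∀ y, κF 1 * κF y = κF y * κF 1 := by
    intro y
    rw [κoz y 1, mul_one]
  have κf : ∀ y, κF y * f = f * κF y := by
    intro y
    apply hPinj
    rw [map_mul P (κF y) f, map_mul P f (κF y), PκF', Pf]
    calc P e * ω (Φ y) * (P k * ω u) = P e * (ω (Φ y) * P k) * ω u := by simp only [mul_assoc]
      _ = P e * P k * (ω (Φ y) * ω u) := by rw [cK _ (cvΦ y)]; simp only [mul_assoc]
      _ = P k * (P e * ω u) * ω (Φ y) := by rw [← cuΦ, PeK]; simp only [mul_assoc]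
      _ = P k * ω u * (P e * ω (Φ y)) := by rw [← cK1 _ cvu]; simp only [mul_assoc]
  -- the cut
  set s : R := (1 / 2 : ℂ) • (κF 1 * (1 - f)) with hs
  have κ1f : κF 1 * (1 - f) = (1 - f) * κF 1 := by
    rw [mul_sub, sub_mul, mul_one, one_mul, κf]
  have pκ1 : Pos (κF 1) := IsCP.pos κcp ⟨1, by simp⟩
  have poss : Pos s := by
    have h1 := J_COL.pos_mul pκ1 (pos_one_sub posf nf) κ1f
    have h2 := h1.smul (c := 1 / 2) (by norm_num)
    rw [hs]
    convert h2 using 2
    norm_num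
  have κs : ∀ y, κF y * s = s * κF y := by
    intro y
    rw [hs, mul_smul_comm, smul_mul_assoc]
    congr 1
    rw [← mul_assoc, ← κ1, mul_assoc, mul_assoc, mul_sub, sub_mul, mul_one, one_mul, κf]
  obtain ⟨p, hp, pκ, ps, hg1, hg2⟩ := hCC R hCE F κF s (δ ^ 2 / 8) κcp κoz poss κs (by positivity)
  set g : R := κF 1 * ((1 / 2 : ℂ) • κF 1 - s) with hg
  have hg' : g = (1 / 2 : ℂ) • (κF 1 * (κF 1 * f)) := by
    rw [hg, hs]
    simp only [mul_sub, mul_one, mul_smul_comm, smul_sub]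
    abel
  have eg : e * g = g := by
    have h1 : κF 1 * (κF 1 * f) = f * (κF 1 * κF 1) := by
      rw [κf 1, ← mul_assoc, κf 1, mul_assoc]
    rw [hg', mul_smul_comm, h1, ← mul_assoc, ef]
  have pg : p * g = g * p := by
    have h1 : p * ((1 / 2 : ℂ) • κF 1 - s) = ((1 / 2 : ℂ) • κF 1 - s) * p := by
      rw [mul_sub, sub_mul, ps, mul_smul_comm, smul_mul_assoc (1 / 2 : ℂ) (κF 1) p, pκ 1]
    rw [hg, ← mul_assoc, pκ 1, mul_assoc, h1, mul_assoc]
  have ep : e * p = p := supp (by positivity) hp se eg pg hg1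
  have pe : p * e = p := by
    have := congrArg star ep
    rwa [star_mul, se, hp.1] at this
  -- the projection `P p`
  set Pp : Q := P p with hPp
  have PpPe : Pp * P e = Pp := by rw [hPp, ← map_mul, pe]
  have PePp : P e * Pp = Pp := by rw [hPp, ← map_mul, ep]
  have PpΦ : ∀ y, Pp * ω (Φ y) = ω (Φ y) * Pp := by
    intro y
    calc Pp * ω (Φ y) = Pp * (P e * ω (Φ y)) := by rw [← mul_assoc, PpPe]
      _ = P (p * κF y) := by rw [map_mul, PκF']
      _ = P (κF y * p) := by rw [pκ]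
      _ = P e * ω (Φ y) * Pp := by rw [map_mul, PκF']
      _ = ω (Φ y) * (P e * Pp) := by rw [← cK1 _ (cvΦ y), mul_assoc]
      _ = ω (Φ y) * Pp := by rw [PePp]
  have prPp : Prj Pp := ⟨by rw [hPp, ← map_star, hp.1], by rw [hPp, ← map_mul, hp.2]⟩
  set E : Q := 1 - Pp with hE
  have prE : Prj E := J_ALGA.prj_compl prPp
  refine ⟨p, hp, PpΦ, fun y => by rw [← κFa, pκ], ep, ?_⟩
  -- the elements of `Q`
  set c : Q := ω (Φ 1) with hc
  have sc : star c = c := by rw [hc, ← map_star, pΦ1.sa]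
  have hΦW1 : ω (ΦW 1) = cfc (wF δ) c * c := by
    have h1 : ΦW 1 = cfc (wF δ) (Φ 1) * Φ 1 := by
      rw [hΦW]
      show star (sq (cfc (wF δ) (Φ 1))) * Φ 1 * sq (cfc (wF δ) (Φ 1)) = _
      have h2 : Φ 1 * sq (cfc (wF δ) (Φ 1)) = sq (cfc (wF δ) (Φ 1)) * Φ 1 :=
        J_WP.comm_cfc (J_WP.comm_cfc rfl _) _
      rw [J_WP.sq_sa, mul_assoc, h2, ← mul_assoc, J_WP.sq_mul_sq
        (J_WP.cfc_pos' (wF_nonneg δ) _)]
    rw [h1, map_mul, J_WP.map_cfc' ω _ (wF_cont hδ) _ pΦ1.sa]
  set h : Q := cfc (wF δ) c * c with hh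
  have com_h : ∀ z : Q, z * c = c * z → z * h = h * z := fun z hz =>
    J_WP.comm_mul' (J_WP.comm_cfc hz _) hz
  have sh : star h = h := by
    rw [hh, star_mul, sc, J_WP.cfc_sa]
    exact J_WP.comm_cfc rfl _
  have hp2 : Pos (h * (c * c - ((δ ^ 2 : ℝ) : ℂ) • 1) * h) := h_pos hδ sc
  clear_value h g
  -- the element `Λ`
  have nm2 : n * m2 = m2 * n := by
    rw [hm2]
    exact J_WP.comm_cfc rfl _
  set M : Q := P m2 with hM
  have HM : H * M = M * H := by rw [hH, hM, ← map_mul, ← map_mul, nm2]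
  set Λ : Q := M * M * H with hΛ
  have cΛ : ∀ z, ω (z * v) = ω (v * z) → ω z * Λ = Λ * ω z := fun z hz =>
    J_WP.comm_mul' (J_WP.comm_mul' (cM z hz) (cM z hz)) (hc2 z hz)
  have eΛ : P e * Λ = Λ := by
    rw [hΛ, ← mul_assoc, ← mul_assoc, hM, ← map_mul, em2]
  have kΛ : P k * Λ = Λ := by
    rw [hΛ, ← mul_assoc, ← mul_assoc, hM, ← map_mul, km2]
  have PN : P (m2 * N (t * t) * m2) = Λ * (ω t * ω t) := by
    rw [map_mul, map_mul, hc1 _ cvtt, ← hM]
    calc M * (H * ω (t * t)) * M = M * H * (ω (t * t) * M) := by simp only [mul_assoc]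
      _ = M * (H * M) * ω (t * t) := by rw [cM _ cvtt]; simp only [mul_assoc]
      _ = Λ * (ω t * ω t) := by rw [HM, hΛ, map_mul]; simp only [mul_assoc]
  set Z : Q := Λ * ω t with hZ
  -- the element `G`
  set G : Q := P g with hG
  have G' : G = (1 / 2 : ℂ) • (P e * c * (P e * c * (P k * ω u))) := by
    rw [hG, hg', map_smul, map_mul, map_mul, PκF', Pf]
  have cE1 : c * P e = P e * c := cK1 _ (cvΦ 1)
  have cE2 : c * P k = P k * c := cK _ (cvΦ 1)
  have cu : c * ω u = ω u * c := (cuΦ 1).symm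
  have cG : G * c = c * G := by
    rw [G', mul_smul_comm, smul_mul_assoc]
    congr 1
    exact (J_WP.comm_mul' (J_WP.comm_mul' cE1 rfl) (J_WP.comm_mul' (J_WP.comm_mul' cE1 rfl)
      (J_WP.comm_mul' cE2 cu))).symm
  have hGh : G * h = h * G := com_h G cG
  have Ec : E * c = c * E := by rw [hE, sub_mul, mul_sub, one_mul, mul_one, PpΦ 1]
  have Eh : E * h = h * E := com_h E Ec
  have EG : E * G = G * E := by
    rw [hE, sub_mul, mul_sub, one_mul, mul_one, hPp, hG, ← map_mul, ← map_mul, pg]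
  have GZ : G * Z = (1 / 2 : ℂ) • (c * (c * Z)) := by
    have h1 : P k * ω u * Z = Z := by
      calc P k * ω u * Z = P k * (ω u * Λ) * ω t := by rw [hZ]; simp only [mul_assoc]
        _ = (P k * Λ) * (ω u * ω t) := by rw [cΛ _ cvu]; simp only [mul_assoc]
        _ = Z := by rw [kΛ, q_ut]
    have h2 : P e * Z = Z := by rw [hZ, ← mul_assoc, eΛ]
    have h3 : P e * c * Z = c * Z := by rw [← cE1, mul_assoc, h2]
    have h4 : P e * c * (c * Z) = c * (c * Z) := by
      rw [← cE1, mul_assoc, ← mul_assoc (P e) c Z, h3]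
    rw [G', smul_mul_assoc, mul_assoc (P e * c), mul_assoc (P e * c), h1, h3, h4]
  clear_value Z G E
  have key : h * (E * Z) = 0 := by
    refine kill hδ (c := c) (E := E) (G := G) (Y := E * Z) prE rfl sh ?_ ?_ ?_ hp2
    · rw [← mul_assoc, Eh, mul_assoc, ← mul_assoc E E, prE.2]
    · calc G * (h * (E * Z)) = h * (E * (G * Z)) := by
            rw [← mul_assoc, hGh, mul_assoc, ← mul_assoc G E, ← EG, mul_assoc]
        _ = (1 / 2 : ℂ) • (h * (E * (c * (c * Z)))) := by
            rw [GZ, mul_smul_comm, mul_smul_comm]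
        _ = (1 / 2 : ℂ) • (c * (c * (h * (E * Z)))) := by
            have hcc : ∀ W : Q, h * (E * (c * W)) = c * (h * (E * W)) := by
              intro W
              have hch : c * h = h * c := com_h c rfl
              rw [← mul_assoc E, Ec, mul_assoc, ← mul_assoc h, ← hch, mul_assoc]
            rw [hcc, hcc]
    · have e1 : (1 - p) * (((2 * (δ ^ 2 / 8) : ℝ) : ℂ) • 1 - g) * (1 - p)
          = ((2 * (δ ^ 2 / 8) : ℝ) : ℂ) • (1 - p) - g + g * p := by
        have h1 : (1 - p) * g = g * (1 - p) := by rw [sub_mul, mul_sub, one_mul, mul_one, pg]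
        have h2 := (J_ALGA.prj_compl hp).2
        calc (1 - p) * (((2 * (δ ^ 2 / 8) : ℝ) : ℂ) • 1 - g) * (1 - p)
            = ((2 * (δ ^ 2 / 8) : ℝ) : ℂ) • ((1 - p) * (1 - p)) - (1 - p) * g * (1 - p) := by
              rw [mul_sub (1 - p) (((2 * (δ ^ 2 / 8) : ℝ) : ℂ) • 1) g, sub_mul ((1 - p) * _),
                mul_smul_comm, mul_one, smul_mul_assoc]
          _ = ((2 * (δ ^ 2 / 8) : ℝ) : ℂ) • (1 - p) - g + g * p := by
              rw [h2, h1, mul_assoc, h2, mul_sub, mul_one]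
              abel
      have q1 := hg2.map P
      rw [e1, map_add, map_sub, map_smul, map_sub, map_mul, ← hPp, ← hG] at q1
      have pr1 : Prj (1 - P (1 : R)) :=
        J_ALGA.prj_compl ⟨by rw [← map_star, star_one], by rw [← map_mul, one_mul]⟩
      have q2 : Pos (((2 * (δ ^ 2 / 8) : ℝ) : ℂ) • (1 - P (1 : R))) :=
        Pos.smul ⟨1 - P (1 : R), by rw [pr1.1, pr1.2]⟩ (by positivity)
      have q3 := q1.add q2
      convert q3 using 1
      rw [EG, mul_assoc, prE.2, hE]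
      simp only [mul_sub, mul_one, smul_sub]
      abel
  rw [PN, hΦW1, ← hPp, ← hE]
  calc E * h * (Λ * (ω t * ω t)) = h * (E * Z) * ω t := by
        rw [Eh, hZ]; simp only [mul_assoc]
    _ = 0 := by rw [key, zero_mul]

end Pool.Agent.Helper7_ND.J_PP5
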