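import Pool.Agent.Helper7_ND.Stm8
import Pool.Agent.Helper7_ND.Rp

set_option autoImplicit false

open scoped Matrix.Norms.L2Operator ENNReal Matrix
open Pool.Agent.W659.EC

noncomputable section

namespace Pool.Agent.Helper7_ND.J_RB

theorem prj_pos {B : Type} [NonUnitalCStarAlgebra B] {p : B} (hp : Prj p) : Pos p :=
  ⟨p, by rw [hp.1, hp.2]⟩

theorem prj_compl {B : Type} [CStarAlgebra B] {p : B} (hp : Prj p) : Prj (1 - p) := by
  refine ⟨by rw [star_sub, star_one, hp.1], ?_⟩
  rw [sub_mul, mul_sub, mul_sub, one_mul, mul_one, one_mul, hp.2, sub_self, sub_zero]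

/-- conjugation by a projection -/
theorem pos_pconj {B : Type} [NonUnitalCStarAlgebra B] {p a : B} (hp : Prj p) (ha : Pos a) :
    Pos (p * a * p) := by
  have h := ha.conj p
  rwa [hp.1] at h

theorem pos_bd {B : Type} [CStarAlgebra B] {d : B} {η : ℝ} (hd : star d = d) (hη : ‖d‖ ≤ η) :
    Pos ((η : ℂ) • (1 : B) + d) ∧ Pos ((η : ℂ) • (1 : B) - d) := by
  let _ := CStarAlgebra.spectralOrder B
  let _ := CStarAlgebra.spectralOrderedRing B
  have hsa : IsSelfAdjoint d := hd
  have h1 := hsa.le_algebraMap_norm_self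
  have h2 := hsa.neg_algebraMap_norm_le_self
  have h3 : algebraMap ℝ B ‖d‖ ≤ algebraMap ℝ B η := algebraMap_mono B hη
  have h4 : algebraMap ℝ B η = (η : ℂ) • (1 : B) := by
    rw [Algebra.algebraMap_eq_smul_one]
    exact (Complex.coe_smul η (1 : B)).symm
  rw [h4] at h3
  constructor
  · rw [pos_iff, ← sub_neg_eq_add, sub_nonneg]
    have := neg_le_neg (h2.trans' (neg_le_neg h3))
    simpa using this
  · rw [pos_iff, sub_nonneg]
    exact h1.trans h3

theorem core (B : Type) [CStarAlgebra B] (k b p : B) (e η : ℝ) (he : 0 < e) (he1 : e ≤ 1)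
    (hη : 0 ≤ η) (hηe : η ≤ e / 2) (hk : Pos k) (hp : Prj p) (hb : star b = b)
    (hbk : ‖b - k‖ ≤ η) (h1 : Pos (p * b * p - (e : ℂ) • p))
    (h2 : Pos ((e : ℂ) • (1 : B) - (1 - p) * b * (1 - p))) :
    (∃ G : B, star G = G ∧ G * p = p * G ∧ (G * p) * k * (G * p) = p ∧ ‖G‖ * ‖G‖ ≤ 2 / e) ∧
    ‖(1 - p) * k * (1 - p)‖ ≤ e + η := by
  let _ := CStarAlgebra.spectralOrder B
  let _ := CStarAlgebra.spectralOrderedRing B
  have hcoe : ∀ r : ℝ, algebraMap ℝ B r = (r : ℂ) • (1 : B) := fun r => by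
    rw [Algebra.algebraMap_eq_smul_one]
    exact (Complex.coe_smul r (1 : B)).symm
  have hdsa : star (b - k) = b - k := by rw [star_sub, hb, hk.sa]
  obtain ⟨hd1, hd2⟩ := pos_bd hdsa hbk
  have hpc := prj_compl hp
  constructor
  · -- the inverse square root
    set z : B := p * k * p + (1 - p) with hz
    have hzsa : star z = z := by
      rw [hz, star_add, star_mul, star_mul, hk.sa, hp.1, hpc.1, mul_assoc]
    have hzge : algebraMap ℝ B (e / 2) ≤ z := by
      have h3 : Pos (p * ((η : ℂ) • (1 : B) - (b - k)) * p) := pos_pconj hp hd2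
      have h4 : Pos (((e / 2 - η : ℝ) : ℂ) • p) := (prj_pos hp).smul (by linarith)
      have h5 : Pos (((1 - e / 2 : ℝ) : ℂ) • (1 - p)) := (prj_pos hpc).smul (by linarith)
      have h6 := ((h3.add h1).add h4).add h5
      rw [← sub_nonneg, ← pos_iff, hcoe]
      have e1 : z - ((e / 2 : ℝ) : ℂ) • (1 : B) = p * ((η : ℂ) • (1 : B) - (b - k)) * p +
          (p * b * p - (e : ℂ) • p) + ((e / 2 - η : ℝ) : ℂ) • p +
          ((1 - e / 2 : ℝ) : ℂ) • (1 - p) := by
        have e2 : p * ((η : ℂ) • (1 : B) - (b - k)) * p = (η : ℂ) • p - p * b * p + p * k * p := by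
          rw [mul_sub, mul_sub, sub_mul, sub_mul, mul_smul_comm, mul_one, smul_mul_assoc, hp.2]
          abel
        rw [e2, hz]
        push_cast
        module
      rw [e1]
      exact h6
    have hzs : IsSelfAdjoint z := hzsa
    have hspec : ∀ s ∈ spectrum ℝ z, e / 2 ≤ s :=
      (algebraMap_le_iff_le_spectrum (ha := hzs)).1 hzge
    set f : ℝ → ℝ := fun s => (Real.sqrt (max s (e / 2)))⁻¹ with hf
    have hpos : ∀ s, 0 < Real.sqrt (max s (e / 2)) := fun s =>
      Real.sqrt_pos.2 (lt_of_lt_of_le (by linarith) (le_max_right _ _))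
    have hfc : Continuous f := by
      refine Continuous.inv₀ (Real.continuous_sqrt.comp (continuous_id.max continuous_const)) ?_
      intro s
      exact (hpos s).ne'
    have hfc' : ContinuousOn f (spectrum ℝ z) := hfc.continuousOn
    have hzc : p * z = z * p := by
      rw [hz, mul_add, add_mul, mul_sub, sub_mul, mul_one, one_mul, hp.2, sub_self, add_zero,
        add_zero]
      rw [mul_assoc (p * k) p p, hp.2, ← mul_assoc, ← mul_assoc, hp.2]
    have hGp : p * cfc f z = cfc f z * p := by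
      have hc : Commute z p := hzc.symm
      exact ((hc.cfc_real f).eq).symm
    have hGsa : star (cfc f z) = cfc f z := (cfc_predicate f z : IsSelfAdjoint (cfc f z))
    have hGzG : cfc f z * z * cfc f z = 1 := by
      have e1 : cfc f z * z = cfc (fun s => f s * s) z := by
        have := cfc_mul f (fun s : ℝ => s) z hfc' continuousOn_id
        rw [cfc_id' ℝ z hzs] at this
        exact this.symm
      rw [e1, ← cfc_mul (fun s => f s * s) f z (hfc'.mul continuousOn_id) hfc']
      rw [← cfc_const_one ℝ z hzs]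
      refine cfc_congr fun s hs => ?_
      have h3 : max s (e / 2) = s := max_eq_left (hspec s hs)
      have h4 : 0 ≤ s := le_trans (by linarith) (hspec s hs)
      have h5 := hpos s
      rw [h3] at h5
      simp only [hf, h3]
      field_simp
      rw [Real.sq_sqrt h4]
    refine ⟨cfc f z, hGsa, hGp.symm, ?_, ?_⟩
    · have e1 : cfc f z * p * k * (cfc f z * p) = cfc f z * (p * k * p) * cfc f z := by
        calc cfc f z * p * k * (cfc f z * p) = cfc f z * p * k * (p * cfc f z) := by rw [hGp]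
          _ = cfc f z * (p * k * p) * cfc f z := by simp only [mul_assoc]
      have e2 : p * k * p = z * p := by
        rw [hz, add_mul, sub_mul, one_mul, hp.2, sub_self, add_zero, mul_assoc (p * k) p p, hp.2]
      rw [e1, e2, ← mul_assoc, mul_assoc _ p, hGp, ← mul_assoc, hGzG, one_mul]
    · have h3 : ‖cfc f z‖ ≤ (Real.sqrt (e / 2))⁻¹ := by
        refine norm_cfc_le (by positivity) fun s _ => ?_
        rw [Real.norm_of_nonneg (by positivity)]
        simp only [hf]
        exact inv_anti₀ (Real.sqrt_pos.2 (by linarith)) (Real.sqrt_le_sqrt (le_max_right _ _))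
      calc ‖cfc f z‖ * ‖cfc f z‖ ≤ (Real.sqrt (e / 2))⁻¹ * (Real.sqrt (e / 2))⁻¹ :=
            mul_le_mul h3 h3 (norm_nonneg _) (by positivity)
        _ = 2 / e := by
            rw [← mul_inv, Real.mul_self_sqrt (by linarith)]
            field_simp
  · -- the remainder
    have h3 : Pos ((1 - p) * k * (1 - p)) := pos_pconj hpc hk
    have h4 : Pos ((1 - p) * ((η : ℂ) • (1 : B) + (b - k)) * (1 - p)) := pos_pconj hpc hd1
    have h5 : Pos ((η : ℂ) • p) := (prj_pos hp).smul hη
    have h6 := (h4.add h2).add h5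
    have e1 : ((e + η : ℝ) : ℂ) • (1 : B) - (1 - p) * k * (1 - p) =
        (1 - p) * ((η : ℂ) • (1 : B) + (b - k)) * (1 - p) +
        ((e : ℂ) • (1 : B) - (1 - p) * b * (1 - p)) + (η : ℂ) • p := by
      have e2 : ∀ r : B, r * r = r → r * ((η : ℂ) • (1 : B) + (b - k)) * r =
          (η : ℂ) • r + r * b * r - r * k * r := by
        intro r hr
        rw [mul_add, mul_sub, add_mul, sub_mul, mul_smul_comm, mul_one, smul_mul_assoc, hr]
        abel
      rw [e2 (1 - p) hpc.2]
      push_cast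
      module
    rw [CStarAlgebra.norm_le_iff_le_algebraMap _ (by linarith) ((pos_iff _).1 h3), hcoe,
      ← sub_nonneg, ← pos_iff, e1]
    exact h6

/-- sums of orthogonal projections -/
theorem sum_prj {A : Type} [NonUnitalCStarAlgebra A] {N : Type} {q : N → A}
    (hq : ∀ i, Prj (q i)) (ho : ∀ i j, i ≠ j → q i * q j = 0) (S : Finset N) :
    Prj (∑ i ∈ S, q i) ∧ (∀ i ∈ S, (∑ j ∈ S, q j) * q i = q i ∧ q i * ∑ j ∈ S, q j = q i) ∧
    ∀ i, i ∉ S → (∑ j ∈ S, q j) * q i = 0 ∧ q i * ∑ j ∈ S, q j = 0 := by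
  have h1 : ∀ i ∈ S, (∑ j ∈ S, q j) * q i = q i ∧ q i * ∑ j ∈ S, q j = q i := by
    intro i hi
    constructor
    · rw [Finset.sum_mul, Finset.sum_eq_single_of_mem i hi fun j _ hj => ho j i hj, (hq i).2]
    · rw [Finset.mul_sum, Finset.sum_eq_single_of_mem i hi fun j _ hj => ho i j hj.symm, (hq i).2]
  refine ⟨⟨?_, ?_⟩, h1, ?_⟩
  · rw [star_sum]
    exact Finset.sum_congr rfl fun i _ => (hq i).1
  · rw [Finset.mul_sum]
    exact Finset.sum_congr rfl fun i hi => (h1 i hi).1
  · intro i hi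
    constructor
    · rw [Finset.sum_mul]
      exact Finset.sum_eq_zero fun j hj => ho j i fun h => hi (h ▸ hj)
    · rw [Finset.mul_sum]
      exact Finset.sum_eq_zero fun j hj => ho i j fun h => hi (h ▸ hj)

theorem prj_norm_le {A : Type} [NonUnitalCStarAlgebra A] {p : A} (hp : Prj p) : ‖p‖ ≤ 1 := by
  have h1 : ‖p‖ = ‖p‖ * ‖p‖ := by
    rw [← CStarRing.norm_star_mul_self, hp.1, hp.2]
  by_contra h2
  push Not at h2
  nlinarith

theorem prj_norm_eq {A : Type} [NonUnitalCStarAlgebra A] {p : A} (hp : Prj p) (h : p ≠ 0) :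
    ‖p‖ = 1 := by
  have h1 : ‖p‖ = ‖p‖ * ‖p‖ := by
    rw [← CStarRing.norm_star_mul_self, hp.1, hp.2]
  have h2 : 0 < ‖p‖ := norm_pos_iff.2 h
  nlinarith

/-- the data for one family of spectral projections -/
theorem step {A : Type} [NonUnitalCStarAlgebra A] {N : ℕ} (k : A) (q : Fin N → A) (c : Fin N → ℝ)
    (e η : ℝ) (he : 0 < e) (he1 : e ≤ 1) (hη : 0 ≤ η) (hηe : η ≤ e / 2) (hk : Pos k)
    (hq : ∀ i, Prj (q i)) (ho : ∀ i j, i ≠ j → q i * q j = 0)
    (hbk : ‖∑ i, (c i : ℂ) • q i - k‖ ≤ η) (S : Finset (Fin N)) (hS : ∀ i ∈ S, e ≤ c i)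
    (hS' : ∀ i, i ∉ S → c i ≤ e ∨ q i = 0) :
    ∃ g : A, star g = g ∧ g * (∑ i ∈ S, q i) = g ∧ (∑ i ∈ S, q i) * g = g ∧
      g * k * g = ∑ i ∈ S, q i ∧ ‖g‖ * ‖g‖ ≤ 2 / e ∧
      ‖k - (∑ i ∈ S, q i) * k - k * (∑ i ∈ S, q i) + (∑ i ∈ S, q i) * k * ∑ i ∈ S, q i‖ ≤ e + η ∧
      (∑ i ∈ S, q i) * (∑ i, (c i : ℂ) • q i) * (∑ i ∈ S, q i) = ∑ i ∈ S, (c i : ℂ) • q i := by
  classical
  obtain ⟨hp, hpS, hpS'⟩ := sum_prj hq ho S
  set p := ∑ i ∈ S, q i with hpdef
  set b := ∑ i, (c i : ℂ) • q i with hbdef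
  have hbsa : star b = b := by
    rw [hbdef, star_sum]
    refine Finset.sum_congr rfl fun i _ => ?_
    rw [star_smul, (hq i).1, Complex.star_def, Complex.conj_ofReal]
  have hsplit : ∀ f : Fin N → A, ∑ i, f i = ∑ i ∈ S, f i + ∑ i ∈ Sᶜ, f i := fun f =>
    (Finset.sum_add_sum_compl S f).symm
  have hpb : p * b = ∑ i ∈ S, (c i : ℂ) • q i := by
    rw [hbdef, hsplit, mul_add, Finset.mul_sum, Finset.mul_sum]
    rw [Finset.sum_congr rfl fun i hi => by rw [mul_smul_comm, (hpS i hi).1]]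
    rw [Finset.sum_eq_zero (s := Sᶜ) fun i hi => by
      rw [mul_smul_comm, (hpS' i (Finset.mem_compl.1 hi)).1, smul_zero], add_zero]
  have hbp : b * p = ∑ i ∈ S, (c i : ℂ) • q i := by
    rw [hbdef, hsplit, add_mul, Finset.sum_mul, Finset.sum_mul]
    rw [Finset.sum_congr rfl fun i hi => by rw [smul_mul_assoc, (hpS i hi).2]]
    rw [Finset.sum_eq_zero (s := Sᶜ) fun i hi => by
      rw [smul_mul_assoc, (hpS' i (Finset.mem_compl.1 hi)).2, smul_zero], add_zero]
  have hpbp : p * b * p = ∑ i ∈ S, (c i : ℂ) • q i := by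
    rw [mul_assoc, hbp, ← hpb, ← mul_assoc, hp.2]
  -- in the unitization
  have h1 : Pos (((p : A) : Unitization ℂ A) * (b : Unitization ℂ A) * (p : Unitization ℂ A) -
      (e : ℂ) • ((p : A) : Unitization ℂ A)) := by
    have h2 : Pos (p * b * p - (e : ℂ) • p) := by
      have h3 : p * b * p - (e : ℂ) • p = ∑ i ∈ S, ((c i - e : ℝ) : ℂ) • q i := by
        rw [hpbp, hpdef, Finset.smul_sum, ← Finset.sum_sub_distrib]
        refine Finset.sum_congr rfl fun i _ => ?_
        push_cast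
        rw [sub_smul]
      rw [h3]
      exact Pos.sum S fun i hi => (prj_pos (hq i)).smul (by linarith [hS i hi])
    have h3 := h2.map (jE A)
    rwa [map_sub, map_mul, map_mul, map_smul] at h3
  have h2 : Pos ((e : ℂ) • (1 : Unitization ℂ A) - (1 - ((p : A) : Unitization ℂ A)) *
      (b : Unitization ℂ A) * (1 - ((p : A) : Unitization ℂ A))) := by
    obtain ⟨hr, -, -⟩ := sum_prj hq ho Sᶜ
    set r := ∑ i ∈ Sᶜ, q i with hrdef
    have hr' : Prj ((r : A) : Unitization ℂ A) := by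
      refine ⟨?_, ?_⟩
      · rw [← Unitization.inr_star, hr.1]
      · rw [← Unitization.inr_mul, hr.2]
    have h3 : Pos ((e : ℂ) • (1 - ((r : A) : Unitization ℂ A))) :=
      (prj_pos (prj_compl hr')).smul he.le
    have h4 : Pos (∑ i ∈ Sᶜ, ((e - c i : ℝ) : ℂ) • q i) := by
      refine Pos.sum _ fun i hi => ?_
      rcases hS' i (Finset.mem_compl.1 hi) with h5 | h5
      · exact (prj_pos (hq i)).smul (by linarith)
      · rw [h5, smul_zero]
        exact Pos.zero
    have h5 := h3.add (h4.map (jE A))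
    have h6 : (1 - ((p : A) : Unitization ℂ A)) * (b : Unitization ℂ A) *
        (1 - ((p : A) : Unitization ℂ A)) = ((∑ i ∈ Sᶜ, (c i : ℂ) • q i : A) : Unitization ℂ A) := by
      have h7 : b - p * b = ∑ i ∈ Sᶜ, (c i : ℂ) • q i := by
        rw [hpb, hbdef, hsplit, add_sub_cancel_left]
      rw [← h7, sub_mul, one_mul, mul_sub, mul_one, sub_mul, ← Unitization.inr_mul,
        ← Unitization.inr_mul, ← Unitization.inr_mul, hpbp, hbp, hpb, sub_self, sub_zero,
        Unitization.inr_sub]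
    rw [h6]
    have h8 : (e : ℂ) • (1 : Unitization ℂ A) -
        ((∑ i ∈ Sᶜ, (c i : ℂ) • q i : A) : Unitization ℂ A) =
        (e : ℂ) • (1 - ((r : A) : Unitization ℂ A)) +
          jE A (∑ i ∈ Sᶜ, ((e - c i : ℝ) : ℂ) • q i) := by
      have h9 : ∑ i ∈ Sᶜ, ((e - c i : ℝ) : ℂ) • q i =
          (e : ℂ) • r - ∑ i ∈ Sᶜ, (c i : ℂ) • q i := by
        rw [hrdef, Finset.smul_sum, ← Finset.sum_sub_distrib]
        refine Finset.sum_congr rfl fun i _ => ?_
        push_cast
        rw [sub_smul]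
      rw [h9, jE_apply, Unitization.inr_sub, Unitization.inr_smul, smul_sub]
      abel
    rw [h8]
    exact h5
  have hp' : Prj ((p : A) : Unitization ℂ A) := by
    refine ⟨?_, ?_⟩
    · rw [← Unitization.inr_star, hp.1]
    · rw [← Unitization.inr_mul, hp.2]
  have hbk' : ‖((b : A) : Unitization ℂ A) - (k : Unitization ℂ A)‖ ≤ η := by
    rw [← Unitization.inr_sub, Unitization.norm_inr]
    exact hbk
  obtain ⟨⟨G, hG1, hG2, hG3, hG4⟩, hrem⟩ := core (Unitization ℂ A) (k : Unitization ℂ A)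
    (b : Unitization ℂ A) (p : Unitization ℂ A) e η he he1 hη hηe (hk.map (jE A)) hp'
    (by rw [← Unitization.inr_star, hbsa]) hbk' h1 h2
  have hg : (((G * ((p : A) : Unitization ℂ A)).snd : A) : Unitization ℂ A) =
      G * ((p : A) : Unitization ℂ A) := by
    refine Unitization.ext ?_ rfl
    rw [Unitization.fst_inr, Unitization.fst_mul, Unitization.fst_inr, mul_zero]
  set g := (G * ((p : A) : Unitization ℂ A)).snd with hgdef
  have hinj : Function.Injective (fun a : A => (a : Unitization ℂ A)) := Unitization.inr_injective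
  refine ⟨g, ?_, ?_, ?_, ?_, ?_, ?_, hpbp⟩
  · apply hinj
    beta_reduce
    rw [Unitization.inr_star, hg, star_mul, hG1, hp'.1, hG2]
  · apply hinj
    beta_reduce
    rw [Unitization.inr_mul, hg, mul_assoc, hp'.2]
  · apply hinj
    beta_reduce
    rw [Unitization.inr_mul, hg, ← mul_assoc, ← hG2, mul_assoc, hp'.2]
  · apply hinj
    beta_reduce
    rw [Unitization.inr_mul, Unitization.inr_mul, hg]
    exact hG3
  · have h3 : ‖g‖ ≤ ‖G‖ := by
      rw [← Unitization.norm_inr (𝕜 := ℂ) g, hg]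
      refine (norm_mul_le _ _).trans ?_
      calc ‖G‖ * ‖((p : A) : Unitization ℂ A)‖ ≤ ‖G‖ * 1 :=
            mul_le_mul_of_nonneg_left (prj_norm_le hp') (norm_nonneg _)
        _ = ‖G‖ := mul_one _
    exact (mul_le_mul h3 h3 (norm_nonneg _) (norm_nonneg _)).trans hG4
  · have h3 : ((k - p * k - k * p + p * k * p : A) : Unitization ℂ A) =
        (1 - ((p : A) : Unitization ℂ A)) * (k : Unitization ℂ A) *
          (1 - ((p : A) : Unitization ℂ A)) := by
      rw [Unitization.inr_add, Unitization.inr_sub, Unitization.inr_sub, Unitization.inr_mul,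
        Unitization.inr_mul, Unitization.inr_mul, Unitization.inr_mul]
      noncomm_ring
    rw [← Unitization.norm_inr (𝕜 := ℂ), h3]
    exact hrem

theorem t_RB : StRB := by
  classical
  intro A _ hRR n _ _ x k ε hε hk hxx hxy
  set e : ℝ := min (ε / 4) 1 with hedef
  have he : 0 < e := lt_min (by linarith) one_pos
  have he1 : e ≤ 1 := min_le_right _ _
  have he4 : e ≤ ε / 4 := min_le_left _ _
  set η : ℝ := min (e / 2) (ε * e / (8 * (‖k‖ + 1))) with hηdef
  have hk0 := norm_nonneg k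
  have hη : 0 < η := lt_min (by linarith) (by positivity)
  have hηe : η ≤ e / 2 := min_le_left _ _
  have hηk : ‖k‖ * (2 / e * η) ≤ ε / 4 := by
    have h1 : η ≤ ε * e / (8 * (‖k‖ + 1)) := min_le_right _ _
    have h2 : 2 / e * η ≤ 2 / e * (ε * e / (8 * (‖k‖ + 1))) :=
      mul_le_mul_of_nonneg_left h1 (by positivity)
    have h3 : 2 / e * (ε * e / (8 * (‖k‖ + 1))) = ε / (4 * (‖k‖ + 1)) := by
      field_simp
      norm_num
    have h4 : ‖k‖ * (ε / (4 * (‖k‖ + 1))) ≤ ε / 4 := by
      rw [mul_div_assoc', div_le_div_iff₀ (by positivity) (by norm_num)]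
      nlinarith
    calc ‖k‖ * (2 / e * η) ≤ ‖k‖ * (ε / (4 * (‖k‖ + 1))) := by
          rw [← h3]
          exact mul_le_mul_of_nonneg_left h2 hk0
      _ ≤ ε / 4 := h4
  obtain ⟨N, q, c, hq, ho, hbk⟩ := hRR k η hk.sa hη
  set S : Finset (Fin N) := Finset.univ.filter fun i => e ≤ c i ∧ q i ≠ 0 with hSdef
  have hS : ∀ i ∈ S, e ≤ c i := fun i hi => (Finset.mem_filter.1 hi).2.1
  have hS0 : ∀ i ∈ S, q i ≠ 0 := fun i hi => (Finset.mem_filter.1 hi).2.2
  have hS' : ∀ i, i ∉ S → c i ≤ e ∨ q i = 0 := by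
    intro i hi
    by_contra h
    rw [not_or, not_le] at h
    exact hi (Finset.mem_filter.2 ⟨Finset.mem_univ _, h.1.le, h.2⟩)
  obtain ⟨g, hg1, hg2, hg3, hg4, hg5, hg6, hg7⟩ :=
    step k q c e η he he1 hη.le hηe hk hq ho hbk S hS hS'
  obtain ⟨hp, hpS, -⟩ := sum_prj hq ho S
  set p := ∑ i ∈ S, q i with hpdef
  set b := ∑ i, (c i : ℂ) • q i with hbdef
  -- products of the new elements
  have hprod : ∀ (i j : n) (s t : A), star (x i * (g * s)) * (x j * (g * t)) =
      star s * (g * (star (x i) * x j) * g) * t := by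
    intro i j s t
    rw [star_mul, star_mul, hg1]
    simp only [mul_assoc]
  have hii : ∀ (i : n) (s t : A), star (x i * (g * s)) * (x i * (g * t)) = star s * p * t := by
    intro i s t
    rw [hprod, hxx, hg4]
  have hij : ∀ (i j : n) (s t : A), i ≠ j → star (x i * (g * s)) * (x j * (g * t)) = 0 := by
    intro i j s t h
    rw [hprod, hxy i j h]
    simp
  let f : Fin S.card ≃ S := S.equivFin.symm
  have hfS : ∀ a, ((f a : S) : Fin N) ∈ S := fun a => (f a).2
  refine ⟨S.card, fun a i => x i * (g * q (f a)), fun a => q (f a), fun a => c (f a), ?_, ?_, ?_,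
    ?_, ?_, ?_, ?_⟩
  · exact fun a => ⟨hq _, hS0 _ (hfS a)⟩
  · intro a
    refine ⟨he.le.trans (hS _ (hfS a)), ?_⟩
    have h1 : ((c (f a) : ℝ) : ℂ) • q (f a) = q (f a) * b := by
      rw [hbdef, Finset.mul_sum, Finset.sum_eq_single_of_mem (f a : Fin N) (Finset.mem_univ _)
        fun j _ hj => by rw [mul_smul_comm, ho _ _ hj.symm, smul_zero], mul_smul_comm, (hq _).2]
    have h2 : ‖((c (f a) : ℝ) : ℂ) • q (f a)‖ = c (f a) := by
      rw [norm_smul, prj_norm_eq (hq _) (hS0 _ (hfS a)), mul_one, Complex.norm_real,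
        Real.norm_of_nonneg (he.le.trans (hS _ (hfS a)))]
    have h3 : ‖b‖ ≤ ‖k‖ + η := by
      calc ‖b‖ = ‖k + (b - k)‖ := by rw [add_sub_cancel]
        _ ≤ ‖k‖ + ‖b - k‖ := norm_add_le _ _
        _ ≤ ‖k‖ + η := by linarith
    calc c (f a) = ‖q (f a) * b‖ := by rw [← h1, h2]
      _ ≤ ‖q (f a)‖ * ‖b‖ := norm_mul_le _ _
      _ ≤ 1 * ‖b‖ := mul_le_mul_of_nonneg_right (prj_norm_le (hq _)) (norm_nonneg _)
      _ ≤ ‖k‖ + ε := by linarith
  · intro a i
    rw [hii, (hq _).1, mul_assoc, (hpS _ (hfS a)).1, (hq _).2]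
  · intro a i j h
    exact hij i j _ _ h
  · intro a a' i j h
    by_cases h1 : i = j
    · subst h1
      rw [hii, (hq _).1, mul_assoc, (hpS _ (hfS a')).1]
      exact ho _ _ fun h2 => h (f.injective (Subtype.ext h2))
    · exact hij i j _ _ h1
  · exact fun a i => ⟨_, rfl⟩
  · intro i j
    have e1 : ∑ a, ((c (f a) : ℝ) : ℂ) • (x i * (g * q (f a)) * star (x j * (g * q (f a)))) =
        x i * (g * b * g) * star (x j) := by
      have e2 : ∀ a : Fin S.card, ((c (f a) : ℝ) : ℂ) • (x i * (g * q (f a)) *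
          star (x j * (g * q (f a)))) =
          x i * (g * (((c (f a) : ℝ) : ℂ) • q (f a)) * g) * star (x j) := by
        intro a
        rw [star_mul, star_mul, hg1, (hq _).1]
        have e3 : x i * (g * q (f a)) * (q (f a) * g * star (x j)) =
            x i * (g * (q (f a) * q (f a)) * g) * star (x j) := by
          simp only [mul_assoc]
        rw [e3, (hq _).2]
        simp only [mul_smul_comm, smul_mul_assoc]
      rw [Finset.sum_congr rfl fun a _ => e2 a, ← Finset.sum_mul, ← Finset.mul_sum,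
        ← Finset.sum_mul, ← Finset.mul_sum]
      have e4 : ∑ a : Fin S.card, ((c (f a) : ℝ) : ℂ) • q (f a) = ∑ i ∈ S, (c i : ℂ) • q i := by
        rw [Equiv.sum_comp f fun s : S => ((c (s : Fin N) : ℝ) : ℂ) • q (s : Fin N)]
        exact Finset.sum_coe_sort S fun i => (c i : ℂ) • q i
      rw [e4, ← hg7]
      have e5 : g * (p * b * p) * g = g * b * g := by
        calc g * (p * b * p) * g = (g * p) * b * (p * g) := by simp only [mul_assoc]
          _ = g * b * g := by rw [hg2, hg3]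
      rw [e5]
    beta_reduce
    rw [e1]
    have e6 : x i * (g * b * g) * star (x j) - x i * star (x j) =
        x i * (g * (b - k) * g) * star (x j) - (x i - x i * p) * star (x j - x j * p) := by
      have e7 : x i * (g * (b - k) * g) * star (x j) =
          x i * (g * b * g) * star (x j) - x i * p * star (x j) := by
        rw [mul_sub g, sub_mul (g * b), hg4, mul_sub, sub_mul]
      have e8 : (x i - x i * p) * star (x j - x j * p) = x i * star (x j) - x i * p * star (x j) := by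
        rw [star_sub, star_mul, hp.1, sub_mul, mul_sub, mul_sub, ← mul_assoc (x i) p,
          ← mul_assoc (x i * p) p, mul_assoc (x i) p p, hp.2, sub_self, sub_zero]
      rw [e7, e8]
      abel
    rw [e6]
    have hxn : ∀ i, ‖x i‖ * ‖x i‖ = ‖k‖ := fun i => by
      rw [← CStarRing.norm_star_mul_self, hxx]
    have hxp : ∀ i, ‖x i - x i * p‖ * ‖x i - x i * p‖ ≤ e + η := by
      intro i
      rw [← CStarRing.norm_star_mul_self]
      have e9 : star (x i - x i * p) * (x i - x i * p) = k - p * k - k * p + p * k * p := by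
        rw [star_sub, star_mul, hp.1, sub_mul, mul_sub, mul_sub, hxx, ← mul_assoc (star (x i)),
          hxx, mul_assoc p, hxx, mul_assoc p, ← mul_assoc (star (x i)), hxx]
        rw [← mul_assoc p k p]
        abel
      rw [e9]
      exact hg6
    have hmid : ‖g * (b - k) * g‖ ≤ 2 / e * η := by
      calc ‖g * (b - k) * g‖ ≤ ‖g * (b - k)‖ * ‖g‖ := norm_mul_le _ _
        _ ≤ ‖g‖ * ‖b - k‖ * ‖g‖ := mul_le_mul_of_nonneg_right (norm_mul_le _ _) (norm_nonneg _)
        _ = ‖g‖ * ‖g‖ * ‖b - k‖ := by ring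
        _ ≤ 2 / e * η := mul_le_mul hg5 hbk (norm_nonneg _) (by positivity)
    have hab : ∀ a b' C : ℝ, 0 ≤ a → 0 ≤ b' → a * a ≤ C → b' * b' ≤ C → a * b' ≤ C := by
      intro a b' C ha hb' h1 h2
      nlinarith [sq_nonneg (a - b')]
    have h1 : ‖x i * (g * (b - k) * g) * star (x j)‖ ≤ ε / 4 := by
      calc ‖x i * (g * (b - k) * g) * star (x j)‖ ≤ ‖x i * (g * (b - k) * g)‖ * ‖star (x j)‖ :=
            norm_mul_le _ _
        _ ≤ ‖x i‖ * ‖g * (b - k) * g‖ * ‖x j‖ := by
            rw [norm_star]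
            exact mul_le_mul_of_nonneg_right (norm_mul_le _ _) (norm_nonneg _)
        _ = ‖x i‖ * ‖x j‖ * ‖g * (b - k) * g‖ := by ring
        _ ≤ ‖k‖ * (2 / e * η) := mul_le_mul (hab _ _ _ (norm_nonneg _) (norm_nonneg _) (hxn i).le
            (hxn j).le) hmid (norm_nonneg _) hk0
        _ ≤ ε / 4 := hηk
    have h2 : ‖(x i - x i * p) * star (x j - x j * p)‖ ≤ e + η := by
      calc ‖(x i - x i * p) * star (x j - x j * p)‖ ≤ ‖x i - x i * p‖ * ‖star (x j - x j * p)‖ :=
            norm_mul_le _ _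
        _ = ‖x i - x i * p‖ * ‖x j - x j * p‖ := by rw [norm_star]
        _ ≤ e + η := hab _ _ _ (norm_nonneg _) (norm_nonneg _) (hxp i) (hxp j)
    calc ‖x i * (g * (b - k) * g) * star (x j) - (x i - x i * p) * star (x j - x j * p)‖
        ≤ ‖x i * (g * (b - k) * g) * star (x j)‖ + ‖(x i - x i * p) * star (x j - x j * p)‖ :=
          norm_sub_le _ _
      _ ≤ ε / 4 + (e + η) := add_le_add h1 h2
      _ ≤ ε := by linarith

end Pool.Agent.Helper7_ND.J_RB
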