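import Pool.Agent.Helper7_ND.Stm8
import Pool.Agent.Helper7_ND.Rp
import Pool.Agent.Helper7_ND.J_ROW

/-! # Real rank zero: the up maps can be chosen as injective homomorphisms (helper382, job RR of
helper7) -/

set_option autoImplicit false

open scoped Matrix.Norms.L2Operator ENNReal Matrix
open Pool.Agent.W659.EC

noncomputable section

namespace Pool.Agent.Helper7_ND.J_RR

theorem norm_entry_le' {n : Type} [Fintype n] [DecidableEq n] (A : Matrix n n ℂ) (i j : n) :
    ‖A i j‖ ≤ ‖A‖ := by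
  have h := A.l2_opNorm_mulVec (EuclideanSpace.single j (1 : ℂ))
  rw [PiLp.norm_single, norm_one, mul_one] at h
  refine le_trans ?_ h
  have := PiLp.norm_apply_le
    ((EuclideanSpace.equiv n ℂ).symm <| A *ᵥ (EuclideanSpace.single j (1 : ℂ))) i
  simpa using this

theorem norm_entry_le (F : FDA) (y : F.alg) (l : F.ι) (i j : F.n l) : ‖y l i j‖ ≤ ‖y‖ :=
  (norm_entry_le' (y l) i j).trans (norm_le_pi_norm y l)

/-- the norm of a projection -/
theorem prj_norm {A : Type} [NonUnitalCStarAlgebra A] {p : A} (h1 : star p = p) (h2 : p * p = p) :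
    ‖p‖ ≤ 1 := by
  have h3 : ‖p‖ * ‖p‖ = ‖p‖ := by
    rw [← CStarRing.norm_star_mul_self, h1, h2]
  by_contra h4
  push Not at h4
  nlinarith

theorem mu_same (F : FDA) (l : F.ι) (i j : F.n l) : mu F l i j l i j = 1 := by
  classical
  rw [mu, Pi.single_eq_same, Matrix.single_apply_same]

theorem mu_off (F : FDA) (l : F.ι) (i j p q : F.n l) (h : ¬ (i = p ∧ j = q)) :
    mu F l i j l p q = 0 := by
  classical
  rw [mu, Pi.single_eq_same]
  exact if_neg h

theorem mu_ne (F : FDA) (l l' : F.ι) (i j : F.n l) (p q : F.n l') (h : l' ≠ l) :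
    mu F l i j l' p q = 0 := by
  classical
  rw [mu, Pi.single_eq_of_ne h]
  rfl

theorem mu_norm (F : FDA) (l : F.ι) (i : F.n l) : ‖mu F l i i‖ ≤ 1 :=
  prj_norm (J_ROW.star_mu l i i) (J_ROW.mu_mul_same l i i i)

section hom

variable {F : FDA} {A : Type} [NonUnitalCStarAlgebra A]

/-- exact rows -/
theorem row_facts {x : ∀ l : F.ι, F.n l → A} {k : F.ι → A} (hx : IsRow F x k 0) :
    (∀ l i, star (x l i) * x l i = k l) ∧ (∀ l i j, i ≠ j → star (x l i) * x l j = 0) ∧
      ∀ l l' i j, l ≠ l' → star (x l i) * x l' j = 0 := by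
  obtain ⟨h1, h2, h3⟩ := hx
  exact ⟨fun l i => sub_eq_zero.1 (norm_le_zero_iff.1 (h1 l i)),
    fun l i j h => norm_le_zero_iff.1 (h2 l i j h),
    fun l l' i j h => norm_le_zero_iff.1 (h3 l l' i j h)⟩

theorem mk_row {x : ∀ l : F.ι, F.n l → A} {k : F.ι → A}
    (h1 : ∀ l i, star (x l i) * x l i = k l) (h2 : ∀ l i j, i ≠ j → star (x l i) * x l j = 0)
    (h3 : ∀ l l' i j, l ≠ l' → star (x l i) * x l' j = 0) : IsRow F x k 0 :=
  ⟨fun l i => by rw [h1, sub_self, norm_zero], fun l i j h => by rw [h2 l i j h, norm_zero],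
    fun l l' i j h => by rw [h3 l l' i j h, norm_zero]⟩

/-- partial isometries -/
theorem row_abs {y p : A} (hp : star p = p) (hpp : p * p = p) (h : star y * y = p) :
    y * p = y := by
  rw [← sub_eq_zero, ← CStarRing.star_mul_self_eq_zero_iff]
  have e1 : star (y * p - y) = p * star y - star y := by rw [star_sub, star_mul, hp]
  have e2 : p * star y * (y * p) = p := by
    rw [show p * star y * (y * p) = p * (star y * y) * p by simp only [mul_assoc], h, hpp, hpp]
  have e3 : p * star y * y = p := by rw [mul_assoc, h, hpp]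
  have e4 : star y * (y * p) = p := by rw [← mul_assoc, h, hpp]
  rw [e1, sub_mul, mul_sub, mul_sub, e2, e3, e4, h]
  simp

theorem rowMap_apply (x : ∀ l : F.ι, F.n l → A) (y : F.alg) :
    rowMap F x y = ∑ l, ∑ i, ∑ j, y l i j • (x l i * star (x l j)) := rfl

theorem rowMap_star (x : ∀ l : F.ι, F.n l → A) (y : F.alg) :
    rowMap F x (star y) = star (rowMap F x y) :=
  (J_ROW.isCP_rowMap x).star_map y

/-- the homomorphism given by an exact row with projections on the diagonal -/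
def rowHom (x : ∀ l : F.ι, F.n l → A) (k : F.ι → A) (hx : IsRow F x k 0)
    (hk : ∀ l, Prj (k l)) : F.alg →⋆ₙₐ[ℂ] A where
  toFun := rowMap F x
  map_smul' c y := map_smul (rowMap F x) c y
  map_zero' := map_zero (rowMap F x)
  map_add' := map_add (rowMap F x)
  map_mul' a b := by
    rw [J_ROW.row_mul hx, rowMap_apply]
    refine Finset.sum_congr rfl fun l _ => Finset.sum_congr rfl fun i _ =>
      Finset.sum_congr rfl fun q _ => ?_
    rw [row_abs (hk l).1 (hk l).2 ((row_facts hx).1 l i)]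
  map_star' := rowMap_star x

theorem rowHom_apply (x : ∀ l : F.ι, F.n l → A) (k : F.ι → A) (hx : IsRow F x k 0)
    (hk : ∀ l, Prj (k l)) (y : F.alg) : rowHom x k hx hk y = rowMap F x y := rfl

/-- compressions of row maps -/
theorem compress {x : ∀ l : F.ι, F.n l → A} {k : F.ι → A} (hx : IsRow F x k 0) (y : F.alg)
    (l : F.ι) (i j : F.n l) :
    star (x l i) * rowMap F x y * x l j = y l i j • (k l * k l) := by
  obtain ⟨h1, h2, h3⟩ := row_facts hx
  rw [rowMap_apply, Finset.mul_sum, Finset.sum_mul, Finset.sum_eq_single l]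
  · rw [Finset.mul_sum, Finset.sum_mul, Finset.sum_eq_single i]
    · rw [Finset.mul_sum, Finset.sum_mul, Finset.sum_eq_single j]
      · rw [mul_smul_comm, smul_mul_assoc]
        congr 1
        rw [show star (x l i) * (x l i * star (x l j)) * x l j
          = (star (x l i) * x l i) * (star (x l j) * x l j) by simp only [mul_assoc], h1, h1]
      · intro j' _ hj
        rw [mul_smul_comm, smul_mul_assoc]
        rw [show star (x l i) * (x l i * star (x l j')) * x l j
          = (star (x l i) * x l i) * (star (x l j') * x l j) by simp only [mul_assoc],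
          h2 l j' j hj, mul_zero, smul_zero]
      · intro h; exact absurd (Finset.mem_univ j) h
    · intro i' _ hi
      rw [Finset.mul_sum, Finset.sum_mul]
      refine Finset.sum_eq_zero fun j' _ => ?_
      rw [mul_smul_comm, smul_mul_assoc]
      rw [show star (x l i) * (x l i' * star (x l j')) * x l j
        = (star (x l i) * x l i') * (star (x l j') * x l j) by simp only [mul_assoc],
        h2 l i i' (Ne.symm hi), zero_mul, smul_zero]
    · intro h; exact absurd (Finset.mem_univ i) h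
  · intro l' _ hl
    rw [Finset.mul_sum, Finset.sum_mul]
    refine Finset.sum_eq_zero fun i' _ => ?_
    rw [Finset.mul_sum, Finset.sum_mul]
    refine Finset.sum_eq_zero fun j' _ => ?_
    rw [mul_smul_comm, smul_mul_assoc]
    rw [show star (x l i) * (x l' i' * star (x l' j')) * x l j
      = (star (x l i) * x l' i') * (star (x l' j') * x l j) by simp only [mul_assoc],
      h3 l l' i i' (Ne.symm hl), zero_mul, smul_zero]
  · intro h; exact absurd (Finset.mem_univ l) h

theorem rowHom_inj (x : ∀ l : F.ι, F.n l → A) (k : F.ι → A) (hx : IsRow F x k 0)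
    (hk : ∀ l, Prj (k l)) (h0 : ∀ l, k l ≠ 0) : Function.Injective (rowHom x k hx hk) := by
  rw [injective_iff_map_eq_zero]
  intro y hy
  rw [rowHom_apply] at hy
  funext l
  ext i j
  have h1 := compress hx y l i j
  rw [hy, mul_zero, zero_mul, (hk l).2] at h1
  rcases smul_eq_zero.1 h1.symm with h2 | h2
  · exact h2
  · exact absurd h2 (h0 l)

end hom

/-- algebras of real rank zero have projections -/
theorem exists_prj {A : Type} [NonUnitalCStarAlgebra A] [Nontrivial A] (h : RR0 A) :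
    ∃ p : A, Prj p ∧ p ≠ 0 := by
  obtain ⟨a, ha⟩ := exists_ne (0 : A)
  have hb : star a * a ≠ 0 := fun h0 => ha (CStarRing.star_mul_self_eq_zero_iff a |>.1 h0)
  have hbn : 0 < ‖star a * a‖ := norm_pos_iff.2 hb
  obtain ⟨n, p, c, h1, -, h3⟩ := h (star a * a) (‖star a * a‖ / 2) (by simp) (by positivity)
  by_contra hno
  push Not at hno
  have h4 : ∀ i, p i = 0 := fun i => hno _ (h1 i)
  have h5 : ∑ i, (c i : ℂ) • p i = 0 := Finset.sum_eq_zero fun i _ => by rw [h4 i, smul_zero]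
  rw [h5, zero_sub, norm_neg] at h3
  linarith

/-- the blocks of `F` with multiplicities -/
abbrev FF (F : FDA) (m : F.ι → ℕ) : FDA where
  ι := Σ l : F.ι, Fin (m l)
  n := fun s => F.n s.1
  fι := inferInstance
  fn := fun s => F.fn s.1
  dn := fun s => F.dn s.1

/-- the weighted diagonal map -/
def th (F : FDA) (m : F.ι → ℕ) (d : ∀ l, Fin (m l) → ℝ) : F.alg →ₗ[ℂ] (FF F m).alg where
  toFun y := fun s => (d s.1 s.2 : ℂ) • y s.1
  map_add' y z := by
    funext s
    exact smul_add (d s.1 s.2 : ℂ) (y s.1) (z s.1)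
  map_smul' c y := by
    funext s
    exact smul_comm (d s.1 s.2 : ℂ) c (y s.1)

theorem th_apply (F : FDA) (m : F.ι → ℕ) (d : ∀ l, Fin (m l) → ℝ) (y : F.alg) (l : F.ι)
    (a : Fin (m l)) : th F m d y ⟨l, a⟩ = (d l a : ℂ) • y l := rfl

theorem isCP_th (F : FDA) (m : F.ι → ℕ) (d : ∀ l, Fin (m l) → ℝ) (hd : ∀ l a, 0 ≤ d l a) :
    IsCP (th F m d) := by
  intro k M
  refine ⟨M.map fun y => (fun s => ((Real.sqrt (d s.1 s.2) : ℝ) : ℂ) • y s.1 : (FF F m).alg), ?_⟩
  refine Matrix.ext fun i j => ?_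
  funext s
  obtain ⟨l, a⟩ := s
  rw [Matrix.map_apply, th_apply, Matrix.mul_apply, Matrix.mul_apply, Finset.sum_apply,
    Finset.sum_apply, Finset.smul_sum]
  refine Finset.sum_congr rfl fun c _ => ?_
  rw [Matrix.conjTranspose_apply, Matrix.conjTranspose_apply, Matrix.map_apply, Matrix.map_apply,
    Pi.mul_apply, Pi.mul_apply, Pi.star_apply, Pi.star_apply]
  change _ = star (((Real.sqrt (d l a) : ℝ) : ℂ) • M c i l) * (((Real.sqrt (d l a) : ℝ) : ℂ) •
    M c j l)
  rw [star_smul, smul_mul_smul_comm, Complex.star_def, Complex.conj_ofReal,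
    ← Complex.ofReal_mul, Real.mul_self_sqrt (hd l a)]

theorem norm_th (F : FDA) (m : F.ι → ℕ) (d : ∀ l, Fin (m l) → ℝ) {D : ℝ} (hD : 0 ≤ D)
    (hd : ∀ l a, |d l a| ≤ D) (y : F.alg) : ‖th F m d y‖ ≤ D * ‖y‖ := by
  rw [pi_norm_le_iff_of_nonneg (by positivity)]
  rintro ⟨l, a⟩
  change ‖((d l a : ℝ) : ℂ) • (y l : Matrix (F.n l) (F.n l) ℂ)‖ ≤ D * ‖y‖
  rw [norm_smul, Complex.norm_real, Real.norm_eq_abs]
  exact mul_le_mul (hd l a) (norm_le_pi_norm y l) (norm_nonneg _) hD

theorem rowMap_th {A : Type} [NonUnitalCStarAlgebra A] (F : FDA) (m : F.ι → ℕ)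
    (d : ∀ l, Fin (m l) → ℝ) (Y : ∀ l, Fin (m l) → F.n l → A) (y : F.alg) :
    rowMap (FF F m) (fun s i => Y s.1 s.2 i) (th F m d y) =
      ∑ l, ∑ i, ∑ j, y l i j • ∑ a, (d l a : ℂ) • (Y l a i * star (Y l a j)) := by
  have h1 : rowMap (FF F m) (fun s i => Y s.1 s.2 i) (th F m d y) = ∑ l, ∑ a : Fin (m l),
      ∑ i, ∑ j, ((d l a : ℂ) * y l i j) • (Y l a i * star (Y l a j)) := by
    rw [rowMap_apply]
    exact Fintype.sum_sigma (fun s : (Σ l : F.ι, Fin (m l)) => ∑ i, ∑ j,
      ((d s.1 s.2 : ℂ) * y s.1 i j) • (Y s.1 s.2 i * star (Y s.1 s.2 j)))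
  rw [h1]
  refine Finset.sum_congr rfl fun l _ => ?_
  rw [Finset.sum_comm]
  refine Finset.sum_congr rfl fun i _ => ?_
  rw [Finset.sum_comm]
  refine Finset.sum_congr rfl fun j _ => ?_
  rw [Finset.smul_sum]
  refine Finset.sum_congr rfl fun a _ => ?_
  rw [smul_smul, mul_comm]

/-- estimate for linear combinations of matrix entries -/
theorem entries_le {A : Type} [NonUnitalCStarAlgebra A] (F : FDA) {e : ℝ}
    (v : ∀ l, F.n l → F.n l → A) (hv : ∀ l i j, ‖v l i j‖ ≤ e) (y : F.alg) :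
    ‖∑ l, ∑ i, ∑ j, y l i j • v l i j‖ ≤
      (∑ l : F.ι, ∑ _i : F.n l, ∑ _j : F.n l, (1 : ℝ)) * (‖y‖ * e) := by
  rw [Finset.sum_mul]
  refine (norm_sum_le _ _).trans (Finset.sum_le_sum fun l _ => ?_)
  rw [Finset.sum_mul]
  refine (norm_sum_le _ _).trans (Finset.sum_le_sum fun i _ => ?_)
  rw [Finset.sum_mul]
  refine (norm_sum_le _ _).trans (Finset.sum_le_sum fun j _ => ?_)
  rw [norm_smul, one_mul]
  exact mul_le_mul (norm_entry_le F y l i j) (hv l i j) (norm_nonneg _) (norm_nonneg _)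

/-- the one point algebra -/
def onePt : FDA where
  ι := Unit
  n := fun _ => Unit

theorem nontriv {F : FDA} (l : F.ι) (i : F.n l) : Nontrivial F.alg := by
  refine ⟨0, mu F l i i, fun h => ?_⟩
  have h1 : (0 : F.alg) l i i = mu F l i i l i i := by rw [← h]
  rw [mu_same] at h1
  exact zero_ne_one h1

/-- the main step -/
theorem step (hRB : StRB) (hROW : StROW) {A : Type} [NonUnitalCStarAlgebra A] [Nontrivial A]
    (hA : RR0 A) (F : FDA) (φ : F.alg →ₗ[ℂ] A) (hφ : IsCPC φ) (hφ0 : IsOrderZero φ) {η : ℝ}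
    (hη : 0 < η) : ∃ (F' : FDA) (θ : F.alg →ₗ[ℂ] F'.alg) (φ' : F'.alg →⋆ₙₐ[ℂ] A),
      IsCPC θ ∧ Function.Injective φ' ∧ Nontrivial F'.alg ∧
      ∀ y, ‖φ' (θ y) - φ y‖ ≤ η * ‖y‖ := by
  classical
  obtain ⟨Nn, hNn⟩ : ∃ Nn : ℝ, Nn = ∑ l : F.ι, ∑ _i : F.n l, ∑ _j : F.n l, (1 : ℝ) := ⟨_, rfl⟩
  have hN0 : 0 ≤ Nn := by
    rw [hNn]
    exact Finset.sum_nonneg fun l _ => Finset.sum_nonneg fun i _ =>
      Finset.sum_nonneg fun j _ => zero_le_one
  obtain ⟨ε0, hε0⟩ : ∃ ε0 : ℝ, ε0 = η / 4 := ⟨_, rfl⟩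
  obtain ⟨ε1, hε1⟩ : ∃ ε1 : ℝ, ε1 = η / (4 * (1 + Nn)) := ⟨_, rfl⟩
  have hε0p : 0 < ε0 := by rw [hε0]; positivity
  have hε1p : 0 < ε1 := by rw [hε1]; positivity
  have hε1N : ε1 + Nn * ε1 = η / 4 := by
    rw [hε1]
    field_simp
  obtain ⟨x, k, hx, hk, hxφ⟩ := hROW.2.2 F A φ ε0 hε0p hφ hφ0
  obtain ⟨hx1, hx2, hx3⟩ := row_facts hx
  have hkn : ∀ l, Nonempty (F.n l) → ‖k l‖ ≤ 1 + ε0 := by
    rintro l ⟨i⟩
    have e1 : rowMap F x (mu F l i i) = x l i * star (x l i) := by
      rw [rowMap_apply, Finset.sum_eq_single l]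
      · rw [Finset.sum_eq_single i]
        · rw [Finset.sum_eq_single i]
          · rw [mu_same, one_smul]
          · intro j _ hj
            rw [mu_off F l i i i j fun h => hj h.2.symm, zero_smul]
          · intro h; exact absurd (Finset.mem_univ i) h
        · intro i' _ hi
          refine Finset.sum_eq_zero fun j _ => ?_
          rw [mu_off F l i i i' j fun h => hi h.1.symm, zero_smul]
        · intro h; exact absurd (Finset.mem_univ i) h
      · intro l' _ hl
        refine Finset.sum_eq_zero fun i' _ => Finset.sum_eq_zero fun j' _ => ?_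
        rw [mu_ne F l l' i i i' j' hl, zero_smul]
      · intro h; exact absurd (Finset.mem_univ l) h
    have e2 : ‖k l‖ = ‖rowMap F x (mu F l i i)‖ := by
      rw [e1, ← hx1 l i, CStarRing.norm_star_mul_self, CStarRing.norm_self_mul_star]
    rw [e2]
    have e3 := hxφ (mu F l i i)
    have e4 := hφ.2 (mu F l i i)
    have e5 := mu_norm F l i
    calc ‖rowMap F x (mu F l i i)‖
        = ‖(rowMap F x (mu F l i i) - φ (mu F l i i)) + φ (mu F l i i)‖ := by rw [sub_add_cancel]
      _ ≤ ‖rowMap F x (mu F l i i) - φ (mu F l i i)‖ + ‖φ (mu F l i i)‖ := norm_add_le _ _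
      _ ≤ ε0 * ‖mu F l i i‖ + ‖mu F l i i‖ := add_le_add e3 e4
      _ ≤ ε0 * 1 + 1 := by gcongr
      _ = 1 + ε0 := by ring
  have hblk : ∀ l, ∃ (m : ℕ) (Y : Fin m → F.n l → A) (p : Fin m → A) (c : Fin m → ℝ),
      (∀ a, Prj (p a) ∧ p a ≠ 0) ∧ (∀ a, 0 ≤ c a ∧ c a ≤ 1 + ε0 + ε1) ∧
      (∀ a i, star (Y a i) * Y a i = p a) ∧
      (∀ a i j, i ≠ j → star (Y a i) * Y a j = 0) ∧
      (∀ a b i j, a ≠ b → star (Y a i) * Y b j = 0) ∧
      (∀ a i, ∃ z : A, Y a i = x l i * z) ∧
      (∀ i j, ‖∑ a, (c a : ℂ) • (Y a i * star (Y a j)) - x l i * star (x l j)‖ ≤ ε1) ∧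
      ∀ _a : Fin m, Nonempty (F.n l) := by
    intro l
    by_cases hne : Nonempty (F.n l)
    · obtain ⟨m, Y, p, c, g1, g2, g3, g4, g5, g6, g7⟩ := hRB A hA (F.n l) (x l) (k l) ε1 hε1p
        (hk l) (hx1 l) (hx2 l)
      refine ⟨m, Y, p, c, g1, fun a => ⟨(g2 a).1, (g2 a).2.trans ?_⟩, g3, g4, g5, g6, g7,
        fun _ => hne⟩
      have := hkn l hne
      linarith
    · refine ⟨0, fun a => a.elim0, fun a => a.elim0, fun a => a.elim0, fun a => a.elim0,
        fun a => a.elim0, fun a => a.elim0, fun a => a.elim0, fun a => a.elim0,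
        fun a => a.elim0, fun i => absurd ⟨i⟩ hne, fun a => a.elim0⟩
  choose m Y p c g1 g2 g3 g4 g5 g6 g7 g8 using hblk
  have hrow : IsRow (FF F m) (fun s i => Y s.1 s.2 i) (fun s => p s.1 s.2) 0 := by
    refine mk_row (F := FF F m) (fun s i => g3 s.1 s.2 i) (fun s i j h => g4 s.1 s.2 i j h) ?_
    rintro ⟨l, a⟩ ⟨l', b⟩ i j hne
    by_cases hl : l = l'
    · subst hl
      exact g5 l a b i j fun h => hne (by rw [h])
    · obtain ⟨z, hz⟩ := g6 l a i
      obtain ⟨z', hz'⟩ := g6 l' b j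
      change star (Y l a i) * Y l' b j = 0
      rw [hz, hz', star_mul, show star z * star (x l i) * (x l' j * z')
        = star z * (star (x l i) * x l' j) * z' by simp only [mul_assoc], hx3 l l' i j hl,
        mul_zero, zero_mul]
  set P : (FF F m).alg →⋆ₙₐ[ℂ] A := rowHom (F := FF F m) (fun s i => Y s.1 s.2 i)
    (fun s => p s.1 s.2) hrow (fun s => (g1 s.1 s.2).1) with hP
  have hPinj : Function.Injective P :=
    rowHom_inj (F := FF F m) _ _ _ _ fun s => (g1 s.1 s.2).2
  have hPn : ∀ w, ‖P w‖ ≤ ‖w‖ := fun w => NonUnitalStarAlgHom.norm_apply_le P w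
  -- the weights
  set d : ∀ l, Fin (m l) → ℝ := fun l a => min (c l a) 1 with hd
  have hd0 : ∀ l a, 0 ≤ d l a := fun l a => le_min (g2 l a).1 zero_le_one
  have hd1 : ∀ l a, |d l a| ≤ 1 := fun l a => by
    rw [abs_of_nonneg (hd0 l a)]; exact min_le_right _ _
  have hest : ∀ y, ‖P (th F m d y) - φ y‖ ≤ η * ‖y‖ := by
    intro y
    have e1 : ‖P (th F m d y) - P (th F m c y)‖ ≤ (ε0 + ε1) * ‖y‖ := by
      have e2 : th F m d y - th F m c y = th F m (fun l a => d l a - c l a) y := by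
        funext s
        obtain ⟨l, a⟩ := s
        rw [Pi.sub_apply, th_apply, th_apply, th_apply, ← sub_smul, Complex.ofReal_sub]
      rw [← map_sub, e2]
      refine (hPn _).trans (norm_th F m _ (by positivity) (fun l a => ?_) y)
      rw [abs_sub_comm, abs_of_nonneg (sub_nonneg.2 (min_le_left _ _))]
      rcases le_total (c l a) 1 with h | h
      · simp only [hd, min_eq_left h, sub_self]
        positivity
      · simp only [hd, min_eq_right h]
        have := (g2 l a).2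
        linarith
    have e3 : ‖P (th F m c y) - rowMap F x y‖ ≤ Nn * (‖y‖ * ε1) := by
      have e4 : P (th F m c y) - rowMap F x y = ∑ l, ∑ i, ∑ j, y l i j •
          (∑ a, (c l a : ℂ) • (Y l a i * star (Y l a j)) - x l i * star (x l j)) := by
        rw [hP, rowHom_apply, rowMap_th, rowMap_apply]
        simp only [smul_sub, Finset.sum_sub_distrib]
      rw [e4, hNn]
      exact entries_le F _ g7 y
    have e5 := hxφ y
    calc ‖P (th F m d y) - φ y‖
        = ‖(P (th F m d y) - P (th F m c y)) + (P (th F m c y) - rowMap F x y)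
          + (rowMap F x y - φ y)‖ := by congr 1; abel
      _ ≤ ‖P (th F m d y) - P (th F m c y)‖ + ‖P (th F m c y) - rowMap F x y‖
          + ‖rowMap F x y - φ y‖ := norm_add₃_le
      _ ≤ (ε0 + ε1) * ‖y‖ + Nn * (‖y‖ * ε1) + ε0 * ‖y‖ := add_le_add (add_le_add e1 e3) e5
      _ = (2 * ε0 + (ε1 + Nn * ε1)) * ‖y‖ := by ring
      _ ≤ η * ‖y‖ := by
          rw [hε1N, hε0]
          refine mul_le_mul_of_nonneg_right ?_ (norm_nonneg _)
          linarith
  have hcpc : IsCPC (th F m d) := ⟨isCP_th F m d hd0, fun y => by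
    have := norm_th F m d zero_le_one hd1 y
    rwa [one_mul] at this⟩
  by_cases hne : Nonempty (Σ l : F.ι, Fin (m l))
  · obtain ⟨⟨l, a⟩⟩ := hne
    obtain ⟨i⟩ := g8 l a
    exact ⟨FF F m, th F m d, P, hcpc, hPinj, nontriv (F := FF F m) ⟨l, a⟩ i, hest⟩
  · obtain ⟨q, hq, hq0⟩ := exists_prj hA
    have hq' : IsRow onePt (fun (_ : onePt.ι) (_ : onePt.n _) => q) (fun _ => q) 0 := by
      refine mk_row (F := onePt) (fun _ _ => by rw [hq.1, hq.2]) (fun l i j h => ?_)
        (fun l l' i j h => ?_)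
      · exact absurd (Subsingleton.elim (α := Unit) i j) h
      · exact absurd (Subsingleton.elim (α := Unit) l l') h
    refine ⟨onePt, 0, rowHom (F := onePt) _ _ hq' (fun _ => hq), ⟨IsCP.zero, fun y => ?_⟩,
      rowHom_inj (F := onePt) _ _ _ _ (fun _ => hq0), nontriv (F := onePt) () (), fun y => ?_⟩
    · rw [LinearMap.zero_apply, norm_zero]
      exact norm_nonneg _
    · have e1 : th F m d y = 0 := by
        funext s
        exact absurd ⟨s⟩ hne
      have e2 := hest y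
      rw [e1, map_zero] at e2
      rw [LinearMap.zero_apply, map_zero]
      exact e2

theorem t_RR (hRB : StRB) (hROW : StROW) : StRR := by
  intro A _ _ J _ hA hS G ε hε
  set C : ℝ := 1 + ∑ a ∈ G, ‖a‖ with hC
  have hC0 : 0 ≤ ∑ a ∈ G, ‖a‖ := Finset.sum_nonneg fun a _ => norm_nonneg a
  have hCG : ∀ a ∈ G, ‖a‖ ≤ C := fun a ha => by
    have := Finset.single_le_sum (f := fun a : A => ‖a‖) (fun a _ => norm_nonneg a) ha
    linarith
  set N : ℝ := (Fintype.card J : ℝ) with hN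
  have hN0 : 0 ≤ N := by rw [hN]; positivity
  set η : ℝ := ε / (2 * C * (N + 1)) with hη
  have hCp : 0 < C := by linarith
  have hηp : 0 < η := by positivity
  obtain ⟨F, ψ, φ, hψ, hφ, hG⟩ := hS G (ε / 2) (by positivity)
  have hst := fun j => step hRB hROW hA (F j) (φ j) (hφ j).1 (hφ j).2 hηp
  choose F' θ φ' h1 h2 h3 h4 using hst
  refine ⟨F', fun j => θ j ∘ₗ ψ j, φ', fun j => (h1 j).comp (hψ j), h2, h3, fun a ha => ?_⟩
  have e1 : ∀ j, ‖φ' j ((θ j ∘ₗ ψ j) a) - φ j (ψ j a)‖ ≤ η * C := by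
    intro j
    refine (h4 j (ψ j a)).trans ?_
    refine mul_le_mul_of_nonneg_left ?_ hηp.le
    exact ((hψ j).2 a).trans (hCG a ha)
  calc ‖∑ j, φ' j ((θ j ∘ₗ ψ j) a) - a‖
      = ‖∑ j, (φ' j ((θ j ∘ₗ ψ j) a) - φ j (ψ j a)) + (∑ j, φ j (ψ j a) - a)‖ := by
        rw [Finset.sum_sub_distrib]
        congr 1
        abel
    _ ≤ ‖∑ j, (φ' j ((θ j ∘ₗ ψ j) a) - φ j (ψ j a))‖ + ‖∑ j, φ j (ψ j a) - a‖ :=
        norm_add_le _ _
    _ ≤ ∑ _j : J, η * C + ε / 2 := by
        refine add_le_add ((norm_sum_le _ _).trans (Finset.sum_le_sum fun j _ => e1 j)) ?_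
        exact hG a ha
    _ = N * (η * C) + ε / 2 := by
        rw [Finset.sum_const, Finset.card_univ, nsmul_eq_mul]
    _ ≤ ε / 2 + ε / 2 := by
        refine add_le_add ?_ le_rfl
        have e2 : N * (η * C) = ε / 2 * (N / (N + 1)) := by
          rw [hη]
          field_simp
        rw [e2]
        have e3 : N / (N + 1) ≤ 1 := by
          rw [div_le_one (by positivity)]
          linarith
        nlinarith
    _ = ε := by ring

end Pool.Agent.Helper7_ND.J_RR
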