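import Pool.Agent.Helper7_ND.Stm7

/-! # Nuclear dimension of extensions: statements for ideals of real rank zero -/

set_option autoImplicit false

open scoped Matrix.Norms.L2Operator ENNReal Matrix
open Pool.Agent.W659.EC

noncomputable section

namespace Pool.Agent.Helper7_ND

/-- real rank zero: self-adjoint elements are approximated by finite real linear combinations of
pairwise orthogonal projections -/
def RR0 (A : Type) [NonUnitalCStarAlgebra A] : Prop :=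
  ∀ (a : A) (ε : ℝ), star a = a → 0 < ε → ∃ (n : ℕ) (p : Fin n → A) (c : Fin n → ℝ),
    (∀ i, Prj (p i)) ∧ (∀ i j, i ≠ j → p i * p j = 0) ∧ ‖∑ i, (c i : ℂ) • p i - a‖ ≤ ε

/-- coloured approximations whose up maps are injective homomorphisms -/
def SysH (A : Type) [NonUnitalCStarAlgebra A] (J : Type) [Fintype J] : Prop :=
  ∀ (G : Finset A) (ε : ℝ), 0 < ε →
    ∃ (F : J → FDA) (ψ : ∀ j, A →ₗ[ℂ] (F j).alg) (φ : ∀ j, (F j).alg →⋆ₙₐ[ℂ] A),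
      (∀ j, IsCPC (ψ j)) ∧ (∀ j, Function.Injective (φ j)) ∧ (∀ j, Nontrivial (F j).alg) ∧
      ∀ a ∈ G, ‖∑ j, φ j (ψ j a) - a‖ ≤ ε

/-- RB: one block of an exact row in an algebra of real rank zero -/
def StRB : Prop :=
  ∀ (A : Type) [NonUnitalCStarAlgebra A], RR0 A → ∀ (n : Type) [Fintype n] [DecidableEq n]
    (x : n → A) (k : A) (ε : ℝ), 0 < ε → Pos k → (∀ i, star (x i) * x i = k) →
    (∀ i j, i ≠ j → star (x i) * x j = 0) →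
    ∃ (m : ℕ) (y : Fin m → n → A) (p : Fin m → A) (c : Fin m → ℝ),
      (∀ a, Prj (p a) ∧ p a ≠ 0) ∧ (∀ a, 0 ≤ c a ∧ c a ≤ ‖k‖ + ε) ∧
      (∀ a i, star (y a i) * y a i = p a) ∧
      (∀ a i j, i ≠ j → star (y a i) * y a j = 0) ∧
      (∀ a b i j, a ≠ b → star (y a i) * y b j = 0) ∧
      (∀ a i, ∃ z : A, y a i = x i * z) ∧
      ∀ i j, ‖∑ a, (c a : ℂ) • (y a i * star (y a j)) - x i * star (x j)‖ ≤ ε

/-- RR: in algebras of real rank zero the up maps can be chosen as injective homomorphisms -/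
def StRR : Prop :=
  ∀ (A : Type) [NonUnitalCStarAlgebra A] [Nontrivial A] (J : Type) [Fintype J],
    RR0 A → SysAll A J → SysH A J

/-- the function that is `0` for `s ≤ a` and `1` for `s ≥ b` -/
def ramp (a b s : ℝ) : ℝ := clip ((s - a) / (b - a))

/-- the function `(ramp(κ/2, κ, s) / s)^{1/2}` -/
def mA (κ s : ℝ) : ℝ := Real.sqrt (ramp (κ / 2) κ s / max s (κ / 2))

/-- the function `(1 - δ / s)₊` -/
def wF (δ s : ℝ) : ℝ := max 0 (1 - δ / max s δ)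

/-- PP5: the projection of one colour -/
def StPP5 : Prop :=
  ∀ (T Q R : Type) [CStarAlgebra T] [CStarAlgebra Q] [CStarAlgebra R]
    (ω : T →⋆ₐ[ℂ] Q) (N : T →ₗ[ℂ] R) (P : R →⋆ₙₐ[ℂ] Q) (F : FDA)
    (Φ : F.alg →ₗ[ℂ] T) (v u t : T) (δ κ : ℝ),
    0 < δ → 0 < κ → CutE R → IsCP N → (∀ z, ‖N z‖ ≤ ‖ω z‖) → Function.Injective P →
    (∀ z, ω (z * v) = ω (v * z) → P (N z) = P (N 1) * ω z ∧ P (N z) = ω z * P (N 1)) →
    IsCP Φ → (∀ x y, ω (Φ x * Φ y) = ω (Φ 1 * Φ (x * y))) →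
    Pos v → ‖v‖ ≤ 1 → Pos u → ‖u‖ ≤ 1 → Pos t → ‖t‖ ≤ 1 →
    ω (v * u) = ω u → ω (u * t) = ω t →
    (∀ y, ω (v * Φ y) = ω (Φ y * v)) → (∀ y, ω (u * Φ y) = ω (Φ y * u)) →
    ∀ (ΦW : F.alg →ₗ[ℂ] T) (m m2 : R), ΦW = phW (cfc (wF δ) (Φ 1)) Φ →
      m = cfc (mA κ) (N 1) → m2 = cfc (ramp (2 * κ) (3 * κ)) (N 1) →
    ∃ p : R, Prj p ∧ (∀ y, P p * ω (Φ y) = ω (Φ y) * P p) ∧
      (∀ y, p * (m * N (Φ y) * m) = (m * N (Φ y) * m) * p) ∧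
      cfc (ramp (κ / 2) κ) (N 1) * p = p ∧
      (1 - P p) * ω (ΦW 1) * P (m2 * N (t * t) * m2) = 0

/-- QL: a projection between orthogonal positive elements -/
def StQL : Prop :=
  ∀ (R : Type) [CStarAlgebra R], SpecS R → ∀ (a b e : R) (τ : ℝ), 0 < τ → Pos a → Pos b →
    a * b = 0 → e * b = b →
    ∃ q : R, Prj q ∧ q * a = 0 ∧ e * q = q ∧ ‖(1 - q) * b * (1 - q)‖ ≤ τ

/-- COL5: one colour of the merging, for homomorphisms `P` -/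
def StCOL5 : Prop :=
  ∀ (ε₂ : ℝ), 0 < ε₂ → ∃ δ : ℝ, 0 < δ ∧
    ∀ (T Q R : Type) [CStarAlgebra T] [CStarAlgebra Q] [CStarAlgebra R]
      (ω : T →⋆ₐ[ℂ] Q) (N : T →ₗ[ℂ] R) (P : R →⋆ₙₐ[ℂ] Q) (F : FDA)
      (Φ : F.alg →ₗ[ℂ] T) (v u t : T) (ε : ℝ),
      CutE R → SpecS R → 0 < ε → ε ≤ 1 →
      IsCP N → (∀ z, ‖N z‖ ≤ ‖ω z‖) → Function.Injective P →
      (∀ z, ω (z * v) = ω (v * z) → P (N z) = P (N 1) * ω z ∧ P (N z) = ω z * P (N 1)) →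
      IsCP Φ → (∀ x y, ω (Φ x * Φ y) = ω (Φ 1 * Φ (x * y))) →
      Pos v → ‖v‖ ≤ 1 → Pos u → ‖u‖ ≤ 1 → Pos t → ‖t‖ ≤ 1 →
      ω (v * u) = ω u → ω (u * t) = ω t →
      (∀ y, ω (v * Φ y) = ω (Φ y * v)) → (∀ y, ω (u * Φ y) = ω (Φ y * u)) →
      Pos ((1 + ε : ℂ) • (1 : T) - t * t - Φ 1) →
      ∀ ΦW : F.alg →ₗ[ℂ] T, ΦW = phW (cfc (wF δ) (Φ 1)) Φ →
      ∃ (m q : R) (r : Q), star m = m ∧ Prj q ∧ star r = r ∧
        (∀ x y, (r * ω (ΦW x) * r) * (r * ω (ΦW y) * r)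
          = (r * ω (ΦW 1) * r) * (r * ω (ΦW (x * y)) * r)) ∧
        r * ω (ΦW 1) * r * P q = 0 ∧
        Pos ((1 + ε : ℂ) • (1 : Q) - r * ω (ΦW 1) * r) ∧
        ‖q * (m * N (Φ 1) * m + N (t * t)) * q‖ ≤ 1 + ε ∧
        ∀ (X : F.alg) (g : T),
          ‖r * ω (ΦW X) * r + P (q * (m * N (Φ X) * m + N (t * g * t)) * q)
            - (ω (Φ X) + P (N (t * g * t)))‖ ≤ ε₂ * (‖X‖ + ‖g‖)

/-- MRG5: merging all the colours -/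
def StMRG5 : Prop :=
  ∀ (I E : Type) [NonUnitalCStarAlgebra I] [NonUnitalCStarAlgebra E] [Nontrivial I]
    (ι : I →⋆ₙₐ[ℂ] E), IsIdeal ι → ∀ (J : Type) [Fintype J], SysH I J →
    ∀ (F : J → FDA) (ψ : ∀ j, E →ₗ[ℂ] (F j).alg) (Φ : ∀ j, (F j).alg →ₗ[ℂ] E) (t : I) (ε : ℝ),
    0 < ε → ε ≤ 1 → (∀ j, IsCPC (ψ j)) → (∀ j, IsCP (Φ j) ∧ IsOrderZero (Φ j)) → Pos t → ‖t‖ ≤ 1 →
    (∀ j, Pos ((1 + ε : ℂ) • (1 : Unitization ℂ E)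
            - ((ι (t * t) : E) : Unitization ℂ E) - ((Φ j 1 : E) : Unitization ℂ E))) →
    ∀ G : Finset E, ∃ (F' : J → FDA) (ψ' : ∀ c, E →ₗ[ℂ] (F' c).alg)
      (φ' : ∀ c, (F' c).alg →ₗ[ℂ] E),
      (∀ c, IsCP (ψ' c) ∧ ∀ x, ‖ψ' c x‖ ≤ (1 + 3 * ε) * ‖x‖) ∧
      (∀ c, IsCP (φ' c) ∧ IsOrderZero (φ' c) ∧ ∀ y, ‖φ' c y‖ ≤ (1 + 3 * ε) * ‖y‖) ∧
      ∀ x ∈ G, ‖∑ j, Φ j (ψ j x) + ι t * x * ι t - ∑ c, φ' c (ψ' c x)‖ ≤ ε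

/-- MAIN5: extensions by ideals of real rank zero -/
def StMAIN5 : Prop :=
  ∀ (I E D : Type) [NonUnitalCStarAlgebra I] [NonUnitalCStarAlgebra E]
    [NonUnitalCStarAlgebra D] (ι : I →⋆ₙₐ[ℂ] E) (π : E →⋆ₙₐ[ℂ] D), IsExt ι π → RR0 I →
    ∀ (J : Type) [Fintype J], SysAll I J → SysAll D J → SysAll E J

end Pool.Agent.Helper7_ND
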