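import Pool.Agent.Helper7_ND.Mrg7
import Pool.Agent.Helper7_ND.Stm8

/-! # The merging for ideals of real rank zero, I: the final assembly and the homomorphism `P` -/

set_option autoImplicit false
set_option linter.unusedSectionVars false
set_option linter.unusedVariables false

open scoped Matrix.Norms.L2Operator ENNReal Matrix
open Pool.Agent.W659.EC Filter

noncomputable section

namespace Pool.Agent.Helper7_ND.AllC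

/-- the weight of one colour -/
def wEl {A : Type} [CStarAlgebra A] (δ : ℝ) (c : A) : A := cfc (wF δ) c

/-- one colour of the final assembly at one index -/
theorem asm5 (hETA : StETA) (hSUM : StSUM) (hCOR : StCOR) {I E : Type} [NonUnitalCStarAlgebra I]
    [NonUnitalCStarAlgebra E] {ι : I →⋆ₙₐ[ℂ] E} {F G : FDA} (ψ : E →ₗ[ℂ] F.alg) (hψ : IsCPC ψ)
    (φ0 : G.alg →ₗ[ℂ] I) (hφ0 : IsCPC φ0 ∧ IsOrderZero φ0)
    (Lam : E →ₗ[ℂ] G.alg) (hLam : IsCP Lam) (ε εF : ℝ) (hε : 0 < ε) (hε1 : ε ≤ 1) (hεF : 0 < εF)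
    (hεF1 : εF ≤ ε / 2)
    (ρ ρ' : F.alg →ₗ[ℂ] E) (hρ1 : ‖ρ 1‖ ≤ 1 + 2 * ε) (hρ' : IsCP ρ') (hρ0 : IsOrderZero ρ')
    (hρρ : ∀ y, ‖ρ' y - ρ y‖ ≤ εF * ‖y‖) (Qp : G.alg) (hQp : Prj Qp)
    (hLn : ∀ x, ‖Qp * Lam x * Qp‖ ≤ (1 + 2 * ε) * ‖x‖)
    (hk : ∀ y, ρ' y * cfcₙ (fun s : ℝ => max (s - εF) 0) (ι (φ0 Qp)) = 0) :
    ∃ (K : FDA) (ψ' : E →ₗ[ℂ] K.alg) (φ' : K.alg →ₗ[ℂ] E),
      (IsCP ψ' ∧ ∀ x, ‖ψ' x‖ ≤ (1 + 3 * ε) * ‖x‖) ∧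
      (IsCP φ' ∧ IsOrderZero φ' ∧ ∀ y, ‖φ' y‖ ≤ (1 + 3 * ε) * ‖y‖) ∧
      ∀ x, ‖φ' (ψ' x) - (ρ (ψ x) + ι (φ0 (Qp * Lam x * Qp)))‖ ≤ 7 * εF * ‖x‖ := by
  obtain ⟨K, δ, υ, hδ, hυδ, hυ1⟩ := hCOR G Qp hQp
  set φK : K.alg →ₗ[ℂ] I := φ0 ∘ₗ (υ : K.alg →ₗ[ℂ] G.alg) with hφK
  have hφK1 : IsCPC φK := hφ0.1.comp (isCPC_hom υ _ fun _ => rfl)
  have hφK0 : IsOrderZero φK := by
    intro a b hab
    have h1 : star (υ a) * υ a * (star (υ b) * υ b) = 0 := by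
      rw [← map_star, ← map_mul, ← map_star, ← map_mul, ← map_mul, hab, map_zero]
    have h2 := hφ0.2 (υ a) (υ b) h1
    have h3 : υ (star a * a) = star (υ a) * υ a := by rw [map_mul, map_star]
    have h4 : υ (star b * b) = star (υ b) * υ b := by rw [map_mul, map_star]
    show φ0 (υ (star a * a)) * φ0 (υ (star b * b)) = 0
    rw [h3, h4]
    exact h2
  obtain ⟨η, hη1, hη0, hη2, hη3⟩ := hETA I K φK εF hεF hφK1 hφK0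
  have hφK1' : φK 1 = φ0 Qp := by show φ0 (υ 1) = _; rw [hυ1]
  -- orthogonality
  have hcfc : ι (cfcₙ (fun s : ℝ => max (s - εF) 0) (φK 1))
      = cfcₙ (fun s : ℝ => max (s - εF) 0) (ι (φ0 Qp)) := by
    rw [hφK1']
    have hsa : IsSelfAdjoint (φ0 Qp) := by
      have hPQ : Pos Qp := ⟨Qp, by rw [hQp.1, hQp.2]⟩
      exact (IsCP.pos hφ0.1.1 hPQ).sa
    have hc : Continuous ι := ((ι : I →ₗ[ℂ] E).mkContinuous 1 (fun x => by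
      rw [one_mul]; exact NonUnitalStarAlgHom.norm_apply_le ι x)).continuous
    exact NonUnitalStarAlgHom.map_cfcₙ (S := ℂ) ι (fun s : ℝ => max (s - εF) 0) (φ0 Qp)
      (hf₀ := by simp [hεF.le]) (hφ := hc) (hφa := hsa.map ι)
  set ηE : K.alg →ₗ[ℂ] E := (ι : I →ₗ[ℂ] E) ∘ₗ η with hηE
  have horth : ∀ x y, ρ' x * ηE y = 0 := by
    intro x y
    obtain ⟨c, hc⟩ := hη3 y
    show ρ' x * ι (η y) = 0
    rw [hc, map_mul, hcfc, ← mul_assoc, hk, zero_mul]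
  have hηEcp : IsCPC ηE := (isCPC_hom ι _ fun _ => rfl).comp hη1
  have hηE0 : IsOrderZero ηE := by
    intro a b hab
    show ι (η (star a * a)) * ι (η (star b * b)) = 0
    rw [← map_mul, hη0 a b hab, map_zero]
  have hcq : ∀ x, conjL Qp (Lam x) = Qp * Lam x * Qp := fun x => by rw [conjL_apply, hQp.1]
  set β : E →ₗ[ℂ] K.alg := δ ∘ₗ conjL Qp ∘ₗ Lam with hβ
  have hβx : ∀ x, β x = δ (Qp * Lam x * Qp) := fun x => by
    show δ (conjL Qp (Lam x)) = _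
    rw [hcq]
  have hβcp : IsCP β := hδ.1.comp ((isCP_conjL Qp).comp hLam)
  have hβn : ∀ x, ‖β x‖ ≤ (1 + 3 * ε) * ‖x‖ := by
    intro x
    rw [hβx]
    refine ((hδ.2 _).trans (hLn x)).trans ?_
    gcongr
    linarith
  have hψn : ∀ x, ‖ψ x‖ ≤ (1 + 3 * ε) * ‖x‖ := by
    intro x
    refine (hψ.2 x).trans ?_
    nlinarith [norm_nonneg x]
  have h1n : ‖(1 : F.alg)‖ ≤ 1 := norm_one_le
  have h1K : ‖(1 : K.alg)‖ ≤ 1 := norm_one_le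
  have hρ'1 : ‖ρ' 1‖ ≤ 1 + 3 * ε := by
    have e : ρ' 1 = (ρ' 1 - ρ 1) + ρ 1 := by abel
    rw [e]
    refine (norm_add_le _ _).trans ?_
    have := hρρ 1
    have h2 : εF * ‖(1 : F.alg)‖ ≤ εF * 1 := by gcongr
    linarith
  have hηE1 : ‖ηE 1‖ ≤ 1 + 3 * ε := by
    refine (hηEcp.2 1).trans ?_
    linarith
  obtain ⟨K', ψK, φK', hK1, hK2, hK3, hK4, hK5, hK6⟩ := hSUM E F K ρ' ηE ψ β (1 + 3 * ε) (1 + 3 * ε)
    (by positivity) (by positivity) hρ' hρ0 hηEcp.1 hηE0 horth hψ.1 hβcp hψn hβn hρ'1 hηE1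
  refine ⟨K', ψK, φK', ⟨hK1, hK2⟩, ⟨hK3, hK4, hK5⟩, fun x => ?_⟩
  rw [hK6]
  have e1 : ρ' (ψ x) + ηE (β x) - (ρ (ψ x) + ι (φ0 (Qp * Lam x * Qp)))
      = (ρ' (ψ x) - ρ (ψ x)) + (ηE (β x) - ι (φ0 (Qp * Lam x * Qp))) := by abel
  rw [e1]
  have n2 : ‖ρ' (ψ x) - ρ (ψ x)‖ ≤ εF * ‖x‖ := by
    refine (hρρ _).trans ?_
    gcongr
    exact hψ.2 x
  have n3 : ‖ηE (β x) - ι (φ0 (Qp * Lam x * Qp))‖ ≤ 2 * εF * (3 * ‖x‖) := by
    have e2 : ηE (β x) - ι (φ0 (Qp * Lam x * Qp)) = ι (η (β x) - φK (β x)) := by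
      have e3 : φK (β x) = φ0 (Qp * Lam x * Qp) := by
        show φ0 (υ (β x)) = _
        rw [hβx, hυδ]
        congr 1
        simp only [← mul_assoc]
        rw [hQp.2, mul_assoc (Qp * Lam x), hQp.2]
      rw [map_sub, e3]
      rfl
    rw [e2]
    refine ((NonUnitalStarAlgHom.norm_apply_le ι _).trans (hη2 _)).trans ?_
    gcongr
    rw [hβx]
    refine ((hδ.2 _).trans (hLn x)).trans ?_
    have := norm_nonneg x
    nlinarith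
  refine (norm_add_le _ _).trans ((add_le_add n2 n3).trans (le_of_eq ?_))
  ring

section hom

variable {I E : Type} [NonUnitalCStarAlgebra I] [NonUnitalCStarAlgebra E] {ι : I →⋆ₙₐ[ℂ] E}
  {G : Idx I → FDA} [hnt : ∀ l, Nontrivial (G l).alg]
  (φ : ∀ l, (G l).alg →ₗ[ℂ] I) (hφ : ∀ l, IsCPC (φ l))
  {Q R : Type} [CStarAlgebra Q] [CStarAlgebra R] {qB : QT I E →⋆ₐ[ℂ] Q}
  (hQ : IsRP (fun _ : Idx I => Unitization ℂ E) (Fil I) Q qB)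
  {qR : lp (fun l => (G l).alg) ∞ →⋆ₐ[ℂ] R}
  (hR : IsRP (fun l => (G l).alg) (Fil I) R qR)

theorem PP_mul (hm : ∀ l a b, φ l (a * b) = φ l a * φ l b) (a b : R) :
    PP φ hφ hQ hR ι (a * b) = PP φ hφ hQ hR ι a * PP φ hφ hQ hR ι b := by
  obtain ⟨x, rfl⟩ := hR.surj a
  obtain ⟨y, rfl⟩ := hR.surj b
  rw [← map_mul qR, PP_q, PP_q, PP_q, ← map_mul qB]
  congr 1
  refine lpExt fun l => ?_
  show jI ι (φ l (x l * y l)) = jI ι (φ l (x l)) * jI ι (φ l (y l))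
  rw [hm, map_mul]

theorem PP_star (hs : ∀ l a, φ l (star a) = star (φ l a)) (a : R) :
    PP φ hφ hQ hR ι (star a) = star (PP φ hφ hQ hR ι a) := by
  obtain ⟨x, rfl⟩ := hR.surj a
  rw [← map_star qR, PP_q, PP_q, ← map_star qB]
  congr 1
  refine lpExt fun l => ?_
  show jI ι (φ l (star (x l))) = star (jI ι (φ l (x l)))
  rw [hs, map_star]

theorem PP_inj' (hι : IsIdeal ι) (hn : ∀ l (a : (G l).alg), ‖a‖ ≤ ‖φ l a‖) :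
    Function.Injective (PP φ hφ hQ hR ι) := by
  rw [injective_iff_map_eq_zero]
  intro a h
  obtain ⟨x, rfl⟩ := hR.surj a
  rw [PP_q] at h
  rw [← norm_le_zero_iff]
  refine le_of_forall_pos_le_add fun ε hε => ?_
  rw [zero_add]
  refine hR.le _ _ hε.le ((hQ.small0 h hε).mono fun l hl => ?_)
  refine (hn l (x l)).trans ?_
  rw [← norm_jI hι]
  exact hl.le

/-- the up map as a homomorphism -/
def PH (ι : I →⋆ₙₐ[ℂ] E) (hm : ∀ l a b, φ l (a * b) = φ l a * φ l b)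
    (hs : ∀ l a, φ l (star a) = star (φ l a)) : R →⋆ₙₐ[ℂ] Q where
  toFun := PP φ hφ hQ hR ι
  map_smul' c a := map_smul (PP φ hφ hQ hR ι) c a
  map_zero' := map_zero (PP φ hφ hQ hR ι)
  map_add' a b := map_add (PP φ hφ hQ hR ι) a b
  map_mul' a b := PP_mul φ hφ hQ hR hm a b
  map_star' a := PP_star φ hφ hQ hR hs a

theorem PH_apply (hm : ∀ l a b, φ l (a * b) = φ l a * φ l b)
    (hs : ∀ l a, φ l (star a) = star (φ l a)) (a : R) :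
    PH φ hφ hQ hR ι hm hs a = PP φ hφ hQ hR ι a := rfl

end hom

section lam

variable {I E : Type} [NonUnitalCStarAlgebra I] [NonUnitalCStarAlgebra E] {ι : I →⋆ₙₐ[ℂ] E}
  (hι : IsIdeal ι)

/-- the down map of the second summand of the merged colour, at one index -/
def LamL (hι : IsIdeal ι) {F G : FDA} (ψ : E →ₗ[ℂ] F.alg) (Φ : F.alg →ₗ[ℂ] E) (t v : I)
    (ψ0 : I →ₗ[ℂ] G.alg) (m : G.alg) : E →ₗ[ℂ] G.alg :=
  conjL m ∘ₗ ψ0 ∘ₗ cmp hι v ∘ₗ (jE E : E →ₗ[ℂ] Unitization ℂ E) ∘ₗ Φ ∘ₗ ψ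
    + ψ0 ∘ₗ cmp hι v ∘ₗ conjL (jI ι t) ∘ₗ (jE E : E →ₗ[ℂ] Unitization ℂ E)

theorem LamL_apply {F G : FDA} (ψ : E →ₗ[ℂ] F.alg) (Φ : F.alg →ₗ[ℂ] E) (t v : I)
    (ψ0 : I →ₗ[ℂ] G.alg) (m : G.alg) (x : E) :
    LamL hι ψ Φ t v ψ0 m x = star m * ψ0 (cmp hι v (jE E (Φ (ψ x)))) * m
      + ψ0 (cmp hι v (star (jI ι t) * jE E x * jI ι t)) := rfl

theorem isCP_LamL {F G : FDA} (ψ : E →ₗ[ℂ] F.alg) (Φ : F.alg →ₗ[ℂ] E) (t v : I)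
    (ψ0 : I →ₗ[ℂ] G.alg) (m : G.alg) (hψ : IsCP ψ) (hΦ : IsCP Φ) (hψ0 : IsCP ψ0) :
    IsCP (LamL hι ψ Φ t v ψ0 m) :=
  ((isCP_conjL m).comp (hψ0.comp ((isCP_cmp hι v).comp ((isCP_hom (jE E) _ fun _ => rfl).comp
    (hΦ.comp hψ))))).add (hψ0.comp ((isCP_cmp hι v).comp ((isCP_conjL _).comp
      (isCP_hom (jE E) _ fun _ => rfl))))

theorem LamL_norm (hCPN : StCPN) {F G : FDA} (ψ : E →ₗ[ℂ] F.alg) (Φ : F.alg →ₗ[ℂ] E) (t v : I)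
    (ψ0 : I →ₗ[ℂ] G.alg) (m : G.alg) (hψ : IsCPC ψ) (hΦ : IsCP Φ) (hψ0 : IsCP ψ0) (Qp : G.alg)
    (hQp : Prj Qp) (c : ℝ)
    (hc : ‖Qp * (star m * ψ0 (cmp hι v (jE E (Φ 1))) * m
      + ψ0 (cmp hι v (star (jI ι t) * jI ι t))) * Qp‖ ≤ c) (x : E) :
    ‖Qp * LamL hι ψ Φ t v ψ0 m x * Qp‖ ≤ c * ‖x‖ := by
  have hcq : ∀ x, conjL Qp (LamL hι ψ Φ t v ψ0 m x) = Qp * LamL hι ψ Φ t v ψ0 m x * Qp :=
    fun x => by rw [conjL_apply, hQp.1]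
  have hcp : IsCP (conjL Qp ∘ₗ LamL hι ψ Φ t v ψ0 m) :=
    (isCP_conjL Qp).comp (isCP_LamL hι ψ Φ t v ψ0 m hψ.1 hΦ hψ0)
  rw [← hcq]
  refine hCPN E G.alg (conjL Qp ∘ₗ LamL hι ψ Φ t v ψ0 m) c hcp ?_ x
  intro x hx hx1
  refine le_trans (Pos.norm_le (IsCP.pos hcp hx) ?_) hc
  have h1 : Pos (jE E (Φ 1) - jE E (Φ (ψ x))) := by
    have hψx : Pos (1 - ψ x) := pos_one_sub (IsCP.pos hψ.1 hx) ((hψ.2 x).trans hx1)
    have h1 := IsCP.pos hΦ hψx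
    rw [map_sub] at h1
    have h2 := h1.map (jE E)
    rwa [map_sub] at h2
  have q2 : Pos ((1 : Unitization ℂ E) - jE E x) := by
    refine pos_one_sub (hx.map (jE E)) ?_
    rw [jE_apply, jE_norm]
    exact hx1
  have p1 := Pos.conj (IsCP.pos (hψ0.comp (isCP_cmp hι v)) h1) m
  have p2 := IsCP.pos (hψ0.comp (isCP_cmp hι v)) (Pos.conj q2 (jI ι t))
  have p3 := Pos.conj (p1.add p2) Qp
  rw [hQp.1] at p3
  show Pos (_ - conjL Qp (LamL hι ψ Φ t v ψ0 m x))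
  rw [hcq]
  convert p3 using 1
  rw [LamL_apply, ← sub_mul, ← mul_sub]
  congr 2
  show _ = star m * ψ0 (cmp hι v (jE E (Φ 1) - jE E (Φ (ψ x)))) * m
    + ψ0 (cmp hι v (star (jI ι t) * (1 - jE E x) * jI ι t))
  simp only [map_sub, mul_sub, sub_mul, mul_one]
  abel

end lam

end Pool.Agent.Helper7_ND.AllC
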