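import Pool.Agent.Helper7_ND.Mrg8
import Pool.Agent.Helper7_ND.Mrg10

/-! # The merging for ideals of real rank zero, II: the merging lemma -/

set_option autoImplicit false
set_option linter.unusedSectionVars false
set_option linter.unusedVariables false

open scoped Matrix.Norms.L2Operator ENNReal Matrix
open Pool.Agent.W659.EC Filter

noncomputable section

namespace Pool.Agent.Helper7_ND.AllC

theorem t_MRG5 (hL1 : StL1) (hVW : StVW) (hRP : StRP) (hFD : StFD) (hRF : StRF)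
    (hS0 : StS0) (hS1 : StS1) (hNV : StNV) (hCPN : StCPN) (hFP : StFP)
    (hETA : StETA) (hSUM : StSUM) (hCOR : StCOR) (hCOL : StCOL5) : StMRG5 := by
  intro I E _ _ _ ι hι J _ hsys F ψ Φ t ε hε hε1 hψ hΦ ht ht1 hcond G
  classical
  have hΦz : ∀ j, OZ (Φ j) := fun j => hL1 (F j) E (Φ j) (hΦ j).1 (hΦ j).2
  set mJ : ℝ := (Fintype.card J : ℝ) with hmJ
  have hm0 : 0 ≤ mJ := Nat.cast_nonneg _
  -- constants
  obtain ⟨C, hC1, hC⟩ : ∃ C : ℝ, 1 ≤ C ∧ ∀ x ∈ G, ‖x‖ ≤ C := by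
    refine ⟨1 + ∑ x ∈ G, ‖x‖, ?_, fun x hx => ?_⟩
    · have : 0 ≤ ∑ x ∈ G, ‖x‖ := Finset.sum_nonneg fun _ _ => norm_nonneg _
      linarith
    · have := Finset.single_le_sum (f := fun x => ‖x‖) (fun _ _ => norm_nonneg _) hx
      linarith
  have hC0 : 0 < C := by linarith
  set ε₂ : ℝ := ε / (8 * (mJ + 1) * C) with hε₂
  have hε₂0 : 0 < ε₂ := by positivity
  have hε₂m : mJ * (ε₂ * (C + C)) ≤ ε / 4 := by
    have h1 : (mJ + 1) * (ε₂ * (C + C)) = ε / 4 := by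
      rw [hε₂]; field_simp; ring
    have h2 : 0 ≤ ε₂ * (C + C) := by positivity
    nlinarith
  obtain ⟨δ, hδ0, hcol⟩ := hCOL ε₂ hε₂0
  -- the sequences
  set S : Finset E := Finset.univ.image fun x : (Σ j : J, Σ l : (F j).ι, (F j).n l × (F j).n l) =>
      Φ x.1 (mu (F x.1) x.2.1 x.2.2.1 x.2.2.2) with hS
  obtain ⟨u, v, huv, hut, hvu, huS, hvS⟩ := hVW I E ι hι t S
  have hv1 : ∀ k, ‖v k‖ ≤ 1 := fun k => (huv k).2.2.2
  have hu1 : ∀ k, ‖u k‖ ≤ 1 := fun k => (huv k).2.1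
  have hvs : ∀ k, star (v k) = v k := fun k => (huv k).2.2.1.sa
  have hmem : ∀ j l a b, Φ j (mu (F j) l a b) ∈ S :=
    fun j l a b => Finset.mem_image.2 ⟨⟨j, l, a, b⟩, Finset.mem_univ _, rfl⟩
  -- the systems
  have hN := fun l : Idx I => hsys l.2 (1 / ((l.1 : ℝ) + 1)) (by positivity)
  choose FF ψψ φh hψψ hinj hnt happ using hN
  set φφ : ∀ l c, (FF l c).alg →ₗ[ℂ] I := fun l c =>
    ((φh l c : (FF l c).alg →⋆ₙₐ[ℂ] I) : (FF l c).alg →ₗ[ℂ] I) with hφφdef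
  have hφφa : ∀ l c a, φφ l c a = φh l c a := fun l c a => rfl
  have hφφ1 : ∀ l c, IsCPC (φφ l c) := fun l c => isCPC_hom (φh l c) _ fun _ => rfl
  have hφφ0 : ∀ l c, IsOrderZero (φφ l c) := by
    intro l c a b hab
    show φh l c (star a * a) * φh l c (star b * b) = 0
    rw [← map_mul, hab, map_zero]
  have hφm : ∀ c l a b, φφ l c (a * b) = φφ l c a * φφ l c b := fun c l a b => map_mul (φh l c) a b
  have hφs : ∀ c l a, φφ l c (star a) = star (φφ l c a) := fun c l a => map_star (φh l c) a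
  have hφn : ∀ c l (a : (FF l c).alg), ‖a‖ ≤ ‖φφ l c a‖ := fun c l a =>
    (hom_norm (φh l c) (hinj l c) a).ge
  have happ' : ∀ l : Idx I, ∀ a ∈ l.2, ‖∑ c, φφ l c (ψψ l c a) - a‖ ≤ 1 / ((l.1 : ℝ) + 1) := happ
  have := hnt
  obtain ⟨Q, instQ, qB, hQ⟩ := hRP (Idx I) (fun _ => Unitization ℂ E) (Fil I)
  have hRex := fun c : J => hRP (Idx I) (fun l => (FF l c).alg) (Fil I)
  choose R instR qR hR using hRex
  have hrf := fun c : J => hRF (Idx I) (fun l => (FF l c).alg) (Fil I) (R c) (qR c) (hR c)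
    (fun l => (hFD (FF l c)).1) (fun l => (hFD (FF l c)).2)
  have hcut : ∀ c, CutE (R c) := fun c =>
    hS1 (Idx I) (fun l => (FF l c).alg) (Fil I) (R c) (qR c) (hR c) (fil_tendsto I) (hrf c).2.2.2
      (hS0 (R c) (hrf c).1 (hrf c).2.1)
  -- elements of `T`
  set vT : TT E := sqI ι v ⟨1, hv1⟩ with hvTdef
  set uT : TT E := sqI ι u ⟨1, hu1⟩ with huTdef
  set tT : TT E := cst E (jI ι t) with htTdef
  set ΦT : ∀ j, (F j).alg →ₗ[ℂ] TT E := fun j => PhT (Φ j) with hΦT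
  have hΦTk : ∀ j y k, ΦT j y k = jE E (Φ j y) := fun j y k => rfl
  have hvTp : Pos vT := sqI_pos v _ fun k => (huv k).2.2.1
  have huTp : Pos uT := sqI_pos u _ fun k => (huv k).1
  have htTp : Pos tT := (ht.map (jI ι)).map (cst E)
  have hvTn : ‖vT‖ ≤ 1 := sqI_norm hι v _ hv1
  have huTn : ‖uT‖ ≤ 1 := sqI_norm hι u _ hu1
  have htTn : ‖tT‖ ≤ 1 := lpNormLe zero_le_one fun k => by
    rw [htTdef, cst_apply, norm_jI hι]; exact ht1
  have hΦTcp : ∀ j, IsCP (ΦT j) := fun j => isCP_PhT (Φ j) (hΦ j).1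
  have hΦToz : ∀ j x y, om qB (ΦT j x * ΦT j y) = om qB (ΦT j 1 * ΦT j (x * y)) := by
    intro j x y
    exact congrArg _ (oz_PhT (Φ j) (hΦz j) x y)
  have hnE : ∀ x : E, ‖jE E x‖ = ‖x‖ := fun x => by rw [jE_apply, jE_norm]
  -- relations
  have rel1 : om qB (vT * uT) = om qB uT := by
    refine om_eq hQ ?_
    refine hvu.congr fun k => ?_
    show _ = ‖jI ι (v k) * jI ι (u k) - jI ι (u k)‖
    rw [← map_mul, ← map_sub, norm_jI hι]
  have rel2 : om qB (uT * tT) = om qB tT := by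
    refine om_eq hQ ?_
    refine hut.congr fun k => ?_
    show _ = ‖jI ι (u k) * jI ι t - jI ι t‖
    rw [← map_mul, ← map_sub, norm_jI hι]
  have commgen : ∀ (w : ℕ → I) (hw : ∃ C : ℝ, ∀ k, ‖w k‖ ≤ C)
      (hwS : ∀ x ∈ S, Filter.Tendsto (fun k => ‖ι (w k) * x - x * ι (w k)‖) Filter.atTop (nhds 0))
      (j : J) (y : (F j).alg),
      om qB (sqI ι w hw) * om qB (ΦT j y) = om qB (ΦT j y) * om qB (sqI ι w hw) := by
    intro w hw hwS j y
    refine comm_of_mu (((om qB : TT E →⋆ₐ[ℂ] Q) : TT E →ₗ[ℂ] Q) ∘ₗ ΦT j) _ ?_ y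
    intro l a b
    show om qB (sqI ι w hw) * om qB (ΦT j (mu (F j) l a b)) = om qB (ΦT j (mu (F j) l a b)) * om qB (sqI ι w hw)
    rw [← map_mul, ← map_mul]
    refine om_eq hQ ?_
    refine (hwS _ (hmem j l a b)).congr fun k => ?_
    show _ = ‖jI ι (w k) * jE E (Φ j (mu (F j) l a b)) - jE E (Φ j (mu (F j) l a b)) * jI ι (w k)‖
    rw [jI_apply, jE_apply, ← Unitization.inr_mul, ← Unitization.inr_mul, ← Unitization.inr_sub, jE_norm]
  have rel3 : ∀ j y, om qB (vT * ΦT j y) = om qB (ΦT j y * vT) := by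
    intro j y; rw [map_mul, map_mul]; exact commgen v ⟨1, hv1⟩ hvS j y
  have rel4 : ∀ j y, om qB (uT * ΦT j y) = om qB (ΦT j y * uT) := by
    intro j y; rw [map_mul, map_mul]; exact commgen u ⟨1, hu1⟩ huS j y
  have rel5 : om qB (vT * tT) = om qB tT := by
    rw [map_mul, ← rel2, map_mul, ← mul_assoc, ← map_mul, rel1]
  have rel6 : om qB (tT * vT) = om qB tT := by
    have h := congrArg star rel5
    rw [← map_star, star_mul, hvTp.sa, htTp.sa, ← map_star, htTp.sa] at h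
    exact h
  have hposT1 : ∀ j, Pos ((1 + ε : ℂ) • (1 : TT E) - tT * tT - ΦT j 1) := by
    intro j
    refine lp_pos fun k => ?_
    have e : ((1 + ε : ℂ) • (1 : TT E) - tT * tT - ΦT j 1) k
        = (1 + ε : ℂ) • (1 : Unitization ℂ E) - ((ι (t * t) : E) : Unitization ℂ E)
          - ((Φ j 1 : E) : Unitization ℂ E) := by
      show (1 + ε : ℂ) • (1 : Unitization ℂ E) - jI ι t * jI ι t - jE E (Φ j 1) = _
      rw [← map_mul]
      rfl
    rw [e]
    exact hcond j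
  -- the maps between the reduced products
  set N : ∀ i, TT E →ₗ[ℂ] R i := fun i =>
    NN hι v hv1 (fun l => ψψ l i) (fun l => hψψ l i) (qR i) with hNdef
  set P : ∀ i, R i →⋆ₙₐ[ℂ] Q := fun i =>
    PH (fun l => φφ l i) (fun l => hφφ1 l i) hQ (hR i) ι (hφm i) (hφs i) with hPdef
  have hNcp : ∀ i, IsCP (N i) := fun i => isCP_NN hι v hv1 _ _
  have hPinj : ∀ i, Function.Injective (P i) := fun i =>
    PP_inj' (fun l => φφ l i) (fun l => hφφ1 l i) hQ (hR i) hι (hφn i)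
  have hH3 : ∑ c, P c (N c 1) = om qB (vT * vT) :=
    H3 hι v hv1 hvs ψψ hψψ φφ hφφ1 happ' hQ hR vT (fun _ => rfl)
  have hcen : ∀ i z, om qB (z * vT) = om qB (vT * z) →
      P i (N i z) = P i (N i 1) * om qB z ∧ P i (N i z) = om qB z * P i (N i 1) := fun i z hz =>
    ⟨H1 hι v hv1 hvs ψψ hψψ φφ hφφ1 happ' hQ (hR i) vT (fun _ => rfl) hNV z hz,
      H2 hι v hv1 hvs ψψ hψψ φφ hφφ1 happ' hQ (hR i) vT (fun _ => rfl) hNV z hz⟩
  -- the colours
  set ΦW : ∀ i, (F i).alg →ₗ[ℂ] TT E := fun i => phW (wEl δ (ΦT i 1)) (ΦT i) with hΦW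
  have hcol' := fun i : J =>
    hcol (TT E) Q (R i) (om qB) (N i) (P i) (F i) (ΦT i) vT uT tT ε
      (hcut i) (hrf i).2.2.1 hε hε1 (hNcp i) (NN_norm hι v hv1 _ _ hQ (hR i))
      (hPinj i) (hcen i) (hΦTcp i) (hΦToz i) hvTp hvTn huTp huTn htTp htTn rel1 rel2 (rel3 i)
      (rel4 i) (hposT1 i) (ΦW i) rfl
  choose m q r hm hq hr c1 c2 c3 c4 c5 using hcol'
  have hrr := fun i => hQ.surj (r i)
  choose rr hrr using hrr
  have hmm := fun i => (hR i).surj (m i)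
  choose ml hml using hmm
  have hQQ := fun i => (hrf i).2.2.2 (q i) (hq i)
  choose Ql hQl hQlq using hQQ
  have hQlp : ∀ i l, Prj (Ql i l) := fun i l =>
    ⟨congrArg (fun x : lp (fun l => (FF l i).alg) ∞ => x l) (hQl i).1,
      congrArg (fun x : lp (fun l => (FF l i).alg) ∞ => x l) (hQl i).2⟩
  -- the families of maps
  set sW : J → TT E := fun i => sq (wEl δ (ΦT i 1)) with hsW
  set ρ : ∀ (i : J) (l : Idx I), (F i).alg →ₗ[ℂ] E := fun i l =>
    cmpE (rr i l) ∘ₗ cmpE (sW i l.1) ∘ₗ Φ i with hρ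
  set W : ∀ i : J, (F i).alg → QT I E := fun i y => star (rr i) * pull I E (ΦW i y) * rr i with hW
  have hΦWk : ∀ i y k, ΦW i y k = jE E (cmpE (sW i k) (Φ i y)) := by
    intro i y k
    rw [jE_apply, cmpE_apply]
    rfl
  have hWρ : ∀ i y l, W i y l = jE E (ρ i l y) := by
    intro i y l
    have e1 : jE E (ρ i l y) = star (rr i l) * jE E (cmpE (sW i l.1) (Φ i y)) * rr i l := by
      rw [jE_apply]
      exact cmpE_apply _ _
    rw [e1, ← hΦWk]
    rfl
  have hqW : ∀ i y, qB (W i y) = r i * om qB (ΦW i y) * r i := by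
    intro i y
    rw [hW]
    simp only
    rw [map_mul qB, map_mul qB, map_star, hrr, hr]
    rfl
  have hqWW : ∀ i x y, qB (W i x * W i y) = qB (W i x) * qB (W i y) := fun i x y =>
    map_mul qB _ _
  -- the down maps
  set La : ∀ (i : J) (l : Idx I), E →ₗ[ℂ] (FF l i).alg := fun i l =>
    LamL hι (ψ i) (Φ i) t (v l.1) (ψψ l i) (ml i l) with hLa
  have hLacp : ∀ i l, IsCP (La i l) := fun i l =>
    isCP_LamL hι _ _ _ _ _ _ (hψ i).1 (hΦ i).1 (hψψ l i).1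
  set N0' : ∀ i, TT E →ₗ[ℂ] lp (fun l => (FF l i).alg) ∞ := fun i =>
    N0 hι v hv1 (fun l => ψψ l i) (fun l => hψψ l i) with hN0'
  have hN0q : ∀ i z, qR i (N0' i z) = N i z := fun i z => rfl
  -- first condition: the norms of the down maps
  have ev1 : ∀ i, ∀ᶠ l in Fil I, ∀ x, ‖Ql i l * La i l x * Ql i l‖ ≤ (1 + 2 * ε) * ‖x‖ := by
    intro i
    set Z : lp (fun l => (FF l i).alg) ∞ :=
      Ql i * (star (ml i) * N0' i (ΦT i 1) * ml i + N0' i (tT * tT)) * Ql i with hZ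
    have h1 : ‖qR i Z‖ < 1 + 2 * ε := by
      have e : qR i Z = q i * (m i * N i (ΦT i 1) * m i + N i (tT * tT)) * q i := by
        rw [hZ]
        simp only [map_mul, map_add, map_star, hQlq, hml, hm, hN0q]
      rw [e]
      exact (c4 i).trans_lt (by linarith)
    refine ((hR i).lt _ _ h1).mono fun l hl x => ?_
    refine LamL_norm hι hCPN (ψ i) (Φ i) t (v l.1) (ψψ l i) (ml i l) (hψ i) (hΦ i).1 (hψψ l i).1
      (Ql i l) (hQlp i l) (1 + 2 * ε) ?_ x
    refine le_trans (le_of_eq ?_) hl.le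
    have hts : star (jI ι t) = jI ι t := by rw [← map_star, ht.sa]
    rw [hts]
    rfl
  -- second condition: the norms of `ρ 1`
  have ev2 : ∀ i, ∀ᶠ l in Fil I, ‖ρ i l 1‖ < 1 + 2 * ε := by
    intro i
    have h1 : ‖qB (W i 1)‖ < 1 + 2 * ε := by
      rw [hqW]
      refine (norm_le_scal hε.le ?_ (c3 i)).trans_lt (by linarith)
      have h1F : Pos (1 : (F i).alg) := ⟨1, by simp⟩
      have hΦWcp : IsCP (ΦW i) := (isCP_conjL _).comp (hΦTcp i)
      have q1 := Pos.conj ((IsCP.pos hΦWcp h1F).map (om qB)) (r i)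
      rwa [hr] at q1
    refine (hQ.lt _ _ h1).mono fun l hl => ?_
    rwa [hWρ, hnE] at hl
  -- the constants of the final perturbation
  set εF : ℝ := min (ε / 2) (ε / (28 * (mJ + 1) * C)) with hεF
  have hεF0 : 0 < εF := lt_min (by positivity) (by positivity)
  have hεF1 : εF ≤ ε / 2 := min_le_left _ _
  have hεF2 : mJ * (7 * εF * C) ≤ ε / 4 := by
    have h1 : εF ≤ ε / (28 * (mJ + 1) * C) := min_le_right _ _
    have h2 : (mJ + 1) * (7 * (ε / (28 * (mJ + 1) * C)) * C) = ε / 4 := by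
      field_simp; ring
    have h3 : 7 * εF * C ≤ 7 * (ε / (28 * (mJ + 1) * C)) * C := by gcongr
    have h4 : (mJ + 1) * (7 * εF * C) ≤ (mJ + 1) * (7 * (ε / (28 * (mJ + 1) * C)) * C) :=
      mul_le_mul_of_nonneg_left h3 (by linarith)
    have h5 : 0 ≤ 7 * εF * C := by positivity
    nlinarith
  have hFP' := fun i : J => hFP (F i) εF hεF0
  choose δF hδF hFP'' using hFP'
  -- third condition: orthogonality
  have ev3 : ∀ i, ∀ᶠ l in Fil I, ‖ρ i l 1 * ι (φφ l i (Ql i l))‖ ≤ δF i := by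
    intro i
    have h1 : qB (W i 1 * P0 (fun l => φφ l i) (fun l => hφφ1 l i) ι (Ql i)) = 0 := by
      rw [map_mul qB, hqW, ← PP_q (fun l => φφ l i) (fun l => hφφ1 l i) hQ (hR i), hQlq]
      exact c2 i
    refine (hQ.small0 h1 (hδF i)).mono fun l hl => ?_
    have e : (W i 1 * P0 (fun l => φφ l i) (fun l => hφφ1 l i) ι (Ql i)) l
        = jE E (ρ i l 1 * ι (φφ l i (Ql i l))) := by
      rw [map_mul, ← hWρ]
      rfl
    rw [e, hnE] at hl
    exact hl.le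
  -- fourth condition: the order zero identity
  have ev4 : ∀ i, ∀ᶠ l in Fil I, ∀ a s t b s' t', ‖ρ i l (mu (F i) a s t) * ρ i l (mu (F i) b s' t')
        - ρ i l 1 * ρ i l (mu (F i) a s t * mu (F i) b s' t')‖ ≤ δF i := by
    intro i
    simp only [Filter.eventually_all]
    intro a s t b s' t'
    have h1 : qB (W i (mu (F i) a s t) * W i (mu (F i) b s' t')
        - W i 1 * W i (mu (F i) a s t * mu (F i) b s' t')) = 0 := by
      rw [map_sub, hqWW, hqWW, hqW, hqW, hqW, hqW, c1, sub_self]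
    refine (hQ.small0 h1 (hδF i)).mono fun l hl => ?_
    have e : (W i (mu (F i) a s t) * W i (mu (F i) b s' t')
        - W i 1 * W i (mu (F i) a s t * mu (F i) b s' t')) l
        = jE E (ρ i l (mu (F i) a s t) * ρ i l (mu (F i) b s' t')
        - ρ i l 1 * ρ i l (mu (F i) a s t * mu (F i) b s' t')) := by
      rw [map_sub, map_mul, map_mul, ← hWρ, ← hWρ, ← hWρ, ← hWρ]
      rfl
    rw [e, hnE] at hl
    exact hl.le
  -- fifth condition: the approximation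
  have ev5 : ∀ γ : ↥G, ∀ᶠ l in Fil I,
      ‖∑ i, (ρ i l (ψ i γ.1) + ι (φφ l i (Ql i l * La i l γ.1 * Ql i l)))
        - (∑ j, Φ j (ψ j γ.1) + ι t * γ.1 * ι t)‖ < ε / 2 := by
    intro γ
    set gT : TT E := cst E (jE E γ.1) with hgT
    have hgC : ‖γ.1‖ ≤ C := hC _ γ.2
    have hgTn : ‖gT‖ ≤ C := lpNormLe (by linarith) fun k => by
      rw [hgT, cst_apply, hnE]; exact hgC
    set MM : ∀ i, lp (fun l => (FF l i).alg) ∞ := fun i =>
      Ql i * (star (ml i) * N0' i (ΦT i (ψ i γ.1)) * ml i + N0' i (tT * gT * tT)) * Ql i with hMM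
    set DD : QT I E := ∑ i, (W i (ψ i γ.1) + P0 (fun l => φφ l i) (fun l => hφφ1 l i) ι (MM i))
      - pull I E (∑ j, ΦT j (ψ j γ.1) + tT * gT * tT) with hDD
    have f1 : ∀ i, qB (P0 (fun l => φφ l i) (fun l => hφφ1 l i) ι (MM i))
        = P i (q i * (m i * N i (ΦT i (ψ i γ.1)) * m i + N i (tT * gT * tT)) * q i) := by
      intro i
      rw [← PP_q (fun l => φφ l i) (fun l => hφφ1 l i) hQ (hR i)]
      show P i (qR i (MM i)) = _
      congr 1
      rw [hMM]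
      simp only [map_mul, map_add, map_star, hQlq, hml, hm, hN0q]
    have f2 : qB DD = ∑ i, (r i * om qB (ΦW i (ψ i γ.1)) * r i
        + P i (q i * (m i * N i (ΦT i (ψ i γ.1)) * m i + N i (tT * gT * tT)) * q i))
        - (∑ j, om qB (ΦT j (ψ j γ.1)) + om qB (tT * gT * tT)) := by
      rw [hDD, map_sub, map_sum]
      congr 1
      · refine Finset.sum_congr rfl fun i _ => ?_
        rw [map_add, hqW, f1]
      · show om qB _ = _
        rw [map_add, map_sum]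
    have hvc : om qB ((tT * gT * tT) * vT) = om qB (vT * (tT * gT * tT)) := by
      have h1 : om qB ((tT * gT * tT) * vT) = om qB (tT * gT * tT) := by
        rw [mul_assoc (tT * gT) tT vT, map_mul, rel6, ← map_mul]
      have h2 : om qB (vT * (tT * gT * tT)) = om qB (tT * gT * tT) := by
        rw [mul_assoc tT gT tT, ← mul_assoc vT tT, map_mul, rel5, ← map_mul]
      rw [h1, h2]
    have f3 : ∑ i, P i (N i (tT * gT * tT)) = om qB (tT * gT * tT) := by
      have h1 : ∀ i, P i (N i (tT * gT * tT)) = P i (N i 1) * om qB (tT * gT * tT) :=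
        fun i => (hcen i _ hvc).1
      rw [Finset.sum_congr rfl fun i _ => h1 i, ← Finset.sum_mul, hH3, ← map_mul]
      have h2 : om qB (vT * (tT * gT * tT)) = om qB (tT * gT * tT) := by
        rw [mul_assoc tT gT tT, ← mul_assoc vT tT, map_mul, rel5, ← map_mul]
      rw [mul_assoc vT vT, map_mul, h2, ← map_mul, h2]
    have hDn : ‖qB DD‖ < ε / 2 := by
      have g1 : qB DD = ∑ i, (r i * om qB (ΦW i (ψ i γ.1)) * r i
        + P i (q i * (m i * N i (ΦT i (ψ i γ.1)) * m i + N i (tT * gT * tT)) * q i)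
          - (om qB (ΦT i (ψ i γ.1)) + P i (N i (tT * gT * tT)))) := by
        rw [f2, Finset.sum_sub_distrib, ← f3, ← Finset.sum_add_distrib]
      have g2 : ‖qB DD‖ ≤ mJ * (ε₂ * (C + C)) := by
        rw [g1]
        refine (norm_sum_le _ _).trans ?_
        refine (Finset.sum_le_sum fun i _ => (c5 i (ψ i γ.1) gT).trans
          (?_ : _ ≤ ε₂ * (C + C))).trans (le_of_eq ?_)
        · have h1 : ‖ψ i γ.1‖ ≤ C := ((hψ i).2 _).trans hgC
          gcongr
        · rw [Finset.sum_const, nsmul_eq_mul]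
          rfl
      linarith
    refine (hQ.lt _ _ hDn).mono fun l hl => ?_
    have hts : star (jI ι t) = jI ι t := by rw [← map_star, ht.sa]
    have e : DD l = jE E (∑ i, (ρ i l (ψ i γ.1) + ι (φφ l i (Ql i l * La i l γ.1 * Ql i l)))
        - (∑ j, Φ j (ψ j γ.1) + ι t * γ.1 * ι t)) := by
      rw [map_sub, jE_sum]
      have e1 : DD l = (∑ i, (W i (ψ i γ.1) + P0 (fun l => φφ l i) (fun l => hφφ1 l i) ι (MM i)) : QT I E) l
        - (∑ j, ΦT j (ψ j γ.1) + tT * gT * tT) l.1 := rfl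
      rw [e1, lp_sum_apply]
      congr 1
      · refine Finset.sum_congr rfl fun i _ => ?_
        rw [map_add, ← hWρ]
        have e2 : MM i l = Ql i l * La i l γ.1 * Ql i l := by
          rw [hLa]
          simp only
          rw [LamL_apply, hts]
          rfl
        rw [← e2]
        rfl
      · show (∑ j, ΦT j (ψ j γ.1) : TT E) l.1 + jI ι t * jE E γ.1 * jI ι t = _
        rw [lp_sum_apply, map_add, map_mul, map_mul, jE_sum]
        rfl
    rw [e, hnE] at hl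
    exact hl
  -- choose one index
  have evall : ∀ᶠ l in Fil I, (∀ i, ∀ x, ‖Ql i l * La i l x * Ql i l‖ ≤ (1 + 2 * ε) * ‖x‖) ∧
      (∀ i, ‖ρ i l 1‖ < 1 + 2 * ε) ∧
      (∀ i, ‖ρ i l 1 * ι (φφ l i (Ql i l))‖ ≤ δF i) ∧
      (∀ i, ∀ a s t b s' t', ‖ρ i l (mu (F i) a s t) * ρ i l (mu (F i) b s' t')
        - ρ i l 1 * ρ i l (mu (F i) a s t * mu (F i) b s' t')‖ ≤ δF i) ∧
      ∀ γ : ↥G, ‖∑ i, (ρ i l (ψ i γ.1) + ι (φφ l i (Ql i l * La i l γ.1 * Ql i l)))
        - (∑ j, Φ j (ψ j γ.1) + ι t * γ.1 * ι t)‖ < ε / 2 :=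
    (eventually_all.2 ev1).and ((eventually_all.2 ev2).and ((eventually_all.2 ev3).and
      ((eventually_all.2 ev4).and (eventually_all.2 ev5))))
  obtain ⟨l, l1, l2, l3, l4, l5⟩ := evall.exists
  have hfin : ∀ i : J, ∃ (K : FDA) (ψ' : E →ₗ[ℂ] K.alg) (φ' : K.alg →ₗ[ℂ] E),
      (IsCP ψ' ∧ ∀ x, ‖ψ' x‖ ≤ (1 + 3 * ε) * ‖x‖) ∧
      (IsCP φ' ∧ IsOrderZero φ' ∧ ∀ y, ‖φ' y‖ ≤ (1 + 3 * ε) * ‖y‖) ∧
      ∀ x, ‖φ' (ψ' x) - (ρ i l (ψ i x) + ι (φφ l i (Ql i l * La i l x * Ql i l)))‖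
        ≤ 7 * εF * ‖x‖ := by
    intro i
    have hρcp : IsCP (ρ i l) := (isCP_cmpE _).comp ((isCP_cmpE _).comp (hΦ i).1)
    have hPQ : Pos (Ql i l) := ⟨Ql i l, by rw [(hQlp i l).1, (hQlp i l).2]⟩
    have hQn : ‖Ql i l‖ ≤ 1 := by
      have h := CStarRing.norm_star_mul_self (x := Ql i l)
      rw [(hQlp i l).1, (hQlp i l).2] at h
      by_contra hc
      push Not at hc
      nlinarith
    obtain ⟨ρ', r1, r2, r3, r4⟩ := hFP'' i E (ρ i l) (ι (φφ l i (Ql i l))) hρcp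
      ((l2 i).le.trans (by linarith)) (l4 i)
      ((IsCP.pos (hφφ1 l i).1 hPQ).map ι)
      ((NonUnitalStarAlgHom.norm_apply_le ι _).trans (((hφφ1 l i).2 _).trans hQn)) (l3 i)
    exact asm5 hETA hSUM hCOR (ψ i) (hψ i) (φφ l i) ⟨hφφ1 l i, hφφ0 l i⟩ (La i l) (hLacp i l)
      ε εF hε hε1 hεF0 hεF1 (ρ i l) ρ' (l2 i).le r1 r2 r3 (Ql i l) (hQlp i l) (l1 i) r4
  choose K ψ' φ' k1 k2 k3 using hfin
  refine ⟨K, ψ', φ', k1, k2, ?_⟩
  intro g hg
  have hgC : ‖g‖ ≤ C := hC g hg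
  have e : ∑ j, Φ j (ψ j g) + ι t * g * ι t - ∑ c, φ' c (ψ' c g)
      = -(∑ c, (φ' c (ψ' c g) - (ρ c l (ψ c g) + ι (φφ l c (Ql c l * La c l g * Ql c l)))))
        - (∑ i, (ρ i l (ψ i g) + ι (φφ l i (Ql i l * La i l g * Ql i l)))
        - (∑ j, Φ j (ψ j g) + ι t * g * ι t)) := by
    rw [Finset.sum_sub_distrib]
    abel
  have n1 : ‖∑ c, (φ' c (ψ' c g) - (ρ c l (ψ c g)
      + ι (φφ l c (Ql c l * La c l g * Ql c l))))‖ ≤ mJ * (7 * εF * C) := by
    refine (norm_sum_le _ _).trans ?_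
    refine (Finset.sum_le_sum fun i _ => (k3 i g).trans
      (mul_le_mul_of_nonneg_left hgC (by positivity))).trans (le_of_eq ?_)
    rw [Finset.sum_const, nsmul_eq_mul]
    rfl
  have n2 := l5 ⟨g, hg⟩
  rw [e]
  refine (norm_sub_le _ _).trans ((add_le_add ((norm_neg _).le.trans n1) n2.le).trans ?_)
  linarith

end Pool.Agent.Helper7_ND.AllC
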