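import Pool.Agent.Helper7_ND.All2
import Pool.Agent.Helper7_ND.Mrg11
import Pool.Agent.Helper7_ND.J_A1L
import Pool.Agent.Helper7_ND.J_COL5
import Pool.Agent.Helper7_ND.J_IDT
import Pool.Agent.Helper7_ND.J_LP1
import Pool.Agent.Helper7_ND.J_LP2
import Pool.Agent.Helper7_ND.J_LP3
import Pool.Agent.Helper7_ND.J_LPC
import Pool.Agent.Helper7_ND.J_MAIN5
import Pool.Agent.Helper7_ND.J_MAIN6
import Pool.Agent.Helper7_ND.J_PP5
import Pool.Agent.Helper7_ND.J_QL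
import Pool.Agent.Helper7_ND.J_RB
import Pool.Agent.Helper7_ND.J_RR

/-! # Nuclear dimension of extensions by ideals of real rank zero: all parts together -/

set_option autoImplicit false

open scoped Matrix.Norms.L2Operator ENNReal Matrix
open Pool.Agent.W659.EC

namespace Pool.Agent.Helper7_ND

theorem all_COL5 : StCOL5 := J_COL5.t_COL5 (J_PP5.t_PP5 J_CC.t_CC) J_QL.t_QL
/-- merging for ideals whose approximations have homomorphisms as up maps -/
theorem all_MRG5 : StMRG5 :=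
  AllC.t_MRG5 all_L1 (J_QC.t_VW J_QC.t_QC) J_RP.t_RP J_FD.t_FD J_RF.t_RF all_S0
    J_S1.t_S1 J_NV.t_NV J_COM.t_CPN all_FP (J_ETA.t_ETA all_L1) J_SUM.t_SUM J_COR.t_COR all_COL5
theorem all_RR : StRR := J_RR.t_RR J_RB.t_RB all_ROW
/-- extensions by ideals of real rank zero -/
theorem all_MAIN5 : StMAIN5 := J_MAIN5.t_MAIN5 all_A1 all_MRG5 all_RR
theorem all_A1L : StA1L := J_A1L.t_A1L all_LFT J_LN.t_LN J_COM.t_COM J_QC.t_QC
theorem all_LP1 : StLP1 := J_LP1.t_LP1 all_A1L all_MRG5 all_RR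
theorem all_LP2 : StLP2 := J_LP2.t_LP2 J_IDT.t_IDT J_IDT.t_FAC J_QUO.t_QUO
theorem all_LP3 : StLP3 :=
  J_LP3.t_LP3 J_IDT.t_IDT J_IDT.t_FAC J_QUO.t_QUO J_LN.t_LN all_T1R all_ROW all_L1
/-- extensions by iterated extensions of algebras of real rank zero -/
theorem all_MAIN6 : StMAIN6 :=
  J_MAIN6.t_MAIN6 J_ND.t_ND J_HG.t_IG J_QUO.t_QUO J_HG.t_PRE all_LP1 all_LP2 all_LP3
    (J_LPC.t_LPC all_LP3)

end Pool.Agent.Helper7_ND
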