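import Pool.Agent.Helper7_ND.All3

/-! # The class generated by C*-algebras of real rank zero and nuclear dimension at most `N` -/

set_option autoImplicit false

open scoped Matrix.Norms.L2Operator ENNReal Matrix
open Pool.Agent.W659.EC

noncomputable section

namespace Pool.Agent.Helper7_ND

/-- The smallest class of C*-algebras which contains all C*-algebras of real rank zero and nuclear
dimension at most `N` and is closed under extensions and under limits of closed ideals. -/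
def RRClass (N : ℕ∞) (I : Type) [NonUnitalCStarAlgebra I] : Prop :=
  ∀ P : (A : Type) → [NonUnitalCStarAlgebra A] → Prop,
    (∀ (A : Type) [NonUnitalCStarAlgebra A], RR0 A → nucDim A ≤ N → P A) →
    (∀ (K A L : Type) [NonUnitalCStarAlgebra K] [NonUnitalCStarAlgebra A]
      [NonUnitalCStarAlgebra L] (κ : K →⋆ₙₐ[ℂ] A) (ρ : A →⋆ₙₐ[ℂ] L),
      IsExt κ ρ → P K → P L → P A) →
    (∀ (A : Type) [NonUnitalCStarAlgebra A],
      (∀ (C : Finset A) (δ : ℝ), 0 < δ → ∃ (K : Type) (_ : NonUnitalCStarAlgebra K)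
        (κ : K →⋆ₙₐ[ℂ] A), IsIdeal κ ∧ P K ∧ ∀ c ∈ C, ∃ k : K, ‖κ k - c‖ ≤ δ) → P A) →
    P I

namespace RRClass

variable {N : ℕ∞}

theorem base {A : Type} [NonUnitalCStarAlgebra A] (h1 : RR0 A) (h2 : nucDim A ≤ N) :
    RRClass N A := fun _ b _ _ => b A h1 h2

theorem ext {K A L : Type} [NonUnitalCStarAlgebra K] [NonUnitalCStarAlgebra A]
    [NonUnitalCStarAlgebra L] (κ : K →⋆ₙₐ[ℂ] A) (ρ : A →⋆ₙₐ[ℂ] L) (h : IsExt κ ρ)
    (hK : RRClass N K) (hL : RRClass N L) : RRClass N A :=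
  fun P b e l => e K A L κ ρ h (hK P b e l) (hL P b e l)

theorem lim {A : Type} [NonUnitalCStarAlgebra A]
    (h : ∀ (C : Finset A) (δ : ℝ), 0 < δ → ∃ (K : Type) (_ : NonUnitalCStarAlgebra K)
        (κ : K →⋆ₙₐ[ℂ] A), IsIdeal κ ∧ RRClass N K ∧ ∀ c ∈ C, ∃ k : K, ‖κ k - c‖ ≤ δ) :
    RRClass N A := by
  intro P b e l
  refine l A fun C δ hδ => ?_
  obtain ⟨K, iK, κ, h1, h2, h3⟩ := h C δ hδ
  exact ⟨K, iK, κ, h1, h2 P b e l, h3⟩

open Pool.Agent.Helper7_ND.J_DS in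
/-- unions of chains of ideals -/
theorem chain {E : Type} [NonUnitalCStarAlgebra E] (c : Set (Set E))
    (hc : IsChain (· ⊆ ·) c) (hn : c.Nonempty)
    (h : ∀ S ∈ c, ∃ (K : Type) (_ : NonUnitalCStarAlgebra K) (κ : K →⋆ₙₐ[ℂ] E), IsIdeal κ ∧
      Set.range κ = S ∧ RRClass N K) :
    ∃ (K : Type) (_ : NonUnitalCStarAlgebra K) (κ : K →⋆ₙₐ[ℂ] E), IsIdeal κ ∧
      Set.range κ = closure (⋃₀ c) ∧ RRClass N K := by
  classical
  let U : NonUnitalStarSubalgebra ℂ E := uni c hc hn (fun S hS => by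
    obtain ⟨K, i, κ, h1, h2, _⟩ := h S hS
    exact ⟨K, i, κ, h1, h2⟩)
  let T : NonUnitalStarSubalgebra ℂ E := U.topologicalClosure
  have hT : (T : Set E) = closure (⋃₀ c) := rfl
  have hTc : IsClosed (T : Set E) := by
    rw [hT]
    exact isClosed_closure
  let κ : T →⋆ₙₐ[ℂ] E := NonUnitalStarSubalgebraClass.subtype T
  have hκ : ∀ x : T, κ x = (x : E) := fun _ => rfl
  have hsub : ∀ S ∈ c, S ⊆ (T : Set E) := by
    intro S hS x hx
    rw [hT]
    exact subset_closure ⟨S, hS, hx⟩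
  refine ⟨T, inferInstance, κ, ?_, ?_, ?_⟩
  · refine ⟨Subtype.val_injective, ?_, ?_⟩
    · intro e x
      have hx : (x : E) ∈ closure (⋃₀ c) := x.2
      have : e * (x : E) ∈ closure (⋃₀ c) := by
        refine map_mem_closure (f := fun y => e * y) (continuous_const.mul continuous_id) hx ?_
        rintro y ⟨S, hS, hy⟩
        obtain ⟨K, _, κ', hκ', hr, _⟩ := h S hS
        refine ⟨S, hS, ?_⟩
        rw [← hr] at hy ⊢
        obtain ⟨z, rfl⟩ := hy
        exact hκ'.left e z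
      exact ⟨⟨_, this⟩, rfl⟩
    · intro e x
      have hx : (x : E) ∈ closure (⋃₀ c) := x.2
      have : (x : E) * e ∈ closure (⋃₀ c) := by
        refine map_mem_closure (f := fun y => y * e) (continuous_id.mul continuous_const) hx ?_
        rintro y ⟨S, hS, hy⟩
        obtain ⟨K, _, κ', hκ', hr, _⟩ := h S hS
        refine ⟨S, hS, ?_⟩
        rw [← hr] at hy ⊢
        obtain ⟨z, rfl⟩ := hy
        exact hκ'.right e z
      exact ⟨⟨_, this⟩, rfl⟩
  · ext e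
    constructor
    · rintro ⟨x, rfl⟩
      exact x.2
    · intro he
      exact ⟨⟨e, he⟩, rfl⟩
  · refine lim ?_
    intro G δ hδ
    obtain ⟨S, hS, hG⟩ := chain_fin c hc hn (fun x : T => (x : E)) (fun x => x.2) G δ hδ
    obtain ⟨K, iK, κ', hκ', hr, hLP⟩ := h S hS
    have hmem : ∀ x, κ' x ∈ T := fun x => hsub S hS (by rw [← hr]; exact ⟨x, rfl⟩)
    let ι : K →⋆ₙₐ[ℂ] T := NonUnitalStarAlgHom.codRestrict κ' T hmem
    have hι : ∀ x, ((ι x : T) : E) = κ' x := fun _ => rfl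
    refine ⟨K, iK, ι, ⟨?_, ?_, ?_⟩, hLP, ?_⟩
    · intro x y hxy
      refine hκ'.inj ?_
      rw [← hι, ← hι, hxy]
    · intro e y
      obtain ⟨z, hz⟩ := hκ'.left (e : E) y
      refine ⟨z, ?_⟩
      apply Subtype.ext
      rw [hι, hz]
      rfl
    · intro e y
      obtain ⟨z, hz⟩ := hκ'.right (e : E) y
      refine ⟨z, ?_⟩
      apply Subtype.ext
      rw [hι, hz]
      rfl
    · intro g hg
      obtain ⟨a, ha, hga⟩ := hG g hg
      rw [← hr] at ha
      obtain ⟨k, rfl⟩ := ha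
      refine ⟨k, ?_⟩
      calc ‖ι k - g‖ = ‖κ' k - (g : E)‖ := rfl
        _ = ‖(g : E) - κ' k‖ := norm_sub_rev _ _
        _ ≤ δ := hga

/-- the zero algebra -/
theorem zero (K : Type) [NonUnitalCStarAlgebra K] [Subsingleton K] : RRClass N K := by
  refine base (J_MAIN6.rr0_of_subsingleton K) ?_
  have h1 := J_ND.t_ND.2 K (Fin 0) (J_MAIN6.sysAll_of_subsingleton K (Option (Fin 0)))
  rw [Fintype.card_fin] at h1
  refine h1.trans ?_
  simp

/-- algebras all of whose nonzero quotients have nonzero ideals in the class are in the class -/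
theorem scattered {I : Type} [NonUnitalCStarAlgebra I]
    (hI : ∀ (A : Type) [NonUnitalCStarAlgebra A] (θ : I →⋆ₙₐ[ℂ] A), Function.Surjective θ →
      Nontrivial A → ∃ (L : Type) (_ : NonUnitalCStarAlgebra L) (κ : L →⋆ₙₐ[ℂ] A),
        IsIdeal κ ∧ Nontrivial L ∧ RRClass N L) : RRClass N I := by
  classical
  -- the zero ideal
  obtain ⟨K₀, iK₀, κ₀, hκ₀, -, hc₀⟩ := J_HG.t_IG I 0
  have : Subsingleton K₀ := J_MAIN6.subsingleton_of_closure I K₀ κ₀ hκ₀ hc₀
  have L₀ : RRClass N K₀ := zero K₀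
  obtain ⟨m, hm0, hm⟩ := zorn_subset_nonempty
    {S : Set I | ∃ (K : Type) (_ : NonUnitalCStarAlgebra K) (κ : K →⋆ₙₐ[ℂ] I), IsIdeal κ ∧
      Set.range κ = S ∧ RRClass N K}
    (by
      intro c hc hch hne
      obtain ⟨K, iK, κ, h1, h2, h3⟩ := chain c hch hne (fun S hS => hc hS)
      exact ⟨closure (⋃₀ c), ⟨K, iK, κ, h1, h2, h3⟩, fun S hS =>
        (Set.subset_sUnion_of_mem hS).trans subset_closure⟩)
    (Set.range κ₀) ⟨K₀, iK₀, κ₀, hκ₀, rfl, L₀⟩
  obtain ⟨K, iK, κ, hκ, hrκ, LK⟩ := hm.prop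
  have hsur : Function.Surjective κ := by
    by_contra hns
    obtain ⟨A, iA, θ, hθ⟩ := J_QUO.t_QUO K I κ hκ
    have hnt : Nontrivial A := by
      unfold Function.Surjective at hns
      push Not at hns
      obtain ⟨e, he⟩ := hns
      refine ⟨θ e, 0, fun h => ?_⟩
      obtain ⟨x, hx⟩ := (hθ.exact e).1 h
      exact he x hx
    obtain ⟨L, iL, j, hj, hntL, LL⟩ := hI A θ hθ.surj hnt
    obtain ⟨K', iK', κ', ρ, lam, hκ', hext', hlam, hρ, hran⟩ := J_HG.t_PRE K I A L κ θ j hθ hj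
    have LK' : RRClass N K' := ext lam ρ hext' LK LL
    have hsub : Set.range κ ⊆ Set.range κ' := by
      rintro e ⟨k, rfl⟩
      exact ⟨lam k, hlam k⟩
    have hle : Set.range κ' ≤ m := hm.le_of_ge ⟨K', iK', κ', hκ', rfl, LK'⟩ (by
      rw [← hrκ]; exact hsub)
    rw [← hrκ] at hle
    obtain ⟨x, hx⟩ := exists_ne (0 : L)
    obtain ⟨e, he⟩ := hθ.surj (j x)
    obtain ⟨k', hk'⟩ := (hran e).2 ⟨x, he.symm⟩
    obtain ⟨k, hk⟩ := hle ⟨k', hk'⟩
    have h0 : θ e = 0 := (hθ.exact e).2 ⟨k, hk⟩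
    rw [he] at h0
    exact hx (hj.inj (by rw [h0, map_zero]))
  exact lim (fun C δ hδ => ⟨K, iK, κ, hκ, LK, fun c _ => by
    obtain ⟨k, hk⟩ := hsur c
    exact ⟨k, by rw [hk, sub_self, norm_zero]; exact hδ.le⟩⟩)

/-- extensions by ideals in the class -/
theorem main {I E D : Type} [NonUnitalCStarAlgebra I] [NonUnitalCStarAlgebra E]
    [NonUnitalCStarAlgebra D] (ι : I →⋆ₙₐ[ℂ] E) (π : E →⋆ₙₐ[ℂ] D) (hext : IsExt ι π)
    (hI : RRClass N I) (hDN : nucDim D ≤ N) : nucDim E ≤ N := by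
  classical
  by_cases htop : N = ⊤
  · rw [htop]
    exact le_top
  obtain ⟨M, hM⟩ := ENat.ne_top_iff_exists.1 htop
  subst hM
  have sD := J_ND.t_ND.1 D M hDN
  have hfin : SysAll E (Option (Fin M)) → nucDim E ≤ (M : ℕ∞) := by
    intro sE
    have := J_ND.t_ND.2 E (Fin M) sE
    rwa [Fintype.card_fin] at this
  apply hfin
  have LI : LP I (Option (Fin M)) := by
    refine hI (fun A _ => LP A (Option (Fin M))) ?_ ?_ ?_
    · intro A _ h1 h2
      exact all_LP1 A _ h1 (J_ND.t_ND.1 A M h2)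
    · intro K A L _ _ _ κ ρ h1 h2 h3
      exact all_LP2 K A L κ ρ h1 _ h2 h3
    · intro A _ h1
      exact all_LP3 A _ h1
  intro G ε hε
  have h1 := sD (G.image π) (ε / 2) (half_pos hε)
  rw [Finset.coe_image] at h1
  exact LI E D ι π hext G (ε / 2) ε (half_pos hε) (half_lt_self hε) h1

end RRClass

end Pool.Agent.Helper7_ND
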