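import Pool.Agent.Helper7_ND.Stm5
import Pool.Agent.Helper7_ND.Rp

/-! # Local approximation by hereditary subalgebras and change of colours -/

set_option autoImplicit false

open scoped Matrix.Norms.L2Operator ENNReal Matrix
open Pool.Agent.W659.EC

noncomputable section

namespace Pool.Agent.Helper7_ND.J_LOC

section her

variable {H A : Type} [NonUnitalCStarAlgebra H] [NonUnitalCStarAlgebra A] {ι : H →⋆ₙₐ[ℂ] A}

/-- compression by `e` as a map into the hereditary subalgebra -/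
def cmpH (h : IsHer ι) (e : H) : A →ₗ[ℂ] H where
  toFun a := (h.her e e a).choose
  map_add' x y := by
    apply h.inj
    rw [map_add, (h.her e e _).choose_spec, (h.her e e _).choose_spec,
      (h.her e e _).choose_spec, mul_add, add_mul]
  map_smul' c x := by
    apply h.inj
    rw [RingHom.id_apply, map_smul, (h.her e e _).choose_spec, (h.her e e _).choose_spec,
      mul_smul_comm, smul_mul_assoc]

theorem cmpH_apply (h : IsHer ι) (e : H) (a : A) : ι (cmpH h e a) = ι e * a * ι e :=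
  (h.her e e a).choose_spec

theorem isCP_cmpH (h : IsHer ι) (e : H) (he : Pos e) : IsCP (cmpH h e) := by
  refine isCP_of_inj ι h.inj _ ?_
  have : ((ι : H →ₗ[ℂ] A)) ∘ₗ cmpH h e = conjL (ι e) := by
    apply LinearMap.ext
    intro b
    change ι (cmpH h e b) = conjL (ι e) b
    rw [cmpH_apply, conjL_apply, ← map_star, he.sa]
  rw [this]
  exact isCP_conjL _

theorem norm_cmpH_le (h : IsHer ι) (e : H) (he : ‖e‖ ≤ 1) (b : A) :
    ‖cmpH h e b‖ ≤ ‖b‖ := by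
  rw [← hom_norm ι h.inj, cmpH_apply]
  calc ‖ι e * b * ι e‖ ≤ ‖ι e * b‖ * ‖ι e‖ := norm_mul_le _ _
    _ ≤ (‖ι e‖ * ‖b‖) * ‖ι e‖ := by gcongr; exact norm_mul_le _ _
    _ ≤ (1 * ‖b‖) * 1 := by
        rw [hom_norm ι h.inj]
        gcongr
    _ = ‖b‖ := by ring

theorem isCPC_cmpH (h : IsHer ι) (e : H) (he : Pos e) (he1 : ‖e‖ ≤ 1) : IsCPC (cmpH h e) :=
  ⟨isCP_cmpH h e he, norm_cmpH_le h e he1⟩

theorem ozero_comp (ι : H →⋆ₙₐ[ℂ] A) {B : Type} [NonUnitalCStarAlgebra B] {φ : B →ₗ[ℂ] H}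
    (hφ : IsOrderZero φ) : IsOrderZero ((ι : H →ₗ[ℂ] A) ∘ₗ φ) := by
  intro a b hab
  have h1 := hφ a b hab
  change ι (φ (star a * a)) * ι (φ (star b * b)) = 0
  rw [← map_mul, h1, map_zero]

end her

theorem t_LOC : StLOC := by
  classical
  intro A _ J _ hloc G ε hε
  obtain ⟨H, _, ι, hι, hH, e, he, he1, hG⟩ := hloc G (ε / 2) (by positivity)
  obtain ⟨F, ψ, φ, hψ, hφ, hs⟩ := hH (G.image (cmpH hι e)) (ε / 2) (by positivity)
  refine ⟨F, fun j => ψ j ∘ₗ cmpH hι e, fun j => (ι : H →ₗ[ℂ] A) ∘ₗ φ j, fun j =>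
    (hψ j).comp (isCPC_cmpH hι e he he1), fun j =>
    ⟨(isCPC_hom ι _ fun _ => rfl).comp (hφ j).1, ozero_comp ι (hφ j).2⟩, ?_⟩
  intro g hg
  have hg' : cmpH hι e g ∈ ((G.image (cmpH hι e) : Finset H) : Set H) := by
    rw [Finset.mem_coe]
    exact Finset.mem_image_of_mem _ (Finset.mem_coe.1 hg)
  have h1 := hs _ hg'
  have h2 := hG g (Finset.mem_coe.1 hg)
  have h3 : (∑ j, ((ι : H →ₗ[ℂ] A) ∘ₗ φ j) ((ψ j ∘ₗ cmpH hι e) g)) =
      ι (∑ j, φ j (ψ j (cmpH hι e g))) := by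
    rw [map_sum]
    rfl
  have h4 : ι (∑ j, φ j (ψ j (cmpH hι e g))) - g =
      ι ((∑ j, φ j (ψ j (cmpH hι e g))) - cmpH hι e g) + (ι e * g * ι e - g) := by
    rw [map_sub, cmpH_apply]
    abel
  change ‖(∑ j, ((ι : H →ₗ[ℂ] A) ∘ₗ φ j) ((ψ j ∘ₗ cmpH hι e) g)) - g‖ ≤ ε
  rw [h3, h4]
  refine (norm_add_le _ _).trans ?_
  rw [hom_norm ι hι.inj]
  linarith

theorem t_RIX : StRIX := by
  intro A _ J J' _ _ hJ hA G ε hε
  obtain ⟨e⟩ := hJ
  obtain ⟨F, ψ, φ, hψ, hφ, hs⟩ := hA G ε hε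
  refine ⟨fun j => F (e.symm j), fun j => ψ (e.symm j), fun j => φ (e.symm j),
    fun j => hψ _, fun j => hφ _, ?_⟩
  intro a ha
  have h1 := hs a ha
  have h2 : (∑ j', φ (e.symm j') (ψ (e.symm j') a)) = ∑ j, φ j (ψ j a) :=
    Equiv.sum_comp e.symm (fun j => φ j (ψ j a))
  rw [h2]
  exact h1

end Pool.Agent.Helper7_ND.J_LOC
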