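import Pool.Agent.Helper7_ND.Stm8
import Pool.Agent.Helper7_ND.J_COL
import Pool.Agent.Helper7_ND.J_WP
import Pool.Agent.Helper7_ND.J_ALGA

/-! # QL: a projection between orthogonal positive elements -/

set_option autoImplicit false

open scoped Matrix.Norms.L2Operator ENNReal Matrix
open Pool.Agent.W659.EC

noncomputable section

namespace Pool.Agent.Helper7_ND.J_QL

open J_WP (cfc_sa)

/-- the positive and the negative part -/
theorem parts {R : Type} [CStarAlgebra R] {a b : R} (ha : Pos a) (hb : Pos b) (hab : a * b = 0) :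
    b = cfc (fun s : ℝ => max s 0) (b - a) ∧ a = cfc (fun s : ℝ => max (-s) 0) (b - a) := by
  let _ := CStarAlgebra.spectralOrder R
  let _ := CStarAlgebra.spectralOrderedRing R
  have ha0 : 0 ≤ a := (pos_iff a).1 ha
  have hb0 : 0 ≤ b := (pos_iff b).1 hb
  have hba : b * a = 0 := by
    have h := congrArg star hab
    rwa [star_mul, ha.sa, hb.sa, star_zero] at h
  obtain ⟨h1, h2⟩ := CFC.posPart_negPart_unique (a := b - a) rfl hba hb0 ha0
  constructor
  · refine h1.symm.trans ?_
    rw [CFC.posPart_def, cfcₙ_eq_cfc (hf0 := by simp)]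
    rfl
  · refine h2.symm.trans ?_
    rw [CFC.negPart_def, cfcₙ_eq_cfc (hf0 := by simp)]
    rfl

theorem t_QL : StQL := by
  intro R _ hS a b e τ hτ ha hb hab heb
  obtain ⟨hbx, hax⟩ := parts ha hb hab
  obtain ⟨x, hx⟩ : ∃ x, x = b - a := ⟨_, rfl⟩
  rw [← hx] at hbx hax
  have hxs : star x = x := by rw [hx, star_sub, ha.sa, hb.sa]
  have hxa : IsSelfAdjoint x := hxs
  obtain ⟨q, hq, -, hq1, hq2⟩ := hS x hxs (Set.Ici τ)
  have hf1 : Continuous fun s : ℝ => max (-s) 0 := by fun_prop
  have hf2 : Continuous fun s : ℝ => max (s - τ) 0 := by fun_prop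
  have hf3 : Continuous fun s : ℝ => min (max s 0) τ := by fun_prop
  have hf4 : Continuous fun s : ℝ => min 1 (max s 0 / τ) := by fun_prop
  have hf5 : Continuous fun s : ℝ => 1 / max s τ :=
    continuous_const.div (by fun_prop) fun s => (J_WP.max_pos' hτ s).ne'
  have hf6 : Continuous fun s : ℝ => max s 0 := by fun_prop
  -- the projection is orthogonal to `a`
  have e1 : q * a = 0 := by
    rw [hax]
    refine hq1 _ hf1 fun z hz => ?_
    have hz' : τ ≤ z := hz
    exact max_eq_right (by linarith)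
  -- `q = f4(x) q`
  have e2 : q * cfc (fun s : ℝ => 1 - min 1 (max s 0 / τ)) x = 0 := by
    refine hq1 _ (continuous_const.sub hf4) fun z hz => ?_
    have hz' : τ ≤ z := hz
    have h1 : 1 ≤ max z 0 / τ := by
      rw [le_div_iff₀ hτ, one_mul]
      exact hz'.trans (le_max_left _ _)
    rw [min_eq_left h1, sub_self]
  have e3 : cfc (fun s : ℝ => 1 - min 1 (max s 0 / τ)) x =
      1 - cfc (fun s : ℝ => min 1 (max s 0 / τ)) x := by
    rw [cfc_sub (fun _ : ℝ => (1 : ℝ)) _ x continuous_const.continuousOn hf4.continuousOn,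
      cfc_const_one ℝ x]
  have e4 : q * cfc (fun s : ℝ => min 1 (max s 0 / τ)) x = q := by
    rw [e3, mul_sub, mul_one, sub_eq_zero] at e2
    exact e2.symm
  have e5 : cfc (fun s : ℝ => min 1 (max s 0 / τ)) x * q = q := by
    have h := congrArg star e4
    rwa [star_mul, cfc_sa, hq.1] at h
  have e6 : cfc (fun s : ℝ => min 1 (max s 0 / τ)) x = b * cfc (fun s : ℝ => 1 / max s τ) x := by
    have h1 : cfc (fun s : ℝ => max s 0 * (1 / max s τ)) x =
        cfc (fun s : ℝ => max s 0) x * cfc (fun s : ℝ => 1 / max s τ) x :=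
      cfc_mul _ _ x hf6.continuousOn hf5.continuousOn
    rw [← hbx] at h1
    rw [← h1]
    refine cfc_congr fun s _ => ?_
    rcases le_total s 0 with h | h
    · rw [max_eq_right h, zero_div, zero_mul, min_eq_right zero_le_one]
    · rw [max_eq_left h]
      rcases le_total s τ with h' | h'
      · rw [max_eq_right h', min_eq_right ((div_le_one hτ).2 h')]
        ring
      · rw [max_eq_left h', min_eq_left ((one_le_div hτ).2 h'), mul_one_div_cancel (by linarith)]
  have e7 : e * q = q := by
    rw [e6] at e5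
    calc e * q = e * (b * cfc (fun s : ℝ => 1 / max s τ) x * q) := by rw [e5]
      _ = e * b * (cfc (fun s : ℝ => 1 / max s τ) x * q) := by simp only [mul_assoc]
      _ = b * (cfc (fun s : ℝ => 1 / max s τ) x * q) := by rw [heb]
      _ = q := by rw [← mul_assoc, e5]
  -- the rest of `b`
  have e8 : cfc (fun s : ℝ => max (s - τ) 0) x * (1 - q) = 0 := by
    have h := hq2 _ hf2 fun z hz => by
      have hz' : z < τ := not_le.1 hz
      exact max_eq_right (by linarith)
    rw [mul_sub, mul_one, h, sub_self]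
  have e9 : b = cfc (fun s : ℝ => min (max s 0) τ) x + cfc (fun s : ℝ => max (s - τ) 0) x := by
    rw [← cfc_add x _ _ hf3.continuousOn hf2.continuousOn]
    refine hbx.trans (cfc_congr fun s _ => ?_)
    rcases le_total s 0 with h | h
    · rw [max_eq_right h, min_eq_left hτ.le, max_eq_right (by linarith), add_zero]
    · rw [max_eq_left h]
      rcases le_total s τ with h' | h'
      · rw [min_eq_left h', max_eq_right (by linarith), add_zero]
      · rw [min_eq_right h', max_eq_left (by linarith)]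
        ring
  have e10 : ‖cfc (fun s : ℝ => min (max s 0) τ) x‖ ≤ τ := by
    refine norm_cfc_le hτ.le fun s _ => ?_
    rw [Real.norm_of_nonneg (le_min (le_max_right _ _) hτ.le)]
    exact min_le_right _ _
  have hc := J_COL.prj_norm (J_ALGA.prj_compl hq)
  refine ⟨q, hq, e1, e7, ?_⟩
  have e11 : (1 - q) * b * (1 - q) = (1 - q) * cfc (fun s : ℝ => min (max s 0) τ) x * (1 - q) := by
    rw [e9, mul_add, add_mul, mul_assoc (1 - q) (cfc (fun s : ℝ => max (s - τ) 0) x), e8, mul_zero,
      add_zero]
  rw [e11]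
  calc ‖(1 - q) * cfc (fun s : ℝ => min (max s 0) τ) x * (1 - q)‖
      ≤ ‖(1 - q) * cfc (fun s : ℝ => min (max s 0) τ) x‖ * ‖1 - q‖ := norm_mul_le _ _
    _ ≤ (‖1 - q‖ * ‖cfc (fun s : ℝ => min (max s 0) τ) x‖) * ‖1 - q‖ :=
        mul_le_mul_of_nonneg_right (norm_mul_le _ _) (norm_nonneg _)
    _ ≤ (1 * τ) * 1 := by
        refine mul_le_mul (mul_le_mul hc e10 (norm_nonneg _) zero_le_one) hc (norm_nonneg _) ?_
        rw [one_mul]
        exact hτ.le
    _ = τ := by ring

end Pool.Agent.Helper7_ND.J_QL
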