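import Pool.Agent.Helper7_ND.Rp

/-! # The merging, I: the index set and the maps between the reduced products -/

set_option autoImplicit false
set_option linter.unusedSectionVars false
set_option linter.unusedVariables false

open scoped Matrix.Norms.L2Operator ENNReal Matrix
open Pool.Agent.W659.EC Filter

noncomputable section

namespace Pool.Agent.Helper7_ND

/-- the index set of the reduced products -/
abbrev Idx (I : Type) : Type := ℕ × Finset I

/-- the filter: for all large `k`, for all large finite sets -/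
def Fil (I : Type) : Filter (Idx I) := (atTop : Filter ℕ).curry (atTop : Filter (Finset I))

instance finsetDirected (I : Type) : IsDirectedOrder (Finset I) := by
  classical
  infer_instance

theorem fil_iff {I : Type} (p : Idx I → Prop) :
    (∀ᶠ l in Fil I, p l) ↔ ∀ᶠ k in (atTop : Filter ℕ), ∀ᶠ G in (atTop : Filter (Finset I)), p (k, G) :=
  Filter.eventually_curry_iff

theorem fil_fst {I : Type} (p : ℕ → Prop) :
    (∀ᶠ l in Fil I, p l.1) ↔ ∀ᶠ k in (atTop : Filter ℕ), p k := by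
  rw [fil_iff]
  simp only [Filter.eventually_const]

instance filNeBot (I : Type) : (Fil I).NeBot := by
  rw [Filter.neBot_iff]
  intro h
  have h1 : ∀ᶠ l in Fil I, (fun _ : ℕ => False) l.1 := by rw [h]; exact Filter.eventually_bot
  have h2 := (fil_fst (I := I) fun _ : ℕ => False).1 h1
  rw [Filter.eventually_const] at h2
  exact h2

theorem fil_mem {I : Type} (s : ℕ → Finset I) (p : Idx I → Prop)
    (h : ∀ᶠ k in (atTop : Filter ℕ), ∀ G : Finset I, s k ⊆ G → p (k, G)) : ∀ᶠ l in Fil I, p l := by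
  rw [fil_iff]
  refine h.mono fun k hk => ?_
  exact (Filter.eventually_ge_atTop (s k)).mono fun G hG => hk G hG

theorem fil_tendsto (I : Type) :
    ∃ e : Idx I → ℝ, (∀ l, 0 < e l) ∧ Filter.Tendsto e (Fil I) (nhds 0) := by
  refine ⟨fun l => 1 / ((l.1 : ℝ) + 1), fun l => by positivity, ?_⟩
  rw [Metric.tendsto_nhds]
  intro ε hε
  refine (fil_fst (fun k : ℕ => dist (1 / ((k : ℝ) + 1)) 0 < ε)).2 ?_
  exact (Metric.tendsto_nhds.1 tendsto_one_div_add_atTop_nhds_zero_nat) ε hε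

section

variable {I E : Type} [NonUnitalCStarAlgebra I] [NonUnitalCStarAlgebra E]

/-- bounded sequences in the unitization -/
abbrev TT (E : Type) [NonUnitalCStarAlgebra E] : Type := lp (fun _ : ℕ => Unitization ℂ E) ∞

/-- bounded nets in the unitization -/
abbrev QT (I E : Type) [NonUnitalCStarAlgebra E] : Type :=
  lp (fun _ : Idx I => Unitization ℂ E) ∞

/-- sequences as nets -/
def pull (I E : Type) [NonUnitalCStarAlgebra E] : TT E →⋆ₐ[ℂ] QT I E where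
  toFun x := mkL (X := fun _ : Idx I => Unitization ℂ E) (fun l => x l.1) ⟨‖x‖, fun l => lpNormApply x l.1⟩
  map_one' := rfl
  map_mul' _ _ := rfl
  map_zero' := rfl
  map_add' _ _ := rfl
  commutes' _ := rfl
  map_star' _ := rfl

@[simp] theorem pull_apply (x : TT E) (l : Idx I) : pull I E x l = x l.1 := rfl

/-- constant sequences -/
def cst (E : Type) [NonUnitalCStarAlgebra E] : Unitization ℂ E →⋆ₐ[ℂ] TT E where
  toFun x := mkL (X := fun _ : ℕ => Unitization ℂ E) (fun _ => x) ⟨‖x‖, fun _ => le_rfl⟩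
  map_one' := rfl
  map_mul' _ _ := rfl
  map_zero' := rfl
  map_add' _ _ := rfl
  commutes' _ := rfl
  map_star' _ := rfl

@[simp] theorem cst_apply (x : Unitization ℂ E) (k : ℕ) : cst E x k = x := rfl

/-- a bounded sequence of elements of the ideal -/
def sqI (ι : I →⋆ₙₐ[ℂ] E) (s : ℕ → I) (h : ∃ C : ℝ, ∀ k, ‖s k‖ ≤ C) : TT E :=
  mkL (X := fun _ : ℕ => Unitization ℂ E) (fun k => jI ι (s k)) (by
    obtain ⟨C, hC⟩ := h
    exact ⟨C, fun k => (NonUnitalStarAlgHom.norm_apply_le (jI ι) (s k)).trans (hC k)⟩)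

@[simp] theorem sqI_apply (ι : I →⋆ₙₐ[ℂ] E) (s : ℕ → I) (h : ∃ C : ℝ, ∀ k, ‖s k‖ ≤ C) (k : ℕ) :
    sqI ι s h k = jI ι (s k) := rfl

variable {Q : Type} [CStarAlgebra Q] {qB : QT I E →⋆ₐ[ℂ] Q}
  (hQ : IsRP (fun _ : Idx I => Unitization ℂ E) (Fil I) Q qB)

/-- sequences in the reduced product -/
def om (qB : QT I E →⋆ₐ[ℂ] Q) : TT E →⋆ₐ[ℂ] Q := qB.comp (pull I E)

theorem om_apply (x : TT E) : om qB x = qB (pull I E x) := rfl

include hQ in
theorem om_le (x : TT E) (c : ℝ) (hc : 0 ≤ c) (h : ∀ᶠ k in (atTop : Filter ℕ), ‖x k‖ ≤ c) :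
    ‖om qB x‖ ≤ c := by
  rw [om_apply]
  refine hQ.le _ c hc ?_
  have h2 := (fil_fst (I := I) fun k => ‖x k‖ ≤ c).2 h
  refine h2.mono fun l hl => ?_
  rw [pull_apply]
  exact hl

include hQ in
theorem om_lt (x : TT E) (c : ℝ) (h : ‖om qB x‖ < c) : ∀ᶠ k in (atTop : Filter ℕ), ‖x k‖ < c := by
  rw [om_apply] at h
  have h2 := hQ.lt (pull I E x) c h
  refine (fil_fst (I := I) fun k => ‖x k‖ < c).1 (h2.mono fun l hl => ?_)
  rw [pull_apply] at hl
  exact hl

include hQ in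
theorem om_eq {x y : TT E} (h : Tendsto (fun k => ‖x k - y k‖) atTop (nhds 0)) :
    om qB x = om qB y := by
  rw [← sub_eq_zero, ← map_sub, ← norm_le_zero_iff]
  refine le_of_forall_pos_le_add fun ε hε => ?_
  rw [zero_add]
  refine om_le hQ _ ε hε.le ?_
  have := (Metric.tendsto_nhds.1 h) ε hε
  refine this.mono fun k hk => ?_
  rw [Real.dist_eq, sub_zero, abs_of_nonneg (norm_nonneg _)] at hk
  exact hk.le

include hQ in
theorem om_tendsto {x y : TT E} (h : om qB x = om qB y) :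
    Tendsto (fun k => ‖x k - y k‖) atTop (nhds 0) := by
  rw [Metric.tendsto_nhds]
  intro ε hε
  have h1 : ‖om qB (x - y)‖ < ε := by rw [map_sub, h, sub_self, norm_zero]; exact hε
  refine (om_lt hQ _ ε h1).mono fun k hk => ?_
  rw [Real.dist_eq, sub_zero, abs_of_nonneg (norm_nonneg _)]
  exact hk

end

section maps

variable {I E : Type} [NonUnitalCStarAlgebra I] [NonUnitalCStarAlgebra E] {ι : I →⋆ₙₐ[ℂ] E}
  (hι : IsIdeal ι) (v : ℕ → I) (hv : ∀ k, ‖v k‖ ≤ 1)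
  {G : Idx I → FDA} [hnt : ∀ l, Nontrivial (G l).alg]
  (ψ : ∀ l, I →ₗ[ℂ] (G l).alg) (hψ : ∀ l, IsCPC (ψ l))
  (φ : ∀ l, (G l).alg →ₗ[ℂ] I) (hφ : ∀ l, IsCPC (φ l))
  {Q R : Type} [CStarAlgebra Q] [CStarAlgebra R] {qB : QT I E →⋆ₐ[ℂ] Q}
  (hQ : IsRP (fun _ : Idx I => Unitization ℂ E) (Fil I) Q qB)
  {qR : lp (fun l => (G l).alg) ∞ →⋆ₐ[ℂ] R}
  (hR : IsRP (fun l => (G l).alg) (Fil I) R qR)

/-- the down map on bounded sequences, before passing to the quotient -/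
def N0 : TT E →ₗ[ℂ] lp (fun l => (G l).alg) ∞ where
  toFun z := mkL (X := fun l => (G l).alg) (fun l => ψ l (cmp hι (v l.1) (z l.1)))
    ⟨‖z‖, fun l => ((hψ l).2 _).trans ((norm_cmp_le hι _ (hv _) _).trans (lpNormApply z l.1))⟩
  map_add' x y := lpExt fun l => by
    show ψ l (cmp hι (v l.1) (x l.1 + y l.1)) = _
    rw [map_add, map_add]; rfl
  map_smul' c x := lpExt fun l => by
    show ψ l (cmp hι (v l.1) (c • x l.1)) = _
    rw [map_smul, map_smul]; rfl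

@[simp] theorem N0_apply (z : TT E) (l : Idx I) :
    N0 hι v hv ψ hψ z l = ψ l (cmp hι (v l.1) (z l.1)) := rfl

theorem isCP_N0 : IsCP (N0 hι v hv ψ hψ) := by
  refine lp_cp _ fun l => ?_
  have : (((evL l : lp (fun l => (G l).alg) ∞ →⋆ₐ[ℂ] (G l).alg) :
      lp (fun l => (G l).alg) ∞ →ₗ[ℂ] (G l).alg) ∘ₗ N0 hι v hv ψ hψ)
      = (ψ l ∘ₗ cmp hι (v l.1)) ∘ₗ ((evL l.1 : TT E →⋆ₐ[ℂ] Unitization ℂ E) : TT E →ₗ[ℂ] Unitization ℂ E) := by
    apply LinearMap.ext
    intro z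
    rfl
  rw [this]
  exact ((hψ l).1.comp (isCP_cmp hι _)).comp (isCP_hom (evL l.1 : TT E →⋆ₐ[ℂ] Unitization ℂ E) _ fun _ => rfl)

/-- the down map `N` -/
def NN (qR : lp (fun l => (G l).alg) ∞ →⋆ₐ[ℂ] R) : TT E →ₗ[ℂ] R :=
  (qR : lp (fun l => (G l).alg) ∞ →ₗ[ℂ] R) ∘ₗ N0 hι v hv ψ hψ

theorem NN_apply (z : TT E) : NN hι v hv ψ hψ qR z = qR (N0 hι v hv ψ hψ z) := rfl

theorem isCP_NN : IsCP (NN hι v hv ψ hψ qR) :=
  (isCP_hom qR _ fun _ => rfl).comp (isCP_N0 hι v hv ψ hψ)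

include hQ hR in
theorem NN_norm (z : TT E) : ‖NN hι v hv ψ hψ qR z‖ ≤ ‖om qB z‖ := by
  refine le_of_forall_pos_le_add fun ε hε => ?_
  have h1 := om_lt hQ z (‖om qB z‖ + ε) (by linarith)
  refine hR.le _ _ (by positivity) ?_
  refine ((fil_fst fun k => ‖z k‖ < ‖om qB z‖ + ε).2 h1).mono fun l hl => ?_
  exact ((hψ l).2 _).trans ((norm_cmp_le hι _ (hv _) _).trans hl.le)

/-- the up map before passing to the quotients -/
def P0 (ι : I →⋆ₙₐ[ℂ] E) : lp (fun l => (G l).alg) ∞ →ₗ[ℂ] QT I E where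
  toFun x := mkL (X := fun _ : Idx I => Unitization ℂ E) (fun l => jI ι (φ l (x l)))
    ⟨‖x‖, fun l => (NonUnitalStarAlgHom.norm_apply_le (jI ι) _).trans
      (((hφ l).2 _).trans (lpNormApply x l))⟩
  map_add' x y := lpExt fun l => by
    show jI ι (φ l (x l + y l)) = _
    rw [map_add, map_add]; rfl
  map_smul' c x := lpExt fun l => by
    show jI ι (φ l (c • x l)) = _
    rw [map_smul, map_smul]; rfl

@[simp] theorem P0_apply (x : lp (fun l => (G l).alg) ∞) (l : Idx I) :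
    P0 φ hφ ι x l = jI ι (φ l (x l)) := rfl

theorem isCP_P0 : IsCP (P0 φ hφ ι) := by
  refine lp_cp _ fun l => ?_
  have : (((evL l : QT I E →⋆ₐ[ℂ] Unitization ℂ E) : QT I E →ₗ[ℂ] Unitization ℂ E) ∘ₗ P0 φ hφ ι)
      = ((jI ι : I →ₗ[ℂ] Unitization ℂ E) ∘ₗ φ l) ∘ₗ ((evL l : lp (fun l => (G l).alg) ∞ →⋆ₐ[ℂ] (G l).alg) :
        lp (fun l => (G l).alg) ∞ →ₗ[ℂ] (G l).alg) := by
    apply LinearMap.ext
    intro z
    rfl
  rw [this]
  exact ((isCP_hom (jI ι) _ fun _ => rfl).comp (hφ l).1).comp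
    (isCP_hom (evL l : lp (fun l => (G l).alg) ∞ →⋆ₐ[ℂ] (G l).alg) _ fun _ => rfl)

include hQ hR in
theorem P0_norm (x : lp (fun l => (G l).alg) ∞) : ‖qB (P0 φ hφ ι x)‖ ≤ ‖qR x‖ := by
  refine le_of_forall_pos_le_add fun ε hε => ?_
  have h1 := hR.lt x (‖qR x‖ + ε) (by linarith)
  refine hQ.le _ _ (by positivity) (h1.mono fun l hl => ?_)
  exact (NonUnitalStarAlgHom.norm_apply_le (jI ι) _).trans (((hφ l).2 _).trans hl.le)

include hQ hR in
theorem P0_congr {x y : lp (fun l => (G l).alg) ∞} (h : qR x = qR y) :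
    qB (P0 φ hφ ι x) = qB (P0 φ hφ ι y) := by
  rw [← sub_eq_zero, ← map_sub, ← map_sub, ← norm_le_zero_iff]
  refine (P0_norm φ hφ hQ hR (x - y)).trans ?_
  rw [map_sub, h, sub_self, norm_zero]

/-- the up map `Φ'` -/
def PP (ι : I →⋆ₙₐ[ℂ] E) : R →ₗ[ℂ] Q where
  toFun a := qB (P0 φ hφ ι (Function.surjInv hR.surj a))
  map_add' a b := by
    rw [← map_add, ← map_add]
    apply P0_congr φ hφ hQ hR
    rw [map_add, Function.surjInv_eq hR.surj, Function.surjInv_eq hR.surj,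
      Function.surjInv_eq hR.surj]
  map_smul' c a := by
    rw [RingHom.id_apply, ← map_smul, ← map_smul]
    apply P0_congr φ hφ hQ hR
    rw [map_smul, Function.surjInv_eq hR.surj, Function.surjInv_eq hR.surj]

theorem PP_q (x : lp (fun l => (G l).alg) ∞) : PP φ hφ hQ hR ι (qR x) = qB (P0 φ hφ ι x) :=
  P0_congr φ hφ hQ hR (Function.surjInv_eq hR.surj _)

theorem isCPC_PP : IsCPC (PP φ hφ hQ hR ι) := by
  constructor
  · intro k M
    have hL : ∀ i j, ∃ x, qR x = M i j := fun i j => hR.surj _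
    choose L hL using hL
    obtain ⟨K, hK⟩ := isCP_P0 (ι := ι) φ hφ k (Matrix.of L)
    refine ⟨K.map qB, ?_⟩
    have h1 : (Mᴴ * M) = ((Matrix.of L)ᴴ * (Matrix.of L)).map qR := by
      ext i j
      simp only [Matrix.mul_apply, Matrix.map_apply, Matrix.conjTranspose_apply, Matrix.of_apply,
        map_sum, map_mul, map_star, hL]
    rw [h1]
    ext i j
    rw [Matrix.map_apply, Matrix.map_apply, PP_q]
    have h2 := congrFun (congrFun hK i) j
    rw [Matrix.map_apply] at h2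
    rw [h2]
    simp only [Matrix.mul_apply, Matrix.map_apply, Matrix.conjTranspose_apply, map_sum, map_mul,
      map_star]
  · intro a
    obtain ⟨x, rfl⟩ := hR.surj a
    rw [PP_q]
    exact P0_norm φ hφ hQ hR x

theorem PP_oz (hoz : ∀ l, OZ (φ l)) (a b : R) :
    PP φ hφ hQ hR ι a * PP φ hφ hQ hR ι b = PP φ hφ hQ hR ι 1 * PP φ hφ hQ hR ι (a * b) := by
  obtain ⟨x, rfl⟩ := hR.surj a
  obtain ⟨y, rfl⟩ := hR.surj b
  have e1 : qR x * qR y = qR (x * y) := (map_mul qR x y).symm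
  have e2 : (1 : R) = qR 1 := (map_one qR).symm
  rw [e1, e2, PP_q, PP_q, PP_q, PP_q, ← map_mul qB, ← map_mul qB]
  congr 1
  refine lpExt fun l => ?_
  show jI ι (φ l (x l)) * jI ι (φ l (y l)) = jI ι (φ l 1) * jI ι (φ l (x l * y l))
  rw [← map_mul, hoz l, map_mul]

theorem PP_inj (hι : IsIdeal ι) (hoz : ∀ l, OZ (φ l)) (hn : ∀ l (a : (G l).alg), ‖a‖ ≤ ‖φ l a * φ l 1‖) (a : R)
    (h : PP φ hφ hQ hR ι 1 * PP φ hφ hQ hR ι a = 0) : a = 0 := by
  obtain ⟨x, rfl⟩ := hR.surj a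
  have e2 : (1 : R) = qR 1 := (map_one qR).symm
  rw [e2, PP_q, PP_q, ← map_mul qB] at h
  rw [← norm_le_zero_iff]
  refine le_of_forall_pos_le_add fun ε hε => ?_
  rw [zero_add]
  refine hR.le _ _ hε.le ((hQ.small0 h hε).mono fun l hl => ?_)
  refine (hn l (x l)).trans ?_
  have h1 : φ l (x l) * φ l 1 = φ l 1 * φ l (x l) := by
    rw [hoz l, mul_one]
  rw [h1, ← norm_jI hι, map_mul]
  exact hl.le

end maps

end Pool.Agent.Helper7_ND
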