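import Pool.Agent.Helper7_ND.Mrg3

/-! # The merging, IV -/

set_option autoImplicit false
set_option linter.unusedSectionVars false
set_option linter.unusedVariables false

open scoped Matrix.Norms.L2Operator ENNReal Matrix
open Pool.Agent.W659.EC Filter

noncomputable section

namespace Pool.Agent.Helper7_ND

section

variable {I E : Type} [NonUnitalCStarAlgebra I] [NonUnitalCStarAlgebra E] {ι : I →⋆ₙₐ[ℂ] E}
  (hι : IsIdeal ι) {F : FDA} (ψ : E →ₗ[ℂ] F.alg) (Φ : F.alg →ₗ[ℂ] E) (t : I)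

/-- `Φ` as a map into the constant sequences -/
def PhT (Φ : F.alg →ₗ[ℂ] E) : F.alg →ₗ[ℂ] TT E :=
  (cst E : Unitization ℂ E →ₗ[ℂ] TT E) ∘ₗ (jE E : E →ₗ[ℂ] Unitization ℂ E) ∘ₗ Φ

@[simp] theorem PhT_apply (y : F.alg) (k : ℕ) : PhT Φ y k = jE E (Φ y) := rfl

theorem isCP_PhT (hΦ : IsCP Φ) : IsCP (PhT Φ) :=
  (isCP_hom (cst E) _ fun _ => rfl).comp ((isCP_hom (jE E) _ fun _ => rfl).comp hΦ)

theorem oz_PhT (hΦ : OZ Φ) : OZ (PhT Φ) := by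
  intro x y
  refine lpExt fun k => ?_
  show jE E (Φ x) * jE E (Φ y) = jE E (Φ 1) * jE E (Φ (x * y))
  rw [← map_mul, hΦ x y, map_mul]

theorem sqI_pos (s : ℕ → I) (h : ∃ C : ℝ, ∀ k, ‖s k‖ ≤ C) (hs : ∀ k, Pos (s k)) :
    Pos (sqI ι s h) := lp_pos fun k => (hs k).map (jI ι)

theorem sqI_norm (hι : IsIdeal ι) (s : ℕ → I) (h : ∃ C : ℝ, ∀ k, ‖s k‖ ≤ C) (hs : ∀ k, ‖s k‖ ≤ 1) :
    ‖sqI ι s h‖ ≤ 1 := lpNormLe zero_le_one fun k => by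
  rw [sqI_apply, norm_jI hι]; exact hs k

/-- commutation passes from the matrix units to everything -/
theorem comm_of_mu {Q : Type} [CStarAlgebra Q] (κ : F.alg →ₗ[ℂ] Q) (a : Q)
    (h : ∀ l i j, a * κ (mu F l i j) = κ (mu F l i j) * a) (y : F.alg) : a * κ y = κ y * a := by
  rw [J_L1.decomp F y]
  simp only [map_sum, map_smul, Finset.mul_sum, Finset.sum_mul, mul_smul_comm, smul_mul_assoc, h]

/-- the up map of the first summand of the merged colour, at one index -/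
def rhoL (hι : IsIdeal ι) (Φ : F.alg →ₗ[ℂ] E) {G : FDA} (ψ0 : I →ₗ[ℂ] G.alg) (φ0 : G.alg →ₗ[ℂ] I)
    (r : Unitization ℂ E) (P : G.alg) (v : I) : F.alg →ₗ[ℂ] E :=
  cmpE r ∘ₗ Φ + ((ι : I →ₗ[ℂ] E) ∘ₗ φ0 ∘ₗ conjL P ∘ₗ ψ0 ∘ₗ cmp hι v ∘ₗ (jE E : E →ₗ[ℂ] Unitization ℂ E) ∘ₗ Φ)

theorem rhoL_apply {G : FDA} (ψ0 : I →ₗ[ℂ] G.alg) (φ0 : G.alg →ₗ[ℂ] I)
    (r : Unitization ℂ E) (P : G.alg) (v : I) (y : F.alg) :
    ((rhoL hι Φ ψ0 φ0 r P v y : E) : Unitization ℂ E)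
      = star r * jE E (Φ y) * r + jI ι (φ0 (star P * ψ0 (cmp hι v (jE E (Φ y))) * P)) := by
  have h1 : rhoL hι Φ ψ0 φ0 r P v y
      = cmpE r (Φ y) + ι (φ0 (star P * ψ0 (cmp hι v (jE E (Φ y))) * P)) := rfl
  rw [h1, Unitization.inr_add, cmpE_apply]
  rfl

theorem isCP_rhoL (hΦ : IsCP Φ) {G : FDA} (ψ0 : I →ₗ[ℂ] G.alg) (φ0 : G.alg →ₗ[ℂ] I) (hψ0 : IsCP ψ0)
    (hφ0 : IsCP φ0) (r : Unitization ℂ E) (P : G.alg) (v : I) : IsCP (rhoL hι Φ ψ0 φ0 r P v) :=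
  ((isCP_cmpE r).comp hΦ).add ((isCP_hom ι _ fun _ => rfl).comp (hφ0.comp ((isCP_conjL P).comp
    (hψ0.comp ((isCP_cmp hι v).comp ((isCP_hom (jE E) _ fun _ => rfl).comp hΦ))))))

/-- final assembly at one index -/
theorem assemble (hETA : StETA) (hSUM : StSUM) (hCOR : StCOR)
    (hψ : IsCPC ψ) (hΦ : IsCP Φ) {J : Type} [Fintype J] (FF : Option J → FDA)
    (ψ0 : ∀ c, I →ₗ[ℂ] (FF c).alg) (φ0 : ∀ c, (FF c).alg →ₗ[ℂ] I)
    (hψ0 : ∀ c, IsCPC (ψ0 c)) (hφ0 : ∀ c, IsCPC (φ0 c) ∧ IsOrderZero (φ0 c))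
    (Th : E →ₗ[ℂ] I) (hTh : IsCP Th) (ε εF C : ℝ) (hε : 0 < ε) (hε1 : ε ≤ 1) (hεF : 0 < εF)
    (hεF1 : εF ≤ ε / 2) (hC : 1 ≤ C) (hεF2 : 20 * (εF * C) ≤ ε) (hThn : ∀ x, ‖Th x‖ ≤ (1 + 2 * ε) * ‖x‖)
    (ρ ρ' : F.alg →ₗ[ℂ] E) (hρ1 : ‖ρ 1‖ ≤ 1 + 2 * ε) (hρ' : IsCP ρ') (hρ0 : IsOrderZero ρ')
    (hρρ : ∀ y, ‖ρ' y - ρ y‖ ≤ εF * ‖y‖) (Qp : (FF none).alg) (hQp : Prj Qp)
    (hk : ∀ y, ρ' y * cfcₙ (fun s : ℝ => max (s - εF) 0) (ι (φ0 none Qp)) = 0)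
    (G : Finset E) (hG : ∀ x ∈ G, ‖x‖ ≤ C)
    (hD : ∀ x ∈ G, ‖Φ (ψ x) + ι t * x * ι t - ρ (ψ x) - ι (φ0 none (Qp * ψ0 none (Th x) * Qp))
      - ∑ c : J, ι (φ0 (some c) (ψ0 (some c) (Th x)))‖ ≤ ε / 3) :
    ∃ (F' : Option J → FDA) (ψ' : ∀ c, E →ₗ[ℂ] (F' c).alg) (φ' : ∀ c, (F' c).alg →ₗ[ℂ] E),
      (∀ c, IsCP (ψ' c) ∧ ∀ x, ‖ψ' c x‖ ≤ (1 + 3 * ε) * ‖x‖) ∧
      (∀ c, IsCP (φ' c) ∧ IsOrderZero (φ' c) ∧ ∀ y, ‖φ' c y‖ ≤ (1 + 3 * ε) * ‖y‖) ∧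
      ∀ x ∈ G, ‖Φ (ψ x) + ι t * x * ι t - ∑ c, φ' c (ψ' c x)‖ ≤ ε := by
  obtain ⟨K, δ, υ, hδ, hυδ, hυ1⟩ := hCOR (FF none) Qp hQp
  -- the cut down map on the corner
  set φK : K.alg →ₗ[ℂ] I := φ0 none ∘ₗ (υ : K.alg →ₗ[ℂ] (FF none).alg) with hφK
  have hφK1 : IsCPC φK := (hφ0 none).1.comp (isCPC_hom υ _ fun _ => rfl)
  have hφK0 : IsOrderZero φK := by
    intro a b hab
    have h1 : star (υ a) * υ a * (star (υ b) * υ b) = 0 := by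
      rw [← map_star, ← map_mul, ← map_star, ← map_mul, ← map_mul, hab, map_zero]
    have h2 := (hφ0 none).2 (υ a) (υ b) h1
    have h3 : υ (star a * a) = star (υ a) * υ a := by rw [map_mul, map_star]
    have h4 : υ (star b * b) = star (υ b) * υ b := by rw [map_mul, map_star]
    show φ0 none (υ (star a * a)) * φ0 none (υ (star b * b)) = 0
    rw [h3, h4]
    exact h2
  obtain ⟨η, hη1, hη0, hη2, hη3⟩ := hETA I K φK εF hεF hφK1 hφK0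
  have hφK1' : φK 1 = φ0 none Qp := by show φ0 none (υ 1) = _; rw [hυ1]
  -- orthogonality
  have hcfc : ι (cfcₙ (fun s : ℝ => max (s - εF) 0) (φK 1))
      = cfcₙ (fun s : ℝ => max (s - εF) 0) (ι (φ0 none Qp)) := by
    rw [hφK1']
    have hsa : IsSelfAdjoint (φ0 none Qp) := by
      have hPQ : Pos Qp := ⟨Qp, by rw [hQp.1, hQp.2]⟩
      exact (IsCP.pos (hφ0 none).1.1 hPQ).sa
    have hc : Continuous ι := ((ι : I →ₗ[ℂ] E).mkContinuous 1 (fun x => by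
      rw [one_mul]; exact NonUnitalStarAlgHom.norm_apply_le ι x)).continuous
    exact NonUnitalStarAlgHom.map_cfcₙ (S := ℂ) ι (fun s : ℝ => max (s - εF) 0) (φ0 none Qp)
      (hf₀ := by simp [hεF.le]) (hφ := hc) (hφa := hsa.map ι)
  set ηE : K.alg →ₗ[ℂ] E := (ι : I →ₗ[ℂ] E) ∘ₗ η with hηE
  have horth : ∀ x y, ρ' x * ηE y = 0 := by
    intro x y
    obtain ⟨c, hc⟩ := hη3 y
    show ρ' x * ι (η y) = 0
    rw [hc, map_mul, hcfc, ← mul_assoc, hk, zero_mul]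
  have hηEcp : IsCPC ηE := (isCPC_hom ι _ fun _ => rfl).comp hη1
  have hηE0 : IsOrderZero ηE := by
    intro a b hab
    show ι (η (star a * a)) * ι (η (star b * b)) = 0
    rw [← map_mul, hη0 a b hab, map_zero]
  set β : E →ₗ[ℂ] K.alg := δ ∘ₗ ψ0 none ∘ₗ Th with hβ
  have hβcp : IsCP β := hδ.1.comp ((hψ0 none).1.comp hTh)
  have hβn : ∀ x, ‖β x‖ ≤ (1 + 3 * ε) * ‖x‖ := by
    intro x
    refine ((hδ.2 _).trans (((hψ0 none).2 _).trans (hThn x))).trans ?_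
    gcongr
    linarith
  have hψn : ∀ x, ‖ψ x‖ ≤ (1 + 3 * ε) * ‖x‖ := by
    intro x
    refine (hψ.2 x).trans ?_
    nlinarith [norm_nonneg x]
  have h1n : ‖(1 : F.alg)‖ ≤ 1 := by
    rcases subsingleton_or_nontrivial F.alg with h | h
    · rw [Subsingleton.elim (1 : F.alg) 0, norm_zero]; exact zero_le_one
    · exact CStarRing.norm_one.le
  have h1K : ‖(1 : K.alg)‖ ≤ 1 := by
    rcases subsingleton_or_nontrivial K.alg with h | h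
    · rw [Subsingleton.elim (1 : K.alg) 0, norm_zero]; exact zero_le_one
    · exact CStarRing.norm_one.le
  have hρ'1 : ‖ρ' 1‖ ≤ 1 + 3 * ε := by
    have e : ρ' 1 = (ρ' 1 - ρ 1) + ρ 1 := by abel
    rw [e]
    refine (norm_add_le _ _).trans ?_
    have := hρρ 1
    have h2 : εF * ‖(1 : F.alg)‖ ≤ εF * 1 := by gcongr
    linarith
  have hηE1 : ‖ηE 1‖ ≤ 1 + 3 * ε := by
    refine (hηEcp.2 1).trans ?_
    linarith
  obtain ⟨K', ψK, φK', hK1, hK2, hK3, hK4, hK5, hK6⟩ := hSUM E F K ρ' ηE ψ β (1 + 3 * ε) (1 + 3 * ε)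
    (by positivity) (by positivity) hρ' hρ0 hηEcp.1 hηE0 horth hψ.1 hβcp hψn hβn hρ'1 hηE1
  refine ⟨fun c => Option.rec K' (fun c => FF (some c)) c,
    fun c => Option.rec (motive := fun c => E →ₗ[ℂ] (Option.rec K' (fun c => FF (some c)) c : FDA).alg)
      ψK (fun c => ψ0 (some c) ∘ₗ Th) c,
    fun c => Option.rec (motive := fun c => (Option.rec K' (fun c => FF (some c)) c : FDA).alg →ₗ[ℂ] E)
      φK' (fun c => (ι : I →ₗ[ℂ] E) ∘ₗ φ0 (some c)) c, ?_, ?_, ?_⟩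
  · rintro (_ | c)
    · exact ⟨hK1, hK2⟩
    · refine ⟨(hψ0 (some c)).1.comp hTh, fun x => ?_⟩
      refine (((hψ0 (some c)).2 _).trans (hThn x)).trans ?_
      gcongr
      linarith
  · rintro (_ | c)
    · exact ⟨hK3, hK4, hK5⟩
    · refine ⟨(isCP_hom ι _ fun _ => rfl).comp (hφ0 (some c)).1.1, ?_, fun y => ?_⟩
      · intro a b hab
        show ι (φ0 (some c) (star a * a)) * ι (φ0 (some c) (star b * b)) = 0
        rw [← map_mul, (hφ0 (some c)).2 a b hab, map_zero]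
      · refine ((NonUnitalStarAlgHom.norm_apply_le ι _).trans ((hφ0 (some c)).1.2 y)).trans ?_
        nlinarith [norm_nonneg y]
  · intro x hx
    rw [Fintype.sum_option]
    show ‖Φ (ψ x) + ι t * x * ι t - (φK' (ψK x) + ∑ c : J, ι (φ0 (some c) (ψ0 (some c) (Th x))))‖ ≤ ε
    rw [hK6]
    have hxC := hG x hx
    have e1 : Φ (ψ x) + ι t * x * ι t - (ρ' (ψ x) + ηE (β x) + ∑ c : J, ι (φ0 (some c) (ψ0 (some c) (Th x))))
        = (Φ (ψ x) + ι t * x * ι t - ρ (ψ x) - ι (φ0 none (Qp * ψ0 none (Th x) * Qp))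
      - ∑ c : J, ι (φ0 (some c) (ψ0 (some c) (Th x)))) - (ρ' (ψ x) - ρ (ψ x))
          - (ηE (β x) - ι (φ0 none (Qp * ψ0 none (Th x) * Qp))) := by abel
    rw [e1]
    have n1 := hD x hx
    have n2 : ‖ρ' (ψ x) - ρ (ψ x)‖ ≤ εF * C := by
      refine (hρρ _).trans ?_
      gcongr
      exact (hψ.2 x).trans hxC
    have n3 : ‖ηE (β x) - ι (φ0 none (Qp * ψ0 none (Th x) * Qp))‖ ≤ 2 * εF * (3 * C) := by
      have e2 : ηE (β x) - ι (φ0 none (Qp * ψ0 none (Th x) * Qp)) = ι (η (β x) - φK (β x)) := by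
        have e3 : φK (β x) = φ0 none (Qp * ψ0 none (Th x) * Qp) := by
          show φ0 none (υ (δ (ψ0 none (Th x)))) = _
          rw [hυδ]
        rw [map_sub, e3]
        rfl
      rw [e2]
      refine ((NonUnitalStarAlgHom.norm_apply_le ι _).trans (hη2 _)).trans ?_
      gcongr
      refine ((hδ.2 _).trans (((hψ0 none).2 _).trans (hThn x))).trans ?_
      have : (1 + 2 * ε) * ‖x‖ ≤ 3 * C := by
        have := norm_nonneg x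
        nlinarith
      exact this
    refine (norm_sub_le _ _).trans ((add_le_add ((norm_sub_le _ _).trans (add_le_add n1 n2)) n3).trans ?_)
    nlinarith

end

end Pool.Agent.Helper7_ND
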