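import Pool.Agent.Helper7_ND.Mrg4

/-! # The merging, V: the merging lemma -/

set_option autoImplicit false
set_option linter.unusedSectionVars false
set_option linter.unusedVariables false

open scoped Matrix.Norms.L2Operator ENNReal Matrix
open Pool.Agent.W659.EC Filter

noncomputable section

namespace Pool.Agent.Helper7_ND

theorem t_MRG (hL1 : StL1) (hNRM : StNRM) (hVW : StVW) (hRP : StRP) (hFD : StFD) (hRF : StRF)
    (hS0 : StS0) (hS1 : StS1) (hALG : StALG) (hNV : StNV) (hCPN : StCPN) (hFP : StFP)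
    (hETA : StETA) (hSUM : StSUM) (hCOR : StCOR) : StMRG := by
  intro I E _ _ _ ι hι J _ hsys F ψ Φ t ε hε hε1 hψ hΦ hΦ0 ht ht1 hcond G
  classical
  have hΦz : OZ Φ := hL1 F E Φ hΦ hΦ0
  -- the sequences
  obtain ⟨u, v, huv, hut, hvu, huS, hvS⟩ := hVW I E ι hι t
    (Finset.univ.image fun x : (Σ l : F.ι, F.n l × F.n l) => Φ (mu F x.1 x.2.1 x.2.2))
  have hv1 : ∀ k, ‖v k‖ ≤ 1 := fun k => (huv k).2.2.2
  have hu1 : ∀ k, ‖u k‖ ≤ 1 := fun k => (huv k).2.1
  have hvs : ∀ k, star (v k) = v k := fun k => (huv k).2.2.1.sa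
  have hmem : ∀ l i j, Φ (mu F l i j) ∈
      (Finset.univ.image fun x : (Σ l : F.ι, F.n l × F.n l) => Φ (mu F x.1 x.2.1 x.2.2)) :=
    fun l i j => Finset.mem_image.2 ⟨⟨l, i, j⟩, Finset.mem_univ _, rfl⟩
  -- the systems
  have hN : ∀ l : Idx I, ∃ (FF : Option J → FDA) (ψ : ∀ j, I →ₗ[ℂ] (FF j).alg)
      (φ : ∀ j, (FF j).alg →ₗ[ℂ] I),
      (∀ j, IsCPC (ψ j)) ∧ (∀ j, IsCPC (φ j) ∧ IsOrderZero (φ j)) ∧
      (∀ a ∈ l.2, ‖∑ j, φ j (ψ j a) - a‖ ≤ 1 / ((l.1 : ℝ) + 1)) ∧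
      Nontrivial (FF none).alg ∧ ∀ a : (FF none).alg, ‖a‖ ≤ ‖φ none a * φ none 1‖ :=
    fun l => hNRM I J hsys l.2 (1 / ((l.1 : ℝ) + 1)) (by positivity)
  choose FF ψψ φφ hψψ hφφ happ hnt hnorm using hN
  have hφφ1 : ∀ l c, IsCPC (φφ l c) := fun l c => (hφφ l c).1
  have := hnt
  obtain ⟨Q, instQ, qB, hQ⟩ := hRP (Idx I) (fun _ => Unitization ℂ E) (Fil I)
  obtain ⟨R, instR, qR, hR⟩ := hRP (Idx I) (fun l => (FF l none).alg) (Fil I)
  -- properties of `R`
  obtain ⟨rf1, rf2, rf3, rf4⟩ := hRF (Idx I) (fun l => (FF l none).alg) (Fil I) R qR hR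
    (fun l => (hFD (FF l none)).1) (fun l => (hFD (FF l none)).2)
  have hcut : CutE R := hS1 (Idx I) (fun l => (FF l none).alg) (Fil I) R qR hR (fil_tendsto I) rf4
    (hS0 R rf1 rf2)
  -- elements of `T`
  set vT : TT E := sqI ι v ⟨1, hv1⟩ with hvTdef
  set uT : TT E := sqI ι u ⟨1, hu1⟩ with huTdef
  set tT : TT E := cst E (jI ι t) with htTdef
  have hvTp : Pos vT := sqI_pos v _ fun k => (huv k).2.2.1
  have huTp : Pos uT := sqI_pos u _ fun k => (huv k).1
  have htTp : Pos tT := (ht.map (jI ι)).map (cst E)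
  have hvTn : ‖vT‖ ≤ 1 := sqI_norm hι v _ hv1
  have huTn : ‖uT‖ ≤ 1 := sqI_norm hι u _ hu1
  have htTn : ‖tT‖ ≤ 1 := lpNormLe zero_le_one fun k => by
    rw [htTdef, cst_apply, norm_jI hι]; exact ht1
  set rT : TT E := sqcOf vT with hrTdef
  have hrTp : Pos rT := sqcOf_pos vT
  have hrT2 : rT * rT = 1 - vT * vT := sqcOf_mul hvTp hvTn
  -- relations
  have rel1 : om qB (vT * uT) = om qB uT := by
    refine om_eq hQ ?_
    refine hvu.congr fun k => ?_
    show _ = ‖jI ι (v k) * jI ι (u k) - jI ι (u k)‖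
    rw [← map_mul, ← map_sub, norm_jI hι]
  have rel2 : om qB (uT * tT) = om qB tT := by
    refine om_eq hQ ?_
    refine hut.congr fun k => ?_
    show _ = ‖jI ι (u k) * jI ι t - jI ι t‖
    rw [← map_mul, ← map_sub, norm_jI hι]
  have commgen : ∀ (w : ℕ → I) (hw : ∃ C : ℝ, ∀ k, ‖w k‖ ≤ C)
      (hwS : ∀ x ∈ (Finset.univ.image fun x : (Σ l : F.ι, F.n l × F.n l) => Φ (mu F x.1 x.2.1 x.2.2)),
        Filter.Tendsto (fun k => ‖ι (w k) * x - x * ι (w k)‖) Filter.atTop (nhds 0)) (y : F.alg),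
      om qB (sqI ι w hw) * om qB (PhT Φ y) = om qB (PhT Φ y) * om qB (sqI ι w hw) := by
    intro w hw hwS y
    refine comm_of_mu (((om qB : TT E →⋆ₐ[ℂ] Q) : TT E →ₗ[ℂ] Q) ∘ₗ PhT Φ) _ ?_ y
    intro l i j
    show om qB (sqI ι w hw) * om qB (PhT Φ (mu F l i j)) = om qB (PhT Φ (mu F l i j)) * om qB (sqI ι w hw)
    rw [← map_mul, ← map_mul]
    refine om_eq hQ ?_
    refine (hwS _ (hmem l i j)).congr fun k => ?_
    show _ = ‖jI ι (w k) * jE E (Φ (mu F l i j)) - jE E (Φ (mu F l i j)) * jI ι (w k)‖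
    rw [jI_apply, jE_apply, ← Unitization.inr_mul, ← Unitization.inr_mul, ← Unitization.inr_sub, jE_norm]
  have rel3 : ∀ y, om qB (vT * PhT Φ y) = om qB (PhT Φ y * vT) := by
    intro y; rw [map_mul, map_mul]; exact commgen v ⟨1, hv1⟩ hvS y
  have rel4 : ∀ y, om qB (uT * PhT Φ y) = om qB (PhT Φ y * uT) := by
    intro y; rw [map_mul, map_mul]; exact commgen u ⟨1, hu1⟩ huS y
  have hr2 : om qB rT * om qB rT = 1 - om qB (vT * vT) := by
    rw [← map_mul, hrT2, map_sub, map_one]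
  have hrom : om qB rT = sqcOf (om qB vT) := map_sqcOf (om qB) vT hvTp
  have hrcomm : ∀ y, om qB rT * om qB (PhT Φ y) = om qB (PhT Φ y) * om qB rT := by
    intro y
    rw [hrom]
    refine sqcOf_comm ?_
    rw [← map_mul, ← map_mul, rel3]
  -- constants
  obtain ⟨C, hC1, hC⟩ : ∃ C : ℝ, 1 ≤ C ∧ ∀ x ∈ G, ‖x‖ ≤ C := by
    refine ⟨1 + ∑ x ∈ G, ‖x‖, ?_, fun x hx => ?_⟩
    · have : 0 ≤ ∑ x ∈ G, ‖x‖ := Finset.sum_nonneg fun _ _ => norm_nonneg _
      linarith
    · have := Finset.single_le_sum (f := fun x => ‖x‖) (fun _ _ => norm_nonneg _) hx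
      linarith
  set εF : ℝ := ε / (20 * C) with hεF
  have hεF0 : 0 < εF := by positivity
  have hεFC : 20 * (εF * C) = ε := by rw [hεF]; field_simp
  have hεF1 : εF ≤ ε / 2 := by
    have : εF * 1 ≤ εF * C := mul_le_mul_of_nonneg_left hC1 hεF0.le
    linarith
  set εA : ℝ := ε / (10 * C) with hεA
  have hεA0 : 0 < εA := by positivity
  have hεAC : 10 * (εA * C) = ε := by rw [hεA]; field_simp
  -- Φ 1
  have hΦ1 : ‖Φ 1‖ ≤ 1 + ε := by
    have p1 : Pos (jE E (Φ 1)) := by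
      have h1 : Pos (1 : F.alg) := ⟨1, by simp⟩
      exact (IsCP.pos hΦ h1).map (jE E)
    have p2 : Pos ((1 + ε : ℂ) • (1 : Unitization ℂ E) - jE E (Φ 1)) := by
      have e : (1 + ε : ℂ) • (1 : Unitization ℂ E) - jE E (Φ 1)
          = ((1 + ε : ℂ) • (1 : Unitization ℂ E)
            - ((ι (t * t) : E) : Unitization ℂ E) - ((Φ 1 : E) : Unitization ℂ E)) + jI ι (t * t) := by
        rw [jE_apply, jI_apply]; abel
      rw [e]
      refine hcond.add ?_
      have : Pos (t * t) := ⟨t, by rw [ht.sa]⟩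
      exact this.map (jI ι)
    have h3 := Pos.norm_le p1 p2
    rw [jE_apply, jE_norm] at h3
    refine h3.trans ?_
    rw [norm_smul]
    have : ‖(1 + ε : ℂ)‖ = 1 + ε := by
      rw [show (1 + ε : ℂ) = ((1 + ε : ℝ) : ℂ) by push_cast; rfl, Complex.norm_real, Real.norm_eq_abs,
        abs_of_pos (by linarith)]
    rw [this, CStarRing.norm_one, mul_one]
  have hPh1 : ‖PhT Φ 1‖ ≤ 1 + ε := lpNormLe (by linarith) fun k => by
    rw [PhT_apply, jE_apply, jE_norm]; exact hΦ1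
  -- the algebraic core
  obtain ⟨p, q, hp, hq, c1, c2, c3, c4⟩ := hALG (TT E) Q R (om qB)
    (NN hι v hv1 (fun l => ψψ l none) (fun l => hψψ l none) qR)
    (PP (fun l => φφ l none) (fun l => hφφ1 l none) hQ hR ι) F (PhT Φ) vT uT tT (om qB rT) εA
    hcut rf3 hεA0 (isCP_NN hι v hv1 _ _) (NN_norm hι v hv1 _ _ hQ hR)
    (isCPC_PP _ _ hQ hR) (PP_oz _ _ hQ hR fun l => hL1 _ _ _ (hφφ l none).1.1 (hφφ l none).2)
    (PP_inj _ _ hQ hR hι (fun l => hL1 _ _ _ (hφφ l none).1.1 (hφφ l none).2) hnorm)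
    (fun z hz => ⟨H1 hι v hv1 hvs ψψ hψψ φφ hφφ1 happ hQ hR vT (fun _ => rfl) hNV z hz,
      H2 hι v hv1 hvs ψψ hψψ φφ hφφ1 happ hQ hR vT (fun _ => rfl) hNV z hz⟩)
    (H3 hι v hv1 hvs ψψ hψψ φφ hφφ1 happ hQ hR vT (fun _ => rfl))
    (isCP_PhT Φ hΦ) (oz_PhT Φ hΦz) (hPh1.trans (by linarith)) hvTp hvTn huTp huTn htTp htTn
    rel1 rel2 rel3 rel4 (hrTp.map (om qB)) hr2 hrcomm
  obtain ⟨P, hP, hPp⟩ := rf4 p hp
  obtain ⟨Qp, hQp, hQpq⟩ := rf4 q hq
  have hPl : ∀ l, star (P l) = P l := fun l => congrArg (fun x : lp (fun l => (FF l none).alg) ∞ => x l) hP.1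
  have hQl : ∀ l, Prj (Qp l) := fun l =>
    ⟨congrArg (fun x : lp (fun l => (FF l none).alg) ∞ => x l) hQp.1,
      congrArg (fun x : lp (fun l => (FF l none).alg) ∞ => x l) hQp.2⟩
  -- the family of maps
  set ρ : ∀ l : Idx I, F.alg →ₗ[ℂ] E := fun l =>
    rhoL hι Φ (ψψ l none) (φφ l none) (rT l.1) (P l) (v l.1) with hρ
  set W : F.alg → QT I E := fun y => pull I E rT * pull I E (PhT Φ y) * pull I E rT
    + P0 (fun l => φφ l none) (fun l => hφφ1 l none) ι
        (P * N0 hι v hv1 (fun l => ψψ l none) (fun l => hψψ l none) (PhT Φ y) * P) with hW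
  have hrTs : ∀ k, star (rT k) = rT k := fun k => by
    have := hrTp.sa
    exact congrArg (fun x : TT E => x k) this
  have hWρ : ∀ y l, W y l = ((ρ l y : E) : Unitization ℂ E) := by
    intro y l
    rw [hρ]
    simp only
    rw [rhoL_apply, hrTs, hPl]
    rfl
  have hqW : ∀ y, qB (W y) = om qB rT * om qB (PhT Φ y) * om qB rT
      + PP (fun l => φφ l none) (fun l => hφφ1 l none) hQ hR ι
        (p * NN hι v hv1 (fun l => ψψ l none) (fun l => hψψ l none) qR (PhT Φ y) * p) := by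
    intro y
    rw [hW]
    simp only
    rw [map_add, map_mul qB, map_mul qB, ← PP_q (fun l => φφ l none) (fun l => hφφ1 l none) hQ hR,
      map_mul qR, map_mul qR, hPp]
    rfl
  -- eventually
  have ev4 : ∀ᶠ k : ℕ in atTop, ‖t * t - v k * (t * t) * v k‖ ≤ ε := by
    have h1 := tendsto_vtt v t hv1 hvs ht.sa (tendsto_vt u v t hv1 hu1 hut hvu)
    exact (h1.eventually (gt_mem_nhds hε)).mono fun k hk => le_of_lt hk
  have evTh : ∀ᶠ l in Fil I, ‖t * t - v l.1 * (t * t) * v l.1‖ ≤ ε :=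
    (fil_fst (I := I) fun k => ‖t * t - v k * (t * t) * v k‖ ≤ ε).2 ev4
  have evρ1 : ∀ᶠ l in Fil I, ‖ρ l 1‖ < 1 + 2 * ε := by
    have h1 : ‖qB (W 1)‖ < 1 + 2 * ε := by
      have h2 : ‖qB (W 1)‖ ≤ ‖om qB (PhT Φ 1)‖ := by
        rw [hqW]
        refine Pos.norm_le ?_ c3
        have h1F : Pos (1 : F.alg) := ⟨1, by simp⟩
        have q1 : Pos (om qB (PhT Φ 1)) := (IsCP.pos (isCP_PhT Φ hΦ) h1F).map (om qB)
        have q2 : Pos (NN hι v hv1 (fun l => ψψ l none) (fun l => hψψ l none) qR (PhT Φ 1)) :=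
          IsCP.pos (isCP_NN hι v hv1 _ _) (IsCP.pos (isCP_PhT Φ hΦ) h1F)
        have q3 := Pos.conj q1 (om qB rT)
        have q4 := Pos.conj q2 p
        rw [(hrTp.map (om qB)).sa] at q3
        rw [hp.1] at q4
        exact q3.add (IsCP.pos (isCPC_PP _ _ hQ hR).1 q4)
      refine (h2.trans ((NonUnitalStarAlgHom.norm_apply_le (om qB) _).trans hPh1)).trans_lt ?_
      linarith
    refine (hQ.lt _ _ h1).mono fun l hl => ?_
    rwa [hWρ, jE_norm] at hl
  -- the final perturbation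
  obtain ⟨δ, hδ, hFP'⟩ := hFP F εF hεF0
  have evb : ∀ᶠ l in Fil I, ‖ρ l 1 * ι (φφ l none (Qp l))‖ ≤ δ := by
    have h1 : qB (W 1 * P0 (fun l => φφ l none) (fun l => hφφ1 l none) ι Qp) = 0 := by
      rw [map_mul qB, hqW, ← PP_q (fun l => φφ l none) (fun l => hφφ1 l none) hQ hR, hQpq]
      exact c2
    refine (hQ.small0 h1 hδ).mono fun l hl => ?_
    have e : (W 1 * P0 (fun l => φφ l none) (fun l => hφφ1 l none) ι Qp) l
        = ((ρ l 1 * ι (φφ l none (Qp l)) : E) : Unitization ℂ E) := by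
      rw [Unitization.inr_mul, ← hWρ]
      rfl
    rw [e, jE_norm] at hl
    exact hl.le
  have evoz : ∀ᶠ l in Fil I, ∀ a i j b i' j', ‖ρ l (mu F a i j) * ρ l (mu F b i' j')
        - ρ l 1 * ρ l (mu F a i j * mu F b i' j')‖ ≤ δ := by
    simp only [Filter.eventually_all]
    intro a i j b i' j'
    have h1 : qB (W (mu F a i j) * W (mu F b i' j') - W 1 * W (mu F a i j * mu F b i' j')) = 0 := by
      rw [map_sub, map_mul qB, map_mul qB, hqW, hqW, hqW, hqW, c1, sub_self]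
    refine (hQ.small0 h1 hδ).mono fun l hl => ?_
    have e : (W (mu F a i j) * W (mu F b i' j') - W 1 * W (mu F a i j * mu F b i' j')) l
        = ((ρ l (mu F a i j) * ρ l (mu F b i' j')
        - ρ l 1 * ρ l (mu F a i j * mu F b i' j') : E) : Unitization ℂ E) := by
      rw [Unitization.inr_sub, Unitization.inr_mul, Unitization.inr_mul, ← hWρ, ← hWρ, ← hWρ, ← hWρ]
      rfl
    rw [e, jE_norm] at hl
    exact hl.le
  -- the approximation
  have evD : ∀ᶠ l in Fil I, ∀ x ∈ G, ‖Φ (ψ x) + ι t * x * ι t - ρ l (ψ x)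
      - ι (φφ l none (Qp l * ψψ l none (Tht hι ψ Φ t (v l.1) x) * Qp l))
      - ∑ c : J, ι (φφ l (some c) (ψψ l (some c) (Tht hι ψ Φ t (v l.1) x)))‖ ≤ ε / 3 := by
    rw [Filter.eventually_all_finset]
    intro x hx
    have hxC := hC x hx
    set y : F.alg := ψ x with hy
    have hyC : ‖y‖ ≤ C := (hψ.2 x).trans hxC
    set xT : TT E := cst E (jE E x) with hxT
    have hxTn : ‖xT‖ ≤ C := lpNormLe (by linarith) fun k => by
      rw [hxT, cst_apply, jE_apply, jE_norm]; exact hxC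
    -- the elements `Θ`
    have hThb : ∀ k, ‖Tht hι ψ Φ t (v k) x‖ ≤ ‖Φ y‖ + ‖x‖ := by
      intro k
      rw [Tht_apply]
      refine (norm_add_le _ _).trans (add_le_add ?_ ?_)
      · refine (norm_cmp_le hι _ (hv1 k) _).trans ?_
        rw [jE_apply, jE_norm]
      · refine (norm_cmp_le hι _ ht1 _).trans ?_
        rw [jE_apply, jE_norm]
    set ThI : TT E := sqI ι (fun k => Tht hι ψ Φ t (v k) x) ⟨_, hThb⟩ with hThI
    set ThG : lp (fun l => (FF l none).alg) ∞ := mkL (X := fun l => (FF l none).alg)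
      (fun l => ψψ l none (Tht hι ψ Φ t (v l.1) x))
      ⟨‖Φ y‖ + ‖x‖, fun l => ((hψψ l none).2 _).trans (hThb _)⟩ with hThG
    -- `q ThG = N(Φ y) + N(t x t)`
    have hvt := tendsto_vt u v t hv1 hu1 hut hvu
    have eG : qR ThG = NN hι v hv1 (fun l => ψψ l none) (fun l => hψψ l none) qR (PhT Φ y)
        + NN hι v hv1 (fun l => ψψ l none) (fun l => hψψ l none) qR (tT * xT * tT) := by
      rw [NN_apply, NN_apply, ← map_add]
      refine hR.eq fun η hη => ?_
      have h1 : Tendsto (fun k => ‖v k * t - t‖ * (‖x‖ + 0) + ‖x‖ * ‖v k * t - t‖) atTop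
          (nhds (0 * (‖x‖ + 0) + ‖x‖ * 0)) := (hvt.mul_const _).add (hvt.const_mul _)
      have h0 : 0 * (‖x‖ + 0) + ‖x‖ * 0 = 0 := by ring
      rw [h0] at h1
      have h2 := (h1.eventually (gt_mem_nhds hη))
      refine ((fil_fst (I := I) fun k => ‖v k * t - t‖ * (‖x‖ + 0) + ‖x‖ * ‖v k * t - t‖ < η).2 h2).mono
        fun l hl => ?_
      show ‖ψψ l none (Tht hι ψ Φ t (v l.1) x) - (ψψ l none (cmp hι (v l.1) (jE E (Φ y)))
        + ψψ l none (cmp hι (v l.1) (jI ι t * jE E x * jI ι t)))‖ ≤ η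
      rw [Tht_apply, map_add, add_sub_add_left_eq_sub, ← map_sub]
      refine ((hψψ l none).2 _).trans ?_
      rw [← norm_jI hι, map_sub, cmp_apply, cmp_apply]
      set a := jI ι t
      set b := jI ι (v l.1)
      have hbs : star b = b := by rw [← map_star, hvs]
      have has : star a = a := by rw [← map_star, ht.sa]
      rw [has, hbs]
      have e1 : a * jE E x * a - b * (a * jE E x * a) * b
          = -((b * a - a) * (jE E x * (a * b))) - (a * jE E x) * (a * b - a) := by noncomm_ring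
      have nba : ‖b * a - a‖ = ‖v l.1 * t - t‖ := by rw [← map_mul, ← map_sub, norm_jI hι]
      have nab : ‖a * b - a‖ = ‖v l.1 * t - t‖ := by
        rw [← nba, ← norm_star (a * b - a), star_sub, star_mul, has, hbs]
      have na : ‖a‖ ≤ 1 := by rw [norm_jI hι]; exact ht1
      have nb : ‖b‖ ≤ 1 := by rw [norm_jI hι]; exact hv1 _
      have nx : ‖jE E x‖ = ‖x‖ := by rw [jE_apply, jE_norm]
      rw [e1]
      refine (norm_sub_le _ _).trans (le_trans (add_le_add ?_ ?_) hl.le)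
      · rw [norm_neg]
        refine (norm_mul_le _ _).trans ?_
        rw [nba]
        refine mul_le_mul_of_nonneg_left ?_ (norm_nonneg _)
        refine (norm_mul_le _ _).trans ?_
        rw [nx, add_zero]
        refine mul_le_of_le_one_right (norm_nonneg _) ?_
        refine (norm_mul_le _ _).trans ?_
        calc ‖a‖ * ‖b‖ ≤ 1 * 1 := by gcongr
          _ = 1 := one_mul 1
      · refine (norm_mul_le _ _).trans ?_
        rw [nab]
        refine mul_le_mul_of_nonneg_right ?_ (norm_nonneg _)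
        refine (norm_mul_le _ _).trans ?_
        rw [nx]
        exact mul_le_of_le_one_left (norm_nonneg _) na
    -- the sum over all colours
    set SJ : QT I E := mkL (X := fun _ : Idx I => Unitization ℂ E)
      (fun l => ∑ c : J, th ι ψψ φφ l (some c) (Tht hι ψ Φ t (v l.1) x))
      ⟨∑ c : J, (‖Φ y‖ + ‖x‖), fun l => (norm_sum_le _ _).trans (Finset.sum_le_sum fun c _ =>
        (th_norm ψψ hψψ φφ hφφ1 l (some c) _).trans (hThb _))⟩ with hSJ
    have eS : qB SJ = om qB ThI - PP (fun l => φφ l none) (fun l => hφφ1 l none) hQ hR ι (qR ThG) := by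
      rw [PP_q, om_apply, ← map_sub qB]
      refine hQ.eq fun η hη => ?_
      refine (th_ev (ι := ι) ψψ φφ happ (fun k => Tht hι ψ Φ t (v k) x) hη).mono fun l hl => ?_
      show ‖∑ c : J, th ι ψψ φφ l (some c) (Tht hι ψ Φ t (v l.1) x)
        - (jI ι (Tht hι ψ Φ t (v l.1) x) - th ι ψψ φφ l none (Tht hι ψ Φ t (v l.1) x))‖ ≤ η
      rw [Fintype.sum_option] at hl
      refine le_of_eq_of_le ?_ hl
      congr 1
      abel
    have eI : om qB ThI = om qB vT * om qB (PhT Φ y) * om qB vT + om qB (tT * xT * tT) := by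
      rw [← map_mul, ← map_mul, ← map_add]
      refine congrArg _ (lpExt fun k => ?_)
      show jI ι (Tht hι ψ Φ t (v k) x) = jI ι (v k) * jE E (Φ y) * jI ι (v k) + jI ι t * jE E x * jI ι t
      rw [Tht_apply, map_add, cmp_apply, cmp_apply, ← map_star, ← map_star, hvs, ht.sa]
    -- the difference
    set DD : QT I E := pull I E (PhT Φ y + tT * xT * tT) - W y
      - P0 (fun l => φφ l none) (fun l => hφφ1 l none) ι (Qp * ThG * Qp) - SJ with hDD
    have eD : qB DD = PP (fun l => φφ l none) (fun l => hφφ1 l none) hQ hR ι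
        (NN hι v hv1 (fun l => ψψ l none) (fun l => hψψ l none) qR (PhT Φ y)
          + NN hι v hv1 (fun l => ψψ l none) (fun l => hψψ l none) qR (tT * xT * tT)
          - p * NN hι v hv1 (fun l => ψψ l none) (fun l => hψψ l none) qR (PhT Φ y) * p
          - q * (NN hι v hv1 (fun l => ψψ l none) (fun l => hψψ l none) qR (PhT Φ y)
          + NN hι v hv1 (fun l => ψψ l none) (fun l => hψψ l none) qR (tT * xT * tT)) * q) := by
      have f1 : qB (pull I E (PhT Φ y + tT * xT * tT)) = om qB (PhT Φ y) + om qB (tT * xT * tT) := by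
        rw [map_add, map_add]; rfl
      have f2 : qB (P0 (fun l => φφ l none) (fun l => hφφ1 l none) ι (Qp * ThG * Qp))
          = PP (fun l => φφ l none) (fun l => hφφ1 l none) hQ hR ι (q * qR ThG * q) := by
        rw [← PP_q (fun l => φφ l none) (fun l => hφφ1 l none) hQ hR, map_mul qR, map_mul qR, hQpq]
      have f3 : om qB rT * om qB (PhT Φ y) * om qB rT + om qB vT * om qB (PhT Φ y) * om qB vT
          = om qB (PhT Φ y) := by
        have g1 : om qB rT * om qB (PhT Φ y) * om qB rT = om qB (PhT Φ y) * (om qB rT * om qB rT) := by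
          rw [hrcomm, mul_assoc]
        have g2 : om qB vT * om qB (PhT Φ y) * om qB vT = om qB (PhT Φ y) * om qB (vT * vT) := by
          have := rel3 y
          rw [map_mul, map_mul] at this
          rw [this, map_mul, mul_assoc]
        rw [g1, g2, hr2]
        noncomm_ring
      rw [hDD, map_sub, map_sub, map_sub, f1, f2, hqW, eS, eI, eG]
      simp only [map_sub, map_add]
      have f4 : om qB (PhT Φ y) = om qB rT * om qB (PhT Φ y) * om qB rT
        + om qB vT * om qB (PhT Φ y) * om qB vT := f3.symm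
      generalize om qB rT * om qB (PhT Φ y) * om qB rT = A1 at *
      generalize om qB vT * om qB (PhT Φ y) * om qB vT = A2 at *
      rw [f4]
      abel
    have hDn : ‖qB DD‖ < ε / 3 := by
      rw [eD]
      refine (((isCPC_PP (ι := ι) (fun l => φφ l none) (fun l => hφφ1 l none) hQ hR).2 _).trans (c4 y xT)).trans_lt ?_
      have : εA * (‖y‖ + ‖xT‖) ≤ εA * (C + C) := by gcongr
      nlinarith
    refine (hQ.lt _ _ hDn).mono fun l hl => ?_
    have e : DD l = ((Φ y + ι t * x * ι t - ρ l y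
      - ι (φφ l none (Qp l * ψψ l none (Tht hι ψ Φ t (v l.1) x) * Qp l))
      - ∑ c : J, ι (φφ l (some c) (ψψ l (some c) (Tht hι ψ Φ t (v l.1) x))) : E) : Unitization ℂ E) := by
      rw [Unitization.inr_sub, Unitization.inr_sub, Unitization.inr_sub, Unitization.inr_add,
        Unitization.inr_mul, Unitization.inr_mul, ← hWρ]
      have e5 : ((∑ c : J, ι (φφ l (some c) (ψψ l (some c) (Tht hι ψ Φ t (v l.1) x))) : E) : Unitization ℂ E)
          = ∑ c : J, th ι ψψ φφ l (some c) (Tht hι ψ Φ t (v l.1) x) :=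
        map_sum (jE E) _ _
      rw [e5]
      rfl
    rw [e, jE_norm] at hl
    exact hl.le
  -- choose one index
  obtain ⟨l, l1, l2, l3, l4, l5⟩ := (evTh.and (evρ1.and (evb.and (evoz.and evD)))).exists
  have hρcp : IsCP (ρ l) := isCP_rhoL hι Φ hΦ _ _ (hψψ l none).1 (hφφ1 l none).1 _ _ _
  have hPQ : Pos (Qp l) := ⟨Qp l, by rw [(hQl l).1, (hQl l).2]⟩
  have hQn : ‖Qp l‖ ≤ 1 := by
    have h := CStarRing.norm_star_mul_self (x := Qp l)
    rw [(hQl l).1, (hQl l).2] at h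
    by_contra hc
    push Not at hc
    nlinarith
  obtain ⟨ρ', r1, r2, r3, r4⟩ := hFP' E (ρ l) (ι (φφ l none (Qp l))) hρcp (by linarith) l4
    ((IsCP.pos (hφφ1 l none).1 hPQ).map ι)
    ((NonUnitalStarAlgHom.norm_apply_le ι _).trans (((hφφ1 l none).2 _).trans hQn)) l3
  exact assemble ψ Φ t hETA hSUM hCOR hψ hΦ (FF l) (ψψ l) (φφ l) (hψψ l) (hφφ l)
    (Tht hι ψ Φ t (v l.1)) (isCP_Tht hι ψ Φ t hψ hΦ _) ε εF C hε hε1 hεF0 hεF1 hC1 hεFC.le
    (Tht_norm hι ψ Φ t hCPN hψ hΦ (v l.1) (hv1 _) (hvs _) ht.sa ht1 ε hε hcond l1)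
    (ρ l) ρ' l2.le r1 r2 r3 (Qp l) (hQl l) r4 G hC l5

end Pool.Agent.Helper7_ND
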