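import Pool.Agent.Helper7_ND.Mrg3
import Pool.Agent.Helper7_ND.Stm6

/-! # The merging of all colours, I: the approximate identity of the ideal -/

set_option autoImplicit false
set_option linter.unusedSectionVars false
set_option linter.unusedVariables false

open scoped Matrix.Norms.L2Operator ENNReal Matrix
open Pool.Agent.W659.EC Filter

noncomputable section

namespace Pool.Agent.Helper7_ND.AllC

section

variable {I E : Type} [NonUnitalCStarAlgebra I] [NonUnitalCStarAlgebra E] {ι : I →⋆ₙₐ[ℂ] E}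
  (hι : IsIdeal ι) (v : ℕ → I) (hv : ∀ k, ‖v k‖ ≤ 1) (hvs : ∀ k, star (v k) = v k)
  {J : Type} [Fintype J] {FF : Idx I → J → FDA} [hnt : ∀ l c, Nontrivial (FF l c).alg]
  (ψ : ∀ l c, I →ₗ[ℂ] (FF l c).alg) (hψ : ∀ l c, IsCPC (ψ l c))
  (φ : ∀ l c, (FF l c).alg →ₗ[ℂ] I) (hφ : ∀ l c, IsCPC (φ l c))
  (happ : ∀ l : Idx I, ∀ a ∈ l.2, ‖∑ c, φ l c (ψ l c a) - a‖ ≤ 1 / ((l.1 : ℝ) + 1))
  {c0 : J} {Q R : Type} [CStarAlgebra Q] [CStarAlgebra R] {qB : QT I E →⋆ₐ[ℂ] Q}
  (hQ : IsRP (fun _ : Idx I => Unitization ℂ E) (Fil I) Q qB)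
  {qR : lp (fun l => (FF l c0).alg) ∞ →⋆ₐ[ℂ] R}
  (hR : IsRP (fun l => (FF l c0).alg) (Fil I) R qR)

/-- the map `φ ψ` of one colour, with values in the unitization of `E` -/
def th (ι : I →⋆ₙₐ[ℂ] E) (ψ : ∀ l c, I →ₗ[ℂ] (FF l c).alg) (φ : ∀ l c, (FF l c).alg →ₗ[ℂ] I)
    (l : Idx I) (c : J) : I →ₗ[ℂ] Unitization ℂ E :=
  (jI ι : I →ₗ[ℂ] Unitization ℂ E) ∘ₗ (φ l c ∘ₗ ψ l c)

omit hnt in
theorem th_apply (l : Idx I) (c : J) (a : I) : th ι ψ φ l c a = jI ι (φ l c (ψ l c a)) := rfl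

include hψ hφ in
omit hnt in
theorem isCP_th (l : Idx I) (c : J) : IsCP (th ι ψ φ l c) :=
  (isCP_hom (jI ι) _ fun _ => rfl).comp ((hφ l c).1.comp (hψ l c).1)

include hψ hφ in
omit hnt in
theorem th_norm (l : Idx I) (c : J) (a : I) : ‖th ι ψ φ l c a‖ ≤ ‖a‖ :=
  (NonUnitalStarAlgHom.norm_apply_le (jI ι) _).trans (((hφ l c).2 _).trans ((hψ l c).2 a))

include happ in
omit hnt in
theorem th_sum (l : Idx I) (a : I) (ha : a ∈ l.2) :
    ‖∑ c, th ι ψ φ l c a - jI ι a‖ ≤ 1 / ((l.1 : ℝ) + 1) := by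
  have h1 : ∑ c, th ι ψ φ l c a - jI ι a = jI ι (∑ c, φ l c (ψ l c a) - a) := by
    rw [map_sub, map_sum]
    rfl
  rw [h1]
  exact (NonUnitalStarAlgHom.norm_apply_le (jI ι) _).trans (happ l a ha)

include happ in
omit hnt in
theorem th_ev (s : ℕ → I) {ε : ℝ} (hε : 0 < ε) :
    ∀ᶠ l in Fil I, ‖∑ c, th ι ψ φ l c (s l.1) - jI ι (s l.1)‖ ≤ ε := by
  refine fil_mem (fun k => {s k}) _ ?_
  have h1 : ∀ᶠ k : ℕ in atTop, 1 / ((k : ℝ) + 1) < ε := by
    have h0 : Tendsto (fun k : ℕ => 1 / ((k : ℝ) + 1)) atTop (nhds 0) :=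
      tendsto_one_div_add_atTop_nhds_zero_nat
    refine ((Metric.tendsto_nhds.1 h0) ε hε).mono fun k hk => ?_
    rw [Real.dist_eq, sub_zero] at hk
    exact (le_abs_self _).trans_lt hk
  refine h1.mono fun k hk G hG => ?_
  refine (th_sum (ι := ι) ψ φ happ (k, G) (s k) (hG (Finset.mem_singleton_self _))).trans hk.le

include hψ hφ happ in
omit hnt in
/-- the null vector estimate at one index -/
theorem nv_index (hNV : StNV) (c0 : J) (l : Idx I) (x w : I) (z : Unitization ℂ E)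
    (hw : jI ι w = jI ι x * z) (hx : ‖x‖ ≤ 1) (hxs : star x = x)
    (h1 : star x * x ∈ l.2) (h2 : star x * w ∈ l.2) (h3 : star w * x ∈ l.2) (h4 : star w * w ∈ l.2) :
    ‖th ι ψ φ l c0 (star x * x) * z - th ι ψ φ l c0 (star x * w)‖ ^ 2
      ≤ (‖z‖ + 1) ^ 2 * (1 / ((l.1 : ℝ) + 1)) := by
  have key := hNV I (Unitization ℂ E) (J) (fun c => th ι ψ φ l c) x x w z c0
    (fun c => isCP_th ψ hψ φ hφ l c)
  refine key.trans ?_
  have e1 : ‖th ι ψ φ l c0 (star x * x)‖ ≤ 1 := by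
    refine (th_norm ψ hψ φ hφ l c0 _).trans ?_
    calc ‖star x * x‖ ≤ ‖star x‖ * ‖x‖ := norm_mul_le _ _
      _ ≤ 1 * 1 := by rw [norm_star]; gcongr
      _ = 1 := one_mul 1
  set T : I → Unitization ℂ E := fun a => ∑ c, th ι ψ φ l c a with hT
  have e2 : ∑ c, (star z * th ι ψ φ l c (star x * x) * z - star z * th ι ψ φ l c (star x * w)
      - th ι ψ φ l c (star w * x) * z + th ι ψ φ l c (star w * w))
      = star z * (T (star x * x) - jI ι (star x * x)) * z - star z * (T (star x * w) - jI ι (star x * w))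
        - (T (star w * x) - jI ι (star w * x)) * z + (T (star w * w) - jI ι (star w * w)) := by
    have e3 : star z * jI ι (star x * x) * z - star z * jI ι (star x * w)
        - jI ι (star w * x) * z + jI ι (star w * w) = 0 := by
      simp only [map_mul, map_star, hw, star_mul]
      noncomm_ring
    have e4 : ∑ c, (star z * th ι ψ φ l c (star x * x) * z - star z * th ι ψ φ l c (star x * w)
      - th ι ψ φ l c (star w * x) * z + th ι ψ φ l c (star w * w))
      = star z * T (star x * x) * z - star z * T (star x * w) - T (star w * x) * z + T (star w * w) := by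
      simp only [hT, Finset.mul_sum, Finset.sum_mul, Finset.sum_add_distrib, Finset.sum_sub_distrib]
    rw [e4]
    have e5 : star z * (T (star x * x) - jI ι (star x * x)) * z - star z * (T (star x * w) - jI ι (star x * w))
        - (T (star w * x) - jI ι (star w * x)) * z + (T (star w * w) - jI ι (star w * w))
        = star z * T (star x * x) * z - star z * T (star x * w) - T (star w * x) * z + T (star w * w)
          - (star z * jI ι (star x * x) * z - star z * jI ι (star x * w)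
        - jI ι (star w * x) * z + jI ι (star w * w)) := by noncomm_ring
    rw [e5, e3, sub_zero]
  rw [e2]
  set d : ℝ := 1 / ((l.1 : ℝ) + 1) with hd
  have hd0 : 0 ≤ d := by positivity
  have n1 := th_sum (ι := ι) ψ φ happ l _ h1
  have n2 := th_sum (ι := ι) ψ φ happ l _ h2
  have n3 := th_sum (ι := ι) ψ φ happ l _ h3
  have n4 := th_sum (ι := ι) ψ φ happ l _ h4
  have m1 : ‖star z * (T (star x * x) - jI ι (star x * x)) * z‖ ≤ ‖z‖ * d * ‖z‖ := by
    refine (norm_mul_le _ _).trans (mul_le_mul_of_nonneg_right ((norm_mul_le _ _).trans ?_) (norm_nonneg _))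
    rw [norm_star]
    exact mul_le_mul_of_nonneg_left n1 (norm_nonneg _)
  have m2 : ‖star z * (T (star x * w) - jI ι (star x * w))‖ ≤ ‖z‖ * d := by
    refine (norm_mul_le _ _).trans ?_
    rw [norm_star]
    exact mul_le_mul_of_nonneg_left n2 (norm_nonneg _)
  have m3 : ‖(T (star w * x) - jI ι (star w * x)) * z‖ ≤ d * ‖z‖ :=
    (norm_mul_le _ _).trans (mul_le_mul_of_nonneg_right n3 (norm_nonneg _))
  have m5 : ‖star z * (T (star x * x) - jI ι (star x * x)) * z - star z * (T (star x * w) - jI ι (star x * w))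
        - (T (star w * x) - jI ι (star w * x)) * z + (T (star w * w) - jI ι (star w * w))‖
        ≤ (‖z‖ + 1) ^ 2 * d := by
    refine (norm_add_le _ _).trans ?_
    refine (add_le_add ((norm_sub_le _ _).trans (add_le_add ((norm_sub_le _ _).trans (add_le_add m1 m2)) m3))
      n4).trans ?_
    nlinarith [norm_nonneg z]
  calc _ ≤ 1 * ((‖z‖ + 1) ^ 2 * d) := mul_le_mul e1 m5 (norm_nonneg _) zero_le_one
    _ = _ := one_mul _

theorem cmp_one (hvs : ∀ k, star (v k) = v k) (k : ℕ) : cmp hι (v k) 1 = star (v k) * v k := by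
  apply jI_inj hι
  rw [cmp_apply, mul_one, map_mul, map_star]

variable (vT : TT E) (hvT : ∀ k, vT k = jI ι (v k))

include hvs happ hvT in
theorem H1 (hNV : StNV) (z : TT E) (hz : om qB (z * vT) = om qB (vT * z)) :
    PP (fun l => φ l c0) (fun l => hφ l c0) hQ hR ι (NN hι v hv (fun l => ψ l c0) (fun l => hψ l c0) qR z)
      = PP (fun l => φ l c0) (fun l => hφ l c0) hQ hR ι
          (NN hι v hv (fun l => ψ l c0) (fun l => hψ l c0) qR 1) * om qB z := by
  rw [NN_apply, NN_apply, PP_q, PP_q, om_apply, ← map_mul qB]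
  have hw : ∀ k, ∃ w : I, jI ι w = jI ι (v k) * z k := fun k => ideal_right hι (z k) (v k)
  choose w hw using hw
  refine hQ.eq fun ε hε => ?_
  -- the two small quantities
  have hlim := om_tendsto hQ hz
  have a1 : ∀ᶠ k : ℕ in atTop, ‖(z * vT) k - (vT * z) k‖ < ε / 2 := by
    refine ((Metric.tendsto_nhds.1 hlim) (ε / 2) (by positivity)).mono fun k hk => ?_
    rw [Real.dist_eq, sub_zero, abs_of_nonneg (norm_nonneg _)] at hk
    exact hk
  have a2 : ∀ᶠ k : ℕ in atTop, (‖z‖ + 1) ^ 2 * (1 / ((k : ℝ) + 1)) < (ε / 2) ^ 2 := by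
    have h0 : Tendsto (fun k : ℕ => (‖z‖ + 1) ^ 2 * (1 / ((k : ℝ) + 1))) atTop (nhds ((‖z‖ + 1) ^ 2 * 0)) :=
      (tendsto_one_div_add_atTop_nhds_zero_nat (𝕜 := ℝ)).const_mul _
    rw [mul_zero] at h0
    exact h0.eventually (gt_mem_nhds (by positivity))
  classical
  refine fil_mem (fun k => {star (v k) * v k, star (v k) * w k, star (w k) * v k, star (w k) * w k}) _ ?_
  filter_upwards [a1, a2] with k h1 h2 G hG
  have g1 : star (v k) * v k ∈ G := hG (by simp)
  have g2 : star (v k) * w k ∈ G := hG (by simp)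
  have g3 : star (w k) * v k ∈ G := hG (by simp)
  have g4 : star (w k) * w k ∈ G := hG (by simp)
  have key := nv_index (ι := ι) ψ hψ φ hφ happ hNV c0 (k, G) (v k) (w k) (z k) (hw k) (hv k) (hvs k) g1 g2 g3 g4
  have hzk : ‖z k‖ ≤ ‖z‖ := lpNormApply z k
  have key2 : ‖th ι ψ φ (k, G) c0 (star (v k) * v k) * z k
      - th ι ψ φ (k, G) c0 (star (v k) * w k)‖ ≤ ε / 2 := by
    refine abs_le_of_sq_le_sq' ?_ (by positivity) |>.2
    refine key.trans (le_trans ?_ h2.le)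
    have : (0 : ℝ) ≤ 1 / (((k, G) : Idx I).1 + 1 : ℝ) := by positivity
    gcongr
  show ‖th ι ψ φ (k, G) c0 (cmp hι (v k) (z k)) - th ι ψ φ (k, G) c0 (cmp hι (v k) 1) * z k‖ ≤ ε
  rw [cmp_one hι v hvs]
  have e1 : ‖th ι ψ φ (k, G) c0 (cmp hι (v k) (z k)) - th ι ψ φ (k, G) c0 (star (v k) * w k)‖ ≤ ε / 2 := by
    rw [← map_sub]
    refine (th_norm ψ hψ φ hφ _ _ _).trans ?_
    rw [← norm_jI hι, map_sub, cmp_apply, map_mul, map_star, hw]
    have e2 : star (jI ι (v k)) * z k * jI ι (v k) - star (jI ι (v k)) * (jI ι (v k) * z k)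
        = star (jI ι (v k)) * ((z * vT) k - (vT * z) k) := by
      show _ = star (jI ι (v k)) * (z k * vT k - vT k * z k)
      rw [hvT]
      noncomm_ring
    rw [e2]
    calc _ ≤ ‖star (jI ι (v k))‖ * ‖(z * vT) k - (vT * z) k‖ := norm_mul_le _ _
      _ ≤ 1 * (ε / 2) := by
        rw [norm_star, norm_jI hι]
        gcongr
        exact hv k
      _ = ε / 2 := one_mul _
  calc _ = ‖(th ι ψ φ (k, G) c0 (cmp hι (v k) (z k)) - th ι ψ φ (k, G) c0 (star (v k) * w k))
        - (th ι ψ φ (k, G) c0 (star (v k) * v k) * z k - th ι ψ φ (k, G) c0 (star (v k) * w k))‖ := by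
        congr 1; abel
    _ ≤ ε / 2 + ε / 2 := (norm_sub_le _ _).trans (add_le_add e1 key2)
    _ = ε := by ring

include hvs happ hvT in
theorem H2 (hNV : StNV) (z : TT E) (hz : om qB (z * vT) = om qB (vT * z)) :
    PP (fun l => φ l c0) (fun l => hφ l c0) hQ hR ι (NN hι v hv (fun l => ψ l c0) (fun l => hψ l c0) qR z)
      = om qB z * PP (fun l => φ l c0) (fun l => hφ l c0) hQ hR ι
          (NN hι v hv (fun l => ψ l c0) (fun l => hψ l c0) qR 1) := by
  have hvTs : star vT = vT := lpExt fun k => by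
    show star (vT k) = vT k
    rw [hvT, ← map_star, hvs]
  have h1 : om qB (star z * vT) = om qB (vT * star z) := by
    have := congrArg star hz
    rw [← map_star, ← map_star, star_mul, star_mul, hvTs] at this
    exact this.symm
  have h2 := H1 hι v hv hvs ψ hψ φ hφ happ hQ hR vT hvT hNV (star z) h1
  have s1 := (isCP_NN hι v hv (fun l => ψ l c0) (fun l => hψ l c0) (qR := qR)).star_map z
  have s1' := (isCP_NN hι v hv (fun l => ψ l c0) (fun l => hψ l c0) (qR := qR)).star_map 1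
  have s2 := (isCPC_PP (ι := ι) (fun l => φ l c0) (fun l => hφ l c0) hQ hR).1.star_map
  have h3 := congrArg star h2
  rw [s1, s2, star_star, star_mul, ← s2, ← s1', star_one, map_star, star_star] at h3
  exact h3

end

section total

variable {I E : Type} [NonUnitalCStarAlgebra I] [NonUnitalCStarAlgebra E] {ι : I →⋆ₙₐ[ℂ] E}
  (hι : IsIdeal ι) (v : ℕ → I) (hv : ∀ k, ‖v k‖ ≤ 1) (hvs : ∀ k, star (v k) = v k)
  {J : Type} [Fintype J] {FF : Idx I → J → FDA} [hnt : ∀ l c, Nontrivial (FF l c).alg]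
  (ψ : ∀ l c, I →ₗ[ℂ] (FF l c).alg) (hψ : ∀ l c, IsCPC (ψ l c))
  (φ : ∀ l c, (FF l c).alg →ₗ[ℂ] I) (hφ : ∀ l c, IsCPC (φ l c))
  (happ : ∀ l : Idx I, ∀ a ∈ l.2, ‖∑ c, φ l c (ψ l c a) - a‖ ≤ 1 / ((l.1 : ℝ) + 1))
  {Q : Type} {R : J → Type} [CStarAlgebra Q] [∀ c, CStarAlgebra (R c)] {qB : QT I E →⋆ₐ[ℂ] Q}
  (hQ : IsRP (fun _ : Idx I => Unitization ℂ E) (Fil I) Q qB)
  {qR : ∀ c, lp (fun l => (FF l c).alg) ∞ →⋆ₐ[ℂ] R c}
  (hR : ∀ c, IsRP (fun l => (FF l c).alg) (Fil I) (R c) (qR c))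
  (vT : TT E) (hvT : ∀ k, vT k = jI ι (v k))

include hvs happ hvT in
theorem H3 : ∑ c, PP (fun l => φ l c) (fun l => hφ l c) hQ (hR c) ι
          (NN hι v hv (fun l => ψ l c) (fun l => hψ l c) (qR c) 1) = om qB (vT * vT) := by
  have h1 : ∀ c, PP (fun l => φ l c) (fun l => hφ l c) hQ (hR c) ι
          (NN hι v hv (fun l => ψ l c) (fun l => hψ l c) (qR c) 1)
      = qB (P0 (fun l => φ l c) (fun l => hφ l c) ι (N0 hι v hv (fun l => ψ l c) (fun l => hψ l c) 1)) := by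
    intro c
    rw [NN_apply, PP_q]
  rw [Finset.sum_congr rfl fun c _ => h1 c, om_apply, ← map_sum qB]
  refine hQ.eq fun ε hε => ?_
  refine (th_ev (ι := ι) ψ φ happ (fun k => star (v k) * v k) hε).mono fun l hl => ?_
  have e1 : (∑ c, P0 (fun l => φ l c) (fun l => hφ l c) ι (N0 hι v hv (fun l => ψ l c) (fun l => hψ l c) 1) : QT I E) l
      = ∑ c, th ι ψ φ l c (cmp hι (v l.1) 1) := by
    rw [lp.coeFn_sum, Finset.sum_apply]
    rfl
  rw [e1]
  show ‖∑ c, th ι ψ φ l c (cmp hι (v l.1) 1) - vT l.1 * vT l.1‖ ≤ ε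
  rw [cmp_one hι v hvs, hvT]
  have : jI ι (star (v l.1) * v l.1) = jI ι (v l.1) * jI ι (v l.1) := by
    rw [map_mul, map_star, ← map_star, hvs]
  rw [this] at hl
  exact hl

end total

end Pool.Agent.Helper7_ND.AllC
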