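import Pool.Agent.Helper7_ND.Mrg6
import Pool.Agent.Helper7_ND.Mrg4

/-! # The merging of all colours, II: the data at one index -/

set_option autoImplicit false
set_option linter.unusedSectionVars false
set_option linter.unusedVariables false

open scoped Matrix.Norms.L2Operator ENNReal Matrix
open Pool.Agent.W659.EC Filter

noncomputable section

namespace Pool.Agent.Helper7_ND.AllC

theorem cp_norm {F : FDA} {A : Type} [NonUnitalCStarAlgebra A] {φ : F.alg →ₗ[ℂ] A} (h : IsCP φ)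
    (y : F.alg) : ‖φ y‖ ≤ ‖φ 1‖ * ‖y‖ := by
  let _ := CStarAlgebra.spectralOrder A
  let _ := CStarAlgebra.spectralOrderedRing A
  exact h.norm_le y

theorem norm_one_le {A : Type} [CStarAlgebra A] : ‖(1 : A)‖ ≤ 1 := by
  rcases subsingleton_or_nontrivial A with h | h
  · rw [Subsingleton.elim (1 : A) 0, norm_zero]; exact zero_le_one
  · exact CStarRing.norm_one.le

theorem norm_scal {A : Type} [CStarAlgebra A] {ε : ℝ} (hε : 0 ≤ ε) :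
    ‖(1 + ε : ℂ) • (1 : A)‖ ≤ 1 + ε := by
  rw [norm_smul]
  have : ‖(1 + ε : ℂ)‖ = 1 + ε := by
    rw [show (1 + ε : ℂ) = ((1 + ε : ℝ) : ℂ) by push_cast; rfl, Complex.norm_real, Real.norm_eq_abs,
      abs_of_nonneg (by linarith)]
  rw [this]
  have h1 := norm_one_le (A := A)
  nlinarith

/-- norm bound from `0 ≤ x ≤ 1 + ε` -/
theorem norm_le_scal {A : Type} [CStarAlgebra A] {x : A} {ε : ℝ} (hε : 0 ≤ ε) (hx : Pos x)
    (h : Pos ((1 + ε : ℂ) • (1 : A) - x)) : ‖x‖ ≤ 1 + ε :=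
  (Pos.norm_le hx h).trans (norm_scal hε)

/-- one colour of the final assembly at one index -/
theorem asm (hETA : StETA) (hSUM : StSUM) (hCOR : StCOR) {I E : Type} [NonUnitalCStarAlgebra I]
    [NonUnitalCStarAlgebra E] {ι : I →⋆ₙₐ[ℂ] E} {F G : FDA} (ψ : E →ₗ[ℂ] F.alg) (hψ : IsCPC ψ)
    (ψ0 : I →ₗ[ℂ] G.alg) (φ0 : G.alg →ₗ[ℂ] I) (hψ0 : IsCPC ψ0) (hφ0 : IsCPC φ0 ∧ IsOrderZero φ0)
    (Th : E →ₗ[ℂ] I) (hTh : IsCP Th) (ε εF : ℝ) (hε : 0 < ε) (hε1 : ε ≤ 1) (hεF : 0 < εF)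
    (hεF1 : εF ≤ ε / 2) (hThn : ∀ x, ‖Th x‖ ≤ (1 + 2 * ε) * ‖x‖)
    (ρ ρ' : F.alg →ₗ[ℂ] E) (hρ1 : ‖ρ 1‖ ≤ 1 + 2 * ε) (hρ' : IsCP ρ') (hρ0 : IsOrderZero ρ')
    (hρρ : ∀ y, ‖ρ' y - ρ y‖ ≤ εF * ‖y‖) (Qp : G.alg) (hQp : Prj Qp)
    (hk : ∀ y, ρ' y * cfcₙ (fun s : ℝ => max (s - εF) 0) (ι (φ0 Qp)) = 0) :
    ∃ (K : FDA) (ψ' : E →ₗ[ℂ] K.alg) (φ' : K.alg →ₗ[ℂ] E),
      (IsCP ψ' ∧ ∀ x, ‖ψ' x‖ ≤ (1 + 3 * ε) * ‖x‖) ∧
      (IsCP φ' ∧ IsOrderZero φ' ∧ ∀ y, ‖φ' y‖ ≤ (1 + 3 * ε) * ‖y‖) ∧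
      ∀ x, ‖φ' (ψ' x) - (ρ (ψ x) + ι (φ0 (Qp * ψ0 (Th x) * Qp)))‖ ≤ 7 * εF * ‖x‖ := by
  obtain ⟨K, δ, υ, hδ, hυδ, hυ1⟩ := hCOR G Qp hQp
  set φK : K.alg →ₗ[ℂ] I := φ0 ∘ₗ (υ : K.alg →ₗ[ℂ] G.alg) with hφK
  have hφK1 : IsCPC φK := hφ0.1.comp (isCPC_hom υ _ fun _ => rfl)
  have hφK0 : IsOrderZero φK := by
    intro a b hab
    have h1 : star (υ a) * υ a * (star (υ b) * υ b) = 0 := by
      rw [← map_star, ← map_mul, ← map_star, ← map_mul, ← map_mul, hab, map_zero]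
    have h2 := hφ0.2 (υ a) (υ b) h1
    have h3 : υ (star a * a) = star (υ a) * υ a := by rw [map_mul, map_star]
    have h4 : υ (star b * b) = star (υ b) * υ b := by rw [map_mul, map_star]
    show φ0 (υ (star a * a)) * φ0 (υ (star b * b)) = 0
    rw [h3, h4]
    exact h2
  obtain ⟨η, hη1, hη0, hη2, hη3⟩ := hETA I K φK εF hεF hφK1 hφK0
  have hφK1' : φK 1 = φ0 Qp := by show φ0 (υ 1) = _; rw [hυ1]
  -- orthogonality
  have hcfc : ι (cfcₙ (fun s : ℝ => max (s - εF) 0) (φK 1))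
      = cfcₙ (fun s : ℝ => max (s - εF) 0) (ι (φ0 Qp)) := by
    rw [hφK1']
    have hsa : IsSelfAdjoint (φ0 Qp) := by
      have hPQ : Pos Qp := ⟨Qp, by rw [hQp.1, hQp.2]⟩
      exact (IsCP.pos hφ0.1.1 hPQ).sa
    have hc : Continuous ι := ((ι : I →ₗ[ℂ] E).mkContinuous 1 (fun x => by
      rw [one_mul]; exact NonUnitalStarAlgHom.norm_apply_le ι x)).continuous
    exact NonUnitalStarAlgHom.map_cfcₙ (S := ℂ) ι (fun s : ℝ => max (s - εF) 0) (φ0 Qp)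
      (hf₀ := by simp [hεF.le]) (hφ := hc) (hφa := hsa.map ι)
  set ηE : K.alg →ₗ[ℂ] E := (ι : I →ₗ[ℂ] E) ∘ₗ η with hηE
  have horth : ∀ x y, ρ' x * ηE y = 0 := by
    intro x y
    obtain ⟨c, hc⟩ := hη3 y
    show ρ' x * ι (η y) = 0
    rw [hc, map_mul, hcfc, ← mul_assoc, hk, zero_mul]
  have hηEcp : IsCPC ηE := (isCPC_hom ι _ fun _ => rfl).comp hη1
  have hηE0 : IsOrderZero ηE := by
    intro a b hab
    show ι (η (star a * a)) * ι (η (star b * b)) = 0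
    rw [← map_mul, hη0 a b hab, map_zero]
  set β : E →ₗ[ℂ] K.alg := δ ∘ₗ ψ0 ∘ₗ Th with hβ
  have hβcp : IsCP β := hδ.1.comp (hψ0.1.comp hTh)
  have hβn : ∀ x, ‖β x‖ ≤ (1 + 3 * ε) * ‖x‖ := by
    intro x
    refine ((hδ.2 _).trans ((hψ0.2 _).trans (hThn x))).trans ?_
    gcongr
    linarith
  have hψn : ∀ x, ‖ψ x‖ ≤ (1 + 3 * ε) * ‖x‖ := by
    intro x
    refine (hψ.2 x).trans ?_
    nlinarith [norm_nonneg x]
  have h1n : ‖(1 : F.alg)‖ ≤ 1 := norm_one_le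
  have h1K : ‖(1 : K.alg)‖ ≤ 1 := norm_one_le
  have hρ'1 : ‖ρ' 1‖ ≤ 1 + 3 * ε := by
    have e : ρ' 1 = (ρ' 1 - ρ 1) + ρ 1 := by abel
    rw [e]
    refine (norm_add_le _ _).trans ?_
    have := hρρ 1
    have h2 : εF * ‖(1 : F.alg)‖ ≤ εF * 1 := by gcongr
    linarith
  have hηE1 : ‖ηE 1‖ ≤ 1 + 3 * ε := by
    refine (hηEcp.2 1).trans ?_
    linarith
  obtain ⟨K', ψK, φK', hK1, hK2, hK3, hK4, hK5, hK6⟩ := hSUM E F K ρ' ηE ψ β (1 + 3 * ε) (1 + 3 * ε)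
    (by positivity) (by positivity) hρ' hρ0 hηEcp.1 hηE0 horth hψ.1 hβcp hψn hβn hρ'1 hηE1
  refine ⟨K', ψK, φK', ⟨hK1, hK2⟩, ⟨hK3, hK4, hK5⟩, fun x => ?_⟩
  rw [hK6]
  have e1 : ρ' (ψ x) + ηE (β x) - (ρ (ψ x) + ι (φ0 (Qp * ψ0 (Th x) * Qp)))
      = (ρ' (ψ x) - ρ (ψ x)) + (ηE (β x) - ι (φ0 (Qp * ψ0 (Th x) * Qp))) := by abel
  rw [e1]
  have n2 : ‖ρ' (ψ x) - ρ (ψ x)‖ ≤ εF * ‖x‖ := by
    refine (hρρ _).trans ?_
    gcongr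
    exact hψ.2 x
  have n3 : ‖ηE (β x) - ι (φ0 (Qp * ψ0 (Th x) * Qp))‖ ≤ 2 * εF * (3 * ‖x‖) := by
    have e2 : ηE (β x) - ι (φ0 (Qp * ψ0 (Th x) * Qp)) = ι (η (β x) - φK (β x)) := by
      have e3 : φK (β x) = φ0 (Qp * ψ0 (Th x) * Qp) := by
        show φ0 (υ (δ (ψ0 (Th x)))) = _
        rw [hυδ]
      rw [map_sub, e3]
      rfl
    rw [e2]
    refine ((NonUnitalStarAlgHom.norm_apply_le ι _).trans (hη2 _)).trans ?_
    gcongr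
    refine ((hδ.2 _).trans ((hψ0.2 _).trans (hThn x))).trans ?_
    have := norm_nonneg x
    nlinarith
  refine (norm_add_le _ _).trans ((add_le_add n2 n3).trans (le_of_eq ?_))
  ring

section seqs

variable {I E : Type} [NonUnitalCStarAlgebra I] [NonUnitalCStarAlgebra E]

/-- a bounded sequence of completely positive maps as a map into the bounded sequences -/
def PhS {F : FDA} (Φ : ℕ → F.alg →ₗ[ℂ] E) (hΦ : ∀ k y, ‖Φ k y‖ ≤ 2 * ‖y‖) : F.alg →ₗ[ℂ] TT E where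
  toFun y := mkL (X := fun _ : ℕ => Unitization ℂ E) (fun k => jE E (Φ k y))
    ⟨2 * ‖y‖, fun k => by rw [jE_apply, jE_norm]; exact hΦ k y⟩
  map_add' x y := lpExt fun k => by
    show jE E (Φ k (x + y)) = jE E (Φ k x) + jE E (Φ k y)
    rw [map_add, map_add]
  map_smul' c x := lpExt fun k => by
    show jE E (Φ k (c • x)) = c • jE E (Φ k x)
    rw [map_smul, map_smul]

theorem PhS_apply {F : FDA} (Φ : ℕ → F.alg →ₗ[ℂ] E) (hΦ : ∀ k y, ‖Φ k y‖ ≤ 2 * ‖y‖) (y : F.alg)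
    (k : ℕ) : PhS Φ hΦ y k = jE E (Φ k y) := rfl

theorem isCP_PhS {F : FDA} (Φ : ℕ → F.alg →ₗ[ℂ] E) (hΦ : ∀ k y, ‖Φ k y‖ ≤ 2 * ‖y‖)
    (h : ∀ k, IsCP (Φ k)) : IsCP (PhS Φ hΦ) := by
  refine lp_cp _ fun k => ?_
  have : (((evL k : TT E →⋆ₐ[ℂ] Unitization ℂ E) : TT E →ₗ[ℂ] Unitization ℂ E) ∘ₗ PhS Φ hΦ)
      = (jE E : E →ₗ[ℂ] Unitization ℂ E) ∘ₗ Φ k := by
    apply LinearMap.ext
    intro y
    rfl
  rw [this]
  exact (isCP_hom (jE E) _ fun _ => rfl).comp (h k)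

/-- a bounded sequence in `E` -/
def sqE (s : ℕ → E) (h : ∃ C : ℝ, ∀ k, ‖s k‖ ≤ C) : TT E :=
  mkL (X := fun _ : ℕ => Unitization ℂ E) (fun k => jE E (s k)) (by
    obtain ⟨C, hC⟩ := h
    exact ⟨C, fun k => by rw [jE_apply, jE_norm]; exact hC k⟩)

theorem sqE_apply (s : ℕ → E) (h : ∃ C : ℝ, ∀ k, ‖s k‖ ≤ C) (k : ℕ) : sqE s h k = jE E (s k) := rfl

variable {Q : Type} [CStarAlgebra Q] {qB : QT I E →⋆ₐ[ℂ] Q}
  (hQ : IsRP (fun _ : Idx I => Unitization ℂ E) (Fil I) Q qB)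

include hQ in
theorem om_eq' {x y : TT E} (c : ℝ) (h : ∀ k : ℕ, ‖x k - y k‖ ≤ c * (1 / ((k : ℝ) + 1))) :
    om qB x = om qB y := by
  refine om_eq hQ ?_
  have h0 : Tendsto (fun k : ℕ => c * (1 / ((k : ℝ) + 1))) atTop (nhds (c * 0)) :=
    (tendsto_one_div_add_atTop_nhds_zero_nat (𝕜 := ℝ)).const_mul _
  rw [mul_zero] at h0
  exact squeeze_zero (fun k => norm_nonneg _) h h0

variable {ι : I →⋆ₙₐ[ℂ] E} (hι : IsIdeal ι)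

/-- the maps `M` at one index -/
def MxE {J : Type} [Fintype J] [DecidableEq J] {F : J → FDA} (ψ : ∀ j, E →ₗ[ℂ] (F j).alg)
    (Φ : ∀ j, (F j).alg →ₗ[ℂ] E) (t : Unitization ℂ E) (a : J → Unitization ℂ E) (i : J) :
    E →ₗ[ℂ] E :=
  cmpE t + Φ i ∘ₗ ψ i + ∑ j ∈ Finset.univ.erase i, cmpE (a j) ∘ₗ Φ j ∘ₗ ψ j

theorem isCP_MxE {J : Type} [Fintype J] [DecidableEq J] {F : J → FDA} (ψ : ∀ j, E →ₗ[ℂ] (F j).alg)
    (Φ : ∀ j, (F j).alg →ₗ[ℂ] E) (t : Unitization ℂ E) (a : J → Unitization ℂ E) (i : J)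
    (hψ : ∀ j, IsCPC (ψ j)) (hΦ : ∀ j, IsCP (Φ j)) : IsCP (MxE ψ Φ t a i) :=
  ((isCP_cmpE t).add ((hΦ i).comp (hψ i).1)).add (IsCP.sum _ fun j _ =>
    (isCP_cmpE (a j)).comp ((hΦ j).comp (hψ j).1))

theorem jE_sum {J : Type} (s : Finset J) (f : J → E) : jE E (∑ j ∈ s, f j) = ∑ j ∈ s, jE E (f j) :=
  map_sum _ _ _

theorem MxE_apply {J : Type} [Fintype J] [DecidableEq J] {F : J → FDA} (ψ : ∀ j, E →ₗ[ℂ] (F j).alg)
    (Φ : ∀ j, (F j).alg →ₗ[ℂ] E) (t : Unitization ℂ E) (a : J → Unitization ℂ E) (i : J) (x : E) :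
    jE E (MxE ψ Φ t a i x) = star t * jE E x * t + jE E (Φ i (ψ i x))
      + ∑ j ∈ Finset.univ.erase i, star (a j) * jE E (Φ j (ψ j x)) * a j := by
  have h1 : MxE ψ Φ t a i x = cmpE t x + Φ i (ψ i x)
      + ∑ j ∈ Finset.univ.erase i, cmpE (a j) (Φ j (ψ j x)) := by
    simp only [MxE, LinearMap.add_apply, LinearMap.comp_apply, LinearMap.sum_apply]
  rw [h1, map_add, map_add, jE_sum]
  simp only [jE_apply, cmpE_apply]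

theorem MxE_norm (hCPN : StCPN) {J : Type} [Fintype J] [DecidableEq J] {F : J → FDA}
    (ψ : ∀ j, E →ₗ[ℂ] (F j).alg)
    (Φ : ∀ j, (F j).alg →ₗ[ℂ] E) (t : Unitization ℂ E) (a : J → Unitization ℂ E) (i : J)
    (hψ : ∀ j, IsCPC (ψ j)) (hΦ : ∀ j, IsCP (Φ j)) (c : ℝ)
    (hc : ‖star t * 1 * t + jE E (Φ i 1) + ∑ j ∈ Finset.univ.erase i, star (a j) * jE E (Φ j 1) * a j‖ ≤ c)
    (x : E) : ‖MxE ψ Φ t a i x‖ ≤ c * ‖x‖ := by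
  refine hCPN E E (MxE ψ Φ t a i) c (isCP_MxE ψ Φ t a i hψ hΦ) ?_ x
  intro x hx hx1
  rw [← jE_norm]
  change ‖jE E _‖ ≤ c
  refine le_trans (Pos.norm_le ((IsCP.pos (isCP_MxE ψ Φ t a i hψ hΦ) hx).map (jE E)) ?_) hc
  have h1 : ∀ j, Pos (jE E (Φ j 1) - jE E (Φ j (ψ j x))) := by
    intro j
    have hψx : Pos (1 - ψ j x) := pos_one_sub (IsCP.pos (hψ j).1 hx) (((hψ j).2 x).trans hx1)
    have h1 := IsCP.pos (hΦ j) hψx
    rw [map_sub] at h1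
    have h2 := h1.map (jE E)
    rwa [map_sub] at h2
  have q2 : Pos ((1 : Unitization ℂ E) - jE E x) := by
    refine pos_one_sub (hx.map (jE E)) ?_
    rw [jE_apply, jE_norm]
    exact hx1
  have e : star t * 1 * t + jE E (Φ i 1) + ∑ j ∈ Finset.univ.erase i, star (a j) * jE E (Φ j 1) * a j
      - jE E (MxE ψ Φ t a i x)
      = star t * (1 - jE E x) * t + (jE E (Φ i 1) - jE E (Φ i (ψ i x)))
        + ∑ j ∈ Finset.univ.erase i, star (a j) * (jE E (Φ j 1) - jE E (Φ j (ψ j x))) * a j := by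
    rw [MxE_apply]
    simp only [mul_sub, sub_mul, Finset.sum_sub_distrib]
    abel
  rw [e]
  exact ((Pos.conj q2 t).add (h1 i)).add (Pos.sum _ fun j _ => Pos.conj (h1 j) (a j))

end seqs

end Pool.Agent.Helper7_ND.AllC
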