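import Pool.Agent.W659.EC.Defs
import Pool.Agent.W659.EC.CP2

/-! # Nuclear dimension of extensions: definitions and statements of the parts

Every part is a proposition `StX`; the file proving it is `Pool/Agent/Helper7_ND/X.lean` with
`theorem t_X : StX`. -/

set_option autoImplicit false

open scoped Matrix.Norms.L2Operator ENNReal Matrix
open Pool.Agent.W659.EC

noncomputable section

namespace Pool.Agent.Helper7_ND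

/-- positive elements -/
def Pos {A : Type} [NonUnitalCStarAlgebra A] (a : A) : Prop := ∃ b : A, a = star b * b

/-- projections -/
def Prj {A : Type} [NonUnitalCStarAlgebra A] (p : A) : Prop := star p = p ∧ p * p = p

/-! ## Coloured approximations -/

/-- coloured completely positive approximation of the elements of `G` with set of colours `J` -/
def Sys (A : Type) [NonUnitalCStarAlgebra A] (J : Type) [Fintype J] (G : Set A) (ε : ℝ) : Prop :=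
  ∃ (F : J → FDA) (ψ : ∀ j, A →ₗ[ℂ] (F j).alg) (φ : ∀ j, (F j).alg →ₗ[ℂ] A),
    (∀ j, IsCPC (ψ j)) ∧ (∀ j, IsCPC (φ j) ∧ IsOrderZero (φ j)) ∧
      ∀ a ∈ G, ‖∑ j, φ j (ψ j a) - a‖ ≤ ε

/-- approximations of all finite sets, arbitrarily well -/
def SysAll (A : Type) [NonUnitalCStarAlgebra A] (J : Type) [Fintype J] : Prop :=
  ∀ (G : Finset A) (ε : ℝ), 0 < ε → Sys A J (G : Set A) ε

/-- systems and the nuclear dimension -/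
def StND : Prop :=
  (∀ (A : Type) [NonUnitalCStarAlgebra A] (d : ℕ), nucDim A ≤ d → SysAll A (Option (Fin d))) ∧
  (∀ (A : Type) [NonUnitalCStarAlgebra A] (J : Type) [Fintype J],
    SysAll A (Option J) → nucDim A ≤ (Fintype.card J : ℕ∞))

/-! ## Order zero maps on finite-dimensional algebras -/

/-- the order zero identity -/
def OZ {F : FDA} {A : Type} [NonUnitalCStarAlgebra A] (φ : F.alg →ₗ[ℂ] A) : Prop :=
  ∀ x y, φ x * φ y = φ 1 * φ (x * y)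

/-- L1: completely positive order zero maps satisfy the order zero identity -/
def StL1 : Prop :=
  ∀ (F : FDA) (A : Type) [NonUnitalCStarAlgebra A] (φ : F.alg →ₗ[ℂ] A),
    IsCP φ → IsOrderZero φ → OZ φ

/-- the matrix units -/
def mu (F : FDA) (l : F.ι) (i j : F.n l) : F.alg :=
  open Classical in Pi.single l (Matrix.single i j (1 : ℂ))

/-- the map `y ↦ ∑ y_{ij} x_i x_j^*` of a row `x` -/
def rowMap (F : FDA) {A : Type} [NonUnitalCStarAlgebra A] (x : ∀ l : F.ι, F.n l → A) :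
    F.alg →ₗ[ℂ] A where
  toFun y := ∑ l, ∑ i, ∑ j, y l i j • (x l i * star (x l j))
  map_add' y z := by
    simp only [Pi.add_apply, Matrix.add_apply, add_smul, Finset.sum_add_distrib]
  map_smul' c y := by
    simp only [Pi.smul_apply, Matrix.smul_apply, smul_eq_mul, mul_smul, Finset.smul_sum,
      RingHom.id_apply]

/-- the rows `x` with `x_{l,i}^* x_{l',i'} = δ δ k_l` up to `δ` in norm -/
def IsRow (F : FDA) {A : Type} [NonUnitalCStarAlgebra A] (x : ∀ l : F.ι, F.n l → A)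
    (k : F.ι → A) (δ : ℝ) : Prop :=
  (∀ l i, ‖star (x l i) * x l i - k l‖ ≤ δ) ∧ (∀ l i j, i ≠ j → ‖star (x l i) * x l j‖ ≤ δ) ∧
    ∀ l l' i j, l ≠ l' → ‖star (x l i) * x l' j‖ ≤ δ

/-- ROW: row maps are completely positive, and order zero for exact rows; conversely order zero
maps are approximated by row maps of exact rows -/
def StROW : Prop :=
  (∀ (F : FDA) (A : Type) [NonUnitalCStarAlgebra A] (x : ∀ l : F.ι, F.n l → A),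
    IsCP (rowMap F x)) ∧
  (∀ (F : FDA) (A : Type) [NonUnitalCStarAlgebra A] (x : ∀ l : F.ι, F.n l → A) (k : F.ι → A),
    IsRow F x k 0 → IsOrderZero (rowMap F x)) ∧
  (∀ (F : FDA) (A : Type) [NonUnitalCStarAlgebra A] (φ : F.alg →ₗ[ℂ] A) (ε : ℝ), 0 < ε →
    IsCPC φ → IsOrderZero φ → ∃ (x : ∀ l : F.ι, F.n l → A) (k : F.ι → A),
      IsRow F x k 0 ∧ (∀ l, Pos (k l)) ∧ ∀ y, ‖rowMap F x y - φ y‖ ≤ ε * ‖y‖)

/-- T1: the perturbation lemma -/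
def StT1 : Prop :=
  ∀ (B : Type) [NonUnitalCStarAlgebra B] (K X : B) (δ : ℝ), 0 < δ → Pos K →
    ‖star X * X - K‖ ≤ δ →
    ∃ Z : B, star Z * Z = cfcₙ (fun s : ℝ => max (s - 2 * δ) 0) K ∧
      ‖Z - X‖ ≤ 4 * Real.sqrt δ ∧ Z ∈ closure (Set.range fun b : B => X * b)

/-- T1R: almost rows are close to rows -/
def StT1R : Prop :=
  ∀ (F : FDA) (ε : ℝ), 0 < ε → ∃ δ : ℝ, 0 < δ ∧
    ∀ (A : Type) [NonUnitalCStarAlgebra A] (x : ∀ l : F.ι, F.n l → A) (k : F.ι → A),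
      (∀ l, Pos (k l)) → IsRow F x k δ →
      ∃ (z : ∀ l : F.ι, F.n l → A) (k' : F.ι → A), IsRow F z k' 0 ∧ (∀ l, Pos (k' l)) ∧
        (∀ l i, ‖z l i - x l i‖ ≤ ε) ∧
        ∀ c : A, (∀ l i, c * x l i = 0) → ∀ l i, c * z l i = 0

/-- NRM: the distinguished colour can be made norm preserving -/
def StNRM : Prop :=
  ∀ (A : Type) [NonUnitalCStarAlgebra A] [Nontrivial A] (J : Type) [Fintype J],
    SysAll A (Option J) → ∀ (G : Finset A) (ε : ℝ), 0 < ε →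
    ∃ (F : Option J → FDA) (ψ : ∀ j, A →ₗ[ℂ] (F j).alg) (φ : ∀ j, (F j).alg →ₗ[ℂ] A),
      (∀ j, IsCPC (ψ j)) ∧ (∀ j, IsCPC (φ j) ∧ IsOrderZero (φ j)) ∧
      (∀ a ∈ G, ‖∑ j, φ j (ψ j a) - a‖ ≤ ε) ∧
      Nontrivial (F none).alg ∧ ∀ a : (F none).alg, ‖a‖ ≤ ‖φ none a * φ none 1‖

/-- SUM: direct sums of systems with orthogonal up maps -/
def StSUM : Prop :=
  ∀ (E : Type) [NonUnitalCStarAlgebra E] (F G : FDA) (ρ : F.alg →ₗ[ℂ] E) (η : G.alg →ₗ[ℂ] E)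
    (α : E →ₗ[ℂ] F.alg) (β : E →ₗ[ℂ] G.alg) (c d : ℝ), 0 ≤ c → 0 ≤ d →
    IsCP ρ → IsOrderZero ρ → IsCP η → IsOrderZero η → (∀ x y, ρ x * η y = 0) →
    IsCP α → IsCP β → (∀ x, ‖α x‖ ≤ c * ‖x‖) → (∀ x, ‖β x‖ ≤ c * ‖x‖) →
    ‖ρ 1‖ ≤ d → ‖η 1‖ ≤ d →
    ∃ (K : FDA) (ψ : E →ₗ[ℂ] K.alg) (φ : K.alg →ₗ[ℂ] E), IsCP ψ ∧ (∀ x, ‖ψ x‖ ≤ c * ‖x‖) ∧
      IsCP φ ∧ IsOrderZero φ ∧ (∀ y, ‖φ y‖ ≤ d * ‖y‖) ∧ ∀ x, φ (ψ x) = ρ (α x) + η (β x)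

/-- COR: corners of finite-dimensional algebras -/
def StCOR : Prop :=
  ∀ (G : FDA) (Q : G.alg), Prj Q → ∃ (K : FDA) (δ : G.alg →ₗ[ℂ] K.alg)
    (υ : K.alg →⋆ₙₐ[ℂ] G.alg), IsCPC δ ∧ (∀ a, υ (δ a) = Q * a * Q) ∧ υ 1 = Q

/-- NV: null vectors -/
def StNV : Prop :=
  ∀ (I A : Type) [NonUnitalCStarAlgebra I] [NonUnitalCStarAlgebra A] (J : Type) [Fintype J]
    (θ : J → I →ₗ[ℂ] A) (x y w : I) (z : A) (j : J), (∀ j, IsCP (θ j)) →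
    ‖θ j (star x * y) * z - θ j (star x * w)‖ ^ 2 ≤ ‖θ j (star x * x)‖ *
      ‖∑ j, (star z * θ j (star y * y) * z - star z * θ j (star y * w) - θ j (star w * y) * z
        + θ j (star w * w))‖

/-! ## Functional calculus and quasi-central elements -/

/-- COM: continuous functions of `t` almost commute with what `t` almost commutes with -/
def StCOM : Prop :=
  ∀ (f : ℝ → ℝ) (M ε : ℝ), Continuous f → 0 < ε → ∃ δ : ℝ, 0 < δ ∧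
    ∀ (B : Type) [CStarAlgebra B] (t x : B), Pos t → ‖t‖ ≤ 1 → ‖x‖ ≤ M →
      ‖t * x - x * t‖ ≤ δ → ‖cfc f t * x - x * cfc f t‖ ≤ ε

/-- `ι` is an isomorphism of `I` onto a (closed, two-sided) ideal of `E` -/
structure IsIdeal {I E : Type} [NonUnitalCStarAlgebra I] [NonUnitalCStarAlgebra E]
    (ι : I →⋆ₙₐ[ℂ] E) : Prop where
  inj : Function.Injective ι
  left : ∀ (e : E) (i : I), ∃ i' : I, ι i' = e * ι i
  right : ∀ (e : E) (i : I), ∃ i' : I, ι i' = ι i * e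

/-- QC: quasi-central elements of an ideal -/
def StQC : Prop :=
  ∀ (I E : Type) [NonUnitalCStarAlgebra I] [NonUnitalCStarAlgebra E] (ι : I →⋆ₙₐ[ℂ] E),
    IsIdeal ι → ∀ (C : Finset I) (S : Finset E) (δ : ℝ), 0 < δ →
    ∃ t : I, Pos t ∧ ‖t‖ ≤ 1 ∧ (∀ c ∈ C, ‖t * c - c‖ ≤ δ) ∧
      ∀ x ∈ S, ‖ι t * x - x * ι t‖ ≤ δ

/-- LN: norm preserving lifts -/
def StLN : Prop :=
  ∀ (E D : Type) [NonUnitalCStarAlgebra E] [NonUnitalCStarAlgebra D] (π : E →⋆ₙₐ[ℂ] D) (e : E),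
    ∃ e' : E, π e' = π e ∧ ‖e'‖ ≤ ‖π e‖

/-- an extension `0 → I → E → D → 0` -/
structure IsExt {I E D : Type} [NonUnitalCStarAlgebra I] [NonUnitalCStarAlgebra E]
    [NonUnitalCStarAlgebra D] (ι : I →⋆ₙₐ[ℂ] E) (π : E →⋆ₙₐ[ℂ] D) : Prop where
  inj : Function.Injective ι
  surj : Function.Surjective π
  exact : ∀ e : E, π e = 0 ↔ ∃ i : I, ι i = e

/-- the element `(1 - t²)^{1/2}` of the unitization of `E`, for `t` in the ideal -/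
def cut {I E : Type} [NonUnitalCStarAlgebra I] [NonUnitalCStarAlgebra E] (ι : I →⋆ₙₐ[ℂ] E)
    (t : I) : Unitization ℂ E :=
  cfc (fun s : ℝ => Real.sqrt (1 - s ^ 2)) ((ι t : E) : Unitization ℂ E)

/-- LFT: lifting of order zero maps -/
def StLFT : Prop :=
  ∀ (I E D : Type) [NonUnitalCStarAlgebra I] [NonUnitalCStarAlgebra E]
    [NonUnitalCStarAlgebra D] (ι : I →⋆ₙₐ[ℂ] E) (π : E →⋆ₙₐ[ℂ] D), IsExt ι π →
    ∀ (F : FDA) (φ : F.alg →ₗ[ℂ] D) (ε : ℝ), 0 < ε → IsCPC φ → IsOrderZero φ →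
    ∃ (Φ' : F.alg →ₗ[ℂ] E) (C : Finset I) (S : Finset E) (δ : ℝ), 0 < δ ∧
      (∀ y, ‖π (Φ' y) - φ y‖ ≤ ε * ‖y‖) ∧
      ∀ t : I, Pos t → ‖t‖ ≤ 1 → (∀ c ∈ C, ‖t * c - c‖ ≤ δ) →
        (∀ x ∈ S, ‖ι t * x - x * ι t‖ ≤ δ) →
        ∃ Φ : F.alg →ₗ[ℂ] E, IsCP Φ ∧ IsOrderZero Φ ∧
          (∀ y, ‖((Φ y : E) : Unitization ℂ E) - cut ι t * (Φ' y : E) * cut ι t‖ ≤ ε * ‖y‖) ∧
          Pos ((1 + ε : ℂ) • (1 : Unitization ℂ E)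
            - ((ι (t * t) : E) : Unitization ℂ E) - ((Φ 1 : E) : Unitization ℂ E))

/-- A1: approximations of `E` modulo `I` -/
def StA1 : Prop :=
  ∀ (I E D : Type) [NonUnitalCStarAlgebra I] [NonUnitalCStarAlgebra E]
    [NonUnitalCStarAlgebra D] (ι : I →⋆ₙₐ[ℂ] E) (π : E →⋆ₙₐ[ℂ] D), IsExt ι π →
    ∀ (J : Type) [Fintype J], SysAll D J → ∀ (G : Finset E) (ε : ℝ), 0 < ε →
    ∃ (F : J → FDA) (ψ : ∀ j, E →ₗ[ℂ] (F j).alg) (Φ : ∀ j, (F j).alg →ₗ[ℂ] E) (t : I),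
      (∀ j, IsCPC (ψ j)) ∧ (∀ j, IsCP (Φ j) ∧ IsOrderZero (Φ j)) ∧ Pos t ∧ ‖t‖ ≤ 1 ∧
      (∀ j, Pos ((1 + ε : ℂ) • (1 : Unitization ℂ E)
            - ((ι (t * t) : E) : Unitization ℂ E) - ((Φ j 1 : E) : Unitization ℂ E))) ∧
      ∀ x ∈ G, ‖x - ∑ j, Φ j (ψ j x) - ι t * x * ι t‖ ≤ ε

/-! ## Reduced products -/

section rp

variable {Λ : Type} (X : Λ → Type) [∀ l, CStarAlgebra (X l)] [∀ l, Nontrivial (X l)]

instance instLp : CStarAlgebra (lp X ∞) where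

/-- `q` presents `Q` as the reduced product of the algebras `X l` along the filter `ℱ` -/
structure IsRP (ℱ : Filter Λ) (Q : Type) [CStarAlgebra Q] (q : lp X ∞ →⋆ₐ[ℂ] Q) : Prop where
  surj : Function.Surjective q
  le : ∀ (x : lp X ∞) (c : ℝ), 0 ≤ c → (∀ᶠ l in ℱ, ‖x l‖ ≤ c) → ‖q x‖ ≤ c
  lt : ∀ (x : lp X ∞) (c : ℝ), ‖q x‖ < c → ∀ᶠ l in ℱ, ‖x l‖ < c

end rp

/-- RP: reduced products exist -/
def StRP : Prop :=
  ∀ (Λ : Type) (X : Λ → Type) [∀ l, CStarAlgebra (X l)] [∀ l, Nontrivial (X l)]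
    (ℱ : Filter Λ), ∃ (Q : Type) (_ : CStarAlgebra Q) (q : lp X ∞ →⋆ₐ[ℂ] Q), IsRP X ℱ Q q

/-- polar decompositions with a unitary factor -/
def Polar (Q : Type) [CStarAlgebra Q] : Prop :=
  ∀ y : Q, ∃ u b : Q, star u * u = 1 ∧ u * star u = 1 ∧ Pos b ∧ y = u * b

/-- spectral projections of unitary elements -/
def SpecU (Q : Type) [CStarAlgebra Q] : Prop :=
  ∀ u : Q, star u * u = 1 → u * star u = 1 → ∀ J : Set ℂ, ∃ p : Q, Prj p ∧ p * u = u * p ∧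
    (∀ f : ℂ → ℂ, Continuous f → (∀ z ∈ J, f z = 0) → p * cfc f u = 0) ∧
    (∀ f : ℂ → ℂ, Continuous f → (∀ z, z ∉ J → f z = 0) → cfc f u * p = cfc f u)

/-- spectral projections of self-adjoint elements -/
def SpecS (Q : Type) [CStarAlgebra Q] : Prop :=
  ∀ u : Q, star u = u → ∀ J : Set ℝ, ∃ p : Q, Prj p ∧ p * u = u * p ∧
    (∀ f : ℝ → ℝ, Continuous f → (∀ z ∈ J, f z = 0) → p * cfc f u = 0) ∧
    (∀ f : ℝ → ℝ, Continuous f → (∀ z, z ∉ J → f z = 0) → cfc f u * p = cfc f u)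

/-- FD: finite-dimensional algebras -/
def StFD : Prop :=
  ∀ F : FDA, Polar F.alg ∧ ∀ a : F.alg, (spectrum ℂ a).Finite

/-- RF: reduced products of finite-dimensional algebras -/
def StRF : Prop :=
  ∀ (Λ : Type) (X : Λ → Type) [∀ l, CStarAlgebra (X l)] [∀ l, Nontrivial (X l)]
    (ℱ : Filter Λ) (Q : Type) [CStarAlgebra Q] (q : lp X ∞ →⋆ₐ[ℂ] Q), IsRP X ℱ Q q →
    (∀ l, Polar (X l)) → (∀ l, ∀ a : X l, (spectrum ℂ a).Finite) →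
    Polar Q ∧ SpecU Q ∧ SpecS Q ∧ ∀ p : Q, Prj p → ∃ P : lp X ∞, Prj P ∧ q P = p

/-- cuts of commuting pairs up to a small perturbation of the pair -/
def CutA (Q : Type) [CStarAlgebra Q] : Prop :=
  ∀ (a s : Q) (α β ε : ℝ), star a = a → star s = s → a * s = s * a → α < β → 0 < ε →
    ∃ a' s' p : Q, star a' = a' ∧ star s' = s' ∧ a' * s' = s' * a' ∧ ‖a' - a‖ ≤ ε ∧
      ‖s' - s‖ ≤ ε ∧ Prj p ∧ p * a' = a' * p ∧ p * s' = s' * p ∧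
      p * cfc (fun r : ℝ => max (r - β) 0) s' = 0 ∧
      (1 - p) * cfc (fun r : ℝ => max (α - r) 0) s' = 0

/-- cuts of commuting pairs -/
def CutE (Q : Type) [CStarAlgebra Q] : Prop :=
  ∀ (a s : Q) (α β : ℝ), star a = a → star s = s → a * s = s * a → α < β →
    ∃ p : Q, Prj p ∧ p * a = a * p ∧ p * s = s * p ∧
      p * cfc (fun r : ℝ => max (r - β) 0) s = 0 ∧
      (1 - p) * cfc (fun r : ℝ => max (α - r) 0) s = 0

/-- S0: cuts of commuting pairs, after Lin and Friis–Rørdam -/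
def StS0 : Prop :=
  ∀ (Q : Type) [CStarAlgebra Q], Polar Q → SpecU Q → CutA Q

/-- S1: exact cuts in reduced products -/
def StS1 : Prop :=
  ∀ (Λ : Type) (X : Λ → Type) [∀ l, CStarAlgebra (X l)] [∀ l, Nontrivial (X l)]
    (ℱ : Filter Λ) (Q : Type) [CStarAlgebra Q] (q : lp X ∞ →⋆ₐ[ℂ] Q), IsRP X ℱ Q q →
    (∃ e : Λ → ℝ, (∀ l, 0 < e l) ∧ Filter.Tendsto e ℱ (nhds 0)) →
    (∀ p : Q, Prj p → ∃ P : lp X ∞, Prj P ∧ q P = p) → CutA Q → CutE Q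

/-- CC: cuts in the commutant of an order zero map -/
def StCC : Prop :=
  ∀ (R : Type) [CStarAlgebra R], CutE R → ∀ (F : FDA) (κ : F.alg →ₗ[ℂ] R) (s : R) (γ : ℝ),
    IsCP κ → OZ κ → Pos s → (∀ y, κ y * s = s * κ y) → 0 < γ →
    ∃ p : R, Prj p ∧ (∀ y, p * κ y = κ y * p) ∧ p * s = s * p ∧
      Pos (p * (κ 1 * ((1 / 2 : ℂ) • κ 1 - s) - (γ : ℂ) • 1) * p) ∧
      Pos ((1 - p) * (((2 * γ : ℝ) : ℂ) • 1 - κ 1 * ((1 / 2 : ℂ) • κ 1 - s)) * (1 - p))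

/-- ALG: the algebraic core of the merging -/
def StALG : Prop :=
  ∀ (T Q R : Type) [CStarAlgebra T] [CStarAlgebra Q] [CStarAlgebra R] (ω : T →⋆ₐ[ℂ] Q)
    (N : T →ₗ[ℂ] R) (Φ' : R →ₗ[ℂ] Q) (F : FDA) (Φ : F.alg →ₗ[ℂ] T) (v u t : T) (r : Q)
    (ε : ℝ),
    CutE R → SpecS R → 0 < ε →
    IsCP N → (∀ z, ‖N z‖ ≤ ‖ω z‖) →
    IsCPC Φ' → (∀ a b, Φ' a * Φ' b = Φ' 1 * Φ' (a * b)) → (∀ a, Φ' 1 * Φ' a = 0 → a = 0) →
    (∀ z, ω (z * v) = ω (v * z) →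
      Φ' (N z) = Φ' (N 1) * ω z ∧ Φ' (N z) = ω z * Φ' (N 1)) →
    Pos (ω (v * v) - Φ' (N 1)) →
    IsCP Φ → OZ Φ → ‖Φ 1‖ ≤ 2 →
    Pos v → ‖v‖ ≤ 1 → Pos u → ‖u‖ ≤ 1 → Pos t → ‖t‖ ≤ 1 →
    ω (v * u) = ω u → ω (u * t) = ω t →
    (∀ y, ω (v * Φ y) = ω (Φ y * v)) → (∀ y, ω (u * Φ y) = ω (Φ y * u)) →
    Pos r → r * r = 1 - ω (v * v) → (∀ y, r * ω (Φ y) = ω (Φ y) * r) →
    ∃ p q : R, Prj p ∧ Prj q ∧
      (∀ x y, (r * ω (Φ x) * r + Φ' (p * N (Φ x) * p)) *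
          (r * ω (Φ y) * r + Φ' (p * N (Φ y) * p)) =
        (r * ω (Φ 1) * r + Φ' (p * N (Φ 1) * p)) *
          (r * ω (Φ (x * y)) * r + Φ' (p * N (Φ (x * y)) * p))) ∧
      (r * ω (Φ 1) * r + Φ' (p * N (Φ 1) * p)) * Φ' q = 0 ∧
      Pos (ω (Φ 1) - (r * ω (Φ 1) * r + Φ' (p * N (Φ 1) * p))) ∧
      ∀ (y : F.alg) (z : T),
        ‖N (Φ y) + N (t * z * t) - p * N (Φ y) * p
          - q * (N (Φ y) + N (t * z * t)) * q‖ ≤ ε * (‖y‖ + ‖z‖)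

/-- FP: the final perturbation -/
def StFP : Prop :=
  ∀ (F : FDA) (ε : ℝ), 0 < ε → ∃ δ : ℝ, 0 < δ ∧
    ∀ (E : Type) [NonUnitalCStarAlgebra E] (ρ : F.alg →ₗ[ℂ] E) (b : E),
      IsCP ρ → ‖ρ 1‖ ≤ 3 →
      (∀ l i j l' i' j', ‖ρ (mu F l i j) * ρ (mu F l' i' j')
        - ρ 1 * ρ (mu F l i j * mu F l' i' j')‖ ≤ δ) →
      Pos b → ‖b‖ ≤ 1 → ‖ρ 1 * b‖ ≤ δ →
      ∃ ρ' : F.alg →ₗ[ℂ] E, IsCP ρ' ∧ IsOrderZero ρ' ∧ (∀ y, ‖ρ' y - ρ y‖ ≤ ε * ‖y‖) ∧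
        ∀ y, ρ' y * cfcₙ (fun s : ℝ => max (s - ε) 0) b = 0

/-- MRG: the merging lemma -/
def StMRG : Prop :=
  ∀ (I E : Type) [NonUnitalCStarAlgebra I] [NonUnitalCStarAlgebra E] [Nontrivial I]
    (ι : I →⋆ₙₐ[ℂ] E), IsIdeal ι → ∀ (J : Type) [Fintype J], SysAll I (Option J) →
    ∀ (F : FDA) (ψ : E →ₗ[ℂ] F.alg) (Φ : F.alg →ₗ[ℂ] E) (t : I) (ε : ℝ), 0 < ε → ε ≤ 1 →
    IsCPC ψ → IsCP Φ → IsOrderZero Φ → Pos t → ‖t‖ ≤ 1 →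
    Pos ((1 + ε : ℂ) • (1 : Unitization ℂ E)
            - ((ι (t * t) : E) : Unitization ℂ E) - ((Φ 1 : E) : Unitization ℂ E)) →
    ∀ G : Finset E, ∃ (F' : Option J → FDA) (ψ' : ∀ c, E →ₗ[ℂ] (F' c).alg)
      (φ' : ∀ c, (F' c).alg →ₗ[ℂ] E),
      (∀ c, IsCP (ψ' c) ∧ ∀ x, ‖ψ' c x‖ ≤ (1 + 3 * ε) * ‖x‖) ∧
      (∀ c, IsCP (φ' c) ∧ IsOrderZero (φ' c) ∧ ∀ y, ‖φ' c y‖ ≤ (1 + 3 * ε) * ‖y‖) ∧
      ∀ x ∈ G, ‖Φ (ψ x) + ι t * x * ι t - ∑ c, φ' c (ψ' c x)‖ ≤ ε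

/-- MAIN: the theorem in terms of systems -/
def StMAIN : Prop :=
  ∀ (I E D : Type) [NonUnitalCStarAlgebra I] [NonUnitalCStarAlgebra E]
    [NonUnitalCStarAlgebra D] (ι : I →⋆ₙₐ[ℂ] E) (π : E →⋆ₙₐ[ℂ] D), IsExt ι π →
    ∀ (J J' : Type) [Fintype J] [Fintype J'], SysAll I (Option J) → SysAll D (Option J') →
      SysAll E (Option (J' ⊕ J))

end Pool.Agent.Helper7_ND
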