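import Pool.Agent.Helper7_ND.Stm2

/-! # Nuclear dimension of extensions: statement of the cut down of an order zero map -/

set_option autoImplicit false

open scoped Matrix.Norms.L2Operator ENNReal Matrix
open Pool.Agent.W659.EC

noncomputable section

namespace Pool.Agent.Helper7_ND

/-- ETA: an order zero map can be cut down slightly so that its range is in the hereditary
subalgebra generated by `(φ(1) - ε)₊` -/
def StETA : Prop :=
  ∀ (A : Type) [NonUnitalCStarAlgebra A] (K : FDA) (φ : K.alg →ₗ[ℂ] A) (ε : ℝ), 0 < ε →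
    IsCPC φ → IsOrderZero φ → ∃ η : K.alg →ₗ[ℂ] A, IsCPC η ∧ IsOrderZero η ∧
      (∀ y, ‖η y - φ y‖ ≤ 2 * ε * ‖y‖) ∧
      ∀ y, ∃ c : A, η y = cfcₙ (fun s : ℝ => max (s - ε) 0) (φ 1) * c

end Pool.Agent.Helper7_ND
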