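import Pool.Agent.Helper7_ND.Stm3

/-! # Nuclear dimension of extensions: statements for the second theorem

Extensions whose quotient has approximations with commuting colours. -/

set_option autoImplicit false

open scoped Matrix.Norms.L2Operator ENNReal Matrix
open Pool.Agent.W659.EC

noncomputable section

namespace Pool.Agent.Helper7_ND

/-! ## Approximations with commuting colours -/

/-- approximations with commuting colours: the up maps are the row maps `φ j` of exact rows `x j`,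
the maps `φ j ∘ ψ j` are approximately multiplication by `φ j 1`, and there are elements `b i j`
commuting with the range of `φ i` and close to `φ j 1` on the support of `φ i 1` -/
def SysC (D : Type) [NonUnitalCStarAlgebra D] (J : Type) [Fintype J] : Prop :=
  ∀ (G : Finset D) (ε : ℝ), 0 < ε →
    ∃ (F : J → FDA) (ψ : ∀ j, D →ₗ[ℂ] (F j).alg) (x : ∀ j, ∀ l : (F j).ι, (F j).n l → D)
      (k : ∀ j, (F j).ι → D) (b : J → J → D),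
      (∀ j, IsCPC (ψ j)) ∧ (∀ j, IsRow (F j) (x j) (k j) 0) ∧ (∀ j l, Pos (k j l)) ∧
      ‖∑ j, rowMap (F j) (x j) 1‖ ≤ 1 + ε ∧
      (∀ g ∈ G, ‖∑ j, rowMap (F j) (x j) (ψ j g) - g‖ ≤ ε) ∧
      (∀ g ∈ G, ∀ j, ‖rowMap (F j) (x j) (ψ j g) - rowMap (F j) (x j) 1 * g‖ ≤ ε) ∧
      (∀ i j, Pos (b i j)) ∧ (∀ i, b i i = rowMap (F i) (x i) 1) ∧
      (∀ i j y, b i j * rowMap (F i) (x i) y = rowMap (F i) (x i) y * b i j) ∧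
      (∀ i, ‖∑ j, b i j‖ ≤ 1 + ε) ∧
      ∀ g ∈ G, ∀ i j, ‖rowMap (F i) (x i) 1 * (b i j - rowMap (F j) (x j) 1) * g‖ ≤ ε

/-- lifts of the approximations of a quotient, together with a quasi-central element `t` -/
def LiftSys {I E : Type} [NonUnitalCStarAlgebra I] [NonUnitalCStarAlgebra E]
    (ι : I →⋆ₙₐ[ℂ] E) (J : Type) [Fintype J] (F : J → FDA) (ψ : ∀ j, E →ₗ[ℂ] (F j).alg)
    (G : Finset E) (ε : ℝ) : Prop :=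
  ∀ η : ℝ, 0 < η → ∃ (Φ : ∀ j, (F j).alg →ₗ[ℂ] E) (t : I) (b : J → J → E),
    (∀ j, IsCP (Φ j) ∧ IsOrderZero (Φ j)) ∧ Pos t ∧ ‖t‖ ≤ 1 ∧ (∀ i j, Pos (b i j)) ∧
    (∀ i, b i i = Φ i 1) ∧
    Pos ((1 + ε : ℂ) • (1 : Unitization ℂ E) - ((ι (t * t) : E) : Unitization ℂ E)
      - ((∑ j, Φ j 1 : E) : Unitization ℂ E)) ∧
    (∀ i, Pos ((1 + ε : ℂ) • (1 : Unitization ℂ E) - ((ι (t * t) : E) : Unitization ℂ E)
      - ((∑ j, b i j : E) : Unitization ℂ E))) ∧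
    (∀ g ∈ G, ‖∑ j, Φ j (ψ j g) + ι t * g * ι t - g‖ ≤ ε) ∧
    (∀ g ∈ G, ∀ j, ‖Φ j (ψ j g) - Φ j 1 * g‖ ≤ ε ∧ ‖Φ j (ψ j g) - g * Φ j 1‖ ≤ ε) ∧
    (∀ g ∈ G, ∀ i j, ‖Φ i 1 * (b i j - Φ j 1) * g‖ ≤ ε ∧ ‖g * (b i j - Φ j 1) * Φ i 1‖ ≤ ε) ∧
    (∀ g ∈ G, ‖ι t * g - g * ι t‖ ≤ η) ∧
    (∀ i j y, ‖b i j * Φ i y - Φ i y * b i j‖ ≤ η * ‖y‖) ∧
    (∀ i y, ‖ι t * Φ i y - Φ i y * ι t‖ ≤ η * ‖y‖) ∧
    ∀ i j, ‖ι t * b i j - b i j * ι t‖ ≤ η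

/-- AP: quasi-central elements of an ideal and the compression by `a = (1 - t²)^{1/2}` -/
def StAP : Prop :=
  ∀ (I E D : Type) [NonUnitalCStarAlgebra I] [NonUnitalCStarAlgebra E]
    [NonUnitalCStarAlgebra D] (ι : I →⋆ₙₐ[ℂ] E) (π : E →⋆ₙₐ[ℂ] D), IsExt ι π →
    ∀ (S : Finset E) (δ : ℝ), 0 < δ →
    ∃ t : I, Pos t ∧ ‖t‖ ≤ 1 ∧ Pos (cut ι t) ∧ ‖cut ι t‖ ≤ 1 ∧
      cut ι t * cut ι t = 1 - ((ι (t * t) : E) : Unitization ℂ E) ∧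
      (∀ x ∈ S, ‖ι t * x - x * ι t‖ ≤ δ) ∧
      (∀ x ∈ S, ‖cut ι t * (x : Unitization ℂ E) - (x : Unitization ℂ E) * cut ι t‖ ≤ δ) ∧
      (∀ x ∈ S, ‖cut ι t * (x : Unitization ℂ E) * cut ι t‖ ≤ ‖π x‖ + δ) ∧
      (∀ x ∈ S, ‖(x : Unitization ℂ E) - cut ι t * (x : Unitization ℂ E) * cut ι t
        - ((ι t * x * ι t : E) : Unitization ℂ E)‖ ≤ δ) ∧
      ∀ x ∈ S, Pos x → Pos (((‖π x‖ + δ : ℝ) : ℂ) • (1 : Unitization ℂ E)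
        - ((‖π x‖ : ℝ) : ℂ) • ((ι (t * t) : E) : Unitization ℂ E)
        - cut ι t * (x : Unitization ℂ E) * cut ι t)

/-- A2: lifting approximations with commuting colours -/
def StA2 : Prop :=
  ∀ (I E D : Type) [NonUnitalCStarAlgebra I] [NonUnitalCStarAlgebra E]
    [NonUnitalCStarAlgebra D] (ι : I →⋆ₙₐ[ℂ] E) (π : E →⋆ₙₐ[ℂ] D), IsExt ι π →
    ∀ (J : Type) [Fintype J], SysC D J → ∀ (G : Finset E) (ε : ℝ), 0 < ε →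
    ∃ (F : J → FDA) (ψ : ∀ j, E →ₗ[ℂ] (F j).alg), (∀ j, IsCPC (ψ j)) ∧ LiftSys ι J F ψ G ε

/-- NRM2: all colours can be made norm preserving -/
def StNRM2 : Prop :=
  ∀ (A : Type) [NonUnitalCStarAlgebra A] [Nontrivial A] (J : Type) [Fintype J],
    SysAll A J → ∀ (G : Finset A) (ε : ℝ), 0 < ε →
    ∃ (F : J → FDA) (ψ : ∀ j, A →ₗ[ℂ] (F j).alg) (φ : ∀ j, (F j).alg →ₗ[ℂ] A),
      (∀ j, IsCPC (ψ j)) ∧ (∀ j, IsCPC (φ j) ∧ IsOrderZero (φ j)) ∧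
      (∀ a ∈ G, ‖∑ j, φ j (ψ j a) - a‖ ≤ ε) ∧
      (∀ j, Nontrivial (F j).alg) ∧ ∀ j, ∀ a : (F j).alg, ‖a‖ ≤ ‖φ j a * φ j 1‖

/-- ALG2: the algebraic core of the merging, second version -/
def StALG2 : Prop :=
  ∀ (T Q R : Type) [CStarAlgebra T] [CStarAlgebra Q] [CStarAlgebra R] (ω : T →⋆ₐ[ℂ] Q)
    (N : T →ₗ[ℂ] R) (Φ' : R →ₗ[ℂ] Q) (F : FDA) (Φ : F.alg →ₗ[ℂ] T) (v u t : T) (r : Q)
    (ε : ℝ),
    CutE R → SpecS R → 0 < ε →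
    IsCP N → (∀ z, ‖N z‖ ≤ ‖ω z‖) →
    IsCPC Φ' → (∀ a b, Φ' a * Φ' b = Φ' 1 * Φ' (a * b)) → (∀ a, Φ' 1 * Φ' a = 0 → a = 0) →
    (∀ z, ω (z * v) = ω (v * z) →
      Φ' (N z) = Φ' (N 1) * ω z ∧ Φ' (N z) = ω z * Φ' (N 1)) →
    IsCP Φ → (∀ x y, ω (Φ x * Φ y) = ω (Φ 1 * Φ (x * y))) → ‖ω (Φ 1)‖ ≤ 2 →
    Pos u → ‖u‖ ≤ 1 → Pos t → ‖t‖ ≤ 1 → ω (u * t) = ω t →
    ω (v * u) = ω (u * v) → ω (v * t) = ω (t * v) →
    (∀ y, ω (v * Φ y) = ω (Φ y * v)) → (∀ y, ω (u * Φ y) = ω (Φ y * u)) →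
    star r = r → r * ω u = 0 → (∀ y, r * ω (Φ y) = ω (Φ y) * r) →
    ∃ p q : R, Prj p ∧ Prj q ∧
      (∀ x y, (r * ω (Φ x) * r + Φ' (p * N (Φ x) * p)) *
          (r * ω (Φ y) * r + Φ' (p * N (Φ y) * p)) =
        (r * ω (Φ 1) * r + Φ' (p * N (Φ 1) * p)) *
          (r * ω (Φ (x * y)) * r + Φ' (p * N (Φ (x * y)) * p))) ∧
      (r * ω (Φ 1) * r + Φ' (p * N (Φ 1) * p)) * Φ' q = 0 ∧
      Pos (Φ' (N (Φ 1)) - Φ' (p * N (Φ 1) * p)) ∧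
      ∀ (y : F.alg) (z : T), ω (z * v) = ω (v * z) →
        ‖N (Φ y) + N (t * z * t) - p * N (Φ y) * p
          - q * (N (Φ y) + N (t * z * t)) * q‖ ≤ ε * (‖y‖ + ‖z‖)

/-! ## The weights -/

/-- `min (max s 0) 1` -/
def clip (s : ℝ) : ℝ := max 0 (min 1 s)

/-- the function that is `0` for `s ≤ 3 δ` and `1` for `s ≥ 4 δ` -/
def lF (δ s : ℝ) : ℝ := clip ((s - 3 * δ) / δ)

/-- the function that is `0` for `s ≤ 2 δ` and `1` for `s ≥ 3 δ` -/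
def lG (δ s : ℝ) : ℝ := clip ((s - 2 * δ) / δ)

/-- the function that is `1` for `s ≤ δ` and `0` for `s ≥ 2 δ` -/
def tF (δ s : ℝ) : ℝ := clip (2 - s / δ)

/-- the function `1 / max s δ` -/
def kF (δ s : ℝ) : ℝ := 1 / max s δ

/-- the function `1 - s / max s δ` -/
def k1F (δ s : ℝ) : ℝ := 1 - s / max s δ

section weights

variable {A : Type} [CStarAlgebra A]

/-- the square root, for positive elements -/
def sq (x : A) : A := cfc Real.sqrt x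

/-- the weight `l(c - u)` -/
def cutL (δ : ℝ) (c u : A) : A := cfc (lF δ) (c - u)

/-- the element `1 - l'(c - u)` -/
def cutG (δ : ℝ) (c u : A) : A := 1 - cfc (lG δ) (c - u)

/-- the element `τ(c)` -/
def cutT (δ : ℝ) (c : A) : A := cfc (tF δ) c

/-- the element `(1 - l(b - u)) b`, symmetrically -/
def elB (δ : ℝ) (b u : A) : A := sq b * (1 - cutL δ b u) * sq b

/-- the element `t² + c + ∑ (1 - l(b_k - u)) b_k` -/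
def elMu {K : Type} (δ : ℝ) (s : Finset K) (t c u : A) (b : K → A) : A :=
  t * t + c + ∑ k ∈ s, elB δ (b k) u

/-- the element `W = κ(c) μ + k₁(c)`, symmetrically -/
def elW {K : Type} (δ : ℝ) (s : Finset K) (t c u : A) (b : K → A) : A :=
  sq (cfc (kF δ) c) * elMu δ s t c u b * sq (cfc (kF δ) c) + cfc (k1F δ) c

end weights

/-- WMAP: the weights are compatible with homomorphisms -/
def StWMAP : Prop :=
  ∀ (A B : Type) [CStarAlgebra A] [CStarAlgebra B] (ω : A →⋆ₐ[ℂ] B) (K : Type) (s : Finset K)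
    (δ : ℝ), 0 < δ → ∀ (t c u : A) (b : K → A), Pos c → star u = u → (∀ k ∈ s, Pos (b k)) →
    ω (sq c) = sq (ω c) ∧ ω (cutL δ c u) = cutL δ (ω c) (ω u) ∧
    ω (cutG δ c u) = cutG δ (ω c) (ω u) ∧ ω (cutT δ c) = cutT δ (ω c) ∧
    ω (elW δ s t c u b) = elW δ s (ω t) (ω c) (ω u) (fun k => ω (b k))

/-- WPOS: positivity and norms of the weights -/
def StWPOS : Prop :=
  ∀ (A : Type) [CStarAlgebra A] (K : Type) (s : Finset K) (δ : ℝ), 0 < δ →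
    ∀ (t c u : A) (b : K → A), Pos t → Pos c → star u = u → (∀ k ∈ s, Pos (b k)) →
    Pos (sq c) ∧ sq c * sq c = c ∧ (∀ z, z * c = c * z → z * sq c = sq c * z) ∧
    Pos (cutL δ c u) ∧ ‖cutL δ c u‖ ≤ 1 ∧ Pos (1 - cutL δ c u) ∧
    (∀ z, z * c = c * z → z * u = u * z → z * cutL δ c u = cutL δ c u * z) ∧
    Pos (cutG δ c u) ∧ ‖cutG δ c u‖ ≤ 1 ∧
    (∀ z, z * c = c * z → z * u = u * z → z * cutG δ c u = cutG δ c u * z) ∧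
    Pos (cutT δ c) ∧ ‖cutT δ c‖ ≤ 1 ∧
    (∀ z, z * c = c * z → z * cutT δ c = cutT δ c * z) ∧
    Pos (elW δ s t c u b) ∧
    (∀ z, z * t = t * z → z * c = c * z → z * u = u * z → (∀ k ∈ s, z * b k = b k * z) →
      z * elW δ s t c u b = elW δ s t c u b * z)

/-- WQ1: the weight `W` is at least `1`, and `W c` is at most `1 + ε` -/
def StWQ1 : Prop :=
  ∀ (A : Type) [CStarAlgebra A] (K : Type) (s : Finset K) (δ ε : ℝ), 0 < δ → 0 ≤ ε →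
    ∀ (t c u : A) (b : K → A), Pos t → Pos c → Pos u → (∀ k ∈ s, Pos (b k)) →
    t * c = c * t → u * c = c * u → (∀ k ∈ s, b k * c = c * b k) → (∀ k ∈ s, b k * u = u * b k) →
    Pos ((1 + ε : ℂ) • (1 : A) - t * t - c - ∑ k ∈ s, b k) →
    Pos (elW δ s t c u b - 1) ∧ ‖elW δ s t c u b * c‖ ≤ 1 + ε ∧
      Pos ((1 + ε : ℂ) • (1 : A) - elW δ s t c u b * c)

/-- WQ2: supports -/
def StWQ2 : Prop :=
  ∀ (A : Type) [CStarAlgebra A] (δ : ℝ), 0 < δ → ∀ (c u : A), Pos c → Pos u → c * u = u * c →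
    cutG δ c u * cutT δ c = cutT δ c ∧ cutL δ c u * cutG δ c u = 0 ∧
      ∀ e : A, e * u = 0 → e * cutL δ c u = e * cfc (lF δ) c

/-- WQ3: small values -/
def StWQ3 : Prop :=
  ∀ (A : Type) [CStarAlgebra A] (F : FDA) (Φ : F.alg →ₗ[ℂ] A) (δ : ℝ), 0 < δ → IsCP Φ → OZ Φ →
    ∀ (u e : A), Pos u → u * Φ 1 = Φ 1 * u → e * u = 0 → ‖e‖ ≤ 1 →
    ∀ y, ‖e * ((1 - cutL δ (Φ 1) u) * Φ y)‖ ≤ 4 * δ * ‖y‖

/-- WQ4: the estimate -/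
def StWQ4 : Prop :=
  ∀ (J : Type) [Fintype J] [DecidableEq J] (δ C ε' : ℝ), 0 < δ → 0 < ε' →
    ∃ ε : ℝ, 0 < ε ∧ ∀ (A : Type) [CStarAlgebra A] (F : J → FDA) (Φ : ∀ j, (F j).alg →ₗ[ℂ] A)
      (i : J) (t u g : A) (b : J → A) (X : ∀ j, (F j).alg),
      (∀ j, IsCP (Φ j)) → (∀ j, OZ (Φ j)) → (∀ j, ‖Φ j 1‖ ≤ 2) → Pos t → ‖t‖ ≤ 1 → Pos u →
      ‖u‖ ≤ 1 → (∀ j, Pos (b j)) → (∀ j, ‖b j‖ ≤ 2) → ‖g‖ ≤ C → (∀ j, ‖X j‖ ≤ C) →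
      (∀ j y, u * Φ j y = Φ j y * u) → (∀ j, u * b j = b j * u) → u * g = g * u →
      t * u = u * t → t * g = g * t → (∀ y, t * Φ i y = Φ i y * t) →
      (∀ j y, b j * Φ i y = Φ i y * b j) →
      (∀ j, ‖Φ j (X j) - Φ j 1 * g‖ ≤ ε) → (∀ j, ‖Φ j (X j) - g * Φ j 1‖ ≤ ε) →
      (∀ j, ‖Φ i 1 * (b j - Φ j 1) * g‖ ≤ ε) → (∀ j, ‖g * (b j - Φ j 1) * Φ i 1‖ ≤ ε) →
      ∀ Z : A, Z = t * g * t + Φ i (X i) + ∑ k ∈ Finset.univ.erase i,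
          (1 - cutL δ (Φ k 1) u) * Φ k (X k)
          - elW δ (Finset.univ.erase i) t (Φ i 1) u b * Φ i (X i) →
        ‖(1 - cutT δ (Φ i 1)) * Z‖ ≤ ε' ∧ ‖Z * (1 - cutT δ (Φ i 1))‖ ≤ ε'

/-- MRG2: merging all the colours -/
def StMRG2 : Prop :=
  ∀ (J : Type) [Fintype J] (C ε' : ℝ), 0 < ε' → ε' ≤ 1 →
    ∃ ε : ℝ, 0 < ε ∧ ∀ (I E : Type) [NonUnitalCStarAlgebra I] [NonUnitalCStarAlgebra E]
      [Nontrivial I] (ι : I →⋆ₙₐ[ℂ] E), IsIdeal ι → SysAll I J →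
      ∀ (F : J → FDA) (ψ : ∀ j, E →ₗ[ℂ] (F j).alg) (G : Finset E), (∀ j, IsCPC (ψ j)) →
      (∀ g ∈ G, ‖g‖ ≤ C) → LiftSys ι J F ψ G ε →
      ∃ (F' : J → FDA) (ψ' : ∀ c, E →ₗ[ℂ] (F' c).alg) (φ' : ∀ c, (F' c).alg →ₗ[ℂ] E),
        (∀ c, IsCP (ψ' c) ∧ ∀ x, ‖ψ' c x‖ ≤ (1 + ε') * ‖x‖) ∧
        (∀ c, IsCP (φ' c) ∧ IsOrderZero (φ' c) ∧ ∀ y, ‖φ' c y‖ ≤ (1 + ε') * ‖y‖) ∧
        ∀ g ∈ G, ‖∑ c, φ' c (ψ' c g) - g‖ ≤ ε'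

/-- CORE: extensions by quotients with commuting colours -/
def StCORE : Prop :=
  ∀ (I E D : Type) [NonUnitalCStarAlgebra I] [NonUnitalCStarAlgebra E]
    [NonUnitalCStarAlgebra D] (ι : I →⋆ₙₐ[ℂ] E) (π : E →⋆ₙₐ[ℂ] D), IsExt ι π →
    ∀ (J : Type) [Fintype J], SysAll I J → SysC D J → SysAll E J

end Pool.Agent.Helper7_ND
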