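import Pool.Agent.Helper7_ND.Stm8

/-! # Nuclear dimension of extensions: lifting systems, iterated extensions of algebras of real
rank zero -/

set_option autoImplicit false

open scoped Matrix.Norms.L2Operator ENNReal Matrix
open Pool.Agent.W659.EC

noncomputable section

namespace Pool.Agent.Helper7_ND

/-- coloured approximations lift from quotients by `I` -/
def LP (I : Type) [NonUnitalCStarAlgebra I] (J : Type) [Fintype J] : Prop :=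
  ∀ (E D : Type) [NonUnitalCStarAlgebra E] [NonUnitalCStarAlgebra D] (ι : I →⋆ₙₐ[ℂ] E)
    (π : E →⋆ₙₐ[ℂ] D), IsExt ι π → ∀ (G : Finset E) (ε ε' : ℝ), 0 < ε → ε < ε' →
    Sys D J (π '' (G : Set E)) ε → Sys E J (G : Set E) ε'

/-- A1L: lifting one system of a quotient -/
def StA1L : Prop :=
  ∀ (I E D : Type) [NonUnitalCStarAlgebra I] [NonUnitalCStarAlgebra E]
    [NonUnitalCStarAlgebra D] (ι : I →⋆ₙₐ[ℂ] E) (π : E →⋆ₙₐ[ℂ] D), IsExt ι π →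
    ∀ (J : Type) [Fintype J] (F : J → FDA) (ψ : ∀ j, D →ₗ[ℂ] (F j).alg)
      (φ : ∀ j, (F j).alg →ₗ[ℂ] D), (∀ j, IsCPC (ψ j)) → (∀ j, IsCPC (φ j) ∧ IsOrderZero (φ j)) →
    ∀ (G : Finset E) (ε η : ℝ), 0 < ε → 0 < η → (∀ x ∈ G, ‖∑ j, φ j (ψ j (π x)) - π x‖ ≤ ε) →
    ∃ (Φ : ∀ j, (F j).alg →ₗ[ℂ] E) (t : I),
      (∀ j, IsCP (Φ j) ∧ IsOrderZero (Φ j)) ∧ Pos t ∧ ‖t‖ ≤ 1 ∧
      (∀ j, Pos ((1 + η : ℂ) • (1 : Unitization ℂ E)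
            - ((ι (t * t) : E) : Unitization ℂ E) - ((Φ j 1 : E) : Unitization ℂ E))) ∧
      ∀ x ∈ G, ‖x - ∑ j, Φ j (ψ j (π x)) - ι t * x * ι t‖ ≤ ε + η

/-- LP1: lifting for ideals of real rank zero -/
def StLP1 : Prop :=
  ∀ (I : Type) [NonUnitalCStarAlgebra I] (J : Type) [Fintype J], RR0 I → SysAll I J → LP I J

/-- IDT: ideals of ideals are ideals -/
def StIDT : Prop :=
  ∀ (K I E : Type) [NonUnitalCStarAlgebra K] [NonUnitalCStarAlgebra I] [NonUnitalCStarAlgebra E]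
    (κ : K →⋆ₙₐ[ℂ] I) (ι : I →⋆ₙₐ[ℂ] E), IsIdeal κ → IsIdeal ι → IsIdeal (ι.comp κ)

/-- FAC: homomorphisms factor through quotients -/
def StFAC : Prop :=
  ∀ (K E A D : Type) [NonUnitalCStarAlgebra K] [NonUnitalCStarAlgebra E]
    [NonUnitalCStarAlgebra A] [NonUnitalCStarAlgebra D] (κ : K →⋆ₙₐ[ℂ] E) (θ : E →⋆ₙₐ[ℂ] A)
    (π : E →⋆ₙₐ[ℂ] D), IsExt κ θ → (∀ k, π (κ k) = 0) →
    ∃ ρ : A →⋆ₙₐ[ℂ] D, ∀ e, ρ (θ e) = π e

/-- LP2: lifting for extensions -/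
def StLP2 : Prop :=
  ∀ (K K' L : Type) [NonUnitalCStarAlgebra K] [NonUnitalCStarAlgebra K']
    [NonUnitalCStarAlgebra L] (lam : K →⋆ₙₐ[ℂ] K') (ρ : K' →⋆ₙₐ[ℂ] L), IsExt lam ρ →
    ∀ (J : Type) [Fintype J], LP K J → LP L J → LP K' J

/-- LP3: lifting for limits of ideals -/
def StLP3 : Prop :=
  ∀ (I : Type) [NonUnitalCStarAlgebra I] (J : Type) [Fintype J],
    (∀ (C : Finset I) (δ : ℝ), 0 < δ → ∃ (K : Type) (_ : NonUnitalCStarAlgebra K)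
      (κ : K →⋆ₙₐ[ℂ] I), IsIdeal κ ∧ LP K J ∧ ∀ c ∈ C, ∃ k : K, ‖κ k - c‖ ≤ δ) → LP I J

/-- LPC: lifting for unions of chains of ideals -/
def StLPC : Prop :=
  ∀ (E : Type) [NonUnitalCStarAlgebra E] (J : Type) [Fintype J] (c : Set (Set E)),
    IsChain (· ⊆ ·) c → c.Nonempty →
    (∀ S ∈ c, ∃ (K : Type) (_ : NonUnitalCStarAlgebra K) (κ : K →⋆ₙₐ[ℂ] E), IsIdeal κ ∧
      Set.range κ = S ∧ LP K J) →
    ∃ (K : Type) (_ : NonUnitalCStarAlgebra K) (κ : K →⋆ₙₐ[ℂ] E), IsIdeal κ ∧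
      Set.range κ = closure (⋃₀ c) ∧ LP K J

/-- MAIN6: extensions by iterated extensions of algebras of real rank zero -/
def StMAIN6 : Prop :=
  ∀ (I E D : Type) [NonUnitalCStarAlgebra I] [NonUnitalCStarAlgebra E]
    [NonUnitalCStarAlgebra D] (ι : I →⋆ₙₐ[ℂ] E) (π : E →⋆ₙₐ[ℂ] D), IsExt ι π →
    ∀ N : ℕ∞, nucDim D ≤ N →
    (∀ (A : Type) [NonUnitalCStarAlgebra A] (θ : I →⋆ₙₐ[ℂ] A), Function.Surjective θ →
      Nontrivial A → ∃ (L : Type) (_ : NonUnitalCStarAlgebra L) (κ : L →⋆ₙₐ[ℂ] A),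
        IsIdeal κ ∧ Nontrivial L ∧ RR0 L ∧ nucDim L ≤ N) →
    nucDim E ≤ N

end Pool.Agent.Helper7_ND
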